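import Mathlib

/-!
Identities in alternative rings: associator calculus.
-/

namespace Pool.Agent.J6H41.Sep

variable {A : Type*} [NonUnitalNonAssocRing A]

/-- the associator -/
def asr (a b c : A) : A := (a * b) * c - a * (b * c)

/-- alternative rings -/
class IsAlt (A : Type*) [NonUnitalNonAssocRing A] : Prop where
  left : ∀ a b : A, asr a a b = 0
  right : ∀ a b : A, asr b a a = 0

theorem asr_add_left (a a' b c : A) : asr (a + a') b c = asr a b c + asr a' b c := by
  simp only [asr, add_mul]; abel
theorem asr_add_mid (a b b' c : A) : asr a (b + b') c = asr a b c + asr a b' c := by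
  simp only [asr, add_mul, mul_add]; abel
theorem asr_add_right (a b c c' : A) : asr a b (c + c') = asr a b c + asr a b c' := by
  simp only [asr, mul_add]; abel
theorem asr_sub_left (a a' b c : A) : asr (a - a') b c = asr a b c - asr a' b c := by
  simp only [asr, sub_mul]; abel
theorem asr_sub_mid (a b b' c : A) : asr a (b - b') c = asr a b c - asr a b' c := by
  simp only [asr, sub_mul, mul_sub]; abel
theorem asr_sub_right (a b c c' : A) : asr a b (c - c') = asr a b c - asr a b c' := by
  simp only [asr, mul_sub]; abel
theorem asr_neg_left (a b c : A) : asr (-a) b c = - asr a b c := by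
  simp only [asr, neg_mul]; abel
theorem asr_neg_mid (a b c : A) : asr a (-b) c = - asr a b c := by
  simp only [asr, neg_mul, mul_neg]; abel
theorem asr_neg_right (a b c : A) : asr a b (-c) = - asr a b c := by
  simp only [asr, mul_neg]; abel
theorem asr_zero_left (b c : A) : asr 0 b c = 0 := by simp [asr]
theorem asr_zero_mid (b c : A) : asr b 0 c = 0 := by simp [asr]
theorem asr_zero_right (b c : A) : asr b c 0 = 0 := by simp [asr]

variable [IsAlt A]

theorem s12 (a b c : A) : asr b a c = - asr a b c := by
  have h := IsAlt.left (a + b) c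
  have ha := IsAlt.left a c
  have hb := IsAlt.left b c
  simp only [asr_add_left, asr_add_mid] at h
  linear_combination (norm := abel) h - ha - hb

theorem s23 (a b c : A) : asr a c b = - asr a b c := by
  have h := IsAlt.right (b + c) a
  have ha := IsAlt.right b a
  have hb := IsAlt.right c a
  simp only [asr_add_right, asr_add_mid] at h
  linear_combination (norm := abel) h - ha - hb

theorem s13 (a b c : A) : asr c b a = - asr a b c := by
  rw [s12 b c a, s23 b a c, s12 a b c]; simp

theorem cyc (a b c : A) : asr b c a = asr a b c := by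
  rw [s23 b a c, s12 a b c]; simp

theorem cyc' (a b c : A) : asr c a b = asr a b c := by
  rw [s12 a c b, s23 a b c]; simp

theorem asr_self13 (a b : A) : asr a b a = 0 := by
  rw [s12 b a a, IsAlt.right]; simp

/-- the function `f` of Kleinfeld -/
def kf (w x y z : A) : A := asr (w * x) y z - x * asr w y z - asr x y z * w

theorem kf34 (w x y z : A) : kf w x z y = - kf w x y z := by
  simp only [kf, s23 (w * x) y z, s23 w y z, s23 x y z]
  simp only [mul_neg, neg_mul]; abel

/-- the Teichmueller identity -/
theorem teich (w x y z : A) :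
    asr (w * x) y z - asr w (x * y) z + asr w x (y * z) - w * asr x y z - asr w x y * z = 0 := by
  simp only [asr, mul_sub, sub_mul]; abel

theorem kf_cyc (w x y z : A) : kf z w x y = - kf w x y z := by
  have h1 := teich w x y z
  have h2 := teich x y z w
  rw [← cyc w (x * y) z, ← cyc' w x (y * z)] at h1
  rw [← cyc x (y * z) w, ← cyc' x y (z * w), cyc w y z] at h2
  simp only [kf, cyc' x y z]
  linear_combination (norm := abel) h1 + h2

theorem kf23 (w x y z : A) : kf w y x z = - kf w x y z := by
  have h1 := kf_cyc w x y z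
  have h2 := kf34 z w x y
  have h3 := kf_cyc w y x z
  rw [h2] at h3
  linear_combination (norm := abel) h1 + h3

theorem kf12 (w x y z : A) : kf x w y z = - kf w x y z := by
  have h1 := kf_cyc w x y z
  have h2 := kf23 z w x y
  have h3 := kf_cyc x w y z
  rw [h2] at h3
  linear_combination (norm := abel) h1 + h3

theorem kf_cyc3 (w x y z : A) : kf w y z x = kf w x y z := by
  rw [kf34 w y x z, kf23 w x y z]; simp

/-- `3 f` -/
theorem kf3 (w x y z : A) : kf w x y z + kf w x y z + kf w x y z =
    (w * asr x y z - asr x y z * w) - (x * asr w y z - asr w y z * x)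
      + (y * asr x z w - asr x z w * y) - (z * asr w x y - asr w x y * z) := by
  have h1 := teich w x y z
  rw [← cyc w (x * y) z, ← cyc' w x (y * z)] at h1
  have e1 : kf w x y z = asr (w * x) y z - x * asr w y z - asr x y z * w := rfl
  have e2 : kf x y z w = asr (x * y) z w - y * asr x z w - asr y z w * x := rfl
  have e3 : kf y z w x = asr (y * z) w x - z * asr y w x - asr z w x * y := rfl
  have e4 := kf_cyc x y z w
  have e5 := kf_cyc y z w x
  rw [cyc w y z] at e2
  have r1 : asr y w x = asr w x y := cyc' w x y
  have r2 : asr z w x = asr x z w := (cyc' z w x).symm.trans rfl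
  rw [r1, r2] at e3
  linear_combination (norm := abel) h1 + e1 - e2 + e3 + e4 + e4 - e5

/-- `(ab,p,q) = a(b,p,q) + (a,p,q)b - (a,b,[p,q])` -/
theorem assoc_mul (a b p q : A) :
    asr (a * b) p q = a * asr b p q + asr a p q * b - asr a b (p * q - q * p) := by
  have h := kf3 a b p q
  have e1 : kf a b p q = asr (a * b) p q - b * asr a p q - asr b p q * a := rfl
  have e2 : kf p q a b = asr (p * q) a b - q * asr p a b - asr q a b * p := rfl
  have e3 : kf q p a b = asr (q * p) a b - p * asr q a b - asr p a b * q := rfl
  have e4 := kf12 p q a b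
  have e5 : kf p q a b = kf a b p q := by
    have t1 := kf_cyc q a b p
    have t2 := kf_cyc a b p q
    rw [t1, t2]; simp
  have r1 : asr p a b = asr a b p := cyc' a b p
  have r2 : asr q a b = asr b q a := (cyc' q a b).symm
  rw [asr_sub_right, ← cyc' a b (p * q), ← cyc' a b (q * p)]
  rw [r1, r2] at e2 e3
  linear_combination (norm := abel) h - e1 - e2 + e3 + e5 + e5 - e4

theorem kf_comm (a b p q : A) :
    asr (a * b - b * a) p q = kf a b p q + kf a b p q
      - (a * asr b p q - asr b p q * a) + (b * asr a p q - asr a p q * b) := by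
  have e1 : kf a b p q = asr (a * b) p q - b * asr a p q - asr b p q * a := rfl
  have e2 : kf b a p q = asr (b * a) p q - a * asr b p q - asr a p q * b := rfl
  have e3 := kf12 a b p q
  rw [asr_sub_left]
  linear_combination (norm := abel) e2 - e1 - e3

/-- commutator with `x` -/
def X (x a : A) : A := x * a - a * x

/-- `a ∗ b = (x,a,b)` -/
def st (x a b : A) : A := asr x a b

section
omit [IsAlt A]
theorem X_add (x a b : A) : X x (a + b) = X x a + X x b := by simp only [X, mul_add, add_mul]; abel
theorem X_sub (x a b : A) : X x (a - b) = X x a - X x b := by simp only [X, mul_sub, sub_mul]; abel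
theorem X_neg (x a : A) : X x (-a) = - X x a := by simp only [X, mul_neg, neg_mul]; abel
theorem X_zero (x : A) : X x 0 = 0 := by simp [X]
theorem st_add_left (x a a' b : A) : st x (a + a') b = st x a b + st x a' b := asr_add_mid _ _ _ _
theorem st_sub_left (x a a' b : A) : st x (a - a') b = st x a b - st x a' b := asr_sub_mid _ _ _ _
theorem st_neg_left (x a b : A) : st x (-a) b = - st x a b := asr_neg_mid _ _ _
theorem st_add_right (x a b b' : A) : st x a (b + b') = st x a b + st x a b' := asr_add_right _ _ _ _
theorem st_sub_right (x a b b' : A) : st x a (b - b') = st x a b - st x a b' := asr_sub_right _ _ _ _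
theorem st_neg_right (x a b : A) : st x a (-b) = - st x a b := asr_neg_right _ _ _
end

variable (x : A)

theorem st_swap (a b : A) : st x b a = - st x a b := s23 _ _ _

/-- `X(ab) = (Xa)b + a(Xb) - 3 a∗b` -/
theorem X_mul (a b : A) :
    X x (a * b) = X x a * b + a * X x b - st x a b - st x a b - st x a b := by
  have h1 : asr a x b = - asr x a b := s12 x a b
  have h2 : asr a b x = asr x a b := cyc x a b
  simp only [X, st, sub_mul, mul_sub]
  simp only [asr] at h1 h2 ⊢
  linear_combination (norm := abel) h1 - h2

omit x in
theorem kf_self34 (w x y : A) : kf w x y y = 0 := by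
  simp [kf, IsAlt.right]

omit x in
theorem kf_self12 (w x y : A) : kf y y w x = 0 := by
  rw [kf_cyc y w x y, kf_cyc w x y y, kf_self34]; simp

omit x in
theorem kf_self13 (w x y : A) : kf y w y x = 0 := by
  rw [kf23 y y w x, kf_self12]; simp

omit x in
theorem kf_self14 (w x y : A) : kf y w x y = 0 := by
  rw [kf_cyc w x y y, kf_self34]; simp

/-- `(x, xa, b) = (x,a,b) x` -/
theorem st_xmul (a b : A) : st x (x * a) b = st x a b * x := by
  have h1 := kf_self13 a b x
  have h2 := s12 (x * a) x b
  have h3 := s12 a x b
  simp only [kf, IsAlt.left, mul_zero, sub_zero] at h1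
  simp only [st, h2]
  rw [h3, neg_mul]
  linear_combination (norm := abel) - h1

/-- `(x, ax, b) = x (x,a,b)` -/
theorem st_mulx (a b : A) : st x (a * x) b = x * st x a b := by
  have h1 : kf a x x b = 0 := by rw [kf_cyc x x b a, kf_self12]; simp
  have h2 := s12 (a * x) x b
  have h3 := s12 a x b
  simp only [kf, IsAlt.left, zero_mul, sub_zero] at h1
  simp only [st, h2]
  rw [h3, mul_neg]
  linear_combination (norm := abel) - h1

/-- `Xa ∗ b = - X (a ∗ b)` -/
theorem st_X_left (a b : A) : st x (X x a) b = - X x (st x a b) := by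
  rw [X, st_sub_left, st_xmul, st_mulx, X]; abel

theorem st_X_right (a b : A) : st x a (X x b) = - X x (st x a b) := by
  rw [st_swap x (X x b) a, st_X_left, st_swap x a b, X_neg]; simp

/-- C7 -/
theorem st_mul (a b c : A) :
    st x (a * b) c = a * st x b c + st x a c * b + asr a b (X x c) := by
  have h := assoc_mul a b c x
  rw [cyc x (a * b) c, cyc x b c, cyc x a c] at h
  rw [st, st, st, h, X]
  simp only [asr_sub_right]; abel

/-- `f(x,a,b,c)` -/
def F (x a b c : A) : A := kf x a b c

theorem F23 (a b c : A) : F x a c b = - F x a b c := kf34 _ _ _ _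
theorem F12 (a b c : A) : F x b a c = - F x a b c := kf23 _ _ _ _
theorem Fcyc (a b c : A) : F x b c a = F x a b c := kf_cyc3 _ _ _ _

/-- commutator -/
def cm (a b : A) : A := a * b - b * a

/-- C17 -/
theorem X_asr (a b c : A) : X x (asr a b c) =
    F x a b c + F x a b c + F x a b c + cm a (st x b c) + cm b (st x c a) + cm c (st x a b) := by
  have h := kf3 x a b c
  have r1 : asr a c x = - st x c a := by rw [cyc x a c]; exact s23 _ _ _
  rw [r1] at h
  simp only [X, cm, F, st] at h ⊢
  simp only [mul_neg, neg_mul] at h
  linear_combination (norm := abel) - h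

/-- C9 -/
theorem asr_X (a b c : A) : asr (X x a) b c =
    - F x a b c - cm b (st x c a) - cm c (st x a b) := by
  have h := kf_comm x a b c
  have h2 := X_asr x a b c
  simp only [X, cm, F, st] at h h2 ⊢
  linear_combination (norm := abel) h - h2

omit [IsAlt A] in
theorem kf_sub2 (w x x' y z : A) : kf w (x - x') y z = kf w x y z - kf w x' y z := by
  simp only [kf, asr, mul_sub, sub_mul]; abel

theorem kf_even (w x y z : A) : kf y z w x = kf w x y z := by
  rw [kf_cyc z w x y, kf_cyc w x y z]; simp

/-- `f(x, xb, c, a)` -/
theorem kf_x_xb (a b c : A) : kf x (x * b) c a =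
    st x b (c * a) * x - a * (st x b c * x) - (st x b a * x) * c := by
  have h := kf_even x (x * b) c a
  have key : ∀ u, asr u x (x * b) = st x b u * x := fun u => by
    rw [← cyc u x (x * b)]; exact st_xmul x b u
  rw [← h, kf, key, key, key]

theorem kf_x_bx (a b c : A) : kf x (b * x) c a =
    x * st x b (c * a) - a * (x * st x b c) - (x * st x b a) * c := by
  have h := kf_even x (b * x) c a
  have key : ∀ u, asr u x (b * x) = x * st x b u := fun u => by
    rw [← cyc u x (b * x)]; exact st_mulx x b u
  rw [← h, kf, key, key, key]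

/-- (P1) -/
theorem F_X (a b c : A) : F x (X x b) c a =
    - X x (st x b (c * a)) + a * X x (st x b c) + X x (st x b a) * c := by
  rw [F, X, kf_sub2, kf_x_xb, kf_x_bx]
  simp only [X, mul_sub, sub_mul]; abel

/-- `K_a = (b∗c)∗a` -/
def K (x a b c : A) : A := st x (st x b c) a

theorem X_st_mul (a b c : A) : X x (st x b (c * a)) =
    - (X x c * st x a b + c * X x (st x a b) + K x c a b + K x c a b + K x c a b)
    + (X x (st x b c) * a + st x b c * X x a - K x a b c - K x a b c - K x a b c)
    - X x (asr (X x b) c a) := by
  have h1 : st x b (c * a) = - (c * st x a b) + st x b c * a - asr (X x b) c a := by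
    rw [st_swap x (c * a) b, st_mul, cyc (X x b) c a, st_swap x b c, neg_mul]; abel
  rw [h1, X_sub, X_add, X_neg, X_mul, X_mul]
  have h2 : st x c (st x a b) = - K x c a b := by rw [K]; exact st_swap _ _ _
  have h3 : st x (st x b c) a = K x a b c := rfl
  rw [h2, h3]; abel

omit [IsAlt A] in
theorem cm_neg_right (a b : A) : cm a (-b) = - cm a b := by simp only [cm, mul_neg, neg_mul]; abel
omit [IsAlt A] in
theorem cm_neg_left (a b : A) : cm (-a) b = - cm a b := by simp only [cm, mul_neg, neg_mul]; abel

/-- (I) -/
theorem F_I (a b c : A) : - F x (X x b) c a - F x (X x b) c a =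
    X x c * st x a b - st x b c * X x a + K x a b c + K x a b c + K x a b c
      + K x c a b + K x c a b + K x c a b + cm (X x b) (st x c a) := by
  have h1 := F_X x a b c
  have h2 := X_st_mul x a b c
  have h3 := X_asr x (X x b) c a
  rw [st_X_left, st_X_right] at h3
  have h4 : st x b a = - st x a b := st_swap _ _ _
  rw [h4, X_neg] at h1
  rw [cm_neg_right, cm_neg_right] at h3
  simp only [cm] at h3 ⊢
  rw [h2, h3] at h1
  linear_combination (norm := (simp only [neg_mul]; abel)) h1

theorem K_swap (a b c : A) : K x a c b = - K x a b c := by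
  rw [K, K, st_swap x b c, st_neg_left]

/-- cyclic symmetry of `E(a;b,c) = Xa ∘ (b∗c)` -/
theorem E_cyc (a b c : A) : X x c * st x a b + st x a b * X x c =
    X x a * st x b c + st x b c * X x a := by
  have h1 := F_I x a b c
  have h2 := F_I x c b a
  have h3 : F x (X x b) a c = - F x (X x b) c a := F23 _ _ _ _
  rw [h3, K_swap x c a b, K_swap x a b c, st_swap x b c, st_swap x a b, st_swap x c a,
    cm_neg_right] at h2
  linear_combination (norm := (simp only [mul_neg, neg_mul]; abel)) -h1 - h2

/-- (IV') -/
theorem F_IV (a b c : A) : F x a b (X x c) =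
    K x c a b - K x a b c - K x a b c - K x b c a - K x b c a
      - X x a * st x b c + st x c a * X x b := by
  have h0 : K x c a b = st x ((x * a) * b) c - st x (x * (a * b)) c := by
    rw [K, ← st_sub_left]; rfl
  have h1 : st x ((x * a) * b) c = (x * a) * st x b c + (st x a c * x) * b
      + asr (x * a) b (X x c) := by rw [st_mul, st_xmul]
  have h2 : st x (x * (a * b)) c = (a * st x b c + st x a c * b + asr a b (X x c)) * x := by
    rw [st_xmul, st_mul]
  have h3 : F x a b (X x c) = asr (x * a) b (X x c) - a * st x b (X x c)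
      - asr a b (X x c) * x := rfl
  have h4 : st x b (X x c) = - X x (st x b c) := st_X_right _ _ _
  have h5 : (x * a) * st x b c - (a * st x b c) * x =
      X x (a * st x b c) + st x a (st x b c) := by
    simp only [X, st, asr]; abel
  have h6 : (st x a c * x) * b - (st x a c * b) * x =
      st x a c * X x b - st x (st x a c) b - st x (st x a c) b := by
    have e1 : asr (st x a c) x b = - st x (st x a c) b := s12 _ _ _
    have e2 : asr (st x a c) b x = st x (st x a c) b := cyc _ _ _
    simp only [asr] at e1 e2
    simp only [X, mul_sub]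
    linear_combination (norm := abel) e1 - e2
  have h7 := X_mul x a (st x b c)
  have h8 : st x a (st x b c) = - K x a b c := st_swap _ _ _
  have h9 : st x (st x a c) b = - K x b c a := by
    rw [st_swap x c a, st_neg_left]; rfl
  have h10 : st x a c = - st x c a := st_swap _ _ _
  rw [h8] at h5 h7
  rw [h9] at h6
  rw [h4] at h3
  rw [h1, h2] at h0
  rw [h7] at h5
  rw [h10] at h0 h6
  rw [h3]
  simp only [add_mul, neg_mul, mul_neg] at h0 h6 ⊢
  linear_combination (norm := abel) - h0 - h5 - h6

/-- `J∗` -/
def J (x a b c : A) : A := K x a b c + K x b c a + K x c a b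

/-- C6 -/
theorem F_C6 (a b c : A) : F x (X x c) a b = - J x a b c - cm (X x c) (st x a b) := by
  have h1 := F_IV x a b c
  have h2 := F_I x b c a
  have h3 : F x (X x c) a b = F x a b (X x c) := (Fcyc x (X x c) a b).symm
  rw [J]
  linear_combination (norm := abel) - h1 - h2 - h3

/-- (VI) -/
theorem F_VI (a b c : A) : K x c a b - K x a b c =
    - F x (X x a) b c - K x b c a - K x b c a - K x b c a - cm (X x b) (st x c a) := by
  have w1 : kf x a (x * b) c = st x b (c * a) * x - a * (st x b c * x) - (st x b a * x) * c := by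
    rw [← kf_cyc3 x a (x * b) c, kf_x_xb]
  have w2 : kf x a (x * b) c = asr ((x * b) * c) x a - c * asr (x * b) x a
      - asr c x a * (x * b) := by
    rw [← kf_even x a (x * b) c, kf]
  have e1 : asr ((x * b) * c) x a = - st x ((x * b) * c) a := s12 _ _ _
  have e2 : st x ((x * b) * c) a = (x * b) * st x c a + (st x b a * x) * c
      + asr (x * b) c (X x a) := by rw [st_mul, st_xmul]
  have e3 : asr (x * b) x a = - (st x b a * x) := by
    rw [← st_xmul]; exact s12 _ _ _
  have e4 : asr c x a = - st x c a := s12 _ _ _
  have e5 : asr (x * b) c (X x a) = kf x b c (X x a) + b * asr x c (X x a)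
      + asr b c (X x a) * x := by rw [kf]; abel
  have e6 : asr x c (X x a) = - X x (st x c a) := st_X_right _ _ _
  have e7 : asr b c (X x a) = asr (X x a) b c := cyc _ _ _
  have e8 := asr_X x a b c
  have e9 : kf x b c (X x a) = F x (X x a) b c := by
    rw [kf_cyc3 x (X x a) b c]; rfl
  have e10 : st x b (c * a) = - (c * st x a b) + st x b c * a - asr (X x b) c a := by
    rw [st_swap x (c * a) b, st_mul, cyc (X x b) c a, st_swap x b c, neg_mul]; abel
  have e11 := asr_X x b c a
  have e12 : st x b a = - st x a b := st_swap _ _ _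
  rw [e7, e8] at e5
  rw [e6, e9] at e5
  rw [e5] at e2
  rw [e1, e2, e3, e4] at w2
  rw [e10, e11] at w1
  rw [e12] at w1 w2
  rw [w1] at w2
  -- residual associators
  have r1 : asr c (st x a b) x = - K x c a b := by
    rw [cyc x c (st x a b)]; exact st_swap _ _ _
  have r2 : asr a (st x b c) x = - K x a b c := by
    rw [cyc x a (st x b c)]; exact st_swap _ _ _
  have r3 : asr b (st x c a) x = - K x b c a := by
    rw [cyc x b (st x c a)]; exact st_swap _ _ _
  have r4 : asr (st x c a) b x = K x b c a := by
    rw [cyc x (st x c a) b]; rfl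
  have r5 : asr b x (st x c a) = K x b c a := by
    rw [s12 x b (st x c a), ← s23 x b (st x c a)]; rfl
  have r6 : F x b c a * x = F x a b c * x := by rw [Fcyc]
  simp only [asr] at r1 r2 r3 r4 r5
  simp only [X, cm, mul_sub, sub_mul, mul_add, add_mul, mul_neg, neg_mul] at w2 ⊢
  linear_combination (norm := abel) w2 + r1 - r2 + r3 - r4 - r5 - r6

/-- `Θ(a,b,c)` -/
def Th (x a b c : A) : A := cm (X x a) (st x b c) + K x a b c + K x a b c

/-- C13 -/
theorem Th_cyc (a b c : A) : Th x b c a = Th x a b c := by
  have h1 := F_VI x a b c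
  have h2 := F_C6 x b c a
  simp only [J, Th] at h2 ⊢
  linear_combination (norm := abel) h1 - h2

theorem Th_swap (a b c : A) : Th x a c b = - Th x a b c := by
  rw [Th, Th, K_swap, st_swap x b c, cm_neg_right]; abel

/-- (V) -/
theorem W_eq (a b c : A) : X x a * st x b c - st x c a * X x b =
    Th x c a b - K x a b c - K x b c a := by
  have h1 := F_IV x a b c
  have h2 := F_C6 x a b c
  have h3 : F x (X x c) a b = F x a b (X x c) := (Fcyc x (X x c) a b).symm
  rw [J] at h2
  rw [Th]
  linear_combination (norm := abel) h1 - h2 + h3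

/-- `E(a;b,c) = Xa ∘ (b∗c)` -/
def E (x a b c : A) : A := X x a * st x b c + st x b c * X x a

theorem E_rot (a b c : A) : E x b c a = E x a b c := (E_cyc x b c a).symm

theorem E_swap (a b c : A) : E x a c b = - E x a b c := by
  rw [E, E, st_swap x b c, mul_neg, neg_mul]; abel

/-- `P = [Xa, X(b∗c)] - 2 X K_a` -/
def Pp (x a b c : A) : A := cm (X x a) (X x (st x b c)) - X x (K x a b c) - X x (K x a b c)

theorem K_X1 (a b c : A) : K x (X x a) b c = - X x (K x a b c) := by
  rw [K, st_X_right]; rfl
theorem K_X2 (a b c : A) : K x a (X x b) c = X x (K x a b c) := by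
  rw [K, st_X_left, st_neg_left, st_X_left]; simp [K]
theorem K_X3 (a b c : A) : K x a b (X x c) = X x (K x a b c) := by
  rw [K, st_X_right, st_neg_left, st_X_left]; simp [K]

theorem Th_X2 (a b c : A) : Th x a (X x b) c = - Pp x a b c := by
  rw [Th, Pp, K_X2, st_X_left, cm_neg_right]; abel
theorem Th_X3 (a b c : A) : Th x a b (X x c) = - Pp x a b c := by
  rw [Th, Pp, K_X3, st_X_right, cm_neg_right]; abel

theorem Pp_cyc (a b c : A) : Pp x b c a = Pp x a b c := by
  have h1 := Th_cyc x a b (X x c)
  rw [Th_X2, Th_X3] at h1
  linear_combination (norm := abel) - h1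

/-- the bilinear map `π` -/
def pi' (x a b : A) : A := X x a * X x b + X x (st x a b)

/-- `(x, π(a,b), c) = 0` -/
theorem st_pi (a b c : A) : st x (pi' x a b) c = 0 := by
  have h1 : st x (pi' x a b) c = - (X x a * X x (st x b c)) + X x (st x c a) * X x b
      + asr (X x a) (X x b) (X x c) - X x (K x c a b) := by
    rw [pi', st_add_left, st_mul, st_X_left, st_X_left, st_X_left, st_swap x c a, X_neg, K]
    simp only [mul_neg, neg_mul]; abel
  have h2 := asr_X x a (X x b) (X x c)
  rw [st_X_left, st_X_right, cm_neg_right, cm_neg_right] at h2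
  have h3 := F_C6 x (X x c) a b
  have h4 := W_eq x a b (X x c)
  have h5 : F x (X x b) (X x c) a = F x a (X x b) (X x c) := Fcyc _ _ _ _
  rw [J, K_X1, K_X3, K_X2, h5, st_X_left, cm_neg_right] at h3
  have h6 : Th x (X x c) a b = - Pp x a b c := by rw [← Th_cyc, Th_X3]
  have h7 := Pp_cyc x c a b
  rw [h6, K_X3, K_X2, st_X_right, st_X_left] at h4
  simp only [mul_neg, neg_mul] at h4
  have h8 : Pp x c a b = cm (X x c) (X x (st x a b)) - X x (K x c a b) - X x (K x c a b) := rfl
  rw [h1]
  linear_combination (norm := abel) h2 - h3 + h4 - h7 - h8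

/-- `λ(a,b) = [x, π(a,b)]` -/
def lam (x a b : A) : A := X x (pi' x a b)

/-- if `(x,m,A) = 0` then `[x,m]` lies in the (left) nucleus -/
theorem asr_X_of (m : A) (hm : ∀ b, st x m b = 0) (p q : A) : asr (X x m) p q = 0 := by
  have h1 := asr_X x m p q
  have h2 : F x m p q = 0 := by
    have e : F x m p q = kf p q x m := (kf_even x m p q).symm
    have key : ∀ u, asr u x m = 0 := fun u => by
      rw [← cyc u x m]; exact hm u
    rw [e, kf, key, key, key]; simp
  rw [h1, h2, hm p, st_swap x m q, hm q]
  simp [cm]

theorem lam_nuc (a b p q : A) : asr (lam x a b) p q = 0 :=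
  asr_X_of x _ (fun c => st_pi x a b c) p q

theorem XTh (a b c : A) : X x (Th x a b c) = 0 := by
  -- `Θ(Xa,b,c)` computed in two ways
  have e1 : Th x (X x a) b c = X x (Th x a b c) - Pp x a b c := by
    rw [Th, Th, Pp, K_X1, X_add, X_add]
    have h := X_mul x (X x a) (st x b c)
    have h' := X_mul x (st x b c) (X x a)
    have h2 : st x (X x a) (st x b c) = X x (K x a b c) := by
      rw [st_swap x (st x b c) (X x a), st_X_right]; simp [K]
    have h3 : st x (st x b c) (X x a) = - X x (K x a b c) := st_X_right _ _ _
    rw [h2] at h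
    rw [h3] at h'
    simp only [cm, X_sub]
    rw [h, h']; abel
  have e2 : Th x (X x a) b c = - Pp x b c a := by
    have h1 := Th_cyc x (X x a) b c
    rw [Th_X3] at h1
    exact h1.symm
  have e3 := Pp_cyc x a b c
  rw [e1] at e2
  linear_combination (norm := abel) e2 - e3

theorem XE (a b c : A) : X x (X x a * st x b c) + X x (st x b c * X x a) = 0 := by
  have t1 := E_rot x (X x a) b c
  have t2 := E_rot x a b (X x c)
  simp only [E] at t1 t2
  rw [st_X_right] at t1 t2
  rw [st_X_left] at t2
  have h := X_mul x (X x a) (st x b c)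
  have h' := X_mul x (st x b c) (X x a)
  have h2 : st x (st x b c) (X x a) = - st x (X x a) (st x b c) := st_swap _ _ _
  rw [h2] at h'
  simp only [mul_neg, neg_mul] at t1 t2
  rw [h, h']
  linear_combination (norm := abel) - t1 + t2

/-- `2 X (Xa (b∗c)) = - 2 X K_a` -/
theorem XXn (a b c : A) : X x (X x a * st x b c) + X x (X x a * st x b c) =
    - X x (K x a b c) - X x (K x a b c) := by
  have h1 := XE x a b c
  have h2 := XTh x a b c
  simp only [Th, cm, X_add, X_sub] at h2
  linear_combination (norm := abel) h1 + h2

theorem XnX (a b c : A) : X x (st x b c * X x a) + X x (st x b c * X x a) =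
    X x (K x a b c) + X x (K x a b c) := by
  have h1 := XE x a b c
  have h2 := XTh x a b c
  simp only [Th, cm, X_add, X_sub] at h2
  linear_combination (norm := abel) h1 - h2

theorem J_cyc (a b c : A) : J x b c a = J x a b c := by
  simp only [J]; abel

theorem asr_XX (a b c : A) : asr (X x a) (X x b) c = J x a b c + cm c (X x (st x a b)) := by
  have h2 := asr_X x a (X x b) c
  rw [st_X_right, cm_neg_right] at h2
  have h3 := F_C6 x c a b
  have h5 : F x (X x b) c a = F x a (X x b) c := Fcyc _ _ _ _
  have h6 : J x a b c = J x c a b := J_cyc x c a b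
  rw [h5] at h3
  rw [h6]
  linear_combination (norm := abel) h2 - h3

/-- W1 -/
theorem W1 (a b c : A) : X x c * X x (st x a b) - X x (st x b c) * X x a =
    Pp x a b c + X x (K x a b c) + X x (K x c a b) := by
  have h4 := W_eq x c a (X x b)
  have h6 : Th x (X x b) c a = - Pp x c a b := by rw [← Th_cyc, Th_X3]
  rw [h6, K_X3, K_X2, st_X_right, st_X_left] at h4
  have h7 := Pp_cyc x c a b
  simp only [mul_neg, neg_mul] at h4
  linear_combination (norm := abel) -h7 - h4

/-- the coboundary of `π` -/
theorem dpi (a b c : A) : a * pi' x b c - pi' x (a * b) c + pi' x a (b * c) - pi' x a b * c =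
    - J x a b c - J x a b c - J x a b c
      - (K x a b c + K x a b c + K x a b c) - (K x b c a + K x b c a + K x b c a)
      - (K x b c a + K x b c a + K x b c a) - (K x c a b + K x c a b + K x c a b)
      - cm a (X x (st x b c)) - cm c (X x (st x a b))
      - cm b (X x (st x c a)) - cm b (X x (st x c a))
      + (st x a b * X x c + st x a b * X x c + st x a b * X x c + st x a b * X x c)
      - (X x a * st x b c + X x a * st x b c + X x a * st x b c + X x a * st x b c)
      - cm (X x b) (st x c a)
      - X x (asr a b (X x c)) - X x (asr b c (X x a)) := by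
  have a1 := asr_XX x a b c
  have a2 : asr (X x a) b (X x c) = J x a b c + cm b (X x (st x c a)) := by
    have h := asr_XX x c a b
    have h' : asr (X x c) (X x a) b = asr (X x a) b (X x c) := cyc' _ _ _
    have h'' : J x a b c = J x c a b := J_cyc x c a b
    rw [← h', h'']; exact h
  have a3 : asr a (X x b) (X x c) = J x a b c + cm a (X x (st x b c)) := by
    have h := asr_XX x b c a
    have h' : asr (X x b) (X x c) a = asr a (X x b) (X x c) := cyc _ _ _
    have h'' : J x b c a = J x a b c := J_cyc x a b c
    rw [← h', ← h'']; exact h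
  have p1 : X x (st x (a * b) c) = X x a * st x b c + a * X x (st x b c)
      + (K x a b c + K x a b c + K x a b c) - X x (st x c a) * b - st x c a * X x b
      + (K x b c a + K x b c a + K x b c a) + X x (asr a b (X x c)) := by
    have e1 : st x a (st x b c) = - K x a b c := st_swap _ _ _
    have e2 : st x (st x a c) b = - K x b c a := by
      rw [st_swap x c a, st_neg_left]; rfl
    rw [st_mul, X_add, X_add, X_mul, X_mul, e1, e2, st_swap x c a, X_neg]
    simp only [neg_mul]; abel
  have p2 : X x (st x a (b * c)) = - (X x b * st x c a) - b * X x (st x c a)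
      - (K x b c a + K x b c a + K x b c a) + X x (st x a b) * c + st x a b * X x c
      - (K x c a b + K x c a b + K x c a b) - X x (asr b c (X x a)) := by
    have e1 : st x b (st x c a) = - K x b c a := st_swap _ _ _
    have e2 : st x (st x b a) c = - K x c a b := by
      rw [st_swap x a b, st_neg_left]; rfl
    rw [st_swap x (b * c) a, X_neg, st_mul, X_add, X_add, X_mul, X_mul, e1, e2, st_swap x a b, X_neg]
    simp only [neg_mul]; abel
  simp only [pi', p1, p2, X_mul x a b, X_mul x b c, mul_add, add_mul, sub_mul, mul_sub]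
  simp only [asr] at a1 a2 a3
  simp only [cm] at a1 a2 a3 ⊢
  linear_combination (norm := abel) - a1 - a2 - a3

theorem XX_asr (a b c : A) : X x (X x (asr a b (X x c))) =
    - X x (J x a b c) - X x (J x a b c) - X x (J x a b c)
      + (X x (K x c a b) + X x (K x c a b) + X x (K x c a b) + X x (K x c a b))
      - X x (cm a (X x (st x b c))) - X x (cm b (X x (st x c a))) := by
  have h1 := X_asr x a b (X x c)
  have h2 := F_C6 x a b c
  have h3 : F x (X x c) a b = F x a b (X x c) := (Fcyc x (X x c) a b).symm
  have h4 : st x b (X x c) = - X x (st x b c) := st_X_right _ _ _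
  have h5 : st x (X x c) a = - X x (st x c a) := st_X_left _ _ _
  rw [h4, h5, cm_neg_right, cm_neg_right, ← h3, h2] at h1
  have h6 := XTh x c a b
  rw [Th, X_add, X_add] at h6
  rw [h1]
  simp only [X_add, X_sub, X_neg]
  linear_combination (norm := abel) - h6 - h6

theorem X_dpi (a b c : A) :
    X x (a * pi' x b c - pi' x (a * b) c + pi' x a (b * c) - pi' x a b * c) =
      - X x (K x b c a) := by
  rw [dpi]
  have h1 := XX_asr x a b c
  have h2 := XX_asr x b c a
  have h3 := XTh x b c a
  rw [Th, X_add, X_add] at h3
  have h4 := XXn x a b c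
  have h5 := XnX x c a b
  have h6 : X x (J x a b c) = X x (K x a b c) + X x (K x b c a) + X x (K x c a b) := by
    rw [J, X_add, X_add]
  have h7 : J x b c a = J x a b c := J_cyc x a b c
  rw [h7] at h2
  simp only [X_add, X_sub, X_neg]
  rw [h1, h2]
  rw [h6]
  linear_combination (norm := abel) -h3 - h4 - h4 + h5 + h5

theorem rhs_pi (a b c : A) : X x a * pi' x b c - pi' x a b * X x c = - X x (K x b c a) := by
  have h1 := asr_XX x a b (X x c)
  rw [J, K_X3, K_X2, K_X1] at h1
  have h2 := W1 x a b c
  have h3 := E_rot x c a (X x b)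
  simp only [E] at h3
  rw [st_X_left, st_X_right] at h3
  have h8 : Pp x c a b = cm (X x c) (X x (st x a b)) - X x (K x c a b) - X x (K x c a b) := rfl
  have h9 : Pp x c a b = Pp x a b c := (Pp_cyc x c a b).symm
  rw [h9] at h8
  simp only [mul_neg, neg_mul] at h3
  simp only [pi', mul_add, add_mul]
  simp only [asr] at h1
  linear_combination (norm := abel) -h1 + h2 - h3 + h8

/-- the exact cocycle identity -/
theorem lam_cocycle (a b c : A) :
    a * lam x b c - lam x (a * b) c + lam x a (b * c) - lam x a b * c = 0 := by
  have h1 := X_dpi x a b c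
  have h2 := rhs_pi x a b c
  have h3 := X_mul x a (pi' x b c)
  have h4 := X_mul x (pi' x a b) c
  have h5 : st x a (pi' x b c) = 0 := by rw [st_swap x (pi' x b c) a, st_pi, neg_zero]
  have h6 : st x (pi' x a b) c = 0 := st_pi x a b c
  rw [h5] at h3
  rw [h6] at h4
  rw [X_sub, X_add, X_sub] at h1
  simp only [lam]
  linear_combination (norm := abel) h1 - h2 - h3 + h4

end Pool.Agent.J6H41.Sep
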