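import Pool.Agent.J6H41.Sep.Main

/-!
Alternative rings of characteristic two: a central element of degree seven.
-/

set_option linter.unusedSimpArgs false
set_option linter.unusedTactic false
set_option linter.unreachableTactic false

namespace Pool.Agent.J6H41.Sep

/-- rings with `2 = 0` -/
class C2 (A : Type*) [NonUnitalNonAssocRing A] : Prop where
  two : ∀ a : A, a + a = 0

namespace C2

variable {A : Type*} [NonUnitalNonAssocRing A] [C2 A]

theorem neg' (a : A) : -a = a := (eq_neg_of_add_eq_zero_left (C2.two a)).symm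
theorem sub' (a b : A) : a - b = a + b := by rw [sub_eq_add_neg, neg']
theorem z2 (a : A) : (2 : ℤ) • a = 0 := by rw [two_zsmul]; exact C2.two a
theorem z4 (a : A) : (4 : ℤ) • a = 0 := by
  rw [show (4 : ℤ) = 2 * 2 by norm_num, mul_smul]; exact z2 _
theorem z6 (a : A) : (6 : ℤ) • a = 0 := by
  rw [show (6 : ℤ) = 2 * 3 by norm_num, mul_smul]; exact z2 _
theorem z8 (a : A) : (8 : ℤ) • a = 0 := by
  rw [show (8 : ℤ) = 2 * 4 by norm_num, mul_smul]; exact z2 _
theorem eq_of {a b : A} (h : a + b = 0) : a = b := by
  rw [← neg' b]; exact eq_neg_of_add_eq_zero_left h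

end C2

variable {A : Type*} [NonUnitalNonAssocRing A] [IsAlt A] [C2 A] (x : A)

section basic

omit x in
theorem a12 (a b c : A) : asr b a c = asr a b c := by rw [s12 a b c, C2.neg']
omit x in
theorem a23 (a b c : A) : asr a c b = asr a b c := by rw [s23 a b c, C2.neg']
omit x in
theorem a13 (a b c : A) : asr c b a = asr a b c := by rw [s13 a b c, C2.neg']

theorem s_comm (a b : A) : st x b a = st x a b := by rw [st_swap, C2.neg']

theorem Dmul (a b : A) : X x (a * b) = X x a * b + a * X x b + st x a b := by
  have h := X_mul x a b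
  linear_combination (norm := (try simp only [C2.neg', C2.sub', mul_add, add_mul, mul_zero, zero_mul]) <;>
    (try abel_nf) <;> (try simp only [C2.z2, C2.z4, C2.z6, C2.z8, add_zero, zero_add]))
    h

theorem sD1 (a b : A) : st x (X x a) b = X x (st x a b) := by rw [st_X_left, C2.neg']
theorem sD2 (a b : A) : st x a (X x b) = X x (st x a b) := by rw [st_X_right, C2.neg']

theorem smulR (a b c : A) : st x c (a * b) = a * st x b c + st x a c * b + asr a b (X x c) := by
  rw [s_comm x (a * b) c, st_mul]

omit x in
/-- `([a,b],p,q) = [a,(b,p,q)] + [b,(a,p,q)]` -/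
theorem C1 (a b p q : A) : asr (a * b + b * a) p q =
    (a * asr b p q + asr b p q * a) + (b * asr a p q + asr a p q * b) := by
  have h := kf_comm a b p q
  rw [C2.sub'] at h
  linear_combination (norm := (try simp only [C2.neg', C2.sub', mul_add, add_mul, mul_zero, zero_mul]) <;>
    (try abel_nf) <;> (try simp only [C2.z2, C2.z4, C2.z6, C2.z8, add_zero, zero_add]))
    h

theorem C1D (a b c : A) : asr (X x a) b c = X x (asr a b c) + (a * st x b c + st x b c * a) := by
  have h := C1 x a b c
  have e : X x a = x * a + a * x := by rw [X, C2.sub']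
  rw [e, X, C2.sub']
  simp only [st] at *
  exact h

theorem C1s (a b c : A) : st x (a * b + b * a) c =
    (a * st x b c + st x b c * a) + (b * st x a c + st x a c * b) := by
  have h := C1 a b x c
  rw [a12 x (a * b + b * a) c, a12 x b c, a12 x a c] at h
  exact h

/-- `(Dy,z,w) + (y,Dz,w) = (x,[y,z],w)` -/
theorem DDl (y z w : A) : asr (X x y) z w + asr y (X x z) w = st x (y * z + z * y) w := by
  have h1 := C1D x y z w
  have h2 := C1D x z y w
  have h3 := C1s x y z w
  rw [a12 y z w] at h2
  rw [a12 y (X x z) w] at h2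
  linear_combination (norm := (try simp only [C2.neg', C2.sub', mul_add, add_mul, mul_zero, zero_mul]) <;>
    (try abel_nf) <;> (try simp only [C2.z2, C2.z4, C2.z6, C2.z8, add_zero, zero_add]))
    h1 + h2 + h3

omit [C2 A] in
theorem Ecyc (a b c : A) : X x c * st x a b + st x a b * X x c =
    X x a * st x b c + st x b c * X x a := E_cyc x a b c

/-- `R(a,b,c) = Da (x,b,c) + (x,(x,b,c),a)` -/
def R2 (a b c : A) : A := X x a * st x b c + st x (st x b c) a

theorem R2_23 (a b c : A) : R2 x a c b = R2 x a b c := by rw [R2, R2, s_comm x b c]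

theorem R2_cyc (a b c : A) : R2 x b c a = R2 x a b c := by
  have h1 := F_IV x a b c
  have h2 := F_C6 x a b c
  have h3 : F x (X x c) a b = F x a b (X x c) := (Fcyc x (X x c) a b).symm
  have h4 := E_cyc x a b c
  have h5 := E_cyc x b c a
  rw [h3] at h2
  simp only [J, K, cm] at h1 h2
  simp only [R2]
  linear_combination (norm := (try simp only [C2.neg', C2.sub', mul_add, add_mul, mul_zero, zero_mul]) <;>
    (try abel_nf) <;> (try simp only [C2.z2, C2.z4, C2.z6, C2.z8, add_zero, zero_add]))
    h1 + h2 + h4 + h5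

theorem R2_12 (a b c : A) : R2 x b a c = R2 x a b c := by
  rw [← R2_23 x b a c, R2_cyc x a b c]

/-- `D²a (x,b,c) = Da D(x,b,c)` -/
theorem gp (a b c : A) : X x (X x a) * st x b c = X x a * X x (st x b c) := by
  have h1 := R2_cyc x (X x a) b c
  have h2 := R2_cyc x a (X x b) c
  have h1' := R2_cyc x b c (X x a)
  have h2' := R2_cyc x (X x b) c a
  simp only [R2, sD1, sD2] at h1 h2 h1' h2'
  linear_combination (norm := (try simp only [C2.neg', C2.sub', mul_add, add_mul, mul_zero, zero_mul]) <;>
    (try abel_nf) <;> (try simp only [C2.z2, C2.z4, C2.z6, C2.z8, add_zero, zero_add]))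
    h1 + h2 + h1' + h2'

theorem DR2 (a b c : A) : X x (R2 x a b c) = 0 := by
  have h := gp x a b c
  rw [R2, X_add, Dmul, sD1, s_comm x a (st x b c)]
  linear_combination (norm := (try simp only [C2.neg', C2.sub', mul_add, add_mul, mul_zero, zero_mul]) <;>
    (try abel_nf) <;> (try simp only [C2.z2, C2.z4, C2.z6, C2.z8, add_zero, zero_add]))
    h

/-- `V(y,z) = Dy z + y Dz` -/
def V2 (y z : A) : A := X x y * z + y * X x z

theorem Vform (d y e : A) : st x (X x d * y + st x y d) e = V2 x y (st x d e) := by
  have e1 := st_mul x (X x d) y e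
  have h2 := R2_cyc x e y d
  have h2' : R2 x d y e = R2 x e y d := by
    rw [← R2_cyc x d y e, R2_23 x y d e, R2_cyc x e y d]
  have e3 := F_C6 x y e d
  have e4 := X_asr x y e (X x d)
  have e5 := C1D x e (X x d) y
  have e6 := Fcyc x (X x d) y e
  have e7 := cyc (X x e) (X x d) y
  have e8 := cyc' e (X x d) y
  rw [← e6] at e3
  rw [← e7, ← e8] at e5
  simp only [R2, J, K, cm, sD1, sD2, s_comm x d e, s_comm x y d] at *
  rw [st_add_left, e1, V2]
  linear_combination (norm := (try simp only [C2.neg', C2.sub', mul_add, add_mul, mul_zero, zero_mul]) <;>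
    (try abel_nf) <;> (try simp only [C2.z2, C2.z4, C2.z6, C2.z8, add_zero, zero_add]))
    h2 + h2' + e3 + e4 + e5

/-- the element of degree seven -/
def v2 (b c d e : A) : A := st x (R2 x b c d) e

theorem v2_eq (b c d e : A) : v2 x b c d e = V2 x (st x b c) (st x d e) := by
  rw [← Vform, v2, ← R2_cyc x b c d, ← R2_cyc x c d b, R2]

theorem v2_12 (b c d e : A) : v2 x c b d e = v2 x b c d e := by
  rw [v2_eq, v2_eq, s_comm x b c]
theorem v2_34 (b c d e : A) : v2 x b c e d = v2 x b c d e := by
  rw [v2_eq, v2_eq, s_comm x d e]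
theorem v2_23 (b c d e : A) : v2 x b d c e = v2 x b c d e := by
  rw [v2, v2, R2_23]

theorem V2_comm (b c d e : A) : V2 x (st x d e) (st x b c) = V2 x (st x b c) (st x d e) := by
  rw [← v2_eq, ← v2_eq, v2_23 x d b e c, v2_12 x b d e c, v2_34 x b d c e, v2_23 x b c d e]

theorem v2_mul (b c d a e : A) : v2 x b c d (a * e) = a * v2 x b c d e + v2 x b c d a * e := by
  rw [v2, smulR, DR2, asr_zero_right, add_zero, s_comm x (R2 x b c d) a,
    s_comm x (R2 x b c d) e]; rfl

/-- derivation in the first slot -/
theorem v2_mul1 (a b c d e : A) : v2 x (a * b) c d e = a * v2 x b c d e + v2 x a c d e * b := by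
  have p : ∀ t : A, v2 x t c d e = v2 x c d e t := fun t => by
    rw [← v2_34 x c d e t, ← v2_23 x c d t e, ← v2_12 x c t d e]
  rw [p, p, p, v2_mul]

theorem v2_mul2 (a b c d e : A) : v2 x c (a * b) d e = a * v2 x c b d e + v2 x c a d e * b := by
  rw [v2_12, v2_mul1, v2_12 x b c d e, v2_12 x a c d e]

theorem v2_add1 (a b c d e : A) : v2 x (a + b) c d e = v2 x a c d e + v2 x b c d e := by
  rw [v2_eq, v2_eq, v2_eq, st_add_left, V2, V2, V2, X_add]
  (try simp only [C2.neg', C2.sub', mul_add, add_mul, mul_zero, zero_mul]) <;>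
    (try abel_nf) <;> (try simp only [C2.z2, C2.z4, C2.z6, C2.z8, add_zero, zero_add])

theorem v2_add2 (a b c d e : A) : v2 x c (a + b) d e = v2 x c a d e + v2 x c b d e := by
  rw [v2_12, v2_add1, v2_12 x a c d e, v2_12 x b c d e]

/-- `(x,E,y) = 0` -/
theorem sE (a b c y : A) : st x (X x a * st x b c + st x b c * X x a) y = 0 := by
  have h1 := C1s x (X x a) (st x b c) y
  have h3 := Ecyc x (st x b c) y a
  have h4 := V2_comm x b c y a
  simp only [V2, sD1, s_comm x a y] at *
  rw [h1]
  linear_combination (norm := (try simp only [C2.neg', C2.sub', mul_add, add_mul, mul_zero, zero_mul]) <;>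
    (try abel_nf) <;> (try simp only [C2.z2, C2.z4, C2.z6, C2.z8, add_zero, zero_add]))
    h3 + h4

theorem Z0 (b c d e : A) :
    (b * X x (X x c)) * st x d e + (b * X x c) * X x (st x d e) = 0 := by
  have h1 := DDl x (X x c) (st x d e) b
  have h2 := sE x c d e b
  have h3 := gp x c d e
  have e1 : asr b (X x (X x c)) (st x d e) = asr (X x (X x c)) (st x d e) b := (cyc _ _ _).symm
  have e2 : asr b (X x c) (X x (st x d e)) = asr (X x c) (X x (st x d e)) b := (cyc _ _ _).symm
  rw [h2, ← e1, ← e2] at h1
  simp only [asr] at h1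
  linear_combination (norm := (try simp only [C2.neg', C2.sub', mul_add, add_mul, mul_zero, zero_mul]) <;>
    (try abel_nf) <;> (try simp only [C2.z2, C2.z4, C2.z6, C2.z8, add_zero, zero_add]))
    h1 + b * h3

theorem F2' (b c d e : A) :
    (X x (X x b) * c) * st x d e + (X x b * c) * X x (st x d e) = v2 x b c d e := by
  have h1 := gp x (b * c) d e
  have h2 := Z0 x b c d e
  simp only [Dmul, X_add, sD1, sD2] at h1
  rw [v2_eq, V2]
  linear_combination (norm := (try simp only [C2.neg', C2.sub', mul_add, add_mul, mul_zero, zero_mul]) <;>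
    (try abel_nf) <;> (try simp only [C2.z2, C2.z4, C2.z6, C2.z8, add_zero, zero_add]))
    h1 + h2

theorem F6 (b c d e : A) : v2 x b c d e =
    (b * X x (X x c) + X x (X x c) * b) * st x d e +
      (b * X x c + X x c * b) * X x (st x d e) := by
  have h1 := Z0 x b c d e
  have h2 := F2' x c b d e
  rw [v2_12] at h2
  linear_combination (norm := (try simp only [C2.neg', C2.sub', mul_add, add_mul, mul_zero, zero_mul]) <;>
    (try abel_nf) <;> (try simp only [C2.z2, C2.z4, C2.z6, C2.z8, add_zero, zero_add]))
    h1 + h2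

omit x in
/-- commutator with a product -/
theorem com_mul (b z w : A) : b * (z * w) + (z * w) * b =
    (b * z + z * b) * w + z * (b * w + w * b) + asr b z w := by
  have e1 : asr z b w = asr b z w := a12 b z w
  have e2 : asr z w b = asr b z w := cyc b z w
  simp only [asr] at *
  linear_combination (norm := (try simp only [C2.neg', C2.sub', mul_add, add_mul, mul_zero, zero_mul]) <;>
    (try abel_nf) <;> (try simp only [C2.z2, C2.z4, C2.z6, C2.z8, add_zero, zero_add]))
    e1 + e2

/-- `S(b;P,Q) = (x,[P,Q],b)` -/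
def S2 (b p q : A) : A := st x (p * q + q * p) b

theorem N7 (b p q : A) : b * V2 x p q + V2 x p q * b =
    (b * X x p + X x p * b) * q + (b * p + p * b) * X x q +
    (X x p * (b * q + q * b) + p * (b * X x q + X x q * b)) + S2 x b p q := by
  have h1 := com_mul b (X x p) q
  have h2 := com_mul b p (X x q)
  have h3 := DDl x p q b
  have e1 : asr b (X x p) q = asr (X x p) q b := (cyc _ _ _).symm
  have e2 : asr b p (X x q) = asr p (X x q) b := (cyc _ _ _).symm
  rw [e1] at h1
  rw [e2] at h2
  rw [V2, S2]
  linear_combination (norm := (try simp only [C2.neg', C2.sub', mul_add, add_mul, mul_zero, zero_mul]) <;>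
    (try abel_nf) <;> (try simp only [C2.z2, C2.z4, C2.z6, C2.z8, add_zero, zero_add]))
    h1 + h2 + h3

theorem N8 (b y c d e : A) :
    asr b y (X x (X x c)) * st x d e + asr b y (X x c) * X x (st x d e) =
    S2 x b (st x y c) (st x d e) + X x (st x b c) * (y * st x d e + st x d e * y) +
      st x b c * (y * X x (st x d e) + X x (st x d e) * y) := by
  have h0 := v2_mul1 x b y c d e
  have h1 : st x (b * y) c = b * st x y c + st x b c * y + asr b y (X x c) := st_mul x b y c
  have h2 := C1D x (X x c) b y
  have h3 : R2 x b y c = R2 x y b c := by rw [R2_12 x y b c]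
  have h4 := Ecyc x b y c
  have h5 := Ecyc x y b c
  have h6 := DDl x (st x y c) (st x d e) b
  have e1 : asr b (X x (st x y c)) (st x d e) = asr (X x (st x y c)) (st x d e) b :=
    (cyc _ _ _).symm
  have e2 : asr b (st x y c) (X x (st x d e)) = asr (st x y c) (X x (st x d e)) b :=
    (cyc _ _ _).symm
  have e3 : asr (X x (X x c)) b y = asr b y (X x (X x c)) := (cyc _ _ _).symm
  have e4 : asr (X x c) b y = asr b y (X x c) := (cyc _ _ _).symm
  have e5 : asr (X x (st x b c)) y (st x d e) = asr (X x (st x b c)) (st x d e) y := a23 _ _ _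
  have e6 : asr (st x b c) y (X x (st x d e)) = asr (st x b c) (X x (st x d e)) y := a23 _ _ _
  rw [e3, e4] at h2
  rw [← e1, ← e2] at h6
  simp only [v2_eq, V2, h1, X_add, Dmul] at h0
  rw [S2]
  generalize asr b y (X x (X x c)) = T1 at *
  generalize asr b y (X x c) = T2 at *
  simp only [asr] at h6 e5 e6
  simp only [R2, s_comm x b (st x y c), s_comm x b y] at h3 h5 h0
  linear_combination (norm := (try simp only [C2.neg', C2.sub', mul_add, add_mul, mul_zero, zero_mul]) <;>
    (try abel_nf) <;> (try simp only [C2.z2, C2.z4, C2.z6, C2.z8, add_zero, zero_add]))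
    h0 + h2 * st x d e + h3 * st x d e + h5 * st x d e + h6 + e5 + e6

/-- `X(b;y,c)` -/
def XX (b y c q : A) : A :=
  asr b (y * X x (X x c) + X x (X x c) * y) q + asr b (y * X x c + X x c * y) (X x q)

/-- mixed commutator products -/
def BB (b y c q : A) : A :=
  (b * X x (X x c) + X x (X x c) * b) * (y * q + q * y) +
    (b * X x c + X x c * b) * (y * X x q + X x q * y)

omit x in
theorem com_mul' (b y z : A) : (b * y) * z + z * (b * y) =
    b * (y * z + z * y) + (b * z + z * b) * y + asr b y z := by
  have e1 : asr z b y = asr b y z := (cyc _ _ _).symm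
  have e2 : asr b z y = asr b y z := a23 _ _ _
  simp only [asr] at *
  linear_combination (norm := (try simp only [C2.neg', C2.sub', mul_add, add_mul, mul_zero, zero_mul]) <;>
    (try abel_nf) <;> (try simp only [C2.z2, C2.z4, C2.z6, C2.z8, add_zero, zero_add]))
    e1 + e2

omit x in
/-- `(b u) q + b (u q) = (b,u,q)`, `(w y) q + (w q) y = w (yq + qy)` -/
theorem swp (w y q : A) : (w * y) * q + (w * q) * y = w * (y * q + q * y) := by
  have e2 : asr w q y = asr w y q := a23 _ _ _
  simp only [asr] at *
  linear_combination (norm := (try simp only [C2.neg', C2.sub', mul_add, add_mul, mul_zero, zero_mul]) <;>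
    (try abel_nf) <;> (try simp only [C2.z2, C2.z4, C2.z6, C2.z8, add_zero, zero_add]))
    e2

omit x [IsAlt A] in
theorem asc' (b u q : A) : (b * u) * q + b * (u * q) = asr b u q := by
  simp only [asr]
  (try simp only [C2.neg', C2.sub', mul_add, add_mul, mul_zero, zero_mul]) <;>
    (try abel_nf) <;> (try simp only [C2.z2, C2.z4, C2.z6, C2.z8, add_zero, zero_add])

theorem T26 (b y c d e : A) :
    XX x b y c (st x d e) + BB x b y c (st x d e) +
      (asr b y (X x (X x c)) * st x d e + asr b y (X x c) * X x (st x d e)) = 0 := by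
  have h0 := v2_mul1 x b y c d e
  rw [F6, F6, F6, com_mul', com_mul'] at h0
  have a1 := asc' b (y * X x (X x c) + X x (X x c) * y) (st x d e)
  have a2 := asc' b (y * X x c + X x c * y) (X x (st x d e))
  have a3 := swp (b * X x (X x c) + X x (X x c) * b) y (st x d e)
  have a4 := swp (b * X x c + X x c * b) y (X x (st x d e))
  rw [XX, BB, ← a1, ← a2, ← a3, ← a4]
  linear_combination (norm := (try simp only [C2.neg', C2.sub', mul_add, add_mul, mul_zero, zero_mul]) <;>
    (try abel_nf) <;> (try simp only [C2.z2, C2.z4, C2.z6, C2.z8, add_zero, zero_add]))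
    h0

theorem T27 (b c y d e : A) :
    BB x b y c (st x d e) + XX x c b y (st x d e) + v2 x c (b * y + y * b) d e +
      v2 x (c * y + y * c) b d e + ((b * X x (st x c y) + X x (st x c y) * b) * st x d e +
        (b * st x c y + st x c y * b) * X x (st x d e)) = 0 := by
  have h0 := v2_mul2 x c y b d e
  rw [F6, F6, F6] at h0
  have d1 : X x (c * y) = X x c * y + c * X x y + st x c y := Dmul x c y
  have d2 : X x (X x (c * y)) = X x (X x c) * y + c * X x (X x y) + X x (st x c y) := by
    rw [d1, X_add, X_add, Dmul, Dmul, sD1, sD2]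
    apply C2.eq_of
    (try simp only [C2.neg', C2.sub', mul_add, add_mul, mul_zero, zero_mul]) <;>
      (try abel_nf) <;> (try simp only [C2.z2, C2.z4, C2.z6, C2.z8, add_zero, zero_add])
  rw [d2, d1] at h0
  -- commutators with products
  have m1 := com_mul b (X x (X x c)) y
  have m2 := com_mul b c (X x (X x y))
  have m3 := com_mul b (X x c) y
  have m4 := com_mul b c (X x y)
  -- associator terms
  have w1 := DDl x c y b
  have w2 := C1D x (X x c) y b
  have w3 := C1D x (X x y) c b
  have w4 := Ecyc x y b c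
  have n1 : asr b (X x c) y = asr (X x c) y b := (cyc _ _ _).symm
  have n2 : asr b c (X x y) = asr c (X x y) b := (cyc _ _ _).symm
  have n3 : asr b (X x (X x c)) y = asr (X x (X x c)) y b := (cyc _ _ _).symm
  have n4 : asr b c (X x (X x y)) = asr (X x (X x y)) c b := (a13 _ _ _)
  have n5 : asr (X x y) c b = asr c (X x y) b := a12 _ _ _
  rw [n5] at w3
  rw [n3] at m1
  rw [n4] at m2
  rw [n1] at m3
  rw [n2] at m4
  -- `v([c,y],b,d,e)`
  have v1 : v2 x (c * y + y * c) b d e = X x (st x (c * y + y * c) b) * st x d e +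
      st x (c * y + y * c) b * X x (st x d e) := by rw [v2_eq, V2]
  rw [← w1, X_add] at v1
  -- `v(c,[b,y],d,e)`
  have v2' := F2' x c (b * y + y * b) d e
  have z := Z0 x (b * c + c * b) y d e
  have a1 := asc' c (b * X x (X x y) + X x (X x y) * b) (st x d e)
  have a2 := asc' c (b * X x y + X x y * b) (X x (st x d e))
  have a3 := swp (b * X x (X x c) + X x (X x c) * b) y (st x d e)
  have a4 := swp (b * X x c + X x c * b) y (X x (st x d e))
  rw [XX, BB, ← a1, ← a2, ← a3, ← a4, v1, ← v2']
  generalize asr (X x (X x c)) y b = t1 at *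
  generalize asr (X x (X x y)) c b = t2 at *
  generalize asr (X x c) y b = t3 at *
  generalize asr c (X x y) b = t4 at *
  simp only [s_comm x b y, s_comm x b c] at *
  linear_combination (norm := (try simp only [C2.neg', C2.sub', mul_add, add_mul, mul_zero, zero_mul]) <;>
    (try abel_nf) <;> (try simp only [C2.z2, C2.z4, C2.z6, C2.z8, add_zero, zero_add]))
    h0 + m1 * st x d e + m2 * st x d e + m3 * X x (st x d e) +
    m4 * X x (st x d e) + w2 * st x d e + w3 * st x d e + w4 * st x d e + z

/-- `[a,v(b,c,d,e)]` -/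
def c5 (a b c d e : A) : A := a * v2 x b c d e + v2 x b c d e * a

theorem X3 (b c y d e : A) :
    XX x b y c (st x d e) + XX x c b y (st x d e) =
      S2 x y (st x b c) (st x d e) + S2 x b (st x c y) (st x d e) + c5 x c y b d e := by
  have h1 := T26 x b y c d e
  have h2 := T27 x b c y d e
  have h3 := N8 x y b c d e
  have h4 := N7 x b (st x c y) (st x d e)
  have e1 : asr y b (X x (X x c)) = asr b y (X x (X x c)) := a12 _ _ _
  have e2 : asr y b (X x c) = asr b y (X x c) := a12 _ _ _
  have p1 : v2 x c (b * y + y * b) d e =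
      (b * v2 x c y d e + v2 x c b d e * y) + (y * v2 x c b d e + v2 x c y d e * b) := by
    rw [v2_add2, v2_mul2, v2_mul2]
  have p2 : v2 x (c * y + y * c) b d e =
      (c * v2 x y b d e + v2 x c b d e * y) + (y * v2 x c b d e + v2 x y b d e * c) := by
    rw [v2_add1, v2_mul1, v2_mul1]
  rw [e1, e2] at h3
  rw [← v2_eq] at h4
  rw [h3] at h1
  rw [p1, p2] at h2
  rw [c5]
  simp only [s_comm x c y] at *
  linear_combination (norm := (try simp only [C2.neg', C2.sub', mul_add, add_mul, mul_zero, zero_mul]) <;>
    (try abel_nf) <;> (try simp only [C2.z2, C2.z4, C2.z6, C2.z8, add_zero, zero_add]))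
    h1 + h2 + h4

theorem X4 (b c y d e : A) : c5 x c y b d e + c5 x y b c d e + c5 x b c y d e = 0 := by
  have h1 := X3 x b c y d e
  have h2 := X3 x c y b d e
  have h3 := X3 x y b c d e
  linear_combination (norm := (try simp only [C2.neg', C2.sub', mul_add, add_mul, mul_zero, zero_mul]) <;>
    (try abel_nf) <;> (try simp only [C2.z2, C2.z4, C2.z6, C2.z8, add_zero, zero_add]))
    h1 + h2 + h3

theorem c5_12 (a b c d e : A) : c5 x a c b d e = c5 x a b c d e := by rw [c5, c5, v2_12]
theorem c5_23 (a b c d e : A) : c5 x a b d c e = c5 x a b c d e := by rw [c5, c5, v2_23]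
theorem c5_34 (a b c d e : A) : c5 x a b c e d = c5 x a b c d e := by rw [c5, c5, v2_34]

/-- the element `v` commutes with everything -/
theorem central (a b c d e : A) : a * v2 x b c d e + v2 x b c d e * a = 0 := by
  change c5 x a b c d e = 0
  have h1 := X4 x a b c d e
  have h2 := X4 x a b d c e
  have h3 := X4 x a c d b e
  rw [c5_12 x b a c d e] at h1
  rw [c5_12 x b a d c e, c5_23 x b a c d e, c5_23 x a b c d e] at h2
  rw [c5_12 x c a d b e, c5_23 x c a b d e, c5_23 x d a b c e, c5_23 x a c b d e,
    c5_12 x a b c d e] at h3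
  linear_combination (norm := (try simp only [C2.neg', C2.sub', mul_add, add_mul, mul_zero, zero_mul]) <;>
    (try abel_nf) <;> (try simp only [C2.z2, C2.z4, C2.z6, C2.z8, add_zero, zero_add]))
    h1 + h2 + h3

theorem vcomm (a b c d e : A) : a * v2 x b c d e = v2 x b c d e * a :=
  C2.eq_of (central x a b c d e)

/-- `v` is nuclear -/
theorem vnuc (b c d e : A) : Nuc (v2 x b c d e) := by
  intro p q
  have h1 := central x (p * q) b c d e
  have h2 := central x p b c d e
  have h3 := central x q b c d e
  generalize v2 x b c d e = v at *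
  have e1 : asr p v q = asr v p q := a12 _ _ _
  have e2 : asr p q v = asr v p q := cyc _ _ _
  simp only [asr] at *
  linear_combination (norm := (try simp only [C2.neg', C2.sub', mul_add, add_mul, mul_zero, zero_mul]) <;>
    (try abel_nf) <;> (try simp only [C2.z2, C2.z4, C2.z6, C2.z8, add_zero, zero_add]))
    h1 + p * h3 + h2 * q + e1 + e2

section kill

omit x in
omit [C2 A] in
theorem cn1 {n : A} (hn : Nuc n) (a b : A) : a * (b * n) = (a * b) * n := by
  have h := hn.right a b
  rw [asr, sub_eq_zero] at h
  exact h.symm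

omit x in
omit [C2 A] in
theorem cn2 {n : A} (hc : ∀ a, a * n = n * a) (hn : Nuc n) (a b : A) :
    (a * n) * b = (a * b) * n := by
  have h := hn.mid a b
  rw [asr, sub_eq_zero] at h
  rw [h, ← hc b, cn1 hn]

omit x in
/-- Jacobi -/
theorem jac (a b z : A) : (a * (b * z + z * b) + (b * z + z * b) * a) +
    (z * (b * a + a * b) + (b * a + a * b) * z) +
    (b * (z * a + a * z) + (z * a + a * z) * b) = 0 := by
  have e1 : asr b a z = asr a b z := a12 _ _ _
  have e2 : asr a z b = asr a b z := a23 _ _ _
  have e3 : asr z b a = asr a b z := a13 _ _ _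
  have e4 : asr b z a = asr a b z := cyc _ _ _
  have e5 : asr z a b = asr a b z := cyc' _ _ _
  simp only [asr] at *
  linear_combination (norm := (try simp only [C2.neg', C2.sub', mul_add, add_mul, mul_zero, zero_mul]) <;>
    (try abel_nf) <;> (try simp only [C2.z2, C2.z4, C2.z6, C2.z8, add_zero, zero_add]))
    e1 + e2 + e3 + e4 + e5

variable (w : A → A) (hm : ∀ a b, w (a * b) = a * w b + b * w a)
  (hc : ∀ b a, a * w b = w b * a) (hn : ∀ b, Nuc (w b))
include hm hc hn

omit x in
theorem Y1 (a b z : A) : (a * z + z * a) * w b = (b * z + z * b) * w a := by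
  have h := hc (a * b) z
  rw [hm, mul_add, add_mul, cn1 (hn b), cn1 (hn a), cn2 (hc b) (hn b), cn2 (hc a) (hn a)] at h
  linear_combination (norm := (try simp only [C2.neg', C2.sub', mul_add, add_mul, mul_zero, zero_mul]) <;>
    (try abel_nf) <;> (try simp only [C2.z2, C2.z4, C2.z6, C2.z8, add_zero, zero_add]))
    h

omit x in
theorem Y2 (a b d z : A) : asr a d z * w b =
    (a * (b * z + z * b) + (b * z + z * b) * a) * w d := by
  have h := Y1 w hm hc hn (a * d) b z
  have h1 := Y1 w hm hc hn d b z
  have h2 := Y1 w hm hc hn a b z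
  rw [hm] at h
  have k1 := cn1 (hn b) a (d * z + z * d)
  have k2 := cn1 (hn d) a (b * z + z * b)
  rw [h1, k2] at k1
  have k3 := cn2 (hc b) (hn b) (a * z + z * a) d
  have k4 := cn2 (hc a) (hn a) (b * z + z * b) d
  rw [h2, k4] at k3
  have k5 := cn1 (hn d) (b * z + z * b) a
  have k6 := cn1 (hn a) (b * z + z * b) d
  rw [mul_add, k5, k6] at h
  have e := com_mul' a d z
  have e' : (a * d) * z + z * (a * d) = a * (d * z + z * d) + (a * z + z * a) * d + asr a d z := e
  rw [e', add_mul, add_mul] at h
  rw [← k1, ← k3] at h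
  linear_combination (norm := (try simp only [C2.neg', C2.sub', mul_add, add_mul, mul_zero, zero_mul]) <;>
    (try abel_nf) <;> (try simp only [C2.z2, C2.z4, C2.z6, C2.z8, add_zero, zero_add]))
    h

omit x in
theorem Y3 (a b z d : A) : (a * (b * z + z * b) + (b * z + z * b) * a) * w d = 0 := by
  -- `asr z d a = asr a d z` gives symmetry in `a`, `z`
  have key : ∀ a b z d : A, (a * (b * z + z * b) + (b * z + z * b) * a) * w d =
      (z * (b * a + a * b) + (b * a + a * b) * z) * w d := fun a b z d => by
    rw [← Y2 w hm hc hn a b d z, ← Y2 w hm hc hn z b d a, a13 a d z]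
  have h1 := key z a b d
  have h2 := congrArg (fun t => t * w d) (jac z a b)
  simp only [zero_mul] at h2
  rw [add_mul, add_mul, h1, C2.two, zero_add] at h2
  exact h2

omit x in
theorem Y4 (a b d z : A) : asr a d z * w b = 0 := by
  rw [Y2 w hm hc hn, Y3 w hm hc hn]

end kill

theorem v2_mul1' (a b c d e : A) : v2 x (a * b) c d e = a * v2 x b c d e + b * v2 x a c d e := by
  rw [v2_mul1, vcomm x b a c d e]

/-- `v` annihilates all associators -/
theorem v_asr (b c d e p q r : A) : v2 x b c d e * asr p q r = 0 := by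
  have h := Y4 (fun t => v2 x t c d e) (fun a b => v2_mul1' x a b c d e)
    (fun b a => vcomm x a b c d e) (fun b => vnuc x b c d e) p b q r
  rw [← vcomm x (asr p q r) b c d e]
  exact h

end basic

end Pool.Agent.J6H41.Sep
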