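import Pool.Agent.J6H41.Sep.Data3

/-!
Kernel check, part 4.
-/

set_option maxRecDepth 100000

namespace Pool.Agent.J6H41.Sep.D3

theorem hB4 : md.chkB cs4 = true := by decide +kernel

end Pool.Agent.J6H41.Sep.D3
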