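import Pool.Agent.J6H41.Sep.Trie

/-!
Structure constants of a superalgebra of dimension 29.
-/

namespace Pool.Agent.J6H41.Sep.D29

open Tr

def r0 : Tr SV := (tn (tn (tn (tn (tn te (tl [(18, .ofNat 1), (19, .negSucc 0)])) (tn (tl [(14, .ofNat 1)]) (tl [(26, .ofNat 1), (27, .negSucc 0)]))) (tn (tn (tl [(9, .ofNat 1)]) te) (tn (tl [(19, .negSucc 0), (20, .ofNat 2), (22, .negSucc 0)]) te))) (tn (tn (tn (tl [(5, .ofNat 1)]) (tl [(25, .ofNat 1)])) (tn te (tl [(28, .ofNat 1)]))) (tn (tn (tl [(10, .ofNat 1)]) te) (tn (tl [(20, .ofNat 1)]) te)))) (tn (tn (tn (tn (tl [(3, .ofNat 1)]) (tl [(23, .ofNat 1), (24, .ofNat 1)])) (tn (tl [(15, .ofNat 1)]) te)) (tn (tn (tl [(10, .negSucc 0), (11, .negSucc 0)]) (tl [(25, .negSucc 1)])) (tn (tl [(18, .negSucc 0), (19, .negSucc 0), (21, .negSucc 0)]) te))) (tn (tn (tn (tl [(6, .ofNat 1)]) te) te) (tn (tn (tl [(13, .ofNat 1)]) (tl [(27,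 .ofNat 1)])) (tn (tl [(21, .ofNat 1)]) te)))))

def r1 : Tr SV := (tn (tn (tn (tn (tn (tl [(2, .ofNat 1)]) (tl [(23, .ofNat 1), (24, .negSucc 0)])) te) (tn (tn te (tl [(26, .negSucc 0), (27, .ofNat 2)])) (tn (tl [(24, .ofNat 1)]) te))) (tn (tn (tn (tl [(7, .ofNat 1)]) (tl [(26, .negSucc 0), (27, .ofNat 2)])) (tn (tl [(18, .negSucc 0), (19, .ofNat 1), (20, .negSucc 0), (22, .ofNat 1)]) te)) (tn (tn (tl [(14, .negSucc 0), (15, .ofNat 1), (16, .ofNat 1)]) (tl [(26, .negSucc 1), (27, .ofNat 4)])) (tn (tl [(23, .ofNat 1)]) te)))) (tn (tn (tn (tn (tl [(4, .ofNat 1)]) te) (tn (tl [(17, .ofNat 1)]) te)) (tn (tn (tl [(12, .ofNat 1)]) (tl [(26, .ofNat 1), (27, .negSucc 0)])) (tn (tl [(23, .negSucc 0), (24, .ofNat 1)]) te))) (tn (tn (tn (tl [(8, .ofNat 1)]) te) (tn (tl [(18, .negSucc 0), (19, .ofNat 1), (20, .negSucc 0), (22, .ofNat 1)]) te)) te)))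

def r2 : Tr SV := (tn (tn (tn (tn (tn (tl [(6, .negSucc 0)]) (tl [(26, .negSucc 1), (27, .ofNat 4)])) (tn (tl [(23, .ofNat 1), (24, .negSucc 0)]) te)) (tn (tn (tl [(17, .ofNat 1)]) te) (tn (tl [(26, .ofNat 1), (27, .negSucc 0)]) te))) (tn (tn (tn (tl [(12, .ofNat 1), (14, .negSucc 0), (16, .ofNat 1)]) te) te) (tn (tn (tl [(20, .ofNat 1), (22, .negSucc 0)]) te) (tn (tl [(26, .negSucc 0), (27, .ofNat 2)]) te)))) (tn (tn (tn (tn (tl [(8, .ofNat 1)]) te) (tn (tl [(24, .ofNat 1)]) te)) (tn (tn (tl [(18, .ofNat 1), (19, .negSucc 0), (20, .ofNat 2), (22, .negSucc 0)]) (tl [(28, .ofNat 1)])) te)) (tn te (tn (tn (tl [(23, .negSucc 0), (24, .ofNat 1)]) te) (tn (tl [(26, .ofNat 1), (27, .negSucc 1)]) te)))))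

def r3 : Tr SV := (tn (tn (tn (tn (tn (tl [(5, .ofNat 1), (6, .ofNat 1)]) te) (tn (tl [(24, .ofNat 1)]) te)) (tn (tn te (tl [(28, .negSucc 0)])) te)) (tn (tn (tn (tl [(13, .ofNat 1), (14, .ofNat 1), (16, .negSucc 0)]) (tl [(28, .negSucc 0)])) (tn (tl [(25, .negSucc 0)]) te)) (tn (tn (tl [(20, .negSucc 2), (21, .ofNat 1), (22, .ofNat 2)]) (tl [(28, .negSucc 1)])) (tn (tl [(27, .ofNat 1)]) te)))) (tn (tn (tn (tn (tl [(9, .ofNat 1)]) te) (tn (tl [(23, .ofNat 1)]) te)) (tn (tn (tl [(18, .ofNat 1), (19, .negSucc 1), (20, .ofNat 2), (22, .negSucc 1)]) te) (tn (tl [(26, .ofNat 1), (27, .negSucc 2)]) te))) (tn (tn (tn (tl [(15, .ofNat 1), (16, .ofNat 1)]) te) (tn (tl [(25, .negSucc 0)]) te)) (tn te (tn (tl [(27, .ofNat 1)]) te)))))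

def r4 : Tr SV := (tn (tn (tn (tn (tn (tl [(7, .ofNat 1)]) te) te) te) (tn te (tn (tn (tl [(24, .negSucc 0)]) te) te))) (tn (tn te (tn (tn (tl [(24, .ofNat 1)]) te) te)) te))

def r5 : Tr SV := (tn (tn (tn (tn (tn (tl [(11, .ofNat 1)]) (tl [(28, .negSucc 0)])) (tn (tl [(26, .negSucc 0), (27, .ofNat 2)]) te)) (tn (tn (tl [(23, .ofNat 1)]) te) te)) (tn (tn (tn (tl [(18, .ofNat 3), (19, .negSucc 1), (20, .ofNat 1), (21, .ofNat 1), (22, .negSucc 1)]) te) te) (tn (tn (tl [(25, .ofNat 1)]) te) (tn (tl [(28, .negSucc 0)]) te)))) (tn (tn (tn (tn (tl [(16, .ofNat 1)]) te) te) (tn (tn (tl [(25, .ofNat 1)]) te) te)) (tn (tn (tn (tl [(18, .negSucc 0), (19, .ofNat 1), (20, .negSucc 2), (22, .ofNat 2)]) te) te) (tn (tn (tl [(26, .ofNat 1), (27, .negSucc 2)]) te) te))))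

def r6 : Tr SV := (tn (tn (tn (tn (tn (tl [(10, .negSucc 0), (11, .negSucc 0)]) (tl [(28, .negSucc 0)])) (tn (tl [(26, .ofNat 1), (27, .negSucc 1)]) te)) (tn te (tn (tl [(28, .ofNat 1)]) te))) (tn (tn (tn (tl [(18, .negSucc 2), (19, .ofNat 1), (20, .negSucc 1), (21, .negSucc 0), (22, .ofNat 2)]) te) te) (tn (tn (tl [(25, .negSucc 0)]) te) te))) (tn (tn (tn (tn (tl [(14, .ofNat 1), (16, .negSucc 0)]) te) (tn (tl [(27, .ofNat 1)]) te)) (tn te (tn (tl [(28, .ofNat 1)]) te))) (tn (tn (tn (tl [(18, .ofNat 1), (19, .negSucc 0), (20, .ofNat 2), (22, .negSucc 0)]) te) te) (tn (tn (tl [(27, .ofNat 1)]) te) te))))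

def r7 : Tr SV := (tn (tn (tn (tn (tn (tl [(15, .negSucc 0)]) te) te) te) (tn te (tn (tn (tl [(27, .negSucc 0)]) te) te))) (tn (tn te (tn (tn (tl [(27, .ofNat 1)]) te) te)) (tn (tn (tn (tl [(24, .negSucc 0)]) te) te) te)))

def r8 : Tr SV := (tn (tn (tn (tn (tn (tl [(12, .ofNat 1)]) te) te) te) (tn (tn (tn (tl [(23, .negSucc 0), (24, .ofNat 1)]) te) te) (tn (tn (tl [(26, .ofNat 1), (27, .negSucc 0)]) te) te))) (tn (tn (tn (tn (tl [(17, .ofNat 1)]) te) te) te) (tn (tn (tn (tl [(23, .ofNat 1)]) te) te) te)))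

def r9 : Tr SV := (tn (tn (tn (tn (tn (tl [(13, .ofNat 1), (15, .ofNat 1)]) te) te) te) (tn (tn (tn (tl [(24, .ofNat 1)]) te) te) (tn (tn (tl [(26, .negSucc 0), (27, .ofNat 2)]) te) te))) (tn (tn te (tn (tn (tl [(26, .ofNat 1), (27, .negSucc 1)]) te) te)) te))

def r10 : Tr SV := (tn (tn (tn (tn te (tn (tl [(28, .ofNat 2)]) te)) (tn (tn (tl [(27, .negSucc 0)]) te) te)) (tn (tn (tn (tl [(25, .negSucc 1)]) te) te) te)) (tn (tn (tn (tn (tl [(20, .ofNat 3), (22, .negSucc 1)]) te) te) te) (tn te (tn (tn (tl [(28, .negSucc 0)]) te) te))))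

def r11 : Tr SV := (tn (tn (tn (tn te (tn (tl [(28, .negSucc 0)]) te)) (tn (tn (tl [(27, .negSucc 0)]) te) te)) (tn (tn (tn (tl [(25, .ofNat 1)]) te) te) te)) (tn (tn (tn (tn (tl [(20, .negSucc 2), (22, .ofNat 1)]) te) te) te) (tn te (tn (tn (tl [(28, .negSucc 0)]) te) te))))

def r12 : Tr SV := (tn (tn (tn (tn (tn (tl [(20, .negSucc 0)]) te) te) te) (tn te (tn (tn (tl [(28, .negSucc 0)]) te) te))) (tn (tn (tn (tn (tl [(23, .ofNat 1), (24, .negSucc 0)]) te) te) te) (tn (tn (tn (tl [(26, .ofNat 1), (27, .negSucc 1)]) te) te) te)))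

def r13 : Tr SV := (tn (tn (tn (tn (tn (tl [(18, .ofNat 1), (19, .ofNat 1)]) te) te) te) (tn (tn (tn (tl [(27, .negSucc 0)]) te) te) (tn (tn (tl [(28, .ofNat 1)]) te) te))) (tn (tn te (tn (tn (tl [(28, .negSucc 0)]) te) te)) (tn (tn (tn (tl [(26, .negSucc 0), (27, .ofNat 2)]) te) te) te)))

def r14 : Tr SV := (tn (tn (tn (tn (tn (tl [(19, .negSucc 0), (20, .ofNat 1), (22, .negSucc 0)]) te) te) te) (tn (tn (tn (tl [(26, .ofNat 1), (27, .negSucc 1)]) te) te) te)) (tn (tn (tn (tn (tl [(23, .ofNat 1)]) te) te) te) te))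

def r15 : Tr SV := (tn (tn (tn (tn (tn (tl [(18, .negSucc 0), (19, .negSucc 0), (21, .negSucc 0)]) te) te) te) (tn te (tn (tn (tl [(28, .negSucc 0)]) te) te))) (tn (tn (tn (tn (tl [(24, .ofNat 1)]) te) te) (tn (tn (tl [(28, .ofNat 1)]) te) te)) te))

def r16 : Tr SV := (tn (tn (tn (tn (tn (tl [(18, .ofNat 2), (19, .negSucc 0), (20, .ofNat 1), (21, .ofNat 1), (22, .negSucc 0)]) te) te) te) (tn (tn (tn (tl [(26, .ofNat 2), (27, .negSucc 3)]) te) te) (tn (tn (tl [(28, .ofNat 1)]) te) te))) (tn (tn (tn (tn (tl [(23, .ofNat 1)]) te) te) te) (tn (tn (tn (tl [(26, .negSucc 1), (27, .ofNat 4)]) te) te) te)))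

def r17 : Tr SV := (tn (tn (tn (tn (tn (tl [(23, .negSucc 0), (24, .ofNat 2)]) te) te) te) te) te)

def r18 : Tr SV := (tn te (tn (tn (tn (tn (tl [(26, .negSucc 0), (27, .ofNat 2)]) te) te) te) te))

def r19 : Tr SV := (tn (tn (tn (tn (tn (tl [(25, .negSucc 0)]) te) te) te) (tn (tn (tn (tl [(28, .negSucc 0)]) te) te) te)) (tn (tn (tn (tn (tl [(27, .negSucc 0)]) te) te) te) (tn (tn (tn (tl [(28, .ofNat 1)]) te) te) te)))

def r20 : Tr SV := (tn (tn te (tn (tn (tn (tl [(28, .ofNat 1)]) te) te) te)) (tn (tn (tn (tn (tl [(27, .ofNat 1)]) te) te) te) te))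

def r21 : Tr SV := (tn (tn (tn (tn (tn (tl [(25, .negSucc 0)]) te) te) te) (tn (tn (tn (tl [(28, .ofNat 1)]) te) te) te)) (tn (tn (tn (tn (tl [(26, .ofNat 1), (27, .negSucc 1)]) te) te) te) te))

def r22 : Tr SV := (tn (tn (tn (tn (tn (tl [(25, .ofNat 1)]) te) te) te) (tn (tn (tn (tl [(28, .ofNat 2)]) te) te) te)) (tn (tn (tn (tn (tl [(27, .ofNat 2)]) te) te) te) (tn (tn (tn (tl [(28, .negSucc 0)]) te) te) te)))

def r23 : Tr SV := (tn (tn (tn (tn (tn (tl [(26, .ofNat 1), (27, .negSucc 1)]) te) te) te) te) te)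

def r24 : Tr SV := (tn (tn (tn (tn (tn (tl [(27, .negSucc 0)]) te) te) te) te) te)

def r25 : Tr SV := (tn te (tn (tn (tn (tn (tl [(28, .negSucc 0)]) te) te) te) te))

def r26 : Tr SV := (tn (tn (tn (tn (tn (tl [(28, .ofNat 2)]) te) te) te) te) te)

def r27 : Tr SV := (tn (tn (tn (tn (tn (tl [(28, .ofNat 1)]) te) te) te) te) te)

def tab : Tr (Tr SV) := (tn (tn (tn (tn (tn (tl r0) (tl r16)) (tn (tl r8) (tl r24))) (tn (tn (tl r4) (tl r20)) (tn (tl r12) te))) (tn (tn (tn (tl r2) (tl r18)) (tn (tl r10) (tl r26))) (tn (tn (tl r6) (tl r22)) (tn (tl r14) te)))) (tn (tn (tn (tn (tl r1) (tl r17)) (tn (tl r9) (tl r25))) (tn (tn (tl r5) (tl r21)) (tn (tl r13) te))) (tn (tn (tn (tl r3) (tl r19)) (tn (tl r11) (tl r27))) (tn (tn (tl r7) (tl r23)) (tn (tl r15) te)))))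

def bas : List (ℕ × ℕ × ℕ) := [(0, 0, 1), (1, 1, 0), (2, 1, 1), (3, 1, 1), (4, 2, 0), (5, 1, 2), (6, 1, 2), (7, 2, 1), (8, 2, 1), (9, 2, 1), (10, 1, 3), (11, 1, 3), (12, 2, 2), (13, 2, 2), (14, 2, 2), (15, 2, 2), (16, 2, 2), (17, 3, 1), (18, 2, 3), (19, 2, 3), (20, 2, 3), (21, 2, 3), (22, 2, 3), (23, 3, 2), (24, 3, 2), (25, 2, 4), (26, 3, 3), (27, 3, 3), (28, 3, 4)]

def mdl : Model where
  n := 29
  S i j := Tr.get [] (Tr.get te tab i) j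
  basis := bas
  X := 3
  U := 4
  B := 512
  C := 9

end Pool.Agent.J6H41.Sep.D29
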