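import Pool.Agent.J6H41.Sep.Table3

/-!
Structure constants modulo three of a superalgebra of dimension 435.
-/

set_option maxRecDepth 100000

namespace Pool.Agent.J6H41.Sep.D3

open Tr

def r0 : Tr SV := (tn (tn (tn (tn (tn (tn (tn (tn (tn (tl [(4, .ofNat 1)]) te) (tn (tl [(220, .ofNat 2), (222, .ofNat 2), (225, .ofNat 1)]) (tl [(420, .ofNat 2), (421, .ofNat 1)]))) (tn (tn (tl [(203, .ofNat 1)]) (tl [(398, .ofNat 1), (400, .ofNat 2), (401, .ofNat 1)])) (tn (tl [(292, .ofNat 2), (293, .ofNat 1), (299, .ofNat 2), (300, .ofNat 1), (301, .ofNat 1), (302, .ofNat 1), (303, .ofNat 2), (304, .ofNat 2), (305, .ofNat 2), (306, .ofNat 2), (307, .ofNat 1), (308, .ofNat 1), (309, .ofNat 2), (310, .ofNat 2), (311, .ofNat 2)]) te))) (tn (tn te (tn (tl [(243, .ofNat 1)]) te)) (tn (tn (tl [(213, .ofNat 1), (217, .ofNat 2), (218, .ofNat 2), (219, .ofNat 2)]) (tl [(402, .ofNat 2), (403, .ofNat 1), (405, .ofNat 2), (406, .ofNat 2), (407, .ofNat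 2), (408, .ofNat 1)])) te))) (tn (tn (tn (tn (tl [(57, .ofNat 1)]) (tl [(389, .ofNat 2), (391, .ofNat 2)])) (tn (tl [(228, .ofNat 1), (229, .ofNat 1), (230, .ofNat 2), (231, .ofNat 1), (232, .ofNat 2)]) te)) (tn te (tn (tl [(367, .ofNat 1)]) te))) (tn (tn (tn (tl [(115, .ofNat 1)]) (tl [(394, .ofNat 2), (395, .ofNat 2), (396, .ofNat 1)])) (tn (tl [(278, .ofNat 2), (279, .ofNat 2), (280, .ofNat 2), (281, .ofNat 2), (282, .ofNat 2), (284, .ofNat 2), (286, .ofNat 2), (287, .ofNat 2), (290, .ofNat 2), (291, .ofNat 1)]) (tl [(434, .ofNat 1)]))) (tn (tn (tl [(220, .ofNat 2), (223, .ofNat 1), (224, .ofNat 2), (225, .ofNat 2)]) (tl [(414, .ofNat 2), (416, .ofNat 1)])) te)))) (tn (tn (tn (tn (tn (tl [(23, .ofNat 1)]) (tl [(389, .ofNat 2), (390, .ofNat 2)])) (tn (tl [(229, .ofNat 2), (231, .ofNat 2)]) te)) (tn te (tn (tl [(333, .ofNat 1)]) te))) (tn (tn (tn (tl [(93, .ofNat 1)]) (tl [(392, .ofNat 1), (394, .ofNat 2)])) (tn (tl [(260,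 .ofNat 1)]) (tl [(432, .ofNat 2), (433, .ofNat 1)]))) (tn (tn te (tl [(409, .ofNat 2), (410, .ofNat 2), (411, .ofNat 2), (412, .ofNat 1), (413, .ofNat 2)])) (tn (tl [(386, .ofNat 1)]) te)))) (tn (tn (tn (tn (tl [(68, .ofNat 1)]) te) te) (tn (tn te (tl [(402, .ofNat 2), (404, .ofNat 1), (406, .ofNat 2), (407, .ofNat 2)])) te)) (tn (tn (tn (tl [(153, .ofNat 1)]) (tl [(397, .ofNat 2), (399, .ofNat 2), (400, .ofNat 1)])) (tn (tl [(282, .ofNat 1)]) te)) (tn (tn (tl [(221, .ofNat 1), (223, .ofNat 2), (225, .ofNat 2), (226, .ofNat 2)]) (tl [(418, .ofNat 1), (419, .ofNat 1), (420, .ofNat 1), (421, .ofNat 1)])) te))))) (tn (tn (tn (tn (tn (tn te (tl [(388, .ofNat 2), (389, .ofNat 1)])) (tn (tl [(227, .ofNat 1), (228, .ofNat 2), (230, .ofNat 2), (231, .ofNat 1), (232, .ofNat 1)]) te)) (tn (tn te (tl [(397, .ofNat 2), (400, .ofNat 1), (401, .ofNat 2)])) (tn (tl [(293, .ofNat 2), (294, .ofNat 1), (296, .ofNat 2), (297, .ofNat 1), (298,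 .ofNat 2), (299, .ofNat 1), (300, .ofNat 1), (301, .ofNat 2), (302, .ofNat 2), (303, .ofNat 1), (304, .ofNat 2), (305, .ofNat 2), (306, .ofNat 1), (307, .ofNat 1), (308, .ofNat 2), (309, .ofNat 2), (310, .ofNat 1), (311, .ofNat 1)]) te))) (tn (tn (tn (tl [(83, .ofNat 1)]) (tl [(393, .ofNat 2), (394, .ofNat 2), (395, .ofNat 1), (396, .ofNat 2)])) (tn (tl [(247, .ofNat 1)]) te)) (tn (tn (tl [(214, .ofNat 1), (215, .ofNat 1), (216, .ofNat 2), (219, .ofNat 1)]) (tl [(409, .ofNat 2), (410, .ofNat 2), (411, .ofNat 1), (412, .ofNat 1), (413, .ofNat 1)])) te))) (tn (tn (tn (tn (tl [(65, .ofNat 1)]) (tl [(387, .ofNat 2), (390, .ofNat 2)])) te) (tn (tn te (tl [(402, .ofNat 1), (403, .ofNat 2)])) te)) (tn (tn (tn (tl [(117, .ofNat 1)]) (tl [(392, .ofNat 2), (393, .ofNat 2), (394, .ofNat 1), (395, .ofNat 1), (396, .ofNat 2)])) (tn (tl [(278, .ofNat 1)]) te)) (tn (tn (tl [(221, .ofNat 2), (224, .ofNat 1)]) (tl [(414, .ofNat 1), (415, .ofNat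 2), (416, .ofNat 1), (417, .ofNat 1)])) te)))) (tn (tn (tn (tn (tn (tl [(35, .ofNat 1)]) (tl [(389, .ofNat 1), (390, .ofNat 1), (391, .ofNat 2)])) (tn (tl [(227, .ofNat 1), (228, .ofNat 1), (229, .ofNat 1), (230, .ofNat 1), (232, .ofNat 1)]) te)) (tn (tn (tl [(212, .ofNat 1)]) te) (tn (tl [(347, .ofNat 1)]) te))) (tn (tn (tn (tl [(104, .ofNat 1)]) (tl [(392, .ofNat 1), (394, .ofNat 1), (396, .ofNat 2)])) (tn (tl [(264, .ofNat 1)]) te)) (tn (tn te (tl [(414, .ofNat 2), (415, .ofNat 1), (417, .ofNat 2)])) te))) (tn (tn (tn (tn (tl [(76, .ofNat 1), (77, .ofNat 2)]) te) (tn (tl [(239, .ofNat 1)]) (tl [(429, .ofNat 1)]))) (tn (tn (tl [(215, .ofNat 2), (216, .ofNat 2), (217, .ofNat 1), (218, .ofNat 1), (219, .ofNat 1)]) (tl [(402, .ofNat 1), (404, .ofNat 1), (407, .ofNat 1)])) te)) (tn (tn (tn (tl [(163, .ofNat 1)]) (tl [(397, .ofNat 2), (398, .ofNat 1), (399, .ofNat 2), (400, .ofNat 2), (401, .ofNat 2)])) (tn (tl [(292, .ofNat 1),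 (293, .ofNat 2), (294, .ofNat 1), (295, .ofNat 1), (298, .ofNat 2), (299, .ofNat 2), (300, .ofNat 2), (301, .ofNat 1), (303, .ofNat 1), (305, .ofNat 1), (307, .ofNat 1), (308, .ofNat 2), (310, .ofNat 1), (311, .ofNat 2)]) te)) (tn (tn (tl [(221, .ofNat 1), (222, .ofNat 1), (223, .ofNat 2), (224, .ofNat 2), (225, .ofNat 2)]) (tl [(418, .ofNat 2), (420, .ofNat 2), (422, .ofNat 1)])) te)))))) (tn (tn (tn (tn (tn (tn (tn te (tl [(387, .ofNat 2), (389, .ofNat 2), (391, .ofNat 2)])) (tn (tl [(227, .ofNat 2), (229, .ofNat 1), (230, .ofNat 2), (232, .ofNat 2)]) te)) (tn (tn te (tl [(398, .ofNat 2), (400, .ofNat 1), (401, .ofNat 2)])) (tn (tl [(292, .ofNat 1), (293, .ofNat 2), (294, .ofNat 1), (296, .ofNat 1), (297, .ofNat 2), (298, .ofNat 1), (302, .ofNat 2), (303, .ofNat 1), (304, .ofNat 2), (306, .ofNat 2), (307, .ofNat 2), (308, .ofNat 1), (309, .ofNat 2), (310, .ofNat 1), (311, .ofNat 2)]) te))) (tn (tn (tn (tl [(81, .ofNat 1)])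 te) (tn (tl [(245, .ofNat 1)]) te)) (tn (tn (tl [(215, .ofNat 1), (216, .ofNat 1), (217, .ofNat 1), (219, .ofNat 1)]) (tl [(403, .ofNat 1), (404, .ofNat 1), (405, .ofNat 1), (406, .ofNat 1), (407, .ofNat 2), (408, .ofNat 2)])) te))) (tn (tn (tn (tn te (tl [(387, .ofNat 2), (388, .ofNat 2), (390, .ofNat 1), (391, .ofNat 1)])) (tn (tl [(227, .ofNat 2), (228, .ofNat 1), (229, .ofNat 2), (230, .ofNat 1), (231, .ofNat 2), (232, .ofNat 1)]) te)) (tn (tn te (tl [(403, .ofNat 2), (404, .ofNat 2), (405, .ofNat 2)])) (tn (tl [(369, .ofNat 1)]) te))) (tn (tn (tn (tl [(117, .ofNat 1)]) (tl [(392, .ofNat 1), (393, .ofNat 1), (394, .ofNat 1), (395, .ofNat 1), (396, .ofNat 1)])) (tn (tl [(278, .ofNat 2), (279, .ofNat 2), (280, .ofNat 1), (281, .ofNat 1), (283, .ofNat 1), (284, .ofNat 1), (285, .ofNat 2), (286, .ofNat 1), (288, .ofNat 2), (289, .ofNat 1), (290, .ofNat 2), (291, .ofNat 1)]) te)) (tn (tn (tl [(220, .ofNat 1), (221, .ofNat 1),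 (222, .ofNat 2), (225, .ofNat 1)]) (tl [(414, .ofNat 2), (415, .ofNat 2)])) te)))) (tn (tn (tn (tn (tn (tl [(31, .ofNat 1)]) (tl [(388, .ofNat 1)])) (tn (tl [(227, .ofNat 2), (229, .ofNat 2), (230, .ofNat 2), (231, .ofNat 2), (232, .ofNat 1)]) te)) (tn te (tn (tl [(335, .ofNat 1)]) te))) (tn (tn (tn (tl [(95, .ofNat 1)]) (tl [(392, .ofNat 2), (395, .ofNat 2)])) (tn (tl [(262, .ofNat 1)]) (tl [(433, .ofNat 2)]))) (tn (tn te (tl [(410, .ofNat 2), (412, .ofNat 1), (413, .ofNat 1)])) te))) (tn (tn (tn (tn (tl [(76, .ofNat 1), (77, .ofNat 2)]) te) (tn te (tl [(428, .ofNat 2), (429, .ofNat 2)]))) (tn (tn (tl [(214, .ofNat 1), (215, .ofNat 1), (216, .ofNat 1), (217, .ofNat 1), (218, .ofNat 2), (219, .ofNat 1)]) (tl [(403, .ofNat 1), (404, .ofNat 1), (406, .ofNat 2), (407, .ofNat 2)])) te)) (tn (tn (tn (tl [(161, .ofNat 1)]) (tl [(397, .ofNat 1), (401, .ofNat 2)])) (tn (tl [(292, .ofNat 2), (293, .ofNat 1), (295, .ofNat 2), (296, .ofNat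 2), (297, .ofNat 2), (302, .ofNat 1), (303, .ofNat 1), (306, .ofNat 2), (307, .ofNat 2), (308, .ofNat 2), (310, .ofNat 2), (311, .ofNat 1)]) te)) (tn (tn (tl [(220, .ofNat 2), (221, .ofNat 2), (224, .ofNat 1), (225, .ofNat 2), (226, .ofNat 1)]) (tl [(418, .ofNat 2), (420, .ofNat 1), (421, .ofNat 1), (422, .ofNat 2)])) te))))) (tn (tn (tn (tn (tn (tn (tl [(19, .ofNat 1)]) (tl [(387, .ofNat 2), (389, .ofNat 1), (391, .ofNat 1)])) (tn (tl [(227, .ofNat 1), (228, .ofNat 2), (229, .ofNat 1), (230, .ofNat 1), (232, .ofNat 2)]) te)) (tn te (tn (tl [(292, .ofNat 2), (293, .ofNat 2), (295, .ofNat 2), (297, .ofNat 1), (300, .ofNat 2), (301, .ofNat 2), (303, .ofNat 2), (304, .ofNat 1), (306, .ofNat 1), (309, .ofNat 2), (310, .ofNat 2), (311, .ofNat 2)]) te))) (tn (tn (tn (tl [(85, .ofNat 1)]) (tl [(392, .ofNat 1), (393, .ofNat 2), (394, .ofNat 1), (396, .ofNat 2)])) (tn (tl [(249, .ofNat 1)]) (tl [(430, .ofNat 1)]))) (tn (tn te (tl [(409,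 .ofNat 1), (410, .ofNat 1), (411, .ofNat 1), (412, .ofNat 1), (413, .ofNat 2)])) te))) (tn (tn te (tn (tn te (tl [(402, .ofNat 2), (403, .ofNat 1), (404, .ofNat 1), (405, .ofNat 2), (406, .ofNat 1), (407, .ofNat 2), (408, .ofNat 1)])) te)) (tn (tn (tn (tl [(120, .ofNat 1)]) (tl [(392, .ofNat 2), (395, .ofNat 1), (396, .ofNat 1)])) (tn (tl [(280, .ofNat 1)]) te)) (tn (tn (tl [(221, .ofNat 1), (222, .ofNat 1), (223, .ofNat 2), (224, .ofNat 1), (225, .ofNat 1), (226, .ofNat 1)]) (tl [(414, .ofNat 2), (416, .ofNat 1), (417, .ofNat 2)])) te)))) (tn (tn (tn (tn (tn (tl [(44, .ofNat 1)]) (tl [(387, .ofNat 2), (388, .ofNat 2), (389, .ofNat 1), (390, .ofNat 1), (391, .ofNat 2)])) (tn (tl [(227, .ofNat 2), (230, .ofNat 2)]) (tl [(427, .ofNat 1)]))) (tn (tn (tl [(212, .ofNat 2)]) te) (tn (tl [(349, .ofNat 1)]) te))) (tn (tn (tn (tl [(106, .ofNat 1)]) (tl [(392, .ofNat 2), (393, .ofNat 1), (395, .ofNat 2), (396, .ofNat 1)])) (tn (tl [(266,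 .ofNat 1)]) te)) te)) (tn (tn (tn te (tn (tl [(241, .ofNat 1)]) te)) (tn (tn (tl [(213, .ofNat 1), (214, .ofNat 2), (216, .ofNat 1), (217, .ofNat 1), (218, .ofNat 2), (219, .ofNat 2)]) (tl [(403, .ofNat 2), (404, .ofNat 2), (405, .ofNat 1), (406, .ofNat 2), (407, .ofNat 1), (408, .ofNat 2)])) te)) (tn (tn (tn (tl [(181, .ofNat 1)]) (tl [(397, .ofNat 1), (399, .ofNat 1), (400, .ofNat 2)])) (tn (tl [(292, .ofNat 1), (293, .ofNat 1), (294, .ofNat 1), (296, .ofNat 1), (297, .ofNat 1), (298, .ofNat 2), (301, .ofNat 1), (302, .ofNat 1), (305, .ofNat 2), (306, .ofNat 1), (307, .ofNat 2), (308, .ofNat 2), (310, .ofNat 2)]) te)) (tn (tn (tl [(220, .ofNat 1), (222, .ofNat 2), (223, .ofNat 2), (224, .ofNat 1), (225, .ofNat 1), (226, .ofNat 2)]) (tl [(418, .ofNat 2), (419, .ofNat 1), (420, .ofNat 2)])) te))))))) (tn (tn (tn (tn (tn (tn (tn te (tn (tl [(220, .ofNat 1), (223, .ofNat 1), (224, .ofNat 1), (226, .ofNat 1)]) (tl [(418, .ofNat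 1), (420, .ofNat 2), (421, .ofNat 1)]))) (tn (tn te (tl [(398, .ofNat 2), (399, .ofNat 2), (400, .ofNat 2), (401, .ofNat 1)])) (tn (tl [(293, .ofNat 2), (294, .ofNat 1), (296, .ofNat 2), (297, .ofNat 1), (298, .ofNat 2), (299, .ofNat 1), (300, .ofNat 1), (301, .ofNat 2), (302, .ofNat 2), (303, .ofNat 1), (304, .ofNat 2), (305, .ofNat 2), (306, .ofNat 1), (307, .ofNat 1), (308, .ofNat 2), (309, .ofNat 2), (310, .ofNat 1), (311, .ofNat 1)]) te))) (tn (tn te (tn (tl [(244, .ofNat 1)]) te)) (tn (tn (tl [(213, .ofNat 2), (214, .ofNat 2), (216, .ofNat 2), (218, .ofNat 2), (219, .ofNat 1)]) (tl [(402, .ofNat 2), (403, .ofNat 2), (404, .ofNat 2), (405, .ofNat 1), (406, .ofNat 1), (407, .ofNat 2)])) te))) (tn (tn (tn (tn te (tl [(387, .ofNat 1), (389, .ofNat 1), (390, .ofNat 1)])) (tn (tl [(228, .ofNat 2), (229, .ofNat 2), (230, .ofNat 1), (231, .ofNat 2), (232, .ofNat 2)]) te)) (tn te (tn (tl [(368, .ofNat 1)]) te))) (tn (tn (tn (tl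 [(116, .ofNat 1)]) (tl [(393, .ofNat 1), (394, .ofNat 1), (395, .ofNat 1)])) (tn (tl [(280, .ofNat 1), (281, .ofNat 1), (285, .ofNat 1), (286, .ofNat 2), (287, .ofNat 1), (288, .ofNat 2), (289, .ofNat 2), (290, .ofNat 2)]) (tl [(434, .ofNat 1)]))) (tn (tn (tl [(220, .ofNat 2), (221, .ofNat 2), (223, .ofNat 1), (224, .ofNat 2)]) (tl [(414, .ofNat 2), (416, .ofNat 2), (417, .ofNat 2)])) te)))) (tn (tn (tn (tn (tn (tl [(23, .ofNat 1)]) (tl [(388, .ofNat 1)])) (tn (tl [(227, .ofNat 2), (229, .ofNat 1), (230, .ofNat 1), (231, .ofNat 1)]) te)) (tn te (tn (tl [(334, .ofNat 1)]) te))) (tn (tn (tn (tl [(94, .ofNat 1)]) (tl [(392, .ofNat 2), (393, .ofNat 1), (394, .ofNat 2), (395, .ofNat 1), (396, .ofNat 1)])) (tn (tl [(261, .ofNat 1)]) te)) (tn (tn te (tl [(409, .ofNat 1), (411, .ofNat 2), (413, .ofNat 1)])) te))) (tn (tn (tn (tn (tl [(69, .ofNat 1)]) te) (tn te (tl [(428, .ofNat 1), (429, .ofNat 2)]))) (tn (tn te (tl [(402, .ofNat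 1), (403, .ofNat 2), (404, .ofNat 1), (407, .ofNat 1)])) te)) (tn (tn (tn (tl [(154, .ofNat 1)]) (tl [(397, .ofNat 2), (399, .ofNat 1), (400, .ofNat 2), (401, .ofNat 2)])) (tn (tl [(283, .ofNat 1)]) te)) (tn (tn (tl [(222, .ofNat 1), (223, .ofNat 2), (224, .ofNat 1), (225, .ofNat 2), (226, .ofNat 2)]) (tl [(418, .ofNat 2), (419, .ofNat 1), (420, .ofNat 1), (421, .ofNat 1), (422, .ofNat 1)])) te))))) (tn (tn (tn (tn (tn (tn (tl [(17, .ofNat 1)]) (tl [(387, .ofNat 2)])) (tn (tl [(228, .ofNat 2), (229, .ofNat 1), (230, .ofNat 1)]) te)) (tn (tn te (tl [(400, .ofNat 1), (401, .ofNat 2)])) (tn (tl [(293, .ofNat 1), (294, .ofNat 1), (295, .ofNat 1), (297, .ofNat 2), (298, .ofNat 2), (299, .ofNat 1), (300, .ofNat 1), (302, .ofNat 1), (303, .ofNat 2), (304, .ofNat 2), (305, .ofNat 1), (307, .ofNat 1), (309, .ofNat 1), (310, .ofNat 2), (311, .ofNat 2)]) te))) (tn (tn (tn (tl [(84, .ofNat 1)]) (tl [(394, .ofNat 2), (395, .ofNat 2), (396,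 .ofNat 1)])) (tn (tl [(248, .ofNat 1)]) (tl [(431, .ofNat 1)]))) (tn (tn te (tl [(410, .ofNat 2), (411, .ofNat 1), (412, .ofNat 2), (413, .ofNat 2)])) (tn (tl [(386, .ofNat 2)]) te)))) (tn (tn (tn (tn te (tl [(387, .ofNat 1), (390, .ofNat 1)])) te) (tn (tn te (tl [(402, .ofNat 1), (403, .ofNat 2), (404, .ofNat 2), (407, .ofNat 1)])) te)) (tn (tn (tn (tl [(119, .ofNat 1)]) (tl [(393, .ofNat 2), (394, .ofNat 2), (395, .ofNat 1), (396, .ofNat 1)])) (tn (tl [(279, .ofNat 1)]) te)) (tn (tn (tl [(220, .ofNat 1), (221, .ofNat 1), (224, .ofNat 1), (225, .ofNat 2)]) (tl [(414, .ofNat 1), (415, .ofNat 1), (416, .ofNat 2)])) te)))) (tn (tn (tn (tn (tn (tl [(36, .ofNat 1)]) (tl [(387, .ofNat 2), (388, .ofNat 1), (389, .ofNat 2), (391, .ofNat 1)])) (tn (tl [(227, .ofNat 2), (228, .ofNat 2), (230, .ofNat 2), (231, .ofNat 2), (232, .ofNat 2)]) (tl [(427, .ofNat 2)]))) (tn (tn (tl [(212, .ofNat 2)]) te) (tn (tl [(348, .ofNat 1)]) te))) (tn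 (tn (tn (tl [(105, .ofNat 1)]) (tl [(392, .ofNat 2), (394, .ofNat 1), (395, .ofNat 1)])) (tn (tl [(265, .ofNat 1)]) te)) (tn (tn te (tl [(414, .ofNat 2), (415, .ofNat 2), (416, .ofNat 2)])) te))) (tn (tn (tn (tn (tl [(74, .ofNat 1)]) te) (tn (tl [(240, .ofNat 1)]) (tl [(429, .ofNat 2)]))) (tn (tn (tl [(213, .ofNat 1), (216, .ofNat 1), (218, .ofNat 2), (219, .ofNat 1)]) (tl [(402, .ofNat 2), (405, .ofNat 1), (407, .ofNat 2), (408, .ofNat 2)])) te)) (tn (tn (tn (tl [(180, .ofNat 1)]) (tl [(397, .ofNat 1), (399, .ofNat 1), (400, .ofNat 2)])) (tn (tl [(292, .ofNat 2), (293, .ofNat 1), (294, .ofNat 1), (297, .ofNat 1), (298, .ofNat 1), (301, .ofNat 2), (302, .ofNat 2), (303, .ofNat 2), (304, .ofNat 1), (307, .ofNat 1), (309, .ofNat 2), (310, .ofNat 2)]) te)) (tn (tn (tl [(221, .ofNat 2), (222, .ofNat 1), (225, .ofNat 2)]) (tl [(418, .ofNat 2), (419, .ofNat 1), (421, .ofNat 1), (422, .ofNat 2)])) te)))))) (tn (tn (tn (tn (tn (tn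 (tn (tl [(11, .ofNat 1)]) (tl [(387, .ofNat 2), (388, .ofNat 1), (389, .ofNat 2), (390, .ofNat 2), (391, .ofNat 1)])) (tn (tl [(229, .ofNat 2), (230, .ofNat 1), (231, .ofNat 1), (232, .ofNat 1)]) te)) (tn (tn te (tl [(397, .ofNat 1), (398, .ofNat 1), (401, .ofNat 2)])) (tn (tl [(293, .ofNat 1), (295, .ofNat 2), (296, .ofNat 2), (297, .ofNat 2), (299, .ofNat 1), (302, .ofNat 1), (304, .ofNat 2), (306, .ofNat 1), (307, .ofNat 2), (308, .ofNat 2), (309, .ofNat 1)]) te))) (tn (tn (tn (tl [(82, .ofNat 1)]) te) (tn (tl [(246, .ofNat 1)]) (tl [(431, .ofNat 2)]))) (tn (tn (tl [(213, .ofNat 2), (214, .ofNat 2), (215, .ofNat 1), (217, .ofNat 1), (218, .ofNat 2)]) (tl [(409, .ofNat 2), (411, .ofNat 2), (413, .ofNat 1)])) (tn (tl [(386, .ofNat 1)]) te)))) (tn (tn (tn (tn (tl [(66, .ofNat 1), (67, .ofNat 1)]) (tl [(387, .ofNat 2), (388, .ofNat 1), (389, .ofNat 2), (391, .ofNat 1)])) (tn (tl [(227, .ofNat 1), (231, .ofNat 2), (232, .ofNat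 2)]) te)) (tn (tn te (tl [(402, .ofNat 1), (404, .ofNat 1), (406, .ofNat 2), (407, .ofNat 2)])) (tn (tl [(370, .ofNat 1)]) te))) (tn (tn (tn (tl [(118, .ofNat 1)]) (tl [(392, .ofNat 2), (393, .ofNat 1), (394, .ofNat 2), (395, .ofNat 1), (396, .ofNat 1)])) (tn (tl [(279, .ofNat 1), (280, .ofNat 1), (281, .ofNat 2), (282, .ofNat 2), (286, .ofNat 1), (287, .ofNat 1), (290, .ofNat 1)]) te)) (tn (tn (tl [(222, .ofNat 1), (223, .ofNat 1), (224, .ofNat 1), (225, .ofNat 1), (226, .ofNat 1)]) (tl [(414, .ofNat 2), (416, .ofNat 2), (417, .ofNat 1)])) te)))) (tn (tn (tn (tn (tn (tl [(32, .ofNat 1)]) (tl [(388, .ofNat 2), (389, .ofNat 1), (390, .ofNat 2), (391, .ofNat 1)])) (tn (tl [(227, .ofNat 1), (229, .ofNat 2), (231, .ofNat 2)]) te)) (tn te (tn (tl [(336, .ofNat 1)]) te))) (tn (tn (tn (tl [(103, .ofNat 1)]) (tl [(392, .ofNat 2), (394, .ofNat 2), (395, .ofNat 2), (396, .ofNat 2)])) (tn (tl [(263, .ofNat 1)]) te)) (tn (tn te (tl [(409,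 .ofNat 2), (410, .ofNat 2), (411, .ofNat 2), (412, .ofNat 2), (413, .ofNat 1)])) te))) (tn (tn (tn (tn (tl [(73, .ofNat 1)]) te) (tn te (tl [(429, .ofNat 2)]))) (tn (tn (tl [(213, .ofNat 2), (214, .ofNat 2), (215, .ofNat 1), (218, .ofNat 2), (219, .ofNat 1)]) (tl [(403, .ofNat 2), (405, .ofNat 1), (406, .ofNat 1), (407, .ofNat 2)])) te)) (tn (tn (tn (tl [(162, .ofNat 1)]) (tl [(398, .ofNat 1), (399, .ofNat 2)])) (tn (tl [(293, .ofNat 1), (294, .ofNat 2), (296, .ofNat 1), (297, .ofNat 1), (299, .ofNat 1), (301, .ofNat 2), (305, .ofNat 1), (307, .ofNat 1), (308, .ofNat 2), (311, .ofNat 1)]) te)) (tn (tn (tl [(221, .ofNat 1), (224, .ofNat 2), (225, .ofNat 1), (226, .ofNat 2)]) (tl [(419, .ofNat 2), (420, .ofNat 2), (421, .ofNat 2)])) te))))) (tn (tn (tn (tn (tn (tn (tl [(21, .ofNat 1)]) (tl [(387, .ofNat 2), (388, .ofNat 2), (391, .ofNat 2)])) (tn (tl [(227, .ofNat 1), (228, .ofNat 2), (230, .ofNat 1), (231, .ofNat 2)]) te)) (tn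 te (tn (tl [(293, .ofNat 2), (294, .ofNat 1), (295, .ofNat 1), (296, .ofNat 2), (297, .ofNat 1), (298, .ofNat 1), (300, .ofNat 1), (301, .ofNat 1), (302, .ofNat 1), (303, .ofNat 1), (306, .ofNat 1), (307, .ofNat 1), (308, .ofNat 2), (309, .ofNat 2), (310, .ofNat 1), (311, .ofNat 1)]) te))) (tn (tn (tn (tl [(92, .ofNat 1)]) (tl [(392, .ofNat 1), (393, .ofNat 2), (395, .ofNat 1), (396, .ofNat 2)])) (tn (tl [(260, .ofNat 1), (264, .ofNat 2), (265, .ofNat 2), (266, .ofNat 2), (267, .ofNat 2), (269, .ofNat 2), (270, .ofNat 2), (271, .ofNat 1), (272, .ofNat 1), (275, .ofNat 1), (277, .ofNat 1)]) te)) (tn (tn te (tl [(409, .ofNat 2), (411, .ofNat 2), (412, .ofNat 2), (413, .ofNat 1)])) (tn (tl [(386, .ofNat 2)]) te)))) (tn (tn (tn (tn (tl [(69, .ofNat 1), (71, .ofNat 1), (72, .ofNat 1)]) te) te) (tn (tn te (tl [(402, .ofNat 2), (404, .ofNat 1), (405, .ofNat 2), (406, .ofNat 1), (407, .ofNat 2)])) te)) (tn (tn (tn (tl [(152, .ofNat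 1)]) (tl [(393, .ofNat 1), (396, .ofNat 1)])) (tn (tl [(281, .ofNat 1)]) te)) (tn (tn (tl [(220, .ofNat 1), (222, .ofNat 1), (223, .ofNat 1), (225, .ofNat 1), (226, .ofNat 1)]) (tl [(421, .ofNat 1)])) te)))) (tn (tn (tn (tn (tn (tl [(45, .ofNat 1)]) (tl [(388, .ofNat 1), (389, .ofNat 2), (390, .ofNat 1)])) (tn (tl [(227, .ofNat 2), (231, .ofNat 1), (232, .ofNat 1)]) (tl [(427, .ofNat 1)]))) (tn te (tn (tl [(350, .ofNat 1)]) te))) (tn (tn (tn (tl [(107, .ofNat 1)]) (tl [(392, .ofNat 1), (393, .ofNat 1), (394, .ofNat 1)])) (tn (tl [(278, .ofNat 2), (279, .ofNat 1), (280, .ofNat 1), (282, .ofNat 2), (284, .ofNat 2), (285, .ofNat 1), (286, .ofNat 2), (288, .ofNat 1), (290, .ofNat 2), (291, .ofNat 2)]) te)) (tn (tn te (tl [(414, .ofNat 2), (415, .ofNat 2), (416, .ofNat 2)])) te))) (tn (tn (tn te (tn (tl [(242, .ofNat 1)]) te)) (tn (tn (tl [(213, .ofNat 1), (214, .ofNat 1), (216, .ofNat 2), (217, .ofNat 1)]) (tl [(403, .ofNat 2),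 (405, .ofNat 1), (407, .ofNat 2), (408, .ofNat 1)])) te)) (tn (tn (tn (tl [(182, .ofNat 1)]) (tl [(397, .ofNat 2), (400, .ofNat 1)])) (tn (tl [(292, .ofNat 1), (294, .ofNat 2), (295, .ofNat 1), (296, .ofNat 2), (297, .ofNat 2), (299, .ofNat 2), (301, .ofNat 2), (302, .ofNat 1), (303, .ofNat 1), (304, .ofNat 2), (305, .ofNat 2), (306, .ofNat 1), (307, .ofNat 1), (309, .ofNat 1)]) te)) (tn (tn (tl [(220, .ofNat 2), (221, .ofNat 2), (224, .ofNat 1), (225, .ofNat 2), (226, .ofNat 1)]) (tl [(421, .ofNat 1), (422, .ofNat 1)])) te))))))))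

def r1 : Tr SV := (tn (tn (tn (tn (tn (tn (tn (tn (tn (tl [(5, .ofNat 1)]) (tl [(391, .ofNat 1)])) (tn (tl [(228, .ofNat 2), (229, .ofNat 1), (230, .ofNat 1), (231, .ofNat 1)]) (tl [(423, .ofNat 2), (424, .ofNat 2)]))) (tn (tn (tl [(207, .ofNat 1)]) te) (tn (tl [(312, .ofNat 2), (313, .ofNat 2), (314, .ofNat 2), (315, .ofNat 1), (316, .ofNat 2), (318, .ofNat 2), (319, .ofNat 2), (320, .ofNat 2), (322, .ofNat 2), (323, .ofNat 2)]) te))) (tn (tn (tn (tl [(88, .ofNat 1)]) (tl [(393, .ofNat 1), (394, .ofNat 2), (395, .ofNat 2), (396, .ofNat 1)])) (tn (tl [(271, .ofNat 1)]) te)) (tn (tn te (tl [(411, .ofNat 1)])) (tn (tl [(386, .ofNat 1)]) te)))) (tn (tn (tn (tn (tl [(60, .ofNat 1)]) te) te) (tn (tn (tl [(214, .ofNat 1), (215, .ofNat 1), (216, .ofNat 2), (218, .ofNat 1), (219, .ofNat 2)]) (tl [(407, .ofNat 1)])) (tn (tl [(378, .ofNat 1), (379, .ofNat 2), (384, .ofNat 2)]) te))) (tn (tn (tn (tl [(134, .ofNat 1)]) (tl [(397, .ofNat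 1), (398, .ofNat 2), (399, .ofNat 1), (400, .ofNat 2), (401, .ofNat 2)])) (tn (tl [(293, .ofNat 1)]) te)) (tn (tn (tl [(232, .ofNat 1)]) (tl [(418, .ofNat 2), (419, .ofNat 2), (420, .ofNat 2), (421, .ofNat 1), (422, .ofNat 1)])) (tn (tl [(388, .ofNat 2), (391, .ofNat 2)]) te))))) (tn (tn (tn (tn (tn (tl [(26, .ofNat 1)]) te) te) (tn (tn te (tl [(402, .ofNat 2), (404, .ofNat 1), (406, .ofNat 1), (407, .ofNat 1)])) (tn (tl [(351, .ofNat 1)]) te))) (tn (tn (tn te (tl [(397, .ofNat 1), (398, .ofNat 2), (399, .ofNat 2), (400, .ofNat 1), (401, .ofNat 2)])) te) (tn (tn (tl [(220, .ofNat 1), (221, .ofNat 1), (222, .ofNat 2), (223, .ofNat 2), (226, .ofNat 2)]) te) te))) (tn (tn (tn (tn (tl [(76, .ofNat 1)]) (tl [(392, .ofNat 2), (393, .ofNat 1), (394, .ofNat 1), (396, .ofNat 1)])) (tn (tl [(254, .ofNat 1)]) (tl [(428, .ofNat 1), (429, .ofNat 2)]))) (tn (tn (tl [(219, .ofNat 1)]) (tl [(413, .ofNat 2)])) te)) (tn (tn (tn (tl [(165, .ofNat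 1)]) te) (tn (tl [(301, .ofNat 1)]) te)) (tn (tn (tl [(227, .ofNat 1), (229, .ofNat 2), (230, .ofNat 1), (232, .ofNat 1)]) (tl [(424, .ofNat 1), (425, .ofNat 1)])) (tn (tl [(388, .ofNat 1), (389, .ofNat 2), (390, .ofNat 1), (391, .ofNat 2)]) te)))))) (tn (tn (tn (tn (tn (tn (tl [(18, .ofNat 1)]) te) te) (tn (tn (tl [(212, .ofNat 1)]) te) (tn (tl [(312, .ofNat 1)]) te))) (tn (tn (tn (tl [(98, .ofNat 1)]) (tl [(397, .ofNat 2), (398, .ofNat 1), (400, .ofNat 1)])) (tn (tl [(275, .ofNat 1)]) (tl [(432, .ofNat 2), (433, .ofNat 2)]))) te)) (tn (tn (tn te (tn (tl [(250, .ofNat 1)]) te)) (tn (tn (tl [(216, .ofNat 1)]) (tl [(410, .ofNat 2), (411, .ofNat 1)])) te)) (tn (tn (tn (tl [(138, .ofNat 1)]) (tl [(398, .ofNat 1), (399, .ofNat 2)])) (tn (tl [(297, .ofNat 1)]) te)) (tn (tn (tl [(227, .ofNat 1), (228, .ofNat 1), (229, .ofNat 2), (230, .ofNat 2), (231, .ofNat 1), (232, .ofNat 1)]) (tl [(418, .ofNat 2), (421, .ofNat 1)])) (tn (tl [(389,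 .ofNat 1)]) te))))) (tn (tn (tn (tn (tn (tl [(40, .ofNat 1)]) te) te) (tn (tn te (tl [(402, .ofNat 1), (403, .ofNat 2), (404, .ofNat 1), (406, .ofNat 2), (407, .ofNat 1)])) (tn (tl [(359, .ofNat 1)]) te))) (tn (tn (tn (tl [(122, .ofNat 1)]) (tl [(398, .ofNat 2)])) te) (tn (tn (tl [(221, .ofNat 1), (222, .ofNat 1), (223, .ofNat 1), (224, .ofNat 2), (225, .ofNat 1), (226, .ofNat 1)]) (tl [(418, .ofNat 2), (421, .ofNat 1)])) (tn (tl [(388, .ofNat 2), (389, .ofNat 1), (391, .ofNat 2)]) te)))) (tn (tn (tn (tn te (tl [(392, .ofNat 1), (393, .ofNat 2), (394, .ofNat 1), (395, .ofNat 1)])) (tn (tl [(267, .ofNat 1)]) te)) (tn (tn te (tl [(409, .ofNat 2), (410, .ofNat 2), (411, .ofNat 1), (412, .ofNat 1)])) (tn (tl [(386, .ofNat 2)]) te))) (tn (tn (tn (tl [(173, .ofNat 1)]) te) (tn (tl [(312, .ofNat 2), (314, .ofNat 2), (315, .ofNat 1), (316, .ofNat 2), (319, .ofNat 2), (321, .ofNat 2), (322, .ofNat 1), (323, .ofNat 1), (325, .ofNat 2)])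 te)) (tn (tn (tl [(227, .ofNat 1), (228, .ofNat 2), (230, .ofNat 1), (231, .ofNat 1)]) (tl [(425, .ofNat 1)])) (tn (tl [(388, .ofNat 1)]) te))))))) (tn (tn (tn (tn (tn (tn (tn (tl [(8, .ofNat 1)]) te) te) (tn te (tn (tl [(313, .ofNat 2), (317, .ofNat 1), (318, .ofNat 2), (319, .ofNat 1), (320, .ofNat 1), (323, .ofNat 1), (325, .ofNat 1)]) te))) (tn (tn (tn (tl [(96, .ofNat 1)]) (tl [(393, .ofNat 1), (395, .ofNat 2), (396, .ofNat 1)])) (tn (tl [(273, .ofNat 1)]) (tl [(433, .ofNat 2)]))) (tn (tn te (tl [(413, .ofNat 1)])) te))) (tn (tn (tn (tn (tl [(67, .ofNat 1)]) te) (tn te (tl [(429, .ofNat 2)]))) (tn (tn (tl [(214, .ofNat 1)]) (tl [(410, .ofNat 2), (411, .ofNat 2), (412, .ofNat 2), (413, .ofNat 2)])) (tn (tl [(379, .ofNat 1)]) te))) (tn (tn (tn (tl [(136, .ofNat 1)]) (tl [(397, .ofNat 1), (398, .ofNat 2), (399, .ofNat 2), (400, .ofNat 2), (401, .ofNat 1)])) (tn (tl [(295, .ofNat 1)]) te)) (tn (tn (tl [(231, .ofNat 1)]) (tl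 [(418, .ofNat 2), (420, .ofNat 1), (421, .ofNat 2)])) (tn (tl [(388, .ofNat 2), (389, .ofNat 2), (390, .ofNat 2)]) te))))) (tn (tn (tn (tn (tn (tl [(37, .ofNat 1)]) te) (tn te (tl [(427, .ofNat 2)]))) (tn (tn te (tl [(402, .ofNat 1)])) (tn (tl [(353, .ofNat 1)]) te))) (tn (tn (tn te (tl [(397, .ofNat 2), (399, .ofNat 2), (401, .ofNat 1)])) te) (tn (tn (tl [(220, .ofNat 1), (221, .ofNat 2), (222, .ofNat 1), (225, .ofNat 2), (226, .ofNat 2)]) te) (tn (tl [(387, .ofNat 2), (389, .ofNat 2), (390, .ofNat 2), (391, .ofNat 2)]) te)))) (tn (tn (tn (tn te (tl [(392, .ofNat 2), (393, .ofNat 2)])) (tn (tl [(256, .ofNat 1)]) te)) (tn (tn te (tl [(410, .ofNat 2)])) te)) (tn (tn (tn (tl [(171, .ofNat 1)]) te) (tn (tl [(313, .ofNat 2), (315, .ofNat 2), (316, .ofNat 2), (317, .ofNat 1), (318, .ofNat 2), (319, .ofNat 1), (320, .ofNat 2), (321, .ofNat 2), (323, .ofNat 2)]) te)) (tn (tn (tl [(228, .ofNat 2), (230, .ofNat 2), (232, .ofNat 1)])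 (tl [(423, .ofNat 1), (426, .ofNat 1)])) (tn (tl [(388, .ofNat 1), (389, .ofNat 1), (390, .ofNat 2), (391, .ofNat 1)]) te)))))) (tn (tn (tn (tn te (tn (tn (tl [(212, .ofNat 2)]) (tl [(402, .ofNat 2), (403, .ofNat 1), (407, .ofNat 1)])) (tn (tl [(313, .ofNat 1)]) te))) (tn (tn (tn (tl [(100, .ofNat 1)]) (tl [(397, .ofNat 2), (398, .ofNat 1), (399, .ofNat 1), (400, .ofNat 1), (401, .ofNat 1)])) (tn (tl [(277, .ofNat 1)]) (tl [(432, .ofNat 1)]))) (tn (tn (tl [(221, .ofNat 2), (222, .ofNat 2), (223, .ofNat 1)]) te) te))) (tn (tn (tn (tn (tl [(71, .ofNat 1)]) (tl [(392, .ofNat 1), (396, .ofNat 2)])) (tn (tl [(252, .ofNat 1)]) (tl [(429, .ofNat 1)]))) (tn (tn (tl [(217, .ofNat 1)]) (tl [(409, .ofNat 1), (410, .ofNat 1), (412, .ofNat 2), (413, .ofNat 1)])) te)) (tn (tn (tn (tl [(140, .ofNat 1)]) (tl [(397, .ofNat 2), (398, .ofNat 1), (399, .ofNat 1), (400, .ofNat 1)])) (tn (tl [(299, .ofNat 1)]) te)) (tn (tn (tl [(227, .ofNat 1),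 (229, .ofNat 2), (230, .ofNat 2)]) (tl [(418, .ofNat 1), (419, .ofNat 2), (420, .ofNat 2), (421, .ofNat 1), (422, .ofNat 2)])) (tn (tl [(387, .ofNat 2), (389, .ofNat 1), (390, .ofNat 1)]) te))))) (tn (tn (tn (tn (tn (tl [(50, .ofNat 1)]) te) te) (tn (tn te (tl [(405, .ofNat 1)])) (tn (tl [(361, .ofNat 1)]) te))) (tn (tn (tn (tl [(124, .ofNat 1)]) (tl [(397, .ofNat 1), (398, .ofNat 1), (399, .ofNat 2), (400, .ofNat 1), (401, .ofNat 1)])) te) (tn (tn (tl [(220, .ofNat 1), (223, .ofNat 2), (224, .ofNat 1), (225, .ofNat 1), (226, .ofNat 1)]) (tl [(418, .ofNat 1), (419, .ofNat 2), (420, .ofNat 2), (421, .ofNat 2), (422, .ofNat 1)])) (tn (tl [(387, .ofNat 1), (389, .ofNat 1)]) te)))) (tn (tn (tn (tn (tl [(86, .ofNat 1)]) (tl [(394, .ofNat 1)])) (tn (tl [(269, .ofNat 1)]) (tl [(430, .ofNat 1)]))) (tn (tn te (tl [(409, .ofNat 1)])) (tn (tl [(386, .ofNat 1)]) te))) (tn (tn (tn (tl [(194, .ofNat 1)]) te) (tn (tl [(312, .ofNat 2), (313,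 .ofNat 1), (314, .ofNat 1), (315, .ofNat 2), (317, .ofNat 2), (318, .ofNat 1), (319, .ofNat 1), (320, .ofNat 1), (322, .ofNat 2), (325, .ofNat 1)]) te)) (tn (tn (tl [(227, .ofNat 2), (228, .ofNat 2), (229, .ofNat 1), (230, .ofNat 1), (232, .ofNat 2)]) (tl [(426, .ofNat 1)])) (tn (tl [(389, .ofNat 1)]) te)))))))) (tn (tn (tn (tn (tn (tn (tn (tn (tl [(6, .ofNat 1)]) (tl [(387, .ofNat 2), (388, .ofNat 1), (390, .ofNat 1), (391, .ofNat 1)])) (tn (tl [(227, .ofNat 1)]) (tl [(423, .ofNat 2), (424, .ofNat 2), (425, .ofNat 1), (426, .ofNat 1)]))) (tn te (tn (tl [(312, .ofNat 1), (313, .ofNat 2), (314, .ofNat 2), (316, .ofNat 2), (317, .ofNat 1), (318, .ofNat 2), (319, .ofNat 2), (320, .ofNat 2), (322, .ofNat 2), (323, .ofNat 1), (325, .ofNat 1)]) te))) (tn (tn (tn (tl [(79, .ofNat 1), (85, .ofNat 2), (88, .ofNat 1)]) (tl [(392, .ofNat 1), (393, .ofNat 2), (394, .ofNat 2), (395, .ofNat 2)])) (tn (tl [(272, .ofNat 1)]) (tl [(431, .ofNat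 1)]))) (tn (tn te (tl [(412, .ofNat 1)])) (tn (tl [(386, .ofNat 2)]) te)))) (tn (tn (tn (tn (tl [(66, .ofNat 1)]) te) te) (tn (tn (tl [(213, .ofNat 1)]) (tl [(403, .ofNat 2), (404, .ofNat 2), (406, .ofNat 2), (408, .ofNat 1)])) (tn (tl [(378, .ofNat 1)]) te))) (tn (tn (tn (tl [(135, .ofNat 1)]) (tl [(397, .ofNat 1), (399, .ofNat 2)])) (tn (tl [(294, .ofNat 1)]) te)) (tn (tn (tl [(228, .ofNat 1), (230, .ofNat 1), (231, .ofNat 1), (232, .ofNat 1)]) (tl [(419, .ofNat 2), (421, .ofNat 1), (422, .ofNat 2)])) (tn (tl [(387, .ofNat 1), (388, .ofNat 2), (389, .ofNat 1), (390, .ofNat 1), (391, .ofNat 2)]) te))))) (tn (tn (tn (tn (tn (tl [(27, .ofNat 1)]) te) (tn te (tl [(427, .ofNat 2)]))) (tn (tn te (tl [(402, .ofNat 1), (404, .ofNat 1), (405, .ofNat 1), (406, .ofNat 1), (407, .ofNat 2), (408, .ofNat 2)])) (tn (tl [(352, .ofNat 1)]) te))) (tn (tn (tn te (tl [(397, .ofNat 1), (398, .ofNat 2), (399, .ofNat 2)])) te) (tn (tn (tl [(221,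 .ofNat 2), (222, .ofNat 2), (223, .ofNat 1), (224, .ofNat 2), (225, .ofNat 2), (226, .ofNat 1)]) te) (tn (tl [(387, .ofNat 1), (388, .ofNat 1), (390, .ofNat 1), (391, .ofNat 1)]) te)))) (tn (tn (tn (tn (tl [(77, .ofNat 1)]) (tl [(392, .ofNat 2), (393, .ofNat 2), (394, .ofNat 2), (395, .ofNat 1), (396, .ofNat 1)])) (tn (tl [(255, .ofNat 1)]) te)) (tn (tn (tl [(215, .ofNat 2), (216, .ofNat 2), (218, .ofNat 2)]) (tl [(411, .ofNat 2)])) te)) (tn (tn (tn (tl [(166, .ofNat 1)]) te) (tn (tl [(302, .ofNat 1)]) te)) (tn (tn (tl [(227, .ofNat 2), (228, .ofNat 2), (229, .ofNat 2), (231, .ofNat 1)]) (tl [(423, .ofNat 2), (424, .ofNat 2), (425, .ofNat 1)])) (tn (tl [(388, .ofNat 2), (389, .ofNat 2), (390, .ofNat 2), (391, .ofNat 1)]) te)))))) (tn (tn (tn (tn (tn (tn (tl [(20, .ofNat 1)]) te) te) (tn (tn (tl [(212, .ofNat 2)]) te) (tn (tl [(313, .ofNat 1), (315, .ofNat 2), (318, .ofNat 2), (319, .ofNat 1), (321, .ofNat 2), (322, .ofNat 1),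 (323, .ofNat 2), (325, .ofNat 2)]) te))) (tn (tn (tn (tl [(99, .ofNat 1)]) (tl [(399, .ofNat 2), (400, .ofNat 2), (401, .ofNat 2)])) (tn (tl [(276, .ofNat 1)]) te)) (tn (tn (tl [(220, .ofNat 2), (221, .ofNat 1), (222, .ofNat 1), (223, .ofNat 2)]) te) te))) (tn (tn (tn (tn (tl [(70, .ofNat 1)]) te) (tn (tl [(251, .ofNat 1)]) (tl [(428, .ofNat 1)]))) (tn (tn (tl [(213, .ofNat 1), (218, .ofNat 1)]) (tl [(409, .ofNat 2), (411, .ofNat 2), (412, .ofNat 2)])) te)) (tn (tn (tn (tl [(139, .ofNat 1)]) (tl [(397, .ofNat 1), (398, .ofNat 1)])) (tn (tl [(298, .ofNat 1)]) te)) (tn (tn (tl [(230, .ofNat 1), (231, .ofNat 1), (232, .ofNat 2)]) (tl [(418, .ofNat 2), (421, .ofNat 1), (422, .ofNat 1)])) (tn (tl [(388, .ofNat 2), (389, .ofNat 2), (391, .ofNat 2)]) te))))) (tn (tn (tn (tn (tn (tl [(41, .ofNat 1)]) te) te) (tn (tn te (tl [(404, .ofNat 1)])) (tn (tl [(360, .ofNat 1)]) te))) (tn (tn (tn (tl [(123, .ofNat 1)]) (tl [(397, .ofNat 2),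 (398, .ofNat 1), (400, .ofNat 1)])) te) (tn (tn (tl [(220, .ofNat 2), (221, .ofNat 2), (222, .ofNat 1), (223, .ofNat 2), (224, .ofNat 2), (226, .ofNat 1)]) (tl [(418, .ofNat 1), (419, .ofNat 2), (420, .ofNat 2), (421, .ofNat 1), (422, .ofNat 2)])) (tn (tl [(391, .ofNat 1)]) te)))) (tn (tn (tn (tn te (tl [(392, .ofNat 1), (393, .ofNat 2), (394, .ofNat 1), (396, .ofNat 2)])) (tn (tl [(268, .ofNat 1)]) te)) (tn (tn te (tl [(411, .ofNat 2), (412, .ofNat 1), (413, .ofNat 1)])) te)) (tn (tn (tn (tl [(193, .ofNat 1)]) te) (tn (tl [(312, .ofNat 1), (313, .ofNat 2), (315, .ofNat 2), (316, .ofNat 1), (317, .ofNat 1), (318, .ofNat 2), (321, .ofNat 2), (322, .ofNat 1), (323, .ofNat 2)]) te)) (tn (tn (tl [(227, .ofNat 1), (228, .ofNat 2), (229, .ofNat 2), (230, .ofNat 2), (231, .ofNat 1), (232, .ofNat 2)]) (tl [(423, .ofNat 1), (424, .ofNat 2), (425, .ofNat 2)])) (tn (tl [(387, .ofNat 1), (388, .ofNat 1), (389, .ofNat 1), (390, .ofNat 2),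 (391, .ofNat 1)]) te))))))) (tn (tn (tn (tn (tn (tn (tn (tl [(13, .ofNat 1)]) te) te) (tn te (tn (tl [(312, .ofNat 1), (313, .ofNat 1), (314, .ofNat 1), (316, .ofNat 1), (318, .ofNat 1), (319, .ofNat 2), (320, .ofNat 1), (321, .ofNat 1), (322, .ofNat 1), (325, .ofNat 1)]) te))) (tn (tn (tn (tl [(97, .ofNat 1)]) (tl [(392, .ofNat 2), (394, .ofNat 1), (395, .ofNat 2), (396, .ofNat 2)])) (tn (tl [(274, .ofNat 1)]) (tl [(432, .ofNat 2), (433, .ofNat 1)]))) te)) (tn (tn te (tn (tn (tl [(215, .ofNat 1)]) (tl [(411, .ofNat 1), (412, .ofNat 1), (413, .ofNat 1)])) (tn (tl [(380, .ofNat 1)]) te))) (tn (tn (tn (tl [(137, .ofNat 1)]) (tl [(397, .ofNat 1), (398, .ofNat 2), (399, .ofNat 2), (400, .ofNat 2)])) (tn (tl [(296, .ofNat 1)]) te)) (tn (tn (tl [(227, .ofNat 1), (228, .ofNat 2), (229, .ofNat 1), (230, .ofNat 1)]) (tl [(419, .ofNat 1), (421, .ofNat 2)])) (tn (tl [(387, .ofNat 2), (391, .ofNat 2)]) te))))) (tn (tn (tn (tn (tn (tl [(38,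 .ofNat 1)]) te) (tn te (tl [(427, .ofNat 1)]))) (tn (tn te (tl [(403, .ofNat 1)])) (tn (tl [(354, .ofNat 1)]) te))) (tn (tn (tn (tl [(121, .ofNat 1)]) (tl [(398, .ofNat 2), (399, .ofNat 2)])) te) (tn (tn (tl [(220, .ofNat 1), (221, .ofNat 2), (222, .ofNat 1), (223, .ofNat 2), (224, .ofNat 2), (225, .ofNat 2), (226, .ofNat 1)]) te) (tn (tl [(391, .ofNat 2)]) te)))) (tn (tn (tn (tn te (tl [(393, .ofNat 1), (394, .ofNat 1), (395, .ofNat 1), (396, .ofNat 2)])) (tn (tl [(234, .ofNat 1), (235, .ofNat 1), (237, .ofNat 1), (238, .ofNat 2), (239, .ofNat 2), (241, .ofNat 2), (242, .ofNat 1), (243, .ofNat 1), (245, .ofNat 2), (246, .ofNat 2), (247, .ofNat 1), (248, .ofNat 2), (249, .ofNat 2), (250, .ofNat 2), (251, .ofNat 1), (255, .ofNat 1), (257, .ofNat 2)]) te)) (tn (tn te (tl [(409, .ofNat 1)])) te)) (tn (tn (tn (tl [(172, .ofNat 1)]) te) (tn (tl [(312, .ofNat 2), (315, .ofNat 2), (319, .ofNat 1), (320, .ofNat 1), (321, .ofNat 2),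 (322, .ofNat 2), (323, .ofNat 1), (325, .ofNat 2)]) te)) (tn (tn (tl [(227, .ofNat 1), (228, .ofNat 1), (229, .ofNat 2), (230, .ofNat 2), (231, .ofNat 2), (232, .ofNat 2)]) (tl [(423, .ofNat 1), (424, .ofNat 1), (426, .ofNat 1)])) (tn (tl [(387, .ofNat 1)]) te)))))) (tn (tn (tn (tn (tn (tn (tl [(24, .ofNat 1)]) te) te) (tn (tn (tl [(212, .ofNat 1)]) te) (tn (tl [(314, .ofNat 1), (315, .ofNat 2), (318, .ofNat 2), (319, .ofNat 1), (321, .ofNat 2)]) te))) (tn (tn (tn te (tl [(397, .ofNat 2), (399, .ofNat 1), (400, .ofNat 2)])) te) (tn (tn (tl [(220, .ofNat 1), (221, .ofNat 2), (222, .ofNat 1), (225, .ofNat 2), (226, .ofNat 2)]) te) te))) (tn (tn (tn (tn (tl [(75, .ofNat 1)]) (tl [(394, .ofNat 1), (395, .ofNat 2), (396, .ofNat 1)])) (tn (tl [(253, .ofNat 1)]) (tl [(429, .ofNat 1)]))) (tn (tn (tl [(218, .ofNat 1)]) (tl [(409, .ofNat 2), (410, .ofNat 1), (411, .ofNat 1), (412, .ofNat 1)])) te)) (tn (tn (tn (tl [(164, .ofNat 1)])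 (tl [(398, .ofNat 1), (399, .ofNat 2)])) (tn (tl [(300, .ofNat 1)]) te)) (tn (tn (tl [(227, .ofNat 2), (228, .ofNat 1), (229, .ofNat 1), (231, .ofNat 1), (232, .ofNat 2)]) (tl [(423, .ofNat 1), (424, .ofNat 2), (425, .ofNat 1)])) (tn (tl [(387, .ofNat 2), (390, .ofNat 2), (391, .ofNat 2)]) te))))) (tn (tn (tn (tn (tn (tl [(51, .ofNat 1)]) te) te) (tn (tn (tl [(213, .ofNat 2), (214, .ofNat 1), (215, .ofNat 1), (218, .ofNat 2), (219, .ofNat 2)]) (tl [(406, .ofNat 1)])) (tn (tl [(362, .ofNat 1)]) te))) (tn (tn (tn (tl [(125, .ofNat 1)]) (tl [(398, .ofNat 1), (399, .ofNat 2)])) (tn (tl [(292, .ofNat 1)]) (tl [(434, .ofNat 2)]))) (tn (tn (tl [(221, .ofNat 2), (222, .ofNat 1), (223, .ofNat 2), (224, .ofNat 2), (225, .ofNat 2), (226, .ofNat 2)]) (tl [(419, .ofNat 1), (420, .ofNat 1), (422, .ofNat 2)])) (tn (tl [(388, .ofNat 2), (389, .ofNat 2), (390, .ofNat 1)]) te)))) (tn (tn (tn (tn (tl [(87, .ofNat 1)]) (tl [(392, .ofNat 2), (395,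 .ofNat 2)])) (tn (tl [(270, .ofNat 1)]) (tl [(430, .ofNat 2)]))) (tn (tn te (tl [(410, .ofNat 1)])) te)) (tn (tn (tn (tl [(195, .ofNat 1)]) te) (tn (tl [(314, .ofNat 2), (318, .ofNat 1), (319, .ofNat 2), (320, .ofNat 2), (321, .ofNat 1), (322, .ofNat 1), (323, .ofNat 2), (325, .ofNat 2)]) te)) (tn (tn (tl [(227, .ofNat 1), (228, .ofNat 2), (229, .ofNat 2), (231, .ofNat 1)]) (tl [(424, .ofNat 1), (426, .ofNat 1)])) (tn (tl [(390, .ofNat 1)]) te)))))))))

def r2 : Tr SV := (tn (tn (tn (tn (tn (tn (tn (tn (tn (tl [(7, .ofNat 1)]) (tl [(395, .ofNat 1)])) te) (tn (tn (tl [(211, .ofNat 1)]) te) te)) (tn (tn (tn (tl [(110, .ofNat 1)]) te) (tn (tl [(306, .ofNat 1)]) te)) (tn (tn (tl [(229, .ofNat 1)]) (tl [(422, .ofNat 2)])) te))) (tn (tn (tn (tn (tl [(63, .ofNat 1)]) (tl [(397, .ofNat 1)])) te) (tn (tn (tl [(220, .ofNat 1)]) (tl [(416, .ofNat 1)])) te)) (tn te (tn te (tn (tl [(392, .ofNat 2), (393, .ofNat 1), (394, .ofNat 2), (396,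 .ofNat 1)]) te))))) (tn (tn (tn (tn (tn te (tl [(397, .ofNat 2), (398, .ofNat 2), (399, .ofNat 2), (400, .ofNat 2), (401, .ofNat 1)])) te) (tn (tn te (tl [(414, .ofNat 2), (416, .ofNat 2)])) (tn (tl [(371, .ofNat 1)]) te))) (tn (tn (tn (tl [(142, .ofNat 1)]) te) (tn (tl [(315, .ofNat 1)]) te)) (tn (tn te (tl [(423, .ofNat 1), (424, .ofNat 2)])) te))) (tn (tn (tn te (tn (tl [(288, .ofNat 1)]) (tl [(431, .ofNat 1)]))) (tn (tn (tl [(225, .ofNat 1)]) (tl [(419, .ofNat 1), (421, .ofNat 1), (422, .ofNat 2)])) (tn (tl [(386, .ofNat 2)]) te))) (tn (tn (tn (tl [(184, .ofNat 1)]) te) te) (tn te (tn (tl [(392, .ofNat 2), (393, .ofNat 2)]) te)))))) (tn (tn (tn (tn (tn (tn (tl [(22, .ofNat 1)]) (tl [(397, .ofNat 2), (399, .ofNat 1), (400, .ofNat 2), (401, .ofNat 2)])) te) te) (tn (tn (tn (tl [(123, .ofNat 1)]) te) (tn (tl [(309, .ofNat 1)]) te)) (tn (tn (tl [(232, .ofNat 1)]) (tl [(423, .ofNat 1), (424, .ofNat 2)])) te))) (tn (tn (tn (tn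 (tl [(78, .ofNat 1)]) (tl [(400, .ofNat 1)])) (tn (tl [(284, .ofNat 1)]) te)) (tn (tn (tl [(220, .ofNat 1), (221, .ofNat 2), (222, .ofNat 1), (225, .ofNat 2), (226, .ofNat 2)]) (tl [(418, .ofNat 1), (419, .ofNat 2), (421, .ofNat 1), (422, .ofNat 1)])) te)) (tn te (tn te (tn (tl [(392, .ofNat 2), (393, .ofNat 1), (394, .ofNat 2), (396, .ofNat 2)]) te))))) (tn (tn (tn (tn (tn (tl [(52, .ofNat 1)]) (tl [(397, .ofNat 2), (398, .ofNat 2), (399, .ofNat 1), (401, .ofNat 1)])) te) (tn (tn te (tl [(415, .ofNat 2)])) (tn (tl [(381, .ofNat 1)]) te))) (tn (tn te (tn (tl [(319, .ofNat 1)]) (tl [(434, .ofNat 1)]))) (tn te (tn (tl [(392, .ofNat 2), (394, .ofNat 1), (396, .ofNat 1)]) te)))) (tn (tn (tn te (tn (tl [(303, .ofNat 1)]) (tl [(432, .ofNat 1)]))) (tn (tn (tl [(228, .ofNat 2), (229, .ofNat 2), (230, .ofNat 2), (231, .ofNat 2), (232, .ofNat 1)]) (tl [(420, .ofNat 1), (422, .ofNat 2)])) te)) (tn (tn (tn (tl [(198, .ofNat 1)]) te) te)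 (tn te (tn (tl [(392, .ofNat 1)]) te))))))) (tn (tn (tn (tn (tn (tn (tn te (tl [(397, .ofNat 1), (398, .ofNat 2), (399, .ofNat 1), (400, .ofNat 2)])) te) te) (tn (tn (tn (tl [(126, .ofNat 1)]) te) (tn (tl [(308, .ofNat 1)]) te)) (tn (tn (tl [(227, .ofNat 2), (228, .ofNat 2), (229, .ofNat 1), (232, .ofNat 1)]) (tl [(422, .ofNat 1)])) te))) (tn (tn (tn (tn (tl [(72, .ofNat 1)]) (tl [(399, .ofNat 1), (400, .ofNat 2), (401, .ofNat 1)])) (tn te (tl [(430, .ofNat 1)]))) (tn (tn (tl [(222, .ofNat 1)]) (tl [(418, .ofNat 2), (419, .ofNat 1), (420, .ofNat 2)])) te)) (tn te (tn te (tn (tl [(394, .ofNat 2), (395, .ofNat 1), (396, .ofNat 1)]) te))))) (tn (tn (tn (tn (tn (tl [(46, .ofNat 1)]) (tl [(397, .ofNat 2), (398, .ofNat 2), (400, .ofNat 1), (401, .ofNat 1)])) te) (tn (tn te (tl [(415, .ofNat 2), (416, .ofNat 2)])) (tn (tl [(373, .ofNat 1)]) te))) (tn (tn (tn (tl [(144, .ofNat 1)]) te) (tn (tl [(317, .ofNat 1)]) te)) (tn (tn te (tl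 [(423, .ofNat 2), (425, .ofNat 2)])) (tn (tl [(392, .ofNat 1), (395, .ofNat 1)]) te)))) (tn (tn (tn te (tn (tl [(290, .ofNat 1)]) te)) (tn (tn (tl [(228, .ofNat 1), (229, .ofNat 1), (230, .ofNat 2), (231, .ofNat 1), (232, .ofNat 2)]) (tl [(419, .ofNat 1)])) (tn (tl [(386, .ofNat 2)]) te))) (tn (tn (tn (tl [(196, .ofNat 1)]) te) te) (tn te (tn (tl [(392, .ofNat 1), (393, .ofNat 1), (394, .ofNat 1), (395, .ofNat 2), (396, .ofNat 1)]) te)))))) (tn (tn (tn (tn (tn (tn (tl [(28, .ofNat 1)]) (tl [(397, .ofNat 1), (399, .ofNat 1), (400, .ofNat 2), (401, .ofNat 1)])) (tn te (tl [(427, .ofNat 1)]))) (tn (tn te (tl [(414, .ofNat 2), (416, .ofNat 2)])) te)) (tn (tn (tn (tl [(129, .ofNat 1)]) te) (tn (tl [(311, .ofNat 1)]) te)) (tn (tn te (tl [(423, .ofNat 2), (424, .ofNat 1)])) te))) (tn (tn (tn te (tn (tl [(286, .ofNat 1)]) (tl [(430, .ofNat 2)]))) (tn (tn (tl [(223, .ofNat 1)]) (tl [(418, .ofNat 1), (419, .ofNat 1), (420, .ofNat 2),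 (421, .ofNat 1)])) (tn (tl [(386, .ofNat 1)]) te))) (tn te (tn te (tn (tl [(392, .ofNat 2), (394, .ofNat 1), (396, .ofNat 2)]) te))))) (tn (tn (tn (tn (tn te (tl [(397, .ofNat 1), (398, .ofNat 1), (400, .ofNat 2)])) te) (tn (tn te (tl [(414, .ofNat 1)])) (tn (tl [(383, .ofNat 1)]) te))) (tn (tn te (tn (tl [(321, .ofNat 1)]) te)) (tn te (tn (tl [(394, .ofNat 1), (395, .ofNat 1), (396, .ofNat 2)]) te)))) (tn (tn (tn (tn (tl [(108, .ofNat 1)]) te) (tn (tl [(292, .ofNat 2), (294, .ofNat 1), (295, .ofNat 2), (296, .ofNat 2), (297, .ofNat 2), (300, .ofNat 1), (303, .ofNat 2), (306, .ofNat 1), (307, .ofNat 2), (308, .ofNat 1), (309, .ofNat 2), (310, .ofNat 2), (311, .ofNat 1)]) te)) (tn (tn (tl [(227, .ofNat 2), (228, .ofNat 1), (229, .ofNat 1), (231, .ofNat 1), (232, .ofNat 2)]) (tl [(418, .ofNat 2), (420, .ofNat 1), (421, .ofNat 2)])) te)) (tn te (tn te (tn (tl [(393, .ofNat 1)]) te)))))))) (tn (tn (tn (tn (tn (tn (tn (tn (tl [(9,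 .ofNat 1)]) (tl [(392, .ofNat 2), (394, .ofNat 2), (395, .ofNat 1), (396, .ofNat 1)])) te) (tn (tn (tl [(212, .ofNat 2)]) te) te)) (tn (tn (tn (tl [(101, .ofNat 1), (107, .ofNat 2), (110, .ofNat 1)]) te) (tn (tl [(307, .ofNat 1)]) te)) (tn (tn (tl [(230, .ofNat 1)]) te) te))) (tn (tn (tn (tn (tl [(70, .ofNat 1)]) (tl [(398, .ofNat 1)])) te) (tn (tn (tl [(221, .ofNat 1)]) (tl [(415, .ofNat 2), (416, .ofNat 1)])) te)) (tn te (tn te (tn (tl [(395, .ofNat 2)]) te))))) (tn (tn (tn (tn (tn te (tl [(398, .ofNat 1), (401, .ofNat 1)])) te) (tn (tn te (tl [(414, .ofNat 1), (416, .ofNat 2), (417, .ofNat 2)])) (tn (tl [(372, .ofNat 1)]) te))) (tn (tn (tn (tl [(143, .ofNat 1)]) te) (tn (tl [(316, .ofNat 1)]) te)) (tn (tn te (tl [(423, .ofNat 2), (425, .ofNat 2)])) (tn (tl [(392, .ofNat 2), (393, .ofNat 2), (394, .ofNat 1), (395, .ofNat 2), (396, .ofNat 2)]) te)))) (tn (tn (tn te (tn (tl [(289, .ofNat 1)]) (tl [(432, .ofNat 1), (433, .ofNat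 2)]))) (tn (tn (tl [(221, .ofNat 1), (222, .ofNat 1), (223, .ofNat 2), (224, .ofNat 1)]) (tl [(418, .ofNat 1)])) (tn (tl [(386, .ofNat 1)]) te))) (tn (tn (tn (tl [(185, .ofNat 1)]) te) te) (tn te (tn (tl [(393, .ofNat 1), (394, .ofNat 1), (395, .ofNat 1), (396, .ofNat 2)]) te)))))) (tn (tn (tn (tn (tn (tn (tl [(25, .ofNat 1)]) (tl [(399, .ofNat 2)])) (tn te (tl [(427, .ofNat 2)]))) te) (tn (tn (tn (tl [(128, .ofNat 1)]) te) (tn (tl [(310, .ofNat 1)]) te)) (tn (tn te (tl [(423, .ofNat 2), (424, .ofNat 2), (425, .ofNat 2), (426, .ofNat 1)])) te))) (tn (tn (tn (tn te (tl [(401, .ofNat 1)])) (tn (tl [(285, .ofNat 1)]) (tl [(430, .ofNat 2)]))) (tn (tn (tl [(220, .ofNat 1), (221, .ofNat 2), (222, .ofNat 1), (223, .ofNat 2), (224, .ofNat 2), (225, .ofNat 2), (226, .ofNat 1)]) (tl [(420, .ofNat 1), (421, .ofNat 1), (422, .ofNat 1)])) (tn (tl [(386, .ofNat 2)]) te))) (tn te (tn te (tn (tl [(393, .ofNat 2), (394, .ofNat 1), (395, .ofNat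 2)]) te))))) (tn (tn (tn (tn (tn (tl [(53, .ofNat 1)]) (tl [(397, .ofNat 2), (399, .ofNat 1), (400, .ofNat 2)])) te) (tn (tn te (tl [(416, .ofNat 1)])) (tn (tl [(382, .ofNat 1)]) te))) (tn (tn te (tn (tl [(320, .ofNat 1)]) te)) (tn te (tn (tl [(392, .ofNat 2), (393, .ofNat 1), (394, .ofNat 1), (396, .ofNat 1)]) te)))) (tn (tn (tn te (tn (tl [(304, .ofNat 1)]) (tl [(433, .ofNat 1)]))) (tn (tn (tl [(230, .ofNat 1), (231, .ofNat 1), (232, .ofNat 2)]) (tl [(420, .ofNat 1)])) te)) (tn te (tn te (tn (tl [(392, .ofNat 2), (393, .ofNat 2)]) te))))))) (tn (tn (tn (tn (tn (tn (tn (tl [(15, .ofNat 1)]) (tl [(398, .ofNat 1), (401, .ofNat 1)])) (tn te (tl [(427, .ofNat 1)]))) (tn (tn (tl [(212, .ofNat 1)]) te) te)) (tn (tn (tn (tl [(127, .ofNat 1)]) te) (tn (tl [(299, .ofNat 1)]) te)) (tn (tn (tl [(231, .ofNat 1)]) (tl [(423, .ofNat 1), (425, .ofNat 2), (426, .ofNat 1)])) te))) (tn (tn (tn (tn (tl [(75, .ofNat 1)]) (tl [(399, .ofNat 1)]))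 (tn te (tl [(430, .ofNat 2)]))) (tn (tn (tl [(220, .ofNat 2), (222, .ofNat 2), (223, .ofNat 1), (224, .ofNat 2), (225, .ofNat 2), (226, .ofNat 1)]) (tl [(418, .ofNat 2), (422, .ofNat 1)])) te)) (tn te (tn te (tn (tl [(392, .ofNat 1), (395, .ofNat 1)]) te))))) (tn (tn (tn (tn (tn (tl [(47, .ofNat 1)]) (tl [(399, .ofNat 2)])) te) (tn (tn te (tl [(414, .ofNat 1), (415, .ofNat 1), (416, .ofNat 2), (417, .ofNat 1)])) (tn (tl [(374, .ofNat 1)]) te))) (tn (tn te (tn (tl [(318, .ofNat 1)]) te)) (tn (tn te (tl [(423, .ofNat 2), (424, .ofNat 1), (425, .ofNat 1)])) (tn (tl [(393, .ofNat 2), (395, .ofNat 1)]) te)))) (tn (tn (tn te (tn (tl [(278, .ofNat 2), (279, .ofNat 2), (281, .ofNat 1), (282, .ofNat 2), (284, .ofNat 1), (285, .ofNat 1), (289, .ofNat 2), (290, .ofNat 1), (291, .ofNat 2)]) te)) (tn (tn (tl [(228, .ofNat 1), (229, .ofNat 2)]) (tl [(420, .ofNat 1), (421, .ofNat 2), (422, .ofNat 2)])) (tn (tl [(386, .ofNat 1)]) te))) (tn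 (tn (tn (tl [(197, .ofNat 1)]) te) te) (tn te (tn (tl [(392, .ofNat 1), (393, .ofNat 2), (394, .ofNat 2), (395, .ofNat 2), (396, .ofNat 1)]) te)))))) (tn (tn (tn (tn (tn (tn te (tl [(397, .ofNat 1), (399, .ofNat 1), (400, .ofNat 2)])) te) te) (tn (tn (tn (tl [(141, .ofNat 1)]) te) (tn (tl [(314, .ofNat 1)]) te)) (tn (tn te (tl [(423, .ofNat 2), (424, .ofNat 2), (425, .ofNat 1)])) te))) (tn (tn (tn te (tn (tl [(287, .ofNat 1)]) (tl [(430, .ofNat 1)]))) (tn (tn (tl [(224, .ofNat 1)]) (tl [(418, .ofNat 2), (419, .ofNat 1), (422, .ofNat 2)])) te)) (tn (tn (tn (tl [(183, .ofNat 1)]) te) te) (tn te (tn (tl [(392, .ofNat 2), (393, .ofNat 2), (394, .ofNat 2), (395, .ofNat 1), (396, .ofNat 1)]) te))))) (tn (tn (tn (tn (tn te (tl [(398, .ofNat 2)])) te) (tn (tn (tl [(221, .ofNat 1), (222, .ofNat 1), (223, .ofNat 2), (224, .ofNat 1), (225, .ofNat 2), (226, .ofNat 2)]) (tl [(415, .ofNat 1)])) (tn (tl [(384, .ofNat 1)]) te))) (tn te (tn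 te (tn (tl [(393, .ofNat 2), (394, .ofNat 2), (395, .ofNat 1), (396, .ofNat 2)]) te)))) (tn (tn (tn (tn (tl [(109, .ofNat 1)]) te) (tn (tl [(305, .ofNat 1)]) te)) (tn (tn (tl [(228, .ofNat 1)]) (tl [(421, .ofNat 1)])) te)) (tn te (tn te (tn (tl [(394, .ofNat 1)]) te)))))))))

def r3 : Tr SV := (tn (tn (tn (tn (tn (tn (tn (tn (tn (tl [(10, .ofNat 1)]) (tl [(402, .ofNat 2), (403, .ofNat 1), (405, .ofNat 2), (406, .ofNat 1), (407, .ofNat 2), (408, .ofNat 1)])) (tn (tl [(294, .ofNat 2), (296, .ofNat 2), (297, .ofNat 2), (298, .ofNat 1), (301, .ofNat 2), (303, .ofNat 2), (305, .ofNat 1), (306, .ofNat 2), (308, .ofNat 2), (310, .ofNat 1), (311, .ofNat 2)]) te)) (tn (tn te (tl [(424, .ofNat 1)])) (tn (tl [(376, .ofNat 1), (377, .ofNat 1), (378, .ofNat 2), (380, .ofNat 1), (381, .ofNat 1), (382, .ofNat 1), (384, .ofNat 2)]) te))) (tn (tn (tn (tl [(150, .ofNat 1)]) (tl [(414, .ofNat 1), (415, .ofNat 2), (416, .ofNat 1)])) (tn (tl [(340,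 .ofNat 1)]) te)) (tn (tn (tl [(258, .ofNat 1), (259, .ofNat 2), (260, .ofNat 2), (263, .ofNat 2), (264, .ofNat 1), (265, .ofNat 2), (266, .ofNat 2), (267, .ofNat 2), (269, .ofNat 2), (270, .ofNat 2), (271, .ofNat 1), (272, .ofNat 1), (273, .ofNat 1), (274, .ofNat 1), (275, .ofNat 2), (276, .ofNat 2), (277, .ofNat 2)]) te) (tn (tl [(393, .ofNat 2), (394, .ofNat 2)]) te)))) (tn (tn (tn (tn (tl [(64, .ofNat 1)]) (tl [(409, .ofNat 1), (410, .ofNat 1), (411, .ofNat 1)])) (tn (tl [(312, .ofNat 2), (313, .ofNat 1), (315, .ofNat 1), (316, .ofNat 1), (317, .ofNat 2), (318, .ofNat 2), (319, .ofNat 1), (321, .ofNat 2), (322, .ofNat 2), (323, .ofNat 1)]) (tl [(433, .ofNat 1)]))) (tn (tn (tl [(233, .ofNat 2), (235, .ofNat 1), (237, .ofNat 1), (241, .ofNat 2), (242, .ofNat 2), (244, .ofNat 2), (245, .ofNat 1), (246, .ofNat 2), (247, .ofNat 1), (249, .ofNat 2), (250, .ofNat 2), (251, .ofNat 1), (252, .ofNat 1), (254, .ofNat 2), (255, .ofNat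 1), (256, .ofNat 2), (257, .ofNat 2)]) te) te)) (tn (tn (tn (tl [(186, .ofNat 1)]) (tl [(418, .ofNat 2), (420, .ofNat 2), (422, .ofNat 2)])) (tn (tl [(364, .ofNat 2), (365, .ofNat 2), (366, .ofNat 1), (367, .ofNat 1), (368, .ofNat 2), (369, .ofNat 2), (370, .ofNat 2), (371, .ofNat 2), (372, .ofNat 1), (373, .ofNat 1), (374, .ofNat 2)]) te)) (tn (tn (tl [(293, .ofNat 2), (294, .ofNat 1), (295, .ofNat 2), (296, .ofNat 1), (300, .ofNat 1), (302, .ofNat 2), (303, .ofNat 2), (304, .ofNat 1), (308, .ofNat 2), (309, .ofNat 2), (310, .ofNat 1), (311, .ofNat 1)]) te) (tn (tl [(402, .ofNat 1), (403, .ofNat 2), (404, .ofNat 1), (406, .ofNat 2), (407, .ofNat 1)]) te))))) (tn (tn (tn (tn (tn (tl [(48, .ofNat 1)]) (tl [(409, .ofNat 1), (411, .ofNat 2), (412, .ofNat 2)])) (tn (tl [(312, .ofNat 2), (313, .ofNat 1), (315, .ofNat 1), (316, .ofNat 2), (317, .ofNat 1), (318, .ofNat 1), (319, .ofNat 1), (321, .ofNat 1), (322, .ofNat 1), (323, .ofNat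 1)]) (tl [(430, .ofNat 1), (431, .ofNat 2)]))) (tn (tn (tl [(220, .ofNat 2), (221, .ofNat 1), (222, .ofNat 2), (226, .ofNat 2)]) te) te)) (tn (tn (tn (tl [(168, .ofNat 1)]) (tl [(419, .ofNat 1), (420, .ofNat 1), (421, .ofNat 1), (422, .ofNat 2)])) (tn (tl [(356, .ofNat 1), (358, .ofNat 2)]) te)) (tn (tn (tl [(279, .ofNat 2), (281, .ofNat 1), (284, .ofNat 1), (285, .ofNat 2), (286, .ofNat 1), (288, .ofNat 1), (289, .ofNat 1), (291, .ofNat 2)]) te) (tn (tl [(397, .ofNat 2), (398, .ofNat 2), (399, .ofNat 2), (400, .ofNat 2), (401, .ofNat 2)]) te)))) (tn (tn (tn (tn (tl [(113, .ofNat 1)]) (tl [(414, .ofNat 2), (415, .ofNat 2), (416, .ofNat 2)])) (tn (tl [(330, .ofNat 1)]) te)) (tn (tn (tl [(237, .ofNat 1)]) te) (tn (tl [(389, .ofNat 2), (390, .ofNat 1), (391, .ofNat 2)]) te))) (tn (tn (tn (tl [(201, .ofNat 1)]) (tl [(423, .ofNat 1)])) (tn (tl [(365, .ofNat 1)]) te)) (tn (tn (tl [(292, .ofNat 1), (296, .ofNat 2), (297, .ofNat 1),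 (298, .ofNat 1), (299, .ofNat 1), (302, .ofNat 1), (303, .ofNat 1), (304, .ofNat 1), (305, .ofNat 2), (306, .ofNat 2), (308, .ofNat 2), (311, .ofNat 1)]) te) (tn (tl [(402, .ofNat 2), (403, .ofNat 2), (404, .ofNat 2), (405, .ofNat 2)]) te)))))) (tn (tn (tn (tn (tn (tn (tl [(30, .ofNat 1)]) (tl [(411, .ofNat 1), (412, .ofNat 1)])) (tn (tl [(313, .ofNat 2), (314, .ofNat 1), (316, .ofNat 1), (317, .ofNat 2), (322, .ofNat 2), (323, .ofNat 1), (324, .ofNat 2)]) (tl [(428, .ofNat 2)]))) (tn (tn (tl [(221, .ofNat 1), (224, .ofNat 1), (225, .ofNat 2), (226, .ofNat 2)]) (tl [(423, .ofNat 1), (426, .ofNat 2)])) (tn (tl [(376, .ofNat 1), (379, .ofNat 2), (380, .ofNat 2), (381, .ofNat 1), (382, .ofNat 1), (383, .ofNat 1), (384, .ofNat 1), (385, .ofNat 2)]) te))) (tn (tn (tn (tl [(158, .ofNat 1)]) (tl [(418, .ofNat 2), (419, .ofNat 1), (421, .ofNat 2), (422, .ofNat 2)])) (tn (tl [(344, .ofNat 1)]) te)) (tn (tn (tl [(260, .ofNat 1), (261,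 .ofNat 2), (262, .ofNat 2), (263, .ofNat 1), (264, .ofNat 1), (265, .ofNat 1), (270, .ofNat 1), (271, .ofNat 1), (272, .ofNat 1), (273, .ofNat 1), (275, .ofNat 1), (276, .ofNat 2), (277, .ofNat 1)]) te) te))) (tn (tn (tn (tn (tl [(91, .ofNat 1)]) (tl [(409, .ofNat 2), (410, .ofNat 2), (412, .ofNat 1), (413, .ofNat 1)])) (tn (tl [(326, .ofNat 1)]) te)) (tn (tn (tl [(233, .ofNat 1)]) te) te)) (tn (tn (tn (tl [(190, .ofNat 1)]) (tl [(418, .ofNat 2), (419, .ofNat 2), (420, .ofNat 2)])) (tn (tl [(364, .ofNat 1), (365, .ofNat 1), (366, .ofNat 1), (367, .ofNat 1), (368, .ofNat 2), (369, .ofNat 1), (372, .ofNat 1), (374, .ofNat 2)]) te)) (tn (tn (tl [(293, .ofNat 2), (295, .ofNat 1), (297, .ofNat 2), (298, .ofNat 2), (299, .ofNat 1), (304, .ofNat 1), (305, .ofNat 1), (307, .ofNat 1), (308, .ofNat 1), (309, .ofNat 1), (311, .ofNat 1)]) te) (tn (tl [(402, .ofNat 1), (403, .ofNat 1), (404, .ofNat 1), (405, .ofNat 1), (406, .ofNat 1),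 (407, .ofNat 2), (408, .ofNat 2)]) te))))) (tn (tn (tn (tn (tn (tl [(58, .ofNat 1)]) (tl [(409, .ofNat 1), (410, .ofNat 1), (412, .ofNat 1), (413, .ofNat 1)])) (tn (tl [(312, .ofNat 1), (314, .ofNat 2), (316, .ofNat 1), (319, .ofNat 1), (321, .ofNat 1), (322, .ofNat 2), (323, .ofNat 1), (325, .ofNat 2)]) (tl [(431, .ofNat 2)]))) (tn (tn (tl [(228, .ofNat 2), (230, .ofNat 2), (231, .ofNat 2), (232, .ofNat 1)]) te) te)) (tn (tn (tn (tl [(176, .ofNat 1)]) (tl [(418, .ofNat 1), (419, .ofNat 2), (420, .ofNat 1), (421, .ofNat 2), (422, .ofNat 2)])) te) (tn (tn (tl [(280, .ofNat 1), (282, .ofNat 1), (284, .ofNat 2), (285, .ofNat 2), (288, .ofNat 2), (290, .ofNat 2), (291, .ofNat 2)]) te) (tn (tl [(402, .ofNat 2), (406, .ofNat 2)]) te)))) (tn (tn (tn (tn (tl [(132, .ofNat 1)]) (tl [(414, .ofNat 2), (415, .ofNat 1), (417, .ofNat 1)])) (tn (tl [(339, .ofNat 2), (340, .ofNat 2), (341, .ofNat 2), (342, .ofNat 1), (343, .ofNat 1), (344,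 .ofNat 2), (345, .ofNat 2), (347, .ofNat 1), (348, .ofNat 2), (354, .ofNat 1)]) te)) (tn (tn (tl [(258, .ofNat 2), (259, .ofNat 2), (260, .ofNat 2), (261, .ofNat 1), (262, .ofNat 1), (265, .ofNat 2), (267, .ofNat 2), (268, .ofNat 2), (269, .ofNat 2), (270, .ofNat 1), (271, .ofNat 1), (275, .ofNat 2), (276, .ofNat 1), (277, .ofNat 1)]) te) (tn (tl [(392, .ofNat 1), (393, .ofNat 1), (394, .ofNat 2), (395, .ofNat 2), (396, .ofNat 2)]) te))) (tn (tn (tn (tl [(206, .ofNat 1)]) (tl [(425, .ofNat 1)])) (tn (tl [(375, .ofNat 2), (376, .ofNat 2), (378, .ofNat 2), (379, .ofNat 1), (380, .ofNat 1), (381, .ofNat 1), (382, .ofNat 2), (384, .ofNat 1), (385, .ofNat 1)]) te)) (tn (tn (tl [(292, .ofNat 2), (294, .ofNat 1), (296, .ofNat 2), (297, .ofNat 1), (298, .ofNat 1), (299, .ofNat 1), (300, .ofNat 1), (304, .ofNat 2), (307, .ofNat 2), (308, .ofNat 1), (309, .ofNat 2), (310, .ofNat 2), (311, .ofNat 1)]) te) (tn (tl [(402, .ofNat 1), (406,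 .ofNat 2), (407, .ofNat 2)]) te))))))) (tn (tn (tn (tn (tn (tn (tn (tl [(14, .ofNat 1)]) (tl [(409, .ofNat 2), (410, .ofNat 1), (412, .ofNat 2)])) (tn (tl [(312, .ofNat 2), (313, .ofNat 1), (316, .ofNat 2), (318, .ofNat 2), (319, .ofNat 2), (320, .ofNat 1), (321, .ofNat 1), (322, .ofNat 2), (325, .ofNat 1)]) te)) (tn (tn (tl [(213, .ofNat 2), (215, .ofNat 1), (217, .ofNat 2), (218, .ofNat 1), (219, .ofNat 2)]) (tl [(423, .ofNat 1), (425, .ofNat 1)])) (tn (tl [(375, .ofNat 1), (377, .ofNat 2), (378, .ofNat 2), (380, .ofNat 2), (381, .ofNat 2), (384, .ofNat 2), (385, .ofNat 1)]) te))) (tn (tn (tn (tl [(156, .ofNat 1)]) (tl [(414, .ofNat 1), (416, .ofNat 2)])) (tn (tl [(342, .ofNat 1)]) te)) (tn (tn (tl [(258, .ofNat 1)]) te) te))) (tn (tn (tn (tn (tl [(80, .ofNat 1)]) (tl [(409, .ofNat 1), (411, .ofNat 2), (412, .ofNat 1), (413, .ofNat 1)])) (tn (tl [(312, .ofNat 2), (313, .ofNat 2), (314, .ofNat 1), (315, .ofNat 1), (316, .ofNat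 1), (318, .ofNat 2), (319, .ofNat 1)]) te)) (tn (tn (tl [(233, .ofNat 2), (235, .ofNat 1), (236, .ofNat 1), (237, .ofNat 2), (239, .ofNat 1), (240, .ofNat 1), (241, .ofNat 2), (242, .ofNat 2), (244, .ofNat 1), (245, .ofNat 2), (247, .ofNat 2), (248, .ofNat 2), (249, .ofNat 2), (251, .ofNat 1), (253, .ofNat 1), (254, .ofNat 2), (255, .ofNat 1), (256, .ofNat 2), (257, .ofNat 2)]) te) te)) (tn (tn (tn (tl [(188, .ofNat 1)]) (tl [(418, .ofNat 2), (421, .ofNat 2)])) (tn (tl [(364, .ofNat 2), (365, .ofNat 2), (366, .ofNat 2), (368, .ofNat 2), (369, .ofNat 1), (370, .ofNat 1), (371, .ofNat 1), (373, .ofNat 2), (374, .ofNat 1)]) te)) (tn (tn (tl [(292, .ofNat 1), (294, .ofNat 1), (295, .ofNat 1), (298, .ofNat 2), (299, .ofNat 2), (300, .ofNat 1), (301, .ofNat 2), (302, .ofNat 1), (303, .ofNat 1), (304, .ofNat 1), (305, .ofNat 1), (308, .ofNat 2), (309, .ofNat 1), (311, .ofNat 2)]) te) (tn (tl [(402, .ofNat 2), (403, .ofNat 1), (407,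 .ofNat 2)]) te))))) (tn (tn (tn (tn (tn (tl [(55, .ofNat 1)]) (tl [(409, .ofNat 2), (410, .ofNat 1)])) (tn (tl [(312, .ofNat 1), (313, .ofNat 2), (315, .ofNat 1), (318, .ofNat 1), (319, .ofNat 2), (320, .ofNat 2), (321, .ofNat 2), (323, .ofNat 1), (325, .ofNat 2)]) (tl [(430, .ofNat 2)]))) (tn (tn (tl [(227, .ofNat 1), (228, .ofNat 2), (229, .ofNat 2), (230, .ofNat 1), (232, .ofNat 1)]) te) te)) (tn (tn (tn (tl [(170, .ofNat 1)]) (tl [(418, .ofNat 2), (419, .ofNat 1), (421, .ofNat 1)])) (tn (tl [(356, .ofNat 2), (357, .ofNat 1), (359, .ofNat 1), (361, .ofNat 1), (362, .ofNat 1), (363, .ofNat 2)]) te)) (tn (tn (tl [(280, .ofNat 1), (283, .ofNat 2), (284, .ofNat 1), (285, .ofNat 1), (286, .ofNat 1), (287, .ofNat 1), (288, .ofNat 2), (291, .ofNat 2)]) te) (tn (tl [(402, .ofNat 2), (403, .ofNat 1), (404, .ofNat 1), (405, .ofNat 2), (406, .ofNat 1), (408, .ofNat 2)]) te)))) (tn (tn (tn (tn (tl [(130, .ofNat 1)]) (tl [(414, .ofNat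 2), (415, .ofNat 1), (417, .ofNat 1)])) (tn (tl [(331, .ofNat 1)]) te)) (tn (tn (tl [(259, .ofNat 2), (260, .ofNat 1), (262, .ofNat 1), (266, .ofNat 1), (267, .ofNat 1), (268, .ofNat 2), (269, .ofNat 2), (270, .ofNat 2), (271, .ofNat 2), (272, .ofNat 2), (273, .ofNat 2), (274, .ofNat 2), (277, .ofNat 2)]) te) (tn (tl [(387, .ofNat 1), (390, .ofNat 2)]) te))) (tn (tn (tn (tl [(204, .ofNat 1)]) (tl [(423, .ofNat 1), (424, .ofNat 1)])) (tn (tl [(376, .ofNat 1), (379, .ofNat 1), (383, .ofNat 1), (385, .ofNat 1)]) te)) (tn (tn (tl [(292, .ofNat 1), (294, .ofNat 1), (295, .ofNat 2), (296, .ofNat 1), (297, .ofNat 2), (298, .ofNat 1), (299, .ofNat 2), (301, .ofNat 1), (303, .ofNat 1), (304, .ofNat 2), (305, .ofNat 2), (307, .ofNat 2), (308, .ofNat 1), (309, .ofNat 1), (310, .ofNat 1), (311, .ofNat 2)]) te) (tn (tl [(402, .ofNat 2), (406, .ofNat 2), (407, .ofNat 2)]) te)))))) (tn (tn (tn (tn (tn (tn (tl [(39, .ofNat 1)]) (tl [(409,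 .ofNat 2), (411, .ofNat 2), (412, .ofNat 1)])) (tn (tl [(314, .ofNat 1), (315, .ofNat 2), (316, .ofNat 2), (319, .ofNat 1), (322, .ofNat 1)]) (tl [(428, .ofNat 1), (429, .ofNat 2)]))) (tn (tn (tl [(220, .ofNat 2), (221, .ofNat 2), (223, .ofNat 1), (225, .ofNat 1)]) te) (tn (tl [(376, .ofNat 1)]) te))) (tn (tn (tn (tl [(160, .ofNat 1)]) (tl [(418, .ofNat 2), (419, .ofNat 1), (421, .ofNat 1)])) (tn (tl [(346, .ofNat 1)]) te)) (tn (tn (tl [(280, .ofNat 1), (281, .ofNat 1), (285, .ofNat 2), (286, .ofNat 2), (287, .ofNat 2), (288, .ofNat 2)]) te) (tn (tl [(397, .ofNat 1), (398, .ofNat 1), (401, .ofNat 2)]) te)))) (tn (tn (tn (tn (tl [(102, .ofNat 1)]) (tl [(414, .ofNat 1), (415, .ofNat 1), (417, .ofNat 1)])) (tn (tl [(328, .ofNat 1)]) te)) (tn (tn (tl [(235, .ofNat 1)]) te) (tn (tl [(387, .ofNat 1), (388, .ofNat 1), (390, .ofNat 1), (391, .ofNat 1)]) te))) (tn (tn (tn (tl [(192, .ofNat 1)]) (tl [(419, .ofNat 1), (420, .ofNat 2),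 (421, .ofNat 1)])) (tn (tl [(364, .ofNat 2), (366, .ofNat 1), (367, .ofNat 2), (368, .ofNat 2), (369, .ofNat 2), (372, .ofNat 2), (373, .ofNat 2)]) te)) (tn (tn (tl [(292, .ofNat 1), (294, .ofNat 1), (295, .ofNat 2), (296, .ofNat 2), (297, .ofNat 2), (299, .ofNat 2), (300, .ofNat 2), (303, .ofNat 2), (304, .ofNat 1), (305, .ofNat 2), (308, .ofNat 1), (309, .ofNat 1), (310, .ofNat 2), (311, .ofNat 2)]) te) (tn (tl [(403, .ofNat 2), (404, .ofNat 1), (405, .ofNat 2), (406, .ofNat 2)]) te))))) (tn (tn (tn (tn (tn (tl [(61, .ofNat 1)]) (tl [(409, .ofNat 1), (410, .ofNat 1), (411, .ofNat 1), (412, .ofNat 1), (413, .ofNat 2)])) (tn (tl [(315, .ofNat 2), (317, .ofNat 2), (318, .ofNat 2), (319, .ofNat 2), (320, .ofNat 2), (322, .ofNat 2)]) (tl [(432, .ofNat 1), (433, .ofNat 2)]))) (tn (tn (tl [(227, .ofNat 2), (228, .ofNat 2), (229, .ofNat 1), (231, .ofNat 1), (232, .ofNat 1)]) te) te)) (tn (tn (tn (tl [(178, .ofNat 1)]) (tl [(420,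 .ofNat 2), (421, .ofNat 1), (422, .ofNat 1)])) (tn (tl [(358, .ofNat 1)]) te)) (tn (tn (tl [(278, .ofNat 2), (279, .ofNat 2), (280, .ofNat 2), (281, .ofNat 1), (282, .ofNat 1), (285, .ofNat 2), (287, .ofNat 2), (289, .ofNat 2), (290, .ofNat 2), (291, .ofNat 1)]) te) (tn (tl [(403, .ofNat 2), (404, .ofNat 1), (406, .ofNat 2)]) te)))) (tn (tn (tn (tn (tl [(148, .ofNat 1)]) te) (tn (tl [(338, .ofNat 1)]) te)) (tn (tn (tl [(258, .ofNat 1), (259, .ofNat 2), (260, .ofNat 2), (261, .ofNat 1), (262, .ofNat 1), (263, .ofNat 1), (265, .ofNat 2), (266, .ofNat 2), (267, .ofNat 1), (268, .ofNat 1), (269, .ofNat 1), (270, .ofNat 1), (272, .ofNat 1), (273, .ofNat 1), (274, .ofNat 1), (275, .ofNat 1)]) te) (tn (tl [(392, .ofNat 2), (393, .ofNat 2), (394, .ofNat 1)]) te))) (tn (tn (tn (tl [(209, .ofNat 1)]) (tl [(423, .ofNat 1)])) (tn (tl [(375, .ofNat 2), (376, .ofNat 1), (377, .ofNat 2), (379, .ofNat 2), (380, .ofNat 2), (381, .ofNat 1),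 (382, .ofNat 1), (383, .ofNat 1), (384, .ofNat 1), (385, .ofNat 2)]) te)) (tn (tn (tl [(292, .ofNat 2), (293, .ofNat 1), (295, .ofNat 2), (296, .ofNat 2), (297, .ofNat 2), (298, .ofNat 1), (299, .ofNat 2), (301, .ofNat 2), (302, .ofNat 2), (305, .ofNat 2), (306, .ofNat 2), (307, .ofNat 1), (308, .ofNat 2), (309, .ofNat 1), (310, .ofNat 2)]) te) (tn (tl [(402, .ofNat 2), (404, .ofNat 2), (406, .ofNat 1)]) te)))))))) (tn (tn (tn (tn (tn (tn (tn (tn (tl [(12, .ofNat 1)]) (tl [(403, .ofNat 2), (404, .ofNat 2), (405, .ofNat 2), (406, .ofNat 2), (408, .ofNat 1)])) (tn (tl [(292, .ofNat 2), (294, .ofNat 1), (295, .ofNat 1), (296, .ofNat 2), (299, .ofNat 1), (300, .ofNat 2), (301, .ofNat 1), (302, .ofNat 2), (304, .ofNat 1), (305, .ofNat 1), (306, .ofNat 2), (307, .ofNat 1), (309, .ofNat 2), (311, .ofNat 2)]) te)) (tn (tn (tl [(214, .ofNat 2), (215, .ofNat 1), (217, .ofNat 1), (218, .ofNat 1), (219, .ofNat 1)]) (tl [(424, .ofNat 2),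 (425, .ofNat 2)])) (tn (tl [(375, .ofNat 1), (376, .ofNat 1), (377, .ofNat 1), (378, .ofNat 1), (379, .ofNat 1), (380, .ofNat 1), (382, .ofNat 2), (383, .ofNat 1), (384, .ofNat 1), (385, .ofNat 1)]) te))) (tn (tn (tn (tl [(151, .ofNat 1)]) (tl [(414, .ofNat 1), (415, .ofNat 2), (416, .ofNat 1)])) (tn (tl [(341, .ofNat 1)]) te)) (tn (tn (tl [(258, .ofNat 1), (259, .ofNat 2), (261, .ofNat 1), (264, .ofNat 1), (265, .ofNat 1), (266, .ofNat 1), (267, .ofNat 1), (270, .ofNat 1), (271, .ofNat 2), (273, .ofNat 1), (274, .ofNat 2), (275, .ofNat 1), (276, .ofNat 2)]) te) (tn (tl [(392, .ofNat 2), (394, .ofNat 2), (395, .ofNat 2), (396, .ofNat 2)]) te)))) (tn (tn (tn (tn (tl [(79, .ofNat 1)]) (tl [(409, .ofNat 1), (410, .ofNat 1), (411, .ofNat 2), (412, .ofNat 2), (413, .ofNat 1)])) (tn (tl [(312, .ofNat 1), (313, .ofNat 2), (314, .ofNat 1), (315, .ofNat 2), (316, .ofNat 1), (317, .ofNat 2), (319, .ofNat 2), (320, .ofNat 1), (321, .ofNat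 2), (325, .ofNat 2)]) (tl [(432, .ofNat 2), (433, .ofNat 2)]))) (tn (tn (tl [(234, .ofNat 2), (235, .ofNat 1), (239, .ofNat 2), (240, .ofNat 2), (241, .ofNat 1), (242, .ofNat 2), (243, .ofNat 2), (246, .ofNat 2), (247, .ofNat 1), (248, .ofNat 2), (249, .ofNat 2), (250, .ofNat 1), (251, .ofNat 1), (253, .ofNat 2), (254, .ofNat 1), (255, .ofNat 2), (257, .ofNat 2)]) te) te)) (tn (tn (tn (tl [(187, .ofNat 1)]) (tl [(419, .ofNat 1), (420, .ofNat 2), (421, .ofNat 1), (422, .ofNat 1)])) (tn (tl [(365, .ofNat 2), (366, .ofNat 2), (369, .ofNat 1), (370, .ofNat 2), (371, .ofNat 2)]) te)) (tn (tn (tl [(294, .ofNat 1), (296, .ofNat 2), (297, .ofNat 1), (298, .ofNat 2), (300, .ofNat 2), (301, .ofNat 1), (303, .ofNat 1), (304, .ofNat 2), (305, .ofNat 2), (306, .ofNat 2), (310, .ofNat 1), (311, .ofNat 2)]) te) (tn (tl [(403, .ofNat 1), (405, .ofNat 2), (406, .ofNat 2), (407, .ofNat 1)]) te))))) (tn (tn (tn (tn (tn (tl [(49, .ofNat 1)]) (tl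 [(409, .ofNat 1), (410, .ofNat 1), (412, .ofNat 1)])) (tn (tl [(312, .ofNat 1), (314, .ofNat 1), (317, .ofNat 2), (318, .ofNat 2), (319, .ofNat 1), (321, .ofNat 1), (322, .ofNat 1), (323, .ofNat 1), (325, .ofNat 2)]) (tl [(430, .ofNat 1)]))) te) (tn (tn (tn (tl [(169, .ofNat 1)]) (tl [(419, .ofNat 1), (421, .ofNat 1)])) (tn (tl [(355, .ofNat 1)]) te)) (tn (tn (tl [(278, .ofNat 2), (279, .ofNat 1), (281, .ofNat 1), (283, .ofNat 2), (284, .ofNat 2), (285, .ofNat 1), (286, .ofNat 1), (287, .ofNat 1), (288, .ofNat 2), (289, .ofNat 1), (290, .ofNat 1)]) te) (tn (tl [(402, .ofNat 2), (403, .ofNat 2), (406, .ofNat 1), (407, .ofNat 2), (408, .ofNat 1)]) te)))) (tn (tn (tn (tn (tl [(114, .ofNat 1)]) (tl [(417, .ofNat 2)])) te) (tn (tn (tl [(238, .ofNat 1)]) te) (tn (tl [(387, .ofNat 2), (389, .ofNat 2), (390, .ofNat 2), (391, .ofNat 2)]) te))) (tn (tn (tn (tl [(202, .ofNat 1)]) (tl [(423, .ofNat 2), (425, .ofNat 2), (426, .ofNat 2)]))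 (tn (tl [(366, .ofNat 1)]) te)) (tn (tn (tl [(292, .ofNat 2), (293, .ofNat 1), (295, .ofNat 1), (296, .ofNat 2), (297, .ofNat 2), (298, .ofNat 1), (299, .ofNat 1), (300, .ofNat 2), (301, .ofNat 2), (307, .ofNat 2), (308, .ofNat 1), (310, .ofNat 1)]) te) (tn (tl [(402, .ofNat 1), (403, .ofNat 2), (405, .ofNat 2), (406, .ofNat 2), (407, .ofNat 2), (408, .ofNat 2)]) te)))))) (tn (tn (tn (tn (tn (tn (tl [(34, .ofNat 1)]) (tl [(411, .ofNat 1), (412, .ofNat 2)])) (tn (tl [(312, .ofNat 1), (313, .ofNat 2), (318, .ofNat 1), (319, .ofNat 2), (320, .ofNat 2), (321, .ofNat 2), (322, .ofNat 1), (323, .ofNat 2), (324, .ofNat 1), (325, .ofNat 2)]) (tl [(428, .ofNat 2), (429, .ofNat 1)]))) (tn (tn (tl [(221, .ofNat 2), (222, .ofNat 2), (223, .ofNat 1), (224, .ofNat 1), (225, .ofNat 1), (226, .ofNat 1)]) (tl [(424, .ofNat 1), (425, .ofNat 1), (426, .ofNat 1)])) (tn (tl [(375, .ofNat 1)]) te))) (tn (tn (tn (tl [(159, .ofNat 1)]) (tl [(422,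 .ofNat 2)])) (tn (tl [(345, .ofNat 1)]) te)) (tn (tn (tl [(278, .ofNat 2), (279, .ofNat 2), (281, .ofNat 1), (282, .ofNat 2), (283, .ofNat 1), (284, .ofNat 1), (285, .ofNat 1), (286, .ofNat 2), (287, .ofNat 1), (289, .ofNat 1), (290, .ofNat 1), (291, .ofNat 2)]) te) (tn (tl [(397, .ofNat 1), (398, .ofNat 1), (401, .ofNat 2)]) te)))) (tn (tn (tn (tn (tl [(101, .ofNat 1)]) (tl [(409, .ofNat 1), (411, .ofNat 1), (412, .ofNat 2)])) (tn (tl [(327, .ofNat 1)]) te)) (tn (tn (tl [(234, .ofNat 1)]) te) (tn (tl [(389, .ofNat 1), (390, .ofNat 2), (391, .ofNat 1)]) te))) (tn (tn (tn (tl [(191, .ofNat 1)]) (tl [(418, .ofNat 2), (420, .ofNat 2), (421, .ofNat 2), (422, .ofNat 2)])) (tn (tl [(364, .ofNat 2), (365, .ofNat 2), (367, .ofNat 2), (368, .ofNat 1), (371, .ofNat 1), (372, .ofNat 2), (373, .ofNat 2), (374, .ofNat 1)]) te)) (tn (tn (tl [(295, .ofNat 2), (297, .ofNat 2), (298, .ofNat 1), (299, .ofNat 2), (300, .ofNat 2), (301, .ofNat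 1), (302, .ofNat 1), (303, .ofNat 2), (305, .ofNat 2), (306, .ofNat 2), (308, .ofNat 1), (311, .ofNat 1)]) te) (tn (tl [(402, .ofNat 1), (403, .ofNat 1), (404, .ofNat 2), (407, .ofNat 2)]) te))))) (tn (tn (tn (tn (tn (tl [(59, .ofNat 1)]) (tl [(409, .ofNat 2), (410, .ofNat 1), (413, .ofNat 2)])) (tn (tl [(312, .ofNat 2), (315, .ofNat 1), (317, .ofNat 2), (321, .ofNat 2), (322, .ofNat 2), (323, .ofNat 2), (324, .ofNat 2)]) (tl [(433, .ofNat 1)]))) te) (tn (tn (tn (tl [(177, .ofNat 1)]) (tl [(419, .ofNat 1), (420, .ofNat 2), (421, .ofNat 1), (422, .ofNat 1)])) (tn (tl [(357, .ofNat 1)]) te)) (tn (tn (tl [(280, .ofNat 1), (281, .ofNat 2), (282, .ofNat 1), (283, .ofNat 1), (284, .ofNat 1), (285, .ofNat 2), (286, .ofNat 1), (287, .ofNat 2), (290, .ofNat 1)]) te) (tn (tl [(402, .ofNat 1), (403, .ofNat 2), (404, .ofNat 2), (405, .ofNat 2), (406, .ofNat 2), (407, .ofNat 1), (408, .ofNat 1)]) te)))) (tn (tn (tn (tn (tl [(133, .ofNat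 1)]) (tl [(415, .ofNat 1), (416, .ofNat 2), (417, .ofNat 2)])) (tn (tl [(338, .ofNat 1), (339, .ofNat 2), (340, .ofNat 2), (342, .ofNat 2), (344, .ofNat 1), (346, .ofNat 1), (349, .ofNat 1), (350, .ofNat 1), (353, .ofNat 2)]) te)) (tn (tn (tl [(260, .ofNat 2), (261, .ofNat 1), (262, .ofNat 1), (263, .ofNat 1), (265, .ofNat 2), (266, .ofNat 2), (267, .ofNat 1), (268, .ofNat 1), (269, .ofNat 2), (270, .ofNat 1), (272, .ofNat 1), (273, .ofNat 2), (274, .ofNat 1), (275, .ofNat 2)]) te) (tn (tl [(392, .ofNat 1), (394, .ofNat 1), (395, .ofNat 1), (396, .ofNat 1)]) te))) (tn (tn (tn (tl [(208, .ofNat 1)]) (tl [(423, .ofNat 1), (425, .ofNat 1)])) (tn (tl [(375, .ofNat 2), (378, .ofNat 2), (380, .ofNat 1), (381, .ofNat 1), (382, .ofNat 2), (383, .ofNat 1), (384, .ofNat 2), (385, .ofNat 1)]) te)) (tn (tn (tl [(293, .ofNat 2), (294, .ofNat 1), (296, .ofNat 2), (297, .ofNat 2), (299, .ofNat 1), (301, .ofNat 1), (302, .ofNat 1), (306, .ofNat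 1), (307, .ofNat 2), (308, .ofNat 2)]) te) (tn (tl [(402, .ofNat 2), (403, .ofNat 2), (404, .ofNat 2), (405, .ofNat 2), (406, .ofNat 2), (407, .ofNat 2), (408, .ofNat 1)]) te))))))) (tn (tn (tn (tn (tn (tn (tn (tl [(16, .ofNat 1)]) (tl [(409, .ofNat 1), (410, .ofNat 1), (411, .ofNat 1), (412, .ofNat 2)])) (tn (tl [(313, .ofNat 1), (314, .ofNat 2), (317, .ofNat 1), (320, .ofNat 1), (321, .ofNat 1), (322, .ofNat 2), (323, .ofNat 1)]) (tl [(429, .ofNat 1)]))) (tn (tn (tl [(213, .ofNat 1), (215, .ofNat 2), (216, .ofNat 2), (217, .ofNat 1), (218, .ofNat 2), (219, .ofNat 2)]) (tl [(423, .ofNat 1), (425, .ofNat 2), (426, .ofNat 1)])) (tn (tl [(375, .ofNat 1), (377, .ofNat 2), (378, .ofNat 1), (380, .ofNat 2), (381, .ofNat 1), (383, .ofNat 1), (384, .ofNat 2), (385, .ofNat 1)]) te))) (tn (tn (tn (tl [(157, .ofNat 1)]) (tl [(415, .ofNat 1), (416, .ofNat 2), (417, .ofNat 1)])) (tn (tl [(343, .ofNat 1)]) te)) (tn (tn (tl [(259, .ofNat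 1)]) te) (tn (tl [(397, .ofNat 1), (398, .ofNat 1), (401, .ofNat 2)]) te)))) (tn (tn (tn (tn (tl [(90, .ofNat 1)]) (tl [(411, .ofNat 1), (413, .ofNat 1)])) (tn (tl [(316, .ofNat 1), (318, .ofNat 2), (320, .ofNat 2), (321, .ofNat 2), (322, .ofNat 2), (323, .ofNat 1), (325, .ofNat 1)]) te)) (tn (tn (tl [(235, .ofNat 1), (236, .ofNat 1), (237, .ofNat 2), (239, .ofNat 2), (241, .ofNat 2), (243, .ofNat 1), (244, .ofNat 1), (245, .ofNat 2), (246, .ofNat 2), (247, .ofNat 2), (248, .ofNat 1), (249, .ofNat 2), (250, .ofNat 2), (251, .ofNat 1), (252, .ofNat 2), (253, .ofNat 1), (254, .ofNat 1), (255, .ofNat 2), (257, .ofNat 2)]) te) te)) (tn (tn (tn (tl [(189, .ofNat 1)]) (tl [(418, .ofNat 1), (420, .ofNat 1)])) (tn (tl [(364, .ofNat 1), (365, .ofNat 1), (366, .ofNat 2), (367, .ofNat 1), (368, .ofNat 2), (369, .ofNat 1), (371, .ofNat 2), (372, .ofNat 1), (373, .ofNat 2), (374, .ofNat 1)]) te)) (tn (tn (tl [(292, .ofNat 2), (294, .ofNat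 2), (296, .ofNat 1), (298, .ofNat 1), (299, .ofNat 1), (300, .ofNat 2), (302, .ofNat 1), (304, .ofNat 1), (305, .ofNat 1), (306, .ofNat 2), (307, .ofNat 1), (309, .ofNat 1), (310, .ofNat 1)]) te) (tn (tl [(404, .ofNat 2), (405, .ofNat 1), (406, .ofNat 1), (407, .ofNat 1), (408, .ofNat 1)]) te))))) (tn (tn (tn (tn (tn (tl [(56, .ofNat 1)]) (tl [(411, .ofNat 1), (412, .ofNat 1), (413, .ofNat 1)])) (tn (tl [(313, .ofNat 1), (316, .ofNat 2), (318, .ofNat 2), (319, .ofNat 1), (321, .ofNat 1), (323, .ofNat 2)]) (tl [(430, .ofNat 1), (431, .ofNat 2)]))) (tn (tn (tl [(227, .ofNat 2), (228, .ofNat 2), (229, .ofNat 1), (231, .ofNat 1), (232, .ofNat 1)]) te) te)) (tn (tn (tn (tl [(175, .ofNat 1)]) (tl [(418, .ofNat 2), (420, .ofNat 1), (422, .ofNat 1)])) (tn (tl [(356, .ofNat 1)]) te)) (tn (tn (tl [(278, .ofNat 1), (280, .ofNat 2), (281, .ofNat 1), (285, .ofNat 2), (286, .ofNat 1), (289, .ofNat 1)]) te) (tn (tl [(403, .ofNat 2), (404,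 .ofNat 2), (405, .ofNat 1), (408, .ofNat 2)]) te)))) (tn (tn (tn (tn (tl [(131, .ofNat 1)]) (tl [(415, .ofNat 1), (417, .ofNat 1)])) (tn (tl [(332, .ofNat 1)]) te)) (tn (tn (tl [(258, .ofNat 1), (259, .ofNat 1), (260, .ofNat 2), (261, .ofNat 1), (263, .ofNat 1), (264, .ofNat 1), (265, .ofNat 1), (267, .ofNat 2), (269, .ofNat 2), (270, .ofNat 2), (271, .ofNat 1), (274, .ofNat 2), (275, .ofNat 1), (276, .ofNat 1), (277, .ofNat 2)]) te) (tn (tl [(387, .ofNat 2), (389, .ofNat 2), (390, .ofNat 2), (391, .ofNat 2)]) te))) (tn (tn (tn (tl [(205, .ofNat 1)]) (tl [(423, .ofNat 2), (424, .ofNat 1)])) (tn (tl [(376, .ofNat 2), (378, .ofNat 1), (379, .ofNat 1), (380, .ofNat 1), (381, .ofNat 1), (382, .ofNat 2), (383, .ofNat 2), (384, .ofNat 2)]) te)) (tn (tn (tl [(292, .ofNat 1), (293, .ofNat 1), (294, .ofNat 2), (296, .ofNat 2), (297, .ofNat 1), (298, .ofNat 1), (299, .ofNat 2), (300, .ofNat 2), (301, .ofNat 2), (302, .ofNat 2), (303,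 .ofNat 1), (305, .ofNat 2), (306, .ofNat 1), (307, .ofNat 2), (308, .ofNat 1), (310, .ofNat 2), (311, .ofNat 1)]) te) (tn (tl [(404, .ofNat 2), (406, .ofNat 1)]) te)))))) (tn (tn (tn (tn (tn (tn (tl [(43, .ofNat 1)]) (tl [(409, .ofNat 1), (410, .ofNat 2), (411, .ofNat 1), (412, .ofNat 1), (413, .ofNat 2)])) (tn (tl [(312, .ofNat 1), (315, .ofNat 1), (318, .ofNat 2), (319, .ofNat 1), (320, .ofNat 2), (321, .ofNat 2)]) te)) (tn (tn (tl [(222, .ofNat 1), (223, .ofNat 2), (224, .ofNat 1)]) te) (tn (tl [(377, .ofNat 1)]) te))) (tn (tn (tn (tl [(167, .ofNat 1)]) (tl [(418, .ofNat 1), (419, .ofNat 2), (421, .ofNat 2), (422, .ofNat 1)])) (tn (tl [(355, .ofNat 1), (356, .ofNat 1), (357, .ofNat 2), (359, .ofNat 2), (362, .ofNat 1), (363, .ofNat 2)]) te)) (tn (tn (tl [(278, .ofNat 2), (279, .ofNat 1), (280, .ofNat 1), (282, .ofNat 2), (284, .ofNat 1), (286, .ofNat 1), (288, .ofNat 1), (289, .ofNat 2), (290, .ofNat 2), (291, .ofNat 2)])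 te) (tn (tl [(397, .ofNat 1), (398, .ofNat 1), (401, .ofNat 2)]) te)))) (tn (tn (tn (tn (tl [(112, .ofNat 1)]) (tl [(414, .ofNat 1), (415, .ofNat 2), (416, .ofNat 1), (417, .ofNat 2)])) (tn (tl [(329, .ofNat 1)]) te)) (tn (tn (tl [(236, .ofNat 1)]) te) (tn (tl [(387, .ofNat 1), (389, .ofNat 1), (390, .ofNat 1), (391, .ofNat 1)]) te))) (tn (tn (tn (tl [(200, .ofNat 1)]) (tl [(419, .ofNat 2), (420, .ofNat 2), (421, .ofNat 2)])) (tn (tl [(364, .ofNat 1)]) te)) (tn (tn (tl [(292, .ofNat 2), (293, .ofNat 2), (294, .ofNat 1), (295, .ofNat 2), (296, .ofNat 2), (297, .ofNat 2), (298, .ofNat 2), (300, .ofNat 2), (301, .ofNat 2), (303, .ofNat 1), (305, .ofNat 1), (306, .ofNat 1), (308, .ofNat 2), (309, .ofNat 1), (310, .ofNat 1)]) te) (tn (tl [(402, .ofNat 1), (403, .ofNat 2), (405, .ofNat 1), (407, .ofNat 1), (408, .ofNat 2)]) te))))) (tn (tn (tn (tn (tn (tl [(62, .ofNat 1)]) (tl [(410, .ofNat 1), (411, .ofNat 2), (412, .ofNat 2), (413,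 .ofNat 1)])) (tn (tl [(312, .ofNat 2), (313, .ofNat 1), (315, .ofNat 2), (316, .ofNat 2), (317, .ofNat 2), (318, .ofNat 2), (319, .ofNat 1), (321, .ofNat 2), (322, .ofNat 1), (323, .ofNat 1)]) (tl [(432, .ofNat 1), (433, .ofNat 2)]))) (tn (tn (tl [(234, .ofNat 1), (235, .ofNat 1), (237, .ofNat 1), (238, .ofNat 2), (239, .ofNat 2), (241, .ofNat 2), (242, .ofNat 1), (243, .ofNat 1), (245, .ofNat 2), (246, .ofNat 2), (247, .ofNat 1), (248, .ofNat 2), (250, .ofNat 2), (251, .ofNat 1), (252, .ofNat 2), (253, .ofNat 1), (257, .ofNat 2)]) te) te)) (tn (tn (tn (tl [(179, .ofNat 1)]) (tl [(420, .ofNat 2)])) (tn (tl [(364, .ofNat 2), (365, .ofNat 2), (371, .ofNat 1), (372, .ofNat 1)]) te)) (tn (tn (tl [(278, .ofNat 1), (279, .ofNat 2), (282, .ofNat 1), (283, .ofNat 2), (284, .ofNat 2), (285, .ofNat 2), (286, .ofNat 2), (287, .ofNat 1), (290, .ofNat 2)]) te) (tn (tl [(402, .ofNat 2), (403, .ofNat 1), (404, .ofNat 2), (406, .ofNat 2),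 (407, .ofNat 2)]) te)))) (tn (tn (tn (tn (tl [(149, .ofNat 1)]) (tl [(415, .ofNat 1)])) (tn (tl [(339, .ofNat 1)]) te)) (tn (tn (tl [(258, .ofNat 2), (259, .ofNat 2), (260, .ofNat 2), (261, .ofNat 2), (262, .ofNat 2), (264, .ofNat 1), (265, .ofNat 2), (267, .ofNat 1), (268, .ofNat 1), (271, .ofNat 1), (272, .ofNat 2), (274, .ofNat 2), (275, .ofNat 2), (276, .ofNat 2)]) te) (tn (tl [(392, .ofNat 2), (393, .ofNat 2), (394, .ofNat 1)]) te))) (tn (tn (tn (tl [(210, .ofNat 1)]) (tl [(424, .ofNat 2), (425, .ofNat 2)])) (tn (tl [(377, .ofNat 2), (378, .ofNat 2), (380, .ofNat 2), (382, .ofNat 1), (383, .ofNat 1), (384, .ofNat 1), (385, .ofNat 2)]) te)) (tn (tn (tl [(292, .ofNat 1), (294, .ofNat 1), (295, .ofNat 1), (297, .ofNat 1), (301, .ofNat 1), (303, .ofNat 2), (304, .ofNat 1), (307, .ofNat 1), (309, .ofNat 1), (310, .ofNat 1), (311, .ofNat 1)]) te) (tn (tl [(402, .ofNat 2), (403, .ofNat 2), (404, .ofNat 2)]) te)))))))))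

def r4 : Tr SV := (tn (tn (tn (tn (tn (tn (tn (tn te (tn te (tl [(430, .ofNat 2), (431, .ofNat 2)]))) (tn (tn (tl [(328, .ofNat 2), (329, .ofNat 1), (332, .ofNat 1), (334, .ofNat 2), (336, .ofNat 1), (337, .ofNat 1)]) te) (tn (tl [(392, .ofNat 1), (393, .ofNat 2), (396, .ofNat 2)]) te))) te) (tn (tn (tn (tn (tl [(150, .ofNat 2), (151, .ofNat 1), (153, .ofNat 2), (154, .ofNat 1), (155, .ofNat 1)]) te) (tn (tl [(386, .ofNat 1)]) te)) (tn te (tn (tl [(415, .ofNat 2), (416, .ofNat 1), (417, .ofNat 1)]) te))) (tn (tn (tn (tl [(220, .ofNat 1), (221, .ofNat 1), (222, .ofNat 2), (223, .ofNat 2), (224, .ofNat 1), (225, .ofNat 2)]) te) te) te))) (tn (tn (tn (tn (tn (tl [(69, .ofNat 2), (70, .ofNat 1)]) te) (tn (tl [(386, .ofNat 2)]) te)) te) (tn (tn (tn (tl [(213, .ofNat 1), (215, .ofNat 1), (218, .ofNat 2)]) te) (tn (tl [(387, .ofNat 1), (388, .ofNat 1)]) (tl [(434, .ofNat 2)]))) (tn (tn te (tl [(429, .ofNat 1)])) te))) (tn te (tn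 (tn (tn te (tl [(427, .ofNat 1)])) te) (tn (tn te (tl [(431, .ofNat 1)])) te))))) (tn (tn (tn (tn (tn te (tn (tl [(386, .ofNat 1)]) te)) (tn (tn te (tl [(427, .ofNat 2)])) (tn (tl [(392, .ofNat 2), (393, .ofNat 2), (394, .ofNat 1), (395, .ofNat 1)]) te))) (tn te (tn (tn te (tl [(429, .ofNat 1)])) te))) (tn te (tn (tn (tn (tl [(220, .ofNat 2), (221, .ofNat 2), (222, .ofNat 2), (223, .ofNat 2), (224, .ofNat 2), (225, .ofNat 2), (226, .ofNat 1)]) te) te) te))) (tn (tn (tn (tn (tn (tl [(79, .ofNat 1), (82, .ofNat 1), (83, .ofNat 1), (84, .ofNat 2), (85, .ofNat 2)]) te) (tn (tl [(386, .ofNat 1)]) te)) (tn te (tn (tl [(404, .ofNat 2), (405, .ofNat 1), (406, .ofNat 1), (408, .ofNat 1)]) te))) (tn (tn te (tn (tl [(388, .ofNat 2), (391, .ofNat 1)]) te)) te)) (tn (tn (tn (tn (tl [(212, .ofNat 2)]) te) te) te) (tn (tn (tn (tl [(235, .ofNat 1), (236, .ofNat 2), (239, .ofNat 2), (241, .ofNat 1), (242, .ofNat 2), (243, .ofNat 2), (244, .ofNat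 2), (245, .ofNat 2), (246, .ofNat 2), (249, .ofNat 1), (250, .ofNat 2), (251, .ofNat 1), (252, .ofNat 2), (253, .ofNat 1), (254, .ofNat 2), (255, .ofNat 1), (257, .ofNat 1)]) (tl [(427, .ofNat 2)])) (tn (tl [(392, .ofNat 2), (394, .ofNat 1), (396, .ofNat 2)]) te)) (tn (tn te (tl [(430, .ofNat 1), (431, .ofNat 1)])) te)))))) (tn (tn (tn (tn (tn (tn (tn (tl [(21, .ofNat 2)]) te) (tn (tl [(386, .ofNat 1)]) te)) (tn (tn te (tl [(427, .ofNat 1)])) (tn (tl [(393, .ofNat 1), (394, .ofNat 2), (396, .ofNat 1)]) te))) te) (tn (tn (tn te (tn (tl [(386, .ofNat 2)]) te)) (tn te (tn (tl [(414, .ofNat 2), (415, .ofNat 1), (417, .ofNat 1)]) te))) (tn (tn (tn (tl [(220, .ofNat 1), (221, .ofNat 2), (222, .ofNat 1), (223, .ofNat 2), (224, .ofNat 2), (226, .ofNat 1)]) te) te) te))) (tn (tn (tn (tn te (tn (tl [(386, .ofNat 2)]) te)) te) (tn (tn (tn (tl [(213, .ofNat 1), (214, .ofNat 1), (216, .ofNat 2), (217, .ofNat 1), (218, .ofNat 2)]) te) (tn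 (tl [(388, .ofNat 2), (389, .ofNat 2), (391, .ofNat 1)]) (tl [(434, .ofNat 2)]))) (tn (tn te (tl [(428, .ofNat 1)])) te))) (tn te (tn (tn (tn (tl [(234, .ofNat 1), (235, .ofNat 1), (237, .ofNat 1), (238, .ofNat 2), (239, .ofNat 2), (241, .ofNat 2), (242, .ofNat 1), (243, .ofNat 1), (244, .ofNat 1), (245, .ofNat 2), (248, .ofNat 2), (249, .ofNat 2), (250, .ofNat 2), (251, .ofNat 1), (252, .ofNat 2), (253, .ofNat 1), (257, .ofNat 2)]) (tl [(427, .ofNat 2)])) (tn (tl [(392, .ofNat 2), (393, .ofNat 1), (395, .ofNat 1)]) te)) (tn (tn te (tl [(430, .ofNat 1)])) te))))) (tn (tn (tn (tn (tn (tn (tl [(65, .ofNat 2), (66, .ofNat 1)]) te) (tn (tl [(386, .ofNat 1)]) te)) (tn te (tn (tl [(392, .ofNat 2), (393, .ofNat 2), (394, .ofNat 1), (395, .ofNat 1)]) te))) te) (tn te (tn (tn (tn (tl [(220, .ofNat 2), (221, .ofNat 2), (222, .ofNat 2), (224, .ofNat 1)]) te) te) te))) (tn (tn (tn (tn (tn (tl [(101, .ofNat 1), (104, .ofNat 1), (105, .ofNat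 1), (106, .ofNat 2), (107, .ofNat 2)]) te) te) (tn te (tn (tl [(402, .ofNat 2), (403, .ofNat 2), (404, .ofNat 1), (405, .ofNat 1), (406, .ofNat 1), (408, .ofNat 1)]) te))) (tn (tn te (tn (tl [(387, .ofNat 1), (389, .ofNat 2), (390, .ofNat 2), (391, .ofNat 1)]) te)) te)) (tn te (tn (tn (tn (tl [(278, .ofNat 1), (280, .ofNat 1), (281, .ofNat 2), (282, .ofNat 1), (284, .ofNat 2), (285, .ofNat 2), (288, .ofNat 2), (290, .ofNat 2), (291, .ofNat 2)]) (tl [(427, .ofNat 2)])) (tn (tl [(392, .ofNat 2), (395, .ofNat 1), (396, .ofNat 2)]) te)) (tn (tn te (tl [(430, .ofNat 2)])) te))))))) (tn (tn (tn (tn (tn (tn (tn (tn (tl [(17, .ofNat 2)]) te) (tn te (tl [(430, .ofNat 2)]))) (tn (tn te (tl [(427, .ofNat 2)])) (tn (tl [(392, .ofNat 1), (394, .ofNat 2), (395, .ofNat 2), (396, .ofNat 2)]) te))) te) (tn (tn te (tn te (tn (tl [(414, .ofNat 2), (417, .ofNat 1)]) te))) (tn (tn (tn (tl [(220, .ofNat 2), (221, .ofNat 1), (222, .ofNat 2), (223,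 .ofNat 1), (224, .ofNat 2), (225, .ofNat 2), (226, .ofNat 1)]) te) te) te))) (tn (tn (tn (tn (tn (tl [(68, .ofNat 2), (70, .ofNat 1)]) te) te) te) (tn (tn (tn (tl [(213, .ofNat 2), (214, .ofNat 2), (215, .ofNat 2), (216, .ofNat 2), (217, .ofNat 1), (219, .ofNat 2)]) te) (tn (tl [(387, .ofNat 2), (389, .ofNat 1), (390, .ofNat 2), (391, .ofNat 2)]) (tl [(434, .ofNat 2)]))) (tn (tn te (tl [(428, .ofNat 1), (429, .ofNat 2)])) te))) te)) (tn (tn (tn (tn (tn te (tn (tl [(386, .ofNat 2)]) te)) (tn (tn te (tl [(427, .ofNat 2)])) (tn (tl [(392, .ofNat 2), (393, .ofNat 2), (394, .ofNat 2), (395, .ofNat 1), (396, .ofNat 1)]) te))) (tn te (tn (tn te (tl [(429, .ofNat 1)])) te))) (tn te (tn (tn (tn (tl [(220, .ofNat 2), (221, .ofNat 1), (222, .ofNat 1), (223, .ofNat 1), (225, .ofNat 1), (226, .ofNat 2)]) te) te) te))) (tn (tn (tn (tn (tn (tl [(79, .ofNat 2), (83, .ofNat 2), (85, .ofNat 1), (89, .ofNat 2)]) te) (tn (tl [(386, .ofNat 2)])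 te)) (tn te (tn (tl [(402, .ofNat 1), (404, .ofNat 1), (405, .ofNat 2), (407, .ofNat 2), (408, .ofNat 1)]) te))) (tn (tn te (tn (tl [(387, .ofNat 2), (388, .ofNat 1), (389, .ofNat 1)]) te)) te)) (tn (tn (tn (tn (tl [(212, .ofNat 1)]) te) te) te) (tn (tn (tn (tl [(279, .ofNat 2), (280, .ofNat 1), (282, .ofNat 2), (284, .ofNat 1), (285, .ofNat 1), (286, .ofNat 2), (287, .ofNat 1), (289, .ofNat 1), (290, .ofNat 1), (291, .ofNat 2)]) (tl [(427, .ofNat 1)])) (tn (tl [(392, .ofNat 2), (393, .ofNat 2), (396, .ofNat 2)]) te)) (tn (tn te (tl [(430, .ofNat 1), (431, .ofNat 1)])) te)))))) (tn (tn (tn (tn (tn (tn (tn (tl [(33, .ofNat 1)]) te) (tn (tl [(386, .ofNat 2)]) te)) (tn (tn te (tl [(427, .ofNat 1)])) (tn (tl [(392, .ofNat 1), (393, .ofNat 2), (394, .ofNat 2), (395, .ofNat 1), (396, .ofNat 1)]) te))) (tn te (tn (tn te (tl [(428, .ofNat 1)])) te))) (tn (tn (tn te (tn (tl [(386, .ofNat 2)]) te)) (tn te (tn (tl [(415, .ofNat 1), (417,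 .ofNat 2)]) te))) (tn (tn (tn (tl [(220, .ofNat 2), (222, .ofNat 1), (223, .ofNat 1), (225, .ofNat 2), (226, .ofNat 1)]) te) te) te))) (tn (tn te (tn (tn te (tn (tl [(387, .ofNat 1), (388, .ofNat 1), (389, .ofNat 1), (390, .ofNat 1), (391, .ofNat 1)]) te)) (tn (tn te (tl [(428, .ofNat 1), (429, .ofNat 1)])) te))) (tn (tn (tn (tn (tl [(212, .ofNat 2)]) te) te) te) (tn (tn (tn (tl [(234, .ofNat 2), (235, .ofNat 1), (236, .ofNat 1), (237, .ofNat 2), (239, .ofNat 2), (241, .ofNat 2), (243, .ofNat 2), (244, .ofNat 1), (246, .ofNat 1), (247, .ofNat 2), (250, .ofNat 2), (251, .ofNat 1), (252, .ofNat 1), (253, .ofNat 2), (254, .ofNat 1), (255, .ofNat 2), (257, .ofNat 1)]) (tl [(427, .ofNat 2)])) (tn (tl [(393, .ofNat 2), (395, .ofNat 1)]) te)) (tn (tn te (tl [(430, .ofNat 1), (431, .ofNat 2)])) te))))) (tn (tn (tn (tn (tn te (tn (tl [(386, .ofNat 2)]) te)) (tn te (tn (tl [(394, .ofNat 2), (396, .ofNat 2)]) te))) (tn (tn (tn (tl [(213,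 .ofNat 1), (214, .ofNat 2), (216, .ofNat 1), (218, .ofNat 1)]) te) (tn (tl [(387, .ofNat 1), (388, .ofNat 2), (389, .ofNat 2), (390, .ofNat 2)]) (tl [(434, .ofNat 2)]))) (tn (tn te (tl [(428, .ofNat 2), (429, .ofNat 1)])) te))) (tn te (tn te (tn (tn te (tl [(431, .ofNat 1)])) te)))) (tn (tn (tn (tn (tn (tl [(101, .ofNat 2), (105, .ofNat 2), (107, .ofNat 1), (111, .ofNat 2)]) te) te) (tn te (tn (tl [(402, .ofNat 2), (403, .ofNat 2), (404, .ofNat 1), (406, .ofNat 2), (407, .ofNat 1), (408, .ofNat 2)]) te))) te) (tn te (tn (tn (tn (tl [(278, .ofNat 2), (279, .ofNat 2), (280, .ofNat 2), (282, .ofNat 2), (283, .ofNat 1), (284, .ofNat 1), (286, .ofNat 1), (288, .ofNat 2), (290, .ofNat 1)]) te) (tn (tl [(392, .ofNat 2), (393, .ofNat 2)]) te)) (tn (tn te (tl [(430, .ofNat 2), (431, .ofNat 2)])) te))))))))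

def r5 : Tr SV := (tn (tn (tn (tn (tn (tn (tn (tn (tn (tl [(17, .ofNat 2), (18, .ofNat 1)]) te) (tn (tl [(386, .ofNat 1)]) (tl [(433, .ofNat 2)]))) (tn (tn (tl [(350, .ofNat 2), (354, .ofNat 1)]) te) (tn (tl [(397, .ofNat 1), (400, .ofNat 2), (401, .ofNat 2)]) te))) (tn (tn te (tn (tl [(387, .ofNat 2), (388, .ofNat 2), (389, .ofNat 1), (390, .ofNat 2), (391, .ofNat 2)]) te)) (tn (tn te (tl [(429, .ofNat 2)])) te))) (tn (tn (tn (tn (tl [(163, .ofNat 2), (166, .ofNat 1)]) te) te) (tn te (tn (tl [(418, .ofNat 1), (420, .ofNat 1), (421, .ofNat 2)]) te))) (tn (tn (tn (tl [(232, .ofNat 1)]) (tl [(427, .ofNat 1)])) (tn (tl [(392, .ofNat 1), (393, .ofNat 1), (394, .ofNat 2), (395, .ofNat 1), (396, .ofNat 1)]) te)) (tn (tn te (tl [(430, .ofNat 1), (431, .ofNat 1)])) te)))) (tn (tn (tn (tn (tn (tl [(75, .ofNat 1), (76, .ofNat 2), (77, .ofNat 1)]) te) te) (tn te (tn (tl [(403, .ofNat 1), (404, .ofNat 1), (405, .ofNat 2), (407, .ofNat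 1), (408, .ofNat 2)]) te))) (tn (tn (tn te (tl [(427, .ofNat 1)])) te) te)) (tn (tn te (tn (tn te (tl [(429, .ofNat 1)])) te)) (tn (tn (tn (tl [(248, .ofNat 2), (255, .ofNat 1)]) te) (tn (tl [(393, .ofNat 2), (394, .ofNat 2), (395, .ofNat 2)]) te)) (tn (tn (tl [(386, .ofNat 1)]) (tl [(432, .ofNat 2), (433, .ofNat 1)])) te))))) (tn (tn (tn (tn te (tn te (tn (tl [(397, .ofNat 2), (399, .ofNat 2), (400, .ofNat 1)]) te))) (tn (tn (tn (tl [(216, .ofNat 2), (217, .ofNat 2), (219, .ofNat 2)]) (tl [(427, .ofNat 1)])) (tn (tl [(388, .ofNat 2), (389, .ofNat 1), (390, .ofNat 2), (391, .ofNat 1)]) (tl [(434, .ofNat 2)]))) te)) (tn (tn te (tn (tn te (tl [(428, .ofNat 2), (429, .ofNat 2)])) te)) (tn (tn (tn (tl [(227, .ofNat 1), (229, .ofNat 1), (230, .ofNat 2), (231, .ofNat 2), (232, .ofNat 1)]) (tl [(427, .ofNat 1)])) (tn (tl [(392, .ofNat 2), (393, .ofNat 2), (394, .ofNat 1), (395, .ofNat 2), (396, .ofNat 1)]) te)) (tn (tn (tl [(386,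 .ofNat 2)]) (tl [(430, .ofNat 2)])) te)))) (tn (tn (tn (tn (tn (tl [(93, .ofNat 2), (97, .ofNat 1)]) te) te) (tn te (tn (tl [(409, .ofNat 2), (411, .ofNat 1), (412, .ofNat 1), (413, .ofNat 2)]) te))) (tn (tn (tn (tl [(220, .ofNat 2), (221, .ofNat 2), (222, .ofNat 2), (223, .ofNat 2), (224, .ofNat 2), (225, .ofNat 1), (226, .ofNat 1)]) te) te) (tn (tn te (tl [(430, .ofNat 1), (431, .ofNat 1)])) te))) (tn (tn (tn te (tn (tl [(389, .ofNat 1), (390, .ofNat 2), (391, .ofNat 2)]) te)) (tn (tn te (tl [(429, .ofNat 1)])) te)) (tn (tn (tn (tl [(265, .ofNat 2), (274, .ofNat 1)]) te) (tn (tl [(397, .ofNat 1), (401, .ofNat 1)]) te)) (tn (tn (tl [(386, .ofNat 1)]) (tl [(432, .ofNat 2), (433, .ofNat 2)])) te)))))) (tn (tn (tn (tn (tn (tn (tn (tl [(23, .ofNat 2)]) te) te) (tn te (tn (tl [(397, .ofNat 2), (399, .ofNat 1), (400, .ofNat 2), (401, .ofNat 1)]) te))) (tn (tn (tn (tl [(217, .ofNat 1), (218, .ofNat 1), (219, .ofNat 1)]) te) (tn (tl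 [(387, .ofNat 2), (388, .ofNat 2), (389, .ofNat 1), (390, .ofNat 2), (391, .ofNat 2)]) (tl [(434, .ofNat 1)]))) (tn (tn te (tl [(429, .ofNat 2)])) te))) (tn (tn te (tn (tn te (tl [(428, .ofNat 1), (429, .ofNat 1)])) (tn (tl [(420, .ofNat 1), (421, .ofNat 2), (422, .ofNat 2)]) te))) (tn (tn (tn (tl [(229, .ofNat 1), (230, .ofNat 1), (231, .ofNat 2), (232, .ofNat 2)]) (tl [(427, .ofNat 2)])) (tn (tl [(392, .ofNat 2), (393, .ofNat 2), (394, .ofNat 2)]) te)) (tn (tn (tl [(386, .ofNat 1)]) (tl [(431, .ofNat 1)])) te)))) (tn (tn (tn (tn (tn (tl [(84, .ofNat 2), (87, .ofNat 1)]) te) te) (tn te (tn (tl [(402, .ofNat 1), (403, .ofNat 1), (404, .ofNat 1), (405, .ofNat 2), (407, .ofNat 1)]) te))) (tn (tn (tn te (tl [(427, .ofNat 2)])) te) te)) (tn (tn te (tn (tn te (tl [(428, .ofNat 2)])) te)) (tn (tn (tn (tl [(263, .ofNat 2), (272, .ofNat 1)]) te) (tn (tl [(398, .ofNat 1), (400, .ofNat 1), (401, .ofNat 2)]) te)) (tn (tn (tl [(386, .ofNat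 2)]) (tl [(432, .ofNat 1), (433, .ofNat 1)])) te))))) (tn (tn (tn (tn te (tn te (tn (tl [(397, .ofNat 1), (398, .ofNat 1), (399, .ofNat 2), (400, .ofNat 1), (401, .ofNat 2)]) te))) (tn (tn (tn (tl [(213, .ofNat 1), (214, .ofNat 2), (215, .ofNat 2), (216, .ofNat 1), (218, .ofNat 1), (219, .ofNat 2)]) te) (tn (tl [(387, .ofNat 2), (388, .ofNat 2), (389, .ofNat 2), (390, .ofNat 1), (391, .ofNat 1)]) (tl [(434, .ofNat 2)]))) te)) (tn (tn te (tn (tn te (tl [(429, .ofNat 1)])) te)) (tn (tn (tn (tl [(228, .ofNat 2), (229, .ofNat 1)]) (tl [(427, .ofNat 1)])) (tn (tl [(393, .ofNat 1), (394, .ofNat 2), (395, .ofNat 1), (396, .ofNat 2)]) te)) (tn (tn (tl [(386, .ofNat 2)]) te) te)))) (tn (tn (tn (tn (tn (tl [(117, .ofNat 2), (122, .ofNat 1)]) te) te) (tn te (tn (tl [(409, .ofNat 2), (412, .ofNat 1)]) te))) (tn (tn (tn (tl [(220, .ofNat 1), (221, .ofNat 1), (223, .ofNat 1), (224, .ofNat 1), (226, .ofNat 2)]) (tl [(427, .ofNat 2)])) te)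 (tn (tn te (tl [(430, .ofNat 2)])) te))) (tn (tn (tn te (tn (tl [(387, .ofNat 2), (388, .ofNat 1), (389, .ofNat 2), (390, .ofNat 1), (391, .ofNat 1)]) te)) (tn (tn te (tl [(428, .ofNat 2), (429, .ofNat 2)])) te)) (tn (tn (tn (tl [(292, .ofNat 2), (293, .ofNat 1), (294, .ofNat 2), (296, .ofNat 2), (297, .ofNat 1), (302, .ofNat 1), (303, .ofNat 2), (304, .ofNat 1), (306, .ofNat 1), (307, .ofNat 1), (308, .ofNat 2), (309, .ofNat 1), (310, .ofNat 2), (311, .ofNat 1)]) te) (tn (tl [(397, .ofNat 1), (398, .ofNat 2), (399, .ofNat 2), (400, .ofNat 2), (401, .ofNat 1)]) te)) (tn (tn (tl [(386, .ofNat 1)]) (tl [(433, .ofNat 1)])) te))))))) (tn (tn (tn (tn (tn (tn (tn (tn (tl [(19, .ofNat 2)]) te) (tn (tl [(386, .ofNat 2)]) (tl [(433, .ofNat 2)]))) (tn te (tn (tl [(397, .ofNat 2), (399, .ofNat 2), (400, .ofNat 2), (401, .ofNat 2)]) te))) (tn (tn te (tn (tl [(389, .ofNat 2), (391, .ofNat 1)]) te)) (tn (tn te (tl [(428, .ofNat 1)])) te)))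 (tn (tn te (tn te (tn (tl [(419, .ofNat 2), (420, .ofNat 1), (422, .ofNat 2)]) te))) (tn (tn (tn (tl [(228, .ofNat 2), (229, .ofNat 2), (230, .ofNat 1), (231, .ofNat 2), (232, .ofNat 1)]) (tl [(427, .ofNat 1)])) (tn (tl [(392, .ofNat 2), (393, .ofNat 2), (394, .ofNat 1)]) te)) te))) (tn (tn (tn (tn (tn (tl [(73, .ofNat 2), (75, .ofNat 1)]) te) te) (tn te (tn (tl [(402, .ofNat 1), (403, .ofNat 2), (405, .ofNat 2), (406, .ofNat 1), (407, .ofNat 1), (408, .ofNat 2)]) te))) (tn (tn (tn te (tl [(427, .ofNat 1)])) te) te)) (tn (tn te (tn (tn te (tl [(429, .ofNat 2)])) te)) (tn (tn (tn (tl [(249, .ofNat 2), (256, .ofNat 1)]) te) (tn (tl [(392, .ofNat 1), (394, .ofNat 1), (395, .ofNat 2), (396, .ofNat 1)]) te)) (tn (tn (tl [(386, .ofNat 1)]) (tl [(432, .ofNat 1), (433, .ofNat 2)])) te))))) (tn (tn (tn (tn (tn (tn (tl [(65, .ofNat 2), (66, .ofNat 1)]) te) te) (tn te (tn (tl [(398, .ofNat 1), (401, .ofNat 2)]) te))) (tn (tn (tn (tl [(213,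 .ofNat 1), (214, .ofNat 1), (215, .ofNat 2), (216, .ofNat 1), (217, .ofNat 2), (218, .ofNat 1)]) (tl [(427, .ofNat 1)])) (tn (tl [(387, .ofNat 1), (388, .ofNat 1), (389, .ofNat 2), (390, .ofNat 2), (391, .ofNat 2)]) (tl [(434, .ofNat 2)]))) te)) (tn (tn te (tn (tn te (tl [(428, .ofNat 1), (429, .ofNat 2)])) te)) (tn (tn (tn (tl [(227, .ofNat 1), (228, .ofNat 1), (229, .ofNat 2), (231, .ofNat 2), (232, .ofNat 2)]) te) (tn (tl [(392, .ofNat 1), (394, .ofNat 1), (396, .ofNat 1)]) te)) (tn (tn te (tl [(430, .ofNat 2), (431, .ofNat 2)])) te)))) (tn (tn (tn (tn (tn (tl [(94, .ofNat 2), (98, .ofNat 1)]) te) te) (tn te (tn (tl [(411, .ofNat 2), (413, .ofNat 1)]) te))) (tn (tn (tn (tl [(221, .ofNat 1), (222, .ofNat 2), (223, .ofNat 1), (225, .ofNat 1), (226, .ofNat 2)]) (tl [(427, .ofNat 1)])) te) (tn (tn te (tl [(430, .ofNat 1), (431, .ofNat 1)])) te))) (tn (tn (tn te (tn (tl [(388, .ofNat 2), (389, .ofNat 2), (390, .ofNat 2)]) te))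 te) (tn (tn (tn (tl [(293, .ofNat 1), (294, .ofNat 2), (296, .ofNat 1), (298, .ofNat 1), (299, .ofNat 2), (300, .ofNat 2), (301, .ofNat 1), (302, .ofNat 1), (303, .ofNat 2), (304, .ofNat 1), (305, .ofNat 1), (306, .ofNat 2), (307, .ofNat 2), (308, .ofNat 1), (309, .ofNat 1), (310, .ofNat 2), (311, .ofNat 2)]) te) (tn (tl [(397, .ofNat 1), (398, .ofNat 2)]) te)) (tn (tn (tl [(386, .ofNat 2)]) te) te)))))) (tn (tn (tn (tn (tn (tn (tn (tl [(36, .ofNat 2), (38, .ofNat 1)]) te) te) (tn te (tn (tl [(399, .ofNat 2), (400, .ofNat 1)]) te))) (tn (tn (tn (tl [(213, .ofNat 1), (214, .ofNat 2), (216, .ofNat 1), (218, .ofNat 1), (219, .ofNat 2)]) te) (tn (tl [(388, .ofNat 1), (389, .ofNat 1), (391, .ofNat 2)]) (tl [(434, .ofNat 1)]))) te)) (tn (tn te (tn (tn te (tl [(429, .ofNat 1)])) (tn (tl [(420, .ofNat 2), (421, .ofNat 2), (422, .ofNat 2)]) te))) (tn (tn (tn (tl [(227, .ofNat 2), (229, .ofNat 1), (230, .ofNat 1), (231, .ofNat 2)]) (tl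 [(427, .ofNat 1)])) (tn (tl [(392, .ofNat 2), (393, .ofNat 1), (394, .ofNat 2), (395, .ofNat 2), (396, .ofNat 2)]) te)) (tn (tn (tl [(386, .ofNat 1)]) (tl [(430, .ofNat 2)])) te)))) (tn (tn (tn (tn (tn (tl [(85, .ofNat 2), (88, .ofNat 1)]) te) te) (tn te (tn (tl [(403, .ofNat 2), (404, .ofNat 2), (405, .ofNat 2), (406, .ofNat 2), (407, .ofNat 2), (408, .ofNat 1)]) te))) (tn (tn (tn (tl [(220, .ofNat 1), (221, .ofNat 2), (223, .ofNat 1), (224, .ofNat 2)]) (tl [(427, .ofNat 2)])) te) te)) (tn (tn te (tn (tn te (tl [(429, .ofNat 1)])) te)) (tn (tn (tn (tl [(264, .ofNat 2), (273, .ofNat 1)]) te) (tn (tl [(397, .ofNat 2), (399, .ofNat 2), (400, .ofNat 2), (401, .ofNat 2)]) te)) (tn (tn (tl [(386, .ofNat 2)]) te) te))))) (tn (tn (tn (tn (tn (tn (tl [(68, .ofNat 2), (70, .ofNat 1)]) te) te) (tn te (tn (tl [(397, .ofNat 1), (398, .ofNat 1), (399, .ofNat 1), (400, .ofNat 1), (401, .ofNat 2)]) te))) te) (tn (tn te (tn (tn te (tl [(428,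 .ofNat 1), (429, .ofNat 1)])) te)) (tn (tn (tn (tl [(247, .ofNat 2), (254, .ofNat 1)]) (tl [(427, .ofNat 2)])) (tn (tl [(392, .ofNat 1), (393, .ofNat 2), (394, .ofNat 1), (395, .ofNat 1), (396, .ofNat 2)]) te)) (tn (tn te (tl [(432, .ofNat 2), (433, .ofNat 1)])) te)))) (tn (tn (tn (tn (tn (tl [(118, .ofNat 2), (123, .ofNat 1)]) te) te) (tn te (tn (tl [(409, .ofNat 1), (410, .ofNat 1), (412, .ofNat 2), (413, .ofNat 2)]) te))) (tn (tn (tn (tl [(220, .ofNat 1), (223, .ofNat 2), (224, .ofNat 2), (226, .ofNat 1)]) (tl [(427, .ofNat 1)])) (tn (tl [(395, .ofNat 1), (396, .ofNat 1)]) te)) (tn (tn te (tl [(430, .ofNat 1), (431, .ofNat 1)])) te))) (tn (tn (tn te (tn (tl [(387, .ofNat 1), (389, .ofNat 1), (390, .ofNat 1), (391, .ofNat 1)]) te)) (tn (tn te (tl [(429, .ofNat 2)])) te)) (tn (tn (tn (tl [(293, .ofNat 2), (295, .ofNat 1), (296, .ofNat 1), (297, .ofNat 1), (302, .ofNat 2), (304, .ofNat 1), (306, .ofNat 2), (307, .ofNat 1),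 (308, .ofNat 1), (309, .ofNat 2)]) te) (tn (tl [(398, .ofNat 2), (399, .ofNat 2), (400, .ofNat 2), (401, .ofNat 1)]) te)) (tn (tn (tl [(386, .ofNat 2)]) (tl [(432, .ofNat 2)])) te))))))))

def r6 : Tr SV := (tn (tn (tn (tn (tn (tn (tn (tn (tn (tl [(19, .ofNat 2), (20, .ofNat 1)]) te) te) (tn (tn (tl [(355, .ofNat 2), (356, .ofNat 2), (357, .ofNat 1), (358, .ofNat 1), (359, .ofNat 1), (360, .ofNat 2), (361, .ofNat 1), (362, .ofNat 2)]) te) te)) (tn (tn (tn (tl [(214, .ofNat 2), (215, .ofNat 2), (216, .ofNat 1), (218, .ofNat 1)]) te) te) te)) (tn (tn (tn (tn (tl [(169, .ofNat 2), (170, .ofNat 1), (172, .ofNat 2), (173, .ofNat 1), (174, .ofNat 1)]) te) te) (tn (tn te (tl [(429, .ofNat 2)])) (tn (tl [(423, .ofNat 2), (424, .ofNat 2), (425, .ofNat 1), (426, .ofNat 1)]) te))) (tn (tn te (tn (tl [(397, .ofNat 2), (399, .ofNat 2), (401, .ofNat 1)]) te)) (tn (tn te (tl [(432, .ofNat 2), (433, .ofNat 1)])) te)))) (tn (tn (tn te (tn (tn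 te (tl [(429, .ofNat 2)])) (tn (tl [(410, .ofNat 2), (411, .ofNat 2), (412, .ofNat 2), (413, .ofNat 2)]) te))) (tn te (tn (tn (tl [(386, .ofNat 2)]) te) te))) (tn (tn (tn (tn te (tl [(427, .ofNat 1)])) (tn (tl [(388, .ofNat 1), (389, .ofNat 2)]) te)) te) (tn (tn (tn (tl [(259, .ofNat 1), (260, .ofNat 1), (261, .ofNat 1), (263, .ofNat 2), (264, .ofNat 2), (265, .ofNat 2), (266, .ofNat 1), (267, .ofNat 2), (268, .ofNat 2), (270, .ofNat 2), (272, .ofNat 2), (273, .ofNat 2), (274, .ofNat 1), (275, .ofNat 2), (276, .ofNat 1)]) te) (tn (tl [(397, .ofNat 2), (399, .ofNat 2), (401, .ofNat 2)]) te)) te)))) (tn (tn (tn (tn (tn (tn (tl [(67, .ofNat 2)]) te) te) te) te) (tn (tn (tn te (tn (tl [(387, .ofNat 1), (389, .ofNat 1), (391, .ofNat 2)]) te)) te) (tn (tn te (tn (tl [(397, .ofNat 2), (398, .ofNat 2), (401, .ofNat 2)]) te)) (tn (tn te (tl [(433, .ofNat 1)])) te)))) (tn (tn te (tn (tn (tn (tl [(227, .ofNat 1), (228, .ofNat 2), (229,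 .ofNat 2), (230, .ofNat 1), (231, .ofNat 2), (232, .ofNat 2)]) te) te) (tn (tn te (tl [(433, .ofNat 2)])) te))) (tn (tn (tn (tn te (tl [(427, .ofNat 2)])) te) te) te)))) (tn (tn (tn (tn (tn (tn (tn (tl [(26, .ofNat 1), (27, .ofNat 2), (29, .ofNat 1)]) te) te) te) te) (tn (tn te (tn te (tn (tl [(423, .ofNat 2), (425, .ofNat 1), (426, .ofNat 1)]) te))) (tn (tn te (tn (tl [(398, .ofNat 1), (400, .ofNat 1)]) te)) (tn (tn te (tl [(432, .ofNat 2), (433, .ofNat 2)])) te)))) (tn (tn (tn (tn (tn (tl [(93, .ofNat 2), (94, .ofNat 2), (95, .ofNat 1), (98, .ofNat 1), (99, .ofNat 1)]) te) te) (tn (tn te (tl [(428, .ofNat 2)])) (tn (tl [(409, .ofNat 1), (411, .ofNat 2), (413, .ofNat 2)]) te))) te) (tn (tn (tn te (tn (tl [(387, .ofNat 1), (388, .ofNat 1), (389, .ofNat 1)]) te)) te) te))) (tn (tn (tn (tn te (tn (tn te (tl [(429, .ofNat 2)])) te)) (tn te (tn (tn (tl [(386, .ofNat 2)]) te) te))) (tn (tn (tn (tn te (tl [(427, .ofNat 2)])) (tn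 (tl [(387, .ofNat 2), (388, .ofNat 2), (389, .ofNat 2), (390, .ofNat 2), (391, .ofNat 2)]) te)) te) (tn (tn te (tn (tl [(399, .ofNat 2), (400, .ofNat 1), (401, .ofNat 2)]) te)) (tn (tn te (tl [(432, .ofNat 1)])) te)))) (tn (tn (tn (tn (tn (tl [(135, .ofNat 2), (136, .ofNat 1), (137, .ofNat 1), (140, .ofNat 2), (147, .ofNat 1)]) te) te) (tn (tn te (tl [(428, .ofNat 1)])) te)) (tn (tn (tn (tl [(229, .ofNat 2), (230, .ofNat 1), (231, .ofNat 2)]) te) te) (tn (tn te (tl [(433, .ofNat 1)])) te))) (tn (tn (tn (tn (tl [(213, .ofNat 2), (214, .ofNat 1), (215, .ofNat 2), (217, .ofNat 1)]) te) (tn te (tl [(434, .ofNat 1)]))) te) (tn (tn (tn (tl [(312, .ofNat 1), (313, .ofNat 1), (316, .ofNat 1), (317, .ofNat 1), (318, .ofNat 2), (319, .ofNat 1), (320, .ofNat 2), (321, .ofNat 2), (324, .ofNat 2)]) te) te) te)))))) (tn (tn (tn (tn (tn te (tn (tn (tn (tl [(215, .ofNat 1), (219, .ofNat 2)]) (tl [(427, .ofNat 1)])) te) te)) (tn (tn te (tn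 (tn te (tl [(428, .ofNat 2)])) (tn (tl [(423, .ofNat 1), (424, .ofNat 1), (425, .ofNat 1)]) te))) (tn (tn te (tn (tl [(397, .ofNat 2), (398, .ofNat 1), (399, .ofNat 1), (401, .ofNat 1)]) te)) (tn (tn te (tl [(433, .ofNat 1)])) te)))) (tn (tn (tn te (tn (tn te (tl [(428, .ofNat 2)])) (tn (tl [(410, .ofNat 1), (412, .ofNat 1), (413, .ofNat 1)]) te))) (tn te (tn (tn (tl [(386, .ofNat 1)]) te) te))) (tn (tn (tn te (tn (tl [(387, .ofNat 2), (389, .ofNat 2), (390, .ofNat 2)]) te)) te) (tn (tn (tn (tl [(259, .ofNat 1), (260, .ofNat 2), (262, .ofNat 2), (266, .ofNat 2), (267, .ofNat 2), (268, .ofNat 1), (269, .ofNat 1), (270, .ofNat 1), (271, .ofNat 1), (272, .ofNat 1), (273, .ofNat 1), (277, .ofNat 2)]) te) (tn (tl [(397, .ofNat 2), (398, .ofNat 2), (399, .ofNat 2), (401, .ofNat 1)]) te)) te)))) (tn (tn (tn te (tn te (tn (tn (tl [(386, .ofNat 1)]) te) te))) (tn (tn (tn te (tn (tl [(387, .ofNat 2), (388, .ofNat 1), (389, .ofNat 1),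 (390, .ofNat 2), (391, .ofNat 1)]) te)) te) (tn (tn te (tn (tl [(397, .ofNat 1)]) te)) (tn (tn te (tl [(432, .ofNat 2)])) te)))) (tn (tn (tn te (tn (tn te (tl [(429, .ofNat 2)])) te)) (tn (tn (tn (tl [(227, .ofNat 1), (228, .ofNat 1), (230, .ofNat 2), (231, .ofNat 1), (232, .ofNat 2)]) te) te) (tn (tn (tl [(386, .ofNat 1)]) (tl [(432, .ofNat 1), (433, .ofNat 2)])) te))) (tn te (tn (tn (tn (tl [(312, .ofNat 1), (313, .ofNat 1), (314, .ofNat 2), (316, .ofNat 1), (318, .ofNat 2), (319, .ofNat 2), (321, .ofNat 1), (322, .ofNat 2), (323, .ofNat 1), (325, .ofNat 1)]) te) te) te))))) (tn (tn (tn (tn (tn (tn (tn (tl [(42, .ofNat 1)]) te) te) te) te) (tn (tn te (tn te (tn (tl [(424, .ofNat 1), (426, .ofNat 1)]) te))) (tn (tn te (tn (tl [(397, .ofNat 1), (398, .ofNat 2), (399, .ofNat 2), (400, .ofNat 2), (401, .ofNat 1)]) te)) (tn (tn te (tl [(432, .ofNat 1)])) te)))) (tn (tn (tn (tn (tn (tl [(90, .ofNat 2), (98, .ofNat 2), (100, .ofNat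 1)]) te) te) (tn (tn te (tl [(429, .ofNat 1)])) (tn (tl [(409, .ofNat 1), (412, .ofNat 2), (413, .ofNat 2)]) te))) (tn (tn (tn (tl [(227, .ofNat 1), (228, .ofNat 2), (230, .ofNat 2), (232, .ofNat 2)]) te) te) (tn (tn (tl [(386, .ofNat 1)]) te) te))) (tn (tn (tn (tn te (tl [(427, .ofNat 1)])) (tn (tl [(387, .ofNat 1), (388, .ofNat 2), (389, .ofNat 1), (390, .ofNat 2), (391, .ofNat 1)]) te)) te) te))) (tn (tn (tn (tn (tn (tn (tl [(74, .ofNat 2), (75, .ofNat 2), (76, .ofNat 1)]) te) te) (tn (tn te (tl [(428, .ofNat 2)])) te)) (tn te (tn (tn (tl [(386, .ofNat 1)]) te) te))) (tn (tn (tn (tn te (tl [(427, .ofNat 1)])) (tn (tl [(387, .ofNat 1), (388, .ofNat 2)]) te)) te) (tn (tn (tn (tl [(261, .ofNat 2), (262, .ofNat 1), (263, .ofNat 2), (264, .ofNat 2), (266, .ofNat 1), (274, .ofNat 1), (275, .ofNat 1)]) te) (tn (tl [(400, .ofNat 1), (401, .ofNat 2)]) te)) te))) (tn (tn (tn (tn (tn (tl [(131, .ofNat 2), (133, .ofNat 1), (137, .ofNat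 2), (139, .ofNat 1), (140, .ofNat 2), (146, .ofNat 2)]) te) te) (tn (tn te (tl [(429, .ofNat 2)])) te)) (tn (tn (tn (tl [(227, .ofNat 2), (228, .ofNat 1), (231, .ofNat 2), (232, .ofNat 2)]) te) (tn (tl [(397, .ofNat 1), (398, .ofNat 2), (399, .ofNat 2), (400, .ofNat 2)]) te)) te)) (tn (tn (tn (tn (tl [(213, .ofNat 2), (214, .ofNat 2), (215, .ofNat 2), (216, .ofNat 1), (217, .ofNat 1), (218, .ofNat 1)]) te) te) te) (tn (tn (tn (tl [(312, .ofNat 2), (313, .ofNat 2), (315, .ofNat 2), (316, .ofNat 2), (318, .ofNat 1), (319, .ofNat 1), (320, .ofNat 1), (321, .ofNat 2), (322, .ofNat 1), (324, .ofNat 1), (325, .ofNat 1)]) te) te) te)))))))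

def r7 : Tr SV := (tn (tn (tn (tn (tn (tn (tn (tn (tn (tl [(21, .ofNat 2), (22, .ofNat 1)]) te) te) (tn (tn (tl [(370, .ofNat 2), (374, .ofNat 1)]) te) te)) (tn (tn te (tn (tl [(393, .ofNat 2), (394, .ofNat 2), (396, .ofNat 2)]) te)) (tn (tn (tl [(386, .ofNat 2)]) (tl [(431, .ofNat 1)])) te))) (tn (tn (tn (tn (tl [(182, .ofNat 2), (185, .ofNat 1)]) (tl [(427, .ofNat 2)])) te) te) te)) (tn (tn (tn (tn (tn te (tl [(427, .ofNat 1)])) te) (tn te (tn (tl [(414, .ofNat 1), (416, .ofNat 2), (417, .ofNat 2)]) te))) (tn (tn (tn (tl [(227, .ofNat 1), (230, .ofNat 2), (231, .ofNat 1), (232, .ofNat 2)]) te) (tn (tl [(397, .ofNat 2), (398, .ofNat 2), (399, .ofNat 2), (400, .ofNat 2), (401, .ofNat 2)]) te)) (tn (tn te (tl [(432, .ofNat 2), (433, .ofNat 1)])) te))) (tn te (tn (tn (tn (tl [(282, .ofNat 2), (289, .ofNat 1)]) te) te) te)))) (tn (tn (tn te (tn (tn (tn (tl [(220, .ofNat 2), (221, .ofNat 2), (222, .ofNat 2), (223, .ofNat 1), (225,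 .ofNat 1), (226, .ofNat 2)]) te) (tn (tl [(392, .ofNat 2)]) te)) (tn (tn (tl [(386, .ofNat 2)]) (tl [(432, .ofNat 2)])) te))) (tn (tn (tn (tn te (tl [(427, .ofNat 1)])) te) (tn (tn te (tl [(430, .ofNat 1), (431, .ofNat 1)])) te)) te)) (tn (tn (tn (tn (tn (tl [(117, .ofNat 2), (127, .ofNat 1)]) (tl [(427, .ofNat 2)])) te) (tn te (tn (tl [(418, .ofNat 1), (419, .ofNat 2), (420, .ofNat 1), (421, .ofNat 1)]) te))) (tn (tn te (tn (tl [(398, .ofNat 2), (399, .ofNat 2), (400, .ofNat 1), (401, .ofNat 1)]) te)) te)) (tn (tn (tn te (tn (tl [(392, .ofNat 2), (393, .ofNat 1), (394, .ofNat 1), (395, .ofNat 1), (396, .ofNat 2)]) (tl [(434, .ofNat 2)]))) (tn (tn (tl [(386, .ofNat 2)]) te) te)) (tn (tn (tn (tl [(292, .ofNat 1), (293, .ofNat 1), (295, .ofNat 1), (297, .ofNat 2), (299, .ofNat 1), (300, .ofNat 1), (301, .ofNat 1), (303, .ofNat 1), (304, .ofNat 2), (306, .ofNat 2), (309, .ofNat 1), (310, .ofNat 1), (311, .ofNat 1)]) te) te) te)))))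 (tn (tn (tn (tn (tn (tn (tn te (tl [(427, .ofNat 1)])) te) te) (tn (tn (tn (tl [(220, .ofNat 2), (221, .ofNat 1), (222, .ofNat 1), (223, .ofNat 1), (224, .ofNat 2), (225, .ofNat 2), (226, .ofNat 1)]) te) (tn (tl [(392, .ofNat 1), (395, .ofNat 1), (396, .ofNat 1)]) te)) (tn (tn (tl [(386, .ofNat 2)]) (tl [(430, .ofNat 1), (431, .ofNat 2)])) te))) (tn (tn (tn (tn te (tl [(427, .ofNat 2)])) te) (tn (tn te (tl [(430, .ofNat 2), (431, .ofNat 1)])) te)) te)) (tn (tn (tn (tn (tn (tl [(106, .ofNat 2), (109, .ofNat 1)]) te) te) (tn te (tn (tl [(414, .ofNat 2), (416, .ofNat 1)]) te))) (tn (tn (tn (tl [(229, .ofNat 2), (230, .ofNat 1), (231, .ofNat 2), (232, .ofNat 1)]) te) (tn (tl [(401, .ofNat 1)]) te)) (tn (tn te (tl [(432, .ofNat 1), (433, .ofNat 1)])) te))) (tn (tn (tn te (tn te (tl [(434, .ofNat 2)]))) (tn (tn te (tl [(430, .ofNat 2), (431, .ofNat 1)])) te)) (tn (tn (tn (tl [(293, .ofNat 1), (294, .ofNat 2), (296, .ofNat 1), (297,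 .ofNat 2), (298, .ofNat 1), (299, .ofNat 2), (300, .ofNat 2), (301, .ofNat 1), (302, .ofNat 1), (303, .ofNat 2), (304, .ofNat 1), (305, .ofNat 1), (306, .ofNat 2), (308, .ofNat 1), (309, .ofNat 1), (310, .ofNat 2), (311, .ofNat 2)]) te) te) te)))) (tn (tn (tn (tn (tn (tn (tl [(75, .ofNat 1), (76, .ofNat 2), (77, .ofNat 1)]) (tl [(427, .ofNat 1)])) te) te) (tn (tn (tn (tl [(221, .ofNat 2), (222, .ofNat 1), (223, .ofNat 1), (224, .ofNat 1), (225, .ofNat 2)]) te) (tn (tl [(394, .ofNat 1), (395, .ofNat 1), (396, .ofNat 1)]) te)) te)) (tn (tn te (tn (tn te (tl [(431, .ofNat 1)])) te)) te)) (tn (tn (tn (tn (tn te (tl [(427, .ofNat 2)])) te) (tn te (tn (tl [(420, .ofNat 1), (421, .ofNat 2), (422, .ofNat 2)]) te))) (tn (tn te (tn (tl [(397, .ofNat 2), (399, .ofNat 1), (400, .ofNat 2)]) te)) te)) (tn (tn (tn te (tn (tl [(392, .ofNat 1), (394, .ofNat 1)]) te)) (tn (tn (tl [(386, .ofNat 2)]) (tl [(430, .ofNat 2)])) te)) te))))) (tn (tn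 (tn (tn (tn (tn (tn (tn (tl [(23, .ofNat 2)]) te) te) te) (tn (tn te (tn (tl [(395, .ofNat 2), (396, .ofNat 1)]) te)) te)) te) (tn (tn (tn (tn (tn te (tl [(427, .ofNat 2)])) te) (tn te (tn (tl [(415, .ofNat 1), (416, .ofNat 2), (417, .ofNat 2)]) te))) (tn (tn (tn (tl [(228, .ofNat 1), (229, .ofNat 1), (232, .ofNat 1)]) te) (tn (tl [(397, .ofNat 1), (398, .ofNat 2), (400, .ofNat 1), (401, .ofNat 1)]) te)) (tn (tn te (tl [(432, .ofNat 1)])) te))) (tn (tn (tn te (tn te (tl [(434, .ofNat 1)]))) te) (tn (tn (tn (tl [(283, .ofNat 2), (290, .ofNat 1)]) te) te) te)))) (tn (tn (tn (tn (tn (tn (tl [(69, .ofNat 2), (70, .ofNat 1)]) te) te) te) (tn (tn (tn (tl [(220, .ofNat 2), (221, .ofNat 2), (222, .ofNat 2), (225, .ofNat 1), (226, .ofNat 2)]) te) (tn (tl [(393, .ofNat 2), (395, .ofNat 2), (396, .ofNat 2)]) te)) (tn (tn te (tl [(432, .ofNat 1), (433, .ofNat 1)])) te))) (tn (tn (tn (tn te (tl [(427, .ofNat 2)])) te) (tn (tn te (tl [(430,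 .ofNat 2), (431, .ofNat 2)])) te)) te)) (tn (tn (tn (tn (tn (tl [(119, .ofNat 2), (123, .ofNat 1)]) (tl [(427, .ofNat 1)])) te) (tn te (tn (tl [(418, .ofNat 1), (419, .ofNat 2), (420, .ofNat 2), (422, .ofNat 2)]) te))) (tn (tn te (tn (tl [(400, .ofNat 1)]) te)) te)) (tn (tn (tn te (tn (tl [(392, .ofNat 2), (393, .ofNat 1), (395, .ofNat 1)]) (tl [(434, .ofNat 2)]))) (tn (tn (tl [(386, .ofNat 2)]) (tl [(431, .ofNat 2)])) te)) te)))) (tn (tn (tn (tn (tn (tn (tn (tl [(45, .ofNat 2), (47, .ofNat 1)]) (tl [(427, .ofNat 1)])) te) te) (tn (tn (tn (tl [(220, .ofNat 1), (221, .ofNat 1), (222, .ofNat 1), (224, .ofNat 2), (225, .ofNat 1), (226, .ofNat 2)]) te) (tn (tl [(394, .ofNat 2), (395, .ofNat 1)]) te)) (tn (tn te (tl [(432, .ofNat 2)])) te))) (tn (tn (tn (tn (tl [(212, .ofNat 1)]) (tl [(427, .ofNat 2)])) te) te) te)) (tn (tn (tn (tn (tn (tl [(107, .ofNat 2), (110, .ofNat 1)]) (tl [(427, .ofNat 2)])) te) (tn te (tn (tl [(414, .ofNat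 1), (417, .ofNat 1)]) te))) (tn te (tn (tn te (tl [(432, .ofNat 2), (433, .ofNat 1)])) te))) (tn (tn te (tn (tn (tl [(386, .ofNat 1)]) (tl [(430, .ofNat 2), (431, .ofNat 1)])) te)) (tn (tn (tn (tl [(293, .ofNat 2), (294, .ofNat 2), (295, .ofNat 2), (297, .ofNat 1), (298, .ofNat 1), (299, .ofNat 2), (300, .ofNat 2), (302, .ofNat 2), (303, .ofNat 1), (304, .ofNat 1), (305, .ofNat 2), (307, .ofNat 2), (308, .ofNat 1), (309, .ofNat 2), (310, .ofNat 1), (311, .ofNat 1)]) te) te) te)))) (tn (tn (tn (tn (tn (tn te (tl [(427, .ofNat 2)])) te) te) (tn (tn (tn (tl [(227, .ofNat 1), (229, .ofNat 2), (232, .ofNat 2)]) te) (tn (tl [(397, .ofNat 1), (398, .ofNat 2), (400, .ofNat 1), (401, .ofNat 1)]) te)) te)) (tn (tn te (tn (tn te (tl [(430, .ofNat 2), (431, .ofNat 1)])) te)) (tn (tn (tn (tl [(281, .ofNat 2), (288, .ofNat 1)]) te) te) te))) (tn (tn (tn te (tn te (tn (tl [(418, .ofNat 2), (420, .ofNat 2), (421, .ofNat 1)]) te))) te) (tn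 (tn (tn te (tn (tl [(393, .ofNat 2), (394, .ofNat 1), (396, .ofNat 1)]) te)) (tn (tn (tl [(386, .ofNat 2)]) (tl [(430, .ofNat 2)])) te)) te))))))

def r8 : Tr SV := (tn (tn (tn (tn (tn (tn (tn (tn (tn (tl [(23, .ofNat 2), (24, .ofNat 1)]) (tl [(427, .ofNat 1)])) te) (tn (tn (tl [(376, .ofNat 1), (380, .ofNat 2), (381, .ofNat 1), (382, .ofNat 2), (383, .ofNat 2), (384, .ofNat 1), (385, .ofNat 2)]) te) te)) (tn (tn (tn (tl [(221, .ofNat 2), (222, .ofNat 2), (224, .ofNat 2), (226, .ofNat 2)]) te) (tn (tl [(397, .ofNat 2), (398, .ofNat 1), (401, .ofNat 2)]) te)) (tn (tn te (tl [(433, .ofNat 2)])) te))) (tn (tn (tn (tn (tl [(189, .ofNat 2), (192, .ofNat 1), (194, .ofNat 2), (195, .ofNat 1), (199, .ofNat 1)]) te) te) (tn (tn te (tl [(430, .ofNat 2)])) te)) (tn te (tn te (tn (tl [(427, .ofNat 2)]) te))))) (tn (tn (tn te (tn te (tn (tl [(418, .ofNat 2), (419, .ofNat 1), (420, .ofNat 2), (421, .ofNat 1)]) te))) te) (tn (tn (tn te (tn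 (tl [(396, .ofNat 1)]) (tl [(434, .ofNat 2)]))) (tn (tn (tl [(386, .ofNat 1)]) (tl [(433, .ofNat 1)])) te)) (tn (tn (tn (tl [(292, .ofNat 1), (295, .ofNat 2), (298, .ofNat 2), (299, .ofNat 2), (300, .ofNat 2), (301, .ofNat 2), (305, .ofNat 2), (307, .ofNat 1), (310, .ofNat 1)]) te) te) te)))) (tn (tn (tn (tn (tn (tn (tl [(69, .ofNat 1), (70, .ofNat 2), (71, .ofNat 2), (72, .ofNat 1)]) te) te) te) (tn (tn (tn (tl [(227, .ofNat 2), (229, .ofNat 2), (231, .ofNat 1)]) te) (tn (tl [(398, .ofNat 1), (399, .ofNat 2), (401, .ofNat 1)]) te)) te)) (tn (tn (tn te (tn (tl [(392, .ofNat 2), (394, .ofNat 1), (395, .ofNat 1), (396, .ofNat 1)]) (tl [(434, .ofNat 2)]))) (tn (tn te (tl [(432, .ofNat 2), (433, .ofNat 1)])) te)) (tn te (tn te (tn (tl [(427, .ofNat 2)]) te))))) (tn (tn (tn (tn (tn (tl [(135, .ofNat 2), (138, .ofNat 1), (143, .ofNat 1), (144, .ofNat 2), (147, .ofNat 1)]) te) te) (tn te (tn (tl [(423, .ofNat 2), (424, .ofNat 2),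 (425, .ofNat 1), (426, .ofNat 1)]) te))) te) (tn (tn (tn te (tn (tl [(397, .ofNat 1), (398, .ofNat 1), (399, .ofNat 1), (400, .ofNat 2)]) te)) te) (tn (tn (tn (tl [(313, .ofNat 2), (314, .ofNat 1), (315, .ofNat 2), (316, .ofNat 1), (317, .ofNat 1), (319, .ofNat 2), (320, .ofNat 2), (321, .ofNat 1), (322, .ofNat 2), (323, .ofNat 1), (324, .ofNat 1), (325, .ofNat 2)]) te) te) (tn te (tn (tl [(427, .ofNat 1)]) te))))))) (tn (tn (tn (tn te (tn (tn (tn (tl [(227, .ofNat 1), (228, .ofNat 1), (229, .ofNat 1), (231, .ofNat 2)]) te) (tn (tl [(398, .ofNat 1), (399, .ofNat 2), (401, .ofNat 1)]) te)) (tn (tn te (tl [(432, .ofNat 1), (433, .ofNat 1)])) te))) (tn (tn (tn (tn (tl [(212, .ofNat 1)]) te) te) (tn (tn (tl [(386, .ofNat 2)]) (tl [(433, .ofNat 1)])) te)) (tn te (tn te (tn (tl [(427, .ofNat 1)]) te))))) (tn (tn (tn (tn (tn (tl [(117, .ofNat 2), (118, .ofNat 2), (120, .ofNat 1), (123, .ofNat 1), (124, .ofNat 1)]) te) te) (tn (tn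 te (tl [(430, .ofNat 2)])) (tn (tl [(420, .ofNat 1), (422, .ofNat 2)]) te))) te) (tn (tn (tn te (tn (tl [(392, .ofNat 2), (393, .ofNat 1), (394, .ofNat 2), (395, .ofNat 1), (396, .ofNat 1)]) te)) (tn (tn te (tl [(432, .ofNat 1), (433, .ofNat 2)])) te)) (tn (tn (tn (tl [(312, .ofNat 2), (315, .ofNat 1), (316, .ofNat 1), (317, .ofNat 2), (320, .ofNat 2), (322, .ofNat 1), (323, .ofNat 2), (325, .ofNat 2)]) te) te) (tn te (tn (tl [(427, .ofNat 2)]) te)))))) (tn (tn (tn (tn te (tn (tn te (tl [(430, .ofNat 2)])) te)) (tn (tn (tn (tl [(227, .ofNat 2), (228, .ofNat 2), (231, .ofNat 1), (232, .ofNat 1)]) te) (tn (tl [(397, .ofNat 1), (400, .ofNat 1), (401, .ofNat 1)]) te)) te)) (tn (tn (tn te (tn (tl [(392, .ofNat 2), (393, .ofNat 1), (394, .ofNat 1), (395, .ofNat 2), (396, .ofNat 1)]) te)) (tn (tn (tl [(386, .ofNat 2)]) (tl [(433, .ofNat 1)])) te)) te)) (tn (tn (tn te (tn (tn te (tl [(430, .ofNat 1), (431, .ofNat 2)])) (tn (tl [(423,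 .ofNat 1), (424, .ofNat 2), (425, .ofNat 1), (426, .ofNat 1)]) te))) te) (tn (tn (tn (tn (tl [(220, .ofNat 2), (221, .ofNat 2), (222, .ofNat 2), (223, .ofNat 2), (224, .ofNat 2), (225, .ofNat 1)]) te) (tn (tl [(397, .ofNat 1), (399, .ofNat 2), (401, .ofNat 2)]) te)) (tn (tn te (tl [(432, .ofNat 1), (433, .ofNat 2)])) te)) te))))) (tn (tn (tn (tn (tn (tn (tn (tn (tl [(29, .ofNat 1)]) (tl [(427, .ofNat 1)])) te) te) (tn (tn (tn (tl [(220, .ofNat 2), (221, .ofNat 2), (222, .ofNat 1), (223, .ofNat 2), (224, .ofNat 2), (226, .ofNat 2)]) te) (tn (tl [(399, .ofNat 1), (400, .ofNat 1), (401, .ofNat 2)]) te)) (tn (tn te (tl [(432, .ofNat 2), (433, .ofNat 1)])) te))) (tn (tn te (tn (tn (tl [(386, .ofNat 1)]) (tl [(430, .ofNat 2), (431, .ofNat 1)])) te)) te)) (tn (tn (tn te (tn (tn te (tl [(431, .ofNat 2)])) (tn (tl [(418, .ofNat 1), (419, .ofNat 2), (420, .ofNat 2), (421, .ofNat 1), (422, .ofNat 2)]) te))) (tn te (tn te (tn (tl [(427,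 .ofNat 2)]) te)))) (tn (tn (tn te (tn (tl [(392, .ofNat 1), (393, .ofNat 2), (395, .ofNat 1), (396, .ofNat 2)]) te)) (tn (tn (tl [(386, .ofNat 1)]) (tl [(433, .ofNat 2)])) te)) (tn (tn (tn (tl [(293, .ofNat 1), (294, .ofNat 2), (295, .ofNat 1), (296, .ofNat 2), (299, .ofNat 2), (300, .ofNat 2), (302, .ofNat 2), (303, .ofNat 1), (304, .ofNat 2), (308, .ofNat 1), (309, .ofNat 1), (310, .ofNat 2), (311, .ofNat 2)]) te) te) (tn te (tn (tl [(427, .ofNat 2)]) te)))))) (tn (tn (tn (tn (tn (tn (tl [(73, .ofNat 1), (74, .ofNat 2), (75, .ofNat 2), (76, .ofNat 2), (77, .ofNat 2)]) te) te) te) (tn (tn (tn (tl [(228, .ofNat 1), (229, .ofNat 2), (230, .ofNat 1), (231, .ofNat 1), (232, .ofNat 2)]) te) (tn (tl [(397, .ofNat 2), (399, .ofNat 2), (400, .ofNat 2)]) te)) te)) (tn (tn (tn te (tn (tl [(392, .ofNat 2), (394, .ofNat 1)]) (tl [(434, .ofNat 1)]))) (tn (tn (tl [(386, .ofNat 2)]) (tl [(432, .ofNat 1)])) te)) te)) (tn (tn (tn (tn (tn (tl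 [(131, .ofNat 2), (133, .ofNat 1), (139, .ofNat 1), (140, .ofNat 1), (143, .ofNat 2), (144, .ofNat 1), (145, .ofNat 2)]) te) te) (tn te (tn (tl [(425, .ofNat 1)]) te))) te) (tn (tn (tn te (tn (tl [(397, .ofNat 1), (399, .ofNat 2), (400, .ofNat 2), (401, .ofNat 1)]) te)) (tn (tn te (tl [(432, .ofNat 2), (433, .ofNat 2)])) te)) (tn te (tn te (tn (tl [(427, .ofNat 2)]) te))))))) (tn (tn (tn (tn (tn (tn (tn (tl [(54, .ofNat 1)]) te) te) te) (tn (tn (tn (tl [(228, .ofNat 1), (229, .ofNat 2), (230, .ofNat 1), (231, .ofNat 1)]) te) (tn (tl [(397, .ofNat 2), (398, .ofNat 2), (399, .ofNat 2), (400, .ofNat 1)]) te)) te)) (tn (tn (tn te (tn te (tl [(434, .ofNat 2)]))) (tn (tn te (tl [(432, .ofNat 2), (433, .ofNat 2)])) te)) te)) (tn (tn (tn (tn (tn (tl [(112, .ofNat 2), (123, .ofNat 2), (125, .ofNat 1)]) te) te) (tn (tn te (tl [(430, .ofNat 2), (431, .ofNat 1)])) (tn (tl [(418, .ofNat 2), (419, .ofNat 2), (420, .ofNat 1), (422, .ofNat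 2)]) te))) te) (tn (tn (tn te (tn (tl [(392, .ofNat 1), (394, .ofNat 2), (395, .ofNat 1), (396, .ofNat 1)]) te)) (tn (tn te (tl [(432, .ofNat 1), (433, .ofNat 2)])) te)) (tn (tn (tn (tl [(312, .ofNat 2), (313, .ofNat 1), (314, .ofNat 1), (316, .ofNat 1), (318, .ofNat 1), (319, .ofNat 1), (321, .ofNat 1), (324, .ofNat 2)]) te) te) (tn te (tn (tl [(427, .ofNat 1)]) te)))))) (tn (tn (tn (tn te (tn (tn te (tl [(430, .ofNat 2)])) te)) te) (tn (tn (tn te (tn (tl [(392, .ofNat 1), (393, .ofNat 1), (395, .ofNat 1), (396, .ofNat 1)]) te)) (tn (tn (tl [(386, .ofNat 1)]) (tl [(433, .ofNat 1)])) te)) (tn (tn (tn (tl [(292, .ofNat 2), (293, .ofNat 1), (294, .ofNat 1), (295, .ofNat 1), (296, .ofNat 2), (299, .ofNat 2), (300, .ofNat 2), (301, .ofNat 1), (302, .ofNat 2), (303, .ofNat 2), (307, .ofNat 1), (309, .ofNat 1), (310, .ofNat 2)]) te) te) te))) (tn (tn (tn te (tn (tn (tl [(386, .ofNat 2)]) (tl [(430, .ofNat 1), (431, .ofNat 2)])) (tn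 (tl [(423, .ofNat 1), (424, .ofNat 1), (425, .ofNat 2), (426, .ofNat 1)]) te))) (tn te (tn te (tn (tl [(427, .ofNat 1)]) te)))) (tn (tn (tn (tn (tl [(220, .ofNat 2), (221, .ofNat 2), (222, .ofNat 2)]) te) (tn (tl [(398, .ofNat 1), (399, .ofNat 2), (400, .ofNat 2), (401, .ofNat 2)]) te)) (tn (tn te (tl [(433, .ofNat 1)])) te)) te))))))

def r9 : Tr SV := (tn (tn (tn (tn (tn (tn (tn (tn (tn (tl [(23, .ofNat 2), (25, .ofNat 1)]) te) te) (tn (tn (tl [(376, .ofNat 1), (380, .ofNat 1), (381, .ofNat 1), (382, .ofNat 2), (383, .ofNat 2), (384, .ofNat 2), (385, .ofNat 2)]) te) te)) (tn (tn (tn (tl [(220, .ofNat 2), (221, .ofNat 2), (222, .ofNat 2), (223, .ofNat 1), (224, .ofNat 1), (226, .ofNat 1)]) te) (tn (tl [(397, .ofNat 1), (398, .ofNat 1), (399, .ofNat 1), (400, .ofNat 1), (401, .ofNat 1)]) te)) (tn (tn te (tl [(432, .ofNat 1), (433, .ofNat 2)])) te))) (tn (tn (tn (tn (tl [(189, .ofNat 2), (192, .ofNat 1), (194, .ofNat 2), (198,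 .ofNat 1), (199, .ofNat 1)]) te) te) (tn (tn (tl [(386, .ofNat 1)]) te) te)) (tn te (tn te (tn (tl [(427, .ofNat 2)]) te))))) (tn (tn (tn te (tn te (tn (tl [(418, .ofNat 2), (420, .ofNat 2)]) te))) te) (tn (tn (tn te (tn (tl [(394, .ofNat 1), (395, .ofNat 1)]) (tl [(434, .ofNat 1)]))) (tn (tn te (tl [(432, .ofNat 2), (433, .ofNat 2)])) te)) (tn (tn (tn (tl [(292, .ofNat 1), (295, .ofNat 2), (298, .ofNat 2), (299, .ofNat 2), (300, .ofNat 2), (301, .ofNat 1), (305, .ofNat 2), (307, .ofNat 1), (310, .ofNat 2)]) te) te) (tn te (tn (tl [(427, .ofNat 1)]) te)))))) (tn (tn (tn (tn (tn (tn (tl [(69, .ofNat 1), (70, .ofNat 2), (71, .ofNat 1), (72, .ofNat 2)]) te) te) te) (tn (tn (tn (tl [(228, .ofNat 1), (229, .ofNat 1), (230, .ofNat 1), (231, .ofNat 2), (232, .ofNat 2)]) te) (tn (tl [(397, .ofNat 2), (401, .ofNat 1)]) te)) te)) (tn (tn (tn te (tn (tl [(392, .ofNat 2), (393, .ofNat 2), (394, .ofNat 1), (395, .ofNat 2), (396, .ofNat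 2)]) (tl [(434, .ofNat 2)]))) (tn (tn (tl [(386, .ofNat 1)]) te) te)) (tn te (tn te (tn (tl [(427, .ofNat 1)]) te))))) (tn (tn (tn (tn (tn (tl [(135, .ofNat 2), (142, .ofNat 1), (143, .ofNat 1), (144, .ofNat 2), (147, .ofNat 1)]) te) te) (tn te (tn (tl [(424, .ofNat 2), (426, .ofNat 1)]) te))) te) (tn (tn (tn te (tn (tl [(397, .ofNat 1), (399, .ofNat 1), (400, .ofNat 2)]) te)) (tn (tn te (tl [(432, .ofNat 2), (433, .ofNat 2)])) te)) (tn (tn (tn (tl [(313, .ofNat 1), (314, .ofNat 1), (315, .ofNat 2), (316, .ofNat 1), (317, .ofNat 1), (319, .ofNat 2), (321, .ofNat 1), (322, .ofNat 2), (323, .ofNat 1), (324, .ofNat 1), (325, .ofNat 2)]) te) te) (tn te (tn (tl [(427, .ofNat 1)]) te))))))) (tn (tn (tn (tn te (tn (tn (tn (tl [(227, .ofNat 2), (228, .ofNat 2), (229, .ofNat 1), (230, .ofNat 2), (231, .ofNat 2), (232, .ofNat 1)]) te) (tn (tl [(398, .ofNat 1), (401, .ofNat 1)]) te)) (tn (tn te (tl [(433, .ofNat 2)])) te))) (tn (tn (tn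 (tn (tl [(212, .ofNat 2)]) te) te) (tn (tn (tl [(386, .ofNat 2)]) (tl [(432, .ofNat 2)])) te)) (tn te (tn te (tn (tl [(427, .ofNat 2)]) te))))) (tn (tn (tn (tn (tn (tl [(117, .ofNat 2), (118, .ofNat 2), (120, .ofNat 1), (123, .ofNat 1), (128, .ofNat 1)]) te) te) (tn (tn te (tl [(430, .ofNat 2)])) (tn (tl [(418, .ofNat 1), (420, .ofNat 1), (421, .ofNat 2), (422, .ofNat 1)]) te))) (tn te (tn te (tn (tl [(427, .ofNat 1)]) te)))) (tn (tn (tn te (tn (tl [(392, .ofNat 2), (394, .ofNat 2)]) te)) (tn (tn te (tl [(432, .ofNat 2), (433, .ofNat 1)])) te)) (tn (tn (tn (tl [(312, .ofNat 1), (315, .ofNat 1), (316, .ofNat 1), (317, .ofNat 2), (318, .ofNat 1), (320, .ofNat 2), (322, .ofNat 1), (323, .ofNat 2), (325, .ofNat 2)]) te) te) te)))) (tn (tn (tn (tn te (tn (tn te (tl [(430, .ofNat 2)])) te)) (tn (tn (tn (tl [(227, .ofNat 1), (228, .ofNat 2), (231, .ofNat 1), (232, .ofNat 2)]) te) (tn (tl [(397, .ofNat 1), (398, .ofNat 2), (399, .ofNat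 1), (400, .ofNat 1), (401, .ofNat 2)]) te)) te)) (tn (tn (tn te (tn (tl [(393, .ofNat 1), (395, .ofNat 2), (396, .ofNat 1)]) te)) te) te)) (tn (tn (tn te (tn (tn te (tl [(430, .ofNat 2), (431, .ofNat 2)])) (tn (tl [(424, .ofNat 1)]) te))) te) (tn (tn (tn (tn (tl [(220, .ofNat 2), (221, .ofNat 1), (222, .ofNat 1), (223, .ofNat 2), (226, .ofNat 2)]) te) (tn (tl [(397, .ofNat 1), (401, .ofNat 2)]) te)) (tn (tn te (tl [(433, .ofNat 1)])) te)) te))))) (tn (tn (tn (tn (tn (tn (tn (tn (tl [(27, .ofNat 2), (28, .ofNat 1), (29, .ofNat 1)]) (tl [(427, .ofNat 2)])) te) te) (tn (tn (tn (tl [(220, .ofNat 2), (221, .ofNat 2), (222, .ofNat 1), (224, .ofNat 2), (225, .ofNat 2)]) te) (tn (tl [(398, .ofNat 1), (399, .ofNat 2), (400, .ofNat 2), (401, .ofNat 2)]) te)) (tn (tn te (tl [(433, .ofNat 1)])) te))) (tn (tn (tn (tn (tl [(212, .ofNat 1)]) te) te) (tn (tn te (tl [(431, .ofNat 2)])) te)) (tn te (tn te (tn (tl [(427, .ofNat 2)]) te))))) (tn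 (tn (tn te (tn (tn te (tl [(431, .ofNat 2)])) (tn (tl [(418, .ofNat 2), (419, .ofNat 2), (420, .ofNat 2), (422, .ofNat 1)]) te))) (tn te (tn te (tn (tl [(427, .ofNat 2)]) te)))) (tn (tn (tn te (tn (tl [(394, .ofNat 2), (395, .ofNat 2), (396, .ofNat 2)]) te)) (tn (tn (tl [(386, .ofNat 1)]) te) te)) (tn (tn (tn (tl [(293, .ofNat 1), (294, .ofNat 2), (295, .ofNat 1), (296, .ofNat 2), (299, .ofNat 2), (300, .ofNat 2), (302, .ofNat 1), (303, .ofNat 1), (304, .ofNat 2), (308, .ofNat 1), (309, .ofNat 1), (310, .ofNat 2)]) te) te) te)))) (tn (tn (tn (tn (tn (tn (tl [(73, .ofNat 1), (74, .ofNat 2), (75, .ofNat 2), (76, .ofNat 2), (77, .ofNat 1), (78, .ofNat 1)]) te) te) te) (tn (tn (tn (tl [(228, .ofNat 2), (229, .ofNat 1), (231, .ofNat 1), (232, .ofNat 2)]) te) (tn (tl [(398, .ofNat 2), (399, .ofNat 1), (400, .ofNat 2)]) te)) te)) (tn (tn (tn te (tn (tl [(392, .ofNat 2), (394, .ofNat 2), (395, .ofNat 2), (396, .ofNat 2)]) (tl [(434,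 .ofNat 2)]))) (tn (tn te (tl [(432, .ofNat 2), (433, .ofNat 2)])) te)) (tn te (tn te (tn (tl [(427, .ofNat 2)]) te))))) (tn (tn (tn (tn (tn (tl [(131, .ofNat 2), (133, .ofNat 1), (140, .ofNat 1), (144, .ofNat 1), (145, .ofNat 2)]) te) te) (tn te (tn (tl [(423, .ofNat 1), (424, .ofNat 2), (425, .ofNat 1), (426, .ofNat 2)]) te))) (tn te (tn te (tn (tl [(427, .ofNat 2)]) te)))) (tn (tn (tn te (tn (tl [(397, .ofNat 2), (399, .ofNat 2)]) te)) (tn (tn te (tl [(432, .ofNat 1), (433, .ofNat 1)])) te)) te)))) (tn (tn (tn (tn (tn (tn (tn (tl [(51, .ofNat 2), (53, .ofNat 1), (54, .ofNat 1)]) te) te) te) (tn (tn (tn (tl [(227, .ofNat 2), (228, .ofNat 2), (230, .ofNat 2)]) te) (tn (tl [(397, .ofNat 2), (399, .ofNat 1), (401, .ofNat 1)]) te)) te)) (tn (tn (tn te (tn te (tl [(434, .ofNat 2)]))) (tn (tn te (tl [(432, .ofNat 2), (433, .ofNat 2)])) te)) (tn te (tn te (tn (tl [(427, .ofNat 1)]) te))))) (tn (tn (tn (tn (tn (tl [(112, .ofNat 2),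 (123, .ofNat 2), (129, .ofNat 1)]) te) te) (tn (tn te (tl [(430, .ofNat 1)])) (tn (tl [(418, .ofNat 1), (420, .ofNat 2), (421, .ofNat 2), (422, .ofNat 1)]) te))) (tn te (tn te (tn (tl [(427, .ofNat 1)]) te)))) (tn (tn (tn te (tn (tl [(393, .ofNat 2), (394, .ofNat 1), (396, .ofNat 2)]) te)) (tn (tn te (tl [(432, .ofNat 1), (433, .ofNat 2)])) te)) (tn (tn (tn (tl [(312, .ofNat 2), (314, .ofNat 1), (315, .ofNat 1), (316, .ofNat 1), (318, .ofNat 2), (319, .ofNat 1), (321, .ofNat 2), (322, .ofNat 2), (323, .ofNat 1), (324, .ofNat 2), (325, .ofNat 1)]) te) te) (tn te (tn (tl [(427, .ofNat 1)]) te)))))) (tn (tn (tn (tn te (tn (tn te (tl [(430, .ofNat 2)])) te)) te) (tn (tn (tn te (tn (tl [(392, .ofNat 1), (395, .ofNat 2), (396, .ofNat 1)]) te)) (tn (tn (tl [(386, .ofNat 2)]) (tl [(432, .ofNat 2)])) te)) (tn (tn (tn (tl [(292, .ofNat 2), (293, .ofNat 1), (294, .ofNat 1), (295, .ofNat 1), (296, .ofNat 2), (299, .ofNat 2), (300, .ofNat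 1), (301, .ofNat 1), (302, .ofNat 2), (303, .ofNat 2), (307, .ofNat 1), (309, .ofNat 2), (310, .ofNat 2)]) te) te) (tn te (tn (tl [(427, .ofNat 1)]) te))))) (tn (tn (tn te (tn (tn (tl [(386, .ofNat 1)]) (tl [(430, .ofNat 1), (431, .ofNat 2)])) (tn (tl [(423, .ofNat 1), (424, .ofNat 2), (425, .ofNat 1), (426, .ofNat 1)]) te))) te) (tn (tn (tn (tn (tl [(222, .ofNat 1), (223, .ofNat 1), (224, .ofNat 2), (226, .ofNat 2)]) te) (tn (tl [(398, .ofNat 2), (400, .ofNat 1), (401, .ofNat 2)]) te)) (tn (tn te (tl [(433, .ofNat 1)])) te)) (tn te (tn te (tn (tl [(427, .ofNat 2)]) te)))))))))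

def r10 : Tr SV := (tn (tn (tn (tn (tn (tn (tn (tn (tn (tl [(30, .ofNat 1), (32, .ofNat 2), (33, .ofNat 1)]) te) (tn (tl [(393, .ofNat 2), (394, .ofNat 1)]) te)) (tn (tn te (tl [(432, .ofNat 2), (433, .ofNat 1)])) (tn (tl [(420, .ofNat 1), (422, .ofNat 1)]) te))) (tn (tn te (tn (tl [(404, .ofNat 1), (406, .ofNat 2), (408, .ofNat 2)]) te)) (tn (tn (tl [(388, .ofNat 2), (389, .ofNat 1), (390, .ofNat 1), (391, .ofNat 1)]) te) te))) (tn (tn (tn (tn (tl [(202, .ofNat 1)]) (tl [(428, .ofNat 1), (429, .ofNat 2)])) (tn (tl [(397, .ofNat 1), (398, .ofNat 1), (399, .ofNat 2), (401, .ofNat 1)]) (tl [(434, .ofNat 1)]))) te) (tn (tn (tn (tl [(293, .ofNat 1), (296, .ofNat 1), (299, .ofNat 2), (300, .ofNat 1), (301, .ofNat 2), (303, .ofNat 2), (304, .ofNat 2), (305, .ofNat 2), (308, .ofNat 2), (309, .ofNat 2), (310, .ofNat 1)]) (tl [(430, .ofNat 2), (431, .ofNat 1)])) (tn (tl [(414, .ofNat 2), (415, .ofNat 1), (416, .ofNat 2), (417, .ofNat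 2)]) te)) (tn (tn (tl [(395, .ofNat 2), (396, .ofNat 1)]) te) te)))) (tn (tn (tn (tn (tn (tl [(119, .ofNat 1), (123, .ofNat 2)]) te) (tn (tl [(398, .ofNat 2), (399, .ofNat 1), (400, .ofNat 2)]) te)) te) (tn (tn (tn (tl [(258, .ofNat 2), (264, .ofNat 1)]) (tl [(430, .ofNat 2)])) (tn (tl [(409, .ofNat 1), (410, .ofNat 1), (411, .ofNat 2)]) te)) (tn te (tn (tl [(427, .ofNat 1)]) te)))) (tn (tn (tn (tn (tl [(220, .ofNat 2), (221, .ofNat 2), (222, .ofNat 2), (223, .ofNat 2), (224, .ofNat 2), (225, .ofNat 1)]) te) te) te) (tn (tn (tn (tl [(332, .ofNat 1)]) (tl [(433, .ofNat 1)])) (tn (tl [(415, .ofNat 2)]) te)) (tn (tn (tl [(392, .ofNat 1), (394, .ofNat 1), (395, .ofNat 1), (396, .ofNat 1)]) te) te))))) (tn (tn (tn (tn (tn te (tn (tl [(398, .ofNat 1)]) te)) (tn (tn te (tl [(432, .ofNat 2), (433, .ofNat 2)])) (tn (tl [(420, .ofNat 1), (421, .ofNat 1)]) te))) (tn (tn (tn (tl [(233, .ofNat 1), (234, .ofNat 2), (236, .ofNat 1), (237,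 .ofNat 1), (238, .ofNat 1), (242, .ofNat 2), (244, .ofNat 1), (247, .ofNat 1), (248, .ofNat 1), (252, .ofNat 2), (253, .ofNat 1), (254, .ofNat 1), (255, .ofNat 2)]) (tl [(430, .ofNat 1), (431, .ofNat 1)])) (tn (tl [(402, .ofNat 1), (403, .ofNat 1), (406, .ofNat 1), (408, .ofNat 2)]) te)) (tn (tn (tl [(387, .ofNat 1), (388, .ofNat 2), (389, .ofNat 1)]) te) te))) (tn (tn (tn (tn (tl [(213, .ofNat 2), (214, .ofNat 2), (215, .ofNat 2), (217, .ofNat 2)]) (tl [(428, .ofNat 1), (429, .ofNat 2)])) te) te) (tn (tn (tn (tl [(293, .ofNat 1), (294, .ofNat 2), (296, .ofNat 2), (297, .ofNat 1), (299, .ofNat 1), (300, .ofNat 1), (301, .ofNat 1), (304, .ofNat 2), (305, .ofNat 1), (306, .ofNat 1), (309, .ofNat 2), (310, .ofNat 2), (311, .ofNat 1)]) (tl [(430, .ofNat 1), (431, .ofNat 1)])) (tn (tl [(414, .ofNat 2), (415, .ofNat 1)]) te)) (tn (tn (tl [(392, .ofNat 1), (393, .ofNat 2), (395, .ofNat 1)]) te) te)))) (tn (tn (tn (tn (tn (tl [(157,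 .ofNat 1), (158, .ofNat 1), (163, .ofNat 2)]) (tl [(428, .ofNat 2), (429, .ofNat 1)])) (tn (tl [(397, .ofNat 2), (398, .ofNat 1), (399, .ofNat 1), (400, .ofNat 2), (401, .ofNat 1)]) te)) (tn (tn (tl [(386, .ofNat 2)]) te) te)) (tn (tn (tn (tl [(278, .ofNat 1), (279, .ofNat 1), (281, .ofNat 1), (283, .ofNat 2), (284, .ofNat 1), (286, .ofNat 1), (288, .ofNat 2), (289, .ofNat 1), (290, .ofNat 1), (291, .ofNat 2)]) (tl [(431, .ofNat 2)])) (tn (tl [(409, .ofNat 1), (410, .ofNat 1), (411, .ofNat 1), (412, .ofNat 1), (413, .ofNat 2)]) te)) te)) (tn (tn (tn (tn (tl [(227, .ofNat 1), (228, .ofNat 2), (229, .ofNat 2), (230, .ofNat 2), (231, .ofNat 2), (232, .ofNat 1)]) te) (tn (tl [(402, .ofNat 1), (403, .ofNat 1), (404, .ofNat 1), (405, .ofNat 2), (406, .ofNat 2), (407, .ofNat 2), (408, .ofNat 1)]) te)) (tn (tn (tl [(387, .ofNat 1), (390, .ofNat 2), (391, .ofNat 1)]) te) te)) (tn (tn (tn (tl [(338, .ofNat 2), (343, .ofNat 1)]) (tl [(433,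 .ofNat 2)])) (tn (tl [(419, .ofNat 2), (420, .ofNat 1)]) te)) (tn (tn (tl [(392, .ofNat 1), (393, .ofNat 1), (395, .ofNat 1)]) te) te)))))) (tn (tn (tn (tn (tn (tn (tn (tl [(45, .ofNat 2)]) (tl [(428, .ofNat 2)])) (tn (tl [(398, .ofNat 2), (399, .ofNat 1), (400, .ofNat 2), (401, .ofNat 1)]) te)) (tn (tn te (tl [(432, .ofNat 2), (433, .ofNat 2)])) (tn (tl [(420, .ofNat 2), (422, .ofNat 1)]) te))) (tn (tn (tn (tl [(234, .ofNat 2), (235, .ofNat 1), (239, .ofNat 2), (240, .ofNat 2), (241, .ofNat 2), (242, .ofNat 2), (243, .ofNat 1), (246, .ofNat 2), (247, .ofNat 1), (248, .ofNat 2), (249, .ofNat 2), (250, .ofNat 1), (251, .ofNat 1), (253, .ofNat 2), (254, .ofNat 1), (255, .ofNat 2)]) te) (tn (tl [(402, .ofNat 1), (403, .ofNat 1), (405, .ofNat 2), (406, .ofNat 1), (407, .ofNat 1), (408, .ofNat 1)]) te)) (tn (tn (tl [(387, .ofNat 1), (388, .ofNat 2), (389, .ofNat 2), (390, .ofNat 2)]) te) te))) (tn (tn (tn (tn te (tl [(428, .ofNat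 2), (429, .ofNat 1)])) te) te) (tn (tn (tn (tl [(292, .ofNat 2), (294, .ofNat 2), (295, .ofNat 1), (296, .ofNat 1), (297, .ofNat 1), (298, .ofNat 1), (299, .ofNat 2), (300, .ofNat 2), (301, .ofNat 1), (302, .ofNat 2), (303, .ofNat 1), (304, .ofNat 2), (305, .ofNat 2), (306, .ofNat 2), (307, .ofNat 2), (308, .ofNat 2), (309, .ofNat 1), (311, .ofNat 1)]) te) (tn (tl [(414, .ofNat 1), (415, .ofNat 2), (416, .ofNat 1), (417, .ofNat 1)]) te)) (tn (tn (tl [(392, .ofNat 1), (393, .ofNat 1), (396, .ofNat 2)]) te) te)))) (tn (tn (tn (tn (tn (tl [(149, .ofNat 1), (153, .ofNat 2), (155, .ofNat 1)]) te) (tn (tl [(397, .ofNat 2)]) te)) (tn (tn (tl [(386, .ofNat 2)]) te) te)) (tn (tn (tn (tl [(258, .ofNat 2), (259, .ofNat 2), (262, .ofNat 2), (263, .ofNat 1), (264, .ofNat 1), (265, .ofNat 1), (266, .ofNat 1), (267, .ofNat 1), (269, .ofNat 2), (270, .ofNat 2), (271, .ofNat 2), (272, .ofNat 1), (273, .ofNat 2), (274, .ofNat 1), (276, .ofNat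 2), (277, .ofNat 1)]) (tl [(430, .ofNat 2), (431, .ofNat 1)])) (tn (tl [(409, .ofNat 2), (411, .ofNat 2), (412, .ofNat 1)]) te)) te)) (tn (tn (tn (tn (tl [(227, .ofNat 1), (228, .ofNat 2), (229, .ofNat 1), (230, .ofNat 1), (231, .ofNat 2), (232, .ofNat 2)]) te) te) (tn (tn (tl [(387, .ofNat 1), (389, .ofNat 1), (390, .ofNat 1), (391, .ofNat 1)]) te) te)) (tn (tn (tn (tl [(341, .ofNat 1), (343, .ofNat 1), (350, .ofNat 2)]) (tl [(433, .ofNat 1)])) (tn (tl [(419, .ofNat 2), (420, .ofNat 2), (421, .ofNat 2), (422, .ofNat 1)]) te)) (tn (tn (tl [(393, .ofNat 1)]) te) te))))) (tn (tn (tn (tn (tn (tn (tl [(94, .ofNat 1), (98, .ofNat 2)]) (tl [(428, .ofNat 2), (429, .ofNat 2)])) (tn (tl [(398, .ofNat 1), (399, .ofNat 1), (400, .ofNat 2), (401, .ofNat 2)]) te)) (tn te (tn (tl [(418, .ofNat 2), (419, .ofNat 2), (420, .ofNat 1), (421, .ofNat 2)]) te))) (tn (tn (tn (tl [(233, .ofNat 1), (234, .ofNat 2), (236, .ofNat 1), (237, .ofNat 1),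 (238, .ofNat 2), (242, .ofNat 2), (244, .ofNat 1), (247, .ofNat 1), (248, .ofNat 1), (252, .ofNat 2), (253, .ofNat 1), (254, .ofNat 1), (255, .ofNat 2)]) (tl [(430, .ofNat 2)])) (tn (tl [(402, .ofNat 2), (405, .ofNat 2), (407, .ofNat 2)]) te)) (tn te (tn (tl [(427, .ofNat 1)]) te)))) (tn te (tn (tn (tn (tl [(292, .ofNat 2), (293, .ofNat 2), (294, .ofNat 1), (296, .ofNat 1), (297, .ofNat 2), (298, .ofNat 2), (299, .ofNat 2), (300, .ofNat 2), (303, .ofNat 2), (305, .ofNat 1), (306, .ofNat 2), (307, .ofNat 1), (308, .ofNat 1), (309, .ofNat 2), (310, .ofNat 1), (311, .ofNat 2)]) (tl [(430, .ofNat 2), (431, .ofNat 2)])) (tn (tl [(414, .ofNat 2), (415, .ofNat 1), (417, .ofNat 1)]) te)) (tn (tn (tl [(396, .ofNat 2)]) te) te)))) (tn (tn (tn (tn (tn (tl [(176, .ofNat 1), (177, .ofNat 1), (182, .ofNat 2)]) (tl [(428, .ofNat 1)])) (tn (tl [(401, .ofNat 2)]) (tl [(434, .ofNat 1)]))) (tn (tn (tl [(386, .ofNat 2)]) te) te)) (tn (tn (tn (tl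 [(281, .ofNat 1), (282, .ofNat 1), (283, .ofNat 1), (284, .ofNat 2), (286, .ofNat 1), (287, .ofNat 1), (288, .ofNat 1), (290, .ofNat 2)]) (tl [(430, .ofNat 1)])) (tn (tl [(410, .ofNat 2), (412, .ofNat 2)]) te)) te)) (tn (tn (tn te (tn (tl [(403, .ofNat 1), (404, .ofNat 2), (405, .ofNat 1), (408, .ofNat 1)]) te)) (tn (tn (tl [(387, .ofNat 2), (388, .ofNat 2), (389, .ofNat 1), (390, .ofNat 2)]) te) te)) (tn (tn (tn (tl [(365, .ofNat 1), (366, .ofNat 1), (368, .ofNat 2), (369, .ofNat 2), (370, .ofNat 2), (374, .ofNat 1)]) (tl [(433, .ofNat 1)])) (tn (tl [(419, .ofNat 1), (420, .ofNat 1), (421, .ofNat 1), (422, .ofNat 2)]) te)) (tn (tn (tl [(392, .ofNat 2), (393, .ofNat 1), (394, .ofNat 2), (396, .ofNat 2)]) te) te))))))) (tn (tn (tn (tn (tn (tn (tn (tn (tl [(36, .ofNat 2)]) te) (tn (tl [(392, .ofNat 1), (393, .ofNat 1), (394, .ofNat 2), (396, .ofNat 2)]) te)) (tn (tn te (tl [(432, .ofNat 2), (433, .ofNat 2)])) (tn (tl [(419, .ofNat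 1), (420, .ofNat 2), (422, .ofNat 1)]) te))) (tn (tn te (tn (tl [(403, .ofNat 1), (404, .ofNat 1), (405, .ofNat 1), (406, .ofNat 1), (407, .ofNat 1), (408, .ofNat 1)]) te)) (tn (tn (tl [(387, .ofNat 2), (388, .ofNat 1), (390, .ofNat 1), (391, .ofNat 1)]) te) te))) (tn (tn (tn (tn te (tl [(428, .ofNat 2), (429, .ofNat 2)])) te) te) (tn (tn (tn (tl [(293, .ofNat 1), (294, .ofNat 1), (295, .ofNat 1), (296, .ofNat 2), (299, .ofNat 1), (301, .ofNat 2), (303, .ofNat 2), (304, .ofNat 2), (305, .ofNat 1), (306, .ofNat 2), (307, .ofNat 2), (309, .ofNat 1)]) (tl [(431, .ofNat 2)])) (tn (tl [(414, .ofNat 1), (415, .ofNat 1), (416, .ofNat 2), (417, .ofNat 2)]) te)) (tn (tn (tl [(393, .ofNat 1), (394, .ofNat 1)]) te) te)))) (tn (tn (tn (tn (tn (tl [(118, .ofNat 1), (123, .ofNat 2)]) (tl [(428, .ofNat 2)])) (tn (tl [(397, .ofNat 2), (398, .ofNat 2), (400, .ofNat 1), (401, .ofNat 1)]) te)) te) (tn (tn (tn (tl [(258, .ofNat 1), (261, .ofNat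 2), (262, .ofNat 1), (263, .ofNat 2), (264, .ofNat 2), (265, .ofNat 2), (267, .ofNat 1), (271, .ofNat 1), (273, .ofNat 1), (277, .ofNat 1)]) (tl [(431, .ofNat 2)])) (tn (tl [(409, .ofNat 1), (411, .ofNat 2), (412, .ofNat 2)]) te)) te)) (tn (tn (tn (tn (tl [(220, .ofNat 2), (222, .ofNat 2), (223, .ofNat 2), (224, .ofNat 2), (226, .ofNat 1)]) te) te) te) (tn (tn (tn (tl [(328, .ofNat 2), (329, .ofNat 1), (331, .ofNat 1)]) (tl [(432, .ofNat 1), (433, .ofNat 2)])) (tn (tl [(414, .ofNat 1), (415, .ofNat 2), (416, .ofNat 1)]) te)) (tn (tn (tl [(394, .ofNat 2), (395, .ofNat 2), (396, .ofNat 2)]) te) te))))) (tn (tn (tn (tn (tn (tn (tl [(79, .ofNat 1), (83, .ofNat 1), (85, .ofNat 2), (89, .ofNat 1)]) (tl [(429, .ofNat 2)])) (tn (tl [(398, .ofNat 1), (399, .ofNat 2), (400, .ofNat 1), (401, .ofNat 2)]) te)) (tn (tn te (tl [(432, .ofNat 1)])) (tn (tl [(420, .ofNat 2), (422, .ofNat 1)]) te))) (tn (tn (tn (tl [(234, .ofNat 1), (236, .ofNat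 2), (237, .ofNat 2), (238, .ofNat 2), (242, .ofNat 1), (243, .ofNat 2), (244, .ofNat 2), (246, .ofNat 1), (247, .ofNat 2), (248, .ofNat 2), (252, .ofNat 1), (253, .ofNat 2), (254, .ofNat 2), (255, .ofNat 1), (257, .ofNat 1)]) (tl [(430, .ofNat 1)])) (tn (tl [(402, .ofNat 1), (403, .ofNat 2), (404, .ofNat 1), (406, .ofNat 2), (407, .ofNat 1)]) te)) (tn te (tn (tl [(427, .ofNat 1)]) te)))) (tn (tn (tn (tn te (tl [(428, .ofNat 2)])) te) te) (tn (tn (tn (tl [(292, .ofNat 1), (293, .ofNat 2), (294, .ofNat 1), (295, .ofNat 1), (296, .ofNat 2), (297, .ofNat 1), (298, .ofNat 2), (302, .ofNat 1), (304, .ofNat 2), (306, .ofNat 2), (308, .ofNat 2), (309, .ofNat 1), (310, .ofNat 2), (311, .ofNat 1)]) (tl [(431, .ofNat 1)])) (tn (tl [(414, .ofNat 1), (415, .ofNat 1), (416, .ofNat 1), (417, .ofNat 2)]) te)) (tn (tn (tl [(392, .ofNat 1), (393, .ofNat 2), (394, .ofNat 1), (395, .ofNat 2), (396, .ofNat 1)]) te) te)))) (tn (tn (tn (tn (tn te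 (tl [(429, .ofNat 1)])) (tn (tl [(397, .ofNat 1), (399, .ofNat 1)]) (tl [(434, .ofNat 1)]))) te) (tn (tn (tn (tl [(279, .ofNat 2), (280, .ofNat 1), (283, .ofNat 1), (284, .ofNat 2), (285, .ofNat 1), (286, .ofNat 2), (287, .ofNat 2), (288, .ofNat 1)]) (tl [(430, .ofNat 2), (431, .ofNat 2)])) (tn (tl [(410, .ofNat 2), (411, .ofNat 1), (413, .ofNat 2)]) te)) te)) (tn (tn (tn (tn (tl [(227, .ofNat 2), (229, .ofNat 2), (230, .ofNat 1), (232, .ofNat 2)]) te) (tn (tl [(402, .ofNat 2), (403, .ofNat 1), (404, .ofNat 2), (405, .ofNat 2), (406, .ofNat 2), (407, .ofNat 1)]) te)) (tn (tn (tl [(387, .ofNat 1), (388, .ofNat 2), (391, .ofNat 1)]) te) te)) (tn (tn (tn (tl [(365, .ofNat 1), (366, .ofNat 2), (368, .ofNat 1), (370, .ofNat 2), (373, .ofNat 2), (374, .ofNat 2)]) te) (tn (tl [(421, .ofNat 1), (422, .ofNat 2)]) te)) (tn (tn (tl [(393, .ofNat 1), (394, .ofNat 1), (395, .ofNat 2), (396, .ofNat 2)]) te) te)))))) (tn (tn (tn (tn (tn (tn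 (tn (tl [(56, .ofNat 1)]) (tl [(429, .ofNat 1)])) (tn (tl [(397, .ofNat 2), (399, .ofNat 1), (400, .ofNat 1)]) te)) (tn (tn te (tl [(432, .ofNat 2), (433, .ofNat 2)])) (tn (tl [(418, .ofNat 2), (419, .ofNat 2), (420, .ofNat 1), (421, .ofNat 2)]) te))) (tn (tn (tn (tl [(233, .ofNat 1), (235, .ofNat 2), (236, .ofNat 1), (238, .ofNat 2), (240, .ofNat 1), (241, .ofNat 1), (243, .ofNat 1), (244, .ofNat 1), (245, .ofNat 1), (246, .ofNat 2), (248, .ofNat 2), (249, .ofNat 2), (250, .ofNat 2), (251, .ofNat 2), (252, .ofNat 2), (253, .ofNat 2), (254, .ofNat 2), (255, .ofNat 1), (256, .ofNat 2), (257, .ofNat 1)]) te) (tn (tl [(402, .ofNat 2), (403, .ofNat 1), (404, .ofNat 2), (405, .ofNat 2), (406, .ofNat 1), (407, .ofNat 2)]) te)) (tn (tn (tl [(387, .ofNat 1), (388, .ofNat 1), (390, .ofNat 2), (391, .ofNat 2)]) te) (tn (tl [(427, .ofNat 1)]) te)))) (tn (tn (tn (tn (tl [(213, .ofNat 2), (214, .ofNat 2), (215, .ofNat 2), (216, .ofNat 2),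 (217, .ofNat 1)]) (tl [(428, .ofNat 2)])) (tn (tl [(400, .ofNat 1), (401, .ofNat 2)]) te)) te) (tn (tn (tn (tl [(292, .ofNat 1), (293, .ofNat 2), (294, .ofNat 1), (295, .ofNat 1), (296, .ofNat 2), (297, .ofNat 1), (298, .ofNat 2), (302, .ofNat 1), (304, .ofNat 2), (306, .ofNat 2), (308, .ofNat 2), (309, .ofNat 1), (310, .ofNat 2), (311, .ofNat 1)]) (tl [(430, .ofNat 1), (431, .ofNat 2)])) (tn (tl [(414, .ofNat 1), (415, .ofNat 2), (416, .ofNat 1)]) te)) (tn (tn (tl [(393, .ofNat 1)]) te) te)))) (tn (tn (tn (tn (tn (tl [(151, .ofNat 1)]) (tl [(428, .ofNat 2), (429, .ofNat 2)])) (tn (tl [(397, .ofNat 1), (399, .ofNat 2), (400, .ofNat 1), (401, .ofNat 2)]) te)) (tn (tn (tl [(386, .ofNat 2)]) te) te)) (tn (tn (tn (tl [(278, .ofNat 2), (280, .ofNat 1), (281, .ofNat 2), (284, .ofNat 1), (285, .ofNat 1), (286, .ofNat 2), (289, .ofNat 1)]) (tl [(431, .ofNat 1)])) (tn (tl [(410, .ofNat 1), (411, .ofNat 2), (412, .ofNat 2), (413, .ofNat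 2)]) te)) te)) (tn (tn (tn (tn (tl [(227, .ofNat 2), (228, .ofNat 1), (229, .ofNat 1), (231, .ofNat 2), (232, .ofNat 2)]) te) te) (tn (tn (tl [(387, .ofNat 2)]) te) te)) (tn (tn (tn (tl [(338, .ofNat 1), (342, .ofNat 1), (343, .ofNat 2)]) (tl [(432, .ofNat 1), (433, .ofNat 2)])) (tn (tl [(418, .ofNat 1), (419, .ofNat 1)]) te)) (tn (tn (tl [(392, .ofNat 1), (393, .ofNat 1), (394, .ofNat 2), (395, .ofNat 1), (396, .ofNat 2)]) te) te))))) (tn (tn (tn (tn (tn (tn (tl [(101, .ofNat 1), (105, .ofNat 1), (107, .ofNat 2), (111, .ofNat 1)]) (tl [(428, .ofNat 1)])) (tn (tl [(398, .ofNat 2), (399, .ofNat 2), (400, .ofNat 2), (401, .ofNat 2)]) te)) (tn te (tn (tl [(418, .ofNat 1), (422, .ofNat 2)]) te))) (tn (tn (tn (tl [(258, .ofNat 2), (263, .ofNat 2), (265, .ofNat 1), (266, .ofNat 1), (267, .ofNat 1), (268, .ofNat 1), (269, .ofNat 1), (271, .ofNat 1), (272, .ofNat 2), (273, .ofNat 2), (274, .ofNat 1), (275, .ofNat 1), (276, .ofNat 1),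 (277, .ofNat 1)]) (tl [(431, .ofNat 1)])) (tn (tl [(410, .ofNat 2), (411, .ofNat 1), (412, .ofNat 1), (413, .ofNat 2)]) te)) (tn te (tn (tl [(427, .ofNat 1)]) te)))) (tn (tn (tn (tn (tl [(220, .ofNat 1), (221, .ofNat 2), (222, .ofNat 2), (223, .ofNat 1), (224, .ofNat 1), (225, .ofNat 2), (226, .ofNat 1)]) te) te) te) (tn (tn (tn (tl [(330, .ofNat 1), (334, .ofNat 2), (337, .ofNat 1)]) (tl [(430, .ofNat 2), (431, .ofNat 1)])) (tn (tl [(415, .ofNat 1), (417, .ofNat 2)]) te)) (tn (tn (tl [(392, .ofNat 1), (394, .ofNat 1), (395, .ofNat 2), (396, .ofNat 2)]) te) te)))) (tn (tn (tn (tn (tn te (tl [(429, .ofNat 1)])) (tn (tl [(397, .ofNat 2), (398, .ofNat 2), (400, .ofNat 1), (401, .ofNat 1)]) (tl [(434, .ofNat 1)]))) te) (tn (tn (tn (tl [(278, .ofNat 1), (279, .ofNat 1), (280, .ofNat 1), (282, .ofNat 1), (284, .ofNat 1), (286, .ofNat 1), (288, .ofNat 1), (290, .ofNat 2)]) (tl [(430, .ofNat 2), (431, .ofNat 1)])) (tn (tl [(415, .ofNat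 2), (417, .ofNat 2)]) te)) te)) (tn (tn (tn te (tn (tl [(402, .ofNat 2), (403, .ofNat 2), (405, .ofNat 2), (408, .ofNat 2)]) te)) (tn (tn (tl [(387, .ofNat 1), (388, .ofNat 1), (389, .ofNat 2), (390, .ofNat 2), (391, .ofNat 2)]) te) te)) (tn (tn (tn (tl [(364, .ofNat 2), (365, .ofNat 1), (366, .ofNat 2), (367, .ofNat 2), (368, .ofNat 2), (369, .ofNat 1), (370, .ofNat 1), (371, .ofNat 1), (372, .ofNat 2), (373, .ofNat 2)]) (tl [(433, .ofNat 2)])) (tn (tl [(418, .ofNat 2), (419, .ofNat 1)]) te)) (tn (tn (tl [(392, .ofNat 2), (393, .ofNat 1), (394, .ofNat 1), (395, .ofNat 2)]) te) te))))))))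

def r11 : Tr SV := (tn (tn (tn (tn (tn (tn (tn (tn (tn (tl [(31, .ofNat 1), (32, .ofNat 1), (33, .ofNat 2)]) te) (tn (tl [(392, .ofNat 2), (394, .ofNat 2)]) te)) (tn te (tn (tl [(418, .ofNat 1), (419, .ofNat 1), (421, .ofNat 1), (422, .ofNat 2)]) te))) (tn (tn te (tn (tl [(402, .ofNat 1), (403, .ofNat 2), (404, .ofNat 1), (405, .ofNat 1), (406, .ofNat 2), (407, .ofNat 1), (408, .ofNat 2)]) te)) (tn (tn (tl [(387, .ofNat 2), (389, .ofNat 2), (390, .ofNat 1), (391, .ofNat 2)]) te) te))) (tn (tn (tn (tn (tl [(203, .ofNat 1)]) te) (tn (tl [(397, .ofNat 1), (399, .ofNat 1), (400, .ofNat 1), (401, .ofNat 2)]) te)) te) (tn (tn (tn (tl [(292, .ofNat 1), (294, .ofNat 2), (295, .ofNat 2), (296, .ofNat 2), (297, .ofNat 2), (298, .ofNat 1), (299, .ofNat 2), (300, .ofNat 1), (301, .ofNat 1), (302, .ofNat 2), (303, .ofNat 2), (304, .ofNat 2), (305, .ofNat 2), (306, .ofNat 1), (309, .ofNat 2), (310, .ofNat 2), (311, .ofNat 1)]) (tl [(431,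 .ofNat 2)])) (tn (tl [(415, .ofNat 1), (416, .ofNat 1), (417, .ofNat 1)]) te)) (tn (tn (tl [(392, .ofNat 1), (394, .ofNat 1), (395, .ofNat 2), (396, .ofNat 1)]) te) te)))) (tn (tn (tn (tn (tn (tl [(112, .ofNat 1), (115, .ofNat 1), (119, .ofNat 2), (123, .ofNat 1)]) (tl [(428, .ofNat 1), (429, .ofNat 2)])) (tn (tl [(397, .ofNat 1), (398, .ofNat 1), (399, .ofNat 2), (400, .ofNat 2), (401, .ofNat 1)]) te)) te) (tn (tn (tn (tl [(258, .ofNat 1), (261, .ofNat 1), (262, .ofNat 1), (263, .ofNat 1), (264, .ofNat 2), (265, .ofNat 2), (266, .ofNat 2), (267, .ofNat 1), (268, .ofNat 1), (269, .ofNat 2), (270, .ofNat 1), (272, .ofNat 1), (273, .ofNat 2), (274, .ofNat 1), (275, .ofNat 2)]) (tl [(430, .ofNat 2), (431, .ofNat 2)])) (tn (tl [(411, .ofNat 2), (412, .ofNat 1), (413, .ofNat 2)]) te)) (tn te (tn (tl [(427, .ofNat 1)]) te)))) (tn (tn (tn (tn (tl [(221, .ofNat 1), (222, .ofNat 1), (223, .ofNat 2), (224, .ofNat 1), (225, .ofNat 1),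 (226, .ofNat 2)]) te) te) te) (tn (tn (tn (tl [(332, .ofNat 2), (334, .ofNat 1)]) (tl [(432, .ofNat 2)])) (tn (tl [(414, .ofNat 1), (415, .ofNat 1), (416, .ofNat 2), (417, .ofNat 1)]) te)) (tn (tn (tl [(392, .ofNat 1), (394, .ofNat 1), (395, .ofNat 2)]) te) te))))) (tn (tn (tn (tn (tn (tn te (tl [(429, .ofNat 1)])) (tn (tl [(397, .ofNat 2), (398, .ofNat 2), (399, .ofNat 2), (400, .ofNat 1), (401, .ofNat 1)]) te)) (tn (tn te (tl [(432, .ofNat 2)])) (tn (tl [(418, .ofNat 2), (419, .ofNat 2), (421, .ofNat 2)]) te))) (tn (tn (tn (tl [(233, .ofNat 2), (234, .ofNat 1), (235, .ofNat 1), (237, .ofNat 1), (238, .ofNat 2), (239, .ofNat 2), (242, .ofNat 1), (243, .ofNat 1), (245, .ofNat 2), (246, .ofNat 2), (247, .ofNat 1), (249, .ofNat 2), (250, .ofNat 2), (251, .ofNat 1), (257, .ofNat 2)]) (tl [(430, .ofNat 2)])) (tn (tl [(402, .ofNat 2), (403, .ofNat 1), (404, .ofNat 1), (405, .ofNat 1), (406, .ofNat 1)]) te)) (tn (tn (tl [(387, .ofNat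 2), (388, .ofNat 2), (389, .ofNat 1), (390, .ofNat 1), (391, .ofNat 2)]) te) te))) (tn (tn (tn (tn (tl [(214, .ofNat 2), (217, .ofNat 2), (219, .ofNat 2)]) (tl [(428, .ofNat 1)])) te) te) (tn (tn (tn (tl [(292, .ofNat 1), (294, .ofNat 2), (295, .ofNat 2), (296, .ofNat 2), (297, .ofNat 2), (299, .ofNat 1), (300, .ofNat 1), (301, .ofNat 1), (302, .ofNat 2), (303, .ofNat 2), (304, .ofNat 1), (306, .ofNat 2), (307, .ofNat 2), (309, .ofNat 1)]) (tl [(431, .ofNat 1)])) (tn (tl [(414, .ofNat 1), (415, .ofNat 1), (416, .ofNat 2), (417, .ofNat 1)]) te)) (tn (tn (tl [(392, .ofNat 1), (393, .ofNat 2), (394, .ofNat 1), (395, .ofNat 2), (396, .ofNat 1)]) te) te)))) (tn (tn (tn (tn (tn (tl [(158, .ofNat 2), (161, .ofNat 1), (163, .ofNat 1)]) (tl [(428, .ofNat 1)])) (tn (tl [(399, .ofNat 1), (400, .ofNat 1)]) te)) te) (tn (tn (tn (tl [(278, .ofNat 1), (280, .ofNat 2), (281, .ofNat 2), (282, .ofNat 2), (283, .ofNat 1), (284, .ofNat 2), (285,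 .ofNat 2), (286, .ofNat 2), (287, .ofNat 2), (288, .ofNat 2), (290, .ofNat 1), (291, .ofNat 1)]) (tl [(430, .ofNat 2), (431, .ofNat 1)])) (tn (tl [(410, .ofNat 2), (411, .ofNat 1), (412, .ofNat 1), (413, .ofNat 1)]) te)) te)) (tn (tn (tn (tn (tl [(228, .ofNat 2), (229, .ofNat 1), (230, .ofNat 2), (231, .ofNat 1), (232, .ofNat 1)]) te) (tn (tl [(402, .ofNat 1), (403, .ofNat 1), (404, .ofNat 1), (405, .ofNat 1), (407, .ofNat 1), (408, .ofNat 2)]) te)) (tn (tn (tl [(387, .ofNat 1), (388, .ofNat 1), (390, .ofNat 2), (391, .ofNat 1)]) te) te)) (tn (tn (tn (tl [(338, .ofNat 1), (349, .ofNat 1)]) (tl [(432, .ofNat 1)])) (tn (tl [(418, .ofNat 2), (419, .ofNat 2), (421, .ofNat 2), (422, .ofNat 1)]) te)) (tn (tn (tl [(393, .ofNat 1), (395, .ofNat 1)]) te) te)))))) (tn (tn (tn (tn (tn (tn (tn (tl [(44, .ofNat 1), (45, .ofNat 1)]) te) (tn (tl [(397, .ofNat 1), (398, .ofNat 1), (399, .ofNat 1), (400, .ofNat 2)]) te)) (tn (tn te (tl [(432,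 .ofNat 1), (433, .ofNat 1)])) (tn (tl [(419, .ofNat 2), (420, .ofNat 1), (421, .ofNat 2), (422, .ofNat 2)]) te))) (tn (tn (tn (tl [(239, .ofNat 1), (241, .ofNat 2), (243, .ofNat 1), (257, .ofNat 2)]) te) (tn (tl [(402, .ofNat 2), (403, .ofNat 1)]) te)) (tn (tn (tl [(388, .ofNat 1), (389, .ofNat 1), (390, .ofNat 1)]) te) te))) (tn (tn (tn (tn te (tl [(428, .ofNat 1)])) (tn (tl [(398, .ofNat 2), (399, .ofNat 2)]) te)) te) (tn (tn (tn (tl [(292, .ofNat 2), (293, .ofNat 2), (294, .ofNat 2), (295, .ofNat 2), (296, .ofNat 2), (297, .ofNat 1), (298, .ofNat 2), (299, .ofNat 2), (300, .ofNat 2), (301, .ofNat 1), (302, .ofNat 2), (303, .ofNat 2), (304, .ofNat 1), (305, .ofNat 1), (307, .ofNat 2), (308, .ofNat 1), (309, .ofNat 2), (310, .ofNat 1), (311, .ofNat 2)]) (tl [(430, .ofNat 2), (431, .ofNat 2)])) (tn (tl [(414, .ofNat 1), (416, .ofNat 1), (417, .ofNat 2)]) te)) (tn (tn (tl [(392, .ofNat 2), (394, .ofNat 1), (395, .ofNat 1)])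 te) te)))) (tn (tn (tn (tn (tn (tl [(152, .ofNat 1), (153, .ofNat 1), (155, .ofNat 2)]) te) (tn (tl [(397, .ofNat 2), (399, .ofNat 1), (401, .ofNat 2)]) te)) (tn (tn (tl [(386, .ofNat 1)]) te) te)) (tn (tn (tn (tl [(260, .ofNat 2), (261, .ofNat 2), (262, .ofNat 1), (263, .ofNat 2), (265, .ofNat 1), (266, .ofNat 2), (268, .ofNat 1), (269, .ofNat 1), (270, .ofNat 1), (271, .ofNat 2), (272, .ofNat 1), (273, .ofNat 1), (274, .ofNat 1), (275, .ofNat 2), (277, .ofNat 2)]) (tl [(430, .ofNat 2), (431, .ofNat 1)])) (tn (tl [(409, .ofNat 2), (411, .ofNat 2), (412, .ofNat 2)]) te)) te)) (tn (tn (tn (tn (tl [(227, .ofNat 1), (232, .ofNat 1)]) te) te) (tn (tn (tl [(387, .ofNat 2), (388, .ofNat 2), (389, .ofNat 1), (390, .ofNat 1)]) te) te)) (tn (tn (tn (tl [(343, .ofNat 2), (347, .ofNat 1), (350, .ofNat 1)]) (tl [(433, .ofNat 2)])) (tn (tl [(419, .ofNat 1), (422, .ofNat 1)]) te)) (tn (tn (tl [(394, .ofNat 1), (396, .ofNat 1)]) te) te)))))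 (tn (tn (tn (tn (tn (tn (tl [(90, .ofNat 1), (92, .ofNat 1), (94, .ofNat 2), (98, .ofNat 1)]) (tl [(428, .ofNat 2), (429, .ofNat 1)])) (tn (tl [(397, .ofNat 2), (399, .ofNat 2), (400, .ofNat 2), (401, .ofNat 1)]) te)) (tn te (tn (tl [(421, .ofNat 2), (422, .ofNat 1)]) te))) (tn (tn (tn (tl [(233, .ofNat 2), (234, .ofNat 2), (236, .ofNat 2), (237, .ofNat 2), (238, .ofNat 1), (242, .ofNat 1), (243, .ofNat 1), (244, .ofNat 2), (247, .ofNat 2), (248, .ofNat 2), (252, .ofNat 1), (253, .ofNat 2), (254, .ofNat 2), (255, .ofNat 1)]) te) (tn (tl [(402, .ofNat 2), (404, .ofNat 1), (406, .ofNat 1), (407, .ofNat 2), (408, .ofNat 2)]) te)) (tn te (tn (tl [(427, .ofNat 2)]) te)))) (tn te (tn (tn (tn (tl [(292, .ofNat 1), (293, .ofNat 2), (294, .ofNat 2), (296, .ofNat 1), (297, .ofNat 2), (298, .ofNat 2), (299, .ofNat 1), (300, .ofNat 2), (301, .ofNat 1), (302, .ofNat 2), (303, .ofNat 1), (306, .ofNat 2), (308, .ofNat 2), (310, .ofNat 1),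 (311, .ofNat 1)]) (tl [(430, .ofNat 1)])) (tn (tl [(414, .ofNat 2), (415, .ofNat 1)]) te)) (tn (tn (tl [(392, .ofNat 2), (393, .ofNat 1), (394, .ofNat 1), (395, .ofNat 2)]) te) te)))) (tn (tn (tn (tn (tn (tl [(177, .ofNat 2), (180, .ofNat 1), (182, .ofNat 1)]) (tl [(429, .ofNat 1)])) (tn (tl [(399, .ofNat 2), (400, .ofNat 1)]) (tl [(434, .ofNat 2)]))) (tn (tn (tl [(386, .ofNat 2)]) te) te)) (tn (tn (tn (tl [(278, .ofNat 2), (279, .ofNat 2), (280, .ofNat 2), (282, .ofNat 2), (283, .ofNat 2), (286, .ofNat 1), (289, .ofNat 1)]) (tl [(430, .ofNat 2), (431, .ofNat 2)])) (tn (tl [(411, .ofNat 1), (412, .ofNat 2), (413, .ofNat 2)]) te)) te)) (tn (tn (tn te (tn (tl [(403, .ofNat 2), (406, .ofNat 2), (407, .ofNat 1), (408, .ofNat 2)]) te)) (tn (tn (tl [(387, .ofNat 2), (388, .ofNat 2), (390, .ofNat 2), (391, .ofNat 1)]) te) te)) (tn (tn (tn (tl [(364, .ofNat 2), (365, .ofNat 1), (366, .ofNat 2), (367, .ofNat 2), (369, .ofNat 1), (370,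 .ofNat 1), (371, .ofNat 1), (372, .ofNat 2), (373, .ofNat 2)]) (tl [(432, .ofNat 1), (433, .ofNat 1)])) (tn (tl [(418, .ofNat 1), (419, .ofNat 2), (420, .ofNat 1), (421, .ofNat 1)]) te)) (tn (tn (tl [(392, .ofNat 1), (394, .ofNat 2), (395, .ofNat 1), (396, .ofNat 2)]) te) te))))))) (tn (tn (tn (tn (tn (tn (tn (tn (tl [(35, .ofNat 1), (36, .ofNat 1)]) te) (tn (tl [(392, .ofNat 2), (394, .ofNat 1), (395, .ofNat 2)]) te)) (tn (tn te (tl [(432, .ofNat 2)])) (tn (tl [(421, .ofNat 2), (422, .ofNat 2)]) te))) (tn (tn te (tn (tl [(402, .ofNat 2), (403, .ofNat 2), (404, .ofNat 2), (407, .ofNat 2), (408, .ofNat 1)]) te)) (tn (tn (tl [(387, .ofNat 1), (388, .ofNat 1), (389, .ofNat 1), (390, .ofNat 1), (391, .ofNat 1)]) te) te))) (tn (tn (tn (tn te (tl [(428, .ofNat 1), (429, .ofNat 2)])) (tn (tl [(398, .ofNat 2), (399, .ofNat 2), (400, .ofNat 1), (401, .ofNat 2)]) (tl [(434, .ofNat 1)]))) te) (tn (tn (tn (tl [(293, .ofNat 2), (294, .ofNat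 1), (296, .ofNat 2), (298, .ofNat 2), (299, .ofNat 1), (303, .ofNat 1), (304, .ofNat 2), (305, .ofNat 1), (306, .ofNat 1), (311, .ofNat 2)]) (tl [(430, .ofNat 2)])) (tn (tl [(415, .ofNat 1), (416, .ofNat 2)]) te)) (tn (tn (tl [(393, .ofNat 2), (394, .ofNat 2), (396, .ofNat 2)]) te) te)))) (tn (tn (tn (tn (tn (tl [(112, .ofNat 1), (116, .ofNat 1), (118, .ofNat 2), (123, .ofNat 1)]) (tl [(429, .ofNat 2)])) (tn (tl [(397, .ofNat 1), (398, .ofNat 2), (399, .ofNat 2), (400, .ofNat 2), (401, .ofNat 2)]) te)) te) (tn (tn (tn (tl [(259, .ofNat 2), (260, .ofNat 2), (263, .ofNat 2), (264, .ofNat 1), (266, .ofNat 2), (268, .ofNat 1), (269, .ofNat 1), (270, .ofNat 1), (271, .ofNat 2), (272, .ofNat 1), (274, .ofNat 1), (275, .ofNat 1), (277, .ofNat 2)]) (tl [(430, .ofNat 2)])) (tn (tl [(409, .ofNat 1), (411, .ofNat 1), (413, .ofNat 1)]) te)) te)) (tn (tn (tn (tn (tl [(220, .ofNat 2), (222, .ofNat 2), (223, .ofNat 2), (224, .ofNat 2), (225,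 .ofNat 2)]) te) te) te) (tn (tn (tn (tl [(328, .ofNat 1), (329, .ofNat 2), (335, .ofNat 1)]) (tl [(432, .ofNat 1)])) (tn (tl [(414, .ofNat 2), (415, .ofNat 2), (416, .ofNat 2), (417, .ofNat 1)]) te)) (tn (tn (tl [(392, .ofNat 2), (393, .ofNat 2), (394, .ofNat 2), (395, .ofNat 1), (396, .ofNat 1)]) te) te))))) (tn (tn (tn (tn (tn (tn (tl [(81, .ofNat 1), (83, .ofNat 2), (85, .ofNat 1), (89, .ofNat 2)]) (tl [(429, .ofNat 1)])) (tn (tl [(397, .ofNat 2), (398, .ofNat 2), (399, .ofNat 1), (400, .ofNat 2), (401, .ofNat 1)]) te)) (tn (tn te (tl [(432, .ofNat 2), (433, .ofNat 2)])) (tn (tl [(418, .ofNat 2), (419, .ofNat 1), (420, .ofNat 2), (421, .ofNat 2), (422, .ofNat 1)]) te))) (tn (tn (tn (tl [(233, .ofNat 1), (234, .ofNat 2), (236, .ofNat 1), (237, .ofNat 1), (238, .ofNat 1), (243, .ofNat 1), (244, .ofNat 1), (246, .ofNat 2), (247, .ofNat 1), (248, .ofNat 1), (252, .ofNat 2), (253, .ofNat 1), (254, .ofNat 1), (255, .ofNat 2),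 (257, .ofNat 2)]) (tl [(430, .ofNat 1)])) (tn (tl [(402, .ofNat 2), (403, .ofNat 2), (404, .ofNat 2), (405, .ofNat 2), (406, .ofNat 1)]) te)) (tn te (tn (tl [(427, .ofNat 2)]) te)))) (tn te (tn (tn (tn (tl [(292, .ofNat 2), (294, .ofNat 2), (295, .ofNat 2), (296, .ofNat 2), (299, .ofNat 2), (300, .ofNat 2), (301, .ofNat 1), (303, .ofNat 2), (307, .ofNat 1), (309, .ofNat 1), (310, .ofNat 2), (311, .ofNat 2)]) (tl [(431, .ofNat 2)])) (tn (tl [(414, .ofNat 1), (415, .ofNat 2)]) te)) (tn (tn (tl [(392, .ofNat 2), (393, .ofNat 2), (394, .ofNat 2), (395, .ofNat 2), (396, .ofNat 2)]) te) te)))) (tn (tn (tn (tn (tn (tl [(158, .ofNat 1), (162, .ofNat 1)]) (tl [(428, .ofNat 1), (429, .ofNat 1)])) te) te) (tn (tn (tn (tl [(278, .ofNat 2), (279, .ofNat 2), (281, .ofNat 2), (283, .ofNat 1), (285, .ofNat 1), (286, .ofNat 1)]) (tl [(430, .ofNat 1), (431, .ofNat 1)])) (tn (tl [(409, .ofNat 1), (410, .ofNat 1)]) te)) te)) (tn (tn (tn (tn (tl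 [(227, .ofNat 2), (228, .ofNat 1), (229, .ofNat 1), (230, .ofNat 1), (232, .ofNat 2)]) te) (tn (tl [(403, .ofNat 1), (404, .ofNat 1), (405, .ofNat 2), (406, .ofNat 2), (407, .ofNat 1)]) te)) (tn (tn (tl [(387, .ofNat 2), (389, .ofNat 2), (390, .ofNat 1), (391, .ofNat 1)]) te) te)) (tn (tn (tn (tl [(364, .ofNat 1), (366, .ofNat 2), (367, .ofNat 2), (368, .ofNat 1), (369, .ofNat 1), (370, .ofNat 1), (372, .ofNat 1), (373, .ofNat 1)]) (tl [(432, .ofNat 1), (433, .ofNat 2)])) (tn (tl [(418, .ofNat 1), (420, .ofNat 1), (421, .ofNat 1), (422, .ofNat 1)]) te)) (tn (tn (tl [(393, .ofNat 1), (394, .ofNat 2), (395, .ofNat 2), (396, .ofNat 2)]) te) te)))))) (tn (tn (tn (tn (tn (tn (tn (tl [(57, .ofNat 1)]) (tl [(428, .ofNat 2)])) (tn (tl [(397, .ofNat 1), (398, .ofNat 2), (399, .ofNat 2), (400, .ofNat 2)]) te)) (tn (tn te (tl [(433, .ofNat 1)])) (tn (tl [(418, .ofNat 2), (419, .ofNat 1), (420, .ofNat 2), (421, .ofNat 2), (422, .ofNat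 1)]) te))) (tn (tn (tn (tl [(233, .ofNat 1), (235, .ofNat 2), (237, .ofNat 2), (238, .ofNat 1), (239, .ofNat 1), (240, .ofNat 1), (241, .ofNat 1), (242, .ofNat 2), (243, .ofNat 2), (245, .ofNat 1), (246, .ofNat 1), (247, .ofNat 2), (250, .ofNat 1), (251, .ofNat 2), (252, .ofNat 1), (253, .ofNat 2), (257, .ofNat 1)]) te) (tn (tl [(403, .ofNat 1), (405, .ofNat 2), (406, .ofNat 2)]) te)) (tn (tn (tl [(387, .ofNat 2), (388, .ofNat 2), (389, .ofNat 1), (390, .ofNat 1)]) te) (tn (tl [(427, .ofNat 2)]) te)))) (tn (tn (tn (tn (tl [(213, .ofNat 1), (214, .ofNat 2), (215, .ofNat 2), (216, .ofNat 1), (218, .ofNat 2), (219, .ofNat 2)]) (tl [(428, .ofNat 1), (429, .ofNat 2)])) (tn (tl [(398, .ofNat 1), (400, .ofNat 2), (401, .ofNat 1)]) te)) te) (tn (tn (tn (tl [(292, .ofNat 2), (293, .ofNat 2), (294, .ofNat 1), (295, .ofNat 1), (297, .ofNat 2), (298, .ofNat 2), (299, .ofNat 2), (300, .ofNat 2), (301, .ofNat 2), (302, .ofNat 1), (303, .ofNat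 1), (305, .ofNat 2), (306, .ofNat 1), (307, .ofNat 1), (308, .ofNat 2), (309, .ofNat 2), (310, .ofNat 2), (311, .ofNat 1)]) (tl [(430, .ofNat 1)])) (tn (tl [(414, .ofNat 1), (415, .ofNat 2), (416, .ofNat 1), (417, .ofNat 2)]) te)) (tn (tn (tl [(392, .ofNat 2), (393, .ofNat 2), (396, .ofNat 2)]) te) te)))) (tn (tn (tn (tn (tn (tl [(150, .ofNat 1), (151, .ofNat 2), (153, .ofNat 1)]) (tl [(429, .ofNat 2)])) (tn (tl [(397, .ofNat 1), (398, .ofNat 2), (399, .ofNat 1), (401, .ofNat 1)]) te)) (tn (tn (tl [(386, .ofNat 2)]) te) te)) (tn (tn (tn (tl [(278, .ofNat 2), (279, .ofNat 2), (280, .ofNat 1), (281, .ofNat 1), (282, .ofNat 1), (284, .ofNat 2), (286, .ofNat 1), (288, .ofNat 2), (289, .ofNat 1), (290, .ofNat 1), (291, .ofNat 1)]) (tl [(431, .ofNat 2)])) (tn (tl [(413, .ofNat 1)]) te)) te)) (tn (tn (tn (tn (tl [(227, .ofNat 1), (228, .ofNat 2), (229, .ofNat 1), (230, .ofNat 1), (231, .ofNat 2), (232, .ofNat 2)]) te) te) (tn (tn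 (tl [(387, .ofNat 1), (388, .ofNat 2), (389, .ofNat 1), (391, .ofNat 2)]) te) te)) (tn (tn (tn (tl [(338, .ofNat 2), (343, .ofNat 1), (348, .ofNat 1)]) (tl [(432, .ofNat 1), (433, .ofNat 2)])) (tn (tl [(418, .ofNat 1), (419, .ofNat 1), (421, .ofNat 1)]) te)) (tn (tn (tl [(394, .ofNat 1), (395, .ofNat 2)]) te) te))))) (tn (tn (tn (tn (tn (tn (tl [(103, .ofNat 1), (105, .ofNat 2), (107, .ofNat 1), (111, .ofNat 2)]) (tl [(428, .ofNat 2)])) (tn (tl [(397, .ofNat 1), (399, .ofNat 2), (401, .ofNat 1)]) te)) (tn te (tn (tl [(420, .ofNat 2), (422, .ofNat 1)]) te))) (tn (tn (tn (tl [(259, .ofNat 2), (261, .ofNat 1), (262, .ofNat 1), (263, .ofNat 1), (264, .ofNat 2), (266, .ofNat 1), (268, .ofNat 1), (271, .ofNat 1), (272, .ofNat 2), (273, .ofNat 1), (274, .ofNat 2), (275, .ofNat 2), (277, .ofNat 1)]) (tl [(430, .ofNat 2), (431, .ofNat 1)])) (tn (tl [(409, .ofNat 1), (410, .ofNat 2), (411, .ofNat 2), (412, .ofNat 1)]) te)) (tn te (tn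 (tl [(427, .ofNat 2)]) te)))) (tn (tn (tn (tn (tl [(221, .ofNat 1), (225, .ofNat 1), (226, .ofNat 2)]) te) te) te) (tn (tn (tn (tl [(333, .ofNat 1), (334, .ofNat 1), (337, .ofNat 2)]) (tl [(430, .ofNat 2), (431, .ofNat 1)])) (tn (tl [(414, .ofNat 2), (417, .ofNat 2)]) te)) (tn (tn (tl [(393, .ofNat 2)]) te) te)))) (tn (tn (tn (tn (tn (tl [(177, .ofNat 1), (181, .ofNat 1)]) (tl [(429, .ofNat 1)])) (tn (tl [(397, .ofNat 2), (398, .ofNat 2), (399, .ofNat 2), (400, .ofNat 2), (401, .ofNat 1)]) (tl [(434, .ofNat 2)]))) te) (tn (tn (tn (tl [(280, .ofNat 2), (282, .ofNat 1), (284, .ofNat 2), (285, .ofNat 2), (286, .ofNat 1), (287, .ofNat 1), (288, .ofNat 2), (289, .ofNat 1), (290, .ofNat 2)]) (tl [(430, .ofNat 2), (431, .ofNat 1)])) (tn (tl [(417, .ofNat 1)]) te)) te)) (tn (tn (tn te (tn (tl [(402, .ofNat 1), (403, .ofNat 2), (404, .ofNat 1), (405, .ofNat 1), (406, .ofNat 2), (407, .ofNat 1), (408, .ofNat 1)]) te)) (tn (tn (tl [(388,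 .ofNat 2), (389, .ofNat 1), (391, .ofNat 1)]) te) te)) (tn (tn (tn (tl [(365, .ofNat 2), (366, .ofNat 2), (369, .ofNat 2), (370, .ofNat 2), (371, .ofNat 2)]) (tl [(432, .ofNat 1)])) (tn (tl [(418, .ofNat 1), (422, .ofNat 2)]) te)) (tn (tn (tl [(393, .ofNat 1), (394, .ofNat 1), (395, .ofNat 2), (396, .ofNat 1)]) te) te))))))))

def r12 : Tr SV := (tn (tn (tn (tn (tn (tn (tn (tn (tn (tl [(34, .ofNat 1), (36, .ofNat 2)]) (tl [(428, .ofNat 2)])) (tn (tl [(397, .ofNat 2), (400, .ofNat 1), (401, .ofNat 2)]) te)) (tn te (tn (tl [(423, .ofNat 1), (425, .ofNat 1)]) te))) (tn (tn (tn (tl [(233, .ofNat 1), (234, .ofNat 2), (235, .ofNat 2), (238, .ofNat 1), (239, .ofNat 1), (242, .ofNat 2), (243, .ofNat 2), (245, .ofNat 1), (246, .ofNat 1), (247, .ofNat 2), (249, .ofNat 1), (250, .ofNat 1), (251, .ofNat 2), (252, .ofNat 1), (253, .ofNat 2), (257, .ofNat 1)]) (tl [(430, .ofNat 1), (431, .ofNat 2)])) (tn (tl [(410, .ofNat 2), (411, .ofNat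 1), (412, .ofNat 1)]) te)) te)) (tn (tn (tn (tn (tl [(206, .ofNat 1)]) te) te) (tn (tn (tl [(389, .ofNat 1), (390, .ofNat 1), (391, .ofNat 1)]) te) te)) (tn (tn (tn (tl [(312, .ofNat 1), (313, .ofNat 1), (314, .ofNat 2), (315, .ofNat 1), (318, .ofNat 1), (319, .ofNat 2), (320, .ofNat 1), (323, .ofNat 1)]) (tl [(433, .ofNat 1)])) (tn (tl [(418, .ofNat 2), (420, .ofNat 2), (421, .ofNat 2)]) te)) (tn (tn (tl [(397, .ofNat 2), (399, .ofNat 1), (400, .ofNat 2), (401, .ofNat 2)]) te) (tn (tl [(429, .ofNat 2)]) te))))) (tn (tn (tn (tn (tn (tl [(130, .ofNat 1), (140, .ofNat 2), (145, .ofNat 1)]) te) (tn te (tl [(434, .ofNat 2)]))) (tn (tn (tl [(386, .ofNat 2)]) te) te)) (tn (tn (tn te (tl [(432, .ofNat 2)])) te) (tn (tn (tl [(392, .ofNat 1), (393, .ofNat 1), (395, .ofNat 1), (396, .ofNat 1)]) te) te))) (tn (tn (tn (tn (tl [(228, .ofNat 2), (230, .ofNat 2), (231, .ofNat 2), (232, .ofNat 1)]) (tl [(431, .ofNat 2)])) (tn (tl [(402, .ofNat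 2), (403, .ofNat 1), (405, .ofNat 2), (406, .ofNat 2), (408, .ofNat 2)]) te)) (tn (tn (tl [(387, .ofNat 1), (388, .ofNat 2), (389, .ofNat 1), (391, .ofNat 1)]) te) te)) (tn (tn (tn (tl [(338, .ofNat 1), (343, .ofNat 2), (345, .ofNat 1)]) te) (tn (tl [(419, .ofNat 1), (420, .ofNat 2), (421, .ofNat 2)]) te)) (tn (tn (tl [(397, .ofNat 1), (399, .ofNat 1), (400, .ofNat 1), (401, .ofNat 1)]) te) (tn (tl [(429, .ofNat 2)]) te)))))) (tn (tn (tn (tn (tn (tn (tl [(79, .ofNat 2), (80, .ofNat 1), (83, .ofNat 2), (85, .ofNat 1)]) te) te) (tn (tn (tl [(386, .ofNat 2)]) te) (tn (tl [(423, .ofNat 2), (426, .ofNat 2)]) te))) (tn (tn (tn (tl [(258, .ofNat 2), (259, .ofNat 1), (261, .ofNat 1), (263, .ofNat 1), (264, .ofNat 1), (265, .ofNat 1), (266, .ofNat 2), (269, .ofNat 2), (270, .ofNat 1), (271, .ofNat 2), (272, .ofNat 2), (273, .ofNat 2), (274, .ofNat 2), (276, .ofNat 1)]) (tl [(432, .ofNat 2), (433, .ofNat 1)])) (tn (tl [(412, .ofNat 2),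 (413, .ofNat 2)]) te)) te)) (tn (tn (tn te (tn (tl [(402, .ofNat 1), (403, .ofNat 2), (406, .ofNat 1), (407, .ofNat 1), (408, .ofNat 1)]) te)) (tn (tn (tl [(387, .ofNat 2), (390, .ofNat 1), (391, .ofNat 2)]) te) te)) (tn (tn (tn (tl [(312, .ofNat 2), (318, .ofNat 1), (319, .ofNat 1), (320, .ofNat 1), (322, .ofNat 2), (324, .ofNat 1), (325, .ofNat 1)]) (tl [(432, .ofNat 2), (433, .ofNat 1)])) (tn (tl [(418, .ofNat 2), (419, .ofNat 2), (420, .ofNat 2), (421, .ofNat 1), (422, .ofNat 1)]) te)) (tn (tn (tl [(397, .ofNat 2), (398, .ofNat 2), (399, .ofNat 1), (400, .ofNat 2), (401, .ofNat 2)]) te) te)))) (tn (tn (tn (tn (tn (tl [(168, .ofNat 1), (172, .ofNat 2), (174, .ofNat 1)]) te) te) te) (tn (tn (tn (tl [(295, .ofNat 2), (296, .ofNat 1), (297, .ofNat 2), (298, .ofNat 2), (301, .ofNat 2), (303, .ofNat 1), (304, .ofNat 2), (305, .ofNat 1), (307, .ofNat 1), (308, .ofNat 1), (310, .ofNat 1)]) (tl [(432, .ofNat 2), (433, .ofNat 2)]))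 te) (tn (tn (tl [(393, .ofNat 1), (394, .ofNat 2)]) te) (tn (tl [(428, .ofNat 2), (429, .ofNat 1)]) te)))) (tn (tn (tn (tn te (tl [(430, .ofNat 1), (431, .ofNat 2)])) (tn (tl [(410, .ofNat 1), (412, .ofNat 2), (413, .ofNat 2)]) te)) (tn te (tn (tl [(427, .ofNat 2)]) te))) (tn (tn (tn (tl [(355, .ofNat 2), (356, .ofNat 2), (357, .ofNat 2), (359, .ofNat 1), (361, .ofNat 1), (362, .ofNat 1), (363, .ofNat 2)]) te) (tn (tl [(424, .ofNat 2)]) te)) (tn (tn (tl [(397, .ofNat 1), (400, .ofNat 1)]) te) (tn (tl [(428, .ofNat 1)]) te))))))) (tn (tn (tn (tn (tn (tn (tn (tl [(48, .ofNat 1), (51, .ofNat 2), (54, .ofNat 1)]) te) te) (tn te (tn (tl [(423, .ofNat 1), (425, .ofNat 1)]) te))) (tn (tn (tn (tl [(258, .ofNat 2), (262, .ofNat 2), (263, .ofNat 2), (264, .ofNat 2), (265, .ofNat 1), (267, .ofNat 1), (268, .ofNat 2), (269, .ofNat 2), (270, .ofNat 2), (272, .ofNat 2), (273, .ofNat 1), (274, .ofNat 2), (277, .ofNat 2)]) (tl [(431, .ofNat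 1)])) (tn (tl [(409, .ofNat 1), (410, .ofNat 2), (411, .ofNat 1), (412, .ofNat 1)]) te)) te)) (tn (tn (tn (tn (tl [(213, .ofNat 1), (214, .ofNat 1), (215, .ofNat 1), (216, .ofNat 2), (217, .ofNat 1), (218, .ofNat 1), (219, .ofNat 2)]) te) te) (tn (tn (tl [(387, .ofNat 1), (389, .ofNat 2), (390, .ofNat 1), (391, .ofNat 1)]) te) te)) (tn (tn (tn (tl [(312, .ofNat 2), (313, .ofNat 1), (314, .ofNat 2), (315, .ofNat 2), (316, .ofNat 2), (317, .ofNat 1), (318, .ofNat 2), (321, .ofNat 2), (322, .ofNat 1), (323, .ofNat 1), (324, .ofNat 1)]) (tl [(432, .ofNat 1), (433, .ofNat 1)])) (tn (tl [(422, .ofNat 2)]) te)) (tn (tn (tl [(397, .ofNat 2), (399, .ofNat 2), (400, .ofNat 1)]) te) (tn (tl [(428, .ofNat 1)]) te))))) (tn (tn (tn (tn (tn (tl [(158, .ofNat 1), (159, .ofNat 1), (163, .ofNat 2)]) te) (tn te (tl [(434, .ofNat 1)]))) te) (tn (tn (tn te (tl [(432, .ofNat 1), (433, .ofNat 2)])) te) (tn (tn (tl [(392, .ofNat 2), (394, .ofNat 1),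 (395, .ofNat 2)]) te) (tn (tl [(428, .ofNat 2)]) te)))) (tn (tn (tn (tn te (tl [(430, .ofNat 1), (431, .ofNat 2)])) (tn (tl [(402, .ofNat 2), (403, .ofNat 1), (404, .ofNat 2), (405, .ofNat 2), (408, .ofNat 2)]) te)) te) (tn (tn (tn (tl [(356, .ofNat 1), (360, .ofNat 2), (363, .ofNat 1)]) te) (tn (tl [(423, .ofNat 2), (424, .ofNat 1)]) te)) (tn (tn (tl [(397, .ofNat 2), (400, .ofNat 2), (401, .ofNat 2)]) te) (tn (tl [(428, .ofNat 2), (429, .ofNat 2)]) te)))))) (tn (tn (tn (tn te (tn (tn (tl [(386, .ofNat 2)]) te) (tn (tl [(423, .ofNat 1), (424, .ofNat 1)]) te))) (tn (tn (tn (tl [(259, .ofNat 1), (260, .ofNat 2), (261, .ofNat 2), (263, .ofNat 2), (265, .ofNat 1), (266, .ofNat 1), (268, .ofNat 2), (271, .ofNat 2), (273, .ofNat 1), (274, .ofNat 2), (276, .ofNat 2), (277, .ofNat 2)]) (tl [(433, .ofNat 1)])) (tn (tl [(411, .ofNat 1), (412, .ofNat 2)]) te)) (tn (tn (tl [(392, .ofNat 1), (393, .ofNat 2), (395, .ofNat 2)]) te) te)))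 (tn (tn (tn (tn (tl [(220, .ofNat 1), (221, .ofNat 1), (222, .ofNat 2), (223, .ofNat 2), (224, .ofNat 1), (225, .ofNat 1), (226, .ofNat 1)]) (tl [(431, .ofNat 2)])) (tn (tl [(403, .ofNat 1), (404, .ofNat 2), (406, .ofNat 2), (407, .ofNat 1)]) te)) (tn (tn (tl [(388, .ofNat 1), (389, .ofNat 2), (390, .ofNat 2), (391, .ofNat 1)]) te) te)) (tn (tn (tn (tl [(312, .ofNat 1), (313, .ofNat 2), (314, .ofNat 1), (315, .ofNat 2), (316, .ofNat 1), (317, .ofNat 2), (319, .ofNat 2), (320, .ofNat 1), (321, .ofNat 2), (325, .ofNat 2)]) (tl [(432, .ofNat 2)])) (tn (tl [(418, .ofNat 1), (419, .ofNat 1), (421, .ofNat 2), (422, .ofNat 2)]) te)) (tn (tn (tl [(397, .ofNat 2), (398, .ofNat 2), (400, .ofNat 2)]) te) (tn (tl [(428, .ofNat 1), (429, .ofNat 2)]) te))))) (tn (tn (tn (tn (tn (tl [(188, .ofNat 1), (194, .ofNat 2), (199, .ofNat 1)]) te) te) te) (tn (tn (tn (tl [(293, .ofNat 2), (294, .ofNat 1), (295, .ofNat 2), (298, .ofNat 2), (299, .ofNat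 1), (301, .ofNat 2), (302, .ofNat 2), (303, .ofNat 1), (304, .ofNat 1), (305, .ofNat 1), (306, .ofNat 2), (307, .ofNat 1), (308, .ofNat 2), (310, .ofNat 1), (311, .ofNat 1)]) (tl [(433, .ofNat 2)])) te) (tn (tn (tl [(395, .ofNat 1), (396, .ofNat 1)]) te) (tn (tl [(428, .ofNat 2), (429, .ofNat 2)]) te)))) (tn (tn (tn (tn (tl [(234, .ofNat 2), (235, .ofNat 2), (236, .ofNat 1), (237, .ofNat 2), (239, .ofNat 2), (241, .ofNat 2), (243, .ofNat 1), (244, .ofNat 1), (245, .ofNat 2), (246, .ofNat 1), (247, .ofNat 2), (248, .ofNat 1), (250, .ofNat 2), (251, .ofNat 1), (252, .ofNat 2), (253, .ofNat 1), (254, .ofNat 1), (255, .ofNat 2), (257, .ofNat 2)]) (tl [(430, .ofNat 2), (431, .ofNat 1)])) (tn (tl [(409, .ofNat 2), (410, .ofNat 2), (411, .ofNat 2), (412, .ofNat 2), (413, .ofNat 1)]) te)) te) (tn (tn (tn (tl [(377, .ofNat 1)]) te) (tn (tl [(424, .ofNat 1), (425, .ofNat 2)]) te)) (tn (tn (tl [(397, .ofNat 1), (398, .ofNat 2), (400,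 .ofNat 1), (401, .ofNat 2)]) te) (tn (tl [(428, .ofNat 2), (429, .ofNat 1)]) te)))))))) (tn (tn (tn (tn (tn (tn (tn (tn (tl [(39, .ofNat 1), (41, .ofNat 2), (42, .ofNat 1)]) (tl [(428, .ofNat 1), (429, .ofNat 1)])) (tn (tl [(397, .ofNat 1), (398, .ofNat 1), (399, .ofNat 1)]) te)) (tn te (tn (tl [(423, .ofNat 2), (424, .ofNat 1), (425, .ofNat 1), (426, .ofNat 2)]) te))) (tn (tn (tn (tl [(235, .ofNat 2), (236, .ofNat 2), (237, .ofNat 2), (239, .ofNat 1), (241, .ofNat 1), (243, .ofNat 2), (244, .ofNat 2), (245, .ofNat 1), (246, .ofNat 1), (247, .ofNat 1), (248, .ofNat 2), (249, .ofNat 1), (250, .ofNat 1), (251, .ofNat 2), (252, .ofNat 1), (253, .ofNat 2), (254, .ofNat 2), (255, .ofNat 1), (257, .ofNat 1)]) (tl [(430, .ofNat 1), (431, .ofNat 2)])) (tn (tl [(409, .ofNat 2), (410, .ofNat 1), (411, .ofNat 2), (413, .ofNat 1)]) te)) (tn te (tn (tl [(427, .ofNat 2)]) te)))) (tn (tn (tn (tn (tl [(215, .ofNat 1), (216, .ofNat 2)]) te)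 te) (tn (tn (tl [(388, .ofNat 2), (389, .ofNat 1), (390, .ofNat 2), (391, .ofNat 1)]) te) te)) (tn (tn (tn (tl [(314, .ofNat 2), (315, .ofNat 2), (316, .ofNat 2), (317, .ofNat 1), (318, .ofNat 1), (320, .ofNat 1), (322, .ofNat 1), (323, .ofNat 2), (325, .ofNat 1)]) (tl [(432, .ofNat 2), (433, .ofNat 2)])) (tn (tl [(418, .ofNat 2), (419, .ofNat 1), (420, .ofNat 1), (421, .ofNat 2)]) te)) (tn (tn (tl [(397, .ofNat 1), (398, .ofNat 1), (399, .ofNat 2), (400, .ofNat 2)]) te) (tn (tl [(429, .ofNat 2)]) te))))) (tn (tn (tn (tn (tn (tl [(131, .ofNat 1), (137, .ofNat 1), (139, .ofNat 2), (140, .ofNat 2), (146, .ofNat 1)]) te) (tn te (tl [(434, .ofNat 2)]))) te) (tn (tn (tn te (tl [(432, .ofNat 2), (433, .ofNat 2)])) te) (tn (tn (tl [(392, .ofNat 2), (394, .ofNat 2), (395, .ofNat 1), (396, .ofNat 1)]) te) (tn (tl [(428, .ofNat 1), (429, .ofNat 1)]) te)))) (tn (tn (tn (tn (tl [(227, .ofNat 1), (228, .ofNat 2), (230, .ofNat 1), (231,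 .ofNat 1)]) (tl [(430, .ofNat 2)])) (tn (tl [(402, .ofNat 1), (403, .ofNat 2), (404, .ofNat 1), (405, .ofNat 1), (406, .ofNat 2), (407, .ofNat 1)]) te)) (tn (tn (tl [(387, .ofNat 1), (390, .ofNat 2)]) te) te)) (tn (tn (tn (tl [(338, .ofNat 2), (346, .ofNat 1)]) te) (tn (tl [(419, .ofNat 2), (420, .ofNat 2), (421, .ofNat 1), (422, .ofNat 2)]) te)) (tn (tn (tl [(397, .ofNat 2), (398, .ofNat 1), (399, .ofNat 1), (400, .ofNat 1), (401, .ofNat 1)]) te) (tn (tl [(429, .ofNat 1)]) te)))))) (tn (tn (tn (tn (tn (tn (tl [(90, .ofNat 2), (91, .ofNat 1), (95, .ofNat 1)]) te) te) (tn (tn (tl [(386, .ofNat 1)]) te) (tn (tl [(423, .ofNat 1), (425, .ofNat 1)]) te))) (tn (tn (tn (tl [(258, .ofNat 1), (259, .ofNat 1), (260, .ofNat 1), (263, .ofNat 1), (264, .ofNat 2), (265, .ofNat 1), (266, .ofNat 2), (267, .ofNat 2), (268, .ofNat 2), (270, .ofNat 1), (271, .ofNat 1), (275, .ofNat 2), (276, .ofNat 2)]) (tl [(432, .ofNat 2), (433, .ofNat 1)]))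 (tn (tl [(410, .ofNat 1), (412, .ofNat 2), (413, .ofNat 2)]) te)) (tn (tn (tl [(394, .ofNat 1), (396, .ofNat 1)]) te) te))) (tn (tn (tn (tn (tl [(220, .ofNat 1), (221, .ofNat 1), (222, .ofNat 2), (223, .ofNat 2), (224, .ofNat 1), (225, .ofNat 1), (226, .ofNat 2)]) te) (tn (tl [(402, .ofNat 1), (403, .ofNat 2), (405, .ofNat 2), (406, .ofNat 1)]) te)) (tn (tn (tl [(388, .ofNat 2), (389, .ofNat 2), (390, .ofNat 1), (391, .ofNat 1)]) te) te)) (tn (tn (tn (tl [(314, .ofNat 2), (315, .ofNat 1), (317, .ofNat 2), (318, .ofNat 1), (319, .ofNat 1), (320, .ofNat 1), (321, .ofNat 1), (322, .ofNat 2), (323, .ofNat 1), (324, .ofNat 2)]) (tl [(432, .ofNat 1), (433, .ofNat 1)])) (tn (tl [(418, .ofNat 1), (420, .ofNat 1), (422, .ofNat 1)]) te)) (tn (tn (tl [(397, .ofNat 2), (399, .ofNat 1), (400, .ofNat 2), (401, .ofNat 1)]) te) (tn (tl [(428, .ofNat 1)]) te))))) (tn (tn (tn (tn (tn (tl [(170, .ofNat 1)]) te) te) te) (tn (tn (tn (tl [(292,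 .ofNat 2), (295, .ofNat 1), (296, .ofNat 1), (297, .ofNat 1), (298, .ofNat 2), (300, .ofNat 2), (301, .ofNat 2), (303, .ofNat 1), (305, .ofNat 1), (306, .ofNat 2), (307, .ofNat 2), (308, .ofNat 2), (309, .ofNat 2), (310, .ofNat 1), (311, .ofNat 1)]) (tl [(432, .ofNat 2)])) te) (tn (tn (tl [(393, .ofNat 2), (394, .ofNat 1), (395, .ofNat 1), (396, .ofNat 1)]) te) (tn (tl [(428, .ofNat 2)]) te)))) (tn (tn (tn (tn te (tl [(431, .ofNat 2)])) (tn (tl [(409, .ofNat 1), (411, .ofNat 1)]) te)) (tn te (tn (tl [(427, .ofNat 1)]) te))) (tn (tn (tn (tl [(375, .ofNat 1), (376, .ofNat 1), (377, .ofNat 1), (379, .ofNat 1), (380, .ofNat 1), (382, .ofNat 2), (383, .ofNat 1), (384, .ofNat 1), (385, .ofNat 2)]) te) (tn (tl [(423, .ofNat 2)]) te)) (tn (tn (tl [(397, .ofNat 2), (399, .ofNat 2), (401, .ofNat 2)]) te) (tn (tl [(428, .ofNat 1), (429, .ofNat 1)]) te))))))) (tn (tn (tn (tn (tn (tn (tn (tl [(59, .ofNat 1)]) te) te) (tn te (tn (tl [(423,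 .ofNat 1), (424, .ofNat 2), (425, .ofNat 2), (426, .ofNat 1)]) te))) (tn (tn (tn (tl [(258, .ofNat 2), (259, .ofNat 1), (263, .ofNat 2), (266, .ofNat 2), (267, .ofNat 1), (272, .ofNat 1), (273, .ofNat 2), (274, .ofNat 1), (275, .ofNat 1), (276, .ofNat 1)]) te) (tn (tl [(410, .ofNat 1), (412, .ofNat 1)]) te)) te)) (tn (tn te (tn (tn (tl [(387, .ofNat 1), (388, .ofNat 1), (389, .ofNat 1), (390, .ofNat 1)]) te) te)) (tn (tn (tn (tl [(312, .ofNat 2), (314, .ofNat 2), (315, .ofNat 2), (317, .ofNat 1), (318, .ofNat 2), (319, .ofNat 2), (320, .ofNat 2), (322, .ofNat 2), (323, .ofNat 1), (324, .ofNat 2), (325, .ofNat 2)]) (tl [(432, .ofNat 2), (433, .ofNat 1)])) (tn (tl [(419, .ofNat 1), (420, .ofNat 2), (421, .ofNat 2), (422, .ofNat 2)]) te)) (tn (tn (tl [(397, .ofNat 1), (398, .ofNat 1), (399, .ofNat 2), (400, .ofNat 1), (401, .ofNat 1)]) te) (tn (tl [(428, .ofNat 1)]) te))))) (tn (tn (tn (tn (tn (tl [(158, .ofNat 2), (160, .ofNat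 1)]) te) (tn te (tl [(434, .ofNat 2)]))) te) (tn (tn (tn (tl [(293, .ofNat 2), (294, .ofNat 2), (295, .ofNat 1), (297, .ofNat 1), (298, .ofNat 2), (300, .ofNat 1), (301, .ofNat 2), (302, .ofNat 1), (303, .ofNat 2), (309, .ofNat 1), (310, .ofNat 1)]) (tl [(432, .ofNat 1), (433, .ofNat 1)])) te) (tn (tn (tl [(392, .ofNat 2), (393, .ofNat 2), (394, .ofNat 1), (396, .ofNat 1)]) te) (tn (tl [(429, .ofNat 2)]) te)))) (tn (tn (tn (tn te (tl [(430, .ofNat 2), (431, .ofNat 1)])) (tn (tl [(402, .ofNat 2), (403, .ofNat 2), (404, .ofNat 1), (406, .ofNat 1), (407, .ofNat 2), (408, .ofNat 1)]) te)) te) (tn (tn (tn (tl [(358, .ofNat 1)]) te) (tn (tl [(423, .ofNat 2), (424, .ofNat 2), (425, .ofNat 1)]) te)) (tn (tn (tl [(397, .ofNat 1), (399, .ofNat 2), (400, .ofNat 2), (401, .ofNat 1)]) te) (tn (tl [(428, .ofNat 2), (429, .ofNat 2)]) te)))))) (tn (tn (tn (tn (tn (tn (tl [(112, .ofNat 2), (113, .ofNat 1), (120, .ofNat 1)]) te) te) (tn te (tn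 (tl [(423, .ofNat 1), (426, .ofNat 2)]) te))) (tn (tn (tn te (tl [(432, .ofNat 2), (433, .ofNat 2)])) te) (tn (tn (tl [(392, .ofNat 1), (393, .ofNat 2), (395, .ofNat 2), (396, .ofNat 1)]) te) te))) (tn (tn (tn (tn (tl [(227, .ofNat 2), (228, .ofNat 2), (230, .ofNat 2), (231, .ofNat 1), (232, .ofNat 2)]) (tl [(430, .ofNat 2), (431, .ofNat 1)])) (tn (tl [(402, .ofNat 2), (403, .ofNat 2), (404, .ofNat 2), (405, .ofNat 2), (406, .ofNat 2), (407, .ofNat 2), (408, .ofNat 1)]) te)) (tn (tn (tl [(387, .ofNat 2), (389, .ofNat 1), (390, .ofNat 1), (391, .ofNat 1)]) te) te)) (tn (tn (tn (tl [(343, .ofNat 1), (344, .ofNat 1), (350, .ofNat 2)]) (tl [(432, .ofNat 2)])) (tn (tl [(418, .ofNat 1), (419, .ofNat 2), (422, .ofNat 1)]) te)) (tn (tn (tl [(398, .ofNat 1), (399, .ofNat 1), (400, .ofNat 2), (401, .ofNat 2)]) te) (tn (tl [(428, .ofNat 2), (429, .ofNat 1)]) te))))) (tn (tn (tn (tn (tn (tl [(192, .ofNat 1)]) te) te) (tn (tn (tl [(387,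 .ofNat 2), (388, .ofNat 1), (390, .ofNat 1), (391, .ofNat 2)]) te) te)) (tn (tn (tn (tl [(292, .ofNat 2), (293, .ofNat 2), (294, .ofNat 1), (295, .ofNat 2), (296, .ofNat 2), (298, .ofNat 2), (300, .ofNat 2), (301, .ofNat 1), (302, .ofNat 1), (303, .ofNat 2), (305, .ofNat 1), (306, .ofNat 1), (307, .ofNat 2), (310, .ofNat 1)]) (tl [(432, .ofNat 1), (433, .ofNat 2)])) (tn (tl [(418, .ofNat 2), (419, .ofNat 1), (420, .ofNat 2), (422, .ofNat 2)]) te)) (tn (tn (tl [(392, .ofNat 1), (393, .ofNat 2)]) te) (tn (tl [(428, .ofNat 2), (429, .ofNat 1)]) te)))) (tn (tn (tn (tn (tl [(233, .ofNat 2), (235, .ofNat 2), (237, .ofNat 1), (239, .ofNat 1), (241, .ofNat 1), (243, .ofNat 2), (244, .ofNat 2), (245, .ofNat 1), (246, .ofNat 1), (247, .ofNat 1), (249, .ofNat 1), (250, .ofNat 1), (251, .ofNat 2), (252, .ofNat 1), (253, .ofNat 2), (254, .ofNat 2), (255, .ofNat 1), (257, .ofNat 1)]) te) (tn (tl [(409, .ofNat 2), (410, .ofNat 2), (411, .ofNat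 2), (413, .ofNat 2)]) te)) te) (tn (tn (tn (tl [(375, .ofNat 2), (376, .ofNat 1), (378, .ofNat 1), (380, .ofNat 2), (381, .ofNat 1), (382, .ofNat 2), (384, .ofNat 2)]) te) (tn (tl [(423, .ofNat 2), (425, .ofNat 1), (426, .ofNat 1)]) te)) (tn (tn (tl [(398, .ofNat 1), (399, .ofNat 2), (400, .ofNat 2), (401, .ofNat 1)]) te) (tn (tl [(428, .ofNat 1)]) te)))))))))

def r13 : Tr SV := (tn (tn (tn (tn (tn (tn (tn (tn (tn (tl [(36, .ofNat 1), (37, .ofNat 1)]) (tl [(428, .ofNat 1)])) (tn (tl [(397, .ofNat 2), (398, .ofNat 2), (399, .ofNat 1), (400, .ofNat 1), (401, .ofNat 1)]) te)) (tn te (tn (tl [(425, .ofNat 2)]) te))) (tn (tn (tn (tl [(233, .ofNat 2), (234, .ofNat 1), (235, .ofNat 1), (237, .ofNat 1), (238, .ofNat 2), (239, .ofNat 2), (242, .ofNat 1), (243, .ofNat 1), (245, .ofNat 2), (246, .ofNat 2), (247, .ofNat 1), (249, .ofNat 2), (250, .ofNat 2), (251, .ofNat 1), (253, .ofNat 1), (257, .ofNat 2)]) (tl [(430, .ofNat 2), (431,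 .ofNat 1)])) (tn (tl [(410, .ofNat 1), (411, .ofNat 2), (412, .ofNat 1), (413, .ofNat 1)]) te)) (tn te (tn (tl [(427, .ofNat 2)]) te)))) (tn (tn (tn (tn (tl [(207, .ofNat 1)]) te) te) (tn (tn (tl [(387, .ofNat 1), (388, .ofNat 1), (389, .ofNat 1), (390, .ofNat 2)]) te) te)) (tn (tn (tn (tl [(312, .ofNat 2), (313, .ofNat 1), (314, .ofNat 2), (316, .ofNat 1), (317, .ofNat 1), (318, .ofNat 1), (320, .ofNat 1), (321, .ofNat 2), (322, .ofNat 1), (323, .ofNat 1)]) (tl [(432, .ofNat 1), (433, .ofNat 2)])) (tn (tl [(418, .ofNat 1), (421, .ofNat 2), (422, .ofNat 2)]) te)) (tn (tn (tl [(397, .ofNat 2), (398, .ofNat 1), (399, .ofNat 2), (401, .ofNat 2)]) te) (tn (tl [(428, .ofNat 1)]) te))))) (tn (tn (tn (tn (tn (tl [(134, .ofNat 1), (140, .ofNat 1), (145, .ofNat 2)]) te) (tn te (tl [(434, .ofNat 2)]))) (tn (tn (tl [(386, .ofNat 1)]) te) te)) (tn (tn (tn te (tl [(433, .ofNat 2)])) te) (tn (tn (tl [(392, .ofNat 1), (393, .ofNat 1), (395,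 .ofNat 1), (396, .ofNat 2)]) te) te))) (tn (tn (tn (tn (tl [(228, .ofNat 1), (230, .ofNat 1), (231, .ofNat 1), (232, .ofNat 1)]) (tl [(430, .ofNat 2), (431, .ofNat 1)])) (tn (tl [(402, .ofNat 1), (403, .ofNat 2), (404, .ofNat 2), (405, .ofNat 1), (406, .ofNat 2), (408, .ofNat 1)]) te)) (tn (tn (tl [(387, .ofNat 1), (388, .ofNat 1), (389, .ofNat 1), (390, .ofNat 2), (391, .ofNat 2)]) te) te)) (tn (tn (tn (tl [(338, .ofNat 2), (343, .ofNat 1), (352, .ofNat 1)]) te) (tn (tl [(418, .ofNat 1), (419, .ofNat 2), (420, .ofNat 2)]) te)) (tn (tn (tl [(398, .ofNat 2), (400, .ofNat 2), (401, .ofNat 1)]) te) te))))) (tn (tn (tn (tn (tn (tn (tl [(79, .ofNat 1), (83, .ofNat 1), (85, .ofNat 2), (86, .ofNat 1)]) te) te) (tn te (tn (tl [(423, .ofNat 2), (425, .ofNat 1), (426, .ofNat 1)]) te))) (tn (tn (tn (tl [(258, .ofNat 2), (259, .ofNat 2), (261, .ofNat 2), (263, .ofNat 2), (264, .ofNat 2), (265, .ofNat 2), (266, .ofNat 1), (269, .ofNat 2),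 (270, .ofNat 2), (271, .ofNat 1), (272, .ofNat 1), (273, .ofNat 1), (274, .ofNat 1), (276, .ofNat 2)]) te) (tn (tl [(411, .ofNat 1), (412, .ofNat 1), (413, .ofNat 1)]) te)) te)) (tn (tn (tn te (tn (tl [(403, .ofNat 2), (406, .ofNat 1), (407, .ofNat 2), (408, .ofNat 2)]) te)) (tn (tn (tl [(387, .ofNat 2), (388, .ofNat 1), (389, .ofNat 2), (390, .ofNat 1), (391, .ofNat 1)]) te) te)) (tn (tn (tn (tl [(312, .ofNat 1), (314, .ofNat 1), (317, .ofNat 2), (318, .ofNat 1), (319, .ofNat 2), (320, .ofNat 2), (321, .ofNat 2), (323, .ofNat 1), (324, .ofNat 2), (325, .ofNat 2)]) te) (tn (tl [(418, .ofNat 1), (419, .ofNat 2), (420, .ofNat 2), (421, .ofNat 1)]) te)) (tn (tn (tl [(398, .ofNat 1), (399, .ofNat 1), (400, .ofNat 1), (401, .ofNat 2)]) te) (tn (tl [(428, .ofNat 2), (429, .ofNat 1)]) te))))) (tn (tn (tn (tn (tn (tl [(171, .ofNat 1), (172, .ofNat 1), (174, .ofNat 2)]) te) (tn te (tl [(434, .ofNat 1)]))) te) (tn (tn (tn (tl [(292,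 .ofNat 1), (293, .ofNat 1), (294, .ofNat 1), (298, .ofNat 2), (299, .ofNat 2), (301, .ofNat 2), (305, .ofNat 1), (307, .ofNat 1), (309, .ofNat 1), (311, .ofNat 2)]) (tl [(432, .ofNat 2), (433, .ofNat 2)])) te) (tn (tn (tl [(392, .ofNat 1), (393, .ofNat 1), (395, .ofNat 2), (396, .ofNat 1)]) te) (tn (tl [(428, .ofNat 1)]) te)))) (tn (tn (tn te (tn (tl [(411, .ofNat 1), (412, .ofNat 1), (413, .ofNat 1)]) te)) te) (tn (tn (tn (tl [(355, .ofNat 1), (356, .ofNat 1), (357, .ofNat 2), (359, .ofNat 2), (362, .ofNat 2), (363, .ofNat 1)]) te) (tn (tl [(425, .ofNat 2)]) te)) (tn (tn (tl [(397, .ofNat 2), (399, .ofNat 2), (400, .ofNat 2), (401, .ofNat 1)]) te) (tn (tl [(428, .ofNat 1)]) te))))))) (tn (tn (tn (tn (tn (tn (tn (tl [(50, .ofNat 1), (51, .ofNat 1), (54, .ofNat 2)]) te) te) (tn te (tn (tl [(423, .ofNat 1), (424, .ofNat 2), (425, .ofNat 1)]) te))) (tn (tn (tn (tl [(258, .ofNat 2), (259, .ofNat 2), (260, .ofNat 2), (262, .ofNat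 1), (264, .ofNat 2), (265, .ofNat 1), (266, .ofNat 2), (267, .ofNat 2), (268, .ofNat 1), (271, .ofNat 1), (272, .ofNat 2), (274, .ofNat 2), (275, .ofNat 2), (276, .ofNat 2)]) (tl [(430, .ofNat 1), (431, .ofNat 2)])) (tn (tl [(409, .ofNat 1), (411, .ofNat 1), (413, .ofNat 2)]) te)) te)) (tn (tn (tn (tn (tl [(215, .ofNat 2), (216, .ofNat 2), (218, .ofNat 2), (219, .ofNat 2)]) te) te) (tn (tn (tl [(387, .ofNat 2), (389, .ofNat 2)]) te) te)) (tn (tn (tn (tl [(312, .ofNat 2), (316, .ofNat 2), (318, .ofNat 2), (321, .ofNat 1), (322, .ofNat 1), (323, .ofNat 1), (324, .ofNat 2), (325, .ofNat 2)]) (tl [(432, .ofNat 2), (433, .ofNat 1)])) (tn (tl [(418, .ofNat 2), (419, .ofNat 1), (421, .ofNat 2), (422, .ofNat 1)]) te)) (tn (tn (tl [(397, .ofNat 2), (398, .ofNat 2), (399, .ofNat 2), (400, .ofNat 2), (401, .ofNat 2)]) te) te)))) (tn (tn (tn (tn (tn (tl [(158, .ofNat 2), (163, .ofNat 1), (164, .ofNat 1)]) te) (tn te (tl [(434, .ofNat 2)])))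 te) (tn (tn (tn te (tl [(432, .ofNat 2), (433, .ofNat 2)])) te) (tn (tn (tl [(392, .ofNat 2), (394, .ofNat 2), (395, .ofNat 1)]) te) (tn (tl [(428, .ofNat 2), (429, .ofNat 2)]) te)))) (tn (tn (tn (tn te (tl [(430, .ofNat 1)])) (tn (tl [(403, .ofNat 1), (404, .ofNat 1), (406, .ofNat 1), (407, .ofNat 2), (408, .ofNat 2)]) te)) te) (tn (tn (tn (tl [(359, .ofNat 1), (360, .ofNat 1), (363, .ofNat 2)]) te) (tn (tl [(423, .ofNat 2), (424, .ofNat 2), (425, .ofNat 1)]) te)) (tn (tn (tl [(397, .ofNat 2), (398, .ofNat 1), (400, .ofNat 2)]) te) (tn (tl [(428, .ofNat 1), (429, .ofNat 2)]) te)))))) (tn (tn (tn (tn te (tn (tn (tl [(386, .ofNat 1)]) te) (tn (tl [(423, .ofNat 1), (426, .ofNat 2)]) te))) (tn (tn (tn (tl [(259, .ofNat 2), (260, .ofNat 2), (262, .ofNat 2), (263, .ofNat 2), (264, .ofNat 1), (266, .ofNat 2), (268, .ofNat 1), (270, .ofNat 1), (272, .ofNat 1), (274, .ofNat 1), (275, .ofNat 1), (277, .ofNat 2)]) (tl [(433, .ofNat 1)]))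 (tn (tl [(409, .ofNat 1), (410, .ofNat 2)]) te)) (tn (tn (tl [(392, .ofNat 2), (393, .ofNat 1), (394, .ofNat 1), (396, .ofNat 1)]) te) te))) (tn (tn (tn (tn (tl [(220, .ofNat 2), (221, .ofNat 1), (222, .ofNat 1), (223, .ofNat 1), (225, .ofNat 2), (226, .ofNat 2)]) (tl [(430, .ofNat 1), (431, .ofNat 2)])) (tn (tl [(403, .ofNat 2), (404, .ofNat 2), (406, .ofNat 1), (407, .ofNat 2)]) te)) (tn (tn (tl [(387, .ofNat 2), (388, .ofNat 2)]) te) te)) (tn (tn (tn (tl [(312, .ofNat 2), (315, .ofNat 2), (316, .ofNat 2), (317, .ofNat 1), (318, .ofNat 2), (319, .ofNat 1), (320, .ofNat 1), (321, .ofNat 2), (322, .ofNat 1)]) te) (tn (tl [(419, .ofNat 2), (421, .ofNat 1)]) te)) (tn (tn (tl [(397, .ofNat 2), (398, .ofNat 1), (399, .ofNat 2), (400, .ofNat 1), (401, .ofNat 2)]) te) (tn (tl [(428, .ofNat 1), (429, .ofNat 2)]) te))))) (tn (tn (tn (tn (tn (tl [(193, .ofNat 1), (194, .ofNat 1), (199, .ofNat 2)]) te) te) te) (tn (tn (tn (tl [(292,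 .ofNat 2), (293, .ofNat 1), (295, .ofNat 2), (296, .ofNat 2), (297, .ofNat 1), (298, .ofNat 2), (300, .ofNat 1), (301, .ofNat 1), (302, .ofNat 1), (303, .ofNat 2), (304, .ofNat 1), (305, .ofNat 2), (306, .ofNat 1), (307, .ofNat 1), (308, .ofNat 2), (309, .ofNat 2), (310, .ofNat 1)]) (tl [(432, .ofNat 1)])) te) (tn (tn (tl [(393, .ofNat 2), (395, .ofNat 1), (396, .ofNat 2)]) te) (tn (tl [(429, .ofNat 2)]) te)))) (tn (tn (tn (tn (tl [(234, .ofNat 1), (235, .ofNat 2), (236, .ofNat 2), (237, .ofNat 1), (239, .ofNat 1), (241, .ofNat 1), (243, .ofNat 2), (244, .ofNat 2), (245, .ofNat 1), (246, .ofNat 2), (247, .ofNat 1), (248, .ofNat 2), (250, .ofNat 2), (251, .ofNat 2), (252, .ofNat 1), (253, .ofNat 2), (254, .ofNat 2), (255, .ofNat 1), (257, .ofNat 1)]) (tl [(431, .ofNat 2)])) (tn (tl [(410, .ofNat 1)]) te)) te) (tn (tn (tn (tl [(375, .ofNat 1), (377, .ofNat 1), (380, .ofNat 2), (381, .ofNat 2), (384, .ofNat 2), (385, .ofNat 1)])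 te) (tn (tl [(423, .ofNat 2), (424, .ofNat 2)]) te)) (tn (tn (tl [(397, .ofNat 1), (398, .ofNat 2), (400, .ofNat 1)]) te) (tn (tl [(429, .ofNat 2)]) te)))))))) (tn (tn (tn (tn (tn (tn (tn (tn (tl [(40, .ofNat 1), (41, .ofNat 1), (42, .ofNat 2)]) (tl [(428, .ofNat 2), (429, .ofNat 1)])) (tn (tl [(398, .ofNat 1), (401, .ofNat 1)]) te)) (tn te (tn (tl [(423, .ofNat 2), (424, .ofNat 1), (425, .ofNat 2), (426, .ofNat 1)]) te))) (tn (tn (tn (tl [(235, .ofNat 2), (236, .ofNat 1), (238, .ofNat 2), (239, .ofNat 1), (241, .ofNat 1), (242, .ofNat 1), (243, .ofNat 2), (244, .ofNat 1), (245, .ofNat 1), (246, .ofNat 1), (249, .ofNat 2), (250, .ofNat 1), (251, .ofNat 2), (252, .ofNat 1), (254, .ofNat 1), (255, .ofNat 2), (257, .ofNat 1)]) (tl [(430, .ofNat 1), (431, .ofNat 1)])) (tn (tl [(409, .ofNat 1), (411, .ofNat 1), (412, .ofNat 2), (413, .ofNat 2)]) te)) (tn te (tn (tl [(427, .ofNat 1)]) te)))) (tn (tn (tn (tn (tl [(213, .ofNat 1),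 (214, .ofNat 1), (215, .ofNat 1), (216, .ofNat 1), (217, .ofNat 2), (219, .ofNat 1)]) te) te) (tn (tn (tl [(387, .ofNat 1), (388, .ofNat 2), (390, .ofNat 1), (391, .ofNat 2)]) te) te)) (tn (tn (tn (tl [(314, .ofNat 1), (315, .ofNat 1), (316, .ofNat 1), (317, .ofNat 2), (318, .ofNat 1), (319, .ofNat 2), (320, .ofNat 2), (321, .ofNat 1), (322, .ofNat 1), (323, .ofNat 2), (325, .ofNat 1)]) (tl [(432, .ofNat 1), (433, .ofNat 2)])) (tn (tl [(418, .ofNat 2), (421, .ofNat 2), (422, .ofNat 2)]) te)) (tn (tn (tl [(397, .ofNat 1), (399, .ofNat 1), (400, .ofNat 1), (401, .ofNat 1)]) te) (tn (tl [(429, .ofNat 2)]) te))))) (tn (tn (tn (tn (tn (tl [(135, .ofNat 1), (137, .ofNat 2), (139, .ofNat 1), (140, .ofNat 1), (146, .ofNat 2)]) te) (tn te (tl [(434, .ofNat 1)]))) te) (tn (tn (tn te (tl [(432, .ofNat 1), (433, .ofNat 2)])) te) (tn (tn (tl [(392, .ofNat 2), (393, .ofNat 1), (394, .ofNat 2), (395, .ofNat 1), (396, .ofNat 2)]) te) (tn (tl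 [(429, .ofNat 2)]) te)))) (tn (tn (tn (tn (tl [(227, .ofNat 2), (228, .ofNat 1), (230, .ofNat 2)]) (tl [(430, .ofNat 1), (431, .ofNat 1)])) (tn (tl [(402, .ofNat 1), (404, .ofNat 1), (405, .ofNat 2), (406, .ofNat 1), (407, .ofNat 2)]) te)) (tn (tn (tl [(387, .ofNat 1), (389, .ofNat 1)]) te) te)) (tn (tn (tn (tl [(338, .ofNat 1), (353, .ofNat 1)]) te) (tn (tl [(418, .ofNat 1), (420, .ofNat 2), (421, .ofNat 2)]) te)) (tn (tn (tl [(397, .ofNat 2), (398, .ofNat 1), (400, .ofNat 2), (401, .ofNat 1)]) te) (tn (tl [(428, .ofNat 2)]) te)))))) (tn (tn (tn (tn (tn (tn (tl [(90, .ofNat 1), (95, .ofNat 2), (96, .ofNat 1)]) te) te) (tn (tn (tl [(386, .ofNat 1)]) te) (tn (tl [(423, .ofNat 2)]) te))) (tn (tn (tn (tl [(258, .ofNat 2), (260, .ofNat 2), (263, .ofNat 2), (264, .ofNat 1), (265, .ofNat 2), (266, .ofNat 1), (267, .ofNat 1), (268, .ofNat 1), (271, .ofNat 2), (275, .ofNat 1), (276, .ofNat 1)]) te) (tn (tl [(409, .ofNat 2), (410, .ofNat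 1), (411, .ofNat 2), (412, .ofNat 2), (413, .ofNat 2)]) te)) (tn (tn (tl [(392, .ofNat 2), (393, .ofNat 1), (394, .ofNat 2), (395, .ofNat 1), (396, .ofNat 2)]) te) te))) (tn (tn (tn (tn (tl [(221, .ofNat 2), (222, .ofNat 2), (223, .ofNat 1), (224, .ofNat 2), (226, .ofNat 1)]) te) (tn (tl [(402, .ofNat 2), (403, .ofNat 1), (404, .ofNat 2), (405, .ofNat 1)]) te)) (tn (tn (tl [(388, .ofNat 1), (389, .ofNat 1), (390, .ofNat 2), (391, .ofNat 2)]) te) te)) (tn (tn (tn (tl [(313, .ofNat 1), (315, .ofNat 2), (316, .ofNat 2), (317, .ofNat 1), (318, .ofNat 2), (319, .ofNat 2), (320, .ofNat 1), (321, .ofNat 1), (322, .ofNat 2), (324, .ofNat 1), (325, .ofNat 2)]) (tl [(433, .ofNat 1)])) (tn (tl [(421, .ofNat 1)]) te)) (tn (tn (tl [(397, .ofNat 1), (398, .ofNat 1), (401, .ofNat 2)]) te) (tn (tl [(428, .ofNat 1)]) te))))) (tn (tn (tn (tn (tn (tl [(169, .ofNat 1), (170, .ofNat 2), (172, .ofNat 1)]) te) te) te) (tn (tn (tn (tl [(292, .ofNat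 2), (293, .ofNat 1), (295, .ofNat 2), (296, .ofNat 1), (298, .ofNat 2), (299, .ofNat 2), (302, .ofNat 2), (305, .ofNat 1), (306, .ofNat 2), (308, .ofNat 2), (309, .ofNat 1), (310, .ofNat 1)]) (tl [(433, .ofNat 1)])) te) (tn (tn (tl [(392, .ofNat 1), (393, .ofNat 1), (394, .ofNat 1)]) te) (tn (tl [(428, .ofNat 1), (429, .ofNat 1)]) te)))) (tn (tn (tn (tn te (tl [(430, .ofNat 1)])) (tn (tl [(410, .ofNat 2), (411, .ofNat 1), (413, .ofNat 1)]) te)) (tn te (tn (tl [(427, .ofNat 2)]) te))) (tn (tn (tn (tl [(378, .ofNat 2), (379, .ofNat 2), (384, .ofNat 2), (385, .ofNat 2)]) te) (tn (tl [(424, .ofNat 1)]) te)) (tn (tn (tl [(397, .ofNat 2), (398, .ofNat 1), (399, .ofNat 2), (400, .ofNat 1), (401, .ofNat 1)]) te) (tn (tl [(428, .ofNat 2)]) te))))))) (tn (tn (tn (tn (tn (tn (tn (tl [(60, .ofNat 1)]) te) te) (tn te (tn (tl [(424, .ofNat 1), (425, .ofNat 2), (426, .ofNat 2)]) te))) (tn (tn (tn (tl [(258, .ofNat 2), (259, .ofNat 1), (261,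 .ofNat 1), (263, .ofNat 1), (264, .ofNat 1), (265, .ofNat 1), (266, .ofNat 2), (268, .ofNat 1), (270, .ofNat 1), (271, .ofNat 2), (272, .ofNat 2), (273, .ofNat 2), (274, .ofNat 1), (276, .ofNat 1)]) (tl [(430, .ofNat 2), (431, .ofNat 1)])) (tn (tl [(412, .ofNat 1), (413, .ofNat 1)]) te)) te)) (tn (tn te (tn (tn (tl [(388, .ofNat 1), (390, .ofNat 1)]) te) te)) (tn (tn (tn (tl [(313, .ofNat 2), (314, .ofNat 2), (316, .ofNat 1), (317, .ofNat 2), (318, .ofNat 2), (319, .ofNat 2), (320, .ofNat 1), (323, .ofNat 2), (324, .ofNat 1)]) (tl [(432, .ofNat 1), (433, .ofNat 2)])) (tn (tl [(418, .ofNat 1), (419, .ofNat 2), (421, .ofNat 1), (422, .ofNat 2)]) te)) (tn (tn (tl [(397, .ofNat 1), (398, .ofNat 1), (400, .ofNat 2)]) te) (tn (tl [(428, .ofNat 1)]) te))))) (tn (tn (tn (tn (tn (tl [(158, .ofNat 1), (165, .ofNat 1)]) te) (tn te (tl [(434, .ofNat 2)]))) te) (tn (tn (tn (tl [(293, .ofNat 2), (294, .ofNat 1), (296, .ofNat 2), (297, .ofNat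 1), (298, .ofNat 2), (299, .ofNat 1), (300, .ofNat 1), (302, .ofNat 2), (303, .ofNat 1), (307, .ofNat 2), (308, .ofNat 1), (309, .ofNat 2)]) (tl [(433, .ofNat 1)])) te) (tn (tn (tl [(393, .ofNat 1), (394, .ofNat 2), (395, .ofNat 2), (396, .ofNat 1)]) te) (tn (tl [(429, .ofNat 2)]) te)))) (tn (tn (tn (tn te (tl [(430, .ofNat 1)])) (tn (tl [(402, .ofNat 2), (404, .ofNat 1), (406, .ofNat 1), (407, .ofNat 1), (408, .ofNat 1)]) te)) te) (tn (tn (tn (tl [(358, .ofNat 2), (360, .ofNat 1)]) te) (tn (tl [(423, .ofNat 2), (424, .ofNat 2), (425, .ofNat 1)]) te)) (tn (tn (tl [(398, .ofNat 1), (399, .ofNat 1), (401, .ofNat 2)]) te) (tn (tl [(428, .ofNat 1)]) te)))))) (tn (tn (tn (tn (tn (tn (tl [(112, .ofNat 1), (120, .ofNat 2), (121, .ofNat 1)]) te) te) (tn (tn (tl [(386, .ofNat 2)]) te) (tn (tl [(423, .ofNat 2), (424, .ofNat 2), (425, .ofNat 1), (426, .ofNat 1)]) te))) (tn (tn (tn te (tl [(432, .ofNat 1), (433, .ofNat 2)])) te) (tn (tn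 (tl [(392, .ofNat 2), (395, .ofNat 2), (396, .ofNat 2)]) te) te))) (tn (tn (tn (tn (tl [(229, .ofNat 1), (230, .ofNat 1)]) (tl [(430, .ofNat 1), (431, .ofNat 1)])) (tn (tl [(402, .ofNat 1), (404, .ofNat 1), (405, .ofNat 1), (406, .ofNat 1), (407, .ofNat 2), (408, .ofNat 2)]) te)) (tn (tn (tl [(387, .ofNat 2), (388, .ofNat 2), (390, .ofNat 1), (391, .ofNat 1)]) te) te)) (tn (tn (tn (tl [(343, .ofNat 2), (350, .ofNat 1), (351, .ofNat 1)]) te) (tn (tl [(418, .ofNat 2), (420, .ofNat 1), (422, .ofNat 1)]) te)) (tn (tn (tl [(397, .ofNat 2), (398, .ofNat 1), (400, .ofNat 2), (401, .ofNat 1)]) te) te)))) (tn (tn (tn (tn (tn (tl [(189, .ofNat 1), (192, .ofNat 2), (194, .ofNat 1)]) te) te) (tn (tn (tl [(387, .ofNat 2), (388, .ofNat 2), (389, .ofNat 2), (390, .ofNat 2), (391, .ofNat 2)]) te) te)) (tn (tn (tn (tl [(292, .ofNat 1), (295, .ofNat 1), (296, .ofNat 1), (297, .ofNat 2), (298, .ofNat 1), (299, .ofNat 1), (300, .ofNat 1), (303,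 .ofNat 1), (305, .ofNat 2), (308, .ofNat 2), (310, .ofNat 2)]) (tl [(433, .ofNat 2)])) (tn (tl [(418, .ofNat 2), (419, .ofNat 2), (420, .ofNat 2), (422, .ofNat 1)]) te)) (tn (tn (tl [(392, .ofNat 2), (393, .ofNat 1), (394, .ofNat 2), (395, .ofNat 2), (396, .ofNat 2)]) te) (tn (tl [(428, .ofNat 1), (429, .ofNat 2)]) te)))) (tn (tn (tn (tn (tl [(233, .ofNat 1), (235, .ofNat 1), (236, .ofNat 1), (237, .ofNat 2), (239, .ofNat 2), (241, .ofNat 2), (243, .ofNat 1), (244, .ofNat 1), (245, .ofNat 2), (246, .ofNat 2), (247, .ofNat 2), (249, .ofNat 2), (250, .ofNat 2), (251, .ofNat 2), (252, .ofNat 2), (253, .ofNat 1), (254, .ofNat 1), (255, .ofNat 2), (257, .ofNat 2)]) (tl [(431, .ofNat 2)])) (tn (tl [(409, .ofNat 2), (410, .ofNat 2), (412, .ofNat 2), (413, .ofNat 1)]) te)) te) (tn (tn (tn (tl [(375, .ofNat 2), (376, .ofNat 2), (377, .ofNat 2), (379, .ofNat 1), (382, .ofNat 1), (383, .ofNat 1), (385, .ofNat 1)]) te) (tn (tl [(423, .ofNat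 1), (424, .ofNat 2)]) te)) (tn (tn (tl [(398, .ofNat 2), (400, .ofNat 2), (401, .ofNat 1)]) te) te))))))))

def r14 : Tr SV := (tn (tn (tn (tn (tn (tn (tn (tn (tn (tl [(43, .ofNat 1), (45, .ofNat 2)]) (tl [(430, .ofNat 2), (431, .ofNat 2)])) te) te) (tn (tn (tn (tl [(280, .ofNat 2), (281, .ofNat 2), (282, .ofNat 1), (283, .ofNat 2), (285, .ofNat 1), (287, .ofNat 1), (289, .ofNat 2), (290, .ofNat 2), (291, .ofNat 1)]) te) (tn (tl [(419, .ofNat 1), (420, .ofNat 2)]) te)) (tn (tn (tl [(397, .ofNat 1), (398, .ofNat 2), (399, .ofNat 1), (400, .ofNat 2), (401, .ofNat 1)]) te) te))) (tn (tn (tn (tn (tl [(210, .ofNat 1)]) (tl [(433, .ofNat 1)])) te) (tn (tn (tl [(392, .ofNat 2), (393, .ofNat 1), (394, .ofNat 1)]) te) te)) (tn te (tn te (tn (tl [(430, .ofNat 1), (431, .ofNat 1)]) te))))) (tn (tn (tn (tn (tn te (tl [(432, .ofNat 1), (433, .ofNat 1)])) te) te) (tn (tn (tn (tl [(315, .ofNat 1), (316, .ofNat 2), (318, .ofNat 1), (319, .ofNat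 1), (320, .ofNat 2), (321, .ofNat 1), (322, .ofNat 2), (324, .ofNat 1)]) te) (tn (tl [(424, .ofNat 2)]) te)) te)) (tn (tn (tn te (tn (tl [(417, .ofNat 2)]) te)) (tn (tn (tl [(392, .ofNat 2), (393, .ofNat 2), (394, .ofNat 1)]) te) (tn (tl [(427, .ofNat 1)]) te))) (tn (tn (tn (tl [(364, .ofNat 1), (366, .ofNat 1), (367, .ofNat 1), (368, .ofNat 1), (369, .ofNat 2), (370, .ofNat 2), (371, .ofNat 2), (372, .ofNat 1), (373, .ofNat 1)]) te) te) (tn te (tn (tl [(430, .ofNat 1), (431, .ofNat 1)]) te)))))) (tn (tn (tn (tn (tn (tn (tl [(101, .ofNat 2), (102, .ofNat 1), (105, .ofNat 2), (107, .ofNat 1)]) te) (tn te (tl [(434, .ofNat 1)]))) te) (tn (tn (tn (tl [(292, .ofNat 1), (298, .ofNat 2), (301, .ofNat 2), (305, .ofNat 1), (307, .ofNat 1), (309, .ofNat 1), (311, .ofNat 2)]) te) (tn (tl [(418, .ofNat 2), (419, .ofNat 1), (420, .ofNat 2), (421, .ofNat 2), (422, .ofNat 2)]) te)) (tn (tn (tl [(397, .ofNat 1), (398, .ofNat 1)]) te) te)))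 (tn (tn (tn (tn (tl [(227, .ofNat 1), (229, .ofNat 1), (230, .ofNat 2), (232, .ofNat 1)]) (tl [(432, .ofNat 1), (433, .ofNat 2)])) (tn (tl [(414, .ofNat 1), (417, .ofNat 2)]) te)) (tn (tn (tl [(393, .ofNat 2), (394, .ofNat 1), (395, .ofNat 1), (396, .ofNat 1)]) te) te)) (tn te (tn te (tn (tl [(431, .ofNat 1)]) te))))) (tn (tn (tn (tn (tn (tl [(190, .ofNat 1), (194, .ofNat 2), (199, .ofNat 1)]) (tl [(433, .ofNat 2)])) te) te) (tn (tn te (tn (tl [(423, .ofNat 2), (424, .ofNat 1)]) te)) (tn te (tn (tl [(430, .ofNat 1)]) te)))) (tn (tn (tn te (tn (tl [(419, .ofNat 2), (422, .ofNat 2)]) te)) (tn (tn (tl [(397, .ofNat 2), (398, .ofNat 2), (400, .ofNat 1)]) te) te)) (tn (tn (tn (tl [(375, .ofNat 1), (376, .ofNat 2), (377, .ofNat 1), (382, .ofNat 2), (383, .ofNat 2), (385, .ofNat 2)]) te) te) (tn te (tn (tl [(430, .ofNat 1), (431, .ofNat 2)]) te))))))) (tn (tn (tn (tn (tn (tn (tn te (tl [(432, .ofNat 1), (433, .ofNat 2)])) te) (tn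 (tn (tl [(386, .ofNat 1)]) te) te)) (tn (tn (tn (tl [(292, .ofNat 1), (293, .ofNat 1), (294, .ofNat 2), (295, .ofNat 2), (296, .ofNat 1), (299, .ofNat 2), (300, .ofNat 1), (301, .ofNat 2), (302, .ofNat 2), (303, .ofNat 2), (306, .ofNat 1), (308, .ofNat 1), (310, .ofNat 2), (311, .ofNat 1)]) te) (tn (tl [(419, .ofNat 1), (421, .ofNat 2), (422, .ofNat 2)]) te)) (tn (tn (tl [(398, .ofNat 1), (400, .ofNat 2), (401, .ofNat 2)]) te) te))) (tn (tn (tn (tn (tl [(220, .ofNat 1), (221, .ofNat 1), (223, .ofNat 1), (224, .ofNat 1), (225, .ofNat 1)]) (tl [(432, .ofNat 1)])) te) (tn (tn (tl [(392, .ofNat 2), (395, .ofNat 1), (396, .ofNat 1)]) te) te)) (tn te (tn te (tn (tl [(430, .ofNat 1), (431, .ofNat 2)]) te))))) (tn (tn (tn (tn (tn (tl [(177, .ofNat 1), (178, .ofNat 1), (182, .ofNat 2)]) (tl [(432, .ofNat 1), (433, .ofNat 1)])) te) te) (tn (tn (tn (tl [(312, .ofNat 2), (315, .ofNat 1), (317, .ofNat 2), (319, .ofNat 2), (320, .ofNat 1)])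 te) (tn (tl [(423, .ofNat 1), (425, .ofNat 1)]) te)) (tn te (tn (tl [(430, .ofNat 2), (431, .ofNat 1)]) te)))) (tn (tn (tn te (tn (tl [(416, .ofNat 2), (417, .ofNat 1)]) te)) (tn (tn (tl [(397, .ofNat 1), (398, .ofNat 2), (401, .ofNat 2)]) te) te)) (tn (tn (tn (tl [(376, .ofNat 1), (378, .ofNat 2), (379, .ofNat 2), (380, .ofNat 2), (381, .ofNat 1), (382, .ofNat 1), (383, .ofNat 1), (384, .ofNat 1)]) te) te) (tn te (tn (tl [(431, .ofNat 2)]) te)))))) (tn (tn (tn (tn (tn (tn (tl [(132, .ofNat 1), (137, .ofNat 2), (143, .ofNat 1), (144, .ofNat 2), (145, .ofNat 1)]) (tl [(432, .ofNat 2), (433, .ofNat 2)])) (tn te (tl [(434, .ofNat 1)]))) te) (tn (tn (tn (tl [(292, .ofNat 1), (293, .ofNat 2), (294, .ofNat 1), (295, .ofNat 2), (296, .ofNat 1), (298, .ofNat 1), (299, .ofNat 1), (300, .ofNat 2), (302, .ofNat 2), (305, .ofNat 1), (306, .ofNat 1), (309, .ofNat 1), (310, .ofNat 2), (311, .ofNat 1)]) te) (tn (tl [(418, .ofNat 1), (420,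 .ofNat 1), (421, .ofNat 1), (422, .ofNat 2)]) te)) te)) (tn (tn (tn te (tn (tl [(416, .ofNat 1), (417, .ofNat 2)]) te)) (tn (tn (tl [(392, .ofNat 1), (393, .ofNat 2), (394, .ofNat 2), (395, .ofNat 1), (396, .ofNat 1)]) te) te)) (tn te (tn te (tn (tl [(430, .ofNat 2), (431, .ofNat 1)]) te))))) (tn (tn (tn (tn (tn te (tl [(432, .ofNat 2), (433, .ofNat 1)])) te) te) (tn (tn te (tn (tl [(423, .ofNat 2), (424, .ofNat 1), (425, .ofNat 2), (426, .ofNat 2)]) te)) te)) (tn (tn (tn (tn (tl [(278, .ofNat 1), (279, .ofNat 1), (280, .ofNat 1), (282, .ofNat 1), (284, .ofNat 1), (285, .ofNat 1), (287, .ofNat 1), (288, .ofNat 1), (291, .ofNat 2)]) te) (tn (tl [(418, .ofNat 2), (419, .ofNat 2), (420, .ofNat 2), (421, .ofNat 2), (422, .ofNat 1)]) te)) (tn (tn (tl [(397, .ofNat 1), (398, .ofNat 1)]) te) te)) (tn te (tn te (tn (tl [(430, .ofNat 1), (431, .ofNat 1)]) te)))))))) (tn (tn (tn (tn (tn (tn (tn (tn (tl [(49, .ofNat 1), (51, .ofNat 2),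 (54, .ofNat 1)]) (tl [(431, .ofNat 2)])) te) (tn (tn (tl [(386, .ofNat 1)]) te) te)) (tn (tn (tn (tl [(279, .ofNat 1), (280, .ofNat 2), (282, .ofNat 1), (283, .ofNat 1), (284, .ofNat 1), (285, .ofNat 1), (286, .ofNat 2), (287, .ofNat 1), (288, .ofNat 1), (289, .ofNat 1), (290, .ofNat 1), (291, .ofNat 1)]) te) (tn (tl [(419, .ofNat 1), (422, .ofNat 1)]) te)) (tn (tn (tl [(397, .ofNat 2), (399, .ofNat 2), (400, .ofNat 1)]) te) te))) (tn (tn (tn (tn (tl [(220, .ofNat 1), (221, .ofNat 2), (222, .ofNat 2), (223, .ofNat 2), (224, .ofNat 2), (226, .ofNat 1)]) (tl [(432, .ofNat 2), (433, .ofNat 2)])) te) (tn (tn (tl [(392, .ofNat 2), (393, .ofNat 2), (395, .ofNat 2), (396, .ofNat 2)]) te) te)) (tn te (tn te (tn (tl [(430, .ofNat 1)]) te))))) (tn (tn (tn (tn (tn te (tl [(433, .ofNat 1)])) te) te) (tn (tn (tn (tl [(312, .ofNat 1), (313, .ofNat 1), (316, .ofNat 1), (317, .ofNat 2), (318, .ofNat 2), (319, .ofNat 1), (320, .ofNat 1), (321,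 .ofNat 2), (323, .ofNat 1), (324, .ofNat 2)]) te) (tn (tl [(423, .ofNat 2), (424, .ofNat 1), (425, .ofNat 1)]) te)) (tn te (tn (tl [(431, .ofNat 2)]) te)))) (tn (tn (tn te (tn (tl [(414, .ofNat 2), (416, .ofNat 1), (417, .ofNat 2)]) te)) (tn (tn (tl [(392, .ofNat 1), (393, .ofNat 2)]) te) (tn (tl [(427, .ofNat 1)]) te))) (tn (tn (tn (tl [(365, .ofNat 1), (366, .ofNat 2), (369, .ofNat 2), (370, .ofNat 1), (371, .ofNat 1)]) te) te) (tn te (tn (tl [(430, .ofNat 2), (431, .ofNat 1)]) te)))))) (tn (tn (tn (tn (tn (tn (tl [(112, .ofNat 2), (114, .ofNat 1), (118, .ofNat 2), (119, .ofNat 1), (120, .ofNat 1)]) (tl [(432, .ofNat 2), (433, .ofNat 1)])) (tn te (tl [(434, .ofNat 2)]))) te) (tn (tn (tn (tl [(293, .ofNat 1), (294, .ofNat 2), (296, .ofNat 2), (297, .ofNat 1), (299, .ofNat 1), (301, .ofNat 1), (302, .ofNat 1), (303, .ofNat 1), (304, .ofNat 2), (306, .ofNat 2), (307, .ofNat 1), (308, .ofNat 2), (310, .ofNat 1), (311, .ofNat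 2)]) te) (tn (tl [(419, .ofNat 1), (420, .ofNat 2), (421, .ofNat 2), (422, .ofNat 2)]) te)) te)) (tn (tn (tn (tn te (tl [(433, .ofNat 1)])) (tn (tl [(414, .ofNat 2), (416, .ofNat 1), (417, .ofNat 1)]) te)) (tn (tn (tl [(392, .ofNat 2), (394, .ofNat 2), (396, .ofNat 2)]) te) (tn (tl [(427, .ofNat 2)]) te))) (tn te (tn te (tn (tl [(430, .ofNat 1)]) te))))) (tn (tn (tn (tn (tn (tl [(189, .ofNat 2), (191, .ofNat 1), (192, .ofNat 1)]) (tl [(432, .ofNat 2)])) te) te) (tn (tn te (tn (tl [(423, .ofNat 1), (424, .ofNat 1), (425, .ofNat 1), (426, .ofNat 1)]) te)) (tn te (tn (tl [(430, .ofNat 2), (431, .ofNat 2)]) te)))) (tn (tn (tn te (tn (tl [(418, .ofNat 1), (420, .ofNat 1), (421, .ofNat 2)]) te)) (tn (tn (tl [(397, .ofNat 2), (399, .ofNat 1), (400, .ofNat 2), (401, .ofNat 1)]) te) te)) (tn te (tn te (tn (tl [(431, .ofNat 2)]) te))))))) (tn (tn (tn (tn (tn (tn (tn (tl [(62, .ofNat 1)]) (tl [(432, .ofNat 2)])) (tn te (tl [(434, .ofNat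 1)]))) (tn (tn (tl [(386, .ofNat 2)]) te) te)) (tn (tn (tn (tl [(295, .ofNat 1), (297, .ofNat 1), (298, .ofNat 1), (299, .ofNat 1), (301, .ofNat 2), (303, .ofNat 2), (304, .ofNat 1), (305, .ofNat 2), (310, .ofNat 1), (311, .ofNat 2)]) te) (tn (tl [(418, .ofNat 1), (419, .ofNat 2), (420, .ofNat 1), (421, .ofNat 2)]) te)) (tn (tn (tl [(397, .ofNat 2), (398, .ofNat 1), (400, .ofNat 2), (401, .ofNat 1)]) te) te))) (tn (tn (tn (tn (tl [(227, .ofNat 1), (229, .ofNat 2)]) (tl [(432, .ofNat 1), (433, .ofNat 2)])) te) (tn (tn (tl [(392, .ofNat 1), (394, .ofNat 1)]) te) te)) (tn te (tn te (tn (tl [(430, .ofNat 1), (431, .ofNat 2)]) te))))) (tn (tn (tn (tn (tn (tl [(177, .ofNat 2), (179, .ofNat 1)]) (tl [(432, .ofNat 2), (433, .ofNat 2)])) te) te) (tn (tn te (tn (tl [(423, .ofNat 1), (426, .ofNat 2)]) te)) (tn te (tn (tl [(430, .ofNat 1)]) te)))) (tn (tn (tn te (tn (tl [(414, .ofNat 1)]) te)) (tn (tn (tl [(397, .ofNat 1), (399, .ofNat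 1), (400, .ofNat 2)]) te) (tn (tl [(427, .ofNat 1)]) te))) (tn (tn (tn (tl [(377, .ofNat 2), (378, .ofNat 1), (380, .ofNat 1), (381, .ofNat 1), (384, .ofNat 1), (385, .ofNat 2)]) te) te) te)))) (tn (tn (tn (tn (tn (tn te (tl [(432, .ofNat 1)])) te) te) (tn (tn (tn (tl [(312, .ofNat 1), (313, .ofNat 2), (316, .ofNat 1), (317, .ofNat 1), (319, .ofNat 1), (320, .ofNat 2), (321, .ofNat 1), (322, .ofNat 2), (323, .ofNat 2), (324, .ofNat 2), (325, .ofNat 2)]) te) (tn (tl [(425, .ofNat 2)]) te)) te)) (tn (tn (tn te (tn (tl [(415, .ofNat 1)]) te)) (tn (tn (tl [(392, .ofNat 1), (394, .ofNat 1), (396, .ofNat 1)]) te) (tn (tl [(427, .ofNat 2)]) te))) (tn (tn (tn (tl [(366, .ofNat 1), (367, .ofNat 2), (368, .ofNat 2), (369, .ofNat 2), (370, .ofNat 2), (372, .ofNat 2), (373, .ofNat 2)]) te) te) (tn te (tn (tl [(430, .ofNat 1)]) te))))) (tn (tn (tn (tn (tn te (tl [(432, .ofNat 2)])) te) (tn (tn (tl [(392, .ofNat 2), (396, .ofNat 1)]) te)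 te)) (tn te (tn te (tn (tl [(430, .ofNat 1), (431, .ofNat 1)]) te)))) (tn (tn (tn (tn (tl [(278, .ofNat 1), (279, .ofNat 2), (281, .ofNat 1), (282, .ofNat 2), (284, .ofNat 1), (286, .ofNat 2), (288, .ofNat 2), (289, .ofNat 2), (291, .ofNat 1)]) te) (tn (tl [(418, .ofNat 1), (421, .ofNat 1), (422, .ofNat 1)]) te)) (tn (tn (tl [(397, .ofNat 1), (399, .ofNat 2), (400, .ofNat 1), (401, .ofNat 1)]) te) te)) (tn te (tn te (tn (tl [(430, .ofNat 1)]) te)))))))))

def r15 : Tr SV := (tn (tn (tn (tn (tn (tn (tn (tn (tn (tl [(45, .ofNat 1), (46, .ofNat 1)]) (tl [(430, .ofNat 2), (431, .ofNat 1)])) te) te) (tn (tn (tn (tl [(278, .ofNat 2), (279, .ofNat 2), (281, .ofNat 2), (283, .ofNat 1), (285, .ofNat 1), (286, .ofNat 1), (287, .ofNat 1)]) te) (tn (tl [(419, .ofNat 1), (420, .ofNat 1), (422, .ofNat 1)]) te)) (tn (tn (tl [(397, .ofNat 2), (398, .ofNat 1)]) te) te))) (tn (tn (tn (tn (tl [(211, .ofNat 1)]) (tl [(432, .ofNat 1), (433, .ofNat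 2)])) te) (tn (tn (tl [(392, .ofNat 2), (394, .ofNat 1), (395, .ofNat 1)]) te) te)) (tn te (tn te (tn (tl [(430, .ofNat 1), (431, .ofNat 2)]) te))))) (tn (tn (tn (tn (tn te (tl [(432, .ofNat 2)])) te) te) (tn (tn (tn (tl [(315, .ofNat 2), (316, .ofNat 1), (317, .ofNat 2), (318, .ofNat 1), (319, .ofNat 1), (321, .ofNat 2), (324, .ofNat 2)]) te) (tn (tl [(423, .ofNat 1)]) te)) te)) (tn (tn (tn te (tn (tl [(414, .ofNat 1), (415, .ofNat 1), (417, .ofNat 1)]) te)) (tn (tn (tl [(392, .ofNat 2), (393, .ofNat 2), (394, .ofNat 2), (395, .ofNat 2)]) te) (tn (tl [(427, .ofNat 1)]) te))) (tn (tn (tn (tl [(364, .ofNat 2), (365, .ofNat 1), (366, .ofNat 2), (367, .ofNat 2), (368, .ofNat 2), (369, .ofNat 1), (370, .ofNat 1), (371, .ofNat 1), (373, .ofNat 2)]) te) te) (tn te (tn (tl [(430, .ofNat 1)]) te)))))) (tn (tn (tn (tn (tn (tn (tl [(101, .ofNat 1), (105, .ofNat 1), (107, .ofNat 2), (108, .ofNat 1)]) (tl [(433, .ofNat 1)])) (tn te (tl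 [(434, .ofNat 1)]))) te) (tn (tn (tn (tl [(292, .ofNat 2), (293, .ofNat 1), (295, .ofNat 2), (296, .ofNat 1), (298, .ofNat 2), (299, .ofNat 2), (302, .ofNat 2), (305, .ofNat 1), (306, .ofNat 2), (308, .ofNat 2), (309, .ofNat 1), (310, .ofNat 1)]) te) (tn (tl [(421, .ofNat 1), (422, .ofNat 2)]) te)) (tn (tn (tl [(397, .ofNat 1), (398, .ofNat 2), (399, .ofNat 1), (400, .ofNat 1)]) te) te))) (tn (tn (tn (tn (tl [(227, .ofNat 1), (229, .ofNat 2), (230, .ofNat 1), (231, .ofNat 1)]) (tl [(432, .ofNat 2), (433, .ofNat 1)])) (tn (tl [(415, .ofNat 1), (416, .ofNat 2), (417, .ofNat 2)]) te)) (tn (tn (tl [(392, .ofNat 2)]) te) te)) (tn te (tn te (tn (tl [(430, .ofNat 1)]) te))))) (tn (tn (tn (tn (tn (tl [(194, .ofNat 1), (196, .ofNat 1), (199, .ofNat 2)]) (tl [(432, .ofNat 1), (433, .ofNat 2)])) te) te) (tn (tn te (tn (tl [(423, .ofNat 1), (424, .ofNat 1), (425, .ofNat 2)]) te)) te)) (tn (tn (tn te (tn (tl [(418, .ofNat 2), (422, .ofNat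 2)]) te)) (tn (tn (tl [(397, .ofNat 1), (399, .ofNat 1), (401, .ofNat 2)]) te) te)) (tn (tn (tn (tl [(375, .ofNat 2), (376, .ofNat 2), (377, .ofNat 2), (382, .ofNat 1), (383, .ofNat 2), (385, .ofNat 1)]) te) te) (tn te (tn (tl [(430, .ofNat 1)]) te))))))) (tn (tn (tn (tn (tn (tn (tn te (tl [(433, .ofNat 2)])) te) te) (tn (tn (tn (tl [(292, .ofNat 1), (294, .ofNat 1), (296, .ofNat 1), (297, .ofNat 2), (298, .ofNat 1), (300, .ofNat 2), (303, .ofNat 2), (305, .ofNat 2), (306, .ofNat 1), (307, .ofNat 1), (308, .ofNat 1), (309, .ofNat 1), (311, .ofNat 2)]) te) (tn (tl [(419, .ofNat 2), (420, .ofNat 1), (421, .ofNat 2), (422, .ofNat 1)]) te)) (tn (tn (tl [(400, .ofNat 2)]) te) te))) (tn (tn (tn (tn (tl [(220, .ofNat 2), (222, .ofNat 2), (223, .ofNat 2), (224, .ofNat 2), (225, .ofNat 2), (226, .ofNat 2)]) (tl [(432, .ofNat 1)])) te) (tn (tn (tl [(392, .ofNat 2), (393, .ofNat 1), (394, .ofNat 1), (395, .ofNat 1), (396, .ofNat 1)])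 te) te)) (tn te (tn te (tn (tl [(430, .ofNat 1), (431, .ofNat 2)]) te))))) (tn (tn (tn (tn (tn (tl [(177, .ofNat 2), (182, .ofNat 1), (183, .ofNat 1)]) (tl [(432, .ofNat 2)])) te) te) (tn (tn (tn (tl [(313, .ofNat 1), (316, .ofNat 1), (317, .ofNat 1), (318, .ofNat 2), (319, .ofNat 2), (320, .ofNat 2), (321, .ofNat 2), (322, .ofNat 2), (323, .ofNat 1)]) te) (tn (tl [(423, .ofNat 2), (424, .ofNat 1), (426, .ofNat 1)]) te)) (tn te (tn (tl [(430, .ofNat 1), (431, .ofNat 2)]) te)))) (tn (tn (tn te (tn (tl [(414, .ofNat 2), (415, .ofNat 1), (416, .ofNat 2)]) te)) (tn (tn (tl [(398, .ofNat 1), (399, .ofNat 2), (401, .ofNat 1)]) te) te)) (tn (tn (tn (tl [(378, .ofNat 1), (381, .ofNat 1), (385, .ofNat 2)]) te) te) (tn te (tn (tl [(430, .ofNat 2)]) te)))))) (tn (tn (tn (tn (tn (tn (tl [(137, .ofNat 1), (141, .ofNat 1), (143, .ofNat 2), (144, .ofNat 1), (145, .ofNat 2)]) (tl [(432, .ofNat 1)])) te) te) (tn (tn (tn (tl [(292, .ofNat 1),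 (293, .ofNat 1), (295, .ofNat 2), (296, .ofNat 1), (298, .ofNat 2), (301, .ofNat 1), (304, .ofNat 1), (306, .ofNat 2), (307, .ofNat 1), (309, .ofNat 1), (310, .ofNat 1), (311, .ofNat 1)]) te) (tn (tl [(418, .ofNat 2), (420, .ofNat 1), (421, .ofNat 1), (422, .ofNat 1)]) te)) te)) (tn (tn (tn te (tn (tl [(414, .ofNat 2), (416, .ofNat 1), (417, .ofNat 1)]) te)) (tn (tn (tl [(392, .ofNat 1), (393, .ofNat 2), (394, .ofNat 2), (396, .ofNat 2)]) te) (tn (tl [(427, .ofNat 2)]) te))) (tn te (tn te (tn (tl [(430, .ofNat 2), (431, .ofNat 1)]) te))))) (tn (tn (tn (tn (tn te (tl [(432, .ofNat 1), (433, .ofNat 2)])) te) te) (tn (tn te (tn (tl [(424, .ofNat 2), (426, .ofNat 1)]) te)) (tn te (tn (tl [(430, .ofNat 2)]) te)))) (tn (tn (tn (tn (tl [(278, .ofNat 2), (279, .ofNat 2), (284, .ofNat 2), (285, .ofNat 1), (287, .ofNat 2), (288, .ofNat 1), (290, .ofNat 2)]) te) (tn (tl [(418, .ofNat 1), (421, .ofNat 2)]) te)) (tn (tn (tl [(399, .ofNat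 2), (400, .ofNat 1), (401, .ofNat 1)]) te) te)) (tn te (tn te (tn (tl [(430, .ofNat 1), (431, .ofNat 2)]) te)))))))) (tn (tn (tn (tn (tn (tn (tn (tn (tl [(51, .ofNat 1), (52, .ofNat 1), (54, .ofNat 2)]) (tl [(430, .ofNat 1), (431, .ofNat 1)])) te) (tn (tn (tl [(386, .ofNat 2)]) te) te)) (tn (tn (tn (tl [(280, .ofNat 1), (281, .ofNat 1), (282, .ofNat 2), (286, .ofNat 2), (288, .ofNat 2), (289, .ofNat 1), (290, .ofNat 2), (291, .ofNat 2)]) te) (tn (tl [(418, .ofNat 1), (419, .ofNat 2), (420, .ofNat 2), (421, .ofNat 1)]) te)) (tn (tn (tl [(397, .ofNat 2), (398, .ofNat 1), (399, .ofNat 2)]) te) te))) (tn (tn (tn (tn (tl [(220, .ofNat 1), (221, .ofNat 1), (222, .ofNat 2), (223, .ofNat 1), (224, .ofNat 2), (226, .ofNat 1)]) (tl [(432, .ofNat 2)])) te) (tn (tn (tl [(393, .ofNat 1), (394, .ofNat 1), (395, .ofNat 1), (396, .ofNat 2)]) te) te)) (tn te (tn te (tn (tl [(431, .ofNat 1)]) te))))) (tn (tn (tn (tn (tn te (tl [(432, .ofNat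 2), (433, .ofNat 2)])) te) te) (tn (tn (tn (tl [(312, .ofNat 1), (315, .ofNat 2), (316, .ofNat 2), (320, .ofNat 2), (322, .ofNat 1), (324, .ofNat 1)]) te) (tn (tl [(423, .ofNat 2), (424, .ofNat 2), (425, .ofNat 2), (426, .ofNat 1)]) te)) (tn te (tn (tl [(431, .ofNat 2)]) te)))) (tn (tn (tn te (tn (tl [(414, .ofNat 2), (415, .ofNat 2), (417, .ofNat 1)]) te)) (tn (tn (tl [(394, .ofNat 1), (395, .ofNat 2)]) te) (tn (tl [(427, .ofNat 1)]) te))) (tn (tn (tn (tl [(365, .ofNat 2), (366, .ofNat 2), (369, .ofNat 1), (370, .ofNat 2), (371, .ofNat 2), (373, .ofNat 1)]) te) te) (tn te (tn (tl [(430, .ofNat 2), (431, .ofNat 1)]) te)))))) (tn (tn (tn (tn (tn (tn (tl [(112, .ofNat 1), (118, .ofNat 1), (119, .ofNat 2), (120, .ofNat 2), (126, .ofNat 1)]) (tl [(432, .ofNat 2)])) te) te) (tn (tn (tn (tl [(293, .ofNat 2), (297, .ofNat 1), (298, .ofNat 1), (299, .ofNat 2), (301, .ofNat 1), (302, .ofNat 2), (303, .ofNat 1), (304, .ofNat 1), (305,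 .ofNat 2), (307, .ofNat 2)]) te) (tn (tl [(418, .ofNat 1), (421, .ofNat 2), (422, .ofNat 1)]) te)) te)) (tn (tn (tn (tn te (tl [(432, .ofNat 2)])) (tn (tl [(414, .ofNat 1), (415, .ofNat 1), (416, .ofNat 1), (417, .ofNat 1)]) te)) (tn (tn (tl [(393, .ofNat 2), (394, .ofNat 1)]) te) (tn (tl [(427, .ofNat 2)]) te))) (tn te (tn te (tn (tl [(430, .ofNat 1), (431, .ofNat 1)]) te))))) (tn (tn (tn (tn (tn (tl [(189, .ofNat 1), (192, .ofNat 2), (197, .ofNat 1)]) (tl [(432, .ofNat 1)])) te) te) (tn (tn te (tn (tl [(423, .ofNat 1), (424, .ofNat 2), (425, .ofNat 1)]) te)) (tn te (tn (tl [(430, .ofNat 2), (431, .ofNat 2)]) te)))) (tn (tn (tn te (tn (tl [(418, .ofNat 1), (421, .ofNat 2), (422, .ofNat 2)]) te)) (tn (tn (tl [(397, .ofNat 1), (398, .ofNat 2), (399, .ofNat 2), (400, .ofNat 2)]) te) te)) (tn te (tn te (tn (tl [(430, .ofNat 2)]) te))))))) (tn (tn (tn (tn (tn (tn (tn (tl [(63, .ofNat 1)]) (tl [(432, .ofNat 1)])) (tn te (tl [(434,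 .ofNat 2)]))) (tn (tn (tl [(386, .ofNat 2)]) te) te)) (tn (tn (tn (tl [(292, .ofNat 1), (294, .ofNat 1), (298, .ofNat 2), (299, .ofNat 2), (301, .ofNat 2), (304, .ofNat 1), (305, .ofNat 1), (307, .ofNat 1), (309, .ofNat 1), (311, .ofNat 2)]) te) (tn (tl [(419, .ofNat 2), (421, .ofNat 1)]) te)) (tn (tn (tl [(397, .ofNat 2), (398, .ofNat 1), (400, .ofNat 1), (401, .ofNat 2)]) te) te))) (tn (tn (tn (tn (tl [(227, .ofNat 1), (230, .ofNat 2), (231, .ofNat 2)]) (tl [(433, .ofNat 1)])) te) (tn (tn (tl [(392, .ofNat 2), (393, .ofNat 1), (394, .ofNat 1), (395, .ofNat 2), (396, .ofNat 2)]) te) te)) te)) (tn (tn (tn (tn (tn (tl [(177, .ofNat 1), (184, .ofNat 1)]) (tl [(432, .ofNat 1)])) te) te) (tn (tn te (tn (tl [(423, .ofNat 1), (424, .ofNat 2), (426, .ofNat 1)]) te)) (tn te (tn (tl [(430, .ofNat 2), (431, .ofNat 1)]) te)))) (tn (tn te (tn (tn (tl [(399, .ofNat 1)]) te) (tn (tl [(427, .ofNat 1)]) te))) (tn (tn (tn (tl [(375, .ofNat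 1), (377, .ofNat 1), (378, .ofNat 2), (380, .ofNat 2), (381, .ofNat 2), (382, .ofNat 1), (384, .ofNat 2), (385, .ofNat 1)]) te) te) (tn te (tn (tl [(430, .ofNat 2), (431, .ofNat 2)]) te)))))) (tn (tn (tn (tn (tn (tn te (tl [(432, .ofNat 2)])) te) te) (tn (tn (tn (tl [(312, .ofNat 1), (313, .ofNat 1), (314, .ofNat 1), (315, .ofNat 1), (316, .ofNat 2), (317, .ofNat 1), (319, .ofNat 2), (320, .ofNat 1), (321, .ofNat 1), (325, .ofNat 1)]) te) (tn (tl [(423, .ofNat 2), (424, .ofNat 1), (425, .ofNat 1)]) te)) te)) (tn (tn (tn te (tn (tl [(414, .ofNat 1), (416, .ofNat 2), (417, .ofNat 2)]) te)) (tn (tn (tl [(392, .ofNat 1), (393, .ofNat 2), (394, .ofNat 2)]) te) (tn (tl [(427, .ofNat 2)]) te))) (tn (tn (tn (tl [(364, .ofNat 1), (366, .ofNat 2), (367, .ofNat 1), (368, .ofNat 1), (369, .ofNat 1), (370, .ofNat 1), (371, .ofNat 1), (372, .ofNat 1), (373, .ofNat 1)]) te) te) (tn te (tn (tl [(430, .ofNat 1), (431, .ofNat 1)]) te))))) (tn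 (tn (tn (tn (tn te (tl [(432, .ofNat 2), (433, .ofNat 2)])) te) (tn (tn (tl [(392, .ofNat 1), (393, .ofNat 1)]) te) te)) (tn te (tn te (tn (tl [(430, .ofNat 1), (431, .ofNat 2)]) te)))) (tn (tn (tn (tn (tl [(278, .ofNat 2), (279, .ofNat 1), (280, .ofNat 1), (281, .ofNat 1), (282, .ofNat 2), (283, .ofNat 1), (286, .ofNat 2), (287, .ofNat 2), (288, .ofNat 1), (289, .ofNat 1), (290, .ofNat 1), (291, .ofNat 2)]) te) (tn (tl [(418, .ofNat 1), (419, .ofNat 1), (420, .ofNat 2), (422, .ofNat 1)]) te)) (tn (tn (tl [(397, .ofNat 1), (398, .ofNat 2), (399, .ofNat 2), (400, .ofNat 1), (401, .ofNat 1)]) te) te)) (tn te (tn te (tn (tl [(430, .ofNat 1)]) te)))))))))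

def r16 : Tr SV := (tn (tn (tn (tn (tn (tn (tn (tn (tn (tl [(55, .ofNat 1)]) te) (tn (tl [(418, .ofNat 2), (419, .ofNat 1), (420, .ofNat 1), (421, .ofNat 1), (422, .ofNat 1)]) te)) te) (tn (tn (tn (tl [(328, .ofNat 1)]) te) te) (tn (tn (tl [(409, .ofNat 1), (410, .ofNat 1), (411, .ofNat 2), (412, .ofNat 2)]) te) te))) (tn (tn (tn te (tn (tl [(423, .ofNat 1), (424, .ofNat 1)]) te)) (tn (tn (tl [(404, .ofNat 1), (405, .ofNat 2), (407, .ofNat 2), (408, .ofNat 1)]) te) te)) (tn (tn (tn (tl [(376, .ofNat 1), (379, .ofNat 1), (383, .ofNat 1), (385, .ofNat 1)]) te) te) (tn (tn (tl [(421, .ofNat 2)]) te) te)))) (tn (tn (tn (tn (tn (tl [(186, .ofNat 1)]) te) (tn (tl [(423, .ofNat 1), (424, .ofNat 2)]) te)) (tn (tn (tl [(392, .ofNat 1), (394, .ofNat 1), (395, .ofNat 2), (396, .ofNat 2)]) te) te)) (tn (tn (tn (tl [(356, .ofNat 1), (358, .ofNat 2)]) te) te) (tn (tn (tl [(415, .ofNat 1), (417, .ofNat 1)]) te) (tn (tl [(432, .ofNat 2),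 (433, .ofNat 1)]) te)))) (tn (tn (tn (tn (tl [(294, .ofNat 1), (296, .ofNat 2), (297, .ofNat 1), (298, .ofNat 2), (300, .ofNat 2), (301, .ofNat 1), (303, .ofNat 1), (304, .ofNat 2), (305, .ofNat 2), (306, .ofNat 2), (310, .ofNat 1), (311, .ofNat 2)]) te) te) (tn (tn (tl [(402, .ofNat 1), (403, .ofNat 2), (404, .ofNat 2), (405, .ofNat 2), (406, .ofNat 2), (407, .ofNat 1), (408, .ofNat 1)]) te) (tn (tl [(428, .ofNat 2), (429, .ofNat 1)]) te))) (tn te (tn (tn (tl [(418, .ofNat 1), (419, .ofNat 1), (420, .ofNat 1)]) te) te))))) (tn (tn (tn (tn (tn (tn (tl [(148, .ofNat 1)]) te) (tn (tl [(424, .ofNat 1), (425, .ofNat 2)]) te)) (tn (tn (tl [(392, .ofNat 2), (393, .ofNat 2), (394, .ofNat 1), (395, .ofNat 2), (396, .ofNat 2)]) te) te)) (tn (tn (tn (tl [(338, .ofNat 1)]) te) te) (tn (tn (tl [(410, .ofNat 2), (412, .ofNat 2)]) te) te))) (tn (tn (tn (tn (tl [(258, .ofNat 1), (259, .ofNat 1), (260, .ofNat 2), (261, .ofNat 1), (263, .ofNat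 1), (264, .ofNat 1), (265, .ofNat 1), (267, .ofNat 2), (269, .ofNat 2), (270, .ofNat 2), (271, .ofNat 1), (274, .ofNat 2), (275, .ofNat 1), (276, .ofNat 1), (277, .ofNat 2)]) te) te) (tn (tn (tl [(402, .ofNat 2), (403, .ofNat 2), (406, .ofNat 1), (407, .ofNat 2), (408, .ofNat 1)]) te) te)) (tn (tn (tn (tl [(375, .ofNat 2), (376, .ofNat 1), (377, .ofNat 2), (379, .ofNat 2), (380, .ofNat 2), (381, .ofNat 1), (382, .ofNat 1), (383, .ofNat 1), (384, .ofNat 1), (385, .ofNat 2)]) te) te) (tn (tn (tl [(418, .ofNat 2), (419, .ofNat 2), (421, .ofNat 2), (422, .ofNat 2)]) te) te)))) (tn (tn (tn (tn (tn (tl [(204, .ofNat 1)]) te) (tn (tl [(424, .ofNat 2), (425, .ofNat 2)]) te)) (tn (tn (tl [(399, .ofNat 2), (400, .ofNat 2), (401, .ofNat 1)]) te) te)) (tn (tn (tn (tl [(364, .ofNat 2), (365, .ofNat 2), (366, .ofNat 1), (367, .ofNat 1), (368, .ofNat 2), (369, .ofNat 2), (370, .ofNat 2), (371, .ofNat 2), (372, .ofNat 1), (373, .ofNat 1),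 (374, .ofNat 2)]) te) te) (tn (tn (tl [(415, .ofNat 1), (416, .ofNat 1)]) te) te))) (tn (tn (tn (tn (tl [(313, .ofNat 2), (314, .ofNat 1), (316, .ofNat 1), (317, .ofNat 2), (322, .ofNat 2), (323, .ofNat 1), (324, .ofNat 2)]) te) te) (tn (tn (tl [(409, .ofNat 2), (410, .ofNat 2), (412, .ofNat 1), (413, .ofNat 2)]) te) (tn (tl [(430, .ofNat 2), (431, .ofNat 1)]) te))) (tn te (tn (tn (tl [(418, .ofNat 2), (420, .ofNat 1), (421, .ofNat 1), (422, .ofNat 1)]) te) te)))))) (tn (tn (tn (tn (tn (tn (tn (tl [(61, .ofNat 1)]) te) (tn (tl [(423, .ofNat 2), (424, .ofNat 2), (425, .ofNat 1)]) te)) (tn (tn (tl [(387, .ofNat 1), (389, .ofNat 2), (391, .ofNat 2)]) te) te)) (tn (tn (tn (tl [(339, .ofNat 2), (340, .ofNat 2), (341, .ofNat 2), (342, .ofNat 1), (343, .ofNat 1), (344, .ofNat 2), (345, .ofNat 2), (347, .ofNat 1), (348, .ofNat 2), (354, .ofNat 1)]) te) te) (tn (tn (tl [(409, .ofNat 2), (410, .ofNat 1), (412, .ofNat 2)]) te) te))) (tn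 (tn (tn (tn (tl [(233, .ofNat 2), (235, .ofNat 1), (237, .ofNat 1), (241, .ofNat 2), (242, .ofNat 2), (244, .ofNat 2), (245, .ofNat 1), (246, .ofNat 2), (247, .ofNat 1), (249, .ofNat 2), (250, .ofNat 2), (251, .ofNat 1), (252, .ofNat 1), (254, .ofNat 2), (255, .ofNat 1), (256, .ofNat 2), (257, .ofNat 2)]) te) (tn (tl [(423, .ofNat 2), (424, .ofNat 1), (425, .ofNat 1), (426, .ofNat 1)]) te)) (tn (tn (tl [(402, .ofNat 2), (404, .ofNat 2), (406, .ofNat 2)]) te) te)) (tn (tn (tn (tl [(375, .ofNat 2), (376, .ofNat 2), (378, .ofNat 2), (379, .ofNat 1), (380, .ofNat 1), (381, .ofNat 1), (382, .ofNat 2), (384, .ofNat 1), (385, .ofNat 1)]) te) te) (tn (tn (tl [(418, .ofNat 1), (419, .ofNat 1), (420, .ofNat 1), (421, .ofNat 1)]) te) te)))) (tn (tn (tn (tn (tn (tl [(200, .ofNat 1)]) te) (tn (tl [(424, .ofNat 1), (425, .ofNat 1), (426, .ofNat 1)]) te)) (tn (tn (tl [(399, .ofNat 2), (400, .ofNat 2), (401, .ofNat 1)]) te) te)) (tn (tn (tn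 (tl [(356, .ofNat 2), (357, .ofNat 1), (359, .ofNat 1), (361, .ofNat 1), (362, .ofNat 1), (363, .ofNat 2)]) te) te) (tn (tn (tl [(415, .ofNat 1), (416, .ofNat 1), (417, .ofNat 1)]) te) te))) (tn (tn (tn (tn (tl [(312, .ofNat 2), (313, .ofNat 1), (316, .ofNat 2), (318, .ofNat 2), (319, .ofNat 2), (320, .ofNat 1), (321, .ofNat 1), (322, .ofNat 2), (325, .ofNat 1)]) te) te) (tn (tn (tl [(409, .ofNat 1), (412, .ofNat 1), (413, .ofNat 2)]) te) (tn (tl [(428, .ofNat 2), (429, .ofNat 2)]) te))) (tn te (tn (tn (tl [(418, .ofNat 1), (419, .ofNat 2), (422, .ofNat 2)]) te) te))))) (tn (tn (tn (tn (tn (tn (tl [(167, .ofNat 1)]) te) (tn (tl [(424, .ofNat 2), (425, .ofNat 2)]) te)) (tn (tn (tl [(392, .ofNat 2), (393, .ofNat 1), (395, .ofNat 2), (396, .ofNat 2)]) te) te)) (tn (tn (tn (tl [(340, .ofNat 1)]) te) te) (tn (tn (tl [(414, .ofNat 1), (415, .ofNat 1), (416, .ofNat 2)]) te) (tn (tl [(432, .ofNat 2), (433, .ofNat 1)]) te)))) (tn (tn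 (tn (tn (tl [(280, .ofNat 1), (281, .ofNat 1), (285, .ofNat 2), (286, .ofNat 2), (287, .ofNat 2), (288, .ofNat 2)]) te) te) (tn (tn (tl [(403, .ofNat 2), (404, .ofNat 2), (405, .ofNat 1), (408, .ofNat 2)]) te) te)) (tn (tn (tn (tl [(376, .ofNat 1), (377, .ofNat 1), (378, .ofNat 2), (380, .ofNat 1), (381, .ofNat 1), (382, .ofNat 1), (384, .ofNat 2)]) te) te) (tn (tn (tl [(420, .ofNat 1), (421, .ofNat 1), (422, .ofNat 2)]) te) te)))) (tn (tn (tn (tn (tn (tl [(208, .ofNat 1)]) te) (tn (tl [(423, .ofNat 1), (424, .ofNat 2), (425, .ofNat 2)]) te)) (tn (tn (tl [(399, .ofNat 2), (400, .ofNat 2), (401, .ofNat 1)]) te) te)) (tn (tn (tn (tl [(364, .ofNat 2), (365, .ofNat 2), (366, .ofNat 2), (368, .ofNat 2), (369, .ofNat 1), (370, .ofNat 1), (371, .ofNat 1), (373, .ofNat 2), (374, .ofNat 1)]) te) te) (tn (tn (tl [(414, .ofNat 2), (415, .ofNat 2), (417, .ofNat 2)]) te) te))) (tn (tn (tn (tn (tl [(326, .ofNat 1)]) te) te) (tn (tn (tl [(409,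 .ofNat 2), (410, .ofNat 2), (411, .ofNat 1), (412, .ofNat 2), (413, .ofNat 2)]) te) (tn (tl [(431, .ofNat 1)]) te))) (tn te (tn (tn (tl [(418, .ofNat 2), (422, .ofNat 1)]) te) te))))))) (tn (tn (tn (tn (tn (tn (tn (tn (tl [(58, .ofNat 1)]) te) (tn (tl [(418, .ofNat 1), (419, .ofNat 2), (421, .ofNat 2)]) te)) (tn (tn (tl [(387, .ofNat 2), (388, .ofNat 2), (389, .ofNat 2), (391, .ofNat 1)]) te) te)) (tn (tn (tn (tl [(329, .ofNat 1)]) te) te) (tn (tn (tl [(409, .ofNat 1), (410, .ofNat 1), (412, .ofNat 2), (413, .ofNat 2)]) te) (tn (tl [(430, .ofNat 2)]) te)))) (tn (tn (tn (tn (tl [(234, .ofNat 1), (235, .ofNat 1), (237, .ofNat 1), (238, .ofNat 2), (239, .ofNat 2), (241, .ofNat 2), (242, .ofNat 1), (243, .ofNat 1), (245, .ofNat 2), (246, .ofNat 2), (247, .ofNat 1), (248, .ofNat 2), (250, .ofNat 2), (251, .ofNat 1), (252, .ofNat 2), (253, .ofNat 1), (257, .ofNat 2)]) te) (tn (tl [(424, .ofNat 2), (425, .ofNat 2)]) te)) (tn (tn (tl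 [(406, .ofNat 1)]) te) te)) (tn (tn (tn (tl [(376, .ofNat 2), (378, .ofNat 1), (379, .ofNat 1), (380, .ofNat 1), (381, .ofNat 1), (382, .ofNat 2), (383, .ofNat 2), (384, .ofNat 2)]) te) te) (tn (tn (tl [(418, .ofNat 1), (420, .ofNat 1), (421, .ofNat 1)]) te) te)))) (tn (tn (tn (tn (tn (tl [(187, .ofNat 1)]) te) (tn (tl [(423, .ofNat 2), (424, .ofNat 1), (425, .ofNat 2)]) te)) te) (tn (tn (tn (tl [(355, .ofNat 1)]) te) te) (tn (tn (tl [(414, .ofNat 2), (415, .ofNat 1), (416, .ofNat 2)]) te) te))) (tn (tn (tn (tn (tl [(292, .ofNat 1), (294, .ofNat 1), (295, .ofNat 1), (298, .ofNat 2), (299, .ofNat 2), (300, .ofNat 1), (301, .ofNat 2), (302, .ofNat 1), (303, .ofNat 1), (304, .ofNat 1), (305, .ofNat 1), (308, .ofNat 2), (309, .ofNat 1), (311, .ofNat 2)]) te) te) (tn (tn (tl [(403, .ofNat 2), (404, .ofNat 1), (406, .ofNat 2)]) te) (tn (tl [(429, .ofNat 2)]) te))) te))) (tn (tn (tn (tn (tn (tn (tl [(156, .ofNat 1)]) te) (tn (tl [(423,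 .ofNat 1), (425, .ofNat 1), (426, .ofNat 1)]) te)) (tn (tn (tl [(392, .ofNat 1), (393, .ofNat 2), (395, .ofNat 1), (396, .ofNat 1)]) te) te)) (tn (tn (tn (tl [(339, .ofNat 1)]) te) te) (tn (tn (tl [(415, .ofNat 1), (416, .ofNat 2), (417, .ofNat 1)]) te) (tn (tl [(432, .ofNat 2), (433, .ofNat 1)]) te)))) (tn (tn (tn (tn (tl [(278, .ofNat 2), (279, .ofNat 2), (281, .ofNat 1), (282, .ofNat 2), (283, .ofNat 1), (284, .ofNat 1), (285, .ofNat 1), (286, .ofNat 2), (287, .ofNat 1), (289, .ofNat 1), (290, .ofNat 1), (291, .ofNat 2)]) te) te) (tn (tn (tl [(402, .ofNat 2), (403, .ofNat 1), (404, .ofNat 1), (405, .ofNat 2), (406, .ofNat 1), (408, .ofNat 2)]) te) (tn (tl [(428, .ofNat 1), (429, .ofNat 2)]) te))) (tn (tn (tn (tl [(377, .ofNat 2), (378, .ofNat 2), (380, .ofNat 2), (382, .ofNat 1), (383, .ofNat 1), (384, .ofNat 1), (385, .ofNat 2)]) te) te) (tn (tn (tl [(418, .ofNat 1), (420, .ofNat 2)]) te) te)))) (tn (tn (tn (tn (tn (tl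 [(205, .ofNat 1)]) te) (tn (tl [(424, .ofNat 2)]) te)) te) (tn (tn (tn (tl [(365, .ofNat 2), (366, .ofNat 2), (369, .ofNat 1), (370, .ofNat 2), (371, .ofNat 2)]) te) te) (tn (tn (tl [(414, .ofNat 1), (416, .ofNat 2), (417, .ofNat 2)]) te) te))) (tn (tn (tn (tn (tl [(312, .ofNat 1), (313, .ofNat 2), (318, .ofNat 1), (319, .ofNat 2), (320, .ofNat 2), (321, .ofNat 2), (322, .ofNat 1), (323, .ofNat 2), (324, .ofNat 1), (325, .ofNat 2)]) te) te) (tn (tn (tl [(409, .ofNat 1), (410, .ofNat 1), (411, .ofNat 2), (412, .ofNat 1)]) te) (tn (tl [(430, .ofNat 1)]) te))) (tn te (tn (tn (tl [(419, .ofNat 1), (420, .ofNat 1), (422, .ofNat 2)]) te) te)))))) (tn (tn (tn (tn (tn (tn (tn (tl [(64, .ofNat 1)]) te) (tn (tl [(423, .ofNat 2), (424, .ofNat 2)]) te)) (tn (tn (tl [(387, .ofNat 1), (389, .ofNat 1), (390, .ofNat 1), (391, .ofNat 1)]) te) te)) (tn (tn (tn (tl [(338, .ofNat 1), (339, .ofNat 2), (340, .ofNat 2), (342, .ofNat 2), (344, .ofNat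 1), (346, .ofNat 1), (349, .ofNat 1), (350, .ofNat 1), (353, .ofNat 2)]) te) te) (tn (tn (tl [(409, .ofNat 1), (410, .ofNat 1), (411, .ofNat 1), (412, .ofNat 2)]) te) (tn (tl [(432, .ofNat 2), (433, .ofNat 1)]) te)))) (tn (tn (tn (tn (tl [(259, .ofNat 2), (260, .ofNat 1), (262, .ofNat 1), (266, .ofNat 1), (267, .ofNat 1), (268, .ofNat 2), (269, .ofNat 2), (270, .ofNat 2), (271, .ofNat 2), (272, .ofNat 2), (273, .ofNat 2), (274, .ofNat 2), (277, .ofNat 2)]) te) (tn (tl [(423, .ofNat 2), (424, .ofNat 1), (425, .ofNat 1), (426, .ofNat 2)]) te)) (tn (tn (tl [(402, .ofNat 1), (403, .ofNat 1), (404, .ofNat 2), (405, .ofNat 2), (406, .ofNat 1), (407, .ofNat 1)]) te) te)) (tn (tn (tn (tl [(375, .ofNat 2), (378, .ofNat 2), (380, .ofNat 1), (381, .ofNat 1), (382, .ofNat 2), (383, .ofNat 1), (384, .ofNat 2), (385, .ofNat 1)]) te) te) (tn (tn (tl [(418, .ofNat 2), (422, .ofNat 2)]) te) te)))) (tn (tn (tn (tn (tn (tl [(201, .ofNat 1)])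 te) (tn (tl [(424, .ofNat 1), (426, .ofNat 1)]) te)) (tn (tn (tl [(399, .ofNat 2), (400, .ofNat 2), (401, .ofNat 1)]) te) te)) (tn (tn (tn (tl [(364, .ofNat 2), (365, .ofNat 2), (371, .ofNat 1), (372, .ofNat 1)]) te) te) (tn (tn (tl [(417, .ofNat 1)]) te) te))) (tn (tn (tn (tn (tl [(313, .ofNat 1), (314, .ofNat 2), (317, .ofNat 1), (320, .ofNat 1), (321, .ofNat 1), (322, .ofNat 2), (323, .ofNat 1)]) te) te) (tn (tn (tl [(411, .ofNat 2), (412, .ofNat 1), (413, .ofNat 2)]) te) (tn (tl [(429, .ofNat 2)]) te))) (tn te (tn (tn (tl [(418, .ofNat 2), (422, .ofNat 2)]) te) te))))) (tn (tn (tn (tn (tn (tn (tl [(175, .ofNat 1)]) te) (tn (tl [(423, .ofNat 2)]) te)) (tn (tn (tl [(393, .ofNat 2), (394, .ofNat 2)]) te) te)) (tn (tn (tn (tl [(355, .ofNat 1), (356, .ofNat 1), (357, .ofNat 2), (359, .ofNat 2), (362, .ofNat 1), (363, .ofNat 2)]) te) te) (tn (tn (tl [(414, .ofNat 1), (415, .ofNat 2), (416, .ofNat 2)]) te) (tn (tl [(432, .ofNat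 2), (433, .ofNat 1)]) te)))) (tn (tn (tn (tn (tl [(293, .ofNat 2), (294, .ofNat 1), (295, .ofNat 2), (296, .ofNat 1), (300, .ofNat 1), (302, .ofNat 2), (303, .ofNat 2), (304, .ofNat 1), (308, .ofNat 2), (309, .ofNat 2), (310, .ofNat 1), (311, .ofNat 1)]) te) te) (tn (tn (tl [(402, .ofNat 2), (406, .ofNat 2)]) te) (tn (tl [(429, .ofNat 1)]) te))) (tn te (tn (tn (tl [(418, .ofNat 1), (419, .ofNat 1), (420, .ofNat 2), (422, .ofNat 2)]) te) te)))) (tn (tn (tn (tn (tn (tl [(209, .ofNat 1)]) te) (tn (tl [(423, .ofNat 2), (424, .ofNat 2)]) te)) (tn (tn (tl [(403, .ofNat 2), (404, .ofNat 1), (405, .ofNat 1), (406, .ofNat 2), (407, .ofNat 1), (408, .ofNat 2)]) te) te)) (tn (tn (tn (tl [(364, .ofNat 1), (365, .ofNat 1), (366, .ofNat 2), (367, .ofNat 1), (368, .ofNat 2), (369, .ofNat 1), (371, .ofNat 2), (372, .ofNat 1), (373, .ofNat 2), (374, .ofNat 1)]) te) te) (tn (tn (tl [(414, .ofNat 2), (415, .ofNat 1), (416, .ofNat 1), (417, .ofNat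 2)]) te) te))) (tn (tn (tn (tn (tl [(327, .ofNat 1)]) te) te) (tn (tn (tl [(409, .ofNat 1), (410, .ofNat 2), (411, .ofNat 2), (412, .ofNat 1)]) te) (tn (tl [(431, .ofNat 1)]) te))) (tn te (tn (tn (tl [(418, .ofNat 1), (422, .ofNat 2)]) te) te))))))))

def r17 : Tr SV := (tn (tn (tn (tn (tn (tn (tn (tn te (tn te (tl [(434, .ofNat 2)]))) (tn (tn (tl [(402, .ofNat 1), (403, .ofNat 1), (405, .ofNat 2), (406, .ofNat 1), (407, .ofNat 2), (408, .ofNat 2)]) te) te)) te) (tn (tn (tn (tn (tl [(234, .ofNat 2), (235, .ofNat 1), (236, .ofNat 1), (237, .ofNat 2), (238, .ofNat 1), (239, .ofNat 2), (244, .ofNat 1), (245, .ofNat 2), (246, .ofNat 1), (247, .ofNat 2), (248, .ofNat 1), (250, .ofNat 2), (251, .ofNat 1), (252, .ofNat 2), (253, .ofNat 1), (254, .ofNat 1), (255, .ofNat 2)]) te) te) (tn te (tn (tl [(430, .ofNat 2)]) te))) (tn (tn (tn (tl [(386, .ofNat 1)]) te) te) te))) (tn (tn (tn (tn (tn (tl [(212, .ofNat 1)]) te) te) te) te) te))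 (tn (tn (tn (tn te (tn te (tn (tl [(427, .ofNat 1)]) te))) te) te) (tn (tn (tn (tn (tn (tl [(214, .ofNat 2), (218, .ofNat 1)]) te) te) (tn te (tn (tl [(428, .ofNat 1), (429, .ofNat 2)]) te))) te) (tn te (tn (tn (tn (tl [(387, .ofNat 2), (388, .ofNat 2), (389, .ofNat 1)]) te) te) (tn (tn te (tl [(434, .ofNat 2)])) te)))))) (tn (tn (tn (tn (tn (tn (tn (tl [(71, .ofNat 2), (72, .ofNat 2)]) te) te) te) te) (tn (tn te (tn te (tn (tl [(431, .ofNat 2)]) te))) (tn (tn (tn (tl [(386, .ofNat 1)]) te) te) te))) (tn te (tn te (tn (tn (tn (tl [(387, .ofNat 1), (389, .ofNat 2), (390, .ofNat 1), (391, .ofNat 1)]) te) (tn (tl [(427, .ofNat 1)]) te)) (tn (tn te (tl [(434, .ofNat 2)])) te))))) (tn (tn (tn (tn te (tn te (tn (tl [(427, .ofNat 1)]) te))) te) (tn te (tn (tn (tn (tl [(386, .ofNat 1)]) te) te) te))) (tn (tn (tn (tn (tn (tl [(220, .ofNat 1), (221, .ofNat 1), (222, .ofNat 1), (226, .ofNat 1)]) te) te) (tn te (tn (tl [(428, .ofNat 2),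 (429, .ofNat 2)]) te))) te) (tn te (tn (tn (tn (tl [(392, .ofNat 2), (393, .ofNat 1), (396, .ofNat 2)]) te) (tn (tl [(427, .ofNat 1)]) te)) te)))))) (tn (tn (tn (tn (tn (tn (tn (tn (tl [(65, .ofNat 1), (66, .ofNat 2), (67, .ofNat 2)]) te) te) (tn te (tn (tl [(427, .ofNat 2)]) te))) te) (tn (tn te (tn te (tn (tl [(431, .ofNat 1)]) te))) te)) (tn te (tn te (tn te (tn (tn te (tl [(434, .ofNat 2)])) te))))) (tn (tn (tn (tn te (tn te (tn (tl [(427, .ofNat 2)]) te))) te) (tn te (tn (tn (tn (tl [(386, .ofNat 1)]) te) te) te))) (tn (tn (tn (tn (tn (tl [(213, .ofNat 1), (216, .ofNat 2), (217, .ofNat 1), (218, .ofNat 1), (219, .ofNat 1)]) te) te) te) te) (tn te (tn (tn (tn (tl [(393, .ofNat 2), (395, .ofNat 1)]) te) (tn (tl [(427, .ofNat 2)]) te)) te))))) (tn (tn (tn (tn (tn (tn (tn (tl [(89, .ofNat 1)]) te) te) (tn te (tn (tl [(427, .ofNat 1)]) te))) te) (tn (tn te (tn te (tn (tl [(430, .ofNat 2)]) te))) (tn (tn (tn (tl [(386, .ofNat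 1)]) te) te) te))) (tn te (tn te (tn (tn (tn (tl [(388, .ofNat 2), (390, .ofNat 1), (391, .ofNat 1)]) te) te) te)))) (tn (tn (tn (tn te (tn te (tn (tl [(427, .ofNat 2)]) te))) te) (tn te (tn te (tn (tn te (tl [(434, .ofNat 1)])) te)))) (tn (tn (tn (tn (tn (tl [(220, .ofNat 2), (221, .ofNat 1), (223, .ofNat 1), (225, .ofNat 1), (226, .ofNat 1)]) te) te) (tn te (tn (tl [(428, .ofNat 2), (429, .ofNat 1)]) te))) te) (tn te (tn (tn (tn (tl [(392, .ofNat 2), (393, .ofNat 1), (394, .ofNat 2)]) te) te) (tn (tn te (tl [(434, .ofNat 1)])) te))))))))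

def r18 : Tr SV := (tn (tn (tn (tn (tn (tn (tn (tn te (tn te (tl [(434, .ofNat 2)]))) (tn (tn (tl [(403, .ofNat 1), (404, .ofNat 1), (405, .ofNat 2), (406, .ofNat 1), (408, .ofNat 1)]) te) te)) te) (tn (tn (tn (tn (tl [(246, .ofNat 2), (256, .ofNat 1)]) te) te) (tn te (tn (tl [(430, .ofNat 1)]) te))) (tn (tn (tn (tl [(386, .ofNat 2)]) te) te) te))) (tn (tn (tn (tn (tn (tl [(212, .ofNat 1)]) te) te) te) te) te)) (tn (tn te (tn te (tn (tn (tn (tl [(386, .ofNat 2)]) te) te) te))) (tn (tn (tn (tn (tn (tl [(213, .ofNat 2), (214, .ofNat 1), (216, .ofNat 2), (218, .ofNat 1), (219, .ofNat 2)]) te) te) (tn te (tn (tl [(428, .ofNat 2)]) te))) te) (tn te (tn (tn (tn (tl [(387, .ofNat 2), (388, .ofNat 2), (389, .ofNat 1), (390, .ofNat 1)]) te) te) te))))) (tn (tn (tn (tn (tn (tn (tn (tl [(69, .ofNat 2), (71, .ofNat 2), (72, .ofNat 2)]) te) te) (tn te (tn (tl [(427, .ofNat 2)]) te))) te) (tn (tn te (tn te (tn (tl [(430, .ofNat 2), (431,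 .ofNat 2)]) te))) (tn (tn (tn (tl [(386, .ofNat 2)]) te) te) te))) (tn te (tn te (tn (tn (tn (tl [(387, .ofNat 1), (388, .ofNat 1), (389, .ofNat 1), (391, .ofNat 1)]) te) (tn (tl [(427, .ofNat 2)]) te)) te)))) (tn (tn (tn (tn te (tn te (tn (tl [(427, .ofNat 2)]) te))) te) te) (tn (tn (tn (tn (tn (tl [(222, .ofNat 2), (223, .ofNat 2), (224, .ofNat 2), (225, .ofNat 1), (226, .ofNat 2)]) te) te) (tn te (tn (tl [(428, .ofNat 2), (429, .ofNat 2)]) te))) te) (tn te (tn (tn (tn (tl [(392, .ofNat 1), (394, .ofNat 2), (395, .ofNat 1), (396, .ofNat 2)]) te) te) (tn (tn te (tl [(434, .ofNat 2)])) te))))))) (tn (tn (tn (tn (tn (tn (tn (tn (tl [(66, .ofNat 2), (67, .ofNat 2)]) te) te) te) te) (tn (tn te (tn te (tn (tl [(431, .ofNat 2)]) te))) (tn (tn (tn (tl [(386, .ofNat 2)]) te) te) te))) te) (tn (tn te (tn te (tn (tn (tn (tl [(386, .ofNat 2)]) te) te) te))) (tn (tn (tn (tn (tn (tl [(213, .ofNat 2), (214, .ofNat 1), (215, .ofNat 1), (216,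 .ofNat 2), (217, .ofNat 2), (218, .ofNat 1), (219, .ofNat 1)]) te) te) (tn te (tn (tl [(429, .ofNat 1)]) te))) te) (tn te (tn (tn (tn (tl [(392, .ofNat 1), (393, .ofNat 2), (394, .ofNat 1)]) te) (tn (tl [(427, .ofNat 1)]) te)) te))))) (tn (tn (tn (tn (tn (tn (tn (tl [(83, .ofNat 2), (88, .ofNat 1)]) te) te) (tn te (tn (tl [(427, .ofNat 1)]) te))) te) (tn (tn te (tn te (tn (tl [(430, .ofNat 2)]) te))) (tn (tn (tn (tl [(386, .ofNat 1)]) te) te) te))) (tn te (tn te (tn (tn (tn (tl [(388, .ofNat 2), (390, .ofNat 1), (391, .ofNat 2)]) te) (tn (tl [(427, .ofNat 1)]) te)) (tn (tn te (tl [(434, .ofNat 1)])) te))))) (tn (tn (tn (tn te (tn te (tn (tl [(427, .ofNat 2)]) te))) te) (tn te (tn te (tn (tn te (tl [(434, .ofNat 2)])) te)))) (tn (tn (tn (tn (tn (tl [(221, .ofNat 1), (222, .ofNat 1), (223, .ofNat 2), (224, .ofNat 1), (225, .ofNat 1)]) te) te) (tn te (tn (tl [(428, .ofNat 2)]) te))) te) (tn te (tn (tn (tn (tl [(392, .ofNat 2),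 (395, .ofNat 1), (396, .ofNat 2)]) te) (tn (tl [(427, .ofNat 1)]) te)) te)))))))

def r19 : Tr SV := (tn (tn (tn (tn (tn (tn (tn (tn (tn (tl [(65, .ofNat 2), (66, .ofNat 2)]) te) te) (tn (tn (tl [(409, .ofNat 2), (410, .ofNat 2), (411, .ofNat 1), (412, .ofNat 2)]) te) te)) te) (tn (tn (tn (tn (tl [(259, .ofNat 1), (260, .ofNat 2), (261, .ofNat 2), (264, .ofNat 2), (265, .ofNat 2), (267, .ofNat 2), (268, .ofNat 1), (269, .ofNat 1), (270, .ofNat 1), (271, .ofNat 1), (272, .ofNat 1), (273, .ofNat 1), (277, .ofNat 1)]) te) te) (tn te (tn (tl [(432, .ofNat 1), (433, .ofNat 1)]) te))) (tn (tn te (tn (tl [(427, .ofNat 1)]) te)) te))) (tn te (tn te (tn (tn (tn (tl [(387, .ofNat 2), (388, .ofNat 1), (389, .ofNat 1), (390, .ofNat 1), (391, .ofNat 1)]) te) (tn (tl [(427, .ofNat 1)]) te)) te)))) (tn (tn te (tn te (tn (tn te (tn (tl [(427, .ofNat 2)]) te)) (tn (tn te (tl [(434, .ofNat 1)])) te)))) (tn (tn te (tn (tn (tn (tl [(386, .ofNat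 1)]) te) te) (tn (tn te (tl [(434, .ofNat 1)])) te))) te))) (tn (tn (tn (tn (tn (tn (tn (tl [(73, .ofNat 2), (74, .ofNat 1), (76, .ofNat 2), (77, .ofNat 1)]) te) te) te) te) (tn (tn te (tn te (tn (tl [(432, .ofNat 2), (433, .ofNat 1)]) te))) (tn (tn te (tn (tl [(427, .ofNat 1)]) te)) (tn (tn te (tl [(434, .ofNat 2)])) te)))) (tn (tn (tn (tn (tn (tl [(213, .ofNat 2), (214, .ofNat 2), (215, .ofNat 2), (216, .ofNat 2), (217, .ofNat 1), (219, .ofNat 1)]) te) te) (tn te (tn (tl [(428, .ofNat 1)]) te))) te) te)) (tn (tn te (tn te (tn te (tn (tn te (tl [(434, .ofNat 2)])) te)))) (tn (tn (tn (tn (tn (tl [(227, .ofNat 2), (230, .ofNat 1), (231, .ofNat 1), (232, .ofNat 2)]) te) te) te) (tn (tn (tn (tl [(386, .ofNat 1)]) te) te) te)) (tn te (tn (tn (tn (tl [(401, .ofNat 2)]) te) te) te)))))) (tn (tn (tn (tn te (tn (tn te (tn te (tn (tl [(432, .ofNat 1)]) te))) (tn te (tn (tn te (tl [(434, .ofNat 1)])) te)))) (tn (tn (tn te (tn te (tn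 (tl [(428, .ofNat 2), (429, .ofNat 1)]) te))) te) (tn te (tn (tn (tn (tl [(388, .ofNat 1), (390, .ofNat 1), (391, .ofNat 2)]) te) te) te)))) (tn (tn te (tn te (tn (tn te (tn (tl [(427, .ofNat 2)]) te)) (tn (tn te (tl [(434, .ofNat 2)])) te)))) (tn (tn te (tn te (tn (tn te (tl [(434, .ofNat 2)])) te))) (tn te (tn (tn (tn (tl [(398, .ofNat 2), (400, .ofNat 1), (401, .ofNat 2)]) te) te) te))))) (tn (tn (tn (tn (tn (tn (tn (tl [(90, .ofNat 2), (94, .ofNat 1), (95, .ofNat 1), (98, .ofNat 2)]) te) te) te) te) (tn (tn te (tn te (tn (tl [(432, .ofNat 2), (433, .ofNat 2)]) te))) (tn (tn te (tn (tl [(427, .ofNat 2)]) te)) (tn (tn te (tl [(434, .ofNat 1)])) te)))) (tn (tn (tn (tn (tn (tl [(215, .ofNat 2), (217, .ofNat 1), (218, .ofNat 2), (219, .ofNat 2)]) te) te) (tn te (tn (tl [(428, .ofNat 1), (429, .ofNat 2)]) te))) (tn (tn (tn (tl [(386, .ofNat 2)]) te) te) te)) te)) (tn (tn te (tn te (tn (tn (tn (tl [(387, .ofNat 1), (388, .ofNat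 1), (389, .ofNat 1), (390, .ofNat 2), (391, .ofNat 2)]) te) (tn (tl [(427, .ofNat 2)]) te)) te))) (tn (tn (tn (tn (tn (tl [(227, .ofNat 1), (229, .ofNat 2), (230, .ofNat 1), (231, .ofNat 1)]) te) te) te) (tn (tn te (tn (tl [(427, .ofNat 2)]) te)) (tn (tn te (tl [(434, .ofNat 2)])) te))) (tn te (tn (tn (tn (tl [(397, .ofNat 2), (400, .ofNat 2), (401, .ofNat 1)]) te) te) te)))))))

def r20 : Tr SV := (tn (tn (tn (tn (tn (tn (tn (tn (tn (tl [(65, .ofNat 1), (66, .ofNat 2), (67, .ofNat 1)]) te) te) (tn (tn (tl [(409, .ofNat 2), (411, .ofNat 1), (412, .ofNat 1)]) te) te)) te) (tn (tn (tn (tn (tl [(259, .ofNat 1), (260, .ofNat 2), (261, .ofNat 2), (264, .ofNat 2), (265, .ofNat 1), (267, .ofNat 2), (268, .ofNat 1), (269, .ofNat 1), (270, .ofNat 1), (271, .ofNat 1), (272, .ofNat 1), (273, .ofNat 1), (277, .ofNat 2)]) te) te) (tn te (tn (tl [(432, .ofNat 1), (433, .ofNat 1)]) te))) (tn te (tn (tn te (tl [(434, .ofNat 2)])) te)))) (tn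 (tn (tn te (tn te (tn (tl [(428, .ofNat 1), (429, .ofNat 1)]) te))) te) (tn te (tn (tn (tn (tl [(388, .ofNat 1), (389, .ofNat 1), (391, .ofNat 1)]) te) te) te)))) (tn (tn te (tn te (tn (tn te (tn (tl [(427, .ofNat 2)]) te)) (tn (tn te (tl [(434, .ofNat 2)])) te)))) (tn (tn te (tn (tn (tn (tl [(386, .ofNat 1)]) te) te) (tn (tn te (tl [(434, .ofNat 1)])) te))) te))) (tn (tn (tn (tn (tn (tn (tn (tl [(73, .ofNat 2), (74, .ofNat 1), (76, .ofNat 1), (77, .ofNat 2)]) te) te) te) te) te) (tn (tn (tn (tn (tn (tl [(215, .ofNat 1), (216, .ofNat 2), (218, .ofNat 2), (219, .ofNat 1)]) te) te) (tn te (tn (tl [(428, .ofNat 1)]) te))) te) te)) (tn te (tn (tn (tn (tn (tn (tl [(227, .ofNat 2), (228, .ofNat 2), (229, .ofNat 1), (231, .ofNat 2)]) te) te) te) (tn (tn (tn (tl [(386, .ofNat 2)]) te) te) (tn (tn te (tl [(434, .ofNat 1)])) te))) (tn te (tn (tn (tn (tl [(397, .ofNat 1), (398, .ofNat 1), (400, .ofNat 1)]) te) te) te)))))) (tn (tn (tn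 (tn te (tn (tn te (tn te (tn (tl [(432, .ofNat 1), (433, .ofNat 2)]) te))) te)) (tn (tn (tn te (tn te (tn (tl [(429, .ofNat 2)]) te))) te) (tn te (tn (tn (tn (tl [(387, .ofNat 2), (388, .ofNat 1)]) te) te) te)))) (tn te (tn (tn te (tn te (tn (tn te (tl [(434, .ofNat 2)])) te))) (tn te (tn (tn (tn (tl [(397, .ofNat 2), (398, .ofNat 1), (400, .ofNat 1), (401, .ofNat 1)]) te) te) te))))) (tn (tn (tn (tn (tn (tn (tn (tl [(90, .ofNat 2), (95, .ofNat 1), (98, .ofNat 2), (100, .ofNat 1)]) te) te) te) te) (tn (tn te (tn te (tn (tl [(432, .ofNat 1), (433, .ofNat 2)]) te))) (tn (tn te (tn (tl [(427, .ofNat 2)]) te)) te))) (tn (tn (tn (tn (tn (tl [(214, .ofNat 2), (215, .ofNat 1), (216, .ofNat 1), (217, .ofNat 1), (218, .ofNat 2), (219, .ofNat 2)]) te) te) (tn te (tn (tl [(428, .ofNat 1), (429, .ofNat 1)]) te))) (tn (tn (tn (tl [(386, .ofNat 1)]) te) te) te)) te)) (tn (tn (tn (tn (tn (tn (tl [(212, .ofNat 1)]) te) te) te) te) (tn te (tn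 (tn (tn (tl [(387, .ofNat 2), (390, .ofNat 2), (391, .ofNat 1)]) te) te) te))) (tn (tn (tn (tn (tn (tl [(228, .ofNat 1), (230, .ofNat 2), (231, .ofNat 2), (232, .ofNat 2)]) te) te) te) (tn (tn te (tn (tl [(427, .ofNat 1)]) te)) (tn (tn te (tl [(434, .ofNat 2)])) te))) (tn te (tn (tn (tn (tl [(397, .ofNat 2), (398, .ofNat 2), (400, .ofNat 2), (401, .ofNat 1)]) te) te) te)))))))

def r21 : Tr SV := (tn (tn (tn (tn (tn (tn (tn te (tn (tn (tl [(415, .ofNat 2), (416, .ofNat 2), (417, .ofNat 2)]) te) te)) te) (tn (tn (tn (tn (tl [(278, .ofNat 2), (279, .ofNat 2), (281, .ofNat 2), (282, .ofNat 2), (283, .ofNat 2), (284, .ofNat 1), (285, .ofNat 2), (287, .ofNat 2), (288, .ofNat 1), (289, .ofNat 2), (290, .ofNat 1), (291, .ofNat 1)]) te) te) te) te)) (tn (tn te (tn (tn (tn (tl [(386, .ofNat 1)]) te) (tn (tl [(427, .ofNat 2)]) te)) te)) te)) (tn te (tn (tn (tn (tn (tn (tl [(224, .ofNat 2), (225, .ofNat 2), (226, .ofNat 2)]) te) te) (tn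 te (tn (tl [(431, .ofNat 1)]) te))) (tn (tn te (tn (tl [(427, .ofNat 2)]) te)) te)) (tn te (tn (tn (tn (tl [(392, .ofNat 2), (393, .ofNat 1), (394, .ofNat 2), (395, .ofNat 2), (396, .ofNat 2)]) te) te) te))))) (tn (tn te (tn (tn te (tn (tn (tn (tl [(386, .ofNat 1)]) te) (tn (tl [(427, .ofNat 2)]) te)) (tn (tn te (tl [(434, .ofNat 1)])) te))) (tn te (tn (tn (tn (tl [(393, .ofNat 1)]) te) te) te)))) (tn (tn (tn (tn (tn (tn (tl [(212, .ofNat 2)]) te) te) te) te) te) (tn (tn (tn te (tn te (tn (tl [(430, .ofNat 2), (431, .ofNat 1)]) te))) (tn (tn te (tn (tl [(427, .ofNat 2)]) te)) te)) te)))) (tn (tn (tn (tn (tn (tn (tn (tn (tl [(68, .ofNat 1), (69, .ofNat 2), (71, .ofNat 2), (72, .ofNat 2)]) te) te) te) te) te) (tn (tn te (tn (tn (tn (tl [(386, .ofNat 1)]) te) (tn (tl [(427, .ofNat 2)]) te)) (tn (tn te (tl [(434, .ofNat 1)])) te))) te)) (tn te (tn (tn (tn (tn (tn (tl [(221, .ofNat 2), (223, .ofNat 2), (224, .ofNat 1), (225, .ofNat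 2)]) te) te) (tn te (tn (tl [(430, .ofNat 2)]) te))) (tn (tn te (tn (tl [(427, .ofNat 1)]) te)) te)) te))) (tn (tn (tn (tn (tn (tn (tn (tl [(111, .ofNat 1)]) te) te) te) te) te) (tn (tn te (tn (tn te (tn (tl [(427, .ofNat 2)]) te)) te)) (tn te (tn (tn (tn (tl [(392, .ofNat 1), (393, .ofNat 2), (394, .ofNat 1), (395, .ofNat 1), (396, .ofNat 1)]) te) te) te)))) (tn (tn (tn te (tn (tn (tn (tl [(386, .ofNat 2)]) te) (tn (tl [(427, .ofNat 2)]) te)) (tn (tn te (tl [(434, .ofNat 2)])) te))) te) (tn (tn (tn te (tn te (tn (tl [(430, .ofNat 1)]) te))) te) te)))))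

def r22 : Tr SV := (tn (tn (tn (tn (tn (tn (tn te (tn (tn (tl [(414, .ofNat 1), (415, .ofNat 1), (416, .ofNat 1)]) te) te)) te) (tn (tn (tn (tn (tl [(280, .ofNat 2), (290, .ofNat 1)]) te) te) te) te)) (tn (tn te (tn (tn (tn (tl [(386, .ofNat 1)]) te) (tn (tl [(427, .ofNat 2)]) te)) te)) te)) (tn te (tn (tn (tn (tn (tn (tl [(220, .ofNat 2), (221, .ofNat 2), (222, .ofNat 1), (224, .ofNat 2), (225, .ofNat 1)]) te) te) (tn te (tn (tl [(430, .ofNat 2)]) te))) (tn (tn te (tn (tl [(427, .ofNat 2)]) te)) te)) (tn te (tn (tn (tn (tl [(394, .ofNat 2)]) te) te) te))))) (tn (tn te (tn (tn te (tn (tn (tn (tl [(386, .ofNat 2)]) te) (tn (tl [(427, .ofNat 1)]) te)) (tn (tn te (tl [(434, .ofNat 1)])) te))) (tn te (tn (tn (tn (tl [(392, .ofNat 2)]) te) te) te)))) (tn (tn (tn (tn (tn (tn (tl [(212, .ofNat 2)]) te) te) te) te) te) (tn (tn (tn te (tn te (tn (tl [(430, .ofNat 2), (431, .ofNat 1)]) te))) (tn (tn te (tn (tl [(427, .ofNat 2)]) te))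 te)) te)))) (tn (tn (tn (tn (tn (tn (tn (tn (tl [(69, .ofNat 2), (71, .ofNat 2), (72, .ofNat 2)]) te) te) te) te) te) (tn (tn te (tn (tn (tn (tl [(386, .ofNat 2)]) te) (tn (tl [(427, .ofNat 1)]) te)) (tn (tn te (tl [(434, .ofNat 1)])) te))) te)) (tn (tn (tn te (tn te (tn (tn te (tl [(434, .ofNat 2)])) te))) te) (tn (tn (tn (tn (tn (tl [(220, .ofNat 1), (222, .ofNat 1), (224, .ofNat 2), (225, .ofNat 1)]) te) te) (tn te (tn (tl [(430, .ofNat 2), (431, .ofNat 1)]) te))) (tn (tn te (tn (tl [(427, .ofNat 2)]) te)) te)) te))) (tn (tn (tn (tn (tn (tn (tn (tl [(105, .ofNat 2), (110, .ofNat 1)]) te) te) te) te) te) (tn (tn te (tn (tn te (tn (tl [(427, .ofNat 2)]) te)) te)) (tn te (tn (tn (tn (tl [(392, .ofNat 1), (393, .ofNat 2), (394, .ofNat 1), (395, .ofNat 1), (396, .ofNat 1)]) te) te) te)))) (tn (tn (tn te (tn (tn te (tn (tl [(427, .ofNat 2)]) te)) (tn (tn te (tl [(434, .ofNat 2)])) te))) te) (tn (tn (tn te (tn te (tn (tl [(430,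 .ofNat 2), (431, .ofNat 1)]) te))) te) te)))))

def r23 : Tr SV := (tn (tn (tn (tn (tn (tn (tn (tn (tn (tl [(68, .ofNat 1), (69, .ofNat 1), (70, .ofNat 2)]) te) te) (tn (tn (tl [(418, .ofNat 2), (419, .ofNat 1), (420, .ofNat 1), (421, .ofNat 1)]) te) te)) te) (tn (tn (tn (tn (tl [(292, .ofNat 1), (293, .ofNat 1), (294, .ofNat 1), (296, .ofNat 2), (297, .ofNat 1), (298, .ofNat 2), (299, .ofNat 2), (301, .ofNat 2), (304, .ofNat 1), (305, .ofNat 2), (307, .ofNat 1), (308, .ofNat 2), (309, .ofNat 1), (310, .ofNat 1), (311, .ofNat 2)]) te) te) te) te)) (tn (tn (tn te (tn te (tn (tl [(431, .ofNat 1)]) te))) te) (tn (tn te (tn (tn te (tl [(434, .ofNat 2)])) te)) (tn (tn (tn (tl [(392, .ofNat 1), (395, .ofNat 2), (396, .ofNat 1)]) te) te) te)))) (tn (tn (tn te (tn (tn (tn (tl [(386, .ofNat 1)]) te) (tn (tl [(427, .ofNat 1)]) te)) te)) (tn (tn te (tn (tn te (tl [(434, .ofNat 1)])) te)) te)) (tn (tn (tn (tn (tn (tl [(227, .ofNat 2),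 (228, .ofNat 2), (229, .ofNat 1), (230, .ofNat 2), (231, .ofNat 2), (232, .ofNat 2)]) te) te) (tn te (tn (tl [(432, .ofNat 2)]) te))) te) (tn (tn (tn te (tn (tl [(427, .ofNat 1)]) te)) te) (tn (tn (tn (tl [(397, .ofNat 2), (398, .ofNat 1), (399, .ofNat 2)]) te) te) te))))) (tn (tn (tn (tn te (tn (tn (tn (tl [(386, .ofNat 1)]) te) (tn (tl [(427, .ofNat 2)]) te)) (tn (tn te (tl [(434, .ofNat 2)])) te))) te) (tn (tn (tn (tn (tn (tl [(220, .ofNat 1), (221, .ofNat 1), (226, .ofNat 2)]) te) te) (tn te (tn (tl [(430, .ofNat 1), (431, .ofNat 2)]) te))) te) (tn (tn te (tn (tn te (tl [(434, .ofNat 1)])) te)) (tn (tn (tn (tl [(397, .ofNat 1), (399, .ofNat 1), (400, .ofNat 1), (401, .ofNat 1)]) te) te) te)))) (tn (tn (tn te (tn (tn (tn (tl [(386, .ofNat 2)]) te) (tn (tl [(427, .ofNat 2)]) te)) te)) (tn (tn te (tn (tn te (tl [(434, .ofNat 1)])) te)) te)) (tn (tn (tn te (tn te (tn (tl [(432, .ofNat 1), (433, .ofNat 1)]) te))) te) (tn (tn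 (tn te (tn (tl [(427, .ofNat 1)]) te)) te) te))))) (tn (tn (tn (tn (tn (tn (tn (tn (tl [(74, .ofNat 1), (76, .ofNat 1), (77, .ofNat 2)]) te) te) te) (tn (tn te (tn (tl [(427, .ofNat 2)]) te)) (tn (tn te (tl [(434, .ofNat 1)])) te))) te) (tn (tn (tn te (tn te (tn (tl [(430, .ofNat 1), (431, .ofNat 1)]) te))) te) (tn (tn te (tn (tn te (tl [(434, .ofNat 2)])) te)) (tn (tn (tn (tl [(393, .ofNat 1)]) te) te) te)))) (tn (tn (tn te (tn (tn te (tn (tl [(427, .ofNat 2)]) te)) te)) (tn (tn te (tn (tn te (tl [(434, .ofNat 2)])) te)) te)) (tn (tn (tn (tn (tn (tl [(228, .ofNat 1), (229, .ofNat 1), (231, .ofNat 2), (232, .ofNat 1)]) te) te) te) te) (tn (tn (tn te (tn (tl [(427, .ofNat 1)]) te)) (tn (tn te (tl [(434, .ofNat 1)])) te)) te)))) (tn (tn (tn (tn (tn (tn (tn (tl [(112, .ofNat 2), (119, .ofNat 1), (120, .ofNat 1), (123, .ofNat 2)]) te) te) te) (tn (tn (tn (tl [(386, .ofNat 1)]) te) (tn (tl [(427, .ofNat 1)]) te)) te)) (tn (tn te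 (tn (tn te (tl [(434, .ofNat 2)])) te)) te)) (tn (tn (tn (tn (tn (tl [(220, .ofNat 1), (223, .ofNat 1), (224, .ofNat 1), (225, .ofNat 1)]) te) te) (tn te (tn (tl [(430, .ofNat 2), (431, .ofNat 1)]) te))) te) (tn (tn te (tn (tn te (tl [(434, .ofNat 2)])) te)) (tn (tn (tn (tl [(399, .ofNat 1), (400, .ofNat 2)]) te) te) te)))) (tn (tn te (tn te (tn (tn (tn (tl [(393, .ofNat 1), (395, .ofNat 2)]) te) te) te))) (tn (tn (tn te (tn te (tn (tl [(432, .ofNat 1), (433, .ofNat 2)]) te))) te) (tn (tn (tn te (tn (tl [(427, .ofNat 2)]) te)) te) te))))))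

def r24 : Tr SV := (tn (tn (tn (tn (tn (tn (tn (tn (tn (tl [(68, .ofNat 1), (70, .ofNat 2), (71, .ofNat 1)]) te) te) (tn (tn (tl [(420, .ofNat 1), (421, .ofNat 1), (422, .ofNat 2)]) te) te)) (tn (tn te (tn (tl [(427, .ofNat 2)]) te)) (tn (tn te (tl [(434, .ofNat 2)])) te))) (tn (tn (tn (tn (tl [(292, .ofNat 2), (293, .ofNat 2), (294, .ofNat 1), (295, .ofNat 1), (296, .ofNat 2), (298, .ofNat 2), (299, .ofNat 2), (300, .ofNat 1), (302, .ofNat 1), (303, .ofNat 1), (305, .ofNat 2), (306, .ofNat 2), (307, .ofNat 1), (308, .ofNat 2), (309, .ofNat 2), (310, .ofNat 2)]) te) te) te) te)) (tn te (tn te (tn (tn (tn (tl [(393, .ofNat 2), (394, .ofNat 2)]) te) te) te)))) (tn (tn (tn te (tn (tn (tn (tl [(386, .ofNat 2)]) te) te) te)) (tn (tn te (tn (tn te (tl [(434, .ofNat 1)])) te)) te)) (tn (tn (tn (tn (tn (tl [(227, .ofNat 1), (228, .ofNat 1), (232, .ofNat 2)]) te) te) (tn te (tn (tl [(432, .ofNat 2)]) te))) te) (tn (tn (tn te (tn (tl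 [(427, .ofNat 2)]) te)) (tn (tn te (tl [(434, .ofNat 2)])) te)) (tn (tn (tn (tl [(397, .ofNat 2), (398, .ofNat 2), (399, .ofNat 1), (400, .ofNat 1), (401, .ofNat 2)]) te) te) te))))) (tn (tn (tn (tn te (tn (tn (tn (tl [(386, .ofNat 2)]) te) te) (tn (tn te (tl [(434, .ofNat 2)])) te))) (tn (tn te (tn (tn te (tl [(434, .ofNat 2)])) te)) te)) (tn (tn (tn (tn (tn (tl [(220, .ofNat 1), (222, .ofNat 2), (223, .ofNat 2), (224, .ofNat 2), (225, .ofNat 2)]) te) te) (tn te (tn (tl [(431, .ofNat 2)]) te))) te) (tn (tn te (tn (tn te (tl [(434, .ofNat 1)])) te)) (tn (tn (tn (tl [(397, .ofNat 1), (398, .ofNat 2), (399, .ofNat 2), (400, .ofNat 1), (401, .ofNat 1)]) te) te) te)))) (tn (tn (tn te (tn (tn (tn (tl [(386, .ofNat 1)]) te) (tn (tl [(427, .ofNat 1)]) te)) te)) te) (tn te (tn (tn (tn te (tn (tl [(427, .ofNat 1)]) te)) (tn (tn te (tl [(434, .ofNat 1)])) te)) te))))) (tn (tn (tn (tn (tn (tn (tn (tn (tl [(74, .ofNat 1)]) te) te) te)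 te) te) (tn (tn (tn te (tn te (tn (tl [(431, .ofNat 1)]) te))) te) (tn (tn te (tn (tn te (tl [(434, .ofNat 2)])) te)) (tn (tn (tn (tl [(393, .ofNat 1), (395, .ofNat 2)]) te) te) te)))) (tn (tn (tn te (tn (tn (tn (tl [(386, .ofNat 2)]) te) te) te)) te) (tn (tn (tn (tn (tn (tl [(227, .ofNat 2), (228, .ofNat 2), (230, .ofNat 2), (232, .ofNat 2)]) te) te) te) te) te))) (tn (tn (tn (tn (tn (tn (tn (tl [(112, .ofNat 2), (120, .ofNat 1), (123, .ofNat 2), (125, .ofNat 1)]) te) te) te) (tn (tn (tn (tl [(386, .ofNat 2)]) te) (tn (tl [(427, .ofNat 2)]) te)) te)) te) (tn (tn (tn (tn (tn (tl [(220, .ofNat 1), (223, .ofNat 2), (224, .ofNat 1), (225, .ofNat 2)]) te) te) (tn te (tn (tl [(430, .ofNat 1), (431, .ofNat 1)]) te))) te) (tn (tn te (tn (tn te (tl [(434, .ofNat 2)])) te)) (tn (tn (tn (tl [(397, .ofNat 1), (398, .ofNat 1), (400, .ofNat 1)]) te) te) te)))) (tn (tn te (tn (tn te (tn (tn te (tl [(434, .ofNat 2)])) te)) te)) (tn (tn (tn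 te (tn te (tn (tl [(433, .ofNat 2)]) te))) te) (tn (tn (tn te (tn (tl [(427, .ofNat 1)]) te)) (tn (tn te (tl [(434, .ofNat 2)])) te)) te))))))

def r25 : Tr SV := (tn (tn (tn (tn (tn (tn (tn (tn (tn (tl [(69, .ofNat 1), (70, .ofNat 2), (72, .ofNat 1)]) te) te) (tn (tn (tl [(419, .ofNat 1), (420, .ofNat 2), (421, .ofNat 1)]) te) te)) (tn (tn te (tn (tl [(427, .ofNat 2)]) te)) (tn (tn te (tl [(434, .ofNat 1)])) te))) (tn (tn (tn (tn (tl [(292, .ofNat 1), (294, .ofNat 1), (295, .ofNat 1), (297, .ofNat 2), (298, .ofNat 2), (299, .ofNat 1), (301, .ofNat 2), (302, .ofNat 2), (304, .ofNat 2), (305, .ofNat 2), (306, .ofNat 2), (307, .ofNat 2), (310, .ofNat 1)]) te) te) te) te)) (tn te (tn te (tn (tn (tn (tl [(392, .ofNat 2), (395, .ofNat 1), (396, .ofNat 1)]) te) te) te)))) (tn (tn (tn te (tn (tn (tn (tl [(386, .ofNat 2)]) te) (tn (tl [(427, .ofNat 2)]) te)) te)) (tn (tn te (tn (tn te (tl [(434, .ofNat 1)])) te)) te)) (tn (tn (tn (tn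 (tn (tl [(228, .ofNat 2), (229, .ofNat 2), (230, .ofNat 1), (232, .ofNat 1)]) te) te) (tn te (tn (tl [(432, .ofNat 2)]) te))) te) (tn te (tn (tn (tn (tl [(398, .ofNat 1), (399, .ofNat 2), (401, .ofNat 2)]) te) te) te))))) (tn (tn (tn (tn te (tn te (tn (tn te (tl [(434, .ofNat 1)])) te))) (tn (tn te (tn (tn te (tl [(434, .ofNat 2)])) te)) te)) (tn (tn (tn (tn (tn (tl [(220, .ofNat 1), (222, .ofNat 2), (223, .ofNat 1), (224, .ofNat 2), (225, .ofNat 1), (226, .ofNat 2)]) te) te) (tn te (tn (tl [(430, .ofNat 2), (431, .ofNat 1)]) te))) te) (tn (tn te (tn (tn te (tl [(434, .ofNat 1)])) te)) (tn (tn (tn (tl [(399, .ofNat 2), (401, .ofNat 1)]) te) te) te)))) (tn (tn (tn te (tn (tn (tn (tl [(386, .ofNat 2)]) te) (tn (tl [(427, .ofNat 2)]) te)) te)) te) (tn (tn (tn te (tn te (tn (tl [(433, .ofNat 2)]) te))) te) (tn (tn (tn te (tn (tl [(427, .ofNat 1)]) te)) (tn (tn te (tl [(434, .ofNat 1)])) te)) te))))) (tn (tn (tn (tn (tn (tn (tn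 (tn (tl [(73, .ofNat 2), (74, .ofNat 1), (76, .ofNat 1), (77, .ofNat 2)]) te) te) te) (tn (tn te (tn (tl [(427, .ofNat 1)]) te)) (tn (tn te (tl [(434, .ofNat 2)])) te))) te) (tn te (tn te (tn (tn (tn (tl [(392, .ofNat 1), (395, .ofNat 2), (396, .ofNat 2)]) te) te) te)))) (tn (tn (tn (tn (tn (tn (tl [(212, .ofNat 1)]) te) te) te) (tn (tn (tn (tl [(386, .ofNat 1)]) te) (tn (tl [(427, .ofNat 1)]) te)) te)) te) (tn (tn (tn (tn (tn (tl [(227, .ofNat 1), (232, .ofNat 2)]) te) te) (tn te (tn (tl [(433, .ofNat 2)]) te))) te) (tn (tn (tn te (tn (tl [(427, .ofNat 2)]) te)) te) te)))) (tn (tn (tn (tn (tn (tn (tn (tl [(112, .ofNat 2), (118, .ofNat 2), (119, .ofNat 1), (120, .ofNat 1), (123, .ofNat 2), (129, .ofNat 1)]) te) te) te) (tn (tn (tn (tl [(386, .ofNat 1)]) te) (tn (tl [(427, .ofNat 2)]) te)) te)) te) (tn (tn (tn (tn (tn (tl [(220, .ofNat 1), (221, .ofNat 1), (222, .ofNat 2), (223, .ofNat 1), (224, .ofNat 1)]) te) te) (tn te (tn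 (tl [(430, .ofNat 1), (431, .ofNat 2)]) te))) te) (tn te (tn (tn (tn (tl [(397, .ofNat 1), (399, .ofNat 2), (401, .ofNat 1)]) te) te) te)))) (tn (tn te (tn (tn te (tn (tn te (tl [(434, .ofNat 2)])) te)) (tn (tn (tn (tl [(392, .ofNat 2), (393, .ofNat 2), (394, .ofNat 2), (395, .ofNat 2), (396, .ofNat 1)]) te) te) te))) (tn (tn (tn te (tn te (tn (tl [(432, .ofNat 1), (433, .ofNat 2)]) te))) te) (tn (tn (tn te (tn (tl [(427, .ofNat 1)]) te)) (tn (tn te (tl [(434, .ofNat 2)])) te)) te))))))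

def r26 : Tr SV := (tn (tn (tn (tn (tn (tn (tn (tn (tn (tl [(75, .ofNat 2), (76, .ofNat 2), (77, .ofNat 2)]) te) te) (tn (tn (tl [(423, .ofNat 2), (424, .ofNat 2), (425, .ofNat 2)]) te) te)) (tn (tn (tn (tl [(386, .ofNat 2)]) te) te) te)) (tn (tn (tn (tn (tl [(313, .ofNat 2), (314, .ofNat 1), (315, .ofNat 2), (318, .ofNat 2), (320, .ofNat 1), (321, .ofNat 2), (322, .ofNat 2), (323, .ofNat 2)]) te) te) (tn (tn te (tl [(434, .ofNat 2)])) te)) te)) (tn (tn (tn te (tn (tn te (tl [(434, .ofNat 1)])) te)) te) (tn (tn (tn te (tn (tl [(427, .ofNat 1)]) te)) te) (tn (tn (tn (tl [(397, .ofNat 2), (400, .ofNat 1), (401, .ofNat 1)]) te) te) te)))) (tn (tn (tn (tn (tn (tn (tl [(212, .ofNat 1)]) te) te) te) te) te) te)) (tn (tn te (tn (tn (tn (tn (tn (tl [(227, .ofNat 2), (228, .ofNat 1), (230, .ofNat 2), (231, .ofNat 2), (232, .ofNat 2)]) te) te) (tn (tn te (tl [(434, .ofNat 2)])) (tn (tl [(432, .ofNat 1), (433, .ofNat 1)]) te))) te) (tn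 (tn (tn te (tn (tl [(427, .ofNat 2)]) te)) te) te))) (tn (tn (tn (tn te (tn (tn te (tl [(434, .ofNat 1)])) te)) te) (tn (tn (tn te (tn (tl [(427, .ofNat 1)]) te)) te) te)) (tn te (tn (tn (tn (tn (tl [(386, .ofNat 1)]) te) te) te) te))))) (tn (tn (tn (tn (tn te (tn (tn (tn (tl [(386, .ofNat 2)]) te) te) te)) te) (tn (tn (tn te (tn te (tn (tl [(432, .ofNat 1), (433, .ofNat 1)]) te))) te) (tn te (tn (tn (tn (tl [(397, .ofNat 1), (399, .ofNat 1), (401, .ofNat 1)]) te) te) te)))) (tn (tn te (tn (tn (tn te (tn (tl [(427, .ofNat 1)]) te)) te) te)) (tn (tn (tn te (tn (tn te (tl [(434, .ofNat 2)])) te)) te) te))) (tn (tn (tn (tn (tn (tn (tn (tl [(145, .ofNat 1)]) te) te) te) te) te) (tn (tn (tn (tn (tn (tl [(227, .ofNat 2), (229, .ofNat 1), (230, .ofNat 1), (231, .ofNat 2), (232, .ofNat 1)]) te) te) (tn te (tn (tl [(432, .ofNat 1)]) te))) te) te)) (tn (tn (tn (tn te (tn (tn te (tl [(434, .ofNat 2)])) te)) te) (tn (tn (tn te (tn (tl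 [(427, .ofNat 1)]) te)) te) (tn (tn (tn (tl [(397, .ofNat 1), (398, .ofNat 2), (399, .ofNat 1), (401, .ofNat 2)]) te) te) te))) (tn te (tn (tn (tn (tn (tl [(386, .ofNat 1)]) te) te) te) te))))))

def r27 : Tr SV := (tn (tn (tn (tn (tn (tn (tn (tn (tn (tl [(73, .ofNat 1), (75, .ofNat 2), (77, .ofNat 1)]) te) te) (tn (tn (tl [(425, .ofNat 2)]) te) te)) te) (tn (tn (tn (tn (tl [(312, .ofNat 2), (314, .ofNat 2), (316, .ofNat 1), (317, .ofNat 1), (318, .ofNat 1), (319, .ofNat 1), (322, .ofNat 1), (323, .ofNat 2)]) te) te) (tn (tn te (tl [(434, .ofNat 2)])) te)) te)) (tn (tn (tn te (tn (tn te (tl [(434, .ofNat 1)])) (tn (tl [(432, .ofNat 1), (433, .ofNat 1)]) te))) te) (tn te (tn (tn (tn (tl [(397, .ofNat 1), (398, .ofNat 2), (399, .ofNat 2), (400, .ofNat 1), (401, .ofNat 2)]) te) te) te)))) (tn (tn (tn (tn (tn (tn (tl [(212, .ofNat 2)]) te) te) te) te) te) te)) (tn (tn te (tn (tn (tn (tn (tn (tl [(228, .ofNat 1), (229, .ofNat 2),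 (231, .ofNat 1), (232, .ofNat 2)]) te) te) (tn te (tn (tl [(432, .ofNat 1), (433, .ofNat 2)]) te))) te) te)) (tn (tn (tn (tn te (tn (tn te (tl [(434, .ofNat 1)])) te)) te) (tn (tn (tn te (tn (tl [(427, .ofNat 1)]) te)) te) te)) (tn (tn (tn te (tn (tn te (tl [(434, .ofNat 1)])) te)) te) te)))) (tn (tn (tn (tn te (tn (tn te (tn (tn te (tl [(434, .ofNat 2)])) te)) te)) (tn (tn (tn te (tn (tn te (tl [(434, .ofNat 1)])) (tn (tl [(432, .ofNat 1), (433, .ofNat 2)]) te))) te) (tn (tn (tn te (tn (tl [(427, .ofNat 2)]) te)) te) (tn (tn (tn (tl [(398, .ofNat 1), (399, .ofNat 1), (400, .ofNat 2)]) te) te) te)))) (tn (tn te (tn (tn (tn te (tn (tl [(427, .ofNat 2)]) te)) te) te)) (tn (tn (tn te (tn (tn te (tl [(434, .ofNat 1)])) te)) te) te))) (tn (tn (tn (tn (tn (tn (tn (tl [(146, .ofNat 1)]) te) te) te) te) te) (tn (tn (tn (tn (tn (tl [(229, .ofNat 1), (230, .ofNat 1)]) te) te) (tn (tn te (tl [(434, .ofNat 1)])) (tn (tl [(432, .ofNat 2),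 (433, .ofNat 1)]) te))) te) (tn (tn (tn te (tn (tl [(427, .ofNat 1)]) te)) te) te))) (tn (tn te (tn (tn (tn te (tn (tl [(427, .ofNat 2)]) te)) te) (tn (tn (tn (tl [(398, .ofNat 2), (400, .ofNat 2), (401, .ofNat 2)]) te) te) te))) (tn (tn (tn te (tn (tn te (tl [(434, .ofNat 1)])) te)) te) te)))))

def r28 : Tr SV := (tn (tn (tn (tn (tn (tn (tn (tn (tn (tl [(75, .ofNat 2), (76, .ofNat 1), (77, .ofNat 2), (78, .ofNat 1)]) te) te) (tn (tn (tl [(423, .ofNat 1), (424, .ofNat 2)]) te) te)) (tn (tn (tn (tl [(386, .ofNat 1)]) te) te) te)) (tn (tn (tn (tn (tl [(312, .ofNat 2), (313, .ofNat 1), (315, .ofNat 2), (316, .ofNat 2), (318, .ofNat 1), (319, .ofNat 1), (320, .ofNat 1), (321, .ofNat 1), (322, .ofNat 1), (323, .ofNat 2), (325, .ofNat 2)]) te) te) (tn (tn te (tl [(434, .ofNat 2)])) te)) te)) (tn (tn (tn te (tn (tn te (tl [(434, .ofNat 1)])) (tn (tl [(432, .ofNat 1), (433, .ofNat 2)]) te))) te) (tn (tn (tn te (tn (tl [(427, .ofNat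 1)]) te)) te) (tn (tn (tn (tl [(398, .ofNat 2), (400, .ofNat 1), (401, .ofNat 1)]) te) te) te)))) (tn (tn (tn (tn (tn (tn (tl [(212, .ofNat 1)]) te) te) te) te) te) te)) (tn (tn te (tn (tn (tn (tn (tn (tl [(227, .ofNat 1), (228, .ofNat 2), (230, .ofNat 1), (231, .ofNat 2), (232, .ofNat 2)]) te) te) (tn (tn te (tl [(434, .ofNat 2)])) (tn (tl [(432, .ofNat 1)]) te))) te) (tn (tn (tn te (tn (tl [(427, .ofNat 1)]) te)) te) te))) (tn (tn (tn (tn te (tn (tn te (tl [(434, .ofNat 1)])) te)) te) (tn (tn (tn te (tn (tl [(427, .ofNat 2)]) te)) te) te)) (tn (tn (tn te (tn (tn te (tl [(434, .ofNat 1)])) te)) te) te)))) (tn (tn (tn (tn te (tn (tn te (tn (tn te (tl [(434, .ofNat 1)])) te)) te)) (tn (tn (tn te (tn (tn te (tl [(434, .ofNat 2)])) (tn (tl [(432, .ofNat 1)]) te))) te) (tn te (tn (tn (tn (tl [(398, .ofNat 2), (399, .ofNat 2), (400, .ofNat 2), (401, .ofNat 1)]) te) te) te)))) (tn (tn te (tn (tn (tn te (tn (tl [(427, .ofNat 2)])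 te)) te) te)) (tn (tn (tn te (tn (tn te (tl [(434, .ofNat 2)])) te)) te) te))) (tn (tn (tn (tn (tn (tn (tn (tl [(137, .ofNat 2), (143, .ofNat 1), (145, .ofNat 1)]) te) te) te) te) te) (tn (tn (tn (tn (tn (tl [(227, .ofNat 1), (228, .ofNat 1), (229, .ofNat 2), (230, .ofNat 2), (231, .ofNat 1)]) te) te) (tn (tn te (tl [(434, .ofNat 1)])) (tn (tl [(433, .ofNat 2)]) te))) te) te)) (tn (tn (tn (tn te (tn (tn te (tl [(434, .ofNat 2)])) te)) te) (tn (tn (tn te (tn (tl [(427, .ofNat 1)]) te)) te) (tn (tn (tn (tl [(397, .ofNat 1), (399, .ofNat 2), (401, .ofNat 2)]) te) te) te))) (tn te (tn (tn (tn (tn (tl [(386, .ofNat 2)]) te) te) te) te))))))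

def r29 : Tr SV := (tn (tn (tn (tn (tn (tn (tn (tn (tn (tl [(73, .ofNat 1), (74, .ofNat 2), (75, .ofNat 2), (76, .ofNat 1)]) te) te) (tn (tn (tl [(424, .ofNat 1), (425, .ofNat 1), (426, .ofNat 1)]) te) te)) te) (tn (tn (tn (tn (tl [(312, .ofNat 2), (313, .ofNat 2), (314, .ofNat 1), (315, .ofNat 1), (317, .ofNat 2), (318, .ofNat 2), (322, .ofNat 2), (323, .ofNat 1), (324, .ofNat 1), (325, .ofNat 2)]) te) te) (tn (tn te (tl [(434, .ofNat 1)])) te)) te)) (tn (tn (tn te (tn (tn te (tl [(434, .ofNat 1)])) (tn (tl [(433, .ofNat 1)]) te))) te) (tn (tn (tn te (tn (tl [(427, .ofNat 2)]) te)) te) (tn (tn (tn (tl [(397, .ofNat 1), (398, .ofNat 2), (399, .ofNat 1), (400, .ofNat 2), (401, .ofNat 1)]) te) te) te)))) (tn (tn (tn (tn (tn (tn (tl [(212, .ofNat 2)]) te) te) te) te) (tn (tn (tn te (tn (tl [(427, .ofNat 2)]) te)) te) te)) te)) (tn (tn te (tn (tn (tn (tn (tn (tl [(229, .ofNat 1), (231, .ofNat 1), (232, .ofNat 1)]) te) te) (tn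 (tn te (tl [(434, .ofNat 1)])) (tn (tl [(432, .ofNat 2), (433, .ofNat 2)]) te))) te) te)) (tn (tn (tn (tn te (tn (tn te (tl [(434, .ofNat 1)])) te)) te) te) (tn (tn (tn te (tn (tn te (tl [(434, .ofNat 2)])) te)) te) (tn (tn (tn (tn (tl [(386, .ofNat 2)]) te) te) te) te))))) (tn (tn (tn te (tn (tn (tn te (tn (tn te (tl [(434, .ofNat 2)])) te)) te) (tn (tn (tn te (tn (tl [(427, .ofNat 2)]) te)) te) (tn (tn (tn (tl [(397, .ofNat 2), (399, .ofNat 1), (400, .ofNat 2), (401, .ofNat 2)]) te) te) te)))) (tn (tn te (tn (tn (tn te (tn (tl [(427, .ofNat 2)]) te)) te) te)) te)) (tn (tn (tn (tn (tn (tn (tn (tl [(131, .ofNat 2), (133, .ofNat 1), (139, .ofNat 1), (140, .ofNat 2), (143, .ofNat 2), (144, .ofNat 1), (145, .ofNat 1)]) te) te) te) te) te) (tn (tn (tn (tn (tn (tl [(229, .ofNat 2), (230, .ofNat 2), (231, .ofNat 1), (232, .ofNat 2)]) te) te) (tn (tn te (tl [(434, .ofNat 1)])) (tn (tl [(432, .ofNat 2)]) te))) te) (tn (tn (tn te (tn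 (tl [(427, .ofNat 1)]) te)) te) te))) (tn (tn (tn (tn te (tn (tn te (tl [(434, .ofNat 1)])) te)) te) (tn (tn (tn te (tn (tl [(427, .ofNat 1)]) te)) te) (tn (tn (tn (tl [(397, .ofNat 1), (399, .ofNat 1), (400, .ofNat 1), (401, .ofNat 2)]) te) te) te))) (tn (tn (tn te (tn (tn te (tl [(434, .ofNat 1)])) te)) te) te)))))

def r30 : Tr SV := (tn (tn (tn (tn (tn (tn (tn te (tn (tn te (tl [(434, .ofNat 1)])) te)) te) (tn (tn (tn (tn (tl [(328, .ofNat 2), (329, .ofNat 1), (331, .ofNat 1), (332, .ofNat 1)]) te) (tn (tl [(427, .ofNat 1)]) te)) te) (tn (tn (tn (tl [(393, .ofNat 1), (394, .ofNat 2), (395, .ofNat 2), (396, .ofNat 2)]) te) te) te))) (tn (tn (tn (tn (tn (tl [(221, .ofNat 2), (222, .ofNat 2), (223, .ofNat 1), (224, .ofNat 1), (225, .ofNat 1), (226, .ofNat 2)]) te) te) te) (tn (tn (tn (tl [(387, .ofNat 1), (388, .ofNat 1), (389, .ofNat 2), (390, .ofNat 1), (391, .ofNat 1)]) te) (tn (tl [(428, .ofNat 2)]) te)) te)) (tn te (tn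 (tn (tn te (tl [(434, .ofNat 1)])) te) te)))) (tn (tn (tn (tn (tn te (tn (tl [(427, .ofNat 1)]) te)) (tn te (tn (tl [(430, .ofNat 1)]) te))) te) (tn te (tn (tn (tn (tl [(393, .ofNat 1), (394, .ofNat 2)]) te) te) te))) (tn (tn (tn (tn (tn (tl [(233, .ofNat 1), (234, .ofNat 1), (235, .ofNat 2), (236, .ofNat 1), (238, .ofNat 2), (240, .ofNat 1), (241, .ofNat 1), (243, .ofNat 1), (244, .ofNat 1), (245, .ofNat 1), (248, .ofNat 1), (249, .ofNat 1), (250, .ofNat 2), (251, .ofNat 2), (252, .ofNat 2), (253, .ofNat 2), (254, .ofNat 2), (255, .ofNat 1), (256, .ofNat 2), (257, .ofNat 1)]) te) te) te) (tn (tn te (tn (tl [(428, .ofNat 1), (429, .ofNat 1)]) te)) te)) (tn (tn (tn (tn (tl [(386, .ofNat 1)]) te) te) te) (tn (tn (tn (tl [(403, .ofNat 1), (404, .ofNat 2), (406, .ofNat 1)]) (tl [(434, .ofNat 2)])) (tn (tl [(430, .ofNat 2)]) te)) te))))) (tn (tn (tn (tn (tn (tn (tn (tl [(105, .ofNat 1), (107, .ofNat 2)]) te) te) (tn te (tn (tl [(431,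 .ofNat 1)]) te))) te) (tn te (tn (tn (tn (tl [(394, .ofNat 2), (395, .ofNat 2), (396, .ofNat 2)]) te) te) te))) (tn (tn (tn (tn te (tn (tl [(427, .ofNat 2)]) te)) te) (tn (tn (tn (tl [(387, .ofNat 1), (388, .ofNat 2), (391, .ofNat 2)]) te) (tn (tl [(428, .ofNat 2), (429, .ofNat 2)]) te)) te)) (tn te (tn (tn (tn (tl [(403, .ofNat 2), (405, .ofNat 1), (406, .ofNat 1), (407, .ofNat 1), (408, .ofNat 2)]) (tl [(434, .ofNat 2)])) (tn (tl [(431, .ofNat 1)]) te)) te)))) (tn (tn (tn (tn (tn (tn (tl [(213, .ofNat 2), (214, .ofNat 2), (215, .ofNat 2), (217, .ofNat 1), (218, .ofNat 2), (219, .ofNat 1)]) te) te) (tn te (tn (tl [(430, .ofNat 2), (431, .ofNat 1)]) te))) te) (tn te (tn (tn (tn (tl [(392, .ofNat 2), (393, .ofNat 2), (394, .ofNat 1)]) te) te) te))) (tn (tn (tn (tn (tn (tl [(278, .ofNat 2), (279, .ofNat 1), (281, .ofNat 2), (282, .ofNat 2), (283, .ofNat 1), (284, .ofNat 1), (285, .ofNat 2), (286, .ofNat 2), (288, .ofNat 2), (289,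 .ofNat 2), (290, .ofNat 1), (291, .ofNat 2)]) te) (tn (tl [(427, .ofNat 2)]) te)) te) (tn (tn te (tn (tl [(428, .ofNat 2), (429, .ofNat 2)]) te)) te)) (tn te (tn (tn (tn (tl [(414, .ofNat 1), (415, .ofNat 2), (416, .ofNat 1), (417, .ofNat 2)]) (tl [(434, .ofNat 1)])) (tn (tl [(430, .ofNat 2), (431, .ofNat 1)]) te)) te)))))) (tn (tn (tn (tn (tn (tn (tn (tn (tl [(83, .ofNat 1), (85, .ofNat 2)]) te) te) (tn te (tn (tl [(430, .ofNat 1)]) te))) te) (tn te (tn (tn (tn (tl [(393, .ofNat 1), (394, .ofNat 1), (396, .ofNat 1)]) te) te) te))) (tn (tn (tn (tn (tn (tl [(220, .ofNat 2), (221, .ofNat 2), (222, .ofNat 1), (223, .ofNat 1), (224, .ofNat 1), (225, .ofNat 2)]) te) (tn (tl [(427, .ofNat 2)]) te)) te) (tn (tn (tn (tl [(388, .ofNat 2), (389, .ofNat 2), (391, .ofNat 2)]) te) (tn (tl [(428, .ofNat 2)]) te)) te)) (tn te (tn (tn (tn te (tl [(434, .ofNat 2)])) te) te)))) (tn (tn (tn (tn (tn te (tn (tl [(427, .ofNat 2)]) te)) (tn (tn te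 (tl [(434, .ofNat 1)])) te)) te) (tn te (tn (tn (tn (tl [(393, .ofNat 2), (394, .ofNat 1)]) te) te) te))) (tn (tn (tn (tn (tn (tl [(238, .ofNat 2)]) te) (tn (tl [(427, .ofNat 1)]) te)) te) (tn (tn te (tn (tl [(428, .ofNat 1), (429, .ofNat 2)]) te)) te)) (tn (tn (tn (tn (tl [(386, .ofNat 2)]) te) te) te) (tn (tn (tn (tl [(414, .ofNat 1), (415, .ofNat 1), (416, .ofNat 1), (417, .ofNat 1)]) te) (tn (tl [(430, .ofNat 2), (431, .ofNat 1)]) te)) te))))) (tn (tn (tn (tn (tn (tn (tn (tl [(151, .ofNat 1)]) te) (tn (tl [(427, .ofNat 2)]) te)) (tn te (tn (tl [(430, .ofNat 2)]) te))) te) (tn (tn (tn te (tn (tl [(427, .ofNat 2)]) te)) te) (tn (tn (tn (tl [(392, .ofNat 1), (393, .ofNat 2), (394, .ofNat 2)]) te) te) te))) (tn (tn (tn (tn te (tn (tl [(427, .ofNat 1)]) te)) te) (tn (tn te (tn (tl [(428, .ofNat 1), (429, .ofNat 1)]) te)) te)) (tn (tn (tn (tn (tl [(386, .ofNat 2)]) te) te) te) (tn (tn (tn (tl [(403, .ofNat 2), (404, .ofNat 2),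 (405, .ofNat 2), (406, .ofNat 2), (408, .ofNat 1)]) te) (tn (tl [(431, .ofNat 1)]) te)) te)))) (tn (tn (tn (tn (tn te (tn (tl [(427, .ofNat 1)]) te)) (tn te (tn (tl [(431, .ofNat 2)]) te))) (tn (tn (tn (tl [(387, .ofNat 2), (388, .ofNat 1), (389, .ofNat 1), (390, .ofNat 1), (391, .ofNat 2)]) te) (tn (tl [(429, .ofNat 2)]) te)) te)) te) (tn (tn (tn (tn (tn (tl [(278, .ofNat 2), (279, .ofNat 1), (282, .ofNat 2), (283, .ofNat 1), (284, .ofNat 1), (285, .ofNat 1), (286, .ofNat 1), (287, .ofNat 2), (290, .ofNat 1)]) te) (tn (tl [(427, .ofNat 2)]) te)) te) te) (tn te (tn (tn (tn (tl [(414, .ofNat 1), (415, .ofNat 2), (416, .ofNat 2), (417, .ofNat 1)]) te) (tn (tl [(430, .ofNat 2)]) te)) te)))))))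

def r31 : Tr SV := (tn (tn (tn (tn (tn (tn (tn te (tn (tn te (tl [(434, .ofNat 1)])) (tn (tl [(430, .ofNat 1), (431, .ofNat 2)]) te))) te) (tn (tn (tn (tn (tl [(332, .ofNat 1), (334, .ofNat 2), (335, .ofNat 1), (337, .ofNat 1)]) te) (tn (tl [(427, .ofNat 1)]) te)) te) (tn (tn (tn (tl [(393, .ofNat 1), (394, .ofNat 1)]) te) te) te))) (tn (tn (tn (tn (tn (tl [(220, .ofNat 2), (221, .ofNat 2), (222, .ofNat 1), (225, .ofNat 2)]) te) te) te) (tn (tn (tn (tl [(387, .ofNat 1), (388, .ofNat 2), (389, .ofNat 1), (390, .ofNat 2)]) te) te) te)) te)) (tn (tn (tn (tn (tn te (tn (tl [(427, .ofNat 1)]) te)) (tn te (tn (tl [(430, .ofNat 2), (431, .ofNat 2)]) te))) te) (tn te (tn (tn (tn (tl [(392, .ofNat 2), (393, .ofNat 2), (394, .ofNat 2), (396, .ofNat 2)]) te) te) te))) (tn (tn (tn (tn (tn (tl [(233, .ofNat 1), (235, .ofNat 1), (236, .ofNat 1), (237, .ofNat 2), (239, .ofNat 2), (240, .ofNat 1), (243, .ofNat 1), (244, .ofNat 1), (245, .ofNat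 2), (246, .ofNat 1), (247, .ofNat 1), (249, .ofNat 2), (250, .ofNat 2), (251, .ofNat 1), (252, .ofNat 2), (253, .ofNat 1), (254, .ofNat 1), (255, .ofNat 2), (257, .ofNat 2)]) te) (tn (tl [(427, .ofNat 1)]) te)) te) (tn (tn te (tn (tl [(429, .ofNat 1)]) te)) te)) (tn (tn (tn (tn (tl [(386, .ofNat 1)]) te) te) te) (tn (tn (tn (tl [(402, .ofNat 1), (403, .ofNat 2), (405, .ofNat 2), (406, .ofNat 1), (407, .ofNat 2), (408, .ofNat 2)]) (tl [(434, .ofNat 1)])) te) te))))) (tn (tn (tn (tn (tn (tn (tn (tl [(105, .ofNat 2), (106, .ofNat 2)]) te) te) (tn (tn te (tl [(434, .ofNat 2)])) (tn (tl [(430, .ofNat 2)]) te))) te) (tn (tn (tn te (tn (tl [(427, .ofNat 2)]) te)) te) (tn (tn (tn (tl [(394, .ofNat 2), (396, .ofNat 1)]) te) te) te))) (tn (tn te (tn (tn (tn (tl [(387, .ofNat 2), (388, .ofNat 1), (389, .ofNat 1), (391, .ofNat 2)]) te) (tn (tl [(429, .ofNat 2)]) te)) te)) (tn (tn (tn (tn (tl [(386, .ofNat 2)]) te) te) te) (tn (tn (tn (tl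 [(405, .ofNat 1), (406, .ofNat 1), (408, .ofNat 1)]) (tl [(434, .ofNat 2)])) te) te)))) (tn (tn (tn (tn (tn (tn (tl [(214, .ofNat 1), (215, .ofNat 2), (216, .ofNat 2), (217, .ofNat 1), (219, .ofNat 1)]) te) (tn (tl [(427, .ofNat 1)]) te)) (tn te (tn (tl [(430, .ofNat 1), (431, .ofNat 1)]) te))) te) (tn te (tn (tn (tn (tl [(392, .ofNat 2), (393, .ofNat 2), (394, .ofNat 1)]) te) te) te))) (tn (tn (tn (tn (tn (tl [(278, .ofNat 1), (282, .ofNat 1), (283, .ofNat 1), (284, .ofNat 2), (287, .ofNat 2), (290, .ofNat 2)]) te) (tn (tl [(427, .ofNat 1)]) te)) te) (tn (tn te (tn (tl [(428, .ofNat 1)]) te)) te)) (tn te (tn (tn (tn (tl [(414, .ofNat 1), (415, .ofNat 1), (416, .ofNat 2), (417, .ofNat 1)]) (tl [(434, .ofNat 1)])) (tn (tl [(430, .ofNat 1), (431, .ofNat 2)]) te)) te)))))) (tn (tn (tn (tn (tn (tn (tn (tn (tl [(83, .ofNat 2), (84, .ofNat 2)]) te) te) (tn te (tn (tl [(430, .ofNat 1), (431, .ofNat 1)]) te))) te) (tn te (tn (tn (tn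 (tl [(393, .ofNat 2), (394, .ofNat 1), (395, .ofNat 2), (396, .ofNat 1)]) te) te) te))) (tn (tn (tn (tn (tn (tl [(221, .ofNat 2), (222, .ofNat 2), (223, .ofNat 2), (224, .ofNat 2), (225, .ofNat 1)]) te) (tn (tl [(427, .ofNat 1)]) te)) te) (tn (tn (tn (tl [(387, .ofNat 2), (389, .ofNat 2), (390, .ofNat 1), (391, .ofNat 2)]) te) (tn (tl [(428, .ofNat 2), (429, .ofNat 2)]) te)) te)) (tn te (tn (tn (tn te (tl [(434, .ofNat 1)])) te) te)))) (tn (tn (tn (tn (tn te (tn (tl [(427, .ofNat 2)]) te)) (tn te (tn (tl [(431, .ofNat 2)]) te))) te) (tn te (tn (tn (tn (tl [(392, .ofNat 1), (393, .ofNat 1), (396, .ofNat 2)]) te) te) te))) (tn (tn (tn (tn (tn (tl [(233, .ofNat 2), (243, .ofNat 1), (246, .ofNat 2), (257, .ofNat 2)]) te) (tn (tl [(427, .ofNat 1)]) te)) te) te) (tn (tn (tn (tn (tl [(386, .ofNat 1)]) te) te) te) (tn (tn (tn (tl [(414, .ofNat 1), (415, .ofNat 1), (416, .ofNat 2), (417, .ofNat 1)]) te) (tn (tl [(431, .ofNat 1)]) te))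 te))))) (tn (tn (tn (tn (tn (tn (tn (tl [(155, .ofNat 1)]) te) (tn (tl [(427, .ofNat 2)]) te)) (tn (tn te (tl [(434, .ofNat 2)])) (tn (tl [(431, .ofNat 2)]) te))) te) (tn (tn (tn te (tn (tl [(427, .ofNat 2)]) te)) te) (tn (tn (tn (tl [(396, .ofNat 2)]) te) te) te))) (tn (tn (tn (tn te (tn (tl [(427, .ofNat 1)]) te)) te) (tn (tn te (tn (tl [(429, .ofNat 2)]) te)) te)) (tn te (tn (tn (tn (tl [(404, .ofNat 1), (405, .ofNat 2), (406, .ofNat 2), (407, .ofNat 2), (408, .ofNat 1)]) te) (tn (tl [(430, .ofNat 1)]) te)) te)))) (tn (tn (tn (tn (tn te (tn (tl [(427, .ofNat 2)]) te)) (tn te (tn (tl [(430, .ofNat 1), (431, .ofNat 1)]) te))) (tn (tn (tn (tl [(387, .ofNat 1), (388, .ofNat 1), (389, .ofNat 1), (390, .ofNat 2), (391, .ofNat 1)]) te) te) te)) te) (tn (tn (tn (tn (tn (tl [(279, .ofNat 1), (280, .ofNat 2), (281, .ofNat 2), (282, .ofNat 2), (283, .ofNat 1), (284, .ofNat 2), (285, .ofNat 2), (288, .ofNat 1), (290, .ofNat 1)]) te)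 (tn (tl [(427, .ofNat 1)]) te)) te) te) (tn te (tn (tn (tn (tl [(414, .ofNat 1), (415, .ofNat 1), (416, .ofNat 2), (417, .ofNat 1)]) (tl [(434, .ofNat 1)])) (tn (tl [(431, .ofNat 2)]) te)) te)))))))

def r32 : Tr SV := (tn (tn (tn (tn (tn (tn (tn te (tn (tn te (tl [(434, .ofNat 1)])) (tn (tl [(430, .ofNat 1), (431, .ofNat 2)]) te))) te) (tn (tn (tn (tn (tl [(328, .ofNat 2), (329, .ofNat 1), (332, .ofNat 1), (336, .ofNat 1)]) te) (tn (tl [(427, .ofNat 2)]) te)) te) (tn (tn (tn (tl [(392, .ofNat 1), (393, .ofNat 1), (394, .ofNat 1), (396, .ofNat 2)]) te) te) te))) (tn (tn (tn (tn (tn (tl [(220, .ofNat 1), (221, .ofNat 2), (222, .ofNat 1), (223, .ofNat 2), (225, .ofNat 1)]) te) (tn (tl [(427, .ofNat 2)]) te)) te) (tn (tn (tn (tl [(389, .ofNat 1), (390, .ofNat 1), (391, .ofNat 2)]) te) (tn (tl [(428, .ofNat 2), (429, .ofNat 1)]) te)) te)) (tn te (tn (tn (tn te (tl [(434, .ofNat 1)])) te) te)))) (tn (tn (tn (tn (tn te (tn (tl [(427,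 .ofNat 2)]) te)) (tn (tn te (tl [(434, .ofNat 1)])) (tn (tl [(430, .ofNat 1), (431, .ofNat 2)]) te))) te) (tn te (tn (tn (tn (tl [(392, .ofNat 1), (393, .ofNat 1), (395, .ofNat 1)]) te) te) te))) (tn (tn (tn (tn (tn (tl [(233, .ofNat 2), (234, .ofNat 1), (235, .ofNat 1), (237, .ofNat 1), (238, .ofNat 2), (239, .ofNat 2), (241, .ofNat 2), (242, .ofNat 1), (243, .ofNat 1), (244, .ofNat 1), (245, .ofNat 2), (247, .ofNat 1), (248, .ofNat 2), (249, .ofNat 2), (250, .ofNat 2), (251, .ofNat 1), (252, .ofNat 2), (253, .ofNat 1), (257, .ofNat 2)]) te) (tn (tl [(427, .ofNat 2)]) te)) te) (tn (tn te (tn (tl [(428, .ofNat 1), (429, .ofNat 1)]) te)) te)) (tn (tn (tn (tn (tl [(386, .ofNat 2)]) te) te) te) (tn (tn (tn (tl [(402, .ofNat 2), (403, .ofNat 2), (404, .ofNat 1), (405, .ofNat 2), (406, .ofNat 2), (407, .ofNat 2), (408, .ofNat 2)]) (tl [(434, .ofNat 2)])) (tn (tl [(430, .ofNat 1), (431, .ofNat 2)]) te)) te))))) (tn (tn (tn (tn (tn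 (tn (tn (tl [(104, .ofNat 1), (105, .ofNat 1), (107, .ofNat 2)]) te) te) (tn te (tn (tl [(430, .ofNat 2)]) te))) te) (tn (tn (tn te (tn (tl [(427, .ofNat 2)]) te)) te) (tn (tn (tn (tl [(392, .ofNat 2), (394, .ofNat 1), (396, .ofNat 1)]) te) te) te))) (tn (tn te (tn (tn (tn (tl [(388, .ofNat 1), (390, .ofNat 2), (391, .ofNat 1)]) te) (tn (tl [(428, .ofNat 2)]) te)) te)) (tn te (tn (tn (tn (tl [(402, .ofNat 2), (404, .ofNat 2), (405, .ofNat 1), (406, .ofNat 1), (407, .ofNat 1)]) (tl [(434, .ofNat 2)])) (tn (tl [(430, .ofNat 2)]) te)) te)))) (tn (tn (tn (tn (tn (tn (tl [(213, .ofNat 2), (214, .ofNat 2), (215, .ofNat 1), (217, .ofNat 2), (219, .ofNat 1)]) te) (tn (tl [(427, .ofNat 1)]) te)) (tn te (tn (tl [(430, .ofNat 2), (431, .ofNat 2)]) te))) te) (tn te (tn (tn (tn (tl [(392, .ofNat 2), (394, .ofNat 2), (395, .ofNat 2), (396, .ofNat 2)]) te) te) te))) (tn (tn (tn (tn (tn (tl [(279, .ofNat 2), (281, .ofNat 1), (282, .ofNat 2),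 (283, .ofNat 1), (286, .ofNat 1), (288, .ofNat 1), (289, .ofNat 1), (290, .ofNat 1)]) te) (tn (tl [(427, .ofNat 1)]) te)) te) (tn (tn te (tn (tl [(429, .ofNat 1)]) te)) te)) (tn te (tn (tn (tn (tl [(414, .ofNat 2), (416, .ofNat 1)]) (tl [(434, .ofNat 1)])) (tn (tl [(430, .ofNat 1), (431, .ofNat 1)]) te)) te)))))) (tn (tn (tn (tn (tn (tn (tn (tn (tl [(82, .ofNat 1), (83, .ofNat 1), (85, .ofNat 2)]) te) te) (tn te (tn (tl [(430, .ofNat 1), (431, .ofNat 2)]) te))) te) (tn te (tn (tn (tn (tl [(393, .ofNat 2), (394, .ofNat 2), (396, .ofNat 1)]) te) te) te))) (tn (tn (tn (tn (tn (tl [(221, .ofNat 1), (222, .ofNat 2), (223, .ofNat 1), (225, .ofNat 1)]) te) (tn (tl [(427, .ofNat 2)]) te)) te) (tn (tn (tn (tl [(387, .ofNat 1), (389, .ofNat 2)]) te) (tn (tl [(428, .ofNat 1), (429, .ofNat 2)]) te)) te)) te)) (tn (tn te (tn te (tn (tn (tn (tl [(392, .ofNat 1), (394, .ofNat 1), (395, .ofNat 2), (396, .ofNat 1)]) te) te) te))) (tn (tn (tn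 (tn (tn (tl [(235, .ofNat 2), (236, .ofNat 2), (237, .ofNat 1), (238, .ofNat 2), (239, .ofNat 1), (241, .ofNat 1), (243, .ofNat 2), (244, .ofNat 2), (245, .ofNat 2), (246, .ofNat 1), (247, .ofNat 1), (248, .ofNat 2), (249, .ofNat 1), (250, .ofNat 1), (251, .ofNat 2), (252, .ofNat 1), (253, .ofNat 2), (254, .ofNat 2), (255, .ofNat 1), (257, .ofNat 1)]) te) te) te) (tn (tn te (tn (tl [(429, .ofNat 2)]) te)) te)) (tn (tn (tn (tn (tl [(386, .ofNat 1)]) te) te) te) (tn (tn (tn (tl [(414, .ofNat 2), (415, .ofNat 2)]) te) (tn (tl [(430, .ofNat 1), (431, .ofNat 1)]) te)) te))))) (tn (tn (tn (tn (tn (tn (tn (tl [(150, .ofNat 2), (151, .ofNat 1), (154, .ofNat 1)]) te) (tn (tl [(427, .ofNat 2)]) te)) (tn (tn te (tl [(434, .ofNat 2)])) (tn (tl [(431, .ofNat 1)]) te))) te) (tn (tn (tn te (tn (tl [(427, .ofNat 2)]) te)) te) (tn (tn (tn (tl [(392, .ofNat 1), (393, .ofNat 1), (395, .ofNat 2), (396, .ofNat 1)]) te) te) te))) (tn (tn (tn (tn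 te (tn (tl [(427, .ofNat 1)]) te)) te) te) (tn te (tn (tn (tn (tl [(403, .ofNat 1), (404, .ofNat 1), (405, .ofNat 2), (406, .ofNat 2), (407, .ofNat 2), (408, .ofNat 1)]) te) (tn (tl [(430, .ofNat 2), (431, .ofNat 1)]) te)) te)))) (tn (tn (tn (tn te (tn te (tn (tl [(430, .ofNat 1)]) te))) (tn (tn (tn (tl [(388, .ofNat 1), (389, .ofNat 1)]) te) (tn (tl [(428, .ofNat 1), (429, .ofNat 1)]) te)) te)) te) (tn (tn (tn (tn (tn (tl [(279, .ofNat 1), (281, .ofNat 2), (282, .ofNat 2), (283, .ofNat 2), (284, .ofNat 2), (287, .ofNat 1), (288, .ofNat 1), (289, .ofNat 2)]) te) (tn (tl [(427, .ofNat 2)]) te)) te) te) (tn te (tn (tn (tn (tl [(414, .ofNat 1), (416, .ofNat 2)]) te) te) te)))))))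

def r33 : Tr SV := (tn (tn (tn (tn (tn (tn (tn te (tn (tn te (tl [(434, .ofNat 1)])) (tn (tl [(430, .ofNat 1), (431, .ofNat 1)]) te))) te) (tn (tn (tn (tn (tl [(328, .ofNat 2), (329, .ofNat 1), (332, .ofNat 1), (334, .ofNat 2), (336, .ofNat 1), (337, .ofNat 1)]) te) te) te) (tn (tn (tn (tl [(392, .ofNat 1), (393, .ofNat 2), (394, .ofNat 2), (396, .ofNat 2)]) te) te) te))) (tn (tn (tn (tn (tn (tl [(221, .ofNat 2), (222, .ofNat 1), (223, .ofNat 1), (224, .ofNat 2), (225, .ofNat 1)]) te) te) te) (tn (tn (tn (tl [(391, .ofNat 1)]) te) (tn (tl [(429, .ofNat 2)]) te)) te)) (tn te (tn (tn (tn te (tl [(434, .ofNat 1)])) te) te)))) (tn (tn te (tn te (tn (tn (tn (tl [(393, .ofNat 1), (394, .ofNat 1), (395, .ofNat 2)]) te) te) te))) (tn (tn (tn (tn (tn (tl [(235, .ofNat 2), (236, .ofNat 1), (238, .ofNat 2), (239, .ofNat 1), (241, .ofNat 1), (242, .ofNat 1), (243, .ofNat 2), (244, .ofNat 2), (245, .ofNat 1), (246, .ofNat 1), (247, .ofNat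 2), (249, .ofNat 2), (250, .ofNat 1), (251, .ofNat 2), (252, .ofNat 1), (253, .ofNat 2), (254, .ofNat 1), (255, .ofNat 2), (257, .ofNat 1)]) te) (tn (tl [(427, .ofNat 1)]) te)) te) (tn (tn te (tn (tl [(429, .ofNat 2)]) te)) te)) (tn te (tn (tn (tn (tl [(404, .ofNat 2), (406, .ofNat 2), (407, .ofNat 1), (408, .ofNat 1)]) te) te) te))))) (tn (tn (tn (tn (tn (tn (tn (tl [(104, .ofNat 1), (106, .ofNat 2)]) te) (tn (tl [(427, .ofNat 1)]) te)) (tn (tn te (tl [(434, .ofNat 1)])) (tn (tl [(430, .ofNat 2), (431, .ofNat 1)]) te))) te) (tn te (tn (tn (tn (tl [(392, .ofNat 2), (393, .ofNat 2), (394, .ofNat 1), (395, .ofNat 2), (396, .ofNat 1)]) te) te) te))) (tn (tn te (tn (tn (tn (tl [(387, .ofNat 1), (388, .ofNat 1), (390, .ofNat 2), (391, .ofNat 1)]) te) (tn (tl [(429, .ofNat 2)]) te)) te)) (tn (tn (tn (tn (tl [(386, .ofNat 1)]) te) te) te) (tn (tn (tn (tl [(402, .ofNat 2), (403, .ofNat 2), (404, .ofNat 2), (405, .ofNat 1), (407, .ofNat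 2), (408, .ofNat 2)]) (tl [(434, .ofNat 2)])) (tn (tl [(431, .ofNat 1)]) te)) te)))) (tn (tn (tn (tn (tn (tn (tl [(213, .ofNat 1), (214, .ofNat 1), (215, .ofNat 1), (216, .ofNat 1), (218, .ofNat 2)]) te) (tn (tl [(427, .ofNat 2)]) te)) (tn te (tn (tl [(430, .ofNat 2)]) te))) te) (tn te (tn (tn (tn (tl [(392, .ofNat 1), (393, .ofNat 2), (396, .ofNat 2)]) te) te) te))) (tn (tn (tn (tn (tn (tl [(278, .ofNat 1), (280, .ofNat 1), (282, .ofNat 2), (286, .ofNat 2), (287, .ofNat 2), (288, .ofNat 2), (289, .ofNat 1), (290, .ofNat 2), (291, .ofNat 2)]) te) (tn (tl [(427, .ofNat 1)]) te)) te) (tn (tn te (tn (tl [(428, .ofNat 1), (429, .ofNat 2)]) te)) te)) (tn te (tn (tn (tn (tl [(414, .ofNat 2), (417, .ofNat 1)]) (tl [(434, .ofNat 1)])) (tn (tl [(430, .ofNat 1), (431, .ofNat 2)]) te)) te)))))) (tn (tn (tn (tn (tn (tn (tn (tn (tl [(82, .ofNat 1), (84, .ofNat 2)]) te) te) (tn (tn te (tl [(434, .ofNat 2)])) (tn (tl [(430, .ofNat 1), (431,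 .ofNat 1)]) te))) te) (tn (tn (tn te (tn (tl [(427, .ofNat 1)]) te)) te) (tn (tn (tn (tl [(392, .ofNat 1), (393, .ofNat 1), (395, .ofNat 1), (396, .ofNat 2)]) te) te) te))) (tn (tn (tn (tn (tn (tl [(220, .ofNat 2), (222, .ofNat 1), (223, .ofNat 1), (225, .ofNat 2), (226, .ofNat 2)]) te) te) te) (tn (tn (tn (tl [(389, .ofNat 1), (391, .ofNat 1)]) te) (tn (tl [(429, .ofNat 1)]) te)) te)) (tn te (tn (tn (tn te (tl [(434, .ofNat 1)])) te) te)))) (tn (tn (tn (tn (tn te (tn (tl [(427, .ofNat 2)]) te)) (tn (tn te (tl [(434, .ofNat 2)])) te)) te) (tn te (tn (tn (tn (tl [(392, .ofNat 2), (394, .ofNat 2), (395, .ofNat 1), (396, .ofNat 1)]) te) te) te))) (tn (tn (tn (tn (tn (tl [(234, .ofNat 2), (235, .ofNat 2), (237, .ofNat 2), (238, .ofNat 1), (239, .ofNat 1), (241, .ofNat 1), (242, .ofNat 2), (245, .ofNat 2), (247, .ofNat 2), (249, .ofNat 1), (250, .ofNat 1), (251, .ofNat 2)]) te) (tn (tl [(427, .ofNat 2)]) te)) te) (tn (tn te (tn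 (tl [(429, .ofNat 2)]) te)) te)) (tn te (tn (tn (tn (tl [(414, .ofNat 2), (415, .ofNat 1), (416, .ofNat 1), (417, .ofNat 2)]) (tl [(434, .ofNat 1)])) (tn (tl [(431, .ofNat 2)]) te)) te))))) (tn (tn (tn (tn (tn (tn (tn (tl [(150, .ofNat 2), (151, .ofNat 1), (153, .ofNat 2), (154, .ofNat 1), (155, .ofNat 1)]) te) (tn (tl [(427, .ofNat 2)]) te)) (tn (tn te (tl [(434, .ofNat 2)])) (tn (tl [(431, .ofNat 1)]) te))) te) (tn (tn (tn te (tn (tl [(427, .ofNat 1)]) te)) te) (tn (tn (tn (tl [(392, .ofNat 2), (394, .ofNat 2), (395, .ofNat 2), (396, .ofNat 1)]) te) te) te))) (tn (tn (tn (tn te (tn (tl [(427, .ofNat 2)]) te)) te) (tn (tn te (tn (tl [(428, .ofNat 1), (429, .ofNat 1)]) te)) te)) (tn te (tn (tn (tn (tl [(402, .ofNat 1), (404, .ofNat 1), (405, .ofNat 2), (407, .ofNat 2), (408, .ofNat 1)]) te) (tn (tl [(430, .ofNat 1)]) te)) te)))) (tn (tn (tn (tn (tn te (tn (tl [(427, .ofNat 1)]) te)) (tn te (tn (tl [(430, .ofNat 1), (431, .ofNat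 2)]) te))) (tn (tn (tn (tl [(387, .ofNat 2), (389, .ofNat 1), (390, .ofNat 2)]) te) te) te)) te) (tn (tn (tn (tn (tn (tl [(278, .ofNat 1), (281, .ofNat 1), (282, .ofNat 2), (284, .ofNat 2), (285, .ofNat 2), (286, .ofNat 1), (287, .ofNat 1), (289, .ofNat 2)]) te) (tn (tl [(427, .ofNat 2)]) te)) te) te) (tn te (tn (tn (tn (tl [(415, .ofNat 2), (416, .ofNat 2), (417, .ofNat 1)]) (tl [(434, .ofNat 2)])) (tn (tl [(430, .ofNat 1), (431, .ofNat 1)]) te)) te)))))))

def r34 : Tr SV := (tn (tn (tn (tn (tn (tn (tn (tn (tn (tl [(79, .ofNat 2), (80, .ofNat 1), (83, .ofNat 2), (85, .ofNat 1), (89, .ofNat 2)]) te) (tn (tl [(427, .ofNat 1)]) te)) (tn te (tn (tl [(432, .ofNat 1), (433, .ofNat 1)]) te))) (tn (tn te (tn (tl [(428, .ofNat 2), (429, .ofNat 1)]) te)) te)) (tn (tn (tn (tn (tl [(343, .ofNat 2), (346, .ofNat 1)]) te) te) te) (tn (tn (tn (tl [(397, .ofNat 1), (398, .ofNat 1), (401, .ofNat 2)]) te) (tn (tl [(430, .ofNat 2), (431, .ofNat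 1)]) te)) (tn (tn (tl [(427, .ofNat 1)]) te) te)))) (tn (tn (tn (tn (tn (tl [(228, .ofNat 2), (230, .ofNat 2), (231, .ofNat 2), (232, .ofNat 1)]) te) te) te) (tn (tn (tn te (tl [(434, .ofNat 2)])) te) te)) (tn (tn (tn (tn (tl [(386, .ofNat 2)]) te) te) te) (tn (tn (tn (tl [(405, .ofNat 1)]) te) (tn (tl [(431, .ofNat 1)]) te)) (tn (tn (tl [(427, .ofNat 2)]) te) te))))) (tn (tn (tn (tn te (tn te (tn (tl [(432, .ofNat 2), (433, .ofNat 1)]) te))) (tn (tn (tn (tl [(387, .ofNat 2), (388, .ofNat 1), (389, .ofNat 2), (390, .ofNat 1), (391, .ofNat 2)]) te) (tn (tl [(428, .ofNat 2), (429, .ofNat 2)]) te)) te)) (tn te (tn (tn (tn (tl [(397, .ofNat 1), (398, .ofNat 2), (399, .ofNat 2)]) (tl [(434, .ofNat 2)])) te) (tn (tn (tl [(427, .ofNat 2)]) te) te)))) (tn (tn (tn (tn (tn (tl [(259, .ofNat 1), (263, .ofNat 2), (266, .ofNat 1), (267, .ofNat 1), (269, .ofNat 1), (272, .ofNat 1), (273, .ofNat 2), (275, .ofNat 1), (276, .ofNat 1)]) te)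 te) te) (tn (tn (tn (tl [(393, .ofNat 1), (395, .ofNat 1), (396, .ofNat 1)]) (tl [(434, .ofNat 1)])) te) te)) (tn (tn (tn te (tn (tl [(428, .ofNat 1), (429, .ofNat 2)]) te)) te) (tn (tn te (tn (tl [(432, .ofNat 2)]) te)) (tn (tn (tl [(427, .ofNat 2)]) te) te)))))) (tn (tn (tn (tn (tn (tn (tn (tl [(118, .ofNat 1), (119, .ofNat 2), (120, .ofNat 2)]) te) te) (tn te (tn (tl [(432, .ofNat 2), (433, .ofNat 2)]) te))) (tn (tn (tn (tl [(387, .ofNat 2), (389, .ofNat 1), (391, .ofNat 1)]) te) te) te)) (tn te (tn (tn (tn (tl [(397, .ofNat 2), (399, .ofNat 1), (400, .ofNat 2)]) (tl [(434, .ofNat 2)])) te) (tn (tn (tl [(427, .ofNat 1)]) te) te)))) (tn (tn (tn (tn (tn (tl [(233, .ofNat 2), (236, .ofNat 1), (241, .ofNat 2), (243, .ofNat 1), (257, .ofNat 2)]) te) te) te) (tn (tn (tn te (tl [(434, .ofNat 2)])) te) te)) (tn te (tn (tn (tn (tl [(410, .ofNat 1), (411, .ofNat 1), (412, .ofNat 1)]) te) (tn (tl [(433, .ofNat 2)]) te)) (tn (tn (tl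 [(427, .ofNat 1)]) te) te))))) (tn (tn (tn (tn te (tn te (tn (tl [(432, .ofNat 2), (433, .ofNat 1)]) te))) (tn (tn (tn (tl [(389, .ofNat 2), (390, .ofNat 1), (391, .ofNat 1)]) (tl [(434, .ofNat 2)])) (tn (tl [(429, .ofNat 2)]) te)) te)) (tn te (tn (tn (tn (tl [(397, .ofNat 1), (398, .ofNat 1), (399, .ofNat 2), (400, .ofNat 2)]) (tl [(434, .ofNat 2)])) (tn (tl [(431, .ofNat 1)]) te)) (tn (tn (tl [(427, .ofNat 2)]) te) te)))) (tn (tn (tn (tn (tn (tl [(292, .ofNat 2), (294, .ofNat 2), (296, .ofNat 2), (297, .ofNat 2), (298, .ofNat 1), (302, .ofNat 2), (304, .ofNat 2), (305, .ofNat 2), (306, .ofNat 2), (308, .ofNat 1), (309, .ofNat 2), (310, .ofNat 1)]) te) te) te) (tn (tn (tn (tl [(394, .ofNat 2), (396, .ofNat 2)]) (tl [(434, .ofNat 1)])) te) te)) (tn (tn (tn te (tn (tl [(428, .ofNat 1)]) te)) te) (tn (tn (tn (tl [(418, .ofNat 1), (420, .ofNat 2)]) te) (tn (tl [(432, .ofNat 1), (433, .ofNat 2)]) te)) te)))))) (tn (tn (tn (tn (tn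 (tn (tn (tn (tl [(95, .ofNat 2)]) te) (tn (tl [(427, .ofNat 2)]) te)) (tn te (tn (tl [(432, .ofNat 1)]) te))) (tn (tn te (tn (tl [(429, .ofNat 2)]) te)) te)) (tn te (tn (tn (tn (tl [(397, .ofNat 1), (399, .ofNat 1), (400, .ofNat 1), (401, .ofNat 1)]) (tl [(434, .ofNat 2)])) (tn (tl [(431, .ofNat 1)]) te)) (tn (tn (tl [(427, .ofNat 2)]) te) te)))) (tn (tn (tn (tn (tn (tl [(227, .ofNat 1), (229, .ofNat 2), (230, .ofNat 1), (231, .ofNat 2)]) te) te) te) (tn (tn (tn te (tl [(434, .ofNat 2)])) te) te)) (tn (tn (tn (tn (tl [(386, .ofNat 1)]) te) te) te) (tn (tn (tn (tl [(402, .ofNat 2), (404, .ofNat 1), (407, .ofNat 2), (408, .ofNat 1)]) te) (tn (tl [(431, .ofNat 2)]) te)) te)))) (tn (tn (tn (tn (tn (tn (tl [(213, .ofNat 2), (214, .ofNat 1), (217, .ofNat 1), (219, .ofNat 1)]) te) te) (tn te (tn (tl [(432, .ofNat 2), (433, .ofNat 2)]) te))) (tn (tn (tn (tl [(387, .ofNat 1), (389, .ofNat 1), (390, .ofNat 2), (391, .ofNat 2)]) te) (tn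 (tl [(428, .ofNat 1), (429, .ofNat 1)]) te)) te)) (tn te (tn (tn (tn (tl [(397, .ofNat 1), (400, .ofNat 2), (401, .ofNat 1)]) (tl [(434, .ofNat 2)])) te) te))) (tn (tn (tn (tn (tn (tl [(258, .ofNat 1), (259, .ofNat 1), (262, .ofNat 1), (263, .ofNat 2), (264, .ofNat 2), (265, .ofNat 2), (266, .ofNat 2), (267, .ofNat 2), (269, .ofNat 1), (270, .ofNat 1), (271, .ofNat 1), (272, .ofNat 2), (273, .ofNat 1), (274, .ofNat 2), (276, .ofNat 1), (277, .ofNat 2)]) te) te) te) (tn (tn (tn (tl [(392, .ofNat 1), (393, .ofNat 1), (394, .ofNat 2), (396, .ofNat 1)]) (tl [(434, .ofNat 2)])) te) te)) (tn (tn (tn te (tn (tl [(428, .ofNat 2)]) te)) te) (tn (tn (tn (tl [(419, .ofNat 1), (421, .ofNat 2)]) te) (tn (tl [(433, .ofNat 2)]) te)) (tn (tn (tl [(427, .ofNat 2)]) te) te)))))) (tn (tn (tn (tn (tn (tn (tn (tl [(158, .ofNat 2), (160, .ofNat 1)]) te) te) (tn te (tn (tl [(432, .ofNat 2), (433, .ofNat 1)]) te))) (tn (tn (tn (tl [(387, .ofNat 1),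 (388, .ofNat 1), (389, .ofNat 1), (390, .ofNat 2)]) te) (tn (tl [(428, .ofNat 1)]) te)) te)) (tn te (tn (tn (tn (tl [(397, .ofNat 1), (400, .ofNat 2), (401, .ofNat 1)]) te) te) te))) (tn (tn (tn (tn (tn (tl [(235, .ofNat 2), (236, .ofNat 2), (237, .ofNat 2), (238, .ofNat 2), (239, .ofNat 1), (241, .ofNat 1), (243, .ofNat 2), (244, .ofNat 2), (245, .ofNat 1), (246, .ofNat 1), (247, .ofNat 1), (248, .ofNat 2), (249, .ofNat 1), (250, .ofNat 1), (251, .ofNat 2), (252, .ofNat 1), (253, .ofNat 2), (254, .ofNat 2), (255, .ofNat 1), (257, .ofNat 1)]) te) te) te) (tn (tn (tn (tl [(392, .ofNat 2), (393, .ofNat 2), (394, .ofNat 1), (395, .ofNat 1), (396, .ofNat 1)]) te) te) te)) (tn te (tn (tn (tn (tl [(410, .ofNat 1), (413, .ofNat 1)]) te) (tn (tl [(433, .ofNat 2)]) te)) te)))) (tn (tn (tn (tn (tn (tn (tl [(222, .ofNat 2), (225, .ofNat 2), (226, .ofNat 2)]) te) te) (tn te (tn (tl [(432, .ofNat 1), (433, .ofNat 1)]) te))) (tn (tn (tn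 te (tl [(434, .ofNat 1)])) te) te)) (tn (tn (tn (tn (tl [(386, .ofNat 1)]) te) te) te) (tn (tn (tn (tl [(402, .ofNat 2), (403, .ofNat 1), (406, .ofNat 1), (407, .ofNat 2)]) (tl [(434, .ofNat 1)])) (tn (tl [(430, .ofNat 2)]) te)) (tn (tn (tl [(427, .ofNat 2)]) te) te)))) (tn (tn (tn (tn (tn (tl [(292, .ofNat 1), (293, .ofNat 1), (294, .ofNat 2), (296, .ofNat 2), (297, .ofNat 1), (298, .ofNat 1), (299, .ofNat 1), (300, .ofNat 1), (303, .ofNat 1), (305, .ofNat 2), (306, .ofNat 1), (307, .ofNat 2), (308, .ofNat 2), (309, .ofNat 1), (310, .ofNat 2), (311, .ofNat 1)]) te) te) te) (tn (tn (tn (tl [(392, .ofNat 2), (394, .ofNat 2), (396, .ofNat 1)]) te) (tn (tl [(430, .ofNat 1), (431, .ofNat 2)]) te)) te)) (tn (tn (tn te (tn (tl [(428, .ofNat 1)]) te)) te) (tn (tn (tn (tl [(419, .ofNat 1), (421, .ofNat 2)]) te) (tn (tl [(432, .ofNat 1)]) te)) te)))))))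

def r35 : Tr SV := (tn (tn (tn (tn (tn (tn (tn (tn (tn (tl [(79, .ofNat 1), (81, .ofNat 1), (84, .ofNat 2), (85, .ofNat 2)]) te) (tn (tl [(427, .ofNat 2)]) te)) te) (tn (tn te (tn (tl [(428, .ofNat 2)]) te)) te)) (tn (tn (tn (tn (tl [(338, .ofNat 1), (349, .ofNat 1), (350, .ofNat 2)]) te) te) te) (tn (tn (tn (tl [(397, .ofNat 2), (398, .ofNat 2), (399, .ofNat 2), (401, .ofNat 1)]) (tl [(434, .ofNat 2)])) te) (tn (tn (tl [(427, .ofNat 2)]) te) te)))) (tn (tn (tn (tn (tn (tl [(228, .ofNat 2), (229, .ofNat 2), (230, .ofNat 2), (231, .ofNat 2)]) te) te) te) (tn (tn (tn te (tl [(434, .ofNat 1)])) te) te)) (tn te (tn (tn (tn (tl [(402, .ofNat 1), (406, .ofNat 1), (407, .ofNat 2), (408, .ofNat 2)]) te) (tn (tl [(430, .ofNat 1), (431, .ofNat 1)]) te)) (tn (tn (tl [(427, .ofNat 1)]) te) te))))) (tn (tn (tn te (tn (tn (tn (tl [(387, .ofNat 1), (388, .ofNat 2), (390, .ofNat 1), (391, .ofNat 2)]) (tl [(434, .ofNat 1)])) (tn (tl [(429,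 .ofNat 1)]) te)) te)) (tn te (tn (tn (tn (tl [(397, .ofNat 1), (398, .ofNat 1), (399, .ofNat 2), (401, .ofNat 2)]) (tl [(434, .ofNat 1)])) (tn (tl [(430, .ofNat 1), (431, .ofNat 2)]) te)) (tn (tn (tl [(427, .ofNat 1)]) te) te)))) (tn (tn (tn (tn (tn (tl [(258, .ofNat 2), (259, .ofNat 1), (260, .ofNat 1), (261, .ofNat 1), (265, .ofNat 1), (270, .ofNat 1), (271, .ofNat 2), (272, .ofNat 2), (273, .ofNat 2), (274, .ofNat 1), (276, .ofNat 1)]) te) te) te) (tn (tn (tn (tl [(392, .ofNat 1), (393, .ofNat 1), (394, .ofNat 1), (396, .ofNat 1)]) (tl [(434, .ofNat 2)])) te) te)) (tn (tn (tn te (tn (tl [(428, .ofNat 1)]) te)) te) (tn (tn (tn (tl [(410, .ofNat 1), (411, .ofNat 1), (412, .ofNat 1), (413, .ofNat 1)]) te) (tn (tl [(432, .ofNat 1), (433, .ofNat 2)]) te)) (tn (tn (tl [(427, .ofNat 1)]) te) te)))))) (tn (tn (tn (tn (tn (tn (tn (tl [(115, .ofNat 1), (117, .ofNat 2), (118, .ofNat 2), (120, .ofNat 1)]) te) te) (tn te (tn (tl [(432,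 .ofNat 2), (433, .ofNat 2)]) te))) (tn (tn (tn (tl [(388, .ofNat 1), (389, .ofNat 2), (390, .ofNat 1), (391, .ofNat 2)]) te) te) te)) (tn te (tn (tn (tn (tl [(397, .ofNat 1), (398, .ofNat 1), (400, .ofNat 1), (401, .ofNat 1)]) te) (tn (tl [(430, .ofNat 1), (431, .ofNat 2)]) te)) (tn (tn (tl [(427, .ofNat 2)]) te) te)))) (tn (tn (tn (tn (tn (tl [(233, .ofNat 1), (235, .ofNat 1), (236, .ofNat 1), (237, .ofNat 2), (239, .ofNat 2), (242, .ofNat 1), (243, .ofNat 1), (244, .ofNat 1), (245, .ofNat 2), (246, .ofNat 1), (247, .ofNat 1), (249, .ofNat 2), (250, .ofNat 2), (251, .ofNat 1), (252, .ofNat 2), (253, .ofNat 1), (254, .ofNat 1), (255, .ofNat 2), (257, .ofNat 2)]) te) te) te) te) (tn te (tn (tn (tn (tl [(409, .ofNat 2), (410, .ofNat 2), (411, .ofNat 1), (413, .ofNat 1)]) te) (tn (tl [(432, .ofNat 2), (433, .ofNat 2)]) te)) (tn (tn (tl [(427, .ofNat 2)]) te) te))))) (tn (tn (tn (tn te (tn te (tn (tl [(432, .ofNat 1)]) te))) (tn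 (tn (tn (tl [(387, .ofNat 1), (388, .ofNat 2), (389, .ofNat 2), (390, .ofNat 2), (391, .ofNat 2)]) (tl [(434, .ofNat 2)])) (tn (tl [(429, .ofNat 2)]) te)) te)) (tn te (tn (tn (tn (tl [(397, .ofNat 1), (401, .ofNat 2)]) te) (tn (tl [(431, .ofNat 2)]) te)) (tn (tn (tl [(427, .ofNat 2)]) te) te)))) (tn (tn (tn (tn (tn (tl [(292, .ofNat 1), (294, .ofNat 1), (295, .ofNat 2), (296, .ofNat 2), (297, .ofNat 1), (298, .ofNat 2), (300, .ofNat 2), (301, .ofNat 2), (304, .ofNat 2), (306, .ofNat 1), (308, .ofNat 1), (309, .ofNat 2), (311, .ofNat 2)]) te) te) te) (tn (tn (tn (tl [(392, .ofNat 1), (393, .ofNat 1), (395, .ofNat 2), (396, .ofNat 1)]) (tl [(434, .ofNat 1)])) te) te)) (tn (tn (tn te (tn (tl [(429, .ofNat 1)]) te)) te) (tn (tn (tn (tl [(418, .ofNat 1), (419, .ofNat 2), (420, .ofNat 2), (421, .ofNat 1), (422, .ofNat 1)]) te) (tn (tl [(432, .ofNat 1), (433, .ofNat 2)]) te)) (tn (tn (tl [(427, .ofNat 2)]) te) te))))))) (tn (tn (tn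 (tn (tn (tn (tn (tn (tl [(92, .ofNat 1), (93, .ofNat 2), (94, .ofNat 2), (95, .ofNat 1)]) te) te) (tn te (tn (tl [(432, .ofNat 1), (433, .ofNat 2)]) te))) (tn (tn te (tn (tl [(428, .ofNat 1)]) te)) te)) (tn te (tn (tn (tn (tl [(399, .ofNat 2), (400, .ofNat 2), (401, .ofNat 1)]) (tl [(434, .ofNat 2)])) (tn (tl [(430, .ofNat 2), (431, .ofNat 1)]) te)) (tn (tn (tl [(427, .ofNat 2)]) te) te)))) (tn (tn (tn (tn (tn (tl [(227, .ofNat 1), (228, .ofNat 1), (230, .ofNat 2)]) te) te) te) te) (tn te (tn (tn (tn (tl [(402, .ofNat 1), (404, .ofNat 1), (406, .ofNat 2), (407, .ofNat 2), (408, .ofNat 2)]) te) (tn (tl [(431, .ofNat 1)]) te)) te)))) (tn (tn (tn (tn (tn (tn (tl [(213, .ofNat 1), (214, .ofNat 2), (216, .ofNat 2), (218, .ofNat 2)]) te) te) (tn te (tn (tl [(432, .ofNat 1)]) te))) (tn (tn (tn (tl [(390, .ofNat 2), (391, .ofNat 1)]) (tl [(434, .ofNat 1)])) te) te)) (tn te (tn (tn (tn (tl [(397, .ofNat 2), (398, .ofNat 2), (399, .ofNat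 1), (400, .ofNat 1)]) (tl [(434, .ofNat 1)])) (tn (tl [(430, .ofNat 2), (431, .ofNat 1)]) te)) te))) (tn (tn (tn (tn (tn (tl [(258, .ofNat 2), (259, .ofNat 2), (261, .ofNat 2), (262, .ofNat 1), (263, .ofNat 2), (264, .ofNat 1), (265, .ofNat 2), (266, .ofNat 1), (269, .ofNat 1), (270, .ofNat 2), (271, .ofNat 1), (272, .ofNat 1), (273, .ofNat 1), (274, .ofNat 1), (276, .ofNat 2)]) te) te) te) (tn (tn (tn (tl [(395, .ofNat 1), (396, .ofNat 2)]) (tl [(434, .ofNat 1)])) te) te)) (tn te (tn (tn (tn (tl [(418, .ofNat 1), (419, .ofNat 1), (420, .ofNat 2), (421, .ofNat 2)]) te) te) te))))) (tn (tn (tn (tn (tn (tn (tn (tl [(158, .ofNat 1), (162, .ofNat 1), (163, .ofNat 2)]) te) te) (tn te (tn (tl [(432, .ofNat 1), (433, .ofNat 2)]) te))) (tn (tn (tn (tl [(388, .ofNat 1), (389, .ofNat 1), (390, .ofNat 2)]) te) te) te)) (tn te (tn (tn (tn (tl [(397, .ofNat 2), (398, .ofNat 1), (401, .ofNat 1)]) (tl [(434, .ofNat 2)])) (tn (tl [(430, .ofNat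 1)]) te)) (tn (tn (tl [(427, .ofNat 1)]) te) te)))) (tn (tn (tn (tn (tn (tl [(233, .ofNat 2), (234, .ofNat 1), (235, .ofNat 1), (237, .ofNat 1), (238, .ofNat 2), (239, .ofNat 2), (241, .ofNat 2), (242, .ofNat 1), (243, .ofNat 2), (245, .ofNat 2), (246, .ofNat 2), (247, .ofNat 1), (248, .ofNat 2), (249, .ofNat 2), (250, .ofNat 2), (251, .ofNat 1), (252, .ofNat 2), (253, .ofNat 1), (257, .ofNat 2)]) te) te) te) (tn (tn (tn (tl [(392, .ofNat 1), (393, .ofNat 2), (394, .ofNat 1), (396, .ofNat 1)]) (tl [(434, .ofNat 1)])) te) te)) (tn te (tn (tn (tn (tl [(409, .ofNat 2), (410, .ofNat 1), (412, .ofNat 1), (413, .ofNat 1)]) te) (tn (tl [(432, .ofNat 2), (433, .ofNat 2)]) te)) (tn (tn (tl [(427, .ofNat 2)]) te) te))))) (tn (tn (tn (tn (tn (tn (tl [(220, .ofNat 1), (221, .ofNat 1), (223, .ofNat 2), (224, .ofNat 1), (225, .ofNat 1), (226, .ofNat 1)]) te) te) (tn te (tn (tl [(432, .ofNat 1)]) te))) (tn (tn (tn te (tl [(434, .ofNat 2)]))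 te) te)) (tn (tn (tn (tn (tl [(386, .ofNat 2)]) te) te) te) (tn (tn (tn (tl [(402, .ofNat 1), (403, .ofNat 1), (404, .ofNat 2), (405, .ofNat 1), (407, .ofNat 1), (408, .ofNat 1)]) (tl [(434, .ofNat 1)])) (tn (tl [(430, .ofNat 2), (431, .ofNat 2)]) te)) (tn (tn (tl [(427, .ofNat 1)]) te) te)))) (tn (tn (tn (tn (tn (tl [(294, .ofNat 1), (295, .ofNat 2), (297, .ofNat 1), (298, .ofNat 1), (299, .ofNat 1), (300, .ofNat 1), (301, .ofNat 1), (302, .ofNat 1), (303, .ofNat 1), (306, .ofNat 2), (307, .ofNat 2), (308, .ofNat 2), (309, .ofNat 1), (310, .ofNat 2)]) te) te) te) (tn (tn (tn (tl [(392, .ofNat 1), (393, .ofNat 2), (395, .ofNat 1), (396, .ofNat 1)]) (tl [(434, .ofNat 2)])) (tn (tl [(430, .ofNat 1), (431, .ofNat 2)]) te)) te)) (tn (tn (tn te (tn (tl [(429, .ofNat 2)]) te)) te) (tn (tn (tn (tl [(418, .ofNat 2), (419, .ofNat 1), (420, .ofNat 1), (422, .ofNat 2)]) te) (tn (tl [(432, .ofNat 2)]) te)) te)))))))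

def r36 : Tr SV := (tn (tn (tn (tn (tn (tn (tn (tn (tn (tl [(79, .ofNat 2), (83, .ofNat 2), (84, .ofNat 1), (85, .ofNat 1), (89, .ofNat 2)]) te) te) te) (tn (tn te (tn (tl [(429, .ofNat 2)]) te)) te)) (tn (tn (tn (tn (tl [(343, .ofNat 2), (350, .ofNat 1)]) te) te) te) (tn (tn (tn (tl [(397, .ofNat 1), (398, .ofNat 1), (399, .ofNat 2), (400, .ofNat 2)]) (tl [(434, .ofNat 2)])) (tn (tl [(430, .ofNat 1), (431, .ofNat 2)]) te)) (tn (tn (tl [(427, .ofNat 2)]) te) te)))) (tn (tn (tn (tn (tn (tl [(227, .ofNat 2), (228, .ofNat 2), (231, .ofNat 1), (232, .ofNat 2)]) te) te) te) (tn (tn (tn te (tl [(434, .ofNat 2)])) te) te)) (tn (tn (tn (tn (tl [(386, .ofNat 2)]) te) te) te) (tn (tn (tn (tl [(403, .ofNat 2), (404, .ofNat 1), (406, .ofNat 2), (407, .ofNat 2), (408, .ofNat 1)]) te) (tn (tl [(430, .ofNat 1), (431, .ofNat 2)]) te)) (tn (tn (tl [(427, .ofNat 2)]) te) te))))) (tn (tn (tn (tn te (tn te (tn (tl [(432, .ofNat 1), (433, .ofNat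 2)]) te))) (tn (tn (tn (tl [(388, .ofNat 2), (391, .ofNat 2)]) te) te) te)) (tn te (tn (tn (tn (tl [(397, .ofNat 1), (399, .ofNat 1)]) (tl [(434, .ofNat 2)])) (tn (tl [(431, .ofNat 1)]) te)) te))) (tn (tn (tn (tn (tn (tl [(258, .ofNat 2), (259, .ofNat 2), (261, .ofNat 2), (264, .ofNat 2), (265, .ofNat 2), (269, .ofNat 1), (270, .ofNat 2), (271, .ofNat 1), (272, .ofNat 1), (273, .ofNat 1), (274, .ofNat 1), (276, .ofNat 2)]) te) te) te) (tn (tn (tn (tl [(392, .ofNat 2), (393, .ofNat 1), (394, .ofNat 1), (396, .ofNat 2)]) te) te) te)) (tn te (tn (tn (tn (tl [(412, .ofNat 2)]) te) (tn (tl [(432, .ofNat 2), (433, .ofNat 1)]) te)) (tn (tn (tl [(427, .ofNat 1)]) te) te)))))) (tn (tn (tn (tn (tn (tn (tn (tl [(117, .ofNat 1), (118, .ofNat 1), (119, .ofNat 2), (120, .ofNat 2)]) te) te) (tn te (tn (tl [(433, .ofNat 2)]) te))) (tn (tn (tn (tl [(387, .ofNat 2), (388, .ofNat 2), (389, .ofNat 1), (391, .ofNat 1)]) te) (tn (tl [(428, .ofNat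 1)]) te)) te)) (tn te (tn (tn (tn (tl [(397, .ofNat 2), (398, .ofNat 1), (399, .ofNat 2), (400, .ofNat 1), (401, .ofNat 1)]) te) (tn (tl [(430, .ofNat 2), (431, .ofNat 1)]) te)) te))) (tn (tn (tn (tn (tn (tl [(233, .ofNat 2), (241, .ofNat 2), (243, .ofNat 1), (247, .ofNat 1), (257, .ofNat 2)]) te) te) te) te) (tn te (tn (tn (tn (tl [(409, .ofNat 1), (411, .ofNat 2), (413, .ofNat 1)]) te) (tn (tl [(432, .ofNat 1), (433, .ofNat 1)]) te)) (tn (tn (tl [(427, .ofNat 2)]) te) te))))) (tn (tn (tn (tn te (tn te (tn (tl [(432, .ofNat 1), (433, .ofNat 1)]) te))) (tn (tn (tn (tl [(387, .ofNat 2), (388, .ofNat 1), (390, .ofNat 1)]) te) te) te)) (tn te (tn (tn (tn (tl [(397, .ofNat 2), (399, .ofNat 2), (400, .ofNat 1)]) (tl [(434, .ofNat 1)])) (tn (tl [(430, .ofNat 2), (431, .ofNat 1)]) te)) te))) (tn (tn (tn (tn (tn (tl [(292, .ofNat 1), (293, .ofNat 2), (294, .ofNat 2), (295, .ofNat 1), (297, .ofNat 1), (298, .ofNat 2), (299, .ofNat 2),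 (300, .ofNat 1), (301, .ofNat 1), (302, .ofNat 1), (304, .ofNat 2), (305, .ofNat 2), (307, .ofNat 2), (308, .ofNat 2), (310, .ofNat 1), (311, .ofNat 2)]) te) te) te) (tn (tn (tn (tl [(392, .ofNat 1), (393, .ofNat 2), (394, .ofNat 2), (395, .ofNat 2), (396, .ofNat 2)]) (tl [(434, .ofNat 1)])) te) te)) (tn (tn (tn te (tn (tl [(428, .ofNat 1), (429, .ofNat 1)]) te)) te) (tn (tn (tn (tl [(418, .ofNat 1), (419, .ofNat 2), (422, .ofNat 2)]) te) (tn (tl [(433, .ofNat 2)]) te)) (tn (tn (tl [(427, .ofNat 1)]) te) te))))))) (tn (tn (tn (tn (tn (tn (tn (tn (tl [(93, .ofNat 1), (95, .ofNat 2)]) te) (tn (tl [(427, .ofNat 1)]) te)) (tn te (tn (tl [(432, .ofNat 1)]) te))) (tn (tn te (tn (tl [(429, .ofNat 2)]) te)) te)) (tn te (tn (tn (tn (tl [(398, .ofNat 1), (399, .ofNat 2)]) (tl [(434, .ofNat 2)])) te) (tn (tn (tl [(427, .ofNat 2)]) te) te)))) (tn (tn (tn (tn (tn (tl [(229, .ofNat 1), (230, .ofNat 2), (232, .ofNat 2)]) te) te) te) (tn (tn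 (tn te (tl [(434, .ofNat 2)])) te) te)) (tn te (tn (tn (tn (tl [(402, .ofNat 2), (403, .ofNat 1), (405, .ofNat 2), (407, .ofNat 2)]) te) (tn (tl [(431, .ofNat 2)]) te)) (tn (tn (tl [(427, .ofNat 2)]) te) te))))) (tn (tn (tn (tn (tn (tn (tl [(213, .ofNat 1), (214, .ofNat 1), (215, .ofNat 2), (217, .ofNat 1), (218, .ofNat 1), (219, .ofNat 1)]) te) te) (tn te (tn (tl [(433, .ofNat 2)]) te))) (tn (tn (tn (tl [(388, .ofNat 2), (390, .ofNat 2), (391, .ofNat 2)]) (tl [(434, .ofNat 2)])) (tn (tl [(429, .ofNat 1)]) te)) te)) (tn te (tn (tn (tn (tl [(397, .ofNat 2), (399, .ofNat 2), (400, .ofNat 2)]) (tl [(434, .ofNat 1)])) (tn (tl [(431, .ofNat 1)]) te)) (tn (tn (tl [(427, .ofNat 1)]) te) te)))) (tn (tn (tn (tn (tn (tl [(259, .ofNat 1), (262, .ofNat 1), (263, .ofNat 2), (265, .ofNat 2), (266, .ofNat 2), (267, .ofNat 2), (269, .ofNat 1), (270, .ofNat 1), (271, .ofNat 1), (272, .ofNat 2), (273, .ofNat 1), (274, .ofNat 2), (276, .ofNat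 1), (277, .ofNat 2)]) te) te) te) (tn (tn (tn (tl [(392, .ofNat 2), (393, .ofNat 2), (394, .ofNat 2)]) (tl [(434, .ofNat 2)])) te) te)) (tn (tn (tn te (tn (tl [(429, .ofNat 2)]) te)) te) (tn (tn (tn (tl [(418, .ofNat 2), (419, .ofNat 1), (421, .ofNat 2), (422, .ofNat 2)]) te) (tn (tl [(432, .ofNat 1)]) te)) (tn (tn (tl [(427, .ofNat 2)]) te) te)))))) (tn (tn (tn (tn (tn (tn (tn (tl [(158, .ofNat 2), (163, .ofNat 1)]) te) te) (tn te (tn (tl [(432, .ofNat 1), (433, .ofNat 1)]) te))) (tn (tn (tn (tl [(389, .ofNat 2), (390, .ofNat 2), (391, .ofNat 1)]) te) (tn (tl [(428, .ofNat 2), (429, .ofNat 1)]) te)) te)) (tn te (tn (tn (tn (tl [(399, .ofNat 2), (400, .ofNat 2), (401, .ofNat 2)]) te) (tn (tl [(431, .ofNat 1)]) te)) (tn (tn (tl [(427, .ofNat 2)]) te) te)))) (tn (tn (tn (tn (tn (tl [(235, .ofNat 2), (236, .ofNat 2), (237, .ofNat 1), (238, .ofNat 2), (239, .ofNat 1), (241, .ofNat 1), (243, .ofNat 2), (244, .ofNat 2), (245, .ofNat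 1), (246, .ofNat 1), (247, .ofNat 1), (249, .ofNat 1), (250, .ofNat 1), (251, .ofNat 2), (252, .ofNat 1), (253, .ofNat 2), (254, .ofNat 2), (255, .ofNat 1), (257, .ofNat 1)]) te) te) te) (tn (tn (tn (tl [(392, .ofNat 2), (393, .ofNat 1), (396, .ofNat 1)]) te) te) te)) (tn te (tn (tn (tn (tl [(409, .ofNat 1), (410, .ofNat 2), (412, .ofNat 2), (413, .ofNat 2)]) te) (tn (tl [(432, .ofNat 2)]) te)) (tn (tn (tl [(427, .ofNat 2)]) te) te))))) (tn (tn (tn (tn (tn (tn (tl [(220, .ofNat 1), (221, .ofNat 1), (223, .ofNat 1), (224, .ofNat 1), (226, .ofNat 1)]) te) te) (tn te (tn (tl [(432, .ofNat 2), (433, .ofNat 2)]) te))) (tn (tn (tn te (tl [(434, .ofNat 1)])) te) te)) (tn (tn (tn (tn (tl [(386, .ofNat 2)]) te) te) te) (tn (tn (tn (tl [(404, .ofNat 1), (405, .ofNat 1), (407, .ofNat 1), (408, .ofNat 1)]) te) (tn (tl [(430, .ofNat 2), (431, .ofNat 2)]) te)) (tn (tn (tl [(427, .ofNat 2)]) te) te)))) (tn (tn (tn (tn (tn (tl [(292, .ofNat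 1), (293, .ofNat 2), (294, .ofNat 1), (296, .ofNat 1), (297, .ofNat 2), (298, .ofNat 1), (299, .ofNat 2), (300, .ofNat 2), (301, .ofNat 1), (303, .ofNat 1), (304, .ofNat 2), (306, .ofNat 2), (307, .ofNat 2), (308, .ofNat 2), (310, .ofNat 1), (311, .ofNat 2)]) te) te) te) (tn (tn (tn (tl [(392, .ofNat 2), (393, .ofNat 1), (394, .ofNat 1), (395, .ofNat 1), (396, .ofNat 2)]) (tl [(434, .ofNat 2)])) te) te)) (tn (tn (tn te (tn (tl [(429, .ofNat 2)]) te)) te) (tn (tn (tn (tl [(418, .ofNat 1), (420, .ofNat 1), (421, .ofNat 1), (422, .ofNat 2)]) te) (tn (tl [(432, .ofNat 2), (433, .ofNat 2)]) te)) (tn (tn (tl [(427, .ofNat 2)]) te) te))))))))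

def r37 : Tr SV := (tn (tn (tn (tn (tn (tn (tn (tn (tn (tl [(79, .ofNat 1), (84, .ofNat 2), (85, .ofNat 2), (86, .ofNat 1)]) te) te) (tn te (tn (tl [(433, .ofNat 2)]) te))) (tn (tn te (tn (tl [(428, .ofNat 2)]) te)) te)) (tn (tn (tn (tn (tl [(338, .ofNat 1), (350, .ofNat 2), (353, .ofNat 1)]) te) te) te) (tn (tn (tn (tl [(398, .ofNat 1), (399, .ofNat 2)]) te) (tn (tl [(430, .ofNat 2)]) te)) (tn (tn (tl [(427, .ofNat 2)]) te) te)))) (tn (tn (tn (tn (tn (tl [(227, .ofNat 1), (228, .ofNat 2), (229, .ofNat 1), (231, .ofNat 2), (232, .ofNat 2)]) te) te) te) (tn (tn (tn te (tl [(434, .ofNat 1)])) te) te)) (tn te (tn (tn (tn (tl [(403, .ofNat 1), (404, .ofNat 2), (406, .ofNat 1), (407, .ofNat 1), (408, .ofNat 2)]) te) (tn (tl [(430, .ofNat 1), (431, .ofNat 2)]) te)) (tn (tn (tl [(427, .ofNat 2)]) te) te))))) (tn (tn (tn (tn te (tn te (tn (tl [(432, .ofNat 1), (433, .ofNat 2)]) te))) (tn (tn (tn (tl [(387, .ofNat 2), (388, .ofNat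 1), (389, .ofNat 1), (390, .ofNat 2), (391, .ofNat 2)]) (tl [(434, .ofNat 1)])) (tn (tl [(429, .ofNat 1)]) te)) te)) (tn te (tn (tn (tn (tl [(397, .ofNat 1), (401, .ofNat 1)]) te) (tn (tl [(430, .ofNat 1)]) te)) (tn (tn (tl [(427, .ofNat 1)]) te) te)))) (tn (tn (tn (tn (tn (tl [(258, .ofNat 2), (259, .ofNat 1), (261, .ofNat 1), (265, .ofNat 1), (268, .ofNat 1), (270, .ofNat 1), (271, .ofNat 2), (272, .ofNat 2), (273, .ofNat 2), (274, .ofNat 1), (276, .ofNat 1)]) te) te) te) (tn (tn (tn (tl [(392, .ofNat 1), (394, .ofNat 2), (396, .ofNat 1)]) (tl [(434, .ofNat 2)])) te) te)) (tn (tn (tn te (tn (tl [(428, .ofNat 1)]) te)) te) (tn (tn (tn (tl [(409, .ofNat 2), (411, .ofNat 1), (413, .ofNat 2)]) te) (tn (tl [(432, .ofNat 2), (433, .ofNat 2)]) te)) (tn (tn (tl [(427, .ofNat 2)]) te) te)))))) (tn (tn (tn (tn (tn (tn (tn (tl [(117, .ofNat 2), (118, .ofNat 2), (120, .ofNat 1)]) te) te) (tn te (tn (tl [(432, .ofNat 1)]) te))) (tn (tn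 (tn (tl [(389, .ofNat 2), (390, .ofNat 2), (391, .ofNat 1)]) te) (tn (tl [(429, .ofNat 1)]) te)) te)) (tn te (tn (tn (tn (tl [(397, .ofNat 1), (400, .ofNat 1)]) (tl [(434, .ofNat 2)])) (tn (tl [(431, .ofNat 2)]) te)) (tn (tn (tl [(427, .ofNat 1)]) te) te)))) (tn (tn (tn (tn (tn (tl [(233, .ofNat 1), (235, .ofNat 1), (236, .ofNat 1), (237, .ofNat 2), (239, .ofNat 2), (243, .ofNat 1), (244, .ofNat 1), (245, .ofNat 2), (246, .ofNat 1), (247, .ofNat 1), (249, .ofNat 2), (250, .ofNat 2), (251, .ofNat 2), (252, .ofNat 2), (253, .ofNat 1), (254, .ofNat 1), (255, .ofNat 2), (257, .ofNat 2)]) te) te) te) (tn (tn (tn te (tl [(434, .ofNat 1)])) te) te)) (tn te (tn (tn (tn (tl [(409, .ofNat 2), (411, .ofNat 2), (412, .ofNat 1)]) te) (tn (tl [(432, .ofNat 1)]) te)) te)))) (tn (tn (tn (tn te (tn te (tn (tl [(432, .ofNat 1), (433, .ofNat 2)]) te))) (tn (tn (tn (tl [(387, .ofNat 1), (388, .ofNat 2), (391, .ofNat 1)]) (tl [(434, .ofNat 1)]))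 te) te)) (tn te (tn (tn (tn (tl [(397, .ofNat 2), (399, .ofNat 2), (401, .ofNat 1)]) (tl [(434, .ofNat 1)])) (tn (tl [(430, .ofNat 2), (431, .ofNat 2)]) te)) (tn (tn (tl [(427, .ofNat 1)]) te) te)))) (tn (tn (tn (tn (tn (tl [(293, .ofNat 2), (295, .ofNat 1), (296, .ofNat 2), (297, .ofNat 1), (299, .ofNat 1), (301, .ofNat 1), (303, .ofNat 2), (304, .ofNat 2), (305, .ofNat 2), (306, .ofNat 1), (307, .ofNat 2), (308, .ofNat 2), (309, .ofNat 2), (310, .ofNat 2)]) te) te) te) (tn (tn (tn (tl [(396, .ofNat 1)]) te) te) te)) (tn (tn (tn te (tn (tl [(428, .ofNat 1)]) te)) te) (tn (tn (tn (tl [(418, .ofNat 1), (420, .ofNat 1), (422, .ofNat 2)]) te) (tn (tl [(432, .ofNat 2), (433, .ofNat 2)]) te)) (tn (tn (tl [(427, .ofNat 2)]) te) te))))))) (tn (tn (tn (tn (tn (tn (tn (tn (tl [(93, .ofNat 2), (94, .ofNat 2), (95, .ofNat 1)]) te) (tn (tl [(427, .ofNat 1)]) te)) (tn te (tn (tl [(432, .ofNat 2), (433, .ofNat 1)]) te))) (tn (tn te (tn (tl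 [(428, .ofNat 1)]) te)) te)) (tn te (tn (tn (tn (tl [(399, .ofNat 1), (400, .ofNat 1), (401, .ofNat 2)]) (tl [(434, .ofNat 2)])) (tn (tl [(430, .ofNat 1), (431, .ofNat 2)]) te)) (tn (tn (tl [(427, .ofNat 2)]) te) te)))) (tn (tn (tn (tn (tn (tl [(227, .ofNat 1), (228, .ofNat 1), (229, .ofNat 1), (230, .ofNat 1), (231, .ofNat 2)]) te) te) te) te) (tn (tn (tn (tn (tl [(386, .ofNat 2)]) te) te) te) (tn (tn (tn (tl [(402, .ofNat 1), (408, .ofNat 2)]) te) (tn (tl [(430, .ofNat 1), (431, .ofNat 1)]) te)) (tn (tn (tl [(427, .ofNat 2)]) te) te))))) (tn (tn (tn (tn (tn (tn (tl [(213, .ofNat 1), (214, .ofNat 1), (216, .ofNat 2), (218, .ofNat 2), (219, .ofNat 1)]) te) te) (tn te (tn (tl [(432, .ofNat 2)]) te))) (tn (tn (tn (tl [(387, .ofNat 2), (389, .ofNat 1), (390, .ofNat 1), (391, .ofNat 1)]) te) (tn (tl [(428, .ofNat 2), (429, .ofNat 2)]) te)) te)) (tn te (tn (tn (tn (tl [(397, .ofNat 2), (398, .ofNat 2), (399, .ofNat 1), (401, .ofNat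 1)]) (tl [(434, .ofNat 2)])) (tn (tl [(430, .ofNat 1)]) te)) te))) (tn (tn (tn (tn (tn (tl [(258, .ofNat 2), (259, .ofNat 2), (261, .ofNat 1), (262, .ofNat 1), (263, .ofNat 2), (264, .ofNat 1), (265, .ofNat 2), (266, .ofNat 1), (269, .ofNat 2), (270, .ofNat 2), (271, .ofNat 1), (272, .ofNat 1), (273, .ofNat 1), (274, .ofNat 1), (276, .ofNat 2)]) te) te) te) (tn (tn (tn (tl [(394, .ofNat 1)]) (tl [(434, .ofNat 1)])) te) te)) (tn (tn (tn te (tn (tl [(429, .ofNat 1)]) te)) te) (tn (tn (tn (tl [(418, .ofNat 1), (419, .ofNat 1), (422, .ofNat 2)]) te) (tn (tl [(432, .ofNat 2), (433, .ofNat 1)]) te)) (tn (tn (tl [(427, .ofNat 2)]) te) te)))))) (tn (tn (tn (tn (tn (tn (tn (tl [(158, .ofNat 1), (163, .ofNat 2), (165, .ofNat 1)]) te) te) te) (tn (tn (tn (tl [(387, .ofNat 2), (390, .ofNat 2), (391, .ofNat 2)]) te) (tn (tl [(428, .ofNat 1), (429, .ofNat 2)]) te)) te)) (tn te (tn (tn te (tn (tl [(431, .ofNat 2)]) te)) te))) (tn (tn (tn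 (tn (tn (tl [(233, .ofNat 2), (234, .ofNat 1), (235, .ofNat 1), (237, .ofNat 1), (238, .ofNat 2), (239, .ofNat 2), (241, .ofNat 2), (242, .ofNat 1), (243, .ofNat 1), (245, .ofNat 2), (246, .ofNat 2), (247, .ofNat 1), (248, .ofNat 2), (249, .ofNat 2), (250, .ofNat 2), (251, .ofNat 1), (253, .ofNat 1), (257, .ofNat 2)]) te) te) te) (tn (tn (tn (tl [(393, .ofNat 1)]) (tl [(434, .ofNat 1)])) te) te)) (tn te (tn (tn (tn (tl [(410, .ofNat 2), (413, .ofNat 2)]) te) (tn (tl [(432, .ofNat 2), (433, .ofNat 2)]) te)) (tn (tn (tl [(427, .ofNat 2)]) te) te))))) (tn (tn (tn (tn (tn (tn (tl [(220, .ofNat 1), (222, .ofNat 1), (224, .ofNat 2), (225, .ofNat 1), (226, .ofNat 1)]) te) te) (tn te (tn (tl [(433, .ofNat 2)]) te))) (tn (tn (tn te (tl [(434, .ofNat 2)])) te) te)) (tn (tn (tn (tn (tl [(386, .ofNat 2)]) te) te) te) (tn (tn (tn (tl [(403, .ofNat 1), (404, .ofNat 1), (405, .ofNat 1), (406, .ofNat 1), (407, .ofNat 2), (408, .ofNat 1)])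 (tl [(434, .ofNat 2)])) (tn (tl [(431, .ofNat 1)]) te)) (tn (tn (tl [(427, .ofNat 2)]) te) te)))) (tn (tn (tn (tn (tn (tl [(292, .ofNat 1), (293, .ofNat 2), (294, .ofNat 1), (295, .ofNat 2), (299, .ofNat 1), (300, .ofNat 1), (301, .ofNat 2), (302, .ofNat 2), (303, .ofNat 2), (304, .ofNat 2), (306, .ofNat 2), (307, .ofNat 1), (308, .ofNat 2), (309, .ofNat 2)]) te) te) te) (tn (tn (tn (tl [(392, .ofNat 1), (394, .ofNat 1)]) te) (tn (tl [(431, .ofNat 1)]) te)) te)) (tn te (tn (tn (tn (tl [(419, .ofNat 1), (420, .ofNat 2)]) te) (tn (tl [(432, .ofNat 1), (433, .ofNat 1)]) te)) te)))))))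

def r38 : Tr SV := (tn (tn (tn (tn (tn (tn (tn (tn (tn (tl [(79, .ofNat 2), (87, .ofNat 1)]) te) te) (tn te (tn (tl [(432, .ofNat 1)]) te))) (tn (tn te (tn (tl [(428, .ofNat 2), (429, .ofNat 1)]) te)) te)) (tn (tn (tn (tn (tl [(343, .ofNat 2), (354, .ofNat 1)]) te) te) te) (tn (tn (tn (tl [(397, .ofNat 2), (399, .ofNat 1), (400, .ofNat 2), (401, .ofNat 2)]) te) (tn (tl [(430, .ofNat 2)]) te)) (tn (tn (tl [(427, .ofNat 1)]) te) te)))) (tn (tn (tn (tn (tn (tl [(227, .ofNat 1), (229, .ofNat 1), (230, .ofNat 2), (231, .ofNat 1), (232, .ofNat 2)]) te) te) te) te) (tn te (tn (tn (tn (tl [(402, .ofNat 1), (403, .ofNat 1), (404, .ofNat 1), (405, .ofNat 2)]) te) (tn (tl [(430, .ofNat 1)]) te)) (tn (tn (tl [(427, .ofNat 1)]) te) te))))) (tn (tn (tn (tn te (tn te (tn (tl [(433, .ofNat 2)]) te))) (tn (tn (tn (tl [(387, .ofNat 2), (388, .ofNat 2), (390, .ofNat 1), (391, .ofNat 1)]) (tl [(434, .ofNat 2)])) (tn (tl [(429, .ofNat 1)]) te))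 te)) (tn te (tn (tn (tn (tl [(398, .ofNat 2), (400, .ofNat 1)]) (tl [(434, .ofNat 2)])) (tn (tl [(430, .ofNat 2), (431, .ofNat 1)]) te)) (tn (tn (tl [(427, .ofNat 2)]) te) te)))) (tn (tn (tn (tn (tn (tl [(260, .ofNat 1), (261, .ofNat 2), (262, .ofNat 2), (263, .ofNat 2), (265, .ofNat 1), (266, .ofNat 1), (267, .ofNat 2), (268, .ofNat 2), (269, .ofNat 1), (270, .ofNat 2), (273, .ofNat 1), (274, .ofNat 2), (275, .ofNat 1)]) te) te) te) (tn (tn (tn (tl [(392, .ofNat 2), (394, .ofNat 1), (395, .ofNat 2), (396, .ofNat 1)]) te) te) te)) (tn (tn (tn te (tn (tl [(428, .ofNat 1), (429, .ofNat 2)]) te)) te) (tn (tn (tn (tl [(409, .ofNat 2), (410, .ofNat 2), (411, .ofNat 2), (413, .ofNat 1)]) te) (tn (tl [(432, .ofNat 2)]) te)) (tn (tn (tl [(427, .ofNat 2)]) te) te)))))) (tn (tn (tn (tn (tn (tn (tn (tl [(112, .ofNat 2), (122, .ofNat 1)]) te) te) (tn te (tn (tl [(432, .ofNat 2), (433, .ofNat 1)]) te))) (tn (tn (tn (tl [(387, .ofNat 2),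 (388, .ofNat 2), (389, .ofNat 2), (390, .ofNat 2)]) te) (tn (tl [(429, .ofNat 2)]) te)) te)) (tn te (tn (tn (tn (tl [(399, .ofNat 2), (401, .ofNat 2)]) (tl [(434, .ofNat 1)])) (tn (tl [(430, .ofNat 2), (431, .ofNat 1)]) te)) te))) (tn (tn (tn (tn (tn (tl [(233, .ofNat 2), (254, .ofNat 1)]) te) te) te) te) (tn te (tn (tn (tn (tl [(410, .ofNat 1), (411, .ofNat 2), (412, .ofNat 2), (413, .ofNat 1)]) te) (tn (tl [(432, .ofNat 1)]) te)) (tn (tn (tl [(427, .ofNat 1)]) te) te))))) (tn (tn (tn (tn te (tn te (tn (tl [(432, .ofNat 2), (433, .ofNat 1)]) te))) (tn (tn (tn (tl [(387, .ofNat 1), (388, .ofNat 2), (389, .ofNat 2)]) te) (tn (tl [(428, .ofNat 2), (429, .ofNat 1)]) te)) te)) (tn te (tn (tn (tn (tl [(400, .ofNat 1), (401, .ofNat 1)]) te) (tn (tl [(431, .ofNat 1)]) te)) (tn (tn (tl [(427, .ofNat 1)]) te) te)))) (tn (tn (tn (tn (tn (tl [(295, .ofNat 1), (297, .ofNat 2), (298, .ofNat 2), (299, .ofNat 1), (300, .ofNat 1), (301, .ofNat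 2), (302, .ofNat 2), (303, .ofNat 1), (305, .ofNat 1), (306, .ofNat 1), (308, .ofNat 2), (311, .ofNat 2)]) te) te) te) (tn (tn (tn (tl [(392, .ofNat 1), (394, .ofNat 2), (395, .ofNat 2)]) (tl [(434, .ofNat 2)])) te) te)) (tn (tn (tn te (tn (tl [(428, .ofNat 2), (429, .ofNat 2)]) te)) te) (tn (tn (tn (tl [(418, .ofNat 1), (419, .ofNat 1), (420, .ofNat 1), (422, .ofNat 1)]) te) (tn (tl [(432, .ofNat 1), (433, .ofNat 1)]) te)) (tn (tn (tl [(427, .ofNat 1)]) te) te))))))) (tn (tn (tn (tn (tn (tn (tn (tn (tl [(90, .ofNat 2), (97, .ofNat 1)]) te) te) (tn te (tn (tl [(432, .ofNat 1), (433, .ofNat 1)]) te))) (tn (tn te (tn (tl [(428, .ofNat 2), (429, .ofNat 1)]) te)) te)) (tn te (tn (tn (tn (tl [(397, .ofNat 2), (398, .ofNat 2), (399, .ofNat 2), (401, .ofNat 1)]) te) (tn (tl [(430, .ofNat 1), (431, .ofNat 1)]) te)) (tn (tn (tl [(427, .ofNat 1)]) te) te)))) (tn (tn (tn (tn (tn (tl [(227, .ofNat 1), (228, .ofNat 1), (229, .ofNat 2),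 (230, .ofNat 2), (231, .ofNat 1), (232, .ofNat 1)]) te) te) te) te) (tn te (tn (tn (tn (tl [(402, .ofNat 2), (403, .ofNat 1), (405, .ofNat 1), (406, .ofNat 2), (407, .ofNat 1), (408, .ofNat 1)]) te) (tn (tl [(430, .ofNat 1), (431, .ofNat 2)]) te)) (tn (tn (tl [(427, .ofNat 1)]) te) te))))) (tn (tn (tn (tn (tn (tn (tl [(213, .ofNat 1), (214, .ofNat 1), (215, .ofNat 2), (217, .ofNat 2), (218, .ofNat 2), (219, .ofNat 2)]) te) te) (tn te (tn (tl [(432, .ofNat 2), (433, .ofNat 1)]) te))) (tn (tn (tn (tl [(387, .ofNat 2), (390, .ofNat 1), (391, .ofNat 2)]) te) (tn (tl [(428, .ofNat 1)]) te)) te)) (tn te (tn (tn (tn (tl [(397, .ofNat 1), (398, .ofNat 2), (399, .ofNat 2), (401, .ofNat 2)]) (tl [(434, .ofNat 1)])) (tn (tl [(430, .ofNat 2), (431, .ofNat 1)]) te)) (tn (tn (tl [(427, .ofNat 2)]) te) te)))) (tn (tn (tn (tn (tn (tl [(258, .ofNat 2), (259, .ofNat 1), (260, .ofNat 1), (261, .ofNat 2), (262, .ofNat 2), (263, .ofNat 2), (265,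 .ofNat 1), (266, .ofNat 1), (267, .ofNat 2), (268, .ofNat 2), (269, .ofNat 2), (270, .ofNat 2), (272, .ofNat 2), (274, .ofNat 2), (275, .ofNat 2)]) te) te) te) (tn (tn (tn (tl [(394, .ofNat 1), (396, .ofNat 2)]) te) te) te)) (tn (tn (tn te (tn (tl [(428, .ofNat 1), (429, .ofNat 2)]) te)) te) (tn (tn (tn (tl [(420, .ofNat 2), (421, .ofNat 1), (422, .ofNat 1)]) te) (tn (tl [(432, .ofNat 1), (433, .ofNat 2)]) te)) (tn (tn (tl [(427, .ofNat 2)]) te) te)))))) (tn (tn (tn (tn (tn (tn (tn (tl [(158, .ofNat 2), (166, .ofNat 1)]) te) te) te) (tn (tn (tn (tl [(389, .ofNat 1), (390, .ofNat 1), (391, .ofNat 1)]) te) te) te)) (tn te (tn (tn (tn (tl [(398, .ofNat 2), (399, .ofNat 2), (401, .ofNat 1)]) te) (tn (tl [(430, .ofNat 1), (431, .ofNat 1)]) te)) (tn (tn (tl [(427, .ofNat 1)]) te) te)))) (tn (tn (tn (tn (tn (tl [(234, .ofNat 2), (255, .ofNat 1)]) te) te) te) (tn (tn (tn (tl [(392, .ofNat 2), (394, .ofNat 2), (395, .ofNat 1), (396,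 .ofNat 2)]) te) te) te)) (tn te (tn (tn (tn (tl [(409, .ofNat 1), (410, .ofNat 2), (411, .ofNat 2), (412, .ofNat 2)]) te) (tn (tl [(432, .ofNat 1)]) te)) (tn (tn (tl [(427, .ofNat 1)]) te) te))))) (tn (tn (tn (tn (tn (tn (tl [(220, .ofNat 1), (221, .ofNat 1), (222, .ofNat 1), (224, .ofNat 2)]) te) te) (tn te (tn (tl [(432, .ofNat 2), (433, .ofNat 1)]) te))) te) (tn (tn (tn (tn (tl [(386, .ofNat 1)]) te) te) te) (tn (tn (tn (tl [(402, .ofNat 2), (403, .ofNat 1), (404, .ofNat 1), (405, .ofNat 2), (407, .ofNat 2), (408, .ofNat 1)]) te) (tn (tl [(430, .ofNat 1), (431, .ofNat 2)]) te)) te))) (tn (tn (tn (tn (tn (tl [(292, .ofNat 2), (294, .ofNat 2), (295, .ofNat 1), (296, .ofNat 1), (297, .ofNat 1), (298, .ofNat 1), (299, .ofNat 1), (300, .ofNat 1), (303, .ofNat 1), (304, .ofNat 2), (305, .ofNat 1), (308, .ofNat 2), (309, .ofNat 2), (310, .ofNat 1), (311, .ofNat 1)]) te) te) te) (tn (tn (tn (tl [(392, .ofNat 1), (393, .ofNat 2),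 (395, .ofNat 2), (396, .ofNat 2)]) te) (tn (tl [(430, .ofNat 2)]) te)) te)) (tn (tn (tn te (tn (tl [(428, .ofNat 2), (429, .ofNat 1)]) te)) te) (tn (tn (tn (tl [(419, .ofNat 2), (420, .ofNat 1), (422, .ofNat 1)]) te) (tn (tl [(432, .ofNat 2), (433, .ofNat 1)]) te)) te)))))))

def r39 : Tr SV := (tn (tn (tn (tn (tn (tn (tn (tn (tn (tl [(91, .ofNat 1), (94, .ofNat 2), (98, .ofNat 1)]) te) te) te) (tn (tn (tn (tl [(387, .ofNat 1), (389, .ofNat 2), (390, .ofNat 2)]) (tl [(434, .ofNat 1)])) te) te)) (tn (tn (tn (tn (tl [(355, .ofNat 2), (356, .ofNat 2), (357, .ofNat 2), (358, .ofNat 1), (359, .ofNat 1), (361, .ofNat 1), (362, .ofNat 1), (363, .ofNat 2)]) te) te) te) (tn (tn te (tn (tl [(433, .ofNat 2)]) te)) te))) (tn (tn te (tn te (tn (tn (tl [(427, .ofNat 2)]) te) te))) (tn (tn (tn (tn te (tl [(434, .ofNat 2)])) (tn (tl [(428, .ofNat 1), (429, .ofNat 2)]) te)) te) (tn (tn (tn (tl [(409, .ofNat 2), (411, .ofNat 2), (412, .ofNat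 1)]) te) (tn (tl [(432, .ofNat 2), (433, .ofNat 2)]) te)) te)))) (tn (tn (tn (tn (tn (tn (tl [(213, .ofNat 2), (214, .ofNat 2), (215, .ofNat 2), (216, .ofNat 1), (217, .ofNat 2), (218, .ofNat 2), (219, .ofNat 1)]) te) te) te) te) (tn (tn (tn te (tn (tl [(429, .ofNat 1)]) te)) te) te)) (tn (tn te (tn (tn (tn (tl [(397, .ofNat 1), (398, .ofNat 1), (399, .ofNat 1), (400, .ofNat 2)]) te) te) (tn (tn (tl [(427, .ofNat 2)]) te) te))) (tn (tn (tn (tn te (tl [(434, .ofNat 1)])) te) te) te)))) (tn (tn (tn (tn (tn (tn (tn (tl [(130, .ofNat 1), (131, .ofNat 2), (133, .ofNat 1), (137, .ofNat 1), (143, .ofNat 2), (144, .ofNat 1), (145, .ofNat 2)]) te) te) te) (tn (tn (tn te (tl [(434, .ofNat 2)])) te) te)) (tn te (tn (tn te (tn (tl [(433, .ofNat 1)]) te)) te))) (tn (tn (tn (tn (tn (tl [(258, .ofNat 2), (261, .ofNat 1), (262, .ofNat 1), (263, .ofNat 2), (264, .ofNat 1), (265, .ofNat 2), (266, .ofNat 1), (269, .ofNat 1), (270, .ofNat 2),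 (271, .ofNat 1), (272, .ofNat 1), (273, .ofNat 1), (274, .ofNat 2), (276, .ofNat 2)]) te) te) te) (tn te (tn (tn (tl [(427, .ofNat 1)]) te) te))) (tn (tn (tn (tn te (tl [(434, .ofNat 1)])) (tn (tl [(428, .ofNat 1), (429, .ofNat 1)]) te)) te) te))) (tn (tn (tn te (tn te (tn (tn (tl [(427, .ofNat 1)]) te) te))) (tn (tn (tn (tn (tl [(386, .ofNat 1)]) (tl [(434, .ofNat 1)])) (tn (tl [(428, .ofNat 2), (429, .ofNat 2)]) te)) te) (tn (tn te (tn (tl [(432, .ofNat 1)]) te)) te))) (tn (tn (tn (tn (tn (tl [(312, .ofNat 2), (313, .ofNat 2), (314, .ofNat 2), (315, .ofNat 1), (316, .ofNat 1), (317, .ofNat 1), (319, .ofNat 2), (320, .ofNat 1), (321, .ofNat 2), (322, .ofNat 2), (323, .ofNat 2), (325, .ofNat 2)]) te) te) te) (tn (tn (tn (tl [(397, .ofNat 2), (398, .ofNat 1), (400, .ofNat 2)]) te) te) (tn (tn (tl [(427, .ofNat 1)]) te) te))) (tn (tn (tn (tn (tl [(388, .ofNat 2), (389, .ofNat 2), (391, .ofNat 1)]) te) te) te) (tn (tn (tn (tl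 [(423, .ofNat 2), (424, .ofNat 2), (425, .ofNat 1)]) te) te) te)))))) (tn (tn (tn (tn (tn te (tn (tn (tn (tl [(388, .ofNat 2), (390, .ofNat 1), (391, .ofNat 2)]) (tl [(434, .ofNat 1)])) te) te)) (tn te (tn (tn te (tn (tl [(433, .ofNat 2)]) te)) te))) (tn (tn te (tn te (tn (tn (tl [(427, .ofNat 1)]) te) te))) (tn (tn (tn (tn te (tl [(434, .ofNat 2)])) (tn (tl [(428, .ofNat 2), (429, .ofNat 2)]) te)) te) (tn (tn (tn (tl [(410, .ofNat 2), (411, .ofNat 1), (412, .ofNat 1)]) te) (tn (tl [(432, .ofNat 1)]) te)) te)))) (tn (tn te (tn (tn (tn te (tn (tl [(428, .ofNat 2)]) te)) te) te)) (tn (tn te (tn (tn (tn (tl [(397, .ofNat 1), (398, .ofNat 2), (400, .ofNat 1)]) te) te) (tn (tn (tl [(427, .ofNat 2)]) te) te))) (tn (tn (tn (tn te (tl [(434, .ofNat 1)])) te) te) (tn (tn (tn (tl [(423, .ofNat 2), (424, .ofNat 1), (426, .ofNat 1)]) te) te) te))))) (tn (tn (tn (tn (tn (tn (tn (tl [(170, .ofNat 1)]) te) te) te) te) (tn te (tn (tn te (tn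 (tl [(432, .ofNat 2), (433, .ofNat 1)]) te)) te))) (tn (tn (tn (tn (tn (tl [(258, .ofNat 2), (259, .ofNat 1), (260, .ofNat 2), (261, .ofNat 1), (262, .ofNat 1), (264, .ofNat 1), (265, .ofNat 2), (266, .ofNat 1), (267, .ofNat 2), (268, .ofNat 2), (269, .ofNat 2), (271, .ofNat 1), (274, .ofNat 2), (276, .ofNat 2), (277, .ofNat 1)]) te) te) te) (tn (tn (tn (tl [(397, .ofNat 1), (398, .ofNat 2), (399, .ofNat 1), (401, .ofNat 2)]) te) te) (tn (tn (tl [(427, .ofNat 2)]) te) te))) (tn (tn (tn (tn te (tl [(434, .ofNat 1)])) (tn (tl [(428, .ofNat 1), (429, .ofNat 1)]) te)) te) te))) (tn (tn (tn (tn (tn (tn (tl [(227, .ofNat 2), (229, .ofNat 2), (230, .ofNat 1), (232, .ofNat 2)]) te) te) te) (tn te (tn (tn (tl [(427, .ofNat 1)]) te) te))) (tn (tn (tn te (tn (tl [(428, .ofNat 1), (429, .ofNat 1)]) te)) te) (tn (tn (tn (tl [(409, .ofNat 1), (410, .ofNat 1), (411, .ofNat 2), (412, .ofNat 2), (413, .ofNat 1)]) te) (tn (tl [(433, .ofNat 1)])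 te)) te))) (tn (tn (tn (tn (tn (tl [(313, .ofNat 1), (315, .ofNat 2), (316, .ofNat 1), (318, .ofNat 1), (319, .ofNat 2), (321, .ofNat 2), (322, .ofNat 1), (323, .ofNat 2), (324, .ofNat 1), (325, .ofNat 1)]) te) te) te) (tn (tn (tn (tl [(397, .ofNat 1), (398, .ofNat 2), (400, .ofNat 1)]) te) (tn (tl [(432, .ofNat 2)]) te)) te)) (tn (tn (tn (tn (tl [(387, .ofNat 1), (388, .ofNat 2), (389, .ofNat 1), (390, .ofNat 2), (391, .ofNat 1)]) te) te) te) (tn (tn (tn (tl [(423, .ofNat 2), (424, .ofNat 2), (425, .ofNat 2), (426, .ofNat 1)]) te) te) te)))))))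

def r40 : Tr SV := (tn (tn (tn (tn (tn (tn (tn (tn (tn (tl [(93, .ofNat 2), (96, .ofNat 1), (98, .ofNat 2)]) te) te) te) (tn (tn (tn (tl [(387, .ofNat 2), (388, .ofNat 2)]) (tl [(434, .ofNat 2)])) te) te)) (tn (tn (tn (tn (tl [(358, .ofNat 1), (360, .ofNat 2), (361, .ofNat 1), (363, .ofNat 1)]) te) te) te) (tn (tn te (tn (tl [(433, .ofNat 1)]) te)) te))) (tn (tn te (tn te (tn (tn (tl [(427, .ofNat 2)]) te) te))) (tn (tn (tn te (tn (tl [(428, .ofNat 2), (429, .ofNat 2)]) te)) te) (tn (tn (tn (tl [(411, .ofNat 2), (412, .ofNat 1), (413, .ofNat 2)]) te) te) te)))) (tn (tn (tn (tn (tn (tn (tl [(213, .ofNat 1), (214, .ofNat 1), (215, .ofNat 1), (216, .ofNat 2)]) te) te) te) te) (tn (tn (tn te (tn (tl [(428, .ofNat 1), (429, .ofNat 1)]) te)) te) (tn (tn te (tn (tl [(433, .ofNat 1)]) te)) te))) (tn (tn te (tn (tn (tn (tl [(397, .ofNat 1), (399, .ofNat 1), (400, .ofNat 2)]) te) te) te)) te))) (tn (tn (tn (tn (tn (tn (tn (tl [(134,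 .ofNat 1), (135, .ofNat 2), (137, .ofNat 2), (140, .ofNat 1), (143, .ofNat 1), (144, .ofNat 2), (147, .ofNat 1)]) te) te) te) (tn (tn (tn te (tl [(434, .ofNat 1)])) te) te)) (tn te (tn (tn te (tn (tl [(432, .ofNat 1), (433, .ofNat 2)]) te)) te))) (tn (tn (tn (tn (tn (tl [(258, .ofNat 2), (259, .ofNat 1), (261, .ofNat 1), (265, .ofNat 1), (270, .ofNat 2), (271, .ofNat 2), (272, .ofNat 2), (273, .ofNat 2), (274, .ofNat 1), (276, .ofNat 1)]) te) te) te) (tn te (tn (tn (tl [(427, .ofNat 2)]) te) te))) (tn (tn (tn (tn te (tl [(434, .ofNat 1)])) (tn (tl [(428, .ofNat 2), (429, .ofNat 1)]) te)) te) te))) (tn (tn te (tn (tn (tn te (tn (tl [(429, .ofNat 2)]) te)) te) (tn (tn te (tn (tl [(433, .ofNat 1)]) te)) te))) (tn (tn (tn (tn (tn (tl [(312, .ofNat 1), (313, .ofNat 2), (314, .ofNat 1), (315, .ofNat 1), (316, .ofNat 2), (318, .ofNat 2), (319, .ofNat 1), (320, .ofNat 2), (322, .ofNat 1), (324, .ofNat 2)]) te) te) te) (tn (tn (tn (tl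 [(397, .ofNat 2), (398, .ofNat 1), (399, .ofNat 1), (401, .ofNat 2)]) te) te) (tn (tn (tl [(427, .ofNat 1)]) te) te))) (tn (tn (tn (tn (tl [(387, .ofNat 1), (388, .ofNat 1), (390, .ofNat 1), (391, .ofNat 2)]) (tl [(434, .ofNat 1)])) te) te) (tn (tn (tn (tl [(424, .ofNat 1), (425, .ofNat 2), (426, .ofNat 2)]) te) te) te)))))) (tn (tn (tn (tn (tn te (tn (tn (tn (tl [(387, .ofNat 2), (389, .ofNat 1), (390, .ofNat 1), (391, .ofNat 2)]) (tl [(434, .ofNat 1)])) te) te)) (tn te (tn (tn te (tn (tl [(432, .ofNat 1), (433, .ofNat 2)]) te)) te))) (tn (tn te (tn te (tn (tn (tl [(427, .ofNat 2)]) te) te))) (tn (tn (tn te (tn (tl [(428, .ofNat 2), (429, .ofNat 1)]) te)) te) (tn (tn (tn (tl [(409, .ofNat 1), (410, .ofNat 1), (411, .ofNat 1), (412, .ofNat 2)]) te) (tn (tl [(432, .ofNat 2), (433, .ofNat 1)]) te)) te)))) (tn (tn (tn te (tn te (tn (tn (tl [(427, .ofNat 2)]) te) te))) (tn (tn (tn (tn (tl [(386, .ofNat 1)]) te) te) te) (tn (tn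 te (tn (tl [(433, .ofNat 2)]) te)) te))) (tn (tn te (tn (tn (tn (tl [(398, .ofNat 2), (399, .ofNat 1), (400, .ofNat 2), (401, .ofNat 2)]) te) te) te)) (tn (tn (tn (tn te (tl [(434, .ofNat 1)])) te) te) (tn (tn (tn (tl [(424, .ofNat 1), (426, .ofNat 2)]) te) te) te))))) (tn (tn (tn (tn (tn (tn (tn (tl [(174, .ofNat 1)]) te) te) te) (tn (tn (tn te (tl [(434, .ofNat 1)])) te) te)) (tn te (tn (tn te (tn (tl [(432, .ofNat 1), (433, .ofNat 2)]) te)) te))) (tn (tn (tn (tn (tn (tl [(260, .ofNat 1), (261, .ofNat 2), (262, .ofNat 2), (263, .ofNat 2), (265, .ofNat 1), (266, .ofNat 1), (267, .ofNat 2), (268, .ofNat 2), (269, .ofNat 1), (270, .ofNat 2), (271, .ofNat 1), (272, .ofNat 2), (273, .ofNat 1), (274, .ofNat 1), (275, .ofNat 1)]) te) te) te) (tn (tn (tn (tl [(398, .ofNat 2), (400, .ofNat 1), (401, .ofNat 2)]) te) te) (tn (tn (tl [(427, .ofNat 2)]) te) te))) te)) (tn (tn (tn (tn (tn (tn (tl [(227, .ofNat 1), (228, .ofNat 2), (229,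 .ofNat 1), (230, .ofNat 1), (231, .ofNat 1)]) te) te) te) (tn te (tn (tn (tl [(427, .ofNat 1)]) te) te))) (tn (tn (tn te (tn (tl [(428, .ofNat 1)]) te)) te) (tn (tn (tn (tl [(412, .ofNat 2), (413, .ofNat 2)]) te) (tn (tl [(433, .ofNat 2)]) te)) te))) (tn (tn (tn (tn (tn (tl [(312, .ofNat 2), (314, .ofNat 1), (315, .ofNat 2), (316, .ofNat 2), (317, .ofNat 1), (319, .ofNat 2), (320, .ofNat 2), (321, .ofNat 1), (322, .ofNat 2), (325, .ofNat 2)]) te) te) te) (tn (tn (tn (tl [(397, .ofNat 1), (398, .ofNat 2), (401, .ofNat 2)]) te) (tn (tl [(432, .ofNat 2), (433, .ofNat 1)]) te)) te)) (tn (tn (tn (tn (tl [(387, .ofNat 2), (388, .ofNat 1), (389, .ofNat 1), (390, .ofNat 1), (391, .ofNat 1)]) (tl [(434, .ofNat 1)])) te) te) (tn (tn (tn (tl [(423, .ofNat 1), (424, .ofNat 1), (425, .ofNat 2), (426, .ofNat 2)]) te) te) te)))))))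

def r41 : Tr SV := (tn (tn (tn (tn (tn (tn (tn (tn (tn (tl [(94, .ofNat 2), (98, .ofNat 1), (99, .ofNat 1)]) te) te) te) (tn (tn (tn (tl [(387, .ofNat 2), (388, .ofNat 1), (391, .ofNat 1)]) (tl [(434, .ofNat 1)])) te) te)) (tn (tn (tn (tn (tl [(355, .ofNat 2), (356, .ofNat 2), (357, .ofNat 1), (358, .ofNat 1), (359, .ofNat 1), (361, .ofNat 1), (362, .ofNat 2), (363, .ofNat 2)]) te) te) te) (tn (tn te (tn (tl [(432, .ofNat 1), (433, .ofNat 2)]) te)) te))) (tn te (tn (tn (tn (tn te (tl [(434, .ofNat 2)])) (tn (tl [(428, .ofNat 2)]) te)) te) (tn (tn (tn (tl [(410, .ofNat 1), (413, .ofNat 2)]) te) (tn (tl [(432, .ofNat 2), (433, .ofNat 2)]) te)) te)))) (tn (tn (tn (tn (tn (tn (tl [(213, .ofNat 1), (214, .ofNat 2), (216, .ofNat 2), (217, .ofNat 2), (219, .ofNat 2)]) te) te) te) te) (tn (tn (tn te (tn (tl [(429, .ofNat 1)]) te)) te) (tn (tn te (tn (tl [(432, .ofNat 2), (433, .ofNat 2)]) te)) te))) (tn (tn te (tn (tn (tn (tl [(399,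 .ofNat 1), (400, .ofNat 2), (401, .ofNat 2)]) te) te) (tn (tn (tl [(427, .ofNat 2)]) te) te))) te))) (tn (tn (tn (tn (tn (tn (tn (tl [(131, .ofNat 2), (133, .ofNat 1), (136, .ofNat 1), (137, .ofNat 1), (143, .ofNat 2), (144, .ofNat 1), (145, .ofNat 2)]) te) te) te) (tn (tn (tn te (tl [(434, .ofNat 2)])) te) te)) (tn te (tn (tn te (tn (tl [(432, .ofNat 2), (433, .ofNat 2)]) te)) te))) (tn (tn (tn (tn (tn (tl [(258, .ofNat 2), (259, .ofNat 2), (261, .ofNat 1), (262, .ofNat 1), (263, .ofNat 2), (264, .ofNat 1), (265, .ofNat 2), (266, .ofNat 1), (269, .ofNat 1), (270, .ofNat 2), (271, .ofNat 1), (272, .ofNat 1), (273, .ofNat 1), (274, .ofNat 2), (275, .ofNat 1), (276, .ofNat 2)]) te) te) te) (tn te (tn (tn (tl [(427, .ofNat 2)]) te) te))) (tn (tn (tn te (tn (tl [(428, .ofNat 1), (429, .ofNat 1)]) te)) te) te))) (tn (tn (tn te (tn te (tn (tn (tl [(427, .ofNat 2)]) te) te))) (tn (tn (tn te (tn (tl [(429, .ofNat 2)]) te)) te) (tn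 (tn te (tn (tl [(432, .ofNat 2)]) te)) te))) (tn (tn (tn (tn (tn (tl [(312, .ofNat 1), (314, .ofNat 1), (316, .ofNat 1), (317, .ofNat 1), (318, .ofNat 1), (321, .ofNat 1), (323, .ofNat 2)]) te) te) te) (tn (tn (tn (tl [(397, .ofNat 1), (398, .ofNat 1), (399, .ofNat 1), (400, .ofNat 1)]) te) te) te)) (tn (tn (tn (tn (tl [(387, .ofNat 1), (389, .ofNat 1)]) te) te) te) (tn (tn (tn (tl [(423, .ofNat 1), (424, .ofNat 1), (426, .ofNat 1)]) te) te) te)))))) (tn (tn (tn (tn (tn te (tn (tn (tn (tl [(387, .ofNat 1), (388, .ofNat 2), (389, .ofNat 2)]) (tl [(434, .ofNat 1)])) te) te)) (tn te (tn (tn te (tn (tl [(433, .ofNat 2)]) te)) te))) (tn te (tn (tn (tn te (tn (tl [(428, .ofNat 1)]) te)) te) (tn (tn (tn (tl [(409, .ofNat 2), (410, .ofNat 2)]) te) (tn (tl [(432, .ofNat 2), (433, .ofNat 1)]) te)) te)))) (tn (tn (tn te (tn te (tn (tn (tl [(427, .ofNat 2)]) te) te))) (tn (tn (tn (tn (tl [(386, .ofNat 2)]) te) (tn (tl [(428, .ofNat 2),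 (429, .ofNat 2)]) te)) te) te)) (tn (tn te (tn (tn (tn (tl [(397, .ofNat 1), (398, .ofNat 1), (400, .ofNat 1), (401, .ofNat 1)]) te) te) (tn (tn (tl [(427, .ofNat 2)]) te) te))) (tn (tn (tn (tn te (tl [(434, .ofNat 2)])) te) te) (tn (tn (tn (tl [(423, .ofNat 2), (424, .ofNat 1), (425, .ofNat 2), (426, .ofNat 1)]) te) te) te))))) (tn (tn (tn (tn (tn (tn (tn (tl [(169, .ofNat 2), (170, .ofNat 1), (173, .ofNat 1)]) te) te) te) (tn (tn (tn te (tl [(434, .ofNat 2)])) te) te)) (tn te (tn (tn te (tn (tl [(432, .ofNat 2), (433, .ofNat 2)]) te)) te))) (tn (tn (tn (tn (tn (tl [(258, .ofNat 2), (259, .ofNat 1), (260, .ofNat 1), (261, .ofNat 2), (262, .ofNat 2), (263, .ofNat 2), (265, .ofNat 1), (266, .ofNat 1), (267, .ofNat 2), (268, .ofNat 2), (269, .ofNat 2), (270, .ofNat 2), (272, .ofNat 2), (273, .ofNat 2), (274, .ofNat 2), (275, .ofNat 2), (276, .ofNat 1)]) te) te) te) (tn (tn (tn (tl [(397, .ofNat 1), (398, .ofNat 1), (399, .ofNat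 1), (400, .ofNat 1), (401, .ofNat 1)]) te) te) (tn (tn (tl [(427, .ofNat 1)]) te) te))) (tn (tn (tn te (tn (tl [(428, .ofNat 1), (429, .ofNat 2)]) te)) te) te))) (tn (tn (tn (tn (tn (tn (tl [(227, .ofNat 1), (229, .ofNat 1), (230, .ofNat 2), (231, .ofNat 2), (232, .ofNat 1)]) te) te) te) (tn te (tn (tn (tl [(427, .ofNat 1)]) te) te))) (tn (tn (tn (tn te (tl [(434, .ofNat 1)])) (tn (tl [(428, .ofNat 1), (429, .ofNat 1)]) te)) te) (tn (tn (tn (tl [(409, .ofNat 1), (410, .ofNat 2), (411, .ofNat 1), (412, .ofNat 2)]) te) (tn (tl [(432, .ofNat 1), (433, .ofNat 1)]) te)) te))) (tn (tn (tn (tn (tn (tl [(312, .ofNat 2), (314, .ofNat 2), (315, .ofNat 2), (316, .ofNat 1), (317, .ofNat 2), (318, .ofNat 1), (319, .ofNat 2), (320, .ofNat 1), (321, .ofNat 1), (323, .ofNat 2), (324, .ofNat 1)]) te) te) te) (tn (tn (tn (tl [(397, .ofNat 1), (399, .ofNat 1), (400, .ofNat 1), (401, .ofNat 1)]) te) (tn (tl [(432, .ofNat 2)]) te)) (tn (tn (tl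 [(427, .ofNat 2)]) te) te))) (tn (tn (tn (tn (tl [(387, .ofNat 1), (388, .ofNat 2), (389, .ofNat 1), (391, .ofNat 1)]) te) te) te) (tn (tn (tn (tl [(426, .ofNat 2)]) te) te) te)))))))

def r42 : Tr SV := (tn (tn (tn (tn (tn (tn (tn (tn (tn (tl [(90, .ofNat 2), (93, .ofNat 2), (95, .ofNat 1), (99, .ofNat 1)]) te) te) te) (tn (tn (tn (tl [(388, .ofNat 1), (389, .ofNat 1), (390, .ofNat 1), (391, .ofNat 2)]) te) te) te)) (tn (tn (tn (tn (tl [(355, .ofNat 2), (356, .ofNat 2), (357, .ofNat 1), (358, .ofNat 1), (359, .ofNat 1), (360, .ofNat 2), (361, .ofNat 1), (362, .ofNat 2)]) te) te) te) (tn (tn te (tn (tl [(432, .ofNat 2)]) te)) te))) (tn te (tn (tn (tn te (tn (tl [(428, .ofNat 1)]) te)) te) (tn (tn (tn (tl [(410, .ofNat 1), (412, .ofNat 1), (413, .ofNat 1)]) te) (tn (tl [(432, .ofNat 2), (433, .ofNat 1)]) te)) te)))) (tn (tn (tn (tn (tn (tn (tl [(213, .ofNat 2), (214, .ofNat 2), (215, .ofNat 1), (217, .ofNat 1), (218, .ofNat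 2)]) te) te) te) te) (tn (tn (tn te (tn (tl [(428, .ofNat 2)]) te)) te) (tn (tn te (tn (tl [(432, .ofNat 1), (433, .ofNat 1)]) te)) te))) (tn (tn te (tn (tn (tn (tl [(397, .ofNat 2), (399, .ofNat 2), (400, .ofNat 2), (401, .ofNat 2)]) te) te) te)) (tn (tn (tn (tn te (tl [(434, .ofNat 1)])) te) te) te)))) (tn (tn (tn (tn (tn (tn (tn (tl [(135, .ofNat 2), (136, .ofNat 1), (140, .ofNat 2), (143, .ofNat 1), (144, .ofNat 2), (145, .ofNat 1), (147, .ofNat 1)]) te) te) te) (tn (tn (tn te (tl [(434, .ofNat 2)])) te) te)) (tn te (tn (tn te (tn (tl [(433, .ofNat 2)]) te)) te))) (tn (tn (tn (tn (tn (tl [(259, .ofNat 1), (260, .ofNat 1), (261, .ofNat 1), (263, .ofNat 1), (264, .ofNat 2), (265, .ofNat 2), (266, .ofNat 2), (267, .ofNat 2), (268, .ofNat 2), (269, .ofNat 2), (270, .ofNat 2), (272, .ofNat 2), (273, .ofNat 2), (274, .ofNat 2)]) te) te) te) (tn te (tn (tn (tl [(427, .ofNat 1)]) te) te))) (tn (tn (tn (tn te (tl [(434, .ofNat 1)]))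 (tn (tl [(429, .ofNat 2)]) te)) te) te))) (tn (tn te (tn (tn (tn (tn (tl [(386, .ofNat 1)]) te) (tn (tl [(428, .ofNat 2), (429, .ofNat 2)]) te)) te) (tn (tn te (tn (tl [(432, .ofNat 1), (433, .ofNat 2)]) te)) te))) (tn (tn (tn (tn (tn (tl [(314, .ofNat 2), (315, .ofNat 2), (316, .ofNat 2), (317, .ofNat 2), (318, .ofNat 2), (320, .ofNat 2), (322, .ofNat 2), (323, .ofNat 1)]) te) te) te) (tn (tn (tn (tl [(398, .ofNat 2), (400, .ofNat 2), (401, .ofNat 1)]) te) te) te)) (tn (tn (tn (tn (tl [(388, .ofNat 2), (389, .ofNat 2), (391, .ofNat 2)]) te) te) te) (tn (tn (tn (tl [(423, .ofNat 1), (424, .ofNat 1), (425, .ofNat 1)]) te) te) te)))))) (tn (tn (tn (tn (tn te (tn (tn (tn (tl [(389, .ofNat 2), (390, .ofNat 1)]) te) te) te)) (tn te (tn (tn te (tn (tl [(433, .ofNat 2)]) te)) te))) (tn (tn te (tn te (tn (tn (tl [(427, .ofNat 2)]) te) te))) (tn (tn (tn (tn te (tl [(434, .ofNat 1)])) (tn (tl [(428, .ofNat 1)]) te)) te) (tn (tn (tn (tl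 [(410, .ofNat 1), (412, .ofNat 2), (413, .ofNat 2)]) te) (tn (tl [(432, .ofNat 2), (433, .ofNat 1)]) te)) te)))) (tn (tn (tn te (tn te (tn (tn (tl [(427, .ofNat 1)]) te) te))) (tn (tn (tn (tn (tl [(386, .ofNat 1)]) te) (tn (tl [(429, .ofNat 1)]) te)) te) (tn (tn te (tn (tl [(432, .ofNat 1)]) te)) te))) (tn (tn te (tn (tn (tn (tl [(398, .ofNat 1), (399, .ofNat 2), (401, .ofNat 1)]) te) te) (tn (tn (tl [(427, .ofNat 2)]) te) te))) (tn (tn (tn (tn te (tl [(434, .ofNat 2)])) te) te) (tn (tn (tn (tl [(423, .ofNat 1), (424, .ofNat 1), (426, .ofNat 1)]) te) te) te))))) (tn (tn (tn (tn (tn (tn (tn (tl [(169, .ofNat 2), (170, .ofNat 1), (172, .ofNat 2), (173, .ofNat 1), (174, .ofNat 1)]) te) te) te) te) (tn te (tn (tn te (tn (tl [(432, .ofNat 1), (433, .ofNat 1)]) te)) te))) (tn (tn (tn (tn (tn (tl [(259, .ofNat 1), (260, .ofNat 2), (261, .ofNat 2), (264, .ofNat 2), (265, .ofNat 1), (266, .ofNat 2), (267, .ofNat 2), (268, .ofNat 1),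 (269, .ofNat 2), (270, .ofNat 1), (271, .ofNat 1), (272, .ofNat 1), (273, .ofNat 1), (276, .ofNat 1), (277, .ofNat 1)]) te) te) te) (tn (tn (tn (tl [(397, .ofNat 1), (398, .ofNat 1), (399, .ofNat 2), (401, .ofNat 2)]) te) te) te)) (tn (tn (tn (tn te (tl [(434, .ofNat 2)])) (tn (tl [(428, .ofNat 1), (429, .ofNat 2)]) te)) te) te))) (tn (tn (tn (tn (tn (tn (tl [(227, .ofNat 2), (229, .ofNat 1), (230, .ofNat 2), (231, .ofNat 1), (232, .ofNat 2)]) te) te) te) te) (tn (tn (tn (tn te (tl [(434, .ofNat 1)])) (tn (tl [(428, .ofNat 2)]) te)) te) (tn (tn (tn (tl [(409, .ofNat 2), (411, .ofNat 1), (413, .ofNat 1)]) te) (tn (tl [(432, .ofNat 1)]) te)) te))) (tn (tn (tn (tn (tn (tl [(312, .ofNat 1), (317, .ofNat 1), (319, .ofNat 2), (322, .ofNat 1), (323, .ofNat 2), (324, .ofNat 2)]) te) te) te) (tn (tn (tn (tl [(397, .ofNat 2), (398, .ofNat 2), (400, .ofNat 2), (401, .ofNat 1)]) te) (tn (tl [(432, .ofNat 2), (433, .ofNat 2)]) te)) (tn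 (tn (tl [(427, .ofNat 1)]) te) te))) (tn (tn (tn (tn (tl [(387, .ofNat 2), (388, .ofNat 1), (389, .ofNat 2), (390, .ofNat 1), (391, .ofNat 1)]) te) te) te) (tn (tn (tn (tl [(423, .ofNat 1), (424, .ofNat 2), (425, .ofNat 1), (426, .ofNat 1)]) te) te) te)))))))

def r43 : Tr SV := (tn (tn (tn (tn (tn (tn (tn (tn (tn (tl [(101, .ofNat 2), (102, .ofNat 1), (105, .ofNat 2), (107, .ofNat 1), (111, .ofNat 2)]) te) te) te) te) (tn (tn (tn (tn (tl [(364, .ofNat 1), (367, .ofNat 1), (368, .ofNat 1), (369, .ofNat 1), (372, .ofNat 1), (373, .ofNat 1)]) te) te) te) te)) (tn (tn (tn (tn (tn te (tl [(434, .ofNat 1)])) te) te) (tn (tn (tn (tl [(397, .ofNat 2), (398, .ofNat 1), (399, .ofNat 2), (400, .ofNat 2)]) te) (tn (tl [(433, .ofNat 2)]) te)) te)) (tn te (tn (tn (tn (tl [(414, .ofNat 2), (415, .ofNat 1), (416, .ofNat 1), (417, .ofNat 2)]) te) te) te)))) (tn (tn (tn (tn (tn (tn te (tl [(434, .ofNat 2)])) te) te) (tn (tn (tn (tl [(393, .ofNat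 1), (394, .ofNat 1), (396, .ofNat 2)]) te) (tn (tl [(430, .ofNat 1)]) te)) te)) (tn (tn (tn (tn (tl [(386, .ofNat 1)]) te) te) te) te)) (tn (tn (tn (tn (tn (tl [(293, .ofNat 2), (294, .ofNat 2), (295, .ofNat 2), (296, .ofNat 2), (298, .ofNat 1), (299, .ofNat 2), (300, .ofNat 2), (302, .ofNat 1), (303, .ofNat 1), (304, .ofNat 1), (305, .ofNat 1), (306, .ofNat 1), (310, .ofNat 1)]) (tl [(434, .ofNat 1)])) te) te) (tn (tn te (tn (tl [(432, .ofNat 2), (433, .ofNat 2)]) te)) te)) (tn (tn te (tn (tn (tl [(427, .ofNat 2)]) te) te)) (tn (tn (tn (tl [(419, .ofNat 1), (421, .ofNat 2)]) te) te) te))))) (tn (tn (tn (tn (tn (tn (tn te (tl [(434, .ofNat 1)])) te) te) (tn (tn (tn (tl [(392, .ofNat 2), (394, .ofNat 2)]) te) te) (tn (tn (tl [(427, .ofNat 2)]) te) te))) (tn (tn (tn (tn te (tl [(434, .ofNat 1)])) te) te) te)) (tn (tn (tn (tn (tn (tl [(279, .ofNat 1), (283, .ofNat 2), (286, .ofNat 2), (287, .ofNat 1), (288, .ofNat 2), (289, .ofNat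 1)]) (tl [(434, .ofNat 2)])) te) te) (tn (tn (tn (tl [(397, .ofNat 1), (398, .ofNat 1), (399, .ofNat 2), (400, .ofNat 2)]) te) (tn (tl [(432, .ofNat 2), (433, .ofNat 2)]) te)) te)) (tn te (tn (tn (tn (tl [(418, .ofNat 1), (419, .ofNat 2), (422, .ofNat 2)]) te) te) te)))) (tn (tn (tn (tn (tn (tn (tl [(228, .ofNat 1), (229, .ofNat 2), (230, .ofNat 1)]) te) te) te) (tn (tn (tn (tl [(392, .ofNat 2), (394, .ofNat 2), (396, .ofNat 2)]) te) te) te)) te) (tn (tn te (tn (tn te (tn (tl [(432, .ofNat 1), (433, .ofNat 1)]) te)) te)) (tn (tn (tn te (tn (tl [(431, .ofNat 1)]) te)) te) te))))) (tn (tn (tn (tn (tn (tn (tn (tn (tl [(120, .ofNat 2)]) te) te) te) (tn (tn te (tn (tl [(430, .ofNat 2), (431, .ofNat 2)]) te)) te)) (tn (tn (tn (tn te (tl [(434, .ofNat 1)])) te) te) te)) (tn (tn te (tn (tn (tn (tl [(397, .ofNat 2), (400, .ofNat 2)]) te) (tn (tl [(432, .ofNat 1)]) te)) te)) (tn te (tn (tn (tn (tl [(416, .ofNat 2), (417, .ofNat 1)])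 te) te) te)))) (tn (tn (tn (tn (tn (tn (tl [(220, .ofNat 1), (221, .ofNat 1), (222, .ofNat 2), (223, .ofNat 1), (224, .ofNat 1), (226, .ofNat 1)]) te) te) te) (tn (tn (tn (tl [(392, .ofNat 1), (393, .ofNat 2), (394, .ofNat 2), (395, .ofNat 2), (396, .ofNat 2)]) te) (tn (tl [(431, .ofNat 1)]) te)) te)) te) (tn (tn (tn (tn (tn (tl [(292, .ofNat 1), (293, .ofNat 1), (294, .ofNat 2), (296, .ofNat 2), (297, .ofNat 1), (298, .ofNat 1), (299, .ofNat 1), (300, .ofNat 1), (303, .ofNat 1), (305, .ofNat 2), (306, .ofNat 1), (307, .ofNat 2), (308, .ofNat 2), (309, .ofNat 1), (310, .ofNat 2), (311, .ofNat 1)]) (tl [(434, .ofNat 1)])) te) te) (tn (tn te (tn (tl [(432, .ofNat 2), (433, .ofNat 1)]) te)) te)) (tn (tn (tn te (tn (tl [(430, .ofNat 1), (431, .ofNat 1)]) te)) (tn (tn (tl [(427, .ofNat 1)]) te) te)) te)))) (tn (tn (tn (tn (tn (tn (tn (tl [(177, .ofNat 2), (179, .ofNat 1)]) (tl [(434, .ofNat 2)])) te) te) (tn (tn (tn (tl [(393, .ofNat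 2), (394, .ofNat 2), (395, .ofNat 2), (396, .ofNat 1)]) te) te) (tn (tn (tl [(427, .ofNat 1)]) te) te))) (tn (tn (tn (tn te (tl [(434, .ofNat 2)])) te) te) te)) (tn (tn (tn (tn (tn (tl [(278, .ofNat 2), (279, .ofNat 2), (280, .ofNat 2), (283, .ofNat 2), (284, .ofNat 2), (285, .ofNat 2), (288, .ofNat 1), (289, .ofNat 1), (290, .ofNat 2), (291, .ofNat 1)]) te) te) te) (tn (tn te (tn (tl [(432, .ofNat 1), (433, .ofNat 2)]) te)) te)) (tn (tn te (tn (tn (tl [(427, .ofNat 1)]) te) te)) (tn (tn (tn (tl [(419, .ofNat 1), (420, .ofNat 1), (421, .ofNat 2), (422, .ofNat 1)]) te) te) te)))) (tn (tn (tn (tn (tn (tn te (tl [(434, .ofNat 2)])) te) te) (tn (tn (tn (tl [(397, .ofNat 1), (399, .ofNat 1), (400, .ofNat 2)]) te) (tn (tl [(433, .ofNat 1)]) te)) te)) (tn te (tn (tn (tn (tl [(414, .ofNat 2), (417, .ofNat 2)]) te) te) te))) (tn (tn (tn (tn (tn te (tl [(434, .ofNat 1)])) te) te) te) (tn (tn (tn te (tn (tl [(430, .ofNat 2), (431, .ofNat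 1)]) te)) (tn (tn (tl [(427, .ofNat 2)]) te) te)) te))))))

def r44 : Tr SV := (tn (tn (tn (tn (tn (tn (tn (tn (tn (tl [(101, .ofNat 1), (103, .ofNat 1), (106, .ofNat 2), (107, .ofNat 2)]) te) te) te) (tn (tn te (tn (tl [(431, .ofNat 2)]) te)) (tn (tn (tl [(427, .ofNat 1)]) te) te))) (tn (tn (tn (tn (tl [(365, .ofNat 2), (366, .ofNat 2), (369, .ofNat 2), (370, .ofNat 1), (371, .ofNat 2)]) te) te) te) te)) (tn (tn te (tn (tn (tn (tl [(397, .ofNat 1), (398, .ofNat 1), (399, .ofNat 1), (401, .ofNat 2)]) te) (tn (tl [(432, .ofNat 1), (433, .ofNat 2)]) te)) te)) (tn te (tn (tn (tn (tl [(415, .ofNat 1), (416, .ofNat 1)]) te) te) te)))) (tn (tn (tn (tn (tn (tn te (tl [(434, .ofNat 1)])) te) te) (tn (tn (tn (tl [(392, .ofNat 1), (393, .ofNat 2), (395, .ofNat 1), (396, .ofNat 2)]) te) (tn (tl [(430, .ofNat 2)]) te)) (tn (tn (tl [(427, .ofNat 1)]) te) te))) (tn (tn (tn (tn (tl [(386, .ofNat 2)]) te) te) te) te)) (tn (tn (tn (tn (tn (tl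 [(292, .ofNat 1), (293, .ofNat 2), (294, .ofNat 1), (295, .ofNat 1), (297, .ofNat 2), (298, .ofNat 2), (299, .ofNat 1), (301, .ofNat 2), (302, .ofNat 1), (303, .ofNat 2), (304, .ofNat 2), (305, .ofNat 1), (306, .ofNat 2), (307, .ofNat 1), (308, .ofNat 1), (309, .ofNat 2), (310, .ofNat 1)]) te) te) te) (tn (tn te (tn (tl [(432, .ofNat 1), (433, .ofNat 2)]) te)) te)) (tn (tn (tn te (tn (tl [(430, .ofNat 1), (431, .ofNat 2)]) te)) te) (tn (tn (tn (tl [(418, .ofNat 2), (420, .ofNat 2), (421, .ofNat 2)]) te) te) te))))) (tn (tn (tn (tn (tn (tn (tn te (tl [(434, .ofNat 1)])) te) te) (tn (tn (tn (tl [(392, .ofNat 1), (394, .ofNat 1)]) te) (tn (tl [(430, .ofNat 1), (431, .ofNat 2)]) te)) te)) te) (tn (tn (tn (tn (tn (tl [(278, .ofNat 1), (280, .ofNat 2), (281, .ofNat 2), (282, .ofNat 2), (283, .ofNat 2), (284, .ofNat 1), (285, .ofNat 2), (286, .ofNat 2), (288, .ofNat 2), (289, .ofNat 1), (290, .ofNat 2)]) (tl [(434, .ofNat 1)])) te)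 te) (tn (tn (tn (tl [(397, .ofNat 2), (398, .ofNat 2), (399, .ofNat 2), (400, .ofNat 1)]) te) (tn (tl [(432, .ofNat 2), (433, .ofNat 2)]) te)) te)) (tn (tn te (tn (tn (tl [(427, .ofNat 2)]) te) te)) (tn (tn (tn (tl [(419, .ofNat 2), (420, .ofNat 1)]) te) te) te)))) (tn (tn (tn (tn (tn (tn (tl [(229, .ofNat 2), (230, .ofNat 1), (231, .ofNat 1), (232, .ofNat 1)]) (tl [(434, .ofNat 2)])) te) te) (tn (tn (tn (tl [(392, .ofNat 2), (393, .ofNat 1), (394, .ofNat 2), (396, .ofNat 1)]) te) (tn (tl [(430, .ofNat 1), (431, .ofNat 1)]) te)) te)) te) (tn (tn (tn (tn (tn te (tl [(434, .ofNat 2)])) te) te) te) (tn (tn (tn te (tn (tl [(430, .ofNat 2), (431, .ofNat 2)]) te)) (tn (tn (tl [(427, .ofNat 2)]) te) te)) te))))) (tn (tn (tn (tn (tn (tn (tn (tn (tl [(116, .ofNat 1), (117, .ofNat 2), (118, .ofNat 2), (120, .ofNat 1)]) te) te) te) (tn (tn te (tn (tl [(430, .ofNat 1), (431, .ofNat 2)]) te)) (tn (tn (tl [(427, .ofNat 1)]) te) te))) te)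 (tn (tn (tn (tn (tn te (tl [(434, .ofNat 2)])) te) te) (tn (tn (tn (tl [(397, .ofNat 1), (398, .ofNat 1), (401, .ofNat 2)]) te) (tn (tl [(432, .ofNat 2), (433, .ofNat 2)]) te)) te)) (tn te (tn (tn (tn (tl [(414, .ofNat 1), (417, .ofNat 1)]) te) te) te)))) (tn (tn (tn (tn (tn (tn (tl [(221, .ofNat 1), (222, .ofNat 1), (225, .ofNat 1), (226, .ofNat 2)]) (tl [(434, .ofNat 2)])) te) te) (tn (tn (tn (tl [(392, .ofNat 2), (393, .ofNat 1), (394, .ofNat 1), (396, .ofNat 1)]) te) (tn (tl [(430, .ofNat 2), (431, .ofNat 1)]) te)) te)) te) (tn (tn (tn (tn (tn (tl [(292, .ofNat 1), (294, .ofNat 2), (296, .ofNat 1), (298, .ofNat 2), (299, .ofNat 2), (300, .ofNat 2), (301, .ofNat 1), (302, .ofNat 1), (304, .ofNat 1), (305, .ofNat 1), (306, .ofNat 1), (307, .ofNat 1), (308, .ofNat 2), (309, .ofNat 2), (311, .ofNat 2)]) (tl [(434, .ofNat 2)])) te) te) (tn (tn te (tn (tl [(432, .ofNat 1), (433, .ofNat 2)]) te)) te)) te))) (tn (tn (tn (tn (tn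 (tn (tn (tl [(177, .ofNat 1), (181, .ofNat 1), (182, .ofNat 2)]) te) te) te) (tn (tn (tn (tl [(393, .ofNat 2), (394, .ofNat 2), (395, .ofNat 1), (396, .ofNat 1)]) te) (tn (tl [(431, .ofNat 2)]) te)) te)) (tn (tn (tn (tn (tl [(386, .ofNat 2)]) (tl [(434, .ofNat 1)])) te) te) te)) (tn (tn (tn (tn (tn (tl [(278, .ofNat 2), (282, .ofNat 1), (283, .ofNat 1), (286, .ofNat 2), (287, .ofNat 1), (288, .ofNat 1), (289, .ofNat 1), (290, .ofNat 2)]) (tl [(434, .ofNat 2)])) te) te) (tn (tn te (tn (tl [(432, .ofNat 2), (433, .ofNat 1)]) te)) te)) (tn (tn te (tn (tn (tl [(427, .ofNat 1)]) te) te)) (tn (tn (tn (tl [(420, .ofNat 2), (421, .ofNat 2), (422, .ofNat 2)]) te) te) te)))) (tn (tn (tn te (tn (tn (tn (tl [(397, .ofNat 1), (398, .ofNat 2), (399, .ofNat 2), (400, .ofNat 2), (401, .ofNat 1)]) te) (tn (tl [(432, .ofNat 1)]) te)) te)) (tn te (tn (tn (tn (tl [(414, .ofNat 1), (415, .ofNat 1)]) te) te) te))) (tn (tn (tn (tn (tn te (tl [(434,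 .ofNat 2)])) te) te) te) (tn (tn (tn te (tn (tl [(430, .ofNat 1)]) te)) (tn (tn (tl [(427, .ofNat 1)]) te) te)) te))))))

def r45 : Tr SV := (tn (tn (tn (tn (tn (tn (tn (tn (tn (tl [(101, .ofNat 2), (105, .ofNat 2), (106, .ofNat 1), (107, .ofNat 1), (111, .ofNat 2)]) te) te) te) (tn (tn te (tn (tl [(430, .ofNat 2), (431, .ofNat 1)]) te)) (tn (tn (tl [(427, .ofNat 1)]) te) te))) (tn (tn (tn (tn (tl [(364, .ofNat 1), (366, .ofNat 2), (367, .ofNat 1), (368, .ofNat 1), (369, .ofNat 1), (370, .ofNat 1), (372, .ofNat 1), (373, .ofNat 1)]) te) te) te) te)) (tn (tn te (tn (tn (tn (tl [(397, .ofNat 2), (398, .ofNat 2), (400, .ofNat 1), (401, .ofNat 1)]) te) (tn (tl [(433, .ofNat 2)]) te)) te)) (tn te (tn (tn (tn (tl [(414, .ofNat 2), (415, .ofNat 1), (416, .ofNat 1)]) te) te) te)))) (tn (tn (tn te (tn (tn (tn (tl [(392, .ofNat 2), (393, .ofNat 1)]) te) (tn (tl [(431, .ofNat 1)]) te)) te)) (tn (tn (tn (tn (tl [(386, .ofNat 2)]) (tl [(434,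 .ofNat 2)])) te) te) te)) (tn (tn (tn (tn (tn (tl [(292, .ofNat 2), (293, .ofNat 1), (294, .ofNat 2), (295, .ofNat 1), (296, .ofNat 1), (301, .ofNat 1), (304, .ofNat 2), (306, .ofNat 2), (308, .ofNat 2), (309, .ofNat 1), (310, .ofNat 1)]) te) te) te) (tn (tn te (tn (tl [(432, .ofNat 2)]) te)) te)) (tn (tn (tn te (tn (tl [(431, .ofNat 1)]) te)) te) (tn (tn (tn (tl [(418, .ofNat 1), (419, .ofNat 1), (420, .ofNat 2)]) te) te) te))))) (tn (tn (tn (tn te (tn (tn (tn (tl [(392, .ofNat 2), (393, .ofNat 1), (394, .ofNat 2), (395, .ofNat 2), (396, .ofNat 2)]) te) (tn (tl [(431, .ofNat 2)]) te)) (tn (tn (tl [(427, .ofNat 1)]) te) te))) te) (tn (tn (tn (tn (tn (tl [(279, .ofNat 1), (280, .ofNat 2), (281, .ofNat 2), (282, .ofNat 2), (283, .ofNat 1), (284, .ofNat 2), (285, .ofNat 1), (286, .ofNat 1), (287, .ofNat 2), (288, .ofNat 2), (289, .ofNat 1), (290, .ofNat 2)]) (tl [(434, .ofNat 2)])) te) te) (tn (tn (tn (tl [(397, .ofNat 2), (398,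 .ofNat 1), (400, .ofNat 1)]) te) (tn (tl [(432, .ofNat 1), (433, .ofNat 1)]) te)) te)) (tn te (tn (tn (tn (tl [(418, .ofNat 2), (420, .ofNat 2), (421, .ofNat 1), (422, .ofNat 1)]) te) te) te)))) (tn (tn (tn (tn (tn (tn (tl [(228, .ofNat 1), (229, .ofNat 1), (231, .ofNat 1), (232, .ofNat 1)]) (tl [(434, .ofNat 1)])) te) te) (tn (tn (tn (tl [(392, .ofNat 2), (393, .ofNat 2), (395, .ofNat 2), (396, .ofNat 1)]) te) (tn (tl [(430, .ofNat 2), (431, .ofNat 2)]) te)) te)) te) (tn (tn te (tn (tn te (tn (tl [(432, .ofNat 2), (433, .ofNat 2)]) te)) te)) (tn (tn (tn te (tn (tl [(430, .ofNat 1), (431, .ofNat 2)]) te)) (tn (tn (tl [(427, .ofNat 1)]) te) te)) te))))) (tn (tn (tn (tn (tn (tn (tn (tn (tl [(117, .ofNat 1), (120, .ofNat 2)]) te) te) te) (tn (tn te (tn (tl [(430, .ofNat 2), (431, .ofNat 1)]) te)) (tn (tn (tl [(427, .ofNat 1)]) te) te))) (tn (tn (tn (tn te (tl [(434, .ofNat 1)])) te) te) te)) (tn (tn (tn (tn (tn te (tl [(434, .ofNat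 1)])) te) te) (tn (tn (tn (tl [(397, .ofNat 2), (398, .ofNat 2), (399, .ofNat 1), (401, .ofNat 2)]) te) (tn (tl [(432, .ofNat 2), (433, .ofNat 1)]) te)) te)) (tn te (tn (tn (tn (tl [(415, .ofNat 1), (416, .ofNat 2), (417, .ofNat 1)]) te) te) te)))) (tn (tn (tn (tn (tn (tn (tl [(221, .ofNat 2), (222, .ofNat 1), (223, .ofNat 2), (224, .ofNat 2)]) (tl [(434, .ofNat 2)])) te) te) (tn (tn (tn (tl [(392, .ofNat 1), (395, .ofNat 1)]) te) (tn (tl [(430, .ofNat 2)]) te)) te)) (tn (tn (tn (tn te (tl [(434, .ofNat 2)])) te) te) te)) (tn (tn (tn (tn (tn (tl [(293, .ofNat 1), (294, .ofNat 1), (295, .ofNat 1), (297, .ofNat 2), (298, .ofNat 2), (301, .ofNat 1), (302, .ofNat 2), (303, .ofNat 2), (304, .ofNat 2), (305, .ofNat 1), (307, .ofNat 1), (308, .ofNat 1), (309, .ofNat 2), (310, .ofNat 2), (311, .ofNat 2)]) te) te) te) (tn (tn te (tn (tl [(433, .ofNat 1)]) te)) te)) (tn (tn (tn te (tn (tl [(431, .ofNat 2)]) te)) (tn (tn (tl [(427, .ofNat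 2)]) te) te)) te)))) (tn (tn (tn (tn (tn (tn (tn (tl [(177, .ofNat 2), (182, .ofNat 1)]) (tl [(434, .ofNat 1)])) te) te) (tn (tn (tn (tl [(392, .ofNat 1), (395, .ofNat 1), (396, .ofNat 2)]) te) (tn (tl [(430, .ofNat 1)]) te)) (tn (tn (tl [(427, .ofNat 2)]) te) te))) te) (tn (tn (tn (tn (tn (tl [(281, .ofNat 2), (283, .ofNat 2), (284, .ofNat 2), (287, .ofNat 1), (288, .ofNat 1), (289, .ofNat 2)]) (tl [(434, .ofNat 2)])) te) te) (tn (tn te (tn (tl [(432, .ofNat 1), (433, .ofNat 2)]) te)) te)) (tn (tn te (tn (tn (tl [(427, .ofNat 2)]) te) te)) (tn (tn (tn (tl [(420, .ofNat 1), (421, .ofNat 2), (422, .ofNat 1)]) te) te) te)))) (tn (tn (tn (tn (tn (tn te (tl [(434, .ofNat 2)])) te) te) (tn (tn (tn (tl [(398, .ofNat 1), (399, .ofNat 2)]) te) (tn (tl [(432, .ofNat 1)]) te)) te)) (tn te (tn (tn (tn (tl [(415, .ofNat 1), (416, .ofNat 1)]) te) te) te))) (tn (tn (tn (tn (tn te (tl [(434, .ofNat 1)])) te) te) te) (tn (tn (tn te (tn (tl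 [(430, .ofNat 1)]) te)) te) te))))))

def r46 : Tr SV := (tn (tn (tn (tn (tn (tn (tn (tn (tn (tl [(101, .ofNat 1), (106, .ofNat 2), (107, .ofNat 2), (108, .ofNat 1)]) te) te) te) (tn (tn te (tn (tl [(430, .ofNat 2), (431, .ofNat 1)]) te)) (tn (tn (tl [(427, .ofNat 1)]) te) te))) (tn (tn (tn (tn (tl [(365, .ofNat 2), (366, .ofNat 2), (369, .ofNat 1), (370, .ofNat 1), (371, .ofNat 2), (373, .ofNat 1)]) te) te) te) te)) (tn (tn (tn (tn (tn te (tl [(434, .ofNat 1)])) te) te) (tn (tn (tn (tl [(397, .ofNat 2), (398, .ofNat 1), (399, .ofNat 1), (400, .ofNat 2), (401, .ofNat 1)]) te) (tn (tl [(433, .ofNat 1)]) te)) te)) (tn te (tn (tn (tn (tl [(414, .ofNat 1), (415, .ofNat 2), (416, .ofNat 2)]) te) te) te)))) (tn (tn (tn (tn (tn (tn te (tl [(434, .ofNat 1)])) te) te) (tn (tn (tn (tl [(395, .ofNat 1)]) te) (tn (tl [(430, .ofNat 2)]) te)) (tn (tn (tl [(427, .ofNat 2)]) te) te))) (tn (tn (tn (tn (tl [(386, .ofNat 1)]) (tl [(434, .ofNat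 1)])) te) te) te)) (tn (tn (tn (tn (tn (tl [(293, .ofNat 1), (295, .ofNat 1), (296, .ofNat 2), (297, .ofNat 1), (299, .ofNat 1), (301, .ofNat 1), (303, .ofNat 2), (305, .ofNat 2), (306, .ofNat 1), (307, .ofNat 2), (308, .ofNat 2), (309, .ofNat 2), (310, .ofNat 2)]) te) te) te) (tn (tn te (tn (tl [(433, .ofNat 2)]) te)) te)) (tn (tn (tn te (tn (tl [(430, .ofNat 2), (431, .ofNat 2)]) te)) (tn (tn (tl [(427, .ofNat 2)]) te) te)) (tn (tn (tn (tl [(420, .ofNat 1), (421, .ofNat 1), (422, .ofNat 2)]) te) te) te))))) (tn (tn (tn (tn (tn (tn (tn te (tl [(434, .ofNat 2)])) te) te) (tn (tn (tn (tl [(392, .ofNat 1), (393, .ofNat 1), (394, .ofNat 1), (395, .ofNat 2)]) te) (tn (tl [(431, .ofNat 1)]) te)) (tn (tn (tl [(427, .ofNat 2)]) te) te))) (tn (tn (tn (tn te (tl [(434, .ofNat 2)])) te) te) te)) (tn (tn (tn (tn (tn (tl [(278, .ofNat 2), (279, .ofNat 1), (280, .ofNat 1), (281, .ofNat 1), (282, .ofNat 2), (283, .ofNat 1), (285, .ofNat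 1), (286, .ofNat 1), (291, .ofNat 2)]) (tl [(434, .ofNat 2)])) te) te) (tn (tn (tn (tl [(397, .ofNat 1), (398, .ofNat 2), (399, .ofNat 1), (401, .ofNat 2)]) te) (tn (tl [(432, .ofNat 2)]) te)) te)) (tn (tn te (tn (tn (tl [(427, .ofNat 1)]) te) te)) (tn (tn (tn (tl [(418, .ofNat 1), (419, .ofNat 1), (422, .ofNat 2)]) te) te) te)))) (tn (tn (tn (tn (tn (tn (tl [(227, .ofNat 2), (228, .ofNat 2), (230, .ofNat 1), (231, .ofNat 1), (232, .ofNat 2)]) te) te) te) (tn (tn (tn (tl [(393, .ofNat 2), (394, .ofNat 1), (395, .ofNat 1), (396, .ofNat 1)]) te) (tn (tl [(430, .ofNat 1)]) te)) te)) te) (tn (tn te (tn (tn te (tn (tl [(432, .ofNat 1), (433, .ofNat 2)]) te)) te)) (tn (tn (tn te (tn (tl [(431, .ofNat 2)]) te)) (tn (tn (tl [(427, .ofNat 2)]) te) te)) te))))) (tn (tn (tn (tn (tn (tn (tn (tn (tl [(117, .ofNat 2), (118, .ofNat 2), (120, .ofNat 1)]) te) te) te) (tn (tn te (tn (tl [(430, .ofNat 1), (431, .ofNat 1)]) te)) (tn (tn (tl [(427,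 .ofNat 1)]) te) te))) te) (tn (tn te (tn (tn (tn (tl [(397, .ofNat 1), (398, .ofNat 1), (399, .ofNat 1), (400, .ofNat 2)]) te) (tn (tl [(432, .ofNat 1), (433, .ofNat 2)]) te)) te)) (tn te (tn (tn (tn (tl [(414, .ofNat 2), (415, .ofNat 1), (416, .ofNat 2), (417, .ofNat 2)]) te) te) te)))) (tn (tn (tn (tn (tn (tn (tl [(220, .ofNat 2), (221, .ofNat 1), (223, .ofNat 2), (224, .ofNat 1), (225, .ofNat 2), (226, .ofNat 1)]) (tl [(434, .ofNat 2)])) te) te) (tn (tn (tn (tl [(392, .ofNat 1), (393, .ofNat 1), (394, .ofNat 1), (395, .ofNat 2)]) te) (tn (tl [(431, .ofNat 1)]) te)) te)) te) (tn (tn (tn (tn (tn (tl [(292, .ofNat 2), (294, .ofNat 1), (295, .ofNat 1), (296, .ofNat 1), (298, .ofNat 2), (301, .ofNat 2), (303, .ofNat 1), (304, .ofNat 2), (305, .ofNat 2), (306, .ofNat 1), (307, .ofNat 2), (310, .ofNat 2)]) (tl [(434, .ofNat 1)])) te) te) (tn (tn te (tn (tl [(432, .ofNat 1)]) te)) te)) (tn (tn (tn te (tn (tl [(430, .ofNat 2)]) te))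 (tn (tn (tl [(427, .ofNat 1)]) te) te)) te)))) (tn (tn (tn (tn (tn (tn (tn (tl [(177, .ofNat 1), (182, .ofNat 2), (184, .ofNat 1)]) (tl [(434, .ofNat 1)])) te) te) (tn (tn (tn (tl [(392, .ofNat 2)]) te) (tn (tl [(430, .ofNat 2), (431, .ofNat 2)]) te)) te)) (tn (tn (tn (tn te (tl [(434, .ofNat 1)])) te) te) te)) (tn (tn (tn (tn (tn (tl [(278, .ofNat 2), (279, .ofNat 2), (280, .ofNat 2), (281, .ofNat 1), (282, .ofNat 2), (283, .ofNat 1), (286, .ofNat 2), (288, .ofNat 1), (289, .ofNat 1), (290, .ofNat 1)]) (tl [(434, .ofNat 1)])) te) te) (tn (tn te (tn (tl [(432, .ofNat 1), (433, .ofNat 2)]) te)) te)) (tn (tn te (tn (tn (tl [(427, .ofNat 1)]) te) te)) (tn (tn (tn (tl [(418, .ofNat 1), (419, .ofNat 1), (420, .ofNat 1), (421, .ofNat 2), (422, .ofNat 2)]) te) te) te)))) (tn (tn (tn (tn (tn (tn te (tl [(434, .ofNat 1)])) te) te) (tn (tn (tn (tl [(397, .ofNat 2), (399, .ofNat 1), (400, .ofNat 2), (401, .ofNat 2)]) te) (tn (tl [(433,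 .ofNat 1)]) te)) te)) (tn te (tn (tn (tn (tl [(414, .ofNat 2), (415, .ofNat 2), (416, .ofNat 2), (417, .ofNat 1)]) te) te) te))) (tn te (tn (tn te (tn (tn (tl [(427, .ofNat 1)]) te) te)) te))))))

def r47 : Tr SV := (tn (tn (tn (tn (tn (tn (tn (tn (tn (tl [(101, .ofNat 2), (109, .ofNat 1)]) te) te) te) (tn te (tn (tn (tl [(427, .ofNat 1)]) te) te))) (tn (tn (tn (tn (tl [(364, .ofNat 1), (366, .ofNat 2), (367, .ofNat 1), (368, .ofNat 1), (369, .ofNat 1), (372, .ofNat 1), (373, .ofNat 1), (374, .ofNat 1)]) te) te) te) te)) (tn (tn (tn (tn (tn te (tl [(434, .ofNat 1)])) te) te) (tn (tn (tn (tl [(397, .ofNat 1), (398, .ofNat 2), (399, .ofNat 1), (400, .ofNat 2)]) te) (tn (tl [(432, .ofNat 1), (433, .ofNat 1)]) te)) te)) (tn te (tn (tn (tn (tl [(414, .ofNat 2), (415, .ofNat 2), (417, .ofNat 2)]) te) te) te)))) (tn (tn (tn te (tn (tn (tn (tl [(393, .ofNat 2), (394, .ofNat 2), (395, .ofNat 2)]) te) (tn (tl [(430, .ofNat 1), (431,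 .ofNat 2)]) te)) (tn (tn (tl [(427, .ofNat 2)]) te) te))) (tn (tn (tn (tn (tl [(386, .ofNat 2)]) te) te) te) te)) (tn (tn (tn (tn (tn (tl [(295, .ofNat 1), (297, .ofNat 1), (298, .ofNat 2), (299, .ofNat 1), (300, .ofNat 1), (301, .ofNat 2), (302, .ofNat 2), (303, .ofNat 1), (305, .ofNat 1), (306, .ofNat 1), (307, .ofNat 1), (308, .ofNat 2), (311, .ofNat 2)]) te) te) te) te) (tn (tn (tn te (tn (tl [(430, .ofNat 2), (431, .ofNat 1)]) te)) (tn (tn (tl [(427, .ofNat 2)]) te) te)) (tn (tn (tn (tl [(418, .ofNat 2), (419, .ofNat 2), (420, .ofNat 1), (422, .ofNat 2)]) te) te) te))))) (tn (tn (tn (tn (tn (tn (tn te (tl [(434, .ofNat 1)])) te) te) (tn (tn (tn (tl [(392, .ofNat 1), (394, .ofNat 1), (396, .ofNat 1)]) te) (tn (tl [(430, .ofNat 2)]) te)) te)) (tn (tn (tn (tn te (tl [(434, .ofNat 1)])) te) te) te)) (tn (tn (tn (tn (tn (tl [(280, .ofNat 2), (283, .ofNat 1), (284, .ofNat 2), (285, .ofNat 2), (286, .ofNat 2), (287, .ofNat 2),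 (288, .ofNat 2), (291, .ofNat 1)]) (tl [(434, .ofNat 1)])) te) te) (tn (tn (tn (tl [(397, .ofNat 2), (398, .ofNat 1), (400, .ofNat 1), (401, .ofNat 1)]) te) (tn (tl [(433, .ofNat 2)]) te)) te)) (tn te (tn (tn (tn (tl [(419, .ofNat 2), (420, .ofNat 2), (422, .ofNat 1)]) te) te) te)))) (tn (tn (tn (tn (tn (tn (tl [(229, .ofNat 2)]) (tl [(434, .ofNat 2)])) te) te) (tn (tn (tn (tl [(392, .ofNat 1), (393, .ofNat 1), (394, .ofNat 1), (395, .ofNat 2), (396, .ofNat 1)]) te) (tn (tl [(430, .ofNat 1), (431, .ofNat 1)]) te)) te)) te) (tn (tn te (tn (tn te (tn (tl [(432, .ofNat 2), (433, .ofNat 1)]) te)) te)) (tn (tn (tn te (tn (tl [(431, .ofNat 1)]) te)) te) te))))) (tn (tn (tn (tn (tn (tn (tn (tn (tl [(112, .ofNat 2), (127, .ofNat 1)]) te) te) te) (tn (tn te (tn (tl [(430, .ofNat 1), (431, .ofNat 1)]) te)) (tn (tn (tl [(427, .ofNat 1)]) te) te))) te) (tn (tn te (tn (tn (tn (tl [(397, .ofNat 1), (398, .ofNat 1), (400, .ofNat 1), (401,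 .ofNat 1)]) te) (tn (tl [(432, .ofNat 1)]) te)) te)) (tn te (tn (tn (tn (tl [(417, .ofNat 2)]) te) te) te)))) (tn (tn (tn (tn (tn (tn (tl [(221, .ofNat 2), (222, .ofNat 1), (223, .ofNat 2), (224, .ofNat 2), (225, .ofNat 2), (226, .ofNat 2)]) te) te) te) (tn (tn (tn (tl [(392, .ofNat 1), (395, .ofNat 1), (396, .ofNat 1)]) te) (tn (tl [(431, .ofNat 1)]) te)) te)) (tn (tn (tn (tn te (tl [(434, .ofNat 1)])) te) te) te)) (tn (tn (tn (tn (tn (tl [(292, .ofNat 1), (293, .ofNat 1), (294, .ofNat 2), (295, .ofNat 1), (296, .ofNat 1), (297, .ofNat 1), (298, .ofNat 1), (300, .ofNat 1), (301, .ofNat 1), (303, .ofNat 2), (305, .ofNat 2), (306, .ofNat 2), (308, .ofNat 2), (309, .ofNat 2), (310, .ofNat 2)]) (tl [(434, .ofNat 1)])) te) te) (tn (tn te (tn (tl [(432, .ofNat 2), (433, .ofNat 2)]) te)) te)) (tn (tn (tn te (tn (tl [(430, .ofNat 2)]) te)) te) te)))) (tn (tn (tn (tn (tn (tn (tn (tl [(177, .ofNat 2), (185, .ofNat 1)]) te) te) te) (tn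 (tn (tn (tl [(394, .ofNat 2), (395, .ofNat 2)]) te) (tn (tl [(430, .ofNat 2)]) te)) (tn (tn (tl [(427, .ofNat 2)]) te) te))) te) (tn (tn (tn (tn (tn (tl [(278, .ofNat 2), (280, .ofNat 1), (281, .ofNat 2), (285, .ofNat 1), (286, .ofNat 2)]) te) te) te) (tn (tn te (tn (tl [(432, .ofNat 2)]) te)) te)) (tn (tn te (tn (tn (tl [(427, .ofNat 2)]) te) te)) (tn (tn (tn (tl [(418, .ofNat 1), (419, .ofNat 2), (421, .ofNat 2)]) te) te) te)))) (tn (tn (tn (tn (tn (tn te (tl [(434, .ofNat 2)])) te) te) (tn (tn (tn (tl [(397, .ofNat 1), (398, .ofNat 1), (399, .ofNat 2), (401, .ofNat 2)]) te) (tn (tl [(432, .ofNat 1)]) te)) te)) (tn te (tn (tn (tn (tl [(416, .ofNat 1), (417, .ofNat 1)]) te) te) te))) (tn (tn (tn (tn (tn te (tl [(434, .ofNat 2)])) te) te) te) (tn (tn (tn te (tn (tl [(431, .ofNat 1)]) te)) te) te))))))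

def r48 : Tr SV := (tn (tn (tn (tn (tn (tn (tn (tn (tn (tl [(113, .ofNat 1), (119, .ofNat 2), (123, .ofNat 1)]) te) te) te) (tn (tn (tn (tl [(392, .ofNat 2), (394, .ofNat 2), (395, .ofNat 1)]) te) te) te)) (tn (tn (tn (tn (tl [(375, .ofNat 1), (376, .ofNat 1), (377, .ofNat 2), (378, .ofNat 2), (381, .ofNat 2), (382, .ofNat 2), (385, .ofNat 2)]) te) te) (tn (tn (tl [(427, .ofNat 1)]) te) te)) te)) (tn te (tn (tn (tn te (tn (tl [(430, .ofNat 1), (431, .ofNat 1)]) te)) te) (tn (tn (tn (tl [(419, .ofNat 1), (421, .ofNat 2), (422, .ofNat 2)]) te) te) (tn te (tn (tl [(434, .ofNat 1)]) te)))))) (tn (tn (tn (tn (tn (tn (tl [(220, .ofNat 2), (221, .ofNat 2), (222, .ofNat 2), (224, .ofNat 1), (225, .ofNat 2)]) te) te) te) (tn (tn (tn (tl [(398, .ofNat 1), (399, .ofNat 1), (400, .ofNat 1), (401, .ofNat 1)]) te) (tn (tl [(433, .ofNat 1)]) te)) te)) (tn (tn (tn te (tn (tl [(431, .ofNat 1)]) te)) te) (tn te (tn te (tn (tl [(434, .ofNat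 1)]) te))))) (tn (tn (tn (tn (tn (tl [(312, .ofNat 2), (313, .ofNat 1), (314, .ofNat 2), (315, .ofNat 2), (316, .ofNat 1), (320, .ofNat 1), (321, .ofNat 2), (322, .ofNat 2), (323, .ofNat 1)]) te) te) te) (tn te (tn te (tn (tl [(434, .ofNat 1)]) te)))) (tn (tn (tn te (tn (tl [(432, .ofNat 1)]) te)) te) (tn (tn (tn (tl [(423, .ofNat 2), (424, .ofNat 1)]) te) te) (tn te (tn (tl [(434, .ofNat 1)]) te))))))) (tn (tn (tn (tn te (tn (tn (tn (tl [(397, .ofNat 2), (398, .ofNat 2), (399, .ofNat 2), (400, .ofNat 2), (401, .ofNat 2)]) te) te) te)) (tn (tn (tn (tn (tl [(386, .ofNat 1)]) te) te) (tn (tn (tl [(427, .ofNat 2)]) te) te)) te)) (tn (tn (tn (tn (tn (tl [(292, .ofNat 2), (294, .ofNat 1), (295, .ofNat 2), (296, .ofNat 1), (297, .ofNat 2), (299, .ofNat 2), (301, .ofNat 2), (303, .ofNat 2), (304, .ofNat 1), (305, .ofNat 2), (307, .ofNat 2), (310, .ofNat 2)]) te) te) te) (tn te (tn te (tn (tl [(434, .ofNat 1)]) te)))) (tn (tn (tn te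 (tn (tl [(430, .ofNat 1), (431, .ofNat 2)]) te)) te) (tn (tn (tn (tl [(423, .ofNat 2), (424, .ofNat 2), (426, .ofNat 1)]) te) te) te)))) (tn (tn (tn te (tn (tn (tn (tl [(398, .ofNat 1), (399, .ofNat 1), (400, .ofNat 1), (401, .ofNat 1)]) te) (tn (tl [(432, .ofNat 2), (433, .ofNat 2)]) te)) te)) (tn (tn (tn te (tn (tl [(430, .ofNat 1)]) te)) te) te)) (tn te (tn (tn (tn (tn (tl [(392, .ofNat 1), (395, .ofNat 1), (396, .ofNat 1)]) te) (tn (tl [(432, .ofNat 1), (433, .ofNat 1)]) te)) te) (tn te (tn te (tn (tl [(434, .ofNat 1)]) te)))))))) (tn (tn (tn (tn (tn (tn (tn (tn (tl [(133, .ofNat 1), (140, .ofNat 1), (145, .ofNat 2)]) te) te) te) (tn (tn (tn (tl [(392, .ofNat 1), (394, .ofNat 1)]) te) (tn (tl [(433, .ofNat 2)]) te)) te)) (tn (tn (tn (tn (tl [(386, .ofNat 2)]) te) te) te) (tn te (tn te (tn (tl [(434, .ofNat 1)]) te))))) (tn te (tn (tn (tn te (tn (tl [(431, .ofNat 1)]) te)) te) (tn (tn (tn (tl [(418, .ofNat 2), (419, .ofNat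 2), (420, .ofNat 2), (421, .ofNat 1)]) te) te) (tn te (tn (tl [(434, .ofNat 1)]) te)))))) (tn (tn (tn (tn (tn (tn (tl [(227, .ofNat 2), (228, .ofNat 1), (229, .ofNat 1), (230, .ofNat 2), (232, .ofNat 2)]) te) te) te) (tn (tn (tn (tl [(397, .ofNat 1), (398, .ofNat 2), (400, .ofNat 1), (401, .ofNat 2)]) te) (tn (tl [(432, .ofNat 2), (433, .ofNat 2)]) te)) te)) (tn (tn (tn te (tn (tl [(430, .ofNat 2), (431, .ofNat 2)]) te)) (tn (tn (tl [(427, .ofNat 2)]) te) te)) (tn te (tn te (tn (tl [(434, .ofNat 1)]) te))))) (tn (tn (tn (tn (tn (tl [(312, .ofNat 1), (313, .ofNat 1), (315, .ofNat 1), (316, .ofNat 1), (317, .ofNat 1), (319, .ofNat 1), (320, .ofNat 2), (322, .ofNat 1), (323, .ofNat 2), (324, .ofNat 1), (325, .ofNat 2)]) te) te) te) te) (tn (tn (tn te (tn (tl [(432, .ofNat 1), (433, .ofNat 2)]) te)) te) te)))) (tn (tn (tn (tn (tn (tn (tn (tl [(192, .ofNat 1)]) te) te) te) (tn (tn (tn (tl [(397, .ofNat 2), (398, .ofNat 2), (400,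 .ofNat 2), (401, .ofNat 2)]) te) (tn (tl [(432, .ofNat 2), (433, .ofNat 2)]) te)) te)) (tn te (tn te (tn te (tn (tl [(434, .ofNat 1)]) te))))) (tn (tn (tn (tn (tn (tl [(292, .ofNat 1), (295, .ofNat 1), (298, .ofNat 1), (299, .ofNat 1), (300, .ofNat 1), (301, .ofNat 2), (302, .ofNat 1), (303, .ofNat 2), (305, .ofNat 2), (307, .ofNat 2), (309, .ofNat 2), (310, .ofNat 2)]) te) te) te) te) (tn (tn (tn te (tn (tl [(431, .ofNat 1)]) te)) te) (tn (tn (tn (tl [(423, .ofNat 2), (424, .ofNat 2), (425, .ofNat 1)]) te) te) te)))) (tn (tn te (tn (tn te (tn (tn (tl [(427, .ofNat 2)]) te) te)) (tn (tn (tn (tl [(418, .ofNat 2), (422, .ofNat 1)]) te) te) te))) (tn (tn (tn te (tn (tn (tl [(427, .ofNat 2)]) te) te)) te) (tn (tn (tn (tn (tl [(393, .ofNat 2), (394, .ofNat 1), (395, .ofNat 2), (396, .ofNat 2)]) te) (tn (tl [(432, .ofNat 2), (433, .ofNat 1)]) te)) te) (tn te (tn te (tn (tl [(434, .ofNat 1)]) te)))))))))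

def r49 : Tr SV := (tn (tn (tn (tn (tn (tn (tn (tn (tn (tl [(114, .ofNat 1), (118, .ofNat 2), (123, .ofNat 1)]) te) te) te) (tn (tn (tn (tl [(393, .ofNat 2), (394, .ofNat 2), (396, .ofNat 1)]) te) te) te)) (tn (tn (tn (tn (tl [(376, .ofNat 2), (378, .ofNat 1), (380, .ofNat 1), (381, .ofNat 1), (382, .ofNat 2), (383, .ofNat 2), (384, .ofNat 1), (385, .ofNat 1)]) te) te) (tn (tn (tl [(427, .ofNat 1)]) te) te)) te)) (tn te (tn (tn (tn te (tn (tl [(430, .ofNat 2)]) te)) te) (tn (tn (tn (tl [(419, .ofNat 1), (421, .ofNat 2), (422, .ofNat 1)]) te) te) (tn te (tn (tl [(434, .ofNat 1)]) te)))))) (tn (tn (tn (tn (tn (tn (tl [(220, .ofNat 2), (221, .ofNat 1), (223, .ofNat 2)]) te) te) te) (tn (tn (tn (tl [(398, .ofNat 1), (399, .ofNat 2), (400, .ofNat 1), (401, .ofNat 1)]) te) (tn (tl [(433, .ofNat 2)]) te)) te)) (tn (tn (tn te (tn (tl [(430, .ofNat 2), (431, .ofNat 1)]) te)) (tn (tn (tl [(427, .ofNat 1)]) te) te)) (tn te (tn te (tn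 (tl [(434, .ofNat 1)]) te))))) (tn (tn (tn (tn (tn (tl [(314, .ofNat 1), (315, .ofNat 1), (317, .ofNat 1), (319, .ofNat 2), (321, .ofNat 2), (322, .ofNat 2), (323, .ofNat 2)]) te) te) te) (tn te (tn te (tn (tl [(434, .ofNat 2)]) te)))) (tn (tn (tn te (tn (tl [(432, .ofNat 1)]) te)) te) (tn (tn (tn (tl [(423, .ofNat 2), (426, .ofNat 1)]) te) te) (tn te (tn (tl [(434, .ofNat 2)]) te))))))) (tn (tn (tn (tn te (tn (tn (tn (tl [(398, .ofNat 1)]) te) te) te)) (tn (tn (tn (tn (tl [(386, .ofNat 1)]) te) te) (tn (tn (tl [(427, .ofNat 2)]) te) te)) (tn te (tn te (tn (tl [(434, .ofNat 2)]) te))))) (tn (tn (tn (tn (tn (tl [(292, .ofNat 1), (293, .ofNat 2), (294, .ofNat 2), (295, .ofNat 2), (296, .ofNat 2), (297, .ofNat 2), (298, .ofNat 1), (299, .ofNat 2), (300, .ofNat 1), (301, .ofNat 1), (302, .ofNat 2), (303, .ofNat 1), (304, .ofNat 2), (305, .ofNat 1), (306, .ofNat 1), (307, .ofNat 1), (308, .ofNat 1), (309, .ofNat 2), (310, .ofNat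 1), (311, .ofNat 2)]) te) te) te) (tn te (tn te (tn (tl [(434, .ofNat 1)]) te)))) (tn te (tn (tn (tn (tl [(423, .ofNat 1), (424, .ofNat 2), (426, .ofNat 1)]) te) te) (tn te (tn (tl [(434, .ofNat 1)]) te)))))) (tn (tn (tn te (tn (tn (tn (tl [(397, .ofNat 1), (398, .ofNat 2), (399, .ofNat 1), (401, .ofNat 1)]) te) te) te)) (tn (tn (tn te (tn (tl [(431, .ofNat 2)]) te)) (tn (tn (tl [(427, .ofNat 2)]) te) te)) te)) (tn te (tn (tn (tn (tn (tl [(392, .ofNat 1), (393, .ofNat 1), (394, .ofNat 2), (395, .ofNat 2), (396, .ofNat 1)]) te) te) te) (tn te (tn te (tn (tl [(434, .ofNat 2)]) te)))))))) (tn (tn (tn (tn (tn (tn (tn (tn (tl [(131, .ofNat 2), (132, .ofNat 1), (133, .ofNat 1), (137, .ofNat 2), (139, .ofNat 1), (140, .ofNat 1), (146, .ofNat 2)]) te) te) te) (tn (tn (tn (tl [(392, .ofNat 1), (393, .ofNat 2)]) te) (tn (tl [(432, .ofNat 1), (433, .ofNat 2)]) te)) te)) (tn (tn (tn (tn (tl [(386, .ofNat 1)]) te) te) (tn (tn (tl [(427,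 .ofNat 1)]) te) te)) (tn te (tn te (tn (tl [(434, .ofNat 1)]) te))))) (tn (tn te (tn te (tn te (tn (tl [(434, .ofNat 2)]) te)))) (tn te (tn (tn (tn (tl [(419, .ofNat 2), (421, .ofNat 1), (422, .ofNat 2)]) te) te) (tn te (tn (tl [(434, .ofNat 1)]) te)))))) (tn (tn (tn (tn (tn (tn (tl [(228, .ofNat 1), (230, .ofNat 2), (232, .ofNat 2)]) te) te) te) (tn (tn (tn (tl [(397, .ofNat 2), (398, .ofNat 1), (399, .ofNat 1), (400, .ofNat 1), (401, .ofNat 1)]) te) (tn (tl [(432, .ofNat 1), (433, .ofNat 1)]) te)) te)) (tn (tn (tn te (tn (tl [(430, .ofNat 2), (431, .ofNat 1)]) te)) (tn (tn (tl [(427, .ofNat 2)]) te) te)) (tn te (tn te (tn (tl [(434, .ofNat 2)]) te))))) (tn (tn (tn (tn (tn (tl [(312, .ofNat 1), (313, .ofNat 2), (314, .ofNat 2), (315, .ofNat 1), (318, .ofNat 1), (319, .ofNat 2), (322, .ofNat 1), (323, .ofNat 2), (324, .ofNat 1), (325, .ofNat 2)]) te) te) te) te) (tn (tn (tn te (tn (tl [(432, .ofNat 1)]) te)) te) te)))) (tn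 (tn (tn (tn (tn (tn (tn (tl [(189, .ofNat 2), (191, .ofNat 1), (192, .ofNat 1)]) te) te) te) (tn (tn (tn (tl [(397, .ofNat 1), (398, .ofNat 1), (400, .ofNat 1), (401, .ofNat 1)]) te) (tn (tl [(432, .ofNat 1), (433, .ofNat 1)]) te)) te)) (tn te (tn te (tn te (tn (tl [(434, .ofNat 1)]) te))))) (tn (tn (tn (tn (tn (tl [(292, .ofNat 1), (295, .ofNat 2), (297, .ofNat 1), (299, .ofNat 2), (301, .ofNat 1), (302, .ofNat 2), (303, .ofNat 1), (305, .ofNat 2), (306, .ofNat 2), (307, .ofNat 1), (308, .ofNat 2), (309, .ofNat 1), (310, .ofNat 1)]) te) te) te) (tn te (tn te (tn (tl [(434, .ofNat 1)]) te)))) (tn (tn (tn te (tn (tl [(431, .ofNat 1)]) te)) te) (tn te (tn te (tn (tl [(434, .ofNat 1)]) te)))))) (tn (tn te (tn (tn (tn te (tn (tl [(431, .ofNat 2)]) te)) (tn (tn (tl [(427, .ofNat 1)]) te) te)) (tn (tn (tn (tl [(421, .ofNat 2)]) te) te) (tn te (tn (tl [(434, .ofNat 2)]) te))))) (tn (tn (tn te (tn (tn (tl [(427, .ofNat 1)]) te) te))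 (tn te (tn te (tn (tl [(434, .ofNat 2)]) te)))) (tn (tn (tn (tn (tl [(392, .ofNat 1), (394, .ofNat 1), (395, .ofNat 2), (396, .ofNat 1)]) te) (tn (tl [(432, .ofNat 2), (433, .ofNat 2)]) te)) te) (tn te (tn te (tn (tl [(434, .ofNat 1)]) te)))))))))

def r50 : Tr SV := (tn (tn (tn (tn (tn (tn (tn (tn (tn (tl [(117, .ofNat 2), (121, .ofNat 1), (123, .ofNat 2)]) (tl [(434, .ofNat 2)])) te) te) (tn (tn (tn (tl [(392, .ofNat 2), (393, .ofNat 1), (396, .ofNat 1)]) te) (tn (tl [(432, .ofNat 2), (433, .ofNat 2)]) te)) te)) (tn (tn (tn (tn (tl [(375, .ofNat 2), (377, .ofNat 2), (379, .ofNat 1), (380, .ofNat 1), (381, .ofNat 1), (384, .ofNat 1)]) te) te) (tn (tn (tl [(427, .ofNat 1)]) te) te)) te)) (tn te (tn (tn (tn te (tn (tl [(431, .ofNat 2)]) te)) (tn (tn (tl [(427, .ofNat 1)]) te) te)) (tn (tn (tn (tl [(419, .ofNat 1)]) te) te) (tn te (tn (tl [(434, .ofNat 2)]) te)))))) (tn (tn (tn (tn (tn (tn (tl [(221, .ofNat 1), (222, .ofNat 1),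 (223, .ofNat 1), (224, .ofNat 1), (226, .ofNat 1)]) te) te) te) (tn (tn (tn (tl [(397, .ofNat 1), (398, .ofNat 1), (400, .ofNat 2), (401, .ofNat 1)]) te) (tn (tl [(433, .ofNat 1)]) te)) te)) (tn te (tn te (tn te (tn (tl [(434, .ofNat 1)]) te))))) (tn (tn (tn (tn (tn (tl [(312, .ofNat 1), (315, .ofNat 2), (317, .ofNat 2), (321, .ofNat 1), (322, .ofNat 2), (323, .ofNat 2), (324, .ofNat 2), (325, .ofNat 2)]) te) te) te) (tn te (tn te (tn (tl [(434, .ofNat 1)]) te)))) (tn (tn (tn te (tn (tl [(433, .ofNat 2)]) te)) te) (tn (tn (tn (tl [(423, .ofNat 1), (424, .ofNat 1), (426, .ofNat 2)]) te) te) (tn te (tn (tl [(434, .ofNat 2)]) te))))))) (tn (tn (tn (tn te (tn (tn (tn (tl [(397, .ofNat 1), (400, .ofNat 1), (401, .ofNat 1)]) te) (tn (tl [(432, .ofNat 2)]) te)) te)) (tn te (tn te (tn te (tn (tl [(434, .ofNat 1)]) te))))) (tn (tn (tn (tn (tn (tl [(293, .ofNat 1), (295, .ofNat 2), (296, .ofNat 2), (297, .ofNat 1), (299, .ofNat 1), (301,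 .ofNat 1), (303, .ofNat 2), (304, .ofNat 2), (305, .ofNat 2), (306, .ofNat 1), (307, .ofNat 2), (308, .ofNat 2), (309, .ofNat 2), (310, .ofNat 2)]) te) te) te) (tn te (tn te (tn (tl [(434, .ofNat 2)]) te)))) (tn (tn (tn te (tn (tl [(430, .ofNat 2), (431, .ofNat 1)]) te)) te) (tn (tn (tn (tl [(424, .ofNat 2), (425, .ofNat 2), (426, .ofNat 2)]) te) te) (tn te (tn (tl [(434, .ofNat 2)]) te)))))) (tn (tn (tn te (tn (tn (tn (tl [(398, .ofNat 1), (399, .ofNat 2)]) te) (tn (tl [(432, .ofNat 2), (433, .ofNat 2)]) te)) te)) (tn (tn (tn te (tn (tl [(430, .ofNat 1)]) te)) te) (tn te (tn te (tn (tl [(434, .ofNat 2)]) te))))) (tn te (tn (tn (tn (tn (tl [(392, .ofNat 1), (393, .ofNat 2), (394, .ofNat 2), (395, .ofNat 2)]) te) (tn (tl [(432, .ofNat 1), (433, .ofNat 1)]) te)) te) te))))) (tn (tn (tn (tn (tn (tn (tn (tn (tl [(147, .ofNat 1)]) (tl [(434, .ofNat 1)])) te) te) (tn (tn (tn (tl [(392, .ofNat 1), (394, .ofNat 2)]) te) (tn (tl [(433,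 .ofNat 1)]) te)) te)) (tn (tn (tn (tn (tl [(386, .ofNat 2)]) te) te) (tn (tn (tl [(427, .ofNat 2)]) te) te)) te)) (tn (tn te (tn te (tn te (tn (tl [(434, .ofNat 2)]) te)))) (tn (tn (tn te (tn (tl [(430, .ofNat 1)]) te)) (tn (tn (tl [(427, .ofNat 1)]) te) te)) (tn (tn (tn (tl [(418, .ofNat 1), (419, .ofNat 2), (420, .ofNat 2), (422, .ofNat 1)]) te) te) (tn te (tn (tl [(434, .ofNat 2)]) te)))))) (tn (tn (tn (tn (tn (tn (tl [(228, .ofNat 1), (231, .ofNat 2), (232, .ofNat 1)]) te) te) te) (tn (tn (tn (tl [(397, .ofNat 1), (398, .ofNat 2), (399, .ofNat 1), (400, .ofNat 1), (401, .ofNat 1)]) te) (tn (tl [(432, .ofNat 1), (433, .ofNat 1)]) te)) te)) (tn (tn (tn te (tn (tl [(431, .ofNat 2)]) te)) (tn (tn (tl [(427, .ofNat 2)]) te) te)) (tn te (tn te (tn (tl [(434, .ofNat 2)]) te))))) (tn (tn (tn (tn (tn (tl [(312, .ofNat 1), (313, .ofNat 2), (314, .ofNat 1), (315, .ofNat 1), (317, .ofNat 1), (319, .ofNat 2), (320, .ofNat 1), (321,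 .ofNat 2), (323, .ofNat 2)]) te) te) te) (tn te (tn te (tn (tl [(434, .ofNat 2)]) te)))) (tn (tn (tn te (tn (tl [(432, .ofNat 1)]) te)) te) (tn te (tn te (tn (tl [(434, .ofNat 2)]) te))))))) (tn (tn (tn (tn (tn (tn (tn (tl [(199, .ofNat 1)]) te) te) te) (tn (tn (tn (tl [(398, .ofNat 2), (399, .ofNat 2), (400, .ofNat 1), (401, .ofNat 1)]) te) (tn (tl [(433, .ofNat 2)]) te)) te)) (tn (tn te (tn (tn (tl [(427, .ofNat 1)]) te) te)) te)) (tn (tn (tn (tn (tn (tl [(295, .ofNat 1), (296, .ofNat 1), (297, .ofNat 1), (298, .ofNat 2), (300, .ofNat 1), (301, .ofNat 2), (302, .ofNat 2), (303, .ofNat 1), (305, .ofNat 1), (306, .ofNat 1), (308, .ofNat 2), (311, .ofNat 2)]) te) te) te) te) (tn (tn (tn te (tn (tl [(430, .ofNat 2)]) te)) te) (tn (tn (tn (tl [(423, .ofNat 1), (424, .ofNat 1), (425, .ofNat 1), (426, .ofNat 2)]) te) te) te)))) (tn (tn te (tn (tn (tn te (tn (tl [(430, .ofNat 2), (431, .ofNat 2)]) te)) (tn (tn (tl [(427, .ofNat 1)])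 te) te)) (tn (tn (tn (tl [(419, .ofNat 1), (420, .ofNat 2), (422, .ofNat 1)]) te) te) (tn te (tn (tl [(434, .ofNat 1)]) te))))) (tn (tn (tn te (tn (tn (tl [(427, .ofNat 1)]) te) te)) (tn te (tn te (tn (tl [(434, .ofNat 1)]) te)))) (tn (tn (tn (tn (tl [(392, .ofNat 2), (395, .ofNat 2), (396, .ofNat 1)]) te) te) te) te))))))

def r51 : Tr SV := (tn (tn (tn (tn (tn (tn (tn (tn (tn (tl [(118, .ofNat 2), (123, .ofNat 1), (124, .ofNat 1)]) (tl [(434, .ofNat 2)])) te) te) (tn (tn (tn (tl [(392, .ofNat 1), (393, .ofNat 2), (394, .ofNat 1), (395, .ofNat 1), (396, .ofNat 2)]) te) te) te)) (tn (tn (tn (tn (tl [(376, .ofNat 1), (378, .ofNat 1), (380, .ofNat 2), (381, .ofNat 1), (382, .ofNat 2), (383, .ofNat 2), (384, .ofNat 1), (385, .ofNat 1)]) te) te) te) te)) (tn te (tn (tn (tn te (tn (tl [(430, .ofNat 2)]) te)) (tn (tn (tl [(427, .ofNat 1)]) te) te)) (tn (tn (tn (tl [(418, .ofNat 2), (420, .ofNat 1), (421, .ofNat 2), (422, .ofNat 1)])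 te) te) (tn te (tn (tl [(434, .ofNat 1)]) te)))))) (tn (tn (tn (tn (tn (tn (tl [(221, .ofNat 1), (222, .ofNat 2), (224, .ofNat 2), (225, .ofNat 1), (226, .ofNat 2)]) te) te) te) (tn (tn (tn (tl [(398, .ofNat 2), (400, .ofNat 1), (401, .ofNat 2)]) te) (tn (tl [(433, .ofNat 1)]) te)) te)) (tn (tn (tn te (tn (tl [(430, .ofNat 1), (431, .ofNat 2)]) te)) te) (tn te (tn te (tn (tl [(434, .ofNat 2)]) te))))) (tn (tn (tn (tn (tn (tl [(312, .ofNat 1), (314, .ofNat 1), (315, .ofNat 2), (317, .ofNat 2), (318, .ofNat 1), (320, .ofNat 1), (321, .ofNat 2), (323, .ofNat 2)]) te) te) te) (tn te (tn te (tn (tl [(434, .ofNat 2)]) te)))) (tn (tn (tn te (tn (tl [(433, .ofNat 1)]) te)) te) (tn (tn (tn (tl [(423, .ofNat 2), (426, .ofNat 2)]) te) te) (tn te (tn (tl [(434, .ofNat 2)]) te))))))) (tn (tn (tn (tn te (tn (tn (tn (tl [(397, .ofNat 2), (398, .ofNat 1), (399, .ofNat 2), (401, .ofNat 1)]) te) (tn (tl [(432, .ofNat 2), (433, .ofNat 2)]) te))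 te)) (tn (tn te (tn (tn (tl [(427, .ofNat 2)]) te) te)) (tn te (tn te (tn (tl [(434, .ofNat 2)]) te))))) (tn (tn (tn (tn (tn (tl [(292, .ofNat 1), (293, .ofNat 2), (295, .ofNat 2), (299, .ofNat 2), (300, .ofNat 2), (301, .ofNat 2), (302, .ofNat 2), (303, .ofNat 2), (304, .ofNat 2), (306, .ofNat 2), (307, .ofNat 1), (308, .ofNat 2), (309, .ofNat 2)]) te) te) te) (tn te (tn te (tn (tl [(434, .ofNat 2)]) te)))) (tn (tn (tn te (tn (tl [(430, .ofNat 2), (431, .ofNat 2)]) te)) te) (tn (tn (tn (tl [(423, .ofNat 1), (424, .ofNat 1), (425, .ofNat 2), (426, .ofNat 1)]) te) te) (tn te (tn (tl [(434, .ofNat 1)]) te)))))) (tn (tn (tn te (tn (tn (tn (tl [(398, .ofNat 2), (399, .ofNat 1)]) te) (tn (tl [(433, .ofNat 2)]) te)) te)) (tn (tn (tn te (tn (tl [(430, .ofNat 1)]) te)) (tn (tn (tl [(427, .ofNat 1)]) te) te)) te)) (tn te (tn (tn (tn (tn (tl [(393, .ofNat 1), (394, .ofNat 2), (396, .ofNat 1)]) te) (tn (tl [(432, .ofNat 2)]) te)) te)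 (tn te (tn te (tn (tl [(434, .ofNat 2)]) te)))))))) (tn (tn (tn (tn (tn (tn (tn (tn (tl [(131, .ofNat 2), (133, .ofNat 1), (137, .ofNat 2), (138, .ofNat 1), (139, .ofNat 1), (140, .ofNat 1), (146, .ofNat 2)]) (tl [(434, .ofNat 2)])) te) te) (tn (tn (tn (tl [(393, .ofNat 2), (396, .ofNat 1)]) te) (tn (tl [(432, .ofNat 1)]) te)) te)) (tn (tn (tn (tn (tl [(386, .ofNat 1)]) te) te) te) (tn te (tn te (tn (tl [(434, .ofNat 1)]) te))))) (tn (tn te (tn te (tn te (tn (tl [(434, .ofNat 1)]) te)))) (tn (tn (tn te (tn (tl [(430, .ofNat 1)]) te)) te) (tn (tn (tn (tl [(418, .ofNat 2), (420, .ofNat 1)]) te) te) (tn te (tn (tl [(434, .ofNat 2)]) te)))))) (tn (tn (tn (tn (tn (tn (tl [(228, .ofNat 1), (231, .ofNat 2)]) te) te) te) (tn (tn (tn (tl [(397, .ofNat 2), (400, .ofNat 1), (401, .ofNat 2)]) te) (tn (tl [(432, .ofNat 1), (433, .ofNat 2)]) te)) te)) (tn (tn (tn te (tn (tl [(430, .ofNat 2), (431, .ofNat 2)]) te)) te) (tn te (tn te (tn (tl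 [(434, .ofNat 2)]) te))))) (tn (tn (tn (tn (tn (tl [(312, .ofNat 2), (313, .ofNat 2), (314, .ofNat 2), (315, .ofNat 1), (316, .ofNat 1), (317, .ofNat 1), (318, .ofNat 1), (319, .ofNat 2), (322, .ofNat 1), (324, .ofNat 1), (325, .ofNat 1)]) te) te) te) (tn te (tn te (tn (tl [(434, .ofNat 2)]) te)))) (tn te (tn te (tn te (tn (tl [(434, .ofNat 2)]) te))))))) (tn (tn (tn (tn (tn (tn (tn (tl [(189, .ofNat 2), (192, .ofNat 1), (195, .ofNat 1)]) te) te) te) (tn (tn (tn (tl [(397, .ofNat 1), (398, .ofNat 2), (399, .ofNat 1), (401, .ofNat 1)]) te) (tn (tl [(432, .ofNat 2)]) te)) te)) te) (tn (tn (tn (tn (tn (tl [(292, .ofNat 2), (294, .ofNat 2), (295, .ofNat 1), (296, .ofNat 1), (297, .ofNat 1), (299, .ofNat 1), (300, .ofNat 1), (301, .ofNat 1), (303, .ofNat 1), (304, .ofNat 2), (305, .ofNat 1), (308, .ofNat 2), (309, .ofNat 2), (310, .ofNat 1), (311, .ofNat 1)]) te) te) te) (tn te (tn te (tn (tl [(434, .ofNat 2)]) te)))) (tn (tn (tn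 te (tn (tl [(430, .ofNat 1), (431, .ofNat 1)]) te)) te) (tn (tn (tn (tl [(424, .ofNat 1), (425, .ofNat 1), (426, .ofNat 1)]) te) te) (tn te (tn (tl [(434, .ofNat 1)]) te)))))) (tn (tn te (tn te (tn (tn (tn (tl [(418, .ofNat 1), (419, .ofNat 1), (420, .ofNat 1), (421, .ofNat 2), (422, .ofNat 1)]) te) te) te))) (tn (tn (tn te (tn (tn (tl [(427, .ofNat 1)]) te) te)) (tn te (tn te (tn (tl [(434, .ofNat 2)]) te)))) (tn (tn (tn (tn (tl [(392, .ofNat 2), (395, .ofNat 2)]) te) (tn (tl [(432, .ofNat 2), (433, .ofNat 1)]) te)) te) (tn te (tn te (tn (tl [(434, .ofNat 1)]) te)))))))))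

def r52 : Tr SV := (tn (tn (tn (tn (tn (tn (tn (tn (tn (tl [(117, .ofNat 2), (123, .ofNat 2), (126, .ofNat 1)]) (tl [(434, .ofNat 1)])) te) te) (tn (tn (tn (tl [(392, .ofNat 2), (393, .ofNat 1), (395, .ofNat 2)]) te) (tn (tl [(432, .ofNat 1), (433, .ofNat 2)]) te)) te)) (tn (tn (tn (tn (tl [(375, .ofNat 2), (377, .ofNat 2), (380, .ofNat 1), (381, .ofNat 1), (383, .ofNat 1), (384, .ofNat 1)]) te) te) (tn (tn (tl [(427, .ofNat 1)]) te) te)) (tn te (tn te (tn (tl [(434, .ofNat 1)]) te))))) (tn te (tn (tn (tn te (tn (tl [(430, .ofNat 2), (431, .ofNat 2)]) te)) te) (tn (tn (tn (tl [(419, .ofNat 2), (420, .ofNat 1), (421, .ofNat 2), (422, .ofNat 1)]) te) te) (tn te (tn (tl [(434, .ofNat 1)]) te)))))) (tn (tn (tn (tn (tn (tn (tl [(220, .ofNat 1), (221, .ofNat 2), (222, .ofNat 2), (224, .ofNat 1), (226, .ofNat 1)]) te) te) te) (tn (tn (tn (tl [(398, .ofNat 1), (399, .ofNat 2), (401, .ofNat 1)]) te) te) te)) (tn (tn (tn te (tn (tl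 [(430, .ofNat 1), (431, .ofNat 2)]) te)) te) (tn te (tn te (tn (tl [(434, .ofNat 2)]) te))))) (tn (tn (tn (tn (tn (tl [(312, .ofNat 2), (313, .ofNat 2), (314, .ofNat 2), (315, .ofNat 1), (318, .ofNat 2), (319, .ofNat 2), (320, .ofNat 2), (321, .ofNat 1), (323, .ofNat 2), (324, .ofNat 2), (325, .ofNat 1)]) te) te) te) (tn te (tn te (tn (tl [(434, .ofNat 1)]) te)))) (tn (tn (tn te (tn (tl [(433, .ofNat 2)]) te)) te) (tn (tn (tn (tl [(424, .ofNat 2), (425, .ofNat 1)]) te) te) te))))) (tn (tn (tn (tn te (tn (tn (tn (tl [(399, .ofNat 2), (400, .ofNat 2), (401, .ofNat 1)]) te) (tn (tl [(433, .ofNat 2)]) te)) te)) (tn (tn (tn (tn (tl [(386, .ofNat 1)]) te) te) (tn (tn (tl [(427, .ofNat 2)]) te) te)) te)) (tn (tn (tn (tn (tn (tl [(293, .ofNat 1), (295, .ofNat 1), (296, .ofNat 2), (297, .ofNat 1), (299, .ofNat 1), (301, .ofNat 1), (303, .ofNat 2), (304, .ofNat 2), (306, .ofNat 1), (307, .ofNat 2), (308, .ofNat 2), (309, .ofNat 2), (310,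 .ofNat 2)]) te) te) te) te) (tn (tn (tn te (tn (tl [(430, .ofNat 1), (431, .ofNat 2)]) te)) te) (tn (tn (tn (tl [(423, .ofNat 1), (424, .ofNat 1), (425, .ofNat 1), (426, .ofNat 2)]) te) te) (tn te (tn (tl [(434, .ofNat 1)]) te)))))) (tn (tn (tn te (tn (tn (tn (tl [(398, .ofNat 1), (400, .ofNat 2), (401, .ofNat 2)]) te) (tn (tl [(433, .ofNat 1)]) te)) te)) (tn (tn (tn te (tn (tl [(430, .ofNat 2)]) te)) (tn (tn (tl [(427, .ofNat 2)]) te) te)) (tn te (tn te (tn (tl [(434, .ofNat 1)]) te))))) (tn (tn te (tn te (tn te (tn (tl [(434, .ofNat 2)]) te)))) (tn (tn (tn (tn (tl [(392, .ofNat 1), (393, .ofNat 1), (395, .ofNat 1), (396, .ofNat 2)]) te) (tn (tl [(433, .ofNat 1)]) te)) te) (tn te (tn te (tn (tl [(434, .ofNat 2)]) te)))))))) (tn (tn (tn (tn (tn (tn (tn (tn (tl [(135, .ofNat 2), (141, .ofNat 1), (147, .ofNat 1)]) te) te) te) (tn (tn (tn (tl [(393, .ofNat 1)]) te) (tn (tl [(432, .ofNat 2), (433, .ofNat 2)]) te)) te)) (tn te (tn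 te (tn te (tn (tl [(434, .ofNat 2)]) te))))) (tn (tn te (tn te (tn te (tn (tl [(434, .ofNat 2)]) te)))) (tn (tn (tn te (tn (tl [(430, .ofNat 2)]) te)) (tn (tn (tl [(427, .ofNat 2)]) te) te)) (tn (tn (tn (tl [(419, .ofNat 1), (421, .ofNat 1)]) te) te) te)))) (tn (tn (tn (tn (tn (tn (tl [(228, .ofNat 2), (229, .ofNat 2), (231, .ofNat 1), (232, .ofNat 1)]) te) te) te) (tn (tn (tn (tl [(398, .ofNat 1), (400, .ofNat 2), (401, .ofNat 2)]) te) (tn (tl [(432, .ofNat 1), (433, .ofNat 1)]) te)) te)) (tn te (tn te (tn te (tn (tl [(434, .ofNat 2)]) te))))) (tn (tn (tn (tn (tn (tl [(312, .ofNat 1), (313, .ofNat 2), (314, .ofNat 2), (315, .ofNat 1), (316, .ofNat 1), (317, .ofNat 1), (318, .ofNat 2), (320, .ofNat 2), (321, .ofNat 1), (322, .ofNat 2), (325, .ofNat 1)]) te) te) te) (tn te (tn te (tn (tl [(434, .ofNat 2)]) te)))) (tn (tn (tn te (tn (tl [(433, .ofNat 1)]) te)) te) te)))) (tn (tn (tn (tn (tn (tn (tn (tl [(194, .ofNat 2), (197,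 .ofNat 1), (199, .ofNat 1)]) te) te) te) (tn (tn (tn (tl [(397, .ofNat 1), (399, .ofNat 1), (400, .ofNat 1), (401, .ofNat 2)]) te) (tn (tl [(432, .ofNat 2), (433, .ofNat 2)]) te)) te)) (tn te (tn te (tn te (tn (tl [(434, .ofNat 1)]) te))))) (tn (tn (tn (tn (tn (tl [(295, .ofNat 1), (297, .ofNat 1), (298, .ofNat 2), (300, .ofNat 1), (301, .ofNat 2), (302, .ofNat 2), (303, .ofNat 1), (305, .ofNat 1), (306, .ofNat 2), (308, .ofNat 2), (311, .ofNat 2)]) te) te) te) (tn te (tn te (tn (tl [(434, .ofNat 2)]) te)))) (tn (tn (tn te (tn (tl [(430, .ofNat 1), (431, .ofNat 2)]) te)) te) (tn (tn (tn (tl [(424, .ofNat 2), (426, .ofNat 2)]) te) te) (tn te (tn (tl [(434, .ofNat 2)]) te)))))) (tn (tn te (tn (tn (tn te (tn (tl [(430, .ofNat 1)]) te)) (tn (tn (tl [(427, .ofNat 2)]) te) te)) (tn (tn (tn (tl [(418, .ofNat 1), (419, .ofNat 2), (420, .ofNat 2)]) te) te) (tn te (tn (tl [(434, .ofNat 2)]) te))))) (tn (tn (tn te (tn (tn (tl [(427, .ofNat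 2)]) te) te)) (tn te (tn te (tn (tl [(434, .ofNat 1)]) te)))) (tn (tn (tn (tn (tl [(392, .ofNat 1), (395, .ofNat 1), (396, .ofNat 1)]) te) (tn (tl [(432, .ofNat 1), (433, .ofNat 2)]) te)) te) (tn te (tn te (tn (tl [(434, .ofNat 1)]) te)))))))))

def r53 : Tr SV := (tn (tn (tn (tn (tn (tn (tn (tn (tn (tl [(119, .ofNat 2), (123, .ofNat 1), (128, .ofNat 1)]) te) te) te) (tn (tn (tn (tl [(392, .ofNat 2), (393, .ofNat 2), (396, .ofNat 2)]) te) (tn (tl [(433, .ofNat 2)]) te)) te)) (tn (tn (tn (tn (tl [(376, .ofNat 1), (378, .ofNat 1), (380, .ofNat 1), (381, .ofNat 1), (382, .ofNat 2), (383, .ofNat 2), (384, .ofNat 2), (385, .ofNat 1)]) te) te) (tn (tn (tl [(427, .ofNat 1)]) te) te)) te)) (tn te (tn (tn (tn te (tn (tl [(430, .ofNat 1), (431, .ofNat 1)]) te)) te) (tn (tn (tn (tl [(420, .ofNat 1), (421, .ofNat 1)]) te) te) te)))) (tn (tn (tn (tn (tn (tn (tl [(220, .ofNat 2), (221, .ofNat 2), (222, .ofNat 1), (223, .ofNat 2), (225, .ofNat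 2)]) te) te) te) (tn (tn (tn (tl [(398, .ofNat 2), (399, .ofNat 1), (400, .ofNat 2), (401, .ofNat 1)]) te) (tn (tl [(432, .ofNat 2)]) te)) te)) (tn (tn (tn te (tn (tl [(430, .ofNat 2)]) te)) (tn (tn (tl [(427, .ofNat 2)]) te) te)) (tn te (tn te (tn (tl [(434, .ofNat 1)]) te))))) (tn (tn (tn (tn (tn (tl [(312, .ofNat 1), (313, .ofNat 2), (314, .ofNat 2), (315, .ofNat 1), (316, .ofNat 1), (319, .ofNat 1), (320, .ofNat 2), (322, .ofNat 2), (325, .ofNat 1)]) te) te) te) (tn te (tn te (tn (tl [(434, .ofNat 1)]) te)))) (tn (tn (tn te (tn (tl [(433, .ofNat 2)]) te)) te) (tn (tn (tn (tl [(423, .ofNat 2), (424, .ofNat 1), (426, .ofNat 1)]) te) te) (tn te (tn (tl [(434, .ofNat 1)]) te))))))) (tn (tn (tn (tn te (tn (tn (tn (tl [(400, .ofNat 1), (401, .ofNat 2)]) te) te) te)) (tn (tn (tn (tn (tl [(386, .ofNat 1)]) te) te) te) te)) (tn (tn (tn (tn (tn (tl [(295, .ofNat 2), (296, .ofNat 2), (297, .ofNat 1), (298, .ofNat 2), (299, .ofNat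 1), (300, .ofNat 2), (301, .ofNat 2), (303, .ofNat 2), (304, .ofNat 2), (305, .ofNat 2), (308, .ofNat 2), (309, .ofNat 2), (311, .ofNat 2)]) te) te) te) (tn te (tn te (tn (tl [(434, .ofNat 2)]) te)))) (tn (tn (tn te (tn (tl [(431, .ofNat 2)]) te)) te) (tn (tn (tn (tl [(424, .ofNat 1), (425, .ofNat 1), (426, .ofNat 1)]) te) te) te)))) (tn (tn (tn te (tn (tn (tn (tl [(397, .ofNat 2), (398, .ofNat 2), (399, .ofNat 1), (400, .ofNat 1), (401, .ofNat 2)]) te) (tn (tl [(432, .ofNat 2), (433, .ofNat 2)]) te)) te)) (tn (tn (tn te (tn (tl [(430, .ofNat 1)]) te)) te) (tn te (tn te (tn (tl [(434, .ofNat 2)]) te))))) (tn te (tn (tn (tn (tn (tl [(392, .ofNat 1), (393, .ofNat 2), (394, .ofNat 1), (396, .ofNat 2)]) te) (tn (tl [(433, .ofNat 2)]) te)) te) (tn te (tn te (tn (tl [(434, .ofNat 1)]) te)))))))) (tn (tn (tn (tn (tn (tn (tn (tn (tl [(131, .ofNat 2), (133, .ofNat 1), (140, .ofNat 1), (142, .ofNat 1), (145, .ofNat 2)]) te) te) te) (tn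 (tn (tn (tl [(393, .ofNat 1), (395, .ofNat 2), (396, .ofNat 2)]) te) (tn (tl [(433, .ofNat 1)]) te)) te)) (tn (tn (tn (tn (tl [(386, .ofNat 1)]) te) te) (tn (tn (tl [(427, .ofNat 2)]) te) te)) te)) (tn (tn te (tn te (tn te (tn (tl [(434, .ofNat 1)]) te)))) (tn (tn (tn te (tn (tl [(431, .ofNat 1)]) te)) te) (tn (tn (tn (tl [(418, .ofNat 2), (419, .ofNat 2), (422, .ofNat 2)]) te) te) (tn te (tn (tl [(434, .ofNat 2)]) te)))))) (tn (tn (tn (tn (tn (tn (tl [(227, .ofNat 2), (228, .ofNat 1), (229, .ofNat 2), (230, .ofNat 2), (232, .ofNat 2)]) te) te) te) (tn (tn (tn (tl [(397, .ofNat 2), (401, .ofNat 2)]) te) (tn (tl [(433, .ofNat 1)]) te)) te)) (tn (tn (tn te (tn (tl [(431, .ofNat 2)]) te)) (tn (tn (tl [(427, .ofNat 1)]) te) te)) (tn te (tn te (tn (tl [(434, .ofNat 1)]) te))))) (tn (tn (tn (tn (tn (tl [(312, .ofNat 1), (315, .ofNat 1), (316, .ofNat 2), (317, .ofNat 1), (318, .ofNat 1), (319, .ofNat 1), (320, .ofNat 2), (321, .ofNat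 2), (322, .ofNat 1), (324, .ofNat 1), (325, .ofNat 2)]) te) te) te) te) (tn (tn (tn te (tn (tl [(432, .ofNat 2), (433, .ofNat 1)]) te)) te) te)))) (tn (tn (tn (tn (tn (tn (tn (tl [(189, .ofNat 2), (192, .ofNat 1), (198, .ofNat 1)]) te) te) te) (tn (tn (tn (tl [(399, .ofNat 1), (400, .ofNat 2), (401, .ofNat 1)]) te) (tn (tl [(432, .ofNat 1), (433, .ofNat 1)]) te)) te)) (tn (tn te (tn (tn (tl [(427, .ofNat 1)]) te) te)) te)) (tn (tn (tn (tn (tn (tl [(292, .ofNat 1), (293, .ofNat 1), (294, .ofNat 2), (295, .ofNat 1), (296, .ofNat 1), (297, .ofNat 1), (298, .ofNat 1), (300, .ofNat 1), (301, .ofNat 1), (303, .ofNat 2), (305, .ofNat 2), (306, .ofNat 2), (308, .ofNat 1), (309, .ofNat 2)]) te) te) te) te) (tn (tn (tn te (tn (tl [(430, .ofNat 2), (431, .ofNat 2)]) te)) te) (tn (tn (tn (tl [(423, .ofNat 1), (425, .ofNat 1)]) te) te) te)))) (tn (tn te (tn (tn te (tn (tn (tl [(427, .ofNat 1)]) te) te)) (tn (tn (tn (tl [(418, .ofNat 1),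 (419, .ofNat 1), (420, .ofNat 2), (421, .ofNat 2), (422, .ofNat 2)]) te) te) te))) (tn (tn (tn te (tn (tn (tl [(427, .ofNat 1)]) te) te)) te) (tn (tn (tn (tn (tl [(393, .ofNat 1), (394, .ofNat 2), (395, .ofNat 1)]) te) (tn (tl [(432, .ofNat 1)]) te)) te) (tn te (tn te (tn (tl [(434, .ofNat 1)]) te)))))))))

def r54 : Tr SV := (tn (tn (tn (tn (tn (tn (tn (tn (tn (tl [(112, .ofNat 2), (117, .ofNat 2), (118, .ofNat 2), (119, .ofNat 1), (120, .ofNat 1), (124, .ofNat 1)]) te) te) te) (tn (tn (tn (tl [(394, .ofNat 1)]) te) (tn (tl [(432, .ofNat 1)]) te)) te)) (tn (tn (tn (tn (tl [(376, .ofNat 1), (380, .ofNat 2), (381, .ofNat 1), (382, .ofNat 2), (383, .ofNat 2), (384, .ofNat 1), (385, .ofNat 2)]) te) te) (tn (tn (tl [(427, .ofNat 2)]) te) te)) te)) (tn te (tn (tn (tn te (tn (tl [(430, .ofNat 1), (431, .ofNat 1)]) te)) te) (tn (tn (tn (tl [(418, .ofNat 1), (419, .ofNat 2), (420, .ofNat 2), (421, .ofNat 1), (422, .ofNat 2)]) te) te)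 te)))) (tn (tn (tn (tn (tn (tn (tl [(221, .ofNat 1), (224, .ofNat 1), (225, .ofNat 2)]) te) te) te) (tn (tn (tn (tl [(398, .ofNat 1), (399, .ofNat 1), (400, .ofNat 2), (401, .ofNat 2)]) te) (tn (tl [(432, .ofNat 2), (433, .ofNat 2)]) te)) te)) (tn (tn (tn te (tn (tl [(430, .ofNat 1), (431, .ofNat 1)]) te)) (tn (tn (tl [(427, .ofNat 2)]) te) te)) (tn te (tn te (tn (tl [(434, .ofNat 2)]) te))))) (tn (tn (tn (tn (tn (tl [(313, .ofNat 1), (314, .ofNat 1), (316, .ofNat 2), (317, .ofNat 2), (318, .ofNat 1), (319, .ofNat 1), (325, .ofNat 2)]) te) te) te) (tn te (tn te (tn (tl [(434, .ofNat 2)]) te)))) (tn (tn (tn te (tn (tl [(432, .ofNat 1)]) te)) te) (tn (tn (tn (tl [(423, .ofNat 1), (424, .ofNat 2), (425, .ofNat 1), (426, .ofNat 1)]) te) te) (tn te (tn (tl [(434, .ofNat 2)]) te))))))) (tn (tn (tn (tn te (tn (tn (tn (tl [(399, .ofNat 2)]) te) (tn (tl [(432, .ofNat 2)]) te)) te)) (tn (tn (tn (tn (tl [(386, .ofNat 2)]) te) te) (tn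 (tn (tl [(427, .ofNat 2)]) te) te)) (tn te (tn te (tn (tl [(434, .ofNat 2)]) te))))) (tn (tn (tn (tn (tn (tl [(293, .ofNat 2), (294, .ofNat 2), (295, .ofNat 1), (296, .ofNat 2), (298, .ofNat 2), (300, .ofNat 1), (302, .ofNat 1), (303, .ofNat 1), (304, .ofNat 1), (305, .ofNat 1), (306, .ofNat 1), (308, .ofNat 2), (309, .ofNat 2), (310, .ofNat 2)]) te) te) te) te) (tn (tn (tn te (tn (tl [(431, .ofNat 1)]) te)) te) (tn (tn (tn (tl [(424, .ofNat 2), (425, .ofNat 2), (426, .ofNat 1)]) te) te) te)))) (tn (tn (tn te (tn (tn (tn (tl [(397, .ofNat 1), (398, .ofNat 2), (399, .ofNat 1), (400, .ofNat 1)]) te) (tn (tl [(432, .ofNat 1), (433, .ofNat 1)]) te)) te)) (tn (tn (tn te (tn (tl [(431, .ofNat 1)]) te)) te) (tn te (tn te (tn (tl [(434, .ofNat 2)]) te))))) (tn te (tn (tn (tn (tn (tl [(393, .ofNat 2), (394, .ofNat 2), (395, .ofNat 2), (396, .ofNat 2)]) te) (tn (tl [(432, .ofNat 2)]) te)) te) te))))) (tn (tn (tn (tn (tn (tn (tn (tn (tl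 [(135, .ofNat 2), (138, .ofNat 1), (140, .ofNat 2), (143, .ofNat 1), (144, .ofNat 2), (145, .ofNat 1), (147, .ofNat 1)]) te) te) te) (tn (tn (tn (tl [(392, .ofNat 1), (393, .ofNat 1), (395, .ofNat 1), (396, .ofNat 1)]) te) (tn (tl [(433, .ofNat 2)]) te)) te)) te) (tn te (tn (tn (tn te (tn (tl [(430, .ofNat 1), (431, .ofNat 1)]) te)) te) (tn (tn (tn (tl [(418, .ofNat 2), (419, .ofNat 1), (421, .ofNat 1), (422, .ofNat 2)]) te) te) te)))) (tn (tn (tn (tn (tn (tn (tl [(227, .ofNat 2), (230, .ofNat 1), (231, .ofNat 2), (232, .ofNat 1)]) te) te) te) (tn (tn (tn (tl [(397, .ofNat 1), (398, .ofNat 1), (400, .ofNat 2)]) te) (tn (tl [(433, .ofNat 2)]) te)) te)) (tn (tn (tn te (tn (tl [(430, .ofNat 1), (431, .ofNat 2)]) te)) (tn (tn (tl [(427, .ofNat 1)]) te) te)) (tn te (tn te (tn (tl [(434, .ofNat 2)]) te))))) (tn (tn (tn (tn (tn (tl [(312, .ofNat 2), (315, .ofNat 2), (316, .ofNat 1), (317, .ofNat 2), (318, .ofNat 1), (319, .ofNat 2),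 (320, .ofNat 1), (321, .ofNat 2), (322, .ofNat 1), (323, .ofNat 2), (324, .ofNat 2)]) te) te) te) te) (tn (tn (tn te (tn (tl [(432, .ofNat 1), (433, .ofNat 1)]) te)) te) te)))) (tn (tn (tn (tn (tn (tn (tn (tl [(189, .ofNat 2), (192, .ofNat 1), (194, .ofNat 2), (195, .ofNat 1), (199, .ofNat 1)]) te) te) te) (tn (tn (tn (tl [(398, .ofNat 2), (399, .ofNat 2), (401, .ofNat 1)]) te) (tn (tl [(432, .ofNat 2), (433, .ofNat 1)]) te)) te)) (tn (tn te (tn (tn (tl [(427, .ofNat 1)]) te) te)) te)) (tn (tn (tn (tn (tn (tl [(292, .ofNat 2), (293, .ofNat 2), (294, .ofNat 1), (295, .ofNat 2), (296, .ofNat 2), (297, .ofNat 1), (300, .ofNat 1), (301, .ofNat 2), (302, .ofNat 2), (303, .ofNat 1), (304, .ofNat 2), (305, .ofNat 1), (307, .ofNat 2), (308, .ofNat 2), (309, .ofNat 2), (310, .ofNat 2), (311, .ofNat 1)]) te) te) te) (tn te (tn te (tn (tl [(434, .ofNat 1)]) te)))) (tn (tn (tn te (tn (tl [(431, .ofNat 2)]) te)) te) (tn (tn (tn (tl [(425,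 .ofNat 1)]) te) te) (tn te (tn (tl [(434, .ofNat 1)]) te)))))) (tn (tn te (tn (tn (tn te (tn (tl [(431, .ofNat 2)]) te)) (tn (tn (tl [(427, .ofNat 1)]) te) te)) (tn (tn (tn (tl [(418, .ofNat 1), (420, .ofNat 1)]) te) te) te))) (tn te (tn (tn (tn (tn (tl [(392, .ofNat 1), (393, .ofNat 1), (394, .ofNat 2), (395, .ofNat 1), (396, .ofNat 1)]) te) (tn (tl [(432, .ofNat 1), (433, .ofNat 1)]) te)) te) (tn te (tn te (tn (tl [(434, .ofNat 1)]) te)))))))))

def r55 : Tr SV := (tn (tn (tn (tn (tn (tn (tn (tn (tn (tl [(148, .ofNat 1), (150, .ofNat 2), (151, .ofNat 1), (153, .ofNat 2), (155, .ofNat 1)]) te) (tn (tl [(430, .ofNat 2), (431, .ofNat 1)]) te)) te) (tn te (tn (tn (tl [(428, .ofNat 2), (429, .ofNat 2)]) te) te))) (tn (tn (tn te (tn (tl [(432, .ofNat 1), (433, .ofNat 2)]) te)) te) (tn (tn (tn (tl [(418, .ofNat 1), (419, .ofNat 2), (420, .ofNat 2), (421, .ofNat 2), (422, .ofNat 2)]) te) te) (tn (tn (tl [(430, .ofNat 2)]) te) te))))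 (tn (tn (tn (tn (tn (tl [(292, .ofNat 2), (293, .ofNat 2), (295, .ofNat 2), (297, .ofNat 1), (299, .ofNat 2), (300, .ofNat 2), (301, .ofNat 2), (303, .ofNat 2), (304, .ofNat 1), (306, .ofNat 1), (309, .ofNat 2), (310, .ofNat 2), (311, .ofNat 2)]) te) (tn (tl [(432, .ofNat 2)]) te)) te) (tn (tn (tn (tl [(412, .ofNat 2)]) te) te) (tn te (tn (tl [(434, .ofNat 2)]) te)))) (tn (tn (tn (tn (tl [(392, .ofNat 2), (393, .ofNat 1), (395, .ofNat 2), (396, .ofNat 2)]) te) te) te) (tn te (tn (tn (tl [(430, .ofNat 1), (431, .ofNat 1)]) te) te))))) (tn (tn (tn (tn (tn te (tn (tl [(432, .ofNat 1)]) te)) te) (tn (tn (tn (tl [(405, .ofNat 2)]) te) te) (tn (tn (tl [(428, .ofNat 2), (429, .ofNat 2)]) te) te))) (tn (tn (tn (tn (tl [(390, .ofNat 2)]) te) te) te) (tn (tn (tn (tl [(418, .ofNat 1), (419, .ofNat 2), (420, .ofNat 1), (421, .ofNat 2), (422, .ofNat 2)]) te) te) (tn (tn (tl [(430, .ofNat 1), (431, .ofNat 2)]) te) te)))) (tn (tn (tn (tn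 (tn (tl [(338, .ofNat 2), (339, .ofNat 2), (340, .ofNat 2), (342, .ofNat 2), (344, .ofNat 1), (346, .ofNat 1), (349, .ofNat 1), (353, .ofNat 2)]) te) (tn (tl [(432, .ofNat 2), (433, .ofNat 1)]) te)) (tn (tn (tl [(427, .ofNat 2)]) te) te)) (tn (tn (tn (tl [(414, .ofNat 1), (415, .ofNat 1)]) te) te) te)) (tn (tn (tn (tn (tl [(398, .ofNat 1)]) te) te) (tn (tn (tl [(428, .ofNat 1), (429, .ofNat 1)]) te) te)) (tn te (tn (tn (tl [(430, .ofNat 2), (431, .ofNat 2)]) te) te)))))) (tn (tn (tn (tn (tn (tn (tn (tl [(182, .ofNat 2)]) te) (tn (tl [(432, .ofNat 1)]) te)) te) (tn (tn (tn (tl [(402, .ofNat 2), (404, .ofNat 2), (405, .ofNat 2), (406, .ofNat 1), (408, .ofNat 1)]) te) te) (tn (tn (tl [(428, .ofNat 2)]) te) te))) (tn te (tn (tn (tn (tl [(418, .ofNat 1), (420, .ofNat 2), (421, .ofNat 1)]) te) te) (tn (tn (tl [(430, .ofNat 1)]) te) te)))) (tn (tn (tn (tn (tn (tl [(327, .ofNat 1), (332, .ofNat 1), (334, .ofNat 2), (337, .ofNat 1)])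 te) (tn (tl [(432, .ofNat 1)]) te)) (tn (tn (tl [(427, .ofNat 2)]) te) te)) te) (tn (tn (tn (tn (tl [(398, .ofNat 2), (399, .ofNat 1), (400, .ofNat 2), (401, .ofNat 1)]) te) te) (tn (tn (tl [(428, .ofNat 2)]) te) te)) (tn te (tn (tn (tl [(430, .ofNat 2), (431, .ofNat 2)]) te) te))))) (tn (tn (tn (tn (tn (tn (tl [(265, .ofNat 1), (274, .ofNat 2)]) te) (tn (tl [(432, .ofNat 1), (433, .ofNat 2)]) te)) te) (tn (tn (tn (tl [(403, .ofNat 2), (404, .ofNat 1), (405, .ofNat 2), (406, .ofNat 2)]) te) te) (tn te (tn (tl [(434, .ofNat 2)]) te)))) (tn te (tn (tn (tn (tl [(419, .ofNat 2), (421, .ofNat 1)]) te) te) (tn (tn (tl [(431, .ofNat 2)]) te) te)))) (tn (tn (tn (tn (tn (tl [(364, .ofNat 2), (365, .ofNat 1), (367, .ofNat 1), (368, .ofNat 2), (371, .ofNat 1), (372, .ofNat 1), (373, .ofNat 1), (374, .ofNat 2)]) te) (tn (tl [(432, .ofNat 1)]) te)) (tn (tn (tl [(427, .ofNat 2)]) te) te)) (tn (tn (tn (tl [(415, .ofNat 2), (416, .ofNat 1),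 (417, .ofNat 1)]) te) te) te)) (tn (tn te (tn (tn (tl [(428, .ofNat 1), (429, .ofNat 1)]) te) te)) (tn te (tn (tn (tl [(430, .ofNat 2), (431, .ofNat 1)]) te) te))))))) (tn (tn (tn (tn (tn (tn (tn (tn (tl [(163, .ofNat 2)]) te) (tn (tl [(431, .ofNat 1)]) te)) te) (tn te (tn (tn (tl [(428, .ofNat 1)]) te) te))) (tn te (tn (tn (tn (tl [(418, .ofNat 1), (419, .ofNat 2), (421, .ofNat 2)]) te) te) (tn (tn (tl [(431, .ofNat 2)]) te) te)))) (tn (tn (tn (tn (tn (tl [(293, .ofNat 1), (295, .ofNat 2), (296, .ofNat 2), (297, .ofNat 2), (302, .ofNat 1), (304, .ofNat 2), (306, .ofNat 1), (307, .ofNat 2), (308, .ofNat 2), (309, .ofNat 1)]) te) (tn (tl [(432, .ofNat 1), (433, .ofNat 2)]) te)) te) (tn (tn (tn (tl [(409, .ofNat 1), (411, .ofNat 2), (412, .ofNat 1), (413, .ofNat 1)]) te) te) te)) (tn (tn (tn (tn (tl [(393, .ofNat 1), (394, .ofNat 2), (395, .ofNat 2), (396, .ofNat 1)]) te) te) te) (tn te (tn (tn (tl [(430, .ofNat 1), (431, .ofNat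 1)]) te) te))))) (tn (tn (tn (tn (tn (tn (tl [(235, .ofNat 2), (236, .ofNat 1), (239, .ofNat 1), (241, .ofNat 2), (242, .ofNat 1), (243, .ofNat 1), (244, .ofNat 1), (245, .ofNat 1), (246, .ofNat 1), (249, .ofNat 2), (250, .ofNat 1), (251, .ofNat 2), (252, .ofNat 1), (253, .ofNat 2), (254, .ofNat 1), (255, .ofNat 2), (257, .ofNat 2)]) te) (tn (tl [(432, .ofNat 1), (433, .ofNat 2)]) te)) te) (tn (tn (tn (tl [(402, .ofNat 2), (403, .ofNat 1), (405, .ofNat 2), (406, .ofNat 2), (407, .ofNat 1), (408, .ofNat 1)]) te) te) (tn te (tn (tl [(434, .ofNat 2)]) te)))) (tn te (tn (tn (tn (tl [(418, .ofNat 2), (419, .ofNat 2), (421, .ofNat 2), (422, .ofNat 1)]) te) te) te))) (tn (tn (tn (tn (tn (tl [(338, .ofNat 1), (343, .ofNat 2)]) te) (tn (tl [(433, .ofNat 1)]) te)) te) (tn (tn (tn (tl [(414, .ofNat 2), (417, .ofNat 1)]) te) te) te)) (tn (tn (tn (tn (tl [(397, .ofNat 1), (398, .ofNat 2), (400, .ofNat 2)]) te) te) (tn (tn (tl [(428, .ofNat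 1), (429, .ofNat 1)]) te) te)) (tn te (tn (tn (tl [(430, .ofNat 2)]) te) te)))))) (tn (tn (tn (tn (tn (tn (tn (tl [(201, .ofNat 1)]) te) (tn (tl [(432, .ofNat 2), (433, .ofNat 1)]) te)) te) (tn (tn (tn (tl [(402, .ofNat 1), (404, .ofNat 2), (406, .ofNat 2), (407, .ofNat 2), (408, .ofNat 2)]) te) te) (tn (tn (tl [(428, .ofNat 2), (429, .ofNat 1)]) te) (tn (tl [(434, .ofNat 2)]) te)))) (tn (tn (tn (tn (tl [(387, .ofNat 2), (388, .ofNat 1), (389, .ofNat 1), (390, .ofNat 2), (391, .ofNat 2)]) te) (tn (tl [(432, .ofNat 1)]) te)) te) (tn (tn (tn (tl [(418, .ofNat 2), (419, .ofNat 2), (421, .ofNat 2), (422, .ofNat 1)]) te) te) (tn (tn (tl [(430, .ofNat 2), (431, .ofNat 1)]) te) te)))) (tn (tn (tn (tn (tn (tl [(329, .ofNat 1), (332, .ofNat 1)]) te) te) (tn (tn (tl [(427, .ofNat 2)]) te) te)) (tn (tn (tn (tl [(415, .ofNat 1), (417, .ofNat 2)]) te) te) te)) (tn (tn (tn (tn (tl [(397, .ofNat 2), (401, .ofNat 1)]) te) te) (tn (tn (tl [(428,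 .ofNat 1), (429, .ofNat 2)]) te) te)) (tn te (tn (tn (tl [(430, .ofNat 1), (431, .ofNat 1)]) te) te))))) (tn (tn (tn (tn (tn (tn (tl [(278, .ofNat 1), (279, .ofNat 1), (280, .ofNat 1), (282, .ofNat 1), (283, .ofNat 2), (284, .ofNat 2), (286, .ofNat 2), (288, .ofNat 1), (290, .ofNat 2)]) te) (tn (tl [(432, .ofNat 1), (433, .ofNat 1)]) te)) te) (tn (tn (tn (tl [(409, .ofNat 1), (411, .ofNat 2), (412, .ofNat 2), (413, .ofNat 1)]) te) te) (tn te (tn (tl [(434, .ofNat 2)]) te)))) (tn (tn (tn (tn (tl [(392, .ofNat 2), (393, .ofNat 1), (395, .ofNat 2), (396, .ofNat 1)]) te) te) te) (tn te (tn (tn (tl [(430, .ofNat 2), (431, .ofNat 2)]) te) te)))) (tn (tn (tn (tn (tn (tl [(364, .ofNat 1), (365, .ofNat 2), (366, .ofNat 1), (367, .ofNat 1), (368, .ofNat 1), (369, .ofNat 2), (370, .ofNat 2), (371, .ofNat 2), (372, .ofNat 1), (373, .ofNat 1)]) te) (tn (tl [(432, .ofNat 1), (433, .ofNat 2)]) te)) te) (tn (tn (tn (tl [(414, .ofNat 1), (415,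 .ofNat 1), (416, .ofNat 1)]) te) te) te)) (tn (tn te (tn (tn (tl [(429, .ofNat 2)]) te) te)) (tn te (tn (tn (tl [(431, .ofNat 2)]) te) te))))))))

def r56 : Tr SV := (tn (tn (tn (tn (tn (tn (tn (tn (tn (tl [(149, .ofNat 1)]) te) (tn (tl [(430, .ofNat 1)]) te)) te) (tn te (tn (tn (tl [(428, .ofNat 1), (429, .ofNat 1)]) te) te))) (tn (tn (tn te (tn (tl [(432, .ofNat 1), (433, .ofNat 2)]) te)) te) (tn (tn (tn (tl [(418, .ofNat 1), (422, .ofNat 1)]) te) te) (tn (tn (tl [(430, .ofNat 2), (431, .ofNat 2)]) te) te)))) (tn (tn (tn (tn (tn (tl [(292, .ofNat 2), (294, .ofNat 2), (296, .ofNat 1), (298, .ofNat 1), (299, .ofNat 1), (300, .ofNat 2), (302, .ofNat 1), (304, .ofNat 1), (305, .ofNat 1), (306, .ofNat 2), (307, .ofNat 1), (309, .ofNat 1), (310, .ofNat 1)]) te) te) te) (tn (tn (tn (tl [(411, .ofNat 1), (412, .ofNat 1)]) te) te) te)) (tn (tn (tn (tn (tl [(393, .ofNat 2), (394, .ofNat 2)]) te) te) te) (tn te (tn (tn (tl [(430, .ofNat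 1), (431, .ofNat 1)]) te) te))))) (tn (tn (tn (tn (tn te (tn (tl [(433, .ofNat 1)]) te)) te) (tn (tn (tn (tl [(403, .ofNat 1), (405, .ofNat 2), (406, .ofNat 2), (407, .ofNat 1)]) te) te) (tn (tn (tl [(429, .ofNat 2)]) te) te))) (tn (tn (tn (tn (tl [(387, .ofNat 1), (388, .ofNat 2), (389, .ofNat 2), (390, .ofNat 1), (391, .ofNat 1)]) te) te) te) (tn (tn (tn (tl [(418, .ofNat 1), (420, .ofNat 1), (422, .ofNat 1)]) te) te) te))) (tn (tn (tn (tn (tn (tl [(341, .ofNat 1)]) te) te) te) (tn (tn (tn (tl [(415, .ofNat 2)]) te) te) te)) (tn (tn (tn (tn (tl [(399, .ofNat 2), (400, .ofNat 2), (401, .ofNat 1)]) te) te) te) te)))) (tn (tn (tn (tn (tn (tn (tn (tl [(176, .ofNat 1)]) te) (tn (tl [(432, .ofNat 2), (433, .ofNat 1)]) te)) te) (tn (tn (tn (tl [(402, .ofNat 2), (403, .ofNat 1), (404, .ofNat 2), (406, .ofNat 2), (407, .ofNat 2)]) te) te) (tn (tn (tl [(428, .ofNat 1), (429, .ofNat 1)]) te) te))) (tn te (tn (tn (tn (tl [(418, .ofNat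 2)]) te) te) (tn (tn (tl [(430, .ofNat 2)]) te) te)))) (tn (tn (tn (tn (tn (tl [(330, .ofNat 1)]) te) (tn (tl [(432, .ofNat 2), (433, .ofNat 1)]) te)) te) (tn (tn (tn (tl [(409, .ofNat 2), (411, .ofNat 2), (412, .ofNat 1)]) te) te) te)) (tn (tn (tn (tn (tl [(399, .ofNat 1), (400, .ofNat 1), (401, .ofNat 2)]) te) te) (tn (tn (tl [(428, .ofNat 1), (429, .ofNat 2)]) te) te)) (tn te (tn (tn (tl [(430, .ofNat 2)]) te) te))))) (tn (tn (tn (tn (tn (tn (tl [(258, .ofNat 2), (259, .ofNat 2), (260, .ofNat 2), (261, .ofNat 1), (262, .ofNat 1), (265, .ofNat 2), (267, .ofNat 2), (268, .ofNat 2), (269, .ofNat 2), (270, .ofNat 1), (271, .ofNat 1), (275, .ofNat 2), (276, .ofNat 1), (277, .ofNat 1)]) te) te) te) (tn (tn (tn (tl [(404, .ofNat 2), (405, .ofNat 1), (406, .ofNat 1), (407, .ofNat 1), (408, .ofNat 1)]) te) te) te)) (tn te (tn (tn (tn (tl [(420, .ofNat 1), (422, .ofNat 1)]) te) te) (tn (tn (tl [(430, .ofNat 1)]) te) te)))) (tn (tn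 (tn (tn (tn (tl [(364, .ofNat 1), (365, .ofNat 1), (366, .ofNat 1), (367, .ofNat 1), (368, .ofNat 2), (369, .ofNat 1), (372, .ofNat 1), (374, .ofNat 2)]) te) (tn (tl [(432, .ofNat 1), (433, .ofNat 2)]) te)) te) (tn (tn (tn (tl [(414, .ofNat 1), (415, .ofNat 1), (416, .ofNat 2)]) te) te) te)) (tn (tn te (tn (tn (tl [(428, .ofNat 1)]) te) te)) (tn te (tn (tn (tl [(431, .ofNat 2)]) te) te))))))) (tn (tn (tn (tn (tn (tn (tn (tn (tl [(157, .ofNat 1)]) te) (tn (tl [(430, .ofNat 1)]) te)) te) (tn te (tn (tn (tl [(428, .ofNat 1), (429, .ofNat 2)]) te) te))) (tn te (tn (tn (tn (tl [(418, .ofNat 2), (419, .ofNat 1), (422, .ofNat 2)]) te) te) (tn (tn (tl [(431, .ofNat 1)]) te) te)))) (tn (tn (tn (tn (tn (tl [(293, .ofNat 2), (295, .ofNat 1), (297, .ofNat 2), (298, .ofNat 2), (299, .ofNat 1), (304, .ofNat 1), (305, .ofNat 1), (307, .ofNat 1), (308, .ofNat 1), (309, .ofNat 1), (311, .ofNat 1)]) te) (tn (tl [(432, .ofNat 2), (433, .ofNat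 1)]) te)) te) (tn (tn (tn (tl [(411, .ofNat 1), (412, .ofNat 2)]) te) te) te)) (tn (tn (tn (tn (tl [(392, .ofNat 2), (393, .ofNat 2), (394, .ofNat 1), (395, .ofNat 2), (396, .ofNat 2)]) te) te) te) (tn te (tn (tn (tl [(430, .ofNat 2), (431, .ofNat 1)]) te) te))))) (tn (tn (tn (tn (tn (tn (tl [(234, .ofNat 2), (235, .ofNat 1), (239, .ofNat 2), (240, .ofNat 2), (241, .ofNat 1), (242, .ofNat 2), (243, .ofNat 2), (246, .ofNat 2), (247, .ofNat 1), (248, .ofNat 2), (249, .ofNat 2), (250, .ofNat 1), (251, .ofNat 1), (253, .ofNat 2), (254, .ofNat 1), (255, .ofNat 2), (257, .ofNat 2)]) te) (tn (tl [(432, .ofNat 2)]) te)) te) (tn (tn (tn (tl [(402, .ofNat 2), (403, .ofNat 1), (407, .ofNat 2)]) te) te) te)) (tn te (tn (tn (tn (tl [(418, .ofNat 2), (419, .ofNat 1), (420, .ofNat 2), (421, .ofNat 1), (422, .ofNat 2)]) te) te) (tn (tn (tl [(430, .ofNat 1), (431, .ofNat 1)]) te) te)))) (tn (tn (tn (tn (tn (tl [(342, .ofNat 1)]) te) (tn (tl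 [(433, .ofNat 1)]) te)) te) (tn (tn (tn (tl [(414, .ofNat 2), (417, .ofNat 1)]) te) te) te)) (tn (tn (tn (tn (tl [(397, .ofNat 2), (398, .ofNat 2), (401, .ofNat 1)]) te) te) (tn (tn (tl [(428, .ofNat 2), (429, .ofNat 1)]) te) te)) te)))) (tn (tn (tn (tn (tn (tn (tn (tl [(202, .ofNat 1)]) te) (tn (tl [(432, .ofNat 1), (433, .ofNat 2)]) te)) te) (tn (tn (tn (tl [(402, .ofNat 1), (403, .ofNat 2), (404, .ofNat 1), (406, .ofNat 2), (407, .ofNat 1)]) te) te) (tn (tn (tl [(428, .ofNat 2), (429, .ofNat 2)]) te) te))) (tn (tn (tn (tn (tl [(387, .ofNat 2), (388, .ofNat 1), (389, .ofNat 1), (390, .ofNat 2), (391, .ofNat 2)]) te) te) te) (tn (tn (tn (tl [(420, .ofNat 2), (421, .ofNat 2), (422, .ofNat 1)]) te) te) te))) (tn (tn (tn (tn te (tn (tl [(432, .ofNat 1), (433, .ofNat 2)]) te)) te) (tn (tn (tn (tl [(414, .ofNat 1), (416, .ofNat 2)]) te) te) te)) (tn (tn (tn (tn (tl [(399, .ofNat 2), (400, .ofNat 2), (401, .ofNat 1)]) te) te) (tn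 (tn (tl [(429, .ofNat 2)]) te) te)) (tn te (tn (tn (tl [(430, .ofNat 2)]) te) te))))) (tn (tn (tn (tn (tn (tn (tl [(278, .ofNat 2), (279, .ofNat 1), (280, .ofNat 1), (282, .ofNat 2), (284, .ofNat 1), (286, .ofNat 1), (288, .ofNat 1), (289, .ofNat 2), (290, .ofNat 2), (291, .ofNat 2)]) te) (tn (tl [(432, .ofNat 1), (433, .ofNat 2)]) te)) te) (tn (tn (tn (tl [(409, .ofNat 1), (410, .ofNat 1), (411, .ofNat 2)]) te) te) te)) (tn (tn (tn (tn (tl [(392, .ofNat 2), (393, .ofNat 2), (394, .ofNat 1), (395, .ofNat 2), (396, .ofNat 2)]) te) te) te) (tn te (tn (tn (tl [(431, .ofNat 1)]) te) te)))) (tn (tn (tn (tn (tn (tl [(364, .ofNat 2), (365, .ofNat 2), (367, .ofNat 2), (368, .ofNat 1), (371, .ofNat 1), (372, .ofNat 2), (373, .ofNat 2), (374, .ofNat 1)]) te) (tn (tl [(432, .ofNat 2), (433, .ofNat 1)]) te)) te) (tn (tn (tn (tl [(414, .ofNat 2), (415, .ofNat 1), (416, .ofNat 2), (417, .ofNat 2)]) te) te) te)) (tn (tn te (tn (tn (tl [(429,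 .ofNat 2)]) te) te)) (tn te (tn (tn (tl [(430, .ofNat 2)]) te) te))))))))

def r57 : Tr SV := (tn (tn (tn (tn (tn (tn (tn (tn (tn (tl [(150, .ofNat 1), (151, .ofNat 2), (152, .ofNat 1), (153, .ofNat 1), (155, .ofNat 2)]) te) (tn (tl [(430, .ofNat 2)]) te)) te) (tn te (tn (tn (tl [(429, .ofNat 1)]) te) te))) (tn (tn (tn te (tn (tl [(432, .ofNat 1), (433, .ofNat 2)]) te)) te) (tn (tn (tn (tl [(419, .ofNat 1), (422, .ofNat 1)]) te) te) (tn (tn (tl [(431, .ofNat 2)]) te) te)))) (tn (tn (tn (tn (tn (tl [(293, .ofNat 1), (294, .ofNat 1), (295, .ofNat 2), (297, .ofNat 1), (299, .ofNat 1), (300, .ofNat 2), (301, .ofNat 1), (303, .ofNat 1), (306, .ofNat 1), (307, .ofNat 2), (308, .ofNat 1), (310, .ofNat 1)]) te) (tn (tl [(432, .ofNat 1)]) te)) te) (tn (tn (tn (tl [(409, .ofNat 2), (410, .ofNat 2), (411, .ofNat 2), (412, .ofNat 2), (413, .ofNat 2)]) te) te) (tn te (tn (tl [(434, .ofNat 1)]) te)))) (tn (tn (tn (tn (tl [(393, .ofNat 2),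 (394, .ofNat 2), (396, .ofNat 2)]) te) te) te) (tn te (tn (tn (tl [(430, .ofNat 1)]) te) te))))) (tn (tn (tn (tn (tn te (tn (tl [(432, .ofNat 2)]) te)) te) (tn (tn (tn (tl [(402, .ofNat 1), (404, .ofNat 1), (405, .ofNat 2), (406, .ofNat 1), (407, .ofNat 1)]) te) te) te)) (tn (tn (tn (tn (tl [(387, .ofNat 1), (388, .ofNat 2), (389, .ofNat 1), (391, .ofNat 2)]) te) te) te) (tn (tn (tn (tl [(419, .ofNat 1), (420, .ofNat 2), (422, .ofNat 2)]) te) te) (tn (tn (tl [(431, .ofNat 1)]) te) te)))) (tn (tn (tn (tn (tn (tl [(338, .ofNat 2), (347, .ofNat 1), (350, .ofNat 1)]) te) (tn (tl [(432, .ofNat 1), (433, .ofNat 2)]) te)) te) (tn (tn (tn (tl [(414, .ofNat 1), (417, .ofNat 1)]) te) te) te)) (tn (tn (tn (tn (tl [(397, .ofNat 2), (398, .ofNat 2), (399, .ofNat 2), (400, .ofNat 1), (401, .ofNat 1)]) te) te) (tn (tn (tl [(428, .ofNat 2), (429, .ofNat 1)]) te) te)) (tn te (tn (tn (tl [(430, .ofNat 1), (431, .ofNat 2)]) te) te)))))) (tn (tn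 (tn (tn (tn (tn (tn (tl [(180, .ofNat 1), (182, .ofNat 1)]) te) (tn (tl [(432, .ofNat 2)]) te)) te) (tn (tn (tn (tl [(402, .ofNat 1), (403, .ofNat 1), (404, .ofNat 1), (405, .ofNat 1), (407, .ofNat 1), (408, .ofNat 2)]) te) te) (tn (tn (tl [(428, .ofNat 1), (429, .ofNat 2)]) te) te))) (tn (tn (tn te (tn (tl [(433, .ofNat 2)]) te)) te) (tn (tn (tn (tl [(419, .ofNat 1), (420, .ofNat 1), (421, .ofNat 1), (422, .ofNat 1)]) te) te) (tn (tn (tl [(430, .ofNat 1)]) te) te)))) (tn (tn (tn (tn (tn (tl [(332, .ofNat 2), (333, .ofNat 1), (334, .ofNat 1), (337, .ofNat 2)]) te) (tn (tl [(432, .ofNat 1)]) te)) te) (tn (tn (tn (tl [(410, .ofNat 2), (411, .ofNat 1)]) te) te) te)) (tn (tn (tn (tn (tl [(397, .ofNat 1), (398, .ofNat 1), (399, .ofNat 2), (401, .ofNat 2)]) te) te) (tn (tn (tl [(428, .ofNat 2), (429, .ofNat 2)]) te) te)) (tn te (tn (tn (tl [(430, .ofNat 1), (431, .ofNat 1)]) te) te))))) (tn (tn (tn (tn (tn (tn (tl [(259, .ofNat 2),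 (260, .ofNat 2), (262, .ofNat 1), (264, .ofNat 2), (265, .ofNat 1), (268, .ofNat 2), (269, .ofNat 1), (270, .ofNat 1), (273, .ofNat 2), (275, .ofNat 1)]) te) (tn (tl [(432, .ofNat 1), (433, .ofNat 2)]) te)) te) (tn (tn (tn (tl [(403, .ofNat 1), (406, .ofNat 2), (408, .ofNat 2)]) te) te) (tn te (tn (tl [(434, .ofNat 1)]) te)))) (tn te (tn (tn (tn (tl [(418, .ofNat 2), (420, .ofNat 1), (422, .ofNat 2)]) te) te) (tn (tn (tl [(430, .ofNat 2), (431, .ofNat 2)]) te) te)))) (tn (tn (tn (tn (tn (tl [(365, .ofNat 1), (366, .ofNat 1), (367, .ofNat 1), (369, .ofNat 2), (370, .ofNat 2), (371, .ofNat 1)]) te) (tn (tl [(432, .ofNat 2)]) te)) te) (tn (tn (tn (tl [(414, .ofNat 1)]) te) te) te)) (tn (tn te (tn (tn (tl [(429, .ofNat 1)]) te) te)) (tn te (tn (tn (tl [(431, .ofNat 1)]) te) te))))))) (tn (tn (tn (tn (tn (tn (tn (tn (tl [(161, .ofNat 1), (163, .ofNat 1)]) te) (tn (tl [(430, .ofNat 2), (431, .ofNat 1)]) te)) te) (tn te (tn (tn (tl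 [(429, .ofNat 1)]) te) te))) (tn te (tn (tn (tn (tl [(418, .ofNat 1), (419, .ofNat 1), (421, .ofNat 1)]) te) te) (tn (tn (tl [(431, .ofNat 2)]) te) te)))) (tn (tn (tn (tn (tn (tl [(293, .ofNat 2), (297, .ofNat 2), (299, .ofNat 1), (300, .ofNat 1), (301, .ofNat 2), (302, .ofNat 1), (303, .ofNat 2), (304, .ofNat 2), (305, .ofNat 1), (306, .ofNat 2), (307, .ofNat 2), (308, .ofNat 2), (309, .ofNat 1), (310, .ofNat 1), (311, .ofNat 2)]) te) (tn (tl [(432, .ofNat 2), (433, .ofNat 1)]) te)) te) (tn (tn (tn (tl [(410, .ofNat 2), (411, .ofNat 1), (412, .ofNat 1), (413, .ofNat 2)]) te) te) te)) (tn (tn (tn (tn (tl [(392, .ofNat 2), (394, .ofNat 1), (395, .ofNat 1)]) te) te) te) (tn te (tn (tn (tl [(431, .ofNat 2)]) te) te))))) (tn (tn (tn (tn (tn (tn (tl [(234, .ofNat 1), (235, .ofNat 2), (236, .ofNat 2), (237, .ofNat 1), (238, .ofNat 2), (239, .ofNat 2), (244, .ofNat 2), (245, .ofNat 1), (246, .ofNat 1), (247, .ofNat 1), (248, .ofNat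 2), (249, .ofNat 1), (250, .ofNat 1), (251, .ofNat 2), (252, .ofNat 1), (253, .ofNat 2), (254, .ofNat 2), (255, .ofNat 1)]) te) (tn (tl [(433, .ofNat 2)]) te)) te) (tn (tn (tn (tl [(402, .ofNat 1), (403, .ofNat 1), (404, .ofNat 1), (405, .ofNat 1), (406, .ofNat 1)]) te) te) (tn te (tn (tl [(434, .ofNat 1)]) te)))) (tn te (tn (tn (tn (tl [(419, .ofNat 2), (422, .ofNat 1)]) te) te) (tn (tn (tl [(430, .ofNat 1), (431, .ofNat 1)]) te) te)))) (tn (tn (tn (tn (tn (tl [(343, .ofNat 1), (348, .ofNat 1)]) te) (tn (tl [(432, .ofNat 2)]) te)) te) (tn (tn (tn (tl [(414, .ofNat 2)]) te) te) te)) (tn (tn (tn (tn (tl [(397, .ofNat 2), (398, .ofNat 2), (399, .ofNat 2)]) te) te) (tn (tn (tl [(429, .ofNat 2)]) te) te)) te)))) (tn (tn (tn (tn (tn (tn (tn (tl [(203, .ofNat 1)]) te) te) te) (tn (tn (tn (tl [(402, .ofNat 2), (404, .ofNat 2), (405, .ofNat 1), (406, .ofNat 2), (407, .ofNat 2), (408, .ofNat 1)]) te) te) (tn (tn (tl [(428, .ofNat 1)])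 te) (tn (tl [(434, .ofNat 1)]) te)))) (tn (tn (tn (tn (tl [(387, .ofNat 1), (390, .ofNat 2)]) te) (tn (tl [(432, .ofNat 2), (433, .ofNat 1)]) te)) te) (tn (tn (tn (tl [(418, .ofNat 2), (419, .ofNat 1), (421, .ofNat 2)]) te) te) (tn (tn (tl [(430, .ofNat 2), (431, .ofNat 1)]) te) te)))) (tn (tn (tn (tn (tn (tl [(328, .ofNat 1), (329, .ofNat 2), (332, .ofNat 2), (334, .ofNat 1)]) te) (tn (tl [(433, .ofNat 2)]) te)) te) (tn (tn (tn (tl [(417, .ofNat 1)]) te) te) te)) (tn (tn (tn (tn (tl [(397, .ofNat 1), (398, .ofNat 2), (399, .ofNat 1), (400, .ofNat 1), (401, .ofNat 1)]) te) te) (tn (tn (tl [(428, .ofNat 2)]) te) te)) (tn te (tn (tn (tl [(430, .ofNat 1), (431, .ofNat 2)]) te) te))))) (tn (tn (tn (tn (tn (tn (tl [(279, .ofNat 2), (281, .ofNat 1), (283, .ofNat 2), (284, .ofNat 1), (285, .ofNat 2), (286, .ofNat 2), (287, .ofNat 1), (289, .ofNat 1), (290, .ofNat 1), (291, .ofNat 1)]) te) (tn (tl [(432, .ofNat 1)]) te)) te) (tn (tn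 (tn (tl [(409, .ofNat 1), (410, .ofNat 2), (411, .ofNat 2), (412, .ofNat 1)]) te) te) (tn te (tn (tl [(434, .ofNat 1)]) te)))) (tn (tn (tn (tn (tl [(392, .ofNat 2), (393, .ofNat 1), (396, .ofNat 2)]) te) te) te) (tn te (tn (tn (tl [(430, .ofNat 1)]) te) te)))) (tn (tn (tn (tn (tn (tl [(364, .ofNat 2), (366, .ofNat 1), (367, .ofNat 2), (369, .ofNat 2), (372, .ofNat 2), (373, .ofNat 2)]) te) (tn (tl [(432, .ofNat 2), (433, .ofNat 1)]) te)) te) (tn (tn (tn (tl [(414, .ofNat 2), (415, .ofNat 2), (416, .ofNat 2), (417, .ofNat 1)]) te) te) te)) (tn (tn te (tn (tn (tl [(428, .ofNat 1)]) te) te)) te))))))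

def r58 : Tr SV := (tn (tn (tn (tn (tn (tn (tn (tn (tn (tl [(156, .ofNat 1), (163, .ofNat 2)]) te) (tn (tl [(433, .ofNat 1)]) te)) te) (tn (tn (tn (tl [(402, .ofNat 1), (403, .ofNat 2), (404, .ofNat 1), (405, .ofNat 2), (406, .ofNat 1), (407, .ofNat 2), (408, .ofNat 2)]) te) te) te)) (tn (tn te (tn (tn (tl [(428, .ofNat 2), (429, .ofNat 1)]) te) te)) (tn (tn (tn (tl [(423, .ofNat 1), (424, .ofNat 2)]) te) te) (tn (tn (tl [(432, .ofNat 1), (433, .ofNat 2)]) te) te)))) (tn (tn (tn (tn (tn (tl [(313, .ofNat 1), (315, .ofNat 1), (317, .ofNat 2), (319, .ofNat 1), (321, .ofNat 2), (322, .ofNat 2), (325, .ofNat 1)]) te) te) (tn (tn (tl [(427, .ofNat 2)]) te) te)) (tn te (tn (tn (tl [(430, .ofNat 2), (431, .ofNat 1)]) te) te))) (tn (tn (tn (tn (tl [(399, .ofNat 2), (400, .ofNat 2), (401, .ofNat 1)]) te) te) (tn (tn (tl [(428, .ofNat 2), (429, .ofNat 2)]) te) te)) (tn te (tn (tn (tl [(432, .ofNat 2), (433, .ofNat 1)]) te) te))))) (tn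 (tn (tn (tn (tn (tn (tl [(233, .ofNat 2), (234, .ofNat 2), (238, .ofNat 1), (239, .ofNat 1), (242, .ofNat 1), (243, .ofNat 2), (244, .ofNat 2), (245, .ofNat 2), (246, .ofNat 2), (248, .ofNat 1), (252, .ofNat 2), (253, .ofNat 2), (254, .ofNat 2), (255, .ofNat 1), (256, .ofNat 2)]) te) te) (tn (tn (tl [(427, .ofNat 2)]) te) te)) (tn (tn (tn (tl [(409, .ofNat 1), (410, .ofNat 2), (411, .ofNat 1), (412, .ofNat 2), (413, .ofNat 2)]) te) te) te)) (tn (tn te (tn (tn (tl [(428, .ofNat 2), (429, .ofNat 2)]) te) te)) (tn (tn (tn (tl [(423, .ofNat 1), (424, .ofNat 1), (425, .ofNat 1)]) te) te) (tn (tn (tl [(433, .ofNat 2)]) te) te)))) (tn (tn (tn (tn (tn (tl [(356, .ofNat 1), (360, .ofNat 2), (363, .ofNat 1)]) te) te) te) (tn (tn (tn (tl [(420, .ofNat 2)]) te) te) (tn (tn (tl [(430, .ofNat 1)]) te) te))) (tn (tn te (tn te (tn (tl [(434, .ofNat 1)]) te))) (tn te (tn (tn (tl [(433, .ofNat 1)]) te) te)))))) (tn (tn (tn (tn (tn (tn (tn (tl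 [(186, .ofNat 1), (189, .ofNat 2), (192, .ofNat 1), (194, .ofNat 2), (199, .ofNat 1)]) te) te) te) (tn (tn (tn (tl [(409, .ofNat 1), (410, .ofNat 2), (411, .ofNat 1), (413, .ofNat 1)]) te) te) te)) (tn (tn (tn (tn (tl [(387, .ofNat 2), (389, .ofNat 1), (390, .ofNat 2), (391, .ofNat 1)]) te) te) (tn (tn (tl [(428, .ofNat 1), (429, .ofNat 2)]) te) te)) (tn (tn (tn (tl [(423, .ofNat 2), (426, .ofNat 2)]) te) te) (tn (tn (tl [(432, .ofNat 2), (433, .ofNat 1)]) te) te)))) (tn (tn (tn (tn (tn (tl [(338, .ofNat 1), (339, .ofNat 1), (350, .ofNat 2)]) te) te) te) (tn te (tn (tn (tl [(430, .ofNat 1)]) te) te))) (tn te (tn te (tn (tn (tl [(432, .ofNat 1), (433, .ofNat 2)]) te) te))))) (tn (tn (tn (tn te (tn (tn (tl [(427, .ofNat 2)]) te) te)) (tn (tn (tn (tl [(409, .ofNat 2), (410, .ofNat 2), (412, .ofNat 2)]) te) te) (tn (tn (tl [(430, .ofNat 2)]) te) te))) (tn (tn (tn (tn (tl [(392, .ofNat 2), (393, .ofNat 1), (395, .ofNat 2)]) te)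 te) (tn (tn (tl [(428, .ofNat 2), (429, .ofNat 2)]) te) te)) (tn (tn (tn (tl [(424, .ofNat 2), (425, .ofNat 2)]) te) te) (tn (tn (tl [(432, .ofNat 1), (433, .ofNat 1)]) te) te)))) (tn (tn (tn (tn (tn (tl [(375, .ofNat 1), (376, .ofNat 2), (377, .ofNat 2), (378, .ofNat 2), (379, .ofNat 1), (380, .ofNat 2), (381, .ofNat 2), (382, .ofNat 2), (384, .ofNat 2), (385, .ofNat 1)]) te) te) te) (tn (tn (tn (tl [(418, .ofNat 2), (421, .ofNat 2)]) te) te) (tn (tn (tl [(430, .ofNat 1), (431, .ofNat 1)]) te) te))) (tn (tn (tn (tn (tl [(402, .ofNat 2), (403, .ofNat 1), (404, .ofNat 2), (405, .ofNat 1), (406, .ofNat 2), (407, .ofNat 2)]) te) te) te) (tn te (tn (tn (tl [(432, .ofNat 1), (433, .ofNat 2)]) te) te))))))) (tn (tn (tn (tn (tn (tn (tn (tn (tl [(167, .ofNat 1), (169, .ofNat 2), (170, .ofNat 1), (172, .ofNat 2), (174, .ofNat 1)]) te) (tn (tl [(432, .ofNat 1), (433, .ofNat 1)]) te)) te) (tn (tn (tn (tl [(403, .ofNat 1), (406, .ofNat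 1), (408, .ofNat 1)]) te) te) (tn te (tn (tl [(434, .ofNat 1)]) te)))) (tn (tn (tn (tn (tl [(387, .ofNat 1), (389, .ofNat 1), (390, .ofNat 2), (391, .ofNat 2)]) te) te) (tn (tn (tl [(429, .ofNat 2)]) te) te)) (tn (tn (tn (tl [(423, .ofNat 1), (425, .ofNat 1)]) te) te) te))) (tn (tn (tn (tn (tn (tl [(312, .ofNat 1), (313, .ofNat 2), (314, .ofNat 1), (315, .ofNat 2), (317, .ofNat 1), (318, .ofNat 1), (319, .ofNat 2), (321, .ofNat 1), (322, .ofNat 2), (323, .ofNat 1), (325, .ofNat 1)]) te) te) te) (tn te (tn (tn (tl [(430, .ofNat 1), (431, .ofNat 2)]) te) te))) (tn (tn (tn (tn (tl [(397, .ofNat 1), (398, .ofNat 2), (399, .ofNat 2), (400, .ofNat 1), (401, .ofNat 1)]) te) te) (tn (tn (tl [(428, .ofNat 2), (429, .ofNat 2)]) te) te)) (tn te (tn (tn (tl [(432, .ofNat 2), (433, .ofNat 1)]) te) te))))) (tn (tn (tn (tn (tn (tn (tl [(258, .ofNat 1), (259, .ofNat 2), (260, .ofNat 1), (263, .ofNat 1), (265, .ofNat 2), (267, .ofNat 1), (268,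 .ofNat 1), (271, .ofNat 2), (272, .ofNat 1), (273, .ofNat 1), (275, .ofNat 1), (276, .ofNat 1)]) te) te) (tn (tn (tl [(427, .ofNat 1)]) te) te)) (tn (tn (tn (tl [(409, .ofNat 1), (410, .ofNat 1), (412, .ofNat 1), (413, .ofNat 1)]) te) te) (tn (tn (tl [(430, .ofNat 1)]) te) te))) (tn (tn (tn (tn (tl [(394, .ofNat 1), (396, .ofNat 1)]) te) te) (tn (tn (tl [(428, .ofNat 2), (429, .ofNat 2)]) te) te)) (tn (tn (tn (tl [(423, .ofNat 2), (424, .ofNat 2), (425, .ofNat 1), (426, .ofNat 2)]) te) te) (tn (tn (tl [(432, .ofNat 2), (433, .ofNat 2)]) te) te)))) (tn (tn (tn (tn (tn (tl [(356, .ofNat 2), (357, .ofNat 1), (358, .ofNat 1), (359, .ofNat 1), (361, .ofNat 1), (362, .ofNat 1), (363, .ofNat 2)]) te) te) te) (tn (tn (tn (tl [(418, .ofNat 1), (419, .ofNat 1), (420, .ofNat 2), (421, .ofNat 2)]) te) te) (tn (tn (tl [(431, .ofNat 1)]) te) te))) (tn (tn te (tn te (tn (tl [(434, .ofNat 2)]) te))) (tn te (tn (tn (tl [(432, .ofNat 2)]) te)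 te)))))) (tn (tn (tn (tn (tn (tn (tn (tl [(205, .ofNat 1)]) te) te) te) (tn (tn (tn (tl [(409, .ofNat 2), (410, .ofNat 1), (411, .ofNat 1), (412, .ofNat 2)]) te) te) te)) (tn (tn te (tn (tn (tl [(428, .ofNat 1), (429, .ofNat 1)]) te) te)) (tn (tn (tn (tl [(425, .ofNat 2), (426, .ofNat 1)]) te) te) (tn (tn (tl [(432, .ofNat 2)]) te) te)))) (tn (tn (tn (tn (tn (tl [(340, .ofNat 1), (343, .ofNat 2)]) te) te) te) (tn (tn (tn (tl [(420, .ofNat 2), (421, .ofNat 1)]) te) te) (tn (tn (tl [(431, .ofNat 2)]) te) te))) (tn te (tn te (tn (tn (tl [(433, .ofNat 2)]) te) te))))) (tn (tn (tn (tn (tn (tn (tl [(292, .ofNat 2), (293, .ofNat 2), (294, .ofNat 2), (295, .ofNat 1), (296, .ofNat 1), (297, .ofNat 1), (298, .ofNat 1), (301, .ofNat 1), (303, .ofNat 2), (304, .ofNat 2), (305, .ofNat 1), (306, .ofNat 1), (307, .ofNat 1), (308, .ofNat 2), (309, .ofNat 2), (311, .ofNat 2)]) te) te) te) (tn te (tn (tn (tl [(430, .ofNat 2)]) te) te))) (tn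 (tn (tn (tn (tl [(398, .ofNat 1), (400, .ofNat 1), (401, .ofNat 2)]) te) te) (tn (tn (tl [(428, .ofNat 2), (429, .ofNat 2)]) te) te)) (tn te (tn (tn (tl [(432, .ofNat 2)]) te) te)))) (tn (tn (tn (tn (tn (tl [(375, .ofNat 2), (376, .ofNat 1), (380, .ofNat 2), (381, .ofNat 2), (382, .ofNat 1), (385, .ofNat 2)]) te) te) (tn (tn (tl [(429, .ofNat 2)]) te) te)) (tn (tn (tn (tl [(420, .ofNat 1)]) te) te) (tn (tn (tl [(431, .ofNat 2)]) te) te))) (tn (tn (tn (tn (tl [(402, .ofNat 2), (403, .ofNat 1), (404, .ofNat 1), (405, .ofNat 2), (408, .ofNat 2)]) te) te) te) te))))))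

def r59 : Tr SV := (tn (tn (tn (tn (tn (tn (tn (tn (tn (tl [(159, .ofNat 1)]) te) te) te) (tn (tn (tn (tl [(402, .ofNat 1), (406, .ofNat 2), (407, .ofNat 2)]) te) te) te)) (tn te (tn (tn (tn (tl [(423, .ofNat 1), (424, .ofNat 1), (425, .ofNat 2)]) te) te) (tn (tn (tl [(432, .ofNat 1)]) te) te)))) (tn (tn (tn (tn (tn (tl [(314, .ofNat 1), (315, .ofNat 2), (316, .ofNat 2), (319, .ofNat 1), (322, .ofNat 1)]) te) te) te) te) (tn (tn (tn (tn (tl [(397, .ofNat 1), (398, .ofNat 1), (399, .ofNat 2), (400, .ofNat 2)]) te) te) te) te))) (tn (tn (tn (tn (tn (tn (tl [(235, .ofNat 1)]) te) te) te) (tn (tn (tn (tl [(409, .ofNat 2), (410, .ofNat 1), (413, .ofNat 2)]) te) te) te)) (tn te (tn (tn (tn (tl [(423, .ofNat 2), (424, .ofNat 1)]) te) te) (tn (tn (tl [(432, .ofNat 2), (433, .ofNat 1)]) te) te)))) (tn (tn (tn (tn (tn (tl [(356, .ofNat 1)]) te) te) te) (tn (tn (tn (tl [(422, .ofNat 2)]) te) te) te)) (tn te (tn te (tn (tn (tl [(432,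 .ofNat 1)]) te) te)))))) (tn (tn (tn (tn (tn (tn (tn (tl [(188, .ofNat 1)]) te) te) te) (tn (tn (tn (tl [(411, .ofNat 1), (412, .ofNat 1), (413, .ofNat 1)]) te) te) te)) (tn (tn (tn (tn (tl [(387, .ofNat 1), (388, .ofNat 1), (390, .ofNat 1), (391, .ofNat 1)]) te) te) te) (tn (tn (tn (tl [(423, .ofNat 2), (424, .ofNat 1)]) te) te) (tn (tn (tl [(432, .ofNat 2), (433, .ofNat 1)]) te) te)))) (tn (tn (tn (tn (tn (tl [(344, .ofNat 1)]) te) te) te) (tn te (tn (tn (tl [(430, .ofNat 2)]) te) te))) (tn te (tn te (tn (tn (tl [(432, .ofNat 2), (433, .ofNat 2)]) te) te))))) (tn (tn (tn te (tn (tn (tn (tl [(410, .ofNat 1), (411, .ofNat 2), (412, .ofNat 2), (413, .ofNat 1)]) te) te) (tn (tn (tl [(430, .ofNat 2)]) te) te))) (tn (tn (tn (tn (tl [(392, .ofNat 2), (394, .ofNat 2), (395, .ofNat 2), (396, .ofNat 2)]) te) te) te) (tn (tn (tn (tl [(423, .ofNat 1), (425, .ofNat 1)]) te) te) (tn (tn (tl [(432, .ofNat 2), (433, .ofNat 1)]) te) te))))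 (tn (tn (tn (tn (tn (tl [(375, .ofNat 1), (376, .ofNat 1), (377, .ofNat 1), (378, .ofNat 1), (379, .ofNat 1), (380, .ofNat 1), (382, .ofNat 2), (383, .ofNat 1), (384, .ofNat 1), (385, .ofNat 1)]) te) te) te) (tn (tn (tn (tl [(418, .ofNat 1), (419, .ofNat 2), (421, .ofNat 2), (422, .ofNat 1)]) te) te) (tn (tn (tl [(431, .ofNat 1)]) te) te))) (tn (tn (tn (tn (tl [(402, .ofNat 2), (406, .ofNat 2), (407, .ofNat 2)]) te) te) te) (tn te (tn (tn (tl [(432, .ofNat 2), (433, .ofNat 1)]) te) te))))))) (tn (tn (tn (tn (tn (tn (tn (tn (tl [(168, .ofNat 1)]) te) (tn (tl [(433, .ofNat 2)]) te)) te) (tn (tn (tn (tl [(402, .ofNat 2), (403, .ofNat 2), (404, .ofNat 2), (405, .ofNat 2), (406, .ofNat 2), (407, .ofNat 2), (408, .ofNat 1)]) te) te) te)) (tn (tn (tn (tn (tl [(387, .ofNat 2), (388, .ofNat 1), (389, .ofNat 1), (390, .ofNat 2), (391, .ofNat 2)]) te) te) te) (tn (tn (tn (tl [(424, .ofNat 2)]) te) te) te))) (tn (tn (tn (tn (tn (tl [(312,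 .ofNat 1), (315, .ofNat 1), (318, .ofNat 2), (319, .ofNat 1), (320, .ofNat 2), (321, .ofNat 2)]) te) te) te) te) (tn (tn (tn (tn (tl [(397, .ofNat 1), (398, .ofNat 1), (401, .ofNat 2)]) te) te) (tn (tn (tl [(428, .ofNat 2), (429, .ofNat 2)]) te) te)) te))) (tn (tn (tn (tn (tn (tn (tl [(258, .ofNat 1), (259, .ofNat 2), (260, .ofNat 2), (263, .ofNat 2), (264, .ofNat 1), (265, .ofNat 2), (266, .ofNat 2), (267, .ofNat 2), (269, .ofNat 2), (270, .ofNat 2), (271, .ofNat 1), (272, .ofNat 1), (273, .ofNat 1), (274, .ofNat 1), (275, .ofNat 2), (276, .ofNat 2), (277, .ofNat 2)]) te) te) te) (tn (tn (tn (tl [(409, .ofNat 1), (410, .ofNat 1), (411, .ofNat 1), (412, .ofNat 1), (413, .ofNat 2)]) te) te) (tn (tn (tl [(430, .ofNat 2), (431, .ofNat 1)]) te) te))) (tn (tn (tn (tn (tl [(393, .ofNat 2), (394, .ofNat 2), (395, .ofNat 2), (396, .ofNat 2)]) te) te) (tn (tn (tl [(429, .ofNat 2)]) te) te)) (tn (tn (tn (tl [(425, .ofNat 1), (426, .ofNat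 1)]) te) te) (tn (tn (tl [(433, .ofNat 2)]) te) te)))) (tn (tn te (tn (tn (tn (tl [(418, .ofNat 2), (419, .ofNat 1), (421, .ofNat 1)]) te) te) (tn (tn (tl [(431, .ofNat 1)]) te) te))) (tn te (tn te (tn (tn (tl [(432, .ofNat 1), (433, .ofNat 1)]) te) te)))))) (tn (tn (tn (tn (tn (tn (tn (tl [(206, .ofNat 1)]) te) te) te) (tn (tn (tn (tl [(409, .ofNat 1), (410, .ofNat 1), (412, .ofNat 1), (413, .ofNat 1)]) te) te) te)) (tn (tn te (tn (tn (tl [(428, .ofNat 2), (429, .ofNat 2)]) te) te)) te)) (tn (tn (tn (tn (tn (tl [(345, .ofNat 1)]) te) te) te) (tn (tn (tn (tl [(418, .ofNat 2), (419, .ofNat 1), (421, .ofNat 2), (422, .ofNat 2)]) te) te) (tn (tn (tl [(430, .ofNat 2), (431, .ofNat 2)]) te) te))) (tn te (tn te (tn (tn (tl [(432, .ofNat 1), (433, .ofNat 2)]) te) te))))) (tn (tn (tn (tn (tn (tn (tl [(292, .ofNat 2), (293, .ofNat 1), (295, .ofNat 1), (296, .ofNat 2), (297, .ofNat 2), (298, .ofNat 1), (299, .ofNat 1), (300, .ofNat 2),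 (301, .ofNat 2), (307, .ofNat 2), (308, .ofNat 1), (310, .ofNat 1)]) te) te) te) (tn te (tn (tn (tl [(430, .ofNat 1)]) te) te))) (tn (tn (tn (tn (tl [(397, .ofNat 2), (398, .ofNat 2), (399, .ofNat 2), (400, .ofNat 2), (401, .ofNat 2)]) te) te) (tn (tn (tl [(429, .ofNat 1)]) te) te)) te)) (tn (tn (tn (tn (tn (tl [(375, .ofNat 1), (377, .ofNat 2), (378, .ofNat 2), (380, .ofNat 2), (381, .ofNat 2), (384, .ofNat 2), (385, .ofNat 1)]) te) te) (tn (tn (tl [(428, .ofNat 1), (429, .ofNat 2)]) te) te)) (tn (tn (tn (tl [(419, .ofNat 1), (420, .ofNat 1), (421, .ofNat 1), (422, .ofNat 2)]) te) te) (tn (tn (tl [(431, .ofNat 2)]) te) te))) (tn (tn (tn (tn (tl [(404, .ofNat 2), (406, .ofNat 1)]) te) te) te) (tn te (tn (tn (tl [(432, .ofNat 1), (433, .ofNat 2)]) te) te))))))))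

def r60 : Tr SV := (tn (tn (tn (tn (tn (tn (tn (tn (tn (tl [(163, .ofNat 1), (164, .ofNat 1)]) te) (tn (tl [(432, .ofNat 2)]) te)) te) (tn (tn (tn (tl [(402, .ofNat 2), (404, .ofNat 2), (406, .ofNat 2), (408, .ofNat 2)]) te) te) te)) (tn (tn te (tn (tn (tl [(428, .ofNat 1)]) te) te)) (tn (tn (tn (tl [(423, .ofNat 2), (424, .ofNat 2), (425, .ofNat 1)]) te) te) (tn (tn (tl [(432, .ofNat 1), (433, .ofNat 2)]) te) te)))) (tn (tn (tn (tn (tn (tl [(312, .ofNat 2), (313, .ofNat 2), (315, .ofNat 1), (316, .ofNat 1), (317, .ofNat 2), (318, .ofNat 1), (319, .ofNat 2), (321, .ofNat 1), (323, .ofNat 2)]) te) te) (tn (tn (tl [(427, .ofNat 2)]) te) te)) (tn te (tn (tn (tl [(431, .ofNat 2)]) te) te))) (tn (tn (tn (tn (tl [(397, .ofNat 1), (399, .ofNat 1), (400, .ofNat 1), (401, .ofNat 1)]) te) te) (tn (tn (tl [(428, .ofNat 1), (429, .ofNat 1)]) te) te)) te))) (tn (tn (tn (tn (tn (tn (tl [(234, .ofNat 1), (235, .ofNat 1), (237, .ofNat 1),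 (238, .ofNat 2), (239, .ofNat 2), (241, .ofNat 2), (242, .ofNat 1), (243, .ofNat 1), (245, .ofNat 2), (247, .ofNat 1), (248, .ofNat 2), (249, .ofNat 2), (251, .ofNat 1), (252, .ofNat 2), (253, .ofNat 1), (257, .ofNat 2)]) te) te) te) (tn (tn (tn (tl [(409, .ofNat 1), (410, .ofNat 1), (411, .ofNat 1), (412, .ofNat 2)]) te) te) te)) (tn (tn te (tn (tn (tl [(428, .ofNat 1), (429, .ofNat 2)]) te) te)) (tn (tn (tn (tl [(423, .ofNat 2), (424, .ofNat 2), (425, .ofNat 2), (426, .ofNat 1)]) te) te) (tn (tn (tl [(432, .ofNat 2), (433, .ofNat 2)]) te) te)))) (tn (tn (tn (tn (tn (tl [(358, .ofNat 2), (359, .ofNat 1), (360, .ofNat 1), (363, .ofNat 2)]) te) te) te) (tn (tn (tn (tl [(418, .ofNat 1), (419, .ofNat 2), (421, .ofNat 1), (422, .ofNat 2)]) te) te) (tn (tn (tl [(430, .ofNat 1), (431, .ofNat 2)]) te) te))) (tn (tn te (tn te (tn (tl [(434, .ofNat 1)]) te))) (tn te (tn (tn (tl [(433, .ofNat 2)]) te) te)))))) (tn (tn (tn (tn (tn (tn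 (tn (tl [(189, .ofNat 1), (192, .ofNat 2), (193, .ofNat 1), (194, .ofNat 1), (199, .ofNat 2)]) te) te) te) (tn (tn (tn (tl [(411, .ofNat 1), (412, .ofNat 1), (413, .ofNat 1)]) te) te) te)) (tn (tn (tn (tn (tl [(387, .ofNat 2), (389, .ofNat 2), (390, .ofNat 1)]) te) te) (tn (tn (tl [(428, .ofNat 2), (429, .ofNat 1)]) te) te)) (tn (tn (tn (tl [(425, .ofNat 2), (426, .ofNat 1)]) te) te) (tn (tn (tl [(432, .ofNat 1), (433, .ofNat 2)]) te) te)))) (tn (tn (tn (tn (tn (tl [(338, .ofNat 2), (350, .ofNat 1), (351, .ofNat 1)]) te) te) te) te) (tn te (tn te (tn (tn (tl [(432, .ofNat 2), (433, .ofNat 2)]) te) te))))) (tn (tn (tn (tn te (tn (tn (tl [(427, .ofNat 2)]) te) te)) (tn (tn (tn (tl [(409, .ofNat 1), (410, .ofNat 2), (411, .ofNat 1)]) te) te) te)) (tn (tn (tn (tn (tl [(392, .ofNat 2), (393, .ofNat 1), (394, .ofNat 1), (395, .ofNat 1), (396, .ofNat 2)]) te) te) (tn (tn (tl [(428, .ofNat 1), (429, .ofNat 1)]) te) te)) (tn (tn (tn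 (tl [(425, .ofNat 2)]) te) te) (tn (tn (tl [(432, .ofNat 1)]) te) te)))) (tn (tn (tn (tn (tn (tl [(375, .ofNat 1), (377, .ofNat 1), (378, .ofNat 1), (379, .ofNat 2), (380, .ofNat 2), (381, .ofNat 2), (384, .ofNat 1)]) te) te) te) (tn (tn (tn (tl [(418, .ofNat 1), (419, .ofNat 2), (420, .ofNat 1), (421, .ofNat 2)]) te) te) (tn (tn (tl [(431, .ofNat 1)]) te) te))) (tn (tn (tn (tn (tl [(403, .ofNat 2), (406, .ofNat 1), (407, .ofNat 2), (408, .ofNat 2)]) te) te) (tn te (tn (tl [(434, .ofNat 2)]) te))) (tn te (tn (tn (tl [(433, .ofNat 2)]) te) te))))))) (tn (tn (tn (tn (tn (tn (tn (tn (tl [(169, .ofNat 1), (170, .ofNat 2), (171, .ofNat 1), (172, .ofNat 1), (174, .ofNat 2)]) te) (tn (tl [(432, .ofNat 2), (433, .ofNat 1)]) te)) te) (tn (tn (tn (tl [(403, .ofNat 2), (405, .ofNat 2), (407, .ofNat 1), (408, .ofNat 2)]) te) te) (tn te (tn (tl [(434, .ofNat 2)]) te)))) (tn (tn (tn (tn (tl [(387, .ofNat 2), (388, .ofNat 2), (389, .ofNat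 2), (390, .ofNat 2), (391, .ofNat 2)]) te) te) (tn (tn (tl [(428, .ofNat 1), (429, .ofNat 1)]) te) te)) (tn (tn (tn (tl [(423, .ofNat 2), (424, .ofNat 2), (425, .ofNat 1)]) te) te) (tn (tn (tl [(432, .ofNat 2), (433, .ofNat 1)]) te) te)))) (tn (tn (tn (tn (tn (tl [(312, .ofNat 1), (313, .ofNat 2), (314, .ofNat 1), (318, .ofNat 2), (319, .ofNat 2), (320, .ofNat 2), (321, .ofNat 2), (322, .ofNat 2), (323, .ofNat 1), (325, .ofNat 1)]) te) te) te) (tn te (tn (tn (tl [(431, .ofNat 1)]) te) te))) (tn (tn (tn (tn (tl [(397, .ofNat 2), (398, .ofNat 2), (399, .ofNat 2), (400, .ofNat 2), (401, .ofNat 2)]) te) te) (tn (tn (tl [(429, .ofNat 2)]) te) te)) (tn te (tn (tn (tl [(432, .ofNat 2), (433, .ofNat 1)]) te) te))))) (tn (tn (tn (tn (tn (tn (tl [(259, .ofNat 2), (260, .ofNat 1), (261, .ofNat 1), (264, .ofNat 1), (265, .ofNat 2), (267, .ofNat 2), (268, .ofNat 2), (269, .ofNat 2), (270, .ofNat 2), (271, .ofNat 2), (272, .ofNat 2), (273,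 .ofNat 2), (274, .ofNat 2), (277, .ofNat 2)]) te) te) (tn (tn (tl [(427, .ofNat 1)]) te) te)) (tn (tn (tn (tl [(411, .ofNat 2), (412, .ofNat 2)]) te) te) te)) (tn (tn (tn (tn (tl [(392, .ofNat 1), (395, .ofNat 1), (396, .ofNat 2)]) te) te) (tn (tn (tl [(428, .ofNat 2), (429, .ofNat 2)]) te) te)) (tn (tn (tn (tl [(423, .ofNat 1), (424, .ofNat 1), (425, .ofNat 2), (426, .ofNat 2)]) te) te) (tn (tn (tl [(432, .ofNat 1), (433, .ofNat 2)]) te) te)))) (tn (tn (tn (tn (tn (tl [(355, .ofNat 1), (356, .ofNat 1), (357, .ofNat 2), (358, .ofNat 2), (359, .ofNat 2), (360, .ofNat 1), (361, .ofNat 2), (362, .ofNat 2), (363, .ofNat 1)]) te) te) te) (tn (tn (tn (tl [(419, .ofNat 2), (420, .ofNat 2), (421, .ofNat 1), (422, .ofNat 1)]) te) te) (tn (tn (tl [(430, .ofNat 1)]) te) te))) (tn (tn te (tn te (tn (tl [(434, .ofNat 1)]) te))) (tn te (tn (tn (tl [(432, .ofNat 2), (433, .ofNat 2)]) te) te)))))) (tn (tn (tn (tn (tn (tn (tn (tl [(207, .ofNat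 1)]) te) te) te) (tn (tn (tn (tl [(409, .ofNat 2), (410, .ofNat 1), (411, .ofNat 1), (412, .ofNat 2), (413, .ofNat 2)]) te) te) te)) (tn (tn te (tn (tn (tl [(428, .ofNat 1), (429, .ofNat 1)]) te) te)) (tn (tn (tn (tl [(423, .ofNat 1), (424, .ofNat 2), (426, .ofNat 2)]) te) te) (tn (tn (tl [(433, .ofNat 1)]) te) te)))) (tn (tn (tn (tn (tn (tl [(343, .ofNat 1), (352, .ofNat 1)]) te) te) te) (tn (tn (tn (tl [(418, .ofNat 2), (419, .ofNat 2), (420, .ofNat 2), (422, .ofNat 1)]) te) te) (tn (tn (tl [(430, .ofNat 2)]) te) te))) (tn te (tn te (tn (tn (tl [(432, .ofNat 2), (433, .ofNat 2)]) te) te))))) (tn (tn (tn (tn (tn (tn (tl [(292, .ofNat 2), (293, .ofNat 1), (294, .ofNat 2), (295, .ofNat 2), (296, .ofNat 1), (298, .ofNat 1), (300, .ofNat 2), (303, .ofNat 2), (305, .ofNat 1), (306, .ofNat 1), (307, .ofNat 2), (308, .ofNat 1), (309, .ofNat 1), (310, .ofNat 1)]) te) te) (tn (tn (tl [(427, .ofNat 2)]) te) te)) (tn te (tn (tn (tl [(430,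 .ofNat 2), (431, .ofNat 2)]) te) te))) (tn (tn (tn (tn (tl [(397, .ofNat 2), (398, .ofNat 1), (400, .ofNat 1), (401, .ofNat 1)]) te) te) te) (tn te (tn (tn (tl [(433, .ofNat 1)]) te) te)))) (tn (tn (tn (tn (tn (tl [(376, .ofNat 2), (380, .ofNat 2), (381, .ofNat 2), (382, .ofNat 1), (383, .ofNat 1), (384, .ofNat 2), (385, .ofNat 2)]) te) te) te) (tn (tn (tn (tl [(418, .ofNat 1), (420, .ofNat 1), (421, .ofNat 2), (422, .ofNat 1)]) te) te) (tn (tn (tl [(430, .ofNat 1)]) te) te))) (tn (tn (tn (tn (tl [(403, .ofNat 2), (404, .ofNat 2), (405, .ofNat 1), (406, .ofNat 2), (408, .ofNat 1)]) te) te) (tn te (tn (tl [(434, .ofNat 2)]) te))) (tn te (tn (tn (tl [(432, .ofNat 1)]) te) te))))))))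

def r61 : Tr SV := (tn (tn (tn (tn (tn (tn (tn (tn (tn (tl [(175, .ofNat 1), (182, .ofNat 2)]) te) te) te) (tn (tn (tn (tl [(414, .ofNat 1), (415, .ofNat 2)]) te) te) (tn (tn (tl [(432, .ofNat 2), (433, .ofNat 2)]) te) te))) (tn (tn te (tn (tn (tl [(430, .ofNat 1)]) te) te)) te)) (tn (tn te (tn (tn (tn (tl [(423, .ofNat 1), (424, .ofNat 2), (425, .ofNat 2), (426, .ofNat 2)]) te) te) te)) (tn (tn te (tn te (tn (tl [(434, .ofNat 2)]) te))) te))) (tn (tn (tn (tn (tn (tn (tl [(278, .ofNat 1), (279, .ofNat 1), (282, .ofNat 1), (284, .ofNat 2), (285, .ofNat 1), (287, .ofNat 1), (288, .ofNat 2), (289, .ofNat 2), (290, .ofNat 2), (291, .ofNat 1)]) te) te) te) (tn (tn (tn (tl [(418, .ofNat 1), (419, .ofNat 2), (421, .ofNat 2), (422, .ofNat 1)]) te) te) te)) (tn (tn (tn (tn (tl [(397, .ofNat 2), (398, .ofNat 1), (400, .ofNat 1)]) te) te) te) te)) (tn (tn (tn (tn (tn (tl [(375, .ofNat 1), (376, .ofNat 1), (377, .ofNat 1), (379, .ofNat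 2), (381, .ofNat 2), (382, .ofNat 1), (383, .ofNat 1), (384, .ofNat 2), (385, .ofNat 2)]) te) te) te) te) (tn (tn te (tn (tn (tl [(432, .ofNat 1), (433, .ofNat 1)]) te) te)) te)))) (tn (tn (tn (tn (tn te (tn (tn (tl [(427, .ofNat 1)]) te) te)) (tn (tn (tn (tl [(418, .ofNat 2), (419, .ofNat 2), (420, .ofNat 1)]) te) te) (tn (tn (tl [(433, .ofNat 1)]) te) te))) (tn (tn (tn (tn (tl [(392, .ofNat 1), (393, .ofNat 2), (394, .ofNat 1)]) te) te) (tn (tn (tl [(430, .ofNat 2)]) te) te)) te)) (tn (tn (tn (tn (tn (tl [(364, .ofNat 2), (365, .ofNat 1), (366, .ofNat 1), (368, .ofNat 2), (369, .ofNat 2), (370, .ofNat 2), (373, .ofNat 2), (374, .ofNat 1)]) te) te) te) te) (tn (tn te (tn (tn (tl [(432, .ofNat 1), (433, .ofNat 2)]) te) te)) te))) (tn (tn (tn (tn (tn (tn (tl [(312, .ofNat 2), (314, .ofNat 1), (315, .ofNat 2), (316, .ofNat 1), (317, .ofNat 1), (318, .ofNat 1), (319, .ofNat 2), (324, .ofNat 2), (325, .ofNat 2)]) te) te) te) (tn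 (tn (tn (tl [(418, .ofNat 2), (420, .ofNat 2), (421, .ofNat 1), (422, .ofNat 2)]) te) te) te)) (tn (tn te (tn (tn (tl [(431, .ofNat 1)]) te) te)) te)) (tn te (tn (tn (tn (tn (tl [(414, .ofNat 2), (416, .ofNat 1), (417, .ofNat 1)]) te) te) te) te))))) (tn (tn (tn (tn (tn (tn (tn (tn (tl [(187, .ofNat 1), (189, .ofNat 2), (192, .ofNat 1), (194, .ofNat 2), (199, .ofNat 1)]) te) te) (tn (tn (tl [(427, .ofNat 1)]) te) te)) (tn (tn (tn (tl [(415, .ofNat 1), (416, .ofNat 1), (417, .ofNat 2)]) te) te) (tn (tn (tl [(432, .ofNat 2), (433, .ofNat 1)]) te) te))) (tn (tn (tn (tn (tl [(392, .ofNat 2), (393, .ofNat 2), (394, .ofNat 2), (395, .ofNat 2)]) te) te) (tn (tn (tl [(430, .ofNat 1), (431, .ofNat 1)]) te) te)) te)) (tn (tn te (tn (tn (tn (tl [(424, .ofNat 2), (425, .ofNat 1), (426, .ofNat 1)]) te) te) te)) (tn (tn te (tn (tn (tl [(431, .ofNat 2)]) te) (tn (tl [(434, .ofNat 2)]) te))) te))) (tn (tn (tn (tn (tn (tn (tl [(292, .ofNat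 2), (294, .ofNat 2), (295, .ofNat 2), (297, .ofNat 2), (298, .ofNat 1), (299, .ofNat 1), (300, .ofNat 1), (301, .ofNat 1), (303, .ofNat 1), (306, .ofNat 2), (307, .ofNat 2), (308, .ofNat 2), (309, .ofNat 1), (310, .ofNat 1), (311, .ofNat 1)]) te) te) te) (tn (tn (tn (tl [(418, .ofNat 2), (419, .ofNat 2), (420, .ofNat 1), (421, .ofNat 1), (422, .ofNat 1)]) te) te) te)) (tn (tn te (tn (tn (tl [(431, .ofNat 2)]) te) (tn (tl [(434, .ofNat 1)]) te))) te)) (tn (tn (tn (tn (tn (tl [(376, .ofNat 1), (377, .ofNat 2), (381, .ofNat 1), (384, .ofNat 2)]) te) te) te) te) (tn (tn te (tn (tn (tl [(432, .ofNat 2), (433, .ofNat 2)]) te) te)) te)))) (tn (tn (tn (tn (tn (tn (tn (tl [(209, .ofNat 1)]) te) te) (tn (tn (tl [(427, .ofNat 2)]) te) te)) (tn (tn (tn (tl [(419, .ofNat 1), (420, .ofNat 2)]) te) te) (tn (tn (tl [(432, .ofNat 2), (433, .ofNat 1)]) te) te))) (tn (tn (tn (tn (tl [(397, .ofNat 2), (399, .ofNat 2), (400, .ofNat 2), (401, .ofNat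 2)]) te) te) (tn (tn (tl [(431, .ofNat 1)]) te) te)) te)) (tn (tn (tn (tn (tn (tl [(364, .ofNat 2), (365, .ofNat 1), (366, .ofNat 1), (367, .ofNat 2), (369, .ofNat 2), (371, .ofNat 2), (372, .ofNat 2), (374, .ofNat 1)]) te) te) te) te) (tn (tn te (tn (tn (tl [(432, .ofNat 1), (433, .ofNat 2)]) te) (tn (tl [(434, .ofNat 2)]) te))) te))) (tn (tn (tn te (tn (tn (tn (tl [(423, .ofNat 2), (424, .ofNat 1), (425, .ofNat 2)]) te) te) te)) (tn (tn te (tn (tn (tl [(431, .ofNat 1)]) te) (tn (tl [(434, .ofNat 1)]) te))) te)) (tn (tn (tn te (tn (tn (tl [(430, .ofNat 1), (431, .ofNat 1)]) te) te)) te) (tn (tn (tn (tn (tl [(415, .ofNat 1), (416, .ofNat 1), (417, .ofNat 1)]) te) te) (tn (tn (tl [(432, .ofNat 1)]) te) te)) te))))))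

def r62 : Tr SV := (tn (tn (tn (tn (tn (tn (tn (tn (tn (tl [(178, .ofNat 1)]) te) te) te) (tn te (tn (tn (tl [(432, .ofNat 1), (433, .ofNat 2)]) te) te))) (tn (tn te (tn (tn (tl [(430, .ofNat 2)]) te) te)) te)) (tn (tn te (tn (tn (tn (tl [(423, .ofNat 2), (424, .ofNat 1)]) te) te) te)) (tn (tn te (tn (tn (tl [(430, .ofNat 2)]) te) te)) te))) (tn (tn (tn (tn (tn (tn (tl [(280, .ofNat 1), (282, .ofNat 1), (284, .ofNat 2), (285, .ofNat 2), (288, .ofNat 2), (290, .ofNat 2), (291, .ofNat 2)]) te) te) te) (tn (tn (tn (tl [(418, .ofNat 1), (419, .ofNat 1), (421, .ofNat 1), (422, .ofNat 1)]) te) te) (tn (tn (tl [(432, .ofNat 2), (433, .ofNat 1)]) te) te))) (tn (tn (tn (tn (tl [(397, .ofNat 2), (398, .ofNat 2), (401, .ofNat 1)]) te) te) (tn (tn (tl [(430, .ofNat 2)]) te) te)) te)) (tn (tn (tn (tn (tn (tl [(376, .ofNat 1), (379, .ofNat 2), (380, .ofNat 2), (381, .ofNat 1), (382, .ofNat 1), (383, .ofNat 1), (384, .ofNat 1), (385, .ofNat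 2)]) te) te) te) te) (tn (tn te (tn (tn (tl [(432, .ofNat 2), (433, .ofNat 1)]) te) te)) te)))) (tn (tn (tn (tn te (tn (tn (tn (tl [(420, .ofNat 2)]) te) te) te)) (tn (tn (tn (tn (tl [(392, .ofNat 1), (393, .ofNat 1), (394, .ofNat 2), (395, .ofNat 2), (396, .ofNat 2)]) te) te) te) te)) (tn (tn (tn (tn (tn (tl [(364, .ofNat 1)]) te) te) te) (tn (tn (tn (tl [(423, .ofNat 1), (425, .ofNat 1)]) te) te) te)) (tn (tn te (tn (tn (tl [(432, .ofNat 2), (433, .ofNat 2)]) te) te)) te))) (tn (tn (tn (tn (tn (tn (tl [(312, .ofNat 2), (315, .ofNat 1), (317, .ofNat 2), (321, .ofNat 2), (322, .ofNat 2), (323, .ofNat 2), (324, .ofNat 2)]) te) te) te) (tn (tn (tn (tl [(418, .ofNat 2), (421, .ofNat 2)]) te) te) te)) (tn (tn te (tn (tn (tl [(431, .ofNat 2)]) te) te)) te)) (tn te (tn (tn (tn (tn (tl [(414, .ofNat 2), (415, .ofNat 1), (417, .ofNat 1)]) te) te) (tn (tn (tl [(432, .ofNat 2), (433, .ofNat 1)]) te) te)) te))))) (tn (tn (tn (tn (tn (tn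 (tn (tn (tl [(190, .ofNat 1)]) te) te) te) (tn (tn (tn (tl [(415, .ofNat 1)]) te) te) (tn (tn (tl [(433, .ofNat 2)]) te) te))) (tn (tn (tn (tn (tl [(392, .ofNat 2), (393, .ofNat 2), (394, .ofNat 1), (395, .ofNat 2), (396, .ofNat 2)]) te) te) te) te)) (tn (tn te (tn (tn (tn (tl [(425, .ofNat 1)]) te) te) te)) te)) (tn (tn (tn (tn (tn (tn (tl [(292, .ofNat 2), (293, .ofNat 1), (295, .ofNat 2), (296, .ofNat 2), (297, .ofNat 2), (298, .ofNat 1), (299, .ofNat 2), (301, .ofNat 2), (302, .ofNat 2), (305, .ofNat 2), (306, .ofNat 2), (307, .ofNat 1), (308, .ofNat 2), (309, .ofNat 1), (310, .ofNat 2)]) te) te) te) (tn (tn (tn (tl [(419, .ofNat 1), (420, .ofNat 2), (421, .ofNat 1), (422, .ofNat 1)]) te) te) te)) (tn (tn te (tn (tn (tl [(430, .ofNat 2), (431, .ofNat 1)]) te) te)) te)) (tn (tn (tn (tn (tn (tl [(375, .ofNat 1)]) te) te) te) te) (tn (tn te (tn (tn (tl [(432, .ofNat 2)]) te) te)) te)))) (tn (tn (tn (tn (tn (tn (tn (tl [(210,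 .ofNat 1)]) te) te) te) (tn (tn (tn (tl [(418, .ofNat 2), (420, .ofNat 2), (422, .ofNat 2)]) te) te) (tn (tn (tl [(433, .ofNat 1)]) te) te))) (tn (tn (tn (tn (tl [(397, .ofNat 2), (398, .ofNat 2), (399, .ofNat 1), (400, .ofNat 1)]) te) te) (tn (tn (tl [(430, .ofNat 2)]) te) te)) te)) (tn (tn (tn (tn (tn (tl [(365, .ofNat 1)]) te) te) te) te) (tn (tn te (tn (tn (tl [(432, .ofNat 1), (433, .ofNat 2)]) te) te)) te))) (tn (tn (tn te (tn (tn (tn (tl [(423, .ofNat 1), (424, .ofNat 1)]) te) te) te)) (tn (tn te (tn (tn (tl [(430, .ofNat 1)]) te) te)) te)) (tn (tn (tn te (tn (tn (tl [(430, .ofNat 2), (431, .ofNat 2)]) te) te)) te) (tn (tn (tn (tn (tl [(415, .ofNat 1), (416, .ofNat 2), (417, .ofNat 2)]) te) te) (tn (tn (tl [(432, .ofNat 1), (433, .ofNat 2)]) te) te)) te))))))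

def r63 : Tr SV := (tn (tn (tn (tn (tn (tn (tn (tn (tn (tl [(182, .ofNat 1), (183, .ofNat 1)]) te) te) te) (tn (tn (tn (tl [(416, .ofNat 2), (417, .ofNat 2)]) te) te) (tn (tn (tl [(433, .ofNat 1)]) te) te))) (tn (tn te (tn (tn (tl [(430, .ofNat 1), (431, .ofNat 2)]) te) te)) te)) (tn (tn te (tn (tn (tn (tl [(423, .ofNat 2), (424, .ofNat 1), (426, .ofNat 1)]) te) te) te)) (tn (tn te (tn (tn (tl [(430, .ofNat 1), (431, .ofNat 1)]) te) te)) te))) (tn (tn (tn (tn (tn (tn (tl [(278, .ofNat 2), (279, .ofNat 2), (280, .ofNat 1), (281, .ofNat 1), (282, .ofNat 2), (284, .ofNat 2), (285, .ofNat 1), (286, .ofNat 2), (287, .ofNat 1), (289, .ofNat 1), (290, .ofNat 1), (291, .ofNat 2)]) te) te) te) (tn (tn (tn (tl [(419, .ofNat 2), (420, .ofNat 2), (421, .ofNat 1), (422, .ofNat 1)]) te) te) (tn (tn (tl [(432, .ofNat 1), (433, .ofNat 1)]) te) te))) (tn (tn (tn (tn (tl [(399, .ofNat 1)]) te) te) te) te)) (tn (tn (tn (tn (tn (tl [(375, .ofNat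 1), (377, .ofNat 1), (380, .ofNat 2), (384, .ofNat 2)]) te) te) te) te) (tn (tn te (tn (tn (tl [(432, .ofNat 1)]) te) te)) te)))) (tn (tn (tn (tn (tn te (tn (tn (tl [(427, .ofNat 1)]) te) te)) (tn (tn (tn (tl [(418, .ofNat 2), (422, .ofNat 2)]) te) te) (tn (tn (tl [(433, .ofNat 1)]) te) te))) (tn (tn (tn (tn (tl [(393, .ofNat 1), (395, .ofNat 1)]) te) te) (tn (tn (tl [(430, .ofNat 1), (431, .ofNat 1)]) te) te)) te)) (tn (tn (tn (tn (tn (tl [(365, .ofNat 1), (366, .ofNat 1), (369, .ofNat 2), (370, .ofNat 2), (371, .ofNat 2)]) te) te) te) (tn (tn (tn (tl [(424, .ofNat 2), (426, .ofNat 1)]) te) te) te)) (tn (tn te (tn (tn (tl [(432, .ofNat 1), (433, .ofNat 2)]) te) (tn (tl [(434, .ofNat 2)]) te))) te))) (tn (tn (tn (tn (tn (tn (tl [(312, .ofNat 1), (313, .ofNat 2), (314, .ofNat 1), (315, .ofNat 1), (317, .ofNat 1), (318, .ofNat 2), (319, .ofNat 1), (322, .ofNat 2), (323, .ofNat 1), (325, .ofNat 1)]) te) te) te) (tn (tn (tn (tl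 [(419, .ofNat 1), (420, .ofNat 1), (421, .ofNat 2), (422, .ofNat 2)]) te) te) te)) (tn (tn te (tn (tn (tl [(431, .ofNat 2)]) te) te)) te)) (tn te (tn (tn (tn (tn (tl [(415, .ofNat 1), (416, .ofNat 2), (417, .ofNat 2)]) te) te) (tn (tn (tl [(432, .ofNat 1)]) te) te)) te))))) (tn (tn (tn (tn (tn (tn (tn (tn (tl [(189, .ofNat 1), (192, .ofNat 2), (194, .ofNat 1), (196, .ofNat 1), (199, .ofNat 2)]) te) te) (tn (tn (tl [(427, .ofNat 2)]) te) te)) (tn (tn (tn (tl [(415, .ofNat 2), (417, .ofNat 2)]) te) te) (tn (tn (tl [(433, .ofNat 1)]) te) te))) (tn (tn (tn (tn (tl [(392, .ofNat 1), (393, .ofNat 1), (395, .ofNat 1), (396, .ofNat 1)]) te) te) (tn (tn (tl [(430, .ofNat 2), (431, .ofNat 2)]) te) te)) te)) (tn (tn te (tn (tn (tn (tl [(425, .ofNat 1)]) te) te) te)) (tn (tn te (tn (tn (tl [(431, .ofNat 1)]) te) (tn (tl [(434, .ofNat 1)]) te))) te))) (tn (tn (tn (tn (tn (tn (tl [(292, .ofNat 2), (294, .ofNat 2), (295, .ofNat 2), (297,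 .ofNat 1), (298, .ofNat 1), (299, .ofNat 1), (301, .ofNat 1), (302, .ofNat 1), (303, .ofNat 1), (304, .ofNat 1), (305, .ofNat 1), (306, .ofNat 1), (307, .ofNat 1), (310, .ofNat 2), (311, .ofNat 1)]) te) te) te) (tn (tn (tn (tl [(418, .ofNat 2), (419, .ofNat 2), (422, .ofNat 1)]) te) te) te)) (tn (tn te (tn (tn (tl [(431, .ofNat 1)]) te) te)) te)) (tn (tn (tn (tn (tn (tl [(376, .ofNat 2), (378, .ofNat 2), (380, .ofNat 2), (381, .ofNat 2), (382, .ofNat 2), (383, .ofNat 1), (384, .ofNat 2), (385, .ofNat 2)]) te) te) te) te) (tn (tn te (tn (tn (tl [(432, .ofNat 2), (433, .ofNat 1)]) te) te)) te)))) (tn (tn (tn (tn (tn (tn (tn (tl [(211, .ofNat 1)]) te) te) (tn (tn (tl [(427, .ofNat 2)]) te) te)) (tn (tn (tn (tl [(418, .ofNat 1), (419, .ofNat 2), (421, .ofNat 1), (422, .ofNat 2)]) te) te) (tn (tn (tl [(433, .ofNat 2)]) te) te))) (tn (tn (tn (tn (tl [(398, .ofNat 1), (399, .ofNat 1), (400, .ofNat 2), (401, .ofNat 2)]) te) te) (tn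 (tn (tl [(431, .ofNat 1)]) te) te)) te)) (tn (tn (tn (tn (tn (tl [(364, .ofNat 2), (366, .ofNat 1), (367, .ofNat 2), (368, .ofNat 2), (369, .ofNat 2), (373, .ofNat 2)]) te) te) te) te) (tn (tn te (tn (tn (tl [(432, .ofNat 1), (433, .ofNat 2)]) te) (tn (tl [(434, .ofNat 1)]) te))) te))) (tn (tn (tn te (tn (tn (tn (tl [(423, .ofNat 2), (424, .ofNat 1), (425, .ofNat 1)]) te) te) te)) (tn (tn te (tn (tn (tl [(431, .ofNat 2)]) te) (tn (tl [(434, .ofNat 2)]) te))) te)) (tn (tn (tn te (tn (tn (tl [(431, .ofNat 1)]) te) te)) te) (tn (tn (tn (tn (tl [(414, .ofNat 1), (415, .ofNat 2), (416, .ofNat 1), (417, .ofNat 1)]) te) te) (tn (tn (tl [(432, .ofNat 1), (433, .ofNat 2)]) te) te)) te))))))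

def r64 : Tr SV := (tn (tn (tn (tn (tn (tn (tn (tn (tn (tl [(200, .ofNat 1)]) te) te) te) te) te) (tn (tn (tn (tn (tn (tl [(376, .ofNat 1), (379, .ofNat 1), (383, .ofNat 1), (385, .ofNat 1)]) te) te) (tn (tn (tl [(430, .ofNat 2), (431, .ofNat 1)]) te) te)) te) (tn (tn (tn (tn (tl [(418, .ofNat 1), (420, .ofNat 1), (421, .ofNat 1)]) te) te) te) te))) (tn (tn (tn (tn (tn (tn (tl [(326, .ofNat 1)]) te) te) (tn (tn (tl [(430, .ofNat 2)]) te) te)) te) (tn (tn (tn (tn (tl [(411, .ofNat 2), (412, .ofNat 1), (413, .ofNat 2)]) te) te) te) te)) (tn (tn (tn te (tn (tn (tl [(432, .ofNat 1), (433, .ofNat 2)]) te) te)) te) (tn (tn (tn (tn (tl [(424, .ofNat 1), (425, .ofNat 2)]) te) te) te) te)))) (tn (tn (tn (tn (tn (tn (tn (tl [(208, .ofNat 1)]) te) te) (tn (tn (tl [(428, .ofNat 1)]) te) te)) te) (tn (tn (tn (tn (tl [(404, .ofNat 1), (405, .ofNat 2), (407, .ofNat 2), (408, .ofNat 1)]) te) te) te) te)) (tn (tn (tn te (tn (tn (tl [(432,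 .ofNat 1), (433, .ofNat 2)]) te) te)) te) (tn (tn (tn (tn (tl [(423, .ofNat 2), (424, .ofNat 2), (425, .ofNat 1)]) te) te) te) te))) (tn (tn (tn (tn (tn (tn (tl [(355, .ofNat 1), (356, .ofNat 1), (357, .ofNat 2), (359, .ofNat 2), (362, .ofNat 1), (363, .ofNat 2)]) te) te) (tn (tn (tl [(430, .ofNat 2)]) te) te)) te) (tn (tn (tn (tn (tl [(414, .ofNat 1), (415, .ofNat 1), (416, .ofNat 2)]) te) te) te) te)) (tn (tn (tn te (tn (tn (tl [(432, .ofNat 1), (433, .ofNat 2)]) te) te)) te) te)))) (tn (tn (tn (tn (tn (tn (tn (tn (tl [(204, .ofNat 1)]) te) te) (tn (tn (tl [(428, .ofNat 2), (429, .ofNat 1)]) te) te)) te) (tn (tn (tn (tn (tl [(403, .ofNat 2), (404, .ofNat 1), (405, .ofNat 1), (406, .ofNat 2), (407, .ofNat 1), (408, .ofNat 2)]) te) te) te) te)) (tn (tn (tn (tn (tn (tl [(376, .ofNat 2), (378, .ofNat 1), (379, .ofNat 1), (380, .ofNat 1), (381, .ofNat 1), (382, .ofNat 2), (383, .ofNat 2), (384, .ofNat 2)]) te) te) te) te) (tn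 (tn (tn (tn (tl [(418, .ofNat 1), (419, .ofNat 1), (420, .ofNat 1), (421, .ofNat 1)]) te) te) te) te))) (tn (tn (tn (tn (tn (tn (tl [(339, .ofNat 2), (340, .ofNat 2), (341, .ofNat 2), (342, .ofNat 1), (343, .ofNat 1), (344, .ofNat 2), (345, .ofNat 2), (347, .ofNat 1), (348, .ofNat 2), (354, .ofNat 1)]) te) te) (tn (tn (tl [(430, .ofNat 1)]) te) te)) te) (tn (tn (tn (tn (tl [(415, .ofNat 1), (416, .ofNat 2), (417, .ofNat 1)]) te) te) te) te)) (tn te (tn (tn (tn (tn (tl [(423, .ofNat 1), (425, .ofNat 1), (426, .ofNat 1)]) te) te) te) te)))) (tn (tn (tn (tn (tn te (tn (tn (tl [(429, .ofNat 1)]) te) te)) te) (tn (tn (tn (tn (tl [(409, .ofNat 1), (412, .ofNat 1), (413, .ofNat 2)]) te) te) te) te)) (tn (tn (tn te (tn (tn (tl [(432, .ofNat 1), (433, .ofNat 2)]) te) te)) te) (tn (tn (tn (tn (tl [(423, .ofNat 2), (424, .ofNat 2)]) te) te) te) te))) (tn (tn (tn (tn (tn (tn (tl [(364, .ofNat 2), (365, .ofNat 2), (371, .ofNat 1), (372,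 .ofNat 1)]) te) te) te) te) (tn (tn (tn (tn (tl [(421, .ofNat 2)]) te) te) te) te)) te))))

def r65 : Tr SV := (tn (tn (tn (tn (tn (tn (tn te (tn (tn (tl [(429, .ofNat 1)]) te) te)) te) (tn (tn (tn (tn (tl [(387, .ofNat 2), (389, .ofNat 2)]) te) te) te) te)) te) te) (tn (tn (tn te (tn (tn te (tn te (tn (tl [(434, .ofNat 2)]) te))) te)) te) (tn te (tn te (tn te (tn (tn (tn (tl [(427, .ofNat 1)]) te) te) te)))))) (tn (tn (tn (tn te (tn (tn te (tn te (tn (tl [(434, .ofNat 2)]) te))) te)) te) te) (tn (tn (tn (tn (tn (tn (tn (tl [(214, .ofNat 1), (216, .ofNat 2), (219, .ofNat 1)]) te) te) te) te) (tn (tn te (tn te (tn (tl [(434, .ofNat 2)]) te))) te)) te) (tn te (tn (tn (tn (tn (tn (tl [(386, .ofNat 1)]) te) te) te) te) (tn te (tn (tn (tn (tl [(427, .ofNat 1)]) te) te) te)))))))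

def r66 : Tr SV := (tn (tn (tn (tn (tn (tn (tn te (tn (tn (tl [(428, .ofNat 1), (429, .ofNat 1)]) te) te)) te) (tn (tn (tn (tn (tl [(387, .ofNat 1), (388, .ofNat 1), (390, .ofNat 1), (391, .ofNat 2)]) te) te) (tn te (tn (tl [(434, .ofNat 1)]) te))) te)) te) te) (tn te (tn te (tn (tn (tn (tn (tn (tl [(386, .ofNat 2)]) te) te) te) te) te)))) (tn (tn (tn (tn te (tn (tn te (tn te (tn (tl [(434, .ofNat 1)]) te))) te)) te) (tn te (tn te (tn te (tn (tn (tn (tl [(427, .ofNat 1)]) te) te) te))))) (tn (tn (tn (tn (tn (tn (tn (tl [(213, .ofNat 1), (215, .ofNat 2), (216, .ofNat 1), (217, .ofNat 1), (218, .ofNat 1), (219, .ofNat 1)]) te) te) te) te) (tn (tn te (tn te (tn (tl [(434, .ofNat 2)]) te))) te)) te) (tn te (tn (tn (tn (tn (tn (tl [(386, .ofNat 1)]) te) te) te) te) (tn te (tn (tn (tn (tl [(427, .ofNat 1)]) te) te) te)))))))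

def r67 : Tr SV := (tn (tn (tn (tn (tn (tn (tn te (tn (tn (tl [(429, .ofNat 1)]) te) te)) te) (tn (tn (tn (tn (tl [(387, .ofNat 2), (389, .ofNat 2), (391, .ofNat 1)]) te) te) (tn te (tn (tl [(434, .ofNat 1)]) te))) te)) te) te) (tn (tn (tn (tn (tn (tn (tn (tl [(212, .ofNat 1)]) te) te) te) te) te) te) (tn te (tn (tn (tn (tn (tn (tl [(386, .ofNat 1)]) te) te) te) te) te)))) (tn (tn te (tn te (tn te (tn te (tn (tn (tn (tl [(427, .ofNat 1)]) te) te) te))))) (tn (tn (tn (tn (tn (tn (tn (tl [(214, .ofNat 1), (215, .ofNat 1), (218, .ofNat 2), (219, .ofNat 1)]) te) te) te) te) (tn (tn te (tn te (tn (tl [(434, .ofNat 2)]) te))) te)) te) (tn te (tn (tn (tn (tn (tn (tl [(386, .ofNat 1)]) te) te) te) te) (tn te (tn (tn (tn (tl [(427, .ofNat 1)]) te) te) te)))))))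

def r68 : Tr SV := (tn (tn (tn (tn (tn (tn (tn te (tn (tn (tl [(430, .ofNat 2)]) te) te)) te) (tn (tn (tn (tn (tl [(392, .ofNat 1), (393, .ofNat 1), (395, .ofNat 1), (396, .ofNat 1)]) te) te) te) te)) te) (tn te (tn (tn (tn (tn (tn (tl [(386, .ofNat 1)]) te) te) (tn te (tn (tl [(434, .ofNat 1)]) te))) te) te))) (tn (tn te (tn te (tn te (tn (tn (tn (tl [(427, .ofNat 1)]) te) te) te)))) te)) (tn (tn (tn (tn (tn (tn (tn (tn (tl [(212, .ofNat 2)]) te) te) te) te) te) te) te) (tn (tn (tn (tn (tn (tn (tn (tl [(226, .ofNat 1)]) te) te) te) te) te) te) te)))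

def r69 : Tr SV := (tn (tn (tn (tn (tn (tn (tn te (tn (tn (tl [(430, .ofNat 2)]) te) te)) te) (tn (tn (tn (tn (tl [(394, .ofNat 1), (395, .ofNat 1), (396, .ofNat 1)]) te) te) te) te)) te) (tn te (tn (tn (tn (tn (tn (tl [(386, .ofNat 2)]) te) te) te) te) (tn te (tn (tn (tn (tl [(427, .ofNat 1)]) te) te) te))))) (tn (tn te (tn te (tn te (tn (tn (tn (tl [(427, .ofNat 2)]) te) te) te)))) te)) (tn (tn te (tn te (tn (tn (tn (tn (tn (tl [(386, .ofNat 1)]) te) te) te) te) te))) (tn (tn (tn (tn (tn (tn (tn (tl [(220, .ofNat 2), (223, .ofNat 2), (225, .ofNat 1), (226, .ofNat 1)]) te) te) te) te) te) te) (tn te (tn (tn (tn te (tn te (tn (tl [(434, .ofNat 2)]) te))) te) te)))))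

def r70 : Tr SV := (tn (tn (tn (tn (tn (tn (tn te (tn (tn (tl [(431, .ofNat 2)]) te) te)) te) (tn (tn (tn (tn (tl [(392, .ofNat 1), (394, .ofNat 1), (396, .ofNat 1)]) te) te) te) te)) te) (tn te (tn (tn (tn te (tn te (tn (tl [(434, .ofNat 2)]) te))) te) te))) (tn (tn te (tn te (tn te (tn (tn (tn (tl [(427, .ofNat 2)]) te) te) te)))) (tn te (tn (tn (tn te (tn te (tn (tl [(434, .ofNat 1)]) te))) te) te)))) (tn (tn (tn (tn (tn (tn (tn (tn (tl [(212, .ofNat 2)]) te) te) te) te) te) te) (tn te (tn (tn (tn te (tn te (tn (tl [(434, .ofNat 2)]) te))) te) te))) (tn (tn (tn (tn (tn (tn (tn (tl [(220, .ofNat 2), (221, .ofNat 1), (225, .ofNat 2), (226, .ofNat 1)]) te) te) te) te) te) (tn te (tn te (tn (tn (tn (tl [(427, .ofNat 2)]) te) te) te)))) te)))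

def r71 : Tr SV := (tn (tn (tn (tn (tn (tn (tn te (tn (tn (tl [(430, .ofNat 2), (431, .ofNat 2)]) te) te)) te) (tn (tn (tn (tn (tl [(393, .ofNat 2), (395, .ofNat 1)]) te) te) te) te)) te) (tn te (tn (tn (tn (tn (tn (tl [(386, .ofNat 2)]) te) te) (tn te (tn (tl [(434, .ofNat 2)]) te))) te) (tn te (tn (tn (tn (tl [(427, .ofNat 1)]) te) te) te))))) (tn (tn te (tn te (tn te (tn (tn (tn (tl [(427, .ofNat 2)]) te) te) te)))) (tn te (tn (tn (tn te (tn te (tn (tl [(434, .ofNat 1)]) te))) te) te)))) (tn (tn (tn (tn (tn (tn (tn (tn (tl [(212, .ofNat 2)]) te) te) te) te) te) te) (tn te (tn (tn (tn (tn (tn (tl [(386, .ofNat 1)]) te) te) (tn te (tn (tl [(434, .ofNat 1)]) te))) te) te))) (tn (tn (tn (tn (tn (tn (tn (tl [(220, .ofNat 2), (221, .ofNat 2), (222, .ofNat 2), (223, .ofNat 1), (224, .ofNat 2), (226, .ofNat 1)]) te) te) te) te) te) (tn te (tn te (tn (tn (tn (tl [(427, .ofNat 2)]) te) te) te)))) (tn te (tn (tn (tn te (tn te (tn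 (tl [(434, .ofNat 2)]) te))) te) te)))))

def r72 : Tr SV := (tn (tn (tn (tn (tn (tn (tn te (tn (tn (tl [(430, .ofNat 1), (431, .ofNat 1)]) te) te)) te) (tn (tn (tn (tn (tl [(392, .ofNat 1), (393, .ofNat 2), (394, .ofNat 2), (395, .ofNat 2), (396, .ofNat 2)]) te) te) te) te)) te) (tn te (tn (tn (tn (tn (tn (tl [(386, .ofNat 2)]) te) te) te) te) (tn te (tn (tn (tn (tl [(427, .ofNat 2)]) te) te) te))))) (tn (tn te (tn te (tn te (tn (tn (tn (tl [(427, .ofNat 1)]) te) te) te)))) (tn te (tn (tn (tn te (tn te (tn (tl [(434, .ofNat 2)]) te))) te) te)))) (tn (tn te (tn te (tn (tn (tn (tn (tn (tl [(386, .ofNat 2)]) te) te) te) te) te))) (tn (tn (tn (tn (tn (tn (tn (tl [(222, .ofNat 2), (224, .ofNat 2)]) te) te) te) te) te) (tn te (tn te (tn (tn (tn (tl [(427, .ofNat 1)]) te) te) te)))) (tn te (tn (tn (tn te (tn te (tn (tl [(434, .ofNat 1)]) te))) te) te)))))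

def r73 : Tr SV := (tn (tn (tn (tn (tn (tn (tn (tn (tn (tl [(212, .ofNat 1)]) te) te) te) te) (tn (tn (tn (tn (tl [(397, .ofNat 1), (398, .ofNat 2), (399, .ofNat 2), (400, .ofNat 1), (401, .ofNat 1)]) te) te) te) te)) (tn te (tn te (tn (tn (tn (tl [(427, .ofNat 1)]) te) te) te)))) te) (tn (tn te (tn (tn (tn (tn (tn (tl [(386, .ofNat 1)]) te) te) (tn te (tn (tl [(434, .ofNat 2)]) te))) te) te)) te)) (tn (tn (tn te (tn (tn (tn te (tn te (tn (tl [(434, .ofNat 2)]) te))) te) (tn te (tn (tn (tn (tl [(427, .ofNat 2)]) te) te) te)))) te) (tn (tn (tn (tn (tn (tn (tn (tl [(227, .ofNat 1), (228, .ofNat 2), (230, .ofNat 1), (231, .ofNat 1)]) te) te) te) te) te) (tn (tn (tn (tn (tn (tl [(386, .ofNat 2)]) te) te) (tn te (tn (tl [(434, .ofNat 1)]) te))) te) te)) (tn (tn te (tn te (tn (tn (tn (tl [(427, .ofNat 1)]) te) te) te))) te))))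

def r74 : Tr SV := (tn (tn (tn (tn (tn (tn (tn (tn (tn (tl [(212, .ofNat 2)]) te) te) (tn (tn (tl [(433, .ofNat 2)]) te) te)) te) (tn (tn (tn (tn (tl [(397, .ofNat 2), (398, .ofNat 2), (399, .ofNat 1), (400, .ofNat 1), (401, .ofNat 2)]) te) te) te) te)) te) te) (tn (tn te (tn (tn (tn (tn (tn (tl [(386, .ofNat 1)]) te) te) te) te) te)) te)) (tn (tn (tn te (tn (tn (tn te (tn te (tn (tl [(434, .ofNat 2)]) te))) te) te)) te) (tn (tn (tn (tn (tn (tn (tn (tl [(227, .ofNat 2), (228, .ofNat 2), (230, .ofNat 2), (232, .ofNat 2)]) te) te) te) te) te) te) (tn (tn te (tn te (tn (tn (tn (tl [(427, .ofNat 2)]) te) te) te))) te))))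

def r75 : Tr SV := (tn (tn (tn (tn (tn (tn (tn (tn (tn (tl [(212, .ofNat 1)]) te) te) (tn (tn (tl [(432, .ofNat 1), (433, .ofNat 1)]) te) te)) te) (tn (tn (tn (tn (tl [(397, .ofNat 1), (398, .ofNat 1), (399, .ofNat 1)]) te) te) te) te)) (tn (tn (tn te (tn te (tn (tl [(434, .ofNat 2)]) te))) te) te)) te) (tn (tn te (tn (tn (tn (tn (tn (tl [(386, .ofNat 1)]) te) te) te) te) te)) te)) (tn (tn (tn te (tn (tn (tn te (tn te (tn (tl [(434, .ofNat 1)]) te))) te) (tn te (tn (tn (tn (tl [(427, .ofNat 1)]) te) te) te)))) te) (tn (tn (tn (tn (tn (tn (tn (tl [(227, .ofNat 2), (230, .ofNat 1), (231, .ofNat 2), (232, .ofNat 1)]) te) te) te) te) te) (tn (tn (tn (tn (tn (tl [(386, .ofNat 1)]) te) te) (tn te (tn (tl [(434, .ofNat 2)]) te))) te) te)) te)))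

def r76 : Tr SV := (tn (tn (tn (tn (tn (tn (tn (tn (tn (tl [(212, .ofNat 2)]) te) te) (tn (tn (tl [(432, .ofNat 1), (433, .ofNat 2)]) te) te)) te) (tn (tn (tn (tn (tl [(397, .ofNat 2), (399, .ofNat 2), (400, .ofNat 2), (401, .ofNat 2)]) te) te) te) te)) (tn (tn (tn te (tn te (tn (tl [(434, .ofNat 1)]) te))) te) (tn te (tn (tn (tn (tl [(427, .ofNat 2)]) te) te) te)))) te) (tn (tn te (tn (tn (tn te (tn te (tn (tl [(434, .ofNat 1)]) te))) te) te)) te)) (tn (tn (tn te (tn (tn (tn te (tn te (tn (tl [(434, .ofNat 2)]) te))) te) te)) te) (tn (tn (tn (tn (tn (tn (tn (tl [(227, .ofNat 1), (228, .ofNat 1), (229, .ofNat 2), (230, .ofNat 1), (231, .ofNat 2)]) te) te) te) te) te) te) (tn (tn te (tn te (tn (tn (tn (tl [(427, .ofNat 2)]) te) te) te))) te))))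

def r77 : Tr SV := (tn (tn (tn (tn (tn (tn (tn (tn (tn (tl [(212, .ofNat 1)]) te) te) (tn (tn (tl [(433, .ofNat 2)]) te) te)) te) (tn (tn (tn (tn (tl [(397, .ofNat 2), (400, .ofNat 1)]) te) te) te) te)) (tn (tn (tn te (tn te (tn (tl [(434, .ofNat 1)]) te))) te) (tn te (tn (tn (tn (tl [(427, .ofNat 2)]) te) te) te)))) te) (tn (tn te (tn (tn (tn (tn (tn (tl [(386, .ofNat 2)]) te) te) (tn te (tn (tl [(434, .ofNat 1)]) te))) te) te)) te)) (tn (tn (tn te (tn (tn (tn te (tn te (tn (tl [(434, .ofNat 2)]) te))) te) (tn te (tn (tn (tn (tl [(427, .ofNat 2)]) te) te) te)))) te) (tn (tn (tn (tn (tn (tn (tn (tl [(228, .ofNat 2), (229, .ofNat 2), (230, .ofNat 1)]) te) te) te) te) te) (tn (tn (tn (tn (tn (tl [(386, .ofNat 2)]) te) te) (tn te (tn (tl [(434, .ofNat 1)]) te))) te) te)) (tn (tn te (tn te (tn (tn (tn (tl [(427, .ofNat 1)]) te) te) te))) te))))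

def r78 : Tr SV := (tn (tn (tn (tn (tn (tn (tn (tn (tn (tl [(212, .ofNat 1)]) te) te) (tn (tn (tl [(433, .ofNat 1)]) te) te)) te) (tn (tn (tn (tn (tl [(397, .ofNat 1), (398, .ofNat 1), (399, .ofNat 2), (400, .ofNat 2), (401, .ofNat 1)]) te) te) te) te)) (tn (tn (tn te (tn te (tn (tl [(434, .ofNat 1)]) te))) te) (tn te (tn (tn (tn (tl [(427, .ofNat 1)]) te) te) te)))) te) (tn (tn te (tn (tn (tn (tn (tn (tl [(386, .ofNat 2)]) te) te) (tn te (tn (tl [(434, .ofNat 2)]) te))) te) te)) te)) (tn (tn (tn te (tn (tn (tn te (tn te (tn (tl [(434, .ofNat 1)]) te))) te) (tn te (tn (tn (tn (tl [(427, .ofNat 1)]) te) te) te)))) te) (tn (tn (tn (tn (tn (tn (tn (tl [(228, .ofNat 2), (229, .ofNat 1), (231, .ofNat 1), (232, .ofNat 1)]) te) te) te) te) te) (tn (tn (tn (tn (tn (tl [(386, .ofNat 1)]) te) te) (tn te (tn (tl [(434, .ofNat 2)]) te))) te) te)) te)))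

def r79 : Tr SV := (tn (tn (tn (tn (tn te (tn (tn (tn (tn (tl [(403, .ofNat 2), (404, .ofNat 1), (406, .ofNat 2)]) te) te) te) (tn (tn (tn (tl [(427, .ofNat 1)]) te) te) te))) (tn (tn (tn (tn (tn (tl [(386, .ofNat 1)]) te) te) te) te) te)) (tn (tn (tn (tn te (tn te (tn (tl [(434, .ofNat 1)]) te))) te) (tn te (tn (tn (tn (tl [(427, .ofNat 2)]) te) te) te))) (tn (tn (tn (tn (tn (tl [(388, .ofNat 2), (389, .ofNat 2), (391, .ofNat 2)]) te) te) te) te) (tn te (tn (tn te (tn (tl [(434, .ofNat 1)]) te)) te))))) (tn (tn (tn (tn (tn (tn (tn (tl [(221, .ofNat 2), (222, .ofNat 2), (223, .ofNat 2), (224, .ofNat 1), (225, .ofNat 2), (226, .ofNat 2)]) te) te) te) te) (tn te (tn (tn (tn (tl [(427, .ofNat 2)]) te) te) te))) (tn te (tn te (tn (tn (tn (tl [(428, .ofNat 2)]) te) (tn (tl [(434, .ofNat 2)]) te)) te)))) (tn (tn (tn (tn te (tn te (tn (tl [(434, .ofNat 1)]) te))) te) te) (tn (tn (tn (tn (tn (tl [(392, .ofNat 1), (393, .ofNat 1),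 (395, .ofNat 1), (396, .ofNat 2)]) te) te) te) te) (tn te (tn (tn (tn (tl [(431, .ofNat 2)]) te) (tn (tl [(434, .ofNat 1)]) te)) te)))))) (tn (tn (tn (tn (tn (tn (tn (tn (tl [(213, .ofNat 1), (214, .ofNat 2), (215, .ofNat 1), (217, .ofNat 2), (219, .ofNat 1)]) te) te) (tn te (tn (tl [(434, .ofNat 1)]) te))) te) (tn te (tn (tn (tn (tl [(427, .ofNat 2)]) te) te) te))) (tn (tn (tn (tn (tn (tl [(386, .ofNat 2)]) te) te) te) te) te)) (tn (tn te (tn te (tn (tn (tn (tl [(427, .ofNat 2)]) te) te) te))) (tn (tn (tn (tn (tn (tl [(387, .ofNat 2), (390, .ofNat 1)]) te) te) te) te) (tn te (tn (tn (tn (tl [(430, .ofNat 2)]) te) (tn (tl [(434, .ofNat 1)]) te)) te))))) (tn (tn (tn (tn (tn (tn (tn (tl [(238, .ofNat 1)]) te) te) (tn te (tn (tl [(434, .ofNat 1)]) te))) te) (tn te (tn (tn (tn (tl [(427, .ofNat 2)]) te) te) te))) (tn te (tn te (tn (tn (tn (tl [(428, .ofNat 2), (429, .ofNat 2)]) te) (tn (tl [(434, .ofNat 1)]) te)) te)))) (tn te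 (tn (tn (tn (tn (tn (tl [(392, .ofNat 1), (393, .ofNat 1), (394, .ofNat 2)]) te) te) te) te) (tn te (tn (tn te (tn (tl [(434, .ofNat 1)]) te)) te)))))))

def r80 : Tr SV := (tn (tn (tn (tn (tn te (tn (tn (tn (tn (tl [(402, .ofNat 2), (403, .ofNat 2), (404, .ofNat 2), (406, .ofNat 2), (407, .ofNat 2), (408, .ofNat 1)]) te) te) te) (tn (tn (tn (tl [(427, .ofNat 2)]) te) te) te))) (tn (tn (tn (tn (tn (tl [(386, .ofNat 2)]) te) te) te) te) te)) (tn (tn (tn (tn te (tn te (tn (tl [(434, .ofNat 1)]) te))) te) (tn te (tn (tn (tn (tl [(427, .ofNat 2)]) te) te) te))) (tn (tn (tn (tn (tn (tl [(387, .ofNat 2), (389, .ofNat 2), (390, .ofNat 1), (391, .ofNat 2)]) te) te) te) te) (tn te (tn (tn (tn (tl [(428, .ofNat 2), (429, .ofNat 2)]) te) te) te))))) (tn (tn (tn (tn (tn (tn (tn (tl [(222, .ofNat 2), (223, .ofNat 1), (224, .ofNat 2), (226, .ofNat 1)]) te) te) te) te) te) (tn te (tn te (tn (tn te (tn (tl [(434, .ofNat 1)]) te)) te)))) (tn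 (tn (tn (tn te (tn te (tn (tl [(434, .ofNat 2)]) te))) te) te) (tn (tn (tn (tn (tn (tl [(392, .ofNat 2)]) te) te) te) te) (tn te (tn (tn (tn (tl [(431, .ofNat 2)]) te) (tn (tl [(434, .ofNat 1)]) te)) te)))))) (tn (tn (tn (tn (tn (tn (tn (tn (tl [(214, .ofNat 1), (215, .ofNat 2), (216, .ofNat 1), (218, .ofNat 2), (219, .ofNat 2)]) te) te) te) te) (tn te (tn (tn (tn (tl [(427, .ofNat 2)]) te) te) te))) (tn (tn (tn (tn (tn (tl [(386, .ofNat 2)]) te) te) te) te) te)) (tn (tn te (tn te (tn (tn (tn (tl [(427, .ofNat 1)]) te) te) te))) (tn (tn (tn (tn (tn (tl [(387, .ofNat 2), (388, .ofNat 2), (390, .ofNat 2), (391, .ofNat 2)]) te) te) te) te) (tn te (tn (tn (tn (tl [(430, .ofNat 1), (431, .ofNat 1)]) te) (tn (tl [(434, .ofNat 2)]) te)) te))))) (tn (tn (tn (tn (tn (tn (tn (tl [(235, .ofNat 2), (236, .ofNat 2), (237, .ofNat 2), (239, .ofNat 1), (241, .ofNat 1), (243, .ofNat 2), (244, .ofNat 2), (245, .ofNat 1), (246, .ofNat 1), (247,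 .ofNat 1), (248, .ofNat 2), (249, .ofNat 1), (250, .ofNat 1), (251, .ofNat 2), (252, .ofNat 1), (253, .ofNat 2), (254, .ofNat 2), (255, .ofNat 1), (257, .ofNat 1)]) te) te) (tn te (tn (tl [(434, .ofNat 2)]) te))) te) (tn te (tn (tn (tn (tl [(427, .ofNat 1)]) te) te) te))) (tn te (tn te (tn (tn (tn (tl [(428, .ofNat 2), (429, .ofNat 2)]) te) (tn (tl [(434, .ofNat 1)]) te)) te)))) (tn te (tn (tn (tn (tn (tn (tl [(392, .ofNat 2), (393, .ofNat 1)]) te) te) te) te) (tn te (tn (tn (tn (tl [(431, .ofNat 2)]) te) (tn (tl [(434, .ofNat 2)]) te)) te)))))))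

def r81 : Tr SV := (tn (tn (tn (tn (tn (tn (tn te (tn te (tn (tl [(434, .ofNat 1)]) te))) te) (tn (tn (tn (tn (tl [(403, .ofNat 1), (404, .ofNat 2), (406, .ofNat 1), (408, .ofNat 1)]) te) te) te) (tn (tn (tn (tl [(427, .ofNat 2)]) te) te) te))) (tn (tn (tn (tn (tn (tl [(386, .ofNat 2)]) te) te) te) te) te)) (tn (tn (tn (tn te (tn te (tn (tl [(434, .ofNat 1)]) te))) te) (tn te (tn (tn (tn (tl [(427, .ofNat 2)]) te) te) te))) (tn (tn (tn (tn (tn (tl [(387, .ofNat 2), (388, .ofNat 2), (390, .ofNat 1), (391, .ofNat 2)]) te) te) te) te) (tn te (tn (tn (tn (tl [(429, .ofNat 2)]) te) te) te))))) (tn (tn (tn (tn (tn (tn (tn (tl [(222, .ofNat 2), (223, .ofNat 1), (224, .ofNat 2), (225, .ofNat 2)]) te) te) (tn te (tn (tl [(434, .ofNat 2)]) te))) te) (tn te (tn (tn (tn (tl [(427, .ofNat 1)]) te) te) te))) (tn te (tn te (tn (tn (tn (tl [(429, .ofNat 1)]) te) te) te)))) (tn (tn te (tn te (tn (tn (tn (tl [(427, .ofNat 2)]) te) te) te)))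 (tn (tn (tn (tn (tn (tl [(392, .ofNat 1), (393, .ofNat 1), (395, .ofNat 2), (396, .ofNat 1)]) te) te) te) te) (tn te (tn (tn (tn (tl [(430, .ofNat 1), (431, .ofNat 2)]) te) (tn (tl [(434, .ofNat 1)]) te)) te)))))) (tn (tn (tn (tn (tn (tn (tn (tn (tl [(214, .ofNat 2), (216, .ofNat 1), (217, .ofNat 1), (218, .ofNat 2), (219, .ofNat 2)]) te) te) (tn te (tn (tl [(434, .ofNat 2)]) te))) te) te) (tn (tn (tn (tn (tn (tl [(386, .ofNat 2)]) te) te) te) te) te)) (tn (tn (tn (tn te (tn te (tn (tl [(434, .ofNat 1)]) te))) te) (tn te (tn (tn (tn (tl [(427, .ofNat 1)]) te) te) te))) (tn (tn (tn (tn (tn (tl [(387, .ofNat 1), (391, .ofNat 1)]) te) te) te) te) (tn te (tn (tn (tn (tl [(430, .ofNat 1)]) te) (tn (tl [(434, .ofNat 1)]) te)) te))))) (tn (tn (tn (tn (tn (tn (tn (tl [(257, .ofNat 1)]) te) te) (tn te (tn (tl [(434, .ofNat 1)]) te))) te) te) (tn te (tn te (tn (tn te (tn (tl [(434, .ofNat 2)]) te)) te)))) (tn (tn (tn (tn te (tn te (tn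 (tl [(434, .ofNat 2)]) te))) te) te) (tn (tn (tn (tn (tn (tl [(392, .ofNat 1), (393, .ofNat 1), (394, .ofNat 1), (396, .ofNat 2)]) te) te) te) te) (tn te (tn (tn (tn (tl [(430, .ofNat 2)]) te) (tn (tl [(434, .ofNat 2)]) te)) te)))))))

def r82 : Tr SV := (tn (tn (tn (tn (tn (tn (tn te (tn te (tn (tl [(434, .ofNat 2)]) te))) te) (tn (tn (tn (tn (tl [(402, .ofNat 1), (405, .ofNat 2), (406, .ofNat 1), (408, .ofNat 2)]) te) te) te) (tn (tn (tn (tl [(427, .ofNat 2)]) te) te) te))) (tn (tn (tn (tn (tn (tl [(386, .ofNat 1)]) te) te) te) te) te)) (tn (tn (tn (tn te (tn te (tn (tl [(434, .ofNat 2)]) te))) te) te) (tn (tn (tn (tn (tn (tl [(387, .ofNat 1), (390, .ofNat 2), (391, .ofNat 2)]) te) te) te) te) (tn te (tn (tn (tn (tl [(429, .ofNat 1)]) te) (tn (tl [(434, .ofNat 1)]) te)) te))))) (tn (tn (tn (tn (tn (tn (tn (tl [(220, .ofNat 1), (221, .ofNat 1), (223, .ofNat 1), (225, .ofNat 2)]) te) te) (tn te (tn (tl [(434, .ofNat 1)]) te)))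 te) (tn te (tn (tn (tn (tl [(427, .ofNat 2)]) te) te) te))) (tn te (tn te (tn (tn (tn (tl [(429, .ofNat 1)]) te) te) te)))) (tn te (tn (tn (tn (tn (tn (tl [(392, .ofNat 2), (393, .ofNat 1)]) te) te) te) te) (tn te (tn (tn (tn (tl [(430, .ofNat 1), (431, .ofNat 1)]) te) (tn (tl [(434, .ofNat 1)]) te)) te)))))) (tn (tn (tn (tn (tn (tn (tn (tn (tl [(213, .ofNat 1), (214, .ofNat 1), (215, .ofNat 2), (216, .ofNat 1), (217, .ofNat 1), (218, .ofNat 2), (219, .ofNat 2)]) te) te) (tn te (tn (tl [(434, .ofNat 2)]) te))) te) (tn te (tn (tn (tn (tl [(427, .ofNat 1)]) te) te) te))) (tn (tn (tn (tn (tn (tl [(386, .ofNat 2)]) te) te) te) te) te)) (tn (tn te (tn te (tn (tn (tn (tl [(427, .ofNat 1)]) te) te) te))) (tn (tn (tn (tn (tn (tl [(387, .ofNat 1), (388, .ofNat 2), (389, .ofNat 2), (390, .ofNat 2), (391, .ofNat 1)]) te) te) te) te) (tn te (tn (tn (tn (tl [(430, .ofNat 2), (431, .ofNat 1)]) te) te) te))))) (tn (tn (tn (tn (tn (tn (tn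 (tl [(233, .ofNat 2), (235, .ofNat 1), (237, .ofNat 1), (238, .ofNat 2), (239, .ofNat 2), (242, .ofNat 1), (243, .ofNat 1), (246, .ofNat 1), (247, .ofNat 1), (250, .ofNat 2), (251, .ofNat 1), (252, .ofNat 2), (253, .ofNat 1), (257, .ofNat 2)]) te) te) (tn te (tn (tl [(434, .ofNat 1)]) te))) te) te) (tn te (tn te (tn (tn (tn (tl [(428, .ofNat 1)]) te) te) te)))) (tn (tn (tn (tn te (tn te (tn (tl [(434, .ofNat 1)]) te))) te) te) (tn (tn (tn (tn (tn (tl [(392, .ofNat 1), (393, .ofNat 2), (394, .ofNat 1), (395, .ofNat 1), (396, .ofNat 1)]) te) te) te) te) (tn te (tn (tn (tn (tl [(430, .ofNat 2)]) te) (tn (tl [(434, .ofNat 1)]) te)) te)))))))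

def r83 : Tr SV := (tn (tn (tn (tn (tn te (tn (tn (tn (tn (tl [(403, .ofNat 1), (404, .ofNat 2), (405, .ofNat 2), (407, .ofNat 1), (408, .ofNat 2)]) te) te) te) te)) (tn (tn (tn (tn (tn (tl [(386, .ofNat 1)]) te) te) te) te) te)) (tn (tn te (tn te (tn (tn (tn (tl [(427, .ofNat 2)]) te) te) te))) (tn (tn (tn (tn (tn (tl [(388, .ofNat 2), (389, .ofNat 2), (390, .ofNat 2), (391, .ofNat 2)]) te) te) te) te) (tn te (tn (tn (tn (tl [(428, .ofNat 1)]) te) (tn (tl [(434, .ofNat 1)]) te)) te))))) (tn (tn (tn (tn (tn (tn (tn (tl [(221, .ofNat 2), (223, .ofNat 2), (224, .ofNat 1), (225, .ofNat 1)]) te) te) (tn te (tn (tl [(434, .ofNat 1)]) te))) te) te) (tn te (tn te (tn (tn (tn (tl [(429, .ofNat 1)]) te) (tn (tl [(434, .ofNat 2)]) te)) te)))) (tn (tn (tn (tn te (tn te (tn (tl [(434, .ofNat 2)]) te))) te) (tn te (tn (tn (tn (tl [(427, .ofNat 1)]) te) te) te))) (tn (tn (tn (tn (tn (tl [(392, .ofNat 1), (393, .ofNat 2), (394, .ofNat 1),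 (395, .ofNat 2)]) te) te) te) te) (tn te (tn (tn (tn (tl [(430, .ofNat 2), (431, .ofNat 2)]) te) te) te)))))) (tn (tn (tn (tn (tn (tn (tn (tn (tl [(214, .ofNat 2), (215, .ofNat 1), (218, .ofNat 2), (219, .ofNat 2)]) te) te) (tn te (tn (tl [(434, .ofNat 2)]) te))) te) (tn te (tn (tn (tn (tl [(427, .ofNat 2)]) te) te) te))) (tn (tn (tn (tn (tn (tl [(386, .ofNat 2)]) te) te) te) te) te)) (tn (tn (tn (tn te (tn te (tn (tl [(434, .ofNat 1)]) te))) te) te) (tn (tn (tn (tn (tn (tl [(387, .ofNat 1), (388, .ofNat 1), (389, .ofNat 2), (390, .ofNat 2), (391, .ofNat 1)]) te) te) te) te) (tn te (tn (tn (tn (tl [(431, .ofNat 2)]) te) te) te))))) (tn (tn (tn (tn (tn (tn (tn (tl [(233, .ofNat 1), (234, .ofNat 2), (235, .ofNat 2), (237, .ofNat 2), (238, .ofNat 1), (239, .ofNat 1), (242, .ofNat 2), (243, .ofNat 2), (245, .ofNat 1), (246, .ofNat 2), (247, .ofNat 2), (249, .ofNat 1), (250, .ofNat 1), (251, .ofNat 2), (257, .ofNat 1)]) te) te)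 te) te) (tn te (tn (tn (tn (tl [(427, .ofNat 2)]) te) te) te))) (tn te (tn te (tn (tn (tn (tl [(428, .ofNat 2), (429, .ofNat 1)]) te) te) te)))) (tn te (tn (tn (tn (tn (tn (tl [(392, .ofNat 2), (393, .ofNat 2), (394, .ofNat 1), (395, .ofNat 2), (396, .ofNat 1)]) te) te) te) te) (tn te (tn (tn (tn (tl [(430, .ofNat 2)]) te) (tn (tl [(434, .ofNat 1)]) te)) te)))))))

def r84 : Tr SV := (tn (tn (tn (tn (tn (tn (tn te (tn te (tn (tl [(434, .ofNat 1)]) te))) te) (tn (tn (tn (tn (tl [(402, .ofNat 2), (403, .ofNat 1), (404, .ofNat 2), (405, .ofNat 1), (408, .ofNat 1)]) te) te) te) (tn (tn (tn (tl [(427, .ofNat 2)]) te) te) te))) (tn (tn (tn (tn (tn (tl [(386, .ofNat 2)]) te) te) te) te) te)) (tn (tn (tn (tn te (tn te (tn (tl [(434, .ofNat 2)]) te))) te) te) (tn (tn (tn (tn (tn (tl [(387, .ofNat 2), (388, .ofNat 1), (389, .ofNat 2), (391, .ofNat 1)]) te) te) te) te) (tn te (tn (tn (tn (tl [(428, .ofNat 2), (429, .ofNat 1)]) te) (tn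 (tl [(434, .ofNat 1)]) te)) te))))) (tn (tn (tn (tn (tn (tn (tn (tl [(220, .ofNat 1), (221, .ofNat 2), (222, .ofNat 1), (224, .ofNat 1), (226, .ofNat 1)]) te) te) (tn te (tn (tl [(434, .ofNat 2)]) te))) te) (tn te (tn (tn (tn (tl [(427, .ofNat 1)]) te) te) te))) (tn te (tn te (tn (tn (tn (tl [(428, .ofNat 2)]) te) (tn (tl [(434, .ofNat 2)]) te)) te)))) (tn (tn (tn (tn te (tn te (tn (tl [(434, .ofNat 2)]) te))) te) (tn te (tn (tn (tn (tl [(427, .ofNat 2)]) te) te) te))) (tn (tn (tn (tn (tn (tl [(394, .ofNat 1), (396, .ofNat 1)]) te) te) te) te) (tn te (tn (tn (tn (tl [(430, .ofNat 1), (431, .ofNat 1)]) te) (tn (tl [(434, .ofNat 2)]) te)) te)))))) (tn (tn (tn (tn (tn (tn (tn (tn (tl [(213, .ofNat 1), (214, .ofNat 1), (215, .ofNat 1), (217, .ofNat 1), (218, .ofNat 1)]) te) te) te) te) (tn te (tn (tn (tn (tl [(427, .ofNat 1)]) te) te) te))) (tn (tn (tn (tn (tn (tl [(386, .ofNat 1)]) te) te) te) te) te)) (tn (tn (tn (tn te (tn te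 (tn (tl [(434, .ofNat 2)]) te))) te) te) (tn (tn (tn (tn (tn (tl [(387, .ofNat 1), (388, .ofNat 2), (389, .ofNat 2), (390, .ofNat 1)]) te) te) te) te) (tn te (tn (tn (tn (tl [(430, .ofNat 1)]) te) (tn (tl [(434, .ofNat 2)]) te)) te))))) (tn (tn (tn (tn (tn (tn (tn (tl [(233, .ofNat 2), (234, .ofNat 1), (236, .ofNat 2), (237, .ofNat 2), (238, .ofNat 2), (241, .ofNat 1), (242, .ofNat 1), (243, .ofNat 2), (244, .ofNat 2), (247, .ofNat 2), (252, .ofNat 1), (253, .ofNat 2), (254, .ofNat 2), (255, .ofNat 1), (257, .ofNat 1)]) te) te) (tn te (tn (tl [(434, .ofNat 2)]) te))) te) te) (tn te (tn te (tn (tn (tn (tl [(428, .ofNat 1)]) te) te) te)))) (tn (tn (tn (tn te (tn te (tn (tl [(434, .ofNat 2)]) te))) te) te) (tn (tn (tn (tn (tn (tl [(393, .ofNat 1), (395, .ofNat 2)]) te) te) te) te) (tn te (tn (tn (tn (tl [(430, .ofNat 1), (431, .ofNat 2)]) te) (tn (tl [(434, .ofNat 2)]) te)) te)))))))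

def r85 : Tr SV := (tn (tn (tn (tn (tn (tn (tn te (tn te (tn (tl [(434, .ofNat 1)]) te))) te) (tn (tn (tn (tn (tl [(402, .ofNat 2), (403, .ofNat 2), (405, .ofNat 2), (406, .ofNat 1)]) te) te) te) te)) (tn (tn (tn (tn (tn (tl [(386, .ofNat 1)]) te) te) te) te) te)) (tn (tn (tn (tn te (tn te (tn (tl [(434, .ofNat 2)]) te))) te) (tn te (tn (tn (tn (tl [(427, .ofNat 2)]) te) te) te))) (tn (tn (tn (tn (tn (tl [(388, .ofNat 1), (389, .ofNat 2), (391, .ofNat 2)]) te) te) te) te) (tn te (tn (tn (tn (tl [(428, .ofNat 2), (429, .ofNat 1)]) te) (tn (tl [(434, .ofNat 1)]) te)) te))))) (tn (tn (tn (tn (tn (tn (tn (tl [(220, .ofNat 1), (221, .ofNat 2), (226, .ofNat 2)]) te) te) (tn te (tn (tl [(434, .ofNat 1)]) te))) te) (tn te (tn (tn (tn (tl [(427, .ofNat 1)]) te) te) te))) (tn te (tn te (tn (tn (tn (tl [(428, .ofNat 2), (429, .ofNat 2)]) te) (tn (tl [(434, .ofNat 1)]) te)) te)))) (tn (tn (tn (tn te (tn te (tn (tl [(434, .ofNat 1)]) te)))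 te) te) (tn (tn (tn (tn (tn (tl [(392, .ofNat 1), (393, .ofNat 2), (394, .ofNat 2)]) te) te) te) te) (tn te (tn (tn (tn (tl [(430, .ofNat 1), (431, .ofNat 1)]) te) (tn (tl [(434, .ofNat 2)]) te)) te)))))) (tn (tn (tn (tn (tn (tn (tn (tn (tl [(213, .ofNat 2), (214, .ofNat 2), (217, .ofNat 2), (219, .ofNat 1)]) te) te) (tn te (tn (tl [(434, .ofNat 2)]) te))) te) (tn te (tn (tn (tn (tl [(427, .ofNat 2)]) te) te) te))) (tn (tn (tn (tn (tn (tl [(386, .ofNat 2)]) te) te) te) te) te)) (tn (tn (tn (tn te (tn te (tn (tl [(434, .ofNat 1)]) te))) te) (tn te (tn (tn (tn (tl [(427, .ofNat 2)]) te) te) te))) (tn (tn (tn (tn (tn (tl [(387, .ofNat 1), (388, .ofNat 2), (389, .ofNat 1), (390, .ofNat 1), (391, .ofNat 2)]) te) te) te) te) (tn te (tn (tn (tn (tl [(431, .ofNat 1)]) te) (tn (tl [(434, .ofNat 2)]) te)) te))))) (tn (tn (tn (tn (tn (tn (tn (tl [(233, .ofNat 1), (234, .ofNat 1), (236, .ofNat 1), (237, .ofNat 1), (238, .ofNat 2), (241,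 .ofNat 2), (242, .ofNat 2), (244, .ofNat 1), (247, .ofNat 1), (248, .ofNat 1), (249, .ofNat 1), (252, .ofNat 2), (253, .ofNat 1), (254, .ofNat 1), (255, .ofNat 2)]) te) te) (tn te (tn (tl [(434, .ofNat 2)]) te))) te) (tn te (tn (tn (tn (tl [(427, .ofNat 1)]) te) te) te))) (tn te (tn te (tn (tn (tn (tl [(428, .ofNat 1), (429, .ofNat 2)]) te) (tn (tl [(434, .ofNat 1)]) te)) te)))) (tn te (tn (tn (tn (tn (tn (tl [(392, .ofNat 1), (393, .ofNat 2), (394, .ofNat 1), (396, .ofNat 2)]) te) te) te) te) (tn te (tn (tn (tn (tl [(430, .ofNat 1)]) te) te) te)))))))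

def r86 : Tr SV := (tn (tn (tn (tn (tn (tn (tn te (tn te (tn (tl [(434, .ofNat 1)]) te))) te) (tn (tn (tn (tn (tl [(402, .ofNat 2), (403, .ofNat 2), (404, .ofNat 1), (405, .ofNat 1), (406, .ofNat 1), (407, .ofNat 1)]) te) te) te) (tn (tn (tn (tl [(427, .ofNat 2)]) te) te) te))) (tn (tn (tn (tn (tn (tl [(386, .ofNat 2)]) te) te) te) te) te)) (tn (tn te (tn te (tn (tn (tn (tl [(427, .ofNat 2)]) te) te) te))) (tn (tn (tn (tn (tn (tl [(388, .ofNat 1), (390, .ofNat 1), (391, .ofNat 1)]) te) te) te) te) (tn te (tn (tn (tn (tl [(428, .ofNat 2), (429, .ofNat 1)]) te) te) te))))) (tn (tn (tn (tn (tn (tn (tn (tl [(221, .ofNat 2), (223, .ofNat 1), (226, .ofNat 1)]) te) te) (tn te (tn (tl [(434, .ofNat 1)]) te))) te) (tn te (tn (tn (tn (tl [(427, .ofNat 1)]) te) te) te))) (tn te (tn te (tn (tn (tn (tl [(429, .ofNat 2)]) te) (tn (tl [(434, .ofNat 1)]) te)) te)))) (tn (tn te (tn te (tn (tn (tn (tl [(427, .ofNat 2)]) te) te) te))) (tn (tn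 (tn (tn (tn (tl [(392, .ofNat 1), (393, .ofNat 1), (395, .ofNat 2), (396, .ofNat 1)]) te) te) te) te) (tn te (tn (tn (tn (tl [(430, .ofNat 1), (431, .ofNat 2)]) te) (tn (tl [(434, .ofNat 1)]) te)) te)))))) (tn (tn (tn (tn (tn (tn (tn (tn (tl [(214, .ofNat 2), (215, .ofNat 2), (218, .ofNat 2)]) te) te) te) te) (tn te (tn (tn (tn (tl [(427, .ofNat 2)]) te) te) te))) te) (tn te (tn (tn (tn (tn (tn (tl [(387, .ofNat 2), (390, .ofNat 2)]) te) te) te) te) (tn te (tn (tn (tn (tl [(430, .ofNat 1)]) te) (tn (tl [(434, .ofNat 1)]) te)) te))))) (tn (tn (tn (tn (tn (tn (tn (tl [(234, .ofNat 2), (235, .ofNat 1), (236, .ofNat 1), (237, .ofNat 2), (239, .ofNat 2), (241, .ofNat 2), (243, .ofNat 1), (244, .ofNat 1), (245, .ofNat 2), (246, .ofNat 1), (247, .ofNat 2), (248, .ofNat 1), (250, .ofNat 2), (251, .ofNat 1), (252, .ofNat 2), (253, .ofNat 2), (254, .ofNat 1), (255, .ofNat 2), (257, .ofNat 2)]) te) te) te) te) te) (tn te (tn te (tn (tn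 te (tn (tl [(434, .ofNat 2)]) te)) te)))) (tn (tn (tn (tn te (tn te (tn (tl [(434, .ofNat 2)]) te))) te) te) (tn (tn (tn (tn (tn (tl [(394, .ofNat 1), (395, .ofNat 2), (396, .ofNat 2)]) te) te) te) te) (tn te (tn (tn (tn (tl [(431, .ofNat 1)]) te) (tn (tl [(434, .ofNat 2)]) te)) te)))))))

def r87 : Tr SV := (tn (tn (tn (tn (tn te (tn (tn (tn (tn (tl [(402, .ofNat 1), (403, .ofNat 2), (404, .ofNat 1), (405, .ofNat 1), (407, .ofNat 1)]) te) te) te) (tn (tn (tn (tl [(427, .ofNat 1)]) te) te) te))) (tn (tn (tn (tn (tn (tl [(386, .ofNat 2)]) te) te) te) te) te)) (tn (tn te (tn te (tn (tn (tn (tl [(427, .ofNat 1)]) te) te) te))) (tn (tn (tn (tn (tn (tl [(387, .ofNat 1), (388, .ofNat 2)]) te) te) te) te) (tn te (tn (tn (tn (tl [(428, .ofNat 1), (429, .ofNat 1)]) te) (tn (tl [(434, .ofNat 2)]) te)) te))))) (tn (tn (tn (tn (tn (tn (tn (tl [(220, .ofNat 2), (221, .ofNat 2), (222, .ofNat 2), (223, .ofNat 1), (225, .ofNat 2), (226, .ofNat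 1)]) te) te) (tn te (tn (tl [(434, .ofNat 2)]) te))) te) (tn te (tn (tn (tn (tl [(427, .ofNat 2)]) te) te) te))) (tn te (tn te (tn (tn (tn (tl [(428, .ofNat 1)]) te) (tn (tl [(434, .ofNat 2)]) te)) te)))) (tn (tn (tn (tn te (tn te (tn (tl [(434, .ofNat 1)]) te))) te) (tn te (tn (tn (tn (tl [(427, .ofNat 1)]) te) te) te))) (tn (tn (tn (tn (tn (tl [(392, .ofNat 1), (393, .ofNat 2), (394, .ofNat 1), (395, .ofNat 1), (396, .ofNat 2)]) te) te) te) te) (tn te (tn (tn (tn (tl [(430, .ofNat 2), (431, .ofNat 1)]) te) (tn (tl [(434, .ofNat 1)]) te)) te)))))) (tn (tn (tn (tn (tn (tn (tn (tn (tl [(213, .ofNat 1), (214, .ofNat 1), (216, .ofNat 1), (217, .ofNat 2)]) te) te) te) te) (tn te (tn (tn (tn (tl [(427, .ofNat 1)]) te) te) te))) te) (tn (tn (tn (tn te (tn te (tn (tl [(434, .ofNat 2)]) te))) te) te) (tn (tn (tn (tn (tn (tl [(387, .ofNat 1), (388, .ofNat 1), (389, .ofNat 2), (390, .ofNat 1)]) te) te) te) te) (tn te (tn (tn (tn (tl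 [(430, .ofNat 2), (431, .ofNat 1)]) te) te) te))))) (tn (tn (tn (tn (tn (tn (tn (tl [(233, .ofNat 2), (234, .ofNat 1), (236, .ofNat 2), (237, .ofNat 2), (238, .ofNat 2), (242, .ofNat 1), (244, .ofNat 2), (247, .ofNat 2), (248, .ofNat 2), (252, .ofNat 1), (253, .ofNat 2), (254, .ofNat 2), (255, .ofNat 2)]) te) te) (tn te (tn (tl [(434, .ofNat 1)]) te))) te) te) (tn te (tn te (tn (tn (tn (tl [(429, .ofNat 2)]) te) (tn (tl [(434, .ofNat 2)]) te)) te)))) (tn te (tn (tn (tn (tn (tn (tl [(396, .ofNat 1)]) te) te) te) te) (tn te (tn (tn (tn (tl [(431, .ofNat 2)]) te) (tn (tl [(434, .ofNat 1)]) te)) te)))))))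

def r88 : Tr SV := (tn (tn (tn (tn (tn te (tn (tn (tn (tn (tl [(403, .ofNat 2), (405, .ofNat 1), (406, .ofNat 1), (407, .ofNat 1)]) te) te) te) te)) (tn (tn (tn (tn (tn (tl [(386, .ofNat 1)]) te) te) te) te) te)) (tn (tn (tn (tn te (tn te (tn (tl [(434, .ofNat 2)]) te))) te) te) (tn (tn (tn (tn (tn (tl [(387, .ofNat 2), (388, .ofNat 1), (389, .ofNat 2), (390, .ofNat 2)]) te) te) te) te) (tn te (tn (tn (tn (tl [(428, .ofNat 2), (429, .ofNat 2)]) te) te) te))))) (tn (tn (tn (tn (tn (tn (tn (tl [(220, .ofNat 1), (221, .ofNat 2), (222, .ofNat 1), (224, .ofNat 2), (225, .ofNat 1), (226, .ofNat 1)]) te) te) (tn te (tn (tl [(434, .ofNat 1)]) te))) te) te) (tn te (tn te (tn (tn te (tn (tl [(434, .ofNat 2)]) te)) te)))) (tn (tn te (tn te (tn (tn (tn (tl [(427, .ofNat 1)]) te) te) te))) (tn (tn (tn (tn (tn (tl [(392, .ofNat 1), (393, .ofNat 1), (395, .ofNat 1), (396, .ofNat 2)]) te) te) te) te) (tn te (tn (tn (tn (tl [(430, .ofNat 2),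 (431, .ofNat 1)]) te) te) te)))))) (tn (tn (tn (tn (tn (tn (tn (tn (tl [(213, .ofNat 2), (214, .ofNat 2), (215, .ofNat 2), (216, .ofNat 2), (218, .ofNat 1), (219, .ofNat 1)]) te) te) (tn te (tn (tl [(434, .ofNat 2)]) te))) te) (tn te (tn (tn (tn (tl [(427, .ofNat 1)]) te) te) te))) (tn (tn (tn (tn (tn (tl [(386, .ofNat 2)]) te) te) te) te) te)) (tn te (tn (tn (tn (tn (tn (tl [(387, .ofNat 2), (388, .ofNat 2), (390, .ofNat 2)]) te) te) te) te) (tn te (tn (tn (tn (tl [(430, .ofNat 2)]) te) (tn (tl [(434, .ofNat 1)]) te)) te))))) (tn (tn (tn (tn (tn (tn (tn (tl [(233, .ofNat 1), (234, .ofNat 2), (235, .ofNat 2), (237, .ofNat 2), (238, .ofNat 1), (239, .ofNat 1), (242, .ofNat 2), (243, .ofNat 2), (245, .ofNat 1), (246, .ofNat 1), (247, .ofNat 2), (249, .ofNat 1), (250, .ofNat 1), (251, .ofNat 2), (256, .ofNat 1), (257, .ofNat 1)]) te) te) (tn te (tn (tl [(434, .ofNat 1)]) te))) te) (tn te (tn (tn (tn (tl [(427, .ofNat 2)]) te)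 te) te))) (tn te (tn te (tn (tn (tn (tl [(428, .ofNat 2), (429, .ofNat 2)]) te) (tn (tl [(434, .ofNat 2)]) te)) te)))) (tn te (tn (tn (tn (tn (tn (tl [(392, .ofNat 1), (394, .ofNat 2)]) te) te) te) te) (tn te (tn (tn (tn (tl [(430, .ofNat 1), (431, .ofNat 1)]) te) te) te)))))))

def r89 : Tr SV := (tn (tn (tn (tn (tn te (tn (tn (tn (tn (tl [(402, .ofNat 1), (403, .ofNat 1), (405, .ofNat 2), (406, .ofNat 1), (407, .ofNat 2), (408, .ofNat 2)]) te) te) te) te)) te) (tn (tn te (tn te (tn (tn (tn (tl [(427, .ofNat 2)]) te) te) te))) (tn (tn (tn (tn (tn (tl [(387, .ofNat 1), (390, .ofNat 2), (391, .ofNat 1)]) te) te) te) te) (tn te (tn (tn (tn (tl [(428, .ofNat 2), (429, .ofNat 2)]) te) te) te))))) (tn (tn (tn (tn (tn (tn (tn (tl [(220, .ofNat 2), (221, .ofNat 1), (222, .ofNat 2), (223, .ofNat 2), (224, .ofNat 1), (225, .ofNat 1)]) te) te) (tn te (tn (tl [(434, .ofNat 2)]) te))) te) (tn te (tn (tn (tn (tl [(427, .ofNat 1)]) te) te)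 te))) (tn te (tn te (tn (tn (tn (tl [(428, .ofNat 1), (429, .ofNat 1)]) te) (tn (tl [(434, .ofNat 2)]) te)) te)))) (tn (tn (tn (tn te (tn te (tn (tl [(434, .ofNat 2)]) te))) te) te) (tn (tn (tn (tn (tn (tl [(393, .ofNat 1), (394, .ofNat 1), (396, .ofNat 1)]) te) te) te) te) (tn te (tn (tn (tn (tl [(431, .ofNat 1)]) te) te) te)))))) (tn (tn (tn (tn (tn (tn (tn (tn (tl [(213, .ofNat 2), (214, .ofNat 2), (216, .ofNat 1), (217, .ofNat 2), (218, .ofNat 2), (219, .ofNat 2)]) te) te) te) te) (tn te (tn (tn (tn (tl [(427, .ofNat 1)]) te) te) te))) (tn (tn (tn (tn (tn (tl [(386, .ofNat 1)]) te) te) te) te) te)) (tn (tn (tn (tn te (tn te (tn (tl [(434, .ofNat 1)]) te))) te) (tn te (tn (tn (tn (tl [(427, .ofNat 1)]) te) te) te))) (tn (tn (tn (tn (tn (tl [(388, .ofNat 2), (390, .ofNat 1), (391, .ofNat 1)]) te) te) te) te) (tn te (tn (tn (tn (tl [(431, .ofNat 2)]) te) te) te))))) (tn (tn (tn (tn (tn (tn (tn (tl [(234, .ofNat 2), (235, .ofNat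 1), (236, .ofNat 1), (237, .ofNat 2), (238, .ofNat 1), (239, .ofNat 2), (244, .ofNat 1), (245, .ofNat 2), (246, .ofNat 1), (247, .ofNat 2), (248, .ofNat 1), (250, .ofNat 2), (251, .ofNat 1), (252, .ofNat 2), (253, .ofNat 1), (254, .ofNat 1), (255, .ofNat 2)]) te) te) te) te) te) te) (tn (tn (tn (tn te (tn te (tn (tl [(434, .ofNat 2)]) te))) te) te) (tn (tn (tn (tn (tn (tl [(392, .ofNat 2), (393, .ofNat 1), (395, .ofNat 1)]) te) te) te) te) (tn te (tn (tn (tn (tl [(430, .ofNat 1)]) te) (tn (tl [(434, .ofNat 2)]) te)) te)))))))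

def r90 : Tr SV := (tn (tn (tn (tn (tn (tn (tn (tn (tn (tl [(217, .ofNat 1), (218, .ofNat 1), (219, .ofNat 2)]) te) te) te) te) (tn te (tn (tn te (tn (tl [(434, .ofNat 1)]) te)) te))) (tn te (tn te (tn (tn (tn (tl [(428, .ofNat 2), (429, .ofNat 2)]) te) te) te)))) (tn (tn te (tn te (tn (tn te (tn (tl [(434, .ofNat 1)]) te)) te))) (tn (tn te (tn (tn (tn (tl [(427, .ofNat 2)]) te) te) te)) te))) (tn (tn (tn (tn (tn (tn (tn (tl [(228, .ofNat 1), (230, .ofNat 2), (232, .ofNat 2)]) te) te) te) te) te) (tn (tn (tn (tn (tn (tl [(387, .ofNat 1), (388, .ofNat 1), (390, .ofNat 1), (391, .ofNat 1)]) te) te) te) te) te)) (tn te (tn (tn (tn (tn (tn (tl [(397, .ofNat 1), (398, .ofNat 2), (401, .ofNat 2)]) te) te) te) te) (tn te (tn (tn (tn (tl [(432, .ofNat 1), (433, .ofNat 1)]) te) te) te)))))) (tn (tn (tn te (tn te (tn te (tn (tn (tn (tl [(428, .ofNat 2), (429, .ofNat 2)]) te) te) te)))) (tn te (tn te (tn te (tn (tn (tn (tl [(432, .ofNat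 1), (433, .ofNat 2)]) te) te) te))))) (tn (tn (tn (tn (tn (tn (tn (tl [(258, .ofNat 2), (259, .ofNat 2), (262, .ofNat 2), (263, .ofNat 1), (264, .ofNat 1), (265, .ofNat 1), (266, .ofNat 1), (267, .ofNat 1), (269, .ofNat 2), (270, .ofNat 2), (271, .ofNat 2), (272, .ofNat 1), (273, .ofNat 2), (274, .ofNat 1), (276, .ofNat 2), (277, .ofNat 1)]) te) te) te) te) te) (tn (tn (tn (tn (tn (tl [(387, .ofNat 2), (388, .ofNat 2), (390, .ofNat 2), (391, .ofNat 2)]) te) te) te) te) te)) (tn (tn te (tn te (tn (tn (tn (tl [(428, .ofNat 2), (429, .ofNat 2)]) te) te) te))) (tn (tn (tn (tn (tn (tl [(397, .ofNat 2), (398, .ofNat 2), (399, .ofNat 1), (400, .ofNat 1)]) te) te) te) te) (tn te (tn (tn (tn (tl [(432, .ofNat 1), (433, .ofNat 1)]) te) te) te)))))))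

def r91 : Tr SV := (tn (tn (tn (tn (tn (tn (tn (tn (tn (tl [(213, .ofNat 1), (214, .ofNat 2), (216, .ofNat 2), (217, .ofNat 1), (218, .ofNat 1)]) te) te) te) te) (tn (tn (tn (tn (tl [(410, .ofNat 2), (411, .ofNat 1), (412, .ofNat 1)]) te) te) te) (tn (tn te (tn (tl [(434, .ofNat 2)]) te)) te))) (tn te (tn te (tn (tn (tn (tl [(428, .ofNat 1), (429, .ofNat 1)]) te) te) te)))) (tn (tn te (tn te (tn (tn te (tn (tl [(434, .ofNat 2)]) te)) te))) (tn (tn te (tn (tn (tn (tl [(427, .ofNat 1)]) te) te) te)) te))) (tn (tn (tn (tn (tn (tn (tn (tl [(228, .ofNat 2), (229, .ofNat 2), (230, .ofNat 2), (231, .ofNat 1), (232, .ofNat 2)]) te) te) te) te) (tn te (tn (tn te (tn (tl [(434, .ofNat 1)]) te)) te))) (tn (tn (tn (tn (tn (tl [(388, .ofNat 1), (389, .ofNat 2), (390, .ofNat 2)]) te) te) te) te) te)) (tn te (tn (tn (tn (tn (tn (tl [(397, .ofNat 1), (399, .ofNat 1), (400, .ofNat 2)]) te) te) te) (tn (tn (tn (tl [(427, .ofNat 2)]) te) te)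 te)) (tn te (tn (tn (tn (tl [(432, .ofNat 1), (433, .ofNat 1)]) te) te) te)))))) (tn (tn (tn te (tn te (tn te (tn (tn (tn (tl [(428, .ofNat 2), (429, .ofNat 2)]) te) te) te)))) (tn te (tn te (tn te (tn (tn (tn (tl [(433, .ofNat 1)]) te) te) te))))) (tn (tn (tn (tn (tn (tn (tn (tl [(258, .ofNat 1), (260, .ofNat 2), (261, .ofNat 1), (263, .ofNat 1), (264, .ofNat 2), (266, .ofNat 2), (268, .ofNat 2), (269, .ofNat 1), (270, .ofNat 2), (272, .ofNat 1), (273, .ofNat 2), (276, .ofNat 1), (277, .ofNat 2)]) te) te) te) te) te) (tn (tn (tn (tn (tn (tl [(387, .ofNat 2), (388, .ofNat 2), (390, .ofNat 2), (391, .ofNat 2)]) te) te) te) (tn (tn (tn (tl [(427, .ofNat 2)]) te) te) te)) te)) (tn (tn (tn (tn (tn (tn (tl [(386, .ofNat 2)]) te) te) te) te) (tn te (tn (tn te (tn (tl [(434, .ofNat 1)]) te)) te))) (tn (tn (tn (tn (tn (tl [(397, .ofNat 2), (398, .ofNat 2), (399, .ofNat 1), (400, .ofNat 1)]) te) te) te) (tn (tn te (tn (tl [(434, .ofNat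 1)]) te)) te)) (tn te (tn (tn (tn (tl [(432, .ofNat 1), (433, .ofNat 1)]) te) te) te)))))))

def r92 : Tr SV := (tn (tn (tn (tn (tn (tn (tn (tn (tn (tl [(214, .ofNat 1), (215, .ofNat 1), (216, .ofNat 1), (217, .ofNat 1), (219, .ofNat 1)]) te) te) te) te) (tn (tn (tn (tn (tl [(410, .ofNat 1), (411, .ofNat 1), (413, .ofNat 2)]) te) te) te) (tn (tn te (tn (tl [(434, .ofNat 2)]) te)) te))) (tn te (tn te (tn (tn (tn (tl [(428, .ofNat 1), (429, .ofNat 2)]) te) (tn (tl [(434, .ofNat 1)]) te)) te)))) (tn (tn te (tn te (tn (tn te (tn (tl [(434, .ofNat 1)]) te)) te))) (tn (tn te (tn (tn (tn (tl [(427, .ofNat 2)]) te) te) te)) te))) (tn (tn (tn (tn (tn (tn (tn (tl [(227, .ofNat 1), (232, .ofNat 2)]) te) te) te) te) (tn te (tn (tn te (tn (tl [(434, .ofNat 2)]) te)) te))) (tn (tn (tn (tn (tn (tl [(388, .ofNat 2), (390, .ofNat 2), (391, .ofNat 2)]) te) te) te) te) te)) (tn (tn te (tn te (tn (tn te (tn (tl [(434, .ofNat 1)]) te)) te))) (tn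 (tn (tn (tn (tn (tl [(397, .ofNat 2), (398, .ofNat 1), (399, .ofNat 1), (401, .ofNat 1)]) te) te) te) te) te)))) (tn (tn (tn (tn te (tn te (tn (tn te (tn (tl [(434, .ofNat 1)]) te)) te))) (tn te (tn te (tn (tn (tn (tl [(428, .ofNat 2), (429, .ofNat 2)]) te) (tn (tl [(434, .ofNat 1)]) te)) te)))) (tn (tn te (tn te (tn (tn te (tn (tl [(434, .ofNat 1)]) te)) te))) (tn (tn te (tn (tn (tn (tl [(427, .ofNat 2)]) te) te) te)) (tn te (tn (tn (tn (tl [(432, .ofNat 1)]) te) te) te))))) (tn (tn (tn (tn (tn (tn (tn (tl [(259, .ofNat 1), (260, .ofNat 1), (261, .ofNat 2), (263, .ofNat 2), (265, .ofNat 2), (266, .ofNat 1), (267, .ofNat 2), (268, .ofNat 2), (269, .ofNat 2), (270, .ofNat 2), (272, .ofNat 2), (273, .ofNat 2), (274, .ofNat 1), (275, .ofNat 2)]) te) te) te) te) te) (tn (tn (tn (tn (tn (tl [(387, .ofNat 1), (389, .ofNat 2), (390, .ofNat 2), (391, .ofNat 1)]) te) te) te) (tn (tn (tn (tl [(427, .ofNat 2)]) te) te) te)) te)) (tn (tn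 (tn (tn (tn (tn (tl [(386, .ofNat 1)]) te) te) te) te) (tn te (tn (tn (tn (tl [(428, .ofNat 1), (429, .ofNat 2)]) te) (tn (tl [(434, .ofNat 2)]) te)) te))) (tn (tn (tn (tn (tn (tl [(398, .ofNat 1), (399, .ofNat 1), (400, .ofNat 1), (401, .ofNat 1)]) te) te) te) (tn (tn (tn (tl [(427, .ofNat 2)]) te) te) te)) (tn te (tn (tn (tn (tl [(432, .ofNat 2), (433, .ofNat 2)]) te) te) te)))))))

def r93 : Tr SV := (tn (tn (tn (tn (tn (tn (tn (tn (tn (tl [(215, .ofNat 1), (216, .ofNat 2), (217, .ofNat 1), (219, .ofNat 1)]) te) te) te) te) (tn (tn (tn (tn (tl [(409, .ofNat 1), (411, .ofNat 1), (413, .ofNat 2)]) te) te) te) (tn (tn te (tn (tl [(434, .ofNat 2)]) te)) te))) (tn te (tn te (tn (tn (tn (tl [(428, .ofNat 1), (429, .ofNat 1)]) te) te) te)))) (tn te (tn (tn te (tn (tn (tn (tl [(427, .ofNat 1)]) te) te) te)) te))) (tn (tn (tn (tn (tn (tn (tn (tl [(227, .ofNat 1), (231, .ofNat 2), (232, .ofNat 1)]) te) te) te) te) (tn te (tn (tn te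 (tn (tl [(434, .ofNat 1)]) te)) te))) (tn (tn (tn (tn (tn (tl [(388, .ofNat 2), (389, .ofNat 2), (390, .ofNat 2)]) te) te) te) te) te)) (tn (tn te (tn te (tn (tn te (tn (tl [(434, .ofNat 1)]) te)) te))) (tn (tn (tn (tn (tn (tl [(398, .ofNat 2), (399, .ofNat 2), (400, .ofNat 1), (401, .ofNat 2)]) te) te) te) (tn (tn (tn (tl [(427, .ofNat 1)]) te) te) te)) (tn te (tn (tn (tn (tl [(432, .ofNat 2), (433, .ofNat 2)]) te) te) te)))))) (tn (tn (tn (tn te (tn te (tn (tn te (tn (tl [(434, .ofNat 2)]) te)) te))) (tn te (tn te (tn (tn (tn (tl [(429, .ofNat 2)]) te) te) te)))) (tn (tn te (tn te (tn (tn te (tn (tl [(434, .ofNat 2)]) te)) te))) (tn te (tn te (tn (tn (tn (tl [(432, .ofNat 1), (433, .ofNat 1)]) te) te) te))))) (tn (tn (tn (tn (tn (tn (tn (tl [(258, .ofNat 2), (260, .ofNat 1), (261, .ofNat 2), (262, .ofNat 2), (263, .ofNat 2), (264, .ofNat 1), (265, .ofNat 1), (266, .ofNat 2), (267, .ofNat 2), (268, .ofNat 2), (269, .ofNat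 1), (270, .ofNat 2), (272, .ofNat 2), (273, .ofNat 1), (274, .ofNat 2), (275, .ofNat 1)]) te) te) te) te) (tn te (tn (tn te (tn (tl [(434, .ofNat 1)]) te)) te))) (tn (tn (tn (tn (tn (tl [(388, .ofNat 1), (389, .ofNat 2), (391, .ofNat 2)]) te) te) te) te) te)) (tn (tn te (tn te (tn (tn (tn (tl [(428, .ofNat 2), (429, .ofNat 2)]) te) (tn (tl [(434, .ofNat 2)]) te)) te))) (tn (tn (tn (tn (tn (tl [(397, .ofNat 2), (398, .ofNat 2), (399, .ofNat 1), (400, .ofNat 1)]) te) te) te) (tn (tn (tn (tl [(427, .ofNat 1)]) te) (tn (tl [(434, .ofNat 1)]) te)) te)) te)))))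

def r94 : Tr SV := (tn (tn (tn (tn (tn (tn (tn (tn (tn (tl [(216, .ofNat 2), (217, .ofNat 1), (218, .ofNat 2), (219, .ofNat 2)]) te) te) te) te) (tn (tn (tn (tn (tl [(410, .ofNat 1), (411, .ofNat 2), (413, .ofNat 1)]) te) te) te) te)) (tn te (tn te (tn (tn (tn (tl [(428, .ofNat 1)]) te) (tn (tl [(434, .ofNat 2)]) te)) te)))) te) (tn (tn (tn (tn (tn (tn (tn (tl [(227, .ofNat 2), (228, .ofNat 1), (229, .ofNat 1), (230, .ofNat 2), (231, .ofNat 1), (232, .ofNat 2)]) te) te) te) te) te) (tn (tn (tn (tn (tn (tl [(388, .ofNat 2), (389, .ofNat 1)]) te) te) te) te) te)) (tn te (tn (tn (tn (tn (tn (tl [(397, .ofNat 1), (398, .ofNat 2), (400, .ofNat 1), (401, .ofNat 2)]) te) te) te) (tn (tn (tn (tl [(427, .ofNat 2)]) te) te) te)) (tn te (tn (tn (tn (tl [(433, .ofNat 2)]) te) te) te)))))) (tn (tn (tn te (tn te (tn te (tn (tn te (tn (tl [(434, .ofNat 2)]) te)) te)))) (tn (tn te (tn te (tn (tn te (tn (tl [(434, .ofNat 1)]) te)) te))) (tn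 (tn te (tn (tn (tn (tl [(427, .ofNat 1)]) te) te) te)) (tn te (tn (tn (tn (tl [(432, .ofNat 2), (433, .ofNat 2)]) te) te) te))))) (tn (tn (tn (tn (tn (tn (tn (tl [(259, .ofNat 1), (260, .ofNat 1), (262, .ofNat 1), (263, .ofNat 1), (264, .ofNat 2), (265, .ofNat 1), (266, .ofNat 1), (268, .ofNat 2), (269, .ofNat 2), (270, .ofNat 2), (271, .ofNat 1), (272, .ofNat 2), (274, .ofNat 2), (275, .ofNat 2), (277, .ofNat 1)]) te) te) te) te) te) (tn (tn (tn (tn (tn (tl [(387, .ofNat 1), (389, .ofNat 2), (390, .ofNat 2), (391, .ofNat 1)]) te) te) te) te) te)) (tn (tn (tn (tn (tn (tn (tl [(386, .ofNat 1)]) te) te) te) te) (tn te (tn (tn (tn (tl [(429, .ofNat 1)]) te) te) te))) (tn (tn (tn (tn (tn (tl [(397, .ofNat 1), (398, .ofNat 2), (400, .ofNat 1), (401, .ofNat 1)]) te) te) te) (tn (tn (tn (tl [(427, .ofNat 2)]) te) (tn (tl [(434, .ofNat 1)]) te)) te)) te)))))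

def r95 : Tr SV := (tn (tn (tn (tn (tn (tn (tn (tn (tn (tl [(213, .ofNat 2), (214, .ofNat 2), (217, .ofNat 1), (218, .ofNat 2), (219, .ofNat 1)]) te) te) te) te) (tn (tn (tn (tn (tl [(410, .ofNat 1), (411, .ofNat 2), (412, .ofNat 1), (413, .ofNat 1)]) te) te) te) te)) (tn te (tn te (tn (tn (tn (tl [(429, .ofNat 2)]) te) te) te)))) (tn te (tn (tn te (tn (tn (tn (tl [(427, .ofNat 1)]) te) te) te)) te))) (tn (tn (tn (tn (tn (tn (tn (tl [(227, .ofNat 1), (228, .ofNat 2), (230, .ofNat 2), (231, .ofNat 2), (232, .ofNat 1)]) te) te) te) te) (tn te (tn (tn te (tn (tl [(434, .ofNat 1)]) te)) te))) (tn (tn (tn (tn (tn (tl [(387, .ofNat 1), (388, .ofNat 1), (389, .ofNat 1), (390, .ofNat 2)]) te) te) te) te) te)) (tn (tn te (tn te (tn (tn te (tn (tl [(434, .ofNat 1)]) te)) te))) (tn (tn (tn (tn (tn (tl [(397, .ofNat 1), (398, .ofNat 2), (401, .ofNat 2)]) te) te) te) (tn (tn (tn (tl [(427, .ofNat 2)]) te) te) te)) (tn te (tn (tn (tn (tl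 [(432, .ofNat 2), (433, .ofNat 2)]) te) te) te)))))) (tn (tn (tn (tn te (tn te (tn (tn te (tn (tl [(434, .ofNat 1)]) te)) te))) (tn te (tn te (tn (tn (tn (tl [(428, .ofNat 2)]) te) (tn (tl [(434, .ofNat 1)]) te)) te)))) (tn te (tn te (tn te (tn (tn (tn (tl [(432, .ofNat 2)]) te) te) te))))) (tn (tn (tn (tn (tn (tn (tn (tl [(260, .ofNat 1), (262, .ofNat 1), (263, .ofNat 1), (264, .ofNat 2), (266, .ofNat 2), (268, .ofNat 2), (269, .ofNat 2), (270, .ofNat 2), (271, .ofNat 1), (272, .ofNat 2), (273, .ofNat 2), (274, .ofNat 2), (275, .ofNat 1), (277, .ofNat 1)]) te) te) te) te) (tn te (tn (tn te (tn (tl [(434, .ofNat 1)]) te)) te))) (tn (tn (tn (tn (tn (tl [(390, .ofNat 2), (391, .ofNat 1)]) te) te) te) (tn (tn (tn (tl [(427, .ofNat 1)]) te) te) te)) te)) (tn (tn (tn (tn (tn (tn (tl [(386, .ofNat 1)]) te) te) te) te) (tn te (tn (tn te (tn (tl [(434, .ofNat 1)]) te)) te))) (tn (tn (tn (tn (tn (tl [(397, .ofNat 2), (399, .ofNat 1),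 (400, .ofNat 2)]) te) te) te) (tn (tn te (tn (tl [(434, .ofNat 2)]) te)) te)) (tn te (tn (tn (tn (tl [(433, .ofNat 2)]) te) te) te)))))))

def r96 : Tr SV := (tn (tn (tn (tn (tn (tn (tn (tn (tn (tl [(217, .ofNat 2), (219, .ofNat 2)]) te) te) te) te) (tn (tn (tn (tn (tl [(409, .ofNat 1), (410, .ofNat 2), (411, .ofNat 1), (413, .ofNat 1)]) te) te) te) (tn (tn te (tn (tl [(434, .ofNat 2)]) te)) te))) (tn te (tn te (tn (tn (tn (tl [(428, .ofNat 2)]) te) (tn (tl [(434, .ofNat 1)]) te)) te)))) (tn (tn te (tn te (tn (tn te (tn (tl [(434, .ofNat 2)]) te)) te))) (tn (tn te (tn (tn (tn (tl [(427, .ofNat 2)]) te) te) te)) te))) (tn (tn (tn (tn (tn (tn (tn (tl [(227, .ofNat 2), (229, .ofNat 2), (230, .ofNat 2), (232, .ofNat 2)]) te) te) te) te) (tn te (tn (tn te (tn (tl [(434, .ofNat 2)]) te)) te))) (tn (tn (tn (tn (tn (tl [(388, .ofNat 2), (389, .ofNat 2), (390, .ofNat 1), (391, .ofNat 2)]) te) te) te) te) te)) (tn te (tn (tn (tn (tn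 (tn (tl [(397, .ofNat 2), (398, .ofNat 1), (400, .ofNat 1), (401, .ofNat 2)]) te) te) te) (tn (tn (tn (tl [(427, .ofNat 2)]) te) te) te)) (tn te (tn (tn (tn (tl [(432, .ofNat 2), (433, .ofNat 1)]) te) te) te)))))) (tn (tn (tn (tn te (tn te (tn (tn te (tn (tl [(434, .ofNat 2)]) te)) te))) (tn te (tn te (tn (tn (tn (tl [(429, .ofNat 1)]) te) te) te)))) (tn (tn te (tn te (tn (tn te (tn (tl [(434, .ofNat 2)]) te)) te))) (tn te (tn te (tn (tn (tn (tl [(432, .ofNat 2), (433, .ofNat 1)]) te) te) te))))) (tn (tn (tn (tn (tn (tn (tn (tl [(258, .ofNat 1), (259, .ofNat 1), (260, .ofNat 1), (262, .ofNat 2), (264, .ofNat 1), (265, .ofNat 2), (266, .ofNat 1), (267, .ofNat 2), (268, .ofNat 2), (269, .ofNat 2), (272, .ofNat 1), (274, .ofNat 1), (275, .ofNat 1), (276, .ofNat 1)]) te) te) te) te) te) (tn (tn (tn (tn (tn (tl [(387, .ofNat 2), (388, .ofNat 1), (389, .ofNat 1), (390, .ofNat 2), (391, .ofNat 1)]) te) te) te) (tn (tn (tn (tl [(427,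 .ofNat 2)]) te) te) te)) te)) (tn (tn te (tn te (tn (tn (tn (tl [(428, .ofNat 2)]) te) (tn (tl [(434, .ofNat 2)]) te)) te))) (tn (tn (tn (tn (tn (tl [(398, .ofNat 2), (399, .ofNat 2), (400, .ofNat 1), (401, .ofNat 2)]) te) te) te) te) (tn te (tn (tn (tn (tl [(432, .ofNat 1), (433, .ofNat 1)]) te) te) te)))))))

def r97 : Tr SV := (tn (tn (tn (tn (tn (tn (tn (tn (tn (tl [(213, .ofNat 1), (215, .ofNat 1), (216, .ofNat 1)]) te) te) te) te) (tn (tn (tn (tn (tl [(410, .ofNat 2), (411, .ofNat 2), (413, .ofNat 1)]) te) te) te) (tn (tn te (tn (tl [(434, .ofNat 1)]) te)) te))) (tn te (tn te (tn (tn te (tn (tl [(434, .ofNat 1)]) te)) te)))) (tn te (tn (tn te (tn (tn (tn (tl [(427, .ofNat 1)]) te) te) te)) te))) (tn (tn (tn (tn (tn (tn (tn (tl [(227, .ofNat 2), (229, .ofNat 1), (230, .ofNat 1), (231, .ofNat 2), (232, .ofNat 2)]) te) te) te) te) (tn te (tn (tn te (tn (tl [(434, .ofNat 1)]) te)) te))) (tn (tn (tn (tn (tn (tl [(388, .ofNat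 1), (389, .ofNat 2), (390, .ofNat 1)]) te) te) te) te) te)) (tn (tn te (tn te (tn (tn te (tn (tl [(434, .ofNat 1)]) te)) te))) (tn (tn (tn (tn (tn (tl [(397, .ofNat 2), (400, .ofNat 1), (401, .ofNat 2)]) te) te) te) te) (tn te (tn (tn (tn (tl [(432, .ofNat 2)]) te) te) te)))))) (tn (tn (tn (tn te (tn te (tn (tn te (tn (tl [(434, .ofNat 1)]) te)) te))) (tn te (tn te (tn (tn (tn (tl [(428, .ofNat 1)]) te) te) te)))) (tn (tn te (tn te (tn (tn te (tn (tl [(434, .ofNat 1)]) te)) te))) (tn (tn te (tn (tn (tn (tl [(427, .ofNat 2)]) te) te) te)) (tn te (tn (tn (tn (tl [(432, .ofNat 1)]) te) te) te))))) (tn (tn (tn (tn (tn (tn (tn (tl [(258, .ofNat 1), (259, .ofNat 2), (261, .ofNat 2), (263, .ofNat 2), (264, .ofNat 2), (265, .ofNat 2), (266, .ofNat 1), (269, .ofNat 1), (270, .ofNat 2), (271, .ofNat 1), (272, .ofNat 1), (273, .ofNat 2), (274, .ofNat 1), (276, .ofNat 2)]) te) te) te) te) (tn te (tn (tn te (tn (tl [(434, .ofNat 1)]) te))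 te))) (tn (tn (tn (tn (tn (tl [(387, .ofNat 1), (388, .ofNat 2), (390, .ofNat 1), (391, .ofNat 2)]) te) te) te) te) te)) (tn (tn (tn (tn (tn (tn (tl [(386, .ofNat 1)]) te) te) te) te) (tn te (tn (tn (tn (tl [(429, .ofNat 1)]) te) (tn (tl [(434, .ofNat 2)]) te)) te))) (tn (tn (tn (tn (tn (tl [(399, .ofNat 2), (400, .ofNat 1)]) te) te) te) (tn (tn te (tn (tl [(434, .ofNat 2)]) te)) te)) (tn te (tn (tn (tn (tl [(432, .ofNat 2), (433, .ofNat 2)]) te) te) te)))))))

def r98 : Tr SV := (tn (tn (tn (tn (tn (tn (tn (tn (tn (tl [(213, .ofNat 2), (214, .ofNat 2), (217, .ofNat 1), (219, .ofNat 2)]) te) te) te) te) (tn (tn (tn (tn (tl [(409, .ofNat 1), (412, .ofNat 2), (413, .ofNat 2)]) te) te) te) (tn (tn te (tn (tl [(434, .ofNat 1)]) te)) te))) (tn te (tn te (tn (tn (tn (tl [(429, .ofNat 2)]) te) te) te)))) (tn (tn te (tn te (tn (tn te (tn (tl [(434, .ofNat 1)]) te)) te))) te)) (tn (tn (tn (tn (tn (tn (tn (tl [(229, .ofNat 2), (230,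 .ofNat 1), (231, .ofNat 1), (232, .ofNat 1)]) te) te) te) te) te) (tn (tn (tn (tn (tn (tl [(387, .ofNat 1), (389, .ofNat 1), (390, .ofNat 1), (391, .ofNat 2)]) te) te) te) te) te)) (tn (tn te (tn te (tn (tn te (tn (tl [(434, .ofNat 2)]) te)) te))) (tn (tn (tn (tn (tn (tl [(399, .ofNat 2), (400, .ofNat 2), (401, .ofNat 2)]) te) te) te) te) te)))) (tn (tn (tn (tn te (tn te (tn (tn te (tn (tl [(434, .ofNat 2)]) te)) te))) (tn te (tn te (tn (tn (tn (tl [(428, .ofNat 1), (429, .ofNat 1)]) te) te) te)))) (tn te (tn (tn te (tn (tn (tn (tl [(427, .ofNat 1)]) te) te) te)) (tn te (tn (tn (tn (tl [(433, .ofNat 1)]) te) te) te))))) (tn (tn (tn (tn (tn (tn (tn (tl [(258, .ofNat 1), (259, .ofNat 1), (261, .ofNat 1), (263, .ofNat 1), (264, .ofNat 1), (265, .ofNat 1), (266, .ofNat 2), (269, .ofNat 1), (270, .ofNat 1), (271, .ofNat 2), (272, .ofNat 2), (273, .ofNat 2), (276, .ofNat 1)]) te) te) te) te) (tn te (tn (tn te (tn (tl [(434, .ofNat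 1)]) te)) te))) (tn (tn (tn (tn (tn (tl [(387, .ofNat 1), (388, .ofNat 2), (389, .ofNat 2), (391, .ofNat 2)]) te) te) te) (tn (tn (tn (tl [(427, .ofNat 2)]) te) te) te)) te)) (tn (tn te (tn te (tn (tn (tn (tl [(429, .ofNat 1)]) te) te) te))) (tn (tn (tn (tn (tn (tl [(397, .ofNat 1), (399, .ofNat 1), (401, .ofNat 1)]) te) te) te) (tn (tn te (tn (tl [(434, .ofNat 1)]) te)) te)) (tn te (tn (tn (tn (tl [(432, .ofNat 2), (433, .ofNat 1)]) te) te) te)))))))

def r99 : Tr SV := (tn (tn (tn (tn (tn (tn (tn (tn (tn (tl [(215, .ofNat 2), (216, .ofNat 2), (217, .ofNat 2), (219, .ofNat 2)]) te) te) te) te) (tn (tn (tn (tn (tl [(409, .ofNat 2), (410, .ofNat 2), (411, .ofNat 1), (412, .ofNat 2)]) te) te) te) (tn (tn te (tn (tl [(434, .ofNat 2)]) te)) te))) (tn te (tn te (tn (tn (tn (tl [(429, .ofNat 1)]) te) (tn (tl [(434, .ofNat 1)]) te)) te)))) (tn te (tn (tn te (tn (tn (tn (tl [(427, .ofNat 1)]) te) te) te)) te))) (tn (tn (tn (tn (tn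 (tn (tn (tl [(228, .ofNat 1), (229, .ofNat 2), (230, .ofNat 1), (231, .ofNat 2)]) te) te) te) te) te) (tn (tn (tn (tn (tn (tl [(388, .ofNat 1), (389, .ofNat 1), (391, .ofNat 2)]) te) te) te) te) te)) (tn (tn te (tn te (tn (tn te (tn (tl [(434, .ofNat 2)]) te)) te))) (tn (tn (tn (tn (tn (tl [(398, .ofNat 2), (399, .ofNat 1)]) te) te) te) te) (tn te (tn (tn (tn (tl [(432, .ofNat 2)]) te) te) te)))))) (tn (tn (tn te (tn te (tn te (tn (tn (tn (tl [(429, .ofNat 2)]) te) te) te)))) (tn (tn te (tn te (tn (tn te (tn (tl [(434, .ofNat 1)]) te)) te))) (tn (tn te (tn (tn (tn (tl [(427, .ofNat 2)]) te) te) te)) (tn te (tn (tn (tn (tl [(432, .ofNat 1), (433, .ofNat 1)]) te) te) te))))) (tn (tn (tn (tn (tn (tn (tn (tl [(258, .ofNat 1), (260, .ofNat 1), (263, .ofNat 1), (264, .ofNat 2), (265, .ofNat 1), (266, .ofNat 2), (267, .ofNat 2), (268, .ofNat 2), (269, .ofNat 1), (270, .ofNat 1), (271, .ofNat 1), (274, .ofNat 2), (275, .ofNat 2)])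 te) te) te) te) (tn te (tn (tn te (tn (tl [(434, .ofNat 2)]) te)) te))) (tn (tn (tn (tn (tn (tl [(390, .ofNat 1)]) te) te) te) te) te)) (tn (tn (tn (tn (tn (tn (tl [(386, .ofNat 1)]) te) te) te) te) (tn te (tn (tn (tn (tl [(428, .ofNat 1)]) te) (tn (tl [(434, .ofNat 2)]) te)) te))) (tn (tn (tn (tn (tn (tl [(397, .ofNat 1), (399, .ofNat 2), (401, .ofNat 2)]) te) te) te) (tn (tn (tn (tl [(427, .ofNat 1)]) te) te) te)) te)))))

def r100 : Tr SV := (tn (tn (tn (tn (tn (tn (tn (tn (tn (tl [(213, .ofNat 1), (216, .ofNat 2), (218, .ofNat 2), (219, .ofNat 2)]) te) te) te) te) (tn (tn (tn (tn (tl [(410, .ofNat 2), (411, .ofNat 2), (412, .ofNat 2), (413, .ofNat 1)]) te) te) te) te)) (tn te (tn te (tn (tn (tn (tl [(428, .ofNat 2), (429, .ofNat 1)]) te) (tn (tl [(434, .ofNat 2)]) te)) te)))) te) (tn (tn (tn (tn (tn (tn (tn (tl [(227, .ofNat 2), (230, .ofNat 2), (231, .ofNat 2), (232, .ofNat 2)]) te) te) te) te) (tn te (tn (tn te (tn (tl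 [(434, .ofNat 1)]) te)) te))) (tn (tn (tn (tn (tn (tl [(387, .ofNat 2), (388, .ofNat 2), (389, .ofNat 2), (391, .ofNat 2)]) te) te) te) te) te)) (tn (tn te (tn te (tn (tn te (tn (tl [(434, .ofNat 1)]) te)) te))) (tn (tn (tn (tn (tn (tl [(399, .ofNat 1), (400, .ofNat 1), (401, .ofNat 1)]) te) te) te) (tn (tn (tn (tl [(427, .ofNat 2)]) te) te) te)) (tn te (tn (tn (tn (tl [(433, .ofNat 1)]) te) te) te)))))) (tn (tn (tn (tn te (tn te (tn (tn te (tn (tl [(434, .ofNat 1)]) te)) te))) (tn te (tn te (tn (tn (tn (tl [(428, .ofNat 2)]) te) te) te)))) (tn (tn te (tn te (tn (tn te (tn (tl [(434, .ofNat 1)]) te)) te))) (tn (tn te (tn (tn (tn (tl [(427, .ofNat 1)]) te) te) te)) (tn te (tn (tn (tn (tl [(433, .ofNat 1)]) te) te) te))))) (tn (tn (tn (tn (tn (tn (tn (tl [(259, .ofNat 1), (260, .ofNat 1), (262, .ofNat 1), (263, .ofNat 1), (264, .ofNat 2), (266, .ofNat 1), (268, .ofNat 2), (269, .ofNat 2), (270, .ofNat 2), (271, .ofNat 1), (272,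 .ofNat 2), (274, .ofNat 2), (275, .ofNat 2), (277, .ofNat 2)]) te) te) te) te) (tn te (tn (tn te (tn (tl [(434, .ofNat 1)]) te)) te))) (tn (tn (tn (tn (tn (tl [(388, .ofNat 2), (391, .ofNat 1)]) te) te) te) te) te)) (tn (tn (tn (tn (tn (tn (tl [(386, .ofNat 1)]) te) te) te) te) (tn te (tn (tn (tn (tl [(428, .ofNat 2), (429, .ofNat 1)]) te) (tn (tl [(434, .ofNat 2)]) te)) te))) (tn (tn (tn (tn (tn (tl [(397, .ofNat 2), (399, .ofNat 1), (401, .ofNat 1)]) te) te) te) (tn (tn (tn (tl [(427, .ofNat 2)]) te) te) te)) te)))))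

def r101 : Tr SV := (tn (tn (tn (tn (tn te (tn (tn (tn (tn (tl [(414, .ofNat 2), (415, .ofNat 1), (416, .ofNat 1), (417, .ofNat 2)]) te) te) te) te)) (tn (tn te (tn (tn (tn (tl [(427, .ofNat 2)]) te) (tn (tl [(434, .ofNat 1)]) te)) te)) te)) (tn te (tn (tn (tn (tn (tn (tl [(392, .ofNat 1), (393, .ofNat 2), (394, .ofNat 1), (395, .ofNat 2)]) te) te) te) te) (tn te (tn (tn (tn (tl [(431, .ofNat 2)]) te) te) te))))) (tn (tn te (tn te (tn te (tn (tn (tn (tl [(431, .ofNat 1)]) te) te) te)))) te)) (tn (tn (tn (tn (tn (tn (tn (tn (tl [(223, .ofNat 1), (225, .ofNat 1), (226, .ofNat 1)]) te) te) te) te) te) te) (tn te (tn (tn (tn (tn (tn (tl [(392, .ofNat 2), (393, .ofNat 1)]) te) te) te) te) te))) (tn (tn (tn (tn (tn (tn (tn (tl [(278, .ofNat 1), (279, .ofNat 2), (282, .ofNat 1), (283, .ofNat 2), (284, .ofNat 2), (285, .ofNat 2), (286, .ofNat 2), (287, .ofNat 1), (290, .ofNat 2)]) te) te) te) te) te) (tn (tn te (tn (tn te (tn (tl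 [(434, .ofNat 1)]) te)) te)) te)) te)))

def r102 : Tr SV := (tn (tn (tn (tn (tn te (tn (tn (tn (tn (tl [(414, .ofNat 2), (415, .ofNat 1)]) te) te) te) te)) (tn (tn te (tn (tn (tn (tl [(427, .ofNat 2)]) te) (tn (tl [(434, .ofNat 1)]) te)) te)) te)) (tn te (tn (tn (tn (tn (tn (tl [(392, .ofNat 1), (393, .ofNat 1), (394, .ofNat 2), (395, .ofNat 2)]) te) te) te) te) (tn te (tn (tn (tn (tl [(431, .ofNat 2)]) te) te) te))))) (tn (tn te (tn te (tn te (tn (tn (tn (tl [(430, .ofNat 2), (431, .ofNat 1)]) te) te) te)))) (tn (tn (tn (tn (tn (tn (tl [(386, .ofNat 2)]) te) te) te) te) te) te))) (tn (tn (tn (tn (tn (tn (tn (tn (tl [(220, .ofNat 2), (221, .ofNat 1), (222, .ofNat 2), (224, .ofNat 1), (226, .ofNat 1)]) te) te) te) te) te) te) (tn te (tn (tn (tn (tn (tn (tl [(392, .ofNat 2), (393, .ofNat 1)]) te) te) te) te) te))) (tn (tn (tn (tn (tn (tn (tn (tl [(279, .ofNat 1), (280, .ofNat 2), (282, .ofNat 1), (283, .ofNat 1), (284, .ofNat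 1), (285, .ofNat 1), (286, .ofNat 2), (287, .ofNat 1), (288, .ofNat 1), (289, .ofNat 1), (290, .ofNat 1), (291, .ofNat 1)]) te) te) te) te) te) (tn (tn te (tn (tn te (tn (tl [(434, .ofNat 1)]) te)) te)) te)) (tn (tn (tn te (tn (tn (tn (tl [(427, .ofNat 2)]) te) (tn (tl [(434, .ofNat 1)]) te)) te)) te) te))))

def r103 : Tr SV := (tn (tn (tn (tn (tn te (tn (tn (tn (tn (tl [(415, .ofNat 2), (417, .ofNat 1)]) te) te) te) te)) (tn (tn te (tn (tn te (tn (tl [(434, .ofNat 1)]) te)) te)) te)) (tn te (tn (tn (tn (tn (tn (tl [(393, .ofNat 1), (394, .ofNat 2), (395, .ofNat 2), (396, .ofNat 2)]) te) te) te) (tn (tn te (tn (tl [(434, .ofNat 2)]) te)) te)) (tn te (tn (tn (tn (tl [(430, .ofNat 1), (431, .ofNat 2)]) te) te) te))))) (tn (tn te (tn (tn te (tn (tn te (tn (tl [(434, .ofNat 2)]) te)) te)) (tn te (tn (tn (tn (tl [(431, .ofNat 1)]) te) te) te)))) (tn (tn (tn (tn (tn (tn (tl [(386, .ofNat 2)]) te) te) te) te) te) (tn (tn te (tn (tn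 te (tn (tl [(434, .ofNat 1)]) te)) te)) te)))) (tn (tn (tn (tn (tn (tn (tn (tn (tl [(221, .ofNat 2), (222, .ofNat 1), (224, .ofNat 1)]) te) te) te) te) te) (tn (tn te (tn (tn (tn (tl [(427, .ofNat 2)]) te) (tn (tl [(434, .ofNat 2)]) te)) te)) te)) (tn te (tn (tn (tn (tn (tn (tl [(392, .ofNat 1), (395, .ofNat 2)]) te) te) te) (tn (tn te (tn (tl [(434, .ofNat 1)]) te)) te)) te))) (tn (tn (tn (tn (tn (tn (tn (tl [(291, .ofNat 1)]) te) te) te) te) te) (tn (tn te (tn (tn te (tn (tl [(434, .ofNat 2)]) te)) te)) (tn te (tn (tn (tn (tl [(430, .ofNat 2)]) te) te) te)))) te)))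

def r104 : Tr SV := (tn (tn (tn (tn (tn te (tn (tn (tn (tn (tl [(417, .ofNat 2)]) te) te) te) te)) (tn (tn te (tn (tn te (tn (tl [(434, .ofNat 1)]) te)) te)) te)) (tn te (tn (tn (tn (tn (tn (tl [(392, .ofNat 1), (393, .ofNat 1), (394, .ofNat 2), (396, .ofNat 1)]) te) te) te) te) (tn te (tn (tn (tn (tl [(430, .ofNat 2)]) te) te) te))))) (tn (tn te (tn (tn te (tn (tn (tn (tl [(427, .ofNat 1)]) te) (tn (tl [(434, .ofNat 2)]) te)) te)) (tn te (tn (tn (tn (tl [(430, .ofNat 2), (431, .ofNat 1)]) te) te) te)))) (tn (tn (tn (tn (tn (tn (tl [(386, .ofNat 2)]) te) te) te) te) te) te))) (tn (tn (tn (tn (tn (tn (tn (tn (tl [(220, .ofNat 1), (222, .ofNat 2), (225, .ofNat 1), (226, .ofNat 2)]) te) te) te) te) te) (tn (tn te (tn (tn (tn (tl [(427, .ofNat 1)]) te) te) te)) te)) (tn te (tn (tn (tn (tn (tn (tl [(392, .ofNat 1), (393, .ofNat 2), (394, .ofNat 1), (395, .ofNat 1), (396, .ofNat 1)]) te) te) te) te) te))) (tn (tn (tn (tn (tn (tn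 (tn (tl [(278, .ofNat 1), (281, .ofNat 1), (283, .ofNat 2), (285, .ofNat 2), (286, .ofNat 2), (287, .ofNat 1), (289, .ofNat 2)]) te) te) te) te) te) (tn (tn te (tn (tn te (tn (tl [(434, .ofNat 2)]) te)) te)) (tn te (tn (tn (tn (tl [(430, .ofNat 1), (431, .ofNat 2)]) te) te) te)))) (tn (tn (tn te (tn (tn (tn (tl [(427, .ofNat 2)]) te) te) te)) te) te))))

def r105 : Tr SV := (tn (tn (tn (tn (tn te (tn (tn (tn (tn (tl [(415, .ofNat 1)]) te) te) te) te)) (tn (tn te (tn (tn te (tn (tl [(434, .ofNat 1)]) te)) te)) te)) (tn te (tn (tn (tn (tn (tn (tl [(392, .ofNat 2), (393, .ofNat 1), (394, .ofNat 2), (395, .ofNat 2)]) te) te) te) (tn (tn te (tn (tl [(434, .ofNat 1)]) te)) te)) (tn te (tn (tn (tn (tl [(430, .ofNat 2)]) te) te) te))))) (tn (tn te (tn (tn te (tn (tn (tn (tl [(427, .ofNat 2)]) te) te) te)) (tn te (tn (tn (tn (tl [(430, .ofNat 1)]) te) te) te)))) (tn (tn (tn (tn (tn (tn (tl [(386, .ofNat 1)]) te) te) te) te) te) te)))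 (tn (tn (tn (tn (tn (tn (tn (tn (tl [(220, .ofNat 1), (221, .ofNat 1), (223, .ofNat 1), (225, .ofNat 1)]) te) te) te) te) te) (tn (tn te (tn (tn te (tn (tl [(434, .ofNat 2)]) te)) te)) te)) (tn te (tn (tn (tn (tn (tn (tl [(392, .ofNat 2), (393, .ofNat 1), (395, .ofNat 2), (396, .ofNat 1)]) te) te) te) (tn (tn te (tn (tl [(434, .ofNat 1)]) te)) te)) te))) (tn (tn (tn (tn (tn (tn (tn (tl [(278, .ofNat 1), (279, .ofNat 1), (280, .ofNat 1), (281, .ofNat 1), (283, .ofNat 2), (285, .ofNat 2), (286, .ofNat 2)]) te) te) te) te) te) (tn (tn te (tn (tn te (tn (tl [(434, .ofNat 2)]) te)) te)) (tn te (tn (tn (tn (tl [(430, .ofNat 1), (431, .ofNat 2)]) te) te) te)))) (tn (tn (tn te (tn (tn (tn (tl [(427, .ofNat 2)]) te) (tn (tl [(434, .ofNat 1)]) te)) te)) te) te))))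

def r106 : Tr SV := (tn (tn (tn (tn (tn te (tn (tn (tn (tn (tl [(414, .ofNat 1), (415, .ofNat 2), (417, .ofNat 1)]) te) te) te) te)) (tn (tn te (tn (tn (tn (tl [(427, .ofNat 2)]) te) (tn (tl [(434, .ofNat 2)]) te)) te)) te)) (tn te (tn (tn (tn (tn (tn (tl [(393, .ofNat 2), (395, .ofNat 1), (396, .ofNat 2)]) te) te) te) (tn (tn te (tn (tl [(434, .ofNat 1)]) te)) te)) (tn te (tn (tn (tn (tl [(431, .ofNat 2)]) te) te) te))))) (tn (tn te (tn (tn te (tn (tn (tn (tl [(427, .ofNat 2)]) te) (tn (tl [(434, .ofNat 1)]) te)) te)) (tn te (tn (tn (tn (tl [(431, .ofNat 1)]) te) te) te)))) (tn (tn (tn (tn (tn (tn (tl [(386, .ofNat 1)]) te) te) te) te) te) te))) (tn (tn (tn (tn (tn (tn (tn (tn (tl [(220, .ofNat 2), (223, .ofNat 2), (225, .ofNat 1), (226, .ofNat 1)]) te) te) te) te) te) (tn (tn te (tn (tn te (tn (tl [(434, .ofNat 1)]) te)) te)) te)) (tn te (tn (tn (tn (tn (tn (tl [(392, .ofNat 1), (395, .ofNat 1)]) te) te) te) (tn (tn te (tn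 (tl [(434, .ofNat 2)]) te)) te)) te))) (tn (tn (tn (tn (tn (tn (tn (tl [(280, .ofNat 2), (281, .ofNat 2), (282, .ofNat 2), (283, .ofNat 2), (284, .ofNat 1), (286, .ofNat 2), (287, .ofNat 1), (288, .ofNat 1), (289, .ofNat 2), (290, .ofNat 1), (291, .ofNat 1)]) te) te) te) te) te) (tn (tn te (tn (tn te (tn (tl [(434, .ofNat 1)]) te)) te)) (tn te (tn (tn (tn (tl [(430, .ofNat 1), (431, .ofNat 1)]) te) te) te)))) (tn (tn (tn te (tn (tn (tn (tl [(427, .ofNat 1)]) te) te) te)) te) te))))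

def r107 : Tr SV := (tn (tn (tn (tn (tn te (tn (tn (tn (tn (tl [(414, .ofNat 1), (415, .ofNat 1), (416, .ofNat 1)]) te) te) te) te)) (tn (tn te (tn (tn (tn (tl [(427, .ofNat 2)]) te) te) te)) te)) (tn te (tn (tn (tn (tn (tn (tl [(392, .ofNat 1), (394, .ofNat 2), (395, .ofNat 2), (396, .ofNat 1)]) te) te) te) (tn (tn te (tn (tl [(434, .ofNat 1)]) te)) te)) (tn te (tn (tn (tn (tl [(431, .ofNat 1)]) te) te) te))))) (tn (tn te (tn (tn te (tn (tn (tn (tl [(427, .ofNat 2)]) te) te) te)) (tn te (tn (tn (tn (tl [(430, .ofNat 1), (431, .ofNat 2)]) te) te) te)))) te)) (tn (tn (tn (tn (tn (tn (tn (tn (tl [(221, .ofNat 1), (222, .ofNat 1), (223, .ofNat 2), (224, .ofNat 2), (225, .ofNat 2), (226, .ofNat 1)]) te) te) te) te) te) (tn (tn te (tn (tn (tn (tl [(427, .ofNat 1)]) te) (tn (tl [(434, .ofNat 1)]) te)) te)) te)) (tn te (tn (tn (tn (tn (tn (tl [(392, .ofNat 2), (393, .ofNat 2), (395, .ofNat 1)]) te) te) te) te) te))) (tn (tn (tn (tn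 (tn (tn (tn (tl [(279, .ofNat 1), (280, .ofNat 1), (281, .ofNat 1), (282, .ofNat 1), (283, .ofNat 1), (284, .ofNat 1), (286, .ofNat 1), (287, .ofNat 2), (288, .ofNat 2)]) te) te) te) te) te) (tn (tn te (tn (tn te (tn (tl [(434, .ofNat 1)]) te)) te)) (tn te (tn (tn (tn (tl [(430, .ofNat 2)]) te) te) te)))) (tn (tn (tn te (tn (tn (tn (tl [(427, .ofNat 1)]) te) (tn (tl [(434, .ofNat 1)]) te)) te)) te) te))))

def r108 : Tr SV := (tn (tn (tn (tn (tn te (tn (tn (tn (tn (tl [(414, .ofNat 2), (415, .ofNat 2), (416, .ofNat 2), (417, .ofNat 1)]) te) te) te) te)) (tn (tn te (tn (tn (tn (tl [(427, .ofNat 1)]) te) (tn (tl [(434, .ofNat 1)]) te)) te)) te)) (tn te (tn (tn (tn (tn (tn (tl [(392, .ofNat 2), (393, .ofNat 1)]) te) te) te) (tn (tn te (tn (tl [(434, .ofNat 1)]) te)) te)) (tn te (tn (tn (tn (tl [(430, .ofNat 1), (431, .ofNat 2)]) te) te) te))))) (tn (tn te (tn (tn te (tn (tn (tn (tl [(427, .ofNat 2)]) te) (tn (tl [(434, .ofNat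 2)]) te)) te)) (tn te (tn (tn (tn (tl [(430, .ofNat 1), (431, .ofNat 1)]) te) te) te)))) (tn te (tn (tn te (tn (tn te (tn (tl [(434, .ofNat 2)]) te)) te)) te)))) (tn (tn (tn (tn (tn (tn (tn (tn (tl [(220, .ofNat 2), (223, .ofNat 1), (226, .ofNat 1)]) te) te) te) te) te) (tn (tn te (tn (tn (tn (tl [(427, .ofNat 1)]) te) te) te)) te)) (tn te (tn (tn (tn (tn (tn (tl [(395, .ofNat 1)]) te) te) te) (tn (tn te (tn (tl [(434, .ofNat 1)]) te)) te)) te))) (tn (tn (tn (tn (tn (tn (tn (tl [(278, .ofNat 1), (279, .ofNat 1), (284, .ofNat 2), (285, .ofNat 2), (287, .ofNat 2), (288, .ofNat 2), (290, .ofNat 1)]) te) te) te) te) te) (tn (tn te (tn (tn te (tn (tl [(434, .ofNat 1)]) te)) te)) (tn te (tn (tn (tn (tl [(430, .ofNat 1), (431, .ofNat 2)]) te) te) te)))) (tn (tn (tn te (tn (tn (tn (tl [(427, .ofNat 2)]) te) (tn (tl [(434, .ofNat 2)]) te)) te)) te) te))))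

def r109 : Tr SV := (tn (tn (tn (tn (tn te (tn (tn (tn (tn (tl [(414, .ofNat 1), (417, .ofNat 2)]) te) te) te) te)) (tn (tn te (tn (tn (tn (tl [(427, .ofNat 2)]) te) te) te)) te)) (tn te (tn (tn (tn (tn (tn (tl [(392, .ofNat 2), (393, .ofNat 2), (396, .ofNat 1)]) te) te) te) te) (tn te (tn (tn (tn (tl [(430, .ofNat 1), (431, .ofNat 2)]) te) te) te))))) (tn (tn te (tn (tn te (tn (tn te (tn (tl [(434, .ofNat 1)]) te)) te)) (tn te (tn (tn (tn (tl [(430, .ofNat 1), (431, .ofNat 1)]) te) te) te)))) (tn (tn (tn (tn (tn (tn (tl [(386, .ofNat 1)]) te) te) te) te) te) (tn (tn te (tn (tn te (tn (tl [(434, .ofNat 1)]) te)) te)) te)))) (tn (tn (tn (tn (tn (tn (tn (tn (tl [(221, .ofNat 1), (222, .ofNat 2), (223, .ofNat 1), (225, .ofNat 2), (226, .ofNat 1)]) te) te) te) te) te) (tn (tn te (tn (tn (tn (tl [(427, .ofNat 2)]) te) te) te)) te)) (tn te (tn (tn (tn (tn (tn (tl [(392, .ofNat 2), (394, .ofNat 2), (395, .ofNat 1), (396, .ofNat 1)])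 te) te) te) (tn (tn te (tn (tl [(434, .ofNat 1)]) te)) te)) te))) (tn (tn (tn (tn (tn (tn (tn (tl [(279, .ofNat 1), (280, .ofNat 2), (283, .ofNat 2), (284, .ofNat 1), (285, .ofNat 2), (286, .ofNat 1), (287, .ofNat 1), (288, .ofNat 2), (289, .ofNat 1)]) te) te) te) te) te) (tn (tn te (tn (tn te (tn (tl [(434, .ofNat 1)]) te)) te)) te)) te)))

def r110 : Tr SV := (tn (tn (tn (tn (tn te (tn (tn (tn (tn (tl [(414, .ofNat 1), (415, .ofNat 2), (416, .ofNat 1)]) te) te) te) te)) te) (tn te (tn (tn (tn (tn (tn (tl [(392, .ofNat 2), (393, .ofNat 2), (394, .ofNat 1), (395, .ofNat 2), (396, .ofNat 2)]) te) te) te) (tn (tn te (tn (tl [(434, .ofNat 1)]) te)) te)) (tn te (tn (tn (tn (tl [(430, .ofNat 2), (431, .ofNat 2)]) te) te) te))))) (tn te (tn (tn (tn (tn (tn (tn (tl [(386, .ofNat 2)]) te) te) te) te) te) te))) (tn (tn (tn (tn (tn (tn (tn (tn (tl [(220, .ofNat 2), (221, .ofNat 2), (223, .ofNat 1), (224, .ofNat 2), (225, .ofNat 1), (226,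 .ofNat 2)]) te) te) te) te) te) (tn (tn te (tn (tn (tn (tl [(427, .ofNat 1)]) te) (tn (tl [(434, .ofNat 2)]) te)) te)) te)) (tn te (tn (tn (tn (tn (tn (tl [(394, .ofNat 1), (395, .ofNat 1)]) te) te) te) te) te))) (tn (tn (tn (tn (tn (tn (tn (tl [(278, .ofNat 1), (279, .ofNat 1), (281, .ofNat 1), (283, .ofNat 2), (285, .ofNat 2), (286, .ofNat 2), (290, .ofNat 1)]) te) te) te) te) te) (tn (tn te (tn (tn te (tn (tl [(434, .ofNat 1)]) te)) te)) te)) (tn (tn (tn te (tn (tn (tn (tl [(427, .ofNat 2)]) te) te) te)) te) te))))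

def r111 : Tr SV := (tn (tn (tn (tn (tn te (tn (tn (tn (tn (tl [(415, .ofNat 2), (416, .ofNat 2), (417, .ofNat 2)]) te) te) te) te)) (tn (tn te (tn (tn te (tn (tl [(434, .ofNat 2)]) te)) te)) te)) (tn te (tn (tn (tn (tn (tn (tl [(394, .ofNat 1), (395, .ofNat 2), (396, .ofNat 1)]) te) te) te) te) (tn te (tn (tn (tn (tl [(430, .ofNat 2), (431, .ofNat 2)]) te) te) te))))) (tn (tn te (tn (tn te (tn (tn (tn (tl [(427, .ofNat 2)]) te) (tn (tl [(434, .ofNat 1)]) te)) te)) (tn te (tn (tn (tn (tl [(430, .ofNat 1)]) te) te) te)))) (tn (tn (tn (tn (tn (tn (tl [(386, .ofNat 2)]) te) te) te) te) te) te))) (tn (tn (tn (tn (tn (tn (tn (tn (tl [(220, .ofNat 1), (221, .ofNat 1), (222, .ofNat 1), (223, .ofNat 2), (224, .ofNat 1), (225, .ofNat 2)]) te) te) te) te) te) (tn (tn te (tn (tn (tn (tl [(427, .ofNat 2)]) te) te) te)) te)) (tn te (tn (tn (tn (tn (tn (tl [(393, .ofNat 1), (394, .ofNat 2), (395, .ofNat 1), (396, .ofNat 1)]) te) te) te)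 te) te))) (tn (tn (tn (tn (tn (tn (tn (tl [(278, .ofNat 2), (279, .ofNat 2), (281, .ofNat 2), (282, .ofNat 2), (283, .ofNat 2), (284, .ofNat 1), (285, .ofNat 2), (287, .ofNat 2), (288, .ofNat 1), (289, .ofNat 2), (290, .ofNat 1), (291, .ofNat 1)]) te) te) te) te) te) (tn (tn te (tn (tn te (tn (tl [(434, .ofNat 2)]) te)) te)) (tn te (tn (tn (tn (tl [(430, .ofNat 2)]) te) te) te)))) (tn (tn (tn te (tn (tn (tn (tl [(427, .ofNat 2)]) te) (tn (tl [(434, .ofNat 2)]) te)) te)) te) te))))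

def r112 : Tr SV := (tn (tn (tn (tn (tn (tn (tn (tn (tn (tl [(222, .ofNat 2), (223, .ofNat 1), (224, .ofNat 1), (226, .ofNat 1)]) te) te) te) (tn (tn te (tn (tl [(434, .ofNat 2)]) te)) te)) (tn (tn (tn (tn (tl [(419, .ofNat 2), (421, .ofNat 1)]) te) te) te) te)) (tn te (tn te (tn (tn (tn (tl [(431, .ofNat 2)]) te) te) te)))) (tn (tn (tn te (tn (tn (tn (tl [(427, .ofNat 1)]) te) (tn (tl [(434, .ofNat 2)]) te)) te)) te) (tn (tn (tn (tn (tn (tl [(397, .ofNat 2), (400, .ofNat 1)]) te) te) te) te) (tn (tn (tn te (tn (tl [(434, .ofNat 1)]) te)) te) (tn (tn (tn (tl [(432, .ofNat 1), (433, .ofNat 1)]) te) te) te))))) (tn (tn (tn (tn te (tn (tn (tn (tl [(427, .ofNat 2)]) te) te) te)) te) (tn (tn (tn (tn (tn (tl [(393, .ofNat 2), (394, .ofNat 2), (396, .ofNat 2)]) te) te) te) te) (tn te (tn (tn (tn (tl [(432, .ofNat 2), (433, .ofNat 1)]) te) te) te)))) (tn (tn (tn te (tn (tn (tn (tl [(427, .ofNat 1)]) te) (tn (tl [(434, .ofNat 2)])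 te)) te)) te) (tn te (tn (tn (tn te (tn (tl [(434, .ofNat 2)]) te)) te) te))))) (tn (tn (tn (tn (tn (tn (tn (tn (tl [(227, .ofNat 1), (228, .ofNat 1), (229, .ofNat 1), (230, .ofNat 2), (231, .ofNat 2)]) te) te) te) (tn (tn te (tn (tl [(434, .ofNat 1)]) te)) te)) te) te) (tn (tn (tn (tn (tn (tn (tl [(386, .ofNat 2)]) te) te) te) (tn (tn (tn (tl [(427, .ofNat 1)]) te) te) te)) te) (tn (tn (tn (tn (tn (tl [(397, .ofNat 2), (398, .ofNat 2), (399, .ofNat 1), (400, .ofNat 1)]) te) te) te) te) (tn (tn (tn te (tn (tl [(434, .ofNat 1)]) te)) te) te)))) (tn (tn (tn (tn (tn (tn (tn (tl [(292, .ofNat 2), (293, .ofNat 2), (294, .ofNat 1), (296, .ofNat 1), (297, .ofNat 2), (298, .ofNat 2), (299, .ofNat 2), (300, .ofNat 2), (303, .ofNat 2), (305, .ofNat 1), (306, .ofNat 2), (307, .ofNat 1), (308, .ofNat 1), (309, .ofNat 2), (310, .ofNat 1), (311, .ofNat 2)]) te) te) te) (tn (tn (tn (tl [(427, .ofNat 2)]) te) (tn (tl [(434, .ofNat 2)]) te))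 te)) te) (tn (tn (tn (tn (tn (tl [(392, .ofNat 1), (393, .ofNat 1), (394, .ofNat 2)]) te) te) te) te) (tn te (tn (tn (tn (tl [(432, .ofNat 1), (433, .ofNat 1)]) te) te) te)))) (tn (tn te (tn te (tn (tn (tn (tl [(431, .ofNat 1)]) te) te) te))) (tn te (tn (tn (tn te (tn (tl [(434, .ofNat 2)]) te)) te) te))))))

def r113 : Tr SV := (tn (tn (tn (tn (tn (tn te (tn (tn te (tn (tl [(434, .ofNat 2)]) te)) te)) (tn (tn (tn (tn (tl [(418, .ofNat 2), (419, .ofNat 1), (420, .ofNat 2), (421, .ofNat 2)]) te) te) te) te)) te) (tn (tn (tn te (tn (tn (tn (tl [(427, .ofNat 1)]) te) te) te)) te) (tn (tn (tn (tn (tn (tl [(397, .ofNat 2), (398, .ofNat 2), (399, .ofNat 1), (400, .ofNat 1)]) te) te) te) te) (tn (tn (tn te (tn (tl [(434, .ofNat 2)]) te)) te) (tn (tn (tn (tl [(432, .ofNat 1), (433, .ofNat 1)]) te) te) te))))) (tn (tn (tn (tn te (tn (tn (tn (tl [(427, .ofNat 1)]) te) te) te)) te) (tn (tn (tn (tn (tn (tl [(392, .ofNat 1), (394, .ofNat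 1)]) te) te) te) te) te)) (tn (tn (tn te (tn (tn (tn (tl [(427, .ofNat 1)]) te) (tn (tl [(434, .ofNat 2)]) te)) te)) te) (tn te (tn (tn (tn te (tn (tl [(434, .ofNat 2)]) te)) te) te))))) (tn (tn (tn (tn (tn (tn (tn (tn (tl [(227, .ofNat 1), (228, .ofNat 2), (229, .ofNat 2), (230, .ofNat 1), (232, .ofNat 1)]) te) te) te) te) te) (tn te (tn te (tn (tn (tn (tl [(431, .ofNat 1)]) te) te) te)))) (tn (tn (tn (tn (tn (tn (tl [(386, .ofNat 1)]) te) te) te) te) te) (tn (tn (tn (tn (tn (tl [(397, .ofNat 2), (398, .ofNat 2), (399, .ofNat 1), (400, .ofNat 1)]) te) te) te) te) te))) (tn (tn (tn (tn (tn (tn (tn (tl [(293, .ofNat 2), (294, .ofNat 1), (295, .ofNat 1), (296, .ofNat 1), (297, .ofNat 2), (301, .ofNat 2), (302, .ofNat 1), (303, .ofNat 1), (306, .ofNat 2), (308, .ofNat 1), (309, .ofNat 1), (311, .ofNat 2)]) te) te) te) (tn (tn te (tn (tl [(434, .ofNat 2)]) te)) te)) te) (tn (tn (tn (tn (tn (tl [(393, .ofNat 1), (394, .ofNat 1)])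 te) te) te) te) (tn te (tn (tn (tn (tl [(432, .ofNat 1), (433, .ofNat 1)]) te) te) te)))) (tn (tn te (tn te (tn (tn (tn (tl [(431, .ofNat 2)]) te) te) te))) te))))

def r114 : Tr SV := (tn (tn (tn (tn (tn (tn (tn (tn (tn (tl [(220, .ofNat 2), (221, .ofNat 2), (222, .ofNat 1), (223, .ofNat 1), (224, .ofNat 2), (225, .ofNat 2)]) te) te) te) (tn (tn te (tn (tl [(434, .ofNat 2)]) te)) te)) (tn (tn (tn (tn (tl [(419, .ofNat 1), (421, .ofNat 2), (422, .ofNat 2)]) te) te) te) te)) (tn te (tn te (tn (tn (tn (tl [(431, .ofNat 2)]) te) te) te)))) (tn (tn (tn te (tn (tn (tn (tl [(427, .ofNat 1)]) te) (tn (tl [(434, .ofNat 2)]) te)) te)) te) (tn (tn (tn (tn (tn (tl [(398, .ofNat 1), (399, .ofNat 1)]) te) te) te) te) (tn (tn (tn te (tn (tl [(434, .ofNat 1)]) te)) te) (tn (tn (tn (tl [(432, .ofNat 1), (433, .ofNat 1)]) te) te) te))))) (tn (tn (tn (tn te (tn (tn (tn (tl [(427, .ofNat 2)]) te) te) te)) te) (tn (tn (tn (tn (tn (tl [(392, .ofNat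 2), (393, .ofNat 1), (394, .ofNat 1), (395, .ofNat 2), (396, .ofNat 1)]) te) te) te) te) (tn te (tn (tn (tn (tl [(432, .ofNat 1)]) te) te) te)))) (tn (tn (tn te (tn (tn (tn (tl [(427, .ofNat 1)]) te) (tn (tl [(434, .ofNat 2)]) te)) te)) te) (tn te (tn (tn (tn te (tn (tl [(434, .ofNat 2)]) te)) te) te))))) (tn (tn (tn (tn (tn (tn (tn (tn (tl [(227, .ofNat 2), (229, .ofNat 2), (230, .ofNat 1), (232, .ofNat 2)]) te) te) te) (tn (tn te (tn (tl [(434, .ofNat 1)]) te)) te)) te) (tn te (tn te (tn (tn (tn (tl [(431, .ofNat 1)]) te) te) te)))) (tn (tn (tn (tn (tn (tn (tl [(386, .ofNat 2)]) te) te) te) (tn (tn (tn (tl [(427, .ofNat 1)]) te) te) te)) te) (tn (tn (tn (tn (tn (tl [(397, .ofNat 2), (398, .ofNat 2), (399, .ofNat 1), (400, .ofNat 1)]) te) te) te) te) (tn (tn (tn te (tn (tl [(434, .ofNat 1)]) te)) te) te)))) (tn (tn (tn (tn (tn (tn (tn (tl [(293, .ofNat 2), (294, .ofNat 1), (295, .ofNat 2), (296, .ofNat 1), (298, .ofNat 2),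 (299, .ofNat 1), (300, .ofNat 2), (301, .ofNat 1), (302, .ofNat 2), (306, .ofNat 1), (307, .ofNat 2), (310, .ofNat 2), (311, .ofNat 2)]) te) te) te) (tn (tn (tn (tl [(427, .ofNat 2)]) te) (tn (tl [(434, .ofNat 2)]) te)) te)) te) (tn (tn (tn (tn (tn (tl [(392, .ofNat 2), (394, .ofNat 2)]) te) te) te) te) (tn te (tn (tn (tn (tl [(432, .ofNat 1), (433, .ofNat 1)]) te) te) te)))) (tn (tn te (tn te (tn (tn (tn (tl [(431, .ofNat 1)]) te) te) te))) (tn te (tn (tn (tn te (tn (tl [(434, .ofNat 2)]) te)) te) te))))))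

def r115 : Tr SV := (tn (tn (tn (tn (tn (tn (tn (tn (tn (tl [(221, .ofNat 2), (222, .ofNat 1), (223, .ofNat 2), (224, .ofNat 1), (225, .ofNat 2), (226, .ofNat 2)]) te) te) te) te) (tn (tn (tn (tn (tl [(422, .ofNat 1)]) te) te) te) te)) (tn te (tn te (tn (tn (tn (tl [(431, .ofNat 2)]) te) te) te)))) (tn (tn (tn te (tn (tn (tn (tl [(427, .ofNat 1)]) te) te) te)) te) (tn (tn (tn (tn (tn (tl [(398, .ofNat 2), (399, .ofNat 1), (400, .ofNat 2), (401, .ofNat 1)]) te) te) te) te) (tn te (tn (tn (tn (tl [(432, .ofNat 2), (433, .ofNat 2)]) te) te) te))))) (tn (tn (tn (tn te (tn (tn te (tn (tl [(434, .ofNat 1)]) te)) te)) te) (tn (tn (tn (tn (tn (tl [(392, .ofNat 2), (393, .ofNat 2), (396, .ofNat 1)]) te) te) te) te) (tn te (tn (tn (tn (tl [(432, .ofNat 1)]) te) te) te)))) (tn (tn (tn te (tn (tn (tn (tl [(427, .ofNat 1)]) te) (tn (tl [(434, .ofNat 1)]) te)) te)) te) te))) (tn (tn (tn (tn (tn (tn (tn (tn (tl [(227, .ofNat 2), (229, .ofNat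 1), (230, .ofNat 2), (231, .ofNat 1), (232, .ofNat 1)]) te) te) te) te) te) (tn te (tn te (tn (tn (tn (tl [(430, .ofNat 2), (431, .ofNat 1)]) te) te) te)))) (tn (tn (tn te (tn (tn (tn (tl [(427, .ofNat 2)]) te) (tn (tl [(434, .ofNat 2)]) te)) te)) te) (tn (tn (tn (tn (tn (tl [(397, .ofNat 1), (398, .ofNat 1), (399, .ofNat 1), (400, .ofNat 1)]) te) te) te) te) te))) (tn (tn (tn (tn (tn (tn (tn (tl [(293, .ofNat 2), (294, .ofNat 1), (298, .ofNat 2), (303, .ofNat 1), (310, .ofNat 2), (311, .ofNat 2)]) te) te) te) (tn (tn te (tn (tl [(434, .ofNat 1)]) te)) te)) te) (tn (tn (tn (tn (tn (tl [(393, .ofNat 2), (394, .ofNat 1), (396, .ofNat 2)]) te) te) te) te) (tn te (tn (tn (tn (tl [(432, .ofNat 2)]) te) te) te)))) (tn (tn te (tn te (tn (tn (tn (tl [(430, .ofNat 2)]) te) te) te))) (tn te (tn (tn (tn te (tn (tl [(434, .ofNat 2)]) te)) te) te))))))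

def r116 : Tr SV := (tn (tn (tn (tn (tn (tn (tn (tn (tn (tl [(220, .ofNat 2), (221, .ofNat 2), (222, .ofNat 2), (225, .ofNat 2)]) te) te) te) te) (tn (tn (tn (tn (tl [(419, .ofNat 2), (420, .ofNat 1), (421, .ofNat 2), (422, .ofNat 2)]) te) te) te) te)) (tn te (tn te (tn (tn (tn (tl [(430, .ofNat 1), (431, .ofNat 2)]) te) te) te)))) (tn (tn (tn te (tn (tn (tn (tl [(427, .ofNat 1)]) te) te) te)) te) (tn (tn (tn (tn (tn (tl [(398, .ofNat 2), (400, .ofNat 2), (401, .ofNat 1)]) te) te) te) te) (tn (tn (tn te (tn (tl [(434, .ofNat 1)]) te)) te) (tn (tn (tn (tl [(432, .ofNat 2), (433, .ofNat 1)]) te) te) te))))) (tn (tn (tn (tn te (tn (tn (tn (tl [(427, .ofNat 1)]) te) te) te)) te) (tn (tn (tn (tn (tn (tl [(392, .ofNat 1), (393, .ofNat 1), (394, .ofNat 1), (395, .ofNat 1), (396, .ofNat 1)]) te) te) te) te) (tn te (tn (tn (tn (tl [(433, .ofNat 1)]) te) te) te)))) (tn (tn (tn te (tn (tn (tn (tl [(427, .ofNat 2)]) te) te) te)) te) te)))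 (tn (tn (tn (tn (tn (tn (tn (tn (tl [(229, .ofNat 2), (230, .ofNat 2), (231, .ofNat 1)]) te) te) te) (tn (tn te (tn (tl [(434, .ofNat 1)]) te)) te)) te) (tn te (tn te (tn (tn (tn (tl [(431, .ofNat 1)]) te) te) te)))) (tn (tn (tn (tn (tn (tn (tl [(386, .ofNat 2)]) te) te) te) (tn (tn te (tn (tl [(434, .ofNat 2)]) te)) te)) te) (tn (tn (tn (tn (tn (tl [(397, .ofNat 2), (398, .ofNat 2), (399, .ofNat 2), (400, .ofNat 1), (401, .ofNat 2)]) te) te) te) te) (tn (tn (tn te (tn (tl [(434, .ofNat 1)]) te)) te) te)))) (tn (tn (tn (tn (tn (tn (tn (tl [(292, .ofNat 1), (293, .ofNat 2), (294, .ofNat 2), (295, .ofNat 1), (296, .ofNat 1), (297, .ofNat 2), (299, .ofNat 1), (300, .ofNat 1), (304, .ofNat 1), (305, .ofNat 1), (306, .ofNat 2), (307, .ofNat 2), (309, .ofNat 1), (311, .ofNat 1)]) te) te) te) (tn (tn (tn (tl [(427, .ofNat 1)]) te) (tn (tl [(434, .ofNat 1)]) te)) te)) te) (tn (tn (tn (tn (tn (tl [(393, .ofNat 2), (395, .ofNat 2), (396,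 .ofNat 2)]) te) te) te) te) (tn te (tn (tn (tn (tl [(432, .ofNat 2), (433, .ofNat 2)]) te) te) te)))) (tn (tn te (tn te (tn (tn (tn (tl [(430, .ofNat 2), (431, .ofNat 1)]) te) te) te))) (tn te (tn (tn (tn te (tn (tl [(434, .ofNat 2)]) te)) te) te))))))

def r117 : Tr SV := (tn (tn (tn (tn (tn (tn (tn (tn (tn (tl [(220, .ofNat 2), (225, .ofNat 1), (226, .ofNat 2)]) te) te) te) te) (tn (tn (tn (tn (tl [(418, .ofNat 2), (419, .ofNat 2), (420, .ofNat 2), (422, .ofNat 2)]) te) te) te) te)) (tn te (tn te (tn (tn (tn (tl [(431, .ofNat 2)]) te) te) te)))) (tn (tn (tn te (tn (tn (tn (tl [(427, .ofNat 1)]) te) (tn (tl [(434, .ofNat 2)]) te)) te)) te) (tn (tn (tn (tn (tn (tl [(398, .ofNat 2), (400, .ofNat 2), (401, .ofNat 1)]) te) te) te) te) (tn (tn (tn te (tn (tl [(434, .ofNat 1)]) te)) te) (tn (tn (tn (tl [(432, .ofNat 1), (433, .ofNat 1)]) te) te) te))))) (tn (tn (tn (tn te (tn (tn te (tn (tl [(434, .ofNat 2)]) te)) te)) te) (tn (tn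 (tn (tn (tn (tl [(392, .ofNat 2), (393, .ofNat 2), (394, .ofNat 2), (396, .ofNat 2)]) te) te) te) te) (tn te (tn (tn (tn (tl [(433, .ofNat 2)]) te) te) te)))) (tn (tn (tn te (tn (tn (tn (tl [(427, .ofNat 1)]) te) te) te)) te) te))) (tn (tn (tn (tn (tn (tn (tn (tn (tl [(227, .ofNat 1), (229, .ofNat 2), (231, .ofNat 1), (232, .ofNat 2)]) te) te) te) te) te) (tn te (tn te (tn (tn (tn (tl [(430, .ofNat 1), (431, .ofNat 1)]) te) te) te)))) (tn (tn (tn te (tn (tn te (tn (tl [(434, .ofNat 1)]) te)) te)) te) (tn (tn (tn (tn (tn (tl [(398, .ofNat 2), (400, .ofNat 1), (401, .ofNat 2)]) te) te) te) te) (tn (tn (tn te (tn (tl [(434, .ofNat 2)]) te)) te) te)))) (tn (tn (tn (tn (tn (tn (tn (tl [(292, .ofNat 2), (293, .ofNat 2), (298, .ofNat 1), (300, .ofNat 1), (301, .ofNat 1), (302, .ofNat 2), (304, .ofNat 2), (306, .ofNat 1), (310, .ofNat 1), (311, .ofNat 1)]) te) te) te) (tn (tn (tn (tl [(427, .ofNat 2)]) te) te) te)) te) (tn (tn (tn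 (tn (tn (tl [(392, .ofNat 1), (395, .ofNat 2)]) te) te) te) te) (tn te (tn (tn (tn (tl [(432, .ofNat 2), (433, .ofNat 2)]) te) te) te)))) (tn te (tn te (tn (tn (tn te (tn (tl [(434, .ofNat 2)]) te)) te) te))))))

def r118 : Tr SV := (tn (tn (tn (tn (tn (tn (tn (tn (tn (tl [(220, .ofNat 1), (221, .ofNat 2), (223, .ofNat 1), (224, .ofNat 1), (225, .ofNat 1), (226, .ofNat 1)]) te) te) te) (tn (tn te (tn (tl [(434, .ofNat 1)]) te)) te)) (tn (tn (tn (tn (tl [(418, .ofNat 1), (420, .ofNat 1), (421, .ofNat 2), (422, .ofNat 1)]) te) te) te) te)) (tn te (tn te (tn (tn (tn (tl [(431, .ofNat 1)]) te) te) te)))) (tn (tn (tn te (tn (tn (tn (tl [(427, .ofNat 2)]) te) (tn (tl [(434, .ofNat 1)]) te)) te)) te) (tn (tn (tn (tn (tn (tl [(398, .ofNat 2), (401, .ofNat 1)]) te) te) te) te) te))) (tn (tn (tn (tn te (tn (tn te (tn (tl [(434, .ofNat 2)]) te)) te)) te) (tn (tn (tn (tn (tn (tl [(393, .ofNat 2), (394, .ofNat 2), (395, .ofNat 1), (396,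 .ofNat 1)]) te) te) te) te) (tn te (tn (tn (tn (tl [(432, .ofNat 1)]) te) te) te)))) (tn (tn (tn te (tn (tn te (tn (tl [(434, .ofNat 1)]) te)) te)) te) te))) (tn (tn (tn (tn (tn (tn (tn (tn (tl [(227, .ofNat 2), (228, .ofNat 2), (229, .ofNat 2), (230, .ofNat 2), (231, .ofNat 1)]) te) te) te) (tn (tn te (tn (tl [(434, .ofNat 2)]) te)) te)) te) (tn te (tn te (tn (tn (tn (tl [(430, .ofNat 2)]) te) te) te)))) (tn (tn (tn (tn (tn (tn (tl [(386, .ofNat 2)]) te) te) te) (tn (tn (tn (tl [(427, .ofNat 1)]) te) (tn (tl [(434, .ofNat 2)]) te)) te)) te) (tn (tn (tn (tn (tn (tl [(397, .ofNat 1), (398, .ofNat 2), (400, .ofNat 1), (401, .ofNat 1)]) te) te) te) te) (tn (tn (tn te (tn (tl [(434, .ofNat 2)]) te)) te) te)))) (tn (tn (tn (tn (tn (tn (tn (tl [(294, .ofNat 2), (295, .ofNat 1), (296, .ofNat 2), (298, .ofNat 1), (299, .ofNat 1), (300, .ofNat 2), (301, .ofNat 2), (302, .ofNat 1), (303, .ofNat 1), (304, .ofNat 1), (306, .ofNat 2), (307,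 .ofNat 2), (308, .ofNat 1), (309, .ofNat 1), (311, .ofNat 1)]) te) te) te) (tn (tn (tn (tl [(427, .ofNat 1)]) te) (tn (tl [(434, .ofNat 2)]) te)) te)) te) (tn (tn (tn (tn (tn (tl [(393, .ofNat 1), (394, .ofNat 2), (395, .ofNat 1), (396, .ofNat 2)]) te) te) te) te) (tn te (tn (tn (tn (tl [(432, .ofNat 2), (433, .ofNat 2)]) te) te) te)))) (tn (tn te (tn te (tn (tn (tn (tl [(430, .ofNat 2), (431, .ofNat 2)]) te) te) te))) (tn te (tn (tn (tn te (tn (tl [(434, .ofNat 2)]) te)) te) te))))))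

def r119 : Tr SV := (tn (tn (tn (tn (tn (tn (tn (tn (tn (tl [(222, .ofNat 1), (223, .ofNat 2), (224, .ofNat 2), (225, .ofNat 1)]) te) te) te) (tn (tn te (tn (tl [(434, .ofNat 1)]) te)) te)) (tn (tn (tn (tn (tl [(418, .ofNat 1), (419, .ofNat 2), (421, .ofNat 1)]) te) te) te) te)) (tn te (tn te (tn (tn (tn (tl [(430, .ofNat 1), (431, .ofNat 1)]) te) te) te)))) (tn (tn (tn te (tn (tn te (tn (tl [(434, .ofNat 2)]) te)) te)) te) (tn (tn (tn (tn (tn (tl [(397, .ofNat 1), (399, .ofNat 2), (400, .ofNat 2), (401, .ofNat 1)]) te) te) te) te) (tn (tn (tn te (tn (tl [(434, .ofNat 2)]) te)) te) (tn (tn (tn (tl [(433, .ofNat 1)]) te) te) te))))) (tn (tn (tn (tn te (tn (tn (tn (tl [(427, .ofNat 1)]) te) (tn (tl [(434, .ofNat 1)]) te)) te)) te) (tn (tn (tn (tn (tn (tl [(393, .ofNat 2), (394, .ofNat 1), (396, .ofNat 2)]) te) te) te) te) (tn te (tn (tn (tn (tl [(432, .ofNat 2), (433, .ofNat 2)]) te) te) te)))) (tn (tn (tn te (tn (tn (tn (tl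 [(427, .ofNat 2)]) te) (tn (tl [(434, .ofNat 1)]) te)) te)) te) (tn te (tn (tn (tn te (tn (tl [(434, .ofNat 1)]) te)) te) te))))) (tn (tn (tn (tn (tn (tn (tn (tn (tl [(227, .ofNat 1), (228, .ofNat 1), (230, .ofNat 2), (231, .ofNat 2), (232, .ofNat 1)]) te) te) te) (tn (tn te (tn (tl [(434, .ofNat 1)]) te)) te)) te) (tn te (tn te (tn (tn (tn (tl [(430, .ofNat 2), (431, .ofNat 1)]) te) te) te)))) (tn (tn (tn te (tn (tn (tn (tl [(427, .ofNat 2)]) te) te) te)) te) (tn (tn (tn (tn (tn (tl [(397, .ofNat 1), (398, .ofNat 1), (399, .ofNat 2), (400, .ofNat 1), (401, .ofNat 1)]) te) te) te) te) (tn (tn (tn te (tn (tl [(434, .ofNat 1)]) te)) te) te)))) (tn (tn (tn (tn (tn (tn (tn (tl [(292, .ofNat 1), (293, .ofNat 2), (294, .ofNat 2), (295, .ofNat 1), (297, .ofNat 2), (298, .ofNat 2), (299, .ofNat 2), (300, .ofNat 1), (301, .ofNat 2), (303, .ofNat 1), (304, .ofNat 1), (305, .ofNat 1), (306, .ofNat 1), (308, .ofNat 1), (309, .ofNat 2),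 (311, .ofNat 2)]) te) te) te) (tn (tn (tn (tl [(427, .ofNat 1)]) te) te) te)) te) (tn (tn (tn (tn (tn (tl [(392, .ofNat 2), (393, .ofNat 1), (395, .ofNat 2), (396, .ofNat 1)]) te) te) te) te) (tn te (tn (tn (tn (tl [(432, .ofNat 1), (433, .ofNat 1)]) te) te) te)))) (tn (tn te (tn te (tn (tn (tn (tl [(430, .ofNat 2)]) te) te) te))) te))))

def r120 : Tr SV := (tn (tn (tn (tn (tn (tn (tn (tn (tn (tl [(220, .ofNat 2), (221, .ofNat 2), (222, .ofNat 2), (223, .ofNat 1), (225, .ofNat 2), (226, .ofNat 1)]) te) te) te) te) (tn (tn (tn (tn (tl [(419, .ofNat 2), (420, .ofNat 2), (421, .ofNat 2)]) te) te) te) te)) te) (tn (tn (tn te (tn (tn (tn (tl [(427, .ofNat 1)]) te) te) te)) te) (tn (tn (tn (tn (tn (tl [(397, .ofNat 2), (398, .ofNat 1), (401, .ofNat 1)]) te) te) te) te) (tn (tn (tn te (tn (tl [(434, .ofNat 1)]) te)) te) (tn (tn (tn (tl [(432, .ofNat 2)]) te) te) te))))) (tn (tn (tn (tn te (tn (tn (tn (tl [(427, .ofNat 2)]) te) (tn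 (tl [(434, .ofNat 1)]) te)) te)) te) (tn (tn (tn (tn (tn (tl [(392, .ofNat 1), (393, .ofNat 2), (396, .ofNat 1)]) te) te) te) te) (tn te (tn (tn (tn (tl [(432, .ofNat 2)]) te) te) te)))) (tn (tn (tn te (tn (tn (tn (tl [(427, .ofNat 2)]) te) te) te)) te) (tn te (tn (tn (tn te (tn (tl [(434, .ofNat 1)]) te)) te) te))))) (tn (tn (tn (tn (tn (tn (tn (tn (tl [(227, .ofNat 1), (228, .ofNat 2), (231, .ofNat 1), (232, .ofNat 1)]) te) te) te) (tn (tn te (tn (tl [(434, .ofNat 2)]) te)) te)) te) (tn te (tn te (tn (tn (tn (tl [(430, .ofNat 1), (431, .ofNat 1)]) te) te) te)))) (tn (tn (tn (tn (tn (tn (tl [(386, .ofNat 2)]) te) te) te) (tn (tn (tn (tl [(427, .ofNat 1)]) te) (tn (tl [(434, .ofNat 2)]) te)) te)) te) (tn (tn (tn (tn (tn (tl [(398, .ofNat 2), (399, .ofNat 1), (400, .ofNat 1)]) te) te) te) te) (tn (tn (tn te (tn (tl [(434, .ofNat 2)]) te)) te) te)))) (tn (tn (tn (tn (tn (tn (tn (tl [(296, .ofNat 2), (297, .ofNat 1), (299, .ofNat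 1), (300, .ofNat 1), (302, .ofNat 1), (303, .ofNat 1), (305, .ofNat 1), (306, .ofNat 2), (307, .ofNat 2), (310, .ofNat 1), (311, .ofNat 2)]) te) te) te) (tn (tn te (tn (tl [(434, .ofNat 1)]) te)) te)) te) (tn (tn (tn (tn (tn (tl [(393, .ofNat 2), (394, .ofNat 2), (395, .ofNat 1)]) te) te) te) te) (tn te (tn (tn (tn (tl [(432, .ofNat 2), (433, .ofNat 2)]) te) te) te)))) (tn (tn te (tn te (tn (tn (tn (tl [(431, .ofNat 1)]) te) te) te))) te))))

def r121 : Tr SV := (tn (tn (tn (tn (tn (tn (tn (tn (tn (tl [(220, .ofNat 2), (221, .ofNat 2), (224, .ofNat 2)]) te) te) te) (tn (tn te (tn (tl [(434, .ofNat 1)]) te)) te)) (tn (tn (tn (tn (tl [(418, .ofNat 2), (419, .ofNat 2), (420, .ofNat 2)]) te) te) te) te)) (tn te (tn te (tn (tn (tn (tl [(430, .ofNat 1)]) te) te) te)))) (tn (tn (tn te (tn (tn (tn (tl [(427, .ofNat 1)]) te) (tn (tl [(434, .ofNat 2)]) te)) te)) te) (tn (tn (tn (tn (tn (tl [(397, .ofNat 1), (398, .ofNat 2), (400, .ofNat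 2), (401, .ofNat 1)]) te) te) te) te) (tn (tn (tn te (tn (tl [(434, .ofNat 1)]) te)) te) (tn (tn (tn (tl [(433, .ofNat 2)]) te) te) te))))) (tn (tn (tn (tn te (tn (tn te (tn (tl [(434, .ofNat 2)]) te)) te)) te) (tn (tn (tn (tn (tn (tl [(392, .ofNat 2), (393, .ofNat 1), (394, .ofNat 1), (395, .ofNat 2), (396, .ofNat 1)]) te) te) te) te) te)) (tn te (tn te (tn (tn (tn te (tn (tl [(434, .ofNat 1)]) te)) te) te))))) (tn (tn (tn (tn (tn (tn (tn (tn (tl [(231, .ofNat 1)]) te) te) te) te) te) (tn te (tn te (tn (tn (tn (tl [(430, .ofNat 1), (431, .ofNat 2)]) te) te) te)))) (tn (tn (tn (tn (tn (tn (tl [(386, .ofNat 2)]) te) te) te) (tn (tn te (tn (tl [(434, .ofNat 1)]) te)) te)) te) (tn (tn (tn (tn (tn (tl [(397, .ofNat 2), (398, .ofNat 1), (399, .ofNat 2), (401, .ofNat 1)]) te) te) te) te) (tn (tn (tn te (tn (tl [(434, .ofNat 2)]) te)) te) te)))) (tn (tn (tn (tn (tn (tn (tn (tl [(292, .ofNat 1), (293, .ofNat 1), (294, .ofNat 1), (296,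 .ofNat 2), (297, .ofNat 2), (298, .ofNat 1), (299, .ofNat 2), (300, .ofNat 2), (302, .ofNat 1), (303, .ofNat 2), (307, .ofNat 1), (308, .ofNat 2), (309, .ofNat 1)]) te) te) te) (tn (tn (tn (tl [(427, .ofNat 1)]) te) (tn (tl [(434, .ofNat 2)]) te)) te)) te) (tn (tn (tn (tn (tn (tl [(393, .ofNat 1), (394, .ofNat 1), (395, .ofNat 1), (396, .ofNat 2)]) te) te) te) te) (tn te (tn (tn (tn (tl [(433, .ofNat 1)]) te) te) te)))) (tn te (tn te (tn (tn (tn te (tn (tl [(434, .ofNat 2)]) te)) te) te))))))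

def r122 : Tr SV := (tn (tn (tn (tn (tn (tn (tn (tn (tn (tl [(221, .ofNat 1), (224, .ofNat 2)]) te) te) te) (tn (tn te (tn (tl [(434, .ofNat 1)]) te)) te)) (tn (tn (tn (tn (tl [(418, .ofNat 2), (420, .ofNat 2), (421, .ofNat 2), (422, .ofNat 2)]) te) te) te) te)) (tn te (tn te (tn (tn (tn (tl [(431, .ofNat 2)]) te) te) te)))) (tn (tn (tn te (tn (tn te (tn (tl [(434, .ofNat 1)]) te)) te)) te) (tn (tn (tn (tn (tn (tl [(397, .ofNat 2), (398, .ofNat 2), (400, .ofNat 1), (401, .ofNat 1)]) te) te) te) te) (tn (tn (tn te (tn (tl [(434, .ofNat 2)]) te)) te) (tn (tn (tn (tl [(432, .ofNat 2), (433, .ofNat 1)]) te) te) te))))) (tn (tn (tn (tn te (tn (tn te (tn (tl [(434, .ofNat 1)]) te)) te)) te) (tn (tn (tn (tn (tn (tl [(392, .ofNat 1), (393, .ofNat 2), (394, .ofNat 2), (396, .ofNat 2)]) te) te) te) te) (tn te (tn (tn (tn (tl [(432, .ofNat 1)]) te) te) te)))) (tn (tn (tn te (tn (tn (tn (tl [(427, .ofNat 1)]) te) te) te)) te) (tn te (tn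 (tn (tn te (tn (tl [(434, .ofNat 2)]) te)) te) te))))) (tn (tn (tn (tn (tn (tn (tn (tn (tl [(228, .ofNat 1), (230, .ofNat 1), (231, .ofNat 1), (232, .ofNat 2)]) te) te) te) te) te) (tn te (tn te (tn (tn (tn (tl [(430, .ofNat 1), (431, .ofNat 1)]) te) te) te)))) (tn (tn (tn te (tn (tn (tn (tl [(427, .ofNat 1)]) te) (tn (tl [(434, .ofNat 1)]) te)) te)) te) (tn (tn (tn (tn (tn (tl [(397, .ofNat 2), (398, .ofNat 1), (399, .ofNat 2), (401, .ofNat 1)]) te) te) te) te) (tn (tn (tn te (tn (tl [(434, .ofNat 1)]) te)) te) te)))) (tn (tn (tn (tn (tn (tn (tn (tl [(292, .ofNat 2), (298, .ofNat 2), (301, .ofNat 1), (305, .ofNat 2), (307, .ofNat 2), (309, .ofNat 2), (311, .ofNat 1)]) te) te) te) (tn (tn te (tn (tl [(434, .ofNat 1)]) te)) te)) te) (tn (tn (tn (tn (tn (tl [(392, .ofNat 1), (395, .ofNat 2), (396, .ofNat 1)]) te) te) te) te) (tn te (tn (tn (tn (tl [(432, .ofNat 1)]) te) te) te)))) (tn (tn te (tn te (tn (tn (tn (tl [(430, .ofNat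 2)]) te) te) te))) (tn te (tn (tn (tn te (tn (tl [(434, .ofNat 1)]) te)) te) te))))))

def r123 : Tr SV := (tn (tn (tn (tn (tn (tn (tn (tn (tn (tl [(222, .ofNat 1), (225, .ofNat 1), (226, .ofNat 2)]) te) te) te) te) (tn (tn (tn (tn (tl [(418, .ofNat 2), (419, .ofNat 1), (420, .ofNat 1), (421, .ofNat 1)]) te) te) te) te)) (tn te (tn te (tn (tn (tn (tl [(431, .ofNat 1)]) te) te) te)))) (tn te (tn (tn (tn (tn (tn (tl [(398, .ofNat 2), (401, .ofNat 1)]) te) te) te) te) (tn (tn (tn te (tn (tl [(434, .ofNat 1)]) te)) te) (tn (tn (tn (tl [(432, .ofNat 1), (433, .ofNat 1)]) te) te) te))))) (tn (tn (tn (tn te (tn (tn (tn (tl [(427, .ofNat 2)]) te) (tn (tl [(434, .ofNat 1)]) te)) te)) te) (tn (tn (tn (tn (tn (tl [(392, .ofNat 2), (393, .ofNat 2), (394, .ofNat 1), (395, .ofNat 1)]) te) te) te) te) (tn te (tn (tn (tn (tl [(432, .ofNat 2), (433, .ofNat 2)]) te) te) te)))) (tn (tn (tn te (tn (tn (tn (tl [(427, .ofNat 1)]) te) te) te)) te)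 (tn te (tn (tn (tn te (tn (tl [(434, .ofNat 2)]) te)) te) te))))) (tn (tn (tn (tn (tn (tn (tn (tn (tl [(227, .ofNat 2), (231, .ofNat 2), (232, .ofNat 1)]) te) te) te) (tn (tn te (tn (tl [(434, .ofNat 1)]) te)) te)) te) (tn te (tn te (tn (tn (tn (tl [(430, .ofNat 1)]) te) te) te)))) (tn (tn (tn (tn (tn (tn (tl [(386, .ofNat 1)]) te) te) te) (tn (tn (tn (tl [(427, .ofNat 1)]) te) te) te)) te) (tn (tn (tn (tn (tn (tl [(397, .ofNat 2), (398, .ofNat 1), (400, .ofNat 1), (401, .ofNat 2)]) te) te) te) te) (tn (tn (tn te (tn (tl [(434, .ofNat 1)]) te)) te) te)))) (tn (tn (tn (tn (tn (tn (tn (tl [(292, .ofNat 1), (293, .ofNat 2), (295, .ofNat 1), (296, .ofNat 2), (298, .ofNat 1), (299, .ofNat 2), (302, .ofNat 1), (305, .ofNat 2), (306, .ofNat 1), (308, .ofNat 1), (309, .ofNat 2), (310, .ofNat 2)]) te) te) te) (tn (tn te (tn (tl [(434, .ofNat 1)]) te)) te)) te) (tn (tn (tn (tn (tn (tl [(392, .ofNat 2), (393, .ofNat 1), (394, .ofNat 1),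 (396, .ofNat 2)]) te) te) te) te) (tn te (tn (tn (tn (tl [(432, .ofNat 2), (433, .ofNat 2)]) te) te) te)))) (tn (tn te (tn te (tn (tn (tn (tl [(430, .ofNat 2), (431, .ofNat 2)]) te) te) te))) (tn te (tn (tn (tn te (tn (tl [(434, .ofNat 1)]) te)) te) te))))))

def r124 : Tr SV := (tn (tn (tn (tn (tn (tn (tn (tn (tn (tl [(221, .ofNat 2), (222, .ofNat 1), (224, .ofNat 2), (225, .ofNat 2), (226, .ofNat 1)]) te) te) te) te) (tn (tn (tn (tn (tl [(418, .ofNat 2), (420, .ofNat 2), (422, .ofNat 2)]) te) te) te) te)) (tn te (tn te (tn (tn (tn (tl [(430, .ofNat 2), (431, .ofNat 1)]) te) te) te)))) (tn (tn (tn te (tn (tn (tn (tl [(427, .ofNat 2)]) te) (tn (tl [(434, .ofNat 1)]) te)) te)) te) (tn (tn (tn (tn (tn (tl [(399, .ofNat 2), (400, .ofNat 1)]) te) te) te) te) (tn (tn (tn te (tn (tl [(434, .ofNat 2)]) te)) te) (tn (tn (tn (tl [(432, .ofNat 1)]) te) te) te))))) (tn (tn (tn (tn te (tn (tn (tn (tl [(427, .ofNat 2)]) te) (tn (tl [(434,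 .ofNat 2)]) te)) te)) te) (tn (tn (tn (tn (tn (tl [(392, .ofNat 2), (393, .ofNat 1), (394, .ofNat 2), (395, .ofNat 2), (396, .ofNat 2)]) te) te) te) te) (tn te (tn (tn (tn (tl [(432, .ofNat 1), (433, .ofNat 1)]) te) te) te)))) (tn (tn (tn te (tn (tn (tn (tl [(427, .ofNat 2)]) te) (tn (tl [(434, .ofNat 1)]) te)) te)) te) (tn te (tn (tn (tn te (tn (tl [(434, .ofNat 1)]) te)) te) te))))) (tn (tn (tn (tn (tn (tn (tn (tn (tl [(227, .ofNat 1), (228, .ofNat 2), (229, .ofNat 1), (230, .ofNat 1), (231, .ofNat 1), (232, .ofNat 2)]) te) te) te) (tn (tn te (tn (tl [(434, .ofNat 2)]) te)) te)) te) (tn te (tn te (tn (tn (tn (tl [(430, .ofNat 1), (431, .ofNat 2)]) te) te) te)))) (tn (tn (tn (tn (tn (tn (tl [(386, .ofNat 1)]) te) te) te) (tn (tn te (tn (tl [(434, .ofNat 1)]) te)) te)) te) (tn (tn (tn (tn (tn (tl [(398, .ofNat 2), (400, .ofNat 2), (401, .ofNat 1)]) te) te) te) te) (tn (tn (tn te (tn (tl [(434, .ofNat 2)]) te)) te) te)))) (tn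 (tn (tn (tn (tn (tn (tn (tl [(292, .ofNat 1), (293, .ofNat 2), (294, .ofNat 1), (295, .ofNat 2), (296, .ofNat 1), (297, .ofNat 2), (298, .ofNat 1), (299, .ofNat 2), (300, .ofNat 2), (302, .ofNat 2), (303, .ofNat 1), (304, .ofNat 2), (305, .ofNat 1), (306, .ofNat 2), (307, .ofNat 2), (308, .ofNat 1), (309, .ofNat 1), (310, .ofNat 2)]) te) te) te) (tn (tn (tn (tl [(427, .ofNat 1)]) te) (tn (tl [(434, .ofNat 1)]) te)) te)) te) (tn (tn (tn (tn (tn (tl [(392, .ofNat 2), (393, .ofNat 2), (394, .ofNat 2), (396, .ofNat 1)]) te) te) te) te) (tn te (tn (tn (tn (tl [(432, .ofNat 2)]) te) te) te)))) (tn (tn te (tn te (tn (tn (tn (tl [(430, .ofNat 1), (431, .ofNat 2)]) te) te) te))) (tn te (tn (tn (tn te (tn (tl [(434, .ofNat 1)]) te)) te) te))))))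

def r125 : Tr SV := (tn (tn (tn (tn (tn (tn (tn (tn (tn (tl [(222, .ofNat 1), (224, .ofNat 2), (225, .ofNat 2), (226, .ofNat 1)]) te) te) te) (tn (tn te (tn (tl [(434, .ofNat 1)]) te)) te)) (tn (tn (tn (tn (tl [(418, .ofNat 2), (419, .ofNat 1), (421, .ofNat 1), (422, .ofNat 2)]) te) te) te) te)) (tn te (tn te (tn (tn (tn (tl [(431, .ofNat 1)]) te) te) te)))) (tn (tn (tn te (tn (tn te (tn (tl [(434, .ofNat 2)]) te)) te)) te) (tn (tn (tn (tn (tn (tl [(397, .ofNat 1), (399, .ofNat 2), (400, .ofNat 2), (401, .ofNat 1)]) te) te) te) te) (tn te (tn (tn (tn (tl [(433, .ofNat 2)]) te) te) te))))) (tn (tn te (tn (tn (tn (tn (tn (tl [(392, .ofNat 1), (394, .ofNat 1), (395, .ofNat 1), (396, .ofNat 1)]) te) te) te) te) (tn te (tn (tn (tn (tl [(432, .ofNat 1)]) te) te) te)))) (tn (tn (tn te (tn (tn (tn (tl [(427, .ofNat 1)]) te) (tn (tl [(434, .ofNat 1)]) te)) te)) te) te))) (tn (tn (tn (tn (tn (tn (tn (tn (tl [(229, .ofNat 1), (230, .ofNat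 2), (232, .ofNat 2)]) te) te) te) te) te) (tn te (tn te (tn (tn (tn (tl [(431, .ofNat 1)]) te) te) te)))) (tn (tn (tn (tn (tn (tn (tl [(386, .ofNat 2)]) te) te) te) (tn (tn (tn (tl [(427, .ofNat 2)]) te) te) te)) te) (tn (tn (tn (tn (tn (tl [(397, .ofNat 2), (398, .ofNat 2), (400, .ofNat 2), (401, .ofNat 2)]) te) te) te) te) te))) (tn (tn (tn (tn (tn (tn (tn (tl [(292, .ofNat 2), (294, .ofNat 2), (295, .ofNat 2), (297, .ofNat 1), (298, .ofNat 2), (299, .ofNat 2), (300, .ofNat 2), (302, .ofNat 1), (303, .ofNat 2), (305, .ofNat 1), (308, .ofNat 1), (310, .ofNat 1)]) te) te) te) (tn (tn (tn (tl [(427, .ofNat 2)]) te) (tn (tl [(434, .ofNat 2)]) te)) te)) te) (tn (tn (tn (tn (tn (tl [(393, .ofNat 2), (395, .ofNat 2), (396, .ofNat 2)]) te) te) te) te) (tn te (tn (tn (tn (tl [(432, .ofNat 1), (433, .ofNat 1)]) te) te) te)))) (tn (tn te (tn te (tn (tn (tn (tl [(430, .ofNat 2)]) te) te) te))) te))))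

def r126 : Tr SV := (tn (tn (tn (tn (tn (tn (tn (tn (tn (tl [(220, .ofNat 1), (222, .ofNat 2), (223, .ofNat 2), (224, .ofNat 2), (225, .ofNat 2)]) te) te) te) (tn (tn te (tn (tl [(434, .ofNat 1)]) te)) te)) (tn (tn (tn (tn (tl [(418, .ofNat 1), (419, .ofNat 2), (420, .ofNat 1)]) te) te) te) te)) (tn te (tn te (tn (tn (tn (tl [(431, .ofNat 1)]) te) te) te)))) (tn (tn (tn te (tn (tn te (tn (tl [(434, .ofNat 2)]) te)) te)) te) (tn (tn (tn (tn (tn (tl [(397, .ofNat 2), (399, .ofNat 1), (400, .ofNat 1)]) te) te) te) te) (tn (tn (tn te (tn (tl [(434, .ofNat 1)]) te)) te) (tn (tn (tn (tl [(432, .ofNat 1), (433, .ofNat 2)]) te) te) te))))) (tn (tn (tn (tn te (tn (tn (tn (tl [(427, .ofNat 1)]) te) (tn (tl [(434, .ofNat 2)]) te)) te)) te) (tn (tn (tn (tn (tn (tl [(394, .ofNat 2), (395, .ofNat 1), (396, .ofNat 2)]) te) te) te) te) te)) (tn (tn (tn te (tn (tn (tn (tl [(427, .ofNat 2)]) te) (tn (tl [(434, .ofNat 1)]) te)) te)) te) (tn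 te (tn (tn (tn te (tn (tl [(434, .ofNat 2)]) te)) te) te))))) (tn (tn (tn (tn (tn (tn (tn (tn (tl [(227, .ofNat 1), (230, .ofNat 1), (231, .ofNat 1), (232, .ofNat 2)]) te) te) te) (tn (tn te (tn (tl [(434, .ofNat 1)]) te)) te)) te) (tn te (tn te (tn (tn (tn (tl [(430, .ofNat 2), (431, .ofNat 2)]) te) te) te)))) (tn (tn (tn (tn (tn (tn (tl [(386, .ofNat 2)]) te) te) te) (tn (tn (tn (tl [(427, .ofNat 2)]) te) te) te)) te) (tn (tn (tn (tn (tn (tl [(400, .ofNat 2), (401, .ofNat 1)]) te) te) te) te) te))) (tn (tn (tn (tn (tn (tn (tn (tl [(294, .ofNat 1), (295, .ofNat 1), (297, .ofNat 2), (298, .ofNat 2), (305, .ofNat 1), (306, .ofNat 2), (308, .ofNat 1), (310, .ofNat 1)]) te) te) te) (tn (tn (tn (tl [(427, .ofNat 2)]) te) te) te)) te) (tn (tn (tn (tn (tn (tl [(393, .ofNat 2), (395, .ofNat 1), (396, .ofNat 2)]) te) te) te) te) (tn te (tn (tn (tn (tl [(433, .ofNat 1)]) te) te) te)))) (tn (tn te (tn te (tn (tn (tn (tl [(430, .ofNat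 1), (431, .ofNat 2)]) te) te) te))) (tn te (tn (tn (tn te (tn (tl [(434, .ofNat 1)]) te)) te) te))))))

def r127 : Tr SV := (tn (tn (tn (tn (tn (tn (tn (tn (tn (tl [(222, .ofNat 2)]) te) te) te) te) (tn (tn (tn (tn (tl [(418, .ofNat 2), (419, .ofNat 2), (420, .ofNat 1), (421, .ofNat 1), (422, .ofNat 1)]) te) te) te) te)) (tn te (tn te (tn (tn (tn (tl [(431, .ofNat 1)]) te) te) te)))) (tn (tn (tn te (tn (tn (tn (tl [(427, .ofNat 2)]) te) (tn (tl [(434, .ofNat 1)]) te)) te)) te) (tn (tn (tn (tn (tn (tl [(399, .ofNat 1), (400, .ofNat 2), (401, .ofNat 1)]) te) te) te) te) (tn te (tn (tn (tn (tl [(432, .ofNat 2)]) te) te) te))))) (tn (tn (tn (tn te (tn (tn (tn (tl [(427, .ofNat 2)]) te) te) te)) te) (tn (tn (tn (tn (tn (tl [(392, .ofNat 2), (395, .ofNat 1), (396, .ofNat 2)]) te) te) te) te) (tn te (tn (tn (tn (tl [(433, .ofNat 1)]) te) te) te)))) (tn (tn (tn te (tn (tn (tn (tl [(427, .ofNat 2)]) te) (tn (tl [(434, .ofNat 1)]) te))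 te)) te) (tn te (tn (tn (tn te (tn (tl [(434, .ofNat 2)]) te)) te) te))))) (tn (tn (tn (tn (tn (tn (tn (tn (tl [(227, .ofNat 2), (229, .ofNat 1)]) te) te) te) te) te) (tn te (tn te (tn (tn (tn (tl [(430, .ofNat 1), (431, .ofNat 2)]) te) te) te)))) (tn (tn (tn te (tn (tn (tn (tl [(427, .ofNat 2)]) te) (tn (tl [(434, .ofNat 2)]) te)) te)) te) (tn (tn (tn (tn (tn (tl [(397, .ofNat 1), (398, .ofNat 2), (401, .ofNat 2)]) te) te) te) te) (tn (tn (tn te (tn (tl [(434, .ofNat 1)]) te)) te) te)))) (tn (tn (tn (tn (tn (tn (tn (tl [(292, .ofNat 1), (295, .ofNat 2), (296, .ofNat 2), (297, .ofNat 2), (298, .ofNat 1), (300, .ofNat 1), (301, .ofNat 1), (303, .ofNat 2), (305, .ofNat 2), (306, .ofNat 1), (307, .ofNat 1), (308, .ofNat 2), (309, .ofNat 1), (310, .ofNat 2), (311, .ofNat 2)]) te) te) te) (tn (tn (tn (tl [(427, .ofNat 1)]) te) (tn (tl [(434, .ofNat 1)]) te)) te)) te) (tn (tn (tn (tn (tn (tl [(392, .ofNat 2), (393, .ofNat 1), (394,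 .ofNat 2), (395, .ofNat 2), (396, .ofNat 2)]) te) te) te) te) (tn te (tn (tn (tn (tl [(432, .ofNat 1), (433, .ofNat 1)]) te) te) te)))) (tn (tn te (tn te (tn (tn (tn (tl [(430, .ofNat 2), (431, .ofNat 1)]) te) te) te))) (tn te (tn (tn (tn te (tn (tl [(434, .ofNat 1)]) te)) te) te))))))

def r128 : Tr SV := (tn (tn (tn (tn (tn (tn (tn (tn (tn (tl [(222, .ofNat 1), (223, .ofNat 1), (224, .ofNat 2), (225, .ofNat 2), (226, .ofNat 2)]) te) te) te) (tn (tn te (tn (tl [(434, .ofNat 2)]) te)) te)) (tn (tn (tn (tn (tl [(419, .ofNat 2), (420, .ofNat 1), (421, .ofNat 1)]) te) te) te) te)) (tn te (tn te (tn (tn (tn (tl [(431, .ofNat 1)]) te) te) te)))) (tn (tn (tn te (tn (tn (tn (tl [(427, .ofNat 1)]) te) (tn (tl [(434, .ofNat 2)]) te)) te)) te) (tn (tn (tn (tn (tn (tl [(400, .ofNat 2)]) te) te) te) te) (tn (tn (tn te (tn (tl [(434, .ofNat 1)]) te)) te) (tn (tn (tn (tl [(432, .ofNat 2)]) te) te) te))))) (tn (tn te (tn (tn (tn (tn (tn (tl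 [(392, .ofNat 1)]) te) te) te) te) (tn te (tn (tn (tn (tl [(433, .ofNat 2)]) te) te) te)))) (tn (tn (tn te (tn (tn (tn (tl [(427, .ofNat 1)]) te) te) te)) te) te))) (tn (tn (tn (tn (tn (tn (tn (tn (tl [(227, .ofNat 1), (228, .ofNat 1), (229, .ofNat 1), (230, .ofNat 2), (231, .ofNat 1)]) te) te) te) (tn (tn te (tn (tl [(434, .ofNat 1)]) te)) te)) te) (tn te (tn te (tn (tn (tn (tl [(430, .ofNat 1)]) te) te) te)))) (tn (tn (tn (tn (tn (tn (tl [(386, .ofNat 2)]) te) te) te) (tn (tn (tn (tl [(427, .ofNat 2)]) te) (tn (tl [(434, .ofNat 1)]) te)) te)) te) (tn (tn (tn (tn (tn (tl [(397, .ofNat 1), (400, .ofNat 2)]) te) te) te) te) (tn (tn (tn te (tn (tl [(434, .ofNat 2)]) te)) te) te)))) (tn (tn (tn (tn (tn (tn (tn (tl [(292, .ofNat 2), (293, .ofNat 1), (294, .ofNat 1), (295, .ofNat 2), (296, .ofNat 2), (297, .ofNat 1), (298, .ofNat 2), (300, .ofNat 1), (301, .ofNat 2), (302, .ofNat 1), (303, .ofNat 1), (304, .ofNat 2), (305, .ofNat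 2), (306, .ofNat 1), (308, .ofNat 1), (309, .ofNat 2), (311, .ofNat 1)]) te) te) te) (tn (tn (tn (tl [(427, .ofNat 1)]) te) te) te)) te) (tn (tn (tn (tn (tn (tl [(392, .ofNat 2), (393, .ofNat 1), (394, .ofNat 1)]) te) te) te) te) (tn te (tn (tn (tn (tl [(432, .ofNat 1), (433, .ofNat 1)]) te) te) te)))) (tn (tn te (tn te (tn (tn (tn (tl [(430, .ofNat 1)]) te) te) te))) te))))

def r129 : Tr SV := (tn (tn (tn (tn (tn (tn (tn (tn (tn (tl [(220, .ofNat 1), (221, .ofNat 2), (222, .ofNat 2), (223, .ofNat 2), (224, .ofNat 1), (225, .ofNat 1), (226, .ofNat 2)]) te) te) te) (tn (tn te (tn (tl [(434, .ofNat 1)]) te)) te)) (tn (tn (tn (tn (tl [(418, .ofNat 2), (420, .ofNat 2), (421, .ofNat 2), (422, .ofNat 1)]) te) te) te) te)) (tn te (tn te (tn (tn (tn (tl [(430, .ofNat 2)]) te) te) te)))) (tn (tn (tn te (tn (tn (tn (tl [(427, .ofNat 2)]) te) (tn (tl [(434, .ofNat 2)]) te)) te)) te) (tn (tn (tn (tn (tn (tl [(397, .ofNat 1), (398, .ofNat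 1), (399, .ofNat 1), (400, .ofNat 1)]) te) te) te) te) te))) (tn (tn (tn (tn te (tn (tn (tn (tl [(427, .ofNat 2)]) te) (tn (tl [(434, .ofNat 1)]) te)) te)) te) (tn (tn (tn (tn (tn (tl [(392, .ofNat 1), (393, .ofNat 2), (394, .ofNat 1), (396, .ofNat 1)]) te) te) te) te) (tn te (tn (tn (tn (tl [(433, .ofNat 1)]) te) te) te)))) (tn (tn (tn te (tn (tn (tn (tl [(427, .ofNat 2)]) te) (tn (tl [(434, .ofNat 1)]) te)) te)) te) (tn te (tn (tn (tn te (tn (tl [(434, .ofNat 2)]) te)) te) te))))) (tn (tn (tn (tn (tn (tn (tn (tn (tl [(227, .ofNat 2), (229, .ofNat 2), (230, .ofNat 2), (231, .ofNat 1)]) te) te) te) te) te) (tn te (tn te (tn (tn (tn (tl [(430, .ofNat 2), (431, .ofNat 2)]) te) te) te)))) (tn (tn (tn (tn (tn (tn (tl [(386, .ofNat 1)]) te) te) te) te) te) (tn (tn (tn (tn (tn (tl [(397, .ofNat 2), (398, .ofNat 2), (400, .ofNat 1)]) te) te) te) te) (tn (tn (tn te (tn (tl [(434, .ofNat 1)]) te)) te) te)))) (tn (tn (tn (tn (tn (tn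 (tn (tl [(293, .ofNat 2), (294, .ofNat 2), (295, .ofNat 2), (297, .ofNat 1), (298, .ofNat 1), (300, .ofNat 2), (301, .ofNat 2), (303, .ofNat 1), (304, .ofNat 2), (306, .ofNat 1), (308, .ofNat 2), (311, .ofNat 2)]) te) te) te) (tn (tn (tn (tl [(427, .ofNat 2)]) te) (tn (tl [(434, .ofNat 1)]) te)) te)) te) (tn (tn (tn (tn (tn (tl [(395, .ofNat 2), (396, .ofNat 1)]) te) te) te) te) (tn te (tn (tn (tn (tl [(432, .ofNat 2), (433, .ofNat 1)]) te) te) te)))) (tn (tn te (tn te (tn (tn (tn (tl [(431, .ofNat 1)]) te) te) te))) te))))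

def r130 : Tr SV := (tn (tn (tn (tn (tn (tn (tn (tn (tn (tl [(227, .ofNat 2), (228, .ofNat 2), (232, .ofNat 2)]) te) te) te) te) (tn (tn (tn (tn (tl [(424, .ofNat 2), (425, .ofNat 2)]) te) te) te) te)) (tn te (tn (tn (tn te (tn (tl [(434, .ofNat 2)]) te)) te) (tn (tn (tn (tl [(432, .ofNat 2), (433, .ofNat 2)]) te) te) te)))) te) (tn (tn te (tn (tn (tn (tn (tn (tl [(397, .ofNat 1), (399, .ofNat 1), (400, .ofNat 2)]) te) te) te) te) te)) te)) (tn (tn (tn te (tn te (tn te (tn (tn (tn (tl [(432, .ofNat 1), (433, .ofNat 1)]) te) te) te)))) (tn (tn te (tn (tn (tn te (tn (tl [(434, .ofNat 2)]) te)) te) te)) te)) (tn (tn (tn (tn (tn (tn (tn (tl [(312, .ofNat 1), (313, .ofNat 2), (314, .ofNat 1), (315, .ofNat 2), (316, .ofNat 1), (317, .ofNat 2), (319, .ofNat 2), (320, .ofNat 1), (321, .ofNat 2), (325, .ofNat 2)]) te) te) te) te) te) (tn (tn (tn (tn (tn (tl [(397, .ofNat 2), (398, .ofNat 2), (399, .ofNat 1), (400, .ofNat 1)]) te) te)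 te) te) te)) (tn (tn te (tn te (tn (tn (tn (tl [(433, .ofNat 1)]) te) te) te))) (tn te (tn (tn (tn (tn (tl [(427, .ofNat 1)]) te) te) te) te))))))

def r131 : Tr SV := (tn (tn (tn (tn (tn (tn (tn (tn (tn (tl [(228, .ofNat 2), (231, .ofNat 1), (232, .ofNat 1)]) te) te) te) (tn (tn (tn (tl [(427, .ofNat 2)]) te) te) te)) (tn (tn (tn (tn (tl [(424, .ofNat 1), (426, .ofNat 2)]) te) te) te) te)) (tn te (tn (tn (tn te (tn (tl [(434, .ofNat 1)]) te)) te) (tn (tn (tn (tl [(432, .ofNat 2), (433, .ofNat 2)]) te) te) te)))) (tn (tn (tn (tn (tn (tn (tl [(386, .ofNat 1)]) te) te) te) te) (tn (tn (tn te (tn (tl [(434, .ofNat 2)]) te)) te) te)) te)) (tn (tn te (tn (tn (tn (tn (tn (tl [(398, .ofNat 1)]) te) te) te) te) (tn (tn (tn te (tn (tl [(434, .ofNat 1)]) te)) te) te))) (tn (tn te (tn (tn (tn te (tn (tl [(434, .ofNat 1)]) te)) te) te)) (tn te (tn (tn (tn (tn (tl [(427, .ofNat 1)]) te) te) te) te))))) (tn (tn (tn te (tn te (tn te (tn (tn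 (tn (tl [(432, .ofNat 1), (433, .ofNat 1)]) te) te) te)))) (tn (tn te (tn (tn (tn te (tn (tl [(434, .ofNat 1)]) te)) te) te)) te)) (tn (tn (tn (tn (tn (tn (tn (tl [(312, .ofNat 2), (313, .ofNat 2), (314, .ofNat 1), (315, .ofNat 1), (316, .ofNat 1), (318, .ofNat 2), (319, .ofNat 1)]) te) te) te) te) te) (tn (tn (tn (tn (tn (tl [(397, .ofNat 2), (398, .ofNat 2), (399, .ofNat 1), (400, .ofNat 1)]) te) te) te) te) te)) (tn (tn te (tn te (tn (tn (tn (tl [(432, .ofNat 1)]) te) te) te))) (tn te (tn (tn (tn (tn (tl [(427, .ofNat 2)]) te) te) te) te))))))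

def r132 : Tr SV := (tn (tn (tn (tn (tn (tn (tn (tn (tn (tl [(227, .ofNat 1), (228, .ofNat 2), (229, .ofNat 2), (230, .ofNat 2), (231, .ofNat 2), (232, .ofNat 1)]) te) te) te) (tn (tn (tn (tl [(427, .ofNat 1)]) te) te) te)) te) (tn te (tn (tn (tn te (tn (tl [(434, .ofNat 1)]) te)) te) (tn (tn (tn (tl [(432, .ofNat 1), (433, .ofNat 1)]) te) te) te)))) (tn (tn (tn (tn (tn (tn (tl [(386, .ofNat 2)]) te) te) te) te) (tn (tn (tn te (tn (tl [(434, .ofNat 1)]) te)) te) te)) te)) (tn (tn te (tn (tn (tn (tn (tn (tl [(397, .ofNat 2), (399, .ofNat 2), (400, .ofNat 2), (401, .ofNat 2)]) te) te) te) te) (tn (tn (tn te (tn (tl [(434, .ofNat 2)]) te)) te) te))) (tn (tn te (tn (tn (tn te (tn (tl [(434, .ofNat 2)]) te)) te) te)) (tn te (tn (tn (tn (tn (tl [(427, .ofNat 2)]) te) te) te) te))))) (tn (tn te (tn (tn te (tn (tn (tn te (tn (tl [(434, .ofNat 1)]) te)) te) te)) te)) (tn (tn (tn (tn (tn (tn (tn (tl [(312, .ofNat 2), (315, .ofNat 1),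 (317, .ofNat 2), (319, .ofNat 2), (320, .ofNat 1)]) te) te) te) te) te) te) (tn (tn te (tn te (tn (tn (tn (tl [(433, .ofNat 1)]) te) te) te))) (tn te (tn (tn (tn (tn (tl [(427, .ofNat 2)]) te) te) te) te))))))

def r133 : Tr SV := (tn (tn (tn (tn (tn (tn (tn (tn (tn (tl [(227, .ofNat 1), (228, .ofNat 2), (230, .ofNat 1), (231, .ofNat 1)]) te) te) te) (tn (tn (tn (tl [(427, .ofNat 2)]) te) te) te)) (tn (tn (tn (tn (tl [(423, .ofNat 2), (424, .ofNat 1)]) te) te) te) te)) (tn te (tn (tn (tn te (tn (tl [(434, .ofNat 1)]) te)) te) (tn (tn (tn (tl [(432, .ofNat 2), (433, .ofNat 2)]) te) te) te)))) (tn (tn (tn (tn (tn (tn (tl [(386, .ofNat 1)]) te) te) te) te) (tn (tn (tn te (tn (tl [(434, .ofNat 2)]) te)) te) te)) te)) (tn (tn te (tn (tn (tn (tn (tn (tl [(397, .ofNat 2), (399, .ofNat 1), (401, .ofNat 1)]) te) te) te) te) (tn (tn (tn te (tn (tl [(434, .ofNat 1)]) te)) te) te))) (tn (tn te (tn (tn (tn te (tn (tl [(434, .ofNat 1)])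 te)) te) te)) (tn te (tn (tn (tn (tn (tl [(427, .ofNat 1)]) te) te) te) te))))) (tn (tn te (tn (tn te (tn (tn (tn te (tn (tl [(434, .ofNat 1)]) te)) te) te)) te)) (tn (tn (tn (tn (tn (tn (tn (tl [(312, .ofNat 1), (313, .ofNat 1), (315, .ofNat 1), (316, .ofNat 1), (317, .ofNat 1), (319, .ofNat 1), (320, .ofNat 2), (322, .ofNat 1), (323, .ofNat 2), (324, .ofNat 1), (325, .ofNat 2)]) te) te) te) te) te) te) (tn (tn te (tn te (tn (tn (tn (tl [(432, .ofNat 2), (433, .ofNat 2)]) te) te) te))) (tn te (tn (tn (tn (tn (tl [(427, .ofNat 2)]) te) te) te) te))))))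

def r134 : Tr SV := (tn (tn (tn (tn (tn (tn (tn (tn (tn (tl [(229, .ofNat 2), (230, .ofNat 1), (231, .ofNat 2)]) te) te) te) te) (tn (tn (tn (tn (tl [(423, .ofNat 2), (425, .ofNat 2)]) te) te) te) te)) (tn te (tn te (tn (tn (tn (tl [(432, .ofNat 1)]) te) te) te)))) te) (tn (tn te (tn (tn (tn (tn (tn (tl [(399, .ofNat 1), (400, .ofNat 1), (401, .ofNat 1)]) te) te) te) te) (tn (tn (tn te (tn (tl [(434, .ofNat 2)]) te)) te) te))) (tn (tn te (tn (tn (tn te (tn (tl [(434, .ofNat 2)]) te)) te) te)) (tn te (tn (tn (tn (tn (tl [(427, .ofNat 1)]) te) te) te) te))))) (tn (tn (tn te (tn te (tn te (tn (tn (tn (tl [(432, .ofNat 1), (433, .ofNat 2)]) te) te) te)))) (tn (tn te (tn (tn (tn te (tn (tl [(434, .ofNat 1)]) te)) te) te)) te)) (tn (tn (tn (tn (tn (tn (tn (tl [(322, .ofNat 1)]) te) te) te) te) te) (tn (tn (tn (tn (tn (tl [(397, .ofNat 2), (399, .ofNat 1), (401, .ofNat 2)]) te) te) te) te) (tn (tn (tn te (tn (tl [(434, .ofNat 1)])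 te)) te) te))) (tn (tn te (tn (tn (tn te (tn (tl [(434, .ofNat 2)]) te)) te) (tn (tn (tn (tl [(433, .ofNat 1)]) te) te) te))) (tn te (tn (tn (tn (tn (tl [(427, .ofNat 2)]) te) te) te) te))))))

def r135 : Tr SV := (tn (tn (tn (tn (tn (tn (tn (tn (tn (tl [(227, .ofNat 1), (230, .ofNat 1), (231, .ofNat 2), (232, .ofNat 2)]) te) te) te) te) (tn (tn (tn (tn (tl [(423, .ofNat 2), (424, .ofNat 1), (425, .ofNat 1)]) te) te) te) te)) (tn te (tn (tn (tn te (tn (tl [(434, .ofNat 1)]) te)) te) (tn (tn (tn (tl [(432, .ofNat 2), (433, .ofNat 1)]) te) te) te)))) (tn (tn (tn (tn (tn (tn (tl [(386, .ofNat 2)]) te) te) te) te) (tn (tn (tn te (tn (tl [(434, .ofNat 2)]) te)) te) te)) te)) (tn (tn te (tn (tn (tn (tn (tn (tl [(397, .ofNat 2), (398, .ofNat 2), (399, .ofNat 2), (401, .ofNat 2)]) te) te) te) te) te)) (tn te (tn te (tn (tn (tn (tn (tl [(427, .ofNat 1)]) te) te) te) te))))) (tn (tn (tn te (tn te (tn (tn (tn te (tn (tl [(434, .ofNat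 1)]) te)) te) (tn (tn (tn (tl [(432, .ofNat 1), (433, .ofNat 2)]) te) te) te)))) (tn (tn te (tn (tn (tn te (tn (tl [(434, .ofNat 2)]) te)) te) te)) te)) (tn (tn (tn (tn (tn (tn (tn (tl [(323, .ofNat 1)]) te) te) te) te) te) (tn (tn (tn (tn (tn (tl [(397, .ofNat 2), (398, .ofNat 2), (400, .ofNat 1), (401, .ofNat 1)]) te) te) te) te) te)) (tn (tn te (tn (tn (tn te (tn (tl [(434, .ofNat 1)]) te)) te) (tn (tn (tn (tl [(433, .ofNat 1)]) te) te) te))) (tn te (tn (tn (tn (tn (tl [(427, .ofNat 2)]) te) te) te) te))))))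

def r136 : Tr SV := (tn (tn (tn (tn (tn (tn (tn (tn (tn (tl [(227, .ofNat 1), (228, .ofNat 1), (229, .ofNat 2), (232, .ofNat 2)]) te) te) te) (tn (tn (tn (tl [(427, .ofNat 1)]) te) te) te)) (tn (tn (tn (tn (tl [(423, .ofNat 2), (424, .ofNat 2), (425, .ofNat 1)]) te) te) te) te)) (tn te (tn (tn (tn te (tn (tl [(434, .ofNat 1)]) te)) te) (tn (tn (tn (tl [(432, .ofNat 2), (433, .ofNat 2)]) te) te) te)))) (tn (tn (tn (tn (tn (tn (tl [(386, .ofNat 2)]) te) te) te) te) te) te)) (tn (tn te (tn (tn (tn (tn (tn (tl [(399, .ofNat 1)]) te) te) te) te) te)) (tn (tn te (tn (tn (tn te (tn (tl [(434, .ofNat 1)]) te)) te) te)) te))) (tn (tn (tn (tn (tn te (tn (tn (tn (tl [(427, .ofNat 2)]) te) te) te)) te) (tn te (tn te (tn (tn (tn (tl [(432, .ofNat 2)]) te) te) te)))) te) (tn (tn (tn (tn (tn (tn (tn (tl [(324, .ofNat 1)]) te) te) te) te) te) (tn (tn (tn (tn (tn (tl [(397, .ofNat 2), (398, .ofNat 1)]) te) te) te) te) (tn (tn (tn te (tn (tl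 [(434, .ofNat 2)]) te)) te) te))) (tn (tn te (tn te (tn (tn (tn (tl [(432, .ofNat 1), (433, .ofNat 2)]) te) te) te))) (tn te (tn (tn (tn (tn (tl [(427, .ofNat 1)]) te) te) te) te))))))

def r137 : Tr SV := (tn (tn (tn (tn (tn (tn (tn (tn (tn (tl [(229, .ofNat 1), (230, .ofNat 2), (231, .ofNat 1), (232, .ofNat 2)]) te) te) te) te) (tn (tn (tn (tn (tl [(423, .ofNat 1), (424, .ofNat 2), (426, .ofNat 1)]) te) te) te) te)) (tn te (tn (tn (tn te (tn (tl [(434, .ofNat 2)]) te)) te) (tn (tn (tn (tl [(432, .ofNat 2)]) te) te) te)))) (tn (tn (tn (tn (tn (tn (tl [(386, .ofNat 2)]) te) te) te) te) (tn (tn (tn te (tn (tl [(434, .ofNat 1)]) te)) te) te)) te)) (tn (tn te (tn (tn (tn (tn (tn (tl [(398, .ofNat 1), (399, .ofNat 2), (400, .ofNat 2)]) te) te) te) te) te)) (tn te (tn te (tn (tn (tn (tn (tl [(427, .ofNat 2)]) te) te) te) te))))) (tn (tn (tn (tn (tn te (tn (tn (tn (tl [(427, .ofNat 1)]) te) te) te)) te) (tn te (tn (tn (tn te (tn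 (tl [(434, .ofNat 2)]) te)) te) (tn (tn (tn (tl [(432, .ofNat 2), (433, .ofNat 1)]) te) te) te)))) (tn (tn te (tn (tn (tn te (tn (tl [(434, .ofNat 1)]) te)) te) te)) te)) (tn (tn (tn (tn (tn (tn (tn (tl [(313, .ofNat 1), (314, .ofNat 1), (315, .ofNat 1), (316, .ofNat 2), (317, .ofNat 1), (318, .ofNat 1), (319, .ofNat 2), (320, .ofNat 2), (321, .ofNat 1), (324, .ofNat 2), (325, .ofNat 1)]) te) te) te) te) te) (tn (tn (tn (tn (tn (tl [(397, .ofNat 2), (398, .ofNat 1), (399, .ofNat 1), (400, .ofNat 1), (401, .ofNat 1)]) te) te) te) te) (tn (tn (tn te (tn (tl [(434, .ofNat 2)]) te)) te) te))) (tn (tn te (tn (tn (tn te (tn (tl [(434, .ofNat 2)]) te)) te) (tn (tn (tn (tl [(432, .ofNat 1), (433, .ofNat 2)]) te) te) te))) (tn te (tn (tn (tn (tn (tl [(427, .ofNat 2)]) te) te) te) te))))))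

def r138 : Tr SV := (tn (tn (tn (tn (tn (tn (tn (tn (tn (tl [(228, .ofNat 1), (229, .ofNat 1), (231, .ofNat 2), (232, .ofNat 2)]) te) te) te) (tn (tn (tn (tl [(427, .ofNat 1)]) te) te) te)) (tn (tn (tn (tn (tl [(423, .ofNat 1), (424, .ofNat 1), (425, .ofNat 1)]) te) te) te) te)) (tn te (tn te (tn (tn (tn (tl [(432, .ofNat 1), (433, .ofNat 2)]) te) te) te)))) (tn (tn te (tn (tn (tn te (tn (tl [(434, .ofNat 1)]) te)) te) te)) te)) (tn (tn te (tn (tn (tn (tn (tn (tl [(400, .ofNat 1), (401, .ofNat 2)]) te) te) te) te) (tn (tn (tn te (tn (tl [(434, .ofNat 2)]) te)) te) te))) (tn (tn te (tn (tn (tn te (tn (tl [(434, .ofNat 1)]) te)) te) te)) (tn te (tn (tn (tn (tn (tl [(427, .ofNat 1)]) te) te) te) te))))) (tn (tn (tn (tn (tn te (tn (tn (tn (tl [(427, .ofNat 2)]) te) te) te)) te) (tn te (tn (tn (tn te (tn (tl [(434, .ofNat 2)]) te)) te) (tn (tn (tn (tl [(432, .ofNat 1), (433, .ofNat 1)]) te) te) te)))) (tn (tn te (tn (tn (tn te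 (tn (tl [(434, .ofNat 1)]) te)) te) te)) te)) (tn (tn (tn (tn (tn (tn (tn (tl [(312, .ofNat 1), (314, .ofNat 1), (317, .ofNat 2), (318, .ofNat 2), (320, .ofNat 1), (321, .ofNat 2), (324, .ofNat 1)]) te) te) te) te) te) (tn (tn (tn (tn (tn (tl [(397, .ofNat 1), (398, .ofNat 1), (399, .ofNat 1), (400, .ofNat 1)]) te) te) te) te) (tn (tn (tn te (tn (tl [(434, .ofNat 2)]) te)) te) te))) (tn (tn te (tn te (tn (tn (tn (tl [(432, .ofNat 1), (433, .ofNat 1)]) te) te) te))) (tn te (tn (tn (tn (tn (tl [(427, .ofNat 2)]) te) te) te) te))))))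

def r139 : Tr SV := (tn (tn (tn (tn (tn (tn (tn (tn (tn (tl [(228, .ofNat 2), (229, .ofNat 1), (231, .ofNat 1)]) te) te) te) (tn (tn (tn (tl [(427, .ofNat 2)]) te) te) te)) (tn (tn (tn (tn (tl [(423, .ofNat 1), (426, .ofNat 1)]) te) te) te) te)) (tn te (tn (tn (tn te (tn (tl [(434, .ofNat 2)]) te)) te) te))) (tn (tn (tn (tn (tn (tn (tl [(386, .ofNat 2)]) te) te) te) te) (tn (tn (tn te (tn (tl [(434, .ofNat 2)]) te)) te) te)) te)) (tn (tn te (tn (tn (tn (tn (tn (tl [(398, .ofNat 2)]) te) te) te) te) te)) (tn (tn te (tn (tn (tn te (tn (tl [(434, .ofNat 2)]) te)) te) te)) te))) (tn (tn (tn te (tn te (tn (tn (tn te (tn (tl [(434, .ofNat 2)]) te)) te) (tn (tn (tn (tl [(432, .ofNat 1)]) te) te) te)))) (tn (tn te (tn (tn (tn te (tn (tl [(434, .ofNat 1)]) te)) te) te)) te)) (tn (tn (tn (tn (tn (tn (tn (tl [(312, .ofNat 1), (314, .ofNat 1), (316, .ofNat 2), (317, .ofNat 1), (318, .ofNat 2), (319, .ofNat 2), (321, .ofNat 1), (323, .ofNat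 2), (324, .ofNat 2)]) te) te) te) te) te) (tn (tn (tn (tn (tn (tl [(397, .ofNat 2), (398, .ofNat 1), (399, .ofNat 2), (400, .ofNat 1), (401, .ofNat 1)]) te) te) te) te) (tn (tn (tn te (tn (tl [(434, .ofNat 2)]) te)) te) te))) (tn (tn te (tn (tn (tn te (tn (tl [(434, .ofNat 2)]) te)) te) (tn (tn (tn (tl [(433, .ofNat 2)]) te) te) te))) te))))

def r140 : Tr SV := (tn (tn (tn (tn (tn (tn (tn (tn (tn (tl [(227, .ofNat 1), (228, .ofNat 1), (229, .ofNat 2), (231, .ofNat 1), (232, .ofNat 1)]) te) te) te) (tn (tn (tn (tl [(427, .ofNat 1)]) te) te) te)) (tn (tn (tn (tn (tl [(423, .ofNat 1), (424, .ofNat 2), (425, .ofNat 1)]) te) te) te) te)) (tn te (tn (tn (tn te (tn (tl [(434, .ofNat 2)]) te)) te) (tn (tn (tn (tl [(432, .ofNat 1), (433, .ofNat 2)]) te) te) te)))) (tn (tn te (tn (tn (tn te (tn (tl [(434, .ofNat 1)]) te)) te) te)) te)) (tn (tn te (tn (tn (tn (tn (tn (tl [(397, .ofNat 2), (400, .ofNat 2), (401, .ofNat 2)]) te) te) te)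 te) (tn (tn (tn te (tn (tl [(434, .ofNat 1)]) te)) te) te))) (tn (tn te (tn (tn (tn te (tn (tl [(434, .ofNat 2)]) te)) te) te)) (tn te (tn (tn (tn (tn (tl [(427, .ofNat 2)]) te) te) te) te))))) (tn (tn te (tn (tn te (tn (tn (tn te (tn (tl [(434, .ofNat 2)]) te)) te) te)) te)) (tn (tn (tn (tn (tn (tn (tn (tl [(312, .ofNat 2), (313, .ofNat 1), (316, .ofNat 2), (318, .ofNat 1), (319, .ofNat 2), (321, .ofNat 2), (323, .ofNat 1)]) te) te) te) te) te) (tn (tn (tn (tn (tn (tl [(398, .ofNat 1), (399, .ofNat 1), (401, .ofNat 1)]) te) te) te) te) te)) (tn (tn te (tn (tn (tn te (tn (tl [(434, .ofNat 1)]) te)) te) te)) te))))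

def r141 : Tr SV := (tn (tn (tn (tn (tn (tn (tn (tn (tn (tl [(227, .ofNat 2), (228, .ofNat 1), (229, .ofNat 2), (230, .ofNat 2), (231, .ofNat 1), (232, .ofNat 1)]) te) te) te) (tn (tn (tn (tl [(427, .ofNat 1)]) te) te) te)) (tn (tn (tn (tn (tl [(423, .ofNat 1), (425, .ofNat 2), (426, .ofNat 1)]) te) te) te) te)) (tn te (tn (tn (tn te (tn (tl [(434, .ofNat 1)]) te)) te) (tn (tn (tn (tl [(432, .ofNat 2), (433, .ofNat 1)]) te) te) te)))) (tn (tn (tn (tn (tn (tn (tl [(386, .ofNat 2)]) te) te) te) te) (tn (tn (tn te (tn (tl [(434, .ofNat 1)]) te)) te) te)) te)) (tn (tn te (tn (tn (tn (tn (tn (tl [(398, .ofNat 1), (400, .ofNat 1), (401, .ofNat 1)]) te) te) te) te) (tn (tn (tn te (tn (tl [(434, .ofNat 2)]) te)) te) te))) (tn (tn te (tn (tn (tn te (tn (tl [(434, .ofNat 1)]) te)) te) te)) (tn te (tn (tn (tn (tn (tl [(427, .ofNat 1)]) te) te) te) te))))) (tn (tn (tn te (tn te (tn te (tn (tn (tn (tl [(432, .ofNat 2), (433, .ofNat 2)])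 te) te) te)))) (tn (tn te (tn (tn (tn te (tn (tl [(434, .ofNat 2)]) te)) te) te)) te)) (tn (tn (tn (tn (tn (tn (tn (tl [(312, .ofNat 2), (313, .ofNat 2), (315, .ofNat 2), (316, .ofNat 1), (319, .ofNat 1), (320, .ofNat 2), (321, .ofNat 2), (325, .ofNat 2)]) te) te) te) te) te) (tn (tn (tn (tn (tn (tl [(398, .ofNat 2), (401, .ofNat 2)]) te) te) te) te) (tn (tn (tn te (tn (tl [(434, .ofNat 1)]) te)) te) te))) (tn (tn te (tn (tn (tn te (tn (tl [(434, .ofNat 1)]) te)) te) (tn (tn (tn (tl [(432, .ofNat 1), (433, .ofNat 1)]) te) te) te))) (tn te (tn (tn (tn (tn (tl [(427, .ofNat 1)]) te) te) te) te))))))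

def r142 : Tr SV := (tn (tn (tn (tn (tn (tn (tn (tn (tn (tl [(228, .ofNat 1), (230, .ofNat 1), (231, .ofNat 2)]) te) te) te) (tn (tn (tn (tl [(427, .ofNat 2)]) te) te) te)) (tn (tn (tn (tn (tl [(423, .ofNat 2), (426, .ofNat 2)]) te) te) te) te)) (tn te (tn (tn (tn te (tn (tl [(434, .ofNat 2)]) te)) te) (tn (tn (tn (tl [(432, .ofNat 2), (433, .ofNat 2)]) te) te) te)))) (tn (tn te (tn (tn (tn te (tn (tl [(434, .ofNat 1)]) te)) te) te)) te)) (tn (tn te (tn (tn (tn (tn (tn (tl [(397, .ofNat 2), (398, .ofNat 1), (399, .ofNat 2)]) te) te) te) te) te)) (tn (tn te (tn (tn (tn te (tn (tl [(434, .ofNat 1)]) te)) te) te)) (tn te (tn (tn (tn (tn (tl [(427, .ofNat 1)]) te) te) te) te))))) (tn (tn (tn (tn (tn te (tn (tn (tn (tl [(427, .ofNat 2)]) te) te) te)) te) (tn te (tn (tn (tn te (tn (tl [(434, .ofNat 1)]) te)) te) (tn (tn (tn (tl [(432, .ofNat 2), (433, .ofNat 2)]) te) te) te)))) (tn (tn te (tn (tn (tn te (tn (tl [(434, .ofNat 1)])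 te)) te) te)) te)) (tn (tn (tn (tn (tn (tn (tn (tl [(315, .ofNat 2), (316, .ofNat 2), (317, .ofNat 1), (318, .ofNat 2), (319, .ofNat 2), (321, .ofNat 2), (324, .ofNat 1)]) te) te) te) te) te) (tn (tn (tn (tn (tn (tl [(399, .ofNat 1), (400, .ofNat 1)]) te) te) te) te) te)) (tn (tn te (tn te (tn (tn (tn (tl [(432, .ofNat 1), (433, .ofNat 1)]) te) te) te))) (tn te (tn (tn (tn (tn (tl [(427, .ofNat 2)]) te) te) te) te))))))

def r143 : Tr SV := (tn (tn (tn (tn (tn (tn (tn (tn (tn (tl [(227, .ofNat 2), (228, .ofNat 1), (231, .ofNat 1)]) te) te) te) te) (tn (tn (tn (tn (tl [(424, .ofNat 2), (425, .ofNat 1), (426, .ofNat 1)]) te) te) te) te)) (tn te (tn te (tn (tn (tn (tl [(432, .ofNat 2), (433, .ofNat 2)]) te) te) te)))) (tn (tn (tn (tn (tn (tn (tl [(386, .ofNat 2)]) te) te) te) te) te) te)) (tn (tn te (tn (tn (tn (tn (tn (tl [(399, .ofNat 2), (400, .ofNat 2)]) te) te) te) te) (tn (tn (tn te (tn (tl [(434, .ofNat 2)]) te)) te) te)))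 (tn (tn te (tn (tn (tn te (tn (tl [(434, .ofNat 1)]) te)) te) te)) te))) (tn (tn (tn (tn (tn te (tn (tn (tn (tl [(427, .ofNat 1)]) te) te) te)) te) (tn te (tn (tn (tn te (tn (tl [(434, .ofNat 2)]) te)) te) (tn (tn (tn (tl [(433, .ofNat 2)]) te) te) te)))) (tn (tn te (tn (tn (tn te (tn (tl [(434, .ofNat 2)]) te)) te) te)) te)) (tn (tn (tn (tn (tn (tn (tn (tl [(312, .ofNat 2), (315, .ofNat 1), (316, .ofNat 1), (317, .ofNat 1), (320, .ofNat 2), (322, .ofNat 2), (324, .ofNat 2)]) te) te) te) te) te) (tn (tn (tn (tn (tn (tl [(401, .ofNat 2)]) te) te) te) te) (tn (tn (tn te (tn (tl [(434, .ofNat 2)]) te)) te) te))) (tn (tn te (tn (tn (tn te (tn (tl [(434, .ofNat 1)]) te)) te) (tn (tn (tn (tl [(432, .ofNat 1), (433, .ofNat 2)]) te) te) te))) (tn te (tn (tn (tn (tn (tl [(427, .ofNat 2)]) te) te) te) te))))))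

def r144 : Tr SV := (tn (tn (tn (tn (tn (tn (tn (tn (tn (tl [(228, .ofNat 1), (230, .ofNat 2), (232, .ofNat 1)]) te) te) te) (tn (tn (tn (tl [(427, .ofNat 2)]) te) te) te)) (tn (tn (tn (tn (tl [(423, .ofNat 2), (425, .ofNat 1)]) te) te) te) te)) (tn te (tn te (tn (tn (tn (tl [(432, .ofNat 2)]) te) te) te)))) te) (tn (tn te (tn (tn (tn (tn (tn (tl [(397, .ofNat 2), (399, .ofNat 2), (400, .ofNat 2), (401, .ofNat 2)]) te) te) te) te) te)) te)) (tn (tn (tn (tn (tn te (tn (tn (tn (tl [(427, .ofNat 1)]) te) te) te)) te) (tn te (tn te (tn (tn (tn (tl [(432, .ofNat 1), (433, .ofNat 1)]) te) te) te)))) te) (tn (tn (tn (tn (tn (tn (tn (tl [(313, .ofNat 2), (316, .ofNat 1), (317, .ofNat 1), (318, .ofNat 1), (320, .ofNat 2), (321, .ofNat 2), (322, .ofNat 1), (323, .ofNat 2)]) te) te) te) te) te) (tn (tn (tn (tn (tn (tl [(397, .ofNat 2), (398, .ofNat 1), (399, .ofNat 1), (400, .ofNat 1), (401, .ofNat 2)]) te) te) te) te) te)) (tn (tn te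 (tn (tn (tn te (tn (tl [(434, .ofNat 2)]) te)) te) (tn (tn (tn (tl [(432, .ofNat 2), (433, .ofNat 1)]) te) te) te))) (tn te (tn (tn (tn (tn (tl [(427, .ofNat 2)]) te) te) te) te))))))

def r145 : Tr SV := (tn (tn (tn (tn (tn (tn (tn (tn (tn (tl [(227, .ofNat 1), (228, .ofNat 1), (229, .ofNat 2), (231, .ofNat 2), (232, .ofNat 1)]) te) te) te) (tn (tn (tn (tl [(427, .ofNat 1)]) te) te) te)) (tn (tn (tn (tn (tl [(423, .ofNat 2), (424, .ofNat 2), (425, .ofNat 2)]) te) te) te) te)) (tn te (tn te (tn (tn (tn (tl [(432, .ofNat 1), (433, .ofNat 1)]) te) te) te)))) (tn (tn (tn (tn (tn (tn (tl [(386, .ofNat 1)]) te) te) te) te) (tn (tn (tn te (tn (tl [(434, .ofNat 1)]) te)) te) te)) te)) (tn (tn te (tn (tn (tn (tn (tn (tl [(397, .ofNat 1), (399, .ofNat 1), (400, .ofNat 2)]) te) te) te) te) te)) (tn (tn te (tn (tn (tn te (tn (tl [(434, .ofNat 1)]) te)) te) te)) te))) (tn (tn (tn (tn (tn te (tn (tn (tn (tl [(427, .ofNat 1)]) te) te) te))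 te) (tn te (tn te (tn (tn (tn (tl [(433, .ofNat 2)]) te) te) te)))) te) (tn (tn (tn (tn (tn (tn (tn (tl [(313, .ofNat 2), (314, .ofNat 1), (315, .ofNat 2), (318, .ofNat 2), (320, .ofNat 1), (321, .ofNat 2), (322, .ofNat 2), (323, .ofNat 2)]) te) te) te) te) te) (tn (tn (tn (tn (tn (tl [(397, .ofNat 2), (399, .ofNat 1), (400, .ofNat 2)]) te) te) te) te) te)) (tn (tn te (tn te (tn (tn (tn (tl [(432, .ofNat 1), (433, .ofNat 1)]) te) te) te))) te))))

def r146 : Tr SV := (tn (tn (tn (tn (tn (tn (tn (tn (tn (tl [(227, .ofNat 1), (229, .ofNat 1), (231, .ofNat 2)]) te) te) te) (tn (tn (tn (tl [(427, .ofNat 2)]) te) te) te)) (tn (tn (tn (tn (tl [(425, .ofNat 2)]) te) te) te) te)) (tn te (tn (tn (tn te (tn (tl [(434, .ofNat 2)]) te)) te) (tn (tn (tn (tl [(432, .ofNat 1), (433, .ofNat 2)]) te) te) te)))) (tn (tn (tn (tn (tn (tn (tl [(386, .ofNat 2)]) te) te) te) te) (tn (tn (tn te (tn (tl [(434, .ofNat 2)]) te)) te) te)) te)) (tn (tn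 te (tn (tn (tn (tn (tn (tl [(397, .ofNat 1), (398, .ofNat 2), (399, .ofNat 1)]) te) te) te) te) te)) (tn te (tn te (tn (tn (tn (tn (tl [(427, .ofNat 2)]) te) te) te) te))))) (tn (tn (tn (tn (tn te (tn (tn (tn (tl [(427, .ofNat 2)]) te) te) te)) te) (tn te (tn te (tn (tn (tn (tl [(432, .ofNat 2), (433, .ofNat 1)]) te) te) te)))) (tn (tn te (tn (tn (tn te (tn (tl [(434, .ofNat 2)]) te)) te) te)) te)) (tn (tn (tn (tn (tn (tn (tn (tl [(312, .ofNat 2), (314, .ofNat 2), (316, .ofNat 1), (317, .ofNat 1), (318, .ofNat 1), (319, .ofNat 1), (322, .ofNat 1), (323, .ofNat 2)]) te) te) te) te) te) (tn (tn (tn (tn (tn (tl [(397, .ofNat 1), (398, .ofNat 2), (399, .ofNat 1)]) te) te) te) te) te)) (tn (tn te (tn (tn (tn te (tn (tl [(434, .ofNat 1)]) te)) te) (tn (tn (tn (tl [(433, .ofNat 2)]) te) te) te))) te))))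

def r147 : Tr SV := (tn (tn (tn (tn (tn (tn (tn (tn (tn (tl [(228, .ofNat 1), (229, .ofNat 1), (232, .ofNat 1)]) te) te) te) (tn (tn (tn (tl [(427, .ofNat 2)]) te) te) te)) te) (tn te (tn te (tn (tn (tn (tl [(432, .ofNat 1)]) te) te) te)))) (tn (tn te (tn (tn (tn te (tn (tl [(434, .ofNat 2)]) te)) te) te)) te)) (tn (tn te (tn (tn (tn (tn (tn (tl [(397, .ofNat 2), (398, .ofNat 2), (399, .ofNat 1), (400, .ofNat 1)]) te) te) te) te) (tn (tn (tn te (tn (tl [(434, .ofNat 1)]) te)) te) te))) (tn (tn te (tn (tn (tn te (tn (tl [(434, .ofNat 1)]) te)) te) te)) (tn te (tn (tn (tn (tn (tl [(427, .ofNat 1)]) te) te) te) te))))) (tn (tn (tn (tn (tn te (tn (tn (tn (tl [(427, .ofNat 2)]) te) te) te)) te) (tn te (tn te (tn (tn (tn (tl [(433, .ofNat 1)]) te) te) te)))) (tn (tn te (tn (tn (tn te (tn (tl [(434, .ofNat 1)]) te)) te) te)) te)) (tn (tn (tn (tn (tn (tn (tn (tl [(312, .ofNat 1), (313, .ofNat 2), (314, .ofNat 2), (317, .ofNat 1),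 (318, .ofNat 2), (320, .ofNat 1), (321, .ofNat 1), (323, .ofNat 2), (324, .ofNat 2)]) te) te) te) te) te) (tn (tn (tn (tn (tn (tl [(397, .ofNat 2), (398, .ofNat 2), (399, .ofNat 2), (401, .ofNat 1)]) te) te) te) te) (tn (tn (tn te (tn (tl [(434, .ofNat 1)]) te)) te) te))) (tn (tn te (tn te (tn (tn (tn (tl [(433, .ofNat 1)]) te) te) te))) (tn te (tn (tn (tn (tn (tl [(427, .ofNat 2)]) te) te) te) te))))))

def r148 : Tr SV := (tn (tn (tn (tn (tn te (tn (tn (tn te (tn (tl [(434, .ofNat 2)]) te)) te) te)) (tn (tn (tn (tn (tn (tl [(392, .ofNat 2), (393, .ofNat 1), (394, .ofNat 1), (395, .ofNat 2), (396, .ofNat 2)]) te) te) te) (tn (tn (tn (tl [(428, .ofNat 1), (429, .ofNat 1)]) te) te) te)) te)) (tn (tn (tn (tn (tn te (tn (tl [(434, .ofNat 2)]) te)) te) te) (tn te (tn (tn (tn (tl [(430, .ofNat 1)]) te) te) te))) (tn (tn (tn (tn (tn (tl [(403, .ofNat 1), (404, .ofNat 1), (405, .ofNat 1), (406, .ofNat 1), (407, .ofNat 1), (408, .ofNat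 1)]) te) te) te) te) (tn (tn (tn (tn (tl [(427, .ofNat 1)]) te) te) te) te)))) (tn (tn (tn (tn (tn (tn (tn (tl [(280, .ofNat 1), (283, .ofNat 2)]) te) te) te) te) (tn te (tn (tn (tn (tl [(430, .ofNat 1)]) te) te) te))) (tn (tn (tn (tn te (tn (tl [(434, .ofNat 1)]) te)) te) (tn (tn (tn (tl [(428, .ofNat 1), (429, .ofNat 1)]) te) te) te)) te)) (tn (tn (tn (tn (tn (tn (tl [(388, .ofNat 1), (390, .ofNat 1), (391, .ofNat 1)]) te) te) te) te) (tn te (tn (tn (tn (tl [(431, .ofNat 1)]) te) te) te))) (tn (tn (tn (tn (tn (tl [(417, .ofNat 2)]) te) (tn (tl [(434, .ofNat 1)]) te)) te) te) te)))) (tn (tn (tn (tn (tn (tn (tn (tn (tl [(246, .ofNat 1), (249, .ofNat 2)]) te) te) te) te) (tn te (tn (tn (tn (tl [(431, .ofNat 1)]) te) te) te))) (tn (tn (tn (tn (tn (tl [(392, .ofNat 2), (394, .ofNat 2), (395, .ofNat 1), (396, .ofNat 2)]) te) (tn (tl [(434, .ofNat 1)]) te)) te) (tn (tn (tn (tl [(429, .ofNat 1)]) te) te) te)) te)) (tn (tn (tn (tn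 (tn te (tn (tl [(434, .ofNat 1)]) te)) te) te) (tn te (tn (tn (tn (tl [(430, .ofNat 2), (431, .ofNat 2)]) te) te) te))) (tn (tn (tn (tn (tn (tl [(403, .ofNat 1), (404, .ofNat 2), (406, .ofNat 1)]) te) (tn (tl [(434, .ofNat 2)]) te)) te) te) (tn (tn (tn (tn (tl [(427, .ofNat 2)]) te) te) te) te)))) (tn (tn (tn (tn (tn (tn (tn (tl [(329, .ofNat 1)]) te) (tn (tl [(434, .ofNat 1)]) te)) te) te) (tn (tn (tn te (tn (tl [(434, .ofNat 1)]) te)) te) (tn (tn (tn (tl [(430, .ofNat 2), (431, .ofNat 1)]) te) te) te))) (tn (tn (tn (tn te (tn (tl [(434, .ofNat 2)]) te)) te) te) (tn (tn (tn (tn (tl [(427, .ofNat 2)]) te) te) te) te))) (tn (tn (tn (tn (tn te (tn (tl [(434, .ofNat 2)]) te)) te) (tn (tn (tn (tl [(428, .ofNat 1)]) te) te) te)) te) (tn (tn (tn (tn (tn (tl [(414, .ofNat 1), (415, .ofNat 2), (416, .ofNat 2), (417, .ofNat 1)]) te) (tn (tl [(434, .ofNat 1)]) te)) te) te) te)))))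

def r149 : Tr SV := (tn (tn (tn (tn (tn te (tn (tn (tn te (tn (tl [(434, .ofNat 2)]) te)) te) (tn (tn (tn (tl [(430, .ofNat 2), (431, .ofNat 2)]) te) te) te))) (tn (tn (tn (tn (tn (tl [(393, .ofNat 2), (395, .ofNat 2), (396, .ofNat 2)]) te) te) te) (tn (tn (tn (tl [(428, .ofNat 1)]) te) te) te)) te)) (tn (tn (tn (tn (tn te (tn (tl [(434, .ofNat 2)]) te)) te) te) (tn te (tn (tn (tn (tl [(430, .ofNat 2), (431, .ofNat 2)]) te) te) te))) (tn (tn (tn (tn (tn (tl [(403, .ofNat 1), (404, .ofNat 2), (406, .ofNat 1), (407, .ofNat 1), (408, .ofNat 2)]) te) te) te) te) (tn (tn (tn (tn (tl [(427, .ofNat 1)]) te) te) te) te)))) (tn (tn (tn (tn (tn (tn (tn (tl [(282, .ofNat 2)]) te) (tn (tl [(434, .ofNat 1)]) te)) te) te) (tn te (tn (tn (tn (tl [(430, .ofNat 1), (431, .ofNat 1)]) te) te) te))) (tn (tn (tn (tn te (tn (tl [(434, .ofNat 1)]) te)) te) (tn (tn (tn (tl [(428, .ofNat 2), (429, .ofNat 2)]) te) te) te)) (tn (tn (tn (tn (tl [(427,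 .ofNat 2)]) te) te) te) te))) (tn (tn (tn (tn (tn (tn (tl [(387, .ofNat 1), (388, .ofNat 1), (389, .ofNat 2), (390, .ofNat 2), (391, .ofNat 2)]) te) te) te) te) te) (tn (tn (tn (tn (tn (tl [(414, .ofNat 1), (415, .ofNat 2), (416, .ofNat 2)]) te) (tn (tl [(434, .ofNat 2)]) te)) te) te) te)))) (tn (tn (tn (tn (tn (tn (tn (tn (tl [(248, .ofNat 2)]) te) te) te) te) (tn te (tn (tn (tn (tl [(431, .ofNat 2)]) te) te) te))) (tn (tn (tn (tn (tn (tl [(393, .ofNat 2), (394, .ofNat 2), (395, .ofNat 2)]) te) (tn (tl [(434, .ofNat 1)]) te)) te) (tn (tn (tn (tl [(428, .ofNat 2)]) te) te) te)) te)) (tn (tn (tn (tn (tn te (tn (tl [(434, .ofNat 2)]) te)) te) te) (tn te (tn (tn (tn (tl [(430, .ofNat 2), (431, .ofNat 1)]) te) te) te))) (tn (tn (tn (tn (tn (tl [(402, .ofNat 2), (403, .ofNat 1), (404, .ofNat 2), (406, .ofNat 1), (407, .ofNat 2)]) te) (tn (tl [(434, .ofNat 2)]) te)) te) te) (tn (tn (tn (tn (tl [(427, .ofNat 1)]) te) te) te) te))))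 (tn (tn (tn (tn (tn (tn (tn (tl [(332, .ofNat 1)]) te) (tn (tl [(434, .ofNat 2)]) te)) te) te) (tn te (tn (tn (tn (tl [(430, .ofNat 2), (431, .ofNat 1)]) te) te) te))) (tn (tn (tn (tn te (tn (tl [(434, .ofNat 2)]) te)) te) te) (tn (tn (tn (tn (tl [(427, .ofNat 1)]) te) te) te) te))) (tn (tn (tn (tn (tn te (tn (tl [(434, .ofNat 2)]) te)) te) (tn (tn (tn (tl [(428, .ofNat 1), (429, .ofNat 1)]) te) te) te)) te) (tn (tn (tn (tn (tn (tl [(415, .ofNat 1)]) te) (tn (tl [(434, .ofNat 1)]) te)) te) te) te)))))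

def r150 : Tr SV := (tn (tn (tn (tn (tn te (tn (tn (tn te (tn (tl [(434, .ofNat 1)]) te)) te) (tn (tn (tn (tl [(430, .ofNat 1), (431, .ofNat 1)]) te) te) te))) (tn (tn (tn (tn (tn (tl [(395, .ofNat 1), (396, .ofNat 2)]) te) te) te) (tn (tn (tn (tl [(429, .ofNat 1)]) te) te) te)) te)) (tn (tn (tn (tn (tn te (tn (tl [(434, .ofNat 1)]) te)) te) te) (tn te (tn (tn (tn (tl [(431, .ofNat 1)]) te) te) te))) (tn (tn (tn (tn (tn (tl [(402, .ofNat 2), (404, .ofNat 1), (405, .ofNat 2), (406, .ofNat 2), (408, .ofNat 1)]) te) (tn (tl [(434, .ofNat 1)]) te)) te) te) (tn (tn (tn (tn (tl [(427, .ofNat 2)]) te) te) te) te)))) (tn (tn (tn (tn (tn (tn (tn (tl [(279, .ofNat 2), (280, .ofNat 1), (285, .ofNat 2), (286, .ofNat 1), (287, .ofNat 2), (289, .ofNat 1), (290, .ofNat 1), (291, .ofNat 2)]) te) te) te) te) (tn te (tn (tn (tn (tl [(430, .ofNat 1), (431, .ofNat 1)]) te) te) te))) (tn (tn (tn (tn te (tn (tl [(434, .ofNat 2)]) te)) te) (tn (tn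 (tn (tl [(428, .ofNat 2), (429, .ofNat 2)]) te) te) te)) te)) (tn (tn (tn (tn (tn (tn (tl [(387, .ofNat 1), (388, .ofNat 1), (389, .ofNat 2), (391, .ofNat 2)]) te) (tn (tl [(434, .ofNat 2)]) te)) te) te) (tn te (tn (tn (tn (tl [(431, .ofNat 2)]) te) te) te))) (tn (tn (tn (tn (tn (tl [(415, .ofNat 2), (416, .ofNat 2), (417, .ofNat 1)]) te) (tn (tl [(434, .ofNat 1)]) te)) te) te) te)))) (tn (tn (tn (tn (tn (tn (tn (tn (tl [(233, .ofNat 1), (236, .ofNat 2), (237, .ofNat 2), (238, .ofNat 2), (239, .ofNat 2), (240, .ofNat 1), (241, .ofNat 1), (243, .ofNat 2), (244, .ofNat 2), (246, .ofNat 1), (247, .ofNat 2), (250, .ofNat 1), (252, .ofNat 1), (256, .ofNat 2)]) te) te) te) te) te) (tn (tn (tn (tn (tn (tl [(392, .ofNat 1), (393, .ofNat 2), (396, .ofNat 2)]) te) (tn (tl [(434, .ofNat 2)]) te)) te) (tn (tn (tn (tl [(428, .ofNat 2), (429, .ofNat 2)]) te) te) te)) te)) (tn (tn (tn (tn (tn te (tn (tl [(434, .ofNat 2)]) te)) te) te) (tn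 te (tn (tn (tn (tl [(431, .ofNat 1)]) te) te) te))) (tn (tn (tn (tn (tn (tl [(402, .ofNat 2), (403, .ofNat 2), (404, .ofNat 2), (405, .ofNat 1), (406, .ofNat 1), (407, .ofNat 2), (408, .ofNat 2)]) te) te) te) te) (tn (tn (tn (tn (tl [(427, .ofNat 1)]) te) te) te) te)))) (tn (tn (tn (tn (tn (tn (tn (tl [(328, .ofNat 2), (329, .ofNat 1), (331, .ofNat 1)]) te) (tn (tl [(434, .ofNat 2)]) te)) te) te) (tn (tn (tn te (tn (tl [(434, .ofNat 2)]) te)) te) te)) (tn (tn (tn (tn te (tn (tl [(434, .ofNat 2)]) te)) te) te) (tn (tn (tn (tn (tl [(427, .ofNat 1)]) te) te) te) te))) (tn (tn (tn (tn (tn te (tn (tl [(434, .ofNat 1)]) te)) te) (tn (tn (tn (tl [(429, .ofNat 1)]) te) te) te)) te) (tn (tn (tn (tn (tn (tl [(414, .ofNat 1), (416, .ofNat 2), (417, .ofNat 1)]) te) (tn (tl [(434, .ofNat 2)]) te)) te) te) te)))))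

def r151 : Tr SV := (tn (tn (tn (tn (tn te (tn te (tn (tn (tn (tl [(430, .ofNat 1)]) te) te) te))) (tn (tn (tn (tn (tn (tl [(392, .ofNat 2), (393, .ofNat 2), (394, .ofNat 1), (395, .ofNat 1), (396, .ofNat 1)]) te) te) te) (tn (tn (tn (tl [(428, .ofNat 2), (429, .ofNat 1)]) te) te) te)) te)) (tn (tn te (tn te (tn (tn (tn (tl [(431, .ofNat 1)]) te) te) te))) (tn (tn (tn (tn (tn (tl [(402, .ofNat 2), (403, .ofNat 1), (405, .ofNat 1)]) te) te) te) te) te))) (tn (tn (tn (tn (tn (tn (tn (tl [(279, .ofNat 2), (281, .ofNat 2), (282, .ofNat 2), (283, .ofNat 1), (285, .ofNat 1), (286, .ofNat 2), (287, .ofNat 1), (288, .ofNat 1), (289, .ofNat 2), (290, .ofNat 2), (291, .ofNat 2)]) te) te) te) te) (tn te (tn (tn (tn (tl [(430, .ofNat 1), (431, .ofNat 2)]) te) te) te))) (tn (tn te (tn (tn (tn (tl [(428, .ofNat 2), (429, .ofNat 2)]) te) te) te)) te)) (tn (tn (tn (tn (tn (tn (tl [(388, .ofNat 2), (390, .ofNat 1), (391, .ofNat 2)]) te) te)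 te) te) te) (tn (tn (tn (tn (tn (tl [(416, .ofNat 1), (417, .ofNat 2)]) te) te) te) te) te)))) (tn (tn (tn (tn (tn (tn (tn (tn (tl [(233, .ofNat 1), (236, .ofNat 2), (237, .ofNat 2), (238, .ofNat 2), (239, .ofNat 2), (240, .ofNat 1), (243, .ofNat 2), (244, .ofNat 2), (246, .ofNat 1), (247, .ofNat 2), (248, .ofNat 2), (249, .ofNat 1), (250, .ofNat 1), (252, .ofNat 1), (256, .ofNat 2)]) te) te) te) te) (tn te (tn (tn (tn (tl [(431, .ofNat 2)]) te) te) te))) (tn (tn (tn (tn (tn (tl [(392, .ofNat 1), (394, .ofNat 1)]) te) te) te) (tn (tn (tn (tl [(428, .ofNat 1), (429, .ofNat 1)]) te) te) te)) te)) (tn (tn te (tn te (tn (tn (tn (tl [(430, .ofNat 1), (431, .ofNat 1)]) te) te) te))) (tn (tn (tn (tn (tn (tl [(403, .ofNat 2), (404, .ofNat 2), (405, .ofNat 2), (406, .ofNat 2), (408, .ofNat 1)]) te) te) te) te) te))) (tn (tn (tn (tn (tn (tn (tn (tl [(328, .ofNat 2), (329, .ofNat 1), (331, .ofNat 1), (332, .ofNat 1)]) te) te) te) te)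 (tn te (tn (tn (tn (tl [(430, .ofNat 1), (431, .ofNat 2)]) te) te) te))) te) (tn (tn (tn te (tn (tn (tn (tl [(428, .ofNat 1), (429, .ofNat 1)]) te) te) te)) te) (tn (tn (tn (tn (tn (tl [(414, .ofNat 1), (415, .ofNat 2), (416, .ofNat 1), (417, .ofNat 2)]) te) te) te) te) te)))))

def r152 : Tr SV := (tn (tn (tn (tn (tn te (tn (tn (tn te (tn (tl [(434, .ofNat 2)]) te)) te) (tn (tn (tn (tl [(430, .ofNat 1)]) te) te) te))) (tn (tn (tn (tn (tn (tl [(393, .ofNat 2), (395, .ofNat 2), (396, .ofNat 2)]) te) te) te) (tn (tn (tn (tl [(428, .ofNat 1)]) te) te) te)) te)) (tn (tn (tn (tn (tn te (tn (tl [(434, .ofNat 1)]) te)) te) te) (tn te (tn (tn (tn (tl [(430, .ofNat 2), (431, .ofNat 1)]) te) te) te))) (tn (tn (tn (tn (tn (tl [(402, .ofNat 1), (404, .ofNat 1), (405, .ofNat 2), (406, .ofNat 2), (407, .ofNat 1), (408, .ofNat 1)]) te) te) te) te) (tn (tn (tn (tn (tl [(427, .ofNat 1)]) te) te) te) te)))) (tn (tn (tn (tn (tn (tn (tn (tl [(280,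 .ofNat 2), (281, .ofNat 2)]) te) te) te) te) (tn (tn (tn te (tn (tl [(434, .ofNat 1)]) te)) te) (tn (tn (tn (tl [(430, .ofNat 1)]) te) te) te))) (tn (tn (tn (tn te (tn (tl [(434, .ofNat 1)]) te)) te) (tn (tn (tn (tl [(428, .ofNat 2), (429, .ofNat 2)]) te) te) te)) (tn (tn (tn (tn (tl [(427, .ofNat 2)]) te) te) te) te))) (tn (tn (tn (tn (tn (tn (tl [(387, .ofNat 2), (390, .ofNat 2), (391, .ofNat 1)]) te) (tn (tl [(434, .ofNat 1)]) te)) te) te) (tn te (tn (tn (tn (tl [(431, .ofNat 1)]) te) te) te))) (tn (tn (tn (tn (tn (tl [(414, .ofNat 1), (415, .ofNat 2), (417, .ofNat 1)]) te) (tn (tl [(434, .ofNat 2)]) te)) te) te) te)))) (tn (tn (tn (tn (tn (tn (tn (tn (tl [(246, .ofNat 2), (247, .ofNat 2)]) te) te) te) te) (tn te (tn (tn (tn (tl [(430, .ofNat 1), (431, .ofNat 1)]) te) te) te))) (tn (tn (tn (tn (tn (tl [(393, .ofNat 2), (395, .ofNat 2), (396, .ofNat 1)]) te) (tn (tl [(434, .ofNat 2)]) te)) te) te) te)) (tn (tn (tn (tn (tn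 te (tn (tl [(434, .ofNat 2)]) te)) te) te) (tn te (tn (tn (tn (tl [(430, .ofNat 1), (431, .ofNat 1)]) te) te) te))) (tn (tn (tn (tn (tn (tl [(403, .ofNat 1), (404, .ofNat 1), (405, .ofNat 1), (406, .ofNat 1), (407, .ofNat 1), (408, .ofNat 1)]) te) (tn (tl [(434, .ofNat 2)]) te)) te) te) te))) (tn (tn (tn (tn (tn (tn (tn (tl [(337, .ofNat 1)]) te) te) te) te) (tn (tn (tn te (tn (tl [(434, .ofNat 1)]) te)) te) (tn (tn (tn (tl [(431, .ofNat 2)]) te) te) te))) (tn (tn (tn (tn te (tn (tl [(434, .ofNat 2)]) te)) te) te) te)) (tn (tn (tn (tn (tn te (tn (tl [(434, .ofNat 2)]) te)) te) (tn (tn (tn (tl [(429, .ofNat 2)]) te) te) te)) te) (tn (tn (tn (tn (tn (tl [(414, .ofNat 1), (415, .ofNat 1)]) te) (tn (tl [(434, .ofNat 2)]) te)) te) te) te)))))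

def r153 : Tr SV := (tn (tn (tn (tn (tn te (tn (tn (tn te (tn (tl [(434, .ofNat 2)]) te)) te) (tn (tn (tn (tl [(431, .ofNat 2)]) te) te) te))) (tn (tn (tn (tn (tn (tl [(394, .ofNat 2), (395, .ofNat 1)]) te) te) te) (tn (tn (tn (tl [(428, .ofNat 2), (429, .ofNat 2)]) te) te) te)) te)) (tn (tn te (tn te (tn (tn (tn (tl [(430, .ofNat 2), (431, .ofNat 1)]) te) te) te))) (tn (tn (tn (tn (tn (tl [(403, .ofNat 1), (406, .ofNat 2), (407, .ofNat 1), (408, .ofNat 2)]) te) te) te) te) te))) (tn (tn (tn (tn (tn (tn (tn (tl [(278, .ofNat 2), (279, .ofNat 2), (280, .ofNat 2), (281, .ofNat 2), (282, .ofNat 1), (284, .ofNat 2), (286, .ofNat 2), (287, .ofNat 2), (290, .ofNat 2), (291, .ofNat 1)]) te) (tn (tl [(434, .ofNat 1)]) te)) te) te) te) (tn (tn (tn (tn te (tn (tl [(434, .ofNat 1)]) te)) te) (tn (tn (tn (tl [(428, .ofNat 1)]) te) te) te)) te)) (tn (tn (tn (tn (tn (tn (tl [(388, .ofNat 1), (391, .ofNat 1)]) te) te) te) te) (tn te (tn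 (tn (tn (tl [(431, .ofNat 2)]) te) te) te))) (tn (tn (tn (tn (tn (tl [(415, .ofNat 1), (416, .ofNat 1)]) te) (tn (tl [(434, .ofNat 2)]) te)) te) te) te)))) (tn (tn (tn (tn (tn (tn (tn (tn (tl [(240, .ofNat 1), (248, .ofNat 2)]) te) te) te) te) (tn te (tn (tn (tn (tl [(430, .ofNat 2), (431, .ofNat 1)]) te) te) te))) (tn (tn (tn (tn (tn (tl [(392, .ofNat 1), (393, .ofNat 2), (394, .ofNat 1), (395, .ofNat 1)]) te) (tn (tl [(434, .ofNat 1)]) te)) te) (tn (tn (tn (tl [(428, .ofNat 1), (429, .ofNat 1)]) te) te) te)) te)) (tn (tn (tn (tn (tn te (tn (tl [(434, .ofNat 1)]) te)) te) te) (tn te (tn (tn (tn (tl [(430, .ofNat 1)]) te) te) te))) (tn (tn (tn (tn (tn (tl [(402, .ofNat 1), (403, .ofNat 1), (408, .ofNat 1)]) te) te) te) te) (tn (tn (tn (tn (tl [(427, .ofNat 1)]) te) te) te) te)))) (tn (tn (tn (tn (tn (tn (tn (tl [(332, .ofNat 1), (335, .ofNat 1)]) te) (tn (tl [(434, .ofNat 2)]) te)) te) te) (tn te (tn (tn (tn (tl [(430, .ofNat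 2)]) te) te) te))) (tn (tn (tn (tn te (tn (tl [(434, .ofNat 2)]) te)) te) te) te)) (tn (tn (tn (tn (tn te (tn (tl [(434, .ofNat 2)]) te)) te) (tn (tn (tn (tl [(428, .ofNat 1)]) te) te) te)) te) (tn (tn (tn (tn (tn (tl [(414, .ofNat 2), (415, .ofNat 2), (417, .ofNat 2)]) te) (tn (tl [(434, .ofNat 1)]) te)) te) te) te)))))

def r154 : Tr SV := (tn (tn (tn (tn (tn te (tn (tn (tn te (tn (tl [(434, .ofNat 2)]) te)) te) (tn (tn (tn (tl [(430, .ofNat 2)]) te) te) te))) (tn (tn (tn (tn (tn (tl [(392, .ofNat 1), (395, .ofNat 2), (396, .ofNat 1)]) te) te) te) te) te)) (tn (tn (tn (tn (tn te (tn (tl [(434, .ofNat 2)]) te)) te) te) (tn te (tn (tn (tn (tl [(430, .ofNat 1), (431, .ofNat 1)]) te) te) te))) (tn (tn (tn (tn (tn (tl [(402, .ofNat 1), (404, .ofNat 2), (405, .ofNat 2), (408, .ofNat 1)]) te) te) te) te) (tn (tn (tn (tn (tl [(427, .ofNat 2)]) te) te) te) te)))) (tn (tn (tn (tn (tn (tn (tn (tl [(278, .ofNat 1), (280, .ofNat 1), (283,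 .ofNat 2)]) te) te) te) te) (tn (tn (tn te (tn (tl [(434, .ofNat 2)]) te)) te) (tn (tn (tn (tl [(430, .ofNat 1)]) te) te) te))) (tn (tn te (tn (tn (tn (tl [(428, .ofNat 1), (429, .ofNat 2)]) te) te) te)) te)) (tn (tn (tn (tn (tn (tn (tl [(388, .ofNat 1), (389, .ofNat 1)]) te) te) te) te) (tn te (tn (tn (tn (tl [(431, .ofNat 2)]) te) te) te))) (tn (tn (tn (tn (tn (tl [(414, .ofNat 2), (415, .ofNat 1), (416, .ofNat 2), (417, .ofNat 1)]) te) (tn (tl [(434, .ofNat 1)]) te)) te) te) te)))) (tn (tn (tn (tn (tn (tn (tn (tn (tl [(244, .ofNat 1), (246, .ofNat 1), (249, .ofNat 2)]) te) te) te) te) (tn te (tn (tn (tn (tl [(430, .ofNat 2), (431, .ofNat 1)]) te) te) te))) (tn (tn (tn (tn (tn (tl [(392, .ofNat 2), (393, .ofNat 2), (394, .ofNat 1), (396, .ofNat 1)]) te) (tn (tl [(434, .ofNat 1)]) te)) te) (tn (tn (tn (tl [(428, .ofNat 1), (429, .ofNat 1)]) te) te) te)) te)) (tn (tn te (tn te (tn (tn (tn (tl [(430, .ofNat 1), (431, .ofNat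 1)]) te) te) te))) (tn (tn (tn (tn (tn (tl [(404, .ofNat 1), (405, .ofNat 1)]) te) (tn (tl [(434, .ofNat 2)]) te)) te) te) te))) (tn (tn (tn (tn (tn (tn (tn (tl [(328, .ofNat 2), (329, .ofNat 1), (336, .ofNat 1)]) te) (tn (tl [(434, .ofNat 1)]) te)) te) te) (tn (tn (tn te (tn (tl [(434, .ofNat 2)]) te)) te) (tn (tn (tn (tl [(430, .ofNat 1), (431, .ofNat 1)]) te) te) te))) (tn (tn (tn (tn te (tn (tl [(434, .ofNat 1)]) te)) te) te) (tn (tn (tn (tn (tl [(427, .ofNat 2)]) te) te) te) te))) (tn (tn (tn (tn (tn te (tn (tl [(434, .ofNat 2)]) te)) te) (tn (tn (tn (tl [(428, .ofNat 1), (429, .ofNat 1)]) te) te) te)) te) (tn (tn (tn (tn (tn (tl [(414, .ofNat 1), (415, .ofNat 1), (416, .ofNat 1), (417, .ofNat 1)]) te) (tn (tl [(434, .ofNat 1)]) te)) te) te) te)))))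

def r155 : Tr SV := (tn (tn (tn (tn (tn te (tn te (tn (tn (tn (tl [(430, .ofNat 1), (431, .ofNat 1)]) te) te) te))) (tn (tn (tn (tn (tn (tl [(392, .ofNat 1), (395, .ofNat 2), (396, .ofNat 2)]) te) te) te) (tn (tn (tn (tl [(428, .ofNat 1)]) te) te) te)) te)) (tn (tn te (tn te (tn (tn (tn (tl [(430, .ofNat 1), (431, .ofNat 2)]) te) te) te))) (tn (tn (tn (tn (tn (tl [(402, .ofNat 1), (403, .ofNat 2), (404, .ofNat 1), (406, .ofNat 1), (408, .ofNat 1)]) te) te) te) te) te))) (tn (tn (tn (tn (tn (tn (tn (tl [(278, .ofNat 2), (279, .ofNat 2), (280, .ofNat 2), (281, .ofNat 2), (282, .ofNat 2), (284, .ofNat 2), (285, .ofNat 1), (286, .ofNat 1), (288, .ofNat 2), (289, .ofNat 2), (290, .ofNat 1), (291, .ofNat 1)]) te) (tn (tl [(434, .ofNat 2)]) te)) te) te) (tn (tn (tn te (tn (tl [(434, .ofNat 2)]) te)) te) (tn (tn (tn (tl [(431, .ofNat 1)]) te) te) te))) (tn (tn (tn (tn te (tn (tl [(434, .ofNat 2)]) te)) te) (tn (tn (tn (tl [(428, .ofNat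 2)]) te) te) te)) (tn (tn (tn (tn (tl [(427, .ofNat 1)]) te) te) te) te))) (tn (tn (tn (tn (tn (tn (tl [(387, .ofNat 1), (388, .ofNat 1), (391, .ofNat 1)]) te) (tn (tl [(434, .ofNat 1)]) te)) te) te) (tn te (tn (tn (tn (tl [(430, .ofNat 1)]) te) te) te))) (tn (tn (tn (tn (tn (tl [(416, .ofNat 1)]) te) (tn (tl [(434, .ofNat 2)]) te)) te) te) te)))) (tn (tn (tn (tn (tn (tn (tn (tn (tl [(240, .ofNat 1), (241, .ofNat 1), (246, .ofNat 2), (247, .ofNat 2)]) te) te) te) te) (tn (tn (tn te (tn (tl [(434, .ofNat 2)]) te)) te) (tn (tn (tn (tl [(430, .ofNat 1), (431, .ofNat 1)]) te) te) te))) (tn (tn (tn (tn (tn (tl [(394, .ofNat 2), (395, .ofNat 1), (396, .ofNat 2)]) te) (tn (tl [(434, .ofNat 2)]) te)) te) (tn (tn (tn (tl [(428, .ofNat 2), (429, .ofNat 2)]) te) te) te)) te)) (tn (tn (tn (tn (tn te (tn (tl [(434, .ofNat 2)]) te)) te) te) (tn te (tn (tn (tn (tl [(431, .ofNat 1)]) te) te) te))) (tn (tn (tn (tn (tn (tl [(402, .ofNat 2),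 (403, .ofNat 2), (404, .ofNat 1), (405, .ofNat 2), (407, .ofNat 2)]) te) te) te) te) (tn (tn (tn (tn (tl [(427, .ofNat 1)]) te) te) te) te)))) (tn (tn (tn (tn (tn (tn (tn (tl [(332, .ofNat 1), (334, .ofNat 2), (335, .ofNat 1), (337, .ofNat 1)]) te) (tn (tl [(434, .ofNat 1)]) te)) te) te) (tn (tn (tn te (tn (tl [(434, .ofNat 2)]) te)) te) (tn (tn (tn (tl [(430, .ofNat 1), (431, .ofNat 1)]) te) te) te))) (tn (tn (tn (tn te (tn (tl [(434, .ofNat 2)]) te)) te) te) (tn (tn (tn (tn (tl [(427, .ofNat 1)]) te) te) te) te))) (tn (tn (tn te (tn (tn (tn (tl [(428, .ofNat 2), (429, .ofNat 2)]) te) te) te)) te) (tn (tn (tn (tn (tn (tl [(414, .ofNat 1), (416, .ofNat 2), (417, .ofNat 1)]) te) te) te) te) te)))))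

def r156 : Tr SV := (tn (tn (tn (tn (tn (tn (tn (tn (tn (tl [(233, .ofNat 2), (235, .ofNat 2), (236, .ofNat 2), (237, .ofNat 1), (239, .ofNat 2), (242, .ofNat 1), (243, .ofNat 2), (244, .ofNat 1), (246, .ofNat 1), (247, .ofNat 1), (250, .ofNat 1), (251, .ofNat 2), (253, .ofNat 1), (254, .ofNat 1), (255, .ofNat 2), (256, .ofNat 2)]) te) (tn (tl [(434, .ofNat 2)]) te)) te) te) (tn te (tn (tn (tn (tl [(433, .ofNat 2)]) te) te) (tn (tn (tl [(434, .ofNat 2)]) te) te)))) (tn (tn (tn (tn (tn (tl [(397, .ofNat 2), (398, .ofNat 2), (401, .ofNat 1)]) te) te) te) te) (tn (tn (tn (tn (tl [(427, .ofNat 2)]) te) te) te) (tn te (tn (tn (tl [(434, .ofNat 1)]) te) te))))) (tn (tn (tn te (tn (tn (tn (tl [(428, .ofNat 1)]) te) te) te)) (tn te (tn (tn (tn (tl [(432, .ofNat 2), (433, .ofNat 1)]) te) te) (tn (tn (tl [(434, .ofNat 1)]) te) te)))) (tn (tn (tn (tn (tn (tl [(410, .ofNat 2), (411, .ofNat 2), (413, .ofNat 1)]) te) te) te) (tn (tn (tn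 (tl [(431, .ofNat 2)]) te) te) te)) (tn te (tn te (tn (tn (tl [(434, .ofNat 1)]) te) te)))))) (tn (tn (tn (tn (tn (tn (tn (tl [(292, .ofNat 2), (293, .ofNat 1), (294, .ofNat 1), (296, .ofNat 2), (297, .ofNat 1), (298, .ofNat 1), (299, .ofNat 1), (300, .ofNat 2), (301, .ofNat 1), (302, .ofNat 2), (303, .ofNat 1), (305, .ofNat 1), (306, .ofNat 1), (307, .ofNat 1), (308, .ofNat 1), (309, .ofNat 1), (310, .ofNat 1)]) te) te) te) (tn (tn (tn (tl [(428, .ofNat 2)]) te) te) te)) (tn te (tn (tn (tn (tl [(432, .ofNat 1)]) te) te) (tn (tn (tl [(434, .ofNat 2)]) te) te)))) (tn (tn (tn (tn (tn (tl [(402, .ofNat 1), (403, .ofNat 1), (404, .ofNat 1), (405, .ofNat 1), (406, .ofNat 1), (407, .ofNat 1), (408, .ofNat 1)]) te) te) te) te) (tn te (tn te (tn (tn (tl [(434, .ofNat 2)]) te) te))))) (tn (tn (tn te (tn (tn (tn (tl [(428, .ofNat 2), (429, .ofNat 1)]) te) te) te)) (tn te (tn te (tn (tn (tl [(434, .ofNat 1)]) te) te)))) (tn (tn te (tn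 (tn (tn (tl [(430, .ofNat 2)]) te) te) te)) te)))) (tn (tn (tn (tn (tn (tn (tn (tn (tl [(261, .ofNat 1), (262, .ofNat 2), (264, .ofNat 1), (265, .ofNat 2), (266, .ofNat 2)]) te) (tn (tl [(434, .ofNat 1)]) te)) te) te) (tn te (tn (tn (tn (tl [(433, .ofNat 2)]) te) te) (tn (tn (tl [(434, .ofNat 1)]) te) te)))) (tn (tn (tn (tn (tn (tl [(398, .ofNat 2), (399, .ofNat 2), (400, .ofNat 2), (401, .ofNat 1)]) te) te) te) te) (tn (tn (tn (tn (tl [(427, .ofNat 1)]) te) te) te) te))) (tn (tn (tn (tn (tn (tn (tl [(387, .ofNat 2), (388, .ofNat 1), (391, .ofNat 1)]) te) te) te) (tn (tn (tn (tl [(428, .ofNat 2), (429, .ofNat 2)]) te) te) te)) (tn te (tn (tn (tn (tl [(433, .ofNat 2)]) te) te) te))) (tn (tn te (tn (tn (tn (tl [(431, .ofNat 1)]) te) te) te)) (tn te (tn te (tn (tn (tl [(434, .ofNat 1)]) te) te)))))) (tn (tn (tn (tn (tn (tn (tn (tl [(338, .ofNat 2), (340, .ofNat 1)]) te) te) te) (tn (tn (tn (tl [(428, .ofNat 1)]) te) te) te)) (tn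 te (tn (tn (tn (tl [(433, .ofNat 2)]) te) te) te))) (tn (tn (tn (tn (tn (tl [(403, .ofNat 2), (404, .ofNat 2), (406, .ofNat 2), (408, .ofNat 1)]) te) te) te) (tn (tn (tn (tl [(430, .ofNat 1)]) te) te) te)) te)) (tn (tn (tn (tn (tn (tn (tl [(392, .ofNat 2), (393, .ofNat 2), (394, .ofNat 1), (395, .ofNat 1), (396, .ofNat 1)]) te) te) te) te) (tn (tn (tn (tn (tl [(427, .ofNat 1)]) te) te) te) (tn te (tn (tn (tl [(434, .ofNat 1)]) te) te)))) (tn (tn (tn (tn (tn (tl [(419, .ofNat 1), (421, .ofNat 2)]) te) te) te) te) te)))))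

def r157 : Tr SV := (tn (tn (tn (tn (tn (tn (tn (tn (tn (tl [(234, .ofNat 2), (235, .ofNat 1), (239, .ofNat 2), (240, .ofNat 2), (241, .ofNat 1), (242, .ofNat 2), (243, .ofNat 2), (246, .ofNat 2), (247, .ofNat 1), (248, .ofNat 1), (249, .ofNat 2), (250, .ofNat 1), (251, .ofNat 1), (253, .ofNat 2), (254, .ofNat 1), (255, .ofNat 2), (257, .ofNat 2)]) te) (tn (tl [(434, .ofNat 1)]) te)) te) te) (tn te (tn (tn (tn (tl [(433, .ofNat 1)]) te) te) (tn (tn (tl [(434, .ofNat 2)]) te) te)))) (tn (tn (tn (tn (tn (tl [(397, .ofNat 2), (398, .ofNat 2), (400, .ofNat 1)]) te) te) te) te) (tn te (tn te (tn (tn (tl [(434, .ofNat 1)]) te) te))))) (tn (tn (tn te (tn (tn (tn (tl [(428, .ofNat 2), (429, .ofNat 2)]) te) te) te)) (tn te (tn (tn (tn (tl [(432, .ofNat 2)]) te) te) te))) (tn (tn (tn (tn (tn (tl [(409, .ofNat 2), (410, .ofNat 2), (412, .ofNat 1)]) te) te) te) (tn (tn (tn (tl [(430, .ofNat 1), (431, .ofNat 1)]) te) te) te)) te))) (tn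 (tn (tn (tn (tn (tn (tn (tl [(294, .ofNat 2), (295, .ofNat 2), (296, .ofNat 1), (300, .ofNat 1), (301, .ofNat 1), (302, .ofNat 1), (304, .ofNat 1), (306, .ofNat 2), (307, .ofNat 2), (309, .ofNat 1), (310, .ofNat 2)]) te) te) te) (tn (tn (tn (tl [(429, .ofNat 1)]) te) te) te)) (tn te (tn (tn (tn (tl [(433, .ofNat 2)]) te) te) (tn (tn (tl [(434, .ofNat 2)]) te) te)))) (tn (tn (tn (tn (tn (tl [(402, .ofNat 1), (404, .ofNat 1), (406, .ofNat 2), (407, .ofNat 2), (408, .ofNat 2)]) te) te) te) te) (tn te (tn te (tn (tn (tl [(434, .ofNat 2)]) te) te))))) (tn (tn te (tn te (tn te (tn (tn (tl [(434, .ofNat 1)]) te) te)))) (tn (tn (tn (tn (tn (tl [(418, .ofNat 1), (419, .ofNat 2), (420, .ofNat 2), (421, .ofNat 2)]) te) te) te) (tn (tn (tn (tl [(431, .ofNat 2)]) te) te) te)) te)))) (tn (tn (tn (tn (tn (tn (tn (tn (tl [(258, .ofNat 2), (261, .ofNat 2), (262, .ofNat 1), (263, .ofNat 2), (264, .ofNat 2), (265, .ofNat 1), (266, .ofNat 1),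 (267, .ofNat 1), (268, .ofNat 1), (269, .ofNat 2), (271, .ofNat 1), (272, .ofNat 2), (273, .ofNat 2), (274, .ofNat 1), (275, .ofNat 1), (276, .ofNat 1), (277, .ofNat 1)]) te) (tn (tl [(434, .ofNat 1)]) te)) te) te) (tn te (tn (tn (tn (tl [(432, .ofNat 2), (433, .ofNat 2)]) te) te) te))) (tn (tn (tn (tn (tn (tl [(400, .ofNat 2), (401, .ofNat 1)]) te) te) te) te) (tn (tn (tn (tn (tl [(427, .ofNat 1)]) te) te) te) (tn te (tn (tn (tl [(434, .ofNat 2)]) te) te))))) (tn (tn (tn (tn (tn (tn (tl [(387, .ofNat 1), (389, .ofNat 2), (390, .ofNat 1), (391, .ofNat 1)]) te) te) te) (tn (tn (tn (tl [(428, .ofNat 1), (429, .ofNat 1)]) te) te) te)) (tn te (tn (tn (tn (tl [(433, .ofNat 1)]) te) te) (tn (tn (tl [(434, .ofNat 1)]) te) te)))) (tn (tn (tn (tn (tn (tl [(409, .ofNat 1), (410, .ofNat 2), (411, .ofNat 1), (413, .ofNat 1)]) te) te) te) (tn (tn (tn (tl [(431, .ofNat 2)]) te) te) te)) te))) (tn (tn (tn (tn (tn (tn (tn (tl [(338, .ofNat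 1), (342, .ofNat 1), (343, .ofNat 2)]) te) te) te) (tn (tn (tn (tl [(429, .ofNat 2)]) te) te) te)) (tn te (tn (tn (tn (tl [(433, .ofNat 1)]) te) te) te))) (tn (tn (tn (tn (tn (tl [(402, .ofNat 2), (404, .ofNat 1), (405, .ofNat 2), (407, .ofNat 2), (408, .ofNat 1)]) te) te) te) (tn (tn (tn (tl [(430, .ofNat 2)]) te) te) te)) (tn te (tn te (tn (tn (tl [(434, .ofNat 2)]) te) te))))) (tn (tn (tn (tn (tn (tn (tl [(392, .ofNat 2), (394, .ofNat 2), (395, .ofNat 2)]) te) te) te) te) (tn (tn (tn (tn (tl [(427, .ofNat 1)]) te) te) te) te)) (tn (tn (tn (tn (tn (tl [(420, .ofNat 2)]) te) te) te) (tn (tn (tn (tl [(431, .ofNat 1)]) te) te) te)) (tn te (tn te (tn (tn (tl [(434, .ofNat 2)]) te) te))))))))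

def r158 : Tr SV := (tn (tn (tn (tn (tn (tn (tn (tn (tn (tl [(234, .ofNat 1), (235, .ofNat 2), (236, .ofNat 2), (237, .ofNat 1), (238, .ofNat 2), (239, .ofNat 1), (241, .ofNat 1), (243, .ofNat 2), (244, .ofNat 2), (245, .ofNat 1), (246, .ofNat 1), (247, .ofNat 1), (250, .ofNat 1), (251, .ofNat 2), (252, .ofNat 2), (253, .ofNat 1), (254, .ofNat 2), (255, .ofNat 1), (257, .ofNat 1)]) te) (tn (tl [(434, .ofNat 1)]) te)) te) te) (tn te (tn (tn (tn (tl [(432, .ofNat 2), (433, .ofNat 2)]) te) te) (tn (tn (tl [(434, .ofNat 1)]) te) te)))) (tn (tn (tn (tn (tn (tl [(398, .ofNat 2), (401, .ofNat 1)]) te) te) te) te) (tn (tn (tn (tn (tl [(427, .ofNat 2)]) te) te) te) (tn te (tn (tn (tl [(434, .ofNat 1)]) te) te))))) (tn (tn (tn te (tn (tn (tn (tl [(428, .ofNat 1)]) te) te) te)) (tn te (tn (tn (tn (tl [(433, .ofNat 1)]) te) te) (tn (tn (tl [(434, .ofNat 2)]) te) te)))) (tn (tn (tn (tn (tn (tl [(412, .ofNat 1)]) te) te) te) (tn (tn (tn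 (tl [(431, .ofNat 1)]) te) te) te)) (tn te (tn te (tn (tn (tl [(434, .ofNat 2)]) te) te)))))) (tn (tn (tn (tn (tn (tn (tn (tl [(292, .ofNat 1), (293, .ofNat 2), (294, .ofNat 2), (295, .ofNat 2), (297, .ofNat 2), (299, .ofNat 2), (300, .ofNat 1), (301, .ofNat 2), (302, .ofNat 2), (305, .ofNat 2), (307, .ofNat 1), (308, .ofNat 2), (309, .ofNat 2), (311, .ofNat 1)]) te) te) te) te) (tn te (tn (tn (tn (tl [(433, .ofNat 2)]) te) te) (tn (tn (tl [(434, .ofNat 1)]) te) te)))) (tn (tn (tn (tn (tn (tl [(402, .ofNat 2), (404, .ofNat 1), (405, .ofNat 2), (406, .ofNat 1)]) te) te) te) te) (tn te (tn te (tn (tn (tl [(434, .ofNat 2)]) te) te))))) (tn (tn (tn te (tn (tn (tn (tl [(429, .ofNat 2)]) te) te) te)) (tn te (tn (tn (tn (tl [(432, .ofNat 2), (433, .ofNat 2)]) te) te) (tn (tn (tl [(434, .ofNat 1)]) te) te)))) (tn (tn (tn (tn (tn (tl [(418, .ofNat 1), (420, .ofNat 1), (421, .ofNat 1), (422, .ofNat 1)]) te) te) te) (tn (tn (tn (tl [(430,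 .ofNat 2), (431, .ofNat 1)]) te) te) te)) (tn te (tn te (tn (tn (tl [(434, .ofNat 1)]) te) te))))))) (tn (tn (tn (tn (tn (tn (tn (tn (tl [(261, .ofNat 1), (262, .ofNat 2), (264, .ofNat 1), (265, .ofNat 2)]) te) (tn (tl [(434, .ofNat 1)]) te)) te) te) (tn te (tn (tn (tn (tl [(432, .ofNat 1), (433, .ofNat 2)]) te) te) (tn (tn (tl [(434, .ofNat 1)]) te) te)))) (tn (tn (tn (tn (tn (tl [(398, .ofNat 2), (400, .ofNat 1)]) te) te) te) te) (tn (tn (tn (tn (tl [(427, .ofNat 2)]) te) te) te) (tn te (tn (tn (tl [(434, .ofNat 2)]) te) te))))) (tn (tn (tn (tn (tn (tn (tl [(387, .ofNat 2), (389, .ofNat 2), (390, .ofNat 2)]) te) te) te) (tn (tn (tn (tl [(428, .ofNat 1), (429, .ofNat 1)]) te) te) te)) (tn te (tn (tn (tn (tl [(432, .ofNat 1), (433, .ofNat 2)]) te) te) (tn (tn (tl [(434, .ofNat 1)]) te) te)))) (tn (tn (tn (tn (tn (tl [(410, .ofNat 2), (412, .ofNat 2)]) te) te) te) (tn (tn (tn (tl [(430, .ofNat 2)]) te) te) te)) (tn te (tn te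 (tn (tn (tl [(434, .ofNat 2)]) te) te)))))) (tn (tn (tn (tn (tn (tn (tn (tl [(338, .ofNat 2), (343, .ofNat 1)]) te) te) te) (tn (tn (tn (tl [(429, .ofNat 1)]) te) te) te)) (tn te (tn (tn (tn (tl [(432, .ofNat 1), (433, .ofNat 2)]) te) te) (tn (tn (tl [(434, .ofNat 2)]) te) te)))) (tn (tn (tn (tn (tn (tl [(402, .ofNat 2), (405, .ofNat 2), (406, .ofNat 2), (407, .ofNat 2), (408, .ofNat 1)]) te) te) te) (tn (tn (tn (tl [(431, .ofNat 1)]) te) te) te)) (tn te (tn te (tn (tn (tl [(434, .ofNat 2)]) te) te))))) (tn (tn (tn (tn (tn (tn (tl [(392, .ofNat 1), (394, .ofNat 1), (395, .ofNat 2)]) te) te) te) te) (tn (tn (tn (tn (tl [(427, .ofNat 2)]) te) te) te) (tn te (tn (tn (tl [(434, .ofNat 2)]) te) te)))) (tn (tn (tn (tn (tn (tl [(418, .ofNat 1), (419, .ofNat 1), (421, .ofNat 2), (422, .ofNat 2)]) te) te) te) (tn (tn (tn (tl [(430, .ofNat 2), (431, .ofNat 1)]) te) te) te)) (tn te (tn te (tn (tn (tl [(434, .ofNat 1)]) te) te))))))))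

def r159 : Tr SV := (tn (tn (tn (tn (tn (tn (tn (tn (tn (tl [(234, .ofNat 2), (235, .ofNat 2), (236, .ofNat 1), (237, .ofNat 2), (239, .ofNat 2), (241, .ofNat 2), (243, .ofNat 2), (244, .ofNat 1), (245, .ofNat 2), (246, .ofNat 1), (247, .ofNat 2), (250, .ofNat 2), (251, .ofNat 1), (252, .ofNat 1), (253, .ofNat 2), (254, .ofNat 1), (255, .ofNat 2), (257, .ofNat 1)]) te) te) te) te) (tn te (tn (tn (tn (tl [(432, .ofNat 2), (433, .ofNat 2)]) te) te) (tn (tn (tl [(434, .ofNat 1)]) te) te)))) (tn (tn (tn (tn (tn (tl [(398, .ofNat 2), (399, .ofNat 2), (400, .ofNat 1), (401, .ofNat 1)]) te) te) te) te) te)) (tn (tn (tn te (tn (tn (tn (tl [(428, .ofNat 2), (429, .ofNat 1)]) te) te) te)) (tn te (tn (tn (tn (tl [(432, .ofNat 2)]) te) te) (tn (tn (tl [(434, .ofNat 1)]) te) te)))) (tn (tn (tn (tn (tn (tl [(409, .ofNat 2), (410, .ofNat 1), (411, .ofNat 2), (412, .ofNat 1)]) te) te) te) (tn (tn (tn (tl [(430, .ofNat 1)]) te) te) te)) (tn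 te (tn te (tn (tn (tl [(434, .ofNat 1)]) te) te)))))) (tn (tn (tn (tn (tn (tn (tn (tl [(293, .ofNat 2), (294, .ofNat 2), (295, .ofNat 2), (297, .ofNat 1), (298, .ofNat 1), (299, .ofNat 2), (300, .ofNat 2), (302, .ofNat 2), (303, .ofNat 1), (304, .ofNat 1), (305, .ofNat 2), (307, .ofNat 2), (309, .ofNat 2), (310, .ofNat 1), (311, .ofNat 1)]) te) te) te) (tn (tn (tn (tl [(428, .ofNat 2), (429, .ofNat 1)]) te) te) te)) (tn te (tn (tn (tn (tl [(433, .ofNat 2)]) te) te) (tn (tn (tl [(434, .ofNat 1)]) te) te)))) (tn (tn (tn (tn (tn (tl [(404, .ofNat 1), (407, .ofNat 2)]) te) te) te) te) te)) (tn (tn (tn te (tn (tn (tn (tl [(428, .ofNat 1)]) te) te) te)) (tn te (tn (tn (tn (tl [(432, .ofNat 1), (433, .ofNat 1)]) te) te) (tn (tn (tl [(434, .ofNat 1)]) te) te)))) (tn (tn (tn (tn (tn (tl [(421, .ofNat 1)]) te) te) te) te) (tn te (tn te (tn (tn (tl [(434, .ofNat 1)]) te) te))))))) (tn (tn (tn (tn (tn (tn (tn (tn (tl [(264, .ofNat 2)])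 te) (tn (tl [(434, .ofNat 1)]) te)) te) te) (tn te (tn (tn (tn (tl [(433, .ofNat 2)]) te) te) te))) (tn (tn (tn (tn (tn (tl [(398, .ofNat 1), (401, .ofNat 2)]) te) te) te) te) (tn (tn (tn (tn (tl [(427, .ofNat 2)]) te) te) te) te))) (tn (tn (tn (tn (tn (tn (tl [(388, .ofNat 2), (391, .ofNat 1)]) te) te) te) (tn (tn (tn (tl [(429, .ofNat 2)]) te) te) te)) (tn te (tn (tn (tn (tl [(432, .ofNat 2), (433, .ofNat 2)]) te) te) (tn (tn (tl [(434, .ofNat 1)]) te) te)))) (tn (tn (tn (tn (tn (tl [(409, .ofNat 2), (410, .ofNat 2), (411, .ofNat 2), (412, .ofNat 2), (413, .ofNat 1)]) te) te) te) te) te))) (tn (tn (tn (tn (tn (tn (tn (tl [(338, .ofNat 1), (343, .ofNat 2), (345, .ofNat 1)]) te) te) te) te) (tn te (tn (tn (tn (tl [(432, .ofNat 2), (433, .ofNat 2)]) te) te) te))) (tn (tn (tn (tn (tn (tl [(402, .ofNat 1), (404, .ofNat 1), (405, .ofNat 2), (407, .ofNat 1), (408, .ofNat 1)]) te) te) te) (tn (tn (tn (tl [(431, .ofNat 1)]) te) te)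 te)) (tn te (tn te (tn (tn (tl [(434, .ofNat 2)]) te) te))))) (tn (tn (tn (tn (tn (tn (tl [(392, .ofNat 2), (393, .ofNat 2), (394, .ofNat 2), (395, .ofNat 1), (396, .ofNat 1)]) te) te) te) te) (tn (tn (tn (tn (tl [(427, .ofNat 2)]) te) te) te) te)) (tn (tn (tn (tn (tn (tl [(420, .ofNat 1), (422, .ofNat 2)]) te) te) te) (tn (tn (tn (tl [(431, .ofNat 2)]) te) te) te)) (tn te (tn te (tn (tn (tl [(434, .ofNat 2)]) te) te))))))))

def r160 : Tr SV := (tn (tn (tn (tn (tn (tn (tn (tn (tn (tl [(233, .ofNat 2), (234, .ofNat 1), (235, .ofNat 2), (237, .ofNat 1), (238, .ofNat 2), (239, .ofNat 1), (241, .ofNat 1), (243, .ofNat 2), (244, .ofNat 2), (245, .ofNat 1), (246, .ofNat 1), (247, .ofNat 1), (250, .ofNat 1), (251, .ofNat 2), (252, .ofNat 2), (253, .ofNat 1), (254, .ofNat 2), (255, .ofNat 1), (257, .ofNat 1)]) te) (tn (tl [(434, .ofNat 1)]) te)) te) te) (tn te (tn (tn (tn (tl [(432, .ofNat 1)]) te) te) (tn (tn (tl [(434, .ofNat 1)])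 te) te)))) (tn (tn (tn (tn (tn (tl [(397, .ofNat 2), (398, .ofNat 1), (399, .ofNat 2), (400, .ofNat 2)]) te) te) te) te) (tn (tn (tn (tn (tl [(427, .ofNat 2)]) te) te) te) (tn te (tn (tn (tl [(434, .ofNat 1)]) te) te))))) (tn (tn (tn te (tn (tn (tn (tl [(428, .ofNat 2)]) te) te) te)) (tn te (tn (tn (tn (tl [(433, .ofNat 2)]) te) te) (tn (tn (tl [(434, .ofNat 2)]) te) te)))) (tn (tn (tn (tn (tn (tl [(410, .ofNat 2), (413, .ofNat 1)]) te) te) te) (tn (tn (tn (tl [(430, .ofNat 1), (431, .ofNat 1)]) te) te) te)) (tn te (tn te (tn (tn (tl [(434, .ofNat 2)]) te) te)))))) (tn (tn (tn (tn (tn (tn (tn (tl [(292, .ofNat 2), (293, .ofNat 2), (295, .ofNat 2), (296, .ofNat 1), (297, .ofNat 2), (299, .ofNat 2), (300, .ofNat 2), (301, .ofNat 2), (302, .ofNat 1), (303, .ofNat 2), (304, .ofNat 2), (305, .ofNat 2), (306, .ofNat 1), (308, .ofNat 2), (310, .ofNat 1), (311, .ofNat 2)]) te) te) te) (tn (tn (tn (tl [(428, .ofNat 1), (429, .ofNat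 2)]) te) te) te)) (tn te (tn (tn (tn (tl [(432, .ofNat 2), (433, .ofNat 2)]) te) te) (tn (tn (tl [(434, .ofNat 1)]) te) te)))) (tn (tn (tn (tn (tn (tl [(403, .ofNat 1), (405, .ofNat 1), (406, .ofNat 2), (407, .ofNat 2), (408, .ofNat 1)]) te) te) te) te) (tn te (tn te (tn (tn (tl [(434, .ofNat 2)]) te) te))))) (tn (tn (tn te (tn (tn (tn (tl [(428, .ofNat 2)]) te) te) te)) (tn te (tn te (tn (tn (tl [(434, .ofNat 1)]) te) te)))) (tn (tn (tn (tn (tn (tl [(418, .ofNat 1), (420, .ofNat 2)]) te) te) te) (tn (tn (tn (tl [(430, .ofNat 1), (431, .ofNat 2)]) te) te) te)) (tn te (tn te (tn (tn (tl [(434, .ofNat 1)]) te) te))))))) (tn (tn (tn (tn (tn (tn (tn (tn (tl [(258, .ofNat 1), (259, .ofNat 2), (260, .ofNat 1), (261, .ofNat 1), (262, .ofNat 1), (263, .ofNat 2), (264, .ofNat 2), (265, .ofNat 1), (266, .ofNat 2), (268, .ofNat 2), (269, .ofNat 1), (271, .ofNat 2), (272, .ofNat 2), (273, .ofNat 2), (274, .ofNat 1), (275, .ofNat 2), (276,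 .ofNat 2)]) te) (tn (tl [(434, .ofNat 1)]) te)) te) te) (tn te (tn (tn (tn (tl [(432, .ofNat 1), (433, .ofNat 2)]) te) te) (tn (tn (tl [(434, .ofNat 1)]) te) te)))) (tn (tn (tn (tn (tn (tl [(397, .ofNat 1), (399, .ofNat 2)]) te) te) te) te) (tn (tn (tn (tn (tl [(427, .ofNat 2)]) te) te) te) (tn te (tn (tn (tl [(434, .ofNat 2)]) te) te))))) (tn (tn (tn (tn (tn (tn (tl [(387, .ofNat 1), (390, .ofNat 2), (391, .ofNat 1)]) te) te) te) (tn (tn (tn (tl [(428, .ofNat 1), (429, .ofNat 2)]) te) te) te)) (tn te (tn (tn (tn (tl [(432, .ofNat 1), (433, .ofNat 2)]) te) te) (tn (tn (tl [(434, .ofNat 1)]) te) te)))) (tn (tn (tn (tn (tn (tl [(412, .ofNat 2), (413, .ofNat 1)]) te) te) te) (tn (tn (tn (tl [(430, .ofNat 2), (431, .ofNat 1)]) te) te) te)) (tn te (tn te (tn (tn (tl [(434, .ofNat 2)]) te) te)))))) (tn (tn (tn (tn (tn (tn (tn (tl [(338, .ofNat 2), (346, .ofNat 1)]) te) te) te) (tn (tn (tn (tl [(428, .ofNat 1), (429, .ofNat 1)]) te)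 te) te)) (tn te (tn (tn (tn (tl [(433, .ofNat 1)]) te) te) (tn (tn (tl [(434, .ofNat 2)]) te) te)))) (tn (tn (tn (tn (tn (tl [(402, .ofNat 2), (406, .ofNat 2), (407, .ofNat 2), (408, .ofNat 1)]) te) te) te) (tn (tn (tn (tl [(430, .ofNat 1), (431, .ofNat 2)]) te) te) te)) (tn te (tn te (tn (tn (tl [(434, .ofNat 2)]) te) te))))) (tn (tn (tn (tn (tn (tn (tl [(393, .ofNat 1), (394, .ofNat 1), (396, .ofNat 1)]) te) te) te) te) (tn (tn (tn (tn (tl [(427, .ofNat 2)]) te) te) te) (tn te (tn (tn (tl [(434, .ofNat 2)]) te) te)))) (tn (tn (tn (tn (tn (tl [(418, .ofNat 2), (419, .ofNat 1), (420, .ofNat 2), (421, .ofNat 2), (422, .ofNat 2)]) te) te) te) (tn (tn (tn (tl [(430, .ofNat 2), (431, .ofNat 1)]) te) te) te)) (tn te (tn te (tn (tn (tl [(434, .ofNat 1)]) te) te))))))))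

def r161 : Tr SV := (tn (tn (tn (tn (tn (tn (tn (tn (tn (tl [(234, .ofNat 1), (235, .ofNat 1), (237, .ofNat 1), (238, .ofNat 2), (241, .ofNat 2), (242, .ofNat 1), (243, .ofNat 1), (245, .ofNat 2), (246, .ofNat 2), (248, .ofNat 2), (249, .ofNat 2), (250, .ofNat 2), (251, .ofNat 1), (252, .ofNat 2), (253, .ofNat 1), (257, .ofNat 2)]) te) (tn (tl [(434, .ofNat 1)]) te)) te) te) (tn te (tn (tn (tn (tl [(432, .ofNat 1)]) te) te) (tn (tn (tl [(434, .ofNat 2)]) te) te)))) (tn (tn (tn (tn (tn (tl [(398, .ofNat 2), (400, .ofNat 1), (401, .ofNat 2)]) te) te) te) te) (tn te (tn te (tn (tn (tl [(434, .ofNat 2)]) te) te))))) (tn (tn te (tn te (tn (tn (tn (tl [(432, .ofNat 1), (433, .ofNat 1)]) te) te) (tn (tn (tl [(434, .ofNat 1)]) te) te)))) (tn (tn (tn (tn (tn (tl [(409, .ofNat 2), (410, .ofNat 2), (411, .ofNat 1), (413, .ofNat 1)]) te) te) te) (tn (tn (tn (tl [(430, .ofNat 1)]) te) te) te)) te))) (tn (tn (tn (tn (tn (tn (tn (tl [(292,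 .ofNat 1), (293, .ofNat 2), (294, .ofNat 1), (296, .ofNat 1), (297, .ofNat 2), (299, .ofNat 1), (300, .ofNat 1), (301, .ofNat 1), (306, .ofNat 2), (308, .ofNat 2), (309, .ofNat 1), (310, .ofNat 1), (311, .ofNat 1)]) te) te) te) (tn (tn (tn (tl [(428, .ofNat 1), (429, .ofNat 2)]) te) te) te)) (tn te (tn (tn (tn (tl [(432, .ofNat 1), (433, .ofNat 2)]) te) te) (tn (tn (tl [(434, .ofNat 2)]) te) te)))) (tn (tn (tn (tn (tn (tl [(402, .ofNat 1), (405, .ofNat 1), (406, .ofNat 2), (407, .ofNat 2), (408, .ofNat 1)]) te) te) te) te) te)) (tn (tn te (tn te (tn te (tn (tn (tl [(434, .ofNat 2)]) te) te)))) (tn (tn (tn (tn (tn (tl [(418, .ofNat 1), (419, .ofNat 2), (420, .ofNat 2), (421, .ofNat 1)]) te) te) te) (tn (tn (tn (tl [(430, .ofNat 2)]) te) te) te)) (tn te (tn te (tn (tn (tl [(434, .ofNat 2)]) te) te))))))) (tn (tn (tn (tn (tn (tn (tn (tn (tl [(260, .ofNat 1), (261, .ofNat 2), (262, .ofNat 1), (263, .ofNat 2), (264, .ofNat 1), (265,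 .ofNat 2), (267, .ofNat 2), (269, .ofNat 2), (270, .ofNat 2), (271, .ofNat 1), (272, .ofNat 1), (275, .ofNat 1), (277, .ofNat 1)]) te) (tn (tl [(434, .ofNat 2)]) te)) te) te) (tn te (tn (tn (tn (tl [(432, .ofNat 1)]) te) te) te))) (tn (tn (tn (tn (tn (tl [(397, .ofNat 1), (398, .ofNat 2), (399, .ofNat 2), (400, .ofNat 1), (401, .ofNat 1)]) te) te) te) te) (tn te (tn te (tn (tn (tl [(434, .ofNat 1)]) te) te))))) (tn (tn (tn (tn (tn (tn (tl [(387, .ofNat 1), (388, .ofNat 2), (390, .ofNat 2), (391, .ofNat 2)]) te) te) te) (tn (tn (tn (tl [(429, .ofNat 1)]) te) te) te)) (tn te (tn (tn (tn (tl [(432, .ofNat 1), (433, .ofNat 1)]) te) te) (tn (tn (tl [(434, .ofNat 1)]) te) te)))) (tn (tn (tn (tn (tn (tl [(409, .ofNat 2), (410, .ofNat 1), (412, .ofNat 2), (413, .ofNat 1)]) te) te) te) (tn (tn (tn (tl [(431, .ofNat 2)]) te) te) te)) (tn te (tn te (tn (tn (tl [(434, .ofNat 2)]) te) te)))))) (tn (tn (tn (tn (tn (tn (tn (tl [(343, .ofNat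 1), (348, .ofNat 1), (350, .ofNat 2)]) te) te) te) (tn (tn (tn (tl [(428, .ofNat 1)]) te) te) te)) (tn te (tn (tn (tn (tl [(432, .ofNat 1), (433, .ofNat 2)]) te) te) (tn (tn (tl [(434, .ofNat 1)]) te) te)))) (tn (tn (tn (tn (tn (tl [(403, .ofNat 1), (405, .ofNat 2), (406, .ofNat 1), (407, .ofNat 1), (408, .ofNat 1)]) te) te) te) (tn (tn (tn (tl [(430, .ofNat 2), (431, .ofNat 1)]) te) te) te)) (tn te (tn te (tn (tn (tl [(434, .ofNat 2)]) te) te))))) (tn (tn (tn (tn (tn (tn (tl [(393, .ofNat 1), (394, .ofNat 1), (395, .ofNat 2)]) te) te) te) te) te) (tn (tn (tn (tn (tn (tl [(420, .ofNat 2), (421, .ofNat 1)]) te) te) te) (tn (tn (tn (tl [(431, .ofNat 2)]) te) te) te)) te)))))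

def r162 : Tr SV := (tn (tn (tn (tn (tn (tn (tn (tn (tn (tl [(234, .ofNat 2), (235, .ofNat 1), (236, .ofNat 1), (237, .ofNat 2), (239, .ofNat 2), (241, .ofNat 2), (242, .ofNat 1), (243, .ofNat 2), (244, .ofNat 1), (245, .ofNat 2), (246, .ofNat 1), (247, .ofNat 2), (250, .ofNat 2), (251, .ofNat 1), (252, .ofNat 1), (253, .ofNat 2), (254, .ofNat 1), (255, .ofNat 2), (257, .ofNat 1)]) te) te) te) te) (tn te (tn (tn (tn (tl [(432, .ofNat 1)]) te) te) (tn (tn (tl [(434, .ofNat 2)]) te) te)))) (tn (tn (tn (tn (tn (tl [(397, .ofNat 2), (399, .ofNat 2), (400, .ofNat 2), (401, .ofNat 1)]) te) te) te) te) (tn (tn (tn (tn (tl [(427, .ofNat 2)]) te) te) te) te))) (tn (tn (tn te (tn (tn (tn (tl [(428, .ofNat 1)]) te) te) te)) (tn te (tn (tn (tn (tl [(432, .ofNat 1), (433, .ofNat 2)]) te) te) (tn (tn (tl [(434, .ofNat 1)]) te) te)))) (tn (tn (tn (tn (tn (tl [(410, .ofNat 2), (412, .ofNat 1)]) te) te) te) te) (tn te (tn te (tn (tn (tl [(434,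 .ofNat 2)]) te) te)))))) (tn (tn (tn (tn (tn (tn (tn (tl [(292, .ofNat 1), (293, .ofNat 1), (297, .ofNat 1), (299, .ofNat 1), (300, .ofNat 1), (301, .ofNat 1), (302, .ofNat 2), (303, .ofNat 2), (304, .ofNat 1), (308, .ofNat 2), (309, .ofNat 2), (310, .ofNat 2)]) te) te) te) (tn (tn (tn (tl [(428, .ofNat 2)]) te) te) te)) (tn te (tn (tn (tn (tl [(432, .ofNat 2), (433, .ofNat 1)]) te) te) (tn (tn (tl [(434, .ofNat 1)]) te) te)))) (tn (tn (tn (tn (tn (tl [(402, .ofNat 2), (406, .ofNat 1), (407, .ofNat 1)]) te) te) te) te) (tn te (tn te (tn (tn (tl [(434, .ofNat 1)]) te) te))))) (tn (tn (tn te (tn (tn (tn (tl [(429, .ofNat 2)]) te) te) te)) (tn te (tn (tn (tn (tl [(432, .ofNat 1), (433, .ofNat 1)]) te) te) (tn (tn (tl [(434, .ofNat 1)]) te) te)))) (tn (tn (tn (tn (tn (tl [(421, .ofNat 1)]) te) te) te) (tn (tn (tn (tl [(430, .ofNat 2)]) te) te) te)) (tn te (tn te (tn (tn (tl [(434, .ofNat 1)]) te) te))))))) (tn (tn (tn (tn (tn (tn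 (tn (tn (tl [(260, .ofNat 1), (264, .ofNat 2)]) te) te) te) te) (tn te (tn (tn (tn (tl [(432, .ofNat 2)]) te) te) te))) (tn (tn (tn (tn (tn (tl [(397, .ofNat 1), (399, .ofNat 2), (401, .ofNat 1)]) te) te) te) te) (tn (tn (tn (tn (tl [(427, .ofNat 2)]) te) te) te) te))) (tn (tn (tn (tn (tn (tn (tl [(387, .ofNat 2), (389, .ofNat 2), (390, .ofNat 1), (391, .ofNat 2)]) te) te) te) (tn (tn (tn (tl [(429, .ofNat 1)]) te) te) te)) (tn te (tn (tn (tn (tl [(432, .ofNat 2), (433, .ofNat 1)]) te) te) te))) (tn (tn (tn (tn (tn (tl [(410, .ofNat 1), (411, .ofNat 2), (412, .ofNat 2), (413, .ofNat 2)]) te) te) te) te) (tn te (tn te (tn (tn (tl [(434, .ofNat 2)]) te) te)))))) (tn (tn (tn (tn (tn (tn (tn (tl [(338, .ofNat 1), (343, .ofNat 2), (349, .ofNat 1)]) te) te) te) (tn (tn (tn (tl [(429, .ofNat 1)]) te) te) te)) (tn te (tn (tn (tn (tl [(433, .ofNat 1)]) te) te) te))) (tn (tn (tn (tn (tn (tl [(402, .ofNat 1), (403, .ofNat 2), (404, .ofNat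 2), (405, .ofNat 2), (406, .ofNat 1), (408, .ofNat 1)]) te) te) te) (tn (tn (tn (tl [(430, .ofNat 1), (431, .ofNat 2)]) te) te) te)) (tn te (tn te (tn (tn (tl [(434, .ofNat 2)]) te) te))))) (tn (tn (tn (tn (tn (tn (tl [(394, .ofNat 1), (395, .ofNat 1), (396, .ofNat 1)]) te) te) te) te) (tn (tn (tn (tn (tl [(427, .ofNat 1)]) te) te) te) te)) (tn (tn (tn (tn (tn (tl [(422, .ofNat 2)]) te) te) te) te) (tn te (tn te (tn (tn (tl [(434, .ofNat 2)]) te) te))))))))

def r163 : Tr SV := (tn (tn (tn (tn (tn (tn (tn (tn (tn (tl [(235, .ofNat 1), (236, .ofNat 2), (239, .ofNat 2), (241, .ofNat 1), (242, .ofNat 2), (243, .ofNat 2), (244, .ofNat 2), (245, .ofNat 2), (246, .ofNat 2), (247, .ofNat 1), (249, .ofNat 1), (250, .ofNat 2), (251, .ofNat 1), (252, .ofNat 2), (253, .ofNat 1), (254, .ofNat 2), (255, .ofNat 1), (257, .ofNat 1)]) te) (tn (tl [(434, .ofNat 2)]) te)) te) te) (tn te (tn (tn (tn (tl [(432, .ofNat 1), (433, .ofNat 1)]) te)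 te) (tn (tn (tl [(434, .ofNat 2)]) te) te)))) (tn (tn (tn (tn (tn (tl [(397, .ofNat 2), (398, .ofNat 2), (401, .ofNat 1)]) te) te) te) te) (tn (tn (tn (tn (tl [(427, .ofNat 2)]) te) te) te) (tn te (tn (tn (tl [(434, .ofNat 1)]) te) te))))) (tn (tn (tn te (tn (tn (tn (tl [(428, .ofNat 2), (429, .ofNat 1)]) te) te) te)) (tn te (tn (tn (tn (tl [(432, .ofNat 1), (433, .ofNat 2)]) te) te) (tn (tn (tl [(434, .ofNat 1)]) te) te)))) (tn (tn (tn (tn (tn (tl [(409, .ofNat 1), (410, .ofNat 1), (411, .ofNat 1)]) te) te) te) (tn (tn (tn (tl [(431, .ofNat 1)]) te) te) te)) (tn te (tn te (tn (tn (tl [(434, .ofNat 1)]) te) te)))))) (tn (tn (tn (tn (tn (tn (tn (tl [(292, .ofNat 2), (294, .ofNat 2), (296, .ofNat 1), (297, .ofNat 2), (299, .ofNat 2), (302, .ofNat 1), (303, .ofNat 2), (304, .ofNat 2), (306, .ofNat 2), (307, .ofNat 2), (310, .ofNat 2), (311, .ofNat 1)]) te) te) te) te) (tn te (tn (tn (tn (tl [(432, .ofNat 1)]) te) te) (tn (tn (tl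 [(434, .ofNat 2)]) te) te)))) (tn (tn (tn (tn (tn (tl [(402, .ofNat 2), (404, .ofNat 1), (405, .ofNat 2), (406, .ofNat 2), (408, .ofNat 2)]) te) te) te) te) te)) (tn (tn te (tn te (tn (tn (tn (tl [(432, .ofNat 2), (433, .ofNat 1)]) te) te) (tn (tn (tl [(434, .ofNat 1)]) te) te)))) (tn (tn (tn (tn (tn (tl [(418, .ofNat 1), (419, .ofNat 2), (421, .ofNat 1)]) te) te) te) (tn (tn (tn (tl [(430, .ofNat 2), (431, .ofNat 2)]) te) te) te)) (tn te (tn te (tn (tn (tl [(434, .ofNat 2)]) te) te))))))) (tn (tn (tn (tn (tn (tn (tn (tn (tl [(261, .ofNat 1), (262, .ofNat 2), (263, .ofNat 1), (264, .ofNat 1), (265, .ofNat 2), (266, .ofNat 2)]) te) te) te) te) (tn te (tn (tn (tn (tl [(432, .ofNat 2)]) te) te) (tn (tn (tl [(434, .ofNat 1)]) te) te)))) (tn (tn (tn (tn (tn (tl [(397, .ofNat 1), (398, .ofNat 2), (400, .ofNat 1), (401, .ofNat 1)]) te) te) te) te) te)) (tn (tn (tn (tn (tn (tn (tl [(387, .ofNat 1), (389, .ofNat 2), (390, .ofNat 2)])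 te) te) te) te) (tn te (tn (tn (tn (tl [(432, .ofNat 1), (433, .ofNat 1)]) te) te) (tn (tn (tl [(434, .ofNat 1)]) te) te)))) (tn (tn (tn (tn (tn (tl [(410, .ofNat 1), (411, .ofNat 2), (412, .ofNat 2), (413, .ofNat 2)]) te) te) te) (tn (tn (tn (tl [(430, .ofNat 2), (431, .ofNat 1)]) te) te) te)) (tn te (tn te (tn (tn (tl [(434, .ofNat 1)]) te) te)))))) (tn (tn (tn (tn (tn (tn (tn (tl [(338, .ofNat 2), (350, .ofNat 1)]) te) te) te) (tn (tn (tn (tl [(429, .ofNat 2)]) te) te) te)) (tn te (tn (tn (tn (tl [(432, .ofNat 1), (433, .ofNat 1)]) te) te) te))) (tn (tn (tn (tn (tn (tl [(402, .ofNat 1), (403, .ofNat 1), (406, .ofNat 2), (407, .ofNat 1), (408, .ofNat 1)]) te) te) te) te) te)) (tn (tn (tn (tn (tn (tn (tl [(396, .ofNat 1)]) te) te) te) te) (tn (tn (tn (tn (tl [(427, .ofNat 2)]) te) te) te) (tn te (tn (tn (tl [(434, .ofNat 1)]) te) te)))) (tn (tn (tn (tn (tn (tl [(419, .ofNat 1), (420, .ofNat 1)]) te) te) te) (tn (tn (tn (tl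 [(431, .ofNat 2)]) te) te) te)) (tn te (tn te (tn (tn (tl [(434, .ofNat 1)]) te) te))))))))

def r164 : Tr SV := (tn (tn (tn (tn (tn (tn (tn (tn (tn (tl [(234, .ofNat 1), (235, .ofNat 1), (237, .ofNat 1), (238, .ofNat 2), (239, .ofNat 2), (241, .ofNat 2), (242, .ofNat 1), (243, .ofNat 1), (245, .ofNat 2), (246, .ofNat 2), (248, .ofNat 2), (249, .ofNat 2), (251, .ofNat 1), (252, .ofNat 2), (253, .ofNat 1), (257, .ofNat 2)]) te) te) te) te) (tn te (tn (tn (tn (tl [(432, .ofNat 2), (433, .ofNat 2)]) te) te) (tn (tn (tl [(434, .ofNat 2)]) te) te)))) (tn (tn (tn (tn (tn (tl [(397, .ofNat 1), (398, .ofNat 1), (400, .ofNat 1), (401, .ofNat 2)]) te) te) te) te) te)) (tn (tn (tn te (tn (tn (tn (tl [(428, .ofNat 1), (429, .ofNat 2)]) te) te) te)) (tn te (tn (tn (tn (tl [(433, .ofNat 1)]) te) te) (tn (tn (tl [(434, .ofNat 1)]) te) te)))) (tn (tn (tn (tn (tn (tl [(409, .ofNat 1), (410, .ofNat 2), (412, .ofNat 2), (413, .ofNat 2)]) te)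 te) te) (tn (tn (tn (tl [(430, .ofNat 1)]) te) te) te)) te))) (tn (tn (tn (tn (tn (tn (tn (tl [(292, .ofNat 2), (293, .ofNat 1), (294, .ofNat 1), (295, .ofNat 1), (296, .ofNat 2), (299, .ofNat 1), (300, .ofNat 1), (301, .ofNat 1), (302, .ofNat 2), (303, .ofNat 2), (307, .ofNat 1), (309, .ofNat 1), (310, .ofNat 2)]) te) te) te) (tn (tn (tn (tl [(428, .ofNat 1), (429, .ofNat 2)]) te) te) te)) (tn te (tn (tn (tn (tl [(432, .ofNat 1)]) te) te) (tn (tn (tl [(434, .ofNat 2)]) te) te)))) (tn (tn (tn (tn (tn (tl [(404, .ofNat 2), (405, .ofNat 1), (408, .ofNat 1)]) te) te) te) te) (tn te (tn te (tn (tn (tl [(434, .ofNat 1)]) te) te))))) (tn (tn te (tn te (tn te (tn (tn (tl [(434, .ofNat 2)]) te) te)))) (tn (tn (tn (tn (tn (tl [(418, .ofNat 1), (419, .ofNat 1), (422, .ofNat 2)]) te) te) te) te) te)))) (tn (tn (tn (tn (tn (tn (tn (tn (tl [(261, .ofNat 2), (262, .ofNat 1), (263, .ofNat 2), (264, .ofNat 2), (266, .ofNat 1)]) te) te) te)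 te) (tn te (tn (tn (tn (tl [(432, .ofNat 1)]) te) te) te))) (tn (tn (tn (tn (tn (tl [(398, .ofNat 2), (399, .ofNat 2), (401, .ofNat 1)]) te) te) te) te) (tn (tn (tn (tn (tl [(427, .ofNat 2)]) te) te) te) (tn te (tn (tn (tl [(434, .ofNat 1)]) te) te))))) (tn (tn (tn (tn (tn (tn (tl [(387, .ofNat 1), (388, .ofNat 1), (389, .ofNat 2), (390, .ofNat 1)]) te) te) te) (tn (tn (tn (tl [(428, .ofNat 1), (429, .ofNat 2)]) te) te) te)) (tn te (tn (tn (tn (tl [(432, .ofNat 1), (433, .ofNat 2)]) te) te) te))) (tn (tn (tn (tn (tn (tl [(412, .ofNat 1), (413, .ofNat 2)]) te) te) te) (tn (tn (tn (tl [(430, .ofNat 2), (431, .ofNat 2)]) te) te) te)) (tn te (tn te (tn (tn (tl [(434, .ofNat 1)]) te) te)))))) (tn (tn (tn (tn (tn (tn (tn (tl [(343, .ofNat 1), (350, .ofNat 2), (352, .ofNat 1)]) te) te) te) (tn (tn (tn (tl [(428, .ofNat 1), (429, .ofNat 2)]) te) te) te)) (tn te (tn te (tn (tn (tl [(434, .ofNat 2)]) te) te)))) (tn (tn (tn (tn (tn (tl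 [(402, .ofNat 1), (403, .ofNat 2), (404, .ofNat 1), (405, .ofNat 2), (406, .ofNat 2), (407, .ofNat 2), (408, .ofNat 1)]) te) te) te) (tn (tn (tn (tl [(430, .ofNat 1), (431, .ofNat 1)]) te) te) te)) (tn te (tn te (tn (tn (tl [(434, .ofNat 2)]) te) te))))) (tn (tn (tn (tn (tn (tn (tl [(392, .ofNat 2), (393, .ofNat 2), (394, .ofNat 1), (395, .ofNat 1), (396, .ofNat 2)]) te) te) te) te) te) (tn (tn (tn (tn (tn (tl [(418, .ofNat 1), (420, .ofNat 1), (421, .ofNat 1)]) te) te) te) (tn (tn (tn (tl [(430, .ofNat 1), (431, .ofNat 1)]) te) te) te)) (tn te (tn te (tn (tn (tl [(434, .ofNat 1)]) te) te))))))))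

def r165 : Tr SV := (tn (tn (tn (tn (tn (tn (tn (tn (tn (tl [(248, .ofNat 2), (251, .ofNat 1)]) te) (tn (tl [(434, .ofNat 1)]) te)) te) te) (tn te (tn (tn (tn (tl [(432, .ofNat 1)]) te) te) te))) (tn (tn (tn (tn (tn (tl [(397, .ofNat 1), (398, .ofNat 1), (399, .ofNat 1), (401, .ofNat 2)]) te) te) te) te) (tn (tn (tn (tn (tl [(427, .ofNat 2)]) te) te) te) te))) (tn (tn (tn te (tn (tn (tn (tl [(429, .ofNat 1)]) te) te) te)) te) (tn (tn (tn (tn (tn (tl [(409, .ofNat 1), (410, .ofNat 2), (411, .ofNat 1), (412, .ofNat 2)]) te) te) te) (tn (tn (tn (tl [(431, .ofNat 1)]) te) te) te)) te))) (tn (tn (tn (tn (tn (tn (tn (tl [(292, .ofNat 1), (293, .ofNat 1), (295, .ofNat 2), (298, .ofNat 2), (299, .ofNat 2), (300, .ofNat 2), (301, .ofNat 1), (305, .ofNat 2), (307, .ofNat 1), (310, .ofNat 1)]) te) te) te) (tn (tn (tn (tl [(428, .ofNat 2), (429, .ofNat 2)]) te) te) te)) (tn te (tn te (tn (tn (tl [(434, .ofNat 2)]) te) te)))) (tn (tn (tn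 (tn (tn (tl [(403, .ofNat 2), (404, .ofNat 1), (406, .ofNat 2), (408, .ofNat 2)]) te) te) te) te) (tn te (tn te (tn (tn (tl [(434, .ofNat 2)]) te) te))))) (tn (tn (tn te (tn (tn (tn (tl [(428, .ofNat 2), (429, .ofNat 2)]) te) te) te)) (tn te (tn (tn (tn (tl [(433, .ofNat 2)]) te) te) (tn (tn (tl [(434, .ofNat 1)]) te) te)))) (tn (tn (tn (tn (tn (tl [(418, .ofNat 2), (419, .ofNat 2), (422, .ofNat 1)]) te) te) te) (tn (tn (tn (tl [(431, .ofNat 2)]) te) te) te)) (tn te (tn te (tn (tn (tl [(434, .ofNat 1)]) te) te))))))) (tn (tn (tn (tn (tn (tn (tn (tn (tl [(259, .ofNat 1), (260, .ofNat 1), (261, .ofNat 1), (263, .ofNat 2), (264, .ofNat 2), (265, .ofNat 2), (266, .ofNat 1), (267, .ofNat 2), (270, .ofNat 2), (272, .ofNat 2), (273, .ofNat 2), (274, .ofNat 1), (275, .ofNat 2)]) te) (tn (tl [(434, .ofNat 1)]) te)) te) te) (tn te (tn (tn (tn (tl [(432, .ofNat 2), (433, .ofNat 2)]) te) te) (tn (tn (tl [(434, .ofNat 2)]) te) te)))) (tn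 (tn (tn (tn (tn (tl [(398, .ofNat 1), (399, .ofNat 1), (400, .ofNat 1), (401, .ofNat 2)]) te) te) te) te) (tn te (tn te (tn (tn (tl [(434, .ofNat 1)]) te) te))))) (tn (tn (tn (tn (tn (tn (tl [(387, .ofNat 1), (388, .ofNat 2), (390, .ofNat 1), (391, .ofNat 2)]) te) te) te) (tn (tn (tn (tl [(428, .ofNat 2), (429, .ofNat 2)]) te) te) te)) (tn te (tn (tn (tn (tl [(432, .ofNat 1), (433, .ofNat 2)]) te) te) te))) (tn (tn (tn (tn (tn (tl [(409, .ofNat 2), (413, .ofNat 2)]) te) te) te) te) te))) (tn (tn (tn (tn (tn (tn (tn (tl [(338, .ofNat 1), (343, .ofNat 2), (353, .ofNat 1)]) te) te) te) (tn (tn (tn (tl [(428, .ofNat 2), (429, .ofNat 2)]) te) te) te)) (tn te (tn (tn (tn (tl [(433, .ofNat 1)]) te) te) te))) (tn (tn (tn (tn (tn (tl [(402, .ofNat 2), (404, .ofNat 2), (405, .ofNat 1), (406, .ofNat 2), (407, .ofNat 1)]) te) te) te) (tn (tn (tn (tl [(430, .ofNat 1), (431, .ofNat 2)]) te) te) te)) (tn te (tn te (tn (tn (tl [(434, .ofNat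 2)]) te) te))))) (tn (tn (tn (tn (tn (tn (tl [(392, .ofNat 2), (395, .ofNat 1), (396, .ofNat 1)]) te) te) te) te) (tn te (tn te (tn (tn (tl [(434, .ofNat 2)]) te) te)))) (tn (tn (tn (tn (tn (tl [(418, .ofNat 2), (419, .ofNat 2), (420, .ofNat 1), (421, .ofNat 1)]) te) te) te) (tn (tn (tn (tl [(430, .ofNat 1)]) te) te) te)) (tn te (tn te (tn (tn (tl [(434, .ofNat 2)]) te) te))))))))

def r166 : Tr SV := (tn (tn (tn (tn (tn (tn (tn (tn (tn (tl [(234, .ofNat 2), (235, .ofNat 2), (237, .ofNat 2), (238, .ofNat 1), (239, .ofNat 1), (241, .ofNat 1), (242, .ofNat 2), (243, .ofNat 2), (245, .ofNat 1), (246, .ofNat 1), (247, .ofNat 2), (248, .ofNat 1), (250, .ofNat 1), (251, .ofNat 2), (252, .ofNat 1), (253, .ofNat 2), (254, .ofNat 1), (257, .ofNat 1)]) te) te) te) te) (tn te (tn (tn (tn (tl [(432, .ofNat 1)]) te) te) (tn (tn (tl [(434, .ofNat 1)]) te) te)))) (tn (tn (tn (tn (tn (tl [(398, .ofNat 1), (400, .ofNat 1), (401, .ofNat 2)])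 te) te) te) te) (tn (tn (tn (tn (tl [(427, .ofNat 1)]) te) te) te) (tn te (tn (tn (tl [(434, .ofNat 1)]) te) te))))) (tn (tn te (tn te (tn (tn (tn (tl [(433, .ofNat 2)]) te) te) te))) (tn (tn (tn (tn (tn (tl [(410, .ofNat 2), (411, .ofNat 1), (412, .ofNat 2)]) te) te) te) (tn (tn (tn (tl [(430, .ofNat 1), (431, .ofNat 1)]) te) te) te)) (tn te (tn te (tn (tn (tl [(434, .ofNat 2)]) te) te)))))) (tn (tn (tn (tn (tn (tn (tn (tl [(293, .ofNat 1), (294, .ofNat 2), (295, .ofNat 1), (296, .ofNat 2), (297, .ofNat 1), (300, .ofNat 2), (302, .ofNat 1), (303, .ofNat 1), (304, .ofNat 2), (308, .ofNat 1), (309, .ofNat 1), (310, .ofNat 2), (311, .ofNat 2)]) te) te) te) (tn (tn (tn (tl [(428, .ofNat 1), (429, .ofNat 2)]) te) te) te)) (tn te (tn (tn (tn (tl [(433, .ofNat 2)]) te) te) te))) (tn (tn (tn (tn (tn (tl [(402, .ofNat 1), (403, .ofNat 1), (404, .ofNat 1), (406, .ofNat 2), (407, .ofNat 1), (408, .ofNat 2)]) te) te) te) te) (tn te (tn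 te (tn (tn (tl [(434, .ofNat 2)]) te) te))))) (tn (tn (tn te (tn (tn (tn (tl [(428, .ofNat 2)]) te) te) te)) (tn te (tn (tn (tn (tl [(432, .ofNat 2), (433, .ofNat 2)]) te) te) (tn (tn (tl [(434, .ofNat 2)]) te) te)))) (tn (tn (tn (tn (tn (tl [(418, .ofNat 2), (419, .ofNat 1), (420, .ofNat 2), (422, .ofNat 2)]) te) te) te) (tn (tn (tn (tl [(430, .ofNat 1)]) te) te) te)) te)))) (tn (tn (tn (tn (tn (tn (tn (tn (tl [(259, .ofNat 1), (260, .ofNat 2), (262, .ofNat 2), (266, .ofNat 2), (267, .ofNat 2), (268, .ofNat 1), (269, .ofNat 1), (270, .ofNat 1), (271, .ofNat 1), (272, .ofNat 2), (273, .ofNat 1), (274, .ofNat 1), (277, .ofNat 1)]) te) te) te) te) (tn te (tn (tn (tn (tl [(432, .ofNat 1)]) te) te) (tn (tn (tl [(434, .ofNat 2)]) te) te)))) (tn (tn (tn (tn (tn (tl [(399, .ofNat 2)]) te) te) te) te) te)) (tn (tn (tn (tn (tn (tn (tl [(387, .ofNat 1), (390, .ofNat 1), (391, .ofNat 2)]) te) te) te) (tn (tn (tn (tl [(429, .ofNat 1)])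 te) te) te)) (tn te (tn (tn (tn (tl [(432, .ofNat 1), (433, .ofNat 2)]) te) te) te))) (tn (tn (tn (tn (tn (tl [(412, .ofNat 2), (413, .ofNat 1)]) te) te) te) (tn (tn (tn (tl [(431, .ofNat 1)]) te) te) te)) (tn te (tn te (tn (tn (tl [(434, .ofNat 1)]) te) te)))))) (tn (tn (tn (tn (tn (tn (tn (tl [(338, .ofNat 2), (354, .ofNat 1)]) te) te) te) (tn (tn (tn (tl [(429, .ofNat 2)]) te) te) te)) (tn te (tn (tn (tn (tl [(432, .ofNat 2), (433, .ofNat 1)]) te) te) te))) (tn (tn (tn (tn (tn (tl [(402, .ofNat 1), (403, .ofNat 2), (404, .ofNat 2), (405, .ofNat 2), (406, .ofNat 2), (408, .ofNat 1)]) te) te) te) (tn (tn (tn (tl [(430, .ofNat 2)]) te) te) te)) te)) (tn (tn (tn (tn (tn (tn (tl [(392, .ofNat 1), (394, .ofNat 1), (396, .ofNat 1)]) te) te) te) te) (tn (tn (tn (tn (tl [(427, .ofNat 1)]) te) te) te) (tn te (tn (tn (tl [(434, .ofNat 1)]) te) te)))) (tn (tn (tn (tn (tn (tl [(418, .ofNat 2), (419, .ofNat 2), (420, .ofNat 1), (422,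 .ofNat 2)]) te) te) te) (tn (tn (tn (tl [(431, .ofNat 2)]) te) te) te)) te)))))

def r167 : Tr SV := (tn (tn (tn (tn (tn (tn (tn (tn (tn (tl [(258, .ofNat 1), (259, .ofNat 1), (260, .ofNat 2), (261, .ofNat 1), (263, .ofNat 1), (264, .ofNat 1), (267, .ofNat 2), (269, .ofNat 2), (270, .ofNat 2), (271, .ofNat 1), (275, .ofNat 1), (276, .ofNat 1), (277, .ofNat 2)]) te) te) te) (tn (tn (tn (tl [(428, .ofNat 1), (429, .ofNat 1)]) te) te) te)) te) (tn (tn te (tn te (tn (tn (tl [(434, .ofNat 1)]) te) te))) te)) (tn (tn (tn (tn (tn (tn (tl [(387, .ofNat 1), (389, .ofNat 2), (390, .ofNat 1), (391, .ofNat 2)]) te) te) te) te) te) (tn (tn te (tn (tn (tn (tl [(432, .ofNat 1), (433, .ofNat 1)]) te) te) (tn (tn (tl [(434, .ofNat 1)]) te) te))) te))) (tn (tn (tn (tn (tn (tn (tn (tl [(312, .ofNat 1), (313, .ofNat 1), (314, .ofNat 1), (315, .ofNat 1), (316, .ofNat 2), (318, .ofNat 2), (319, .ofNat 2), (320, .ofNat 2), (321, .ofNat 2), (323,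 .ofNat 2), (324, .ofNat 1), (325, .ofNat 1)]) te) te) te) te) te) (tn (tn (tn (tn (tn (tl [(409, .ofNat 2), (411, .ofNat 1), (412, .ofNat 1), (413, .ofNat 2)]) te) te) te) (tn te (tn (tn (tl [(434, .ofNat 2)]) te) te))) te)) (tn (tn (tn te (tn te (tn (tn (tl [(434, .ofNat 2)]) te) te))) (tn (tn (tn (tn (tl [(427, .ofNat 1)]) te) te) te) te)) (tn (tn (tn (tn (tn (tl [(423, .ofNat 1), (425, .ofNat 2), (426, .ofNat 2)]) te) te) te) (tn (tn (tn (tl [(433, .ofNat 1)]) te) te) (tn (tn (tl [(434, .ofNat 2)]) te) te))) (tn (tn (tn (tn (tl [(429, .ofNat 1)]) te) te) te) te))))) (tn (tn (tn (tn (tn te (tn (tn (tn (tl [(428, .ofNat 2), (429, .ofNat 2)]) te) te) te)) te) (tn (tn te (tn te (tn (tn (tl [(434, .ofNat 2)]) te) te))) te)) (tn te (tn (tn te (tn (tn (tn (tl [(432, .ofNat 1)]) te) te) (tn (tn (tl [(434, .ofNat 1)]) te) te))) te))) (tn (tn (tn (tn (tn (tn (tn (tl [(356, .ofNat 2), (357, .ofNat 1), (359, .ofNat 1), (361, .ofNat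 1), (362, .ofNat 1), (363, .ofNat 2)]) te) te) te) te) te) (tn (tn (tn (tn (tn (tl [(409, .ofNat 1), (411, .ofNat 2), (413, .ofNat 1)]) te) te) te) (tn (tn (tn (tl [(432, .ofNat 2)]) te) te) (tn (tn (tl [(434, .ofNat 1)]) te) te))) te)) (tn (tn (tn (tn (tn (tn (tl [(398, .ofNat 1), (399, .ofNat 1)]) te) te) te) (tn te (tn (tn (tl [(434, .ofNat 2)]) te) te))) te) (tn (tn (tn (tn (tn (tl [(423, .ofNat 2), (424, .ofNat 2), (425, .ofNat 2), (426, .ofNat 1)]) te) te) te) (tn (tn (tn (tl [(432, .ofNat 1)]) te) te) te)) (tn (tn (tn (tn (tl [(428, .ofNat 1), (429, .ofNat 2)]) te) te) te) te))))))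

def r168 : Tr SV := (tn (tn (tn (tn (tn (tn (tn (tn (tn (tl [(258, .ofNat 1), (259, .ofNat 2), (260, .ofNat 2), (263, .ofNat 2), (265, .ofNat 2), (266, .ofNat 2), (267, .ofNat 2), (269, .ofNat 2), (270, .ofNat 2), (271, .ofNat 1), (272, .ofNat 1), (273, .ofNat 1), (274, .ofNat 1), (275, .ofNat 2), (276, .ofNat 2), (277, .ofNat 2)]) te) te) te) (tn (tn (tn (tl [(428, .ofNat 1), (429, .ofNat 1)]) te) te) te)) te) te) (tn (tn (tn (tn (tn (tn (tl [(387, .ofNat 1), (391, .ofNat 2)]) te) te) te) te) te) (tn (tn te (tn (tn (tn (tl [(432, .ofNat 1)]) te) te) te)) te))) (tn (tn (tn (tn (tn (tn (tn (tl [(312, .ofNat 2), (314, .ofNat 2), (318, .ofNat 2), (319, .ofNat 1), (321, .ofNat 2), (323, .ofNat 1), (324, .ofNat 2), (325, .ofNat 1)]) te) te) te) te) te) (tn (tn (tn (tn (tn (tl [(409, .ofNat 2), (410, .ofNat 1), (412, .ofNat 1), (413, .ofNat 1)]) te) te) te) (tn te (tn (tn (tl [(434, .ofNat 2)]) te) te))) te)) (tn (tn (tn te (tn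 te (tn (tn (tl [(434, .ofNat 2)]) te) te))) (tn (tn (tn (tn (tl [(427, .ofNat 1)]) te) te) te) te)) (tn (tn (tn (tn (tn (tl [(424, .ofNat 2), (426, .ofNat 2)]) te) te) te) (tn (tn (tn (tl [(432, .ofNat 2), (433, .ofNat 2)]) te) te) te)) (tn (tn (tn (tn (tl [(429, .ofNat 1)]) te) te) te) te))))) (tn (tn (tn (tn (tn te (tn (tn (tn (tl [(428, .ofNat 1), (429, .ofNat 1)]) te) te) te)) te) te) (tn (tn (tn te (tn te (tn (tn (tl [(434, .ofNat 2)]) te) te))) (tn (tn (tn (tn (tl [(427, .ofNat 1)]) te) te) te) te)) (tn (tn te (tn (tn (tn (tl [(432, .ofNat 2), (433, .ofNat 2)]) te) te) te)) te))) (tn (tn (tn (tn (tn (tn (tn (tl [(358, .ofNat 1)]) te) te) te) te) te) (tn (tn (tn (tn (tn (tl [(410, .ofNat 2), (411, .ofNat 1), (412, .ofNat 1)]) te) te) te) (tn (tn (tn (tl [(432, .ofNat 2), (433, .ofNat 2)]) te) te) (tn (tn (tl [(434, .ofNat 2)]) te) te))) te)) (tn (tn (tn (tn (tn (tn (tl [(397, .ofNat 1), (398, .ofNat 2), (399, .ofNat 2),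 (400, .ofNat 2), (401, .ofNat 2)]) te) te) te) (tn te (tn (tn (tl [(434, .ofNat 1)]) te) te))) te) (tn (tn (tn (tn (tn (tl [(423, .ofNat 2), (424, .ofNat 2), (425, .ofNat 1)]) te) te) te) (tn (tn (tn (tl [(432, .ofNat 1), (433, .ofNat 1)]) te) te) te)) (tn (tn (tn (tn (tl [(429, .ofNat 2)]) te) te) te) te))))))

def r169 : Tr SV := (tn (tn (tn (tn (tn (tn (tn (tn (tn (tl [(259, .ofNat 1), (261, .ofNat 1), (262, .ofNat 2), (263, .ofNat 1), (264, .ofNat 1), (265, .ofNat 1), (267, .ofNat 2), (271, .ofNat 2), (273, .ofNat 2), (277, .ofNat 2)]) te) te) te) (tn (tn (tn (tl [(428, .ofNat 1)]) te) te) te)) te) te) (tn (tn (tn (tn (tn (tn (tl [(387, .ofNat 2), (388, .ofNat 2), (389, .ofNat 1), (391, .ofNat 2)]) te) te) te) te) te) (tn (tn te (tn (tn (tn (tl [(432, .ofNat 1), (433, .ofNat 2)]) te) te) (tn (tn (tl [(434, .ofNat 1)]) te) te))) te))) (tn (tn (tn (tn (tn (tn (tn (tl [(312, .ofNat 1), (314, .ofNat 1), (316, .ofNat 1), (318,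 .ofNat 1), (319, .ofNat 2), (320, .ofNat 2), (321, .ofNat 1), (324, .ofNat 2), (325, .ofNat 2)]) te) te) te) te) te) (tn (tn (tn (tn (tn (tl [(409, .ofNat 2), (411, .ofNat 2), (413, .ofNat 2)]) te) te) te) (tn te (tn (tn (tl [(434, .ofNat 2)]) te) te))) te)) (tn te (tn (tn (tn (tn (tn (tl [(423, .ofNat 1), (424, .ofNat 2), (425, .ofNat 2), (426, .ofNat 2)]) te) te) te) (tn (tn (tn (tl [(433, .ofNat 2)]) te) te) (tn (tn (tl [(434, .ofNat 2)]) te) te))) (tn (tn (tn (tn (tl [(428, .ofNat 1)]) te) te) te) te))))) (tn (tn (tn te (tn (tn te (tn te (tn (tn (tl [(434, .ofNat 2)]) te) te))) te)) (tn te (tn (tn te (tn (tn (tn (tl [(432, .ofNat 2), (433, .ofNat 1)]) te) te) (tn (tn (tl [(434, .ofNat 1)]) te) te))) te))) (tn (tn (tn (tn (tn (tn (tn (tl [(355, .ofNat 2), (356, .ofNat 2), (357, .ofNat 2), (359, .ofNat 1), (361, .ofNat 1), (362, .ofNat 1), (363, .ofNat 2)]) te) te) te) te) te) (tn (tn (tn (tn (tn (tl [(409, .ofNat 2), (410,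 .ofNat 2), (411, .ofNat 2)]) te) te) te) (tn (tn (tn (tl [(432, .ofNat 1), (433, .ofNat 1)]) te) te) te)) te)) (tn (tn (tn (tn (tn (tn (tl [(398, .ofNat 2), (399, .ofNat 1), (400, .ofNat 2)]) te) te) te) te) te) (tn (tn te (tn (tn (tn (tl [(433, .ofNat 2)]) te) te) te)) (tn (tn (tn (tn (tl [(429, .ofNat 2)]) te) te) te) te))))))

def r170 : Tr SV := (tn (tn (tn (tn (tn (tn (tn (tn (tn (tl [(258, .ofNat 2), (259, .ofNat 1), (260, .ofNat 1), (263, .ofNat 1), (264, .ofNat 1), (265, .ofNat 1), (266, .ofNat 2), (267, .ofNat 2), (268, .ofNat 2), (270, .ofNat 1), (271, .ofNat 1), (275, .ofNat 2), (276, .ofNat 2)]) te) te) te) (tn (tn (tn (tl [(428, .ofNat 1), (429, .ofNat 2)]) te) te) te)) te) te) (tn (tn (tn (tn (tn (tn (tl [(387, .ofNat 2), (388, .ofNat 1), (391, .ofNat 1)]) te) te) te) te) te) (tn (tn te (tn (tn (tn (tl [(432, .ofNat 1), (433, .ofNat 2)]) te) te) te)) te))) (tn (tn (tn (tn (tn (tn (tn (tl [(312, .ofNat 1), (313,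 .ofNat 1), (314, .ofNat 2), (316, .ofNat 2), (321, .ofNat 1), (322, .ofNat 2), (323, .ofNat 2), (325, .ofNat 1)]) te) te) te) te) te) (tn (tn (tn (tn (tn (tl [(410, .ofNat 2), (411, .ofNat 1)]) te) te) te) te) te)) (tn te (tn (tn (tn (tn (tn (tl [(423, .ofNat 1), (425, .ofNat 2), (426, .ofNat 1)]) te) te) te) (tn (tn (tn (tl [(432, .ofNat 1)]) te) te) te)) (tn (tn (tn (tn (tl [(428, .ofNat 2), (429, .ofNat 2)]) te) te) te) te))))) (tn (tn (tn (tn (tn te (tn (tn (tn (tl [(428, .ofNat 1), (429, .ofNat 1)]) te) te) te)) te) te) (tn te (tn (tn te (tn (tn (tn (tl [(432, .ofNat 1), (433, .ofNat 2)]) te) te) te)) te))) (tn (tn (tn (tn (tn (tn (tn (tl [(355, .ofNat 2), (356, .ofNat 2), (357, .ofNat 2), (358, .ofNat 1), (359, .ofNat 1), (361, .ofNat 1), (362, .ofNat 1), (363, .ofNat 2)]) te) te) te) te) te) (tn (tn (tn (tn (tn (tl [(409, .ofNat 2), (411, .ofNat 2), (412, .ofNat 1)]) te) te) te) (tn (tn (tn (tl [(432, .ofNat 1), (433,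 .ofNat 2)]) te) te) te)) te)) (tn (tn (tn (tn (tn (tn (tl [(397, .ofNat 1), (398, .ofNat 1), (399, .ofNat 1), (400, .ofNat 1), (401, .ofNat 1)]) te) te) te) te) te) (tn (tn (tn (tn (tn (tl [(423, .ofNat 2), (424, .ofNat 2), (425, .ofNat 1)]) te) te) te) (tn (tn (tn (tl [(433, .ofNat 1)]) te) te) te)) (tn (tn (tn (tn (tl [(429, .ofNat 1)]) te) te) te) te))))))

def r171 : Tr SV := (tn (tn (tn (tn (tn (tn (tn (tn (tn (tl [(263, .ofNat 2), (267, .ofNat 1), (274, .ofNat 2)]) te) te) te) (tn (tn (tn (tl [(428, .ofNat 2)]) te) te) te)) te) (tn (tn te (tn te (tn (tn (tl [(434, .ofNat 2)]) te) te))) te)) (tn (tn (tn (tn (tn (tn (tl [(388, .ofNat 2), (389, .ofNat 2)]) te) te) te) te) te) (tn (tn te (tn (tn (tn (tl [(433, .ofNat 2)]) te) te) (tn (tn (tl [(434, .ofNat 2)]) te) te))) te))) (tn (tn (tn (tn (tn (tn (tn (tl [(312, .ofNat 2), (315, .ofNat 1), (316, .ofNat 1), (317, .ofNat 1), (318, .ofNat 2), (320, .ofNat 2), (321, .ofNat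 2), (322, .ofNat 2), (325, .ofNat 1)]) te) te) te) te) te) (tn (tn (tn (tn (tn (tl [(409, .ofNat 1), (410, .ofNat 1), (411, .ofNat 2), (412, .ofNat 1)]) te) te) te) (tn te (tn (tn (tl [(434, .ofNat 1)]) te) te))) te)) (tn (tn (tn te (tn te (tn (tn (tl [(434, .ofNat 1)]) te) te))) te) (tn (tn (tn (tn (tn (tl [(424, .ofNat 1), (426, .ofNat 2)]) te) te) te) (tn te (tn (tn (tl [(434, .ofNat 2)]) te) te))) (tn (tn (tn (tn (tl [(428, .ofNat 1)]) te) te) te) te))))) (tn (tn (tn (tn (tn te (tn (tn (tn (tl [(428, .ofNat 1)]) te) te) te)) te) (tn (tn te (tn te (tn (tn (tl [(434, .ofNat 1)]) te) te))) te)) (tn (tn te (tn (tn (tn (tn (tl [(427, .ofNat 2)]) te) te) te) te)) (tn (tn te (tn (tn (tn (tl [(433, .ofNat 1)]) te) te) (tn (tn (tl [(434, .ofNat 1)]) te) te))) te))) (tn (tn (tn (tn (tn (tn (tn (tl [(363, .ofNat 1)]) te) te) te) te) te) (tn (tn (tn (tn (tn (tl [(409, .ofNat 1), (412, .ofNat 2), (413, .ofNat 1)]) te) te) te) (tn (tn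 (tn (tl [(432, .ofNat 1), (433, .ofNat 2)]) te) te) te)) te)) (tn (tn (tn (tn (tn (tn (tl [(397, .ofNat 1), (398, .ofNat 1), (399, .ofNat 2), (400, .ofNat 1), (401, .ofNat 1)]) te) te) te) (tn te (tn (tn (tl [(434, .ofNat 1)]) te) te))) te) (tn (tn (tn (tn (tn (tl [(424, .ofNat 2), (426, .ofNat 1)]) te) te) te) (tn (tn (tn (tl [(432, .ofNat 1), (433, .ofNat 2)]) te) te) (tn (tn (tl [(434, .ofNat 2)]) te) te))) (tn (tn (tn (tn (tl [(428, .ofNat 2), (429, .ofNat 2)]) te) te) te) te))))))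

def r172 : Tr SV := (tn (tn (tn (tn (tn (tn (tn (tn (tn (tl [(264, .ofNat 2), (270, .ofNat 1)]) te) te) te) (tn (tn (tn (tl [(428, .ofNat 1), (429, .ofNat 1)]) te) te) te)) te) te) (tn (tn (tn (tn (tn (tn (tl [(388, .ofNat 2), (390, .ofNat 2)]) te) te) te) te) te) (tn (tn te (tn (tn (tn (tl [(432, .ofNat 1), (433, .ofNat 1)]) te) te) te)) te))) (tn (tn (tn (tn (tn (tn (tn (tl [(312, .ofNat 1), (315, .ofNat 2), (318, .ofNat 2), (319, .ofNat 2), (321, .ofNat 1), (323, .ofNat 2), (324, .ofNat 2)]) te) te) te) te) te) (tn (tn (tn (tn (tn (tl [(409, .ofNat 1), (411, .ofNat 2), (413, .ofNat 1)]) te) te) te) (tn te (tn (tn (tl [(434, .ofNat 2)]) te) te))) te)) (tn (tn (tn te (tn te (tn (tn (tl [(434, .ofNat 2)]) te) te))) (tn (tn (tn (tn (tl [(427, .ofNat 1)]) te) te) te) te)) (tn (tn (tn (tn (tn (tl [(423, .ofNat 1), (425, .ofNat 2), (426, .ofNat 2)]) te) te) te) (tn te (tn (tn (tl [(434, .ofNat 2)]) te) te))) te)))) (tn (tn (tn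 (tn (tn te (tn (tn (tn (tl [(429, .ofNat 2)]) te) te) te)) te) te) (tn (tn (tn te (tn te (tn (tn (tl [(434, .ofNat 1)]) te) te))) (tn (tn (tn (tn (tl [(427, .ofNat 2)]) te) te) te) te)) (tn (tn te (tn (tn (tn (tl [(433, .ofNat 2)]) te) te) (tn (tn (tl [(434, .ofNat 2)]) te) te))) te))) (tn (tn (tn (tn (tn (tn (tn (tl [(358, .ofNat 1), (361, .ofNat 1)]) te) te) te) te) te) (tn (tn (tn (tn (tn (tl [(410, .ofNat 1), (411, .ofNat 1), (412, .ofNat 2), (413, .ofNat 2)]) te) te) te) (tn (tn (tn (tl [(433, .ofNat 1)]) te) te) te)) te)) (tn (tn (tn (tn (tn (tn (tl [(397, .ofNat 2), (398, .ofNat 1), (399, .ofNat 1)]) te) te) te) (tn te (tn (tn (tl [(434, .ofNat 1)]) te) te))) te) (tn (tn (tn (tn (tn (tl [(423, .ofNat 2), (425, .ofNat 2)]) te) te) te) (tn te (tn (tn (tl [(434, .ofNat 1)]) te) te))) (tn (tn (tn (tn (tl [(429, .ofNat 2)]) te) te) te) te))))))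

def r173 : Tr SV := (tn (tn (tn (tn (tn (tn (tn (tn (tn (tl [(265, .ofNat 2), (274, .ofNat 1), (275, .ofNat 1)]) te) te) te) (tn (tn (tn (tl [(428, .ofNat 1), (429, .ofNat 2)]) te) te) te)) te) te) (tn (tn (tn (tn (tn (tn (tl [(388, .ofNat 1), (389, .ofNat 2), (390, .ofNat 2), (391, .ofNat 2)]) te) te) te) te) te) (tn (tn te (tn (tn (tn (tl [(432, .ofNat 2), (433, .ofNat 2)]) te) te) (tn (tn (tl [(434, .ofNat 1)]) te) te))) te))) (tn (tn (tn (tn (tn (tn (tn (tl [(313, .ofNat 2), (315, .ofNat 1), (316, .ofNat 2), (317, .ofNat 1), (318, .ofNat 2), (319, .ofNat 2), (321, .ofNat 1), (324, .ofNat 1), (325, .ofNat 1)]) te) te) te) te) te) (tn (tn (tn (tn (tn (tl [(409, .ofNat 1), (412, .ofNat 2), (413, .ofNat 2)]) te) te) te) (tn te (tn (tn (tl [(434, .ofNat 1)]) te) te))) te)) (tn (tn (tn te (tn te (tn (tn (tl [(434, .ofNat 2)]) te) te))) (tn (tn (tn (tn (tl [(427, .ofNat 2)]) te) te) te) te)) (tn (tn (tn (tn (tn (tl [(423, .ofNat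 1), (424, .ofNat 1), (425, .ofNat 2), (426, .ofNat 2)]) te) te) te) (tn (tn (tn (tl [(433, .ofNat 2)]) te) te) te)) (tn (tn (tn (tn (tl [(429, .ofNat 1)]) te) te) te) te))))) (tn (tn (tn (tn (tn te (tn (tn (tn (tl [(428, .ofNat 2)]) te) te) te)) te) (tn (tn te (tn te (tn (tn (tl [(434, .ofNat 2)]) te) te))) te)) (tn (tn (tn te (tn te (tn (tn (tl [(434, .ofNat 2)]) te) te))) (tn (tn (tn (tn (tl [(427, .ofNat 2)]) te) te) te) te)) (tn (tn te (tn (tn (tn (tl [(432, .ofNat 2)]) te) te) (tn (tn (tl [(434, .ofNat 2)]) te) te))) te))) (tn (tn (tn (tn (tn (tn (tn (tl [(355, .ofNat 2), (356, .ofNat 2), (357, .ofNat 1), (359, .ofNat 1), (361, .ofNat 1), (362, .ofNat 2), (363, .ofNat 2)]) te) te) te) te) te) (tn (tn (tn (tn (tn (tl [(409, .ofNat 1), (410, .ofNat 1), (412, .ofNat 1), (413, .ofNat 1)]) te) te) te) (tn (tn (tn (tl [(432, .ofNat 2)]) te) te) te)) te)) (tn (tn (tn (tn (tn (tn (tl [(397, .ofNat 2), (398, .ofNat 2), (399, .ofNat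 2), (400, .ofNat 2), (401, .ofNat 2)]) te) te) te) (tn te (tn (tn (tl [(434, .ofNat 2)]) te) te))) te) (tn (tn (tn (tn (tn (tl [(423, .ofNat 1), (424, .ofNat 1), (426, .ofNat 2)]) te) te) te) (tn (tn (tn (tl [(432, .ofNat 2), (433, .ofNat 1)]) te) te) (tn (tn (tl [(434, .ofNat 1)]) te) te))) (tn (tn (tn (tn (tl [(428, .ofNat 2)]) te) te) te) te))))))

def r174 : Tr SV := (tn (tn (tn (tn (tn (tn (tn (tn (tn (tl [(258, .ofNat 1), (259, .ofNat 1), (260, .ofNat 1), (262, .ofNat 2), (263, .ofNat 2), (264, .ofNat 1), (265, .ofNat 2), (266, .ofNat 1), (267, .ofNat 2), (268, .ofNat 2), (269, .ofNat 1), (270, .ofNat 1), (271, .ofNat 2), (272, .ofNat 1), (275, .ofNat 1), (276, .ofNat 1)]) te) te) te) te) te) (tn (tn te (tn te (tn (tn (tl [(434, .ofNat 2)]) te) te))) te)) (tn (tn (tn (tn (tn (tn (tl [(387, .ofNat 2), (388, .ofNat 2), (390, .ofNat 1), (391, .ofNat 1)]) te) te) te) te) te) (tn (tn te (tn te (tn (tn (tl [(434, .ofNat 2)])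 te) te))) te))) (tn (tn (tn (tn (tn (tn (tn (tl [(312, .ofNat 1), (313, .ofNat 2), (314, .ofNat 1), (316, .ofNat 1), (317, .ofNat 1), (318, .ofNat 1), (320, .ofNat 2), (321, .ofNat 1), (322, .ofNat 1)]) te) te) te) te) te) (tn (tn (tn (tn (tn (tl [(409, .ofNat 1), (410, .ofNat 1), (411, .ofNat 1), (412, .ofNat 1), (413, .ofNat 2)]) te) te) te) (tn te (tn (tn (tl [(434, .ofNat 1)]) te) te))) te)) (tn (tn (tn te (tn te (tn (tn (tl [(434, .ofNat 2)]) te) te))) (tn (tn (tn (tn (tl [(427, .ofNat 2)]) te) te) te) te)) (tn (tn (tn (tn (tn (tl [(423, .ofNat 1), (424, .ofNat 2), (426, .ofNat 2)]) te) te) te) (tn (tn (tn (tl [(432, .ofNat 2), (433, .ofNat 1)]) te) te) (tn (tn (tl [(434, .ofNat 1)]) te) te))) (tn (tn (tn (tn (tl [(428, .ofNat 1)]) te) te) te) te))))) (tn (tn (tn (tn (tn te (tn (tn (tn (tl [(429, .ofNat 1)]) te) te) te)) te) te) (tn (tn (tn te (tn te (tn (tn (tl [(434, .ofNat 2)]) te) te))) (tn (tn (tn (tn (tl [(427, .ofNat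 1)]) te) te) te) te)) (tn (tn te (tn te (tn (tn (tl [(434, .ofNat 1)]) te) te))) te))) (tn (tn (tn (tn (tn (tn (tn (tl [(358, .ofNat 1), (360, .ofNat 2), (361, .ofNat 1), (363, .ofNat 1)]) te) te) te) te) te) (tn (tn (tn (tn (tn (tl [(409, .ofNat 1), (410, .ofNat 1), (411, .ofNat 2), (413, .ofNat 2)]) te) te) te) (tn (tn (tn (tl [(433, .ofNat 2)]) te) te) (tn (tn (tl [(434, .ofNat 2)]) te) te))) te)) (tn (tn (tn (tn (tn (tn (tl [(398, .ofNat 1), (399, .ofNat 1), (400, .ofNat 2), (401, .ofNat 2)]) te) te) te) (tn te (tn (tn (tl [(434, .ofNat 1)]) te) te))) te) (tn (tn (tn (tn (tn (tl [(423, .ofNat 2), (425, .ofNat 2), (426, .ofNat 1)]) te) te) te) (tn (tn (tn (tl [(433, .ofNat 1)]) te) te) (tn (tn (tl [(434, .ofNat 2)]) te) te))) (tn (tn (tn (tn (tl [(428, .ofNat 2)]) te) te) te) te))))))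

def r175 : Tr SV := (tn (tn (tn (tn (tn (tn (tn (tn (tn (tl [(278, .ofNat 2), (279, .ofNat 2), (281, .ofNat 1), (282, .ofNat 2), (283, .ofNat 1), (284, .ofNat 1), (285, .ofNat 2), (287, .ofNat 2), (288, .ofNat 1), (290, .ofNat 1)]) te) te) te) te) te) (tn (tn te (tn (tn (tn (tl [(432, .ofNat 1), (433, .ofNat 2)]) te) te) te)) te)) (tn (tn te (tn (tn (tn (tn (tl [(427, .ofNat 1)]) te) te) te) te)) (tn (tn (tn (tn (tn (tl [(420, .ofNat 2), (421, .ofNat 2), (422, .ofNat 2)]) te) te) te) te) (tn (tn te (tn (tn (tl [(434, .ofNat 1)]) te) te)) te)))) (tn (tn (tn (tn te (tn te (tn (tn (tl [(434, .ofNat 1)]) te) te))) te) (tn (tn (tn (tn (tn (tl [(414, .ofNat 2), (417, .ofNat 2)]) te) te) te) te) te)) (tn (tn (tn (tn (tn (tn (tl [(398, .ofNat 2), (400, .ofNat 1), (401, .ofNat 2)]) te) te) te) (tn (tn (tn (tl [(431, .ofNat 1)]) te) te) te)) te) te))) (tn (tn (tn (tn (tn (tn (tn (tn (tl [(292, .ofNat 1), (293, .ofNat 2), (294, .ofNat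 1), (298, .ofNat 1), (300, .ofNat 1), (302, .ofNat 1), (304, .ofNat 2), (305, .ofNat 1), (306, .ofNat 1), (307, .ofNat 2), (308, .ofNat 2), (309, .ofNat 2), (311, .ofNat 2)]) te) te) te) te) te) (tn (tn te (tn (tn (tn (tl [(433, .ofNat 2)]) te) te) te)) te)) (tn (tn (tn (tn (tn (tn (tl [(392, .ofNat 2), (393, .ofNat 2), (394, .ofNat 1)]) te) te) te) (tn (tn (tn (tl [(430, .ofNat 1)]) te) te) te)) te) (tn (tn (tn (tn (tn (tl [(419, .ofNat 1), (421, .ofNat 2)]) te) te) te) te) (tn (tn te (tn (tn (tl [(434, .ofNat 2)]) te) te)) te)))) (tn (tn (tn (tn (tn (tn (tn (tl [(364, .ofNat 1), (365, .ofNat 2), (367, .ofNat 1), (368, .ofNat 2), (370, .ofNat 1), (372, .ofNat 1), (373, .ofNat 2), (374, .ofNat 1)]) te) te) te) (tn (tn (tn (tl [(430, .ofNat 2), (431, .ofNat 1)]) te) te) (tn (tn (tl [(434, .ofNat 2)]) te) te))) te) (tn (tn (tn (tn (tn (tl [(414, .ofNat 1)]) te) te) te) te) (tn (tn te (tn (tn (tl [(434, .ofNat 2)]) te) te)) te)))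 (tn (tn (tn te (tn (tn (tn (tl [(433, .ofNat 1)]) te) te) te)) te) (tn te (tn (tn te (tn (tn (tl [(434, .ofNat 1)]) te) te)) te))))))

def r176 : Tr SV := (tn (tn (tn (tn (tn (tn (tn (tn (tn (tl [(278, .ofNat 2), (279, .ofNat 1), (280, .ofNat 1), (282, .ofNat 1), (284, .ofNat 1), (286, .ofNat 1), (288, .ofNat 1), (289, .ofNat 2), (290, .ofNat 2), (291, .ofNat 2)]) te) te) te) te) te) (tn (tn te (tn (tn (tn (tl [(433, .ofNat 2)]) te) te) te)) te)) (tn (tn (tn te (tn te (tn (tn (tl [(434, .ofNat 1)]) te) te))) (tn (tn (tn (tn (tl [(427, .ofNat 2)]) te) te) te) te)) (tn (tn (tn (tn (tn (tl [(419, .ofNat 2), (421, .ofNat 2), (422, .ofNat 1)]) te) te) te) te) te))) (tn (tn (tn (tn te (tn (tn (tn (tl [(430, .ofNat 2), (431, .ofNat 1)]) te) te) te)) te) (tn (tn (tn (tn (tn (tl [(414, .ofNat 2), (415, .ofNat 1), (416, .ofNat 1)]) te) te) te) te) (tn (tn te (tn (tn (tl [(434, .ofNat 2)]) te) te)) te))) (tn (tn (tn (tn (tn (tn (tl [(399,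 .ofNat 2), (400, .ofNat 1), (401, .ofNat 2)]) te) te) te) te) te) (tn te (tn (tn te (tn (tn (tl [(434, .ofNat 1)]) te) te)) te))))) (tn (tn (tn (tn (tn (tn (tn (tn (tl [(292, .ofNat 1), (293, .ofNat 2), (297, .ofNat 2), (298, .ofNat 1), (300, .ofNat 2), (301, .ofNat 1), (304, .ofNat 1), (307, .ofNat 2), (308, .ofNat 1), (309, .ofNat 1), (310, .ofNat 1), (311, .ofNat 1)]) te) te) te) (tn te (tn (tn (tl [(434, .ofNat 2)]) te) te))) te) (tn (tn te (tn (tn (tn (tl [(433, .ofNat 1)]) te) te) te)) te)) (tn (tn (tn (tn (tn (tn (tl [(392, .ofNat 1), (394, .ofNat 2), (395, .ofNat 1), (396, .ofNat 1)]) te) te) te) (tn (tn (tn (tl [(431, .ofNat 1)]) te) te) te)) te) (tn (tn (tn (tn (tn (tl [(418, .ofNat 2), (419, .ofNat 1), (420, .ofNat 2), (421, .ofNat 2), (422, .ofNat 1)]) te) te) te) te) (tn (tn te (tn (tn (tl [(434, .ofNat 1)]) te) te)) te)))) (tn (tn (tn (tn (tn (tn (tn (tl [(365, .ofNat 1), (366, .ofNat 1), (368, .ofNat 2), (369,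 .ofNat 2), (370, .ofNat 2), (374, .ofNat 1)]) te) te) te) (tn (tn (tn (tl [(430, .ofNat 1), (431, .ofNat 1)]) te) te) te)) (tn (tn (tn (tn (tl [(427, .ofNat 1)]) te) te) te) te)) (tn (tn (tn (tn (tn (tl [(415, .ofNat 2), (416, .ofNat 2), (417, .ofNat 1)]) te) te) te) te) (tn (tn te (tn (tn (tl [(434, .ofNat 1)]) te) te)) te))) (tn (tn (tn te (tn (tn (tn (tl [(432, .ofNat 1), (433, .ofNat 1)]) te) te) te)) te) (tn te (tn (tn te (tn (tn (tl [(434, .ofNat 1)]) te) te)) te))))))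

def r177 : Tr SV := (tn (tn (tn (tn (tn (tn (tn (tn (tn (tl [(278, .ofNat 1), (280, .ofNat 2), (283, .ofNat 1), (284, .ofNat 2), (285, .ofNat 2), (286, .ofNat 2), (288, .ofNat 1)]) te) te) te) (tn te (tn (tn (tl [(434, .ofNat 1)]) te) te))) te) (tn (tn te (tn (tn (tn (tl [(433, .ofNat 1)]) te) te) te)) te)) (tn (tn (tn te (tn (tn (tn (tl [(431, .ofNat 2)]) te) te) (tn (tn (tl [(434, .ofNat 1)]) te) te))) te) (tn (tn (tn (tn (tn (tl [(418, .ofNat 2), (419, .ofNat 1), (420, .ofNat 2), (421, .ofNat 1), (422, .ofNat 1)]) te) te) te) te) (tn (tn te (tn (tn (tl [(434, .ofNat 2)]) te) te)) te)))) (tn (tn (tn (tn te (tn te (tn (tn (tl [(434, .ofNat 1)]) te) te))) te) (tn (tn (tn (tn (tn (tl [(414, .ofNat 1), (415, .ofNat 1)]) te) te) te) (tn (tn (tn (tl [(432, .ofNat 2), (433, .ofNat 2)]) te) te) te)) te)) (tn (tn (tn (tn (tn (tn (tl [(397, .ofNat 2), (398, .ofNat 1), (400, .ofNat 2)]) te) te) te) (tn (tn (tn (tl [(431, .ofNat 1)])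 te) te) te)) te) (tn te (tn (tn te (tn (tn (tl [(434, .ofNat 1)]) te) te)) te))))) (tn (tn (tn (tn (tn (tn (tn (tn (tl [(292, .ofNat 1), (293, .ofNat 1), (294, .ofNat 2), (295, .ofNat 1), (296, .ofNat 2), (297, .ofNat 1), (298, .ofNat 2), (300, .ofNat 2), (301, .ofNat 1), (302, .ofNat 2), (303, .ofNat 1), (304, .ofNat 2), (305, .ofNat 1), (306, .ofNat 2), (308, .ofNat 1), (309, .ofNat 1), (310, .ofNat 1)]) te) te) te) (tn te (tn (tn (tl [(434, .ofNat 2)]) te) te))) te) (tn (tn te (tn (tn (tn (tl [(432, .ofNat 2), (433, .ofNat 2)]) te) te) te)) te)) (tn (tn (tn (tn (tn (tn (tl [(392, .ofNat 1), (394, .ofNat 1), (395, .ofNat 2), (396, .ofNat 1)]) te) te) te) (tn (tn (tn (tl [(430, .ofNat 1), (431, .ofNat 1)]) te) te) te)) te) (tn (tn (tn (tn (tn (tl [(418, .ofNat 1), (419, .ofNat 1), (421, .ofNat 2), (422, .ofNat 2)]) te) te) te) te) (tn (tn te (tn (tn (tl [(434, .ofNat 2)]) te) te)) te)))) (tn (tn (tn (tn (tn (tn (tn (tl [(364,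 .ofNat 2), (365, .ofNat 1), (366, .ofNat 2), (367, .ofNat 2), (368, .ofNat 2), (369, .ofNat 1), (370, .ofNat 1), (371, .ofNat 1), (372, .ofNat 2), (373, .ofNat 2)]) te) te) te) (tn te (tn (tn (tl [(434, .ofNat 1)]) te) te))) te) (tn (tn (tn (tn (tn (tl [(415, .ofNat 1), (416, .ofNat 1), (417, .ofNat 2)]) te) te) te) te) te)) (tn (tn (tn te (tn (tn (tn (tl [(432, .ofNat 1)]) te) te) te)) te) te))))

def r178 : Tr SV := (tn (tn (tn (tn (tn (tn (tn (tn (tn (tl [(278, .ofNat 1), (279, .ofNat 2), (280, .ofNat 2), (281, .ofNat 2), (282, .ofNat 2), (284, .ofNat 1), (285, .ofNat 1), (288, .ofNat 1), (290, .ofNat 1), (291, .ofNat 1)]) te) te) te) (tn te (tn (tn (tl [(434, .ofNat 2)]) te) te))) te) (tn (tn te (tn (tn (tn (tl [(432, .ofNat 2)]) te) te) te)) te)) (tn (tn (tn te (tn (tn (tn (tl [(430, .ofNat 2), (431, .ofNat 2)]) te) te) (tn (tn (tl [(434, .ofNat 1)]) te) te))) (tn (tn (tn (tn (tl [(427, .ofNat 1)]) te) te) te) te)) (tn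 (tn (tn (tn (tn (tl [(418, .ofNat 1), (419, .ofNat 1), (422, .ofNat 2)]) te) te) te) te) (tn (tn te (tn (tn (tl [(434, .ofNat 1)]) te) te)) te)))) (tn (tn (tn (tn te (tn (tn (tn (tl [(430, .ofNat 2), (431, .ofNat 1)]) te) te) te)) te) (tn (tn (tn (tn (tn (tl [(415, .ofNat 2), (416, .ofNat 1)]) te) te) te) (tn (tn (tn (tl [(432, .ofNat 1), (433, .ofNat 1)]) te) te) te)) te)) (tn (tn (tn (tn (tn (tn (tl [(397, .ofNat 2), (399, .ofNat 1), (400, .ofNat 2), (401, .ofNat 1)]) te) te) te) (tn (tn (tn (tl [(430, .ofNat 2), (431, .ofNat 2)]) te) te) te)) te) (tn te (tn (tn te (tn (tn (tl [(434, .ofNat 1)]) te) te)) te))))) (tn (tn (tn (tn (tn (tn (tn (tn (tl [(292, .ofNat 2), (293, .ofNat 1), (294, .ofNat 2), (296, .ofNat 2), (297, .ofNat 1), (298, .ofNat 2), (302, .ofNat 1), (303, .ofNat 2), (304, .ofNat 1), (306, .ofNat 1), (307, .ofNat 1), (308, .ofNat 2), (309, .ofNat 1), (310, .ofNat 2), (311, .ofNat 1)]) te) te) te) (tn te (tn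 (tn (tl [(434, .ofNat 1)]) te) te))) te) (tn (tn te (tn (tn (tn (tl [(432, .ofNat 1), (433, .ofNat 2)]) te) te) te)) te)) (tn (tn (tn (tn (tn (tn (tl [(393, .ofNat 1), (394, .ofNat 2), (396, .ofNat 1)]) te) te) te) (tn (tn (tn (tl [(431, .ofNat 2)]) te) te) te)) te) (tn (tn (tn (tn (tn (tl [(420, .ofNat 1), (422, .ofNat 2)]) te) te) te) te) (tn (tn te (tn (tn (tl [(434, .ofNat 2)]) te) te)) te)))) (tn (tn (tn (tn (tn (tn (tn (tl [(364, .ofNat 1), (366, .ofNat 1), (367, .ofNat 1), (368, .ofNat 1), (369, .ofNat 2), (370, .ofNat 2), (371, .ofNat 2), (372, .ofNat 1), (373, .ofNat 1)]) te) te) te) (tn (tn (tn (tl [(431, .ofNat 1)]) te) te) (tn (tn (tl [(434, .ofNat 2)]) te) te))) te) (tn (tn (tn (tn (tn (tl [(415, .ofNat 2)]) te) te) te) te) (tn (tn te (tn (tn (tl [(434, .ofNat 2)]) te) te)) te))) (tn te (tn te (tn (tn te (tn (tn (tl [(434, .ofNat 2)]) te) te)) te))))))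

def r179 : Tr SV := (tn (tn (tn (tn (tn (tn (tn (tn (tn (tl [(278, .ofNat 1), (280, .ofNat 2), (281, .ofNat 2), (282, .ofNat 1), (284, .ofNat 2), (286, .ofNat 2), (287, .ofNat 1), (288, .ofNat 2), (290, .ofNat 1), (291, .ofNat 1)]) te) te) te) (tn te (tn (tn (tl [(434, .ofNat 1)]) te) te))) te) (tn (tn te (tn (tn (tn (tl [(432, .ofNat 2), (433, .ofNat 2)]) te) te) te)) te)) (tn (tn (tn te (tn (tn (tn (tl [(431, .ofNat 1)]) te) te) (tn (tn (tl [(434, .ofNat 1)]) te) te))) te) (tn (tn (tn (tn (tn (tl [(420, .ofNat 1), (421, .ofNat 2)]) te) te) te) te) (tn (tn te (tn (tn (tl [(434, .ofNat 2)]) te) te)) te)))) (tn (tn (tn (tn te (tn (tn (tn (tl [(431, .ofNat 1)]) te) te) (tn (tn (tl [(434, .ofNat 1)]) te) te))) te) (tn (tn (tn (tn (tn (tl [(414, .ofNat 2), (416, .ofNat 1), (417, .ofNat 1)]) te) te) te) (tn (tn (tn (tl [(432, .ofNat 1), (433, .ofNat 1)]) te) te) te)) te)) (tn (tn (tn (tn (tn (tn (tl [(398, .ofNat 2), (399, .ofNat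 1), (401, .ofNat 1)]) te) te) te) (tn (tn (tn (tl [(431, .ofNat 2)]) te) te) te)) te) (tn te (tn (tn te (tn (tn (tl [(434, .ofNat 1)]) te) te)) te))))) (tn (tn (tn (tn (tn (tn (tn (tn (tl [(292, .ofNat 2), (293, .ofNat 1), (296, .ofNat 2), (298, .ofNat 1), (299, .ofNat 1), (301, .ofNat 1), (302, .ofNat 1), (303, .ofNat 1), (305, .ofNat 2), (307, .ofNat 1), (309, .ofNat 2), (310, .ofNat 2)]) te) te) te) (tn te (tn (tn (tl [(434, .ofNat 2)]) te) te))) te) (tn (tn te (tn (tn (tn (tl [(433, .ofNat 1)]) te) te) te)) te)) (tn (tn (tn (tn (tn (tn (tl [(393, .ofNat 1), (394, .ofNat 1), (395, .ofNat 2), (396, .ofNat 1)]) te) te) te) (tn (tn (tn (tl [(430, .ofNat 2)]) te) te) te)) te) (tn (tn (tn (tn (tn (tl [(418, .ofNat 1), (419, .ofNat 2), (420, .ofNat 1), (421, .ofNat 1)]) te) te) te) te) (tn (tn te (tn (tn (tl [(434, .ofNat 2)]) te) te)) te)))) (tn (tn (tn (tn (tn (tn (tn (tl [(365, .ofNat 1), (366, .ofNat 2), (369, .ofNat 2), (370,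 .ofNat 1), (371, .ofNat 1)]) te) te) te) (tn (tn (tn (tl [(430, .ofNat 1)]) te) te) (tn (tn (tl [(434, .ofNat 1)]) te) te))) te) (tn (tn (tn (tn (tn (tl [(414, .ofNat 2), (415, .ofNat 2), (416, .ofNat 2), (417, .ofNat 1)]) te) te) te) te) te)) (tn (tn (tn te (tn (tn (tn (tl [(432, .ofNat 2), (433, .ofNat 2)]) te) te) te)) te) te))))

def r180 : Tr SV := (tn (tn (tn (tn (tn (tn (tn (tn (tn (tl [(278, .ofNat 1), (280, .ofNat 1), (282, .ofNat 1), (285, .ofNat 2), (286, .ofNat 1), (287, .ofNat 1), (288, .ofNat 1), (289, .ofNat 1), (291, .ofNat 1)]) te) te) te) (tn te (tn (tn (tl [(434, .ofNat 2)]) te) te))) te) (tn (tn te (tn (tn (tn (tl [(432, .ofNat 2), (433, .ofNat 1)]) te) te) te)) te)) (tn (tn (tn te (tn (tn (tn (tl [(431, .ofNat 2)]) te) te) te)) te) (tn (tn (tn (tn (tn (tl [(418, .ofNat 1), (419, .ofNat 1), (420, .ofNat 2), (421, .ofNat 1)]) te) te) te) te) (tn (tn te (tn (tn (tl [(434, .ofNat 1)]) te) te)) te)))) (tn (tn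 (tn (tn te (tn (tn (tn (tl [(430, .ofNat 2), (431, .ofNat 2)]) te) te) (tn (tn (tl [(434, .ofNat 1)]) te) te))) te) (tn (tn (tn (tn (tn (tl [(417, .ofNat 1)]) te) te) te) te) (tn (tn te (tn (tn (tl [(434, .ofNat 2)]) te) te)) te))) (tn (tn (tn (tn (tn (tn (tl [(397, .ofNat 2), (400, .ofNat 2)]) te) te) te) (tn (tn (tn (tl [(431, .ofNat 1)]) te) te) te)) te) (tn te (tn (tn te (tn (tn (tl [(434, .ofNat 2)]) te) te)) te))))) (tn (tn (tn (tn (tn (tn (tn (tn (tl [(292, .ofNat 2), (293, .ofNat 2), (295, .ofNat 1), (297, .ofNat 1), (299, .ofNat 2), (300, .ofNat 1), (302, .ofNat 2), (303, .ofNat 2), (305, .ofNat 1), (307, .ofNat 2), (308, .ofNat 2), (309, .ofNat 1), (310, .ofNat 2), (311, .ofNat 1)]) te) te) te) te) te) (tn (tn te (tn (tn (tn (tl [(432, .ofNat 1), (433, .ofNat 2)]) te) te) te)) te)) (tn (tn (tn (tn (tn (tn (tl [(394, .ofNat 1), (395, .ofNat 1), (396, .ofNat 1)]) te) te) te) (tn (tn (tn (tl [(430, .ofNat 2), (431, .ofNat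 1)]) te) te) te)) te) (tn (tn (tn (tn (tn (tl [(419, .ofNat 1), (420, .ofNat 2), (421, .ofNat 1), (422, .ofNat 2)]) te) te) te) te) (tn (tn te (tn (tn (tl [(434, .ofNat 1)]) te) te)) te)))) (tn (tn (tn (tn (tn (tn (tn (tl [(364, .ofNat 2), (366, .ofNat 1), (367, .ofNat 2), (369, .ofNat 2), (370, .ofNat 2), (372, .ofNat 2), (373, .ofNat 2)]) te) te) te) (tn (tn (tn (tl [(430, .ofNat 1), (431, .ofNat 2)]) te) te) (tn (tn (tl [(434, .ofNat 2)]) te) te))) te) (tn (tn (tn (tn (tn (tl [(414, .ofNat 1), (415, .ofNat 1), (416, .ofNat 1)]) te) te) te) te) (tn (tn te (tn (tn (tl [(434, .ofNat 1)]) te) te)) te))) (tn (tn (tn te (tn (tn (tn (tl [(433, .ofNat 1)]) te) te) te)) te) (tn te (tn (tn te (tn (tn (tl [(434, .ofNat 2)]) te) te)) te))))))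

def r181 : Tr SV := (tn (tn (tn (tn (tn (tn (tn (tn (tn (tl [(279, .ofNat 1), (280, .ofNat 2), (282, .ofNat 1), (283, .ofNat 1), (285, .ofNat 1), (286, .ofNat 1), (288, .ofNat 1), (289, .ofNat 1), (290, .ofNat 1)]) te) te) te) (tn te (tn (tn (tl [(434, .ofNat 2)]) te) te))) te) (tn (tn te (tn (tn (tn (tl [(432, .ofNat 2), (433, .ofNat 1)]) te) te) te)) te)) (tn (tn (tn te (tn (tn (tn (tl [(430, .ofNat 1), (431, .ofNat 2)]) te) te) (tn (tn (tl [(434, .ofNat 1)]) te) te))) (tn (tn (tn (tn (tl [(427, .ofNat 1)]) te) te) te) te)) (tn (tn (tn (tn (tn (tl [(418, .ofNat 1), (419, .ofNat 2), (421, .ofNat 1), (422, .ofNat 2)]) te) te) te) te) (tn (tn te (tn (tn (tl [(434, .ofNat 1)]) te) te)) te)))) (tn (tn (tn (tn te (tn (tn (tn (tl [(430, .ofNat 2), (431, .ofNat 1)]) te) te) te)) te) (tn (tn (tn (tn (tn (tl [(414, .ofNat 2), (415, .ofNat 2), (416, .ofNat 2)]) te) te) te) (tn (tn (tn (tl [(433, .ofNat 2)]) te) te) te)) (tn (tn te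 (tn (tn (tl [(434, .ofNat 1)]) te) te)) te))) (tn te (tn te (tn (tn te (tn (tn (tl [(434, .ofNat 1)]) te) te)) te))))) (tn (tn (tn (tn (tn (tn (tn (tn (tl [(293, .ofNat 2), (297, .ofNat 2), (298, .ofNat 1), (301, .ofNat 1), (302, .ofNat 2), (303, .ofNat 2), (304, .ofNat 1), (305, .ofNat 2), (306, .ofNat 2), (308, .ofNat 1), (309, .ofNat 1), (310, .ofNat 1), (311, .ofNat 1)]) te) te) te) te) te) (tn (tn te (tn (tn (tn (tl [(432, .ofNat 2), (433, .ofNat 1)]) te) te) te)) te)) (tn (tn (tn (tn (tn (tn (tl [(392, .ofNat 2), (393, .ofNat 1), (394, .ofNat 1), (395, .ofNat 1), (396, .ofNat 2)]) te) te) te) (tn (tn (tn (tl [(430, .ofNat 2), (431, .ofNat 2)]) te) te) te)) te) (tn (tn (tn (tn (tn (tl [(418, .ofNat 2), (419, .ofNat 2), (420, .ofNat 1), (422, .ofNat 1)]) te) te) te) te) (tn (tn te (tn (tn (tl [(434, .ofNat 1)]) te) te)) te)))) (tn (tn (tn (tn (tn (tn (tn (tl [(364, .ofNat 1), (365, .ofNat 2), (366, .ofNat 1), (367, .ofNat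 1), (368, .ofNat 1), (370, .ofNat 2), (371, .ofNat 2), (372, .ofNat 1), (373, .ofNat 1)]) te) te) te) (tn (tn (tn (tl [(430, .ofNat 2), (431, .ofNat 1)]) te) te) te)) (tn (tn (tn (tn (tl [(427, .ofNat 1)]) te) te) te) te)) (tn (tn (tn (tn (tn (tl [(414, .ofNat 2), (415, .ofNat 1), (416, .ofNat 2)]) te) te) te) te) (tn (tn te (tn (tn (tl [(434, .ofNat 2)]) te) te)) te))) (tn te (tn te (tn (tn te (tn (tn (tl [(434, .ofNat 2)]) te) te)) te))))))

def r182 : Tr SV := (tn (tn (tn (tn (tn (tn (tn (tn (tn (tl [(278, .ofNat 2), (279, .ofNat 2), (280, .ofNat 2), (281, .ofNat 1), (282, .ofNat 2), (283, .ofNat 1), (284, .ofNat 1), (286, .ofNat 1), (288, .ofNat 2), (290, .ofNat 1)]) te) te) te) (tn te (tn (tn (tl [(434, .ofNat 2)]) te) te))) te) (tn (tn te (tn (tn (tn (tl [(432, .ofNat 1), (433, .ofNat 2)]) te) te) te)) te)) (tn (tn (tn te (tn (tn (tn (tl [(430, .ofNat 1)]) te) te) (tn (tn (tl [(434, .ofNat 2)]) te) te))) (tn (tn (tn (tn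 (tl [(427, .ofNat 2)]) te) te) te) te)) (tn (tn (tn (tn (tn (tl [(418, .ofNat 1), (419, .ofNat 1), (420, .ofNat 2), (422, .ofNat 2)]) te) te) te) te) (tn (tn te (tn (tn (tl [(434, .ofNat 1)]) te) te)) te)))) (tn (tn (tn (tn te (tn (tn (tn (tl [(431, .ofNat 1)]) te) te) te)) te) (tn (tn (tn (tn (tn (tl [(417, .ofNat 1)]) te) te) te) (tn (tn (tn (tl [(432, .ofNat 2)]) te) te) te)) te)) (tn (tn (tn (tn (tn (tn (tl [(397, .ofNat 1), (398, .ofNat 2), (399, .ofNat 1), (400, .ofNat 2)]) te) te) te) (tn (tn (tn (tl [(430, .ofNat 2), (431, .ofNat 2)]) te) te) te)) te) (tn te (tn (tn te (tn (tn (tl [(434, .ofNat 1)]) te) te)) te))))) (tn (tn (tn (tn (tn (tn (tn (tn (tl [(292, .ofNat 1), (293, .ofNat 1), (294, .ofNat 2), (296, .ofNat 2), (297, .ofNat 1), (299, .ofNat 1), (300, .ofNat 2), (301, .ofNat 2), (303, .ofNat 1), (304, .ofNat 1), (306, .ofNat 2), (308, .ofNat 1), (309, .ofNat 1), (310, .ofNat 1)]) te) te) te) (tn te (tn (tn (tl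 [(434, .ofNat 1)]) te) te))) te) (tn (tn te (tn (tn (tn (tl [(433, .ofNat 1)]) te) te) te)) te)) (tn (tn (tn (tn (tn (tn (tl [(392, .ofNat 1), (393, .ofNat 2), (394, .ofNat 2), (395, .ofNat 1), (396, .ofNat 1)]) te) te) te) (tn (tn (tn (tl [(431, .ofNat 1)]) te) te) te)) te) (tn (tn (tn (tn (tn (tl [(419, .ofNat 2), (420, .ofNat 2), (421, .ofNat 2), (422, .ofNat 1)]) te) te) te) te) te))) (tn (tn (tn (tn (tn (tn (tn (tl [(365, .ofNat 1), (366, .ofNat 1), (369, .ofNat 2), (370, .ofNat 2), (371, .ofNat 1)]) te) te) te) (tn (tn (tn (tl [(430, .ofNat 2), (431, .ofNat 1)]) te) te) (tn (tn (tl [(434, .ofNat 1)]) te) te))) te) (tn (tn (tn (tn (tn (tl [(416, .ofNat 1), (417, .ofNat 2)]) te) te) te) te) (tn (tn te (tn (tn (tl [(434, .ofNat 2)]) te) te)) te))) (tn (tn (tn te (tn (tn (tn (tl [(432, .ofNat 1)]) te) te) te)) te) (tn te (tn (tn te (tn (tn (tl [(434, .ofNat 2)]) te) te)) te))))))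

def r183 : Tr SV := (tn (tn (tn (tn (tn (tn (tn (tn (tn (tl [(278, .ofNat 2), (279, .ofNat 2), (282, .ofNat 2), (284, .ofNat 2), (285, .ofNat 1), (286, .ofNat 2), (287, .ofNat 1), (289, .ofNat 1), (290, .ofNat 1), (291, .ofNat 2)]) te) te) te) (tn te (tn (tn (tl [(434, .ofNat 1)]) te) te))) te) (tn (tn te (tn (tn (tn (tl [(433, .ofNat 1)]) te) te) te)) te)) (tn (tn (tn te (tn (tn (tn (tl [(430, .ofNat 2), (431, .ofNat 2)]) te) te) (tn (tn (tl [(434, .ofNat 1)]) te) te))) (tn (tn (tn (tn (tl [(427, .ofNat 1)]) te) te) te) te)) (tn (tn (tn (tn (tn (tl [(418, .ofNat 1), (419, .ofNat 1), (422, .ofNat 2)]) te) te) te) te) (tn (tn te (tn (tn (tl [(434, .ofNat 1)]) te) te)) te)))) (tn (tn (tn (tn te (tn (tn (tn (tl [(431, .ofNat 2)]) te) te) te)) te) (tn (tn (tn (tn (tn (tl [(414, .ofNat 2), (415, .ofNat 2), (417, .ofNat 1)]) te) te) te) (tn (tn (tn (tl [(433, .ofNat 1)]) te) te) te)) (tn (tn te (tn (tn (tl [(434, .ofNat 2)]) te)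 te)) te))) (tn (tn (tn (tn (tn (tn (tl [(397, .ofNat 2), (398, .ofNat 1), (399, .ofNat 1), (400, .ofNat 2)]) te) te) te) (tn (tn (tn (tl [(430, .ofNat 1)]) te) te) te)) te) te))) (tn (tn (tn (tn (tn (tn (tn (tn (tl [(292, .ofNat 2), (293, .ofNat 1), (294, .ofNat 1), (295, .ofNat 1), (296, .ofNat 2), (299, .ofNat 1), (300, .ofNat 1), (301, .ofNat 1), (302, .ofNat 2), (303, .ofNat 2), (307, .ofNat 1), (309, .ofNat 1), (310, .ofNat 2)]) te) te) te) (tn te (tn (tn (tl [(434, .ofNat 1)]) te) te))) te) (tn (tn te (tn (tn (tn (tl [(432, .ofNat 1)]) te) te) te)) te)) (tn (tn (tn te (tn (tn (tn (tl [(430, .ofNat 2), (431, .ofNat 2)]) te) te) te)) te) (tn (tn (tn (tn (tn (tl [(418, .ofNat 1), (419, .ofNat 2), (421, .ofNat 2), (422, .ofNat 2)]) te) te) te) te) (tn (tn te (tn (tn (tl [(434, .ofNat 2)]) te) te)) te)))) (tn (tn (tn (tn (tn (tn (tn (tl [(364, .ofNat 2), (366, .ofNat 1), (367, .ofNat 2), (368, .ofNat 2), (369, .ofNat 2), (370,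 .ofNat 2), (373, .ofNat 2)]) te) te) te) (tn (tn (tn (tl [(430, .ofNat 2), (431, .ofNat 2)]) te) te) (tn (tn (tl [(434, .ofNat 2)]) te) te))) (tn (tn (tn (tn (tl [(427, .ofNat 1)]) te) te) te) te)) (tn (tn (tn (tn (tn (tl [(415, .ofNat 1)]) te) te) te) te) (tn (tn te (tn (tn (tl [(434, .ofNat 1)]) te) te)) te))) (tn (tn (tn te (tn (tn (tn (tl [(432, .ofNat 2), (433, .ofNat 2)]) te) te) te)) te) (tn te (tn (tn te (tn (tn (tl [(434, .ofNat 1)]) te) te)) te))))))

def r184 : Tr SV := (tn (tn (tn (tn (tn (tn (tn (tn (tn (tl [(282, .ofNat 2), (285, .ofNat 1)]) te) te) te) (tn te (tn (tn (tl [(434, .ofNat 1)]) te) te))) te) te) (tn (tn (tn te (tn te (tn (tn (tl [(434, .ofNat 1)]) te) te))) (tn (tn (tn (tn (tl [(427, .ofNat 2)]) te) te) te) te)) (tn (tn (tn (tn (tn (tl [(418, .ofNat 2), (419, .ofNat 2), (422, .ofNat 1)]) te) te) te) te) te))) (tn (tn (tn (tn te (tn (tn (tn (tl [(431, .ofNat 2)]) te) te) (tn (tn (tl [(434, .ofNat 1)])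 te) te))) te) (tn (tn (tn (tn (tn (tl [(414, .ofNat 1), (415, .ofNat 2), (416, .ofNat 1)]) te) te) te) (tn (tn (tn (tl [(432, .ofNat 2), (433, .ofNat 2)]) te) te) te)) te)) (tn (tn (tn (tn (tn (tn (tl [(397, .ofNat 1), (399, .ofNat 2), (400, .ofNat 1), (401, .ofNat 1)]) te) te) te) (tn (tn (tn (tl [(430, .ofNat 1), (431, .ofNat 1)]) te) te) te)) te) (tn te (tn (tn te (tn (tn (tl [(434, .ofNat 2)]) te) te)) te))))) (tn (tn (tn (tn (tn (tn (tn (tn (tl [(292, .ofNat 1), (295, .ofNat 2), (298, .ofNat 2), (299, .ofNat 2), (300, .ofNat 2), (301, .ofNat 1), (304, .ofNat 1), (305, .ofNat 2), (307, .ofNat 1), (310, .ofNat 1)]) te) te) te) te) te) te) (tn (tn (tn (tn (tn (tn (tl [(393, .ofNat 1), (394, .ofNat 1), (395, .ofNat 1), (396, .ofNat 2)]) te) te) te) (tn (tn (tn (tl [(430, .ofNat 2), (431, .ofNat 1)]) te) te) te)) te) (tn (tn (tn (tn (tn (tl [(418, .ofNat 1), (419, .ofNat 1), (420, .ofNat 2), (421, .ofNat 2), (422, .ofNat 2)])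 te) te) te) te) te))) (tn (tn (tn (tn (tn (tn (tn (tl [(364, .ofNat 1), (365, .ofNat 2), (366, .ofNat 1), (367, .ofNat 1), (368, .ofNat 1), (369, .ofNat 2), (370, .ofNat 2), (371, .ofNat 2), (372, .ofNat 1), (373, .ofNat 2)]) te) te) te) (tn (tn (tn (tl [(431, .ofNat 1)]) te) te) (tn (tn (tl [(434, .ofNat 2)]) te) te))) (tn (tn (tn (tn (tl [(427, .ofNat 1)]) te) te) te) te)) (tn (tn (tn (tn (tn (tl [(414, .ofNat 1), (415, .ofNat 1), (417, .ofNat 2)]) te) te) te) te) (tn (tn te (tn (tn (tl [(434, .ofNat 1)]) te) te)) te))) (tn (tn (tn te (tn (tn (tn (tl [(432, .ofNat 2), (433, .ofNat 2)]) te) te) te)) te) (tn te (tn (tn te (tn (tn (tl [(434, .ofNat 1)]) te) te)) te))))))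

def r185 : Tr SV := (tn (tn (tn (tn (tn (tn (tn (tn (tn (tl [(278, .ofNat 1), (279, .ofNat 1), (281, .ofNat 2), (282, .ofNat 1), (283, .ofNat 2), (284, .ofNat 2), (285, .ofNat 2), (286, .ofNat 1), (287, .ofNat 2), (288, .ofNat 1), (289, .ofNat 2), (290, .ofNat 2), (291, .ofNat 1)]) te) te) te) te) te) (tn (tn te (tn (tn (tn (tl [(432, .ofNat 2)]) te) te) te)) te)) (tn (tn (tn te (tn (tn (tn (tl [(430, .ofNat 2)]) te) te) (tn (tn (tl [(434, .ofNat 1)]) te) te))) (tn (tn (tn (tn (tl [(427, .ofNat 2)]) te) te) te) te)) (tn (tn (tn (tn (tn (tl [(418, .ofNat 2), (420, .ofNat 2), (421, .ofNat 2), (422, .ofNat 2)]) te) te) te) te) te))) (tn (tn (tn (tn te (tn (tn (tn (tl [(430, .ofNat 2), (431, .ofNat 1)]) te) te) (tn (tn (tl [(434, .ofNat 1)]) te) te))) te) (tn (tn (tn (tn (tn (tl [(415, .ofNat 2), (417, .ofNat 2)]) te) te) te) (tn (tn (tn (tl [(432, .ofNat 1), (433, .ofNat 1)]) te) te) te)) (tn (tn te (tn (tn (tl [(434, .ofNat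 1)]) te) te)) te))) (tn (tn (tn (tn (tn (tn (tl [(397, .ofNat 2), (398, .ofNat 2), (399, .ofNat 1), (400, .ofNat 2), (401, .ofNat 2)]) te) te) te) (tn (tn (tn (tl [(431, .ofNat 1)]) te) te) te)) te) te))) (tn (tn (tn (tn (tn (tn (tn (tn (tl [(293, .ofNat 1), (294, .ofNat 2), (295, .ofNat 1), (296, .ofNat 2), (300, .ofNat 2), (302, .ofNat 1), (303, .ofNat 1), (304, .ofNat 2), (307, .ofNat 1), (308, .ofNat 1), (309, .ofNat 1), (310, .ofNat 2), (311, .ofNat 2)]) te) te) te) te) te) (tn (tn te (tn (tn (tn (tl [(433, .ofNat 1)]) te) te) te)) te)) (tn (tn (tn (tn (tn (tn (tl [(392, .ofNat 2), (394, .ofNat 2), (396, .ofNat 1)]) te) te) te) (tn (tn (tn (tl [(430, .ofNat 1), (431, .ofNat 2)]) te) te) te)) te) (tn (tn (tn (tn (tn (tl [(418, .ofNat 2), (419, .ofNat 2), (420, .ofNat 2)]) te) te) te) te) te))) (tn (tn (tn (tn (tn (tn (tn (tl [(365, .ofNat 1), (366, .ofNat 1), (369, .ofNat 2), (370, .ofNat 1), (371, .ofNat 1), (374, .ofNat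 1)]) te) te) te) (tn (tn (tn (tl [(430, .ofNat 1), (431, .ofNat 1)]) te) te) te)) te) (tn (tn (tn (tn (tn (tl [(414, .ofNat 1), (417, .ofNat 2)]) te) te) te) te) te)) (tn (tn (tn te (tn (tn (tn (tl [(432, .ofNat 1)]) te) te) te)) te) (tn te (tn (tn te (tn (tn (tl [(434, .ofNat 2)]) te) te)) te))))))

def r186 : Tr SV := (tn (tn (tn (tn (tn (tn (tn (tn (tn (tl [(292, .ofNat 1), (293, .ofNat 1), (294, .ofNat 1), (295, .ofNat 1), (296, .ofNat 2), (298, .ofNat 2), (299, .ofNat 1), (301, .ofNat 2), (303, .ofNat 2), (304, .ofNat 1), (305, .ofNat 2), (306, .ofNat 1), (309, .ofNat 1), (310, .ofNat 2)]) te) te) te) (tn (tn (tn (tl [(430, .ofNat 1), (431, .ofNat 2)]) te) te) te)) (tn (tn te (tn (tn (tl [(434, .ofNat 2)]) te) te)) te)) te) (tn (tn (tn (tn (tn (tn (tl [(392, .ofNat 2), (394, .ofNat 1)]) te) te) te) (tn (tn (tn (tl [(432, .ofNat 2), (433, .ofNat 2)]) te) te) te)) te) (tn (tn (tn (tn (tn (tl [(425, .ofNat 1)]) te) te) te)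 te) te))) (tn (tn (tn (tn te (tn (tn (tn (tl [(432, .ofNat 1)]) te) te) te)) (tn (tn (tn (tn (tl [(427, .ofNat 1)]) te) te) (tn (tn (tl [(434, .ofNat 1)]) te) te)) te)) (tn (tn (tn (tn (tn (tl [(418, .ofNat 2), (419, .ofNat 2), (421, .ofNat 1), (422, .ofNat 1)]) te) te) te) te) te)) (tn (tn (tn te (tn (tn (tn (tl [(432, .ofNat 2), (433, .ofNat 2)]) te) te) te)) te) (tn te (tn (tn (tn (tn (tl [(431, .ofNat 2)]) te) te) te) te))))) (tn (tn (tn (tn (tn (tn (tn (tn (tl [(313, .ofNat 2), (315, .ofNat 2), (316, .ofNat 2), (317, .ofNat 1), (321, .ofNat 1), (322, .ofNat 1), (323, .ofNat 2), (324, .ofNat 1), (325, .ofNat 2)]) te) te) te) (tn (tn (tn (tl [(431, .ofNat 2)]) te) te) te)) (tn (tn (tn (tn (tl [(427, .ofNat 2)]) te) te) te) te)) te) (tn (tn (tn (tn (tn (tn (tl [(397, .ofNat 1), (398, .ofNat 1), (401, .ofNat 2)]) te) te) te) (tn (tn (tn (tl [(432, .ofNat 1), (433, .ofNat 2)]) te) te) te)) (tn (tn te (tn (tn (tl [(434, .ofNat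 1)]) te) te)) te)) (tn (tn (tn (tn (tn (tl [(423, .ofNat 1), (424, .ofNat 1), (425, .ofNat 1), (426, .ofNat 2)]) te) te) te) te) te))) (tn (tn (tn (tn (tn (tn (tn (tl [(376, .ofNat 1), (377, .ofNat 1), (378, .ofNat 2), (380, .ofNat 1), (381, .ofNat 1), (382, .ofNat 1), (384, .ofNat 2)]) te) te) te) (tn (tn (tn (tl [(433, .ofNat 2)]) te) te) te)) te) (tn (tn (tn (tn (tn (tl [(418, .ofNat 2), (420, .ofNat 2)]) te) te) te) te) te)) (tn (tn te (tn (tn te (tn (tn (tl [(434, .ofNat 1)]) te) te)) te)) (tn (tn (tn te (tn (tn (tl [(434, .ofNat 1)]) te) te)) te) (tn (tn (tn (tn (tl [(430, .ofNat 1)]) te) te) te) te))))))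

def r187 : Tr SV := (tn (tn (tn (tn (tn (tn (tn (tn (tn (tl [(292, .ofNat 1), (293, .ofNat 2), (294, .ofNat 1), (295, .ofNat 2), (296, .ofNat 1), (297, .ofNat 1), (298, .ofNat 2), (299, .ofNat 2), (300, .ofNat 1), (301, .ofNat 2), (303, .ofNat 1), (304, .ofNat 2), (305, .ofNat 1), (306, .ofNat 2), (307, .ofNat 1), (311, .ofNat 2)]) te) te) te) (tn (tn (tn (tl [(431, .ofNat 1)]) te) te) te)) (tn (tn te (tn (tn (tl [(434, .ofNat 2)]) te) te)) te)) te) (tn (tn (tn (tn (tn (tn (tl [(392, .ofNat 2), (393, .ofNat 2), (394, .ofNat 1), (395, .ofNat 2), (396, .ofNat 1)]) te) te) te) (tn (tn (tn (tl [(432, .ofNat 1), (433, .ofNat 1)]) te) te) te)) (tn (tn te (tn (tn (tl [(434, .ofNat 2)]) te) te)) te)) (tn (tn (tn (tn (tn (tl [(424, .ofNat 1), (425, .ofNat 2), (426, .ofNat 2)]) te) te) te) te) te))) (tn (tn (tn (tn te (tn (tn (tn (tl [(432, .ofNat 1)]) te) te) te)) (tn (tn (tn (tn (tl [(427, .ofNat 1)]) te) te) (tn (tn (tl [(434, .ofNat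 1)]) te) te)) te)) (tn (tn (tn (tn (tn (tl [(418, .ofNat 2), (419, .ofNat 2), (420, .ofNat 2)]) te) te) te) te) te)) (tn (tn (tn te (tn (tn (tn (tl [(432, .ofNat 1), (433, .ofNat 1)]) te) te) te)) (tn (tn te (tn (tn (tl [(434, .ofNat 1)]) te) te)) te)) (tn te (tn (tn (tn (tn (tl [(430, .ofNat 2)]) te) te) te) te))))) (tn (tn (tn (tn (tn (tn (tn (tn (tl [(313, .ofNat 2), (315, .ofNat 1), (316, .ofNat 1), (317, .ofNat 1), (320, .ofNat 2), (321, .ofNat 1), (322, .ofNat 1), (323, .ofNat 2), (325, .ofNat 1)]) te) te) te) (tn (tn (tn (tl [(431, .ofNat 2)]) te) te) te)) (tn (tn (tn (tn (tl [(427, .ofNat 1)]) te) te) (tn (tn (tl [(434, .ofNat 2)]) te) te)) te)) te) (tn (tn (tn (tn (tn (tn (tl [(398, .ofNat 1), (399, .ofNat 2), (400, .ofNat 2), (401, .ofNat 1)]) te) te) te) (tn (tn (tn (tl [(433, .ofNat 2)]) te) te) te)) (tn (tn te (tn (tn (tl [(434, .ofNat 1)]) te) te)) te)) (tn (tn (tn (tn (tn (tl [(423, .ofNat 2), (426, .ofNat 1)])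 te) te) te) te) te))) (tn (tn (tn (tn (tn (tn (tn (tl [(375, .ofNat 1), (376, .ofNat 1), (378, .ofNat 2), (380, .ofNat 2), (384, .ofNat 1), (385, .ofNat 1)]) te) te) te) (tn (tn (tn (tl [(432, .ofNat 2)]) te) te) te)) te) (tn (tn (tn (tn (tn (tl [(418, .ofNat 1), (419, .ofNat 2), (420, .ofNat 2), (421, .ofNat 1), (422, .ofNat 1)]) te) te) te) te) te)) (tn (tn te (tn (tn te (tn (tn (tl [(434, .ofNat 2)]) te) te)) te)) (tn (tn (tn te (tn (tn (tl [(434, .ofNat 2)]) te) te)) te) (tn (tn (tn (tn (tl [(430, .ofNat 2)]) te) te) te) te))))))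

def r188 : Tr SV := (tn (tn (tn (tn (tn (tn (tn (tn (tn (tl [(292, .ofNat 2), (294, .ofNat 2), (296, .ofNat 2), (298, .ofNat 2), (300, .ofNat 1), (301, .ofNat 2), (302, .ofNat 2), (303, .ofNat 1), (304, .ofNat 1), (305, .ofNat 2), (307, .ofNat 1), (308, .ofNat 1), (309, .ofNat 2), (310, .ofNat 2), (311, .ofNat 1)]) te) te) te) (tn (tn (tn (tl [(431, .ofNat 2)]) te) te) te)) te) te) (tn (tn (tn (tn (tn (tn (tl [(392, .ofNat 2), (393, .ofNat 2), (394, .ofNat 2)]) te) te) te) (tn (tn (tn (tl [(432, .ofNat 2), (433, .ofNat 1)]) te) te) te)) te) (tn (tn (tn (tn (tn (tl [(424, .ofNat 2), (426, .ofNat 2)]) te) te) te) te) te))) (tn (tn (tn (tn te (tn (tn (tn (tl [(432, .ofNat 2), (433, .ofNat 1)]) te) te) te)) te) (tn (tn (tn (tn (tn (tl [(418, .ofNat 1), (419, .ofNat 2), (422, .ofNat 2)]) te) te) te) te) te)) (tn (tn (tn te (tn (tn (tn (tl [(432, .ofNat 1)]) te) te) te)) te) (tn te (tn (tn (tn (tn (tl [(430, .ofNat 2), (431, .ofNat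 2)]) te) te) te) te))))) (tn (tn (tn (tn (tn (tn (tn (tn (tl [(314, .ofNat 1), (315, .ofNat 2), (316, .ofNat 1), (318, .ofNat 1), (319, .ofNat 1), (320, .ofNat 2), (321, .ofNat 1), (322, .ofNat 2), (323, .ofNat 1), (324, .ofNat 2), (325, .ofNat 1)]) te) te) te) (tn (tn (tn (tl [(431, .ofNat 1)]) te) te) te)) (tn (tn (tn (tn (tl [(427, .ofNat 1)]) te) te) te) te)) te) (tn (tn (tn (tn (tn (tn (tl [(397, .ofNat 1), (399, .ofNat 2), (400, .ofNat 1)]) te) te) te) (tn (tn (tn (tl [(432, .ofNat 2), (433, .ofNat 1)]) te) te) te)) (tn (tn te (tn (tn (tl [(434, .ofNat 1)]) te) te)) te)) (tn (tn (tn (tn (tn (tl [(423, .ofNat 2), (424, .ofNat 2), (425, .ofNat 2), (426, .ofNat 1)]) te) te) te) te) te))) (tn (tn (tn (tn (tn (tn (tn (tl [(377, .ofNat 1)]) te) te) te) te) te) (tn (tn (tn (tn (tn (tl [(418, .ofNat 1), (420, .ofNat 2), (422, .ofNat 1)]) te) te) te) te) te)) (tn (tn te (tn (tn te (tn (tn (tl [(434, .ofNat 2)]) te) te)) te)) (tn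 (tn (tn te (tn (tn (tl [(434, .ofNat 2)]) te) te)) te) (tn (tn (tn (tn (tl [(430, .ofNat 1), (431, .ofNat 2)]) te) te) te) te))))))

def r189 : Tr SV := (tn (tn (tn (tn (tn (tn (tn (tn (tn (tl [(292, .ofNat 2), (293, .ofNat 2), (294, .ofNat 2), (295, .ofNat 2), (296, .ofNat 2), (297, .ofNat 1), (301, .ofNat 2), (302, .ofNat 1), (303, .ofNat 1), (305, .ofNat 2), (306, .ofNat 2), (307, .ofNat 1), (309, .ofNat 1), (310, .ofNat 2), (311, .ofNat 1)]) te) te) te) (tn (tn (tn (tl [(430, .ofNat 1), (431, .ofNat 1)]) te) te) te)) (tn (tn te (tn (tn (tl [(434, .ofNat 1)]) te) te)) te)) (tn te (tn (tn te (tn (tn (tl [(434, .ofNat 2)]) te) te)) te))) (tn (tn (tn (tn (tn (tn (tl [(392, .ofNat 1), (394, .ofNat 2), (395, .ofNat 2), (396, .ofNat 2)]) te) te) te) (tn (tn (tn (tl [(432, .ofNat 2), (433, .ofNat 2)]) te) te) te)) (tn (tn te (tn (tn (tl [(434, .ofNat 1)]) te) te)) te)) (tn (tn (tn (tn (tn (tl [(424, .ofNat 2), (425, .ofNat 1),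 (426, .ofNat 2)]) te) te) te) te) te))) (tn (tn (tn (tn te (tn (tn (tn (tl [(432, .ofNat 1), (433, .ofNat 1)]) te) te) te)) (tn (tn (tn (tn (tl [(427, .ofNat 2)]) te) te) te) te)) (tn (tn (tn (tn (tn (tl [(420, .ofNat 1), (421, .ofNat 2), (422, .ofNat 1)]) te) te) te) te) te)) (tn te (tn te (tn (tn (tn (tn (tl [(430, .ofNat 1)]) te) te) te) te))))) (tn (tn (tn (tn (tn (tn (tn (tn (tl [(312, .ofNat 2), (313, .ofNat 2), (315, .ofNat 1), (316, .ofNat 2), (317, .ofNat 1), (320, .ofNat 1), (321, .ofNat 2), (322, .ofNat 2), (323, .ofNat 1), (324, .ofNat 2), (325, .ofNat 1)]) te) te) te) (tn (tn (tn (tl [(431, .ofNat 1)]) te) te) te)) (tn (tn (tn (tn (tl [(427, .ofNat 1)]) te) te) (tn (tn (tl [(434, .ofNat 1)]) te) te)) te)) te) (tn (tn (tn (tn (tn (tn (tl [(397, .ofNat 1), (398, .ofNat 2), (400, .ofNat 1)]) te) te) te) (tn (tn (tn (tl [(432, .ofNat 2), (433, .ofNat 2)]) te) te) te)) (tn (tn te (tn (tn (tl [(434, .ofNat 2)]) te) te))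 te)) te)) (tn (tn (tn (tn (tn (tn (tn (tl [(375, .ofNat 2), (376, .ofNat 1), (378, .ofNat 1), (380, .ofNat 2), (381, .ofNat 1), (382, .ofNat 2), (384, .ofNat 2)]) te) te) te) (tn (tn (tn (tl [(432, .ofNat 2), (433, .ofNat 2)]) te) te) te)) (tn (tn te (tn (tn (tl [(434, .ofNat 2)]) te) te)) te)) (tn (tn (tn (tn (tn (tl [(418, .ofNat 1), (419, .ofNat 2), (421, .ofNat 1), (422, .ofNat 1)]) te) te) te) te) te)) (tn (tn te (tn (tn te (tn (tn (tl [(434, .ofNat 1)]) te) te)) te)) (tn (tn (tn te (tn (tn (tl [(434, .ofNat 2)]) te) te)) te) (tn (tn (tn (tn (tl [(430, .ofNat 2), (431, .ofNat 2)]) te) te) te) te))))))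

def r190 : Tr SV := (tn (tn (tn (tn (tn (tn (tn (tn (tn (tl [(292, .ofNat 1), (293, .ofNat 2), (294, .ofNat 2), (295, .ofNat 2), (296, .ofNat 1), (299, .ofNat 2), (301, .ofNat 2), (303, .ofNat 2), (304, .ofNat 1), (305, .ofNat 2), (307, .ofNat 2), (308, .ofNat 1), (309, .ofNat 2), (310, .ofNat 1), (311, .ofNat 1)]) te) te) te) (tn (tn (tn (tl [(430, .ofNat 2), (431, .ofNat 2)]) te) te) te)) (tn (tn te (tn (tn (tl [(434, .ofNat 2)]) te) te)) te)) (tn te (tn (tn te (tn (tn (tl [(434, .ofNat 2)]) te) te)) te))) (tn (tn (tn (tn (tn (tn (tl [(392, .ofNat 2), (393, .ofNat 2), (395, .ofNat 2), (396, .ofNat 2)]) te) te) te) (tn (tn (tn (tl [(433, .ofNat 1)]) te) te) te)) (tn (tn te (tn (tn (tl [(434, .ofNat 2)]) te) te)) te)) (tn (tn (tn (tn (tn (tl [(425, .ofNat 1), (426, .ofNat 2)]) te) te) te) te) te))) (tn (tn (tn (tn te (tn (tn (tn (tl [(433, .ofNat 1)]) te) te) te)) (tn (tn (tn (tn (tl [(427, .ofNat 1)]) te) te) te) te)) (tn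 (tn (tn (tn (tn (tl [(418, .ofNat 2), (419, .ofNat 2), (421, .ofNat 1), (422, .ofNat 1)]) te) te) te) te) te)) (tn (tn (tn te (tn (tn (tn (tl [(432, .ofNat 1), (433, .ofNat 2)]) te) te) te)) te) (tn te (tn (tn (tn (tn (tl [(430, .ofNat 1), (431, .ofNat 2)]) te) te) te) te))))) (tn (tn (tn (tn (tn (tn (tn (tn (tl [(313, .ofNat 2), (315, .ofNat 1), (316, .ofNat 1), (317, .ofNat 2), (320, .ofNat 1), (321, .ofNat 1), (322, .ofNat 2), (323, .ofNat 1), (324, .ofNat 1), (325, .ofNat 2)]) te) te) te) te) (tn (tn (tn (tn (tl [(427, .ofNat 1)]) te) te) te) te)) te) (tn (tn (tn (tn (tn (tn (tl [(398, .ofNat 2), (399, .ofNat 2), (400, .ofNat 1), (401, .ofNat 1)]) te) te) te) (tn (tn (tn (tl [(432, .ofNat 2), (433, .ofNat 2)]) te) te) te)) (tn (tn te (tn (tn (tl [(434, .ofNat 2)]) te) te)) te)) (tn (tn (tn (tn (tn (tl [(423, .ofNat 2), (424, .ofNat 2), (425, .ofNat 1)]) te) te) te) te) te))) (tn (tn (tn (tn (tn (tn (tn (tl [(377, .ofNat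 2), (378, .ofNat 1), (380, .ofNat 1), (381, .ofNat 1), (384, .ofNat 1), (385, .ofNat 2)]) te) te) te) (tn (tn (tn (tl [(432, .ofNat 1), (433, .ofNat 1)]) te) te) te)) (tn (tn te (tn (tn (tl [(434, .ofNat 2)]) te) te)) te)) (tn (tn (tn (tn (tn (tl [(418, .ofNat 1), (419, .ofNat 2), (420, .ofNat 1), (421, .ofNat 1), (422, .ofNat 1)]) te) te) te) te) te)) (tn (tn te (tn (tn te (tn (tn (tl [(434, .ofNat 1)]) te) te)) te)) (tn (tn (tn te (tn (tn (tl [(434, .ofNat 2)]) te) te)) te) (tn (tn (tn (tn (tl [(430, .ofNat 2)]) te) te) te) te))))))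

def r191 : Tr SV := (tn (tn (tn (tn (tn (tn (tn (tn (tn (tl [(293, .ofNat 2), (295, .ofNat 2), (296, .ofNat 2), (297, .ofNat 2), (299, .ofNat 2), (300, .ofNat 2), (301, .ofNat 1), (302, .ofNat 1), (304, .ofNat 1), (306, .ofNat 1), (307, .ofNat 2), (308, .ofNat 1), (309, .ofNat 2), (310, .ofNat 1), (311, .ofNat 2)]) te) te) te) te) (tn (tn te (tn (tn (tl [(434, .ofNat 1)]) te) te)) te)) (tn te (tn (tn te (tn (tn (tl [(434, .ofNat 2)]) te) te)) te))) (tn (tn (tn (tn (tn (tn (tl [(392, .ofNat 2), (395, .ofNat 2), (396, .ofNat 2)]) te) te) te) (tn (tn (tn (tl [(433, .ofNat 1)]) te) te) te)) (tn (tn te (tn (tn (tl [(434, .ofNat 1)]) te) te)) te)) (tn (tn (tn (tn (tn (tl [(424, .ofNat 2), (425, .ofNat 1), (426, .ofNat 2)]) te) te) te) te) te))) (tn (tn (tn (tn te (tn (tn (tn (tl [(433, .ofNat 2)]) te) te) te)) (tn (tn (tn (tn (tl [(427, .ofNat 2)]) te) te) te) te)) (tn (tn (tn (tn (tn (tl [(418, .ofNat 1), (419, .ofNat 1), (420,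 .ofNat 2), (421, .ofNat 2), (422, .ofNat 1)]) te) te) te) te) te)) (tn (tn (tn te (tn (tn (tn (tl [(432, .ofNat 2)]) te) te) te)) te) (tn te (tn (tn (tn (tn (tl [(430, .ofNat 1), (431, .ofNat 1)]) te) te) te) te))))) (tn (tn (tn (tn (tn (tn (tn (tn (tl [(312, .ofNat 1), (315, .ofNat 2), (316, .ofNat 2), (318, .ofNat 1), (320, .ofNat 1), (322, .ofNat 1), (324, .ofNat 2), (325, .ofNat 2)]) te) te) te) te) (tn (tn (tn (tn (tl [(427, .ofNat 1)]) te) te) (tn (tn (tl [(434, .ofNat 1)]) te) te)) te)) te) (tn (tn (tn (tn (tn (tn (tl [(398, .ofNat 1), (399, .ofNat 2), (401, .ofNat 2)]) te) te) te) (tn (tn (tn (tl [(432, .ofNat 1), (433, .ofNat 2)]) te) te) te)) (tn (tn te (tn (tn (tl [(434, .ofNat 2)]) te) te)) te)) (tn (tn (tn (tn (tn (tl [(423, .ofNat 1), (424, .ofNat 1), (425, .ofNat 2)]) te) te) te) te) te))) (tn (tn (tn (tn (tn (tn (tn (tl [(375, .ofNat 1), (376, .ofNat 2), (377, .ofNat 1), (382, .ofNat 2), (383, .ofNat 2), (385,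 .ofNat 2)]) te) te) te) (tn (tn (tn (tl [(433, .ofNat 2)]) te) te) te)) (tn (tn te (tn (tn (tl [(434, .ofNat 2)]) te) te)) te)) (tn (tn (tn (tn (tn (tl [(418, .ofNat 1), (419, .ofNat 2), (421, .ofNat 1)]) te) te) te) te) te)) (tn (tn te (tn (tn te (tn (tn (tl [(434, .ofNat 1)]) te) te)) te)) (tn (tn (tn te (tn (tn (tl [(434, .ofNat 2)]) te) te)) te) (tn (tn (tn (tn (tl [(431, .ofNat 1)]) te) te) te) te))))))

def r192 : Tr SV := (tn (tn (tn (tn (tn (tn (tn (tn (tn (tl [(293, .ofNat 1), (294, .ofNat 2), (295, .ofNat 2), (296, .ofNat 1), (297, .ofNat 2), (298, .ofNat 2), (300, .ofNat 2), (301, .ofNat 1), (302, .ofNat 2), (303, .ofNat 1), (304, .ofNat 2), (306, .ofNat 1), (307, .ofNat 1), (308, .ofNat 2), (309, .ofNat 1), (310, .ofNat 2)]) te) te) te) (tn (tn (tn (tl [(430, .ofNat 1), (431, .ofNat 1)]) te) te) te)) te) te) (tn (tn (tn (tn (tn (tn (tl [(392, .ofNat 2), (393, .ofNat 2), (394, .ofNat 1), (395, .ofNat 2), (396, .ofNat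 2)]) te) te) te) te) te) (tn (tn (tn (tn (tn (tl [(424, .ofNat 2), (425, .ofNat 1), (426, .ofNat 1)]) te) te) te) te) te))) (tn (tn (tn (tn te (tn (tn (tn (tl [(432, .ofNat 2), (433, .ofNat 1)]) te) te) te)) te) (tn (tn (tn (tn (tn (tl [(418, .ofNat 1), (419, .ofNat 2), (420, .ofNat 2), (421, .ofNat 2), (422, .ofNat 1)]) te) te) te) te) te)) (tn (tn (tn te (tn (tn (tn (tl [(432, .ofNat 2), (433, .ofNat 2)]) te) te) te)) te) (tn te (tn (tn (tn (tn (tl [(430, .ofNat 2), (431, .ofNat 2)]) te) te) te) te))))) (tn (tn (tn (tn (tn (tn (tn (tn (tl [(313, .ofNat 2), (315, .ofNat 1), (316, .ofNat 2), (318, .ofNat 1), (319, .ofNat 1), (320, .ofNat 2), (321, .ofNat 2), (322, .ofNat 1), (323, .ofNat 2)]) te) te) te) te) te) te) (tn (tn (tn (tn (tn (tn (tl [(397, .ofNat 1), (398, .ofNat 1), (401, .ofNat 2)]) te) te) te) (tn (tn (tn (tl [(432, .ofNat 1)]) te) te) te)) te) (tn (tn (tn (tn (tn (tl [(423, .ofNat 2), (424, .ofNat 2), (425, .ofNat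 1)]) te) te) te) te) te))) (tn (tn (tn (tn (tn (tn (tn (tl [(375, .ofNat 1), (376, .ofNat 1), (377, .ofNat 2), (378, .ofNat 2), (381, .ofNat 2), (382, .ofNat 2), (385, .ofNat 2)]) te) te) te) (tn (tn (tn (tl [(432, .ofNat 1)]) te) te) te)) te) (tn (tn (tn (tn (tn (tl [(419, .ofNat 1), (421, .ofNat 2), (422, .ofNat 2)]) te) te) te) te) te)) (tn te (tn te (tn (tn (tn (tn (tl [(430, .ofNat 1), (431, .ofNat 1)]) te) te) te) te))))))

def r193 : Tr SV := (tn (tn (tn (tn (tn (tn (tn (tn (tn (tl [(292, .ofNat 1), (293, .ofNat 1), (294, .ofNat 2), (296, .ofNat 1), (297, .ofNat 2), (298, .ofNat 1), (299, .ofNat 1), (300, .ofNat 2), (301, .ofNat 1), (302, .ofNat 1), (303, .ofNat 2), (304, .ofNat 1), (305, .ofNat 1), (306, .ofNat 2), (307, .ofNat 2), (308, .ofNat 1), (309, .ofNat 1), (310, .ofNat 2), (311, .ofNat 2)]) te) te) te) te) (tn (tn te (tn (tn (tl [(434, .ofNat 2)]) te) te)) te)) (tn te (tn (tn te (tn (tn (tl [(434, .ofNat 2)])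 te) te)) te))) (tn (tn (tn (tn (tn (tn (tl [(392, .ofNat 2), (393, .ofNat 2), (394, .ofNat 2), (395, .ofNat 2)]) te) te) te) (tn (tn (tn (tl [(433, .ofNat 2)]) te) te) te)) (tn (tn te (tn (tn (tl [(434, .ofNat 2)]) te) te)) te)) (tn (tn (tn (tn (tn (tl [(423, .ofNat 2), (424, .ofNat 2), (426, .ofNat 2)]) te) te) te) te) te))) (tn (tn (tn (tn te (tn (tn (tn (tl [(433, .ofNat 2)]) te) te) te)) (tn (tn (tn (tn (tl [(427, .ofNat 1)]) te) te) te) te)) (tn (tn (tn (tn (tn (tl [(418, .ofNat 2), (420, .ofNat 1), (421, .ofNat 2), (422, .ofNat 1)]) te) te) te) te) te)) (tn (tn (tn te (tn (tn (tn (tl [(432, .ofNat 2), (433, .ofNat 2)]) te) te) te)) te) (tn te (tn (tn (tn (tn (tl [(430, .ofNat 1), (431, .ofNat 2)]) te) te) te) te))))) (tn (tn (tn (tn (tn (tn (tn (tn (tl [(325, .ofNat 1)]) te) te) te) (tn (tn (tn (tl [(430, .ofNat 2), (431, .ofNat 2)]) te) te) te)) (tn (tn te (tn (tn (tl [(434, .ofNat 1)]) te) te)) te)) (tn te (tn (tn te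 (tn (tn (tl [(434, .ofNat 1)]) te) te)) te))) (tn (tn (tn (tn (tn (tn (tl [(397, .ofNat 2), (398, .ofNat 1), (401, .ofNat 1)]) te) te) te) (tn (tn (tn (tl [(432, .ofNat 1), (433, .ofNat 1)]) te) te) te)) (tn (tn te (tn (tn (tl [(434, .ofNat 2)]) te) te)) te)) (tn (tn (tn (tn (tn (tl [(423, .ofNat 2), (424, .ofNat 2), (425, .ofNat 2), (426, .ofNat 1)]) te) te) te) te) te))) (tn (tn (tn (tn (tn (tn (tn (tl [(385, .ofNat 1)]) te) te) te) (tn (tn (tn (tl [(432, .ofNat 2)]) te) te) te)) te) (tn (tn (tn (tn (tn (tl [(418, .ofNat 2), (419, .ofNat 1), (420, .ofNat 1), (421, .ofNat 1), (422, .ofNat 1)]) te) te) te) te) te)) (tn (tn te (tn (tn te (tn (tn (tl [(434, .ofNat 1)]) te) te)) te)) (tn (tn (tn te (tn (tn (tl [(434, .ofNat 1)]) te) te)) te) (tn (tn (tn (tn (tl [(431, .ofNat 1)]) te) te) te) te))))))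

def r194 : Tr SV := (tn (tn (tn (tn (tn (tn (tn (tn (tn (tl [(292, .ofNat 2), (293, .ofNat 1), (294, .ofNat 2), (295, .ofNat 1), (296, .ofNat 2), (297, .ofNat 1), (298, .ofNat 2), (302, .ofNat 1), (303, .ofNat 2), (304, .ofNat 1), (306, .ofNat 1), (307, .ofNat 1), (308, .ofNat 2), (309, .ofNat 1), (310, .ofNat 2), (311, .ofNat 1)]) te) te) te) (tn (tn (tn (tl [(431, .ofNat 2)]) te) te) te)) (tn (tn te (tn (tn (tl [(434, .ofNat 2)]) te) te)) te)) (tn te (tn (tn te (tn (tn (tl [(434, .ofNat 2)]) te) te)) te))) (tn (tn (tn (tn (tn (tn (tl [(392, .ofNat 1), (393, .ofNat 1), (395, .ofNat 2), (396, .ofNat 1)]) te) te) te) (tn (tn (tn (tl [(433, .ofNat 1)]) te) te) te)) (tn (tn te (tn (tn (tl [(434, .ofNat 2)]) te) te)) te)) (tn (tn (tn (tn (tn (tl [(423, .ofNat 1), (424, .ofNat 2), (425, .ofNat 2), (426, .ofNat 2)]) te) te) te) te) te))) (tn (tn te (tn (tn (tn (tn (tn (tl [(418, .ofNat 1), (419, .ofNat 1), (420, .ofNat 1), (421,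 .ofNat 1)]) te) te) te) te) te)) (tn (tn (tn te (tn (tn (tn (tl [(432, .ofNat 2), (433, .ofNat 2)]) te) te) te)) (tn (tn te (tn (tn (tl [(434, .ofNat 1)]) te) te)) te)) (tn te (tn (tn (tn (tn (tl [(430, .ofNat 2), (431, .ofNat 1)]) te) te) te) te))))) (tn (tn (tn (tn (tn (tn (tn (tn (tl [(314, .ofNat 1), (315, .ofNat 2), (316, .ofNat 1), (317, .ofNat 2), (318, .ofNat 1), (319, .ofNat 1), (320, .ofNat 2), (321, .ofNat 2), (322, .ofNat 2), (323, .ofNat 2), (324, .ofNat 2)]) te) te) te) (tn (tn (tn (tl [(431, .ofNat 2)]) te) te) te)) te) te) (tn (tn (tn (tn (tn (tn (tl [(397, .ofNat 1), (398, .ofNat 2), (399, .ofNat 1), (400, .ofNat 2), (401, .ofNat 2)]) te) te) te) te) (tn (tn te (tn (tn (tl [(434, .ofNat 1)]) te) te)) te)) (tn (tn (tn (tn (tn (tl [(424, .ofNat 1), (425, .ofNat 1)]) te) te) te) te) te))) (tn (tn (tn (tn (tn (tn (tn (tl [(375, .ofNat 2), (377, .ofNat 2), (378, .ofNat 1), (379, .ofNat 1), (380, .ofNat 1), (381,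 .ofNat 1), (384, .ofNat 1), (385, .ofNat 2)]) te) te) te) (tn (tn (tn (tl [(432, .ofNat 1), (433, .ofNat 1)]) te) te) te)) (tn (tn te (tn (tn (tl [(434, .ofNat 2)]) te) te)) te)) (tn (tn (tn (tn (tn (tl [(419, .ofNat 1)]) te) te) te) te) te)) (tn (tn te (tn (tn te (tn (tn (tl [(434, .ofNat 1)]) te) te)) te)) (tn te (tn (tn (tn (tn (tl [(431, .ofNat 2)]) te) te) te) te))))))

def r195 : Tr SV := (tn (tn (tn (tn (tn (tn (tn (tn (tn (tl [(293, .ofNat 2), (295, .ofNat 1), (296, .ofNat 1), (297, .ofNat 1), (300, .ofNat 1), (302, .ofNat 2), (304, .ofNat 1), (306, .ofNat 2), (307, .ofNat 1), (308, .ofNat 1), (309, .ofNat 2)]) te) te) te) (tn (tn (tn (tl [(431, .ofNat 1)]) te) te) te)) (tn (tn te (tn (tn (tl [(434, .ofNat 1)]) te) te)) te)) (tn te (tn (tn te (tn (tn (tl [(434, .ofNat 2)]) te) te)) te))) (tn (tn (tn (tn (tn (tn (tl [(392, .ofNat 2), (393, .ofNat 1), (394, .ofNat 1), (395, .ofNat 1), (396, .ofNat 2)]) te) te) te) (tn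 (tn (tn (tl [(432, .ofNat 2)]) te) te) te)) (tn (tn te (tn (tn (tl [(434, .ofNat 1)]) te) te)) te)) (tn (tn (tn (tn (tn (tl [(424, .ofNat 1), (425, .ofNat 2), (426, .ofNat 2)]) te) te) te) te) te))) (tn (tn (tn (tn te (tn (tn (tn (tl [(433, .ofNat 1)]) te) te) te)) (tn (tn te (tn (tn (tl [(434, .ofNat 1)]) te) te)) te)) (tn (tn (tn (tn (tn (tl [(419, .ofNat 2), (420, .ofNat 1), (421, .ofNat 1), (422, .ofNat 2)]) te) te) te) te) te)) (tn (tn (tn te (tn (tn (tn (tl [(432, .ofNat 1), (433, .ofNat 1)]) te) te) te)) (tn (tn te (tn (tn (tl [(434, .ofNat 2)]) te) te)) te)) (tn te (tn (tn (tn (tn (tl [(430, .ofNat 1), (431, .ofNat 2)]) te) te) te) te))))) (tn (tn (tn (tn (tn (tn (tn (tn (tl [(312, .ofNat 1), (314, .ofNat 2), (315, .ofNat 1), (317, .ofNat 2), (320, .ofNat 2), (321, .ofNat 1), (322, .ofNat 2), (323, .ofNat 1), (324, .ofNat 1), (325, .ofNat 1)]) te) te) te) (tn (tn (tn (tl [(430, .ofNat 2), (431, .ofNat 2)]) te) te) te))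 (tn (tn (tn (tn (tl [(427, .ofNat 1)]) te) te) (tn (tn (tl [(434, .ofNat 2)]) te) te)) te)) te) (tn (tn (tn (tn (tn (tn (tl [(398, .ofNat 2), (399, .ofNat 2)]) te) te) te) (tn (tn (tn (tl [(432, .ofNat 2), (433, .ofNat 2)]) te) te) te)) (tn (tn te (tn (tn (tl [(434, .ofNat 2)]) te) te)) te)) (tn (tn (tn (tn (tn (tl [(424, .ofNat 1), (426, .ofNat 2)]) te) te) te) te) te))) (tn (tn (tn (tn (tn (tn (tn (tl [(375, .ofNat 1), (376, .ofNat 1), (377, .ofNat 1), (380, .ofNat 1), (382, .ofNat 2), (383, .ofNat 2), (385, .ofNat 2)]) te) te) te) (tn (tn (tn (tl [(432, .ofNat 1)]) te) te) te)) te) (tn (tn (tn (tn (tn (tl [(418, .ofNat 2), (420, .ofNat 2), (422, .ofNat 1)]) te) te) te) te) te)) (tn (tn te (tn (tn te (tn (tn (tl [(434, .ofNat 2)]) te) te)) te)) (tn te (tn (tn (tn (tn (tl [(430, .ofNat 2)]) te) te) te) te))))))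

def r196 : Tr SV := (tn (tn (tn (tn (tn (tn (tn (tn (tn (tl [(293, .ofNat 1), (294, .ofNat 2), (296, .ofNat 1), (297, .ofNat 2), (298, .ofNat 1), (299, .ofNat 1), (300, .ofNat 2), (301, .ofNat 1), (302, .ofNat 1), (304, .ofNat 1), (305, .ofNat 1), (306, .ofNat 2), (307, .ofNat 2), (308, .ofNat 1), (309, .ofNat 1), (310, .ofNat 2), (311, .ofNat 2)]) te) te) te) (tn (tn (tn (tl [(430, .ofNat 2), (431, .ofNat 2)]) te) te) te)) te) (tn te (tn (tn te (tn (tn (tl [(434, .ofNat 2)]) te) te)) te))) (tn (tn (tn (tn (tn (tn (tl [(392, .ofNat 1), (393, .ofNat 2), (395, .ofNat 1), (396, .ofNat 2)]) te) te) te) (tn (tn (tn (tl [(432, .ofNat 2), (433, .ofNat 2)]) te) te) te)) te) (tn (tn (tn (tn (tn (tl [(423, .ofNat 1), (424, .ofNat 1), (425, .ofNat 1), (426, .ofNat 2)]) te) te) te) te) te))) (tn (tn (tn (tn te (tn (tn (tn (tl [(432, .ofNat 2)]) te) te) te)) (tn (tn (tn (tn (tl [(427, .ofNat 1)]) te) te) (tn (tn (tl [(434, .ofNat 1)])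 te) te)) te)) (tn (tn (tn (tn (tn (tl [(419, .ofNat 1), (420, .ofNat 1), (421, .ofNat 2)]) te) te) te) te) te)) (tn (tn (tn te (tn (tn (tn (tl [(433, .ofNat 1)]) te) te) te)) (tn (tn te (tn (tn (tl [(434, .ofNat 1)]) te) te)) te)) (tn te (tn (tn (tn (tn (tl [(430, .ofNat 2), (431, .ofNat 1)]) te) te) te) te))))) (tn (tn (tn (tn (tn (tn (tn (tn (tl [(312, .ofNat 1), (314, .ofNat 1), (315, .ofNat 1), (319, .ofNat 2), (320, .ofNat 2), (321, .ofNat 1), (322, .ofNat 1), (323, .ofNat 2), (325, .ofNat 2)]) te) te) te) (tn (tn (tn (tl [(431, .ofNat 1)]) te) te) te)) (tn (tn (tn (tn (tl [(427, .ofNat 1)]) te) te) (tn (tn (tl [(434, .ofNat 2)]) te) te)) te)) te) (tn (tn (tn (tn (tn (tn (tl [(397, .ofNat 1), (398, .ofNat 1), (399, .ofNat 1), (400, .ofNat 2)]) te) te) te) (tn (tn (tn (tl [(432, .ofNat 2), (433, .ofNat 2)]) te) te) te)) te) (tn (tn (tn (tn (tn (tl [(425, .ofNat 1), (426, .ofNat 2)]) te) te) te) te) te))) (tn (tn (tn (tn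 (tn (tn (tn (tl [(378, .ofNat 2), (382, .ofNat 1), (385, .ofNat 1)]) te) te) te) (tn (tn (tn (tl [(433, .ofNat 2)]) te) te) te)) (tn (tn te (tn (tn (tl [(434, .ofNat 2)]) te) te)) te)) (tn (tn (tn (tn (tn (tl [(418, .ofNat 2), (419, .ofNat 1)]) te) te) te) te) te)) (tn te (tn (tn (tn te (tn (tn (tl [(434, .ofNat 1)]) te) te)) te) (tn (tn (tn (tn (tl [(430, .ofNat 2), (431, .ofNat 2)]) te) te) te) te))))))

def r197 : Tr SV := (tn (tn (tn (tn (tn (tn (tn (tn (tn (tl [(293, .ofNat 2), (294, .ofNat 2), (295, .ofNat 2), (297, .ofNat 1), (298, .ofNat 1), (299, .ofNat 2), (300, .ofNat 2), (302, .ofNat 2), (303, .ofNat 1), (304, .ofNat 1), (307, .ofNat 2), (309, .ofNat 2), (310, .ofNat 1), (311, .ofNat 1)]) te) te) te) (tn (tn (tn (tl [(430, .ofNat 1), (431, .ofNat 1)]) te) te) te)) te) te) (tn (tn (tn (tn (tn (tn (tl [(393, .ofNat 1), (395, .ofNat 2), (396, .ofNat 1)]) te) te) te) (tn (tn (tn (tl [(433, .ofNat 2)]) te) te) te)) te)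 (tn (tn (tn (tn (tn (tl [(423, .ofNat 2), (426, .ofNat 2)]) te) te) te) te) te))) (tn (tn (tn (tn te (tn (tn (tn (tl [(432, .ofNat 1), (433, .ofNat 1)]) te) te) te)) (tn (tn (tn (tn (tl [(427, .ofNat 2)]) te) te) te) te)) (tn (tn (tn (tn (tn (tl [(419, .ofNat 1), (421, .ofNat 2)]) te) te) te) te) te)) (tn (tn (tn te (tn (tn (tn (tl [(433, .ofNat 2)]) te) te) te)) te) (tn te (tn (tn (tn (tn (tl [(430, .ofNat 1), (431, .ofNat 2)]) te) te) te) te))))) (tn (tn (tn (tn (tn (tn (tn (tn (tl [(312, .ofNat 2), (314, .ofNat 1), (315, .ofNat 2), (316, .ofNat 1), (318, .ofNat 2), (321, .ofNat 2), (322, .ofNat 2), (323, .ofNat 1), (324, .ofNat 2), (325, .ofNat 1)]) te) te) te) (tn (tn (tn (tl [(430, .ofNat 1), (431, .ofNat 2)]) te) te) te)) (tn (tn (tn (tn (tl [(427, .ofNat 1)]) te) te) te) te)) (tn te (tn (tn te (tn (tn (tl [(434, .ofNat 2)]) te) te)) te))) (tn (tn (tn (tn (tn (tn (tl [(397, .ofNat 2), (398, .ofNat 1)]) te) te) te) (tn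 (tn (tn (tl [(432, .ofNat 1), (433, .ofNat 2)]) te) te) te)) (tn (tn te (tn (tn (tl [(434, .ofNat 1)]) te) te)) te)) (tn (tn (tn (tn (tn (tl [(423, .ofNat 2), (424, .ofNat 2), (425, .ofNat 1)]) te) te) te) te) te))) (tn (tn (tn (tn (tn (tn (tn (tl [(375, .ofNat 2), (377, .ofNat 2), (378, .ofNat 1), (380, .ofNat 1), (381, .ofNat 1), (383, .ofNat 1), (384, .ofNat 1), (385, .ofNat 2)]) te) te) te) (tn (tn (tn (tl [(432, .ofNat 1), (433, .ofNat 1)]) te) te) te)) (tn (tn te (tn (tn (tl [(434, .ofNat 2)]) te) te)) te)) (tn (tn (tn (tn (tn (tl [(418, .ofNat 2), (419, .ofNat 2), (420, .ofNat 1), (421, .ofNat 2), (422, .ofNat 2)]) te) te) te) te) te)) (tn (tn te (tn (tn te (tn (tn (tl [(434, .ofNat 2)]) te) te)) te)) (tn te (tn (tn (tn (tn (tl [(431, .ofNat 1)]) te) te) te) te))))))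

def r198 : Tr SV := (tn (tn (tn (tn (tn (tn (tn (tn (tn (tl [(292, .ofNat 1), (293, .ofNat 1), (295, .ofNat 1), (297, .ofNat 2), (299, .ofNat 1), (300, .ofNat 1), (301, .ofNat 1), (303, .ofNat 1), (304, .ofNat 2), (306, .ofNat 2), (309, .ofNat 2), (310, .ofNat 1), (311, .ofNat 1)]) te) te) te) (tn (tn (tn (tl [(430, .ofNat 2), (431, .ofNat 2)]) te) te) te)) (tn (tn te (tn (tn (tl [(434, .ofNat 2)]) te) te)) te)) te) (tn (tn (tn (tn (tn (tn (tl [(393, .ofNat 2), (395, .ofNat 2), (396, .ofNat 1)]) te) te) te) (tn (tn (tn (tl [(432, .ofNat 1), (433, .ofNat 1)]) te) te) te)) (tn (tn te (tn (tn (tl [(434, .ofNat 1)]) te) te)) te)) (tn (tn (tn (tn (tn (tl [(423, .ofNat 2), (424, .ofNat 1), (425, .ofNat 1), (426, .ofNat 2)]) te) te) te) te) te))) (tn (tn (tn (tn te (tn (tn (tn (tl [(433, .ofNat 2)]) te) te) te)) (tn (tn (tn (tn (tl [(427, .ofNat 1)]) te) te) (tn (tn (tl [(434, .ofNat 1)]) te) te)) te)) (tn (tn (tn (tn (tn (tl [(419,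 .ofNat 2), (420, .ofNat 2), (421, .ofNat 1)]) te) te) te) te) te)) (tn (tn (tn te (tn (tn (tn (tl [(433, .ofNat 1)]) te) te) te)) te) (tn te (tn (tn (tn (tn (tl [(430, .ofNat 2)]) te) te) te) te))))) (tn (tn (tn (tn (tn (tn (tn (tn (tl [(313, .ofNat 1), (314, .ofNat 1), (315, .ofNat 2), (316, .ofNat 2), (318, .ofNat 1), (320, .ofNat 2), (322, .ofNat 2), (323, .ofNat 1), (324, .ofNat 1), (325, .ofNat 2)]) te) te) te) te) (tn (tn (tn (tn (tl [(427, .ofNat 1)]) te) te) te) te)) te) (tn (tn (tn (tn (tn (tn (tl [(397, .ofNat 1), (398, .ofNat 1), (399, .ofNat 2), (401, .ofNat 2)]) te) te) te) (tn (tn (tn (tl [(432, .ofNat 2)]) te) te) te)) (tn (tn te (tn (tn (tl [(434, .ofNat 2)]) te) te)) te)) (tn (tn (tn (tn (tn (tl [(423, .ofNat 2), (424, .ofNat 2), (425, .ofNat 1), (426, .ofNat 1)]) te) te) te) te) te))) (tn (tn (tn (tn (tn (tn (tn (tl [(375, .ofNat 1), (376, .ofNat 1), (377, .ofNat 1), (382, .ofNat 2), (383, .ofNat 2), (384,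 .ofNat 1), (385, .ofNat 2)]) te) te) te) (tn (tn (tn (tl [(433, .ofNat 1)]) te) te) te)) (tn (tn te (tn (tn (tl [(434, .ofNat 2)]) te) te)) te)) (tn (tn (tn (tn (tn (tl [(418, .ofNat 2), (419, .ofNat 2), (420, .ofNat 1)]) te) te) te) te) te)) (tn (tn te (tn (tn te (tn (tn (tl [(434, .ofNat 1)]) te) te)) te)) (tn (tn (tn te (tn (tn (tl [(434, .ofNat 1)]) te) te)) te) (tn (tn (tn (tn (tl [(430, .ofNat 1), (431, .ofNat 1)]) te) te) te) te))))))

def r199 : Tr SV := (tn (tn (tn (tn (tn (tn (tn (tn (tn (tl [(292, .ofNat 2), (293, .ofNat 1), (294, .ofNat 2), (295, .ofNat 1), (299, .ofNat 1), (301, .ofNat 1), (302, .ofNat 1), (303, .ofNat 1), (304, .ofNat 1), (305, .ofNat 2), (306, .ofNat 1), (307, .ofNat 1), (310, .ofNat 2)]) te) te) te) (tn (tn (tn (tl [(430, .ofNat 1), (431, .ofNat 1)]) te) te) te)) te) (tn te (tn (tn te (tn (tn (tl [(434, .ofNat 2)]) te) te)) te))) (tn (tn (tn (tn (tn (tn (tl [(392, .ofNat 1), (394, .ofNat 2),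 (396, .ofNat 1)]) te) te) te) (tn (tn (tn (tl [(432, .ofNat 2), (433, .ofNat 1)]) te) te) te)) (tn (tn te (tn (tn (tl [(434, .ofNat 2)]) te) te)) te)) (tn (tn (tn (tn (tn (tl [(423, .ofNat 1), (425, .ofNat 2), (426, .ofNat 2)]) te) te) te) te) te))) (tn (tn (tn (tn te (tn (tn (tn (tl [(433, .ofNat 2)]) te) te) te)) (tn (tn (tn (tn (tl [(427, .ofNat 1)]) te) te) (tn (tn (tl [(434, .ofNat 2)]) te) te)) te)) (tn (tn (tn (tn (tn (tl [(418, .ofNat 1), (422, .ofNat 1)]) te) te) te) te) te)) (tn (tn (tn te (tn (tn (tn (tl [(432, .ofNat 1), (433, .ofNat 2)]) te) te) te)) te) (tn te (tn (tn (tn (tn (tl [(430, .ofNat 1), (431, .ofNat 1)]) te) te) te) te))))) (tn (tn (tn (tn (tn (tn (tn (tn (tl [(312, .ofNat 1), (314, .ofNat 2), (317, .ofNat 2), (318, .ofNat 1), (319, .ofNat 2), (321, .ofNat 2), (322, .ofNat 2), (323, .ofNat 2), (325, .ofNat 2)]) te) te) te) (tn (tn (tn (tl [(430, .ofNat 1)]) te) te) te)) (tn (tn te (tn (tn (tl [(434,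 .ofNat 2)]) te) te)) te)) te) (tn (tn (tn (tn (tn (tn (tl [(397, .ofNat 1), (398, .ofNat 1), (400, .ofNat 2), (401, .ofNat 1)]) te) te) te) te) (tn (tn te (tn (tn (tl [(434, .ofNat 1)]) te) te)) te)) (tn (tn (tn (tn (tn (tl [(423, .ofNat 1), (424, .ofNat 1), (425, .ofNat 1), (426, .ofNat 1)]) te) te) te) te) te))) (tn (tn (tn (tn (tn (tn (tn (tl [(375, .ofNat 2), (377, .ofNat 2), (379, .ofNat 1), (380, .ofNat 1), (381, .ofNat 1), (384, .ofNat 1)]) te) te) te) (tn (tn (tn (tl [(432, .ofNat 1), (433, .ofNat 2)]) te) te) te)) te) (tn (tn (tn (tn (tn (tl [(418, .ofNat 2), (419, .ofNat 2), (420, .ofNat 2), (421, .ofNat 1)]) te) te) te) te) te)) (tn (tn te (tn (tn te (tn (tn (tl [(434, .ofNat 2)]) te) te)) te)) (tn te (tn (tn (tn (tn (tl [(431, .ofNat 1)]) te) te) te) te))))))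

def r200 : Tr SV := (tn (tn (tn (tn (tn (tn (tn (tn (tn (tl [(326, .ofNat 1), (328, .ofNat 2), (329, .ofNat 1), (332, .ofNat 1), (334, .ofNat 2), (337, .ofNat 1)]) te) te) te) te) te) (tn (tn (tn (tn (tn (tl [(418, .ofNat 1), (420, .ofNat 1), (421, .ofNat 2)]) te) te) te) te) (tn (tn (tn (tn (tl [(430, .ofNat 2), (431, .ofNat 2)]) te) te) te) te))) (tn (tn te (tn (tn (tn (tn (tl [(429, .ofNat 1)]) te) te) te) te)) (tn (tn (tn te (tn (tn (tl [(434, .ofNat 1)]) te) te)) te) (tn (tn (tn (tn (tl [(432, .ofNat 1)]) te) te) te) te)))) (tn (tn (tn (tn (tn (tn (tn (tl [(370, .ofNat 2)]) te) te) te) te) te) (tn (tn (tn te (tn (tn (tl [(434, .ofNat 1)]) te) te)) te) (tn (tn (tn (tn (tl [(432, .ofNat 1)]) te) te) te) te))) (tn (tn (tn (tn (tn (tn (tl [(409, .ofNat 2), (410, .ofNat 2), (412, .ofNat 1), (413, .ofNat 1)]) te) te) te) te) te) (tn (tn (tn te (tn (tn (tl [(434, .ofNat 1)]) te) te)) te) te)))) (tn (tn (tn (tn (tn (tn (tn (tn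 (tl [(350, .ofNat 2)]) te) te) te) te) te) (tn (tn (tn (tn (tn (tl [(420, .ofNat 1), (421, .ofNat 1), (422, .ofNat 1)]) te) te) te) te) te)) (tn (tn (tn (tn (tn (tn (tl [(402, .ofNat 1), (403, .ofNat 1), (404, .ofNat 2), (406, .ofNat 1), (407, .ofNat 2), (408, .ofNat 1)]) te) te) te) te) te) (tn te (tn (tn (tn (tn (tl [(432, .ofNat 2), (433, .ofNat 1)]) te) te) te) te)))) (tn (tn (tn te (tn (tn (tn (tn (tl [(428, .ofNat 2)]) te) te) te) te)) (tn (tn (tn te (tn (tn (tl [(434, .ofNat 1)]) te) te)) te) te)) (tn (tn (tn (tn (tn (tn (tl [(415, .ofNat 2), (417, .ofNat 1)]) te) te) te) te) (tn (tn (tn (tn (tl [(430, .ofNat 2), (431, .ofNat 1)]) te) te) te) te)) te))))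

def r201 : Tr SV := (tn (tn (tn (tn (tn (tn (tn (tn (tn (tl [(327, .ofNat 1), (332, .ofNat 1)]) te) te) te) te) te) (tn (tn (tn (tn (tn (tl [(418, .ofNat 2), (422, .ofNat 2)]) te) te) te) te) te)) (tn (tn te (tn (tn (tn (tn (tl [(429, .ofNat 2)]) te) te) te) te)) (tn te (tn (tn (tn (tn (tl [(432, .ofNat 1), (433, .ofNat 2)]) te) te) te) te)))) (tn (tn (tn (tn (tn (tn (tn (tl [(365, .ofNat 1), (366, .ofNat 2), (367, .ofNat 2), (369, .ofNat 1), (370, .ofNat 1), (371, .ofNat 1), (372, .ofNat 2), (373, .ofNat 2), (374, .ofNat 2)]) te) te) te) te) te) (tn te (tn (tn (tn (tn (tl [(432, .ofNat 2), (433, .ofNat 1)]) te) te) te) te))) (tn (tn (tn (tn (tn (tn (tl [(409, .ofNat 2), (410, .ofNat 2), (412, .ofNat 1), (413, .ofNat 2)]) te) te) te) te) te) te))) (tn (tn (tn (tn (tn (tn (tn (tn (tl [(338, .ofNat 2), (339, .ofNat 2), (340, .ofNat 2), (342, .ofNat 2), (343, .ofNat 2), (344, .ofNat 1), (346, .ofNat 1), (349, .ofNat 1), (350,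 .ofNat 1), (353, .ofNat 2)]) te) te) te) te) te) (tn (tn (tn (tn (tn (tl [(418, .ofNat 2), (419, .ofNat 2), (421, .ofNat 2), (422, .ofNat 2)]) te) te) te) te) (tn (tn (tn (tn (tl [(430, .ofNat 2)]) te) te) te) te))) (tn (tn (tn (tn (tn (tn (tl [(406, .ofNat 1)]) te) te) te) te) te) (tn te (tn (tn (tn (tn (tl [(432, .ofNat 1), (433, .ofNat 2)]) te) te) te) te)))) (tn (tn (tn te (tn (tn (tn (tn (tl [(429, .ofNat 1)]) te) te) te) te)) (tn te (tn (tn (tn (tn (tl [(432, .ofNat 1), (433, .ofNat 2)]) te) te) te) te))) (tn (tn (tn (tn (tn (tn (tl [(414, .ofNat 1), (415, .ofNat 2), (416, .ofNat 2)]) te) te) te) te) (tn (tn (tn (tn (tl [(430, .ofNat 2)]) te) te) te) te)) te))))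

def r202 : Tr SV := (tn (tn (tn (tn (tn (tn (tn (tn (tn (tl [(330, .ofNat 1), (332, .ofNat 2)]) te) te) te) te) te) (tn (tn (tn (tn (tn (tl [(418, .ofNat 1), (422, .ofNat 1)]) te) te) te) te) (tn (tn (tn (tn (tl [(431, .ofNat 1)]) te) te) te) te))) (tn (tn te (tn (tn (tn (tn (tl [(429, .ofNat 2)]) te) te) te) te)) (tn te (tn (tn (tn (tn (tl [(433, .ofNat 1)]) te) te) te) te)))) (tn (tn (tn (tn (tn (tn (tn (tl [(365, .ofNat 2), (368, .ofNat 1), (369, .ofNat 2), (370, .ofNat 1), (371, .ofNat 1), (373, .ofNat 2), (374, .ofNat 2)]) te) te) te) te) te) (tn te (tn (tn (tn (tn (tl [(432, .ofNat 2), (433, .ofNat 1)]) te) te) te) te))) (tn (tn (tn (tn (tn (tn (tl [(409, .ofNat 1), (410, .ofNat 1), (411, .ofNat 2)]) te) te) te) te) te) te))) (tn (tn (tn (tn (tn (tn (tn (tn (tl [(338, .ofNat 2), (341, .ofNat 1), (343, .ofNat 1)]) te) te) te) te) te) (tn (tn (tn (tn (tn (tl [(418, .ofNat 2), (419, .ofNat 1), (422, .ofNat 2)]) te) te)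 te) te) (tn (tn (tn (tn (tl [(430, .ofNat 2)]) te) te) te) te))) (tn (tn (tn (tn (tn (tn (tl [(402, .ofNat 2), (403, .ofNat 1), (404, .ofNat 2), (406, .ofNat 2), (407, .ofNat 2)]) te) te) te) te) te) (tn te (tn (tn (tn (tn (tl [(432, .ofNat 2)]) te) te) te) te)))) (tn (tn (tn te (tn (tn (tn (tn (tl [(428, .ofNat 1), (429, .ofNat 2)]) te) te) te) te)) (tn te (tn (tn (tn (tn (tl [(432, .ofNat 1), (433, .ofNat 2)]) te) te) te) te))) (tn (tn (tn (tn (tn (tn (tl [(414, .ofNat 1), (416, .ofNat 2)]) te) te) te) te) (tn (tn (tn (tn (tl [(430, .ofNat 2), (431, .ofNat 2)]) te) te) te) te)) te))))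

def r203 : Tr SV := (tn (tn (tn (tn (tn (tn (tn (tn (tn (tl [(328, .ofNat 1), (329, .ofNat 2), (332, .ofNat 2), (333, .ofNat 1), (334, .ofNat 1), (337, .ofNat 2)]) te) te) te) te) te) (tn (tn (tn (tn (tn (tl [(418, .ofNat 1), (420, .ofNat 1), (421, .ofNat 2), (422, .ofNat 1)]) te) te) te) te) (tn (tn (tn (tn (tl [(431, .ofNat 2)]) te) te) te) te))) (tn (tn te (tn (tn (tn (tn (tl [(428, .ofNat 2)]) te) te) te) te)) (tn (tn (tn te (tn (tn (tl [(434, .ofNat 2)]) te) te)) te) (tn (tn (tn (tn (tl [(432, .ofNat 2)]) te) te) te) te)))) (tn (tn (tn (tn (tn (tn (tn (tl [(367, .ofNat 1), (370, .ofNat 1)]) te) te) te) te) te) (tn (tn (tn te (tn (tn (tl [(434, .ofNat 2)]) te) te)) te) (tn (tn (tn (tn (tl [(432, .ofNat 1), (433, .ofNat 1)]) te) te) te) te))) (tn (tn (tn (tn (tn (tn (tl [(409, .ofNat 2), (410, .ofNat 1), (411, .ofNat 1), (412, .ofNat 2)]) te) te) te) te) te) (tn (tn (tn te (tn (tn (tl [(434, .ofNat 2)]) te) te)) te) te))))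 (tn (tn (tn (tn (tn (tn (tn (tn (tl [(347, .ofNat 1), (350, .ofNat 1)]) te) te) te) te) te) (tn (tn (tn (tn (tn (tl [(419, .ofNat 1), (420, .ofNat 2), (421, .ofNat 2)]) te) te) te) te) (tn (tn (tn (tn (tl [(430, .ofNat 1)]) te) te) te) te))) (tn (tn (tn (tn (tn (tn (tl [(402, .ofNat 2), (403, .ofNat 2), (404, .ofNat 2), (405, .ofNat 1), (406, .ofNat 1), (408, .ofNat 1)]) te) te) te) te) te) (tn te (tn (tn (tn (tn (tl [(432, .ofNat 2)]) te) te) te) te)))) (tn (tn (tn te (tn (tn (tn (tn (tl [(429, .ofNat 2)]) te) te) te) te)) (tn (tn (tn te (tn (tn (tl [(434, .ofNat 2)]) te) te)) te) (tn (tn (tn (tn (tl [(432, .ofNat 1), (433, .ofNat 2)]) te) te) te) te))) (tn (tn (tn (tn (tn (tn (tl [(414, .ofNat 2), (415, .ofNat 1)]) te) te) te) te) (tn (tn (tn (tn (tl [(430, .ofNat 1), (431, .ofNat 2)]) te) te) te) te)) te))))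

def r204 : Tr SV := (tn (tn (tn (tn (tn (tn (tn (tn (tn (tl [(339, .ofNat 2), (340, .ofNat 2), (341, .ofNat 2), (342, .ofNat 1), (343, .ofNat 1), (344, .ofNat 2), (345, .ofNat 2), (347, .ofNat 1), (348, .ofNat 2), (350, .ofNat 2), (354, .ofNat 1)]) te) te) te) te) te) (tn (tn (tn (tn (tn (tl [(424, .ofNat 2), (425, .ofNat 2)]) te) te) (tn (tn (tl [(434, .ofNat 1)]) te) te)) te) (tn (tn (tn (tn (tl [(432, .ofNat 1), (433, .ofNat 2)]) te) te) te) te))) (tn (tn (tn (tn (tn (tn (tl [(404, .ofNat 2), (405, .ofNat 1), (407, .ofNat 2), (408, .ofNat 2)]) te) te) (tn (tn (tl [(434, .ofNat 1)]) te) te)) te) te) te)) (tn (tn (tn (tn (tn (tn (tn (tl [(376, .ofNat 2), (379, .ofNat 1), (380, .ofNat 1), (381, .ofNat 1), (382, .ofNat 2), (384, .ofNat 1)]) te) te) te) te) (tn (tn (tn (tn (tl [(429, .ofNat 2)]) te) te) te) te)) te) (tn (tn (tn (tn te (tn (tn (tl [(434, .ofNat 1)]) te) te)) te) (tn (tn (tn (tn (tl [(430, .ofNat 2), (431, .ofNat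 2)]) te) te) te) te)) te))) (tn (tn (tn (tn (tn (tn (tn (tn (tl [(358, .ofNat 1), (360, .ofNat 2), (361, .ofNat 1), (362, .ofNat 2), (363, .ofNat 2)]) te) te) te) te) (tn (tn (tn (tn (tl [(428, .ofNat 1), (429, .ofNat 1)]) te) te) te) te)) (tn (tn (tn (tn (tn (tl [(423, .ofNat 2), (424, .ofNat 1), (425, .ofNat 2)]) te) te) te) te) te)) (tn (tn (tn (tn (tn (tn (tl [(412, .ofNat 2), (413, .ofNat 1)]) te) te) (tn (tn (tl [(434, .ofNat 2)]) te) te)) te) (tn (tn (tn (tn (tl [(430, .ofNat 1)]) te) te) te) te)) te)) (tn te (tn (tn (tn (tn (tn (tn (tl [(418, .ofNat 2), (419, .ofNat 1), (420, .ofNat 1)]) te) te) te) te) (tn (tn (tn (tn (tl [(432, .ofNat 1), (433, .ofNat 2)]) te) te) te) te)) te))))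

def r205 : Tr SV := (tn (tn (tn (tn (tn (tn (tn (tn (tn (tl [(338, .ofNat 1), (339, .ofNat 1), (343, .ofNat 2)]) te) te) te) te) te) (tn (tn (tn (tn (tn (tl [(424, .ofNat 2), (425, .ofNat 2)]) te) te) te) te) te)) (tn (tn (tn (tn (tn (tn (tl [(403, .ofNat 2), (404, .ofNat 2), (405, .ofNat 1), (408, .ofNat 2)]) te) te) te) te) te) te)) (tn (tn (tn (tn (tn (tn (tn (tl [(375, .ofNat 1), (376, .ofNat 2), (377, .ofNat 2), (379, .ofNat 1), (380, .ofNat 2), (381, .ofNat 2), (382, .ofNat 2), (384, .ofNat 2)]) te) te) te) te) te) te) (tn (tn te (tn (tn (tn (tn (tl [(430, .ofNat 2)]) te) te) te) te)) te))) (tn (tn (tn (tn (tn (tn (tn (tn (tl [(356, .ofNat 1)]) te) te) te) te) (tn (tn (tn (tn (tl [(429, .ofNat 1)]) te) te) te) te)) (tn (tn (tn (tn (tn (tl [(423, .ofNat 2)]) te) te) te) te) (tn (tn (tn (tn (tl [(432, .ofNat 2), (433, .ofNat 1)]) te) te) te) te))) (tn (tn (tn (tn (tn (tn (tl [(409, .ofNat 1), (410, .ofNat 1), (411, .ofNat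 2), (412, .ofNat 2)]) te) te) te) te) (tn (tn (tn (tn (tl [(430, .ofNat 2), (431, .ofNat 2)]) te) te) te) te)) te)) (tn te (tn (tn te (tn (tn (tn (tn (tl [(432, .ofNat 2), (433, .ofNat 1)]) te) te) te) te)) te))))

def r206 : Tr SV := (tn (tn (tn (tn (tn (tn (tn (tn (tn (tl [(338, .ofNat 2), (343, .ofNat 1), (344, .ofNat 1)]) te) te) te) te) te) (tn (tn (tn (tn (tn (tl [(423, .ofNat 1), (424, .ofNat 1), (425, .ofNat 2)]) te) te) te) te) te)) (tn (tn (tn (tn (tn (tn (tl [(402, .ofNat 2), (406, .ofNat 2), (407, .ofNat 2)]) te) te) te) te) te) te)) (tn (tn (tn (tn (tn (tn (tn (tl [(375, .ofNat 2), (376, .ofNat 1), (377, .ofNat 2), (379, .ofNat 1), (381, .ofNat 2), (382, .ofNat 2), (383, .ofNat 1), (385, .ofNat 2)]) te) te) te) te) te) te) (tn (tn te (tn (tn (tn (tn (tl [(430, .ofNat 2)]) te) te) te) te)) te))) (tn (tn (tn (tn (tn (tn (tn (tn (tl [(356, .ofNat 1), (358, .ofNat 2)]) te) te) te) te) (tn (tn (tn (tn (tl [(428, .ofNat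 1), (429, .ofNat 2)]) te) te) te) te)) (tn (tn (tn (tn (tn (tl [(424, .ofNat 2)]) te) te) te) te) (tn (tn (tn (tn (tl [(432, .ofNat 2), (433, .ofNat 1)]) te) te) te) te))) (tn (tn (tn (tn (tn (tn (tl [(411, .ofNat 1), (412, .ofNat 1), (413, .ofNat 1)]) te) te) te) te) (tn (tn (tn (tn (tl [(430, .ofNat 2), (431, .ofNat 1)]) te) te) te) te)) te)) (tn te (tn (tn (tn (tn (tn (tn (tl [(418, .ofNat 2), (419, .ofNat 1), (421, .ofNat 2), (422, .ofNat 2)]) te) te) te) te) (tn (tn (tn (tn (tl [(432, .ofNat 1)]) te) te) te) te)) te))))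

def r207 : Tr SV := (tn (tn (tn (tn (tn (tn (tn (tn (tn (tl [(350, .ofNat 1), (351, .ofNat 1)]) te) te) te) te) te) (tn (tn (tn (tn (tn (tl [(423, .ofNat 2), (424, .ofNat 2), (425, .ofNat 1)]) te) te) (tn (tn (tl [(434, .ofNat 1)]) te) te)) te) (tn (tn (tn (tn (tl [(432, .ofNat 2), (433, .ofNat 1)]) te) te) te) te))) (tn (tn (tn (tn (tn (tn (tl [(402, .ofNat 2), (403, .ofNat 1), (404, .ofNat 2), (405, .ofNat 1), (407, .ofNat 1), (408, .ofNat 2)]) te) te) (tn (tn (tl [(434, .ofNat 2)]) te) te)) te) te) te)) (tn (tn (tn (tn (tn (tn (tn (tl [(376, .ofNat 2), (378, .ofNat 1), (379, .ofNat 2), (380, .ofNat 2), (381, .ofNat 2), (382, .ofNat 1), (383, .ofNat 1), (384, .ofNat 1), (385, .ofNat 1)]) te) te) te) te) te) te) (tn (tn (tn (tn te (tn (tn (tl [(434, .ofNat 2)]) te) te)) te) (tn (tn (tn (tn (tl [(430, .ofNat 1), (431, .ofNat 1)]) te) te) te) te)) te))) (tn (tn (tn (tn (tn (tn (tn (tn (tl [(355, .ofNat 1), (356, .ofNat 1),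 (357, .ofNat 2), (358, .ofNat 2), (360, .ofNat 1), (361, .ofNat 2), (362, .ofNat 2)]) te) te) te) te) te) (tn (tn (tn (tn (tn (tl [(423, .ofNat 1)]) te) te) te) te) (tn (tn (tn (tn (tl [(432, .ofNat 1), (433, .ofNat 2)]) te) te) te) te))) (tn (tn (tn (tn (tn (tn (tl [(410, .ofNat 1), (411, .ofNat 2), (412, .ofNat 1)]) te) te) (tn (tn (tl [(434, .ofNat 1)]) te) te)) te) (tn (tn (tn (tn (tl [(431, .ofNat 1)]) te) te) te) te)) te)) (tn te (tn (tn (tn (tn (tn (tn (tl [(418, .ofNat 1), (419, .ofNat 1), (420, .ofNat 1), (421, .ofNat 2), (422, .ofNat 1)]) te) te) te) te) te) te))))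

def r208 : Tr SV := (tn (tn (tn (tn (tn (tn (tn (tn (tn (tl [(364, .ofNat 2), (365, .ofNat 2), (370, .ofNat 2), (371, .ofNat 1), (372, .ofNat 1)]) te) te) te) te) te) te) (tn (tn (tn (tn (tn (tn (tl [(414, .ofNat 1), (415, .ofNat 1), (416, .ofNat 1), (417, .ofNat 1)]) te) te) te) te) (tn (tn (tn (tn (tl [(432, .ofNat 1), (433, .ofNat 2)]) te) te) te) te)) te)) (tn (tn (tn (tn (tn te (tn (tn (tl [(434, .ofNat 2)]) te) te)) te) (tn (tn (tn (tn (tl [(430, .ofNat 1), (431, .ofNat 1)]) te) te) te) te)) te) (tn (tn (tn (tn (tn (tn (tl [(423, .ofNat 1), (424, .ofNat 2), (425, .ofNat 1)]) te) te) te) te) te) te))) (tn (tn (tn (tn (tn (tn (tn (tn (tl [(378, .ofNat 1), (379, .ofNat 1), (380, .ofNat 2), (381, .ofNat 2), (382, .ofNat 1), (383, .ofNat 1), (385, .ofNat 2)]) te) te) (tn (tn (tl [(434, .ofNat 2)]) te) te)) te) te) te) (tn (tn (tn (tn (tn (tn (tl [(419, .ofNat 2), (420, .ofNat 1), (421, .ofNat 1), (422, .ofNat 2)]) te) te)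 te) te) te) te)) (tn (tn (tn (tn (tn te (tn (tn (tl [(434, .ofNat 1)]) te) te)) te) (tn (tn (tn (tn (tl [(432, .ofNat 1), (433, .ofNat 2)]) te) te) te) te)) te) te)))

def r209 : Tr SV := (tn (tn (tn (tn (tn (tn (tn (tn (tn (tl [(365, .ofNat 1), (367, .ofNat 1), (372, .ofNat 1), (374, .ofNat 1)]) te) te) te) te) te) te) (tn (tn (tn (tn (tn (tn (tl [(415, .ofNat 1), (416, .ofNat 1)]) te) te) te) te) (tn (tn (tn (tn (tl [(432, .ofNat 1), (433, .ofNat 2)]) te) te) te) te)) te)) (tn (tn (tn te (tn (tn (tn (tn (tl [(430, .ofNat 2), (431, .ofNat 1)]) te) te) te) te)) te) (tn (tn (tn (tn (tn (tn (tl [(424, .ofNat 2)]) te) te) te) te) te) te))) (tn (tn (tn (tn (tn (tn (tn (tn (tl [(375, .ofNat 1), (376, .ofNat 1), (377, .ofNat 1), (378, .ofNat 1), (379, .ofNat 2), (381, .ofNat 2), (382, .ofNat 1), (383, .ofNat 1), (384, .ofNat 2), (385, .ofNat 1)]) te) te) te) te) (tn (tn (tn (tn (tl [(430, .ofNat 2)]) te) te) te) te)) te) (tn (tn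 (tn (tn (tn (tn (tl [(418, .ofNat 2), (422, .ofNat 1)]) te) te) te) te) te) te)) te))

def r210 : Tr SV := (tn (tn (tn (tn (tn (tn (tn (tn (tn (tl [(365, .ofNat 1), (366, .ofNat 2), (367, .ofNat 2), (368, .ofNat 2), (369, .ofNat 1), (370, .ofNat 1), (371, .ofNat 1), (372, .ofNat 2), (373, .ofNat 2)]) te) te) te) te) te) te) (tn (tn (tn (tn (tn (tn (tl [(414, .ofNat 2), (415, .ofNat 1), (417, .ofNat 1)]) te) te) te) te) (tn (tn (tn (tn (tl [(432, .ofNat 1), (433, .ofNat 2)]) te) te) te) te)) te)) (tn (tn (tn te (tn (tn (tn (tn (tl [(430, .ofNat 2)]) te) te) te) te)) te) (tn (tn (tn (tn (tn (tn (tl [(423, .ofNat 1), (424, .ofNat 1)]) te) te) te) te) te) te))) (tn (tn (tn (tn (tn (tn (tn (tn (tl [(375, .ofNat 1), (376, .ofNat 1), (377, .ofNat 1), (378, .ofNat 2), (379, .ofNat 2), (380, .ofNat 1), (382, .ofNat 1), (383, .ofNat 1)]) te) te) te) te) (tn (tn (tn (tn (tl [(430, .ofNat 2), (431, .ofNat 2)]) te) te) te) te)) te) (tn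 (tn (tn (tn (tn (tn (tl [(420, .ofNat 2)]) te) te) te) te) te) te)) (tn (tn (tn te (tn (tn (tn (tn (tl [(432, .ofNat 2), (433, .ofNat 2)]) te) te) te) te)) te) te)))

def r211 : Tr SV := (tn (tn (tn (tn (tn (tn (tn (tn (tn (tl [(370, .ofNat 1), (371, .ofNat 1)]) te) te) te) te) te) te) (tn (tn (tn (tn (tn (tn (tl [(414, .ofNat 2), (417, .ofNat 2)]) te) te) te) te) (tn (tn (tn (tn (tl [(432, .ofNat 1), (433, .ofNat 2)]) te) te) te) te)) te)) (tn (tn (tn (tn (tn te (tn (tn (tl [(434, .ofNat 2)]) te) te)) te) (tn (tn (tn (tn (tl [(430, .ofNat 1), (431, .ofNat 1)]) te) te) te) te)) te) (tn (tn (tn (tn (tn (tn (tl [(424, .ofNat 2), (425, .ofNat 1)]) te) te) te) te) te) te))) (tn (tn (tn (tn (tn (tn (tn (tn (tl [(376, .ofNat 2), (380, .ofNat 2), (382, .ofNat 1), (383, .ofNat 1), (384, .ofNat 2), (385, .ofNat 1)]) te) te) te) te) (tn (tn (tn (tn (tl [(430, .ofNat 1), (431, .ofNat 2)]) te) te) te) te)) te) (tn (tn (tn (tn (tn (tn (tl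 [(419, .ofNat 1), (420, .ofNat 1), (422, .ofNat 2)]) te) te) te) te) te) te)) (tn (tn (tn (tn (tn te (tn (tn (tl [(434, .ofNat 2)]) te) te)) te) (tn (tn (tn (tn (tl [(432, .ofNat 2), (433, .ofNat 1)]) te) te) te) te)) te) te)))

def r212 : Tr SV := (tn (tn (tn (tn (tn (tn (tn te (tn (tn (tl [(434, .ofNat 1)]) te) te)) te) (tn (tn (tn (tn (tl [(427, .ofNat 2)]) te) te) te) te)) te) te) te) (tn te (tn (tn (tn (tn (tn (tn (tn (tl [(386, .ofNat 2)]) te) te) te) te) te) te) te)))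

def r213 : Tr SV := (tn (tn te (tn te (tn te (tn te (tn te (tn (tn (tn (tl [(434, .ofNat 1)]) te) te) te)))))) (tn (tn te (tn te (tn te (tn te (tn (tn (tn (tl [(434, .ofNat 2)]) te) te) te))))) (tn (tn (tn (tn (tn (tn (tn (tl [(387, .ofNat 2), (390, .ofNat 1), (391, .ofNat 1)]) te) te) te) te) te) te) (tn te (tn (tn (tn (tn (tn (tl [(427, .ofNat 2)]) te) te) te) te) (tn te (tn (tn (tn (tl [(434, .ofNat 1)]) te) te) te)))))))

def r214 : Tr SV := (tn (tn (tn (tn (tn te (tn (tn (tn (tn (tl [(428, .ofNat 2)]) te) te) te) te)) te) te) (tn (tn (tn (tn (tn (tn (tn (tl [(386, .ofNat 1)]) te) te) te) te) te) te) (tn te (tn (tn (tn (tn (tn (tl [(427, .ofNat 1)]) te) te) te) te) (tn te (tn (tn (tn (tl [(434, .ofNat 2)]) te) te) te)))))) (tn (tn te (tn te (tn te (tn te (tn (tn (tn (tl [(434, .ofNat 2)]) te) te) te))))) (tn (tn (tn (tn (tn (tn (tn (tl [(387, .ofNat 1), (388, .ofNat 2), (389, .ofNat 2), (390, .ofNat 2), (391, .ofNat 2)])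 te) te) te) te) te) te) (tn te (tn (tn (tn (tn (tn (tl [(427, .ofNat 1)]) te) te) te) te) (tn te (tn (tn (tn (tl [(434, .ofNat 2)]) te) te) te)))))))

def r215 : Tr SV := (tn (tn (tn (tn (tn te (tn (tn (tn (tn (tl [(428, .ofNat 2), (429, .ofNat 2)]) te) te) te) te)) te) te) (tn te (tn te (tn (tn (tn (tn (tn (tl [(427, .ofNat 1)]) te) te) te) te) te)))) (tn (tn te (tn te (tn te (tn te (tn (tn (tn (tl [(434, .ofNat 2)]) te) te) te))))) (tn (tn (tn (tn (tn (tn (tn (tl [(387, .ofNat 1), (388, .ofNat 2), (391, .ofNat 2)]) te) te) te) te) te) te) (tn te (tn (tn (tn (tn (tn (tl [(427, .ofNat 2)]) te) te) te) te) (tn te (tn (tn (tn (tl [(434, .ofNat 1)]) te) te) te)))))))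

def r216 : Tr SV := (tn (tn (tn (tn (tn te (tn (tn (tn (tn (tl [(428, .ofNat 2), (429, .ofNat 1)]) te) te) te) te)) te) te) (tn te (tn te (tn (tn (tn (tn (tn (tl [(427, .ofNat 1)]) te) te) te) te) (tn te (tn (tn (tn (tl [(434, .ofNat 1)]) te) te) te)))))) (tn (tn te (tn te (tn te (tn te (tn (tn (tn (tl [(434, .ofNat 2)]) te) te) te))))) (tn (tn (tn (tn (tn (tn (tn (tl [(388, .ofNat 2), (389, .ofNat 1), (390, .ofNat 2), (391, .ofNat 2)]) te) te) te) te) te) te) (tn te (tn (tn (tn (tn (tn (tl [(427, .ofNat 1)]) te) te) te) te) (tn te (tn (tn (tn (tl [(434, .ofNat 2)]) te) te) te)))))))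

def r217 : Tr SV := (tn (tn te (tn (tn (tn (tn (tn (tn (tn (tl [(386, .ofNat 2)]) te) te) te) te) te) te) (tn te (tn (tn (tn (tn (tn (tl [(427, .ofNat 1)]) te) te) te) te) (tn te (tn (tn (tn (tl [(434, .ofNat 1)]) te) te) te)))))) (tn (tn te (tn te (tn te (tn te (tn (tn (tn (tl [(434, .ofNat 1)]) te) te) te))))) (tn (tn (tn (tn (tn (tn (tn (tl [(387, .ofNat 1), (390, .ofNat 2), (391, .ofNat 1)]) te) te) te) te) te) te) te)))

def r218 : Tr SV := (tn (tn (tn (tn (tn te (tn (tn (tn (tn (tl [(428, .ofNat 1)]) te) te) te) te)) te) te) (tn (tn (tn (tn (tn (tn (tn (tl [(386, .ofNat 1)]) te) te) te) te) te) te) te)) (tn (tn te (tn te (tn te (tn te (tn (tn (tn (tl [(434, .ofNat 1)]) te) te) te))))) (tn (tn (tn (tn (tn (tn (tn (tl [(387, .ofNat 1), (388, .ofNat 1), (389, .ofNat 1), (390, .ofNat 2)]) te) te) te) te) te) te) (tn te (tn (tn (tn (tn (tn (tl [(427, .ofNat 1)]) te) te) te) te) (tn te (tn (tn (tn (tl [(434, .ofNat 2)]) te)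 te) te)))))))

def r219 : Tr SV := (tn (tn (tn (tn (tn te (tn (tn (tn (tn (tl [(429, .ofNat 2)]) te) te) te) te)) te) te) (tn te (tn te (tn (tn (tn (tn (tn (tl [(427, .ofNat 1)]) te) te) te) te) (tn te (tn (tn (tn (tl [(434, .ofNat 1)]) te) te) te)))))) (tn (tn te (tn te (tn te (tn te (tn (tn (tn (tl [(434, .ofNat 2)]) te) te) te))))) (tn (tn (tn (tn (tn (tn (tn (tl [(387, .ofNat 1), (389, .ofNat 1)]) te) te) te) te) te) te) (tn te (tn (tn (tn (tn (tn (tl [(427, .ofNat 1)]) te) te) te) te) (tn te (tn (tn (tn (tl [(434, .ofNat 2)]) te) te) te)))))))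

def r220 : Tr SV := (tn (tn (tn (tn (tn te (tn (tn (tn (tn (tl [(430, .ofNat 2)]) te) te) te) te)) te) (tn te (tn (tn (tn (tn (tn (tl [(427, .ofNat 2)]) te) te) te) te) te))) (tn (tn te (tn te (tn te (tn (tn (tn (tl [(434, .ofNat 1)]) te) te) te)))) te)) (tn (tn (tn (tn (tn (tn (tn (tn (tl [(386, .ofNat 1)]) te) te) te) te) te) te) te) (tn (tn (tn (tn (tn (tn (tn (tl [(394, .ofNat 1), (395, .ofNat 1), (396, .ofNat 2)]) te) te) te) te) te) (tn te (tn te (tn (tn (tn (tl [(434, .ofNat 2)]) te) te) te)))) te)))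

def r221 : Tr SV := (tn (tn (tn (tn (tn te (tn (tn (tn (tn (tl [(430, .ofNat 1), (431, .ofNat 2)]) te) te) te) te)) te) (tn te (tn (tn (tn (tn (tn (tl [(427, .ofNat 2)]) te) te) te) te) (tn te (tn (tn (tn (tl [(434, .ofNat 2)]) te) te) te))))) (tn (tn te (tn te (tn te (tn (tn (tn (tl [(434, .ofNat 2)]) te) te) te)))) te)) (tn (tn te (tn te (tn (tn (tn (tn (tn (tl [(427, .ofNat 1)]) te) te) te) te) te))) (tn (tn (tn (tn (tn (tn (tn (tl [(393, .ofNat 2), (394, .ofNat 1), (395, .ofNat 2), (396, .ofNat 2)]) te) te) te) te) te) te) te)))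

def r222 : Tr SV := (tn (tn (tn (tn (tn te (tn (tn (tn (tn (tl [(431, .ofNat 1)]) te) te) te) te)) te) (tn te (tn (tn (tn (tn (tn (tl [(427, .ofNat 2)]) te) te) te) te) (tn te (tn (tn (tn (tl [(434, .ofNat 2)]) te) te) te))))) te) (tn (tn (tn (tn (tn (tn (tn (tn (tl [(386, .ofNat 1)]) te) te) te) te) te) te) (tn te (tn (tn (tn (tn (tn (tl [(427, .ofNat 1)]) te) te) te) te) te))) (tn (tn (tn (tn (tn (tn (tn (tl [(392, .ofNat 1), (393, .ofNat 2), (396, .ofNat 2)]) te) te) te) te) te) (tn te (tn te (tn (tn (tn (tl [(434, .ofNat 1)]) te) te) te)))) te)))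

def r223 : Tr SV := (tn (tn (tn (tn (tn te (tn (tn (tn (tn (tl [(430, .ofNat 2)]) te) te) te) te)) te) (tn te (tn te (tn te (tn (tn (tn (tl [(434, .ofNat 1)]) te) te) te))))) (tn (tn te (tn te (tn te (tn (tn (tn (tl [(434, .ofNat 2)]) te) te) te)))) te)) (tn (tn (tn (tn (tn (tn (tn (tn (tl [(386, .ofNat 2)]) te) te) te) te) te) te) (tn te (tn (tn (tn (tn (tn (tl [(427, .ofNat 2)]) te) te) te) te) te))) (tn (tn (tn (tn (tn (tn (tn (tl [(392, .ofNat 1), (393, .ofNat 1), (395, .ofNat 1), (396, .ofNat 1)]) te) te) te) te) te) te) te)))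

def r224 : Tr SV := (tn (tn (tn (tn (tn te (tn (tn (tn (tn (tl [(430, .ofNat 2), (431, .ofNat 1)]) te) te) te) te)) te) (tn te (tn (tn (tn (tn (tn (tl [(427, .ofNat 1)]) te) te) te) te) (tn te (tn (tn (tn (tl [(434, .ofNat 2)]) te) te) te))))) (tn (tn te (tn te (tn te (tn (tn (tn (tl [(434, .ofNat 2)]) te) te) te)))) te)) (tn (tn (tn (tn (tn (tn (tn (tn (tl [(386, .ofNat 1)]) te) te) te) te) te) te) (tn te (tn (tn (tn (tn (tn (tl [(427, .ofNat 1)]) te) te) te) te) te))) (tn (tn (tn (tn (tn (tn (tn (tl [(392, .ofNat 1), (393, .ofNat 2), (394, .ofNat 1), (395, .ofNat 1), (396, .ofNat 2)]) te) te) te) te) te) (tn te (tn te (tn (tn (tn (tl [(434, .ofNat 2)]) te) te) te)))) te)))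

def r225 : Tr SV := (tn (tn (tn (tn (tn te (tn (tn (tn (tn (tl [(430, .ofNat 1)]) te) te) te) te)) te) (tn te (tn (tn (tn (tn (tn (tl [(427, .ofNat 2)]) te) te) te) te) (tn te (tn (tn (tn (tl [(434, .ofNat 1)]) te) te) te))))) te) (tn (tn te (tn te (tn (tn (tn (tn (tn (tl [(427, .ofNat 2)]) te) te) te) te) te))) (tn (tn (tn (tn (tn (tn (tn (tl [(394, .ofNat 2), (395, .ofNat 2)]) te) te) te) te) te) (tn te (tn te (tn (tn (tn (tl [(434, .ofNat 2)]) te) te) te)))) te)))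

def r226 : Tr SV := (tn (tn (tn (tn (tn te (tn (tn (tn (tn (tl [(430, .ofNat 2)]) te) te) te) te)) te) te) (tn (tn te (tn te (tn te (tn (tn (tn (tl [(434, .ofNat 2)]) te) te) te)))) te)) (tn te (tn (tn (tn (tn (tn (tn (tn (tl [(392, .ofNat 1), (393, .ofNat 1), (395, .ofNat 1), (396, .ofNat 1)]) te) te) te) te) te) te) te)))

def r227 : Tr SV := (tn (tn (tn (tn (tn te (tn (tn (tn (tn (tl [(432, .ofNat 1), (433, .ofNat 2)]) te) te) te) te)) (tn te (tn te (tn (tn (tn (tl [(434, .ofNat 1)]) te) te) te)))) te) (tn (tn te (tn (tn (tn (tn (tn (tl [(427, .ofNat 1)]) te) te) te) te) te)) te)) (tn (tn (tn te (tn te (tn te (tn (tn (tn (tl [(434, .ofNat 2)]) te) te) te)))) te) (tn (tn (tn (tn (tn (tn (tn (tl [(401, .ofNat 1)]) te) te) te) te) te) (tn (tn (tn (tn (tn (tl [(427, .ofNat 1)]) te) te) te) te) te)) te)))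

def r228 : Tr SV := (tn (tn (tn (tn (tn te (tn (tn (tn (tn (tl [(432, .ofNat 2), (433, .ofNat 1)]) te) te) te) te)) (tn te (tn te (tn (tn (tn (tl [(434, .ofNat 1)]) te) te) te)))) te) (tn (tn te (tn (tn (tn (tn (tn (tl [(427, .ofNat 2)]) te) te) te) te) te)) te)) (tn te (tn (tn (tn (tn (tn (tn (tn (tl [(397, .ofNat 1), (399, .ofNat 1), (400, .ofNat 1), (401, .ofNat 1)]) te) te) te) te) te) te) (tn (tn te (tn te (tn (tn (tn (tl [(434, .ofNat 1)]) te) te) te))) te))))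

def r229 : Tr SV := (tn (tn (tn (tn (tn (tn (tn (tn (tn (tl [(386, .ofNat 2)]) te) te) te) te) (tn (tn (tn (tn (tl [(432, .ofNat 1), (433, .ofNat 1)]) te) te) te) te)) (tn te (tn te (tn (tn (tn (tl [(434, .ofNat 2)]) te) te) te)))) te) te) (tn te (tn (tn (tn (tn (tn (tn (tn (tl [(398, .ofNat 2), (399, .ofNat 2), (400, .ofNat 2), (401, .ofNat 2)]) te) te) te) te) te) te) (tn (tn te (tn te (tn (tn (tn (tl [(434, .ofNat 1)]) te) te) te))) te))))

def r230 : Tr SV := (tn (tn (tn (tn (tn (tn (tn (tn (tn (tl [(386, .ofNat 1)]) te) te) te) te) (tn (tn (tn (tn (tl [(433, .ofNat 1)]) te) te) te) te)) (tn te (tn te (tn (tn (tn (tl [(434, .ofNat 2)]) te) te) te)))) te) te) (tn (tn (tn te (tn te (tn te (tn (tn (tn (tl [(434, .ofNat 1)]) te) te) te)))) te) (tn (tn (tn (tn (tn (tn (tn (tl [(398, .ofNat 2), (400, .ofNat 1)]) te) te) te) te) te) (tn (tn (tn (tn (tn (tl [(427, .ofNat 2)]) te) te) te) te) te)) te)))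

def r231 : Tr SV := (tn (tn (tn (tn (tn te (tn (tn (tn (tn (tl [(432, .ofNat 1), (433, .ofNat 1)]) te) te) te) te)) te) te) (tn (tn te (tn (tn (tn (tn (tn (tl [(427, .ofNat 2)]) te) te) te) te) te)) te)) (tn (tn (tn te (tn te (tn te (tn (tn (tn (tl [(434, .ofNat 2)]) te) te) te)))) te) (tn (tn (tn (tn (tn (tn (tn (tl [(397, .ofNat 2), (400, .ofNat 1), (401, .ofNat 1)]) te) te) te) te) te) (tn (tn (tn (tn (tn (tl [(427, .ofNat 1)]) te) te) te) te) te)) (tn (tn te (tn te (tn (tn (tn (tl [(434, .ofNat 1)]) te) te) te))) te))))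

def r232 : Tr SV := (tn (tn (tn (tn (tn (tn (tn (tn (tn (tl [(386, .ofNat 2)]) te) te) te) te) te) te) te) (tn (tn te (tn (tn (tn (tn (tn (tl [(427, .ofNat 2)]) te) te) te) te) te)) te)) (tn te (tn (tn (tn (tn (tn (tn (tn (tl [(398, .ofNat 2), (399, .ofNat 1), (401, .ofNat 2)]) te) te) te) te) te) te) (tn (tn te (tn te (tn (tn (tn (tl [(434, .ofNat 1)]) te) te) te))) te))))

def r233 : Tr SV := (tn (tn (tn te (tn (tn te (tn te (tn (tn (tn (tl [(434, .ofNat 1)]) te) te) te))) (tn (tn (tn (tn (tn (tl [(428, .ofNat 1), (429, .ofNat 2)]) te) te) te) te) te))) (tn (tn (tn (tn (tn (tn (tn (tl [(392, .ofNat 2), (393, .ofNat 1), (394, .ofNat 2)]) te) te) te) te) te) te) (tn te (tn (tn (tn (tn (tn (tl [(431, .ofNat 1)]) te) te) te) te) te)))) (tn (tn (tn (tn (tn (tn (tn (tn (tl [(387, .ofNat 1), (388, .ofNat 1), (389, .ofNat 2), (390, .ofNat 2), (391, .ofNat 2)]) te) te) te) te) (tn te (tn (tn (tn (tl [(434, .ofNat 1)]) te) te) te)))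 (tn (tn (tn (tn (tn (tl [(427, .ofNat 2)]) te) te) te) te) te)) (tn (tn te (tn te (tn (tn (tn (tl [(434, .ofNat 2)]) te) te) te))) (tn (tn (tn (tn (tn (tl [(428, .ofNat 2), (429, .ofNat 2)]) te) te) te) te) te))) (tn (tn (tn (tn (tn (tn (tn (tl [(402, .ofNat 2), (403, .ofNat 2), (404, .ofNat 1), (405, .ofNat 2), (406, .ofNat 1), (407, .ofNat 2), (408, .ofNat 1)]) te) te) te) te) (tn te (tn (tn (tn (tl [(434, .ofNat 2)]) te) te) te))) te) te)))

def r234 : Tr SV := (tn (tn (tn (tn (tn te (tn te (tn (tn (tn (tl [(434, .ofNat 2)]) te) te) te))) (tn (tn (tn (tn (tn (tl [(427, .ofNat 1)]) te) te) te) te) te)) (tn (tn te (tn te (tn (tn (tn (tl [(434, .ofNat 1)]) te) te) te))) (tn (tn (tn (tn (tn (tl [(428, .ofNat 2)]) te) te) te) te) te))) (tn (tn (tn (tn (tn (tn (tn (tl [(392, .ofNat 1), (393, .ofNat 2), (395, .ofNat 2), (396, .ofNat 1)]) te) te) te) te) (tn te (tn (tn (tn (tl [(434, .ofNat 2)]) te) te) te))) te) (tn te (tn (tn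 (tn (tn (tn (tl [(430, .ofNat 1), (431, .ofNat 2)]) te) te) te) te) te)))) (tn (tn (tn (tn (tn (tn (tn (tn (tl [(387, .ofNat 1), (388, .ofNat 1), (391, .ofNat 1)]) te) te) te) te) (tn te (tn (tn (tn (tl [(434, .ofNat 2)]) te) te) te))) (tn (tn (tn (tn (tn (tl [(427, .ofNat 1)]) te) te) te) te) te)) (tn (tn te (tn te (tn (tn (tn (tl [(434, .ofNat 1)]) te) te) te))) (tn (tn (tn (tn (tn (tl [(428, .ofNat 1), (429, .ofNat 1)]) te) te) te) te) te))) (tn (tn (tn (tn (tn (tn (tn (tl [(402, .ofNat 2), (403, .ofNat 2), (404, .ofNat 1), (405, .ofNat 1), (407, .ofNat 2), (408, .ofNat 2)]) te) te) te) te) (tn te (tn (tn (tn (tl [(434, .ofNat 1)]) te) te) te))) te) (tn te (tn (tn (tn (tn (tn (tl [(431, .ofNat 1)]) te) te) te) te) te)))))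

def r235 : Tr SV := (tn (tn (tn te (tn te (tn (tn (tn (tn (tn (tl [(429, .ofNat 1)]) te) te) te) te) te))) (tn (tn (tn (tn (tn (tn (tn (tl [(393, .ofNat 2), (394, .ofNat 1)]) te) te) te) te) te) te) (tn te (tn (tn (tn (tn (tn (tl [(430, .ofNat 2)]) te) te) te) te) te)))) (tn (tn (tn (tn (tn (tn (tn (tn (tl [(387, .ofNat 1), (389, .ofNat 2), (390, .ofNat 2)]) te) te) te) te) (tn te (tn (tn (tn (tl [(434, .ofNat 2)]) te) te) te))) (tn (tn (tn (tn (tn (tl [(427, .ofNat 1)]) te) te) te) te) te)) (tn te (tn (tn (tn (tn (tn (tl [(428, .ofNat 1), (429, .ofNat 1)]) te) te) te) te) te))) (tn (tn (tn (tn (tn (tn (tn (tl [(402, .ofNat 2), (403, .ofNat 2), (404, .ofNat 2), (405, .ofNat 2), (406, .ofNat 2), (407, .ofNat 2), (408, .ofNat 1)]) te) te) te) te) te) te) (tn te (tn (tn (tn (tn (tn (tl [(431, .ofNat 1)]) te) te) te) te) te)))))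

def r236 : Tr SV := (tn (tn (tn (tn (tn te (tn te (tn (tn (tn (tl [(434, .ofNat 2)]) te) te) te))) (tn (tn (tn (tn (tn (tl [(427, .ofNat 1)]) te) te) te) te) te)) (tn (tn te (tn te (tn (tn (tn (tl [(434, .ofNat 2)]) te) te) te))) (tn (tn (tn (tn (tn (tl [(429, .ofNat 1)]) te) te) te) te) te))) (tn (tn (tn (tn (tn (tn (tn (tl [(395, .ofNat 1), (396, .ofNat 2)]) te) te) te) te) (tn te (tn (tn (tn (tl [(434, .ofNat 1)]) te) te) te))) te) (tn te (tn (tn (tn (tn (tn (tl [(431, .ofNat 2)]) te) te) te) te) te)))) (tn (tn (tn (tn (tn (tn (tn (tn (tl [(388, .ofNat 1), (389, .ofNat 2), (390, .ofNat 1)]) te) te) te) te) (tn te (tn (tn (tn (tl [(434, .ofNat 1)]) te) te) te))) (tn (tn (tn (tn (tn (tl [(427, .ofNat 2)]) te) te) te) te) te)) (tn (tn te (tn te (tn (tn (tn (tl [(434, .ofNat 2)]) te) te) te))) (tn (tn (tn (tn (tn (tl [(428, .ofNat 2), (429, .ofNat 2)]) te) te) te) te) te))) (tn (tn (tn (tn (tn (tn (tn (tl [(402, .ofNat 2),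 (403, .ofNat 2), (404, .ofNat 1), (406, .ofNat 1), (407, .ofNat 2), (408, .ofNat 1)]) te) te) te) te) (tn te (tn (tn (tn (tl [(434, .ofNat 2)]) te) te) te))) te) te)))

def r237 : Tr SV := (tn (tn (tn te (tn (tn te (tn te (tn (tn (tn (tl [(434, .ofNat 1)]) te) te) te))) (tn (tn (tn (tn (tn (tl [(428, .ofNat 1), (429, .ofNat 2)]) te) te) te) te) te))) (tn (tn (tn (tn (tn (tn (tn (tl [(392, .ofNat 1), (394, .ofNat 1), (395, .ofNat 1), (396, .ofNat 1)]) te) te) te) te) te) te) (tn te (tn (tn (tn (tn (tn (tl [(431, .ofNat 1)]) te) te) te) te) te)))) (tn (tn (tn (tn (tn (tn (tn (tn (tl [(388, .ofNat 1), (391, .ofNat 2)]) te) te) te) te) te) te) (tn (tn te (tn te (tn (tn (tn (tl [(434, .ofNat 1)]) te) te) te))) te)) (tn (tn (tn (tn (tn (tn (tn (tl [(402, .ofNat 1), (403, .ofNat 2), (404, .ofNat 2), (405, .ofNat 1), (407, .ofNat 1)]) te) te) te) te) (tn te (tn (tn (tn (tl [(434, .ofNat 1)]) te) te) te))) te) te)))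

def r238 : Tr SV := (tn (tn (tn te (tn te (tn (tn (tn (tn (tn (tl [(428, .ofNat 2), (429, .ofNat 2)]) te) te) te) te) te))) (tn (tn (tn (tn (tn (tn (tn (tl [(392, .ofNat 1), (394, .ofNat 1)]) te) te) te) te) te) te) (tn te (tn (tn (tn (tn (tn (tl [(431, .ofNat 2)]) te) te) te) te) te)))) (tn (tn (tn (tn (tn (tn (tn (tn (tl [(388, .ofNat 2), (390, .ofNat 1), (391, .ofNat 2)]) te) te) te) te) te) te) (tn te (tn (tn (tn (tn (tn (tl [(428, .ofNat 2), (429, .ofNat 2)]) te) te) te) te) te))) (tn (tn (tn (tn (tn (tn (tn (tl [(403, .ofNat 2), (404, .ofNat 1), (406, .ofNat 2)]) te) te) te) te) te) te) (tn te (tn (tn (tn (tn (tn (tl [(431, .ofNat 2)]) te) te) te) te) te)))))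

def r239 : Tr SV := (tn (tn (tn te (tn (tn te (tn te (tn (tn (tn (tl [(434, .ofNat 1)]) te) te) te))) (tn (tn (tn (tn (tn (tl [(428, .ofNat 2)]) te) te) te) te) te))) (tn (tn (tn (tn (tn (tn (tn (tl [(392, .ofNat 2), (395, .ofNat 2), (396, .ofNat 1)]) te) te) te) te) (tn te (tn (tn (tn (tl [(434, .ofNat 2)]) te) te) te))) te) (tn te (tn (tn (tn (tn (tn (tl [(430, .ofNat 1), (431, .ofNat 2)]) te) te) te) te) te)))) (tn (tn (tn (tn (tn (tn (tn (tn (tl [(389, .ofNat 2), (390, .ofNat 1)]) te) te) te) te) (tn te (tn (tn (tn (tl [(434, .ofNat 2)]) te) te) te))) te) (tn (tn te (tn te (tn (tn (tn (tl [(434, .ofNat 2)]) te) te) te))) (tn (tn (tn (tn (tn (tl [(429, .ofNat 2)]) te) te) te) te) te))) (tn (tn (tn (tn (tn (tn (tn (tl [(408, .ofNat 1)]) te) te) te) te) te) te) (tn te (tn (tn (tn (tn (tn (tl [(430, .ofNat 2)]) te) te) te) te) te)))))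

def r240 : Tr SV := (tn (tn (tn (tn (tn te (tn te (tn (tn (tn (tl [(434, .ofNat 1)]) te) te) te))) te) (tn (tn te (tn te (tn (tn (tn (tl [(434, .ofNat 1)]) te) te) te))) (tn (tn (tn (tn (tn (tl [(428, .ofNat 1), (429, .ofNat 1)]) te) te) te) te) te))) (tn (tn (tn (tn (tn (tn (tn (tl [(392, .ofNat 2), (395, .ofNat 1), (396, .ofNat 2)]) te) te) te) te) (tn te (tn (tn (tn (tl [(434, .ofNat 1)]) te) te) te))) te) (tn te (tn (tn (tn (tn (tn (tl [(431, .ofNat 2)]) te) te) te) te) te)))) (tn (tn (tn (tn (tn (tn (tn (tn (tl [(388, .ofNat 2), (389, .ofNat 2), (391, .ofNat 1)]) te) te) te) te) (tn te (tn (tn (tn (tl [(434, .ofNat 1)]) te) te) te))) (tn (tn (tn (tn (tn (tl [(427, .ofNat 2)]) te) te) te) te) te)) (tn te (tn (tn (tn (tn (tn (tl [(429, .ofNat 1)]) te) te) te) te) te))) (tn (tn (tn (tn (tn (tn (tn (tl [(402, .ofNat 1), (403, .ofNat 2), (405, .ofNat 1), (408, .ofNat 1)]) te) te) te) te) (tn te (tn (tn (tn (tl [(434, .ofNat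 2)]) te) te) te))) te) (tn te (tn (tn (tn (tn (tn (tl [(430, .ofNat 2)]) te) te) te) te) te)))))

def r241 : Tr SV := (tn (tn (tn (tn te (tn (tn (tn (tn (tn (tl [(427, .ofNat 2)]) te) te) te) te) te)) (tn (tn te (tn te (tn (tn (tn (tl [(434, .ofNat 2)]) te) te) te))) (tn (tn (tn (tn (tn (tl [(429, .ofNat 1)]) te) te) te) te) te))) (tn (tn (tn (tn (tn (tn (tn (tl [(392, .ofNat 2), (393, .ofNat 2), (394, .ofNat 1), (395, .ofNat 1)]) te) te) te) te) (tn te (tn (tn (tn (tl [(434, .ofNat 1)]) te) te) te))) te) (tn (tn te (tn te (tn (tn (tn (tl [(434, .ofNat 2)]) te) te) te))) (tn (tn (tn (tn (tn (tl [(431, .ofNat 2)]) te) te) te) te) te)))) (tn (tn (tn (tn (tn (tn (tn (tn (tl [(387, .ofNat 2), (390, .ofNat 2)]) te) te) te) te) te) te) (tn (tn te (tn te (tn (tn (tn (tl [(434, .ofNat 1)]) te) te) te))) (tn (tn (tn (tn (tn (tl [(428, .ofNat 2), (429, .ofNat 1)]) te) te) te) te) te))) (tn (tn (tn (tn (tn (tn (tn (tl [(402, .ofNat 2),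 (403, .ofNat 1), (404, .ofNat 1), (405, .ofNat 2), (406, .ofNat 2), (407, .ofNat 1), (408, .ofNat 1)]) te) te) te) te) (tn te (tn (tn (tn (tl [(434, .ofNat 2)]) te) te) te))) te) (tn te (tn (tn (tn (tn (tn (tl [(430, .ofNat 1), (431, .ofNat 1)]) te) te) te) te) te)))))

def r242 : Tr SV := (tn (tn (tn (tn (tn te (tn te (tn (tn (tn (tl [(434, .ofNat 2)]) te) te) te))) (tn (tn (tn (tn (tn (tl [(427, .ofNat 2)]) te) te) te) te) te)) (tn te (tn (tn (tn (tn (tn (tl [(428, .ofNat 1), (429, .ofNat 1)]) te) te) te) te) te))) (tn (tn (tn (tn (tn (tn (tn (tl [(392, .ofNat 1), (393, .ofNat 1), (394, .ofNat 1), (396, .ofNat 1)]) te) te) te) te) te) te) (tn (tn te (tn te (tn (tn (tn (tl [(434, .ofNat 1)]) te) te) te))) (tn (tn (tn (tn (tn (tl [(431, .ofNat 2)]) te) te) te) te) te)))) (tn (tn (tn (tn (tn (tn (tn (tn (tl [(387, .ofNat 2), (388, .ofNat 2), (389, .ofNat 2), (390, .ofNat 2), (391, .ofNat 2)]) te) te) te) te) (tn te (tn (tn (tn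 (tl [(434, .ofNat 1)]) te) te) te))) (tn (tn (tn (tn (tn (tl [(427, .ofNat 1)]) te) te) te) te) te)) (tn (tn te (tn te (tn (tn (tn (tl [(434, .ofNat 2)]) te) te) te))) (tn (tn (tn (tn (tn (tl [(429, .ofNat 2)]) te) te) te) te) te))) (tn (tn (tn (tn (tn (tn (tn (tl [(402, .ofNat 2), (403, .ofNat 2), (404, .ofNat 2), (405, .ofNat 2), (406, .ofNat 2), (408, .ofNat 2)]) te) te) te) te) (tn te (tn (tn (tn (tl [(434, .ofNat 2)]) te) te) te))) te) (tn te (tn (tn (tn (tn (tn (tl [(430, .ofNat 2), (431, .ofNat 2)]) te) te) te) te) te)))))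

def r243 : Tr SV := (tn (tn (tn (tn (tn te (tn te (tn (tn (tn (tl [(434, .ofNat 1)]) te) te) te))) te) (tn (tn te (tn te (tn (tn (tn (tl [(434, .ofNat 2)]) te) te) te))) (tn (tn (tn (tn (tn (tl [(429, .ofNat 1)]) te) te) te) te) te))) (tn (tn (tn (tn (tn (tn (tn (tl [(392, .ofNat 2), (393, .ofNat 2), (394, .ofNat 1), (395, .ofNat 2), (396, .ofNat 2)]) te) te) te) te) (tn te (tn (tn (tn (tl [(434, .ofNat 2)]) te) te) te))) te) (tn (tn te (tn te (tn (tn (tn (tl [(434, .ofNat 1)]) te) te) te))) te))) (tn (tn (tn (tn (tn (tn (tn (tn (tl [(387, .ofNat 1), (388, .ofNat 1), (389, .ofNat 2), (390, .ofNat 2)]) te) te) te) te) te) (tn (tn (tn (tn (tn (tl [(427, .ofNat 2)]) te) te) te) te) te)) (tn (tn te (tn te (tn (tn (tn (tl [(434, .ofNat 1)]) te) te) te))) (tn (tn (tn (tn (tn (tl [(428, .ofNat 2), (429, .ofNat 2)]) te) te) te) te) te))) (tn (tn (tn (tn (tn (tn (tn (tl [(403, .ofNat 2), (404, .ofNat 1), (407, .ofNat 1), (408, .ofNat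 1)]) te) te) te) te) te) te) (tn te (tn (tn (tn (tn (tn (tl [(430, .ofNat 1), (431, .ofNat 2)]) te) te) te) te) te)))))

def r244 : Tr SV := (tn (tn (tn (tn te (tn (tn (tn (tn (tn (tl [(427, .ofNat 1)]) te) te) te) te) te)) te) (tn (tn (tn (tn (tn (tn (tn (tl [(393, .ofNat 1), (394, .ofNat 1), (395, .ofNat 2), (396, .ofNat 1)]) te) te) te) te) (tn te (tn (tn (tn (tl [(434, .ofNat 1)]) te) te) te))) te) (tn te (tn (tn (tn (tn (tn (tl [(431, .ofNat 2)]) te) te) te) te) te)))) (tn (tn (tn (tn (tn (tn (tn (tn (tl [(388, .ofNat 2), (389, .ofNat 2), (390, .ofNat 1)]) te) te) te) te) te) (tn (tn (tn (tn (tn (tl [(427, .ofNat 1)]) te) te) te) te) te)) (tn (tn te (tn te (tn (tn (tn (tl [(434, .ofNat 2)]) te) te) te))) (tn (tn (tn (tn (tn (tl [(428, .ofNat 2)]) te) te) te) te) te))) (tn (tn (tn (tn (tn (tn (tn (tl [(402, .ofNat 2), (403, .ofNat 1), (405, .ofNat 1), (406, .ofNat 2), (407, .ofNat 1)]) te) te) te) te) (tn te (tn (tn (tn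 (tl [(434, .ofNat 2)]) te) te) te))) te) (tn te (tn (tn (tn (tn (tn (tl [(430, .ofNat 1), (431, .ofNat 2)]) te) te) te) te) te)))))

def r245 : Tr SV := (tn (tn (tn (tn te (tn (tn (tn (tn (tn (tl [(427, .ofNat 1)]) te) te) te) te) te)) (tn te (tn (tn (tn (tn (tn (tl [(429, .ofNat 2)]) te) te) te) te) te))) (tn (tn (tn (tn (tn (tn (tn (tl [(392, .ofNat 2), (393, .ofNat 2), (395, .ofNat 2)]) te) te) te) te) te) te) (tn te (tn (tn (tn (tn (tn (tl [(430, .ofNat 1)]) te) te) te) te) te)))) (tn (tn (tn (tn (tn (tn (tn (tn (tl [(387, .ofNat 1), (388, .ofNat 2), (390, .ofNat 2)]) te) te) te) te) (tn te (tn (tn (tn (tl [(434, .ofNat 2)]) te) te) te))) te) (tn (tn te (tn te (tn (tn (tn (tl [(434, .ofNat 2)]) te) te) te))) (tn (tn (tn (tn (tn (tl [(428, .ofNat 2), (429, .ofNat 2)]) te) te) te) te) te))) (tn (tn (tn (tn (tn (tn (tn (tl [(403, .ofNat 2), (404, .ofNat 2), (407, .ofNat 2)]) te) te) te) te) te) te) (tn te (tn (tn (tn (tn (tn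 (tl [(431, .ofNat 1)]) te) te) te) te) te)))))

def r246 : Tr SV := (tn (tn (tn (tn (tn te (tn te (tn (tn (tn (tl [(434, .ofNat 2)]) te) te) te))) (tn (tn (tn (tn (tn (tl [(427, .ofNat 1)]) te) te) te) te) te)) (tn (tn te (tn te (tn (tn (tn (tl [(434, .ofNat 1)]) te) te) te))) (tn (tn (tn (tn (tn (tl [(428, .ofNat 2)]) te) te) te) te) te))) (tn (tn (tn (tn (tn (tn (tn (tl [(395, .ofNat 1), (396, .ofNat 2)]) te) te) te) te) te) te) (tn (tn te (tn te (tn (tn (tn (tl [(434, .ofNat 2)]) te) te) te))) te))) (tn (tn (tn (tn (tn (tn (tn (tn (tl [(387, .ofNat 1), (388, .ofNat 2), (389, .ofNat 1), (391, .ofNat 2)]) te) te) te) te) te) (tn (tn (tn (tn (tn (tl [(427, .ofNat 2)]) te) te) te) te) te)) (tn (tn te (tn te (tn (tn (tn (tl [(434, .ofNat 1)]) te) te) te))) (tn (tn (tn (tn (tn (tl [(429, .ofNat 2)]) te) te) te) te) te))) (tn (tn (tn (tn (tn (tn (tn (tl [(402, .ofNat 2), (403, .ofNat 2), (404, .ofNat 1), (405, .ofNat 2), (406,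 .ofNat 1), (408, .ofNat 2)]) te) te) te) te) (tn te (tn (tn (tn (tl [(434, .ofNat 2)]) te) te) te))) te) (tn te (tn (tn (tn (tn (tn (tl [(430, .ofNat 2), (431, .ofNat 1)]) te) te) te) te) te)))))

def r247 : Tr SV := (tn (tn (tn (tn (tn te (tn te (tn (tn (tn (tl [(434, .ofNat 2)]) te) te) te))) (tn (tn (tn (tn (tn (tl [(427, .ofNat 2)]) te) te) te) te) te)) (tn (tn te (tn te (tn (tn (tn (tl [(434, .ofNat 2)]) te) te) te))) (tn (tn (tn (tn (tn (tl [(428, .ofNat 2), (429, .ofNat 2)]) te) te) te) te) te))) (tn (tn (tn (tn (tn (tn (tn (tl [(393, .ofNat 2), (394, .ofNat 2), (395, .ofNat 2), (396, .ofNat 2)]) te) te) te) te) te) te) (tn (tn te (tn te (tn (tn (tn (tl [(434, .ofNat 1)]) te) te) te))) (tn (tn (tn (tn (tn (tl [(430, .ofNat 2)]) te) te) te) te) te)))) (tn (tn (tn (tn (tn (tn (tn (tn (tl [(389, .ofNat 1), (390, .ofNat 1)]) te) te) te) te) te) (tn (tn (tn (tn (tn (tl [(427, .ofNat 1)]) te) te) te) te) te)) (tn te (tn (tn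 (tn (tn (tn (tl [(429, .ofNat 1)]) te) te) te) te) te))) (tn (tn (tn (tn (tn (tn (tn (tl [(402, .ofNat 1), (403, .ofNat 1), (404, .ofNat 2), (405, .ofNat 2), (406, .ofNat 2), (407, .ofNat 2), (408, .ofNat 2)]) te) te) te) te) te) te) (tn te (tn (tn (tn (tn (tn (tl [(430, .ofNat 2), (431, .ofNat 1)]) te) te) te) te) te)))))

def r248 : Tr SV := (tn (tn (tn (tn te (tn (tn (tn (tn (tn (tl [(427, .ofNat 2)]) te) te) te) te) te)) (tn (tn te (tn te (tn (tn (tn (tl [(434, .ofNat 1)]) te) te) te))) (tn (tn (tn (tn (tn (tl [(428, .ofNat 1)]) te) te) te) te) te))) (tn (tn (tn (tn (tn (tn (tn (tl [(392, .ofNat 2), (395, .ofNat 1)]) te) te) te) te) (tn te (tn (tn (tn (tl [(434, .ofNat 1)]) te) te) te))) te) (tn (tn te (tn te (tn (tn (tn (tl [(434, .ofNat 2)]) te) te) te))) (tn (tn (tn (tn (tn (tl [(430, .ofNat 1), (431, .ofNat 1)]) te) te) te) te) te)))) (tn (tn (tn (tn (tn (tn (tn (tn (tl [(387, .ofNat 1), (388, .ofNat 1), (390, .ofNat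 2)]) te) te) te) te) (tn te (tn (tn (tn (tl [(434, .ofNat 1)]) te) te) te))) te) (tn (tn te (tn te (tn (tn (tn (tl [(434, .ofNat 1)]) te) te) te))) (tn (tn (tn (tn (tn (tl [(429, .ofNat 2)]) te) te) te) te) te))) (tn (tn (tn (tn (tn (tn (tn (tl [(402, .ofNat 2), (403, .ofNat 1), (404, .ofNat 2), (405, .ofNat 2), (406, .ofNat 2), (407, .ofNat 1)]) te) te) te) te) (tn te (tn (tn (tn (tl [(434, .ofNat 2)]) te) te) te))) te) (tn te (tn (tn (tn (tn (tn (tl [(430, .ofNat 2), (431, .ofNat 1)]) te) te) te) te) te)))))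

def r249 : Tr SV := (tn (tn (tn (tn (tn te (tn te (tn (tn (tn (tl [(434, .ofNat 1)]) te) te) te))) (tn (tn (tn (tn (tn (tl [(427, .ofNat 1)]) te) te) te) te) te)) (tn te (tn (tn (tn (tn (tn (tl [(428, .ofNat 1), (429, .ofNat 1)]) te) te) te) te) te))) (tn (tn (tn (tn (tn (tn (tn (tl [(393, .ofNat 1), (394, .ofNat 2), (395, .ofNat 2), (396, .ofNat 2)]) te) te) te) te) te) te) (tn te (tn (tn (tn (tn (tn (tl [(431, .ofNat 2)]) te) te) te) te) te)))) (tn (tn (tn (tn (tn (tn (tn (tn (tl [(388, .ofNat 2), (389, .ofNat 1), (390, .ofNat 1)]) te) te) te) te) (tn te (tn (tn (tn (tl [(434, .ofNat 1)]) te) te) te))) (tn (tn (tn (tn (tn (tl [(427, .ofNat 2)]) te) te) te) te) te)) (tn te (tn (tn (tn (tn (tn (tl [(428, .ofNat 2), (429, .ofNat 1)]) te) te) te) te) te))) (tn (tn (tn (tn (tn (tn (tn (tl [(402, .ofNat 1), (404, .ofNat 2), (405, .ofNat 2), (406, .ofNat 2), (407, .ofNat 2)]) te) te) te) te) (tn te (tn (tn (tn (tl [(434, .ofNat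 1)]) te) te) te))) te) (tn te (tn (tn (tn (tn (tn (tl [(430, .ofNat 1)]) te) te) te) te) te)))))

def r250 : Tr SV := (tn (tn (tn (tn (tn te (tn te (tn (tn (tn (tl [(434, .ofNat 2)]) te) te) te))) te) (tn te (tn (tn (tn (tn (tn (tl [(428, .ofNat 2)]) te) te) te) te) te))) (tn (tn (tn (tn (tn (tn (tn (tl [(392, .ofNat 1), (393, .ofNat 2), (395, .ofNat 2), (396, .ofNat 1)]) te) te) te) te) te) te) (tn te (tn (tn (tn (tn (tn (tl [(430, .ofNat 1), (431, .ofNat 1)]) te) te) te) te) te)))) (tn (tn (tn (tn (tn (tn (tn (tn (tl [(387, .ofNat 1), (388, .ofNat 2), (389, .ofNat 2), (390, .ofNat 1), (391, .ofNat 1)]) te) te) te) te) (tn te (tn (tn (tn (tl [(434, .ofNat 2)]) te) te) te))) (tn (tn (tn (tn (tn (tl [(427, .ofNat 1)]) te) te) te) te) te)) (tn (tn te (tn te (tn (tn (tn (tl [(434, .ofNat 2)]) te) te) te))) (tn (tn (tn (tn (tn (tl [(428, .ofNat 2), (429, .ofNat 1)]) te) te) te) te) te))) (tn (tn (tn (tn (tn (tn (tn (tl [(403, .ofNat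 2), (404, .ofNat 1), (405, .ofNat 1), (407, .ofNat 1)]) te) te) te) te) (tn te (tn (tn (tn (tl [(434, .ofNat 2)]) te) te) te))) te) (tn te (tn (tn (tn (tn (tn (tl [(431, .ofNat 1)]) te) te) te) te) te)))))

def r251 : Tr SV := (tn (tn (tn (tn (tn te (tn te (tn (tn (tn (tl [(434, .ofNat 1)]) te) te) te))) (tn (tn (tn (tn (tn (tl [(427, .ofNat 1)]) te) te) te) te) te)) (tn te (tn (tn (tn (tn (tn (tl [(428, .ofNat 1)]) te) te) te) te) te))) (tn (tn (tn (tn (tn (tn (tn (tl [(396, .ofNat 2)]) te) te) te) te) te) te) (tn (tn te (tn te (tn (tn (tn (tl [(434, .ofNat 2)]) te) te) te))) (tn (tn (tn (tn (tn (tl [(430, .ofNat 1), (431, .ofNat 2)]) te) te) te) te) te)))) (tn (tn (tn (tn (tn (tn (tn (tn (tl [(387, .ofNat 2), (388, .ofNat 1)]) te) te) te) te) (tn te (tn (tn (tn (tl [(434, .ofNat 1)]) te) te) te))) (tn (tn (tn (tn (tn (tl [(427, .ofNat 2)]) te) te) te) te) te)) (tn (tn te (tn te (tn (tn (tn (tl [(434, .ofNat 2)]) te) te) te)))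 (tn (tn (tn (tn (tn (tl [(428, .ofNat 2)]) te) te) te) te) te))) (tn (tn (tn (tn (tn (tn (tn (tl [(402, .ofNat 2), (403, .ofNat 1), (404, .ofNat 2), (405, .ofNat 2), (406, .ofNat 2), (407, .ofNat 1)]) te) te) te) te) (tn te (tn (tn (tn (tl [(434, .ofNat 2)]) te) te) te))) te) (tn te (tn (tn (tn (tn (tn (tl [(431, .ofNat 2)]) te) te) te) te) te)))))

def r252 : Tr SV := (tn (tn (tn te (tn (tn te (tn te (tn (tn (tn (tl [(434, .ofNat 1)]) te) te) te))) te)) (tn (tn (tn (tn (tn (tn (tn (tl [(392, .ofNat 2), (393, .ofNat 1), (394, .ofNat 1), (395, .ofNat 2), (396, .ofNat 2)]) te) te) te) te) (tn te (tn (tn (tn (tl [(434, .ofNat 1)]) te) te) te))) te) (tn (tn te (tn te (tn (tn (tn (tl [(434, .ofNat 1)]) te) te) te))) te))) (tn (tn (tn (tn (tn (tn (tn (tn (tl [(388, .ofNat 2), (389, .ofNat 2), (391, .ofNat 2)]) te) te) te) te) (tn te (tn (tn (tn (tl [(434, .ofNat 1)]) te) te) te))) (tn (tn (tn (tn (tn (tl [(427, .ofNat 1)]) te) te)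 te) te) te)) te) (tn (tn (tn (tn (tn (tn (tn (tl [(402, .ofNat 1), (403, .ofNat 2), (404, .ofNat 2), (405, .ofNat 1), (408, .ofNat 2)]) te) te) te) te) te) te) (tn te (tn (tn (tn (tn (tn (tl [(430, .ofNat 2), (431, .ofNat 2)]) te) te) te) te) te)))))

def r253 : Tr SV := (tn (tn (tn (tn (tn te (tn te (tn (tn (tn (tl [(434, .ofNat 1)]) te) te) te))) te) (tn (tn te (tn te (tn (tn (tn (tl [(434, .ofNat 2)]) te) te) te))) (tn (tn (tn (tn (tn (tl [(429, .ofNat 2)]) te) te) te) te) te))) (tn (tn (tn (tn (tn (tn (tn (tl [(393, .ofNat 2), (396, .ofNat 2)]) te) te) te) te) (tn te (tn (tn (tn (tl [(434, .ofNat 2)]) te) te) te))) te) te)) (tn (tn (tn (tn (tn (tn (tn (tn (tl [(387, .ofNat 1), (388, .ofNat 1), (389, .ofNat 1), (390, .ofNat 1), (391, .ofNat 2)]) te) te) te) te) (tn te (tn (tn (tn (tl [(434, .ofNat 1)]) te) te) te))) (tn (tn (tn (tn (tn (tl [(427, .ofNat 2)]) te) te) te) te) te)) (tn te (tn (tn (tn (tn (tn (tl [(428, .ofNat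 2)]) te) te) te) te) te))) (tn (tn (tn (tn (tn (tn (tn (tl [(404, .ofNat 1), (405, .ofNat 1), (406, .ofNat 2), (407, .ofNat 2), (408, .ofNat 2)]) te) te) te) te) (tn te (tn (tn (tn (tl [(434, .ofNat 2)]) te) te) te))) te) (tn te (tn (tn (tn (tn (tn (tl [(431, .ofNat 1)]) te) te) te) te) te)))))

def r254 : Tr SV := (tn (tn (tn (tn (tn te (tn te (tn (tn (tn (tl [(434, .ofNat 2)]) te) te) te))) (tn (tn (tn (tn (tn (tl [(427, .ofNat 2)]) te) te) te) te) te)) (tn te (tn (tn (tn (tn (tn (tl [(428, .ofNat 2)]) te) te) te) te) te))) (tn (tn (tn (tn (tn (tn (tn (tl [(392, .ofNat 2), (393, .ofNat 1), (394, .ofNat 2), (395, .ofNat 1), (396, .ofNat 1)]) te) te) te) te) te) te) (tn (tn te (tn te (tn (tn (tn (tl [(434, .ofNat 2)]) te) te) te))) (tn (tn (tn (tn (tn (tl [(430, .ofNat 2), (431, .ofNat 1)]) te) te) te) te) te)))) (tn (tn (tn (tn (tn (tn (tn (tn (tl [(387, .ofNat 2), (388, .ofNat 2), (389, .ofNat 1), (391, .ofNat 1)]) te) te)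 te) te) (tn te (tn (tn (tn (tl [(434, .ofNat 1)]) te) te) te))) te) (tn (tn te (tn te (tn (tn (tn (tl [(434, .ofNat 2)]) te) te) te))) (tn (tn (tn (tn (tn (tl [(428, .ofNat 2), (429, .ofNat 1)]) te) te) te) te) te))) (tn (tn (tn (tn (tn (tn (tn (tl [(405, .ofNat 2)]) te) te) te) te) (tn te (tn (tn (tn (tl [(434, .ofNat 2)]) te) te) te))) te) (tn te (tn (tn (tn (tn (tn (tl [(430, .ofNat 1), (431, .ofNat 1)]) te) te) te) te) te)))))

def r255 : Tr SV := (tn (tn (tn (tn te (tn (tn (tn (tn (tn (tl [(427, .ofNat 1)]) te) te) te) te) te)) (tn te (tn (tn (tn (tn (tn (tl [(428, .ofNat 1), (429, .ofNat 2)]) te) te) te) te) te))) (tn (tn (tn (tn (tn (tn (tn (tl [(392, .ofNat 2), (393, .ofNat 2), (395, .ofNat 1)]) te) te) te) te) te) te) (tn te (tn (tn (tn (tn (tn (tl [(431, .ofNat 2)]) te) te) te) te) te)))) (tn (tn (tn (tn (tn (tn (tn (tn (tl [(387, .ofNat 1), (388, .ofNat 1), (389, .ofNat 2), (390, .ofNat 1)]) te) te) te) te) (tn te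 (tn (tn (tn (tl [(434, .ofNat 1)]) te) te) te))) (tn (tn (tn (tn (tn (tl [(427, .ofNat 2)]) te) te) te) te) te)) (tn te (tn (tn (tn (tn (tn (tl [(428, .ofNat 2)]) te) te) te) te) te))) (tn (tn (tn (tn (tn (tn (tn (tl [(403, .ofNat 2), (405, .ofNat 1), (406, .ofNat 2), (407, .ofNat 2)]) te) te) te) te) (tn te (tn (tn (tn (tl [(434, .ofNat 1)]) te) te) te))) te) (tn te (tn (tn (tn (tn (tn (tl [(430, .ofNat 2)]) te) te) te) te) te)))))

def r256 : Tr SV := (tn (tn (tn (tn (tn te (tn te (tn (tn (tn (tl [(434, .ofNat 2)]) te) te) te))) (tn (tn (tn (tn (tn (tl [(427, .ofNat 1)]) te) te) te) te) te)) (tn (tn te (tn te (tn (tn (tn (tl [(434, .ofNat 1)]) te) te) te))) (tn (tn (tn (tn (tn (tl [(428, .ofNat 2), (429, .ofNat 2)]) te) te) te) te) te))) (tn (tn (tn (tn (tn (tn (tn (tl [(392, .ofNat 1), (394, .ofNat 1), (396, .ofNat 1)]) te) te) te) te) (tn te (tn (tn (tn (tl [(434, .ofNat 2)]) te) te) te))) te) (tn (tn te (tn te (tn (tn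 (tn (tl [(434, .ofNat 2)]) te) te) te))) (tn (tn (tn (tn (tn (tl [(430, .ofNat 2), (431, .ofNat 1)]) te) te) te) te) te)))) (tn (tn (tn (tn (tn (tn (tn (tn (tl [(387, .ofNat 1), (389, .ofNat 2), (390, .ofNat 2)]) te) te) te) te) (tn te (tn (tn (tn (tl [(434, .ofNat 2)]) te) te) te))) (tn (tn (tn (tn (tn (tl [(427, .ofNat 1)]) te) te) te) te) te)) (tn te (tn (tn (tn (tn (tn (tl [(428, .ofNat 2)]) te) te) te) te) te))) (tn (tn (tn (tn (tn (tn (tn (tl [(402, .ofNat 2), (404, .ofNat 2), (405, .ofNat 1), (406, .ofNat 2)]) te) te) te) te) te) te) (tn te (tn (tn (tn (tn (tn (tl [(430, .ofNat 2), (431, .ofNat 2)]) te) te) te) te) te)))))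

def r257 : Tr SV := (tn (tn (tn (tn te (tn (tn (tn (tn (tn (tl [(427, .ofNat 2)]) te) te) te) te) te)) (tn (tn te (tn te (tn (tn (tn (tl [(434, .ofNat 1)]) te) te) te))) (tn (tn (tn (tn (tn (tl [(428, .ofNat 2), (429, .ofNat 1)]) te) te) te) te) te))) (tn (tn (tn (tn (tn (tn (tn (tl [(393, .ofNat 2), (394, .ofNat 1), (395, .ofNat 1)]) te) te) te) te) te) te) (tn (tn te (tn te (tn (tn (tn (tl [(434, .ofNat 1)]) te) te) te))) (tn (tn (tn (tn (tn (tl [(431, .ofNat 2)]) te) te) te) te) te)))) (tn (tn (tn (tn (tn (tn (tn (tn (tl [(387, .ofNat 2), (390, .ofNat 1), (391, .ofNat 2)]) te) te) te) te) (tn te (tn (tn (tn (tl [(434, .ofNat 1)]) te) te) te))) (tn (tn (tn (tn (tn (tl [(427, .ofNat 1)]) te) te) te) te) te)) (tn te (tn (tn (tn (tn (tn (tl [(428, .ofNat 2)]) te) te) te) te) te))) (tn (tn (tn (tn (tn (tn (tn (tl [(403, .ofNat 1), (404, .ofNat 2), (406, .ofNat 1), (408, .ofNat 1)]) te) te) te) te) (tn te (tn (tn (tn (tl [(434,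 .ofNat 2)]) te) te) te))) te) (tn te (tn (tn (tn (tn (tn (tl [(430, .ofNat 2), (431, .ofNat 2)]) te) te) te) te) te)))))

def r258 : Tr SV := (tn (tn (tn (tn (tn (tn (tn (tn (tn (tl [(387, .ofNat 1), (388, .ofNat 1), (390, .ofNat 2)]) te) te) te) te) te) te) te) (tn (tn (tn (tn (tn (tn (tn (tl [(397, .ofNat 1), (398, .ofNat 2), (400, .ofNat 2), (401, .ofNat 1)]) te) te) te) te) te) (tn (tn (tn (tn (tn (tl [(428, .ofNat 1)]) te) te) te) te) te)) (tn te (tn (tn (tn (tn (tn (tl [(432, .ofNat 1)]) te) te) te) te) te)))) (tn (tn te (tn te (tn (tn te (tn (tn (tn (tl [(434, .ofNat 2)]) te) te) te)) te))) (tn (tn (tn (tn (tn (tn (tn (tl [(409, .ofNat 1), (410, .ofNat 2), (411, .ofNat 1), (412, .ofNat 2), (413, .ofNat 2)]) te) te) te) te) te) (tn (tn (tn (tn (tn (tl [(428, .ofNat 1), (429, .ofNat 1)]) te) te) te) (tn (tn (tn (tl [(434, .ofNat 2)]) te) te) te)) te)) (tn (tn (tn (tn (tn (tn (tl [(427, .ofNat 1)]) te) te) te) te) te) (tn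 (tn te (tn (tn (tn (tl [(434, .ofNat 2)]) te) te) te)) te)))))

def r259 : Tr SV := (tn (tn (tn (tn (tn (tn (tn (tn (tn (tl [(387, .ofNat 1), (388, .ofNat 2), (390, .ofNat 1)]) te) te) te) te) te) te) te) (tn (tn (tn (tn (tn (tn (tn (tl [(398, .ofNat 2), (400, .ofNat 2)]) te) te) te) te) te) (tn (tn (tn (tn (tn (tl [(428, .ofNat 2)]) te) te) te) te) te)) (tn te (tn (tn (tn (tn (tn (tl [(432, .ofNat 2), (433, .ofNat 2)]) te) te) te) (tn (tn (tn (tl [(434, .ofNat 1)]) te) te) te)) te)))) (tn (tn te (tn te (tn (tn te (tn (tn (tn (tl [(434, .ofNat 2)]) te) te) te)) te))) (tn (tn (tn (tn (tn (tn (tn (tl [(409, .ofNat 2), (410, .ofNat 2), (411, .ofNat 2)]) te) te) te) te) te) (tn (tn (tn (tn (tn (tl [(428, .ofNat 2), (429, .ofNat 2)]) te) te) te) (tn (tn (tn (tl [(434, .ofNat 1)]) te) te) te)) te)) (tn (tn (tn (tn (tn (tn (tl [(427, .ofNat 2)]) te) te) te) te) te) (tn (tn (tn (tn (tn (tl [(432, .ofNat 1), (433, .ofNat 1)]) te) te)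 te) (tn (tn (tn (tl [(434, .ofNat 2)]) te) te) te)) te)))))

def r260 : Tr SV := (tn (tn (tn (tn (tn (tn (tn (tn (tn (tl [(389, .ofNat 2), (390, .ofNat 1)]) te) te) te) te) te) te) te) (tn (tn (tn (tn (tn (tn (tn (tl [(400, .ofNat 2), (401, .ofNat 2)]) te) te) te) te) te) (tn (tn (tn (tn (tn (tl [(428, .ofNat 1), (429, .ofNat 2)]) te) te) te) te) te)) (tn te (tn (tn (tn (tn (tn (tl [(432, .ofNat 1)]) te) te) te) te) te)))) (tn (tn te (tn te (tn (tn te (tn (tn (tn (tl [(434, .ofNat 2)]) te) te) te)) te))) (tn (tn (tn (tn (tn (tn (tn (tl [(409, .ofNat 2), (410, .ofNat 2), (411, .ofNat 2), (413, .ofNat 2)]) te) te) te) te) te) (tn (tn (tn (tn (tn (tl [(428, .ofNat 2)]) te) te) te) (tn (tn (tn (tl [(434, .ofNat 2)]) te) te) te)) te)) (tn te (tn (tn (tn (tn (tn (tl [(432, .ofNat 1)]) te) te) te) (tn (tn (tn (tl [(434, .ofNat 1)]) te) te) te)) te)))))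

def r261 : Tr SV := (tn (tn (tn (tn (tn (tn (tn (tn (tn (tl [(387, .ofNat 2), (388, .ofNat 1), (389, .ofNat 1), (391, .ofNat 2)]) te) te) te) te) te) te) (tn te (tn (tn te (tn (tn (tn (tl [(434, .ofNat 1)]) te) te) te)) te))) (tn (tn (tn (tn (tn (tn (tn (tl [(397, .ofNat 1), (400, .ofNat 1), (401, .ofNat 2)]) te) te) te) te) te) (tn (tn (tn (tn (tn (tl [(428, .ofNat 1)]) te) te) te) te) te)) (tn te (tn (tn (tn (tn (tn (tl [(432, .ofNat 1), (433, .ofNat 2)]) te) te) te) (tn (tn (tn (tl [(434, .ofNat 1)]) te) te) te)) te)))) (tn (tn te (tn te (tn (tn te (tn (tn (tn (tl [(434, .ofNat 1)]) te) te) te)) te))) (tn (tn (tn (tn (tn (tn (tn (tl [(409, .ofNat 1), (410, .ofNat 2), (411, .ofNat 2), (412, .ofNat 1), (413, .ofNat 1)]) te) te) te) te) te) (tn (tn (tn (tn (tn (tl [(429, .ofNat 1)]) te) te) te) (tn (tn (tn (tl [(434, .ofNat 1)]) te) te) te)) te)) (tn (tn (tn (tn (tn (tn (tl [(427, .ofNat 2)]) te) te) te) te) te) (tn (tn (tn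 (tn (tn (tl [(432, .ofNat 2)]) te) te) te) (tn (tn (tn (tl [(434, .ofNat 2)]) te) te) te)) te)))))

def r262 : Tr SV := (tn (tn (tn (tn (tn (tn (tn (tn (tn (tl [(387, .ofNat 2), (389, .ofNat 1), (390, .ofNat 1), (391, .ofNat 2)]) te) te) te) te) te) te) (tn te (tn (tn te (tn (tn (tn (tl [(434, .ofNat 2)]) te) te) te)) te))) (tn (tn (tn (tn (tn (tn (tn (tl [(397, .ofNat 1), (398, .ofNat 1), (399, .ofNat 1), (400, .ofNat 2)]) te) te) te) te) te) (tn (tn (tn (tn (tn (tl [(429, .ofNat 1)]) te) te) te) te) te)) (tn te (tn (tn (tn (tn (tn (tl [(432, .ofNat 1)]) te) te) te) (tn (tn (tn (tl [(434, .ofNat 2)]) te) te) te)) te)))) (tn (tn te (tn te (tn (tn te (tn (tn (tn (tl [(434, .ofNat 2)]) te) te) te)) te))) (tn (tn (tn (tn (tn (tn (tn (tl [(409, .ofNat 1), (411, .ofNat 2), (412, .ofNat 2)]) te) te) te) te) te) (tn (tn (tn (tn (tn (tl [(428, .ofNat 2), (429, .ofNat 1)]) te) te) te) (tn (tn (tn (tl [(434, .ofNat 2)]) te) te) te))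 te)) (tn (tn (tn (tn (tn (tn (tl [(427, .ofNat 2)]) te) te) te) te) te) (tn (tn (tn (tn (tn (tl [(432, .ofNat 2), (433, .ofNat 1)]) te) te) te) te) te)))))

def r263 : Tr SV := (tn (tn (tn (tn (tn (tn (tn (tn (tn (tl [(388, .ofNat 2), (391, .ofNat 2)]) te) te) te) te) te) te) te) (tn (tn (tn (tn (tn (tn (tn (tl [(397, .ofNat 1), (399, .ofNat 1), (400, .ofNat 2)]) te) te) te) te) te) (tn (tn (tn (tn (tn (tl [(428, .ofNat 2), (429, .ofNat 1)]) te) te) te) te) te)) (tn te (tn (tn (tn (tn (tn (tl [(433, .ofNat 2)]) te) te) te) (tn (tn (tn (tl [(434, .ofNat 2)]) te) te) te)) te)))) (tn (tn te (tn te (tn (tn te (tn (tn (tn (tl [(434, .ofNat 2)]) te) te) te)) te))) (tn (tn (tn (tn (tn (tn (tn (tl [(409, .ofNat 1), (410, .ofNat 1), (413, .ofNat 1)]) te) te) te) te) te) (tn (tn (tn (tn (tn (tl [(428, .ofNat 1), (429, .ofNat 2)]) te) te) te) (tn (tn (tn (tl [(434, .ofNat 1)]) te) te) te)) te)) (tn te (tn (tn (tn (tn (tn (tl [(432, .ofNat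 1)]) te) te) te) (tn (tn (tn (tl [(434, .ofNat 1)]) te) te) te)) te)))))

def r264 : Tr SV := (tn (tn (tn (tn (tn (tn (tn (tn (tn (tl [(387, .ofNat 2), (389, .ofNat 1), (390, .ofNat 1), (391, .ofNat 1)]) te) te) te) te) te) te) (tn te (tn (tn te (tn (tn (tn (tl [(434, .ofNat 2)]) te) te) te)) te))) (tn (tn (tn (tn (tn (tn (tn (tl [(397, .ofNat 1), (399, .ofNat 1)]) te) te) te) te) te) (tn (tn (tn (tn (tn (tl [(428, .ofNat 1)]) te) te) te) te) te)) (tn te (tn (tn (tn (tn (tn (tl [(432, .ofNat 1)]) te) te) te) (tn (tn (tn (tl [(434, .ofNat 1)]) te) te) te)) te)))) (tn te (tn (tn (tn (tn (tn (tn (tn (tl [(409, .ofNat 2), (410, .ofNat 2), (411, .ofNat 2), (413, .ofNat 2)]) te) te) te) te) te) (tn (tn (tn (tn (tn (tl [(428, .ofNat 2)]) te) te) te) te) te)) (tn (tn (tn (tn (tn (tn (tl [(427, .ofNat 2)]) te) te) te) te) te) (tn (tn (tn (tn (tn (tl [(433, .ofNat 1)]) te) te) te) (tn (tn (tn (tl [(434, .ofNat 2)]) te) te) te)) te)))))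

def r265 : Tr SV := (tn (tn (tn (tn (tn (tn (tn (tn (tn (tl [(387, .ofNat 2), (388, .ofNat 2), (389, .ofNat 1), (390, .ofNat 1), (391, .ofNat 2)]) te) te) te) te) te) te) (tn te (tn (tn te (tn (tn (tn (tl [(434, .ofNat 1)]) te) te) te)) te))) (tn (tn (tn (tn (tn (tn (tn (tl [(397, .ofNat 2), (399, .ofNat 1), (400, .ofNat 1), (401, .ofNat 2)]) te) te) te) te) te) (tn (tn (tn (tn (tn (tl [(428, .ofNat 2)]) te) te) te) te) te)) (tn te (tn (tn te (tn (tn (tn (tl [(434, .ofNat 1)]) te) te) te)) te)))) (tn (tn te (tn te (tn (tn te (tn (tn (tn (tl [(434, .ofNat 2)]) te) te) te)) te))) (tn (tn (tn (tn (tn (tn (tn (tl [(409, .ofNat 2), (411, .ofNat 1), (412, .ofNat 2), (413, .ofNat 2)]) te) te) te) te) te) (tn (tn te (tn (tn (tn (tl [(434, .ofNat 1)]) te) te) te)) te)) (tn (tn (tn (tn (tn (tn (tl [(427, .ofNat 1)]) te) te) te) te) te) (tn (tn te (tn (tn (tn (tl [(434, .ofNat 1)]) te) te) te)) te)))))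

def r266 : Tr SV := (tn (tn (tn (tn (tn (tn (tn (tn (tn (tl [(387, .ofNat 1), (389, .ofNat 1), (390, .ofNat 1), (391, .ofNat 2)]) te) te) te) te) te) te) te) (tn (tn (tn (tn (tn (tn (tn (tl [(397, .ofNat 2), (400, .ofNat 2), (401, .ofNat 2)]) te) te) te) te) te) (tn (tn (tn (tn (tn (tl [(429, .ofNat 2)]) te) te) te) te) te)) (tn te (tn (tn (tn (tn (tn (tl [(433, .ofNat 2)]) te) te) te) te) te)))) (tn (tn te (tn te (tn (tn te (tn (tn (tn (tl [(434, .ofNat 1)]) te) te) te)) te))) (tn (tn (tn (tn (tn (tn (tn (tl [(410, .ofNat 2), (412, .ofNat 1), (413, .ofNat 2)]) te) te) te) te) te) (tn (tn (tn (tn (tn (tl [(429, .ofNat 1)]) te) te) te) te) te)) (tn (tn (tn (tn (tn (tn (tl [(427, .ofNat 2)]) te) te) te) te) te) (tn (tn (tn (tn (tn (tl [(432, .ofNat 2), (433, .ofNat 1)]) te) te) te) (tn (tn (tn (tl [(434, .ofNat 1)]) te) te) te)) te)))))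

def r267 : Tr SV := (tn (tn (tn (tn (tn (tn (tn (tn (tn (tl [(387, .ofNat 1), (388, .ofNat 1), (389, .ofNat 2), (390, .ofNat 2), (391, .ofNat 1)]) te) te) te) te) te) te) te) (tn (tn (tn (tn (tn (tn (tn (tl [(397, .ofNat 2), (398, .ofNat 2), (399, .ofNat 2), (400, .ofNat 1), (401, .ofNat 2)]) te) te) te) te) te) (tn (tn (tn (tn (tn (tl [(428, .ofNat 1), (429, .ofNat 2)]) te) te) te) te) te)) (tn te (tn (tn te (tn (tn (tn (tl [(434, .ofNat 2)]) te) te) te)) te)))) (tn te (tn (tn (tn (tn (tn (tn (tn (tl [(410, .ofNat 1), (411, .ofNat 1), (412, .ofNat 2), (413, .ofNat 2)]) te) te) te) te) te) (tn (tn te (tn (tn (tn (tl [(434, .ofNat 2)]) te) te) te)) te)) (tn (tn (tn (tn (tn (tn (tl [(427, .ofNat 1)]) te) te) te) te) te) (tn (tn (tn (tn (tn (tl [(432, .ofNat 1), (433, .ofNat 1)]) te) te) te) (tn (tn (tn (tl [(434, .ofNat 2)]) te) te) te)) te)))))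

def r268 : Tr SV := (tn (tn (tn (tn (tn (tn (tn (tn (tn (tl [(387, .ofNat 1), (389, .ofNat 2), (390, .ofNat 1), (391, .ofNat 2)]) te) te) te) te) te) te) (tn te (tn (tn te (tn (tn (tn (tl [(434, .ofNat 1)]) te) te) te)) te))) (tn (tn (tn (tn (tn (tn (tn (tl [(397, .ofNat 1), (398, .ofNat 2), (401, .ofNat 1)]) te) te) te) te) te) (tn (tn (tn (tn (tn (tl [(428, .ofNat 1), (429, .ofNat 1)]) te) te) te) te) te)) (tn te (tn (tn te (tn (tn (tn (tl [(434, .ofNat 2)]) te) te) te)) te)))) (tn (tn te (tn te (tn (tn te (tn (tn (tn (tl [(434, .ofNat 1)]) te) te) te)) te))) (tn (tn (tn (tn (tn (tn (tn (tl [(409, .ofNat 2), (410, .ofNat 1), (411, .ofNat 2), (412, .ofNat 2), (413, .ofNat 2)]) te) te) te) te) te) (tn (tn (tn (tn (tn (tl [(428, .ofNat 1)]) te) te) te) te) te)) (tn te (tn (tn te (tn (tn (tn (tl [(434, .ofNat 2)]) te) te) te)) te)))))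

def r269 : Tr SV := (tn (tn (tn (tn (tn (tn (tn (tn (tn (tl [(387, .ofNat 2), (388, .ofNat 1), (389, .ofNat 2), (390, .ofNat 1), (391, .ofNat 1)]) te) te) te) te) te) te) (tn te (tn (tn te (tn (tn (tn (tl [(434, .ofNat 1)]) te) te) te)) te))) (tn (tn (tn (tn (tn (tn (tn (tl [(400, .ofNat 1)]) te) te) te) te) te) (tn (tn (tn (tn (tn (tl [(429, .ofNat 1)]) te) te) te) te) te)) (tn te (tn (tn (tn (tn (tn (tl [(432, .ofNat 2), (433, .ofNat 1)]) te) te) te) (tn (tn (tn (tl [(434, .ofNat 2)]) te) te) te)) te)))) (tn (tn te (tn te (tn (tn te (tn (tn (tn (tl [(434, .ofNat 2)]) te) te) te)) te))) (tn (tn (tn (tn (tn (tn (tn (tl [(409, .ofNat 2), (411, .ofNat 1), (412, .ofNat 1)]) te) te) te) te) te) te) (tn (tn (tn (tn (tn (tn (tl [(427, .ofNat 2)]) te) te) te) te) te) (tn (tn (tn (tn (tn (tl [(432, .ofNat 2), (433, .ofNat 2)]) te) te) te) (tn (tn (tn (tl [(434, .ofNat 1)]) te) te) te)) te)))))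

def r270 : Tr SV := (tn (tn (tn (tn (tn (tn (tn (tn (tn (tl [(387, .ofNat 2), (388, .ofNat 1), (389, .ofNat 2), (390, .ofNat 1), (391, .ofNat 2)]) te) te) te) te) te) te) (tn te (tn (tn te (tn (tn (tn (tl [(434, .ofNat 2)]) te) te) te)) te))) (tn (tn (tn (tn (tn (tn (tn (tl [(397, .ofNat 2), (399, .ofNat 1), (400, .ofNat 2)]) te) te) te) te) te) (tn (tn (tn (tn (tn (tl [(428, .ofNat 1), (429, .ofNat 1)]) te) te) te) te) te)) (tn te (tn (tn (tn (tn (tn (tl [(432, .ofNat 1), (433, .ofNat 2)]) te) te) te) (tn (tn (tn (tl [(434, .ofNat 2)]) te) te) te)) te)))) (tn (tn te (tn te (tn (tn te (tn (tn (tn (tl [(434, .ofNat 2)]) te) te) te)) te))) (tn (tn (tn (tn (tn (tn (tn (tl [(409, .ofNat 2), (410, .ofNat 2), (411, .ofNat 1), (413, .ofNat 2)]) te) te) te) te) te) (tn (tn (tn (tn (tn (tl [(429, .ofNat 2)]) te) te) te) (tn (tn (tn (tl [(434, .ofNat 2)]) te) te) te)) te)) (tn (tn (tn (tn (tn (tn (tl [(427, .ofNat 2)]) te) te) te) te)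 te) (tn (tn (tn (tn (tn (tl [(433, .ofNat 2)]) te) te) te) te) te)))))

def r271 : Tr SV := (tn (tn (tn (tn (tn (tn (tn (tn (tn (tl [(387, .ofNat 2), (388, .ofNat 2), (390, .ofNat 1), (391, .ofNat 1)]) te) te) te) te) te) te) (tn te (tn (tn te (tn (tn (tn (tl [(434, .ofNat 2)]) te) te) te)) te))) (tn (tn (tn (tn (tn (tn (tn (tl [(397, .ofNat 1), (399, .ofNat 2), (400, .ofNat 2), (401, .ofNat 2)]) te) te) te) te) te) (tn (tn (tn (tn (tn (tl [(428, .ofNat 2)]) te) te) te) te) te)) (tn te (tn (tn (tn (tn (tn (tl [(432, .ofNat 2)]) te) te) te) te) te)))) (tn (tn te (tn te (tn (tn te (tn (tn (tn (tl [(434, .ofNat 1)]) te) te) te)) te))) (tn (tn (tn (tn (tn (tn (tn (tl [(410, .ofNat 1)]) te) te) te) te) te) (tn (tn (tn (tn (tn (tl [(428, .ofNat 2)]) te) te) te) te) te)) (tn (tn (tn (tn (tn (tn (tl [(427, .ofNat 1)]) te) te) te) te) te) (tn (tn (tn (tn (tn (tl [(432, .ofNat 1)]) te) te) te) (tn (tn (tn (tl [(434, .ofNat 1)]) te) te)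 te)) te)))))

def r272 : Tr SV := (tn (tn (tn (tn (tn (tn (tn (tn (tn (tl [(388, .ofNat 2), (390, .ofNat 1), (391, .ofNat 1)]) te) te) te) te) te) te) (tn te (tn (tn te (tn (tn (tn (tl [(434, .ofNat 1)]) te) te) te)) te))) (tn (tn (tn (tn (tn (tn (tn (tl [(399, .ofNat 1), (400, .ofNat 2), (401, .ofNat 1)]) te) te) te) te) te) te) (tn te (tn (tn (tn (tn (tn (tl [(432, .ofNat 2), (433, .ofNat 2)]) te) te) te) te) te)))) (tn (tn te (tn te (tn (tn te (tn (tn (tn (tl [(434, .ofNat 2)]) te) te) te)) te))) (tn (tn (tn (tn (tn (tn (tn (tl [(409, .ofNat 1), (412, .ofNat 2), (413, .ofNat 1)]) te) te) te) te) te) (tn (tn (tn (tn (tn (tl [(428, .ofNat 2), (429, .ofNat 2)]) te) te) te) te) te)) (tn (tn (tn (tn (tn (tn (tl [(427, .ofNat 2)]) te) te) te) te) te) (tn (tn (tn (tn (tn (tl [(432, .ofNat 2)]) te) te) te) te) te)))))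

def r273 : Tr SV := (tn (tn (tn (tn (tn (tn (tn (tn (tn (tl [(387, .ofNat 1), (388, .ofNat 1), (389, .ofNat 1), (391, .ofNat 1)]) te) te) te) te) te) te) te) (tn (tn (tn (tn (tn (tn (tn (tl [(397, .ofNat 2), (398, .ofNat 2), (400, .ofNat 1), (401, .ofNat 2)]) te) te) te) te) te) (tn (tn (tn (tn (tn (tl [(429, .ofNat 2)]) te) te) te) te) te)) (tn te (tn (tn (tn (tn (tn (tl [(432, .ofNat 2), (433, .ofNat 1)]) te) te) te) te) te)))) (tn te (tn (tn (tn (tn (tn (tn (tn (tl [(409, .ofNat 1), (410, .ofNat 2), (411, .ofNat 2), (412, .ofNat 1), (413, .ofNat 2)]) te) te) te) te) te) (tn (tn (tn (tn (tn (tl [(429, .ofNat 1)]) te) te) te) (tn (tn (tn (tl [(434, .ofNat 2)]) te) te) te)) te)) (tn (tn (tn (tn (tn (tn (tl [(427, .ofNat 1)]) te) te) te) te) te) (tn (tn (tn (tn (tn (tl [(432, .ofNat 1), (433, .ofNat 2)]) te) te) te) te) te)))))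

def r274 : Tr SV := (tn (tn (tn (tn (tn (tn (tn (tn (tn (tl [(387, .ofNat 2), (388, .ofNat 1), (389, .ofNat 2), (390, .ofNat 1)]) te) te) te) te) te) te) (tn te (tn (tn te (tn (tn (tn (tl [(434, .ofNat 2)]) te) te) te)) te))) (tn (tn (tn (tn (tn (tn (tn (tl [(397, .ofNat 2), (398, .ofNat 2), (399, .ofNat 2), (400, .ofNat 1), (401, .ofNat 2)]) te) te) te) te) te) (tn (tn (tn (tn (tn (tl [(428, .ofNat 2)]) te) te) te) te) te)) (tn te (tn (tn (tn (tn (tn (tl [(432, .ofNat 1), (433, .ofNat 2)]) te) te) te) (tn (tn (tn (tl [(434, .ofNat 1)]) te) te) te)) te)))) (tn (tn te (tn te (tn (tn te (tn (tn (tn (tl [(434, .ofNat 1)]) te) te) te)) te))) (tn (tn (tn (tn (tn (tn (tn (tl [(410, .ofNat 2), (411, .ofNat 2), (412, .ofNat 1)]) te) te) te) te) te) (tn (tn te (tn (tn (tn (tl [(434, .ofNat 1)]) te) te) te)) te)) (tn te (tn (tn (tn (tn (tn (tl [(433, .ofNat 2)]) te) te) te) (tn (tn (tn (tl [(434, .ofNat 2)]) te) te) te)) te)))))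

def r275 : Tr SV := (tn (tn (tn (tn (tn (tn (tn (tn (tn (tl [(387, .ofNat 2), (388, .ofNat 2), (389, .ofNat 2), (390, .ofNat 2), (391, .ofNat 1)]) te) te) te) te) te) te) (tn te (tn (tn te (tn (tn (tn (tl [(434, .ofNat 2)]) te) te) te)) te))) (tn (tn (tn (tn (tn (tn (tn (tl [(399, .ofNat 2), (400, .ofNat 1), (401, .ofNat 2)]) te) te) te) te) te) (tn (tn (tn (tn (tn (tl [(428, .ofNat 1), (429, .ofNat 2)]) te) te) te) te) te)) (tn te (tn (tn (tn (tn (tn (tl [(433, .ofNat 2)]) te) te) te) (tn (tn (tn (tl [(434, .ofNat 2)]) te) te) te)) te)))) (tn te (tn (tn (tn (tn (tn (tn (tn (tl [(409, .ofNat 1), (410, .ofNat 1), (411, .ofNat 1), (413, .ofNat 1)]) te) te) te) te) te) (tn (tn (tn (tn (tn (tl [(428, .ofNat 1)]) te) te) te) te) te)) (tn (tn (tn (tn (tn (tn (tl [(427, .ofNat 1)]) te) te) te) te) te) (tn (tn (tn (tn (tn (tl [(432, .ofNat 1)]) te) te) te) (tn (tn (tn (tl [(434, .ofNat 1)]) te) te) te)) te)))))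

def r276 : Tr SV := (tn (tn (tn (tn (tn (tn (tn (tn (tn (tl [(388, .ofNat 2), (389, .ofNat 1), (390, .ofNat 1), (391, .ofNat 1)]) te) te) te) te) te) te) te) (tn (tn (tn (tn (tn (tn (tn (tl [(397, .ofNat 2), (398, .ofNat 2), (400, .ofNat 1), (401, .ofNat 1)]) te) te) te) te) te) te) (tn te (tn (tn (tn (tn (tn (tl [(433, .ofNat 1)]) te) te) te) (tn (tn (tn (tl [(434, .ofNat 2)]) te) te) te)) te)))) (tn te (tn (tn (tn (tn (tn (tn (tn (tl [(409, .ofNat 2), (411, .ofNat 1)]) te) te) te) te) te) (tn (tn (tn (tn (tn (tl [(428, .ofNat 2)]) te) te) te) (tn (tn (tn (tl [(434, .ofNat 2)]) te) te) te)) te)) (tn (tn (tn (tn (tn (tn (tl [(427, .ofNat 1)]) te) te) te) te) te) (tn (tn (tn (tn (tn (tl [(433, .ofNat 2)]) te) te) te) (tn (tn (tn (tl [(434, .ofNat 2)]) te) te) te)) te)))))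

def r277 : Tr SV := (tn (tn (tn (tn (tn (tn (tn (tn (tn (tl [(387, .ofNat 2), (388, .ofNat 1), (391, .ofNat 1)]) te) te) te) te) te) te) (tn te (tn (tn te (tn (tn (tn (tl [(434, .ofNat 1)]) te) te) te)) te))) (tn (tn (tn (tn (tn (tn (tn (tl [(397, .ofNat 1), (398, .ofNat 1), (400, .ofNat 2)]) te) te) te) te) te) (tn (tn (tn (tn (tn (tl [(428, .ofNat 1)]) te) te) te) te) te)) (tn te (tn (tn (tn (tn (tn (tl [(432, .ofNat 1), (433, .ofNat 2)]) te) te) te) (tn (tn (tn (tl [(434, .ofNat 2)]) te) te) te)) te)))) (tn te (tn (tn (tn (tn (tn (tn (tn (tl [(409, .ofNat 2), (410, .ofNat 1), (411, .ofNat 1), (412, .ofNat 1), (413, .ofNat 2)]) te) te) te) te) te) (tn (tn (tn (tn (tn (tl [(429, .ofNat 1)]) te) te) te) te) te)) (tn (tn (tn (tn (tn (tn (tl [(427, .ofNat 1)]) te) te) te) te) te) (tn (tn (tn (tn (tn (tl [(432, .ofNat 2)]) te) te) te) (tn (tn (tn (tl [(434, .ofNat 2)]) te) te) te)) te)))))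

def r278 : Tr SV := (tn (tn (tn (tn te (tn (tn te (tn (tn (tn (tl [(434, .ofNat 1)]) te) te) te)) te)) te) (tn (tn te (tn (tn te (tn (tn (tn (tl [(434, .ofNat 2)]) te) te) te)) te)) (tn (tn (tn (tn (tn (tn (tl [(427, .ofNat 2)]) te) te) te) te) te) te))) (tn (tn (tn (tn (tn (tn (tn (tn (tl [(392, .ofNat 1), (393, .ofNat 1), (394, .ofNat 1), (395, .ofNat 1), (396, .ofNat 1)]) te) te) te) te) te) (tn (tn te (tn (tn (tn (tl [(434, .ofNat 1)]) te) te) te)) te)) (tn te (tn (tn (tn (tn (tn (tl [(430, .ofNat 2), (431, .ofNat 1)]) te) te) te) te) te))) (tn (tn (tn (tn (tn (tn (tn (tl [(415, .ofNat 1), (416, .ofNat 2)]) te) te) te) te) te) te) te)))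

def r279 : Tr SV := (tn (tn (tn te (tn te (tn (tn (tn (tn (tn (tl [(430, .ofNat 1), (431, .ofNat 1)]) te) te) te) te) te))) te) (tn (tn (tn (tn (tn (tn (tn (tn (tl [(392, .ofNat 1), (394, .ofNat 2), (396, .ofNat 2)]) te) te) te) te) te) (tn (tn te (tn (tn (tn (tl [(434, .ofNat 2)]) te) te) te)) te)) (tn te (tn (tn (tn (tn (tn (tl [(430, .ofNat 1), (431, .ofNat 1)]) te) te) te) te) te))) (tn (tn (tn (tn (tn (tn (tn (tl [(414, .ofNat 2), (415, .ofNat 1), (416, .ofNat 2), (417, .ofNat 2)]) te) te) te) te) te) te) (tn (tn (tn te (tn (tn (tn (tl [(434, .ofNat 2)]) te) te) te)) te) te))))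

def r280 : Tr SV := (tn (tn (tn te (tn te (tn (tn (tn (tn (tn (tl [(430, .ofNat 1), (431, .ofNat 1)]) te) te) te) te) te))) (tn (tn te (tn (tn te (tn (tn (tn (tl [(434, .ofNat 1)]) te) te) te)) te)) (tn (tn (tn (tn (tn (tn (tl [(427, .ofNat 1)]) te) te) te) te) te) te))) (tn (tn (tn (tn (tn (tn (tn (tn (tl [(392, .ofNat 2), (393, .ofNat 2), (394, .ofNat 1), (395, .ofNat 2), (396, .ofNat 2)]) te) te) te) te) te) te) (tn te (tn (tn (tn (tn (tn (tl [(430, .ofNat 2), (431, .ofNat 1)]) te) te) te) te) te))) (tn (tn (tn (tn (tn (tn (tn (tl [(415, .ofNat 2)]) te) te) te) te) te) te) (tn (tn (tn te (tn (tn (tn (tl [(434, .ofNat 1)]) te) te) te)) te) te))))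

def r281 : Tr SV := (tn (tn (tn (tn te (tn (tn te (tn (tn (tn (tl [(434, .ofNat 1)]) te) te) te)) te)) (tn te (tn (tn (tn (tn (tn (tl [(430, .ofNat 1), (431, .ofNat 1)]) te) te) te) te) te))) (tn (tn te (tn (tn te (tn (tn (tn (tl [(434, .ofNat 1)]) te) te) te)) te)) (tn (tn (tn (tn (tn (tn (tl [(427, .ofNat 1)]) te) te) te) te) te) te))) (tn (tn (tn (tn (tn (tn (tn (tn (tl [(392, .ofNat 1), (394, .ofNat 1), (395, .ofNat 1)]) te) te) te) te) te) te) (tn te (tn (tn (tn (tn (tn (tl [(430, .ofNat 1), (431, .ofNat 1)]) te) te) te) te) te))) (tn (tn (tn (tn (tn (tn (tn (tl [(414, .ofNat 1), (415, .ofNat 1), (416, .ofNat 2), (417, .ofNat 2)]) te) te) te) te) te) te) te)))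

def r282 : Tr SV := (tn (tn (tn te (tn te (tn (tn (tn (tn (tn (tl [(431, .ofNat 1)]) te) te) te) te) te))) (tn (tn te (tn (tn te (tn (tn (tn (tl [(434, .ofNat 1)]) te) te) te)) te)) te)) (tn (tn (tn (tn (tn (tn (tn (tn (tl [(392, .ofNat 2), (394, .ofNat 1), (395, .ofNat 1), (396, .ofNat 2)]) te) te) te) te) te) (tn (tn te (tn (tn (tn (tl [(434, .ofNat 2)]) te) te) te)) te)) (tn te (tn (tn (tn (tn (tn (tl [(430, .ofNat 1)]) te) te) te) te) te))) (tn (tn (tn (tn (tn (tn (tn (tl [(414, .ofNat 2), (415, .ofNat 1), (416, .ofNat 2), (417, .ofNat 2)]) te) te) te) te) te) te) (tn (tn (tn te (tn (tn (tn (tl [(434, .ofNat 1)]) te) te) te)) te) te))))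

def r283 : Tr SV := (tn (tn (tn (tn te (tn (tn te (tn (tn (tn (tl [(434, .ofNat 2)]) te) te) te)) te)) (tn te (tn (tn (tn (tn (tn (tl [(430, .ofNat 1)]) te) te) te) te) te))) (tn (tn te (tn (tn te (tn (tn (tn (tl [(434, .ofNat 1)]) te) te) te)) te)) te)) (tn (tn (tn (tn (tn (tn (tn (tn (tl [(392, .ofNat 2), (393, .ofNat 1), (394, .ofNat 2), (395, .ofNat 1), (396, .ofNat 2)]) te) te) te) te) te) (tn (tn te (tn (tn (tn (tl [(434, .ofNat 2)]) te) te) te)) te)) (tn te (tn (tn (tn (tn (tn (tl [(431, .ofNat 1)]) te) te) te) te) te))) (tn (tn (tn (tn (tn (tn (tn (tl [(414, .ofNat 1), (415, .ofNat 2), (416, .ofNat 1)]) te) te) te) te) te) te) (tn (tn (tn te (tn (tn (tn (tl [(434, .ofNat 1)]) te) te) te)) te) te))))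

def r284 : Tr SV := (tn (tn (tn (tn te (tn (tn te (tn (tn (tn (tl [(434, .ofNat 1)]) te) te) te)) te)) (tn te (tn (tn (tn (tn (tn (tl [(430, .ofNat 2)]) te) te) te) te) te))) (tn te (tn (tn (tn (tn (tn (tn (tl [(427, .ofNat 1)]) te) te) te) te) te) te))) (tn (tn (tn (tn (tn (tn (tn (tn (tl [(392, .ofNat 1), (393, .ofNat 1), (395, .ofNat 2), (396, .ofNat 2)]) te) te) te) te) te) te) (tn te (tn (tn (tn (tn (tn (tl [(430, .ofNat 1), (431, .ofNat 2)]) te) te) te) te) te))) (tn (tn (tn (tn (tn (tn (tn (tl [(415, .ofNat 2), (416, .ofNat 2)]) te) te) te) te) te) te) te)))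

def r285 : Tr SV := (tn (tn (tn te (tn te (tn (tn (tn (tn (tn (tl [(430, .ofNat 1), (431, .ofNat 2)]) te) te) te) te) te))) (tn (tn te (tn (tn te (tn (tn (tn (tl [(434, .ofNat 2)]) te) te) te)) te)) (tn (tn (tn (tn (tn (tn (tl [(427, .ofNat 2)]) te) te) te) te) te) te))) (tn (tn (tn (tn (tn (tn (tn (tn (tl [(396, .ofNat 2)]) te) te) te) te) te) (tn (tn te (tn (tn (tn (tl [(434, .ofNat 2)]) te) te) te)) te)) (tn te (tn (tn (tn (tn (tn (tl [(430, .ofNat 2), (431, .ofNat 1)]) te) te) te) te) te))) (tn (tn (tn (tn (tn (tn (tn (tl [(414, .ofNat 2), (415, .ofNat 1), (416, .ofNat 2), (417, .ofNat 2)]) te) te) te) te) te) te) (tn (tn (tn te (tn (tn (tn (tl [(434, .ofNat 1)]) te) te) te)) te) te))))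

def r286 : Tr SV := (tn (tn (tn (tn te (tn (tn te (tn (tn (tn (tl [(434, .ofNat 2)]) te) te) te)) te)) (tn te (tn (tn (tn (tn (tn (tl [(431, .ofNat 1)]) te) te) te) te) te))) (tn (tn te (tn (tn te (tn (tn (tn (tl [(434, .ofNat 1)]) te) te) te)) te)) (tn (tn (tn (tn (tn (tn (tl [(427, .ofNat 2)]) te) te) te) te) te) te))) (tn (tn (tn (tn (tn (tn (tn (tn (tl [(394, .ofNat 2), (395, .ofNat 2), (396, .ofNat 2)]) te) te) te) te) te) (tn (tn te (tn (tn (tn (tl [(434, .ofNat 1)]) te) te) te)) te)) (tn te (tn (tn (tn (tn (tn (tl [(430, .ofNat 1), (431, .ofNat 2)]) te) te) te) te) te))) (tn (tn (tn (tn (tn (tn (tn (tl [(415, .ofNat 1), (417, .ofNat 2)]) te) te) te) te) te) te) (tn (tn (tn te (tn (tn (tn (tl [(434, .ofNat 1)]) te) te) te)) te) te))))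

def r287 : Tr SV := (tn (tn (tn te (tn te (tn (tn (tn (tn (tn (tl [(431, .ofNat 1)]) te) te) te) te) te))) (tn (tn te (tn (tn te (tn (tn (tn (tl [(434, .ofNat 2)]) te) te) te)) te)) (tn (tn (tn (tn (tn (tn (tl [(427, .ofNat 1)]) te) te) te) te) te) te))) (tn (tn (tn (tn (tn (tn (tn (tn (tl [(392, .ofNat 1), (393, .ofNat 2), (395, .ofNat 1), (396, .ofNat 1)]) te) te) te) te) te) (tn (tn te (tn (tn (tn (tl [(434, .ofNat 1)]) te) te) te)) te)) (tn te (tn (tn (tn (tn (tn (tl [(430, .ofNat 1)]) te) te) te) te) te))) (tn (tn (tn (tn (tn (tn (tn (tl [(416, .ofNat 2)]) te) te) te) te) te) te) (tn (tn (tn te (tn (tn (tn (tl [(434, .ofNat 1)]) te) te) te)) te) te))))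

def r288 : Tr SV := (tn (tn (tn (tn te (tn (tn te (tn (tn (tn (tl [(434, .ofNat 1)]) te) te) te)) te)) (tn te (tn (tn (tn (tn (tn (tl [(430, .ofNat 2), (431, .ofNat 1)]) te) te) te) te) te))) (tn te (tn (tn (tn (tn (tn (tn (tl [(427, .ofNat 1)]) te) te) te) te) te) te))) (tn (tn (tn (tn (tn (tn (tn (tn (tl [(392, .ofNat 2), (393, .ofNat 2), (394, .ofNat 2), (395, .ofNat 1)]) te) te) te) te) te) (tn (tn te (tn (tn (tn (tl [(434, .ofNat 2)]) te) te) te)) te)) (tn te (tn (tn (tn (tn (tn (tl [(430, .ofNat 2), (431, .ofNat 1)]) te) te) te) te) te))) (tn (tn (tn (tn (tn (tn (tn (tl [(414, .ofNat 2), (417, .ofNat 2)]) te) te) te) te) te) te) te)))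

def r289 : Tr SV := (tn (tn (tn te (tn te (tn (tn (tn (tn (tn (tl [(430, .ofNat 2), (431, .ofNat 2)]) te) te) te) te) te))) (tn (tn te (tn (tn te (tn (tn (tn (tl [(434, .ofNat 2)]) te) te) te)) te)) (tn (tn (tn (tn (tn (tn (tl [(427, .ofNat 2)]) te) te) te) te) te) te))) (tn (tn (tn (tn (tn (tn (tn (tn (tl [(393, .ofNat 2), (394, .ofNat 1), (395, .ofNat 1), (396, .ofNat 2)]) te) te) te) te) te) te) te) (tn (tn (tn (tn (tn (tn (tn (tl [(414, .ofNat 1), (415, .ofNat 1), (417, .ofNat 2)]) te) te) te) te) te) te) te)))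

def r290 : Tr SV := (tn (tn (tn (tn te (tn (tn te (tn (tn (tn (tl [(434, .ofNat 2)]) te) te) te)) te)) (tn te (tn (tn (tn (tn (tn (tl [(431, .ofNat 1)]) te) te) te) te) te))) (tn (tn te (tn (tn te (tn (tn (tn (tl [(434, .ofNat 1)]) te) te) te)) te)) (tn (tn (tn (tn (tn (tn (tl [(427, .ofNat 1)]) te) te) te) te) te) te))) (tn (tn (tn (tn (tn (tn (tn (tn (tl [(392, .ofNat 2), (396, .ofNat 2)]) te) te) te) te) te) te) (tn te (tn (tn (tn (tn (tn (tl [(430, .ofNat 2)]) te) te) te) te) te))) (tn (tn (tn (tn (tn (tn (tn (tl [(414, .ofNat 1), (416, .ofNat 1)]) te) te) te) te) te) te) te)))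

def r291 : Tr SV := (tn (tn (tn (tn te (tn (tn te (tn (tn (tn (tl [(434, .ofNat 2)]) te) te) te)) te)) te) (tn (tn te (tn (tn te (tn (tn (tn (tl [(434, .ofNat 2)]) te) te) te)) te)) (tn (tn (tn (tn (tn (tn (tl [(427, .ofNat 1)]) te) te) te) te) te) te))) (tn (tn (tn (tn (tn (tn (tn (tn (tl [(392, .ofNat 2), (393, .ofNat 2), (394, .ofNat 2), (395, .ofNat 2)]) te) te) te) te) te) (tn (tn te (tn (tn (tn (tl [(434, .ofNat 2)]) te) te) te)) te)) (tn te (tn (tn (tn (tn (tn (tl [(430, .ofNat 2)]) te) te) te) te) te))) (tn (tn (tn (tn (tn (tn (tn (tl [(415, .ofNat 2), (417, .ofNat 1)]) te) te) te) te) te) te) (tn (tn (tn te (tn (tn (tn (tl [(434, .ofNat 2)]) te) te) te)) te) te))))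

def r292 : Tr SV := (tn (tn (tn (tn (tn (tn (tn (tn (tn (tl [(393, .ofNat 2), (395, .ofNat 1), (396, .ofNat 2)]) te) te) te) te) te) te) (tn (tn (tn te (tn (tn (tn (tl [(434, .ofNat 2)]) te) te) te)) te) te)) (tn (tn (tn (tn te (tn (tn (tn (tl [(434, .ofNat 1)]) te) te) te)) te) te) (tn (tn (tn te (tn (tn (tn (tl [(434, .ofNat 2)]) te) te) te)) te) te))) (tn (tn (tn (tn (tn (tn (tn (tn (tl [(397, .ofNat 1), (398, .ofNat 2), (399, .ofNat 1), (400, .ofNat 1)]) te) te) te) te) te) te) (tn (tn (tn te (tn (tn (tn (tl [(434, .ofNat 2)]) te) te) te)) te) (tn (tn (tn (tn (tn (tl [(433, .ofNat 2)]) te) te) te) te) te))) (tn (tn (tn (tn (tn (tn (tn (tl [(418, .ofNat 2), (419, .ofNat 2), (420, .ofNat 2)]) te) te) te) (tn (tn (tn (tl [(434, .ofNat 1)]) te) te) te)) te) (tn (tn (tn (tn (tn (tl [(430, .ofNat 2), (431, .ofNat 1)]) te) te) te) te) te)) te)))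

def r293 : Tr SV := (tn (tn (tn (tn (tn (tn (tn (tn (tn (tl [(392, .ofNat 1), (394, .ofNat 2), (395, .ofNat 1), (396, .ofNat 2)]) te) te) te) te) te) te) te) (tn (tn (tn (tn te (tn (tn (tn (tl [(434, .ofNat 2)]) te) te) te)) te) (tn (tn (tn (tn (tn (tl [(431, .ofNat 2)]) te) te) te) te) te)) te)) (tn (tn (tn (tn (tn (tn (tn (tn (tl [(398, .ofNat 2), (399, .ofNat 2), (401, .ofNat 2)]) te) te) te) te) te) te) (tn te (tn (tn (tn (tn (tn (tl [(432, .ofNat 2)]) te) te) te) te) te))) (tn (tn (tn (tn (tn (tn (tn (tl [(418, .ofNat 1), (419, .ofNat 2), (420, .ofNat 2), (421, .ofNat 2)]) te) te) te) (tn (tn (tn (tl [(434, .ofNat 1)]) te) te) te)) te) (tn (tn (tn (tn (tn (tl [(430, .ofNat 1), (431, .ofNat 2)]) te) te) te) te) te)) te)))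

def r294 : Tr SV := (tn (tn (tn (tn (tn (tn (tn (tn (tn (tl [(392, .ofNat 1), (393, .ofNat 2), (395, .ofNat 2), (396, .ofNat 1)]) te) te) te) te) te) te) (tn (tn (tn te (tn (tn (tn (tl [(434, .ofNat 2)]) te) te) te)) te) (tn (tn (tn (tn (tn (tl [(432, .ofNat 1), (433, .ofNat 2)]) te) te) te) te) te))) (tn (tn te (tn (tn (tn (tn (tn (tl [(430, .ofNat 2)]) te) te) te) te) te)) te)) (tn (tn (tn (tn (tn (tn (tn (tn (tl [(398, .ofNat 1), (399, .ofNat 2), (400, .ofNat 1)]) te) te) te) te) te) te) (tn (tn (tn (tn (tn (tn (tl [(427, .ofNat 1)]) te) te) te) te) te) (tn (tn (tn (tn (tn (tl [(433, .ofNat 2)]) te) te) te) te) te))) (tn (tn (tn (tn (tn (tn (tn (tl [(420, .ofNat 2), (421, .ofNat 1), (422, .ofNat 2)]) te) te) te) (tn (tn (tn (tl [(434, .ofNat 1)]) te) te) te)) te) (tn (tn (tn (tn (tn (tl [(431, .ofNat 1)]) te) te) te) te) te)) te)))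

def r295 : Tr SV := (tn (tn (tn (tn (tn (tn (tn (tn (tn (tl [(394, .ofNat 1), (395, .ofNat 2), (396, .ofNat 1)]) te) te) te) te) te) te) (tn te (tn (tn (tn (tn (tn (tl [(432, .ofNat 2), (433, .ofNat 1)]) te) te) te) te) te))) (tn (tn te (tn (tn (tn (tn (tn (tl [(431, .ofNat 2)]) te) te) te) te) te)) (tn (tn (tn te (tn (tn (tn (tl [(434, .ofNat 2)]) te) te) te)) te) te))) (tn (tn (tn (tn (tn (tn (tn (tn (tl [(397, .ofNat 2), (399, .ofNat 1), (401, .ofNat 2)]) te) te) te) te) te) te) (tn (tn (tn (tn (tn (tn (tl [(427, .ofNat 2)]) te) te) te) (tn (tn (tn (tl [(434, .ofNat 2)]) te) te) te)) te) (tn (tn (tn (tn (tn (tl [(432, .ofNat 2), (433, .ofNat 2)]) te) te) te) te) te))) (tn (tn (tn (tn (tn (tn (tn (tl [(420, .ofNat 1), (421, .ofNat 2), (422, .ofNat 1)]) te) te) te) (tn (tn (tn (tl [(434, .ofNat 2)]) te) te) te)) te) (tn (tn (tn (tn (tn (tl [(431, .ofNat 1)]) te) te) te) te) te)) te)))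

def r296 : Tr SV := (tn (tn (tn (tn (tn (tn (tn (tn (tn (tl [(394, .ofNat 2), (395, .ofNat 2), (396, .ofNat 2)]) te) te) te) te) te) te) (tn te (tn (tn (tn (tn (tn (tl [(433, .ofNat 2)]) te) te) te) te) te))) (tn (tn (tn (tn te (tn (tn (tn (tl [(434, .ofNat 2)]) te) te) te)) te) (tn (tn (tn (tn (tn (tl [(430, .ofNat 1), (431, .ofNat 2)]) te) te) te) te) te)) (tn (tn (tn te (tn (tn (tn (tl [(434, .ofNat 2)]) te) te) te)) te) te))) (tn (tn (tn (tn (tn (tn (tn (tn (tl [(397, .ofNat 2), (398, .ofNat 2), (399, .ofNat 1), (400, .ofNat 2)]) te) te) te) te) te) te) (tn (tn (tn te (tn (tn (tn (tl [(434, .ofNat 2)]) te) te) te)) te) (tn (tn (tn (tn (tn (tl [(432, .ofNat 1), (433, .ofNat 2)]) te) te) te) te) te))) (tn (tn (tn (tn (tn (tn (tn (tl [(418, .ofNat 2), (419, .ofNat 2), (420, .ofNat 2), (422, .ofNat 2)]) te) te) te) (tn (tn (tn (tl [(434, .ofNat 2)]) te) te) te)) te) (tn (tn (tn (tn (tn (tl [(430, .ofNat 1), (431, .ofNat 2)])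 te) te) te) te) te)) te)))

def r297 : Tr SV := (tn (tn (tn (tn (tn (tn (tn (tn (tn (tl [(392, .ofNat 2), (393, .ofNat 2), (394, .ofNat 2), (396, .ofNat 2)]) te) te) te) te) te) te) (tn (tn (tn te (tn (tn (tn (tl [(434, .ofNat 2)]) te) te) te)) te) (tn (tn (tn (tn (tn (tl [(433, .ofNat 1)]) te) te) te) te) te))) (tn (tn (tn (tn te (tn (tn (tn (tl [(434, .ofNat 2)]) te) te) te)) te) (tn (tn (tn (tn (tn (tl [(431, .ofNat 1)]) te) te) te) te) te)) (tn (tn (tn te (tn (tn (tn (tl [(434, .ofNat 1)]) te) te) te)) te) te))) (tn (tn (tn (tn (tn (tn (tn (tn (tl [(397, .ofNat 1), (399, .ofNat 2), (400, .ofNat 1), (401, .ofNat 1)]) te) te) te) te) te) te) (tn (tn (tn te (tn (tn (tn (tl [(434, .ofNat 2)]) te) te) te)) te) (tn (tn (tn (tn (tn (tl [(432, .ofNat 2), (433, .ofNat 2)]) te) te) te) te) te))) (tn (tn (tn (tn (tn (tn (tn (tl [(418, .ofNat 1), (420, .ofNat 2), (421, .ofNat 2)]) te) te) te) (tn (tn (tn (tl [(434, .ofNat 2)]) te)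 te) te)) te) (tn (tn (tn (tn (tn (tl [(430, .ofNat 1)]) te) te) te) te) te)) te)))

def r298 : Tr SV := (tn (tn (tn (tn (tn (tn (tn (tn (tn (tl [(392, .ofNat 1), (393, .ofNat 2), (394, .ofNat 1), (395, .ofNat 2)]) te) te) te) te) te) te) te) (tn (tn te (tn (tn (tn (tn (tn (tl [(430, .ofNat 2), (431, .ofNat 2)]) te) te) te) te) te)) (tn (tn (tn te (tn (tn (tn (tl [(434, .ofNat 1)]) te) te) te)) te) te))) (tn (tn (tn (tn (tn (tn (tn (tn (tl [(397, .ofNat 2), (398, .ofNat 1), (399, .ofNat 1), (400, .ofNat 2)]) te) te) te) te) te) te) (tn (tn (tn (tn (tn (tn (tl [(427, .ofNat 1)]) te) te) te) te) te) (tn (tn (tn (tn (tn (tl [(432, .ofNat 1), (433, .ofNat 2)]) te) te) te) te) te))) (tn (tn (tn (tn (tn (tn (tn (tl [(418, .ofNat 2), (419, .ofNat 1), (422, .ofNat 1)]) te) te) te) te) te) (tn (tn (tn (tn (tn (tl [(430, .ofNat 1), (431, .ofNat 2)]) te) te) te) te) te)) te)))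

def r299 : Tr SV := (tn (tn (tn (tn (tn (tn (tn (tn (tn (tl [(393, .ofNat 2), (396, .ofNat 1)]) te) te) te) te) te) te) te) (tn (tn (tn (tn te (tn (tn (tn (tl [(434, .ofNat 1)]) te) te) te)) te) (tn (tn (tn (tn (tn (tl [(430, .ofNat 2)]) te) te) te) te) te)) (tn (tn (tn te (tn (tn (tn (tl [(434, .ofNat 2)]) te) te) te)) te) te))) (tn (tn (tn (tn (tn (tn (tn (tn (tl [(397, .ofNat 1), (398, .ofNat 2), (399, .ofNat 1), (401, .ofNat 1)]) te) te) te) te) te) te) (tn (tn (tn (tn (tn (tn (tl [(427, .ofNat 1)]) te) te) te) (tn (tn (tn (tl [(434, .ofNat 1)]) te) te) te)) te) (tn (tn (tn (tn (tn (tl [(432, .ofNat 2), (433, .ofNat 2)]) te) te) te) te) te))) (tn (tn (tn (tn (tn (tn (tn (tl [(418, .ofNat 2), (419, .ofNat 1), (420, .ofNat 2), (421, .ofNat 1), (422, .ofNat 2)]) te) te) te) (tn (tn (tn (tl [(434, .ofNat 2)]) te) te) te)) te) (tn (tn (tn (tn (tn (tl [(430, .ofNat 1), (431, .ofNat 1)]) te) te) te) te) te)) te)))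

def r300 : Tr SV := (tn (tn (tn (tn (tn (tn (tn (tn (tn (tl [(392, .ofNat 2), (393, .ofNat 1), (395, .ofNat 1)]) te) te) te) te) te) te) (tn (tn (tn te (tn (tn (tn (tl [(434, .ofNat 2)]) te) te) te)) te) (tn (tn (tn (tn (tn (tl [(433, .ofNat 2)]) te) te) te) te) te))) (tn (tn (tn (tn te (tn (tn (tn (tl [(434, .ofNat 2)]) te) te) te)) te) (tn (tn (tn (tn (tn (tl [(430, .ofNat 2), (431, .ofNat 2)]) te) te) te) te) te)) (tn (tn (tn te (tn (tn (tn (tl [(434, .ofNat 2)]) te) te) te)) te) te))) (tn (tn (tn (tn (tn (tn (tn (tn (tl [(397, .ofNat 2), (398, .ofNat 2), (399, .ofNat 1), (401, .ofNat 1)]) te) te) te) te) te) te) (tn (tn (tn (tn (tn (tn (tl [(427, .ofNat 1)]) te) te) te) (tn (tn (tn (tl [(434, .ofNat 1)]) te) te) te)) te) (tn (tn (tn (tn (tn (tl [(432, .ofNat 2)]) te) te) te) te) te))) (tn (tn (tn (tn (tn (tn (tn (tl [(418, .ofNat 2)]) te) te) te) te) te) te) te)))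

def r301 : Tr SV := (tn (tn (tn (tn (tn (tn (tn (tn (tn (tl [(392, .ofNat 1), (394, .ofNat 2), (395, .ofNat 1), (396, .ofNat 2)]) te) te) te) te) te) te) (tn (tn (tn te (tn (tn (tn (tl [(434, .ofNat 1)]) te) te) te)) te) (tn (tn (tn (tn (tn (tl [(432, .ofNat 2), (433, .ofNat 2)]) te) te) te) te) te))) (tn (tn (tn (tn te (tn (tn (tn (tl [(434, .ofNat 2)]) te) te) te)) te) (tn (tn (tn (tn (tn (tl [(430, .ofNat 2), (431, .ofNat 1)]) te) te) te) te) te)) te)) (tn (tn (tn (tn (tn (tn (tn (tn (tl [(398, .ofNat 1), (399, .ofNat 1), (401, .ofNat 2)]) te) te) te) te) te) te) (tn (tn (tn te (tn (tn (tn (tl [(434, .ofNat 2)]) te) te) te)) te) (tn (tn (tn (tn (tn (tl [(432, .ofNat 2), (433, .ofNat 1)]) te) te) te) te) te))) (tn (tn (tn (tn (tn (tn (tn (tl [(418, .ofNat 2), (420, .ofNat 2), (421, .ofNat 2), (422, .ofNat 1)]) te) te) te) te) te) (tn (tn (tn (tn (tn (tl [(430, .ofNat 2)]) te) te) te) te) te)) te)))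

def r302 : Tr SV := (tn (tn (tn (tn (tn (tn (tn (tn (tn (tl [(394, .ofNat 1), (395, .ofNat 2), (396, .ofNat 1)]) te) te) te) te) te) te) (tn (tn (tn te (tn (tn (tn (tl [(434, .ofNat 1)]) te) te) te)) te) (tn (tn (tn (tn (tn (tl [(432, .ofNat 2), (433, .ofNat 1)]) te) te) te) te) te))) (tn (tn te (tn (tn (tn (tn (tn (tl [(430, .ofNat 2), (431, .ofNat 1)]) te) te) te) te) te)) te)) (tn (tn (tn (tn (tn (tn (tn (tn (tl [(397, .ofNat 1), (398, .ofNat 2), (399, .ofNat 1), (401, .ofNat 1)]) te) te) te) te) te) te) (tn (tn (tn (tn (tn (tn (tl [(427, .ofNat 2)]) te) te) te) te) te) (tn (tn (tn (tn (tn (tl [(432, .ofNat 1)]) te) te) te) te) te))) (tn (tn (tn (tn (tn (tn (tn (tl [(418, .ofNat 2), (419, .ofNat 1), (420, .ofNat 1), (421, .ofNat 1), (422, .ofNat 1)]) te) te) te) (tn (tn (tn (tl [(434, .ofNat 1)]) te) te) te)) te) (tn (tn (tn (tn (tn (tl [(431, .ofNat 1)]) te) te) te) te) te)) te)))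

def r303 : Tr SV := (tn (tn (tn (tn (tn (tn (tn (tn (tn (tl [(393, .ofNat 1), (395, .ofNat 2), (396, .ofNat 2)]) te) te) te) te) te) te) (tn te (tn (tn (tn (tn (tn (tl [(432, .ofNat 2), (433, .ofNat 1)]) te) te) te) te) te))) (tn (tn (tn (tn te (tn (tn (tn (tl [(434, .ofNat 2)]) te) te) te)) te) (tn (tn (tn (tn (tn (tl [(430, .ofNat 1)]) te) te) te) te) te)) te)) (tn (tn (tn (tn (tn (tn (tn (tn (tl [(397, .ofNat 1), (398, .ofNat 2), (399, .ofNat 1), (401, .ofNat 1)]) te) te) te) te) te) te) (tn (tn (tn te (tn (tn (tn (tl [(434, .ofNat 2)]) te) te) te)) te) (tn (tn (tn (tn (tn (tl [(432, .ofNat 1), (433, .ofNat 2)]) te) te) te) te) te))) (tn (tn (tn (tn (tn (tn (tn (tl [(418, .ofNat 2), (420, .ofNat 2), (421, .ofNat 1)]) te) te) te) (tn (tn (tn (tl [(434, .ofNat 2)]) te) te) te)) te) (tn (tn (tn (tn (tn (tl [(431, .ofNat 2)]) te) te) te) te) te)) te)))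

def r304 : Tr SV := (tn (tn (tn (tn (tn (tn (tn (tn (tn (tl [(392, .ofNat 2), (393, .ofNat 1), (394, .ofNat 2), (395, .ofNat 1), (396, .ofNat 1)]) te) te) te) te) te) te) (tn (tn (tn te (tn (tn (tn (tl [(434, .ofNat 1)]) te) te) te)) te) (tn (tn (tn (tn (tn (tl [(432, .ofNat 1), (433, .ofNat 2)]) te) te) te) te) te))) (tn (tn (tn (tn te (tn (tn (tn (tl [(434, .ofNat 2)]) te) te) te)) te) (tn (tn (tn (tn (tn (tl [(431, .ofNat 2)]) te) te) te) te) te)) te)) (tn (tn (tn (tn (tn (tn (tn (tn (tl [(397, .ofNat 1), (398, .ofNat 1), (399, .ofNat 1), (400, .ofNat 1)]) te) te) te) te) te) te) (tn (tn (tn (tn (tn (tn (tl [(427, .ofNat 1)]) te) te) te) (tn (tn (tn (tl [(434, .ofNat 2)]) te) te) te)) te) (tn (tn (tn (tn (tn (tl [(432, .ofNat 2)]) te) te) te) te) te))) (tn (tn (tn (tn (tn (tn (tn (tl [(419, .ofNat 1), (422, .ofNat 2)]) te) te) te) (tn (tn (tn (tl [(434, .ofNat 2)]) te) te) te)) te) (tn (tn (tn (tn (tn (tl [(430, .ofNat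 2), (431, .ofNat 1)]) te) te) te) te) te)) te)))

def r305 : Tr SV := (tn (tn (tn (tn (tn (tn (tn (tn (tn (tl [(392, .ofNat 1), (393, .ofNat 2), (394, .ofNat 1), (395, .ofNat 2), (396, .ofNat 2)]) te) te) te) te) te) te) (tn (tn (tn te (tn (tn (tn (tl [(434, .ofNat 1)]) te) te) te)) te) (tn (tn (tn (tn (tn (tl [(432, .ofNat 1), (433, .ofNat 2)]) te) te) te) te) te))) (tn (tn (tn (tn te (tn (tn (tn (tl [(434, .ofNat 2)]) te) te) te)) te) (tn (tn (tn (tn (tn (tl [(431, .ofNat 2)]) te) te) te) te) te)) te)) (tn (tn (tn (tn (tn (tn (tn (tn (tl [(397, .ofNat 2), (399, .ofNat 1), (400, .ofNat 2)]) te) te) te) te) te) te) (tn te (tn (tn (tn (tn (tn (tl [(432, .ofNat 1), (433, .ofNat 1)]) te) te) te) te) te))) (tn (tn (tn (tn (tn (tn (tn (tl [(418, .ofNat 2), (419, .ofNat 2), (422, .ofNat 1)]) te) te) te) (tn (tn (tn (tl [(434, .ofNat 2)]) te) te) te)) te) (tn (tn (tn (tn (tn (tl [(431, .ofNat 1)]) te) te) te) te) te)) te)))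

def r306 : Tr SV := (tn (tn (tn (tn (tn (tn (tn (tn (tn (tl [(395, .ofNat 1), (396, .ofNat 2)]) te) te) te) te) te) te) (tn (tn (tn te (tn (tn (tn (tl [(434, .ofNat 2)]) te) te) te)) te) (tn (tn (tn (tn (tn (tl [(433, .ofNat 2)]) te) te) te) te) te))) (tn (tn (tn (tn te (tn (tn (tn (tl [(434, .ofNat 2)]) te) te) te)) te) (tn (tn (tn (tn (tn (tl [(431, .ofNat 2)]) te) te) te) te) te)) te)) (tn (tn (tn (tn (tn (tn (tn (tn (tl [(399, .ofNat 1)]) te) te) te) te) te) te) (tn (tn (tn (tn (tn (tn (tl [(427, .ofNat 1)]) te) te) te) (tn (tn (tn (tl [(434, .ofNat 1)]) te) te) te)) te) te)) (tn (tn (tn (tn (tn (tn (tn (tl [(418, .ofNat 2), (419, .ofNat 1), (421, .ofNat 1)]) te) te) te) te) te) (tn (tn (tn (tn (tn (tl [(430, .ofNat 2)]) te) te) te) te) te)) te)))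

def r307 : Tr SV := (tn (tn (tn (tn (tn (tn (tn (tn (tn (tl [(392, .ofNat 1), (393, .ofNat 2), (395, .ofNat 1), (396, .ofNat 2)]) te) te) te) te) te) te) (tn (tn (tn te (tn (tn (tn (tl [(434, .ofNat 2)]) te) te) te)) te) (tn (tn (tn (tn (tn (tl [(432, .ofNat 2), (433, .ofNat 2)]) te) te) te) te) te))) (tn (tn te (tn (tn (tn (tn (tn (tl [(431, .ofNat 1)]) te) te) te) te) te)) (tn (tn (tn te (tn (tn (tn (tl [(434, .ofNat 2)]) te) te) te)) te) te))) (tn (tn (tn (tn (tn (tn (tn (tn (tl [(398, .ofNat 1), (400, .ofNat 1), (401, .ofNat 2)]) te) te) te) te) te) te) (tn te (tn (tn (tn (tn (tn (tl [(432, .ofNat 1), (433, .ofNat 2)]) te) te) te) te) te))) (tn (tn (tn (tn (tn (tn (tn (tl [(418, .ofNat 2), (419, .ofNat 2), (420, .ofNat 2), (421, .ofNat 1), (422, .ofNat 2)]) te) te) te) (tn (tn (tn (tl [(434, .ofNat 2)]) te) te) te)) te) (tn (tn (tn (tn (tn (tl [(430, .ofNat 1), (431, .ofNat 1)]) te) te) te) te) te)) te)))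

def r308 : Tr SV := (tn (tn (tn (tn (tn (tn (tn (tn (tn (tl [(393, .ofNat 1), (395, .ofNat 2), (396, .ofNat 2)]) te) te) te) te) te) te) (tn (tn (tn te (tn (tn (tn (tl [(434, .ofNat 1)]) te) te) te)) te) te)) (tn te (tn (tn (tn te (tn (tn (tn (tl [(434, .ofNat 2)]) te) te) te)) te) te))) (tn (tn (tn (tn (tn (tn (tn (tn (tl [(398, .ofNat 1), (399, .ofNat 2)]) te) te) te) te) te) te) (tn (tn (tn (tn (tn (tn (tl [(427, .ofNat 1)]) te) te) te) te) te) te)) (tn (tn (tn (tn (tn (tn (tn (tl [(418, .ofNat 1), (419, .ofNat 2), (420, .ofNat 1), (421, .ofNat 2)]) te) te) te) te) te) (tn (tn (tn (tn (tn (tl [(430, .ofNat 1), (431, .ofNat 1)]) te) te) te) te) te)) te)))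

def r309 : Tr SV := (tn (tn (tn (tn (tn (tn (tn (tn (tn (tl [(393, .ofNat 2), (394, .ofNat 2), (395, .ofNat 2), (396, .ofNat 1)]) te) te) te) te) te) te) (tn (tn (tn te (tn (tn (tn (tl [(434, .ofNat 1)]) te) te) te)) te) (tn (tn (tn (tn (tn (tl [(432, .ofNat 2)]) te) te) te) te) te))) (tn (tn (tn (tn te (tn (tn (tn (tl [(434, .ofNat 1)]) te) te) te)) te) (tn (tn (tn (tn (tn (tl [(430, .ofNat 2)]) te) te) te) te) te)) (tn (tn (tn te (tn (tn (tn (tl [(434, .ofNat 1)]) te) te) te)) te) te))) (tn (tn (tn (tn (tn (tn (tn (tn (tl [(397, .ofNat 1), (400, .ofNat 2)]) te) te) te) te) te) te) (tn (tn (tn (tn (tn (tn (tl [(427, .ofNat 2)]) te) te) te) (tn (tn (tn (tl [(434, .ofNat 2)]) te) te) te)) te) te)) (tn (tn (tn (tn (tn (tn (tn (tl [(419, .ofNat 2), (420, .ofNat 2), (421, .ofNat 1), (422, .ofNat 1)]) te) te) te) te) te) (tn (tn (tn (tn (tn (tl [(430, .ofNat 1), (431, .ofNat 2)]) te) te) te) te) te)) te)))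

def r310 : Tr SV := (tn (tn (tn (tn (tn (tn (tn (tn (tn (tl [(392, .ofNat 1), (394, .ofNat 2), (396, .ofNat 2)]) te) te) te) te) te) te) (tn te (tn (tn (tn (tn (tn (tl [(432, .ofNat 1)]) te) te) te) te) te))) (tn (tn te (tn (tn (tn (tn (tn (tl [(431, .ofNat 1)]) te) te) te) te) te)) te)) (tn (tn (tn (tn (tn (tn (tn (tn (tl [(397, .ofNat 2), (398, .ofNat 2), (400, .ofNat 1)]) te) te) te) te) te) te) (tn (tn (tn (tn (tn (tn (tl [(427, .ofNat 2)]) te) te) te) te) te) (tn (tn (tn (tn (tn (tl [(433, .ofNat 2)]) te) te) te) te) te))) (tn (tn (tn (tn (tn (tn (tn (tl [(420, .ofNat 2), (421, .ofNat 1)]) te) te) te) te) te) (tn (tn (tn (tn (tn (tl [(431, .ofNat 2)]) te) te) te) te) te)) te)))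

def r311 : Tr SV := (tn (tn (tn (tn (tn (tn (tn (tn (tn (tl [(392, .ofNat 2), (394, .ofNat 1), (395, .ofNat 2), (396, .ofNat 2)]) te) te) te) te) te) te) (tn te (tn (tn (tn (tn (tn (tl [(432, .ofNat 1), (433, .ofNat 2)]) te) te) te) te) te))) (tn (tn te (tn (tn (tn (tn (tn (tl [(431, .ofNat 2)]) te) te) te) te) te)) te)) (tn (tn (tn (tn (tn (tn (tn (tn (tl [(397, .ofNat 1), (399, .ofNat 1), (401, .ofNat 2)]) te) te) te) te) te) te) (tn (tn (tn (tn (tn (tn (tl [(427, .ofNat 1)]) te) te) te) te) te) (tn (tn (tn (tn (tn (tl [(432, .ofNat 1), (433, .ofNat 1)]) te) te) te) te) te))) (tn (tn (tn (tn (tn (tn (tn (tl [(418, .ofNat 2), (421, .ofNat 2)]) te) te) te) (tn (tn (tn (tl [(434, .ofNat 2)]) te) te) te)) te) (tn (tn (tn (tn (tn (tl [(431, .ofNat 2)]) te) te) te) te) te)) te)))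

def r312 : Tr SV := (tn (tn (tn (tn (tn (tn (tn (tn (tn (tl [(397, .ofNat 1), (398, .ofNat 2), (399, .ofNat 1), (400, .ofNat 2)]) te) te) te) te) te) te) te) (tn (tn te (tn (tn (tn (tn (tn (tl [(432, .ofNat 2)]) te) te) te) te) te)) (tn te (tn te (tn (tn (tn (tn (tl [(434, .ofNat 2)]) te) te) te) te))))) (tn (tn (tn (tn (tn te (tn (tn (tn (tl [(434, .ofNat 1)]) te) te) te)) te) te) te) (tn (tn (tn (tn (tn (tn (tn (tl [(423, .ofNat 2), (424, .ofNat 2), (425, .ofNat 1)]) te) te) te) te) te) te) (tn te (tn te (tn (tn (tn (tn (tl [(434, .ofNat 2)]) te) te) te) te))))))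

def r313 : Tr SV := (tn (tn (tn (tn (tn (tn (tn (tn (tn (tl [(398, .ofNat 2), (400, .ofNat 2), (401, .ofNat 1)]) te) te) te) (tn (tn (tn (tl [(434, .ofNat 2)]) te) te) te)) te) te) (tn (tn (tn (tn (tn (tn (tl [(427, .ofNat 2)]) te) te) te) te) te) te)) (tn (tn te (tn (tn (tn (tn (tn (tl [(432, .ofNat 1)]) te) te) te) te) te)) (tn te (tn te (tn (tn (tn (tn (tl [(434, .ofNat 2)]) te) te) te) te))))) (tn te (tn (tn (tn (tn (tn (tn (tn (tl [(423, .ofNat 2), (424, .ofNat 2), (426, .ofNat 1)]) te) te) te) te) te) (tn (tn (tn (tn (tn (tl [(432, .ofNat 2), (433, .ofNat 1)]) te) te) te) te) te)) te)))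

def r314 : Tr SV := (tn (tn (tn (tn (tn (tn (tn (tn (tn (tl [(400, .ofNat 1), (401, .ofNat 1)]) te) te) te) (tn (tn (tn (tl [(434, .ofNat 2)]) te) te) te)) te) te) (tn (tn (tn (tn (tn (tn (tl [(427, .ofNat 2)]) te) te) te) te) te) te)) (tn (tn te (tn (tn (tn (tn (tn (tl [(432, .ofNat 1), (433, .ofNat 1)]) te) te) te) te) te)) (tn te (tn te (tn (tn (tn (tn (tl [(434, .ofNat 1)]) te) te) te) te))))) (tn te (tn (tn (tn (tn (tn (tn (tn (tl [(423, .ofNat 1), (425, .ofNat 2), (426, .ofNat 1)]) te) te) te) te) te) (tn (tn (tn (tn (tn (tl [(432, .ofNat 2), (433, .ofNat 2)]) te) te) te) te) te)) (tn te (tn te (tn (tn (tn (tn (tl [(434, .ofNat 1)]) te) te) te) te))))))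

def r315 : Tr SV := (tn (tn (tn (tn (tn (tn (tn (tn (tn (tl [(398, .ofNat 1), (399, .ofNat 1), (401, .ofNat 1)]) te) te) te) te) te) te) te) (tn (tn te (tn (tn (tn (tn (tn (tl [(432, .ofNat 1)]) te) te) te) te) te)) (tn te (tn te (tn (tn (tn (tn (tl [(434, .ofNat 1)]) te) te) te) te))))) (tn te (tn (tn (tn (tn (tn (tn (tn (tl [(424, .ofNat 2)]) te) te) te) te) te) (tn (tn (tn (tn (tn (tl [(432, .ofNat 1), (433, .ofNat 1)]) te) te) te) te) te)) te)))

def r316 : Tr SV := (tn (tn (tn (tn (tn (tn (tn (tn (tn (tl [(397, .ofNat 1), (398, .ofNat 2), (399, .ofNat 1), (400, .ofNat 1)]) te) te) te) te) te) te) te) (tn (tn te (tn (tn (tn (tn (tn (tl [(432, .ofNat 1)]) te) te) te) te) te)) te)) (tn (tn (tn (tn (tn te (tn (tn (tn (tl [(434, .ofNat 2)]) te) te) te)) te) te) te) (tn (tn (tn (tn (tn (tn (tn (tl [(423, .ofNat 2), (424, .ofNat 1), (426, .ofNat 1)]) te) te) te) te) te) (tn (tn (tn (tn (tn (tl [(432, .ofNat 2), (433, .ofNat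 1)]) te) te) te) te) te)) (tn te (tn te (tn (tn (tn (tn (tl [(434, .ofNat 2)]) te) te) te) te))))))

def r317 : Tr SV := (tn (tn (tn (tn (tn (tn (tn (tn (tn (tl [(397, .ofNat 2), (398, .ofNat 1)]) te) te) te) te) te) te) (tn (tn (tn (tn (tn (tn (tl [(427, .ofNat 2)]) te) te) te) te) te) te)) (tn (tn te (tn (tn (tn (tn (tn (tl [(432, .ofNat 1), (433, .ofNat 1)]) te) te) te) te) te)) (tn te (tn te (tn (tn (tn (tn (tl [(434, .ofNat 2)]) te) te) te) te))))) (tn (tn (tn (tn (tn te (tn (tn (tn (tl [(434, .ofNat 1)]) te) te) te)) te) te) te) (tn (tn (tn (tn (tn (tn (tn (tl [(423, .ofNat 2), (424, .ofNat 1), (426, .ofNat 1)]) te) te) te) te) te) (tn (tn (tn (tn (tn (tl [(432, .ofNat 1)]) te) te) te) te) te)) (tn te (tn te (tn (tn (tn (tn (tl [(434, .ofNat 2)]) te) te) te) te))))))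

def r318 : Tr SV := (tn (tn (tn (tn (tn (tn (tn (tn (tn (tl [(399, .ofNat 1), (400, .ofNat 1), (401, .ofNat 2)]) te) te) te) (tn (tn (tn (tl [(434, .ofNat 1)]) te) te) te)) te) te) te) (tn (tn te (tn (tn (tn (tn (tn (tl [(433, .ofNat 2)]) te) te) te) te) te)) (tn te (tn te (tn (tn (tn (tn (tl [(434, .ofNat 1)]) te) te) te) te))))) (tn (tn (tn (tn (tn te (tn (tn (tn (tl [(434, .ofNat 1)]) te) te) te)) te) te) te) (tn (tn (tn (tn (tn (tn (tn (tl [(423, .ofNat 2), (424, .ofNat 1), (425, .ofNat 1), (426, .ofNat 2)]) te) te) te) te) te) (tn (tn (tn (tn (tn (tl [(432, .ofNat 1), (433, .ofNat 1)]) te) te) te) te) te)) (tn te (tn te (tn (tn (tn (tn (tl [(434, .ofNat 1)]) te) te) te) te))))))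

def r319 : Tr SV := (tn (tn (tn (tn (tn (tn (tn (tn (tn (tl [(397, .ofNat 1), (398, .ofNat 2), (399, .ofNat 1), (400, .ofNat 1), (401, .ofNat 2)]) te) te) te) (tn (tn (tn (tl [(434, .ofNat 1)]) te) te) te)) te) te) te) (tn (tn te (tn (tn (tn (tn (tn (tl [(433, .ofNat 2)]) te) te) te) te) te)) te)) te)

def r320 : Tr SV := (tn (tn (tn (tn (tn (tn (tn (tn (tn (tl [(399, .ofNat 2), (400, .ofNat 1), (401, .ofNat 1)]) te) te) te) (tn (tn (tn (tl [(434, .ofNat 1)]) te) te) te)) te) te) (tn (tn (tn (tn (tn (tn (tl [(427, .ofNat 2)]) te) te) te) te) te) te)) (tn (tn te (tn (tn (tn (tn (tn (tl [(432, .ofNat 2)]) te) te) te) te) te)) te)) (tn (tn (tn (tn (tn te (tn (tn (tn (tl [(434, .ofNat 2)]) te) te) te)) te) te) te) (tn (tn (tn (tn (tn (tn (tn (tl [(423, .ofNat 1), (424, .ofNat 1), (425, .ofNat 1), (426, .ofNat 1)]) te) te) te) te) te) (tn (tn (tn (tn (tn (tl [(432, .ofNat 1)]) te) te) te) te) te)) (tn te (tn te (tn (tn (tn (tn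 (tl [(434, .ofNat 1)]) te) te) te) te))))))

def r321 : Tr SV := (tn (tn (tn (tn (tn (tn (tn (tn (tn (tl [(397, .ofNat 1), (398, .ofNat 2), (400, .ofNat 1)]) te) te) te) te) te) te) (tn (tn (tn (tn (tn (tn (tl [(427, .ofNat 2)]) te) te) te) te) te) te)) (tn (tn te (tn (tn (tn (tn (tn (tl [(433, .ofNat 2)]) te) te) te) te) te)) (tn te (tn te (tn (tn (tn (tn (tl [(434, .ofNat 1)]) te) te) te) te))))) (tn (tn (tn (tn (tn te (tn (tn (tn (tl [(434, .ofNat 1)]) te) te) te)) te) te) te) (tn (tn (tn (tn (tn (tn (tn (tl [(423, .ofNat 1), (424, .ofNat 2), (426, .ofNat 2)]) te) te) te) te) te) (tn (tn (tn (tn (tn (tl [(432, .ofNat 1), (433, .ofNat 2)]) te) te) te) te) te)) (tn te (tn te (tn (tn (tn (tn (tl [(434, .ofNat 2)]) te) te) te) te))))))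

def r322 : Tr SV := (tn (tn (tn (tn (tn (tn (tn (tn (tn (tl [(397, .ofNat 1), (399, .ofNat 1)]) te) te) te) (tn (tn (tn (tl [(434, .ofNat 1)]) te) te) te)) te) te) (tn (tn (tn (tn (tn (tn (tl [(427, .ofNat 1)]) te) te) te) te) te) te)) (tn (tn te (tn (tn (tn (tn (tn (tl [(432, .ofNat 2)]) te) te) te) te) te)) te)) (tn (tn (tn (tn (tn te (tn (tn (tn (tl [(434, .ofNat 2)]) te) te) te)) te) te) te) (tn (tn (tn (tn (tn (tn (tn (tl [(423, .ofNat 2), (425, .ofNat 2)]) te) te) te) te) te) (tn (tn (tn (tn (tn (tl [(432, .ofNat 2), (433, .ofNat 1)]) te) te) te) te) te)) (tn te (tn te (tn (tn (tn (tn (tl [(434, .ofNat 1)]) te) te) te) te))))))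

def r323 : Tr SV := (tn (tn (tn (tn (tn (tn (tn (tn (tn (tl [(398, .ofNat 1), (400, .ofNat 1), (401, .ofNat 2)]) te) te) te) (tn (tn (tn (tl [(434, .ofNat 1)]) te) te) te)) te) te) (tn (tn (tn (tn (tn (tn (tl [(427, .ofNat 2)]) te) te) te) te) te) te)) (tn (tn te (tn (tn (tn (tn (tn (tl [(432, .ofNat 1), (433, .ofNat 2)]) te) te) te) te) te)) (tn te (tn te (tn (tn (tn (tn (tl [(434, .ofNat 1)]) te) te) te) te))))) (tn (tn (tn (tn (tn te (tn (tn (tn (tl [(434, .ofNat 1)]) te) te) te)) te) te) te) (tn (tn (tn (tn (tn (tn (tn (tl [(423, .ofNat 2), (424, .ofNat 1), (425, .ofNat 1)]) te) te) te) te) te) (tn (tn (tn (tn (tn (tl [(432, .ofNat 2)]) te) te) te) te) te)) (tn te (tn te (tn (tn (tn (tn (tl [(434, .ofNat 1)]) te) te) te) te))))))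

def r324 : Tr SV := (tn (tn (tn (tn (tn (tn (tn (tn (tn (tl [(397, .ofNat 1), (398, .ofNat 2), (400, .ofNat 1), (401, .ofNat 2)]) te) te) te) (tn (tn (tn (tl [(434, .ofNat 1)]) te) te) te)) te) te) te) (tn (tn te (tn (tn (tn (tn (tn (tl [(432, .ofNat 2), (433, .ofNat 1)]) te) te) te) te) te)) te)) (tn te (tn (tn (tn (tn (tn (tn (tn (tl [(423, .ofNat 2), (424, .ofNat 2), (425, .ofNat 1)]) te) te) te) te) te) (tn (tn (tn (tn (tn (tl [(432, .ofNat 1), (433, .ofNat 1)]) te) te) te) te) te)) te)))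

def r325 : Tr SV := (tn (tn (tn (tn (tn (tn (tn (tn (tn (tl [(398, .ofNat 1), (399, .ofNat 1)]) te) te) te) te) te) te) (tn (tn (tn (tn (tn (tn (tl [(427, .ofNat 1)]) te) te) te) te) te) te)) (tn (tn te (tn (tn (tn (tn (tn (tl [(432, .ofNat 2)]) te) te) te) te) te)) te)) (tn te (tn (tn (tn (tn (tn (tn (tn (tl [(423, .ofNat 1), (424, .ofNat 1), (425, .ofNat 2), (426, .ofNat 2)]) te) te) te) te) te) (tn (tn (tn (tn (tn (tl [(432, .ofNat 1)]) te) te) te) te) te)) (tn te (tn te (tn (tn (tn (tn (tl [(434, .ofNat 2)]) te) te) te) te))))))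

def r326 : Tr SV := (tn (tn (tn (tn te (tn (tn (tn (tn (tn (tl [(431, .ofNat 1)]) te) te) te) te) te)) (tn te (tn te (tn (tn (tn (tn (tl [(434, .ofNat 2)]) te) te) te) te)))) (tn (tn (tn (tn (tn (tn (tn (tl [(415, .ofNat 2), (416, .ofNat 2), (417, .ofNat 1)]) te) te) te) te) te) te) (tn (tn (tn (tn (tn (tn (tl [(428, .ofNat 2)]) te) te) te) te) te) te))) (tn (tn (tn (tn (tn (tn (tn (tn (tl [(403, .ofNat 1), (404, .ofNat 1), (406, .ofNat 1), (407, .ofNat 2)]) te) te) te) te) te) (tn (tn (tn (tn (tn (tl [(430, .ofNat 1)]) te) te) te) te) te)) (tn te (tn te (tn (tn (tn (tn (tl [(434, .ofNat 1)]) te) te) te) te)))) (tn (tn te (tn te (tn (tn (tn (tn (tl [(434, .ofNat 1)]) te) te) te) te))) te)))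

def r327 : Tr SV := (tn (tn (tn (tn te (tn (tn (tn (tn (tn (tl [(431, .ofNat 1)]) te) te) te) te) te)) (tn te (tn te (tn (tn (tn (tn (tl [(434, .ofNat 2)]) te) te) te) te)))) (tn (tn (tn (tn (tn (tn (tn (tl [(414, .ofNat 2), (416, .ofNat 1)]) te) te) te) te) te) (tn te (tn (tn (tn (tn (tl [(434, .ofNat 1)]) te) te) te) te))) (tn (tn (tn (tn (tn (tn (tl [(429, .ofNat 2)]) te) te) te) te) te) te))) (tn (tn (tn (tn (tn (tn (tn (tn (tl [(403, .ofNat 2), (405, .ofNat 2)]) te) te) te) te) te) (tn (tn (tn (tn (tn (tl [(430, .ofNat 2)]) te) te) te) te) te)) (tn te (tn te (tn (tn (tn (tn (tl [(434, .ofNat 2)]) te) te) te) te)))) (tn (tn te (tn te (tn (tn (tn (tn (tl [(434, .ofNat 2)]) te) te) te) te))) te)))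

def r328 : Tr SV := (tn (tn (tn (tn te (tn (tn (tn (tn (tn (tl [(430, .ofNat 1), (431, .ofNat 1)]) te) te) te) te) te)) (tn te (tn te (tn (tn (tn (tn (tl [(434, .ofNat 1)]) te) te) te) te)))) (tn (tn (tn (tn (tn (tn (tn (tl [(415, .ofNat 2), (416, .ofNat 2), (417, .ofNat 2)]) te) te) te) te) te) te) (tn (tn (tn (tn (tn (tn (tl [(428, .ofNat 2)]) te) te) te) te) te) te))) (tn (tn (tn (tn (tn (tn (tn (tn (tl [(402, .ofNat 1), (404, .ofNat 1)]) te) te) te) te) te) (tn (tn (tn (tn (tn (tl [(431, .ofNat 1)]) te) te) te) te) te)) (tn te (tn te (tn (tn (tn (tn (tl [(434, .ofNat 2)]) te) te) te) te)))) (tn (tn te (tn te (tn (tn (tn (tn (tl [(434, .ofNat 2)]) te) te) te) te))) te)))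

def r329 : Tr SV := (tn (tn (tn (tn te (tn (tn (tn (tn (tn (tl [(430, .ofNat 1), (431, .ofNat 2)]) te) te) te) te) te)) te) (tn (tn (tn (tn (tn (tn (tn (tl [(414, .ofNat 2), (415, .ofNat 2)]) te) te) te) te) te) te) (tn (tn (tn (tn (tn (tn (tl [(428, .ofNat 2), (429, .ofNat 2)]) te) te) te) te) te) te))) (tn (tn (tn (tn (tn (tn (tn (tn (tl [(402, .ofNat 2), (404, .ofNat 1), (405, .ofNat 1), (408, .ofNat 2)]) te) te) te) te) te) (tn (tn (tn (tn (tn (tl [(431, .ofNat 2)]) te) te) te) te) te)) te) te))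

def r330 : Tr SV := (tn (tn (tn te (tn te (tn te (tn (tn (tn (tn (tl [(434, .ofNat 2)]) te) te) te) te)))) (tn (tn (tn (tn (tn (tn (tn (tl [(414, .ofNat 2), (416, .ofNat 2), (417, .ofNat 2)]) te) te) te) te) te) (tn te (tn (tn (tn (tn (tl [(434, .ofNat 1)]) te) te) te) te))) (tn (tn (tn (tn (tn (tn (tl [(428, .ofNat 1)]) te) te) te) te) te) te))) (tn (tn (tn (tn (tn (tn (tn (tn (tl [(402, .ofNat 2), (403, .ofNat 1), (404, .ofNat 1), (405, .ofNat 1), (407, .ofNat 2), (408, .ofNat 2)]) te) te) te) te) te) (tn (tn (tn (tn (tn (tl [(430, .ofNat 2), (431, .ofNat 2)]) te) te) te) te) te)) (tn te (tn te (tn (tn (tn (tn (tl [(434, .ofNat 2)]) te) te) te) te)))) (tn (tn te (tn te (tn (tn (tn (tn (tl [(434, .ofNat 2)]) te) te) te) te))) te)))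

def r331 : Tr SV := (tn (tn (tn (tn te (tn (tn (tn (tn (tn (tl [(430, .ofNat 1), (431, .ofNat 2)]) te) te) te) te) te)) (tn te (tn te (tn (tn (tn (tn (tl [(434, .ofNat 1)]) te) te) te) te)))) (tn (tn (tn (tn (tn (tn (tn (tl [(414, .ofNat 1), (415, .ofNat 2), (416, .ofNat 2), (417, .ofNat 2)]) te) te) te) te) te) te) (tn (tn (tn (tn (tn (tn (tl [(428, .ofNat 1), (429, .ofNat 2)]) te) te) te) te) te) te))) (tn (tn (tn (tn (tn (tn (tn (tn (tl [(403, .ofNat 1), (405, .ofNat 1), (406, .ofNat 2), (407, .ofNat 2), (408, .ofNat 2)]) te) te) te) te) te) (tn (tn (tn (tn (tn (tl [(431, .ofNat 1)]) te) te) te) te) te)) (tn te (tn te (tn (tn (tn (tn (tl [(434, .ofNat 2)]) te) te) te) te)))) (tn (tn te (tn te (tn (tn (tn (tn (tl [(434, .ofNat 2)]) te) te) te) te))) te)))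

def r332 : Tr SV := (tn (tn te (tn (tn (tn (tn (tn (tn (tn (tl [(415, .ofNat 1), (416, .ofNat 1), (417, .ofNat 2)]) te) te) te) te) te) te) te)) (tn (tn (tn (tn (tn (tn (tn (tn (tl [(402, .ofNat 1), (405, .ofNat 2), (406, .ofNat 1), (407, .ofNat 1), (408, .ofNat 2)]) te) te) te) te) te) te) te) te))

def r333 : Tr SV := (tn (tn (tn (tn te (tn (tn (tn (tn (tn (tl [(431, .ofNat 1)]) te) te) te) te) te)) (tn te (tn te (tn (tn (tn (tn (tl [(434, .ofNat 1)]) te) te) te) te)))) (tn (tn (tn (tn (tn (tn (tn (tl [(414, .ofNat 2), (415, .ofNat 1), (416, .ofNat 1), (417, .ofNat 2)]) te) te) te) te) te) (tn te (tn (tn (tn (tn (tl [(434, .ofNat 1)]) te) te) te) te))) (tn (tn (tn (tn (tn (tn (tl [(428, .ofNat 1), (429, .ofNat 1)]) te) te) te) te) te) te))) (tn (tn (tn (tn (tn (tn (tn (tn (tl [(403, .ofNat 2), (404, .ofNat 1), (405, .ofNat 1), (406, .ofNat 1)]) te) te) te) te) te) (tn (tn (tn (tn (tn (tl [(430, .ofNat 1)]) te) te) te) te)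 te)) (tn te (tn te (tn (tn (tn (tn (tl [(434, .ofNat 2)]) te) te) te) te)))) (tn (tn te (tn te (tn (tn (tn (tn (tl [(434, .ofNat 1)]) te) te) te) te))) te)))

def r334 : Tr SV := (tn (tn (tn (tn te (tn (tn (tn (tn (tn (tl [(431, .ofNat 1)]) te) te) te) te) te)) (tn te (tn te (tn (tn (tn (tn (tl [(434, .ofNat 2)]) te) te) te) te)))) (tn (tn (tn (tn (tn (tn (tn (tl [(414, .ofNat 1), (416, .ofNat 2), (417, .ofNat 2)]) te) te) te) te) te) (tn te (tn (tn (tn (tn (tl [(434, .ofNat 1)]) te) te) te) te))) (tn (tn (tn (tn (tn (tn (tl [(429, .ofNat 2)]) te) te) te) te) te) te))) (tn (tn (tn (tn (tn (tn (tn (tn (tl [(403, .ofNat 1), (405, .ofNat 2), (406, .ofNat 2), (408, .ofNat 2)]) te) te) te) te) te) (tn (tn (tn (tn (tn (tl [(430, .ofNat 2)]) te) te) te) te) te)) (tn te (tn te (tn (tn (tn (tn (tl [(434, .ofNat 2)]) te) te) te) te)))) (tn (tn te (tn te (tn (tn (tn (tn (tl [(434, .ofNat 2)]) te) te) te) te))) te)))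

def r335 : Tr SV := (tn (tn (tn (tn te (tn (tn (tn (tn (tn (tl [(430, .ofNat 2), (431, .ofNat 1)]) te) te) te) te) te)) te) (tn (tn (tn (tn (tn (tn (tn (tl [(414, .ofNat 1), (415, .ofNat 1)]) te) te) te) te) te) (tn te (tn (tn (tn (tn (tl [(434, .ofNat 1)]) te) te) te) te))) te)) (tn (tn (tn (tn (tn (tn (tn (tn (tl [(402, .ofNat 1), (403, .ofNat 1), (404, .ofNat 2), (405, .ofNat 2), (407, .ofNat 1)]) te) te) te) te) te) (tn (tn (tn (tn (tn (tl [(430, .ofNat 2), (431, .ofNat 2)]) te) te) te) te) te)) (tn te (tn te (tn (tn (tn (tn (tl [(434, .ofNat 1)]) te) te) te) te)))) (tn (tn te (tn te (tn (tn (tn (tn (tl [(434, .ofNat 2)]) te) te) te) te))) te)))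

def r336 : Tr SV := (tn (tn (tn (tn te (tn (tn (tn (tn (tn (tl [(430, .ofNat 1), (431, .ofNat 2)]) te) te) te) te) te)) (tn te (tn te (tn (tn (tn (tn (tl [(434, .ofNat 2)]) te) te) te) te)))) (tn (tn (tn (tn (tn (tn (tn (tl [(414, .ofNat 2), (415, .ofNat 1), (416, .ofNat 1), (417, .ofNat 1)]) te) te) te) te) te) te) (tn (tn (tn (tn (tn (tn (tl [(428, .ofNat 1), (429, .ofNat 1)]) te) te) te) te) te) te))) (tn (tn (tn (tn (tn (tn (tn (tn (tl [(404, .ofNat 1), (405, .ofNat 1), (406, .ofNat 2), (407, .ofNat 1)]) te) te) te) te) te) (tn (tn (tn (tn (tn (tl [(430, .ofNat 2), (431, .ofNat 2)]) te) te) te) te) te)) te) (tn (tn te (tn te (tn (tn (tn (tn (tl [(434, .ofNat 1)]) te) te) te) te))) te)))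

def r337 : Tr SV := (tn (tn (tn (tn te (tn (tn (tn (tn (tn (tl [(430, .ofNat 2), (431, .ofNat 2)]) te) te) te) te) te)) (tn te (tn te (tn (tn (tn (tn (tl [(434, .ofNat 2)]) te) te) te) te)))) (tn (tn (tn (tn (tn (tn (tn (tl [(416, .ofNat 2)]) te) te) te) te) te) (tn te (tn (tn (tn (tn (tl [(434, .ofNat 2)]) te) te) te) te))) (tn (tn (tn (tn (tn (tn (tl [(428, .ofNat 1), (429, .ofNat 2)]) te) te) te) te) te) te))) (tn (tn (tn (tn (tn (tn (tn (tn (tl [(402, .ofNat 1), (403, .ofNat 1), (404, .ofNat 2), (405, .ofNat 1), (407, .ofNat 1)]) te) te) te) te) te) (tn (tn (tn (tn (tn (tl [(431, .ofNat 2)]) te) te) te) te) te)) te) (tn (tn te (tn te (tn (tn (tn (tn (tl [(434, .ofNat 1)]) te) te) te) te))) te)))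

def r338 : Tr SV := (tn (tn (tn (tn (tn (tn (tn (tn (tn (tl [(402, .ofNat 1), (403, .ofNat 2), (404, .ofNat 2), (405, .ofNat 2), (406, .ofNat 1), (407, .ofNat 1), (408, .ofNat 1)]) te) te) te) te) te) (tn (tn (tn (tn (tn (tl [(433, .ofNat 2)]) te) te) te) te) (tn (tn (tn (tn (tl [(434, .ofNat 1)]) te) te) te) te))) te) (tn (tn (tn (tn (tn (tn (tn (tl [(419, .ofNat 2), (421, .ofNat 2), (422, .ofNat 1)]) te) te) te) te) te) te) te)) (tn (tn (tn (tn (tn (tn (tn (tn (tl [(409, .ofNat 1), (410, .ofNat 1), (411, .ofNat 2), (413, .ofNat 1)]) te) te) te) te) te) (tn (tn (tn (tn (tn (tl [(433, .ofNat 1)]) te) te) te) te) (tn (tn (tn (tn (tl [(434, .ofNat 1)]) te) te) te) te))) (tn (tn (tn (tn (tn (tn (tl [(429, .ofNat 2)]) te) te) te) te) te) te)) (tn te (tn (tn (tn (tn (tn (tn (tl [(430, .ofNat 2), (431, .ofNat 1)]) te) te) te) te) (tn (tn (tn (tn (tl [(434, .ofNat 1)]) te) te) te) te)) te))))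

def r339 : Tr SV := (tn (tn (tn (tn (tn (tn (tn (tn (tn (tl [(402, .ofNat 2), (403, .ofNat 2), (404, .ofNat 2), (405, .ofNat 1), (406, .ofNat 2), (408, .ofNat 1)]) te) te) te) te) te) (tn (tn (tn (tn (tn (tl [(432, .ofNat 2), (433, .ofNat 1)]) te) te) te) te) te)) te) (tn (tn (tn (tn (tn (tn (tn (tl [(420, .ofNat 1), (421, .ofNat 2), (422, .ofNat 1)]) te) te) te) te) te) te) te)) (tn (tn (tn (tn (tn (tn (tn (tn (tl [(409, .ofNat 1), (410, .ofNat 2), (412, .ofNat 2)]) te) te) te) te) te) (tn (tn (tn (tn (tn (tl [(433, .ofNat 1)]) te) te) te) te) (tn (tn (tn (tn (tl [(434, .ofNat 1)]) te) te) te) te))) (tn (tn (tn (tn (tn (tn (tl [(429, .ofNat 1)]) te) te) te) te) te) te)) (tn te (tn (tn (tn (tn (tn (tn (tl [(430, .ofNat 2)]) te) te) te) te) (tn (tn (tn (tn (tl [(434, .ofNat 1)]) te) te) te) te)) te))))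

def r340 : Tr SV := (tn (tn (tn (tn (tn (tn (tn (tn (tn (tl [(402, .ofNat 1), (404, .ofNat 2), (405, .ofNat 2), (406, .ofNat 2), (407, .ofNat 2)]) te) te) te) te) te) (tn (tn (tn (tn (tn (tl [(432, .ofNat 2)]) te) te) te) te) (tn (tn (tn (tn (tl [(434, .ofNat 1)]) te) te) te) te))) te) (tn (tn (tn (tn (tn (tn (tn (tl [(419, .ofNat 1), (420, .ofNat 1), (421, .ofNat 2)]) te) te) te) te) te) te) te)) (tn (tn (tn (tn (tn (tn (tn (tn (tl [(409, .ofNat 1), (410, .ofNat 1), (412, .ofNat 1)]) te) te) te) te) te) (tn (tn (tn (tn (tn (tl [(433, .ofNat 1)]) te) te) te) te) (tn (tn (tn (tn (tl [(434, .ofNat 1)]) te) te) te) te))) (tn (tn (tn (tn (tn (tn (tl [(428, .ofNat 2), (429, .ofNat 2)]) te) te) te) te) te) te)) (tn te (tn (tn te (tn (tn (tn (tn (tl [(434, .ofNat 1)]) te) te) te) te)) te))))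

def r341 : Tr SV := (tn (tn (tn (tn (tn (tn (tn (tn (tn (tl [(402, .ofNat 1), (403, .ofNat 2), (405, .ofNat 1), (406, .ofNat 2), (407, .ofNat 1), (408, .ofNat 2)]) te) te) te) te) te) (tn (tn (tn (tn (tn (tl [(432, .ofNat 2), (433, .ofNat 2)]) te) te) te) te) te)) te) (tn (tn (tn (tn (tn (tn (tn (tl [(419, .ofNat 2), (420, .ofNat 1), (422, .ofNat 1)]) te) te) te) te) te) te) te)) (tn (tn (tn (tn (tn (tn (tn (tn (tl [(409, .ofNat 2), (411, .ofNat 2), (412, .ofNat 2)]) te) te) te) te) te) (tn (tn (tn (tn (tn (tl [(433, .ofNat 1)]) te) te) te) te) (tn (tn (tn (tn (tl [(434, .ofNat 2)]) te) te) te) te))) (tn (tn (tn (tn (tn (tn (tl [(428, .ofNat 1), (429, .ofNat 2)]) te) te) te) te) te) te)) (tn te (tn (tn (tn (tn (tn (tn (tl [(430, .ofNat 2), (431, .ofNat 2)]) te) te) te) te) (tn (tn (tn (tn (tl [(434, .ofNat 2)]) te) te) te) te)) te))))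

def r342 : Tr SV := (tn (tn (tn (tn (tn (tn (tn (tn (tn (tl [(402, .ofNat 1), (403, .ofNat 2), (404, .ofNat 2), (406, .ofNat 1), (407, .ofNat 1)]) te) te) te) te) te) te) te) (tn (tn (tn (tn (tn (tn (tn (tl [(418, .ofNat 2), (420, .ofNat 1), (422, .ofNat 2)]) te) te) te) te) te) te) te)) (tn (tn (tn (tn (tn (tn (tn (tn (tl [(409, .ofNat 2), (410, .ofNat 2), (413, .ofNat 1)]) te) te) te) te) te) (tn (tn (tn (tn (tn (tl [(432, .ofNat 1), (433, .ofNat 2)]) te) te) te) te) te)) (tn (tn (tn (tn (tn (tn (tl [(428, .ofNat 1), (429, .ofNat 1)]) te) te) te) te) te) te)) (tn te (tn (tn (tn (tn (tn (tn (tl [(430, .ofNat 2), (431, .ofNat 1)]) te) te) te) te) te) te))))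

def r343 : Tr SV := (tn (tn (tn (tn (tn (tn (tn (tn (tn (tl [(403, .ofNat 2), (404, .ofNat 2), (408, .ofNat 2)]) te) te) te) te) te) (tn (tn (tn (tn (tn (tl [(433, .ofNat 2)]) te) te) te) te) (tn (tn (tn (tn (tl [(434, .ofNat 1)]) te) te) te) te))) te) (tn (tn (tn (tn (tn (tn (tn (tl [(418, .ofNat 2), (421, .ofNat 1), (422, .ofNat 2)]) te) te) te) te) te) te) te)) (tn (tn (tn (tn (tn (tn (tn (tn (tl [(409, .ofNat 1), (410, .ofNat 2), (411, .ofNat 1)]) te) te) te) te) te) (tn (tn (tn (tn (tn (tl [(433, .ofNat 1)]) te) te) te) te) (tn (tn (tn (tn (tl [(434, .ofNat 1)]) te) te) te) te))) (tn (tn (tn (tn (tn (tn (tl [(429, .ofNat 2)]) te) te) te) te) te) te)) (tn te (tn (tn (tn (tn (tn (tn (tl [(430, .ofNat 2), (431, .ofNat 1)]) te) te) te) te) (tn (tn (tn (tn (tl [(434, .ofNat 1)]) te) te) te) te)) te))))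

def r344 : Tr SV := (tn (tn (tn (tn (tn (tn (tn (tn (tn (tl [(403, .ofNat 2), (404, .ofNat 1), (405, .ofNat 2), (406, .ofNat 1), (407, .ofNat 1), (408, .ofNat 1)]) te) te) te) te) te) (tn (tn (tn (tn (tn (tl [(432, .ofNat 1)]) te) te) te) te) te)) te) (tn (tn (tn (tn (tn (tn (tn (tl [(418, .ofNat 1), (419, .ofNat 2), (422, .ofNat 1)]) te) te) te) te) te) te) te)) (tn (tn (tn (tn (tn (tn (tn (tn (tl [(409, .ofNat 2), (410, .ofNat 2), (411, .ofNat 2)]) te) te) te) te) te) (tn (tn (tn (tn (tn (tl [(432, .ofNat 2)]) te) te) te) te) (tn (tn (tn (tn (tl [(434, .ofNat 1)]) te) te) te) te))) (tn (tn (tn (tn (tn (tn (tl [(428, .ofNat 1), (429, .ofNat 2)]) te) te) te) te) te) te)) (tn te (tn (tn (tn (tn (tn (tn (tl [(430, .ofNat 2), (431, .ofNat 2)]) te) te) te) te) (tn (tn (tn (tn (tl [(434, .ofNat 1)]) te) te) te) te)) te))))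

def r345 : Tr SV := (tn (tn (tn (tn (tn (tn (tn (tn (tn (tl [(402, .ofNat 2), (403, .ofNat 1), (404, .ofNat 1), (406, .ofNat 2), (407, .ofNat 2)]) te) te) te) te) te) te) te) (tn (tn (tn (tn (tn (tn (tn (tl [(420, .ofNat 1), (422, .ofNat 1)]) te) te) te) te) te) te) te)) (tn (tn (tn (tn (tn (tn (tn (tn (tl [(411, .ofNat 2), (413, .ofNat 2)]) te) te) te) te) te) (tn (tn (tn (tn (tn (tl [(432, .ofNat 2), (433, .ofNat 1)]) te) te) te) te) te)) te) (tn te (tn (tn (tn (tn (tn (tn (tl [(430, .ofNat 1)]) te) te) te) te) te) te))))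

def r346 : Tr SV := (tn (tn (tn (tn (tn (tn (tn (tn (tn (tl [(402, .ofNat 1), (404, .ofNat 1), (405, .ofNat 2), (406, .ofNat 1), (407, .ofNat 2)]) te) te) te) te) te) (tn (tn (tn (tn (tn (tl [(432, .ofNat 2)]) te) te) te) te) (tn (tn (tn (tn (tl [(434, .ofNat 1)]) te) te) te) te))) te) (tn (tn (tn (tn (tn (tn (tn (tl [(418, .ofNat 2), (420, .ofNat 1), (422, .ofNat 1)]) te) te) te) te) te) te) te)) (tn (tn (tn (tn (tn (tn (tn (tn (tl [(409, .ofNat 1), (410, .ofNat 1), (411, .ofNat 1), (412, .ofNat 2), (413, .ofNat 1)]) te) te) te) te) te) (tn (tn (tn (tn (tn (tl [(433, .ofNat 1)]) te) te) te) te) (tn (tn (tn (tn (tl [(434, .ofNat 1)]) te) te) te) te))) (tn (tn (tn (tn (tn (tn (tl [(428, .ofNat 1), (429, .ofNat 1)]) te) te) te) te) te) te)) (tn te (tn (tn (tn (tn (tn (tn (tl [(431, .ofNat 2)]) te) te) te) te) (tn (tn (tn (tn (tl [(434, .ofNat 1)]) te) te) te) te)) te))))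

def r347 : Tr SV := (tn (tn (tn (tn (tn (tn (tn (tn (tn (tl [(405, .ofNat 2), (406, .ofNat 1), (407, .ofNat 1), (408, .ofNat 2)]) te) te) te) te) te) (tn te (tn (tn (tn (tn (tl [(434, .ofNat 2)]) te) te) te) te))) te) (tn (tn (tn (tn (tn (tn (tn (tl [(418, .ofNat 2), (421, .ofNat 2), (422, .ofNat 1)]) te) te) te) te) te) te) te)) (tn (tn (tn (tn (tn (tn (tn (tn (tl [(409, .ofNat 2), (410, .ofNat 1), (412, .ofNat 1), (413, .ofNat 1)]) te) te) te) te) te) (tn (tn (tn (tn (tn (tl [(432, .ofNat 1), (433, .ofNat 2)]) te) te) te) te) (tn (tn (tn (tn (tl [(434, .ofNat 1)]) te) te) te) te))) (tn (tn (tn (tn (tn (tn (tl [(428, .ofNat 1), (429, .ofNat 1)]) te) te) te) te) te) te)) te))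

def r348 : Tr SV := (tn (tn (tn (tn (tn (tn (tn (tn (tn (tl [(402, .ofNat 2), (403, .ofNat 2), (404, .ofNat 2), (405, .ofNat 2), (406, .ofNat 1), (407, .ofNat 1), (408, .ofNat 1)]) te) te) te) te) te) (tn (tn (tn (tn (tn (tl [(432, .ofNat 1), (433, .ofNat 2)]) te) te) te) te) te)) te) (tn (tn (tn (tn (tn (tn (tn (tl [(418, .ofNat 1), (420, .ofNat 1), (421, .ofNat 2), (422, .ofNat 2)]) te) te) te) te) te) te) te)) (tn (tn (tn (tn (tn (tn (tn (tn (tl [(411, .ofNat 2), (413, .ofNat 2)]) te) te) te) te) te) (tn (tn (tn (tn (tn (tl [(432, .ofNat 1)]) te) te) te) te) (tn (tn (tn (tn (tl [(434, .ofNat 1)]) te) te) te) te))) (tn (tn (tn (tn (tn (tn (tl [(429, .ofNat 1)]) te) te) te) te) te) te)) (tn te (tn (tn (tn (tn (tn (tn (tl [(431, .ofNat 1)]) te) te) te) te) (tn (tn (tn (tn (tl [(434, .ofNat 1)]) te) te) te) te)) te))))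

def r349 : Tr SV := (tn (tn (tn (tn (tn (tn (tn (tn (tn (tl [(402, .ofNat 1), (404, .ofNat 1), (406, .ofNat 1), (407, .ofNat 2), (408, .ofNat 2)]) te) te) te) te) te) (tn (tn (tn (tn (tn (tl [(432, .ofNat 2), (433, .ofNat 1)]) te) te) te) te) te)) te) (tn (tn (tn (tn (tn (tn (tn (tl [(420, .ofNat 1), (421, .ofNat 2)]) te) te) te) te) te) te) te)) (tn (tn (tn (tn (tn (tn (tn (tn (tl [(410, .ofNat 1), (411, .ofNat 1), (413, .ofNat 1)]) te) te) te) te) te) (tn (tn (tn (tn (tn (tl [(432, .ofNat 2), (433, .ofNat 2)]) te) te) te) te) (tn (tn (tn (tn (tl [(434, .ofNat 1)]) te) te) te) te))) (tn (tn (tn (tn (tn (tn (tl [(429, .ofNat 2)]) te) te) te) te) te) te)) (tn te (tn (tn (tn (tn (tn (tn (tl [(430, .ofNat 2), (431, .ofNat 2)]) te) te) te) te) (tn (tn (tn (tn (tl [(434, .ofNat 2)]) te) te) te) te)) te))))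

def r350 : Tr SV := (tn (tn (tn (tn (tn (tn (tn (tn (tn (tl [(402, .ofNat 2), (403, .ofNat 1), (404, .ofNat 1), (405, .ofNat 1), (406, .ofNat 2)]) te) te) te) te) te) (tn (tn (tn (tn (tn (tl [(432, .ofNat 2)]) te) te) te) te) (tn (tn (tn (tn (tl [(434, .ofNat 1)]) te) te) te) te))) te) (tn (tn (tn (tn (tn (tn (tn (tl [(421, .ofNat 2)]) te) te) te) te) te) te) te)) (tn (tn (tn (tn (tn (tn (tn (tn (tl [(409, .ofNat 1), (411, .ofNat 1)]) te) te) te) te) te) (tn (tn (tn (tn (tn (tl [(433, .ofNat 2)]) te) te) te) te) (tn (tn (tn (tn (tl [(434, .ofNat 2)]) te) te) te) te))) (tn (tn (tn (tn (tn (tn (tl [(429, .ofNat 1)]) te) te) te) te) te) te)) (tn te (tn (tn (tn (tn (tn (tn (tl [(431, .ofNat 2)]) te) te) te) te) (tn (tn (tn (tn (tl [(434, .ofNat 2)]) te) te) te) te)) te))))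

def r351 : Tr SV := (tn (tn (tn (tn (tn (tn (tn (tn (tn (tl [(402, .ofNat 2), (405, .ofNat 2), (406, .ofNat 1), (407, .ofNat 1), (408, .ofNat 2)]) te) te) te) te) te) (tn (tn (tn (tn (tn (tl [(432, .ofNat 2), (433, .ofNat 1)]) te) te) te) te) (tn (tn (tn (tn (tl [(434, .ofNat 2)]) te) te) te) te))) te) (tn (tn (tn (tn (tn (tn (tn (tl [(420, .ofNat 1)]) te) te) te) te) te) te) te)) (tn (tn (tn (tn (tn (tn (tn (tn (tl [(409, .ofNat 2), (410, .ofNat 1), (411, .ofNat 2), (412, .ofNat 2), (413, .ofNat 2)]) te) te) te) te) te) (tn te (tn (tn (tn (tn (tl [(434, .ofNat 1)]) te) te) te) te))) (tn (tn (tn (tn (tn (tn (tl [(428, .ofNat 1), (429, .ofNat 2)]) te) te) te) te) te) te)) (tn te (tn (tn (tn (tn (tn (tn (tl [(430, .ofNat 2)]) te) te) te) te) (tn (tn (tn (tn (tl [(434, .ofNat 2)]) te) te) te) te)) te))))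

def r352 : Tr SV := (tn (tn (tn (tn (tn (tn (tn (tn (tn (tl [(402, .ofNat 2), (403, .ofNat 1), (404, .ofNat 1), (405, .ofNat 1), (407, .ofNat 2), (408, .ofNat 2)]) te) te) te) te) te) (tn (tn (tn (tn (tn (tl [(432, .ofNat 2), (433, .ofNat 2)]) te) te) te) te) te)) te) (tn (tn (tn (tn (tn (tn (tn (tl [(418, .ofNat 2), (419, .ofNat 2), (421, .ofNat 1)]) te) te) te) te) te) te) te)) (tn (tn (tn (tn (tn (tn (tn (tn (tl [(409, .ofNat 1), (411, .ofNat 2), (412, .ofNat 1)]) te) te) te) te) te) (tn (tn (tn (tn (tn (tl [(432, .ofNat 2), (433, .ofNat 2)]) te) te) te) te) (tn (tn (tn (tn (tl [(434, .ofNat 2)]) te) te) te) te))) (tn (tn (tn (tn (tn (tn (tl [(428, .ofNat 1), (429, .ofNat 1)]) te) te) te) te) te) te)) (tn te (tn (tn (tn (tn (tn (tn (tl [(430, .ofNat 1), (431, .ofNat 1)]) te) te) te) te) (tn (tn (tn (tn (tl [(434, .ofNat 2)]) te) te) te) te)) te))))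

def r353 : Tr SV := (tn (tn (tn (tn (tn (tn (tn (tn (tn (tl [(402, .ofNat 1), (403, .ofNat 2), (405, .ofNat 2)]) te) te) te) te) te) (tn (tn (tn (tn (tn (tl [(432, .ofNat 1)]) te) te) te) te) (tn (tn (tn (tn (tl [(434, .ofNat 2)]) te) te) te) te))) te) (tn (tn (tn (tn (tn (tn (tn (tl [(418, .ofNat 1), (422, .ofNat 1)]) te) te) te) te) te) te) te)) (tn (tn (tn (tn (tn (tn (tn (tn (tl [(409, .ofNat 2), (410, .ofNat 2)]) te) te) te) te) te) (tn (tn (tn (tn (tn (tl [(433, .ofNat 1)]) te) te) te) te) (tn (tn (tn (tn (tl [(434, .ofNat 2)]) te) te) te) te))) (tn (tn (tn (tn (tn (tn (tl [(428, .ofNat 1), (429, .ofNat 2)]) te) te) te) te) te) te)) (tn te (tn (tn (tn (tn (tn (tn (tl [(431, .ofNat 1)]) te) te) te) te) te) te))))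

def r354 : Tr SV := (tn (tn (tn (tn (tn (tn (tn (tn (tn (tl [(403, .ofNat 1), (405, .ofNat 2), (406, .ofNat 1), (407, .ofNat 2), (408, .ofNat 1)]) te) te) te) te) te) (tn (tn (tn (tn (tn (tl [(432, .ofNat 1)]) te) te) te) te) (tn (tn (tn (tn (tl [(434, .ofNat 2)]) te) te) te) te))) te) (tn (tn (tn (tn (tn (tn (tn (tl [(419, .ofNat 1), (420, .ofNat 1), (421, .ofNat 1), (422, .ofNat 2)]) te) te) te) te) te) te) te)) (tn (tn (tn (tn (tn (tn (tn (tn (tl [(412, .ofNat 2), (413, .ofNat 1)]) te) te) te) te) te) (tn (tn (tn (tn (tn (tl [(433, .ofNat 1)]) te) te) te) te) te)) (tn (tn (tn (tn (tn (tn (tl [(428, .ofNat 1)]) te) te) te) te) te) te)) (tn te (tn (tn (tn (tn (tn (tn (tl [(430, .ofNat 1)]) te) te) te) te) (tn (tn (tn (tn (tl [(434, .ofNat 1)]) te) te) te) te)) te))))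

def r355 : Tr SV := (tn (tn (tn (tn (tn (tn (tn (tn (tn (tl [(409, .ofNat 2), (410, .ofNat 2), (411, .ofNat 2), (413, .ofNat 2)]) te) te) te) te) te) te) (tn (tn (tn (tn (tn (tn (tl [(428, .ofNat 2), (429, .ofNat 1)]) te) te) te) te) te) te)) (tn (tn (tn (tn (tn (tn (tn (tl [(424, .ofNat 1)]) te) te) te) te) te) te) te)) (tn te (tn te (tn (tn (tn (tn (tn (tn (tl [(433, .ofNat 1)]) te) te) te) te) te) te))))

def r356 : Tr SV := (tn (tn (tn (tn (tn (tn (tn (tn (tn (tl [(409, .ofNat 2), (410, .ofNat 2), (412, .ofNat 1), (413, .ofNat 1)]) te) te) te) te) te) te) (tn (tn (tn (tn (tn (tn (tl [(429, .ofNat 2)]) te) te) te) te) te) te)) (tn (tn (tn (tn (tn (tn (tn (tl [(424, .ofNat 2), (426, .ofNat 2)]) te) te) te) te) te) te) (tn (tn te (tn (tn (tn (tn (tl [(434, .ofNat 2)]) te) te) te) te)) te))) (tn (tn te (tn (tn te (tn (tn (tn (tn (tl [(434, .ofNat 2)]) te) te) te) te)) te)) (tn te (tn (tn (tn (tn (tn (tn (tl [(432, .ofNat 1),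 (433, .ofNat 2)]) te) te) te) te) te) te))))

def r357 : Tr SV := (tn (tn (tn (tn (tn (tn (tn (tn (tn (tl [(409, .ofNat 1), (410, .ofNat 1), (411, .ofNat 2), (412, .ofNat 1)]) te) te) te) te) te) te) (tn (tn (tn (tn (tn (tn (tl [(428, .ofNat 2), (429, .ofNat 1)]) te) te) te) te) te) te)) (tn (tn (tn (tn (tn (tn (tn (tl [(424, .ofNat 2), (425, .ofNat 1)]) te) te) te) te) te) te) te)) (tn te (tn te (tn (tn (tn (tn (tn (tn (tl [(433, .ofNat 1)]) te) te) te) te) te) te))))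

def r358 : Tr SV := (tn (tn (tn (tn (tn (tn (tn (tn (tn (tl [(410, .ofNat 2), (411, .ofNat 1), (413, .ofNat 1)]) te) te) te) te) te) te) te) (tn (tn (tn (tn (tn (tn (tn (tl [(423, .ofNat 1), (426, .ofNat 2)]) te) te) te) te) te) te) te)) te)

def r359 : Tr SV := (tn (tn (tn (tn (tn (tn (tn (tn (tn (tl [(410, .ofNat 1), (411, .ofNat 1), (413, .ofNat 1)]) te) te) te) te) te) te) te) (tn (tn (tn (tn (tn (tn (tn (tl [(423, .ofNat 2), (424, .ofNat 1), (425, .ofNat 1), (426, .ofNat 1)]) te) te) te) te) te) te) te)) (tn te (tn te (tn (tn (tn (tn (tn (tn (tl [(432, .ofNat 2), (433, .ofNat 1)]) te) te) te) te) te) te))))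

def r360 : Tr SV := (tn (tn (tn (tn (tn (tn (tn (tn (tn (tl [(409, .ofNat 2), (410, .ofNat 2), (412, .ofNat 1), (413, .ofNat 1)]) te) te) te) te) te) te) te) (tn (tn (tn (tn (tn (tn (tn (tl [(424, .ofNat 2), (426, .ofNat 2)]) te) te) te) te) te) te) (tn (tn te (tn (tn (tn (tn (tl [(434, .ofNat 2)]) te) te) te) te)) te))) (tn te (tn te (tn (tn (tn (tn (tn (tn (tl [(432, .ofNat 1), (433, .ofNat 2)]) te) te) te) te) te) te))))

def r361 : Tr SV := (tn (tn (tn (tn (tn (tn (tn (tn (tn (tl [(409, .ofNat 1), (410, .ofNat 2), (412, .ofNat 2), (413, .ofNat 2)]) te) te) te) te) te) te) (tn (tn (tn (tn (tn (tn (tl [(429, .ofNat 1)]) te) te) te) te) te) te)) (tn (tn (tn (tn (tn (tn (tn (tl [(423, .ofNat 2), (424, .ofNat 2)]) te) te) te) te) te) te) (tn (tn te (tn (tn (tn (tn (tl [(434, .ofNat 2)]) te) te) te) te)) te))) (tn (tn te (tn (tn te (tn (tn (tn (tn (tl [(434, .ofNat 1)]) te) te) te) te)) te)) (tn te (tn (tn (tn (tn (tn (tn (tl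 [(432, .ofNat 2), (433, .ofNat 1)]) te) te) te) te) te) te))))

def r362 : Tr SV := (tn (tn (tn (tn (tn (tn (tn (tn (tn (tl [(409, .ofNat 1), (410, .ofNat 2), (412, .ofNat 2), (413, .ofNat 2)]) te) te) te) te) te) te) (tn (tn (tn (tn (tn (tn (tl [(429, .ofNat 2)]) te) te) te) te) te) te)) (tn (tn (tn (tn (tn (tn (tn (tl [(423, .ofNat 2), (425, .ofNat 2), (426, .ofNat 1)]) te) te) te) te) te) te) (tn (tn te (tn (tn (tn (tn (tl [(434, .ofNat 2)]) te) te) te) te)) te))) (tn (tn te (tn (tn te (tn (tn (tn (tn (tl [(434, .ofNat 2)]) te) te) te) te)) te)) (tn te (tn (tn (tn (tn (tn (tn (tl [(433, .ofNat 2)]) te) te) te) te) te) te))))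

def r363 : Tr SV := (tn (tn (tn (tn (tn (tn (tn (tn (tn (tl [(412, .ofNat 2)]) te) te) te) te) te) te) te) (tn (tn (tn (tn (tn (tn (tn (tl [(424, .ofNat 1), (426, .ofNat 1)]) te) te) te) te) te) te) (tn (tn te (tn (tn (tn (tn (tl [(434, .ofNat 2)]) te) te) te) te)) te))) (tn (tn te (tn (tn te (tn (tn (tn (tn (tl [(434, .ofNat 1)]) te) te) te) te)) te)) (tn te (tn (tn (tn (tn (tn (tn (tl [(432, .ofNat 2), (433, .ofNat 1)]) te) te) te) te) te) te))))

def r364 : Tr SV := (tn (tn (tn (tn (tn (tn (tn (tn (tn (tl [(414, .ofNat 2), (416, .ofNat 2), (417, .ofNat 2)]) te) te) te) te) te) te) (tn (tn te (tn (tn (tn (tn (tl [(434, .ofNat 2)]) te) te) te) te)) te)) te) (tn (tn (tn (tn (tn (tn (tn (tn (tl [(418, .ofNat 1), (420, .ofNat 1), (421, .ofNat 2), (422, .ofNat 2)]) te) te) te) te) te) te) (tn (tn (tn (tn (tn (tn (tl [(430, .ofNat 1), (431, .ofNat 2)]) te) te) te) te) te) te)) te))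

def r365 : Tr SV := (tn (tn (tn (tn (tn (tn (tn (tn (tn (tl [(415, .ofNat 2), (416, .ofNat 2), (417, .ofNat 2)]) te) te) te) te) te) te) te) (tn te (tn (tn (tn (tn (tn (tn (tl [(432, .ofNat 2), (433, .ofNat 1)]) te) te) te) te) te) te))) (tn (tn (tn (tn (tn (tn (tn (tn (tl [(418, .ofNat 2), (422, .ofNat 1)]) te) te) te) te) te) te) te) te))

def r366 : Tr SV := (tn (tn (tn (tn (tn (tn (tn (tn (tn (tl [(416, .ofNat 1)]) te) te) te) te) te) te) te) (tn te (tn (tn (tn (tn (tn (tn (tl [(433, .ofNat 2)]) te) te) te) te) te) te))) (tn (tn (tn (tn (tn (tn (tn (tn (tl [(418, .ofNat 1), (419, .ofNat 1), (420, .ofNat 1), (421, .ofNat 1), (422, .ofNat 2)]) te) te) te) te) te) te) (tn (tn (tn (tn (tn (tn (tl [(430, .ofNat 2)]) te) te) te) te) te) te)) te))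

def r367 : Tr SV := (tn (tn (tn (tn (tn (tn (tn (tn (tn (tl [(414, .ofNat 1), (417, .ofNat 1)]) te) te) te) te) te) te) (tn (tn te (tn (tn (tn (tn (tl [(434, .ofNat 1)]) te) te) te) te)) te)) (tn te (tn (tn (tn (tn (tn (tn (tl [(432, .ofNat 1), (433, .ofNat 2)]) te) te) te) te) te) te))) (tn (tn (tn (tn (tn (tn (tn (tn (tl [(419, .ofNat 1), (420, .ofNat 1), (421, .ofNat 1), (422, .ofNat 1)]) te) te) te) te) te) te) (tn (tn (tn (tn (tn (tn (tl [(431, .ofNat 1)]) te) te) te) te) te) te)) te))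

def r368 : Tr SV := (tn (tn (tn (tn (tn (tn (tn (tn (tn (tl [(414, .ofNat 1), (416, .ofNat 2), (417, .ofNat 1)]) te) te) te) te) te) te) (tn (tn te (tn (tn (tn (tn (tl [(434, .ofNat 2)]) te) te) te) te)) te)) (tn te (tn (tn (tn (tn (tn (tn (tl [(432, .ofNat 2)]) te) te) te) te) te) te))) (tn (tn (tn (tn (tn (tn (tn (tn (tl [(418, .ofNat 1), (420, .ofNat 2), (421, .ofNat 1)]) te) te) te) te) te) te) te) te))

def r369 : Tr SV := (tn (tn (tn (tn (tn (tn (tn (tn (tn (tl [(414, .ofNat 2), (416, .ofNat 1), (417, .ofNat 1)]) te) te) te) te) te) te) (tn (tn te (tn (tn (tn (tn (tl [(434, .ofNat 2)]) te) te) te) te)) te)) (tn te (tn (tn (tn (tn (tn (tn (tl [(433, .ofNat 2)]) te) te) te) te) te) te))) (tn (tn (tn (tn (tn (tn (tn (tn (tl [(418, .ofNat 2), (419, .ofNat 2), (420, .ofNat 1), (421, .ofNat 2), (422, .ofNat 1)]) te) te) te) te) te) te) (tn (tn (tn (tn (tn (tn (tl [(430, .ofNat 2)]) te) te) te) te) te) te)) (tn (tn (tn te (tn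 (tn (tn (tn (tl [(434, .ofNat 1)]) te) te) te) te)) te) te)))

def r370 : Tr SV := (tn (tn (tn (tn (tn (tn (tn (tn (tn (tl [(414, .ofNat 2), (415, .ofNat 1), (416, .ofNat 2)]) te) te) te) te) te) te) (tn (tn te (tn (tn (tn (tn (tl [(434, .ofNat 2)]) te) te) te) te)) te)) (tn te (tn (tn (tn (tn (tn (tn (tl [(432, .ofNat 1)]) te) te) te) te) te) te))) (tn (tn (tn (tn (tn (tn (tn (tn (tl [(418, .ofNat 1), (422, .ofNat 2)]) te) te) te) te) te) te) (tn (tn (tn (tn (tn (tn (tl [(430, .ofNat 2), (431, .ofNat 1)]) te) te) te) te) te) te)) te))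

def r371 : Tr SV := (tn (tn (tn (tn (tn (tn (tn (tn (tn (tl [(414, .ofNat 1), (415, .ofNat 1), (416, .ofNat 1), (417, .ofNat 1)]) te) te) te) te) te) te) te) (tn te (tn (tn (tn (tn (tn (tn (tl [(432, .ofNat 1), (433, .ofNat 2)]) te) te) te) te) te) te))) (tn (tn (tn (tn (tn (tn (tn (tn (tl [(420, .ofNat 1)]) te) te) te) te) te) te) (tn (tn (tn (tn (tn (tn (tl [(430, .ofNat 2)]) te) te) te) te) te) te)) (tn (tn (tn te (tn (tn (tn (tn (tl [(434, .ofNat 1)]) te) te) te) te)) te) te)))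

def r372 : Tr SV := (tn (tn (tn (tn (tn (tn (tn (tn (tn (tl [(414, .ofNat 2), (416, .ofNat 2), (417, .ofNat 2)]) te) te) te) te) te) te) (tn (tn te (tn (tn (tn (tn (tl [(434, .ofNat 1)]) te) te) te) te)) te)) (tn te (tn (tn (tn (tn (tn (tn (tl [(433, .ofNat 1)]) te) te) te) te) te) te))) (tn (tn (tn (tn (tn (tn (tn (tn (tl [(418, .ofNat 2), (419, .ofNat 2), (421, .ofNat 1)]) te) te) te) te) te) te) (tn (tn (tn (tn (tn (tn (tl [(430, .ofNat 2), (431, .ofNat 2)]) te) te) te) te) te) te)) (tn (tn (tn te (tn (tn (tn (tn (tl [(434, .ofNat 2)]) te) te) te) te)) te) te)))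

def r373 : Tr SV := (tn (tn (tn (tn (tn (tn (tn (tn (tn (tl [(414, .ofNat 2), (415, .ofNat 2)]) te) te) te) te) te) te) (tn (tn te (tn (tn (tn (tn (tl [(434, .ofNat 1)]) te) te) te) te)) te)) (tn te (tn (tn (tn (tn (tn (tn (tl [(432, .ofNat 1)]) te) te) te) te) te) te))) (tn (tn (tn (tn (tn (tn (tn (tn (tl [(418, .ofNat 1), (422, .ofNat 1)]) te) te) te) te) te) te) (tn (tn (tn (tn (tn (tn (tl [(430, .ofNat 1), (431, .ofNat 2)]) te) te) te) te) te) te)) te))

def r374 : Tr SV := (tn (tn (tn (tn (tn (tn (tn (tn (tn (tl [(415, .ofNat 2), (416, .ofNat 2), (417, .ofNat 2)]) te) te) te) te) te) te) te) (tn te (tn (tn (tn (tn (tn (tn (tl [(432, .ofNat 1)]) te) te) te) te) te) te))) (tn (tn (tn (tn (tn (tn (tn (tn (tl [(420, .ofNat 1), (422, .ofNat 2)]) te) te) te) te) te) te) (tn (tn (tn (tn (tn (tn (tl [(430, .ofNat 2)]) te) te) te) te) te) te)) (tn (tn (tn te (tn (tn (tn (tn (tl [(434, .ofNat 1)]) te) te) te) te)) te) te)))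

def r375 : Tr SV := (tn (tn (tn (tn (tn (tn (tn (tn (tn (tl [(419, .ofNat 1), (421, .ofNat 1)]) te) te) te) te) te) te) (tn (tn (tn (tn (tn (tn (tl [(431, .ofNat 2)]) te) te) te) te) te) te)) te) (tn (tn te (tn (tn (tn (tn (tn (tn (tl [(432, .ofNat 1), (433, .ofNat 2)]) te) te) te) te) te) te)) te))

def r376 : Tr SV := (tn (tn (tn (tn (tn (tn (tn (tn (tn (tl [(418, .ofNat 2), (419, .ofNat 1), (420, .ofNat 2)]) te) te) te) te) te) te) (tn (tn (tn (tn (tn (tn (tl [(431, .ofNat 2)]) te) te) te) te) te) te)) (tn (tn (tn te (tn (tn (tn (tn (tl [(434, .ofNat 1)]) te) te) te) te)) te) te)) (tn (tn (tn (tn (tn (tn (tn (tn (tl [(423, .ofNat 1)]) te) te) te) te) (tn (tn (tn (tn (tl [(434, .ofNat 2)]) te) te) te) te)) te) (tn (tn (tn (tn (tn (tn (tl [(433, .ofNat 1)]) te) te) te) te) te) te)) te))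

def r377 : Tr SV := (tn (tn (tn (tn (tn (tn (tn (tn (tn (tl [(418, .ofNat 2), (419, .ofNat 1), (420, .ofNat 1), (422, .ofNat 2)]) te) te) te) te) te) te) te) te) (tn (tn (tn (tn (tn (tn (tn (tn (tl [(423, .ofNat 1), (426, .ofNat 2)]) te) te) te) te) te) te) (tn (tn (tn (tn (tn (tn (tl [(432, .ofNat 2), (433, .ofNat 1)]) te) te) te) te) te) te)) te))

def r378 : Tr SV := (tn (tn (tn (tn (tn (tn (tn (tn (tn (tl [(418, .ofNat 2), (419, .ofNat 2), (420, .ofNat 1), (421, .ofNat 2), (422, .ofNat 1)]) te) te) te) te) te) te) (tn (tn (tn (tn (tn (tn (tl [(430, .ofNat 1), (431, .ofNat 2)]) te) te) te) te) te) te)) (tn (tn (tn te (tn (tn (tn (tn (tl [(434, .ofNat 1)]) te) te) te) te)) te) te)) (tn (tn (tn (tn (tn (tn (tn (tn (tl [(423, .ofNat 2), (424, .ofNat 1), (426, .ofNat 2)]) te) te) te) te) (tn (tn (tn (tn (tl [(434, .ofNat 2)]) te) te) te) te)) te) (tn (tn (tn (tn (tn (tn (tl [(432, .ofNat 2)]) te) te) te) te) te) te)) te))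

def r379 : Tr SV := (tn (tn (tn (tn (tn (tn (tn (tn (tn (tl [(418, .ofNat 2), (419, .ofNat 1), (420, .ofNat 2), (421, .ofNat 2), (422, .ofNat 2)]) te) te) te) te) te) te) te) (tn (tn (tn te (tn (tn (tn (tn (tl [(434, .ofNat 2)]) te) te) te) te)) te) te)) (tn (tn (tn (tn (tn (tn (tn (tn (tl [(423, .ofNat 2), (424, .ofNat 1), (425, .ofNat 2)]) te) te) te) te) te) te) (tn (tn (tn (tn (tn (tn (tl [(432, .ofNat 2)]) te) te) te) te) te) te)) te))

def r380 : Tr SV := (tn (tn (tn (tn (tn (tn (tn (tn (tn (tl [(419, .ofNat 1), (420, .ofNat 2), (421, .ofNat 1), (422, .ofNat 2)]) te) te) te) te) te) te) (tn (tn (tn (tn (tn (tn (tl [(430, .ofNat 2), (431, .ofNat 1)]) te) te) te) te) te) te)) (tn (tn (tn te (tn (tn (tn (tn (tl [(434, .ofNat 1)]) te) te) te) te)) te) te)) (tn (tn (tn (tn (tn (tn (tn (tn (tl [(424, .ofNat 1), (425, .ofNat 1), (426, .ofNat 1)]) te) te) te) te) te) te) (tn (tn (tn (tn (tn (tn (tl [(432, .ofNat 2), (433, .ofNat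 2)]) te) te) te) te) te) te)) te))

def r381 : Tr SV := (tn (tn (tn (tn (tn (tn (tn (tn (tn (tl [(418, .ofNat 1), (419, .ofNat 1), (422, .ofNat 2)]) te) te) te) te) te) te) te) (tn (tn (tn te (tn (tn (tn (tn (tl [(434, .ofNat 1)]) te) te) te) te)) te) te)) (tn (tn (tn (tn (tn (tn (tn (tn (tl [(424, .ofNat 1), (425, .ofNat 1), (426, .ofNat 1)]) te) te) te) te) (tn (tn (tn (tn (tl [(434, .ofNat 2)]) te) te) te) te)) te) (tn (tn (tn (tn (tn (tn (tl [(433, .ofNat 1)]) te) te) te) te) te) te)) te))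

def r382 : Tr SV := (tn (tn (tn (tn (tn (tn (tn (tn (tn (tl [(419, .ofNat 2), (422, .ofNat 2)]) te) te) te) te) te) te) (tn (tn (tn (tn (tn (tn (tl [(430, .ofNat 2), (431, .ofNat 2)]) te) te) te) te) te) te)) te) (tn (tn (tn (tn (tn (tn (tn (tn (tl [(423, .ofNat 1), (424, .ofNat 2), (425, .ofNat 1), (426, .ofNat 2)]) te) te) te) te) (tn (tn (tn (tn (tl [(434, .ofNat 2)]) te) te) te) te)) te) (tn (tn (tn (tn (tn (tn (tl [(433, .ofNat 1)]) te) te) te) te) te) te)) te))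

def r383 : Tr SV := (tn (tn (tn (tn (tn (tn (tn (tn (tn (tl [(419, .ofNat 1), (420, .ofNat 1)]) te) te) te) te) te) te) (tn (tn (tn (tn (tn (tn (tl [(430, .ofNat 1)]) te) te) te) te) te) te)) te) (tn (tn (tn (tn (tn (tn (tn (tn (tl [(424, .ofNat 2), (425, .ofNat 1)]) te) te) te) te) te) te) (tn (tn (tn (tn (tn (tn (tl [(432, .ofNat 1)]) te) te) te) te) te) te)) te))

def r384 : Tr SV := (tn (tn (tn (tn (tn (tn (tn (tn (tn (tl [(418, .ofNat 2), (420, .ofNat 2), (421, .ofNat 2)]) te) te) te) te) te) te) (tn (tn (tn (tn (tn (tn (tl [(430, .ofNat 1)]) te) te) te) te) te) te)) (tn (tn (tn te (tn (tn (tn (tn (tl [(434, .ofNat 2)]) te) te) te) te)) te) te)) (tn (tn (tn (tn (tn (tn (tn (tn (tl [(425, .ofNat 1), (426, .ofNat 1)]) te) te) te) te) (tn (tn (tn (tn (tl [(434, .ofNat 1)]) te) te) te) te)) te) (tn (tn (tn (tn (tn (tn (tl [(433, .ofNat 2)]) te) te) te) te) te) te)) te))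

def r385 : Tr SV := (tn (tn (tn (tn (tn (tn (tn (tn (tn (tl [(418, .ofNat 2), (420, .ofNat 1), (422, .ofNat 1)]) te) te) te) te) te) te) (tn (tn (tn (tn (tn (tn (tl [(430, .ofNat 1), (431, .ofNat 1)]) te) te) te) te) te) te)) (tn (tn (tn te (tn (tn (tn (tn (tl [(434, .ofNat 2)]) te) te) te) te)) te) te)) (tn (tn (tn (tn (tn (tn (tn (tn (tl [(426, .ofNat 1)]) te) te) te) te) (tn (tn (tn (tn (tl [(434, .ofNat 2)]) te) te) te) te)) te) (tn (tn (tn (tn (tn (tn (tl [(432, .ofNat 1), (433, .ofNat 2)]) te) te) te) te) te) te)) te))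

def r386 : Tr SV := (tn (tn (tn (tn (tn te (tn (tn (tn (tn (tl [(434, .ofNat 2)]) te) te) te) te)) te) te) te) (tn te (tn (tn (tn (tn (tn (tn (tn (tl [(427, .ofNat 1)]) te) te) te) te) te) te) te)))

def r387 : Tr SV := (tn (tn te (tn te (tn te (tn (tn (tn (tn (tn (tl [(434, .ofNat 1)]) te) te) te) te) te)))) (tn te (tn (tn (tn (tn (tn (tn (tn (tl [(428, .ofNat 1), (429, .ofNat 2)]) te) te) te) te) te) te) (tn te (tn (tn (tn (tn (tn (tl [(434, .ofNat 1)]) te) te) te) te) te)))))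

def r388 : Tr SV := (tn (tn te (tn (tn (tn (tn (tn (tn (tn (tl [(427, .ofNat 1)]) te) te) te) te) te) te) (tn te (tn (tn (tn (tn (tn (tl [(434, .ofNat 1)]) te) te) te) te) te)))) (tn te (tn (tn (tn (tn (tn (tn (tn (tl [(428, .ofNat 2)]) te) te) te) te) te) te) te)))

def r389 : Tr SV := (tn (tn te (tn (tn (tn (tn (tn (tn (tn (tl [(427, .ofNat 2)]) te) te) te) te) te) te) te)) (tn te (tn (tn (tn (tn (tn (tn (tn (tl [(428, .ofNat 2)]) te) te) te) te) te) te) te)))

def r390 : Tr SV := (tn (tn te (tn te (tn te (tn (tn (tn (tn (tn (tl [(434, .ofNat 1)]) te) te) te) te) te)))) (tn te (tn (tn (tn (tn (tn (tn (tn (tl [(428, .ofNat 1), (429, .ofNat 2)]) te) te) te) te) te) te) (tn te (tn (tn (tn (tn (tn (tl [(434, .ofNat 1)]) te) te) te) te) te)))))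

def r391 : Tr SV := (tn (tn te (tn (tn (tn (tn (tn (tn (tn (tl [(427, .ofNat 2)]) te) te) te) te) te) te) te)) (tn te (tn te (tn te (tn (tn (tn (tn (tn (tl [(434, .ofNat 1)]) te) te) te) te) te)))))

def r392 : Tr SV := (tn (tn (tn te (tn te (tn (tn (tn (tn (tn (tl [(434, .ofNat 2)]) te) te) te) te) te))) te) (tn (tn (tn (tn (tn (tn (tn (tn (tl [(427, .ofNat 2)]) te) te) te) te) te) te) te) (tn (tn (tn (tn (tn (tn (tn (tl [(430, .ofNat 1), (431, .ofNat 2)]) te) te) te) te) te) te) te)))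

def r393 : Tr SV := (tn (tn (tn te (tn te (tn (tn (tn (tn (tn (tl [(434, .ofNat 2)]) te) te) te) te) te))) te) (tn (tn (tn (tn (tn (tn (tn (tn (tl [(427, .ofNat 2)]) te) te) te) te) te) te) te) (tn (tn (tn (tn (tn (tn (tn (tl [(430, .ofNat 1), (431, .ofNat 1)]) te) te) te) te) te) te) te)))

def r394 : Tr SV := (tn (tn (tn te (tn te (tn (tn (tn (tn (tn (tl [(434, .ofNat 1)]) te) te) te) te) te))) te) (tn (tn (tn (tn (tn (tn (tn (tn (tl [(427, .ofNat 1)]) te) te) te) te) te) te) te) (tn (tn (tn (tn (tn (tn (tn (tl [(430, .ofNat 2)]) te) te) te) te) te) te) te)))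

def r395 : Tr SV := (tn (tn (tn te (tn te (tn (tn (tn (tn (tn (tl [(434, .ofNat 1)]) te) te) te) te) te))) te) (tn (tn (tn (tn (tn (tn (tn (tn (tl [(427, .ofNat 1)]) te) te) te) te) te) te) (tn te (tn (tn (tn (tn (tn (tl [(434, .ofNat 1)]) te) te) te) te) te))) te))

def r396 : Tr SV := (tn te (tn (tn (tn (tn (tn (tn (tn (tn (tl [(427, .ofNat 1)]) te) te) te) te) te) te) (tn te (tn (tn (tn (tn (tn (tl [(434, .ofNat 2)]) te) te) te) te) te))) te))

def r397 : Tr SV := (tn (tn (tn (tn (tn (tn (tn (tn (tn (tl [(427, .ofNat 2)]) te) te) te) te) te) te) te) (tn (tn te (tn (tn (tn (tn (tn (tl [(434, .ofNat 2)]) te) te) te) te) te)) te)) (tn te (tn (tn te (tn (tn (tn (tn (tn (tl [(434, .ofNat 2)]) te) te) te) te) te)) te)))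

def r398 : Tr SV := (tn (tn (tn (tn (tn (tn (tn (tn (tn (tl [(427, .ofNat 2)]) te) te) te) te) te) te) te) (tn (tn te (tn (tn (tn (tn (tn (tl [(434, .ofNat 1)]) te) te) te) te) te)) te)) (tn te (tn (tn (tn (tn (tn (tn (tn (tl [(433, .ofNat 1)]) te) te) te) te) te) (tn (tn (tn (tn (tn (tl [(434, .ofNat 2)]) te) te) te) te) te)) te)))

def r399 : Tr SV := (tn (tn (tn (tn (tn (tn (tn (tn (tn (tl [(427, .ofNat 1)]) te) te) te) te) te) te) te) te) (tn te (tn (tn (tn (tn (tn (tn (tn (tl [(432, .ofNat 1)]) te) te) te) te) te) te) te)))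

def r400 : Tr SV := (tn te (tn te (tn (tn (tn (tn (tn (tn (tn (tl [(433, .ofNat 2)]) te) te) te) te) te) (tn (tn (tn (tn (tn (tl [(434, .ofNat 1)]) te) te) te) te) te)) te)))

def r401 : Tr SV := (tn (tn (tn (tn (tn (tn (tn (tn (tn (tl [(427, .ofNat 2)]) te) te) te) te) te) te) te) (tn (tn te (tn (tn (tn (tn (tn (tl [(434, .ofNat 2)]) te) te) te) te) te)) te)) (tn te (tn (tn (tn (tn (tn (tn (tn (tl [(432, .ofNat 1), (433, .ofNat 2)]) te) te) te) te) te) (tn (tn (tn (tn (tn (tl [(434, .ofNat 1)]) te) te) te) te) te)) te)))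

def r402 : Tr SV := (tn (tn (tn (tn te (tn (tn (tn (tn (tn (tl [(434, .ofNat 1)]) te) te) te) te) te)) te) (tn (tn (tn (tn (tn (tn (tn (tl [(430, .ofNat 1), (431, .ofNat 2)]) te) te) te) te) te) te) te)) (tn (tn (tn (tn (tn (tn (tn (tn (tl [(428, .ofNat 1)]) te) te) te) te) te) (tn (tn (tn (tn (tn (tl [(434, .ofNat 1)]) te) te) te) te) te)) te) te))

def r403 : Tr SV := (tn (tn te (tn (tn (tn (tn (tn (tn (tn (tl [(431, .ofNat 2)]) te) te) te) te) te) te) te)) (tn (tn (tn (tn (tn (tn (tn (tn (tl [(429, .ofNat 1)]) te) te) te) te) te) (tn (tn (tn (tn (tn (tl [(434, .ofNat 1)]) te) te) te) te) te)) te) te))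

def r404 : Tr SV := (tn (tn te (tn (tn (tn (tn (tn (tn (tn (tl [(430, .ofNat 1), (431, .ofNat 2)]) te) te) te) te) te) te) te)) (tn (tn (tn (tn (tn (tn (tn (tn (tl [(428, .ofNat 1), (429, .ofNat 2)]) te) te) te) te) te) (tn (tn (tn (tn (tn (tl [(434, .ofNat 2)]) te) te) te) te) te)) te) te))

def r405 : Tr SV := (tn (tn te (tn (tn (tn (tn (tn (tn (tn (tl [(430, .ofNat 1)]) te) te) te) te) te) te) te)) (tn (tn (tn (tn (tn (tn (tn (tn (tl [(428, .ofNat 1)]) te) te) te) te) te) te) te) te))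

def r406 : Tr SV := (tn (tn te (tn (tn (tn (tn (tn (tn (tn (tl [(430, .ofNat 1), (431, .ofNat 1)]) te) te) te) te) te) te) te)) (tn (tn (tn (tn (tn (tn (tn (tn (tl [(428, .ofNat 2), (429, .ofNat 2)]) te) te) te) te) te) (tn (tn (tn (tn (tn (tl [(434, .ofNat 1)]) te) te) te) te) te)) te) te))

def r407 : Tr SV := (tn (tn (tn (tn te (tn (tn (tn (tn (tn (tl [(434, .ofNat 2)]) te) te) te) te) te)) te) (tn (tn (tn (tn (tn (tn (tn (tl [(430, .ofNat 2), (431, .ofNat 1)]) te) te) te) te) te) te) te)) (tn (tn (tn (tn (tn (tn (tn (tn (tl [(428, .ofNat 1), (429, .ofNat 2)]) te) te) te) te) te) (tn (tn (tn (tn (tn (tl [(434, .ofNat 2)]) te) te) te) te) te)) te) te))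

def r408 : Tr SV := (tn (tn te (tn (tn (tn (tn (tn (tn (tn (tl [(430, .ofNat 1), (431, .ofNat 1)]) te) te) te) te) te) te) te)) (tn (tn (tn te (tn (tn (tn (tn (tn (tl [(434, .ofNat 1)]) te) te) te) te) te)) te) te))

def r409 : Tr SV := (tn (tn (tn (tn (tn (tn (tn (tn (tn (tl [(428, .ofNat 2), (429, .ofNat 2)]) te) te) te) te) te) te) te) (tn (tn (tn (tn (tn (tn (tn (tl [(432, .ofNat 1), (433, .ofNat 1)]) te) te) te) te) te) te) te)) te)

def r410 : Tr SV := (tn (tn te (tn (tn (tn (tn (tn (tn (tn (tl [(432, .ofNat 2), (433, .ofNat 1)]) te) te) te) te) te) te) te)) (tn te (tn te (tn (tn (tn (tn (tn (tn (tl [(434, .ofNat 1)]) te) te) te) te) te) te))))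

def r411 : Tr SV := (tn (tn te (tn (tn (tn (tn (tn (tn (tn (tl [(433, .ofNat 1)]) te) te) te) te) te) te) te)) (tn te (tn te (tn (tn (tn (tn (tn (tn (tl [(434, .ofNat 2)]) te) te) te) te) te) te))))

def r412 : Tr SV := (tn (tn (tn (tn (tn (tn (tn (tn (tn (tl [(428, .ofNat 2)]) te) te) te) te) te) te) te) (tn (tn (tn (tn (tn (tn (tn (tl [(432, .ofNat 2), (433, .ofNat 1)]) te) te) te) te) te) te) te)) (tn te (tn te (tn (tn (tn (tn (tn (tn (tl [(434, .ofNat 2)]) te) te) te) te) te) te))))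

def r413 : Tr SV := (tn (tn (tn (tn (tn (tn (tn (tn (tn (tl [(429, .ofNat 1)]) te) te) te) te) te) te) te) (tn (tn (tn (tn (tn (tn (tn (tl [(433, .ofNat 2)]) te) te) te) te) te) te) te)) (tn te (tn te (tn (tn (tn (tn (tn (tn (tl [(434, .ofNat 2)]) te) te) te) te) te) te))))

def r414 : Tr SV := (tn te (tn (tn (tn (tn (tn (tn (tn (tn (tl [(430, .ofNat 1)]) te) te) te) te) te) te) te) te))

def r415 : Tr SV := (tn te (tn (tn (tn (tn (tn (tn (tn (tn (tl [(431, .ofNat 1)]) te) te) te) te) te) te) te) te))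

def r416 : Tr SV := (tn (tn te (tn te (tn (tn (tn (tn (tn (tn (tl [(434, .ofNat 2)]) te) te) te) te) te) te))) (tn (tn (tn (tn (tn (tn (tn (tn (tl [(430, .ofNat 2)]) te) te) te) te) te) te) te) te))

def r417 : Tr SV := (tn (tn te (tn te (tn (tn (tn (tn (tn (tn (tl [(434, .ofNat 2)]) te) te) te) te) te) te))) (tn (tn (tn (tn (tn (tn (tn (tn (tl [(431, .ofNat 1)]) te) te) te) te) te) te) te) te))

def r418 : Tr SV := (tn (tn (tn (tn (tn (tn (tn (tn (tn (tl [(430, .ofNat 1)]) te) te) te) te) te) te) te) te) (tn (tn (tn (tn (tn (tn (tn (tn (tl [(433, .ofNat 2)]) te) te) te) te) te) te) te) te))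

def r419 : Tr SV := (tn (tn (tn (tn (tn (tn (tn (tn (tn (tl [(431, .ofNat 2)]) te) te) te) te) te) te) te) te) (tn (tn (tn (tn (tn (tn (tn (tn (tl [(432, .ofNat 1), (433, .ofNat 2)]) te) te) te) te) te) te) (tn (tn (tn (tn (tn (tn (tl [(434, .ofNat 2)]) te) te) te) te) te) te)) te))

def r420 : Tr SV := (tn (tn (tn (tn (tn (tn (tn (tn (tn (tl [(430, .ofNat 2), (431, .ofNat 2)]) te) te) te) te) te) te) te) te) (tn (tn (tn (tn (tn (tn (tn (tn (tl [(433, .ofNat 1)]) te) te) te) te) te) te) te) te))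

def r421 : Tr SV := (tn te (tn (tn (tn (tn (tn (tn (tn (tn (tl [(432, .ofNat 1), (433, .ofNat 2)]) te) te) te) te) te) te) (tn (tn (tn (tn (tn (tn (tl [(434, .ofNat 2)]) te) te) te) te) te) te)) te))

def r422 : Tr SV := (tn (tn (tn (tn (tn (tn (tn (tn (tn (tl [(430, .ofNat 2), (431, .ofNat 1)]) te) te) te) te) te) te) te) te) (tn (tn (tn (tn (tn (tn (tn (tn (tl [(432, .ofNat 2)]) te) te) te) te) te) te) te) te))

def r423 : Tr SV := (tn (tn (tn (tn (tn (tn (tn (tn (tn (tl [(432, .ofNat 1)]) te) te) te) te) te) te) (tn (tn (tn (tn (tn (tn (tl [(434, .ofNat 2)]) te) te) te) te) te) te)) te) te)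

def r424 : Tr SV := (tn (tn (tn (tn (tn (tn (tn (tn (tn (tl [(433, .ofNat 2)]) te) te) te) te) te) te) (tn (tn (tn (tn (tn (tn (tl [(434, .ofNat 2)]) te) te) te) te) te) te)) te) te)

def r425 : Tr SV := (tn (tn (tn (tn (tn (tn (tn (tn (tn (tl [(432, .ofNat 2), (433, .ofNat 2)]) te) te) te) te) te) te) (tn (tn (tn (tn (tn (tn (tl [(434, .ofNat 1)]) te) te) te) te) te) te)) te) te)

def r426 : Tr SV := (tn (tn (tn (tn (tn (tn (tn (tn (tn (tl [(433, .ofNat 1)]) te) te) te) te) te) te) (tn (tn (tn (tn (tn (tn (tl [(434, .ofNat 2)]) te) te) te) te) te) te)) te) te)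

def r427 : Tr SV := (tn te (tn te (tn (tn (tn (tn (tn (tn (tn (tl [(434, .ofNat 2)]) te) te) te) te) te) te) te)))

def r428 : Tr SV := (tn (tn te (tn (tn (tn (tn (tn (tn (tn (tl [(434, .ofNat 1)]) te) te) te) te) te) te) te)) te)

def r429 : Tr SV := (tn (tn te (tn (tn (tn (tn (tn (tn (tn (tl [(434, .ofNat 2)]) te) te) te) te) te) te) te)) te)

def r430 : Tr SV := (tn te (tn (tn (tn (tn (tn (tn (tn (tn (tl [(434, .ofNat 1)]) te) te) te) te) te) te) te) te))

def r432 : Tr SV := (tn (tn (tn (tn (tn (tn (tn (tn (tn (tl [(434, .ofNat 1)]) te) te) te) te) te) te) te) te) te)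

def r433 : Tr SV := (tn (tn (tn (tn (tn (tn (tn (tn (tn (tl [(434, .ofNat 2)]) te) te) te) te) te) te) te) te) te)

def t0 : Tr ℕ := (tn (tn (tn (tn (tn (tn (tn (tn (tn (tl 1) te) (tn (tl 1180591620717948174338) (tl 4398583382016))) (tn (tn (tl 4398046511104) (tl 72066390130966528)) (tn (tl 237156673652628726733466075939813416036681130108929338680369243106038799749103618) te))) (tn (tn te (tn (tl 1393796574908163946345982392040522594123776) te)) (tn (tn (tl 38687987555024756489060353) (tl 19345174441199485786800130)) te))) (tn (tn (tn (tn (tl 268435456) (tl 144115188612726784)) (tn (tl 2361255307825222008832) te)) (tn te (tn (tl 4398046511104) te))) (tn (tn (tn (tl 4398046511104) (tl 72066390667821056)) (tn (tl 6130730452301869025879076449460574484697177153035337730) (tl 1))) (tn (tn (tl 2361327361020944973826) (tl 268435458)) te)))) (tn (tn (tn (tn (tn (tl 1) (tl 8796629893120)) (tn (tl 144115188612726784) te)) (tn te (tn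 (tl 316912650057057350374175801344) te))) (tn (tn (tn (tl 4398046511104) (tl 536870913)) (tn (tl 268435456) (tl 16386))) (tn (tn te (tl 144119586659270658)) (tn (tl 1) te)))) (tn (tn (tn (tn (tl 1) te) te) (tn (tn te (tl 2361327356623166898178)) te)) (tn (tn (tn (tl 1180591620717411303424) (tl 4398583382018)) (tn (tl 72057594037927936) te)) (tn (tn (tl 38687987410918364506243072) (tl 4398314962945)) te))))) (tn (tn (tn (tn (tn (tn te (tl 268468224)) (tn (tl 1180663687107542286337) te)) (tn (tn te (tl 144119586122366978)) (tn (tl 118578337268066570304082131116382412688988281787315593424900200818128803067887616) te))) (tn (tn (tn (tl 72057594037927936) (tl 144119586659270656)) (tn (tl 100433627766186892221372630771322662657637687111424552206336) te)) (tn (tn (tl 19342813113842863156772864) (tl 72061992352907266)) te))) (tn (tn (tn (tn (tl 1) (tl 8796093022210)) te) (tn (tn te (tl 32769)) te)) (tn (tn (tn (tl 1180591620717411303424)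 (tl 144119586390835202)) (tn (tl 1) te)) (tn (tn (tl 72057594037960704) (tl 4398314979329)) te)))) (tn (tn (tn (tn (tn (tl 16384) (tl 144119586390802432)) (tn (tl 1180591625115726266369) te)) (tn (tn (tl 1) te) (tn (tl 85070591730234615865843651857942052864) te))) (tn (tn (tn (tl 4398046511104) (tl 144115188344291329)) (tn (tl 19342813113834066795298816) te)) (tn (tn te (tl 8796093038594)) te))) (tn (tn (tn (tn (tl 144119586122366976) te) (tn (tl 19342813113834066795298816) (tl 16384))) (tn (tn (tl 19343993777521174874423296) (tl 1180591620717679738881)) te)) (tn (tn (tn (tl 316912650057057350374175801344) (tl 144123984705765378)) (tn (tl 237149435763654822028526215215133440762399581597694420309126052035713456358326273) te)) (tn (tn (tl 2361327365419259936768) (tl 72057594574798850)) te)))))) (tn (tn (tn (tn (tn (tn (tn te (tl 144115188612726786)) (tn (tl 2361183250231184064514) te)) (tn (tn te (tl 144119586122399744)) (tn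 (tl 237149436647051396116756647814492065435729244629227430040044011673073524829880321) te))) (tn (tn (tn (tl 268435456) te) (tn (tl 374144419156711147060143317175368453031918731001856) te)) (tn (tn (tl 19342813185896059148173312) (tl 38687987482971560766095360)) te))) (tn (tn (tn (tn te (tl 72061992084471810)) (tn (tl 1180735740304070557698) te)) (tn (tn te (tl 8796629925888)) (tn (tl 1180591620717411303424) te))) (tn (tn (tn (tl 1180591620717411303424) (tl 72061992352890881)) (tn (tl 6130730475140619532177875750764033882805713980711010306) te)) (tn (tn (tl 1180591620717948190721) (tl 32770)) te)))) (tn (tn (tn (tn (tn (tl 16384) (tl 16384)) (tn (tl 1180735744702117052418) te)) (tn te (tn (tl 85070591730234615865843651857942052864) te))) (tn (tn (tn (tl 1180591620717411303424) (tl 8796093022210)) (tn (tl 72057594037927936) (tl 32768))) (tn (tn te (tl 72061992084471808)) te))) (tn (tn (tn (tn (tl 144119586122366976) te) (tn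 te (tl 32770))) (tn (tn (tl 19345174369137493970796544) (tl 2361327356623166914560)) te)) (tn (tn (tn (tl 1180591620717411303424) (tl 144115188075855873)) (tn (tl 118585573390220371822708918199556318592142152553556333105465440919776940624199682) te)) (tn (tn (tl 19345174369133095655866370) (tl 144119586390802434)) te))))) (tn (tn (tn (tn (tn (tn (tl 1) (tl 72057594306363394)) (tn (tl 2361183245833137586177) te)) (tn te (tn (tl 237156673652601765141193922090708048626742265777172742692410139366992108868108290) te))) (tn (tn (tn (tl 19342813113834066795298816) (tl 144115188344324097)) (tn (tl 26959946667150639794667015087019630673637144422540572481103610249216) (tl 1))) (tn (tn te (tl 144119586390818817)) te))) (tn (tn te (tn (tn te (tl 19345174369141892017307650)) te)) (tn (tn (tn (tl 5192296858534827628530496329220096) (tl 72061992084439042)) (tn (tl 268435456) te)) (tn (tn (tl 19343993777521174606004224) (tl 8796361457666))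 te)))) (tn (tn (tn (tn (tn (tl 16384) (tl 144119586390835202)) (tn (tl 8796093022210) (tl 1))) (tn (tn (tl 2) te) (tn (tl 22835963083295358096932575511191922182123945984) te))) (tn (tn (tn (tl 1180591620717411303424) (tl 72066390130966530)) (tn (tl 5192296858534827628530496329220096) te)) te)) (tn (tn (tn te (tn (tl 5192296858534827628530496329220096) te)) (tn (tn (tl 38687987482971560497676289) (tl 38686806963408437661171712)) te)) (tn (tn (tn (tl 19342813113834066795298816) (tl 8796361457665)) (tn (tl 14474011208587708871808182858018149320184267178923409601506374186150924402689) te)) (tn (tn (tl 38686806891355241669722113) (tl 536887298)) te))))))) (tn (tn (tn (tn (tn (tn (tn te (tn (tl 19342813185896058879737857) (tl 4398583382017))) (tn (tn te (tl 72066390667853824)) (tn (tl 118578337268066570304082131116382412688988281787315593424900200818128803067887616) te))) (tn (tn te (tn (tl 22835963083295358096932575511191922182123945984)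 te)) (tn (tn (tl 19345174297084297710960642) (tl 2361255303427443949570)) te))) (tn (tn (tn (tn te (tl 4398314946561)) (tn (tl 2361327361021481877504) te)) (tn te (tn (tl 72057594037927936) te))) (tn (tn (tn (tl 72057594037927936) (tl 4398314962944)) (tn (tl 748334513027267115629449256529302232056869989384192) (tl 1))) (tn (tn (tl 144119586122399746) (tl 8796629893122)) te)))) (tn (tn (tn (tn (tn (tl 1) (tl 16384)) (tn (tl 72061992352874498) te)) (tn te (tn (tl 5192296858534827628530496329220096) te))) (tn (tn (tn (tl 72057594037927936) (tl 72061992621326338)) (tn (tl 4398046511104) te)) (tn (tn te (tl 72057594574798849)) te))) (tn (tn (tn (tn (tl 16384) te) (tn te (tl 32769))) (tn (tn te (tl 1180591620717679771649)) te)) (tn (tn (tn (tl 19342813113834066795298816) (tl 144123984437313538)) (tn (tl 1180591620717411303424) te)) (tn (tn (tl 38687987482975958812590080) (tl 72061992352890882)) te))))) (tn (tn (tn (tn (tn (tn (tl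 1) (tl 2)) (tn (tl 4398314979328) te)) (tn (tn te (tl 144119586122366976)) (tn (tl 237156673210890000592001969518679836587866217755861926281912017663888542587174912) te))) (tn (tn (tn (tl 1180591620717411303424) (tl 72066390667821056)) (tn (tl 1645504557321206042154969182557350504982735865633579863348609024) (tl 16384))) (tn (tn te (tl 144123984437346304)) (tn (tl 2) te)))) (tn (tn (tn (tn te (tl 4398046511105)) te) (tn (tn te (tl 1180591620717948207105)) te)) (tn (tn (tn (tl 316912650057057350374175801344) (tl 72061992621342720)) (tn (tl 16384) te)) (tn (tn (tl 2361255299028860551169) (tl 536887297)) te)))) (tn (tn (tn (tn (tn (tl 268435456) (tl 72057594574815234)) (tn (tl 2361327365418991517698) (tl 2))) (tn (tn (tl 2) te) (tn (tl 1393796574908163946345982392040522594123776) te))) (tn (tn (tn (tl 72057594037927936) (tl 4398314946562)) (tn (tl 316912650057057350374175801344) te)) (tn (tn te (tl 536903682)) te))) (tn (tn (tn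 (tn (tl 16384) te) (tn (tl 316912650057057350374175801344) (tl 32768))) (tn (tn (tl 19345174297079899664416769) (tl 38687987410913966459715586)) te)) (tn (tn (tn (tl 1180591620717411303424) (tl 8796361457665)) (tn (tl 14474894578198559124668486355068608780740247951784054644357906099781662425090) te)) (tn (tn (tl 2361183241435091075072) (tl 144119586122383362)) te)))))) (tn (tn (tn (tn (tn (tn (tn (tl 16384) (tl 72066390667837442)) (tn (tl 1180663682710032613376) te)) (tn (tn te (tl 144115188075872257)) (tn (tl 441765689379039931946340269257770624832719348629228327312455062016507904) te))) (tn (tn (tn (tl 4398046511104) te) (tn (tl 6129982163463555433433388108601236734474956488734408704) (tl 32768))) (tn (tn (tl 2361255299029129003010) (tl 72057594574798850)) (tn (tl 1) te)))) (tn (tn (tn (tn (tl 268451840) (tl 72057594574815234)) (tn (tl 2361327356622898462721) te)) (tn (tn te (tl 2361327356623166898177)) (tn (tl 19342813113834066795298816)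 te))) (tn (tn (tn (tl 19342813113834066795298816) (tl 72061992621326338)) (tn (tl 374144419156796222844170410326062069338257439604736) te)) (tn (tn (tl 19343993777516776559476736) (tl 4398583382018)) te)))) (tn (tn (tn (tn (tn (tl 268435456) (tl 72066390399418368)) (tn (tl 144115188612726785) te)) (tn te (tn (tl 1393796574908163946345982392040522594123776) te))) (tn (tn (tn (tl 268435456) (tl 144123984705748994)) (tn (tl 1180591620717411303424) te)) (tn (tn te (tl 72066390667853826)) te))) (tn (tn (tn (tn (tl 1) te) (tn te (tl 32768))) (tn (tn (tl 19345174297075501886373890) (tl 2361255303426907078656)) te)) (tn (tn (tn (tl 19342813113834066795298816) (tl 536887296)) (tn (tl 118571099379065705652575553379673957290447289690885602831105216685934006100836352) te)) (tn (tn (tl 38686806963404039077773312) (tl 8796629925888)) te))))) (tn (tn (tn (tn (tn (tn (tl 1) (tl 144115188075888642)) (tn (tl 144119586122399745) te)) (tn te (tn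 (tl 118578337268066570304082118855669796922170110980918878475121276555279564676300800) te))) (tn (tn (tn (tl 268435456) (tl 144119586122399745)) (tn (tl 118571099820723550308433210803217477693494658355051511608992564293214300824141824) te)) (tn (tn te (tl 72066390667821058)) (tn (tl 2) te)))) (tn (tn (tn (tn (tl 72061992084455424) te) te) (tn (tn te (tl 2361255307825221992450)) te)) (tn (tn (tn (tl 72057594037927936) (tl 72057594037944320)) (tn (tl 4398046511104) te)) (tn (tn (tl 19343993705459182521548801) (tl 4398046511104)) te)))) (tn (tn (tn (tn (tn (tl 268435456) (tl 4398583398400)) (tn (tl 1180663678311449231362) (tl 1))) (tn te (tn (tl 374144419156711147060143317175368453031918731001856) te))) (tn (tn (tn (tl 19342813113834066795298816) (tl 268451841)) (tn (tl 12260712615766818085746189578451575526934212026294091778) te)) (tn (tn te (tl 536903682)) te))) (tn (tn (tn te (tn (tl 85070591730234615865843651857942052864)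 te)) (tn (tn (tl 72066390130966529) (tl 19345174297079899664449536)) te)) (tn (tn (tn (tl 316912650057057350374175801344) (tl 4398046511106)) (tn (tl 441711767840201085605509242835701523317339660874578149420397843590414337) te)) (tn (tn (tl 19345174369133095655866370) (tl 72061992084439040)) te))))))))

def t1 : Tr ℕ := (tn (tn (tn (tn (tn (tn (tn (tn (tn (tl 1) (tl 72057594037927936)) (tn (tl 72061992352907264) (tl 32770))) (tn (tn (tl 4398046511104) te) (tn (tl 45674713759750917749338898382911474870696050690) te))) (tn (tn (tn (tl 85070591730234615865843651857942052864) (tl 72066390667837440)) (tn (tl 6129982163463555433433388108601236734474956488734408704) te)) (tn (tn te (tl 268435456)) (tn (tl 1) te)))) (tn (tn (tn (tn (tl 268435456) te) te) (tn (tn (tl 38686806819297647363375104) (tl 1180591620717411303424)) (tn (tl 170141183460469231731831423302006472704) te))) (tn (tn (tn (tl 72057594037927936) (tl 144123984437346305))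 (tn (tl 16384) te)) (tn (tn (tl 1180591620717411303424) (tl 72061992621342722)) (tn (tl 144115188075888640) te))))) (tn (tn (tn (tn (tn (tl 1) te) te) (tn (tn te (tl 1180663678311717666818)) (tn (tl 6129982163463555433433388108601236734474956488734408704) te))) (tn (tn (tn te (tl 144119586659270657)) te) (tn (tn (tl 38685626227676930220507137) te) te))) (tn (tn (tn (tn (tl 4398046511104) (tl 72057594306379778)) (tn (tl 31828687130226345097944463881396533766429193651030253916189694521162207808802136034115584) (tl 32769))) (tn (tn (tl 19342813113834066795298816) (tl 144115188075855872)) te)) (tn (tn (tn (tl 85070591730234615865843651857942052864) te) (tn (tl 85070591730234615865843651857942052864) te)) (tn (tn (tl 1180591625115994685441) (tl 268451840)) (tn (tl 144119586659254272) te)))))) (tn (tn (tn (tn (tn (tn (tl 16384) te) te) (tn (tn (tl 1) te) (tn (tl 1) te))) (tn (tn (tn (tl 5192296858534827628530496329220096) (tl 4398046527490))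 (tn (tl 441711766194596082395824375185729628956870974218904739530401550323154944) (tl 32770))) te)) (tn (tn (tn te (tn (tl 441711766194596082395824375185729628956870974218904739530401550323154944) te)) (tn (tn (tl 4398046511104) (tl 268468224)) te)) (tn (tn (tn (tl 5192296858534827628530496329220096) (tl 536887296)) (tn (tl 1180591620717411303424) te)) (tn (tn (tl 1180663687108079140865) (tl 4398046511106)) (tn (tl 268435456) te))))) (tn (tn (tn (tn (tn (tl 16384) te) te) (tn (tn te (tl 1180735735905755627521)) (tn (tl 72057594037927936) te))) (tn (tn (tn (tl 1393796574908163946345982392040522594123776) (tl 32768)) te) (tn (tn (tl 19343993849574370597421056) (tl 4398046511106)) (tn (tl 144115188344324096) te)))) (tn (tn (tn (tn te (tl 4398314979329)) (tn (tl 85070591730234615865843651857942052864) te)) (tn (tn te (tl 4398314979330)) (tn (tl 2) te))) (tn (tn (tn (tl 19342813113834066795298816) te) (tn (tl 12259964349764467916878226572375926808479999733081833474)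 te)) (tn (tn (tl 72061992084471809) (tl 268435456)) (tn (tl 16384) te))))))) (tn (tn (tn (tn (tn (tn (tn (tl 1) te) te) (tn te (tn (tl 6129982186299518516733938819343683937172048392365309952) te))) (tn (tn (tn (tl 19342813113834066795298816) (tl 72066390130966528)) (tn (tl 1645504557321206042154969182557350504982735865633579863348609024) (tl 32768))) (tn (tn te (tl 72057594037927936)) te))) (tn (tn (tn (tn (tl 268435456) te) (tn te (tl 32768))) (tn (tn (tl 16384) (tl 144123984705781760)) (tn (tl 72057594037927936) te))) (tn (tn (tn (tl 19342813113834066795298816) (tl 72066390667853825)) (tn (tl 4398046511104) te)) (tn (tn (tl 72057594037927936) (tl 8796361457666)) (tn (tl 8796629925888) te))))) (tn (tn (tn (tn (tn (tl 4398046511104) te) (tn te (tl 2))) (tn (tn te (tl 1)) (tn (tl 1645504557321206042154969182557350504982735865633579863348609024) te))) (tn (tn (tn te (tl 72057594574798850)) te) (tn (tn (tl 38687987410909568681672705)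 te) (tn (tl 144123984705748994) te)))) (tn (tn (tn (tn te (tl 32770)) (tn (tl 8543948143683640329580086824678208458410818089426611079788166431288878903122562200091848347746304) te)) (tn (tn te (tl 32768)) te)) (tn (tn (tn (tl 72057594037927936) te) (tn (tl 45671926336742284565002789273348972282137051136) te)) (tn (tn (tl 1180591629513504358400) (tl 4398046511105)) (tn (tl 72066390399401984) te)))))) (tn (tn (tn (tn te (tn (tn (tl 2) (tl 1180591620717411319810)) (tn (tl 16384) te))) (tn (tn (tn (tl 1393796574908163946345982392040522594123776) (tl 72061992352890882)) (tn (tl 118571099379011784113736688648896417641748464297615937576404566024103044751294464) (tl 1))) (tn (tn (tl 4398583414784) te) te))) (tn (tn (tn (tn (tl 4398046511104) (tl 144115188075855873)) (tn (tl 118571099379011784113736688648896417641748464297615937576404566024103044751294464) (tl 16384))) (tn (tn (tl 72057594037927936) (tl 72066390130966529)) te)) (tn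 (tn (tn (tl 1393796574908163946345982392040522594123776) (tl 4398314962946)) (tn (tl 316912650057057350374175801344) te)) (tn (tn (tl 8796629893121) (tl 144119586659270657)) (tn (tl 4398314946562) te))))) (tn (tn (tn (tn (tn (tl 268435456) te) te) (tn (tn te (tl 4398046511104)) (tn (tl 19342813113834066795298816) te))) (tn (tn (tn (tl 374144419156711147060143317175368453031918731001856) (tl 72061992621326337)) te) (tn (tn (tl 19343993777521174337552385) (tl 72066390667853825)) (tn (tl 268435457) te)))) (tn (tn (tn (tn (tl 316912650057057350374175801344) (tl 268435456)) (tn (tl 22835963083295358096932575511191922182123945984) (tl 1))) (tn (tn te (tl 1)) (tn (tl 1) te))) (tn (tn (tn (tl 5192296858534827628530496329220096) te) (tn (tl 6129982163466343026588397050284458758242002702407057410) te)) (tn (tn (tl 2361183245833137586178) (tl 4398046511104)) (tn (tl 268435456) te)))))))) (tn (tn (tn (tn (tn (tn (tn (tn (tl 1) (tl 72061992084455426))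 (tn (tl 1) (tl 4398314979330))) (tn te (tn (tl 6129982186302306109888947761007560786786125496671305729) te))) (tn (tn (tn (tl 85070591730273301492071319991532650497) (tl 8796629925889)) (tn (tl 100433627766186892221372630771322662657637687111424552206336) (tl 16384))) (tn (tn te (tl 4398046511104)) (tn (tl 2) te)))) (tn (tn (tn (tn (tl 16384) te) te) (tn (tn (tl 1) (tl 19342813257949255408058368)) (tn (tl 4398046511104) te))) (tn (tn (tn (tl 1180591620717411303424) (tl 536870913)) (tn (tl 268435456) te)) (tn (tn (tl 1180663682709495758848) (tl 144119586122399744)) (tn (tl 144119586390835201) te))))) (tn (tn (tn (tn (tn (tl 16384) te) (tn te (tl 2))) (tn (tn te (tl 38687987482971560766078977)) (tn (tl 100433627766186892221372630771322662657637687111424552206336) te))) (tn (tn (tn te (tl 536903681)) te) (tn (tn (tl 19345174441195088277176320) te) (tn (tl 72061992084455425) te)))) (tn (tn (tn (tn (tl 72057594037927936) (tl 72061992621342722))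 (tn (tl 521481209941628438084722096232800809229175908778479680162851955034721612739414196782949728256) te)) (tn (tn (tl 2361183250231452499968) (tl 536870912)) te)) (tn (tn (tn (tl 1393796574908163946345982392040522594123776) te) (tn (tl 1393796574908163946345982392040522594123776) te)) (tn (tn (tl 72057594574831618) (tl 268468226)) (tn (tl 72066390667853824) te)))))) (tn (tn (tn (tn (tn (tn (tl 16384) te) te) (tn (tn (tl 2) te) (tn (tl 12259964372600431000173584352434537888698128884054376448) te))) (tn (tn (tn (tl 85070591730234615865843651857942052864) (tl 144123984705748992)) (tn (tl 7237005577332262213973186563042994240829374041602535252466099000494570602496) te)) (tn (tn (tl 8796361474050) te) te))) (tn (tn (tn (tn (tl 268435456) te) (tn (tl 7237005577332262213973186563042994240829374041602535252466099000494570602496) (tl 1))) (tn (tn (tl 1180591620717411303425) (tl 8796629893122)) te)) (tn (tn (tn (tl 85070591730234615865843651857942052864)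 (tl 16385)) (tn (tl 19342813113834066795298816) te)) (tn (tn (tl 2361255303426907045888) (tl 72061992084439042)) (tn (tl 144115188612759552) te))))) (tn (tn (tn (tn (tn (tl 268435456) te) te) (tn (tn te (tl 268435456)) (tn (tl 1180591620717411303424) te))) (tn (tn (tn (tl 22835963083295358096932575511191922182123945984) (tl 4398046527490)) te) (tn (tn (tl 19342813257958051232645122) (tl 144119586659270657)) (tn (tl 72057594037927936) te)))) (tn (tn (tn (tn te (tl 144115188344324097)) (tn (tl 1393796574908163946345982392040522594123776) te)) (tn (tn te (tl 72061992621309952)) te)) (tn (tn (tn (tl 316912650057057350374175801344) te) (tn (tl 45673320133306807818319415543354543843859005441) te)) (tn (tn (tl 2361255307825490460673) (tl 536903681)) (tn (tl 72066390399401985) te))))))) (tn (tn (tn (tn (tn (tn (tn (tl 16384) te) te) (tn te (tn (tl 6129982163464949315084080933485376337639771775053086721) te))) (tn (tn (tn (tl 316912650057057350374175801344)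 (tl 144123984437313538)) (tn (tl 26959946667150639794667015087019630673637144422540572481103610249216) (tl 16386))) te)) (tn (tn te (tn (tn (tl 268435456) (tl 72061992352874496)) (tn (tl 1180591620717411303424) te))) (tn (tn (tn (tl 316912650057057350374175801344) (tl 8796629925889)) (tn (tl 72057594037927936) te)) (tn (tn (tl 4398314979329) (tl 8796093038592)) (tn (tl 144115188075855874) te))))) (tn (tn (tn (tn (tn (tl 72057594037927936) te) (tn te (tl 1))) (tn (tn te (tl 16384)) (tn (tl 26959946667150639794667015087019630673637144422540572481103610249216) te))) (tn (tn (tn (tl 85070591730234615865843651857942052864) (tl 536903680)) te) (tn (tn (tl 19345174441199486055251969) te) (tn (tl 144115188075855872) te)))) (tn (tn (tn (tn te (tl 144119586390818816)) (tn (tl 279968093293706736261308730393666685785842346383295792655343169818437323081905311004114617746432475136) te)) (tn (tn te (tl 1)) te)) (tn (tn (tn (tl 1180591620717411303424)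 te) (tn (tl 12259964349765861713458326716268157561299109587263160322) te)) (tn (tn (tl 2361327365419528372225) (tl 4398046527489)) (tn (tl 1) te)))))) (tn (tn (tn (tn (tn (tn (tl 16384) te) te) (tn (tn (tl 1) te) (tn (tl 170141183777420567414972331020011962368) te))) (tn (tn (tn te (tl 8796361457666)) te) (tn (tn (tl 38687987410909568681672705) te) te))) (tn (tn (tn (tn (tl 268435456) (tl 72066390399385600)) (tn (tl 1942668892225729070919461906823518906642406839052139521251812409738904285205208498176) (tl 16384))) (tn (tn (tl 1180591620717411303424) (tl 4398314962946)) te)) (tn (tn (tn (tl 5192296858534827628530496329220096) (tl 536887296)) (tn (tl 5192296858534827628530496329220096) te)) (tn (tn (tl 2361255299029128986626) (tl 268468225)) (tn (tl 144123984168878082) te))))) (tn (tn (tn (tn (tn (tl 4398046511104) te) te) (tn (tn (tl 38687987410909568681656322) (tl 72057594037927936)) (tn (tl 316912650057057350374175801344)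 te))) (tn (tn (tn (tl 6129982163463555433433388108601236734474956488734408704) (tl 536887296)) (tn (tl 1) (tl 2))) (tn (tn (tl 38687987555033552850550784) (tl 144115188344307712)) (tn (tl 4398583414784) te)))) (tn (tn (tn (tn (tl 5192296858534827628530496329220096) (tl 8796093022210)) (tn (tl 374144419156711147060143317175368453031918731001856) (tl 2))) (tn (tn te (tl 16384)) te)) (tn (tn (tn (tl 85070591730234615865843651857942052864) te) (tn (tl 12259964372600430915113377532810298922055045530595098624) te)) (tn (tn (tl 72057594574831617) (tl 4398046527488)) (tn (tl 4398046511104) te)))))))))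

def t2 : Tr ℕ := (tn (tn (tn (tn (tn (tn (tn (tn (tn (tl 1) (tl 4398046511104)) te) (tn (tn (tl 4398046511104) te) te)) (tn (tn (tn (tl 85070591730234615865843651857942052864) te) (tn (tl 100433627766186892221372630771322662657637687111424552206336) te)) (tn (tn (tl 268435456) (tl 144115188075855872)) te))) (tn (tn (tn (tn (tl 268435456) (tl 1)) te) (tn (tn (tl 1) (tl 268435456)) te)) (tn te (tn te (tn (tl 72057594574815234) te))))) (tn (tn (tn (tn (tn te (tl 72066390667853826)) te) (tn (tn te (tl 536870914)) (tn (tl 316912650057057350374175801344) te))) (tn (tn (tn (tl 374144419156711147060143317175368453031918731001856) te) (tn (tl 4398046511104) te)) (tn (tn te (tl 32769)) te))) (tn (tn (tn te (tn (tl 1393796574908163946345982392040522594123776) (tl 16384))) (tn (tn (tl 1180591620717411303424) (tl 144119586122383360)) (tn (tl 2) te))) (tn (tn (tn (tl 85070591730234615865843651857942052864) te) te) (tn te (tn (tl 32770)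 te)))))) (tn (tn (tn (tn (tn (tn (tl 16384) (tl 144123984437313538)) te) te) (tn (tn (tn (tl 22835963083295358096932575511191922182123945984) te) (tn (tl 441711766194596082395824375185729628956870974218904739530401550323154944) te)) (tn (tn (tl 1180591620717411303424) (tl 32769)) te))) (tn (tn (tn (tn (tl 1180591620717411303424) (tl 4398046511104)) (tn (tl 19342813113834066795298816) te)) (tn (tn (tl 38687987410909568681672705) (tl 72061992084471809)) te)) (tn te (tn te (tn (tl 144115188612743170) te))))) (tn (tn (tn (tn (tn (tl 72057594037927936) (tl 72057594306396162)) te) (tn (tn te (tl 32768)) (tn (tl 19342813113834066795298816) te))) (tn (tn te (tn (tl 316912650057057350374175801344) (tl 1))) (tn te (tn (tl 72057594306363394) te)))) (tn (tn (tn te (tn (tl 22835963083295358096932575511191922182123945984) (tl 1))) (tn (tn (tl 1180735744702117085184) (tl 144115188344291328)) te)) (tn (tn (tn (tl 374144419156711147060143317175368453031918731001856)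 te) te) (tn te (tn (tl 1) te))))))) (tn (tn (tn (tn (tn (tn (tn te (tl 8796361490433)) te) te) (tn (tn (tn (tl 100433627766186892221372630771322662657637687111424552206336) te) (tn (tl 26959946667150639794667015087019630673637144422540572481103610249216) te)) (tn (tn (tl 1180591620717679771650) (tl 72057594037927936)) te))) (tn (tn (tn (tn (tl 72057594037927936) (tl 72066390399385600)) (tn te (tl 1))) (tn (tn (tl 268435456) (tl 536887298)) te)) (tn te (tn te (tn (tl 72061992621309952) te))))) (tn (tn (tn (tn (tn (tl 4398046511104) (tl 72061992084471810)) te) (tn (tn te (tl 536903680)) (tn (tl 85070591730234615865843651857942052864) te))) (tn (tn (tn (tl 100433627766186892221372630771322662657637687111424552206336) te) (tn (tl 1180591620717411303424) te)) (tn (tn te (tl 536870914)) (tn (tl 4398046511105) te)))) (tn (tn (tn te (tn (tl 374144419156711147060143317175368453031918731001856) te)) (tn (tn (tl 2361255307825222008832)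 (tl 16384)) (tn (tl 2) te))) (tn (tn (tn (tl 1393796574908163946345982392040522594123776) te) te) (tn te (tn (tl 72066390399401985) te)))))) (tn (tn (tn (tn (tn (tn (tl 268435456) (tl 72066390399385601)) (tn te (tl 1))) (tn (tn te (tl 536870914)) te)) (tn (tn (tn (tl 441711766194596082395824375185729628956870974218904739530401550323154944) te) (tn (tl 118571099379011784113736688648896417641748464297615937576404566024103044751294464) te)) (tn (tn te (tl 16386)) te))) (tn (tn (tn te (tn (tl 5192296858534827628530496329220096) (tl 2))) (tn (tn (tl 4398046511104) (tl 4398583398401)) (tn (tl 1) te))) (tn te (tn te (tn (tl 144115188344291330) te))))) (tn (tn (tn (tn (tn te (tl 8796093038593)) te) (tn (tn te (tl 1)) (tn (tl 5192296858534827628530496329220096) te))) (tn (tn te (tn (tl 85070591730234615865843651857942052864) te)) (tn te (tn (tl 144119586390802432) te)))) (tn (tn (tn (tn (tl 316912650057057350374175801344) te) (tn (tl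 118585574273616944265133498723644237890862304931495551580959098149399669235515394) te)) (tn (tn (tl 2361255299029128986626) (tl 8796361457666)) te)) (tn te (tn te (tn (tl 16384) te)))))))) (tn (tn (tn (tn (tn (tn (tn (tn (tl 16384) (tl 72061992621309954)) te) (tn (tn (tl 2) te) te)) (tn (tn (tn (tl 85070591730273301492071319991532650497) te) (tn (tl 1645504557321206042154969182557350504982735865633579863348609024) te)) (tn (tn (tl 4398046511104) te) te))) (tn (tn (tn (tn (tl 268435456) (tl 16384)) te) (tn (tn (tl 16384) (tl 268468224)) te)) (tn te (tn te (tn (tl 8796093022208) te))))) (tn (tn (tn (tn (tn te (tl 72057594037944320)) te) (tn (tn te (tl 8796629893121)) (tn (tl 5192296858534827628530496329220096) te))) (tn (tn (tn (tl 6129982163463555433433388108601236734474956488734408704) te) (tn (tl 72057594037927936) te)) (tn (tn te (tl 536870914)) (tn (tl 144123984437346306) te)))) (tn (tn (tn te (tn (tl 22835963083295358096932575511191922182123945984)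 (tl 32769))) (tn (tn (tl 72066390399401984) (tl 1)) (tn (tl 1) te))) (tn (tn (tn (tl 1393796574908163946345982392040522594123776) te) te) (tn te (tn (tl 144119586390818816) te)))))) (tn (tn (tn (tn (tn (tn (tl 268435456) (tl 536870912)) (tn te (tl 2))) te) (tn (tn (tn (tl 26959946667150639794667015087019630673637144422540572481103610249216) te) (tn (tl 7237005577332262213973186563042994240829374041602535252466099000494570602496) te)) (tn (tn te (tl 4398583414786)) te))) (tn (tn (tn (tn te (tl 72057594037927936)) (tn (tl 316912650057057350374175801344) (tl 2))) (tn (tn (tl 19345174441199486055251969) (tl 72061992352874496)) (tn (tl 2) te))) (tn te (tn te (tn (tl 8796361490432) te))))) (tn (tn (tn (tn (tn (tl 1180591620717411303424) (tl 8796361457666)) te) (tn (tn te (tl 268435456)) (tn (tl 316912650057057350374175801344) te))) (tn (tn te (tn (tl 5192296858534827628530496329220096) te)) (tn te (tn (tl 72057594306379778) te))))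 (tn (tn (tn te (tn (tl 374144419156711147060143317175368453031918731001856) (tl 16384))) (tn (tn (tl 2361255303426907045888) (tl 268435456)) te)) (tn te (tn te (tn (tl 32770) te))))))) (tn (tn (tn (tn (tn (tn (tn (tl 16384) (tl 72057594037944320)) (tn te (tl 1))) (tn (tn (tl 1) te) te)) (tn (tn (tn (tl 1645504557321206042154969182557350504982735865633579863348609024) te) (tn (tl 316912650057057350374175801344) te)) (tn (tn (tl 72057594037927936) (tl 4398583382017)) te))) (tn (tn (tn (tn (tl 268435456) (tl 268435456)) (tn te (tl 2))) (tn (tn (tl 19345174441195088277143554) (tl 72057594037927938)) te)) (tn te (tn te (tn (tl 4398046511105) te))))) (tn (tn (tn (tn (tn (tl 72057594037927936) (tl 536870912)) te) (tn (tn te (tl 4398583398401)) (tn (tl 1393796574908163946345982392040522594123776) te))) (tn (tn te (tn (tl 19342813113834066795298816) te)) (tn (tn te (tl 268451842)) (tn (tl 4398046543872) te)))) (tn (tn (tn te (tn (tl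 12260338517018193744604552871316792730102093287541211138) te)) (tn (tn (tl 536887296) (tl 144123984437313536)) (tn (tl 1) te))) (tn (tn (tn (tl 22835963083295358096932575511191922182123945984) te) te) (tn te (tn (tl 72066390667853825) te)))))) (tn (tn (tn (tn (tn (tn te (tl 8796361457665)) te) te) (tn (tn (tn (tl 22835963083295358096932575511191922182123945984) te) (tn (tl 268435456) te)) (tn (tn te (tl 268468226)) te))) (tn (tn (tn te (tn (tl 85070591730234615865843651857942052864) (tl 1))) (tn (tn (tl 72057594037927936) (tl 144115188075872258)) te)) (tn (tn (tn (tl 5192296858534827628530496329220096) te) te) (tn te (tn (tl 72061992621342722) te))))) (tn (tn (tn (tn (tn te (tl 32768)) te) (tn (tn (tl 38687987482975958812606464) (tl 16384)) (tn (tl 85070591730234615865843651857942052864) te))) (tn te (tn te (tn (tl 144119586659270656) te)))) (tn (tn (tn (tn (tl 5192296858534827628530496329220096) te) (tn (tl 6129982163463555433433388108601236734474956488734408704)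 te)) (tn (tn (tl 16384) (tl 4398046511104)) te)) (tn te (tn te (tn (tl 268435456) te)))))))))

def t3 : Tr ℕ := (tn (tn (tn (tn (tn (tn (tn (tn (tn (tl 1) (tl 19345174369141891748872194)) (tn (tl 237149435763654820383222525149459795227836312657451160257186617653686899495141376) te)) (tn (tn te (tl 16384)) (tn (tl 170141183777401225782450117670627983360) te))) (tn (tn (tn (tl 268435456) (tl 268468225)) (tn (tl 268435456) te)) (tn (tn (tl 237156673652628726733365636182065065679510612545645770582624756321188220294430721) te) (tn (tl 536903680) te)))) (tn (tn (tn (tn (tl 1) (tl 268451841)) (tn (tl 22838750846586358202245837252203628877869760514) (tl 16384))) (tn (tn (tl 279985181190057760916346914356890942911344688661013614499387992502254534773162370928860863245701873666) te) te)) (tn (tn (tn (tl 1) (tl 144115188612726786)) (tn (tl 2787678225600988849830759925993302615162882) te)) (tn (tn (tl 118578337268066568658477127907071735131493061739531724771864775650423062084485120)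 te) (tn (tl 1180735735905755627521) te))))) (tn (tn (tn (tn (tn (tl 1) (tl 8796629893121)) (tn (tl 22837356964940858308045531410334539307164909570) (tl 32769))) (tn (tn (tl 38685626227668134127484930) te) te)) (tn (tn (tn (tl 16384) (tl 144119586390818816)) (tn (tl 8796093038592) te)) (tn (tn (tl 12259964349764467746742235408784572717390945391709552640) te) (tn (tl 144123984705781762) te)))) (tn (tn (tn (tn (tl 16384) (tl 536903682)) (tn (tl 72057594037927936) te)) (tn (tn (tl 72057594037927936) te) (tn (tl 144119586659237888) te))) (tn (tn (tn (tl 16384) (tl 1)) (tn (tl 16384) te)) (tn (tn (tl 118571099379065704007271869444356619639989706704608795521129304437116048452354049) te) (tn (tl 8796629925890) te)))))) (tn (tn (tn (tn (tn (tn (tl 1) (tl 4398314946560)) (tn (tl 748311677064098739294711459620574137366093903200256) (tl 2))) (tn (tn (tl 38687987482967162451148800) (tl 8796093022209)) (tn (tl 2787678225600671917837889754804463329099776)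 te))) (tn (tn (tn (tl 268435456) (tl 144123984168894466)) (tn (tl 19342813113834066795298816) te)) (tn (tn (tl 118585573831878216478365714497175415745862451771140513361613894908114422401597440) te) te))) (tn (tn (tn (tn (tl 16384) (tl 72061992084471810)) (tn (tl 1) te)) (tn (tn (tl 1) te) te)) (tn (tn (tn (tl 72057594037927936) (tl 536903682)) (tn (tl 2787593155008624751227973148351845319589889) te)) (tn (tn (tl 118571099820750511900504485136077809880246440022959622792217859156818310134267904) te) (tn (tl 38687987482971560766095361) te))))) (tn (tn (tn (tn (tn (tl 1) (tl 72061992084455425)) (tn (tl 12259964349765861628382542689175006867898976031473664001) (tl 32768))) (tn (tn (tl 1180735744701580214272) te) te)) (tn (tn (tn (tl 16384) (tl 144123984437346305)) te) (tn (tn (tl 12260712615768211882310713465593501911054484336367632384) te) (tn (tl 144115188075855874) te)))) (tn (tn (tn (tn (tl 268435456) (tl 4398046527490)) (tn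 (tl 26959946667150639794667017874697851082329135717292206269996761907200) te)) (tn (tn (tl 118578337268012648765142832757464564564874626047564356520253447153886913726808066) te) (tn (tl 144123984705765377) te))) (tn (tn (tn (tl 268435456) (tl 268435456)) (tn (tl 1393881645500528025605956127914303225364482) te)) (tn (tn (tl 118585574273616944265033065096626294165028188004128638619492864564062645364195330) te) (tn (tl 2361327356622898462721) te))))))) (tn (tn (tn (tn (tn (tn (tn (tl 1) (tl 8796093038594)) (tn (tl 6129982163466343111658989097451065133217703958212001794) te)) (tn (tn (tl 38686806963404039346192386) (tl 268435457)) (tn (tl 1393966716091624454265701490262603521327105) te))) (tn (tn (tn (tl 1) (tl 536870913)) (tn (tl 72057594037927936) te)) (tn (tn (tl 1) te) te))) (tn (tn (tn (tn (tl 16384) (tl 72061992621309953)) (tn (tl 316951335683357080500119306242) te)) (tn (tn (tl 279985181190057762858897235482357578517594776167102564039639866330913096617702815250188956648955969538)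 te) te)) (tn (tn (tn (tl 268435456) (tl 8796093022210)) (tn (tl 1393966716091941347571764986264585473392642) te)) (tn (tn (tl 237142199199789254315403767103562875219469791410541027649644848893728451700195329) te) (tn (tl 2361183241434822623234) te))))) (tn (tn (tn (tn (tn (tl 1) (tl 16386)) (tn (tl 12259964349763074120313703002165993294314739081328754689) (tl 2))) (tn (tn (tl 1180591625115994718209) te) te)) (tn (tn (tn (tl 4398046511104) (tl 4398046527490)) (tn (tl 10384910649062525500303027935936512) te)) (tn (tn (tl 12259964326929898545092376889120311358560602252990480384) te) (tn (tl 38685626299734523989999618) te)))) (tn (tn (tn (tn (tl 1) (tl 4398046527490)) (tn (tl 1180591620717411303424) te)) (tn (tn (tl 237142198758077491412017672736039288848190212210035857420259106402693045469347840) te) (tn (tl 8796093022209) te))) (tn (tn (tn (tl 1) (tl 16385)) (tn (tl 1393796580100460804880810092628612961288192) te)) (tn (tn (tl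 237149436205339629921959710423099643389880229198366063865521480892642460069527553) te) (tn (tl 2361327356622898462722) te)))))) (tn (tn (tn (tn (tn (tn (tl 1) (tl 4398583382018)) (tn (tl 1393796574908480858996039593514881207238656) (tl 32769))) (tn (tn (tl 1180591625115457847298) te) (tn (tl 16384) te))) (tn (tn (tn (tl 72057594037927936) (tl 4398046527490)) (tn (tl 5192296858534827628530496329220096) te)) (tn (tn (tl 2787763301385015904293465843150900397342720) te) (tn (tl 144115188075872257) te)))) (tn (tn (tn (tn (tl 16384) (tl 4398046527489)) (tn (tl 268435456) te)) (tn (tn (tl 268435456) te) (tn (tl 72061992084455425) te))) (tn (tn (tn (tl 19342813113834066795298816) (tl 4398583398400)) (tn (tl 170151568054186303748271730127802466306) te)) (tn (tn (tl 237156673210916958893164568966876480490988980545797473513813334835006153294872577) te) (tn (tl 144123984437346304) te))))) (tn (tn (tn (tn (tn (tl 1) (tl 144119586390818817))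 (tn (tl 2787593160201555473749721566761150704517120) (tl 32769))) (tn (tn (tl 1180663678311717699586) te) te)) (tn (tn (tn (tl 4398046511104) (tl 72061992621309952)) (tn (tl 4398046511104) te)) (tn (tn (tl 6130730497973795192459408683395270339638931147301355522) te) (tn (tl 144115188344324096) te)))) (tn (tn (tn (tn (tl 1) te) (tn (tl 1) te)) (tn (tn (tl 441738727786868223984965438504520879873969800981804461339664874268033025) te) (tn (tl 268468226) te))) (tn (tn (tn (tl 16384) (tl 1)) (tn (tl 2787678225600671917837889754804463865970690) te)) (tn (tn (tl 14474452920352258063766885242538073695884942971243295348347858365431817453570) te) (tn (tl 72057594574798850) te)))))))) (tn (tn (tn (tn (tn (tn (tn (tn (tl 1) (tl 19342813257958051501080576)) (tn (tl 237142199641447102262370972796536309479867937139108194574109398131064166422675458) te)) (tn (tn (tl 19343993777512378512998400) (tl 536903680)) (tn (tl 1393881650692824864797970642606334981193729)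 te))) (tn (tn (tn (tl 4398046511104) (tl 268468225)) (tn (tl 4398046511104) te)) (tn (tn (tl 14474452920352257862899630084308705622172613272663105783019553260699522203649) te) (tn (tl 144123984705748994) te)))) (tn (tn (tn (tn (tl 1) (tl 72066390667837441)) (tn (tl 12259964326927111037013152608355542503635755763255771137) (tl 32770))) (tn (tn (tl 279968093815219778775405179274503156555253769710879371248264909169873827285067374726176285291746197504) te) te)) (tn (tn (tn (tl 16384) (tl 72061992621326336)) (tn (tl 633863986920933989599890407424) te)) (tn (tn (tl 237149435763600900489888230000600890663567960768047047773148918633445320179056640) te) (tn (tl 1180735744701580197888) te))))) (tn (tn (tn (tn (tn (tl 16384) (tl 4398046527489)) (tn (tl 12259964349764467831807634525267348872845787482986381313) (tl 1))) te) (tn (tn (tn (tl 268435456) (tl 4398046527488)) (tn (tl 1) te)) (tn (tn (tl 374167257907472668018912186931582369481840950001666)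 te) (tn (tl 19345174369133095655866370) te)))) (tn (tn (tn (tn (tl 268435456) (tl 8796093022208)) te) (tn (tn (tl 1180591620717411303424) te) (tn (tl 144123984705748994) te))) (tn (tn (tn (tl 268435456) (tl 8796629893122)) (tn (tl 268435456) te)) (tn (tn (tl 7237005604295499890238468769794319266384270984620763443356381551495336706050) te) (tn (tl 38687987555033552582115329) te)))))) (tn (tn (tn (tn (tn (tn (tl 1) (tl 8796361457664)) (tn (tl 12260338517019587711331029406362090156351729306731315201) (tl 16386))) (tn (tn (tl 19343993777516776827944960) (tl 4398314962944)) (tn (tl 1) te))) (tn (tn (tn (tl 4398046511104) (tl 144115188075855872)) (tn (tl 316912650057057350374175801344) te)) (tn (tn (tl 12260338494182230746390171098335903920602504673429061634) te) (tn (tl 144115188075872257) te)))) (tn (tn (tn (tn (tl 1) (tl 8796361457665)) (tn (tl 16384) te)) (tn (tn (tl 16384) te) (tn (tl 72066390399385600) te))) (tn (tn (tn (tl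 1180591620717411303424) (tl 144123984705748994)) (tn (tl 1393966726476535045297426465821995443453954) te)) (tn (tn (tl 118571099379038744060604718804187831041709144303209752856443665209102758439813120) te) (tn (tl 2361183241435359494145) te))))) (tn (tn (tn (tn (tn (tl 16384) (tl 144115188075872258)) (tn (tl 748334513027352175836268861427816944538795651366914) (tl 16384))) te) (tn (tn (tn (tl 268435456) (tl 72061992621326336)) (tn (tl 268435456) te)) (tn (tn (tl 374144419156881293436534489586035661088053901918208) te) (tn (tl 19343993849578768912384001) te)))) (tn (tn (tn (tn (tl 4398046511104) (tl 8796629909504)) (tn (tl 3291009114642786251565058159562311547093100251798593579289444353) te)) (tn (tn (tl 883450495626968863701995878681182774683549377116020577695568470063710208) te) (tn (tl 72061992352874497) te))) (tn (tn (tn (tl 1) (tl 268435457)) (tn (tl 1393966721284555118756649528039063458676738) te)) (tn (tn (tl 53923184443849549767605233727658652319818010588716719632736348831744)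 te) (tn (tl 19345174441199486323687426) te))))))) (tn (tn (tn (tn (tn (tn (tn (tl 1) (tl 8796361474049)) (tn (tl 22838750761520958451918419350039806299531657216) (tl 16384))) (tn (tn (tl 38687987482975959081025537) (tl 4398583382017)) (tn (tl 1393966721283921293457716004954635008737281) te))) (tn (tn (tn (tl 16384) (tl 4398583398400)) (tn (tl 1180591620717411303424) te)) (tn (tn (tl 16384) te) (tn (tl 144115188075872257) te)))) (tn (tn (tn (tn (tl 1) (tl 72057594306363392)) (tn (tl 6129982186302306280030130587651491223695050152217673728) te)) (tn (tn (tl 279968093815219776832973429247973820968568528223361390272737431404238408122491183878580730402774712320) te) te)) (tn (tn (tn (tl 4398046511104) (tl 268435457)) (tn (tl 1393966721284555099413836558315787229609985) te)) (tn (tn (tl 7237447289100102515486289482142003488327315547053576028957457536715610652674) te) (tn (tl 19343993777516776827912192) te))))) (tn (tn (tn (tn (tn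 (tl 16384) (tl 72061992352874496)) (tn (tl 45671926251661308241051102571656629918032216064) (tl 32769))) (tn (tn (tl 1180663678311717699586) te) te)) (tn (tn (tn (tl 1) (tl 72057594306363394)) (tn (tl 16384) te)) (tn (tn (tl 22835963083300551027616410452935157825388150785) te) (tn (tl 38685626227672532174012416) te)))) (tn (tn (tn (tn (tl 16384) (tl 4398046527488)) (tn (tl 19342813113834066795298816) te)) (tn (tn (tl 237149436205366586577617740290500085467436618646900092697775695037548304911056897) te) (tn (tl 144123984705748994) te))) (tn (tn (tn (tl 16384) (tl 16386)) (tn (tl 170151568688030945494836582233185222656) te)) (tn (tn (tl 118585573390193411875941346191959791613338593885364442478147847583407923246678017) te) (tn (tl 72057594574798848) te)))))) (tn (tn (tn (tn (tn (tn (tl 1) (tl 144119586390835201)) (tn (tl 170151568371137637070229387614355456001) te)) (tn (tn (tl 72066390399385600) te) (tn (tl 268435456) te))) (tn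 (tn (tn (tl 1) (tl 72066390130982913)) (tn (tl 10384910629719712458526555446984705) te)) (tn (tn (tl 12260712661438744252331713158526198851518341453241663490) te) (tn (tl 144115188075872257) te)))) (tn (tn (tn (tn (tl 1) (tl 8796361490433)) (tn (tl 4398046511104) te)) (tn (tn (tl 4398046511104) te) (tn (tl 72061992352874497) te))) (tn (tn (tn (tl 1) (tl 8796629925888)) (tn (tl 1) te)) (tn (tn (tl 7237447343018350244796619725125401884557103345433464461544627752608917913602) te) (tn (tl 38686806819293249048444929) te))))) (tn (tn (tn (tn (tn (tl 16384) (tl 72066390667837440)) (tn (tl 22837357050011450038299491269883650347360075778) (tl 32769))) (tn (tn (tl 279968092772225528262586326733431630120837583053656994020523651597058773899860072054507950050973335552) te) te)) (tn (tn (tn (tl 72057594037927936) (tl 536870912)) (tn (tl 5192613771184884685880870505054210) te)) (tn (tn (tl 748288838313507375097244450024359604444598865264641)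 te) (tn (tl 2361327356623435350018) te)))) (tn (tn (tn (tn (tl 16384) (tl 16384)) (tn (tl 16384) te)) (tn (tn (tl 14474894632116807155285829878707639507016263603709749316277861296815235694594) te) (tn (tl 268468226) te))) (tn (tn (tn (tl 268435456) (tl 536903680)) (tn (tl 2787678225600671898495076496864005087821824) te)) (tn (tn (tl 118578336826300884216051301552864068067771067994247086730241074559238209640857601) te) (tn (tl 536903682) te)))))))))

def t4 : Tr ℕ := (tn (tn (tn (tn (tn (tn (tn (tn te (tn te (tl 32770))) (tn (tn (tl 22837356879880650854615333961954862162755190784) te) (tn (tl 144115188075888641) te))) te) (tn (tn (tn (tn (tl 316931995231354430274377089024) te) (tn (tl 1) te)) (tn te (tn (tl 4398314979328) te))) (tn (tn (tn (tl 2361255307825490444289) te) te) te))) (tn (tn (tn (tn (tn (tl 268468224) te) (tn (tl 2) te)) te) (tn (tn (tn (tl 2361183241435091042305) te) (tn (tl 16385) (tl 2))) (tn (tn te (tl 16384))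 te))) (tn te (tn (tn (tn te (tl 1)) te) (tn (tn te (tl 16384)) te))))) (tn (tn (tn (tn (tn te (tn (tl 1) te)) (tn (tn te (tl 2)) (tn (tl 4398314979330) te))) (tn te (tn (tn te (tl 16384)) te))) (tn te (tn (tn (tn (tl 19345174441199486323687426) te) te) te))) (tn (tn (tn (tn (tn (tl 38687987482971560497643521) te) (tn (tl 1) te)) (tn te (tn (tl 19342813185896059416608768) te))) (tn (tn te (tn (tl 72057594037960704) te)) te)) (tn (tn (tn (tn (tl 2) te) te) te) (tn (tn (tn (tl 139984046907657632418635074972821874855453899375569781696542320787622341470567818976588833744563994624) (tl 2)) (tn (tl 144115188344291330) te)) (tn (tn te (tl 16385)) te)))))) (tn (tn (tn (tn (tn (tn (tn (tl 2) te) (tn (tl 1) te)) (tn (tn te (tl 1)) (tn (tl 72057594574815232) te))) te) (tn (tn (tn te (tn (tl 2) te)) (tn te (tn (tl 4398046527490) te))) (tn (tn (tn (tl 19342813257958051232645121) te) te) te))) (tn (tn (tn (tn te (tn (tl 2) te)) te) (tn (tn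 (tn (tl 2361255307824953573377) te) (tn (tl 72057594574831616) (tl 2))) (tn (tn te (tl 1)) te))) (tn te (tn (tn (tn (tl 279968092772225528262586326733431684040730816909048852863570456480117931731216361540207810038296756224) (tl 2)) (tn (tl 4398046527490) te)) (tn (tn te (tl 1)) te))))) (tn (tn (tn (tn (tn (tn (tl 16386) te) (tn (tl 1) te)) (tn te (tn (tl 4398314979330) te))) te) (tn te (tn (tn (tn (tl 72057594574831618) te) te) te))) (tn (tn (tn (tn (tn (tl 38687987482971560497643521) te) te) (tn te (tn (tl 19342813185896059148206082) te))) (tn (tn te (tn (tl 72066390667821057) te)) te)) (tn te (tn (tn (tn (tl 12260712615768211882310713465593501911054493132460654593) (tl 2)) (tn (tl 144119586122366978) te)) (tn (tn te (tl 2)) te))))))) (tn (tn (tn (tn (tn (tn (tn (tn (tl 2) te) (tn te (tl 2))) (tn (tn te (tl 2)) (tn (tl 144123984705748993) te))) te) (tn (tn te (tn te (tn (tl 4398046511106) te))) (tn (tn (tn (tl 19345174441195088277159938)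 te) te) te))) (tn (tn (tn (tn (tn (tl 268435458) te) te) te) (tn (tn (tn (tl 38685626299734524258451458) te) (tn (tl 144123984437313538) (tl 2))) (tn (tn te (tl 32769)) te))) te)) (tn (tn (tn (tn (tn te (tn (tl 2) te)) (tn (tn te (tl 2)) (tn (tl 72061992621342722) te))) (tn te (tn (tn te (tl 16384)) te))) (tn te (tn (tn (tn (tl 38686806819293249316864002) te) te) te))) (tn (tn (tn (tn (tn (tl 2787593149816327912034778042030300059402242) te) (tn (tl 2) te)) (tn te (tn (tl 19345174297084297979363329) te))) (tn (tn te (tn (tl 268451842) te)) te)) (tn (tn (tn (tn (tl 1) te) te) te) (tn (tn (tn (tl 12260338494182230746390171098335902740010879558239682560) (tl 1)) (tn (tl 144115188075888642) te)) (tn (tn te (tl 16385)) te)))))) (tn (tn (tn (tn (tn (tn (tn (tl 4398046511104) te) (tn (tl 2) te)) (tn (tn te (tl 1)) (tn (tl 72061992621342721) te))) (tn te (tn (tn te (tl 1)) te))) (tn (tn (tn te (tn (tl 2) te)) (tn te (tn (tl 8796093038592)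 te))) (tn (tn (tn (tl 19345174297079899932852226) te) te) te))) (tn (tn te (tn (tn te (tn (tl 72061992352890881) te)) (tn (tn te (tl 16385)) te))) (tn (tn (tn (tn (tl 2) te) te) te) (tn (tn (tn (tl 139984047429107015615683607838796058799775015916334278737767584900872023477406307529388547359585107968) (tl 2)) (tn (tl 4398046543872) te)) (tn (tn te (tl 32769)) te))))) (tn (tn (tn (tn (tn te (tn (tl 2) te)) (tn te (tn (tl 144115188612726784) te))) (tn (tn (tn (tl 1180591625115457847297) te) (tn (tl 8796629925889) (tl 2))) (tn (tn te (tl 16386)) te))) (tn te (tn te (tn (tn te (tl 16384)) te)))) (tn (tn (tn (tn (tn (tl 2787593149816327912034778042030300059402242) te) te) (tn te (tn (tl 38686806963404039346225154) te))) te) (tn te (tn (tn (tn (tl 374144421944304302068768087746154715213433067831298) te) (tn (tl 32770) te)) (tn (tn te (tl 32770)) te))))))))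

def t5 : Tr ℕ := (tn (tn (tn (tn (tn (tn (tn (tn (tn (tl 16386) te) (tn (tl 1) (tl 32768))) (tn (tn (tl 26959946667150640542955853400441924793923778773277478544941072252928) te) (tn (tl 144123984168878081) te))) (tn (tn te (tn (tl 144123984437346306) te)) (tn (tn te (tl 32768)) te))) (tn (tn (tn (tn (tl 1393796574908797771646096506741270945726464) te) te) (tn te (tn (tl 8796361457665) te))) (tn (tn (tn (tl 1180591620717411303424) (tl 1)) (tn (tl 72061992621326337) te)) (tn (tn te (tl 16385)) te)))) (tn (tn (tn (tn (tn (tl 72066390399385600) te) te) (tn te (tn (tl 38686806819297647363375104) te))) (tn (tn (tn te (tl 1)) te) te)) (tn (tn te (tn (tn te (tl 16384)) te)) (tn (tn (tn (tl 521481209941628438084722096236091818343818320862789618527966656044687084470681356509646946304) te) (tn (tl 8796629925888) te)) (tn (tn (tl 1) (tl 16386)) te))))) (tn (tn (tn (tn te (tn te (tn (tl 4398583382018) te))) (tn (tn (tn (tl 38685626371792117759475712)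 (tl 1)) (tn (tl 72066390399418368) (tl 2))) te)) (tn (tn te (tn (tn te (tl 32770)) te)) (tn (tn (tn (tl 1180735744701848616961) (tl 1)) (tn (tl 72066390399418370) te)) (tn (tn (tl 2) (tl 2)) te)))) (tn (tn (tn (tn (tn (tl 316912650057057359170268823552) te) te) (tn te (tn (tl 144119586390802434) te))) (tn (tn (tn (tl 19343993849578768912384002) te) te) (tn (tn te (tl 16385)) te))) (tn (tn (tn te (tn (tl 144123984437313536) te)) (tn (tn te (tl 16384)) te)) (tn (tn (tn (tl 26959946667150639794667015087019630674270969722654687181851961851904) te) (tn (tl 72057594037927937) te)) (tn (tn (tl 1) (tl 32770)) te)))))) (tn (tn (tn (tn (tn (tn (tn (tl 2) te) te) (tn te (tn (tl 72066390399385602) te))) (tn (tn (tn (tl 19343993777512378244530176) te) (tn (tl 144123984437346306) (tl 1))) (tn (tn te (tl 32768)) te))) (tn (tn te (tn (tn te (tl 16385)) (tn (tl 144123984437313536) te))) (tn (tn (tn (tl 2361327361021213409280) (tl 2)) (tn (tl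 536903682) te)) (tn (tn (tl 1) (tl 16384)) te)))) (tn (tn (tn (tn (tn (tl 5192296858537188811771931151826944) te) te) (tn te (tn (tl 1180591629513772777473) te))) (tn (tn (tn te (tl 2)) te) te)) (tn (tn te (tn (tn te (tl 2)) te)) (tn (tn (tn (tl 100433627766186892221372630771322662659998870352859374813184) te) (tn (tl 144119586122383360) te)) (tn (tn (tl 2) (tl 16385)) te))))) (tn (tn (tn (tn te (tn te (tn (tl 144119586659254273) te))) (tn (tn (tn (tl 38686806819293249585315841) te) (tn (tl 72061992621342722) (tl 2))) te)) (tn (tn te (tn (tn te (tl 16384)) te)) (tn (tn (tn (tl 268468224) (tl 1)) (tn (tl 144119586659254272) te)) (tn (tn (tl 2) te) te)))) (tn (tn (tn (tn (tn (tl 1393796574908163946348343575281957416730624) te) te) (tn te (tn (tl 4398046511106) te))) (tn (tn (tn (tl 38685626299730125675053057) (tl 2)) te) (tn (tn te (tl 2)) te))) (tn (tn (tn te (tn (tl 72061992621326338) te)) (tn (tn te (tl 32770)) te)) (tn (tn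 (tn (tl 118585573831932136371700009646782631985801020764723719928726376182811790934032386) te) (tn (tl 72066390667853825) te)) (tn (tn (tl 1) (tl 16384)) te))))))) (tn (tn (tn (tn (tn (tn (tn (tn (tl 2) te) (tn (tl 2) (tl 32768))) (tn te (tn (tl 144123984705748994) te))) (tn (tn te (tn (tl 72057594574798848) te)) (tn (tn te (tl 1)) te))) (tn (tn te (tn te (tn (tl 144115188344324096) te))) (tn (tn (tn (tl 1180735740304070574080) (tl 1)) (tn (tl 268468226) te)) te))) (tn (tn (tn (tn (tn (tl 268435458) te) te) (tn te (tn (tl 38686806891355241132883969) te))) (tn (tn (tn te (tl 1)) te) te)) (tn (tn te (tn (tn te (tl 32768)) te)) (tn (tn (tn (tl 8543948143683640329580086824732128351745119369015945109962205692636153191967643345054055568244736) te) (tn (tl 72066390399385601) te)) (tn (tn (tl 1) (tl 32769)) te))))) (tn (tn (tn (tn (tn (tn (tl 16386) te) te) (tn te (tn (tl 144115188075872256) te))) (tn (tn (tn (tl 1180735740304070557697)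 (tl 1)) (tn (tl 144123984705765377) (tl 2))) te)) (tn (tn te (tn (tn te (tl 32769)) te)) (tn (tn (tn (tl 2361327356623435350017) te) (tn (tl 72057594306363393) te)) (tn (tn te (tl 32770)) te)))) (tn (tn (tn (tn (tn (tl 5192296858534827772645684405075968) te) te) (tn te (tn (tl 72057594574798848) te))) (tn (tn (tn (tl 38686806819293249585299456) (tl 1)) te) (tn (tn te (tl 16385)) te))) (tn (tn (tn te (tn (tl 8796629925888) te)) te) (tn (tn (tn (tl 237156673210916962184374544734838775123208539134152914403665907095650863008464896) te) (tn (tl 32769) te)) (tn (tn (tl 2) te) te)))))) (tn (tn (tn (tn (tn (tn (tn (tl 72057594574798848) te) te) (tn te (tn (tl 4398583382016) te))) (tn (tn (tn (tl 38686806819293249048444929) te) (tn (tl 144115188344307712) (tl 1))) te)) (tn (tn te (tn (tn te (tl 16384)) (tn (tl 144123984705748992) te))) (tn (tn (tn (tl 144119586390802434) (tl 1)) (tn (tl 144123984705765378) te)) (tn (tn (tl 1) (tl 2))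 te)))) (tn (tn (tn (tn (tn (tl 85070591730273301492071319991532650496) te) te) (tn te (tn (tl 19345174441199486323687424) te))) (tn (tn (tn (tl 144119586122399745) (tl 2)) te) te)) (tn (tn te (tn (tn te (tl 16384)) te)) (tn (tn (tn (tl 1645504557321206042154969182557350505021421491861247996939206656) te) (tn (tl 144123984705748994) te)) (tn (tn (tl 2) te) te))))) (tn (tn (tn (tn (tn (tn (tl 268435458) te) te) (tn te (tn (tl 144119586390818817) te))) te) (tn (tn te (tn (tn te (tl 16385)) te)) (tn (tn (tn (tl 31828687130226345097944463881597401021961567435472999177732339846477483183024985138528256) (tl 2)) (tn (tl 144119586390835201) te)) (tn (tn te (tl 16386)) te)))) (tn (tn (tn (tn (tn (tl 22835963083295358096971261137419590315714543616) te) te) (tn te (tn (tl 144123984168894465) te))) (tn (tn (tn (tl 19342813257958050964176897) (tl 1)) (tn (tl 72061992084439040) te)) (tn (tn te (tl 16385)) te))) (tn (tn (tn te (tn (tl 72061992352874497)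 te)) (tn (tn te (tl 32768)) te)) (tn (tn (tn (tl 883450493981564740008555977747902509660185207100151674541882590124605440) te) (tn (tl 72066390667853824) te)) (tn (tn (tl 2) (tl 2)) te))))))))

def t6 : Tr ℕ := (tn (tn (tn (tn (tn (tn (tn (tn (tn (tl 16386) te) te) (tn (tn (tl 633844645288483838242322415618) te) te)) (tn (tn (tn (tl 1180591625115994718208) te) te) te)) (tn (tn (tn (tn (tl 316931995231354430274377089024) te) te) (tn (tn te (tl 32768)) (tn (tl 4398314979330) te))) (tn (tn te (tn (tl 72057594574798850) te)) (tn (tn te (tl 16386)) te)))) (tn (tn (tn te (tn (tn te (tl 32768)) (tn (tl 144123984705781760) te))) (tn te (tn (tn (tl 2) te) te))) (tn (tn (tn (tn te (tl 1)) (tn (tl 536887296) te)) te) (tn (tn (tn (tl 7237889027827889283270516699207316269402885013849127068854905261084572139520) te) (tn (tl 144115188612726786) te)) te)))) (tn (tn (tn (tn (tn (tn (tl 536870912) te) te) te) te) (tn (tn (tn te (tn (tl 144115188344291329)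 te)) te) (tn (tn te (tn (tl 144115188075888642) te)) (tn (tn te (tl 16384)) te)))) (tn (tn te (tn (tn (tn (tl 2361327361021481877505) te) te) (tn (tn te (tl 32768)) te))) (tn (tn (tn (tn te (tl 2)) te) te) te)))) (tn (tn (tn (tn (tn (tn (tn (tl 4398046543873) te) te) te) te) (tn (tn te (tn te (tn (tl 4398314946562) te))) (tn (tn te (tn (tl 4398046527488) te)) (tn (tn te (tl 32770)) te)))) (tn (tn (tn (tn (tn (tl 85075784027093151874207927055851454464) te) te) (tn (tn te (tl 2)) (tn (tl 144115188612726785) te))) te) (tn (tn (tn te (tn (tl 268451841) te)) te) te))) (tn (tn (tn (tn te (tn (tn te (tl 32768)) te)) (tn te (tn (tn (tl 2) te) te))) (tn (tn (tn (tn te (tl 2)) (tn (tl 144123984705781762) te)) te) (tn (tn te (tn (tl 144119586659237888) te)) (tn (tn te (tl 1)) te)))) (tn (tn (tn (tn (tn (tl 441711766194596082395824375188517222106687619043591935668908471305109504) te) te) (tn (tn te (tl 1)) te)) (tn (tn (tn (tl 144119586659237888)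 te) te) (tn (tn te (tl 16384)) te))) (tn (tn (tn (tn (tl 72057594574815234) te) (tn te (tl 1))) te) (tn (tn (tn (tl 748288838313592445688657771988987799125365220196353) te) te) te)))))) (tn (tn (tn (tn (tn te (tn (tn (tn (tl 38685626227668133859033088) (tl 1)) te) te)) (tn (tn te (tn (tn te (tl 2)) (tn (tl 268451841) te))) (tn (tn te (tn (tl 72057594306379778) te)) (tn (tn te (tl 16384)) te)))) (tn (tn (tn te (tn (tn te (tl 2)) (tn (tl 72061992084455424) te))) (tn te (tn (tn (tl 1) te) te))) (tn (tn (tn te (tn (tl 8796629893122) te)) te) (tn (tn (tn (tl 237142198758023569873078374377121395050756678385636269781837618969328386742173696) te) (tn (tl 72057594574831618) te)) te)))) (tn (tn (tn te (tn te (tn (tn (tl 1) te) te))) (tn (tn (tn te (tn (tl 72066390399401986) te)) te) (tn (tn te (tn (tl 1) te)) (tn (tn te (tl 2)) te)))) (tn (tn (tn te (tn (tn te (tl 32768)) te)) (tn (tn (tn (tl 2361255307824953573377) te) te) (tn (tn (tl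 1) (tl 32769)) te))) (tn te (tn (tn (tn (tl 6129982186302306194949154897525105816709038050505670657) te) te) te))))) (tn (tn (tn (tn (tn (tn (tn (tl 4398046511104) te) te) te) te) (tn (tn te (tn te (tn (tl 4398046527488) te))) (tn (tn te (tn (tl 72066390667853825) te)) (tn (tn te (tl 1)) te)))) (tn (tn (tn (tn (tn (tl 1393796585292757663415637649101515252563970) te) te) (tn (tn te (tl 16384)) (tn (tl 144123984168878081) te))) (tn (tn (tn (tl 2361183250230915661825) te) te) (tn (tn (tl 1) te) te))) (tn (tn (tn (tn te (tl 1)) (tn (tl 72066390399418369) te)) te) te))) (tn (tn (tn (tn (tn (tn (tl 4398583414784) te) te) (tn (tn te (tl 2)) te)) (tn te (tn (tn (tl 1) te) te))) (tn (tn (tn (tn te (tl 1)) (tn (tl 32769) te)) te) (tn (tn (tn (tl 441738726141263233035619042200816648592736908260550095214389108806778880) te) (tn (tl 144119586122366976) te)) te))) (tn (tn (tn (tn (tn (tl 53919893334301279589334032961717481755966241453025887400256748945408)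 te) te) (tn (tn te (tl 32768)) te)) (tn (tn (tn (tl 2361327356622898479106) te) (tn (tl 8796629925889) te)) te)) (tn (tn (tn (tn (tl 1180663682710032646146) te) te) te) (tn (tn (tn (tl 6130356307884106111301732490124517514951171567412871170) te) te) te)))))))

def t7 : Tr ℕ := (tn (tn (tn (tn (tn (tn (tn (tn (tn (tl 16386) te) te) (tn (tn (tl 1393796574908163985031608619708656184721408) te) te)) (tn (tn te (tn (tl 144115188612759552) te)) (tn (tn (tl 2) (tl 16384)) te))) (tn (tn (tn (tn (tl 1393796574908797771646096506741270945726464) (tl 2)) te) te) te)) (tn (tn (tn (tn (tn te (tl 1)) te) (tn te (tn (tl 8796629893121) te))) (tn (tn (tn (tl 2361255307824953556993) te) (tn (tl 144123984705781762) te)) (tn (tn te (tl 16386)) te))) (tn te (tn (tn (tn (tl 22835963083295358096932575511336037370199801856) te) te) te)))) (tn (tn (tn te (tn (tn (tn (tl 38686806819293249585315842) te) (tn (tl 2) te)) (tn (tn (tl 2) (tl 2)) te))) (tn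 (tn (tn (tn te (tl 1)) te) (tn (tn te (tl 16385)) te)) te)) (tn (tn (tn (tn (tn (tl 1645504557321206042154969182557350504982738226816821298171215872) (tl 2)) te) (tn te (tn (tl 4398314979329) te))) (tn (tn te (tn (tl 72061992621342720) te)) te)) (tn (tn (tn te (tn (tl 144119586390818818) (tl 2))) (tn (tn (tl 2) te) te)) (tn (tn (tn (tl 118578336826300882570747611487564521280438258555333887228606406838492519651622913) te) te) te))))) (tn (tn (tn (tn (tn (tn (tn te (tl 1)) te) te) (tn (tn (tn (tl 19345174441195088008724482) te) (tn (tl 72061992084439041) te)) (tn (tn (tl 2) (tl 32769)) te))) (tn (tn (tn (tn te (tl 2)) te) (tn (tn te (tl 16386)) te)) te)) (tn (tn (tn (tn (tn (tl 5192296858537188811771931151826944) te) te) (tn te (tn (tl 268435458) te))) (tn (tn (tn (tl 1180735740304070541312) te) (tn (tl 72057594037927936) te)) (tn (tn te (tl 16385)) te))) (tn (tn (tn te (tn te (tl 2))) (tn (tn te (tl 16386)) te)) (tn (tn (tn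 (tl 237156673210916958893365430092426690813270174019451904438196537011732571133853696) te) te) te)))) (tn (tn (tn (tn (tn (tn (tl 72066390399385600) (tl 1)) te) te) (tn (tn (tn (tl 2361255303427175514112) te) (tn (tl 72061992352874496) te)) te)) (tn (tn te (tn (tn te (tl 16384)) te)) te)) (tn (tn (tn (tn (tn te (tl 2)) te) (tn te (tn (tl 144123984437313536) te))) (tn (tn te (tn (tl 8796361457666) te)) te)) (tn (tn (tn te (tn (tl 268435457) te)) (tn (tn (tl 2) (tl 2)) te)) te))))) (tn (tn (tn (tn (tn (tn (tn (tn (tl 2) te) te) te) (tn (tn te (tn (tl 72066390130950144) te)) te)) te) (tn (tn (tn (tn (tn te (tl 2)) te) (tn te (tn (tl 8796629909504) te))) (tn (tn (tn (tl 1180591620717679755264) te) (tn (tl 72061992084471809) te)) (tn (tn te (tl 1)) te))) (tn (tn (tn te (tn te (tl 1))) te) (tn (tn (tn (tl 374144419156711147060143317177729636273353553608704) te) te) te)))) (tn (tn (tn (tn (tn (tn (tl 268468224) te) te) te) (tn (tn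 (tn (tl 38686806819288851538804738) te) (tn (tl 144123984168910848) te)) (tn (tn te (tl 16385)) te))) (tn (tn (tn (tn te (tl 2)) te) (tn (tn te (tl 32770)) te)) te)) (tn (tn (tn (tn (tn (tl 22835963083295358730757875625306622930475548672) (tl 1)) te) (tn te (tn (tl 144115188612759553) te))) (tn (tn te (tn (tl 4398046511104) te)) te)) (tn (tn (tn te (tn (tl 4398046527490) (tl 2))) (tn (tn (tl 2) (tl 32768)) te)) te)))) (tn (tn (tn (tn (tn (tn (tn (tl 72057594574798848) (tl 1)) te) te) (tn (tn (tn (tl 38686806963404039346208769) te) (tn (tl 4398583382016) te)) (tn (tn te (tl 2)) te))) (tn (tn (tn (tn (tl 1) (tl 2)) te) te) te)) (tn (tn (tn (tn (tn (tl 85070591730273301492071319991532650496) (tl 2)) te) (tn te (tn (tl 4398046511105) te))) (tn te (tn (tn te (tl 16386)) te))) (tn (tn te (tn (tn (tl 1) (tl 16386)) te)) (tn (tn (tn (tl 118578337268039612002819104169653456517492190800170148565990859479720915634257920) te) te) te))))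 (tn (tn (tn (tn (tn (tn te (tl 2)) te) te) (tn (tn (tn (tl 2361183241435359477761) te) (tn (tl 72061992084471809) te)) te)) (tn (tn te (tn (tn te (tl 16386)) te)) (tn (tn (tn (tl 1393796574908163946345982392049318687145984) te) te) te))) (tn (tn (tn te (tn te (tn (tl 4398583382018) te))) te) (tn (tn (tn te (tn (tl 72057594306396160) te)) (tn (tn (tl 2) (tl 2)) te)) te))))))

def t8 : Tr ℕ := (tn (tn (tn (tn (tn (tn (tn (tn (tn (tl 16386) (tl 1)) te) (tn (tn (tl 2787678230793285689022774296570145758265344) te) te)) (tn (tn (tn (tl 38685626371783322203357184) te) (tn (tl 144115188075872258) te)) (tn (tn te (tl 32768)) te))) (tn (tn (tn (tn (tl 6129982163463555518514364432572265068689512202223222784) te) te) (tn (tn te (tl 2)) te)) (tn te (tn te (tn (tl 2) te))))) (tn (tn (tn te (tn te (tn (tl 4398583398402) te))) te) (tn (tn (tn te (tn (tl 72057594037927936) (tl 2))) (tn (tn (tl 1) (tl 16384)) te)) (tn (tn (tn (tl 7237005577333907718542767733412076321048949737012770748927969235721965797377)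 te) te) te)))) (tn (tn (tn (tn (tn (tn (tl 72066390667837440) te) te) te) (tn (tn (tn (tl 72057594574798850) te) (tn (tl 72057594574815232) te)) te)) (tn (tn (tn te (tn (tl 72061992352874498) (tl 2))) (tn (tn te (tl 16386)) te)) (tn te (tn te (tn (tl 2) te))))) (tn (tn (tn (tn (tn (tl 441711766194796955781338912433727807656994025003993938191352819313803264) te) te) (tn te (tn (tl 4398314979330) te))) te) (tn (tn (tn te (tn (tl 8796361474049) te)) te) (tn (tn (tn (tl 12260338494185018339539987743121903129258048830274830336) te) te) (tn te (tn (tl 1) te))))))) (tn (tn (tn (tn te (tn (tn (tn (tl 144115188344307713) te) (tn (tl 72057594574815232) te)) (tn (tn te (tl 16385)) te))) (tn (tn (tn (tn (tl 1) te) te) (tn (tn (tl 2) (tl 16384)) te)) (tn te (tn te (tn (tl 1) te))))) (tn (tn (tn (tn (tn (tl 374167255119794447610537146973694684394165597372416) te) te) (tn (tn te (tl 2)) (tn (tl 144115188344291328) te))) te) (tn (tn (tn te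 (tn (tl 72061992621326338) te)) (tn (tn te (tl 32769)) te)) (tn (tn (tn (tl 12259964372600430830042785168731042490238162283876319234) te) te) (tn te (tn (tl 2) te)))))) (tn (tn (tn (tn te (tn (tn te (tl 2)) te)) (tn (tn (tn (tl 1180663678311449264130) te) (tn (tl 72061992084439041) te)) te)) (tn (tn (tn te (tn (tl 72066390399401986) te)) (tn (tn (tl 2) (tl 16384)) te)) te)) (tn (tn (tn te (tn (tn te (tl 32769)) (tn (tl 4398314979329) te))) te) (tn (tn (tn (tn (tl 1180735744702117085186) te) (tn (tl 144115188612726785) te)) (tn (tn te (tl 32769)) te)) te))))) (tn (tn (tn (tn (tn (tn (tn (tn (tl 4398046511104) (tl 1)) te) te) (tn (tn (tn (tl 38685626371792118027943938) te) (tn (tl 144119586390802432) te)) (tn (tn te (tl 16386)) te))) (tn (tn te (tn (tn (tl 1) (tl 16386)) te)) te)) (tn (tn (tn te (tn (tn te (tl 32768)) (tn (tl 144119586659270657) te))) (tn te (tn te (tn (tl 2) te)))) (tn (tn (tn te (tn (tl 144119586122399745)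 te)) (tn (tn (tl 1) (tl 32768)) te)) (tn (tn (tn (tl 237156673210916958893164556707286275149859334680539630588629326747038125020692480) te) te) (tn te (tn (tl 2) te)))))) (tn (tn (tn (tn (tn (tn (tl 144123984705781761) te) te) te) (tn (tn (tn (tl 2361255303427443933184) te) (tn (tl 8796629893122) te)) te)) (tn (tn (tn te (tn (tl 268435458) (tl 1))) (tn (tn (tl 2) (tl 1)) te)) te)) (tn (tn (tn (tn (tn (tl 3291109560530142598130664486257748444011564686139880907300962304) te) te) (tn te (tn (tl 268435456) te))) te) (tn (tn (tn te (tn (tl 72066390667821057) te)) (tn (tn te (tl 32770)) te)) (tn te (tn te (tn (tl 2) te))))))) (tn (tn (tn (tn (tn (tn (tn (tl 19342813113834066795298816) te) te) te) (tn (tn (tn (tl 72061992621326336) te) (tn (tl 4398583414786) te)) te)) (tn (tn (tn te (tn te (tl 2))) (tn (tn te (tl 32770)) te)) te)) (tn (tn (tn (tn (tn (tl 6129982209135481600024104302466387756858800852982300674) te) te) (tn (tn te (tl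 16386)) (tn (tl 144115188344324098) te))) te) (tn (tn (tn te (tn (tl 72061992621309953) te)) (tn (tn te (tl 32769)) te)) (tn (tn (tn (tl 748288838313507364712333800959472992957730681536514) te) te) (tn te (tn (tl 1) te)))))) (tn (tn (tn (tn te (tn (tn te (tl 2)) te)) te) (tn (tn (tn te (tn (tl 72061992084455425) te)) (tn (tn (tl 1) (tl 16384)) te)) (tn (tn (tn (tl 14474452866432364528586090156549003894315083814163806974159889440997592023042) te) te) te))) (tn (tn (tn te (tn (tn (tl 2) (tl 32769)) (tn (tl 4398583398401) te))) (tn te (tn te (tn (tl 1) te)))) (tn (tn (tn (tn (tl 536903682) te) (tn (tl 144123984705765376) te)) (tn (tn te (tl 16384)) te)) te))))))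

def t9 : Tr ℕ := (tn (tn (tn (tn (tn (tn (tn (tn (tn (tl 268435458) te) te) (tn (tn (tl 2787763301385015923637459548601286289014784) te) te)) (tn (tn (tn (tl 19342813185896059416641538) te) (tn (tl 72061992352890881) te)) (tn (tn te (tl 32769)) te))) (tn (tn (tn (tn (tl 6130356307882712144590832845654824571298892263012171776) te) te) (tn (tn (tl 1) te) te)) (tn te (tn te (tn (tl 2) te))))) (tn (tn (tn te (tn te (tn (tl 536870914) te))) te) (tn (tn (tn te (tn (tl 4398314946560) (tl 1))) (tn (tn te (tl 32770)) te)) (tn (tn (tn (tl 14474011154666169932515954296455070561793253186885071385528224584358594347009) te) te) (tn te (tn (tl 1) te)))))) (tn (tn (tn (tn (tn (tn (tl 144119586659254272) te) te) te) (tn (tn (tn (tl 2361327361021213425664) te) (tn (tl 72057594037927938) te)) te)) (tn (tn (tn te (tn (tl 144123984437346306) (tl 2))) (tn (tn (tl 1) te) te)) (tn te (tn te (tn (tl 1) te))))) (tn (tn (tn (tn (tn (tl 441711766194796955781713056852884518798861871462634479015854241715585024)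 te) te) (tn te (tn (tl 4398046543872) te))) te) (tn (tn (tn te (tn (tl 8796361457665) te)) (tn (tn te (tl 32770)) te)) (tn (tn (tn (tl 12260338494185018339529603149404833474000987837616373760) te) te) (tn te (tn (tl 1) te))))))) (tn (tn (tn (tn te (tn (tn (tn (tl 1180735744701848649730) te) (tn (tl 72057594037944320) te)) (tn (tn te (tl 32768)) te))) (tn (tn (tn (tn (tl 2) te) te) (tn (tn (tl 2) (tl 2)) te)) (tn te (tn te (tn (tl 2) te))))) (tn (tn (tn (tn (tn (tl 26959946667150639794689851050102931224030974220866803843350476619776) te) te) (tn (tn te (tl 2)) (tn (tl 72066390399385601) te))) (tn te (tn te (tn (tl 1) te)))) (tn (tn (tn te (tn (tl 536870914) te)) (tn (tn te (tl 16386)) te)) (tn (tn (tn (tl 12259964372600430830042785168750385303351996350671618049) te) te) te)))) (tn (tn (tn (tn te (tn (tn te (tl 2)) te)) (tn (tn (tn (tl 2361255299028860567553) te) (tn (tl 144119586390835201) te)) te)) (tn (tn (tn te (tn (tl 72066390130966528)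 te)) te) te)) (tn (tn (tn te (tn (tn te (tl 32770)) (tn (tl 16384) te))) te) (tn (tn (tn (tn (tl 38685626227676929952071682) te) (tn (tl 144115188075855873) te)) (tn (tn te (tl 16384)) te)) te))))) (tn (tn (tn (tn (tn (tn (tn (tn (tl 4398314979328) (tl 2)) te) te) (tn (tn (tn (tl 2361327356623166930946) te) (tn (tl 144123984705765376) te)) (tn (tn te (tl 16384)) te))) (tn (tn (tn (tn (tl 1) te) te) (tn (tn te (tl 32768)) te)) (tn te (tn te (tn (tl 2) te))))) (tn (tn (tn te (tn (tn te (tl 32768)) (tn (tl 72057594574831618) te))) (tn te (tn te (tn (tl 2) te)))) (tn (tn (tn te (tn (tl 144123984705748992) te)) (tn (tn (tl 1) te) te)) (tn (tn (tn (tl 14474452893390665691179409493439864968609510399591489474212306791512923979776) te) te) te)))) (tn (tn (tn (tn (tn (tn (tl 1180663687108079157249) te) te) te) (tn (tn (tn (tl 2361255299029129003008) te) (tn (tl 8796361490432) te)) te)) (tn (tn (tn te (tn (tl 144123984705748994) (tl 2)))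 (tn (tn te (tl 32770)) te)) (tn te (tn te (tn (tl 2) te))))) (tn (tn (tn (tn (tn (tl 3291109548270178271203553534320380496574475351346316071890092032) te) te) (tn te (tn (tl 8796361490433) te))) (tn te (tn te (tn (tl 2) te)))) (tn (tn (tn te (tn (tl 536870914) te)) (tn (tn te (tl 16385)) te)) te)))) (tn (tn (tn (tn (tn (tn (tn (tl 19343993705463580299624448) te) te) te) (tn (tn (tn (tl 8796093054978) te) (tn (tl 72057594306363394) te)) te)) (tn (tn (tn te (tn te (tl 2))) (tn (tn te (tl 32770)) te)) (tn te (tn te (tn (tl 1) te))))) (tn (tn (tn (tn (tn (tl 441711766194596082395824420857655795547587168084055761914245914571046914) te) te) (tn (tn te (tl 1)) (tn (tl 72066390667821057) te))) (tn te (tn te (tn (tl 1) te)))) (tn (tn (tn te (tn (tl 144115188344324096) te)) (tn (tn te (tl 32769)) te)) (tn (tn (tn (tl 6130730475140619702313866597481422362401407769511985154) te) te) (tn te (tn (tl 1) te)))))) (tn (tn (tn (tn te (tn (tn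 te (tl 2)) te)) te) (tn (tn (tn te (tn (tl 72066390130950145) te)) (tn (tn (tl 2) (tl 2)) te)) (tn (tn (tn (tl 14474894578198559124668485980924189623944035492841167344071791312051585957890) te) te) (tn te (tn (tl 1) te))))) (tn (tn (tn te (tn (tn (tl 1) (tl 32769)) (tn (tl 4398314979329) te))) te) (tn (tn (tn (tn (tl 38685626371787719981400064) te) (tn (tl 144119586122399744) te)) (tn (tn te (tl 16384)) te)) (tn te (tn te (tn (tl 2) te)))))))))

def t10 : Tr ℕ := (tn (tn (tn (tn (tn (tn (tn (tn (tn (tl 4398583382017) te) (tn (tl 268468224) te)) (tn (tn te (tl 16386)) (tn (tl 72057594306363392) te))) (tn (tn te (tn (tl 38685626371783321934888960) te)) (tn (tn (tl 72061992352907264) te) te))) (tn (tn (tn (tn (tl 268435456) (tl 32769)) (tn (tl 72057594574815233) (tl 1))) te) (tn (tn (tn (tl 7237889054784544740451518513788833224752447119914116948928047179536218996736) (tl 16386)) (tn (tl 8796629909506) te)) (tn (tn (tl 72066390130950144)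 te) te)))) (tn (tn (tn (tn (tn (tl 45671926166590716510777801079441194738423693312) te) (tn (tl 8796361490432) te)) te) (tn (tn (tn (tl 19342813113834066795298818) (tl 2)) (tn (tl 536887297) te)) (tn te (tn (tl 1) te)))) (tn (tn (tn (tn (tl 1180735744702117085186) te) te) te) (tn (tn (tn (tl 19342813113834066795298816) (tl 16384)) (tn (tl 32768) te)) (tn (tn (tl 72061992352874497) te) te))))) (tn (tn (tn (tn (tn te (tn (tl 16384) te)) (tn (tn te (tl 32770)) (tn (tl 4398314946560) te))) (tn (tn (tn (tl 1042994250513293136939029231418818000183883918480183880368979516275976808484453286892049301505) (tl 16385)) (tn (tl 38685626299725727628541953) te)) (tn (tn (tl 268468225) te) te))) (tn (tn (tn (tn (tl 144115188612759554) (tl 32769)) te) te) (tn (tn (tn (tl 118585574273589981027457239572167893195779694393505152988766017616307519758548992) (tl 16385)) (tn (tl 16386) te)) (tn (tn (tl 4398046543873) te) te)))) (tn (tn (tn (tn (tn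 (tl 633825300114114700748620054528) (tl 16386)) (tn (tl 72066390399401986) te)) (tn (tn (tl 2) te) te)) (tn (tn (tn (tl 12260338494185018254464203082222796315304558519505666049) (tl 32768)) (tn (tl 144119586390818817) te)) te)) (tn (tn (tn (tn (tl 1180735744702117085185) te) (tn (tl 19345174441199486055235585) te)) (tn (tn (tl 72066390130950145) te) te)) (tn (tn (tn (tl 1180591620717411303426) (tl 32768)) (tn (tl 268468224) te)) (tn (tn (tl 4398046527489) te) te)))))) (tn (tn (tn (tn (tn (tn (tn (tl 536870912) (tl 2)) (tn (tl 72066390399418368) te)) (tn (tn te (tl 32770)) (tn (tl 72057594574798848) te))) (tn (tn (tn (tl 1042994252455724894203447621790048082556548179385764877752830127520459445398803088606530404352) te) (tn (tl 19343993777521174337568769) te)) (tn (tn (tl 8796629925889) te) te))) (tn (tn (tn (tn te (tl 16386)) te) te) (tn (tn (tn (tl 118571099820777473492877066482967223556208293579125727833362704165759796119601154)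 te) (tn (tl 4398314979329) te)) (tn (tn (tl 144115188075872257) te) te)))) (tn (tn (tn (tn (tn (tl 316912652418240591808998424576) te) (tn (tl 2) te)) (tn (tn (tl 2) te) te)) (tn (tn (tn (tl 118585573390193411875941346192708103284827421249242154146581380367780168660451330) (tl 16386)) (tn (tl 4398583382018) te)) te)) (tn (tn (tn (tn (tl 2361327361021213442049) te) te) (tn (tn (tl 72061992352874497) te) te)) (tn (tn (tn (tl 748288838313422294120286634351917497688952919818240) (tl 16384)) (tn (tl 72066390667853824) te)) (tn (tn (tl 16384) te) te))))) (tn (tn (tn (tn (tn (tn (tl 10384593717069655329118586696368128) (tl 32770)) (tn (tl 144123984437329920) te)) (tn te (tn (tl 8796361490434) te))) (tn (tn (tn (tl 1042994250513293136939029231418818000183883918480183880368979516275976809665044907609460604929) (tl 2)) (tn (tl 2361183250230915629058) te)) (tn te (tn (tl 1) te)))) (tn te (tn (tn (tn (tl 237149436647051394471252096622519920739177563367071743625790272501823257494716418)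 (tl 32770)) (tn (tl 4398046527490) te)) (tn (tn (tl 144115188075855872) te) te)))) (tn (tn (tn (tn (tn (tl 633825300114114700748620054528) (tl 1)) (tn (tl 144115188075855872) (tl 1))) (tn (tn (tl 2) te) te)) (tn (tn (tn (tl 748288839707303944812477712534219661637557413740544) (tl 1)) (tn (tl 8796093054976) te)) te)) (tn (tn (tn te (tn (tl 19342813113838465378697216) te)) (tn (tn (tl 8796361490434) te) te)) (tn (tn (tn (tl 1393796574908163985033969947065279351635968) (tl 16384)) (tn (tl 144119586390818816) te)) (tn (tn (tl 144115188612743170) te) te))))))) (tn (tn (tn (tn (tn (tn (tn (tn (tl 536870912) te) (tn (tl 144115188612743169) te)) (tn (tn te (tl 32770)) (tn (tl 72057594574815232) te))) (tn (tn te (tn (tl 19343993777516776559493120) te)) (tn (tn (tl 72061992084455426) te) te))) (tn (tn (tn (tn te (tl 32770)) te) te) (tn (tn (tn (tl 441711769485806070424499331253905931792522995992312028825422493019815936) (tl 32768)) (tn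 (tl 8796629909505) te)) (tn (tn (tl 268451840) te) te)))) (tn (tn (tn (tn (tn (tl 45671926166590716193884493835497678431043190784) (tl 2)) (tn (tl 72061992084471810) te)) te) (tn (tn (tn (tl 118571099379011785759241252100084623260273165358946915258981133573967961672122369) (tl 32768)) (tn (tl 8796629893121) te)) te)) (tn (tn (tn (tn (tl 19342813257958051501047810) te) te) te) (tn (tn (tn (tl 1180591625115994685440) (tl 32769)) (tn (tl 268468225) te)) (tn (tn (tl 144123984705748992) te) te))))) (tn (tn (tn (tn (tn (tn (tl 1393796574908163985031608691766250222649345) (tl 32768)) (tn (tl 144119586659254272) te)) (tn (tn te (tl 1)) (tn (tl 72057594574798848) te))) (tn (tn (tn (tl 139984046907657634361185388861282906169495206197588999466719136438118740829609705240624599590567428096) (tl 1)) (tn (tl 1180735735905755627521) te)) (tn te (tn (tl 1) te)))) (tn (tn (tn (tn te (tl 2)) te) te) (tn (tn (tn (tl 118585573831932134726295885953716875470283755394488487099358120533203437989429249)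 (tl 16384)) (tn (tl 8796361474049) te)) (tn (tn (tl 72066390399418369) te) te)))) (tn (tn (tn (tn (tn te (tl 16384)) (tn (tl 268435457) (tl 1))) te) (tn (tn (tn (tl 1393966726476535083984233213044456582840320) (tl 32770)) (tn (tl 144115188344324096) te)) te)) (tn (tn (tn (tn (tl 2361183245833405988866) te) (tn (tl 1180735744702117068802) te)) (tn (tn (tl 72057594037960705) te) te)) (tn (tn (tn (tl 2787763290999788400609322771110489237766144) te) (tn (tl 144119586122366976) te)) (tn (tn (tl 144123984437329920) te) te)))))) (tn (tn (tn (tn (tn (tn (tn (tl 16384) (tl 16384)) (tn (tl 4398314946562) te)) (tn (tn te (tl 32770)) (tn (tl 8796361490434) te))) (tn (tn (tn (tl 140001134803945001641963134609205906487332518073735937188171488625585347182040258776120564909642612737) te) (tn (tl 2361255307825490444290) te)) (tn (tn (tl 144123984168894465) te) (tn (tl 1) te)))) (tn (tn (tn (tn (tl 72066390667853826) (tl 2)) (tn (tl 144119586122366976)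 te)) te) (tn (tn (tn (tl 118585573831932134726295885953716875470283755394488487099358120533203437989429249) (tl 32769)) (tn (tl 268468225) te)) (tn (tn (tl 16384) te) te)))) (tn (tn (tn (tn (tn (tl 4398046511104) (tl 32770)) (tn (tl 144119586659237889) te)) (tn (tn (tl 2) te) te)) (tn (tn (tn (tl 22835963083305743007581638036620176412114944002) (tl 16384)) (tn (tl 144123984705765376) te)) te)) (tn (tn (tn (tn (tl 2361327356623166914562) te) te) (tn (tn (tl 2) te) te)) (tn (tn (tn (tl 2361255299028860534785) (tl 32769)) (tn (tl 16385) te)) (tn (tn (tl 144119586659254273) te) te))))) (tn (tn (tn (tn (tn (tn (tl 1393796574908163985031608691766250222649345) (tl 1)) (tn (tl 144123984705781760) te)) (tn te (tn (tl 144115188075855873) te))) (tn (tn (tn (tl 118578336826327845808423882899005147232099451014884520251732658639062125779091458) (tl 16384)) (tn (tl 144119586390835200) te)) (tn te (tn (tl 1) te)))) (tn (tn (tn (tn (tl 19345174369137494239248385)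 te) te) te) (tn (tn (tn (tl 22835963083305742690649645166521040768820314112) (tl 16386)) (tn (tl 8796093038592) te)) (tn (tn (tl 144123984437313537) te) te)))) (tn (tn (tn (tn (tn te (tl 16384)) (tn (tl 72061992084471810) (tl 1))) te) (tn (tn (tn (tl 748288839707218874220747458574360112526517487026177) (tl 16386)) (tn (tl 8796093054976) te)) te)) (tn (tn (tn te (tn (tl 38685626227676929683652610) te)) (tn (tn (tl 144123984705765377) te) te)) (tn (tn (tn (tl 170151568371118295437851293851630714882) (tl 32768)) (tn (tl 16386) te)) (tn (tn (tl 8796361474050) te) te))))))))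

def t11 : Tr ℕ := (tn (tn (tn (tn (tn (tn (tn (tn (tn (tl 8796361474048) te) (tn (tl 536870914) te)) (tn te (tn (tl 144119586122383361) te))) (tn (tn te (tn (tl 38686806963408437392736257) te)) (tn (tn (tl 144119586659237890) te) te))) (tn (tn (tn (tn (tl 4398046511104) te) (tn (tl 144119586390802433) te)) te) (tn (tn (tn (tl 118585574273589981027457245702150102334048887567426100279839790022003372404506625) (tl 32768)) (tn (tl 4398314962944) te)) (tn (tn (tl 72066390399385601) te) te)))) (tn (tn (tn (tn (tn (tl 22835963083295358730757875625306627328522059777) (tl 32769)) (tn (tl 72066390667837441) te)) te) (tn (tn (tn (tl 883450495626968863701995878681182774683549377154706203923236603117436929) (tl 32770)) (tn (tl 144119586659237888) te)) (tn te (tn (tl 1) te)))) (tn (tn (tn (tn (tl 38686806891355241401303040) te) te) te) (tn (tn (tn (tl 5192296897220453856198629919817728) (tl 2)) (tn (tl 4398583398401) te)) (tn (tn (tl 8796361457665)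 te) te))))) (tn (tn (tn (tn (tn (tn te (tl 16384)) (tn (tl 72061992621342722) te)) (tn (tn te (tl 2)) (tn (tl 8796093054978) te))) (tn (tn (tn (tl 279968092772225526319680292308944589549750528039477471792553551290460282443501156878176200244127088642) (tl 2)) (tn (tl 72061992352890882) te)) (tn (tn (tl 144119586390835202) te) te))) (tn (tn (tn (tn (tl 38685626371783321666486272) (tl 1)) te) te) (tn (tn (tn (tl 441711769485806064294143023373981295296491638590513213649639602267357185) (tl 16384)) (tn (tl 4398583398401) te)) (tn (tn (tl 72066390399418369) te) te)))) (tn (tn (tn (tn (tn (tl 316912651237648971092123975680) (tl 1)) (tn (tl 4398314946560) te)) te) (tn (tn (tn (tl 6130356307885499907881833267861392375734547745255456769) (tl 16386)) (tn (tl 72061992352907264) te)) te)) (tn (tn (tn (tn (tl 1180663687107810721792) te) (tn (tl 38686806819293249316864001) te)) (tn (tn (tl 72066390130966529) te) te)) (tn (tn (tn (tl 22835963083295358096932575511191922182123945985)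 (tl 1)) (tn (tl 72066390130982914) te)) (tn (tn (tl 4398046527488) te) te)))))) (tn (tn (tn (tn (tn (tn (tn (tl 268451840) te) (tn (tl 8796361474049) te)) (tn (tn te (tl 16385)) (tn (tl 144123984437346304) te))) (tn (tn (tn (tl 279968092772225526319680285071055534765205687154331191862500031417059276655202876623372622240998752256) te) (tn (tl 16386) te)) (tn (tn (tl 4398314962944) te) te))) (tn (tn (tn (tn te (tl 1)) (tn (tl 536903680) te)) te) (tn (tn (tn (tl 237149436647051396116555786688567733531648390030347804727692881322390766588297218) (tl 32770)) (tn (tl 8796361457665) te)) (tn (tn (tl 4398314946562) te) te)))) (tn (tn (tn (tn (tn (tl 633825301294778379059800834048) te) (tn (tl 144115188344291330) te)) (tn (tn (tl 1) te) te)) (tn (tn (tn (tl 237142199641474062208937695938546975900858219222256820408727059558808374902521856) (tl 16386)) (tn (tl 8796629893122) te)) te)) (tn (tn (tn (tn (tl 1180591620717411303425) te) te)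 (tn (tn (tl 4398314979330) te) te)) (tn (tn (tn (tl 374144419156796217651873551793595479925211495661568) (tl 32768)) (tn (tl 72057594037944320) te)) (tn (tn (tl 72057594306363392) te) te))))) (tn (tn (tn (tn (tn (tn (tl 5192296858534827772645684673511425) (tl 16386)) (tn (tl 72066390667821058) te)) (tn te (tn (tl 72066390130950144) te))) (tn (tn (tn (tl 521544871201345246325755138786892362614293421372004868397873452608302062256861138532352163842) te) (tn (tl 38687987482967162719567874) te)) (tn te (tn (tl 2) te)))) (tn te (tn (tn (tn (tl 118578336384643036269485830370581191289356839720698525454108430259322210723332097) (tl 1)) (tn (tl 16386) te)) (tn (tn (tl 8796361474050) te) te)))) (tn (tn (tn (tn (tn (tl 316912651237648971092123975680) (tl 16384)) (tn (tl 4398583382016) (tl 2))) (tn (tn (tl 2) te) te)) (tn (tn (tn (tl 22835963083300550393791112700147809301888532482) (tl 32770)) (tn (tl 144123984437313536) te)) te)) (tn (tn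 (tn te (tn (tl 38686806963404039077789696) te)) (tn (tn (tl 72066390130982914) te) te)) (tn (tn (tn (tl 170151568371118295437707178663554859010) (tl 16385)) (tn (tl 4398314979329) te)) (tn (tn (tl 144119586659237889) te) te))))))) (tn (tn (tn (tn (tn (tn (tn (tn (tl 268451840) te) (tn (tl 8796361457666) te)) (tn (tn te (tl 2)) (tn (tl 144123984168878080) te))) (tn (tn te (tn (tl 19345174297075502154809346) te)) (tn (tn (tl 72061992352890881) te) te))) (tn (tn (tn (tn te (tl 32769)) (tn (tl 144119586659270656) (tl 1))) te) (tn (tn (tn (tl 237142198758023568227573817056289497313550240248870006934965435737393718485876736) (tl 2)) (tn (tl 536887296) te)) (tn (tn (tl 144115188612759552) te) te)))) (tn (tn (tn (tn (tn (tl 22835963083295358096971261137491647909752471553) (tl 32768)) (tn (tl 144123984705781761) te)) te) (tn (tn (tn (tl 237142199199762294368837056221516558560159407708035024313779210379244263719337984) (tl 2)) (tn (tl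 72057594306363393) te)) te)) (tn (tn (tn (tn (tl 2361327365419528355842) te) te) te) (tn (tn (tn (tl 85070591730234615865843660654303510528) (tl 1)) (tn (tl 4398583414786) te)) (tn (tn (tl 72061992621342722) te) te))))) (tn (tn (tn (tn (tn (tn (tl 2787593149816327912034778042030300327837696) (tl 16384)) (tn (tl 72066390399418370) te)) (tn (tn te (tl 32770)) (tn (tl 72066390667837442) te))) (tn (tn (tn (tl 279968093815219776832973422010084766184023687350475074669611022482754001094176514376717623335179026433) (tl 1)) (tn (tl 72066390667853826) te)) (tn te (tn (tl 2) te)))) (tn te (tn (tn (tn (tl 237156673210890000592001963387949384284603650529229711067091327153570440221294594) (tl 32768)) (tn (tl 32769) te)) (tn (tn (tl 144123984705781762) te) te)))) (tn (tn (tn (tn (tn (tl 19342813113834067063734272) (tl 16385)) te) te) (tn (tn (tn (tl 5192613771186065277510384009379842) (tl 16385)) (tn (tl 16385) te)) te)) (tn (tn (tn (tn (tl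 2361183245833137569794) te) (tn (tl 1180735744701848633344) te)) (tn (tn (tl 72061992621309954) te) te)) (tn (tn (tn (tl 85075784027112494687249703529145696257) (tl 32769)) (tn (tl 72061992352874497) te)) (tn (tn (tl 144123984705765376) te) te)))))) (tn (tn (tn (tn (tn (tn (tn (tl 268435456) (tl 2)) (tn (tl 8796629925889) te)) (tn (tn te (tl 16384)) (tn (tl 72066390667837442) te))) (tn (tn (tn (tl 139984046386112767045296512560817787436359618815007144776548899319656787868646872755174966185074622465) te) (tn (tl 144123984168894464) te)) (tn (tn (tl 4398314979330) te) (tn (tl 2) te)))) (tn (tn (tn (tn (tl 38687987410913966996619265) (tl 32769)) (tn (tl 72066390130966528) te)) te) (tn (tn (tn (tl 118585574273643902566296104302197166843521892297521359150642012752415735469342722) (tl 1)) (tn (tl 8796361490433) te)) (tn (tn (tl 144115188075888642) te) te)))) (tn (tn (tn (tn (tn (tl 1180591629513772761088) (tl 32768)) (tn (tl 72057594306396161)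 te)) (tn (tn (tl 2) te) te)) (tn (tn (tn (tl 6130356330721462821030814973640900032832252257050329090) (tl 32768)) (tn (tl 72057594037927936) te)) te)) (tn (tn (tn (tn (tl 2361327361021213442049) te) te) (tn (tn (tl 144115188344324097) te) te)) (tn (tn (tn (tl 1393796574908163946347162983661240005427202) (tl 32769)) (tn (tl 4398046527489) te)) (tn (tn (tl 8796361457664) te) te))))) (tn (tn (tn (tn (tn (tn (tl 2787593149816327912034778042030300327837696) (tl 2)) (tn (tl 72057594574798849) te)) (tn te (tn (tl 72057594574798848) te))) (tn (tn (tn (tl 118571100262489238041968585426855081447742919305086880055914618624549415815249920) (tl 16386)) (tn (tl 4398583414785) te)) (tn te (tn (tl 2) te)))) (tn (tn (tn (tn (tl 38686806819288851001917440) te) te) te) (tn (tn (tn (tl 45671926166595908807636335907069725234752913408) (tl 16386)) (tn (tl 8796093022210) te)) (tn (tn (tl 32768) te) te)))) (tn (tn (tn (tn (tn (tl 19342813113834067063734272)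 (tl 16384)) (tn (tl 72066390667853826) (tl 2))) te) (tn (tn (tn (tl 748311677064183815079372416754646768675895562469376) (tl 16386)) (tn (tl 4398046511104) te)) te)) (tn (tn (tn te (tn (tl 19343993849574370597437441) te)) (tn (tn (tl 72057594306396160) te) te)) (tn (tn (tn (tl 633863988101525610317301710848) (tl 1)) (tn (tl 144115188075855873) te)) (tn (tn (tl 72066390399401984) te) te))))))))

def t12 : Tr ℕ := (tn (tn (tn (tn (tn (tn (tn (tn (tn (tl 536870913) (tl 2)) (tn (tl 144119586122366978) te)) (tn te (tn (tl 268435457) te))) (tn (tn (tn (tl 139984046386112767045296512560817814396306285965646939443563986339282268892020110410917451230104027137) (tl 32769)) (tn (tl 4398314979328) te)) te)) (tn (tn (tn (tn (tl 268435456) te) te) (tn (tn (tl 72061992352874496) te) te)) (tn (tn (tn (tl 22835963083300551027635753266048991892183465985) (tl 16384)) (tn (tl 8796629893122) te)) (tn (tn (tl 144123984437313538) te) (tn (tl 32768)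 te))))) (tn (tn (tn (tn (tn (tl 1645504557321206042157756775707166832875427830417660908536856577) te) (tn te (tl 2))) (tn (tn (tl 2) te) te)) (tn (tn (tn te (tl 2)) te) (tn (tn (tl 72061992084455425) te) te))) (tn (tn (tn (tn (tl 1180735744701580214272) (tl 32768)) (tn (tl 38685626371792117759492098) te)) (tn (tn (tl 72057594306396161) te) te)) (tn (tn (tn (tl 316912652418240591808998408193) te) (tn (tl 8796629909504) te)) (tn (tn (tl 72061992352874497) te) (tn (tl 32768) te)))))) (tn (tn (tn (tn (tn (tn (tl 19342813257949254871171074) te) te) (tn (tn (tl 2) te) (tn (tl 8796093022210) te))) (tn (tn (tn (tl 7237005631255446758268624435352136989723626569997148748119692005087127814146) (tl 16386)) (tn (tl 144123984168878080) te)) te)) (tn (tn (tn te (tn (tl 19343993777512378244562945) te)) (tn (tn (tl 144119586122366978) te) te)) (tn (tn (tn (tl 6130356307885499737735457193601631765511784389953978370) (tl 16386)) (tn (tl 72061992621342722)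 te)) (tn (tn (tl 144123984437346306) te) te)))) (tn (tn (tn (tn (tn (tl 316912652418240591808998424576) te) te) te) (tn (tn (tn (tl 7237005604293854385687278294227302129140726115697338493574048283644278079488) (tl 32770)) te) (tn (tn (tl 536887296) te) (tn (tl 16386) te)))) (tn (tn (tn (tn te (tl 32769)) (tn (tl 144123984168894464) te)) (tn te (tn (tl 2) te))) (tn (tn (tn (tl 10384910649062525500303028204371970) te) (tn (tl 32768) te)) (tn (tn (tl 4398046511105) te) (tn (tl 1) te))))))) (tn (tn (tn (tn (tn (tn (tn (tl 19342813113842862888321025) te) te) (tn te (tn (tl 268435457) te))) (tn (tn (tn (tl 237142198758077489766513103154868919766110162780717155327852988730987244681166850) (tl 16384)) (tn (tl 4398314979329) te)) te)) (tn (tn (tn (tn (tl 38686806891355241401303041) te) te) (tn (tn (tl 72061992621309953) te) te)) (tn (tn (tn (tl 374167256513761158509864704015400687711175040843778) (tl 16385)) (tn (tl 144115188075855872)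 te)) (tn (tn (tl 4398583382018) te) (tn (tl 1) te))))) (tn (tn (tn (tn (tn (tl 633825300114114705146666549248) te) (tn te (tl 1))) te) (tn (tn (tn te (tl 32769)) te) (tn (tn (tl 8796361457666) te) (tn (tl 2) te)))) (tn (tn (tn (tn te (tl 32769)) (tn (tl 38685626227676930220507138) te)) te) (tn (tn (tn (tl 5192296858537188811771931151843328) te) (tn (tl 16386) te)) (tn (tn (tl 144123984168878082) te) (tn (tl 32770) te)))))) (tn (tn (tn (tn te (tn (tn (tl 2) te) (tn (tl 16385) te))) (tn (tn (tn (tl 237156672769232154290740194531678624387020269183798018361247690627874273827504128) (tl 16384)) (tn (tl 8796361457664) te)) (tn (tn (tl 8796093054977) te) te))) (tn (tn (tn (tn (tl 19343993777521174874439681) (tl 32768)) (tn (tl 1180735735906024046592) te)) (tn (tn (tl 72066390667837440) te) te)) (tn (tn (tn (tl 12259964326927111037013152608355542503635755763255771137) (tl 2)) (tn (tl 144123984168894465) te)) (tn (tn (tl 8796093054978)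 te) (tn (tl 32769) te))))) (tn (tn (tn (tn (tn (tl 6129982163463555433443772702318306389732017481661284352) te) te) te) (tn (tn (tn (tl 118578336384643037914990393822143541327038251918704418872800248152191113785016320) (tl 32768)) te) (tn (tn (tl 72061992084439040) te) (tn (tl 32770) te)))) (tn (tn (tn (tn (tl 279968093815219776832973429247973767048675193915951818775243701931543672739601102062960811707088273408) (tl 16386)) (tn (tl 72066390667853826) te)) te) (tn (tn (tn (tl 268435456) te) (tn (tl 536887296) te)) (tn (tn (tl 144119586122399745) te) (tn (tl 16386) te)))))))) (tn (tn (tn (tn (tn (tn (tn (tn (tl 4398583382017) (tl 16385)) (tn (tl 268451841) te)) (tn te (tn (tl 8796361474050) te))) (tn (tn (tn (tl 139984046907657634361185403335735799560160796943370352552435369998905258033341314597406874998717546496) (tl 32769)) (tn (tl 72057594574815234) te)) (tn te (tn (tl 2) te)))) (tn (tn (tn (tn (tl 8796361457664) te) te) (tn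 (tn (tl 72066390399418368) te) te)) (tn (tn (tn (tl 6129982209136875396604204763290612560728950640817995776) (tl 32770)) (tn (tl 8796361474050) te)) (tn (tn (tl 8796629909505) te) (tn (tl 32768) te))))) (tn (tn (tn (tn (tn (tl 26959946667150639794667017874782921673742418996294101216238858420224) te) (tn te (tl 2))) te) (tn (tn (tn te (tl 32770)) te) (tn (tn (tl 72061992621309954) te) (tn (tl 16385) te)))) (tn (tn (tn (tn (tl 72061992084471809) (tl 2)) (tn (tl 1180735740303802138625) te)) (tn (tn (tl 8796093022209) te) te)) (tn (tn (tn (tl 5192296858534827628530496329220098) te) (tn (tl 144119586659270656) te)) (tn (tn (tl 72061992352890882) te) (tn (tl 16384) te)))))) (tn (tn (tn (tn (tn (tn (tl 1180591620717411319810) te) te) (tn (tn (tl 1) te) (tn (tl 268435457) te))) (tn (tn (tn (tl 14474894578196913620117295131144245440824543658104457056729791877476429873153) (tl 16386)) (tn (tl 144123984168894464) te)) (tn (tn (tl 72057594306363392)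 te) te))) (tn (tn (tn (tn (tl 38686806891355241669738497) te) (tn (tl 72066390130982913) te)) (tn (tn (tl 72061992621342720) te) te)) (tn (tn (tn (tl 748311677064183815079055484764137708679693422559232) (tl 16385)) (tn (tl 72057594306363393) te)) (tn (tn (tl 72066390399385602) te) (tn (tl 1) te))))) (tn (tn (tn (tn (tn (tl 4398046511104) te) te) te) (tn (tn (tn (tl 118578337268066571949687115934624189431522388103304677887899038472845645477576706) (tl 2)) te) (tn (tn (tl 72061992352907264) te) (tn (tl 2) te)))) (tn (tn (tn (tn te (tl 32768)) (tn (tl 268435457) te)) (tn te (tn (tl 1) te))) (tn (tn (tn (tl 2787678225600988811143953034642459528806401) te) (tn (tl 2) te)) (tn (tn (tl 144115188612726786) te) (tn (tl 16385) te))))))) (tn (tn (tn (tn (tn (tn (tn (tl 16384) te) te) (tn te (tn (tl 4398583414785) te))) (tn (tn (tn (tl 7237447316061694586754492360356397217300788034870478396997440108585176547330) te) (tn (tl 4398046527488)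 te)) te)) (tn (tn te (tn (tn (tl 4398314962945) te) te)) (tn (tn (tn (tl 12260712638604174965616456156243148258023039430884851714) (tl 16386)) (tn (tl 144123984705765376) te)) (tn (tn (tl 72061992621326337) te) (tn (tl 1) te))))) (tn (tn (tn (tn (tn (tl 72057594574798848) te) (tn te (tl 2))) te) (tn (tn (tn (tl 7237447289098456810055582387463853290591642912691932107576540414393534414848) (tl 16385)) te) (tn (tn (tl 72057594306396162) te) (tn (tl 32768) te)))) (tn (tn (tn (tn te (tl 16386)) (tn (tl 19345174369133095924301826) te)) te) (tn (tn (tn (tl 4398046511104) te) (tn (tl 268468226) te)) (tn (tn (tl 72066390667821057) te) (tn (tl 32770) te)))))) (tn (tn (tn (tn (tn (tn (tl 5192296858534827628530496329236482) te) te) (tn te (tn (tl 8796093022209) te))) (tn (tn (tn te (tl 32770)) te) (tn (tn (tl 72066390130982913) te) te))) (tn (tn (tn (tn (tl 2361255307824953589762) (tl 16386)) (tn (tl 19345174441199486323687426) te)) (tn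 (tn (tl 72061992352874498) te) te)) (tn (tn (tn (tl 748288838313422294120286653694730611518621668605952) (tl 2)) (tn (tl 72057594037960705) te)) (tn (tn (tl 144123984437329920) te) (tn (tl 16386) te))))) (tn (tn (tn (tn (tn (tl 19342813113834066795298816) te) te) (tn (tn (tl 144119586122383362) te) te)) (tn (tn (tn (tl 7237005577335553323527586723523333276048799502725566486721776617990024888322) (tl 32769)) (tn (tl 144115188612743170) te)) (tn (tn (tl 32769) te) (tn (tl 16386) te)))) (tn (tn (tn (tn (tl 139984046907657634361185403335735799556869787828727940468125431633790557023375842866067648881889378306) te) (tn (tl 144115188612759554) te)) te) (tn (tn (tn (tl 170141184094313877020099084363900141570) te) (tn (tl 4398314946562) te)) (tn (tn (tl 72066390667837440) te) (tn (tl 1) te)))))))))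

def t13 : Tr ℕ := (tn (tn (tn (tn (tn (tn (tn (tn (tn (tl 4398314946560) (tl 1)) (tn (tl 72061992352907266) te)) (tn te (tn (tl 536870912) te))) (tn (tn (tn (tl 279968092772225528262349184534673660469212434862996378434960390342599803695313566617080485449335586818) (tl 16386)) (tn (tl 72061992621326336) te)) (tn te (tn (tl 2) te)))) (tn (tn (tn (tn (tl 4398046511104) te) te) (tn (tn (tl 8796361474049) te) te)) (tn (tn (tn (tl 22837357050016642018226032046677309295712813058) (tl 32769)) (tn (tl 144123984168878081) te)) (tn (tn (tl 144115188612743170) te) (tn (tl 1) te))))) (tn (tn (tn (tn (tn (tl 3291009114642412084311332161689609173911817713731257843329269760) te) (tn te (tl 2))) (tn (tn (tl 1) te) te)) (tn (tn (tn te (tl 32768)) te) (tn (tn (tl 144119586122383361) te) te))) (tn (tn (tn (tn (tl 1180663682709495758848) (tl 16386)) (tn (tl 19342813257953653454569473) te)) (tn (tn (tl 144123984437329921) te) te)) (tn (tn (tn (tl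 100433627766186892221372630771322662658818278732141963509762) te) (tn (tl 536903681) te)) (tn (tn (tl 72066390130982912) te) te))))) (tn (tn (tn (tn (tn (tn (tl 316951335683357076101804326913) te) te) (tn te (tn (tl 4398314946562) te))) (tn (tn (tn (tl 14474011181626116700094092623480024554255890296189683582399010187680283656194) te) (tn (tl 72061992352874496) te)) te)) (tn (tn (tn te (tn (tl 38687987482967162451165184) te)) (tn (tn (tl 72061992621326338) te) te)) (tn (tn (tn (tl 12260712638601387542607823288800346392404039955835256833) te) (tn (tl 4398583414785) te)) (tn (tn (tl 144119586390818816) te) (tn (tl 16386) te))))) (tn (tn (tn (tn (tn (tl 633825301294778379059800834048) te) (tn te (tl 1))) te) (tn (tn (tn (tl 237142199199735336067574023144805416087751343684025557288903943716816590003519489) (tl 32770)) te) (tn (tn (tl 72066390130966529) te) (tn (tl 1) te)))) (tn (tn (tn te (tn (tl 72061992352874496) te)) te) (tn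 (tn (tn (tl 5192930683834941887346433293565953) te) (tn (tl 536870912) te)) (tn (tn (tl 72066390667821058) te) (tn (tl 1) te))))))) (tn (tn (tn (tn (tn (tn (tn (tl 38685626227672531905544192) te) te) (tn te (tn (tl 268468225) te))) (tn (tn (tn (tl 14474894632116807155285829878707639507101344579716807694554946426968324734978) (tl 32769)) (tn (tl 144115188344291329) te)) te)) (tn (tn (tn (tn (tl 38687987410918365043097600) te) te) (tn (tn (tl 536870914) te) te)) (tn (tn (tn (tl 12260712638602781254101754494989047191655374699257397250) (tl 16386)) (tn (tl 72066390130966530) te)) (tn (tn (tl 144123984705781762) te) te)))) (tn (tn (tn (tn (tn (tl 5192613771184884685880871041892352) te) (tn te (tl 2))) te) (tn (tn (tn te (tl 32770)) te) (tn (tn (tl 4398583382018) te) (tn (tl 32770) te)))) (tn (tn (tn (tn te (tl 1)) (tn (tl 38687987482967162719584256) te)) te) (tn (tn (tn (tl 10384593717070835920739304107671552) te) (tn (tl 268468226)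 te)) (tn (tn (tl 8796093038594) te) (tn (tl 32769) te)))))) (tn (tn (tn (tn te (tn (tn (tl 1) te) (tn (tl 8796093022209) te))) (tn (tn (tn (tl 237142199199762294368837043961552208797085457545900710178730230381524292202430464) (tl 16384)) (tn (tl 32769) te)) (tn (tn (tl 72057594306379778) te) te))) (tn (tn (tn (tn (tl 38687987410913966728167426) (tl 32769)) (tn (tl 2361255299029397438464) te)) (tn (tn (tl 32770) te) te)) (tn (tn (tn (tl 1393966721284238225449405728637944154030082) te) (tn (tl 4398046543872) te)) (tn (tn (tl 144119586659254274) te) (tn (tl 32769) te))))) (tn (tn (tn (tn (tn (tl 12259964326927110866871968830973658353635793847973838848) te) te) te) (tn (tn (tn (tl 7237889054786190345442467111873462652307992497398370283872239882062822129666) (tl 1)) te) (tn (tn (tl 144119586122399744) te) (tn (tl 32768) te)))) (tn (tn (tn (tn (tl 139984046907657634361185403336177484366408725881256364424069568041664843479017033530767694340126949376)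 (tl 32768)) (tn (tl 16384) te)) te) (tn (tn (tn (tl 1393966716091624454265701490253807159869441) te) (tn (tl 32770) te)) (tn (tn (tl 4398046543873) te) (tn (tl 32768) te)))))))) (tn (tn (tn (tn (tn (tn (tn (tn (tl 8796361474048) (tl 16386)) (tn (tl 72057594037944320) te)) (tn te (tn (tl 4398583398402) te))) (tn (tn (tn (tl 139984047429107011730345830623901836446811953594111635225427306087222415807735281538512760712095334400) (tl 16385)) (tn (tl 144123984437313537) te)) (tn te (tn (tl 1) te)))) (tn (tn (tn (tn (tl 19342813257953653186117633) te) te) (tn (tn (tl 144119586122399745) te) te)) (tn (tn (tn (tl 6129982209136875481679989424209064548835392468499300352) (tl 32769)) (tn (tl 144123984168878082) te)) (tn (tn (tl 72061992352874497) te) (tn (tl 32768) te))))) (tn (tn (tn (tn (tn (tl 53919893334301279589334031567920906847802295108224086976053519581184) te) (tn te (tl 1))) te) (tn (tn (tn te (tl 32769)) te) (tn (tn (tl 144119586659254274)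 te) (tn (tl 32768) te)))) (tn (tn (tn (tn (tl 8796093038594) (tl 16385)) (tn (tl 2361255307825221992449) te)) (tn (tn (tl 268435457) te) te)) (tn (tn (tn (tl 1645504557321206042154969182557350504982735865633579863348609025) te) (tn (tl 8796629893121) te)) (tn (tn (tl 72066390130966530) te) (tn (tl 2) te)))))) (tn (tn (tn (tn (tn (tn (tl 19345174297075501617905665) te) te) (tn (tn (tl 1) te) (tn (tl 2) te))) (tn (tn (tn (tl 7237447289098456810067842351745108475206848381618840772638855314149734350850) te) (tn (tl 144123984705765378) te)) (tn (tn (tl 144119586659254274) te) te))) (tn (tn (tn (tn (tl 19342813257953653454569472) te) (tn (tl 4398583398402) te)) (tn (tn (tl 144123984437329920) te) te)) (tn (tn (tn (tl 12260338471349055256239437349369478416737321879181737984) (tl 16384)) (tn (tl 4398046511104) te)) (tn (tn (tl 144115188075872257) te) (tn (tl 1) te))))) (tn (tn (tn (tn (tn (tl 1180591629513772761088) te) te) te) (tn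 (tn (tn (tl 7237447343018350345230247491289460930269437007566726232001822059907214491650) (tl 16384)) te) (tn (tn (tl 268451841) te) (tn (tl 16385) te)))) (tn (tn (tn (tn te (tl 1)) (tn (tl 72057594306396160) te)) (tn te (tn (tl 2) te))) (tn (tn (tn (tl 2787763290999788361923696615508745241231360) te) (tn (tl 16384) te)) (tn (tn (tl 72061992621326338) te) (tn (tl 2) te))))))) (tn (tn (tn (tn (tn (tn (tn (tl 268435456) te) te) (tn te (tn (tl 8796629909504) te))) (tn (tn (tn (tl 7237005604295500091117984640639451370333980088330085520539127720141863796738) (tl 16386)) (tn (tl 72061992084439040) te)) te)) (tn (tn te (tn (tn (tl 4398046527488) te) te)) (tn (tn (tn (tl 374190091082877742969267904849320063074690647752704) (tl 32769)) (tn (tl 144119586122399745) te)) (tn (tn (tl 8796093038593) te) (tn (tl 1) te))))) (tn (tn (tn (tn (tn (tl 85070591730234615865843651858210488320) te) (tn te (tl 2))) te) (tn (tn (tn (tl 883450495626868430073855524535235319109483634182842918525732068117217280)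 (tl 16384)) te) (tn (tn (tl 72066390667837440) te) (tn (tl 32768) te)))) (tn (tn (tn (tn te (tl 1)) (tn (tl 19343993777512378512965634) te)) te) (tn (tn (tn (tl 1180591629513504325632) te) (tn (tl 268468226) te)) (tn (tn (tl 144115188344307712) te) (tn (tl 1) te)))))) (tn (tn (tn (tn (tn (tn (tl 85080976323951685521100712850600493057) te) te) (tn (tn (tl 2) te) (tn (tl 4398314979330) te))) (tn (tn (tn te (tl 32769)) te) (tn (tn (tl 144123984168878082) te) te))) (tn (tn (tn (tn (tl 4398314946560) (tl 16385)) (tn (tl 38687987482971560766078977) te)) (tn (tn (tl 72061992084471810) te) te)) (tn (tn (tn (tl 6130356307882712144580448251918414464111229842288017408) te) (tn (tl 72057594306363394) te)) (tn (tn (tl 72066390130966530) te) te)))) (tn (tn (tn (tn (tn (tl 5192296897220453856203027966328832) te) te) (tn (tn (tl 144123984705781762) te) te)) (tn (tn (tn (tl 14474011208584417762259912679769781729648176757407284929052539816720161832961)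 (tl 32768)) (tn (tl 72057594574831618) te)) (tn (tn (tl 144123984705765378) te) (tn (tl 32769) te)))) (tn (tn (tn (tn (tl 279968093815219776832973436484979398299185237639226747273576703051055099220043700479046151033996705793) (tl 32768)) (tn (tl 72066390130982914) te)) te) (tn (tn (tn (tl 1393796580100777717530867149978987673976834) te) (tn (tl 32769) te)) (tn (tn (tl 72066390130982912) te) te))))))))

def t14 : Tr ℕ := (tn (tn (tn (tn (tn (tn (tn (tn (tn (tl 536870913) (tl 32770)) te) te) (tn (tn (tn (tl 6130730497973795107388816636248006777921174748052586496) te) (tn (tl 536887296) te)) (tn (tn (tl 72066390399418369) te) te))) (tn (tn (tn (tn (tl 268435456) (tl 16384)) te) (tn (tn (tl 268451842) te) te)) (tn te (tn te (tn (tl 16385) te))))) (tn (tn (tn (tn (tn te (tl 16385)) te) te) (tn (tn (tn (tl 374144421944389377853112093545724653129841613209600) te) (tn (tl 32768) te)) te)) (tn (tn (tn te (tn (tl 8796093022208) te))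 (tn (tn (tl 268468226) te) (tn (tl 1) te))) (tn (tn (tn (tl 85075784660957138795069854663388954625) te) te) (tn te (tn (tl 16385) te)))))) (tn (tn (tn (tn (tn (tn (tl 19342813257949254871171074) te) (tn te (tl 1))) te) (tn (tn (tn (tl 237142199199735336067574023144805416087751343684024923463603829602115841383464961) te) (tn (tl 144123984705765378) te)) (tn (tn (tl 16385) te) te))) (tn (tn (tn (tn (tl 1180591629513772761089) (tl 32769)) (tn (tl 8796093022209) te)) (tn (tn (tl 72061992352907264) te) te)) (tn te (tn te (tn (tl 16384) te))))) (tn (tn (tn (tn (tn (tl 6129982163463555433443772702318306389804075075430776832) (tl 32768)) te) te) (tn (tn te (tn (tl 16386) te)) (tn te (tn (tl 1) te)))) (tn (tn (tn te (tn (tl 144115188075888640) te)) (tn (tn (tl 4398046543874) te) te)) (tn (tn (tn (tl 2787593160201555435061734155842786466758657) te) te) (tn te (tn (tl 32769) te))))))) (tn (tn (tn (tn (tn (tn (tn te (tl 32769)) te) (tn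 (tn (tl 1) te) te)) (tn (tn (tn (tl 118585573390193408584932219289583403212252445194053015364899337152223322723860481) te) (tn (tl 144123984168894464) te)) (tn (tn (tl 144123984168894464) te) te))) (tn (tn (tn (tn (tl 1180663682709495758849) (tl 1)) te) (tn (tn (tl 72061992084439042) te) te)) (tn te (tn te (tn (tl 32769) te))))) (tn (tn (tn (tn (tn (tl 633825300114114705146666549248) (tl 16385)) te) te) (tn (tn (tn (tl 5192930683837302926477077549940738) te) (tn (tl 268435457) te)) (tn te (tn (tl 16386) te)))) (tn (tn (tn te (tn (tl 4398583382016) te)) (tn (tn (tl 144115188075888641) te) te)) (tn (tn (tn (tl 85075784344025145924970732214233874432) te) te) (tn te (tn (tl 32768) te)))))) (tn (tn (tn (tn (tn (tn (tl 1645705430706720579402967361252281892734587989597459949807468544) (tl 32770)) (tn te (tl 1))) te) (tn (tn (tn (tl 118585573831878214832861157175595229174524151226930786671463100198966366719475713) te) (tn (tl 144119586390802433)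 te)) te)) (tn (tn (tn te (tn (tl 8796361457664) te)) (tn (tn (tl 72061992621342721) te) te)) (tn te (tn te (tn (tl 16386) te))))) (tn (tn (tn (tn (tn te (tl 16386)) te) te) (tn (tn te (tn (tl 8796629909506) te)) te)) (tn (tn (tn (tn (tl 12259964326928504748512276428315428187428847393282473985) te) (tn (tl 72066390667853826) te)) (tn (tn (tl 16385) te) te)) (tn te (tn te (tn (tl 16385) te)))))))) (tn (tn (tn (tn (tn (tn (tn (tn (tl 19342813113842862888337408) (tl 32768)) te) (tn (tn (tl 1) te) te)) (tn (tn (tn (tl 6130356330720069109531691153681013168447526715741192192) te) (tn (tl 72057594037944320) te)) (tn (tn (tl 4398583382018) te) te))) (tn (tn (tn (tn (tl 19342813257958051501080577) (tl 32770)) te) (tn (tn (tl 144123984168910850) te) te)) (tn te (tn te (tn (tl 1) te))))) (tn (tn (tn (tn (tn te (tl 16384)) te) te) (tn (tn (tn (tl 748311674276675735854457846030851954137768426225665) te) (tn (tl 268451842) te)) (tn te (tn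 (tl 32768) te)))) (tn (tn (tn te (tn (tl 8796361457666) te)) (tn (tn (tl 32769) te) (tn (tl 1) te))) (tn (tn (tn (tl 316931995231354425876330594304) te) te) (tn te (tn (tl 16386) te)))))) (tn (tn (tn (tn (tn (tn (tl 5192613809870510913549004364054530) (tl 16386)) (tn te (tl 2))) te) (tn (tn (tn (tl 237149435763654822028727076341431939922994112284492496945497154426736184068685824) te) (tn (tl 144123984705765376) te)) te)) (tn (tn (tn (tn te (tl 16384)) (tn (tl 4398314946562) te)) (tn (tn (tl 144115188612726786) te) (tn (tl 2) te))) (tn te (tn te (tn (tl 1) te))))) (tn (tn (tn (tn (tn (tl 19343993705463580299624448) (tl 2)) te) te) (tn (tn te (tn (tl 4398314962945) te)) (tn te (tn (tl 32770) te)))) (tn (tn (tn te (tn (tl 8796361457665) te)) (tn (tn (tl 72066390399385602) te) te)) (tn te (tn te (tn (tl 32768) te))))))) (tn (tn (tn (tn (tn (tn (tn (tl 16384) (tl 2)) (tn te (tl 1))) (tn (tn (tl 2) te) te)) (tn (tn (tn (tl 237149435763600900489687362744694395295931672715009809474087240384109116833923072)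 te) (tn (tl 8796361490433) te)) (tn (tn (tl 72066390130966530) te) te))) (tn (tn (tn (tn (tl 536870913) (tl 32769)) te) (tn (tn (tl 268435457) te) te)) (tn te (tn te (tn (tl 32769) te))))) (tn (tn (tn (tn (tn (tl 72057594574798848) (tl 32770)) te) te) (tn (tn te (tn (tl 8796093022209) te)) (tn te (tn (tl 1) te)))) (tn (tn (tn te (tn (tl 1) te)) (tn (tn (tl 8796361457665) te) (tn (tl 1) te))) (tn (tn (tn (tl 2787678220408058146651824333192085920284672) te) te) te)))) (tn (tn (tn (tn (tn (tn te (tl 1)) te) te) (tn (tn (tn (tl 12260712661440138133982405666459003951845643760592519169) te) (tn (tl 536870912) te)) te)) (tn (tn (tn te (tn (tl 16384) te)) (tn (tn (tl 72057594306363393) te) (tn (tl 2) te))) (tn (tn (tn (tl 170151568054224989374499398261393063936) te) te) (tn te (tn (tl 1) te))))) (tn (tn (tn (tn (tn te (tl 2)) te) (tn (tn (tl 72057594037927938) te) te)) (tn te (tn te (tn (tl 16385) te)))) (tn (tn (tn (tn (tl 6129982209138269193184305224095492190157896543746686977)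 te) (tn (tl 72061992084439041) te)) (tn (tn (tl 72061992621309953) te) te)) (tn te (tn te (tn (tl 1) te)))))))))

def t15 : Tr ℕ := (tn (tn (tn (tn (tn (tn (tn (tn (tn (tl 4398314946560) (tl 16386)) te) te) (tn (tn (tn (tl 85075784344005801931121162241951432706) te) (tn (tl 72057594306379776) te)) (tn (tn (tl 16386) te) te))) (tn (tn (tn (tn (tl 4398046511104) (tl 32769)) te) (tn (tn (tl 4398314946562) te) te)) (tn te (tn te (tn (tl 32769) te))))) (tn (tn (tn (tn (tn te (tl 2)) te) te) (tn (tn (tn (tl 748288838313592435304064035577700019859819270766592) te) (tn (tl 1) te)) te)) (tn (tn (tn te (tn (tl 4398046527489) te)) (tn (tn (tl 8796629925890) te) (tn (tl 1) te))) (tn (tn (tn (tl 170141183777401225782594232858972274690) te) te) (tn te (tn (tl 1) te)))))) (tn (tn (tn (tn (tn (tn (tl 316951335683357076101804326913) (tl 16384)) (tn te (tl 1))) te) (tn (tn (tn (tl 7237447343018350345230247491289460930269437007566726232001822059907214491650)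 te) (tn (tl 144119586122366976) te)) (tn (tn (tl 4398314979329) te) te))) (tn (tn (tn (tn (tl 72061992621309953) (tl 16386)) (tn (tl 8796629909504) te)) (tn (tn (tl 2) te) te)) (tn te (tn te (tn (tl 1) te))))) (tn (tn (tn (tn (tn (tl 12259964326928504663446876678007354278970483996392161280) (tl 32769)) te) te) (tn (tn te (tn (tl 536887297) te)) te)) (tn (tn (tn te (tn (tl 144115188075855874) te)) (tn (tn (tl 144115188344291329) te) te)) (tn (tn (tn (tl 1393796585293074576065694706451889965268994) te) te) (tn te (tn (tl 1) te))))))) (tn (tn (tn (tn (tn (tn (tn te (tl 32768)) te) te) (tn (tn (tn (tl 237142199199762296014341613542348479130541165838775318965569236431731461636227073) te) (tn (tl 72066390399418368) te)) (tn (tn (tl 8796093022208) te) te))) (tn (tn (tn (tn (tl 38687987555033553118953474) (tl 1)) te) (tn (tn (tl 72061992352890882) te) te)) (tn te (tn te (tn (tl 32769) te))))) (tn (tn (tn (tn (tn (tl 5192613771184884685880871041892352)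 (tl 2)) te) te) (tn (tn (tn (tl 22838750846596743112875555783926415129246187520) te) (tn (tl 4398046527490) te)) (tn te (tn (tl 32769) te)))) (tn (tn (tn te (tn (tl 536887298) te)) (tn (tn (tl 72057594574815232) te) te)) (tn (tn (tn (tl 2787593149816327912034777897919510030057472) te) te) (tn te (tn (tl 2) te)))))) (tn (tn (tn (tn (tn (tn (tl 3291109560530142620965233687907606963675828406153456685017989120) (tl 1)) te) te) (tn (tn (tn (tl 118578336826300884216252168808396396180287646665073538229089773257726102492692481) te) (tn (tl 72061992352874498) te)) te)) (tn (tn (tn te (tn (tl 4398314946562) te)) (tn (tn (tl 144115188612759553) te) (tn (tl 2) te))) (tn te (tn te (tn (tl 16386) te))))) (tn (tn (tn (tn (tn te (tl 32769)) te) te) (tn (tn te (tn (tl 4398046543872) te)) (tn te (tn (tl 2) te)))) (tn (tn (tn (tn (tl 748288839707389010212228001264134270426583706664962) te) (tn (tl 8796093022209) te)) (tn (tn (tl 72061992621309952)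 te) te)) (tn te (tn te (tn (tl 32769) te)))))))) (tn (tn (tn (tn (tn (tn (tn (tn (tl 38685626299730125675036672) (tl 16385)) te) (tn (tn (tl 2) te) te)) (tn (tn (tn (tl 12260712638604174965616455522379161337233160621292257280) te) (tn (tl 4398583414785) te)) (tn (tn (tl 536887298) te) te))) (tn (tn (tn (tn (tl 19342813257953653454553089) (tl 2)) te) (tn (tn (tl 144119586390818816) te) te)) (tn te (tn te (tn (tl 16384) te))))) (tn (tn (tn (tn (tn te (tl 32770)) te) te) (tn (tn (tn (tl 374144420550507732352900980591006246257418152443905) te) (tn (tl 4398583414786) te)) (tn te (tn (tl 32768) te)))) (tn (tn (tn te (tn (tl 4398046543874) te)) (tn (tn (tl 8796361457664) te) (tn (tl 1) te))) (tn (tn (tn (tl 85070592364098602786777641457832460288) te) te) (tn te (tn (tl 16386) te)))))) (tn (tn (tn (tn (tn (tn (tl 100433627766186892221372641156550224370220172707232357548033) (tl 2)) te) te) (tn (tn (tn (tl 3291009126902750578494956704644304159389648018309915240709521408)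 te) (tn (tl 72066390130950145) te)) te)) (tn (tn (tn (tn te (tl 2)) (tn (tl 4398314962945) te)) (tn (tn (tl 268468224) te) (tn (tl 2) te))) (tn te (tn te (tn (tl 16385) te))))) (tn (tn (tn (tn (tn (tl 22835963083295358096971261137419594713761054720) (tl 1)) te) te) (tn (tn te (tn (tl 268468225) te)) (tn te (tn (tl 32770) te)))) (tn (tn (tn te (tn (tl 144123984168878081) te)) (tn (tn (tl 8796629925889) te) te)) (tn te (tn te (tn (tl 2) te))))))) (tn (tn (tn (tn (tn (tn (tn (tl 268435456) (tl 1)) (tn te (tl 2))) (tn (tn (tl 2) te) te)) (tn (tn (tn (tl 237142199199735336067574023145179560506908054831085700606079312169848508734504961) te) (tn (tl 4398046543872) te)) (tn (tn (tl 144119586122383362) te) te))) (tn (tn (tn (tn (tl 144123984168878081) (tl 16384)) te) (tn (tn (tl 144123984437329922) te) te)) te)) (tn (tn (tn (tn (tn (tl 85070591730234615865843651858210488320) (tl 1)) te) te) (tn (tn te (tn (tl 4398046543873) te)) (tn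 te (tn (tl 16386) te)))) (tn (tn te (tn (tn (tl 268435456) te) (tn (tl 1) te))) (tn (tn (tn (tl 1393966716091941366915758547612977428692993) te) te) (tn te (tn (tl 32770) te)))))) (tn (tn (tn (tn (tn (tn te (tl 2)) te) te) (tn (tn (tn (tl 6129982163463555518509172769519688722797579895159406593) te) (tn (tl 268451842) te)) te)) (tn (tn (tn te (tn (tl 8796629893121) te)) (tn (tn (tl 536903681) te) (tn (tl 2) te))) (tn (tn (tn (tl 85075784344025144744307049505274986497) te) te) (tn te (tn (tl 16385) te))))) (tn (tn (tn (tn (tn te (tl 32770)) te) (tn (tn (tl 16385) te) te)) (tn te (tn te (tn (tl 32769) te)))) (tn (tn (tn (tn (tl 12260338494183624628035670675584872898667012613262557186) te) (tn (tl 72057594574815233) te)) (tn (tn (tl 72061992621342721) te) te)) (tn te (tn te (tn (tl 1) te)))))))))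

def t16 : Tr ℕ := (tn (tn (tn (tn (tn (tn (tn (tn (tn (tl 1) te) (tn (tl 72061992352890882) te)) te) (tn (tn (tn (tl 268435456) te) te) (tn (tn (tl 8796629909505) te) te))) (tn (tn (tn te (tn (tl 16385) te)) (tn (tn (tl 19345174297084297979363328) te) te)) (tn (tn (tn (tl 1393796580100460804880810092628612961288192) te) te) (tn (tn (tl 8796093022208) te) te)))) (tn (tn (tn (tn (tn (tl 1) te) (tn (tl 32769) te)) (tn (tn (tl 144123984437313537) te) te)) (tn (tn (tn (tl 8796093038592) te) te) (tn (tn (tl 4398046527488) te) (tn (tl 16386) te)))) (tn (tn (tn (tn (tl 237149435763600900489888230000600890663567960768047047773148918633445320179056640) te) te) (tn (tn (tl 19343993849578768912384001) te) (tn (tl 16386) te))) (tn te (tn (tn (tl 268451841) te) te))))) (tn (tn (tn (tn (tn (tn (tl 1) te) (tn (tl 536887296) te)) (tn (tn (tl 144123984437346306) te) te)) (tn (tn (tn (tl 1) te) te) (tn (tn (tl 8796093054976) te) te))) (tn (tn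 (tn (tn (tl 237149436205366586577617740290500085467436618646900092697775695037548304911056897) te) te) (tn (tn (tl 19345174369133095655866370) te) te)) (tn (tn (tn (tl 2787678225600671917837889754804463865970690) te) te) (tn (tn (tl 144123984168910850) te) te)))) (tn (tn (tn (tn (tn (tl 1) te) (tn (tl 536903680) te)) (tn (tn (tl 72066390667821056) te) te)) (tn (tn (tn (tl 2787678225600988849830759925993302615162882) te) te) (tn (tn (tl 268451840) te) te))) (tn (tn (tn (tn (tl 748311677064098739294711459620574137366093903200256) te) te) (tn (tn (tl 144119586122399746) te) (tn (tl 16386) te))) (tn te (tn (tn (tl 72061992352874498) te) te)))))) (tn (tn (tn (tn (tn (tn (tn (tl 1) te) (tn (tl 268468226) te)) (tn (tn (tl 144115188612726785) te) te)) (tn (tn (tn (tl 26959946667150639794667017874697851082329135717292206269996761907200) te) te) (tn (tn (tl 8796093038594) te) te))) (tn (tn (tn (tn (tl 279985181190057760916346914356890942911344688661013614499387992502254534773162370928860863245701873666)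 te) (tn (tl 4398314962946) te)) (tn (tn (tl 144115188612726786) te) te)) (tn (tn (tn (tl 1393881645500528025605956127914303225364482) te) te) (tn (tn (tl 4398314962945) te) te)))) (tn (tn (tn (tn (tn (tl 1) te) (tn (tl 4398314962944) te)) (tn (tn (tl 72066390667821056) te) te)) (tn (tn (tn (tl 10384910649062525500303027935936512) te) te) (tn (tn (tl 4398314962944) te) te))) (tn (tn (tn (tn (tl 6129982163466343111658989097451065133217703958212001794) te) te) (tn (tn (tl 144119586122366977) te) (tn (tl 32770) te))) (tn te (tn (tn (tl 144115188075888641) te) te))))) (tn (tn (tn (tn (tn (tn (tl 1) te) (tn (tl 536903680) te)) (tn (tn (tl 144123984168894466) te) te)) (tn (tn (tn (tl 268435456) te) te) (tn (tn (tl 536887297) te) (tn (tl 16386) te)))) (tn (tn (tn (tn (tl 2787763301385015904293465843150900397342720) te) te) (tn (tn (tl 38685626227672532174012416) te) te)) (tn (tn (tn (tl 170141183777401225782450117670627983360) te)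 te) (tn (tn (tl 144119586390802432) te) te)))) (tn (tn (tn (tn (tn (tl 1) te) (tn (tl 536903681) te)) (tn (tn (tl 72066390667821056) te) te)) (tn (tn (tn (tl 1393966716091941347571764986264585473392642) te) te) (tn (tn (tl 8796093054978) te) te))) (tn (tn (tn (tn (tl 1) te) te) (tn (tn (tl 144123984437346306) te) (tn (tl 16384) te))) (tn te (tn (tn (tl 72057594037927938) te) te))))))) (tn (tn (tn (tn (tn (tn (tn (tn (tl 1) te) (tn (tl 8796093054977) te)) (tn (tn (tl 72057594574831618) te) te)) (tn (tn (tn (tl 4398046511104) te) te) (tn (tn (tl 144123984168894465) te) (tn (tl 2) te)))) (tn (tn (tn (tn (tl 279968092772225528262586326733431630120837583053656994020523651597058773899860072054507950050973335552) te) (tn (tl 536903680) te)) (tn (tn (tl 72057594037927936) te) te)) (tn (tn (tn (tl 170151568688030945494836582233185222656) te) te) (tn (tn (tl 4398314946561) te) te)))) (tn (tn (tn (tn (tn (tl 16384) te) (tn (tl 536887298)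 te)) te) (tn (tn (tn (tl 1) te) te) (tn (tn (tl 536887298) te) te))) (tn (tn (tn (tn (tl 237142199199789254315403767103562875219469791410541027649644848893728451700195329) te) te) (tn (tn (tl 144115188344324096) te) (tn (tl 32768) te))) te))) (tn (tn (tn (tn (tn (tn (tl 1) te) (tn (tl 4398314946561) te)) (tn (tn (tl 72061992084471809) te) te)) (tn (tn (tn (tl 16384) te) te) (tn (tn (tl 4398583398400) te) (tn (tl 16386) te)))) (tn (tn (tn (tn (tl 12260338494182230746390171098335903920602504673429061634) te) te) (tn (tn (tl 38685626299734523989999618) te) (tn (tl 32769) te))) (tn (tn (tn (tl 2787678225600671898495076496864005087821824) te) te) (tn (tn (tl 536870913) te) te)))) (tn (tn (tn (tn (tn (tl 16384) te) (tn (tl 32768) te)) te) (tn (tn (tn (tl 633863986920933989599890407424) te) te) (tn (tn (tl 8796629893121) te) te))) (tn (tn (tn (tn (tl 12260338517019587711331029406362090156351729306731315201) te) te) (tn (tn (tl 4398583398401)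 te) (tn (tl 1) te))) (tn te (tn (tn (tl 144115188344307712) te) te)))))) (tn (tn (tn (tn (tn (tn (tn (tl 1) te) (tn (tl 32770) te)) (tn (tn (tl 72061992352874497) te) te)) (tn (tn (tn (tl 3291009114642786251565058159562311547093100251798593579289444353) te) te) (tn (tn (tl 8796361474049) te) (tn (tl 16386) te)))) (tn (tn (tn (tn (tl 237142198758077491412017672736039288848190212210035857420259106402693045469347840) te) (tn (tl 8796361474050) te)) (tn (tn (tl 1180663687108079140865) te) te)) (tn (tn (tn (tl 1393966721284555118756649528039063458676738) te) te) (tn (tn (tl 144115188075855874) te) te)))) (tn (tn (tn (tn (tn (tl 16384) te) (tn (tl 4398046527488) te)) (tn (tn (tl 72066390667821056) te) te)) (tn (tn (tn (tl 5192613771184884685880870505054210) te) te) (tn (tn (tl 4398046511104) te) te))) (tn (tn (tn (tn (tl 22838750761520958451918419350039806299531657216) te) te) (tn (tn (tl 144119586659237888) te) (tn (tl 32768) te)))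 (tn te (tn (tn (tl 144115188075855874) te) te))))) (tn (tn (tn (tn (tn (tn (tl 1) te) (tn (tl 2) te)) (tn (tn (tl 536903680) te) te)) (tn (tn (tn (tl 10384910629719712458526555446984705) te) te) (tn (tn (tl 536903681) te) (tn (tl 16386) te)))) (tn (tn (tn (tn (tl 118578337268066568658477127907071735131493061739531724771864775650423062084485120) te) te) (tn (tn (tl 144115188075855874) te) (tn (tl 16384) te))) (tn te (tn (tn (tl 144115188612743169) te) te)))) (tn (tn (tn (tn (tn (tl 16384) te) (tn (tl 32770) te)) (tn (tn (tl 38686806963408437392736256) te) te)) (tn (tn (tn (tl 1393966721284555099413836558315787229609985) te) te) (tn (tn (tl 8796361474050) te) te))) (tn (tn (tn (tn (tl 16384) te) te) (tn (tn (tl 4398583414785) te) (tn (tl 16384) te))) (tn te (tn (tn (tl 144115188075855873) te) te))))))))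

def t17 : Tr ℕ := (tn (tn (tn (tn (tn (tn (tn (tn te (tn te (tl 2))) (tn (tn (tl 38687987482975958544171009) te) te)) te) (tn (tn (tn (tn (tl 1042994250513293144176918232283469506761620626912743670514484396084417569433293644250027687936) te) te) (tn te (tn (tl 2) te))) (tn (tn (tn (tl 1) te) te) te))) (tn (tn (tn (tn (tn (tl 1) te) te) te) te) te)) (tn (tn (tn (tn te (tn te (tn (tl 1) te))) te) te) (tn (tn (tn (tn (tn (tl 1180591620717411336192) te) te) (tn te (tn (tl 32769) te))) te) (tn te (tn (tn (tn (tl 268468226) te) te) (tn (tn te (tl 2)) te)))))) (tn (tn (tn (tn (tn (tn (tn (tl 144123984168878080) te) te) te) te) (tn (tn te (tn te (tn (tl 32768) te))) (tn (tn (tn (tl 1) te) te) te))) (tn te (tn te (tn (tn (tn (tl 72061992621309953) te) (tn (tl 1) te)) (tn (tn te (tl 2)) te))))) (tn (tn (tn (tn te (tn te (tn (tl 1) te))) te) (tn te (tn (tn (tn (tl 1) te) te) te))) (tn (tn (tn (tn (tn (tl 19342813113834067063750657) te)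 te) (tn te (tn (tl 32770) te))) te) (tn te (tn (tn (tn (tl 144115188075872258) te) (tn (tl 1) te)) te)))))) (tn (tn (tn (tn (tn (tn (tn (tn (tl 536903681) te) te) (tn te (tn (tl 2) te))) te) (tn (tn te (tn te (tn (tl 16384) te))) te)) (tn te (tn te (tn te (tn (tn te (tl 2)) te))))) (tn (tn (tn (tn te (tn te (tn (tl 2) te))) te) (tn te (tn (tn (tn (tl 1) te) te) te))) (tn (tn (tn (tn (tn (tl 19343993777521174337552385) te) te) te) te) (tn te (tn (tn (tn (tl 4398046543872) te) (tn (tl 2) te)) te))))) (tn (tn (tn (tn (tn (tn (tn (tl 1393796574908163946345982392040522594123776) te) te) (tn te (tn (tl 1) te))) te) (tn (tn te (tn te (tn (tl 2) te))) (tn (tn (tn (tl 1) te) te) te))) (tn te (tn te (tn (tn (tn (tl 72061992084471808) te) te) te)))) (tn (tn (tn (tn te (tn te (tn (tl 2) te))) te) (tn te (tn te (tn (tn te (tl 1)) te)))) (tn (tn (tn (tn (tn (tl 19343993705459182253129730) te) te) (tn te (tn (tl 16386) te))) te) (tn te (tn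 (tn (tn (tl 536887298) te) te) (tn (tn te (tl 1)) te))))))))

def t18 : Tr ℕ := (tn (tn (tn (tn (tn (tn (tn (tn te (tn te (tl 2))) (tn (tn (tl 19342813185900457194700800) te) te)) te) (tn (tn (tn (tn (tl 8543948143683640329580086824678208458410830349390938006899033298065096105596031150004825816563712) te) te) (tn te (tn (tl 1) te))) (tn (tn (tn (tl 2) te) te) te))) (tn (tn (tn (tn (tn (tl 1) te) te) te) te) te)) (tn (tn te (tn te (tn (tn (tn (tl 2) te) te) te))) (tn (tn (tn (tn (tn (tl 38686806819297647094939650) te) te) (tn te (tn (tl 2) te))) te) (tn te (tn (tn (tn (tl 4398314979330) te) te) te))))) (tn (tn (tn (tn (tn (tn (tn (tl 144123984168910848) te) te) (tn te (tn (tl 2) te))) te) (tn (tn te (tn te (tn (tl 32770) te))) (tn (tn (tn (tl 2) te) te) te))) (tn te (tn te (tn (tn (tn (tl 72057594306379777) te) (tn (tl 2) te)) te)))) (tn (tn (tn (tn te (tn te (tn (tl 2) te))) te) te) (tn (tn (tn (tn (tn (tl 38686806963412835707650048)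 te) te) (tn te (tn (tl 32770) te))) te) (tn te (tn (tn (tn (tl 144119586659237889) te) te) (tn (tn te (tl 2)) te))))))) (tn (tn (tn (tn (tn (tn (tn (tn (tl 536903680) te) te) te) te) (tn (tn te (tn te (tn (tl 32768) te))) (tn (tn (tn (tl 2) te) te) te))) te) (tn (tn te (tn te (tn (tn (tn (tl 2) te) te) te))) (tn (tn (tn (tn (tn (tl 19343993849578768643932162) te) te) (tn te (tn (tl 16384) te))) te) (tn te (tn (tn (tn (tl 268468225) te) (tn (tl 1) te)) te))))) (tn (tn (tn (tn (tn (tn (tn (tl 85070591730234615865987767046017908736) te) te) (tn te (tn (tl 1) te))) te) (tn (tn te (tn te (tn (tl 2) te))) (tn (tn (tn (tl 1) te) te) te))) (tn te (tn te (tn (tn (tn (tl 144119586122399744) te) (tn (tl 1) te)) (tn (tn te (tl 1)) te))))) (tn (tn (tn (tn te (tn te (tn (tl 2) te))) te) (tn te (tn te (tn (tn te (tl 2)) te)))) (tn (tn (tn (tn (tn (tl 1180663687107810705408) te) te) (tn te (tn (tl 2) te))) te) (tn te (tn (tn (tn (tl 144119586122366978)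 te) (tn (tl 1) te)) te)))))))

def t19 : Tr ℕ := (tn (tn (tn (tn (tn (tn (tn (tn (tn (tl 32770) te) te) (tn (tn (tl 8796361490434) te) te)) te) (tn (tn (tn (tn (tl 118571099379011785759341685728224977409008214077636372352349137886426839291805696) te) te) (tn te (tn (tl 16385) te))) (tn (tn te (tn (tl 1) te)) te))) (tn te (tn te (tn (tn (tn (tl 72061992352890882) te) (tn (tl 1) te)) te)))) (tn (tn te (tn te (tn (tn te (tn (tl 2) te)) (tn (tn te (tl 1)) te)))) (tn (tn te (tn (tn (tn (tl 1) te) te) (tn (tn te (tl 1)) te))) te))) (tn (tn (tn (tn (tn (tn (tn (tl 72066390130966530) te) te) te) te) (tn (tn te (tn te (tn (tl 16386) te))) (tn (tn te (tn (tl 1) te)) (tn (tn te (tl 2)) te)))) (tn (tn (tn (tn (tn (tl 19342813185900457463152642) te) te) (tn te (tn (tl 1) te))) te) te)) (tn (tn te (tn te (tn te (tn (tn te (tl 2)) te)))) (tn (tn (tn (tn (tn (tl 2361255303426907045890) te) te) te) (tn (tn (tn (tl 1) te) te) te)) (tn te (tn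 (tn (tn (tl 144115188075855872) te) te) te)))))) (tn (tn (tn (tn te (tn (tn te (tn te (tn (tl 1) te))) (tn te (tn (tn te (tl 1)) te)))) (tn (tn (tn te (tn te (tn (tl 16386) te))) te) (tn te (tn (tn (tn (tl 144119586122383360) te) te) te)))) (tn (tn te (tn te (tn (tn te (tn (tl 2) te)) (tn (tn te (tl 2)) te)))) (tn (tn te (tn te (tn (tn te (tl 2)) te))) (tn te (tn (tn (tn (tl 144119586122399744) te) te) te))))) (tn (tn (tn (tn (tn (tn (tn (tl 10384593717070835920739304107671554) te) te) te) te) (tn (tn te (tn te (tn (tl 32770) te))) (tn (tn te (tn (tl 2) te)) (tn (tn te (tl 1)) te)))) (tn (tn (tn (tn (tn (tl 38687987482967162988003328) te) te) (tn te (tn (tl 32769) te))) (tn (tn (tn (tl 2) te) te) te)) te)) (tn (tn te (tn te (tn (tn (tn (tl 144123984437329921) te) (tn (tl 2) te)) te))) (tn (tn (tn (tn (tn (tl 72061992621309953) te) te) te) (tn (tn te (tn (tl 2) te)) (tn (tn te (tl 2)) te))) (tn te (tn (tn (tn (tl 72066390130950146)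 te) te) te)))))))

def t20 : Tr ℕ := (tn (tn (tn (tn (tn (tn (tn (tn (tn (tl 268468225) te) te) (tn (tn (tl 4398314946562) te) te)) te) (tn (tn (tn (tn (tl 237142198758023569873078374377121395050756678375251993016103646853179509867298816) te) te) (tn te (tn (tl 16385) te))) (tn te (tn (tn te (tl 2)) te)))) (tn (tn (tn te (tn te (tn (tl 16385) te))) te) (tn te (tn (tn (tn (tl 72057594306379776) te) te) te)))) (tn (tn te (tn te (tn (tn te (tn (tl 2) te)) (tn (tn te (tl 2)) te)))) (tn (tn te (tn (tn (tn (tl 1) te) te) (tn (tn te (tl 1)) te))) te))) (tn (tn (tn (tn (tn (tn (tn (tl 144119586122383362) te) te) te) te) te) (tn (tn (tn (tn (tn (tl 19345174297084297979363328) te) te) (tn te (tn (tl 1) te))) te) te)) (tn te (tn (tn (tn (tn (tn (tl 144115188344324098) te) te) te) (tn (tn (tn (tl 2) te) te) (tn (tn te (tl 1)) te))) (tn te (tn (tn (tn (tl 4398046527489) te) te) te)))))) (tn (tn (tn (tn te (tn (tn te (tn te (tn (tl 32769)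 te))) te)) (tn (tn (tn te (tn te (tn (tl 32768) te))) te) (tn te (tn (tn (tn (tl 16386) te) te) te)))) (tn te (tn (tn te (tn te (tn (tn te (tl 2)) te))) (tn te (tn (tn (tn (tl 72061992084455426) te) te) te))))) (tn (tn (tn (tn (tn (tn (tn (tl 1393796585292757663416818240722232663867394) te) te) te) te) (tn (tn te (tn te (tn (tl 32769) te))) (tn (tn te (tn (tl 2) te)) te))) (tn (tn (tn (tn (tn (tl 38687987482971560766111744) te) te) (tn te (tn (tl 16385) te))) (tn (tn (tn (tl 1) te) te) te)) te)) (tn (tn (tn (tn (tn (tn (tl 1) te) te) te) te) (tn te (tn (tn (tn (tl 72066390130950146) te) te) te))) (tn (tn (tn (tn (tn (tl 2361327365418991501312) te) te) te) (tn (tn te (tn (tl 1) te)) (tn (tn te (tl 2)) te))) (tn te (tn (tn (tn (tl 72066390130982914) te) te) te)))))))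

def t21 : Tr ℕ := (tn (tn (tn (tn (tn (tn (tn te (tn (tn (tl 8796629925888) te) te)) te) (tn (tn (tn (tn (tl 6130356353556032277887256704043786127947077244329951234) te) te) te) te)) (tn (tn te (tn (tn (tn (tl 1) te) (tn (tl 2) te)) te)) te)) (tn te (tn (tn (tn (tn (tn (tl 38687987555024756489060352) te) te) (tn te (tn (tl 16384) te))) (tn (tn te (tn (tl 2) te)) te)) (tn te (tn (tn (tn (tl 144123984705765378) te) te) te))))) (tn (tn te (tn (tn te (tn (tn (tn (tl 1) te) (tn (tl 2) te)) (tn (tn te (tl 1)) te))) (tn te (tn (tn (tn (tl 16384) te) te) te)))) (tn (tn (tn (tn (tn (tn (tl 2) te) te) te) te) te) (tn (tn (tn te (tn te (tn (tl 16386) te))) (tn (tn te (tn (tl 2) te)) te)) te)))) (tn (tn (tn (tn (tn (tn (tn (tn (tl 144123984168910849) te) te) te) te) te) (tn (tn te (tn (tn (tn (tl 1) te) (tn (tl 2) te)) (tn (tn te (tl 1)) te))) te)) (tn te (tn (tn (tn (tn (tn (tl 2361255307824953589760) te) te) (tn te (tn (tl 2) te)))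 (tn (tn te (tn (tl 1) te)) te)) te))) (tn (tn (tn (tn (tn (tn (tn (tl 1393796574908163946345982392040522594123776) te) te) te) te) te) (tn (tn te (tn (tn te (tn (tl 2) te)) te)) (tn te (tn (tn (tn (tl 72061992352907265) te) te) te)))) (tn (tn (tn te (tn (tn (tn (tl 2) te) (tn (tl 2) te)) (tn (tn te (tl 2)) te))) te) (tn (tn (tn te (tn te (tn (tl 1) te))) te) te)))))

def t22 : Tr ℕ := (tn (tn (tn (tn (tn (tn (tn te (tn (tn (tl 268451841) te) te)) te) (tn (tn (tn (tn (tl 374144419156711147060143317175368453031919267872768) te) te) te) te)) (tn (tn te (tn (tn (tn (tl 1) te) (tn (tl 2) te)) te)) te)) (tn te (tn (tn (tn (tn (tn (tl 1180735735905755627522) te) te) (tn te (tn (tl 2) te))) (tn (tn te (tn (tl 2) te)) te)) (tn te (tn (tn (tn (tl 536870912) te) te) te))))) (tn (tn te (tn (tn te (tn (tn (tn (tl 2) te) (tn (tl 1) te)) (tn (tn te (tl 1)) te))) (tn te (tn (tn (tn (tl 2) te) te) te)))) (tn (tn (tn (tn (tn (tn (tl 2) te) te)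 te) te) te) (tn (tn (tn te (tn te (tn (tl 16386) te))) (tn (tn te (tn (tl 2) te)) te)) te)))) (tn (tn (tn (tn (tn (tn (tn (tn (tl 144123984168910848) te) te) te) te) te) (tn (tn te (tn (tn (tn (tl 2) te) (tn (tl 1) te)) (tn (tn te (tl 1)) te))) te)) (tn (tn (tn te (tn te (tn (tn te (tl 2)) te))) te) (tn (tn (tn (tn (tn (tl 1180735735905755594753) te) te) (tn te (tn (tl 16386) te))) (tn (tn te (tn (tl 2) te)) te)) te))) (tn (tn (tn (tn (tn (tn (tn (tl 85070591730234615865987767046017908736) te) te) te) te) te) (tn (tn te (tn (tn te (tn (tl 2) te)) te)) (tn te (tn (tn (tn (tl 72061992352907265) te) te) te)))) (tn (tn (tn te (tn (tn te (tn (tl 2) te)) (tn (tn te (tl 2)) te))) te) (tn (tn (tn te (tn te (tn (tl 16386) te))) te) te)))))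

def t23 : Tr ℕ := (tn (tn (tn (tn (tn (tn (tn (tn (tn (tl 536887297) te) te) (tn (tn (tl 4398314962946) te) te)) te) (tn (tn (tn (tn (tl 237149436205366588223122303741314100994878356899862686031414774624503604747190273) te) te) te) te)) (tn (tn (tn te (tn te (tn (tl 16384) te))) te) (tn (tn te (tn (tn te (tl 2)) te)) (tn (tn (tn (tl 72066390130950145) te) te) te)))) (tn (tn (tn te (tn (tn (tn (tl 1) te) (tn (tl 1) te)) te)) (tn (tn te (tn (tn te (tl 1)) te)) te)) (tn (tn (tn (tn (tn (tl 2361327365419259953154) te) te) (tn te (tn (tl 2) te))) te) (tn (tn (tn te (tn (tl 1) te)) te) (tn (tn (tn (tl 536887298) te) te) te))))) (tn (tn (tn (tn te (tn (tn (tn (tl 1) te) (tn (tl 2) te)) (tn (tn te (tl 2)) te))) te) (tn (tn (tn (tn (tn (tl 38685626227668133590614017) te) te) (tn te (tn (tl 32769) te))) te) (tn (tn te (tn (tn te (tl 1)) te)) (tn (tn (tn (tl 72061992352874497) te) te) te)))) (tn (tn (tn te (tn (tn (tn (tl 2) te) (tn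 (tl 2) te)) te)) (tn (tn te (tn (tn te (tl 1)) te)) te)) (tn (tn (tn te (tn te (tn (tl 16385) te))) te) (tn (tn (tn te (tn (tl 1) te)) te) te))))) (tn (tn (tn (tn (tn (tn (tn (tn (tl 144119586122383360) te) te) te) (tn (tn te (tn (tl 2) te)) (tn (tn te (tl 1)) te))) te) (tn (tn (tn te (tn te (tn (tl 16385) te))) te) (tn (tn te (tn (tn te (tl 2)) te)) (tn (tn (tn (tl 16384) te) te) te)))) (tn (tn (tn te (tn (tn te (tn (tl 2) te)) te)) (tn (tn te (tn (tn te (tl 2)) te)) te)) (tn (tn (tn (tn (tn (tl 1180735735905755611136) te) te) te) te) (tn (tn (tn te (tn (tl 1) te)) (tn (tn te (tl 1)) te)) te)))) (tn (tn (tn (tn (tn (tn (tn (tl 45671926166595908807636335907069725234752913410) te) te) te) (tn (tn (tn (tl 1) te) (tn (tl 1) te)) te)) (tn (tn te (tn (tn te (tl 2)) te)) te)) (tn (tn (tn (tn (tn (tl 1180663682709495742465) te) te) (tn te (tn (tl 16386) te))) te) (tn (tn te (tn (tn te (tl 2)) te)) (tn (tn (tn (tl 8796361457664) te)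 te) te)))) (tn (tn te (tn te (tn (tn (tn (tl 8796093038592) te) te) te))) (tn (tn (tn te (tn te (tn (tl 32769) te))) te) (tn (tn (tn te (tn (tl 2) te)) te) te))))))

def t24 : Tr ℕ := (tn (tn (tn (tn (tn (tn (tn (tn (tn (tl 4398583382017) te) te) (tn (tn (tl 144119586390802432) te) te)) (tn (tn te (tn (tl 2) te)) (tn (tn te (tl 2)) te))) (tn (tn (tn (tn (tl 14474894632118452659849281066936093994630484300986909126164060463656310177794) te) te) te) te)) (tn te (tn te (tn (tn (tn (tl 536903680) te) te) te)))) (tn (tn (tn te (tn (tn (tn (tl 2) te) te) te)) (tn (tn te (tn (tn te (tl 1)) te)) te)) (tn (tn (tn (tn (tn (tl 2361183241434822623233) te) te) (tn te (tn (tl 2) te))) te) (tn (tn (tn te (tn (tl 2) te)) (tn (tn te (tl 2)) te)) (tn (tn (tn (tl 144119586390835202) te) te) te))))) (tn (tn (tn (tn te (tn (tn (tn (tl 2) te) te) (tn (tn te (tl 2)) te))) (tn (tn te (tn (tn te (tl 2)) te)) te)) (tn (tn (tn (tn (tn (tl 2361327365419528355841)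 te) te) (tn te (tn (tl 32768) te))) te) (tn (tn te (tn (tn te (tl 1)) te)) (tn (tn (tn (tl 72061992621342721) te) te) te)))) (tn (tn (tn te (tn (tn (tn (tl 1) te) (tn (tl 1) te)) te)) te) (tn te (tn (tn (tn te (tn (tl 1) te)) (tn (tn te (tl 1)) te)) te))))) (tn (tn (tn (tn (tn (tn (tn (tn (tl 16384) te) te) te) te) te) (tn (tn (tn te (tn te (tn (tl 16384) te))) te) (tn (tn te (tn (tn te (tl 2)) te)) (tn (tn (tn (tl 8796093038592) te) te) te)))) (tn (tn (tn te (tn (tn (tn (tl 2) te) te) te)) te) (tn (tn (tn (tn (tn (tl 2361183250230915661826) te) te) te) te) te))) (tn (tn (tn (tn (tn (tn (tn (tl 6129982209135481600029296599324922584487331349311520770) te) te) te) (tn (tn (tn (tl 2) te) (tn (tl 2) te)) te)) te) (tn (tn (tn (tn (tn (tl 2361255307824953556993) te) te) (tn te (tn (tl 16385) te))) te) (tn (tn te (tn (tn te (tl 2)) te)) (tn (tn (tn (tl 4398046527489) te) te) te)))) (tn (tn te (tn (tn te (tn (tn te (tl 2)) te)) te))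 (tn (tn (tn te (tn te (tn (tl 32768) te))) te) (tn (tn (tn te (tn (tl 1) te)) (tn (tn te (tl 2)) te)) te))))))

def t25 : Tr ℕ := (tn (tn (tn (tn (tn (tn (tn (tn (tn (tl 72057594574815232) te) te) (tn (tn (tl 4398583398400) te) te)) (tn (tn te (tn (tl 2) te)) (tn (tn te (tl 1)) te))) (tn (tn (tn (tn (tl 7237005577335553423967345220116856833992202181866976125419536008987279360001) te) te) te) te)) (tn te (tn te (tn (tn (tn (tl 72061992084439042) te) te) te)))) (tn (tn (tn te (tn (tn (tn (tl 2) te) (tn (tl 2) te)) te)) (tn (tn te (tn (tn te (tl 1)) te)) te)) (tn (tn (tn (tn (tn (tl 1180591625115994718208) te) te) (tn te (tn (tl 2) te))) te) (tn te (tn (tn (tn (tl 144115188612743168) te) te) te))))) (tn (tn (tn (tn te (tn te (tn (tn te (tl 1)) te))) (tn (tn te (tn (tn te (tl 2)) te)) te)) (tn (tn (tn (tn (tn (tl 38686806963408437661138945) te) te) (tn te (tn (tl 16386) te))) te) (tn (tn te (tn (tn te (tl 1)) te)) (tn (tn (tn (tl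 72057594574798848) te) te) te)))) (tn (tn (tn te (tn (tn (tn (tl 2) te) (tn (tl 2) te)) te)) te) (tn (tn (tn te (tn te (tn (tl 32768) te))) te) (tn (tn (tn te (tn (tl 1) te)) (tn (tn te (tl 1)) te)) te))))) (tn (tn (tn (tn (tn (tn (tn (tn (tl 144119586122383362) te) te) te) (tn (tn te (tn (tl 1) te)) (tn (tn te (tl 2)) te))) te) (tn te (tn te (tn (tn (tn (tl 144123984168878081) te) te) te)))) (tn (tn (tn (tn (tn (tn (tl 1) te) te) te) (tn (tn (tn (tl 1) te) (tn (tl 1) te)) te)) te) (tn (tn (tn (tn (tn (tl 2361183241434822606849) te) te) (tn te (tn (tl 32768) te))) te) (tn (tn (tn te (tn (tl 2) te)) te) te)))) (tn (tn (tn (tn (tn (tn (tn (tl 441711766194596082395824420857655795552779781893926272827794918666665986) te) te) te) (tn (tn (tn (tl 1) te) (tn (tl 2) te)) te)) te) (tn (tn (tn (tn (tn (tl 72061992621326337) te) te) (tn te (tn (tl 32769) te))) te) (tn te (tn (tn (tn (tl 72057594574798849) te) te) te)))) (tn (tn te (tn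 (tn te (tn (tn te (tl 2)) te)) (tn (tn (tn (tl 72066390667853826) te) te) te))) (tn (tn (tn te (tn te (tn (tl 32769) te))) te) (tn (tn (tn te (tn (tl 1) te)) (tn (tn te (tl 2)) te)) te))))))

def t26 : Tr ℕ := (tn (tn (tn (tn (tn (tn (tn (tn (tn (tl 144123984705748992) te) te) (tn (tn (tl 536903682) te) te)) (tn (tn (tn (tl 2) te) te) te)) (tn (tn (tn (tn (tl 45674713929886908279124295172711436551601553408) te) te) (tn (tn te (tl 2)) te)) te)) (tn (tn (tn te (tn (tn te (tl 1)) te)) te) (tn (tn (tn te (tn (tl 1) te)) te) (tn (tn (tn (tl 72061992084439042) te) te) te)))) (tn (tn (tn (tn (tn (tn (tl 1) te) te) te) te) te) te)) (tn (tn te (tn (tn (tn (tn (tn (tl 2361327365418991501314) te) te) (tn (tn te (tl 2)) (tn (tl 16385) te))) te) (tn (tn (tn te (tn (tl 2) te)) te) te))) (tn (tn (tn (tn te (tn (tn te (tl 1)) te)) te) (tn (tn (tn te (tn (tl 1) te)) te) te)) (tn te (tn (tn (tn (tn (tl 1) te) te) te) te))))) (tn (tn (tn (tn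 (tn te (tn (tn (tn (tl 2) te) te) te)) te) (tn (tn (tn te (tn te (tn (tl 16385) te))) te) (tn te (tn (tn (tn (tl 72057594306363393) te) te) te)))) (tn (tn te (tn (tn (tn te (tn (tl 1) te)) te) te)) (tn (tn (tn te (tn (tn te (tl 2)) te)) te) te))) (tn (tn (tn (tn (tn (tn (tn (tl 1645504557321206042154969182557350504982735865633579863348609024) te) te) te) te) te) (tn (tn (tn (tn (tn (tl 1180735740303802105858) te) te) (tn te (tn (tl 1) te))) te) te)) (tn (tn (tn (tn te (tn (tn te (tl 2)) te)) te) (tn (tn (tn te (tn (tl 1) te)) te) (tn (tn (tn (tl 144115188344324097) te) te) te))) (tn te (tn (tn (tn (tn (tl 1) te) te) te) te))))))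

def t27 : Tr ℕ := (tn (tn (tn (tn (tn (tn (tn (tn (tn (tl 72057594574798849) te) te) (tn (tn (tl 536870912) te) te)) te) (tn (tn (tn (tn (tl 45673319963165624674743491055610747639799218178) te) te) (tn (tn te (tl 2)) te)) te)) (tn (tn (tn te (tn (tn te (tl 1)) (tn (tl 16385) te))) te) (tn te (tn (tn (tn (tl 144119586659270657) te) te) te)))) (tn (tn (tn (tn (tn (tn (tl 2) te) te) te) te) te) te)) (tn (tn te (tn (tn (tn (tn (tn (tl 2361255299029397422080) te) te) (tn te (tn (tl 32769) te))) te) te)) (tn (tn (tn (tn te (tn (tn te (tl 1)) te)) te) (tn (tn (tn te (tn (tl 1) te)) te) te)) (tn (tn (tn te (tn (tn te (tl 1)) te)) te) te)))) (tn (tn (tn (tn te (tn (tn te (tn (tn te (tl 2)) te)) te)) (tn (tn (tn te (tn (tn te (tl 1)) (tn (tl 32769) te))) te) (tn (tn (tn te (tn (tl 2) te)) te) (tn (tn (tn (tl 8796361474048) te) te) te)))) (tn (tn te (tn (tn (tn te (tn (tl 2) te)) te) te)) (tn (tn (tn te (tn (tn te (tl 1)) te)) te) te)))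 (tn (tn (tn (tn (tn (tn (tn (tl 26959946667150639794667015087019630673637144422540572481103610249216) te) te) te) te) te) (tn (tn (tn (tn (tn (tl 4398314946560) te) te) (tn (tn te (tl 1)) (tn (tl 16386) te))) te) (tn (tn (tn te (tn (tl 1) te)) te) te))) (tn (tn te (tn (tn (tn te (tn (tl 2) te)) te) (tn (tn (tn (tl 144123984168910848) te) te) te))) (tn (tn (tn te (tn (tn te (tl 1)) te)) te) te)))))

def t28 : Tr ℕ := (tn (tn (tn (tn (tn (tn (tn (tn (tn (tl 1180735740304070541312) te) te) (tn (tn (tl 32769) te) te)) (tn (tn (tn (tl 1) te) te) te)) (tn (tn (tn (tn (tl 12259964372600430915108184919039114037513288643722100738) te) te) (tn (tn te (tl 2)) te)) te)) (tn (tn (tn te (tn (tn te (tl 1)) (tn (tl 32769) te))) te) (tn (tn (tn te (tn (tl 1) te)) te) (tn (tn (tn (tl 72061992084471808) te) te) te)))) (tn (tn (tn (tn (tn (tn (tl 1) te) te) te) te) te) te)) (tn (tn te (tn (tn (tn (tn (tn (tl 2361327361020945006593) te) te) (tn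 (tn te (tl 2)) (tn (tl 1) te))) te) (tn (tn (tn te (tn (tl 1) te)) te) te))) (tn (tn (tn (tn te (tn (tn te (tl 1)) te)) te) (tn (tn (tn te (tn (tl 2) te)) te) te)) (tn (tn (tn te (tn (tn te (tl 1)) te)) te) te)))) (tn (tn (tn (tn te (tn (tn te (tn (tn te (tl 1)) te)) te)) (tn (tn (tn te (tn (tn te (tl 2)) (tn (tl 1) te))) te) (tn te (tn (tn (tn (tl 72066390667853824) te) te) te)))) (tn (tn te (tn (tn (tn te (tn (tl 2) te)) te) te)) (tn (tn (tn te (tn (tn te (tl 2)) te)) te) te))) (tn (tn (tn (tn (tn (tn (tn (tl 1645504563451188205618524615990739247409272714223237100434620416) te) te) te) te) te) (tn (tn (tn (tn (tn (tl 72066390667837441) te) te) (tn (tn te (tl 1)) (tn (tl 32768) te))) te) te)) (tn (tn (tn (tn te (tn (tn te (tl 2)) te)) te) (tn (tn (tn te (tn (tl 1) te)) te) (tn (tn (tn (tl 144115188612726785) te) te) te))) (tn te (tn (tn (tn (tn (tl 2) te) te) te) te))))))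

def t29 : Tr ℕ := (tn (tn (tn (tn (tn (tn (tn (tn (tn (tl 4398583414785) te) te) (tn (tn (tl 4398314962944) te) te)) te) (tn (tn (tn (tn (tl 12260338494185018254459010785383604300789862090240196610) te) te) (tn (tn te (tl 1)) te)) te)) (tn (tn (tn te (tn (tn te (tl 1)) (tn (tl 16384) te))) te) (tn (tn (tn te (tn (tl 2) te)) te) (tn (tn (tn (tl 72066390399418369) te) te) te)))) (tn (tn (tn (tn (tn (tn (tl 2) te) te) te) te) (tn (tn (tn te (tn (tl 2) te)) te) te)) te)) (tn (tn te (tn (tn (tn (tn (tn (tl 1180663678311717666816) te) te) (tn (tn te (tl 1)) (tn (tl 32770) te))) te) te)) (tn (tn (tn (tn te (tn (tn te (tl 1)) te)) te) te) (tn (tn (tn te (tn (tn te (tl 2)) te)) te) (tn (tn (tn (tn (tl 2) te) te) te) te))))) (tn (tn (tn te (tn (tn (tn te (tn (tn te (tl 2)) te)) te) (tn (tn (tn te (tn (tl 2) te)) te) (tn (tn (tn (tl 144123984437313538) te) te) te)))) (tn (tn te (tn (tn (tn te (tn (tl 2) te)) te) te)) te)) (tn (tn (tn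 (tn (tn (tn (tn (tl 1645605003208936555977089100275306102975174802898341566546477056) te) te) te) te) te) (tn (tn (tn (tn (tn (tl 2361255307825490427904) te) te) (tn (tn te (tl 1)) (tn (tl 2) te))) te) (tn (tn (tn te (tn (tl 1) te)) te) te))) (tn (tn (tn (tn te (tn (tn te (tl 1)) te)) te) (tn (tn (tn te (tn (tl 1) te)) te) (tn (tn (tn (tl 144119586390802433) te) te) te))) (tn (tn (tn te (tn (tn te (tl 1)) te)) te) te)))))

def t30 : Tr ℕ := (tn (tn (tn (tn (tn (tn (tn te (tn (tn te (tl 1)) te)) te) (tn (tn (tn (tn (tl 19343993705459182789984256) te) (tn (tl 1) te)) te) (tn (tn (tn (tl 144123984705765376) te) te) te))) (tn (tn (tn (tn (tn (tl 38686806891350843623243776) te) te) te) (tn (tn (tn (tl 72061992621326337) te) (tn (tl 2) te)) te)) (tn te (tn (tn (tn te (tl 1)) te) te)))) (tn (tn (tn (tn (tn te (tn (tl 1) te)) (tn te (tn (tl 1) te))) te) (tn te (tn (tn (tn (tl 536887296) te) te) te))) (tn (tn (tn (tn (tn (tl 140001134803945001641963134609205879525740346353514972152074321556530546822710626900964590965214953473)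 te) te) te) (tn (tn te (tn (tl 16385) te)) te)) (tn (tn (tn (tn (tl 1) te) te) te) (tn (tn (tn (tl 72057594574815232) (tl 2)) (tn (tl 2) te)) te))))) (tn (tn (tn (tn (tn (tn (tn (tl 38685626299725727628525568) te) te) (tn te (tn (tl 16384) te))) te) (tn te (tn (tn (tn (tl 144123984705748992) te) te) te))) (tn (tn (tn (tn te (tn (tl 2) te)) te) (tn (tn (tn (tl 144115188075888641) te) (tn (tl 32770) te)) te)) (tn te (tn (tn (tn (tl 38686806891350843086372864) (tl 2)) (tn (tl 16384) te)) te)))) (tn (tn (tn (tn (tn (tn (tl 19345174369133096192737282) te) te) (tn te (tn (tl 16386) te))) te) (tn te (tn (tn (tn (tl 268468226) te) te) te))) (tn (tn (tn (tn (tn (tl 12260338517020981337764754109839205587792210815021498370) te) (tn (tl 2) te)) te) (tn (tn te (tn (tl 32770) te)) te)) (tn te (tn (tn (tn (tl 8796361490433) (tl 1)) (tn (tl 16386) te)) te)))))) (tn (tn (tn (tn (tn (tn (tn (tn (tl 38685626299725727628525568) te) te) (tn te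 (tn (tl 1) te))) te) (tn te (tn (tn (tn (tl 72057594306379776) te) te) te))) (tn (tn (tn (tn (tn (tl 2361255303427175514114) te) (tn (tl 2) te)) te) (tn (tn (tn (tl 144115188612759552) te) (tn (tl 2) te)) te)) (tn te (tn (tn (tn te (tl 2)) te) te)))) (tn (tn (tn (tn (tn te (tn (tl 2) te)) (tn (tn te (tl 1)) te)) te) (tn te (tn (tn (tn (tl 268468224) te) te) te))) (tn (tn (tn (tn (tn (tl 2361183241434822606848) te) (tn (tl 1) te)) te) (tn (tn te (tn (tl 32769) te)) te)) (tn (tn (tn (tn (tl 2) te) te) te) (tn (tn (tn (tl 4398314962945) te) (tn (tl 16386) te)) te))))) (tn (tn (tn (tn (tn (tn (tn (tl 4398046511104) te) (tn (tl 2) te)) (tn te (tn (tl 2) te))) te) (tn (tn (tn te (tn (tl 2) te)) te) (tn (tn (tn (tl 536903681) te) te) te))) (tn (tn (tn (tn te (tn (tl 1) te)) te) (tn (tn te (tn (tl 16385) te)) te)) (tn (tn (tn (tn (tl 2) te) te) te) (tn (tn (tn (tl 19342813257958051501080576) te) (tn (tl 16384) te)) te)))) (tn (tn (tn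 (tn (tn te (tn (tl 1) te)) (tn te (tn (tl 32768) te))) (tn (tn (tn (tl 144119586390818818) te) (tn (tl 32768) te)) te)) te) (tn (tn (tn (tn (tn (tl 374144419156881293436217576935978675786477402603522) te) (tn (tl 2) te)) te) te) (tn te (tn (tn (tn (tl 4398583414785) te) (tn (tl 2) te)) te)))))))

def t31 : Tr ℕ := (tn (tn (tn (tn (tn (tn (tn te (tn (tn te (tl 1)) (tn (tl 32769) te))) te) (tn (tn (tn (tn (tl 22835963168376334420903603845406469099519737856) te) (tn (tl 1) te)) te) (tn (tn (tn (tl 268451840) te) te) te))) (tn (tn (tn (tn (tn (tl 2361183241435091075074) te) te) te) (tn (tn (tn (tl 8796361490433) te) te) te)) te)) (tn (tn (tn (tn (tn te (tn (tl 1) te)) (tn te (tn (tl 32770) te))) te) (tn te (tn (tn (tn (tl 144115188612759554) te) te) te))) (tn (tn (tn (tn (tn (tl 279968093815219776832973429247973820966922923226282435880226685415606513909440134042585372007656849409) te) (tn (tl 1) te)) te) (tn (tn te (tn (tl 16384)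 te)) te)) (tn (tn (tn (tn (tl 1) te) te) te) (tn (tn (tn (tl 38687987482975958544187393) (tl 1)) te) te))))) (tn (tn (tn (tn (tn (tn (tn (tl 2361327356622898462720) te) te) (tn (tn te (tl 2)) (tn (tl 2) te))) te) (tn (tn (tn te (tn (tl 2) te)) te) (tn (tn (tn (tl 72057594574798848) te) te) te))) (tn (tn te (tn (tn (tn (tl 144115188344307714) te) (tn (tl 32768) te)) te)) (tn (tn (tn (tn (tl 2) te) te) te) (tn (tn (tn (tl 19342813185896058879737856) (tl 2)) te) te)))) (tn (tn (tn (tn (tn (tn (tl 19342813185900457463136256) te) (tn (tl 1) te)) (tn te (tn (tl 16385) te))) te) (tn te (tn (tn (tn (tl 268468226) te) te) te))) (tn (tn (tn (tn (tn (tl 748288838313592435303747142269275484713998385938433) te) (tn (tl 1) te)) te) (tn (tn te (tn (tl 1) te)) te)) (tn te (tn (tn (tn (tl 4398583398401) (tl 1)) (tn (tl 32769) te)) te)))))) (tn (tn (tn (tn (tn (tn (tn (tn (tl 2361327356622898462720) te) te) (tn te (tn (tl 16385) te))) te) (tn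 te (tn (tn (tn (tl 72066390399418368) te) te) te))) (tn (tn (tn (tn (tn (tl 1180735744702117085184) te) (tn (tl 1) te)) te) (tn (tn (tn (tl 144119586659237890) te) (tn (tl 32770) te)) te)) (tn te (tn (tn (tn te (tl 1)) te) te)))) (tn (tn (tn (tn (tn te (tn (tl 2) te)) (tn te (tn (tl 32768) te))) te) (tn te (tn (tn (tn (tl 144115188075872257) te) te) te))) (tn (tn (tn (tn (tn (tl 279968092772225526319680285071055534765205687166591156189427142283915668278668937623951640159013830658) te) (tn (tl 1) te)) te) te) (tn (tn (tn (tn (tl 1) te) te) te) (tn (tn (tn (tl 4398583398401) te) (tn (tl 16384) te)) te))))) (tn (tn (tn (tn (tn (tn (tn (tl 316912650057057350374175801344) te) (tn (tl 2) te)) (tn (tn te (tl 2)) (tn (tl 32768) te))) te) (tn (tn (tn te (tn (tl 2) te)) te) (tn (tn (tn (tl 144115188075855872) te) te) te))) (tn (tn (tn (tn te (tn (tl 1) te)) te) (tn (tn te (tn (tl 32768) te)) te)) (tn te (tn (tn (tn (tl 19345174441199486055219200)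 te) (tn (tl 1) te)) te)))) (tn (tn (tn (tn (tn te (tn (tl 2) te)) (tn te (tn (tl 16385) te))) (tn (tn (tn (tl 72066390399401985) te) te) te)) te) (tn (tn (tn (tn (tn (tl 374144420550507721968941127508271923186025384394752) te) (tn (tl 1) te)) te) te) (tn te (tn (tn (tn (tl 4398583398401) (tl 1)) (tn (tl 32768) te)) te)))))))

def t32 : Tr ℕ := (tn (tn (tn (tn (tn (tn (tn te (tn (tn te (tl 1)) (tn (tl 32769) te))) te) (tn (tn (tn (tn (tl 1393796574908163965688795505878987972804608) te) (tn (tl 2) te)) te) (tn (tn (tn (tl 144115188344307713) te) te) te))) (tn (tn (tn (tn (tn (tl 1180591629513772793857) te) (tn (tl 2) te)) te) (tn (tn (tn (tl 144119586390802432) te) (tn (tl 16386) te)) te)) (tn te (tn (tn (tn te (tl 1)) te) te)))) (tn (tn (tn (tn (tn te (tn (tl 2) te)) (tn (tn te (tl 1)) (tn (tl 32769) te))) te) (tn te (tn (tn (tn (tl 4398046527489) te) te) te))) (tn (tn (tn (tn (tn (tl 279968092772225528262586326733431684040730917342676619050462677852748703053879019177894921462848962562)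 te) (tn (tl 2) te)) te) (tn (tn te (tn (tl 16385) te)) te)) (tn (tn (tn (tn (tl 2) te) te) te) (tn (tn (tn (tl 38687987555033552850550786) (tl 2)) (tn (tl 32769) te)) te))))) (tn (tn (tn (tn (tn (tn (tn (tl 38685626299730125675036672) te) te) (tn te (tn (tl 2) te))) te) (tn (tn (tn te (tn (tl 2) te)) te) (tn (tn (tn (tl 72057594306363394) te) te) te))) (tn (tn te (tn (tn (tn (tl 72066390130966528) te) (tn (tl 2) te)) te)) (tn te (tn (tn (tn (tl 1180663682710032613378) (tl 2)) (tn (tl 2) te)) te)))) (tn (tn (tn (tn (tn (tn (tl 19342813257949255139622914) te) (tn (tl 1) te)) (tn te (tn (tl 32770) te))) te) (tn te (tn (tn (tn (tl 144123984705748994) te) te) te))) (tn (tn (tn (tn (tn (tl 374167256513591022518701054632870401265423311994880) te) (tn (tl 1) te)) te) (tn (tn te (tn (tl 16384) te)) te)) (tn te (tn (tn (tn (tl 268435458) (tl 1)) (tn (tl 16385) te)) te)))))) (tn (tn (tn (tn (tn (tn (tn (tn (tl 38685626299730125675036672)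 te) te) (tn te (tn (tl 32769) te))) te) (tn te (tn (tn (tn (tl 72057594574831616) te) te) te))) (tn (tn (tn (tn (tn (tl 1180591625115994701824) te) (tn (tl 2) te)) te) (tn (tn (tn (tl 536870913) te) (tn (tl 32769) te)) te)) te)) (tn (tn te (tn te (tn (tn (tn (tl 72066390399385601) te) te) te))) (tn (tn (tn (tn (tn (tl 139984046907657634361185403335735799560160796943370726696854526710052318176658492326971090758233227264) te) te) te) (tn (tn te (tn (tl 32768) te)) te)) (tn (tn (tn (tn (tl 1) te) te) te) (tn (tn (tn (tl 32770) te) (tn (tl 16385) te)) te))))) (tn (tn (tn (tn (tn (tn (tn (tl 19342813113838465378680832) te) (tn (tl 2) te)) (tn (tn te (tl 2)) (tn (tl 16384) te))) te) (tn (tn (tn te (tn (tl 2) te)) te) (tn (tn (tn (tl 72066390130966529) te) te) te))) (tn (tn (tn (tn te (tn (tl 1) te)) te) te) (tn te (tn (tn (tn (tl 19345174441199486055235584) te) (tn (tl 16386) te)) te)))) (tn (tn (tn (tn te (tn te (tn (tl 1) te)))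 (tn (tn (tn (tl 268451840) te) (tn (tl 16385) te)) te)) te) (tn (tn (tn (tn (tn (tl 45673320048236216088084800858174570297366167552) te) (tn (tl 2) te)) te) te) (tn te (tn (tn (tn (tl 536870913) te) te) te)))))))

def t33 : Tr ℕ := (tn (tn (tn (tn (tn (tn (tn te (tn (tn te (tl 1)) (tn (tl 16385) te))) te) (tn (tn (tn (tn (tl 22837356879880650854615333961954862162755190784) te) te) te) (tn (tn (tn (tl 144115188612759553) te) te) te))) (tn (tn (tn (tn (tn (tl 1180735740303802138624) te) te) te) (tn (tn (tn (tl 72057594037927936) te) (tn (tl 32768) te)) te)) (tn te (tn (tn (tn te (tl 1)) te) te)))) (tn (tn te (tn te (tn (tn (tn (tl 8796361474048) te) te) te))) (tn (tn (tn (tn (tn (tl 139984047429107015615683615075359978285735968108404980906861390020058359053617991802887476153740689408) te) (tn (tl 1) te)) te) (tn (tn te (tn (tl 32768) te)) te)) (tn te (tn (tn (tn (tl 19343993849569972819329024) te) te) te))))) (tn (tn (tn (tn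 (tn (tn (tn (tl 2361183245832869117952) te) (tn (tl 1) te)) (tn (tn te (tl 1)) (tn (tl 16386) te))) te) (tn te (tn (tn (tn (tl 72066390399418370) te) te) te))) (tn (tn te (tn (tn (tn (tl 72066390130966529) te) (tn (tl 32768) te)) te)) (tn (tn (tn (tn (tl 1) te) te) te) (tn (tn (tn (tl 38687987410913966996619266) (tl 2)) (tn (tl 16384) te)) te)))) (tn (tn (tn (tn (tn (tn (tl 2361183245833137569793) te) (tn (tl 2) te)) (tn te (tn (tl 2) te))) te) (tn te (tn (tn (tn (tl 144115188075888641) te) te) te))) (tn (tn (tn (tn (tn (tl 12260712638604175135757638982848393068920459939129851905) te) (tn (tl 1) te)) te) (tn (tn te (tn (tl 32769) te)) te)) (tn te (tn (tn (tn (tl 4398046511106) (tl 1)) (tn (tl 32769) te)) te)))))) (tn (tn (tn (tn (tn (tn (tn (tn (tl 2361183245832869117952) te) te) (tn (tn te (tl 2)) (tn (tl 16385) te))) te) (tn (tn (tn te (tn (tl 1) te)) te) (tn (tn (tn (tl 144119586122383361) te) te) te))) (tn (tn (tn (tn (tn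 (tl 38687987410913966728151042) te) te) te) (tn (tn (tn (tl 72057594306363392) te) (tn (tl 16384) te)) te)) (tn te (tn (tn (tn te (tl 1)) te) te)))) (tn (tn (tn (tn (tn te (tn (tl 2) te)) (tn (tn te (tl 2)) te)) te) (tn te (tn (tn (tn (tl 72061992621309954) te) te) te))) (tn (tn (tn (tn (tn (tl 14474452893390665892046665025790812054645037666505740608777746574514673713152) te) (tn (tl 2) te)) te) (tn (tn te (tn (tl 32768) te)) te)) (tn te (tn (tn (tn (tl 8796361474050) (tl 1)) (tn (tl 32768) te)) te))))) (tn (tn (tn (tn (tn (tn (tn (tl 316931995231354430274377089024) te) (tn (tl 2) te)) (tn (tn te (tl 2)) (tn (tl 16384) te))) te) (tn (tn (tn te (tn (tl 1) te)) te) (tn (tn (tn (tl 72066390667821058) te) te) te))) (tn (tn (tn (tn te (tn (tl 2) te)) te) (tn (tn te (tn (tl 16385) te)) te)) (tn te (tn (tn (tn (tl 19345174297084297979363329) te) (tn (tl 1) te)) te)))) (tn (tn (tn (tn (tn te (tn (tl 1) te)) (tn te (tn (tl 32769) te)))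 (tn (tn (tn (tl 8796361457666) te) te) te)) te) (tn (tn (tn (tn (tn (tl 45671926251666500854822287456342515186583732225) te) (tn (tl 2) te)) te) te) (tn te (tn (tn (tn (tl 4398583414784) (tl 2)) (tn (tl 16385) te)) te)))))))

def t34 : Tr ℕ := (tn (tn (tn (tn (tn (tn (tn (tn (tn (tl 2787593149816327912034778042030300059418626) te) (tn (tl 1) te)) (tn te (tn (tl 16385) te))) (tn (tn te (tn (tl 16386) te)) te)) (tn (tn (tn (tn (tl 5192296858537188811771931151826944) te) te) te) (tn (tn (tn (tl 144115188075872257) te) (tn (tl 16386) te)) (tn (tn (tl 1) te) te)))) (tn (tn (tn (tn (tn (tl 1180735744701580214272) te) te) te) (tn (tn (tn te (tl 2)) te) te)) (tn (tn (tn (tn (tl 2) te) te) te) (tn (tn (tn (tl 4398046511104) te) (tn (tl 16384) te)) (tn (tn (tl 2) te) te))))) (tn (tn (tn (tn te (tn te (tn (tl 16386) te))) (tn (tn (tn (tl 144119586659254274) te) (tn (tl 32770) te)) te)) (tn te (tn (tn (tn (tl 536903681) (tl 2)) te) (tn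 (tn (tl 2) te) te)))) (tn (tn (tn (tn (tn (tl 7237447289101747919603852565712218093364447527033408015140431019167361024000) te) te) te) (tn (tn (tn (tl 72061992084455424) (tl 1)) te) te)) (tn (tn (tn te (tn (tl 32769) te)) te) (tn (tn te (tn (tl 2) te)) (tn (tn (tl 2) te) te)))))) (tn (tn (tn (tn (tn (tn (tn (tl 10385227561712582485595807805341696) te) te) (tn te (tn (tl 32770) te))) (tn (tn (tn (tl 72057594306363394) te) te) te)) (tn te (tn (tn (tn (tl 8796361457666) (tl 2)) te) (tn (tn (tl 1) te) te)))) (tn (tn (tn (tn (tn (tl 279968092772225526319680285071055534765205687154331191862500031417059276655183533810258792572249964546) te) te) te) (tn (tn (tn te (tl 2)) te) te)) (tn te (tn (tn (tn (tl 4398314962944) te) (tn (tl 32768) te)) (tn (tn (tl 1) te) te))))) (tn (tn (tn (tn te (tn te (tn (tl 16386) te))) (tn (tn (tn (tl 72061992621309952) (tl 2)) (tn (tl 32768) te)) te)) (tn te (tn (tn (tn (tl 8796629909505) (tl 2)) (tn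 (tl 16384) te)) (tn (tn (tl 2) te) te)))) (tn (tn (tn (tn (tn (tl 7237889027824598274168134251449933441734490712665191661106187756098281275394) te) te) te) (tn (tn (tn (tl 144115188612726784) (tl 1)) te) te)) (tn (tn (tn te (tn (tl 1) te)) te) (tn (tn (tn (tl 536870913) te) (tn (tl 32769) te)) te)))))) (tn (tn (tn (tn (tn (tn (tn (tn (tl 2361183241434822606848) te) (tn (tl 2) te)) (tn te (tn (tl 1) te))) (tn (tn te (tn (tl 32768) te)) te)) (tn te (tn (tn (tn (tl 72061992352874497) (tl 2)) (tn (tl 16384) te)) (tn (tn (tl 2) te) te)))) (tn (tn (tn (tn (tn (tl 144119586659237889) te) te) te) (tn (tn (tn te (tl 2)) te) te)) (tn (tn (tn (tn (tl 1) te) te) te) (tn (tn (tn (tl 19345174297075501886341122) te) (tn (tl 32768) te)) te)))) (tn (tn (tn (tn (tn (tn (tl 19342813185891660833243138) te) te) (tn te (tn (tl 32770) te))) (tn (tn (tn (tl 144123984437313537) te) (tn (tl 16385) te)) te)) (tn te (tn (tn (tn (tl 72066390130950145)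 (tl 2)) te) te))) (tn (tn (tn (tn (tn (tl 237149435763654822028727082471039958965999123076888939186234922961914712681365505) te) te) te) (tn (tn (tn (tl 72057594574815233) (tl 2)) te) te)) (tn (tn (tn te (tn (tl 2) te)) te) (tn (tn (tn (tl 8796093038592) te) (tn (tl 32768) te)) (tn (tn (tl 2) te) te)))))) (tn (tn (tn (tn (tn (tn (tn (tl 72057594574798848) te) te) (tn te (tn (tl 16386) te))) (tn (tn (tn (tl 8796361474049) te) (tn (tl 1) te)) te)) (tn te (tn (tn (tn (tl 72066390130950145) te) te) te))) (tn (tn (tn (tn (tn (tl 139984046907657634361185403335735799560160796943370352552435369998905258033341316958590116433540153344) te) te) te) (tn (tn (tn (tl 72061992352907266) te) te) te)) (tn te (tn (tn (tn (tl 72057594037944320) te) (tn (tl 32768) te)) te)))) (tn (tn (tn (tn (tn (tn (tl 38687987410909568950075392) te) te) (tn te (tn (tl 16385) te))) (tn (tn (tn te (tl 1)) te) te)) (tn (tn (tn (tn (tl 1) te) te) te) (tn (tn (tn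 (tl 2361255299028860551170) (tl 1)) (tn (tl 2) te)) (tn (tn (tl 2) te) te)))) (tn (tn (tn (tn (tn (tl 118585573831932138017204579227578833811367479176716651708366546529024945602707457) te) te) te) (tn (tn (tn (tl 72057594574798850) te) (tn (tl 32769) te)) te)) (tn (tn (tn te (tn (tl 1) te)) te) (tn (tn (tn (tl 8796093038592) te) (tn (tl 1) te)) te)))))))

def t35 : Tr ℕ := (tn (tn (tn (tn (tn (tn (tn (tn (tn (tl 38687987410909568681639937) te) (tn (tl 2) te)) te) (tn (tn te (tn (tl 2) te)) te)) (tn (tn (tn (tn (tl 748311674276505589478383566926248097986019585949697) te) te) te) (tn (tn (tn (tl 72057594574831618) (tl 2)) te) (tn (tn (tl 2) te) te)))) (tn (tn (tn (tn (tn (tl 144123984705781760) te) te) te) (tn (tn (tn te (tl 1)) te) te)) (tn te (tn (tn (tn (tl 38687987482967162451132417) te) (tn (tl 16385) te)) (tn (tn (tl 1) te) te))))) (tn (tn (tn te (tn (tn (tn (tl 144119586122399745) (tl 1)) (tn (tl 16384) te)) te)) (tn te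 (tn (tn (tn (tl 144115188612743169) (tl 1)) (tn (tl 32769) te)) (tn (tn (tl 1) te) te)))) (tn (tn (tn (tn (tn (tl 7237005604295500091117984640639449976537394795572402760907773163842673065986) te) te) te) (tn (tn (tn (tl 72057594306379777) (tl 2)) te) te)) (tn (tn (tn te (tn (tl 1) te)) te) (tn (tn (tn (tl 72061992352890880) te) (tn (tl 32769) te)) (tn (tn (tl 1) te) te)))))) (tn (tn (tn (tn (tn (tn (tn (tl 5192296897222815039444462788935680) te) te) (tn te (tn (tl 32770) te))) (tn (tn (tn (tl 144119586659254272) te) te) te)) (tn te (tn (tn (tn (tl 72061992084455425) te) (tn (tl 32769) te)) (tn (tn (tl 2) te) te)))) (tn (tn (tn (tn (tn (tl 279968093815219776832973429247973820966922923226282435880226685500677105322762099851371673491423100929) te) te) te) te) (tn te (tn (tn (tn (tl 72057594306396162) te) (tn (tl 32770) te)) (tn (tn (tl 2) te) te))))) (tn (tn (tn (tn te (tn te (tn (tl 1) te))) (tn (tn (tn (tl 144123984705781761)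 (tl 2)) (tn (tl 32768) te)) te)) (tn te (tn (tn (tn (tl 144115188075855873) te) (tn (tl 32768) te)) (tn (tn (tl 2) te) te)))) (tn (tn (tn (tn (tn (tl 237142199641474060563433126357750728400578171216107124257037720182443099755118593) te) te) te) (tn (tn (tn (tl 72066390130966529) (tl 1)) te) te)) (tn (tn (tn te (tn (tl 16384) te)) te) (tn (tn (tn (tl 72061992621342721) te) (tn (tl 32769) te)) (tn (tn (tl 2) te) te))))))) (tn (tn (tn (tn (tn (tn (tn (tn (tl 1180735744701848616960) te) te) (tn te (tn (tl 32769) te))) (tn (tn te (tn (tl 1) te)) te)) (tn te (tn (tn (tn (tl 72066390667821056) (tl 2)) (tn (tl 16386) te)) (tn (tn (tl 2) te) te)))) (tn (tn (tn (tn (tn (tl 8796093038593) te) te) te) te) (tn te (tn (tn (tn (tl 38687987555024756757495809) te) (tn (tl 16384) te)) te)))) (tn (tn (tn (tn (tn (tn (tl 2361183250230915661825) te) te) (tn te (tn (tl 1) te))) (tn (tn (tn (tl 72066390130950144) (tl 1)) te) te)) (tn te (tn (tn (tn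 (tl 4398314979330) (tl 1)) (tn (tl 16386) te)) te))) (tn (tn (tn (tn (tn (tl 14474011181626116700094092623457188591172594938092731664074776489025402339330) te) te) te) (tn (tn (tn (tl 144119586122366976) (tl 1)) te) te)) (tn te (tn (tn (tn (tl 8796629909505) te) te) te))))) (tn (tn (tn (tn (tn (tn (tn (tl 633844642927228534815415336960) te) te) (tn te (tn (tl 32769) te))) (tn (tn (tn (tl 8796361474048) te) te) te)) (tn te (tn (tn (tn (tl 72057594037944322) (tl 2)) (tn (tl 1) te)) (tn (tn (tl 1) te) te)))) (tn (tn (tn (tn (tn (tl 279968092772225528262586326733431684040730917354936583354555219432895029338095263118044952780787957762) te) te) te) (tn (tn (tn (tl 72057594306396161) (tl 1)) te) te)) (tn te (tn (tn (tn (tl 72061992084455426) te) (tn (tl 32770) te)) (tn (tn (tl 2) te) te))))) (tn (tn (tn (tn (tn (tn (tl 19343993777521174337568769) te) te) (tn te (tn (tl 1) te))) (tn (tn (tn te (tl 2)) te) te)) (tn (tn (tn (tn (tl 2)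 te) te) te) (tn (tn (tn (tl 19343993705459182790000641) (tl 1)) (tn (tl 32770) te)) (tn (tn (tl 1) te) te)))) (tn (tn (tn (tn (tn (tl 14474452920353903568311946484276136123402288595713773107997333706336219693056) te) te) te) (tn (tn (tn (tl 72061992084471809) (tl 2)) (tn (tl 32769) te)) te)) (tn (tn (tn te (tn (tl 32768) te)) te) (tn (tn (tn (tl 144115188344307714) te) (tn (tl 2) te)) te)))))))

def t36 : Tr ℕ := (tn (tn (tn (tn (tn (tn (tn (tn (tn (tl 2787593149816327912035958633651017470705666) te) te) te) (tn (tn te (tn (tl 32768) te)) te)) (tn (tn (tn (tn (tl 374144419156711147060143317177729636273353553608704) te) te) te) (tn (tn (tn (tl 8796629909505) (tl 2)) (tn (tl 32769) te)) (tn (tn (tl 2) te) te)))) (tn (tn (tn (tn (tn (tl 2361255299028860567554) te) te) te) (tn (tn (tn te (tl 2)) te) te)) (tn (tn (tn (tn (tl 2) te) te) te) (tn (tn (tn (tl 19345174441190689962229760) te) (tn (tl 32769) te)) (tn (tn (tl 2) te) te)))))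 (tn (tn (tn (tn te (tn te (tn (tl 32769) te))) (tn (tn (tn (tl 144115188075888640) te) te) te)) (tn te (tn (tn (tn (tl 268435457) (tl 2)) (tn (tl 16384) te)) te))) (tn (tn (tn (tn (tn (tl 14474011181626116700094092623457188591172589745795892469699006493567007883266) te) te) te) (tn (tn (tn (tl 144115188344307714) te) te) te)) (tn te (tn (tn (tn (tl 8796093022208) te) (tn (tl 16386) te)) (tn (tn (tl 1) te) te)))))) (tn (tn (tn (tn (tn (tn (tn (tl 10385227561713763077216525216645120) te) te) (tn te (tn (tl 32768) te))) (tn (tn (tn (tl 72057594306396162) te) (tn (tl 1) te)) te)) (tn te (tn (tn (tn (tl 72061992621326338) te) (tn (tl 16386) te)) te))) (tn (tn (tn (tn (tn (tl 279968092772225526319680285071055534765205787587958958049392252789690047977846191447945899598755659778) te) te) te) te) (tn te (tn (tn (tn (tl 72057594574798849) te) (tn (tl 16385) te)) (tn (tn (tl 2) te) te))))) (tn (tn (tn (tn te (tn te (tn (tl 16385) te)))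 (tn (tn (tn (tl 4398046527490) te) te) te)) (tn te (tn (tn (tn (tl 4398583382018) (tl 1)) (tn (tl 16386) te)) te))) (tn (tn (tn (tn (tn (tl 237149435763654823674030778667069912384668333156911090682686213213522207724044289) te) te) te) (tn (tn (tn (tl 144123984705781761) (tl 1)) te) te)) (tn (tn (tn te (tn (tl 16385) te)) te) (tn (tn (tn (tl 144115188075888641) te) (tn (tl 32768) te)) (tn (tn (tl 1) te) te))))))) (tn (tn (tn (tn (tn (tn (tn (tn (tl 2361183245832869117952) te) (tn (tl 1) te)) (tn te (tn (tl 1) te))) (tn (tn te (tn (tl 32768) te)) te)) (tn te (tn (tn (tn (tl 536887296) (tl 2)) te) (tn (tn (tl 2) te) te)))) (tn (tn (tn (tn (tn (tl 2361183250231184064512) te) te) te) (tn (tn (tn te (tl 2)) te) te)) (tn te (tn (tn (tn (tl 2361183250230915645442) te) (tn (tl 32768) te)) (tn (tn (tl 2) te) te))))) (tn (tn (tn (tn (tn (tn (tl 19343993777512378781417473) te) te) (tn te (tn (tl 32768) te))) (tn (tn (tn (tl 144123984168910848)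 (tl 2)) (tn (tl 16384) te)) te)) (tn te (tn (tn (tn (tl 8796629893122) (tl 1)) (tn (tl 16384) te)) (tn (tn (tl 1) te) te)))) (tn (tn (tn (tn (tn (tl 237149435763654822028727082471039958965999123076888939147549296734246579090767872) te) te) te) (tn (tn (tn (tl 536903682) (tl 2)) te) te)) (tn (tn (tn te (tn (tl 32768) te)) te) (tn (tn (tn (tl 144123984168894466) te) (tn (tl 1) te)) (tn (tn (tl 2) te) te)))))) (tn (tn (tn (tn (tn (tn (tn (tl 316912650057057350374712672256) te) te) (tn te (tn (tl 16385) te))) (tn (tn (tn (tl 72066390667821056) te) (tn (tl 16386) te)) te)) (tn te (tn (tn (tn (tl 144123984705748992) te) (tn (tl 16384) te)) (tn (tn (tl 2) te) te)))) (tn (tn (tn (tn (tn (tl 139984046907657634361185403335735799556869787828727940468125431633790557023375845227250899112805007360) te) te) te) (tn (tn (tn (tl 72057594037944322) te) te) te)) (tn te (tn (tn (tn (tl 144123984168910849) te) (tn (tl 2) te)) (tn (tn (tl 2) te)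 te))))) (tn (tn (tn (tn (tn (tn (tl 19342813185896058879754241) te) te) (tn te (tn (tl 32770) te))) (tn (tn (tn te (tl 1)) te) te)) (tn (tn (tn (tn (tl 2) te) te) te) (tn (tn (tn (tl 19343993705459182521548800) te) (tn (tl 32770) te)) (tn (tn (tl 2) te) te)))) (tn (tn (tn (tn (tn (tl 237149435763654823674231633662637982076569498277319748630950743616084081557667841) te) te) te) (tn (tn (tn (tl 144119586390818818) (tl 2)) te) te)) (tn (tn (tn te (tn (tl 32768) te)) te) (tn (tn (tn (tl 144119586390802433) te) (tn (tl 32770) te)) (tn (tn (tl 2) te) te))))))))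

def t37 : Tr ℕ := (tn (tn (tn (tn (tn (tn (tn (tn (tn (tl 316951338044468259942589005825) te) te) (tn te (tn (tl 32768) te))) (tn (tn te (tn (tl 2) te)) te)) (tn (tn (tn (tn (tl 1645504557321954330993282604851470791617086602539643700810612737) te) te) te) (tn (tn (tn (tl 536887296) te) (tn (tl 2) te)) (tn (tn (tl 2) te) te)))) (tn (tn (tn (tn (tn (tl 2361327356623166930945) te) te) te) (tn (tn (tn te (tl 1)) te) te)) (tn te (tn (tn (tn (tl 38686806891346445576716288) te) (tn (tl 32769) te)) (tn (tn (tl 2) te) te))))) (tn (tn (tn (tn te (tn te (tn (tl 32769) te))) (tn (tn (tn (tl 144123984437329922) (tl 1)) (tn (tl 16384) te)) te)) (tn te (tn (tn (tn (tl 72057594037927937) te) (tn (tl 1) te)) (tn (tn (tl 1) te) te)))) (tn (tn (tn (tn (tn (tl 7237005604295500091117984640639451370333969703736349106890165204364998754306) te) te) te) (tn (tn (tn (tl 72057594574798849) (tl 2)) te) te)) (tn (tn (tn te (tn (tl 1) te)) te) (tn (tn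 (tn (tl 144115188344291330) te) (tn (tl 32770) te)) (tn (tn (tl 2) te) te)))))) (tn (tn (tn (tn (tn (tn (tn (tl 5192296897222815039440064742424576) te) te) (tn te (tn (tl 1) te))) (tn (tn (tn (tl 72066390667821056) te) (tn (tl 16384) te)) te)) (tn te (tn (tn (tn (tl 4398046511105) (tl 2)) (tn (tl 32768) te)) (tn (tn (tl 1) te) te)))) (tn (tn (tn (tn (tn (tl 279968093815219776832973436484979398299185137199468998923220926244980555195062736451627022128051650561) te) te) te) (tn (tn (tn te (tl 1)) te) te)) (tn te (tn (tn (tn (tl 4398583382018) te) (tn (tl 1) te)) te)))) (tn (tn (tn (tn te (tn te (tn (tl 32769) te))) (tn (tn (tn (tl 72057594037960705) (tl 1)) te) te)) (tn te (tn (tn (tn (tl 72057594574798850) (tl 1)) (tn (tl 32770) te)) (tn (tn (tl 1) te) te)))) (tn (tn (tn (tn (tn (tl 14474894632120098063972975255103029625234490849505274531193234601163087708160) te) te) te) (tn (tn (tn (tl 72057594037927936) te) te) te)) (tn (tn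 (tn te (tn (tl 1) te)) te) (tn (tn (tn (tl 144115188344291329) te) (tn (tl 32770) te)) (tn (tn (tl 2) te) te))))))) (tn (tn (tn (tn (tn (tn (tn (tn (tl 1180735744701580181504) te) (tn (tl 1) te)) (tn te (tn (tl 16386) te))) (tn (tn te (tn (tl 1) te)) te)) (tn te (tn (tn (tn (tl 144119586390802432) (tl 2)) (tn (tl 32769) te)) (tn (tn (tl 2) te) te)))) (tn (tn (tn (tn (tn (tl 144119586390818817) te) te) te) te) (tn (tn (tn (tn (tl 2) te) te) te) (tn (tn (tn (tl 38685626227668133590597633) te) (tn (tl 16385) te)) (tn (tn (tl 2) te) te))))) (tn (tn (tn (tn (tn (tn (tl 19345174297084297710944257) te) te) (tn te (tn (tl 2) te))) (tn (tn (tn (tl 72061992352874498) te) (tn (tl 32770) te)) te)) (tn te (tn (tn (tn (tl 72057594306396162) (tl 2)) (tn (tl 1) te)) te))) (tn (tn (tn (tn (tn (tl 14474011181626116700094092623480024554255890296189664239585968406809479774210) te) te) te) (tn (tn (tn (tl 268435456) (tl 1)) te) te)) (tn (tn (tn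 te (tn (tl 16384) te)) te) (tn (tn (tn (tl 144115188075872257) te) (tn (tl 16386) te)) (tn (tn (tl 2) te) te)))))) (tn (tn (tn (tn (tn (tn (tn (tl 85070592364059915979958352606562091008) te) te) te) (tn (tn (tn (tl 144123984168878082) te) (tn (tl 32769) te)) te)) (tn te (tn (tn te (tn (tl 32768) te)) te))) (tn (tn (tn (tn (tn (tl 279968092772225528262349184534673660472503443977638790519270328707724889298996108003604706168691245058) te) te) te) (tn (tn (tn (tl 16384) (tl 1)) te) te)) (tn te (tn (tn (tn (tl 144115188075888640) te) (tn (tl 32770) te)) (tn (tn (tl 2) te) te))))) (tn (tn (tn (tn (tn (tn (tl 19343993849569972550893569) te) te) (tn te (tn (tl 32768) te))) (tn (tn (tn te (tl 2)) te) te)) (tn (tn (tn (tn (tl 2) te) te) te) (tn (tn (tn (tl 19345174369137493970796544) (tl 2)) (tn (tl 16384) te)) (tn (tn (tl 2) te) te)))) (tn (tn (tn (tn (tn (tl 883477453928231890648724834854072577175011255667316041660750649968590849)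 te) te) te) (tn (tn (tn (tl 268435457) te) (tn (tl 16384) te)) te)) (tn te (tn (tn (tn (tl 536887296) te) (tn (tl 16385) te)) te)))))))

def t38 : Tr ℕ := (tn (tn (tn (tn (tn (tn (tn (tn (tn (tl 5192296858534827628530496329220098) te) te) (tn te (tn (tl 1) te))) (tn (tn te (tn (tl 16386) te)) te)) (tn (tn (tn (tn (tl 26959946667150639794667015087019630673637144424901755722538432856064) te) te) te) (tn (tn (tn (tl 144123984437313538) te) (tn (tl 2) te)) (tn (tn (tl 1) te) te)))) (tn (tn (tn (tn (tn (tl 2361255307825221992449) te) te) te) te) (tn te (tn (tn (tn (tl 8796361474049) te) (tn (tl 1) te)) (tn (tn (tl 1) te) te))))) (tn (tn (tn (tn te (tn te (tn (tl 32768) te))) (tn (tn (tn (tl 72061992084471810) (tl 2)) (tn (tl 16384) te)) te)) (tn te (tn (tn (tn (tl 4398046543872) (tl 2)) (tn (tl 16386) te)) (tn (tn (tl 2) te) te)))) (tn (tn (tn (tn (tn (tl 441765687733434940997368063047937119661239539190522876891560691315507200)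 te) te) te) (tn (tn (tn (tl 72066390399385602) te) te) te)) (tn (tn (tn te (tn (tl 32769) te)) te) (tn (tn (tn (tl 72057594574831618) te) (tn (tl 2) te)) (tn (tn (tl 2) te) te)))))) (tn (tn (tn (tn (tn (tn (tn (tl 1393796574908163946345982392040522594123778) te) te) (tn te (tn (tl 16386) te))) (tn (tn (tn (tl 8796629925890) te) (tn (tl 32768) te)) te)) (tn te (tn (tn (tn (tl 144115188612726784) (tl 1)) (tn (tl 16386) te)) te))) (tn (tn (tn (tn (tn (tl 31828687130226345097944463881396533766429193651030253916189694521162207808802136034115586) te) te) te) te) (tn te (tn (tn (tn (tl 72066390667837440) te) (tn (tl 1) te)) (tn (tn (tl 1) te) te))))) (tn (tn (tn (tn te (tn te (tn (tl 16386) te))) (tn (tn (tn (tl 536903681) te) (tn (tl 16386) te)) te)) (tn te (tn (tn (tn (tl 72061992084439040) te) (tn (tl 16384) te)) (tn (tn (tl 1) te) te)))) (tn (tn (tn (tn (tn (tl 237142198758077488120908118335130542508198620512289079809920665115337990170738688)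 te) te) te) (tn (tn (tn (tl 8796629893121) (tl 2)) te) te)) (tn (tn (tn te (tn (tl 32770) te)) te) (tn (tn (tn (tl 72057594306379777) te) (tn (tl 16385) te)) (tn (tn (tl 1) te) te))))))) (tn (tn (tn (tn (tn (tn (tn (tn (tl 316912650057057350374175801346) te) te) (tn te (tn (tl 16385) te))) (tn (tn te (tn (tl 16386) te)) te)) (tn te (tn (tn (tn (tl 72057594574831618) te) (tn (tl 16385) te)) (tn (tn (tl 1) te) te)))) (tn (tn (tn (tn (tn (tl 1180663687108079140865) te) te) te) te) (tn te (tn (tn (tn (tl 19343993849574370328985602) te) (tn (tl 32769) te)) (tn (tn (tl 1) te) te))))) (tn (tn (tn (tn (tn (tn (tl 38687987555024757025947649) te) te) (tn te (tn (tl 16386) te))) (tn (tn (tn (tl 144119586122366978) te) (tn (tl 1) te)) te)) (tn te (tn (tn (tn (tl 144115188612759553) (tl 1)) (tn (tl 16386) te)) (tn (tn (tl 2) te) te)))) (tn (tn (tn (tn (tn (tl 883477452282727333327518792699103394617660750684582537354527409518428162) te)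 te) te) (tn (tn (tn (tl 144115188344291328) te) te) te)) (tn (tn (tn te (tn (tl 32769) te)) te) (tn (tn (tn (tl 72061992621309952) te) (tn (tl 32769) te)) (tn (tn (tl 2) te) te)))))) (tn (tn (tn (tn (tn (tn (tn (tl 1393796574908163946345982392040523130994688) te) te) te) (tn (tn (tn (tl 72061992352874496) te) te) te)) (tn te (tn (tn (tn (tl 72057594574831616) te) (tn (tl 16385) te)) (tn (tn (tl 1) te) te)))) (tn (tn (tn (tn (tn (tl 521481209941628438084722096232800809229175908778479680162851955034721612739414196782949761024) te) te) te) (tn (tn (tn (tl 144119586659237890) te) te) te)) (tn te (tn (tn (tn (tl 8796629925889) te) (tn (tl 1) te)) (tn (tn (tl 1) te) te))))) (tn (tn (tn (tn (tn (tn (tl 144115188344307713) te) te) (tn te (tn (tl 16386) te))) te) (tn (tn (tn (tn (tl 1) te) te) te) (tn (tn (tn (tl 19345174297084297979379714) te) (tn (tl 32769) te)) te))) (tn (tn (tn (tn (tn (tl 118578337268066568658477134037428020175454529874805868797003453365209002841997314)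 te) te) te) (tn (tn (tn (tl 144123984168910849) te) (tn (tl 2) te)) te)) (tn (tn (tn te (tn (tl 16386) te)) te) (tn (tn (tn (tl 72057594306396160) te) (tn (tl 16386) te)) te)))))))

def t39 : Tr ℕ := (tn (tn (tn (tn (tn (tn (tn (tn (tn (tl 5192296858534827772645684405092352) te) te) te) (tn (tn (tn (tl 8796629893121) (tl 1)) te) te)) (tn (tn (tn (tn (tl 10384910649062525500307426250883074) te) te) te) (tn (tn te (tn (tl 32768) te)) te))) (tn (tn te (tn te (tn (tn (tl 2) te) te))) (tn (tn (tn (tn te (tl 2)) (tn (tl 32769) te)) te) (tn (tn (tn (tl 4398583382018) te) (tn (tl 32770) te)) te)))) (tn (tn (tn (tn (tn (tn (tl 19345174441195088277176322) te) te) te) te) (tn (tn (tn te (tn (tl 16384) te)) te) te)) (tn (tn te (tn (tn (tn (tl 8796361474049) te) te) (tn (tn (tl 2) te) te))) (tn (tn (tn (tn te (tl 1)) te) te) te)))) (tn (tn (tn (tn (tn (tn (tn (tl 3291109560530142598129270604612248866743252894961538900940587009) te) te)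 te) (tn (tn (tn te (tl 2)) te) te)) (tn te (tn (tn te (tn (tl 16384) te)) te))) (tn (tn (tn (tn (tn (tl 14474011208586063367244732418124203678192225611729876086615348965730966044674) te) te) te) (tn te (tn (tn (tl 1) te) te))) (tn (tn (tn (tn te (tl 1)) (tn (tl 16385) te)) te) te))) (tn (tn (tn te (tn te (tn (tn (tl 1) te) te))) (tn (tn (tn (tn (tl 1) (tl 1)) (tn (tl 32770) te)) te) (tn (tn te (tn (tl 1) te)) te))) (tn (tn (tn (tn (tn (tl 12259964372601824796753685130113384310212056057502531586) te) te) te) (tn (tn (tn (tl 8796093038594) te) te) (tn (tn (tl 1) te) te))) (tn (tn (tn (tn (tl 72057594574831616) te) te) te) (tn (tn (tn (tl 268468226) te) te) te)))))) (tn (tn (tn (tn (tn te (tn (tn (tn (tl 144119586122399744) (tl 1)) te) te)) (tn te (tn (tn te (tn (tl 32768) te)) te))) (tn (tn te (tn te (tn (tn (tl 1) te) te))) (tn (tn (tn (tn te (tl 2)) (tn (tl 32770) te)) te) (tn (tn (tn (tl 4398314979328) te) (tn (tl 1) te))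 te)))) (tn (tn te (tn (tn (tn te (tn (tl 2) te)) te) te)) (tn (tn te (tn (tn (tn (tl 4398046543873) te) te) (tn (tn (tl 2) te) te))) (tn (tn (tn (tn te (tl 1)) te) te) (tn (tn (tn (tl 4398046527490) te) te) te))))) (tn (tn (tn (tn (tn (tn (tn (tl 4398046511104) te) te) te) te) (tn te (tn (tn te (tn (tl 16386) te)) te))) (tn (tn (tn (tn (tn (tl 118585573390220368531498942431594046798673525627343438467243787626379159265099778) te) te) te) (tn (tn (tn (tl 144115188344324097) te) te) (tn (tn (tl 2) te) te))) (tn (tn (tn (tn te (tl 1)) (tn (tl 16385) te)) te) te))) (tn (tn (tn (tn (tn (tn (tl 2361183245833405988866) te) te) te) (tn te (tn (tn (tl 1) te) te))) (tn (tn (tn te (tn (tl 16385) te)) te) (tn (tn (tn (tl 72066390667837441) te) (tn (tl 16384) te)) te))) (tn (tn (tn (tn (tn (tl 6130356353556032277887256704043783766691778215469400064) te) te) te) (tn (tn (tn (tl 4398046543873) te) (tn (tl 2) te)) te)) (tn (tn (tn (tn (tl 72066390399418369)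 te) te) te) (tn (tn (tn (tl 4398583414786) te) te) te)))))))

def t40 : Tr ℕ := (tn (tn (tn (tn (tn (tn (tn (tn (tn (tl 10384593736412468370903855546761216) te) te) te) (tn (tn (tn (tl 32770) (tl 2)) te) te)) (tn (tn (tn (tn (tl 5192296877880001925610395993636864) te) te) te) (tn (tn te (tn (tl 16384) te)) te))) (tn (tn te (tn te (tn (tn (tl 2) te) te))) (tn (tn (tn te (tn (tl 32770) te)) te) (tn (tn (tn (tl 144119586659237888) te) te) te)))) (tn (tn (tn (tn (tn (tn (tl 8796361474049) te) te) te) te) (tn (tn (tn te (tn (tl 16385) te)) te) (tn (tn te (tn (tl 16384) te)) te))) (tn (tn te (tn (tn (tn (tl 8796361457665) te) te) te)) te))) (tn (tn (tn (tn (tn (tn (tn (tl 441711766194796955781338912435121604226710525917105207141621187968237568) te) te) te) (tn (tn (tn te (tl 1)) te) te)) (tn te (tn (tn te (tn (tl 32769) te)) te))) (tn (tn (tn (tn (tn (tl 7237005604295500091117985014783869133248541855715719936276226195761135632386)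 te) te) te) (tn te (tn (tn (tl 2) te) te))) (tn (tn (tn (tn te (tl 1)) (tn (tl 16386) te)) te) te))) (tn (tn te (tn (tn (tn te (tn (tl 32768) te)) te) (tn (tn te (tn (tl 16384) te)) te))) (tn (tn (tn (tn (tn (tl 748288839707218879413361249102057984303446871801857) te) te) te) (tn (tn (tn (tl 144115188344307714) te) te) (tn (tn (tl 1) te) te))) (tn (tn (tn (tn (tl 144119586122383361) (tl 1)) te) te) (tn (tn (tn (tl 8796629909504) te) te) te)))))) (tn (tn (tn (tn (tn te (tn (tn (tn (tl 144119586390802434) (tl 1)) te) te)) (tn te (tn (tn te (tn (tl 32769) te)) te))) (tn (tn te (tn te (tn (tn (tl 2) te) te))) (tn (tn (tn te (tn (tl 16386) te)) te) (tn (tn (tn (tl 8796361474049) te) (tn (tl 16386) te)) te)))) (tn (tn (tn te (tn te (tn (tn (tl 2) te) te))) (tn (tn (tn (tn (tl 1) te) te) te) (tn (tn te (tn (tl 32768) te)) te))) (tn (tn te (tn (tn (tn (tl 144123984437346304) te) te) te)) (tn (tn (tn (tn te (tl 1)) te) te) (tn (tn (tn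 (tl 8796093038592) te) te) te))))) (tn (tn (tn (tn (tn (tn (tn (tl 316912650057057350374175801344) te) te) te) (tn (tn (tn te (tl 1)) te) te)) (tn te (tn (tn te (tn (tl 32769) te)) te))) (tn (tn (tn (tn (tn (tl 441738727786968663743087933280848278725496655972652346168258925544079360) te) te) te) (tn (tn (tn (tl 144119586122399744) te) te) (tn (tn (tl 2) te) te))) te)) (tn (tn (tn (tn (tn (tn (tl 72061992352907265) te) te) te) (tn te (tn (tn (tl 1) te) te))) (tn (tn (tn te (tn (tl 1) te)) te) (tn (tn (tn (tl 144123984168878080) te) (tn (tl 32768) te)) te))) (tn (tn (tn (tn (tn (tl 12259964326929898545097569502872152249685152323457777666) te) te) te) (tn (tn (tn (tl 144115188075888641) te) (tn (tl 16386) te)) te)) (tn (tn (tn (tn (tl 72061992352890882) (tl 1)) te) te) (tn (tn (tn (tl 8796629909505) te) te) te)))))))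

def t41 : Tr ℕ := (tn (tn (tn (tn (tn (tn (tn (tn (tn (tl 85075784027093150693616297542347128832) te) te) te) (tn (tn (tn (tl 72057594037944322) (tl 1)) te) te)) (tn (tn (tn (tn (tl 10385227561712582557657800158248962) te) te) te) (tn (tn te (tn (tl 32769) te)) te))) (tn te (tn (tn (tn (tn te (tl 2)) (tn (tl 2) te)) te) (tn (tn (tn (tl 144115188075872256) te) (tn (tl 32770) te)) te)))) (tn (tn (tn (tn (tn (tn (tl 38685626371792117759508481) te) te) te) te) (tn (tn (tn te (tn (tl 16384) te)) te) (tn (tn te (tn (tl 32770) te)) te))) (tn (tn te (tn (tn (tn (tl 144123984437313536) te) te) (tn (tn (tl 2) te) te))) te))) (tn (tn (tn (tn (tn (tn (tn (tl 3291109560530142598129270604612248866762595708075372967735885824) te) te) te) (tn (tn (tn te (tl 2)) te) te)) (tn te (tn (tn te (tn (tl 32770) te)) te))) (tn (tn (tn (tn (tn (tl 14474452920352257963327128242499389407821182482704094991354879367281289232386) te) te) te) (tn te (tn (tn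 (tl 2) te) te))) (tn (tn (tn te (tn (tl 16385) te)) te) te))) (tn (tn (tn te (tn te (tn (tn (tl 2) te) te))) (tn (tn (tn te (tn (tl 32768) te)) te) (tn (tn te (tn (tl 2) te)) te))) (tn (tn (tn (tn (tn (tl 45671926251661307924119110882005008600702910465) te) te) te) (tn (tn (tn (tl 4398314962945) te) te) te)) (tn (tn (tn (tn (tl 268435457) te) te) te) (tn (tn (tn (tl 4398046527489) te) te) te)))))) (tn (tn (tn (tn (tn te (tn (tn (tn (tl 536903681) (tl 1)) te) te)) (tn te (tn (tn te (tn (tl 32768) te)) te))) (tn te (tn (tn (tn te (tn (tl 1) te)) te) (tn (tn (tn (tl 32770) te) (tn (tl 16386) te)) te)))) (tn (tn (tn te (tn te (tn (tn (tl 2) te) te))) (tn (tn (tn (tn (tl 2) te) (tn (tl 32770) te)) te) te)) (tn (tn te (tn (tn (tn (tl 72061992084455425) te) te) (tn (tn (tl 2) te) te))) (tn (tn (tn (tn te (tl 2)) te) te) (tn (tn (tn (tl 4398583398402) te) te) te))))) (tn (tn (tn (tn (tn (tn (tn (tl 19342813113838465378680832) te) te)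 te) (tn (tn (tn te (tl 2)) te) te)) (tn te (tn (tn te (tn (tl 32770) te)) te))) (tn (tn (tn (tn (tn (tl 7237889054787835950421156493920003282589106403363185306734720687630786248706) te) te) te) (tn (tn (tn (tl 72061992352890881) te) te) (tn (tn (tl 1) te) te))) (tn (tn (tn te (tn (tl 32769) te)) te) te))) (tn (tn (tn (tn (tn (tn (tl 1180735744701848616961) te) te) te) (tn te (tn (tn (tl 1) te) te))) (tn (tn (tn (tn te (tl 1)) (tn (tl 16385) te)) te) (tn (tn (tn (tl 8796361490433) te) (tn (tl 16385) te)) te))) (tn (tn (tn (tn (tn (tl 374190091082962813560998120122372792901277887496194) te) te) te) (tn (tn (tn (tl 72061992352874497) te) (tn (tl 2) te)) (tn (tn (tl 2) te) te))) (tn (tn (tn (tn (tl 72057594306396161) te) te) te) (tn (tn (tn (tl 8796093022208) te) te) te)))))))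

def t42 : Tr ℕ := (tn (tn (tn (tn (tn (tn (tn (tn (tn (tl 85070591730234617046435281371446378498) te) te) te) (tn (tn (tn (tl 144119586390818816) te) te) te)) (tn (tn (tn (tn (tl 633844645288483838242322415618) te) te) te) (tn (tn te (tn (tl 2) te)) te))) (tn te (tn (tn (tn te (tn (tl 1) te)) te) (tn (tn (tn (tl 72061992084455424) te) (tn (tl 16386) te)) te)))) (tn (tn (tn (tn (tn (tn (tl 2361255299029129003010) te) te) te) te) (tn (tn (tn te (tn (tl 2) te)) te) (tn (tn te (tn (tl 16385) te)) te))) (tn (tn te (tn (tn (tn (tl 144123984705748994) te) te) te)) (tn (tn (tn (tn te (tl 1)) te) te) te)))) (tn (tn (tn (tn (tn (tn (tn (tl 441711767840301513102544954591484583358968561040229754094317298316738560) te) te) te) (tn (tn (tn te (tl 2)) te) te)) (tn te (tn (tn te (tn (tl 32768) te)) te))) (tn (tn (tn (tn (tn (tl 53923184544283178282126637582501823812426022114119738692736131284992) te) te) te) (tn te (tn (tn (tl 1) te) te)))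 (tn (tn (tn (tn te (tl 1)) (tn (tl 32768) te)) te) te))) (tn (tn te (tn (tn (tn (tn (tl 1) te) (tn (tl 32770) te)) te) (tn (tn te (tn (tl 32769) te)) te))) (tn (tn (tn (tn (tn (tl 22838750676455559018581025118788097773089587200) te) te) te) (tn (tn (tn (tl 72066390130982912) te) te) te)) (tn (tn (tn (tn (tl 144115188612759552) te) te) te) (tn (tn (tn (tl 268451841) te) te) te)))))) (tn (tn (tn (tn (tn te (tn (tn (tn (tl 4398583382016) te) te) te)) (tn te (tn (tn te (tn (tl 32768) te)) te))) (tn (tn te (tn te (tn (tn (tl 2) te) te))) (tn (tn (tn (tn te (tl 1)) (tn (tl 1) te)) te) (tn (tn (tn (tl 144123984168894464) te) (tn (tl 16386) te)) te)))) (tn (tn (tn te (tn te (tn (tn (tl 1) te) te))) (tn (tn (tn (tn (tl 1) te) (tn (tl 16384) te)) te) (tn (tn te (tn (tl 1) te)) te))) (tn (tn te (tn (tn (tn (tl 72057594574815232) te) te) (tn (tn (tl 2) te) te))) (tn (tn (tn (tn te (tl 2)) te) te) (tn (tn (tn (tl 4398046527489) te) te)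 te))))) (tn (tn (tn (tn (tn (tn (tn (tl 316931995231354430274377089024) te) te) te) te) (tn te (tn (tn te (tn (tl 16385) te)) te))) (tn (tn (tn (tn (tn (tl 118578336384589118021555658914788043239212126757420348624596713377060134468993024) te) te) te) (tn (tn (tn (tl 144115188612743169) te) te) te)) (tn (tn (tn (tn te (tl 2)) (tn (tl 32769) te)) te) te))) (tn (tn (tn (tn (tn (tn (tl 2361255307825221992450) te) te) te) te) (tn (tn (tn (tn te (tl 1)) (tn (tl 2) te)) te) (tn (tn (tn (tl 72057594306363394) te) (tn (tl 1) te)) te))) (tn (tn (tn (tn (tn (tl 748334511633385459745278271149036388270190066925569) te) te) te) (tn (tn (tn (tl 72066390130982914) te) (tn (tl 32770) te)) (tn (tn (tl 1) te) te))) (tn (tn (tn (tn (tl 72061992621326338) te) te) te) (tn (tn (tn (tl 4398314979329) te) te) te)))))))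

def t43 : Tr ℕ := (tn (tn (tn (tn (tn (tn (tn (tn (tn (tl 2787593149816327912034778042030300059418626) te) te) te) te) (tn (tn (tn (tn (tl 85075784027093151874135865063767015425) te) te) te) te)) (tn (tn (tn (tn (tn te (tl 1)) te) te) (tn (tn (tn (tl 8796629909506) te) (tn (tl 32768) te)) te)) (tn te (tn (tn (tn (tl 8796361474050) te) te) te)))) (tn (tn (tn (tn (tn (tn te (tl 2)) te) te) (tn (tn (tn (tl 144115188344307712) te) (tn (tl 1) te)) te)) (tn (tn (tn (tn (tl 1) te) te) te) te)) (tn (tn (tn (tn (tn (tl 7237005577332262314412944685560606531226465912665556956282927782823817412608) (tl 1)) te) te) (tn (tn te (tn (tl 32770) te)) te)) (tn (tn te (tn (tn (tl 2) te) te)) (tn (tn (tn (tl 8796093038592) te) te) te))))) (tn (tn (tn (tn (tn (tn (tn te (tl 1)) te) te) (tn (tn (tn (tl 536870914) te) te) (tn (tn (tl 2) te) te))) (tn (tn (tn (tn te (tl 1)) te) te) te)) (tn (tn (tn (tn (tn (tl 22838750761526150748776955358259957512735309824)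 (tl 2)) te) te) (tn (tn (tn (tl 8796629909505) te) (tn (tl 32770) te)) te)) (tn te (tn (tn (tn (tl 144115188075888641) te) te) te)))) (tn (tn (tn (tn (tn (tn (tl 4398583398400) te) te) te) (tn (tn (tn (tl 144115188612726786) te) te) te)) te) (tn (tn te (tn (tn te (tn (tl 16385) te)) te)) (tn (tn (tn te (tn (tl 16384) te)) te) te))))) (tn (tn (tn (tn (tn (tn (tn (tn (tl 10384593717069655257060992658440192) te) te) te) (tn (tn te (tn (tl 32770) te)) te)) (tn (tn (tn (tn te (tl 1)) te) te) te)) (tn (tn te (tn (tn (tn (tl 8796093022210) te) (tn (tl 1) te)) te)) (tn te (tn (tn (tn (tl 4398583382016) te) te) te)))) (tn (tn (tn (tn (tn (tn (tl 19342813185896059416625153) te) te) te) (tn (tn (tn (tl 144123984705781761) te) (tn (tl 16384) te)) te)) te) (tn (tn (tn (tn (tn (tl 118585573831932138017204579227578833811367479176716651708366546529024945602707457) (tl 1)) te) te) (tn (tn te (tn (tl 16386) te)) te)) (tn (tn (tn te (tn (tl 16385)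 te)) (tn (tn (tl 1) te) te)) te)))) (tn (tn (tn (tn (tn (tn (tn (tl 72057594574798848) (tl 2)) te) te) (tn (tn (tn (tl 72066390667853824) te) te) (tn (tn (tl 1) te) te))) (tn (tn (tn (tn te (tl 2)) te) te) te)) (tn (tn (tn (tn (tn (tl 6130730475139225735597775289978497066490593348216193026) te) te) te) (tn (tn te (tn (tl 32769) te)) te)) (tn (tn te (tn (tn (tl 1) te) te)) (tn (tn (tn (tl 72066390399401984) te) te) te)))) (tn (tn (tn (tn (tn (tn te (tl 2)) te) te) (tn (tn (tn (tl 8796361457665) te) (tn (tl 16384) te)) te)) (tn te (tn (tn (tn (tl 8796093022210) te) te) te))) (tn (tn (tn (tn (tn te (tl 1)) te) te) te) (tn (tn (tn te (tn (tl 16386) te)) (tn (tn (tl 2) te) te)) te))))))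

def t44 : Tr ℕ := (tn (tn (tn (tn (tn (tn (tn (tn (tn (tl 38687987410909568681639937) te) te) te) (tn (tn te (tn (tl 32768) te)) (tn (tn (tl 1) te) te))) (tn (tn (tn (tn (tl 633844645288411776250506412032) te) te) te) te)) (tn (tn te (tn (tn (tn (tl 144115188344307713) te) (tn (tl 32769) te)) te)) (tn te (tn (tn (tn (tl 268451840) te) te) te)))) (tn (tn (tn (tn (tn (tn te (tl 1)) te) te) (tn (tn (tn (tl 144119586122399745) te) (tn (tl 2) te)) (tn (tn (tl 1) te) te))) (tn (tn (tn (tn (tl 2) te) te) te) te)) (tn (tn (tn (tn (tn (tl 7237889027826243778719325475374295388023771666868893189879052560681106702337) te) te) te) (tn (tn te (tn (tl 32769) te)) te)) (tn (tn (tn te (tn (tl 32769) te)) te) (tn (tn (tn (tl 8796629893122) te) te) te))))) (tn (tn (tn (tn (tn (tn (tn te (tl 1)) te) te) (tn (tn (tn (tl 268435457) te) (tn (tl 32769) te)) te)) te) (tn (tn (tn (tn (tn (tl 748311677064098749679939021333156695028292107894785) (tl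 1)) te) te) (tn (tn (tn (tl 4398583414786) te) (tn (tl 32770) te)) te)) (tn (tn te (tn (tn (tl 2) te) te)) (tn (tn (tn (tl 268468224) te) te) te)))) (tn (tn (tn (tn (tn (tn (tl 1180663682710032613376) (tl 2)) te) te) (tn (tn (tn (tl 72057594574815234) te) (tn (tl 16385) te)) te)) te) (tn (tn (tn (tn (tn te (tl 2)) te) te) te) (tn (tn (tn te (tn (tl 32770) te)) (tn (tn (tl 2) te) te)) te))))) (tn (tn (tn (tn (tn (tn (tn (tn (tl 5192296897222815111497658780352512) te) te) te) (tn (tn te (tn (tl 32769) te)) (tn (tn (tl 1) te) te))) te) (tn (tn (tn (tn (tn te (tl 2)) te) te) (tn (tn (tn (tl 144115188075872257) te) (tn (tl 32770) te)) te)) (tn te (tn (tn (tn (tl 4398046511105) te) te) te)))) (tn (tn (tn (tn (tn (tn (tl 38686806819288851270352896) (tl 2)) te) te) (tn (tn (tn (tl 72057594306379778) te) (tn (tl 16386) te)) te)) te) (tn (tn (tn (tn (tn (tl 237142199641501022155604840448359456616426807194776299205286542409830942447239169)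 (tl 2)) te) te) (tn (tn te (tn (tl 32769) te)) te)) te))) (tn (tn (tn (tn (tn (tn (tn (tl 633844642927228534815415336960) te) te) te) (tn (tn (tn (tl 72061992621342720) te) (tn (tl 32768) te)) te)) (tn (tn (tn (tn (tl 2) (tl 1)) te) te) te)) (tn (tn (tn (tn (tn (tl 748311675670387245362871464958932254417704229797890) (tl 2)) te) te) (tn (tn te (tn (tl 16386) te)) te)) (tn (tn te (tn (tn (tl 1) te) te)) (tn (tn (tn (tl 144123984705748992) te) te) te)))) (tn (tn (tn te (tn (tn (tn (tl 72066390667853825) te) (tn (tl 1) te)) te)) (tn te (tn (tn (tn (tl 16385) te) te) te))) (tn (tn (tn (tn (tn te (tl 2)) te) te) te) (tn (tn (tn te (tn (tl 1) te)) (tn (tn (tl 1) te) te)) te))))))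

def t45 : Tr ℕ := (tn (tn (tn (tn (tn (tn (tn (tn (tn (tl 2787593149816327912035958633651017470705666) te) te) te) (tn (tn te (tn (tl 16386) te)) (tn (tn (tl 1) te) te))) (tn (tn (tn (tn (tl 85075784027112494687249699131099185153) te) te) te) te)) (tn (tn te (tn (tn (tn (tl 72061992084471810) te) (tn (tl 32768) te)) te)) (tn te (tn (tn (tn (tl 268451842) te) te) te)))) (tn (tn (tn te (tn (tn (tn (tl 16386) te) (tn (tl 16384) te)) te)) (tn (tn (tn (tn (tl 2) (tl 2)) te) te) te)) (tn (tn (tn (tn (tn (tl 7237447343018350345224118257414832900750218514513237284164970364789244051458) te) te) te) (tn (tn te (tn (tl 2) te)) te)) (tn (tn (tn te (tn (tl 16384) te)) te) (tn (tn (tn (tl 536887297) te) te) te))))) (tn (tn (tn (tn te (tn (tn (tn (tl 144123984705765378) te) (tn (tl 32768) te)) (tn (tn (tl 1) te) te))) te) (tn (tn (tn (tn (tn (tl 748311677064268885670785738721636218664486870990848) (tl 2)) te) te) (tn (tn (tn (tl 4398046527490)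 te) (tn (tl 16385) te)) te)) (tn te (tn (tn (tn (tl 72061992621309954) te) te) te)))) (tn (tn (tn (tn (tn (tn (tl 1180663678311717683200) (tl 1)) te) te) (tn (tn (tn (tl 72066390130982914) te) (tn (tl 32770) te)) te)) te) (tn (tn te (tn (tn te (tn (tl 32770) te)) te)) (tn (tn (tn te (tn (tl 32769) te)) (tn (tn (tl 1) te) te)) te))))) (tn (tn (tn (tn (tn (tn (tn (tn (tl 10384593717070835848681710069743616) te) te) te) (tn (tn te (tn (tl 16386) te)) (tn (tn (tl 1) te) te))) (tn (tn (tn (tn te (tl 1)) te) te) te)) (tn (tn (tn (tn (tn te (tl 1)) te) te) (tn (tn (tn (tl 144115188344324098) te) (tn (tl 16386) te)) te)) (tn te (tn (tn (tn (tl 4398583398400) te) te) te)))) (tn (tn (tn (tn (tn (tn (tl 144123984437346304) (tl 2)) te) te) (tn (tn (tn (tl 4398046511105) te) (tn (tl 2) te)) te)) (tn (tn (tn (tn te (tl 2)) te) te) te)) (tn (tn (tn (tn (tn (tl 237156673652628726733265202554298878790076747983713818055016261316582706551734272)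 te) te) te) (tn (tn te (tn (tl 16384) te)) te)) (tn (tn (tn te (tn (tl 32768) te)) (tn (tn (tl 2) te) te)) te)))) (tn (tn (tn (tn (tn (tn (tn (tl 316912650057057350374712672256) (tl 1)) te) te) (tn (tn (tn (tl 144119586122366977) te) (tn (tl 1) te)) (tn (tn (tl 2) te) te))) te) (tn (tn (tn (tn (tn (tl 45673320048236216088084800858030455109290295296) (tl 2)) te) te) (tn (tn te (tn (tl 32769) te)) te)) (tn (tn te (tn (tn (tl 2) te) te)) (tn (tn (tn (tl 72066390399385600) te) te) te)))) (tn (tn (tn (tn (tn (tn te (tl 2)) te) te) (tn (tn (tn (tl 536887296) te) (tn (tl 1) te)) te)) (tn te (tn (tn (tn (tl 268451840) te) te) te))) (tn (tn (tn (tn (tn te (tl 1)) te) te) te) (tn (tn (tn te (tn (tl 1) te)) te) te))))))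

def t46 : Tr ℕ := (tn (tn (tn (tn (tn (tn (tn (tn (tn (tl 316951338044468259942589005825) te) te) te) (tn (tn te (tn (tl 16386) te)) (tn (tn (tl 1) te) te))) (tn (tn (tn (tn (tl 85070592364079259973663807391037161472) te) te) te) te)) (tn (tn (tn (tn (tn te (tl 1)) te) te) (tn (tn (tn (tl 72066390399401986) te) (tn (tl 16384) te)) te)) (tn te (tn (tn (tn (tl 536903681) te) te) te)))) (tn (tn (tn (tn (tn (tn te (tl 1)) te) te) (tn (tn (tn (tl 4398046511104) te) (tn (tl 2) te)) (tn (tn (tl 2) te) te))) (tn (tn (tn (tn (tl 1) (tl 1)) te) te) te)) (tn (tn (tn (tn (tn (tl 14474894632120098063972974506814191311812196729218640180456328537325625688064) te) te) te) (tn (tn te (tn (tl 32768) te)) te)) (tn (tn (tn te (tn (tl 32770) te)) (tn (tn (tl 2) te) te)) (tn (tn (tn (tl 144119586390802432) te) te) te))))) (tn (tn (tn (tn (tn (tn (tn te (tl 2)) te) te) (tn (tn (tn (tl 8796361474049) te) (tn (tl 16384) te)) (tn (tn (tl 2) te) te)))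 (tn (tn (tn (tn te (tl 2)) te) te) te)) (tn (tn (tn (tn (tn (tl 12259964326927110866871968830973659534371534151775961090) (tl 2)) te) te) (tn (tn (tn (tl 144115188344324097) te) (tn (tl 2) te)) te)) (tn (tn te (tn (tn (tl 1) te) te)) (tn (tn (tn (tl 144115188075872257) te) te) te)))) (tn (tn (tn (tn (tn (tn (tl 2361255303426907078658) te) te) te) (tn (tn (tn (tl 72061992352907264) te) (tn (tl 1) te)) te)) te) (tn (tn te (tn (tn te (tn (tl 32769) te)) te)) (tn (tn (tn te (tn (tl 32768) te)) (tn (tn (tl 2) te) te)) te))))) (tn (tn (tn (tn (tn (tn (tn (tn (tl 5192296897222815039440064742424576) te) te) te) (tn (tn te (tn (tl 16385) te)) (tn (tn (tl 1) te) te))) te) (tn (tn te (tn (tn (tn (tl 8796361474049) te) (tn (tl 32769) te)) te)) (tn te (tn (tn (tn (tl 8796629909506) te) te) te)))) (tn (tn (tn (tn (tn (tn (tl 19345174369141891748872194) (tl 2)) te) te) (tn (tn (tn (tl 8796361474049) te) (tn (tl 16384) te)) te)) te) (tn (tn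 (tn (tn (tn (tl 14474011154667815537506904016995792028939090993598975951376187204979272974338) (tl 1)) te) te) (tn (tn te (tn (tl 1) te)) te)) (tn (tn (tn te (tn (tl 2) te)) (tn (tn (tl 1) te) te)) te)))) (tn (tn (tn (tn (tn (tn (tn (tl 85070592364059915979958352606562091008) (tl 1)) te) te) (tn (tn (tn (tl 2) te) (tn (tl 32770) te)) te)) (tn (tn (tn (tn te (tl 1)) te) te) te)) (tn (tn (tn (tn (tn (tl 374167256513591027710997913167698029795920178085890) (tl 1)) te) te) (tn (tn te (tn (tl 32769) te)) te)) (tn (tn te (tn (tn (tl 1) te) te)) (tn (tn (tn (tl 144123984437329921) te) te) te)))) (tn (tn (tn (tn (tn (tn te (tl 1)) te) te) (tn (tn (tn (tl 144123984437313538) te) (tn (tl 16384) te)) te)) (tn te (tn (tn (tn (tl 4398583414786) te) te) te))) (tn te (tn (tn te (tn (tn (tl 1) te) te)) te))))))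

def t47 : Tr ℕ := (tn (tn (tn (tn (tn (tn (tn (tn (tn (tl 5192296858534827628530496329220098) te) te) te) (tn te (tn (tn (tl 1) te) te))) (tn (tn (tn (tn (tl 1393881650692191039497856527905586898010113) te) te) te) te)) (tn (tn (tn (tn (tn te (tl 1)) te) te) (tn (tn (tn (tl 8796361490433) te) (tn (tl 16385) te)) te)) (tn te (tn (tn (tn (tl 8796093054978) te) te) te)))) (tn (tn (tn te (tn (tn (tn (tl 8796629925888) te) (tn (tl 32769) te)) (tn (tn (tl 2) te) te))) (tn (tn (tn (tn (tl 2) te) te) te) te)) (tn (tn (tn (tn (tn (tl 237142198758077489766412675656336584663167803069639584792655350157297136108044288) te) te) te) te) (tn (tn (tn te (tn (tl 16386) te)) (tn (tn (tl 2) te) te)) (tn (tn (tn (tl 144115188344324098) te) te) te))))) (tn (tn (tn (tn (tn (tn (tn te (tl 1)) te) te) (tn (tn (tn (tl 72057594306363393) te) (tn (tl 2) te)) te)) (tn (tn (tn (tn te (tl 1)) te) te) te)) (tn (tn (tn (tn (tn (tl 6129982163466343196734773124544217007137391842355576832)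 (tl 1)) te) te) (tn (tn (tn (tl 72061992084455426) te) (tn (tl 32768) te)) te)) (tn te (tn (tn (tn (tl 72057594574831616) te) te) te)))) (tn (tn (tn (tn (tn (tn (tl 536870912) (tl 2)) te) te) (tn (tn (tn (tl 72066390399401985) te) (tn (tl 16385) te)) te)) te) (tn (tn te (tn (tn te (tn (tl 16386) te)) te)) (tn (tn (tn te (tn (tl 16384) te)) te) te))))) (tn (tn (tn (tn (tn (tn (tn (tn (tl 1645504557321206042154969182557350504982735865633579863348609026) te) te) te) (tn (tn te (tn (tl 16385) te)) (tn (tn (tl 1) te) te))) te) (tn (tn te (tn (tn (tn (tl 72061992084455425) te) (tn (tl 1) te)) te)) (tn te (tn (tn (tn (tl 8796093022208) te) te) te)))) (tn (tn (tn (tn (tn (tn (tl 38687987555033552850550784) te) te) te) (tn (tn (tn (tl 72061992084439041) te) (tn (tl 16384) te)) te)) (tn (tn (tn (tn te (tl 1)) te) te) te)) (tn (tn (tn (tn (tn (tl 14474894632116807155291959860916773594819717991511302593946361445618928336897) (tl 1)) te)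 te) (tn (tn te (tn (tl 32770) te)) te)) (tn (tn (tn te (tn (tl 2) te)) te) te)))) (tn (tn (tn (tn (tn (tn (tn (tl 1393796574908163946345982392040523130994688) te) te) te) (tn (tn (tn (tl 8796629893120) te) (tn (tl 2) te)) (tn (tn (tl 2) te) te))) te) (tn (tn (tn (tn (tn (tl 10384910629719712314420163195699202) te) te) te) (tn (tn te (tn (tl 2) te)) te)) (tn (tn te (tn (tn (tl 2) te) te)) (tn (tn (tn (tl 8796093054977) te) te) te)))) (tn (tn (tn (tn (tn (tn te (tl 2)) te) te) (tn (tn (tn (tl 144115188612743169) te) (tn (tl 1) te)) te)) (tn te (tn (tn (tn (tl 4398314946560) te) te) te))) (tn (tn (tn (tn (tn te (tl 2)) te) te) te) (tn (tn (tn te (tn (tl 16384) te)) te) te))))))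

def t48 : Tr ℕ := (tn (tn (tn (tn (tn (tn (tn (tn (tn (tl 22835963083295358730757875625306622930475565056) te) te) te) (tn (tn (tn (tl 4398583382018) te) te) te)) (tn (tn (tn (tn (tl 2787593149816961756677705126458723760357377) te) te) (tn (tn (tl 1) te) te)) te)) (tn te (tn (tn (tn te (tn (tl 16385) te)) te) (tn (tn (tn (tl 144123984168894464) te) te) (tn te (tn (tl 1) te)))))) (tn (tn (tn (tn (tn (tn (tl 2361255299029397438466) te) te) te) (tn (tn (tn (tl 72061992352890880) te) (tn (tl 16384) te)) te)) (tn (tn (tn te (tn (tl 16384) te)) te) (tn te (tn te (tn (tl 1) te))))) (tn (tn (tn (tn (tn (tl 22838750846591550182153034035363903830193356802) te) te) te) (tn te (tn te (tn (tl 1) te)))) (tn (tn (tn te (tn (tl 1) te)) te) (tn (tn (tn (tl 16386) te) te) (tn te (tn (tl 1) te))))))) (tn (tn (tn (tn te (tn (tn (tn (tl 144123984705781762) te) te) te)) (tn (tn (tn (tn (tl 1) te) te) (tn (tn (tl 2) te) te)) te)) (tn (tn (tn (tn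 (tn (tl 14474011154667815437073275876687316613938608520863715310730309262265743835138) te) te) te) (tn te (tn te (tn (tl 1) te)))) (tn (tn (tn te (tn (tl 32769) te)) te) (tn (tn (tn (tl 4398046543874) te) te) te)))) (tn (tn (tn te (tn (tn (tn (tl 72061992352890880) te) (tn (tl 32770) te)) te)) (tn (tn (tn te (tn (tl 1) te)) te) te)) (tn te (tn (tn (tn (tn (tl 72061992084439041) te) (tn (tl 16385) te)) te) (tn te (tn te (tn (tl 1) te)))))))) (tn (tn (tn (tn (tn (tn (tn (tn (tl 3291009114642412084311332161689609173911817713659204647337852928) te) te) te) (tn (tn (tn (tl 268435457) te) (tn (tl 32768) te)) te)) (tn (tn (tn (tn (tl 2) te) te) te) (tn te (tn te (tn (tl 1) te))))) (tn te (tn (tn (tn te (tn (tl 16384) te)) te) (tn (tn (tn (tl 4398583414786) te) te) (tn te (tn (tl 1) te)))))) (tn (tn (tn (tn (tn (tn (tl 2361183250231184080898) te) te) te) (tn (tn (tn (tl 144119586122399745) te) (tn (tl 32770) te)) te)) (tn (tn (tn te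 (tn (tl 32770) te)) (tn (tn (tl 2) te) te)) (tn te (tn te (tn (tl 1) te))))) (tn (tn (tn (tn (tn (tl 12260338517019587541189845628960866735156923859371835393) te) te) te) te) (tn (tn (tn te (tn (tl 32769) te)) te) te)))) (tn (tn (tn (tn (tn (tn (tn (tl 19342813113834066795298816) te) te) te) (tn (tn (tn (tl 144123984168910850) te) (tn (tl 32770) te)) te)) (tn te (tn te (tn te (tn (tl 1) te))))) (tn (tn (tn (tn (tn (tl 14474894578200204629238067151293270310281955302812747516045738784732026503169) te) te) te) te) (tn (tn (tn te (tn (tl 16384) te)) te) (tn (tn (tn (tl 268468226) te) te) te)))) (tn (tn te (tn (tn te (tn (tn (tl 2) te) te)) (tn (tn (tn (tl 72057594037927938) te) te) te))) (tn (tn (tn te (tn (tn (tl 2) te) te)) te) (tn (tn (tn (tn (tl 144123984437346304) te) (tn (tl 16386) te)) te) (tn te (tn te (tn (tl 1) te)))))))))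

def t49 : Tr ℕ := (tn (tn (tn (tn (tn (tn (tn (tn (tn (tl 22835963083295358096971261137419590315982979072) te) te) te) (tn (tn (tn (tl 72057594574831616) te) te) te)) (tn (tn (tn (tn (tl 1393881655885121742675611312913303799365632) te) te) (tn (tn (tl 1) te) te)) te)) (tn te (tn (tn (tn te (tn (tl 2) te)) te) (tn (tn (tn (tl 72066390130966528) te) te) (tn te (tn (tl 1) te)))))) (tn (tn (tn (tn (tn (tn (tl 8796093038594) te) te) te) (tn (tn (tn (tl 72061992621326336) te) (tn (tl 32768) te)) te)) (tn (tn (tn te (tn (tl 16386) te)) (tn (tn (tl 1) te) te)) (tn te (tn te (tn (tl 1) te))))) (tn (tn (tn (tn (tn (tl 45674713929881716616052376013561554989398097920) te) te) te) (tn te (tn te (tn (tl 2) te)))) (tn (tn (tn te (tn (tl 1) te)) te) (tn (tn (tn (tl 4398046511106) te) te) (tn te (tn (tl 2) te))))))) (tn (tn (tn (tn te (tn (tn (tn (tl 16384) te) te) te)) (tn (tn (tn (tn (tl 1) te) te) (tn (tn (tl 2) te) te)) (tn te (tn te (tn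 (tl 2) te))))) (tn (tn (tn (tn (tn (tl 237149436647051394471151662995501999852094207950278371914338050486288218685734913) te) te) te) (tn te (tn te (tn (tl 1) te)))) (tn te (tn (tn (tn (tl 4398046543873) te) te) (tn te (tn (tl 1) te)))))) (tn (tn (tn te (tn (tn (tn (tl 72057594306396161) te) te) te)) (tn (tn (tn te (tn (tl 32768) te)) (tn (tn (tl 2) te) te)) te)) (tn te (tn (tn (tn (tn (tl 72066390667837441) te) te) te) (tn te (tn te (tn (tl 2) te)))))))) (tn (tn (tn (tn (tn (tn (tn (tn (tl 53919893334301279589334031567920906847802295107043495359734423257088) te) te) te) (tn (tn (tn (tl 32769) te) (tn (tl 32769) te)) te)) (tn (tn (tn (tn (tl 1) te) te) (tn (tn (tl 1) te) te)) (tn te (tn te (tn (tl 1) te))))) (tn (tn te (tn te (tn te (tn (tl 2) te)))) (tn te (tn (tn (tn (tl 144119586122399744) te) te) (tn te (tn (tl 1) te)))))) (tn (tn (tn (tn (tn (tn (tl 2361183250230915645440) te) te) te) (tn (tn (tn (tl 72061992352890882)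 te) (tn (tl 16385) te)) te)) (tn (tn (tn te (tn (tl 16386) te)) (tn (tn (tl 2) te) te)) (tn te (tn te (tn (tl 2) te))))) (tn (tn (tn (tn (tn (tl 12260338517019587541179461352175788769407368996772151297) te) te) te) te) (tn (tn (tn te (tn (tl 1) te)) te) te)))) (tn (tn (tn (tn (tn (tn (tn (tl 19343993705463580299624448) te) te) te) (tn (tn (tn (tl 72061992084455425) te) (tn (tl 16385) te)) te)) (tn te (tn te (tn te (tn (tl 1) te))))) (tn (tn (tn (tn (tn (tl 7237447343019995849793698679517915418053793696007438711533258065289146269697) te) te) te) (tn te (tn te (tn (tl 1) te)))) (tn (tn (tn te (tn (tl 16384) te)) te) (tn te (tn te (tn (tl 1) te)))))) (tn (tn te (tn (tn (tn te (tn (tl 32768) te)) (tn (tn (tl 1) te) te)) (tn (tn (tn (tl 8796093022208) te) te) (tn te (tn (tl 2) te))))) (tn (tn (tn te (tn (tn (tl 1) te) te)) (tn te (tn te (tn (tl 2) te)))) (tn (tn (tn (tn (tl 72066390399385601) te) (tn (tl 32770) te)) te) (tn te (tn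 te (tn (tl 1) te)))))))))

def t50 : Tr ℕ := (tn (tn (tn (tn (tn (tn (tn (tn (tn (tl 45671926251661307924099769249410737657012551680) (tl 2)) te) te) (tn (tn (tn (tl 72057594037944322) te) (tn (tl 32770) te)) te)) (tn (tn (tn (tn (tl 85070591730253959859621164236723453954) te) te) (tn (tn (tl 1) te) te)) te)) (tn te (tn (tn (tn te (tn (tl 32768) te)) (tn (tn (tl 1) te) te)) (tn (tn (tn (tl 16384) te) te) (tn te (tn (tl 2) te)))))) (tn (tn (tn (tn (tn (tn (tl 19342813185896059148189696) te) te) te) (tn (tn (tn (tl 72066390130966529) te) (tn (tl 16384) te)) te)) (tn te (tn te (tn te (tn (tl 1) te))))) (tn (tn (tn (tn (tn (tl 12260712661440138133972020755829285420050804313224642561) te) te) te) (tn te (tn te (tn (tl 1) te)))) (tn (tn (tn te (tn (tl 32768) te)) te) (tn (tn (tn (tl 8796093038593) te) te) (tn te (tn (tl 2) te))))))) (tn (tn (tn (tn te (tn (tn (tn (tl 72061992084439041) te) (tn (tl 2) te)) te)) (tn te (tn te (tn te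 (tn (tl 1) te))))) (tn (tn (tn (tn (tn (tl 14474894632120098063972975255103029625234490849505274531193234605561134202880) te) te) te) (tn te (tn te (tn (tl 2) te)))) (tn (tn (tn te (tn (tl 16386) te)) te) (tn (tn (tn (tl 8796629925888) te) te) (tn te (tn (tl 2) te)))))) (tn (tn (tn te (tn (tn (tn (tl 536887296) te) (tn (tl 32770) te)) te)) (tn (tn (tn te (tn (tl 1) te)) te) (tn te (tn te (tn (tl 2) te))))) (tn te (tn (tn (tn (tn (tl 8796629925889) te) (tn (tl 16385) te)) te) te))))) (tn (tn (tn (tn (tn (tn (tn (tn (tl 441711766194596082395824375185729628956870974218904739530401550323154944) (tl 1)) te) te) (tn (tn (tn (tl 536870913) te) (tn (tl 16384) te)) te)) (tn (tn (tn (tn (tl 2) te) te) (tn (tn (tl 2) te) te)) te)) (tn (tn te (tn te (tn te (tn (tl 2) te)))) (tn (tn (tn te (tn (tl 1) te)) (tn (tn (tl 1) te) te)) (tn (tn (tn (tl 72057594574831617) te) te) (tn te (tn (tl 2) te)))))) (tn (tn (tn (tn (tn (tn (tl 1180735735905487175680)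 te) te) te) (tn (tn (tn (tl 72061992352907265) te) (tn (tl 16385) te)) te)) (tn (tn (tn te (tn (tl 32768) te)) (tn (tn (tl 2) te) te)) (tn te (tn te (tn (tl 2) te))))) (tn (tn (tn (tn (tn (tl 45671926336737092585018218876406004440539103233) te) te) te) (tn te (tn te (tn (tl 2) te)))) (tn (tn (tn te (tn (tl 1) te)) te) (tn te (tn te (tn (tl 2) te))))))) (tn (tn (tn (tn (tn (tn (tn (tl 6129982163463555433433388108601236734474956488734408704) te) te) te) (tn (tn (tn (tl 72061992621342720) te) (tn (tl 32768) te)) te)) (tn (tn te (tn (tn (tl 1) te) te)) te)) (tn (tn (tn (tn (tn (tl 237142198758077488120908118335130542508198620512288762897269427538424492621561856) te) te) te) te) (tn (tn (tn te (tn (tl 2) te)) te) (tn (tn (tn (tl 8796361474049) te) te) te)))) (tn (tn te (tn (tn (tn te (tn (tl 32770) te)) (tn (tn (tl 1) te) te)) (tn (tn (tn (tl 72057594574815232) te) te) (tn te (tn (tl 1) te))))) (tn (tn (tn te (tn (tn (tl 1) te)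 te)) (tn te (tn te (tn (tl 1) te)))) (tn (tn (tn (tn (tl 72066390130950146) te) te) te) te))))))

def t51 : Tr ℕ := (tn (tn (tn (tn (tn (tn (tn (tn (tn (tl 374167255119794442418240288436505872622234445545472) (tl 2)) te) te) (tn (tn (tn (tl 144119586390835201) te) te) te)) (tn (tn (tn (tn (tl 1393881655885121742676791904534021210652672) te) te) te) te)) (tn te (tn (tn (tn te (tn (tl 2) te)) (tn (tn (tl 1) te) te)) (tn (tn (tn (tl 72066390399385602) te) te) (tn te (tn (tl 1) te)))))) (tn (tn (tn (tn (tn (tn (tl 38686806963404039614644224) te) te) te) (tn (tn (tn (tl 144119586122399744) te) (tn (tl 16384) te)) te)) (tn (tn (tn te (tn (tl 32769) te)) te) (tn te (tn te (tn (tl 2) te))))) (tn (tn (tn (tn (tn (tl 45671926336737091951212262755996762874440581121) te) te) te) (tn te (tn te (tn (tl 2) te)))) (tn (tn (tn te (tn (tl 16384) te)) te) (tn (tn (tn (tl 8796093022210) te) te) (tn te (tn (tl 2) te))))))) (tn (tn (tn (tn te (tn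 (tn (tn (tl 72057594574815234) te) (tn (tl 32770) te)) te)) (tn (tn te (tn (tn (tl 2) te) te)) (tn te (tn te (tn (tl 2) te))))) (tn (tn (tn (tn (tn (tl 883477453928231890648724834854072577180203869438500926346631520205176833) te) te) te) (tn te (tn te (tn (tl 2) te)))) (tn (tn (tn te (tn (tl 32770) te)) te) (tn (tn (tn (tl 4398583398401) te) te) (tn te (tn (tl 1) te)))))) (tn (tn (tn te (tn (tn (tn (tl 268468224) te) (tn (tl 32768) te)) te)) (tn (tn (tn te (tn (tl 1) te)) (tn (tn (tl 1) te) te)) te)) (tn te (tn (tn (tn (tn (tl 72057594574815232) te) (tn (tl 2) te)) te) (tn te (tn te (tn (tl 2) te)))))))) (tn (tn (tn (tn (tn (tn (tn (tn (tl 53919893334301279589334031567920912040099153641871123890230484041728) (tl 2)) te) te) (tn (tn (tn (tl 72057594037960704) te) (tn (tl 1) te)) te)) (tn (tn (tn (tn (tl 1) te) te) te) (tn te (tn te (tn (tl 1) te))))) (tn (tn te (tn te (tn te (tn (tl 1) te)))) (tn (tn (tn te (tn (tl 1) te)) te)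 (tn (tn (tn (tl 268435458) te) te) (tn te (tn (tl 2) te)))))) (tn (tn (tn (tn (tn (tn (tl 144115188075872256) te) te) te) (tn (tn (tn (tl 144119586122366978) te) (tn (tl 32769) te)) te)) (tn (tn (tn te (tn (tl 32770) te)) te) (tn te (tn te (tn (tl 2) te))))) (tn (tn (tn (tn (tn (tl 6130356307884105941155357049709402193212246455239081986) te) te) te) (tn te (tn te (tn (tl 2) te)))) (tn te (tn te (tn te (tn (tl 2) te))))))) (tn (tn (tn (tn (tn (tn (tn (tl 85070591730253958678957494720830373888) te) te) te) (tn (tn (tn (tl 72057594306396161) te) (tn (tl 2) te)) te)) te) (tn (tn (tn (tn (tn (tl 118578337268066568658477134037428020175454614945397599012276506095026793988751362) te) te) te) (tn te (tn te (tn (tl 2) te)))) (tn (tn (tn te (tn (tl 16385) te)) te) (tn (tn (tn (tl 4398314962944) te) te) (tn te (tn (tl 1) te)))))) (tn (tn te (tn te (tn (tn (tn (tl 72066390399401985) te) te) te))) (tn (tn (tn te (tn (tn (tl 1) te) te)) (tn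 te (tn te (tn (tl 2) te)))) (tn (tn (tn (tn (tl 8796093022210) te) (tn (tl 16386) te)) te) (tn te (tn te (tn (tl 1) te)))))))))

def t52 : Tr ℕ := (tn (tn (tn (tn (tn (tn (tn (tn (tn (tl 100433627766232564147539221487516527811021254197223622705152) (tl 1)) te) te) (tn (tn (tn (tl 8796093038594) te) (tn (tl 32769) te)) te)) (tn (tn (tn (tn (tl 85075784027112494687177637139014746114) te) te) (tn (tn (tl 1) te) te)) (tn te (tn te (tn (tl 1) te))))) (tn te (tn (tn (tn te (tn (tl 32770) te)) te) (tn (tn (tn (tl 72066390399418368) te) te) (tn te (tn (tl 1) te)))))) (tn (tn (tn (tn (tn (tn (tl 19342813185891661370130433) te) te) te) (tn (tn (tn (tl 72057594574815232) te) te) te)) (tn (tn (tn te (tn (tl 32769) te)) te) (tn te (tn te (tn (tl 2) te))))) (tn (tn (tn (tn (tn (tl 6130730497973795107399201546916409755207950821570412546) te) te) te) (tn te (tn te (tn (tl 1) te)))) (tn (tn (tn te (tn (tl 32768) te)) te) (tn (tn (tn (tl 268468224)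 te) te) te))))) (tn (tn (tn (tn te (tn (tn (tn (tl 72066390667821056) te) (tn (tl 32768) te)) te)) (tn (tn (tn (tn (tl 1) te) te) (tn (tn (tl 2) te) te)) te)) (tn (tn (tn (tn (tn (tl 14474894632120098063960715290776102514367624073288072057724284688185618874368) te) te) te) te) (tn (tn (tn te (tn (tl 32769) te)) te) (tn (tn (tn (tl 8796361474049) te) te) (tn te (tn (tl 1) te)))))) (tn (tn (tn te (tn (tn (tn (tl 144123984168894464) te) (tn (tl 16384) te)) te)) (tn (tn (tn te (tn (tl 2) te)) (tn (tn (tl 2) te) te)) (tn te (tn te (tn (tl 1) te))))) (tn (tn te (tn te (tn te (tn (tl 2) te)))) (tn (tn (tn (tn (tl 144119586122383361) te) (tn (tl 16384) te)) te) (tn te (tn te (tn (tl 2) te)))))))) (tn (tn (tn (tn (tn (tn (tn (tn (tl 441711766194596082395824398021692712252229071151482611905565167269707776) te) te) te) (tn (tn (tn (tl 16384) te) (tn (tl 32770) te)) te)) (tn te (tn te (tn te (tn (tl 2) te))))) (tn (tn te (tn te (tn te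 (tn (tl 2) te)))) (tn (tn (tn te (tn (tl 2) te)) (tn (tn (tl 2) te) te)) (tn (tn (tn (tl 4398046527488) te) te) te)))) (tn (tn (tn (tn (tn (tn (tl 1180663678311986135040) te) te) te) (tn (tn (tn (tl 144123984168894464) te) (tn (tl 16385) te)) te)) (tn te (tn te (tn te (tn (tl 2) te))))) (tn (tn (tn (tn (tn (tl 6129982163466343111664180760484301027251101228146393089) te) te) te) (tn te (tn te (tn (tl 2) te)))) (tn (tn (tn te (tn (tl 16384) te)) te) te)))) (tn (tn (tn (tn (tn (tn (tn (tl 6129982186299518516739130799250881900923939663516794880) te) te) te) (tn (tn (tn (tl 144119586390802433) te) (tn (tl 32770) te)) te)) (tn te (tn te (tn te (tn (tl 1) te))))) (tn (tn (tn (tn (tn (tl 237142198758077488121008551962896729400419993143060085559927065153478323135840256) te) te) te) (tn te (tn te (tn (tl 2) te)))) (tn (tn (tn te (tn (tl 32769) te)) te) (tn (tn (tn (tl 8796093054976) te) te) (tn te (tn (tl 2) te)))))) (tn (tn te (tn (tn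 (tn te (tn (tl 1) te)) (tn (tn (tl 2) te) te)) (tn (tn (tn (tl 536903681) te) te) (tn te (tn (tl 2) te))))) (tn (tn (tn te (tn (tn (tl 2) te) te)) (tn te (tn te (tn (tl 1) te)))) (tn (tn (tn (tn (tl 72061992084439041) te) (tn (tl 32769) te)) te) (tn te (tn te (tn (tl 1) te)))))))))

def t53 : Tr ℕ := (tn (tn (tn (tn (tn (tn (tn (tn (tn (tl 26959946667150639794689851050102926032367902298165879104034085797888) te) te) te) (tn (tn (tn (tl 144115188075888642) te) (tn (tl 32768) te)) te)) (tn (tn (tn (tn (tl 1393966726476851977291477156565161741402112) te) te) (tn (tn (tl 1) te) te)) te)) (tn te (tn (tn (tn te (tn (tl 16385) te)) te) (tn (tn (tn (tl 4398314946560) te) te) te)))) (tn (tn (tn (tn (tn (tn (tl 2361183250231184097282) te) te) te) (tn (tn (tn (tl 72066390399418368) te) (tn (tl 2) te)) te)) (tn (tn (tn te (tn (tl 2) te)) (tn (tn (tl 2) te) te)) (tn te (tn te (tn (tl 1) te))))) (tn (tn (tn (tn (tn (tl 6129982163466343026593589347123648411645510893378240513)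 te) te) te) (tn te (tn te (tn (tl 1) te)))) (tn (tn (tn te (tn (tl 32768) te)) te) (tn (tn (tn (tl 4398046527490) te) te) (tn te (tn (tl 1) te))))))) (tn (tn (tn (tn te (tn (tn (tn (tl 144119586122366976) te) te) te)) (tn (tn (tn (tn (tl 1) te) te) te) te)) (tn (tn (tn (tn (tn (tl 237142199641501020509999855629743581122480851673502166719077171458920494437236736) te) te) te) (tn te (tn te (tn (tl 2) te)))) (tn (tn (tn te (tn (tl 32768) te)) te) (tn (tn (tn (tl 4398314962944) te) te) te)))) (tn (tn (tn te (tn (tn (tn (tl 144119586390835202) te) (tn (tl 32770) te)) te)) (tn (tn (tn te (tn (tl 1) te)) te) (tn te (tn te (tn (tl 2) te))))) (tn te (tn (tn (tn (tn (tl 144115188344324097) te) (tn (tl 32768) te)) te) (tn te (tn te (tn (tl 1) te)))))))) (tn (tn (tn (tn (tn (tn (tn (tn (tl 3291009114642786228730488872836669317228993082112236566068887552) te) te) te) (tn (tn (tn (tl 144123984168894464) te) (tn (tl 16384) te)) te)) (tn (tn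 (tn (tn (tl 1) te) te) (tn (tn (tl 2) te) te)) te)) (tn (tn te (tn te (tn te (tn (tl 1) te)))) (tn (tn (tn te (tn (tl 16384) te)) te) (tn (tn (tn (tl 144115188075888642) te) te) (tn te (tn (tl 2) te)))))) (tn (tn (tn (tn (tn (tn (tl 2361183250231452516354) te) te) te) (tn (tn (tn (tl 144115188075855874) te) (tn (tl 16384) te)) te)) (tn (tn (tn te (tn (tl 32768) te)) (tn (tn (tl 1) te) te)) (tn te (tn te (tn (tl 1) te))))) (tn (tn (tn (tn (tn (tl 12260338471347661544740312895584290257646274871841259521) te) te) te) te) (tn (tn (tn te (tn (tl 16386) te)) te) te)))) (tn (tn (tn (tn (tn (tn (tn (tl 374144419156711147060143336518181566874781619322880) te) te) te) (tn (tn (tn (tl 72066390399385600) te) (tn (tl 16385) te)) te)) (tn (tn te (tn (tn (tl 1) te) te)) te)) (tn (tn (tn (tn (tn (tl 883450492336060194946940163770026141339234669087666473590963526176882689) te) te) te) te) (tn (tn (tn te (tn (tl 32770) te)) te) (tn (tn (tn (tl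 268435457) te) te) te)))) (tn (tn te (tn (tn te (tn (tn (tl 1) te) te)) (tn (tn (tn (tl 144123984705765377) te) te) te))) (tn (tn (tn te (tn (tn (tl 1) te) te)) te) (tn (tn (tn (tn (tl 4398583398400) te) (tn (tl 1) te)) te) (tn te (tn te (tn (tl 1) te)))))))))

def t54 : Tr ℕ := (tn (tn (tn (tn (tn (tn (tn (tn (tn (tl 374144419156711152252757127048240549822357649227778) te) te) te) (tn (tn (tn (tl 268435456) te) (tn (tl 1) te)) te)) (tn (tn (tn (tn (tl 2787678230793285689022774296570145758265344) te) te) (tn (tn (tl 2) te) te)) te)) (tn te (tn (tn (tn te (tn (tl 16385) te)) te) (tn (tn (tn (tl 144119586659270657) te) te) te)))) (tn (tn (tn (tn (tn (tn (tl 2361255299028860551168) te) te) te) (tn (tn (tn (tl 144123984437329920) te) (tn (tl 32770) te)) te)) (tn (tn (tn te (tn (tl 16385) te)) (tn (tn (tl 2) te) te)) (tn te (tn te (tn (tl 2) te))))) (tn (tn (tn (tn (tn (tl 12259964326927110866866776534134468700448454041606832128)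 te) te) te) (tn te (tn te (tn (tl 2) te)))) (tn (tn (tn te (tn (tl 1) te)) te) (tn (tn (tn (tl 4398314979329) te) te) (tn te (tn (tl 2) te))))))) (tn (tn (tn (tn te (tn (tn (tn (tl 536870912) te) (tn (tl 2) te)) te)) (tn (tn (tn (tn (tl 2) te) te) (tn (tn (tl 2) te) te)) (tn te (tn te (tn (tl 2) te))))) (tn (tn (tn (tn (tn (tl 14474894632116807054852202486688002405353009850560154371180603147050322788352) te) te) te) te) (tn (tn (tn te (tn (tl 16384) te)) te) (tn (tn (tn (tl 4398583414784) te) te) te)))) (tn (tn (tn te (tn (tn (tn (tl 4398314979329) te) (tn (tl 16385) te)) te)) (tn (tn (tn te (tn (tl 16384) te)) te) (tn te (tn te (tn (tl 2) te))))) (tn te (tn (tn (tn (tn (tl 144123984705781760) te) (tn (tl 2) te)) te) te))))) (tn (tn (tn (tn (tn (tn (tn (tn (tl 441711767840301513102544954591484583364160857879421768609013727850659840) te) te) te) (tn (tn (tn (tl 72061992084455425) te) (tn (tl 32768) te)) te)) te) (tn te (tn (tn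 (tn te (tn (tl 16385) te)) te) (tn (tn (tn (tl 144119586122383362) te) te) te)))) (tn (tn (tn (tn (tn (tn (tl 1180735740303533670402) te) te) te) (tn (tn (tn (tl 8796093038593) te) (tn (tl 32768) te)) te)) (tn (tn (tn te (tn (tl 32769) te)) (tn (tn (tl 1) te) te)) (tn te (tn te (tn (tl 2) te))))) (tn (tn (tn (tn (tn (tl 748334511633555606121035618259589481625576617803778) te) te) te) te) (tn (tn (tn te (tn (tl 16385) te)) te) te)))) (tn (tn (tn (tn (tn (tn (tn (tl 6129982163463555518514364432572265068689512202223222784) te) te) te) (tn (tn (tn (tl 72057594574831616) te) (tn (tl 16386) te)) te)) (tn (tn te (tn (tn (tl 1) te) te)) te)) (tn (tn (tn (tn (tn (tl 118585574273643904211700221866403147482421487654547952727658477103631536027107330) te) te) te) (tn te (tn te (tn (tl 1) te)))) (tn (tn (tn te (tn (tl 32768) te)) te) (tn (tn (tn (tl 268435456) te) te) (tn te (tn (tl 1) te)))))) (tn (tn te (tn (tn (tn te (tn (tl 32768) te))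 (tn (tn (tl 1) te) te)) (tn (tn (tn (tl 268435457) te) te) te))) (tn te (tn (tn (tn (tn (tl 72061992621326337) te) (tn (tl 16385) te)) te) (tn te (tn te (tn (tl 1) te)))))))))

def t55 : Tr ℕ := (tn (tn (tn (tn (tn (tn (tn (tn (tn (tl 316912652418240596207581790209) te) (tn (tl 16386) te)) te) (tn te (tn (tn (tl 32770) te) te))) (tn (tn (tn te (tn (tl 32769) te)) te) (tn (tn (tn (tl 144123984705781761) te) te) (tn (tn (tl 2) te) te)))) (tn (tn (tn (tn (tn (tl 237156673652601765141193922090708048626742265777173376517710253481692857219710978) te) (tn (tl 2) te)) te) (tn (tn (tn (tl 8796093022208) te) te) (tn te (tn (tl 2) te)))) (tn (tn (tn (tn (tl 144123984168894466) te) te) te) (tn te (tn (tn (tl 16385) te) te))))) (tn (tn (tn (tn (tn te (tn (tl 1) te)) te) (tn (tn (tn (tl 8796093022208) te) te) (tn (tn (tl 32770) te) te))) (tn (tn (tn (tn (tl 8796093022208) te) te) te) (tn (tn (tn (tl 144123984437346305) te) te) (tn (tn (tl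 32769) te) te)))) (tn (tn (tn (tn (tn (tl 3291009114642412107145901448415251403775924883345561660558442498) te) (tn (tl 16386) te)) (tn (tn (tl 2) te) te)) (tn (tn (tn (tl 16385) te) te) te)) (tn (tn (tn (tn (tl 16384) te) te) (tn (tn (tl 16385) te) te)) (tn te (tn (tn (tl 32770) te) te)))))) (tn (tn (tn (tn (tn (tn (tn (tl 633825300114114700748351602688) te) (tn (tl 1) te)) te) (tn (tn (tn (tl 19342813185900457463119874) te) te) (tn (tn (tl 2) te) te))) (tn te (tn (tn (tn (tl 4398583382017) te) te) (tn (tn (tl 1) te) te)))) (tn (tn (tn (tn (tn (tl 22835963083305742690668987979562817241577701376) te) (tn (tl 1) te)) (tn (tn (tl 2) te) te)) te) (tn (tn (tn (tn (tl 72066390399418368) te) te) (tn (tn (tl 2) te) te)) (tn te (tn (tn (tl 32770) te) te))))) (tn (tn (tn (tn (tn (tn (tl 53919893334301279589334030174039261347591201495138202312581396299776) te) (tn (tl 32769) te)) te) (tn (tn (tn (tl 144123984437346304) te) te) (tn te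 (tn (tl 2) te)))) (tn te (tn (tn (tn (tl 4398046543872) te) te) (tn (tn (tl 32768) te) te)))) (tn (tn (tn (tn (tn (tl 2787678225600671898492715457733359757705218) te) (tn (tl 1) te)) (tn (tn (tl 2) te) te)) (tn (tn (tn (tl 4398314979328) te) te) te)) (tn (tn te (tn (tn (tl 16385) te) te)) (tn te (tn (tn (tl 16386) te) te))))))) (tn (tn (tn (tn (tn (tn (tn (tn (tl 633825300114114700748351602688) te) (tn (tl 16384) te)) te) (tn te (tn (tn (tl 1) te) te))) (tn te (tn (tn (tn (tl 8796093054977) te) te) (tn (tn (tl 32768) te) te)))) (tn (tn (tn (tn (tn (tl 441765689379039931946340269257770624832719031716578270255104687840706560) te) (tn (tl 32769) te)) te) (tn (tn (tn (tl 72061992621309953) te) te) te)) (tn (tn (tn (tn (tl 72066390667837440) te) te) te) (tn te (tn (tn (tl 16385) te) te))))) (tn (tn (tn (tn (tn (tn (tl 279968093815219778775523757610887745668338610818315044441488909205168734393032346586679422990900264960) te) (tn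 (tl 32769) te)) te) (tn (tn (tn (tl 19343993849578768375496706) te) te) (tn te (tn (tl 2) te)))) (tn te (tn (tn (tn (tl 72066390130982914) te) te) te))) (tn (tn (tn (tn (tn (tl 2361183241434822606849) te) (tn (tl 16384) te)) te) (tn (tn (tn (tl 4398046511106) te) te) te)) (tn (tn (tn (tn (tl 8796093054977) te) te) (tn (tn (tl 16385) te) te)) (tn te (tn (tn (tl 2) te) te)))))) (tn (tn (tn (tn (tn (tn (tn (tl 16384) te) (tn (tl 16386) te)) te) (tn (tn (tn (tl 38687987555024757025931265) te) te) (tn (tn (tl 16386) te) (tn (tl 2) te)))) (tn (tn (tn (tn (tl 144123984437329922) te) (tn (tl 1) te)) te) (tn (tn (tn (tl 72066390130982914) te) te) (tn (tn (tl 16386) te) te)))) (tn (tn (tn (tn (tn (tl 19342813113838464841809920) te) te) (tn (tn (tl 2) te) te)) (tn (tn (tn (tl 8796093038592) te) te) te)) (tn (tn (tn (tn (tl 72057594037927938) te) te) (tn (tn (tl 32769) te) te)) (tn te (tn (tn (tl 16385) te) te))))) (tn (tn (tn (tn (tn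 (tn (tl 748288839707218879413044336454362038132515434151937) te) (tn (tl 16385) te)) te) (tn (tn (tn (tl 72066390667821057) te) te) (tn te (tn (tl 2) te)))) (tn (tn (tn (tn (tl 72066390130966530) te) te) te) (tn te (tn (tn (tl 32770) te) te)))) (tn (tn (tn (tn (tn (tl 85075784660957138795069854663388987393) te) (tn (tl 32769) te)) te) (tn (tn (tn (tl 268451841) te) te) te)) (tn (tn te (tn (tn (tl 32768) te) te)) (tn te (tn (tn (tl 32768) te) te))))))))

def t56 : Tr ℕ := (tn (tn (tn (tn (tn (tn (tn (tn (tn (tl 16384) te) (tn (tl 1) te)) te) (tn te (tn (tn (tl 16385) te) te))) (tn (tn (tn te (tn (tl 32769) te)) te) (tn (tn (tn (tl 72057594037927937) te) te) (tn (tn (tl 32770) te) te)))) (tn (tn (tn (tn (tn (tl 7237447289100102515486289482142003488327315547053576028957457536715610652674) te) te) te) (tn (tn (tn (tl 4398314946560) te) te) te)) (tn (tn (tn (tn (tl 536903680) te) te) te) (tn te (tn (tn (tl 16385) te) te))))) (tn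 (tn (tn (tn (tn te (tn (tl 16384) te)) te) (tn (tn (tn (tl 1180735744701580197888) te) te) (tn (tn (tl 32768) te) te))) (tn (tn (tn (tn (tl 72061992621342721) te) te) te) (tn (tn (tn (tl 72057594306363393) te) te) te))) (tn (tn (tn (tn (tn (tl 4398046511104) te) te) te) (tn (tn (tn (tl 32768) te) te) te)) (tn (tn (tn (tn (tl 72066390667821056) te) te) te) te)))) (tn (tn (tn (tn (tn (tn (tn (tl 16384) te) (tn (tl 16386) te)) te) (tn (tn (tn (tl 2361327356623435350018) te) te) (tn (tn (tl 16385) te) te))) (tn te (tn (tn (tn (tl 2) te) te) (tn (tn (tl 2) te) te)))) (tn (tn (tn (tn (tn (tl 72057594037927936) te) (tn (tl 16386) te)) te) (tn (tn (tn (tl 4398583382018) te) te) te)) (tn (tn (tn (tn (tl 144119586390802432) te) te) (tn (tn (tl 32769) te) te)) (tn te (tn (tn (tl 2) te) te))))) (tn (tn (tn (tn (tn (tn (tl 118578337268012648765142832757464564564874626047564356520253447153886913726808066) te) te) te) (tn (tn (tn (tl 19343993777516776827912192)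 te) te) te)) (tn te (tn (tn (tn (tl 72057594306363392) te) te) (tn (tn (tl 1) te) te)))) (tn (tn (tn (tn (tn (tl 2787593155008624751227973148351845319589889) te) (tn (tl 32769) te)) te) (tn (tn (tn (tl 536887297) te) te) te)) (tn (tn te (tn (tn (tl 1) te) te)) (tn te (tn (tn (tl 32768) te) te))))))) (tn (tn (tn (tn (tn (tn (tn (tn (tl 16384) te) (tn (tl 1) te)) te) (tn te (tn (tn (tl 32769) te) te))) (tn te (tn (tn (tn (tl 144115188075872258) te) te) (tn (tn (tl 16384) te) te)))) (tn (tn (tn (tn (tn (tl 118571099820750511900504485136077809880246440022959622792217859156818310134267904) te) (tn (tl 16386) te)) te) (tn (tn (tn (tl 8796361457664) te) te) te)) (tn (tn (tn (tn (tl 144123984437346306) te) te) te) (tn te (tn (tn (tl 16386) te) te))))) (tn (tn (tn (tn (tn (tn (tl 279968093815219778775405179274503156555253769710879371248264909169873827285067374726176285291746197504) te) (tn (tl 2) te)) te) (tn (tn (tn (tl 2361183241434822623234)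 te) te) te)) (tn te (tn (tn (tn (tl 144119586659254274) te) te) (tn (tn (tl 16385) te) te)))) (tn (tn (tn (tn (tn (tl 72057594037927936) te) (tn (tl 16384) te)) te) (tn (tn (tn (tl 4398046511106) te) te) te)) (tn (tn (tn (tn (tl 72057594037960706) te) te) (tn (tn (tl 16386) te) te)) te)))) (tn (tn (tn (tn (tn (tn (tn (tl 268435456) te) (tn (tl 32769) te)) te) (tn (tn (tn (tl 1180735735905755627521) te) te) (tn (tn (tl 32770) te) te))) (tn (tn (tn (tn (tl 144123984437329922) te) te) te) (tn (tn (tn (tl 72066390667821056) te) te) te))) (tn (tn (tn (tn te (tn (tl 32769) te)) te) (tn (tn (tn (tl 536870913) te) te) te)) (tn (tn (tn (tn (tl 72066390667821056) te) te) (tn (tn (tl 32768) te) te)) (tn te (tn (tn (tl 2) te) te))))) (tn (tn (tn (tn (tn (tn (tl 12260712661438744252331713158526198851518341453241663490) te) (tn (tl 32769) te)) te) (tn (tn (tn (tl 536887297) te) te) te)) (tn (tn (tn (tn (tl 144123984437346306) te) te) te)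 (tn te (tn (tn (tl 16384) te) te)))) (tn (tn (tn (tn (tn (tl 1393966726476535045297426465821995443453954) te) (tn (tl 16386) te)) te) (tn (tn (tn (tl 8796629909506) te) te) te)) (tn (tn te (tn (tn (tl 32768) te) te)) (tn te (tn (tn (tl 2) te) te))))))))

def t57 : Tr ℕ := (tn (tn (tn (tn (tn (tn (tn (tn (tn (tl 633825301294778387856162291712) te) (tn (tl 2) te)) te) (tn te (tn (tn (tl 16384) te) te))) (tn (tn (tn te (tn (tl 32769) te)) te) (tn (tn (tn (tl 72057594037944320) te) te) (tn (tn (tl 32768) te) te)))) (tn (tn (tn (tn (tn (tl 7237005604295499990672096536004047450755126522310104716645567367670103293952) te) (tn (tl 1) te)) te) (tn (tn (tn (tl 144123984705781762) te) te) (tn te (tn (tl 1) te)))) (tn (tn (tn (tn (tl 144115188612759552) te) te) te) (tn te (tn (tn (tl 1) te) te))))) (tn (tn (tn (tn (tn te (tn (tl 2) te)) te) (tn (tn (tn (tl 1180663687107810689025) te) te) te)) (tn (tn (tn (tn (tl 144115188344324097) te)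 te) te) (tn (tn (tn (tl 144115188612743168) te) te) (tn (tn (tl 16384) te) te)))) (tn (tn (tn (tn (tn (tl 374144419156796217651873551791234296683776673054722) te) (tn (tl 32769) te)) te) (tn (tn (tn (tl 4398046511105) te) te) te)) (tn (tn (tn (tn (tl 72061992621342722) te) te) (tn (tn (tl 16386) te) te)) (tn te (tn (tn (tl 32769) te) te)))))) (tn (tn (tn (tn (tn (tn (tn (tl 316912651237648971091587104768) te) (tn (tl 2) te)) te) (tn (tn (tn (tl 38686806819293249316864001) te) te) (tn (tn (tl 32769) te) te))) (tn (tn (tn te (tn (tl 32768) te)) te) (tn (tn (tn (tl 72061992352890880) te) te) (tn (tn (tl 1) te) te)))) (tn (tn (tn (tn (tn (tl 45671926166595908807675021533297393368343511040) te) (tn (tl 1) te)) te) (tn (tn (tn (tl 268468224) te) te) te)) (tn (tn (tn (tn (tl 144115188612743169) te) te) (tn (tn (tl 32770) te) te)) (tn te (tn (tn (tl 16385) te) te))))) (tn (tn (tn (tn (tn (tn (tl 441711769485605197038610626753575381663806869278154998583672525404798976)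 te) (tn (tl 32769) te)) te) (tn (tn (tn (tl 38685626371783321666469888) te) te) (tn te (tn (tl 1) te)))) (tn te (tn (tn (tn (tl 144115188344291330) te) te) (tn (tn (tl 32770) te) te)))) (tn (tn (tn (tn (tn (tl 316951338044468264340903968768) te) (tn (tl 2) te)) te) (tn (tn (tn (tl 1) te) te) te)) (tn (tn te (tn (tn (tl 16384) te) te)) (tn te (tn (tn (tl 16384) te) te))))))) (tn (tn (tn (tn (tn (tn (tn (tn (tl 316912651237648971091587104768) te) (tn (tl 16386) te)) te) (tn te (tn (tn (tl 16384) te) te))) (tn te (tn (tn (tn (tl 4398046527489) te) te) (tn (tn (tl 32768) te) te)))) (tn (tn (tn (tn (tn (tl 237149436205366589868827722188444543563211525603244208774101879177284151668670464) te) (tn (tl 16386) te)) te) (tn (tn (tn (tl 144119586390835200) te) te) te)) (tn (tn (tn (tn (tl 4398314946562) te) te) te) (tn te (tn (tn (tl 32768) te) te))))) (tn (tn (tn (tn (tn (tn (tl 521544871201345260800208032177557953366204756621183263595513257459849373892914438035304628224)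 te) (tn (tl 32768) te)) te) (tn (tn (tn (tl 72061992352890881) te) te) (tn te (tn (tl 1) te)))) (tn te (tn (tn (tn (tl 72057594037960704) te) te) (tn (tn (tl 16385) te) te)))) (tn (tn (tn (tn (tn (tl 1393796574908163946347162983661240005427200) te) (tn (tl 2) te)) te) (tn (tn (tn (tl 2) te) te) te)) (tn (tn (tn (tn (tl 536903682) te) te) (tn (tn (tl 32768) te) te)) te)))) (tn (tn (tn (tn (tn (tn (tn (tl 4398046511104) te) te) te) (tn (tn (tn (tl 19345174441195088277143554) te) te) (tn (tn (tl 1) te) (tn (tl 1) te)))) (tn (tn (tn (tn (tl 8796093022209) te) (tn (tl 16386) te)) te) (tn (tn (tn (tl 8796093038594) te) te) (tn (tn (tl 16386) te) te)))) (tn (tn (tn (tn (tn (tl 5192296897220453856207426281275392) te) (tn (tl 32768) te)) te) (tn (tn (tn (tl 4398046511104) te) te) te)) (tn (tn (tn (tn (tl 72061992352907265) te) te) (tn (tn (tl 2) te) te)) (tn te (tn (tn (tl 32769) te) te))))) (tn (tn (tn (tn (tn (tn (tl 6130356330718675312956783306647318423632404088205901824)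 te) (tn (tl 1) te)) te) (tn (tn (tn (tl 4398583414785) te) te) (tn te (tn (tl 1) te)))) (tn (tn (tn (tn (tl 144115188075872258) te) te) te) (tn te (tn (tn (tl 1) te) te)))) (tn (tn (tn (tn (tn (tl 170151568054186303748127614939726610434) te) (tn (tl 16386) te)) te) (tn (tn (tn (tl 4398583414786) te) te) te)) (tn (tn te (tn (tn (tl 1) te) te)) te))))))

def t58 : Tr ℕ := (tn (tn (tn (tn (tn (tn (tn (tn (tn (tl 633825300114114700748351602689) te) (tn (tl 16384) te)) te) (tn (tn (tn (tl 38687987482975958812622849) te) te) te)) (tn (tn te (tn (tn (tl 16386) te) te)) (tn (tn (tn (tl 32769) te) te) (tn (tn (tl 32769) te) te)))) (tn (tn (tn (tn (tn (tl 6129982163466343196724388213875812849186937456851697664) te) te) (tn (tn (tl 2) te) te)) (tn te (tn (tn (tl 16386) te) te))) (tn (tn (tn (tn (tl 72066390667821056) te) te) (tn (tn (tl 32770) te) te)) (tn te (tn (tn (tl 16386) te) te))))) (tn (tn (tn (tn (tn (tn (tl 17088417832238482122977598783506986277215526805145211633599352950557821179173807495349981497294850)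 te) te) (tn (tn (tl 2) te) te)) (tn (tn (tn (tl 144123984437346305) te) te) te)) (tn (tn te (tn (tn (tl 32770) te) te)) (tn (tn (tn (tl 268451841) te) te) (tn (tn (tl 32768) te) te)))) (tn (tn (tn (tn (tn (tl 5192296858537188811771931151843328) te) te) te) (tn (tn (tn (tl 536870912) te) te) (tn (tn (tl 1) te) te))) (tn (tn te (tn te (tn (tl 1) te))) (tn te (tn (tn (tl 16384) te) te)))))) (tn (tn (tn (tn (tn (tn (tn (tl 6129982163463555433443772702337649202845860344281169921) te) te) te) (tn (tn (tn (tl 72057594306396161) te) te) te)) (tn (tn (tn (tn (tl 72066390399385602) te) te) (tn (tn (tl 32769) te) te)) (tn (tn (tn (tl 8796093022210) te) te) (tn (tn (tl 16386) te) te)))) (tn (tn (tn (tn (tn (tl 748288838313422294120286634350736906063837462020097) te) te) te) (tn te (tn (tn (tl 1) te) te))) (tn te (tn te (tn (tn (tl 32769) te) te))))) (tn (tn (tn (tn te (tn (tn (tl 2) te) te)) (tn (tn (tn (tl 8796093054978) te) te) (tn (tn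 (tl 2) te) te))) (tn (tn (tn (tn (tl 8796093038594) te) te) (tn (tn (tl 32770) te) te)) (tn (tn (tn (tl 536903680) te) te) (tn (tn (tl 16385) te) te)))) (tn (tn (tn (tn (tn (tl 1393966716092258279565815677020945910890497) te) te) te) (tn (tn (tn (tl 8796093022210) te) te) (tn (tn (tl 16385) te) te))) (tn (tn (tn (tn (tl 2361327361021481861122) te) te) te) (tn te (tn (tn (tl 32769) te) te))))))) (tn (tn (tn (tn (tn (tn (tn (tn (tl 316912652418240596207581790209) te) (tn (tl 16385) te)) te) (tn (tn (tn (tl 19342813185891660833243136) te) te) (tn te (tn (tl 1) te)))) (tn (tn (tn (tn (tl 144123984437313537) te) te) (tn (tn (tl 32768) te) te)) (tn (tn (tn (tl 268435457) te) te) te))) (tn (tn (tn (tn (tn (tl 6129982186302306194949154897505764184114775902908350465) te) te) te) (tn te (tn (tn (tl 32769) te) te))) (tn (tn (tn (tn (tl 72061992621342721) te) te) (tn (tn (tl 32770) te) te)) (tn te (tn (tn (tl 16386) te) te))))) (tn (tn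 (tn (tn (tn (tn (tl 7237447289100102415058791323974155665762031311149608287320842020156830941185) te) te) (tn (tn (tl 1) te) te)) (tn (tn (tn (tl 72061992084455425) te) te) (tn (tn (tl 1) te) te))) (tn (tn (tn (tn (tl 72057594306363392) te) te) (tn (tn (tl 32770) te) te)) (tn (tn (tn (tl 8796361490434) te) te) (tn (tn (tl 32770) te) te)))) (tn (tn (tn (tn (tn (tl 10384910649062525500307425982447616) te) te) te) (tn (tn (tn (tl 8796629909505) te) te) (tn (tn (tl 16384) te) te))) (tn (tn te (tn te (tn (tl 2) te))) (tn te (tn (tn (tl 2) te) te)))))) (tn (tn (tn (tn (tn (tn (tn (tl 16384) te) te) te) (tn (tn (tn (tl 8796361474050) te) te) te)) (tn (tn te (tn (tn (tl 16385) te) te)) (tn (tn (tn (tl 4398583382016) te) te) (tn (tn (tl 2) te) te)))) (tn (tn (tn (tn (tn (tl 2361183241435091042304) te) te) te) (tn (tn (tn (tl 4398583382016) te) te) (tn (tn (tl 32768) te) te))) (tn te (tn te (tn (tn (tl 32768) te) te))))) (tn (tn (tn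 (tn (tn (tn (tl 237142199641501022155604840448733646706115888347259244879555548960696010484514818) te) te) te) (tn te (tn (tn (tl 2) te) te))) (tn (tn (tn (tn (tl 144119586122383360) te) te) (tn (tn (tl 32770) te) te)) (tn te (tn (tn (tl 2) te) te)))) (tn (tn (tn (tn (tn (tl 2787593149816644844030009252340987777269762) te) te) (tn (tn (tl 32768) te) te)) (tn (tn (tn (tl 268435456) te) te) (tn (tn (tl 32768) te) te))) (tn (tn (tn (tn (tl 38685626227676929952071682) te) te) te) te))))))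

def t59 : Tr ℕ := (tn (tn (tn (tn (tn (tn (tn (tn (tn (tl 4398046511104) te) te) te) (tn (tn (tn (tl 2361327356622898462721) te) te) te)) (tn te (tn (tn (tn (tl 536887297) te) te) (tn (tn (tl 1) te) te)))) (tn (tn (tn (tn (tn (tl 1393796574908480858996039593514881207238656) te) te) te) te) (tn (tn (tn (tn (tl 8796629909505) te) te) te) te))) (tn (tn (tn (tn (tn (tn (tl 268435456) te) te) te) (tn (tn (tn (tl 144115188075872258) te) te) te)) (tn te (tn (tn (tn (tl 16386) te) te) (tn (tn (tl 16386) te) te)))) (tn (tn (tn (tn (tn (tl 16384) te) te) te) (tn (tn (tn (tl 144115188075855872) te) te) te)) (tn te (tn te (tn (tn (tl 1) te) te)))))) (tn (tn (tn (tn (tn (tn (tn (tl 268435456) te) te) te) (tn (tn (tn (tl 72061992352874496) te) te) te)) (tn (tn (tn (tn (tl 72061992084455425) te) te) te) (tn (tn (tn (tl 16386) te) te) (tn (tn (tl 16386) te) te)))) (tn (tn (tn (tn (tn (tl 19342813113834066795298816) te) te) te) (tn te (tn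 (tn (tl 2) te) te))) (tn te (tn te (tn (tn (tl 32770) te) te))))) (tn (tn (tn te (tn (tn (tn (tl 72066390667837440) te) te) (tn (tn (tl 2) te) te))) (tn (tn (tn (tn (tl 144123984705748994) te) te) te) (tn (tn (tn (tl 268435457) te) te) (tn (tn (tl 16386) te) te)))) (tn (tn (tn (tn (tn (tl 1393881650692824864797970642606334981193729) te) te) te) (tn (tn (tn (tl 72066390130982913) te) te) (tn (tn (tl 16384) te) te))) (tn (tn (tn (tn (tl 2361327356622898462722) te) te) te) (tn te (tn (tn (tl 16386) te) te))))))) (tn (tn (tn (tn (tn (tn (tn (tn (tl 16384) te) (tn (tl 32768) te)) te) (tn (tn (tn (tl 19345174441199486323687426) te) te) te)) (tn (tn (tn (tn (tl 144123984437329922) te) te) te) (tn (tn (tn (tl 32768) te) te) te))) (tn (tn (tn (tn (tn (tl 170151568371137637070229387614355456001) te) te) te) te) (tn (tn (tn (tn (tl 144115188075872257) te) te) (tn (tn (tl 32770) te) te)) te))) (tn (tn (tn (tn (tn (tn (tl 237156673652628726733365636182065065679510612545645770582624756321188220294430721)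 te) te) te) (tn (tn (tn (tl 144119586390818817) te) te) (tn (tn (tl 16386) te) te))) (tn (tn (tn (tn (tl 144123984705781760) te) te) (tn (tn (tl 32768) te) te)) (tn (tn (tn (tl 4398314946560) te) te) (tn (tn (tl 32768) te) te)))) (tn (tn te (tn (tn (tn (tl 4398046527490) te) te) (tn (tn (tl 16384) te) te))) (tn te (tn te (tn (tn (tl 16385) te) te)))))) (tn (tn (tn (tn (tn (tn (tn (tl 268435456) te) te) te) (tn (tn (tn (tl 72061992084455425) te) te) te)) (tn (tn te (tn (tn (tl 32770) te) te)) te)) (tn (tn (tn (tn (tn (tl 316912650057057350374175801344) te) te) te) (tn (tn (tn (tl 144123984168894466) te) te) (tn (tn (tl 32770) te) te))) (tn te (tn te (tn (tn (tl 32769) te) te))))) (tn (tn (tn (tn (tn (tn (tl 7237005604295499890238468769794319266384270984620763443356381551495336706050) te) te) te) (tn te (tn (tn (tl 1) te) te))) (tn (tn (tn (tn (tl 144123984705781762) te) te) (tn (tn (tl 16384) te) te)) te)) (tn (tn (tn (tn (tn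 (tl 1393966716091624454265701490262603521327105) te) te) (tn (tn (tl 32769) te) te)) (tn (tn (tn (tl 144119586390818816) te) te) (tn (tn (tl 32768) te) te))) (tn (tn (tn (tn (tl 72057594574798848) te) te) te) (tn te (tn (tn (tl 32769) te) te))))))))

def t60 : Tr ℕ := (tn (tn (tn (tn (tn (tn (tn (tn (tn (tl 5192613771184884685880870505021440) te) (tn (tl 2) te)) te) (tn (tn (tn (tl 38685626371783322203324418) te) te) te)) (tn (tn te (tn (tn (tl 1) te) te)) (tn (tn (tn (tl 268468226) te) te) (tn (tn (tl 32769) te) te)))) (tn (tn (tn (tn (tn (tl 45671926251661308557944412176711334464243924994) te) te) (tn (tn (tl 2) te) te)) (tn te (tn (tn (tl 32768) te) te))) (tn (tn (tn (tn (tl 72061992352874497) te) te) (tn (tn (tl 16385) te) te)) te))) (tn (tn (tn (tn (tn (tn (tl 279968092772225528262586326732548260508341725177884970277255255511539603008508634187642196180078706688) te) te) te) (tn (tn (tn (tl 8796361474049) te) te) te)) (tn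 (tn te (tn (tn (tl 32769) te) te)) (tn (tn (tn (tl 4398583414786) te) te) (tn (tn (tl 32770) te) te)))) (tn (tn (tn (tn (tn (tl 10384593717070835920748100200693760) te) te) te) (tn (tn (tn (tl 144119586122399745) te) te) (tn (tn (tl 32769) te) te))) (tn (tn te (tn te (tn (tl 1) te))) (tn te (tn (tn (tl 32768) te) te)))))) (tn (tn (tn (tn (tn (tn (tn (tl 12259964326927110866871968831012343979863466379610947584) te) te) te) (tn (tn (tn (tl 72061992352874496) te) te) te)) (tn (tn (tn (tn (tl 4398583382018) te) te) (tn (tn (tl 16386) te) te)) (tn (tn (tn (tl 4398583382016) te) te) (tn (tn (tl 32769) te) te)))) (tn (tn (tn (tn (tn (tl 6130356307882712144580448251918412102927988407465410562) te) te) te) te) (tn te (tn te (tn (tn (tl 32770) te) te))))) (tn (tn (tn (tn te (tn (tn (tl 2) te) te)) (tn (tn (tn (tl 268468225) te) te) te)) (tn (tn (tn (tn (tl 144119586390818818) te) te) (tn (tn (tl 16385) te) te)) (tn (tn (tn (tl 536870912)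 te) te) (tn (tn (tl 1) te) te)))) (tn (tn (tn (tn (tn (tl 85070591730273303853398681012746059777) te) te) te) (tn (tn (tn (tl 8796361490433) te) te) (tn (tn (tl 16384) te) te))) (tn (tn (tn (tn (tl 38687987482967162451165184) te) te) (tn te (tn (tl 2) te))) (tn te (tn (tn (tl 32768) te) te))))))) (tn (tn (tn (tn (tn (tn (tn (tn (tl 633825301294778387856162291712) te) (tn (tl 16386) te)) te) (tn (tn (tn (tl 38686806819297647094956032) te) te) (tn te (tn (tl 2) te)))) (tn (tn (tn (tn (tl 144123984705781762) te) te) (tn (tn (tl 16385) te) te)) (tn (tn (tn (tl 268468226) te) te) (tn (tn (tl 16386) te) te)))) (tn (tn (tn (tn (tn (tl 6129982186302306280030131221476791337737693306799816705) te) te) te) (tn te (tn (tn (tl 16384) te) te))) (tn (tn (tn (tn (tl 144123984705781762) te) te) (tn (tn (tl 32768) te) te)) (tn te (tn (tn (tl 16386) te) te))))) (tn (tn (tn (tn (tn (tn (tl 237142198758077491412017672736039288848190297275435924640983071774296026237665280)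 te) te) (tn (tn (tl 1) te) te)) (tn (tn (tn (tl 8796629893120) te) te) te)) (tn (tn (tn (tn (tl 144119586122366977) te) te) (tn (tn (tl 32770) te) te)) (tn (tn (tn (tl 8796629909505) te) te) (tn (tn (tl 32769) te) te)))) (tn (tn (tn (tn (tn (tl 5192930722521748706644080388489217) te) te) te) (tn (tn (tn (tl 72061992621342720) te) te) (tn (tn (tl 1) te) te))) (tn (tn te (tn te (tn (tl 1) te))) (tn te (tn (tn (tl 32770) te) te)))))) (tn (tn (tn (tn (tn (tn (tn (tl 4398046511104) te) te) te) (tn (tn (tn (tl 144123984437329922) te) te) te)) (tn (tn te (tn (tn (tl 16385) te) te)) (tn (tn (tn (tl 8796093054977) te) te) (tn (tn (tl 16384) te) te)))) (tn (tn (tn (tn (tn (tl 100433627766186892221372630771322662658818278732141963509760) te) te) te) (tn (tn (tn (tl 72057594574831618) te) te) (tn (tn (tl 2) te) te))) (tn te (tn te (tn (tn (tl 32770) te) te))))) (tn (tn (tn (tn (tn (tn (tl 7237447316061694586760622342565532698815741547442729509340457916602857308162)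 te) te) (tn (tn (tl 2) te) te)) (tn te (tn (tn (tl 32770) te) te))) (tn (tn (tn (tn (tl 72061992084455426) te) te) te) (tn te (tn (tn (tl 16384) te) te)))) (tn (tn (tn (tn (tn (tl 2787763296192402171796568568175199990611968) te) te) te) (tn (tn (tn (tl 72066390399385601) te) te) (tn (tn (tl 1) te) te))) (tn (tn (tn (tn (tl 19342813257953653454569472) te) te) (tn te (tn (tl 2) te))) (tn te (tn (tn (tl 1) te) te))))))))

def t61 : Tr ℕ := (tn (tn (tn (tn (tn (tn (tn (tn (tn (tl 633825300114114700748351602689) te) te) te) (tn (tn (tn (tl 32769) te) te) (tn (tn (tl 32770) te) te))) (tn (tn te (tn (tn (tl 1) te) te)) te)) (tn (tn te (tn (tn (tn (tl 8796629925889) te) te) te)) (tn (tn te (tn te (tn (tl 2) te))) te))) (tn (tn (tn (tn (tn (tn (tl 6130730497976582700538632964179382007749673695378948097) te) te) te) (tn (tn (tn (tl 72066390130982913) te) te) te)) (tn (tn (tn (tn (tl 4398046527490) te) te) te) te)) (tn (tn (tn (tn (tn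 (tl 2787763296192402171794207529048953512280065) te) te) te) te) (tn (tn te (tn (tn (tl 16385) te) te)) te)))) (tn (tn (tn (tn (tn te (tn (tn (tl 1) te) te)) (tn (tn (tn (tl 268468226) te) te) (tn (tn (tl 16384) te) te))) (tn (tn (tn (tn (tl 268468225) te) te) (tn (tn (tl 2) te) te)) te)) (tn (tn (tn (tn (tn (tl 1393966716091624454265701634368995235741698) te) te) te) te) (tn (tn te (tn (tn (tl 32769) te) te)) te))) (tn (tn (tn (tn (tn (tn (tl 12260712615765424289160897137681468313748198737888411650) te) te) te) (tn (tn (tn (tl 144119586659237890) te) te) te)) (tn (tn te (tn (tn (tl 16384) te) te)) te)) (tn te (tn (tn (tn (tn (tl 4398314946562) te) te) te) te))))) (tn (tn (tn (tn (tn (tn (tn (tn (tl 6129982163463555433443772702337649202845860344281186304) te) te) (tn (tn (tl 1) te) te)) (tn (tn (tn (tl 8796361474048) te) te) (tn (tn (tl 16386) te) te))) (tn (tn (tn (tn (tl 8796629925890) te) te) (tn (tn (tl 16385) te) te))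 te)) (tn (tn te (tn (tn (tn (tl 4398314979328) te) te) te)) (tn (tn te (tn (tn (tl 32768) te) (tn (tl 2) te))) te))) (tn (tn (tn (tn (tn (tn (tl 118578336826354805755091027408817650782237240637261884867915295458389081486000130) te) te) te) (tn (tn (tn (tl 72061992352907266) te) te) te)) (tn (tn te (tn (tn (tl 32768) te) (tn (tl 1) te))) te)) (tn (tn (tn (tn (tn (tl 170141183460488574544801137783216291840) te) te) te) te) (tn (tn te (tn (tn (tl 32770) te) te)) te)))) (tn (tn (tn (tn (tn (tn (tn (tl 16384) te) te) (tn (tn (tl 2) te) te)) (tn (tn (tn (tl 536887296) te) te) (tn (tn (tl 16386) te) te))) (tn (tn (tn (tn (tl 144123984705748994) te) te) (tn (tn (tl 16384) te) te)) te)) (tn (tn (tn (tn (tn (tl 1393796585293391488718112947052494788247554) te) te) te) te) (tn (tn te (tn (tn (tl 32769) te) (tn (tl 2) te))) te))) (tn (tn (tn te (tn (tn (tn (tl 536887298) te) te) te)) (tn (tn te (tn (tn (tl 16384) te) (tn (tl 1) te))) te))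 (tn (tn (tn te (tn (tn (tl 16385) te) te)) te) (tn (tn (tn (tn (tl 4398314962944) te) te) (tn (tn (tl 1) te) te)) te))))))

def t62 : Tr ℕ := (tn (tn (tn (tn (tn (tn (tn (tn (tn (tl 4398046511104) te) te) te) (tn te (tn (tn (tl 32769) te) te))) (tn (tn te (tn (tn (tl 2) te) te)) te)) (tn (tn te (tn (tn (tn (tl 16386) te) te) te)) (tn (tn te (tn (tn (tl 2) te) te)) te))) (tn (tn (tn (tn (tn (tn (tl 12260712615768211882310713465593501911054484336367632384) te) te) te) (tn (tn (tn (tl 72061992084455425) te) te) (tn (tn (tl 16386) te) te))) (tn (tn (tn (tn (tl 72057594037960706) te) te) (tn (tn (tl 2) te) te)) te)) (tn (tn (tn (tn (tn (tl 2787678225600671917837889754804463329099776) te) te) te) te) (tn (tn te (tn (tn (tl 16386) te) te)) te)))) (tn (tn (tn (tn te (tn (tn (tn (tl 536870912) te) te) te)) (tn (tn (tn (tn (tl 144123984705765377) te) te) te) te)) (tn (tn (tn (tn (tn (tl 1) te) te) te) (tn (tn (tn (tl 268435457) te) te)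 te)) (tn (tn te (tn (tn (tl 32770) te) te)) te))) (tn (tn (tn (tn (tn (tn (tl 748334513027352175836268861427816944538795651366914) te) te) te) (tn (tn (tn (tl 8796093022210) te) te) te)) (tn (tn te (tn (tn (tl 32768) te) te)) te)) (tn te (tn (tn (tn (tn (tl 4398046527490) te) te) (tn (tn (tl 16386) te) te)) te))))) (tn (tn (tn (tn (tn (tn (tn (tn (tl 72057594037927936) te) te) te) (tn (tn (tn (tl 16384) te) te) (tn (tn (tl 32768) te) te))) (tn (tn (tn (tn (tl 144123984437346306) te) te) te) te)) (tn (tn te (tn (tn (tn (tl 268435456) te) te) te)) te)) (tn (tn (tn (tn (tn (tn (tl 14474452920352258063766885242538073695884942971243295348347858365431817453570) te) te) te) (tn (tn (tn (tl 72061992621326336) te) te) te)) (tn (tn te (tn (tn (tl 16386) te) te)) te)) (tn (tn (tn (tn (tn (tl 1) te) te) te) te) (tn (tn te (tn (tn (tl 2) te) te)) te)))) (tn (tn (tn (tn (tn (tn (tn (tl 268435456) te) te) te) (tn (tn (tn (tl 144115188612726786)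 te) te) (tn (tn (tl 16384) te) te))) (tn (tn (tn (tn (tl 4398314979330) te) te) (tn (tn (tl 2) te) te)) te)) (tn (tn (tn (tn (tn (tl 16384) te) te) te) te) (tn (tn te (tn (tn (tl 32769) te) te)) te))) (tn (tn (tn te (tn (tn (tn (tl 16385) te) te) te)) (tn (tn te (tn (tn (tl 1) te) te)) te)) (tn (tn (tn te (tn (tn (tl 32770) te) te)) te) (tn (tn (tn (tn (tl 8796629909504) te) te) (tn (tn (tl 32769) te) te)) te))))))

def t63 : Tr ℕ := (tn (tn (tn (tn (tn (tn (tn (tn (tn (tl 5192613771184884685880870505021440) te) te) te) (tn (tn (tn (tl 8796629893120) te) te) (tn (tn (tl 16384) te) te))) (tn (tn te (tn (tn (tl 32769) te) te)) te)) (tn (tn te (tn (tn (tn (tl 4398046527490) te) te) te)) (tn (tn te (tn (tn (tl 16385) te) te)) te))) (tn (tn (tn (tn (tn (tn (tl 12260338494182230746390171098355245553124718023081492482) te) te) te) (tn (tn (tn (tl 72061992621342720) te) te) (tn (tn (tl 16385) te) te))) (tn (tn (tn (tn (tl 268435456)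 te) te) te) te)) (tn (tn (tn (tn (tn (tl 170141183460469234092870545150975148033) te) te) te) te) (tn (tn te (tn (tn (tl 1) te) te)) te)))) (tn (tn (tn (tn (tn te (tn (tn (tl 1) te) te)) (tn (tn (tn (tl 144115188075855874) te) te) (tn (tn (tl 16384) te) te))) (tn (tn (tn (tn (tl 4398046527488) te) te) (tn (tn (tl 16385) te) te)) te)) (tn (tn (tn (tn (tn (tl 633863988101525610317033259008) te) te) te) (tn (tn (tn (tl 4398046543872) te) te) te)) (tn (tn te (tn (tn (tl 32769) te) (tn (tl 2) te))) te))) (tn (tn (tn (tn (tn (tn (tl 6129982186302306109878562850377841074327603339539283969) te) te) te) (tn (tn (tn (tl 144123984437329920) te) te) te)) (tn (tn te (tn (tn (tl 32768) te) te)) te)) (tn te (tn (tn (tn (tn (tl 8796629909504) te) te) (tn (tn (tl 1) te) te)) te))))) (tn (tn (tn (tn (tn (tn (tn (tn (tl 12259964326928504663446876678046039905198156528029270016) te) te) (tn (tn (tl 2) te) te)) (tn (tn (tn (tl 8796093054976) te)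 te) (tn (tn (tl 16384) te) te))) (tn (tn (tn (tn (tl 72061992084455425) te) te) (tn (tn (tl 32770) te) te)) te)) (tn (tn te (tn (tn (tn (tl 268435456) te) te) te)) (tn (tn te (tn (tn (tl 16384) te) (tn (tl 1) te))) te))) (tn (tn (tn (tn (tn (tn (tl 118585573390166450283769632101351063397489787755127530256246514661212246931144706) te) te) te) (tn (tn (tn (tl 72057594037960706) te) te) te)) (tn (tn te (tn (tn (tl 16384) te) te)) te)) (tn (tn (tn (tn (tn (tl 2787763296192719084446625625534370259435520) te) te) te) te) (tn (tn te (tn (tn (tl 16386) te) te)) te)))) (tn (tn (tn (tn (tn (tn (tn (tl 4398046511104) te) te) (tn (tn (tl 2) te) te)) (tn (tn (tn (tl 144119586122399745) te) te) (tn (tn (tl 32768) te) te))) (tn (tn (tn (tn (tl 144123984437329920) te) te) (tn (tn (tl 16384) te) te)) te)) (tn (tn (tn (tn (tn (tl 170141183460469234093014669135144026114) te) te) te) te) (tn (tn te (tn (tn (tl 32769) te) (tn (tl 1) te))) te)))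 (tn (tn (tn te (tn (tn (tn (tl 268451842) te) te) te)) (tn (tn te (tn (tn (tl 32768) te) (tn (tl 2) te))) te)) (tn (tn (tn te (tn (tn (tl 16384) te) te)) te) (tn (tn (tn (tn (tl 4398314979329) te) te) (tn (tn (tl 32769) te) te)) te))))))

def t64 : Tr ℕ := (tn (tn (tn (tn (tn (tn (tn (tn (tn (tl 1) te) te) te) te) te) (tn (tn (tn (tn (tn (tl 1393796580100460804880810092628612961288192) te) te) (tn (tn (tl 16386) te) te)) te) (tn (tn (tn (tn (tl 4398314946561) te) te) te) te))) (tn (tn (tn (tn (tn (tn (tl 1) te) te) (tn (tn (tl 2) te) te)) te) (tn (tn (tn (tn (tl 144119586659237888) te) te) te) te)) (tn (tn (tn te (tn (tn (tl 32769) te) te)) te) (tn (tn (tn (tn (tl 536887296) te) te) te) te)))) (tn (tn (tn (tn (tn (tn (tn (tl 1) te) te) (tn (tn (tl 1) te) te)) te) (tn (tn (tn (tn (tl 19345174297084297979363328) te) te) te) te)) (tn (tn (tn te (tn (tn (tl 32769) te) te)) te) (tn (tn (tn (tn (tl 268468226) te) te) te) te))) (tn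 (tn (tn (tn (tn (tn (tl 10384910629719712458526555446984705) te) te) (tn (tn (tl 2) te) te)) te) (tn (tn (tn (tn (tl 536887297) te) te) te) te)) (tn (tn (tn te (tn (tn (tl 32769) te) te)) te) te)))) (tn (tn (tn (tn (tn (tn (tn (tn (tl 1) te) te) (tn (tn (tl 16386) te) te)) te) (tn (tn (tn (tn (tl 38686806963408437392736256) te) te) te) te)) (tn (tn (tn (tn (tn (tl 170151568688030945494836582233185222656) te) te) te) te) (tn (tn (tn (tn (tl 4398314962945) te) te) te) te))) (tn (tn (tn (tn (tn (tn (tl 26959946667150639794667017874697851082329135717292206269996761907200) te) te) (tn (tn (tl 1) te) te)) te) (tn (tn (tn (tn (tl 4398583398400) te) te) te) te)) (tn te (tn (tn (tn (tn (tl 4398314946561) te) te) te) te)))) (tn (tn (tn (tn (tn te (tn (tn (tl 16384) te) te)) te) (tn (tn (tn (tn (tl 144119586122366977) te) te) te) te)) (tn (tn (tn te (tn (tn (tl 32769) te) te)) te) (tn (tn (tn (tn (tl 32770) te) te) te) te))) (tn (tn (tn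 (tn (tn (tn (tl 5192613771184884685880870505054210) te) te) te) te) (tn (tn (tn (tn (tl 8796093022208) te) te) te) te)) te))))

def t65 : Tr ℕ := (tn (tn (tn (tn (tn (tn (tn te (tn (tn (tl 16384) te) te)) te) (tn (tn (tn (tn (tl 536870914) te) te) te) te)) te) te) (tn (tn (tn te (tn (tn te (tn te (tn (tl 2) te))) te)) te) (tn te (tn te (tn te (tn (tn (tn (tl 1) te) te) te)))))) (tn (tn (tn (tn te (tn (tn te (tn te (tn (tl 2) te))) te)) te) te) (tn (tn (tn (tn (tn (tn (tn (tl 19342813113842862888337408) te) te) te) te) (tn (tn te (tn te (tn (tl 2) te))) te)) te) (tn te (tn (tn (tn (tn (tn (tl 1) te) te) te) te) (tn te (tn (tn (tn (tl 1) te) te) te)))))))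

def t66 : Tr ℕ := (tn (tn (tn (tn (tn (tn (tn te (tn (tn (tl 16385) te) te)) te) (tn (tn (tn (tn (tl 144119586122383361) te) te) (tn te (tn (tl 1) te))) te)) te) te) (tn te (tn te (tn (tn (tn (tn (tn (tl 2) te) te) te) te) te)))) (tn (tn (tn (tn te (tn (tn te (tn te (tn (tl 1) te))) te)) te) (tn te (tn te (tn te (tn (tn (tn (tl 1) te) te) te))))) (tn (tn (tn (tn (tn (tn (tn (tl 19343993777516776827912193) te) te) te) te) (tn (tn te (tn te (tn (tl 2) te))) te)) te) (tn te (tn (tn (tn (tn (tn (tl 1) te) te) te) te) (tn te (tn (tn (tn (tl 1) te) te) te)))))))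

def t67 : Tr ℕ := (tn (tn (tn (tn (tn (tn (tn te (tn (tn (tl 16384) te) te)) te) (tn (tn (tn (tn (tl 72057594574798850) te) te) (tn te (tn (tl 1) te))) te)) te) te) (tn (tn (tn (tn (tn (tn (tn (tl 1) te) te) te) te) te) te) (tn te (tn (tn (tn (tn (tn (tl 1) te) te) te) te) te)))) (tn (tn te (tn te (tn te (tn te (tn (tn (tn (tl 1) te) te) te))))) (tn (tn (tn (tn (tn (tn (tn (tl 19345174297075501886357504) te) te) te) te) (tn (tn te (tn te (tn (tl 2) te))) te)) te) (tn te (tn (tn (tn (tn (tn (tl 1) te) te) te) te) (tn te (tn (tn (tn (tl 1) te) te) te)))))))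

def t68 : Tr ℕ := (tn (tn (tn (tn (tn (tn (tn te (tn (tn (tl 2) te) te)) te) (tn (tn (tn (tn (tl 72061992084455425) te) te) te) te)) te) (tn te (tn (tn (tn (tn (tn (tl 1) te) te) (tn te (tn (tl 1) te))) te) te))) (tn (tn te (tn te (tn te (tn (tn (tn (tl 1) te) te) te)))) te)) (tn (tn (tn (tn (tn (tn (tn (tn (tl 2) te) te) te) te) te) te) te) (tn (tn (tn (tn (tn (tn (tn (tl 19342813113834066795298816) te) te) te) te) te) te) te)))

def t69 : Tr ℕ := (tn (tn (tn (tn (tn (tn (tn te (tn (tn (tl 2) te) te)) te) (tn (tn (tn (tn (tl 72061992352874496) te) te) te) te)) te) (tn te (tn (tn (tn (tn (tn (tl 2) te) te) te) te) (tn te (tn (tn (tn (tl 1) te) te) te))))) (tn (tn te (tn te (tn te (tn (tn (tn (tl 2) te) te) te)))) te)) (tn (tn te (tn te (tn (tn (tn (tn (tn (tl 1) te) te) te) te) te))) (tn (tn (tn (tn (tn (tn (tn (tl 19343993705463580299624450) te) te) te) te) te) te) (tn te (tn (tn (tn te (tn te (tn (tl 2) te))) te) te)))))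

def t70 : Tr ℕ := (tn (tn (tn (tn (tn (tn (tn te (tn (tn (tl 32768) te) te)) te) (tn (tn (tn (tn (tl 72057594306363393) te) te) te) te)) te) (tn te (tn (tn (tn te (tn te (tn (tl 2) te))) te) te))) (tn (tn te (tn te (tn te (tn (tn (tn (tl 2) te) te) te)))) (tn te (tn (tn (tn te (tn te (tn (tl 1) te))) te) te)))) (tn (tn (tn (tn (tn (tn (tn (tn (tl 2) te) te) te) te) te) te) (tn te (tn (tn (tn te (tn te (tn (tl 2) te))) te) te))) (tn (tn (tn (tn (tn (tn (tn (tl 19345174297075501617922050) te) te) te) te) te) (tn te (tn te (tn (tn (tn (tl 2) te) te) te)))) te)))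

def t71 : Tr ℕ := (tn (tn (tn (tn (tn (tn (tn te (tn (tn (tl 32770) te) te)) te) (tn (tn (tn (tn (tl 4398046543872) te) te) te) te)) te) (tn te (tn (tn (tn (tn (tn (tl 2) te) te) (tn te (tn (tl 2) te))) te) (tn te (tn (tn (tn (tl 1) te) te) te))))) (tn (tn te (tn te (tn te (tn (tn (tn (tl 2) te) te) te)))) (tn te (tn (tn (tn te (tn te (tn (tl 1) te))) te) te)))) (tn (tn (tn (tn (tn (tn (tn (tn (tl 2) te) te) te) te) te) te) (tn te (tn (tn (tn (tn (tn (tl 1) te) te) (tn te (tn (tl 1) te))) te) te))) (tn (tn (tn (tn (tn (tn (tn (tl 19342813257953653454569474) te) te) te) te) te) (tn te (tn te (tn (tn (tn (tl 2) te) te) te)))) (tn te (tn (tn (tn te (tn te (tn (tl 2) te))) te) te)))))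

def t72 : Tr ℕ := (tn (tn (tn (tn (tn (tn (tn te (tn (tn (tl 16385) te) te)) te) (tn (tn (tn (tn (tl 144123984705781761) te) te) te) te)) te) (tn te (tn (tn (tn (tn (tn (tl 2) te) te) te) te) (tn te (tn (tn (tn (tl 2) te) te) te))))) (tn (tn te (tn te (tn te (tn (tn (tn (tl 1) te) te) te)))) (tn te (tn (tn (tn te (tn te (tn (tl 2) te))) te) te)))) (tn (tn te (tn te (tn (tn (tn (tn (tn (tl 2) te) te) te) te) te))) (tn (tn (tn (tn (tn (tn (tn (tl 144115188612726784) te) te) te) te) te) (tn te (tn te (tn (tn (tn (tl 1) te) te) te)))) (tn te (tn (tn (tn te (tn te (tn (tl 1) te))) te) te)))))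

def t73 : Tr ℕ := (tn (tn (tn (tn (tn (tn (tn (tn (tn (tl 1) te) te) te) te) (tn (tn (tn (tn (tl 72061992621342721) te) te) te) te)) (tn te (tn te (tn (tn (tn (tl 1) te) te) te)))) te) (tn (tn te (tn (tn (tn (tn (tn (tl 1) te) te) (tn te (tn (tl 2) te))) te) te)) te)) (tn (tn (tn te (tn (tn (tn te (tn te (tn (tl 2) te))) te) (tn te (tn (tn (tn (tl 2) te) te) te)))) te) (tn (tn (tn (tn (tn (tn (tn (tl 72061992084471809) te) te) te) te) te) (tn (tn (tn (tn (tn (tl 2) te) te) (tn te (tn (tl 1) te))) te) te)) (tn (tn te (tn te (tn (tn (tn (tl 1) te) te) te))) te))))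

def t74 : Tr ℕ := (tn (tn (tn (tn (tn (tn (tn (tn (tn (tl 2) te) te) (tn (tn (tl 32768) te) te)) te) (tn (tn (tn (tn (tl 144119586390835202) te) te) te) te)) te) te) (tn (tn te (tn (tn (tn (tn (tn (tl 1) te) te) te) te) te)) te)) (tn (tn (tn te (tn (tn (tn te (tn te (tn (tl 2) te))) te) te)) te) (tn (tn (tn (tn (tn (tn (tn (tl 2361183250230915661826) te) te) te) te) te) te) (tn (tn te (tn te (tn (tn (tn (tl 2) te) te) te))) te))))

def t75 : Tr ℕ := (tn (tn (tn (tn (tn (tn (tn (tn (tn (tl 1) te) te) (tn (tn (tl 16385) te) te)) te) (tn (tn (tn (tn (tl 268451841) te) te) te) te)) (tn (tn (tn te (tn te (tn (tl 2) te))) te) te)) te) (tn (tn te (tn (tn (tn (tn (tn (tl 1) te) te) te) te) te)) te)) (tn (tn (tn te (tn (tn (tn te (tn te (tn (tl 1) te))) te) (tn te (tn (tn (tn (tl 1) te) te) te)))) te) (tn (tn (tn (tn (tn (tn (tn (tl 1180735740303533670402) te) te) te) te) te) (tn (tn (tn (tn (tn (tl 1) te) te) (tn te (tn (tl 2) te)))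 te) te)) te)))

def t76 : Tr ℕ := (tn (tn (tn (tn (tn (tn (tn (tn (tn (tl 2) te) te) (tn (tn (tl 32769) te) te)) te) (tn (tn (tn (tn (tl 144123984705748994) te) te) te) te)) (tn (tn (tn te (tn te (tn (tl 1) te))) te) (tn te (tn (tn (tn (tl 2) te) te) te)))) te) (tn (tn te (tn (tn (tn te (tn te (tn (tl 1) te))) te) te)) te)) (tn (tn (tn te (tn (tn (tn te (tn te (tn (tl 2) te))) te) te)) te) (tn (tn (tn (tn (tn (tn (tn (tl 144119586659254273) te) te) te) te) te) te) (tn (tn te (tn te (tn (tn (tn (tl 2) te) te) te))) te))))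

def t77 : Tr ℕ := (tn (tn (tn (tn (tn (tn (tn (tn (tn (tl 1) te) te) (tn (tn (tl 32768) te) te)) te) (tn (tn (tn (tn (tl 4398046511106) te) te) te) te)) (tn (tn (tn te (tn te (tn (tl 1) te))) te) (tn te (tn (tn (tn (tl 2) te) te) te)))) te) (tn (tn te (tn (tn (tn (tn (tn (tl 2) te) te) (tn te (tn (tl 1) te))) te) te)) te)) (tn (tn (tn te (tn (tn (tn te (tn te (tn (tl 2) te))) te) (tn te (tn (tn (tn (tl 2) te) te) te)))) te) (tn (tn (tn (tn (tn (tn (tn (tl 4398583414784) te) te) te) te) te) (tn (tn (tn (tn (tn (tl 2) te) te) (tn te (tn (tl 1) te))) te) te)) (tn (tn te (tn te (tn (tn (tn (tl 1) te) te) te))) te))))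

def t78 : Tr ℕ := (tn (tn (tn (tn (tn (tn (tn (tn (tn (tl 1) te) te) (tn (tn (tl 16384) te) te)) te) (tn (tn (tn (tn (tl 72066390667837441) te) te) te) te)) (tn (tn (tn te (tn te (tn (tl 1) te))) te) (tn te (tn (tn (tn (tl 1) te) te) te)))) te) (tn (tn te (tn (tn (tn (tn (tn (tl 2) te) te) (tn te (tn (tl 2) te))) te) te)) te)) (tn (tn (tn te (tn (tn (tn te (tn te (tn (tl 1) te))) te) (tn te (tn (tn (tn (tl 1) te) te) te)))) te) (tn (tn (tn (tn (tn (tn (tn (tl 1180663678311717699584) te) te) te) te) te) (tn (tn (tn (tn (tn (tl 1) te) te) (tn te (tn (tl 2) te))) te) te)) te)))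

def t79 : Tr ℕ := (tn (tn (tn (tn (tn te (tn (tn (tn (tn (tl 144115188344324096) te) te) te) (tn (tn (tn (tl 1) te) te) te))) (tn (tn (tn (tn (tn (tl 1) te) te) te) te) te)) (tn (tn (tn (tn te (tn te (tn (tl 1) te))) te) (tn te (tn (tn (tn (tl 2) te) te) te))) (tn (tn (tn (tn (tn (tl 144115188612759552) te) te) te) te) (tn te (tn (tn te (tn (tl 1) te)) te))))) (tn (tn (tn (tn (tn (tn (tn (tl 38687987482975959081058304) te) te) te) te) (tn te (tn (tn (tn (tl 2) te) te) te))) (tn te (tn te (tn (tn (tn (tl 2) te) (tn (tl 2) te)) te)))) (tn (tn (tn (tn te (tn te (tn (tl 1) te))) te) te) (tn (tn (tn (tn (tn (tl 144119586122383361) te) te) te) te) (tn te (tn (tn (tn (tl 32768) te) (tn (tl 1) te)) te)))))) (tn (tn (tn (tn (tn (tn (tn (tn (tl 19342813257949255139622913) te) te) (tn te (tn (tl 1) te))) te) (tn te (tn (tn (tn (tl 2) te) te) te))) (tn (tn (tn (tn (tn (tl 2) te) te) te) te) te)) (tn (tn te (tn te (tn (tn (tn (tl 2) te)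 te) te))) (tn (tn (tn (tn (tn (tl 4398046511106) te) te) te) te) (tn te (tn (tn (tn (tl 2) te) (tn (tl 1) te)) te))))) (tn (tn (tn (tn (tn (tn (tn (tl 1180591620717411303424) te) te) (tn te (tn (tl 1) te))) te) (tn te (tn (tn (tn (tl 2) te) te) te))) (tn te (tn te (tn (tn (tn (tl 32770) te) (tn (tl 1) te)) te)))) (tn te (tn (tn (tn (tn (tn (tl 536887297) te) te) te) te) (tn te (tn (tn te (tn (tl 1) te)) te)))))))

def t80 : Tr ℕ := (tn (tn (tn (tn (tn te (tn (tn (tn (tn (tl 19345174441190690230665218) te) te) te) (tn (tn (tn (tl 2) te) te) te))) (tn (tn (tn (tn (tn (tl 2) te) te) te) te) te)) (tn (tn (tn (tn te (tn te (tn (tl 1) te))) te) (tn te (tn (tn (tn (tl 2) te) te) te))) (tn (tn (tn (tn (tn (tl 144119586659237890) te) te) te) te) (tn te (tn (tn (tn (tl 32770) te) te) te))))) (tn (tn (tn (tn (tn (tn (tn (tl 19342813257953653454536704) te) te) te) te) te) (tn te (tn te (tn (tn te (tn (tl 1) te)) te)))) (tn (tn (tn (tn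 te (tn te (tn (tl 2) te))) te) te) (tn (tn (tn (tn (tn (tl 2) te) te) te) te) (tn te (tn (tn (tn (tl 32768) te) (tn (tl 1) te)) te)))))) (tn (tn (tn (tn (tn (tn (tn (tn (tl 38687987410913966996602880) te) te) te) te) (tn te (tn (tn (tn (tl 2) te) te) te))) (tn (tn (tn (tn (tn (tl 2) te) te) te) te) te)) (tn (tn te (tn te (tn (tn (tn (tl 1) te) te) te))) (tn (tn (tn (tn (tn (tl 144123984168910850) te) te) te) te) (tn te (tn (tn (tn (tl 16385) te) (tn (tl 2) te)) te))))) (tn (tn (tn (tn (tn (tn (tn (tl 139984046907657634361185403335735799560160796943370352552435369998905258033341314597406874998717546496) te) te) (tn te (tn (tl 2) te))) te) (tn te (tn (tn (tn (tl 1) te) te) te))) (tn te (tn te (tn (tn (tn (tl 32770) te) (tn (tl 1) te)) te)))) (tn te (tn (tn (tn (tn (tn (tl 16386) te) te) te) te) (tn te (tn (tn (tn (tl 32768) te) (tn (tl 2) te)) te)))))))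

def t81 : Tr ℕ := (tn (tn (tn (tn (tn (tn (tn te (tn te (tn (tl 1) te))) te) (tn (tn (tn (tn (tl 19342813185891661370114048) te) te) te) (tn (tn (tn (tl 2) te) te) te))) (tn (tn (tn (tn (tn (tl 2) te) te) te) te) te)) (tn (tn (tn (tn te (tn te (tn (tl 1) te))) te) (tn te (tn (tn (tn (tl 2) te) te) te))) (tn (tn (tn (tn (tn (tl 144119586122399746) te) te) te) te) (tn te (tn (tn (tn (tl 32768) te) te) te))))) (tn (tn (tn (tn (tn (tn (tn (tl 2361327361021481844736) te) te) (tn te (tn (tl 2) te))) te) (tn te (tn (tn (tn (tl 1) te) te) te))) (tn te (tn te (tn (tn (tn (tl 16384) te) te) te)))) (tn (tn te (tn te (tn (tn (tn (tl 2) te) te) te))) (tn (tn (tn (tn (tn (tl 72066390130966529) te) te) te) te) (tn te (tn (tn (tn (tl 32769) te) (tn (tl 1) te)) te)))))) (tn (tn (tn (tn (tn (tn (tn (tn (tl 38687987482971560497676288) te) te) (tn te (tn (tl 2) te))) te) te) (tn (tn (tn (tn (tn (tl 2) te) te) te) te) te)) (tn (tn (tn (tn te (tn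 te (tn (tl 1) te))) te) (tn te (tn (tn (tn (tl 1) te) te) te))) (tn (tn (tn (tn (tn (tl 72057594037927937) te) te) te) te) (tn te (tn (tn (tn (tl 1) te) (tn (tl 1) te)) te))))) (tn (tn (tn (tn (tn (tn (tn (tl 139984046386112763159840142535527767382602843577165595931249318810236991948760059086304843329475444736) te) te) (tn te (tn (tl 1) te))) te) te) (tn te (tn te (tn (tn te (tn (tl 2) te)) te)))) (tn (tn (tn (tn te (tn te (tn (tl 2) te))) te) te) (tn (tn (tn (tn (tn (tl 144115188344307713) te) te) te) te) (tn te (tn (tn (tn (tl 2) te) (tn (tl 2) te)) te)))))))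

def t82 : Tr ℕ := (tn (tn (tn (tn (tn (tn (tn te (tn te (tn (tl 2) te))) te) (tn (tn (tn (tn (tl 38685626299734523721547777) te) te) te) (tn (tn (tn (tl 2) te) te) te))) (tn (tn (tn (tn (tn (tl 1) te) te) te) te) te)) (tn (tn (tn (tn te (tn te (tn (tl 2) te))) te) te) (tn (tn (tn (tn (tn (tl 144123984168878081) te) te) te) te) (tn te (tn (tn (tn (tl 16384) te) (tn (tl 1) te)) te))))) (tn (tn (tn (tn (tn (tn (tn (tl 2361183245832869134337) te) te) (tn te (tn (tl 1) te))) te) (tn te (tn (tn (tn (tl 2) te) te) te))) (tn te (tn te (tn (tn (tn (tl 16384) te) te) te)))) (tn te (tn (tn (tn (tn (tn (tl 16386) te) te) te) te) (tn te (tn (tn (tn (tl 16385) te) (tn (tl 1) te)) te)))))) (tn (tn (tn (tn (tn (tn (tn (tn (tl 38687987482971561034530817) te) te) (tn te (tn (tl 2) te))) te) (tn te (tn (tn (tn (tl 1) te) te) te))) (tn (tn (tn (tn (tn (tl 2) te) te) te) te) te)) (tn (tn te (tn te (tn (tn (tn (tl 1) te) te) te))) (tn (tn (tn (tn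 (tn (tl 72066390667853825) te) te) te) te) (tn te (tn (tn (tn (tl 16386) te) te) te))))) (tn (tn (tn (tn (tn (tn (tn (tl 279968092772225528262586326733431630117546573932883851483911844376206179900941943196602709005421248514) te) te) (tn te (tn (tl 1) te))) te) te) (tn te (tn te (tn (tn (tn (tl 1) te) te) te)))) (tn (tn (tn (tn te (tn te (tn (tl 1) te))) te) te) (tn (tn (tn (tn (tn (tl 72061992352907265) te) te) te) te) (tn te (tn (tn (tn (tl 2) te) (tn (tl 1) te)) te)))))))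

def t83 : Tr ℕ := (tn (tn (tn (tn (tn te (tn (tn (tn (tn (tl 38686806819297647631810560) te) te) te) te)) (tn (tn (tn (tn (tn (tl 1) te) te) te) te) te)) (tn (tn te (tn te (tn (tn (tn (tl 2) te) te) te))) (tn (tn (tn (tn (tn (tl 144123984705781760) te) te) te) te) (tn te (tn (tn (tn (tl 1) te) (tn (tl 1) te)) te))))) (tn (tn (tn (tn (tn (tn (tn (tl 1180663687107542286336) te) te) (tn te (tn (tl 1) te))) te) te) (tn te (tn te (tn (tn (tn (tl 16384) te) (tn (tl 2) te)) te)))) (tn (tn (tn (tn te (tn te (tn (tl 2) te))) te) (tn te (tn (tn (tn (tl 1) te) te) te))) (tn (tn (tn (tn (tn (tl 8796361490433) te) te) te) te) (tn te (tn (tn (tn (tl 32770) te) te) te)))))) (tn (tn (tn (tn (tn (tn (tn (tn (tl 38687987410909568681672704) te) te) (tn te (tn (tl 2) te))) te) (tn te (tn (tn (tn (tl 2) te) te) te))) (tn (tn (tn (tn (tn (tl 2) te) te) te) te) te)) (tn (tn (tn (tn te (tn te (tn (tl 1) te))) te) te) (tn (tn (tn (tn (tn (tl 72066390667837441)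 te) te) te) te) (tn te (tn (tn (tn (tl 32768) te) te) te))))) (tn (tn (tn (tn (tn (tn (tn (tl 139984046386112763159840157009980660773268735636090211904572115204138998559420123101703849451746000897) te) te) te) te) (tn te (tn (tn (tn (tl 2) te) te) te))) (tn te (tn te (tn (tn (tn (tl 16386) te) te) te)))) (tn te (tn (tn (tn (tn (tn (tl 72066390399418370) te) te) te) te) (tn te (tn (tn (tn (tl 2) te) (tn (tl 1) te)) te)))))))

def t84 : Tr ℕ := (tn (tn (tn (tn (tn (tn (tn te (tn te (tn (tl 1) te))) te) (tn (tn (tn (tn (tl 19342813113838465378697218) te) te) te) (tn (tn (tn (tl 2) te) te) te))) (tn (tn (tn (tn (tn (tl 2) te) te) te) te) te)) (tn (tn (tn (tn te (tn te (tn (tl 2) te))) te) te) (tn (tn (tn (tn (tn (tl 72057594574815234) te) te) te) te) (tn te (tn (tn (tn (tl 16386) te) (tn (tl 1) te)) te))))) (tn (tn (tn (tn (tn (tn (tn (tl 19342813185891661101694977) te) te) (tn te (tn (tl 2) te))) te) (tn te (tn (tn (tn (tl 1)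 te) te) te))) (tn te (tn te (tn (tn (tn (tl 2) te) (tn (tl 2) te)) te)))) (tn (tn (tn (tn te (tn te (tn (tl 2) te))) te) (tn te (tn (tn (tn (tl 2) te) te) te))) (tn (tn (tn (tn (tn (tl 72057594306363392) te) te) te) te) (tn te (tn (tn (tn (tl 16385) te) (tn (tl 2) te)) te)))))) (tn (tn (tn (tn (tn (tn (tn (tn (tl 1180663678311717683201) te) te) te) te) (tn te (tn (tn (tn (tl 1) te) te) te))) (tn (tn (tn (tn (tn (tl 1) te) te) te) te) te)) (tn (tn (tn (tn te (tn te (tn (tl 2) te))) te) te) (tn (tn (tn (tn (tn (tl 4398583414785) te) te) te) te) (tn te (tn (tn (tn (tl 1) te) (tn (tl 2) te)) te))))) (tn (tn (tn (tn (tn (tn (tn (tl 139984046907657634361185388861282906166204197076816605218945642639575844007901531602511013871465021442) te) te) (tn te (tn (tl 2) te))) te) te) (tn te (tn te (tn (tn (tn (tl 1) te) te) te)))) (tn (tn (tn (tn te (tn te (tn (tl 2) te))) te) te) (tn (tn (tn (tn (tn (tl 8796093038592) te) te) te) te) (tn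 te (tn (tn (tn (tl 32769) te) (tn (tl 2) te)) te)))))))

def t85 : Tr ℕ := (tn (tn (tn (tn (tn (tn (tn te (tn te (tn (tl 1) te))) te) (tn (tn (tn (tn (tl 72066390130982914) te) te) te) te)) (tn (tn (tn (tn (tn (tl 1) te) te) te) te) te)) (tn (tn (tn (tn te (tn te (tn (tl 2) te))) te) (tn te (tn (tn (tn (tl 2) te) te) te))) (tn (tn (tn (tn (tn (tl 144115188612743168) te) te) te) te) (tn te (tn (tn (tn (tl 16386) te) (tn (tl 1) te)) te))))) (tn (tn (tn (tn (tn (tn (tn (tl 38685626227668133590630401) te) te) (tn te (tn (tl 1) te))) te) (tn te (tn (tn (tn (tl 1) te) te) te))) (tn te (tn te (tn (tn (tn (tl 32770) te) (tn (tl 1) te)) te)))) (tn (tn (tn (tn te (tn te (tn (tl 1) te))) te) te) (tn (tn (tn (tn (tn (tl 536903681) te) te) te) te) (tn te (tn (tn (tn (tl 16385) te) (tn (tl 2) te)) te)))))) (tn (tn (tn (tn (tn (tn (tn (tn (tl 19342813257949254871187458) te) te) (tn te (tn (tl 2) te))) te) (tn te (tn (tn (tn (tl 2) te) te)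 te))) (tn (tn (tn (tn (tn (tl 2) te) te) te) te) te)) (tn (tn (tn (tn te (tn te (tn (tl 1) te))) te) (tn te (tn (tn (tn (tl 2) te) te) te))) (tn (tn (tn (tn (tn (tl 144119586390835201) te) te) te) te) (tn te (tn (tn (tn (tl 16384) te) (tn (tl 2) te)) te))))) (tn (tn (tn (tn (tn (tn (tn (tl 1042994250513293136939029258378764667334523713147198967388620574506838301860874449705729277953) te) te) (tn te (tn (tl 2) te))) te) (tn te (tn (tn (tn (tl 1) te) te) te))) (tn te (tn te (tn (tn (tn (tl 32769) te) (tn (tl 1) te)) te)))) (tn te (tn (tn (tn (tn (tn (tl 144115188344324097) te) te) te) te) (tn te (tn (tn (tn (tl 1) te) te) te)))))))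

def t86 : Tr ℕ := (tn (tn (tn (tn (tn (tn (tn te (tn te (tn (tl 1) te))) te) (tn (tn (tn (tn (tl 1180663682709764210690) te) te) te) (tn (tn (tn (tl 2) te) te) te))) (tn (tn (tn (tn (tn (tl 2) te) te) te) te) te)) (tn (tn te (tn te (tn (tn (tn (tl 2) te) te) te))) (tn (tn (tn (tn (tn (tl 72061992084455424) te) te) te) te) (tn te (tn (tn (tn (tl 16386) te) te) te))))) (tn (tn (tn (tn (tn (tn (tn (tl 19342813113838464841842688) te) te) (tn te (tn (tl 1) te))) te) (tn te (tn (tn (tn (tl 1) te) te) te))) (tn te (tn te (tn (tn (tn (tl 32768) te) (tn (tl 1) te)) te)))) (tn (tn te (tn te (tn (tn (tn (tl 2) te) te) te))) (tn (tn (tn (tn (tn (tl 72066390130966529) te) te) te) te) (tn te (tn (tn (tn (tl 32769) te) (tn (tl 1) te)) te)))))) (tn (tn (tn (tn (tn (tn (tn (tn (tl 2361183241435359510528) te) te) te) te) (tn te (tn (tn (tn (tl 2) te) te) te))) te) (tn te (tn (tn (tn (tn (tn (tl 8796093022210) te) te) te) te) (tn te (tn (tn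 (tn (tl 1) te) (tn (tl 1) te)) te))))) (tn (tn (tn (tn (tn (tn (tn (tl 279968093815219778775642321473702837968137100739470725417650540983683193991413511801865096912028336128) te) te) te) te) te) (tn te (tn te (tn (tn te (tn (tl 2) te)) te)))) (tn (tn (tn (tn te (tn te (tn (tl 2) te))) te) te) (tn (tn (tn (tn (tn (tl 144123984437313536) te) te) te) te) (tn te (tn (tn (tn (tl 16384) te) (tn (tl 2) te)) te)))))))

def t87 : Tr ℕ := (tn (tn (tn (tn (tn te (tn (tn (tn (tn (tl 1180591625115726282753) te) te) te) (tn (tn (tn (tl 1) te) te) te))) (tn (tn (tn (tn (tn (tl 2) te) te) te) te) te)) (tn (tn te (tn te (tn (tn (tn (tl 1) te) te) te))) (tn (tn (tn (tn (tn (tl 32769) te) te) te) te) (tn te (tn (tn (tn (tl 16385) te) (tn (tl 2) te)) te))))) (tn (tn (tn (tn (tn (tn (tn (tl 19345174297079900201320450) te) te) (tn te (tn (tl 2) te))) te) (tn te (tn (tn (tn (tl 2) te) te) te))) (tn te (tn te (tn (tn (tn (tl 1) te) (tn (tl 2) te))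 te)))) (tn (tn (tn (tn te (tn te (tn (tl 1) te))) te) (tn te (tn (tn (tn (tl 1) te) te) te))) (tn (tn (tn (tn (tn (tl 144119586390835201) te) te) te) te) (tn te (tn (tn (tn (tl 16386) te) (tn (tl 1) te)) te)))))) (tn (tn (tn (tn (tn (tn (tn (tn (tl 144119586122383361) te) te) te) te) (tn te (tn (tn (tn (tl 1) te) te) te))) te) (tn (tn (tn (tn te (tn te (tn (tl 2) te))) te) te) (tn (tn (tn (tn (tn (tl 4398583398401) te) te) te) te) (tn te (tn (tn (tn (tl 16386) te) te) te))))) (tn (tn (tn (tn (tn (tn (tn (tl 1043026081142973684410477235019693171843469330150483154764150499479077330194474915510119055362) te) te) (tn te (tn (tl 1) te))) te) te) (tn te (tn te (tn (tn (tn (tl 32768) te) (tn (tl 2) te)) te)))) (tn te (tn (tn (tn (tn (tn (tl 72057594037927936) te) te) te) te) (tn te (tn (tn (tn (tl 32768) te) (tn (tl 1) te)) te)))))))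

def t88 : Tr ℕ := (tn (tn (tn (tn (tn te (tn (tn (tn (tn (tl 1180663682709495775232) te) te) te) te)) (tn (tn (tn (tn (tn (tl 1) te) te) te) te) te)) (tn (tn (tn (tn te (tn te (tn (tl 2) te))) te) te) (tn (tn (tn (tn (tn (tl 8796629909506) te) te) te) te) (tn te (tn (tn (tn (tl 32770) te) te) te))))) (tn (tn (tn (tn (tn (tn (tn (tl 19343993849569972550926337) te) te) (tn te (tn (tl 1) te))) te) te) (tn te (tn te (tn (tn te (tn (tl 2) te)) te)))) (tn (tn te (tn te (tn (tn (tn (tl 1) te) te) te))) (tn (tn (tn (tn (tn (tl 144119586122383361) te) te) te) te) (tn te (tn (tn (tn (tl 16386) te) te) te)))))) (tn (tn (tn (tn (tn (tn (tn (tn (tl 19343993705463580836528130) te) te) (tn te (tn (tl 2) te))) te) (tn te (tn (tn (tn (tl 1) te) te) te))) (tn (tn (tn (tn (tn (tl 2) te) te) te) te) te)) (tn te (tn (tn (tn (tn (tn (tl 8796093054978) te) te) te) te) (tn te (tn (tn (tn (tl 2) te) (tn (tl 1) te)) te))))) (tn (tn (tn (tn (tn (tn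 (tn (tl 139992590334256446800169737096805338981727146448049656352188347937136899329722008929428984811359338497) te) te) (tn te (tn (tl 1) te))) te) (tn te (tn (tn (tn (tl 2) te) te) te))) (tn te (tn te (tn (tn (tn (tl 32770) te) (tn (tl 2) te)) te)))) (tn te (tn (tn (tn (tn (tn (tl 536870913) te) te) te) te) (tn te (tn (tn (tn (tl 16385) te) te) te)))))))

def t89 : Tr ℕ := (tn (tn (tn (tn (tn te (tn (tn (tn (tn (tl 38687987482975958544171009) te) te) te) te)) te) (tn (tn te (tn te (tn (tn (tn (tl 2) te) te) te))) (tn (tn (tn (tn (tn (tl 72066390130950145) te) te) te) te) (tn te (tn (tn (tn (tl 32770) te) te) te))))) (tn (tn (tn (tn (tn (tn (tn (tl 1180663687108079140866) te) te) (tn te (tn (tl 2) te))) te) (tn te (tn (tn (tn (tl 1) te) te) te))) (tn te (tn te (tn (tn (tn (tl 16385) te) (tn (tl 2) te)) te)))) (tn (tn (tn (tn te (tn te (tn (tl 2) te))) te) te) (tn (tn (tn (tn (tn (tl 72057594306379776) te) te) te) te) (tn te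 (tn (tn (tn (tl 16384) te) te) te)))))) (tn (tn (tn (tn (tn (tn (tn (tn (tl 38687987555029154535604226) te) te) te) te) (tn te (tn (tn (tn (tl 1) te) te) te))) (tn (tn (tn (tn (tn (tl 1) te) te) te) te) te)) (tn (tn (tn (tn te (tn te (tn (tl 1) te))) te) (tn te (tn (tn (tn (tl 1) te) te) te))) (tn (tn (tn (tn (tn (tl 72061992084471808) te) te) te) te) (tn te (tn (tn (tn (tl 32768) te) te) te))))) (tn (tn (tn (tn (tn (tn (tn (tl 1042994250513293144176918232283469506761620626912743670514484396084417569433293644250027687936) te) te) te) te) te) te) (tn (tn (tn (tn te (tn te (tn (tl 2) te))) te) te) (tn (tn (tn (tn (tn (tl 4398046527490) te) te) te) te) (tn te (tn (tn (tn (tl 1) te) (tn (tl 2) te)) te)))))))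

def t90 : Tr ℕ := (tn (tn (tn (tn (tn (tn (tn (tn (tn (tl 38686806891346445039828992) te) te) te) te) (tn te (tn (tn te (tn (tl 1) te)) te))) (tn te (tn te (tn (tn (tn (tl 32770) te) te) te)))) (tn (tn te (tn te (tn (tn te (tn (tl 1) te)) te))) (tn (tn te (tn (tn (tn (tl 2) te) te) te)) te))) (tn (tn (tn (tn (tn (tn (tn (tl 2361183250230915645440) te) te) te) te) te) (tn (tn (tn (tn (tn (tl 72061992084455425) te) te) te) te) te)) (tn te (tn (tn (tn (tn (tn (tl 144115188075888641) te) te) te) te) (tn te (tn (tn (tn (tl 16385) te) te) te)))))) (tn (tn (tn te (tn te (tn te (tn (tn (tn (tl 32770) te) te) te)))) (tn te (tn te (tn te (tn (tn (tn (tl 32769) te) te) te))))) (tn (tn (tn (tn (tn (tn (tn (tl 118585573390193411875941346192708103284827421249242154146581380367780168660451330) te) te) te) te) te) (tn (tn (tn (tn (tn (tl 144123984168910850) te) te) te) te) te)) (tn (tn te (tn te (tn (tn (tn (tl 32770) te) te) te))) (tn (tn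 (tn (tn (tn (tl 4398314979330) te) te) te) te) (tn te (tn (tn (tn (tl 16385) te) te) te)))))))

def t91 : Tr ℕ := (tn (tn (tn (tn (tn (tn (tn (tn (tn (tl 1180663687107542286337) te) te) te) te) (tn (tn (tn (tn (tl 4398314979328) te) te) te) (tn (tn te (tn (tl 2) te)) te))) (tn te (tn te (tn (tn (tn (tl 16385) te) te) te)))) (tn (tn te (tn te (tn (tn te (tn (tl 2) te)) te))) (tn (tn te (tn (tn (tn (tl 1) te) te) te)) te))) (tn (tn (tn (tn (tn (tn (tn (tl 2361255307825490460672) te) te) te) te) (tn te (tn (tn te (tn (tl 1) te)) te))) (tn (tn (tn (tn (tn (tl 8796629909504) te) te) te) te) te)) (tn te (tn (tn (tn (tn (tn (tl 8796361457665) te) te) te) (tn (tn (tn (tl 2) te) te) te)) (tn te (tn (tn (tn (tl 16385) te) te) te)))))) (tn (tn (tn te (tn te (tn te (tn (tn (tn (tl 32770) te) te) te)))) (tn te (tn te (tn te (tn (tn (tn (tl 16384) te) te) te))))) (tn (tn (tn (tn (tn (tn (tn (tl 237149435763600903780796898755282461156961594464425115531565642059899042340536321)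 te) te) te) te) te) (tn (tn (tn (tn (tn (tl 144123984168910850) te) te) te) (tn (tn (tn (tl 2) te) te) te)) te)) (tn (tn (tn (tn (tn (tn (tl 2) te) te) te) te) (tn te (tn (tn te (tn (tl 1) te)) te))) (tn (tn (tn (tn (tn (tl 4398314979330) te) te) te) (tn (tn te (tn (tl 1) te)) te)) (tn te (tn (tn (tn (tl 16385) te) te) te)))))))

def t92 : Tr ℕ := (tn (tn (tn (tn (tn (tn (tn (tn (tn (tl 19342813185896059148189696) te) te) te) te) (tn (tn (tn (tn (tl 144115188344307712) te) te) te) (tn (tn te (tn (tl 2) te)) te))) (tn te (tn te (tn (tn (tn (tl 32769) te) (tn (tl 1) te)) te)))) (tn (tn te (tn te (tn (tn te (tn (tl 1) te)) te))) (tn (tn te (tn (tn (tn (tl 2) te) te) te)) te))) (tn (tn (tn (tn (tn (tn (tn (tl 2361183241434822606849) te) te) te) te) (tn te (tn (tn te (tn (tl 2) te)) te))) (tn (tn (tn (tn (tn (tl 144123984168910848) te) te) te) te) te)) (tn (tn te (tn te (tn (tn te (tn (tl 1) te)) te))) (tn (tn (tn (tn (tn (tl 72057594306379778)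 te) te) te) te) te)))) (tn (tn (tn (tn te (tn te (tn (tn te (tn (tl 1) te)) te))) (tn te (tn te (tn (tn (tn (tl 32770) te) (tn (tl 1) te)) te)))) (tn (tn te (tn te (tn (tn te (tn (tl 1) te)) te))) (tn (tn te (tn (tn (tn (tl 2) te) te) te)) (tn te (tn (tn (tn (tl 1) te) te) te))))) (tn (tn (tn (tn (tn (tn (tn (tl 883450495627069297330136209993954740101688440418281784962441218705342464) te) te) te) te) te) (tn (tn (tn (tn (tn (tl 72066390667821057) te) te) te) (tn (tn (tn (tl 2) te) te) te)) te)) (tn (tn (tn (tn (tn (tn (tl 1) te) te) te) te) (tn te (tn (tn (tn (tl 32769) te) (tn (tl 2) te)) te))) (tn (tn (tn (tn (tn (tl 72061992352890880) te) te) te) (tn (tn (tn (tl 2) te) te) te)) (tn te (tn (tn (tn (tl 32770) te) te) te)))))))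

def t93 : Tr ℕ := (tn (tn (tn (tn (tn (tn (tn (tn (tn (tl 19342813185900457194684416) te) te) te) te) (tn (tn (tn (tn (tl 144115188344291329) te) te) te) (tn (tn te (tn (tl 2) te)) te))) (tn te (tn te (tn (tn (tn (tl 16385) te) te) te)))) (tn te (tn (tn te (tn (tn (tn (tl 1) te) te) te)) te))) (tn (tn (tn (tn (tn (tn (tn (tl 1180735735905487159297) te) te) te) te) (tn te (tn (tn te (tn (tl 1) te)) te))) (tn (tn (tn (tn (tn (tl 8796629925888) te) te) te) te) te)) (tn (tn te (tn te (tn (tn te (tn (tl 1) te)) te))) (tn (tn (tn (tn (tn (tl 144119586659270656) te) te) te) (tn (tn (tn (tl 1) te) te) te)) (tn te (tn (tn (tn (tl 32770) te) te) te)))))) (tn (tn (tn (tn te (tn te (tn (tn te (tn (tl 2) te)) te))) (tn te (tn te (tn (tn (tn (tl 32768) te) te) te)))) (tn (tn te (tn te (tn (tn te (tn (tl 2) te)) te))) (tn te (tn te (tn (tn (tn (tl 16385) te) te) te))))) (tn (tn (tn (tn (tn (tn (tn (tl 441765687733635808252900436832379864927974481393715793008148103544438786)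 te) te) te) te) (tn te (tn (tn te (tn (tl 1) te)) te))) (tn (tn (tn (tn (tn (tl 144115188612743168) te) te) te) te) te)) (tn (tn te (tn te (tn (tn (tn (tl 32770) te) (tn (tl 2) te)) te))) (tn (tn (tn (tn (tn (tl 4398314979330) te) te) te) (tn (tn (tn (tl 1) te) (tn (tl 1) te)) te)) te)))))

def t94 : Tr ℕ := (tn (tn (tn (tn (tn (tn (tn (tn (tn (tl 38687987482975958544154624) te) te) te) te) (tn (tn (tn (tn (tl 72057594574815232) te) te) te) te)) (tn te (tn te (tn (tn (tn (tl 1) te) (tn (tl 2) te)) te)))) te) (tn (tn (tn (tn (tn (tn (tn (tl 2361255307825222008834) te) te) te) te) te) (tn (tn (tn (tn (tn (tl 268468224) te) te) te) te) te)) (tn te (tn (tn (tn (tn (tn (tl 144119586122399745) te) te) te) (tn (tn (tn (tl 2) te) te) te)) (tn te (tn (tn (tn (tl 32768) te) te) te)))))) (tn (tn (tn te (tn te (tn te (tn (tn te (tn (tl 2) te)) te)))) (tn (tn te (tn te (tn (tn te (tn (tl 1) te)) te))) (tn (tn te (tn (tn (tn (tl 1) te) te)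 te)) (tn te (tn (tn (tn (tl 32770) te) te) te))))) (tn (tn (tn (tn (tn (tn (tn (tl 118571100262489236396464028106397373804407122207481336431676551730264253168369664) te) te) te) te) te) (tn (tn (tn (tn (tn (tl 72066390667821057) te) te) te) te) te)) (tn (tn (tn (tn (tn (tn (tl 1) te) te) te) te) (tn te (tn (tn (tn (tl 16384) te) te) te))) (tn (tn (tn (tn (tn (tl 72061992084471809) te) te) te) (tn (tn (tn (tl 2) te) (tn (tl 1) te)) te)) te)))))

def t95 : Tr ℕ := (tn (tn (tn (tn (tn (tn (tn (tn (tn (tl 19345174369133095655866370) te) te) te) te) (tn (tn (tn (tn (tl 72061992621326336) te) te) te) te)) (tn te (tn te (tn (tn (tn (tl 32768) te) te) te)))) (tn te (tn (tn te (tn (tn (tn (tl 1) te) te) te)) te))) (tn (tn (tn (tn (tn (tn (tn (tl 1180735744701580214273) te) te) te) te) (tn te (tn (tn te (tn (tl 1) te)) te))) (tn (tn (tn (tn (tn (tl 8796361474049) te) te) te) te) te)) (tn (tn te (tn te (tn (tn te (tn (tl 1) te)) te)))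 (tn (tn (tn (tn (tn (tl 144115188075888641) te) te) te) (tn (tn (tn (tl 2) te) te) te)) (tn te (tn (tn (tn (tl 32770) te) te) te)))))) (tn (tn (tn (tn te (tn te (tn (tn te (tn (tl 1) te)) te))) (tn te (tn te (tn (tn (tn (tl 2) te) (tn (tl 1) te)) te)))) (tn te (tn te (tn te (tn (tn (tn (tl 2) te) te) te))))) (tn (tn (tn (tn (tn (tn (tn (tl 118571099820777473492877060352985082928615858370503352124128314038202551695835136) te) te) te) te) (tn te (tn (tn te (tn (tl 1) te)) te))) (tn (tn (tn (tn (tn (tl 72066390130950144) te) te) te) (tn (tn (tn (tl 1) te) te) te)) te)) (tn (tn (tn (tn (tn (tn (tl 1) te) te) te) te) (tn te (tn (tn te (tn (tl 1) te)) te))) (tn (tn (tn (tn (tn (tl 8796361457666) te) te) te) (tn (tn te (tn (tl 2) te)) te)) (tn te (tn (tn (tn (tl 32768) te) te) te)))))))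

def t96 : Tr ℕ := (tn (tn (tn (tn (tn (tn (tn (tn (tn (tl 38685626371783321666453504) te) te) te) te) (tn (tn (tn (tn (tl 72057594306396161) te) te) te) (tn (tn te (tn (tl 2) te)) te))) (tn te (tn te (tn (tn (tn (tl 2) te) (tn (tl 1) te)) te)))) (tn (tn te (tn te (tn (tn te (tn (tl 2) te)) te))) (tn (tn te (tn (tn (tn (tl 2) te) te) te)) te))) (tn (tn (tn (tn (tn (tn (tn (tl 2361183250231452499970) te) te) te) te) (tn te (tn (tn te (tn (tl 2) te)) te))) (tn (tn (tn (tn (tn (tl 144119586659270656) te) te) te) te) te)) (tn te (tn (tn (tn (tn (tn (tl 144119586122383362) te) te) te) (tn (tn (tn (tl 2) te) te) te)) (tn te (tn (tn (tn (tl 16386) te) te) te)))))) (tn (tn (tn (tn te (tn te (tn (tn te (tn (tl 2) te)) te))) (tn te (tn te (tn (tn (tn (tl 16384) te) te) te)))) (tn (tn te (tn te (tn (tn te (tn (tl 2) te)) te))) (tn te (tn te (tn (tn (tn (tl 16386) te) te) te))))) (tn (tn (tn (tn (tn (tn (tn (tl 7237447316058403577639849948317761992780479266449491489857745404198196887553)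 te) te) te) te) te) (tn (tn (tn (tn (tn (tl 72066390399401986) te) te) te) (tn (tn (tn (tl 2) te) te) te)) te)) (tn (tn te (tn te (tn (tn (tn (tl 2) te) (tn (tl 2) te)) te))) (tn (tn (tn (tn (tn (tl 144119586659270656) te) te) te) te) (tn te (tn (tn (tn (tl 16385) te) te) te)))))))

def t97 : Tr ℕ := (tn (tn (tn (tn (tn (tn (tn (tn (tn (tl 4398314946561) te) te) te) te) (tn (tn (tn (tn (tl 72057594574831616) te) te) te) (tn (tn te (tn (tl 1) te)) te))) (tn te (tn te (tn (tn te (tn (tl 1) te)) te)))) (tn te (tn (tn te (tn (tn (tn (tl 1) te) te) te)) te))) (tn (tn (tn (tn (tn (tn (tn (tl 2361327361021213409282) te) te) te) te) (tn te (tn (tn te (tn (tl 1) te)) te))) (tn (tn (tn (tn (tn (tl 4398583398400) te) te) te) te) te)) (tn (tn te (tn te (tn (tn te (tn (tl 1) te)) te))) (tn (tn (tn (tn (tn (tl 144119586122366978) te) te) te) te) (tn te (tn (tn (tn (tl 2) te) te) te)))))) (tn (tn (tn (tn te (tn te (tn (tn te (tn (tl 1) te))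 te))) (tn te (tn te (tn (tn (tn (tl 1) te) te) te)))) (tn (tn te (tn te (tn (tn te (tn (tl 1) te)) te))) (tn (tn te (tn (tn (tn (tl 2) te) te) te)) (tn te (tn (tn (tn (tl 1) te) te) te))))) (tn (tn (tn (tn (tn (tn (tn (tl 14474011181627762204651413829499343560355152288597733742753451845361508319233) te) te) te) te) (tn te (tn (tn te (tn (tl 1) te)) te))) (tn (tn (tn (tn (tn (tl 144119586122399745) te) te) te) te) te)) (tn (tn (tn (tn (tn (tn (tl 1) te) te) te) te) (tn te (tn (tn (tn (tl 16384) te) (tn (tl 2) te)) te))) (tn (tn (tn (tn (tn (tl 4398583382016) te) te) te) (tn (tn te (tn (tl 2) te)) te)) (tn te (tn (tn (tn (tl 32770) te) te) te)))))))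

def t98 : Tr ℕ := (tn (tn (tn (tn (tn (tn (tn (tn (tn (tl 38685626299725727628558338) te) te) te) te) (tn (tn (tn (tn (tl 144123984168878081) te) te) te) (tn (tn te (tn (tl 1) te)) te))) (tn te (tn te (tn (tn (tn (tl 32768) te) te) te)))) (tn (tn te (tn te (tn (tn te (tn (tl 1) te)) te))) te)) (tn (tn (tn (tn (tn (tn (tn (tl 1180663682710032613376) te) te) te) te) te) (tn (tn (tn (tn (tn (tl 144119586390802433) te) te) te) te) te)) (tn (tn te (tn te (tn (tn te (tn (tl 2) te)) te))) (tn (tn (tn (tn (tn (tl 144123984705748992) te) te) te) te) te)))) (tn (tn (tn (tn te (tn te (tn (tn te (tn (tl 2) te)) te))) (tn te (tn te (tn (tn (tn (tl 16385) te) te) te)))) (tn te (tn (tn te (tn (tn (tn (tl 1) te) te) te)) (tn te (tn (tn (tn (tl 16384) te) te) te))))) (tn (tn (tn (tn (tn (tn (tn (tl 7237005577335553423967344845995270852601069864625927327527355120697783369729) te) te) te) te) (tn te (tn (tn te (tn (tl 1) te)) te))) (tn (tn (tn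 (tn (tn (tl 144115188612759553) te) te) te) (tn (tn (tn (tl 2) te) te) te)) te)) (tn (tn te (tn te (tn (tn (tn (tl 16384) te) te) te))) (tn (tn (tn (tn (tn (tl 72057594306363393) te) te) te) (tn (tn te (tn (tl 1) te)) te)) (tn te (tn (tn (tn (tl 16386) te) te) te)))))))

def t99 : Tr ℕ := (tn (tn (tn (tn (tn (tn (tn (tn (tn (tl 38685626371792118296346624) te) te) te) te) (tn (tn (tn (tn (tl 8796361490434) te) te) te) (tn (tn te (tn (tl 2) te)) te))) (tn te (tn te (tn (tn (tn (tl 16384) te) (tn (tl 1) te)) te)))) (tn te (tn (tn te (tn (tn (tn (tl 1) te) te) te)) te))) (tn (tn (tn (tn (tn (tn (tn (tl 144119586659254272) te) te) te) te) te) (tn (tn (tn (tn (tn (tl 144115188344307712) te) te) te) te) te)) (tn (tn te (tn te (tn (tn te (tn (tl 2) te)) te))) (tn (tn (tn (tn (tn (tl 268468224) te) te) te) te) (tn te (tn (tn (tn (tl 2) te) te) te)))))) (tn (tn (tn te (tn te (tn te (tn (tn (tn (tl 32768) te) te) te)))) (tn (tn te (tn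 te (tn (tn te (tn (tl 1) te)) te))) (tn (tn te (tn (tn (tn (tl 2) te) te) te)) (tn te (tn (tn (tn (tl 16385) te) te) te))))) (tn (tn (tn (tn (tn (tn (tn (tl 883477452282526472201594415123096288352280270607972389930760876633096193) te) te) te) te) (tn te (tn (tn te (tn (tl 2) te)) te))) (tn (tn (tn (tn (tn (tl 4398046511104) te) te) te) te) te)) (tn (tn (tn (tn (tn (tn (tl 1) te) te) te) te) (tn te (tn (tn (tn (tl 1) te) (tn (tl 2) te)) te))) (tn (tn (tn (tn (tn (tl 144115188612726785) te) te) te) (tn (tn (tn (tl 1) te) te) te)) te)))))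

def t100 : Tr ℕ := (tn (tn (tn (tn (tn (tn (tn (tn (tn (tl 38687987410918364506226689) te) te) te) te) (tn (tn (tn (tn (tl 72066390667853824) te) te) te) te)) (tn te (tn te (tn (tn (tn (tl 16386) te) (tn (tl 2) te)) te)))) te) (tn (tn (tn (tn (tn (tn (tn (tl 2361327365418991484930) te) te) te) te) (tn te (tn (tn te (tn (tl 1) te)) te))) (tn (tn (tn (tn (tn (tl 144115188612759554) te) te) te) te) te)) (tn (tn te (tn te (tn (tn te (tn (tl 1) te)) te))) (tn (tn (tn (tn (tn (tl 72061992352874496) te) te) te) (tn (tn (tn (tl 2) te) te) te)) (tn te (tn (tn (tn (tl 16384) te) te) te)))))) (tn (tn (tn (tn te (tn te (tn (tn te (tn (tl 1) te)) te))) (tn te (tn te (tn (tn (tn (tl 2) te) te) te)))) (tn (tn te (tn te (tn (tn te (tn (tl 1) te)) te))) (tn (tn te (tn (tn (tn (tl 1) te) te) te)) (tn te (tn (tn (tn (tl 16384) te) te) te))))) (tn (tn (tn (tn (tn (tn (tn (tl 237142199641501020510200716755293791446155586505096957095431060697016923743862784)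 te) te) te) te) (tn te (tn (tn te (tn (tl 1) te)) te))) (tn (tn (tn (tn (tn (tl 72057594037960704) te) te) te) te) te)) (tn (tn (tn (tn (tn (tn (tl 1) te) te) te) te) (tn te (tn (tn (tn (tl 16386) te) (tn (tl 2) te)) te))) (tn (tn (tn (tn (tn (tl 72057594306363394) te) te) te) (tn (tn (tn (tl 2) te) te) te)) te)))))

def t101 : Tr ℕ := (tn (tn (tn (tn (tn te (tn (tn (tn (tn (tl 8796361474050) te) te) te) te)) (tn (tn te (tn (tn (tn (tl 2) te) (tn (tl 1) te)) te)) te)) (tn te (tn (tn (tn (tn (tn (tl 8796361490433) te) te) te) te) (tn te (tn (tn (tn (tl 32768) te) te) te))))) (tn (tn te (tn te (tn te (tn (tn (tn (tl 16384) te) te) te)))) te)) (tn (tn (tn (tn (tn (tn (tn (tn (tl 19343993705459182253113344) te) te) te) te) te) te) (tn te (tn (tn (tn (tn (tn (tl 16386) te) te) te) te) te))) (tn (tn (tn (tn (tn (tn (tn (tl 748288838313507375097244450024359604444598865264641) te) te) te) te) te) (tn (tn te (tn (tn te (tn (tl 1) te))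 te)) te)) te)))

def t102 : Tr ℕ := (tn (tn (tn (tn (tn te (tn (tn (tn (tn (tl 16386) te) te) te) te)) (tn (tn te (tn (tn (tn (tl 2) te) (tn (tl 1) te)) te)) te)) (tn te (tn (tn (tn (tn (tn (tl 8796629909505) te) te) te) te) (tn te (tn (tn (tn (tl 32768) te) te) te))))) (tn (tn te (tn te (tn te (tn (tn (tn (tl 16386) te) te) te)))) (tn (tn (tn (tn (tn (tn (tl 2) te) te) te) te) te) te))) (tn (tn (tn (tn (tn (tn (tn (tn (tl 19342813185891661370114050) te) te) te) te) te) te) (tn te (tn (tn (tn (tn (tn (tl 16386) te) te) te) te) te))) (tn (tn (tn (tn (tn (tn (tn (tl 6130356330720069109531691153681013168447526715741192192) te) te) te) te) te) (tn (tn te (tn (tn te (tn (tl 1) te)) te)) te)) (tn (tn (tn te (tn (tn (tn (tl 2) te) (tn (tl 1) te)) te)) te) te))))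

def t103 : Tr ℕ := (tn (tn (tn (tn (tn te (tn (tn (tn (tn (tl 4398046543872) te) te) te) te)) (tn (tn te (tn (tn te (tn (tl 1) te)) te)) te)) (tn te (tn (tn (tn (tn (tn (tl 144123984705765376) te) te) te) (tn (tn te (tn (tl 2) te)) te)) (tn te (tn (tn (tn (tl 32769) te) te) te))))) (tn (tn te (tn (tn te (tn (tn te (tn (tl 2) te)) te)) (tn te (tn (tn (tn (tl 16384) te) te) te)))) (tn (tn (tn (tn (tn (tn (tl 2) te) te) te) te) te) (tn (tn te (tn (tn te (tn (tl 1) te)) te)) te)))) (tn (tn (tn (tn (tn (tn (tn (tn (tl 72057594306396160) te) te) te) te) te) (tn (tn te (tn (tn (tn (tl 2) te) (tn (tl 2) te)) te)) te)) (tn te (tn (tn (tn (tn (tn (tl 8796093022209) te) te) te) (tn (tn te (tn (tl 1) te)) te)) te))) (tn (tn (tn (tn (tn (tn (tn (tl 6129982163463555433433388108601236734474956488734408704) te) te) te) te) te) (tn (tn te (tn (tn te (tn (tl 2) te)) te)) (tn te (tn (tn (tn (tl 2) te) te) te)))) te)))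

def t104 : Tr ℕ := (tn (tn (tn (tn (tn te (tn (tn (tn (tn (tl 8796093022208) te) te) te) te)) (tn (tn te (tn (tn te (tn (tl 1) te)) te)) te)) (tn te (tn (tn (tn (tn (tn (tl 72057594574815233) te) te) te) te) (tn te (tn (tn (tn (tl 2) te) te) te))))) (tn (tn te (tn (tn te (tn (tn (tn (tl 1) te) (tn (tl 2) te)) te)) (tn te (tn (tn (tn (tl 16386) te) te) te)))) (tn (tn (tn (tn (tn (tn (tl 2) te) te) te) te) te) te))) (tn (tn (tn (tn (tn (tn (tn (tn (tl 38686806819288851538771969) te) te) te) te) te) (tn (tn te (tn (tn (tn (tl 1) te) te) te)) te)) (tn te (tn (tn (tn (tn (tn (tl 72061992352907265) te) te) te) te) te))) (tn (tn (tn (tn (tn (tn (tn (tl 45671926251671693151642139018782503796069105665) te) te) te) te) te) (tn (tn te (tn (tn te (tn (tl 2) te)) te)) (tn te (tn (tn (tn (tl 32769) te) te) te)))) (tn (tn (tn te (tn (tn (tn (tl 2) te) te) te)) te) te))))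

def t105 : Tr ℕ := (tn (tn (tn (tn (tn te (tn (tn (tn (tn (tl 16384) te) te) te) te)) (tn (tn te (tn (tn te (tn (tl 1) te)) te)) te)) (tn te (tn (tn (tn (tn (tn (tl 8796629909506) te) te) te) (tn (tn te (tn (tl 1) te)) te)) (tn te (tn (tn (tn (tl 2) te) te) te))))) (tn (tn te (tn (tn te (tn (tn (tn (tl 2) te) te) te)) (tn te (tn (tn (tn (tl 1) te) te) te)))) (tn (tn (tn (tn (tn (tn (tl 1) te) te) te) te) te) te))) (tn (tn (tn (tn (tn (tn (tn (tn (tl 1180591625115457830913) te) te) te) te) te) (tn (tn te (tn (tn te (tn (tl 2) te)) te)) te)) (tn te (tn (tn (tn (tn (tn (tl 72066390130966530) te) te) te) (tn (tn te (tn (tl 1) te)) te)) te))) (tn (tn (tn (tn (tn (tn (tn (tl 10385227542372130555007574147612673) te) te) te) te) te) (tn (tn te (tn (tn te (tn (tl 2) te)) te)) (tn te (tn (tn (tn (tl 32769) te) te) te)))) (tn (tn (tn te (tn (tn (tn (tl 2) te) (tn (tl 1) te)) te)) te) te))))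

def t106 : Tr ℕ := (tn (tn (tn (tn (tn te (tn (tn (tn (tn (tl 4398046543873) te) te) te) te)) (tn (tn te (tn (tn (tn (tl 2) te) (tn (tl 2) te)) te)) te)) (tn te (tn (tn (tn (tn (tn (tl 144119586122399744) te) te) te) (tn (tn te (tn (tl 1) te)) te)) (tn te (tn (tn (tn (tl 32768) te) te) te))))) (tn (tn te (tn (tn te (tn (tn (tn (tl 2) te) (tn (tl 1) te)) te)) (tn te (tn (tn (tn (tl 16384) te) te) te)))) (tn (tn (tn (tn (tn (tn (tl 1) te) te) te) te) te) te))) (tn (tn (tn (tn (tn (tn (tn (tn (tl 19343993705463580299624450) te) te) te) te) te) (tn (tn te (tn (tn te (tn (tl 1) te)) te)) te)) (tn te (tn (tn (tn (tn (tn (tl 4398046511105) te) te) te) (tn (tn te (tn (tl 2) te)) te)) te))) (tn (tn (tn (tn (tn (tn (tn (tl 6130356353556032192827048933700939803245785631231574016) te) te) te) te) te) (tn (tn te (tn (tn te (tn (tl 1) te)) te)) (tn te (tn (tn (tn (tl 16385) te) te) te)))) (tn (tn (tn te (tn (tn (tn (tl 1) te) te) te)) te)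 te))))

def t107 : Tr ℕ := (tn (tn (tn (tn (tn te (tn (tn (tn (tn (tl 268451841) te) te) te) te)) (tn (tn te (tn (tn (tn (tl 2) te) te) te)) te)) (tn te (tn (tn (tn (tn (tn (tl 72066390667821057) te) te) te) (tn (tn te (tn (tl 1) te)) te)) (tn te (tn (tn (tn (tl 16384) te) te) te))))) (tn (tn te (tn (tn te (tn (tn (tn (tl 2) te) te) te)) (tn te (tn (tn (tn (tl 32769) te) te) te)))) te)) (tn (tn (tn (tn (tn (tn (tn (tn (tl 19345174441199486055235584) te) te) te) te) te) (tn (tn te (tn (tn (tn (tl 1) te) (tn (tl 1) te)) te)) te)) (tn te (tn (tn (tn (tn (tn (tl 4398046543874) te) te) te) te) te))) (tn (tn (tn (tn (tn (tn (tn (tl 2787763296192085239802517877432033961066496) te) te) te) te) te) (tn (tn te (tn (tn te (tn (tl 1) te)) te)) (tn te (tn (tn (tn (tl 2) te) te) te)))) (tn (tn (tn te (tn (tn (tn (tl 1) te) (tn (tl 1) te)) te)) te) te))))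

def t108 : Tr ℕ := (tn (tn (tn (tn (tn te (tn (tn (tn (tn (tl 4398583414786) te) te) te) te)) (tn (tn te (tn (tn (tn (tl 1) te) (tn (tl 1) te)) te)) te)) (tn te (tn (tn (tn (tn (tn (tl 16386) te) te) te) (tn (tn te (tn (tl 1) te)) te)) (tn te (tn (tn (tn (tl 32769) te) te) te))))) (tn (tn te (tn (tn te (tn (tn (tn (tl 2) te) (tn (tl 2) te)) te)) (tn te (tn (tn (tn (tl 16385) te) te) te)))) (tn te (tn (tn te (tn (tn te (tn (tl 2) te)) te)) te)))) (tn (tn (tn (tn (tn (tn (tn (tn (tl 19342813113838464841809922) te) te) te) te) te) (tn (tn te (tn (tn (tn (tl 1) te) te) te)) te)) (tn te (tn (tn (tn (tn (tn (tl 4398046511104) te) te) te) (tn (tn te (tn (tl 1) te)) te)) te))) (tn (tn (tn (tn (tn (tn (tn (tl 374144421944474438060565543084805266785561745571841) te) te) te) te) te) (tn (tn te (tn (tn te (tn (tl 1) te)) te)) (tn te (tn (tn (tn (tl 32769) te) te) te)))) (tn (tn (tn te (tn (tn (tn (tl 2) te) (tn (tl 2) te)) te)) te) te))))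

def t109 : Tr ℕ := (tn (tn (tn (tn (tn te (tn (tn (tn (tn (tl 8796093022209) te) te) te) te)) (tn (tn te (tn (tn (tn (tl 2) te) te) te)) te)) (tn te (tn (tn (tn (tn (tn (tl 72057594037960706) te) te) te) te) (tn te (tn (tn (tn (tl 32769) te) te) te))))) (tn (tn te (tn (tn te (tn (tn te (tn (tl 1) te)) te)) (tn te (tn (tn (tn (tl 16385) te) te) te)))) (tn (tn (tn (tn (tn (tn (tl 1) te) te) te) te) te) (tn (tn te (tn (tn te (tn (tl 1) te)) te)) te)))) (tn (tn (tn (tn (tn (tn (tn (tn (tl 19345174297079900201304064) te) te) te) te) te) (tn (tn te (tn (tn (tn (tl 2) te) te) te)) te)) (tn te (tn (tn (tn (tn (tn (tl 72061992621309954) te) te) te) (tn (tn te (tn (tl 1) te)) te)) te))) (tn (tn (tn (tn (tn (tn (tn (tl 22838750761520959085763063457859961832089862144) te) te) te) te) te) (tn (tn te (tn (tn te (tn (tl 1) te)) te)) te)) te)))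

def t110 : Tr ℕ := (tn (tn (tn (tn (tn te (tn (tn (tn (tn (tl 268468225) te) te) te) te)) te) (tn te (tn (tn (tn (tn (tn (tl 144123984437346306) te) te) te) (tn (tn te (tn (tl 1) te)) te)) (tn te (tn (tn (tn (tl 32770) te) te) te))))) (tn te (tn (tn (tn (tn (tn (tn (tl 2) te) te) te) te) te) te))) (tn (tn (tn (tn (tn (tn (tn (tn (tl 38686806963408437124300802) te) te) te) te) te) (tn (tn te (tn (tn (tn (tl 1) te) (tn (tl 2) te)) te)) te)) (tn te (tn (tn (tn (tn (tn (tl 4398314946560) te) te) te) te) te))) (tn (tn (tn (tn (tn (tn (tn (tl 374144419156711157445370859547499008039492610179073) te) te) te) te) te) (tn (tn te (tn (tn te (tn (tl 1) te)) te)) te)) (tn (tn (tn te (tn (tn (tn (tl 2) te) te) te)) te) te))))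

def t111 : Tr ℕ := (tn (tn (tn (tn (tn te (tn (tn (tn (tn (tl 8796629925888) te) te) te) te)) (tn (tn te (tn (tn te (tn (tl 2) te)) te)) te)) (tn te (tn (tn (tn (tn (tn (tl 72066390399385600) te) te) te) te) (tn te (tn (tn (tn (tl 32770) te) te) te))))) (tn (tn te (tn (tn te (tn (tn (tn (tl 2) te) (tn (tl 1) te)) te)) (tn te (tn (tn (tn (tl 1) te) te) te)))) (tn (tn (tn (tn (tn (tn (tl 2) te) te) te) te) te) te))) (tn (tn (tn (tn (tn (tn (tn (tn (tl 2361255307825222008833) te) te) te) te) te) (tn (tn te (tn (tn (tn (tl 2) te) te) te)) te)) (tn te (tn (tn (tn (tn (tn (tl 72061992621326336) te) te) te) te) te))) (tn (tn (tn (tn (tn (tn (tn (tl 6130356353556032277887256704043786127947077244329951234) te) te) te) te) te) (tn (tn te (tn (tn te (tn (tl 2) te)) te)) (tn te (tn (tn (tn (tl 2) te) te) te)))) (tn (tn (tn te (tn (tn (tn (tl 2) te) (tn (tl 2) te)) te)) te) te))))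

def t112 : Tr ℕ := (tn (tn (tn (tn (tn (tn (tn (tn (tn (tl 19342813185896059416608768) te) te) te) (tn (tn te (tn (tl 2) te)) te)) (tn (tn (tn (tn (tl 4398046543872) te) te) te) te)) (tn te (tn te (tn (tn (tn (tl 32768) te) te) te)))) (tn (tn (tn te (tn (tn (tn (tl 1) te) (tn (tl 2) te)) te)) te) (tn (tn (tn (tn (tn (tl 4398046511106) te) te) te) te) (tn (tn (tn te (tn (tl 1) te)) te) (tn (tn (tn (tl 16385) te) te) te))))) (tn (tn (tn (tn te (tn (tn (tn (tl 2) te) te) te)) te) (tn (tn (tn (tn (tn (tl 144115188612759552) te) te) te) te) (tn te (tn (tn (tn (tl 16386) te) te) te)))) (tn (tn (tn te (tn (tn (tn (tl 1) te) (tn (tl 2) te)) te)) te) (tn te (tn (tn (tn te (tn (tl 2) te)) te) te))))) (tn (tn (tn (tn (tn (tn (tn (tn (tl 144123984437329921) te) te) te) (tn (tn te (tn (tl 1) te)) te)) te) te) (tn (tn (tn (tn (tn (tn (tl 2) te) te) te) (tn (tn (tn (tl 1) te) te) te)) te) (tn (tn (tn (tn (tn (tl 4398314979330) te) te) te)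 te) (tn (tn (tn te (tn (tl 1) te)) te) te)))) (tn (tn (tn (tn (tn (tn (tn (tl 237149436647051394471252096622519920739177563367071743625790272501823257494716418) te) te) te) (tn (tn (tn (tl 2) te) (tn (tl 2) te)) te)) te) (tn (tn (tn (tn (tn (tl 536887297) te) te) te) te) (tn te (tn (tn (tn (tl 16385) te) te) te)))) (tn (tn te (tn te (tn (tn (tn (tl 16384) te) te) te))) (tn te (tn (tn (tn te (tn (tl 2) te)) te) te))))))

def t113 : Tr ℕ := (tn (tn (tn (tn (tn (tn te (tn (tn te (tn (tl 2) te)) te)) (tn (tn (tn (tn (tl 8796629909506) te) te) te) te)) te) (tn (tn (tn te (tn (tn (tn (tl 1) te) te) te)) te) (tn (tn (tn (tn (tn (tl 4398314979330) te) te) te) te) (tn (tn (tn te (tn (tl 2) te)) te) (tn (tn (tn (tl 16385) te) te) te))))) (tn (tn (tn (tn te (tn (tn (tn (tl 1) te) te) te)) te) (tn (tn (tn (tn (tn (tl 268435457) te) te) te) te) te)) (tn (tn (tn te (tn (tn (tn (tl 1) te) (tn (tl 2) te)) te)) te) (tn te (tn (tn (tn te (tn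 (tl 2) te)) te) te))))) (tn (tn (tn (tn (tn (tn (tn (tn (tl 1180591625115994718209) te) te) te) te) te) (tn te (tn te (tn (tn (tn (tl 16384) te) te) te)))) (tn (tn (tn (tn (tn (tn (tl 1) te) te) te) te) te) (tn (tn (tn (tn (tn (tl 4398314979330) te) te) te) te) te))) (tn (tn (tn (tn (tn (tn (tn (tl 237142199199762294368937477588944274106113372455768853189607274051881440318095360) te) te) te) (tn (tn te (tn (tl 2) te)) te)) te) (tn (tn (tn (tn (tn (tl 268451840) te) te) te) te) (tn te (tn (tn (tn (tl 16385) te) te) te)))) (tn (tn te (tn te (tn (tn (tn (tl 32768) te) te) te))) te))))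

def t114 : Tr ℕ := (tn (tn (tn (tn (tn (tn (tn (tn (tn (tl 2361327361021213442050) te) te) te) (tn (tn te (tn (tl 2) te)) te)) (tn (tn (tn (tn (tl 144123984168894464) te) te) te) te)) (tn te (tn te (tn (tn (tn (tl 32768) te) te) te)))) (tn (tn (tn te (tn (tn (tn (tl 1) te) (tn (tl 2) te)) te)) te) (tn (tn (tn (tn (tn (tl 268451840) te) te) te) te) (tn (tn (tn te (tn (tl 1) te)) te) (tn (tn (tn (tl 16385) te) te) te))))) (tn (tn (tn (tn te (tn (tn (tn (tl 2) te) te) te)) te) (tn (tn (tn (tn (tn (tl 72066390399401986) te) te) te) te) (tn te (tn (tn (tn (tl 1) te) te) te)))) (tn (tn (tn te (tn (tn (tn (tl 1) te) (tn (tl 2) te)) te)) te) (tn te (tn (tn (tn te (tn (tl 2) te)) te) te))))) (tn (tn (tn (tn (tn (tn (tn (tn (tl 2361183245833405988866) te) te) te) (tn (tn te (tn (tl 1) te)) te)) te) (tn te (tn te (tn (tn (tn (tl 16384) te) te) te)))) (tn (tn (tn (tn (tn (tn (tl 2) te) te) te) (tn (tn (tn (tl 1) te) te) te)) te) (tn (tn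 (tn (tn (tn (tl 4398314979330) te) te) te) te) (tn (tn (tn te (tn (tl 1) te)) te) te)))) (tn (tn (tn (tn (tn (tn (tn (tl 237156672769178236043010871941097192476926003319580381647156602442357023847776256) te) te) te) (tn (tn (tn (tl 2) te) (tn (tl 2) te)) te)) te) (tn (tn (tn (tn (tn (tl 536870914) te) te) te) te) (tn te (tn (tn (tn (tl 16385) te) te) te)))) (tn (tn te (tn te (tn (tn (tn (tl 16384) te) te) te))) (tn te (tn (tn (tn te (tn (tl 2) te)) te) te))))))

def t115 : Tr ℕ := (tn (tn (tn (tn (tn (tn (tn (tn (tn (tl 38687987482975958812622848) te) te) te) te) (tn (tn (tn (tn (tl 72057594037927936) te) te) te) te)) (tn te (tn te (tn (tn (tn (tl 32768) te) te) te)))) (tn (tn (tn te (tn (tn (tn (tl 1) te) te) te)) te) (tn (tn (tn (tn (tn (tl 72066390399418368) te) te) te) te) (tn te (tn (tn (tn (tl 32770) te) te) te))))) (tn (tn (tn (tn te (tn (tn te (tn (tl 1) te)) te)) te) (tn (tn (tn (tn (tn (tl 72057594037960706) te) te)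 te) te) (tn te (tn (tn (tn (tl 1) te) te) te)))) (tn (tn (tn te (tn (tn (tn (tl 1) te) (tn (tl 1) te)) te)) te) te))) (tn (tn (tn (tn (tn (tn (tn (tn (tl 1180663687107810689026) te) te) te) te) te) (tn te (tn te (tn (tn (tn (tl 16386) te) te) te)))) (tn (tn (tn te (tn (tn (tn (tl 2) te) (tn (tl 2) te)) te)) te) (tn (tn (tn (tn (tn (tl 4398314962945) te) te) te) te) te))) (tn (tn (tn (tn (tn (tn (tn (tl 237156672769178232751901323670918944107941670638673177194575201665797394626805760) te) te) te) (tn (tn te (tn (tl 1) te)) te)) te) (tn (tn (tn (tn (tn (tl 144115188344324096) te) te) te) te) (tn te (tn (tn (tn (tl 2) te) te) te)))) (tn (tn te (tn te (tn (tn (tn (tl 2) te) te) te))) (tn te (tn (tn (tn te (tn (tl 2) te)) te) te))))))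

def t116 : Tr ℕ := (tn (tn (tn (tn (tn (tn (tn (tn (tn (tl 2361183241435359510530) te) te) te) te) (tn (tn (tn (tn (tl 144123984437346304) te) te) te) te)) (tn te (tn te (tn (tn (tn (tl 32769) te) te) te)))) (tn (tn (tn te (tn (tn (tn (tl 1) te) te) te)) te) (tn (tn (tn (tn (tn (tl 72066390130982912) te) te) te) te) (tn (tn (tn te (tn (tl 1) te)) te) (tn (tn (tn (tl 16386) te) te) te))))) (tn (tn (tn (tn te (tn (tn (tn (tl 1) te) te) te)) te) (tn (tn (tn (tn (tn (tl 72061992352890881) te) te) te) te) (tn te (tn (tn (tn (tl 16384) te) te) te)))) (tn (tn (tn te (tn (tn (tn (tl 2) te) te) te)) te) te))) (tn (tn (tn (tn (tn (tn (tn (tn (tl 72066390667821056) te) te) te) (tn (tn te (tn (tl 1) te)) te)) te) (tn te (tn te (tn (tn (tn (tl 16384) te) te) te)))) (tn (tn (tn (tn (tn (tn (tl 2) te) te) te) (tn (tn te (tn (tl 2) te)) te)) te) (tn (tn (tn (tn (tn (tl 144119586659270658) te) te) te) te) (tn (tn (tn te (tn (tl 1) te)) te)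 te)))) (tn (tn (tn (tn (tn (tn (tn (tl 118571099820723553599542759073021558804571348216371432775695661065059876290461697) te) te) te) (tn (tn (tn (tl 1) te) (tn (tl 1) te)) te)) te) (tn (tn (tn (tn (tn (tl 144123984168910848) te) te) te) te) (tn te (tn (tn (tn (tl 32770) te) te) te)))) (tn (tn te (tn te (tn (tn (tn (tl 16386) te) te) te))) (tn te (tn (tn (tn te (tn (tl 2) te)) te) te))))))

def t117 : Tr ℕ := (tn (tn (tn (tn (tn (tn (tn (tn (tn (tl 38686806819288851001901058) te) te) te) te) (tn (tn (tn (tn (tl 144115188612759554) te) te) te) te)) (tn te (tn te (tn (tn (tn (tl 32768) te) te) te)))) (tn (tn (tn te (tn (tn (tn (tl 1) te) (tn (tl 2) te)) te)) te) (tn (tn (tn (tn (tn (tl 72066390130982912) te) te) te) te) (tn (tn (tn te (tn (tl 1) te)) te) (tn (tn (tn (tl 16385) te) te) te))))) (tn (tn (tn (tn te (tn (tn te (tn (tl 2) te)) te)) te) (tn (tn (tn (tn (tn (tl 144115188612759554) te) te) te) te) (tn te (tn (tn (tn (tl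 32768) te) te) te)))) (tn (tn (tn te (tn (tn (tn (tl 1) te) te) te)) te) te))) (tn (tn (tn (tn (tn (tn (tn (tn (tl 2361255299029397405697) te) te) te) te) te) (tn te (tn te (tn (tn (tn (tl 16385) te) te) te)))) (tn (tn (tn te (tn (tn te (tn (tl 1) te)) te)) te) (tn (tn (tn (tn (tn (tl 144119586122399744) te) te) te) te) (tn (tn (tn te (tn (tl 2) te)) te) te)))) (tn (tn (tn (tn (tn (tn (tn (tl 118578336384589116376051095463973936369311766822149504413850878086376267590959106) te) te) te) (tn (tn (tn (tl 2) te) te) te)) te) (tn (tn (tn (tn (tn (tl 8796093022209) te) te) te) te) (tn te (tn (tn (tn (tl 32770) te) te) te)))) (tn te (tn te (tn (tn (tn te (tn (tl 2) te)) te) te))))))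

def t118 : Tr ℕ := (tn (tn (tn (tn (tn (tn (tn (tn (tn (tl 19343993777516776291074049) te) te) te) (tn (tn te (tn (tl 1) te)) te)) (tn (tn (tn (tn (tl 72066390399385601) te) te) te) te)) (tn te (tn te (tn (tn (tn (tl 16384) te) te) te)))) (tn (tn (tn te (tn (tn (tn (tl 2) te) (tn (tl 1) te)) te)) te) (tn (tn (tn (tn (tn (tl 72057594037960704) te) te) te) te) te))) (tn (tn (tn (tn te (tn (tn te (tn (tl 2) te)) te)) te) (tn (tn (tn (tn (tn (tl 72061992621342720) te) te) te) te) (tn te (tn (tn (tn (tl 1) te) te) te)))) (tn (tn (tn te (tn (tn te (tn (tl 1) te)) te)) te) te))) (tn (tn (tn (tn (tn (tn (tn (tn (tl 72066390667853826) te) te) te) (tn (tn te (tn (tl 2) te)) te)) te) (tn te (tn te (tn (tn (tn (tl 2) te) te) te)))) (tn (tn (tn (tn (tn (tn (tl 2) te) te) te) (tn (tn (tn (tl 1) te) (tn (tl 2) te)) te)) te) (tn (tn (tn (tn (tn (tl 72061992084471809) te) te) te) te) (tn (tn (tn te (tn (tl 2) te)) te) te)))) (tn (tn (tn (tn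 (tn (tn (tn (tl 118571099820750513546209903582834085193459984430298979544909972065031634108284928) te) te) te) (tn (tn (tn (tl 1) te) (tn (tl 2) te)) te)) te) (tn (tn (tn (tn (tn (tl 144119586659254272) te) te) te) te) (tn te (tn (tn (tn (tl 32770) te) te) te)))) (tn (tn te (tn te (tn (tn (tn (tl 32770) te) te) te))) (tn te (tn (tn (tn te (tn (tl 2) te)) te) te))))))

def t119 : Tr ℕ := (tn (tn (tn (tn (tn (tn (tn (tn (tn (tl 1180735744701848616960) te) te) te) (tn (tn te (tn (tl 1) te)) te)) (tn (tn (tn (tn (tl 4398046543873) te) te) te) te)) (tn te (tn te (tn (tn (tn (tl 16385) te) te) te)))) (tn (tn (tn te (tn (tn te (tn (tl 2) te)) te)) te) (tn (tn (tn (tn (tn (tl 72066390667821057) te) te) te) te) (tn (tn (tn te (tn (tl 2) te)) te) (tn (tn (tn (tl 16384) te) te) te))))) (tn (tn (tn (tn te (tn (tn (tn (tl 1) te) (tn (tl 1) te)) te)) te) (tn (tn (tn (tn (tn (tl 144115188344324096) te) te) te) te) (tn te (tn (tn (tn (tl 32770)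 te) te) te)))) (tn (tn (tn te (tn (tn (tn (tl 2) te) (tn (tl 1) te)) te)) te) (tn te (tn (tn (tn te (tn (tl 1) te)) te) te))))) (tn (tn (tn (tn (tn (tn (tn (tn (tl 1180735744701580197889) te) te) te) (tn (tn te (tn (tl 1) te)) te)) te) (tn te (tn te (tn (tn (tn (tl 16386) te) te) te)))) (tn (tn (tn te (tn (tn (tn (tl 2) te) te) te)) te) (tn (tn (tn (tn (tn (tl 72061992621326337) te) te) te) te) (tn (tn (tn te (tn (tl 1) te)) te) te)))) (tn (tn (tn (tn (tn (tn (tn (tl 237142199641474060563433132487358770280939976792601523440441064329961235462258689) te) te) te) (tn (tn (tn (tl 1) te) te) te)) te) (tn (tn (tn (tn (tn (tl 72066390130966530) te) te) te) te) (tn te (tn (tn (tn (tl 16385) te) te) te)))) (tn (tn te (tn te (tn (tn (tn (tl 2) te) te) te))) te))))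

def t120 : Tr ℕ := (tn (tn (tn (tn (tn (tn (tn (tn (tn (tl 19345174297079900201320450) te) te) te) te) (tn (tn (tn (tn (tl 8796629925888) te) te) te) te)) te) (tn (tn (tn te (tn (tn (tn (tl 1) te) te) te)) te) (tn (tn (tn (tn (tn (tl 72057594037944322) te) te) te) te) (tn (tn (tn te (tn (tl 1) te)) te) (tn (tn (tn (tl 2) te) te) te))))) (tn (tn (tn (tn te (tn (tn (tn (tl 2) te) (tn (tl 1) te)) te)) te) (tn (tn (tn (tn (tn (tl 72057594037960705) te) te) te) te) (tn te (tn (tn (tn (tl 2) te) te) te)))) (tn (tn (tn te (tn (tn (tn (tl 2) te) te) te)) te) (tn te (tn (tn (tn te (tn (tl 1) te)) te) te))))) (tn (tn (tn (tn (tn (tn (tn (tn (tl 1180663678311449264129) te) te) te) (tn (tn te (tn (tl 2) te)) te)) te) (tn te (tn te (tn (tn (tn (tl 16385) te) te) te)))) (tn (tn (tn (tn (tn (tn (tl 2) te) te) te) (tn (tn (tn (tl 1) te) (tn (tl 2) te)) te)) te) (tn (tn (tn (tn (tn (tl 4398314979328) te) te) te) te) (tn (tn (tn te (tn (tl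 2) te)) te) te)))) (tn (tn (tn (tn (tn (tn (tn (tl 237149435763600903780897338512282522673031181654364116230192898269125129319481344) te) te) te) (tn (tn te (tn (tl 1) te)) te)) te) (tn (tn (tn (tn (tn (tl 4398583414784) te) te) te) te) (tn te (tn (tn (tn (tl 32770) te) te) te)))) (tn (tn te (tn te (tn (tn (tn (tl 16384) te) te) te))) te))))

def t121 : Tr ℕ := (tn (tn (tn (tn (tn (tn (tn (tn (tn (tl 144115188075888642) te) te) te) (tn (tn te (tn (tl 1) te)) te)) (tn (tn (tn (tn (tl 536903682) te) te) te) te)) (tn te (tn te (tn (tn (tn (tl 1) te) te) te)))) (tn (tn (tn te (tn (tn (tn (tl 1) te) (tn (tl 2) te)) te)) te) (tn (tn (tn (tn (tn (tl 72066390130982913) te) te) te) te) (tn (tn (tn te (tn (tl 1) te)) te) (tn (tn (tn (tl 32768) te) te) te))))) (tn (tn (tn (tn te (tn (tn te (tn (tl 2) te)) te)) te) (tn (tn (tn (tn (tn (tl 72066390399401986) te) te) te) te) te)) (tn te (tn te (tn (tn (tn te (tn (tl 1) te)) te) te))))) (tn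 (tn (tn (tn (tn (tn (tn (tn (tl 72057594037927936) te) te) te) te) te) (tn te (tn te (tn (tn (tn (tl 32769) te) te) te)))) (tn (tn (tn (tn (tn (tn (tl 2) te) te) te) (tn (tn te (tn (tl 1) te)) te)) te) (tn (tn (tn (tn (tn (tl 72057594574815234) te) te) te) te) (tn (tn (tn te (tn (tl 2) te)) te) te)))) (tn (tn (tn (tn (tn (tn (tn (tl 441765687733434940996619797044192813951578338863697634897780938706534401) te) te) te) (tn (tn (tn (tl 1) te) (tn (tl 2) te)) te)) te) (tn (tn (tn (tn (tn (tl 144119586390818816) te) te) te) te) (tn te (tn (tn (tn (tl 16384) te) te) te)))) (tn te (tn te (tn (tn (tn te (tn (tl 2) te)) te) te))))))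

def t122 : Tr ℕ := (tn (tn (tn (tn (tn (tn (tn (tn (tn (tl 144115188075872256) te) te) te) (tn (tn te (tn (tl 1) te)) te)) (tn (tn (tn (tn (tl 144123984705748994) te) te) te) te)) (tn te (tn te (tn (tn (tn (tl 32768) te) te) te)))) (tn (tn (tn te (tn (tn te (tn (tl 1) te)) te)) te) (tn (tn (tn (tn (tn (tl 72061992084471810) te) te) te) te) (tn (tn (tn te (tn (tl 2) te)) te) (tn (tn (tn (tl 16386) te) te) te))))) (tn (tn (tn (tn te (tn (tn te (tn (tl 1) te)) te)) te) (tn (tn (tn (tn (tn (tl 144115188612759553) te) te) te) te) (tn te (tn (tn (tn (tl 1) te) te) te)))) (tn (tn (tn te (tn (tn (tn (tl 1) te) te) te)) te) (tn te (tn (tn (tn te (tn (tl 2) te)) te) te))))) (tn (tn (tn (tn (tn (tn (tn (tn (tl 2361255303426907062272) te) te) te) te) te) (tn te (tn te (tn (tn (tn (tl 16385) te) te) te)))) (tn (tn (tn te (tn (tn (tn (tl 1) te) (tn (tl 1) te)) te)) te) (tn (tn (tn (tn (tn (tl 72057594574815234) te) te) te) te) (tn (tn (tn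 te (tn (tl 1) te)) te) te)))) (tn (tn (tn (tn (tn (tn (tn (tl 118571100262435319793937980342921579250257039263426843455460737373298841096290306) te) te) te) (tn (tn te (tn (tl 1) te)) te)) te) (tn (tn (tn (tn (tn (tl 72066390130950145) te) te) te) te) (tn te (tn (tn (tn (tl 1) te) te) te)))) (tn (tn te (tn te (tn (tn (tn (tl 2) te) te) te))) (tn te (tn (tn (tn te (tn (tl 1) te)) te) te))))))

def t123 : Tr ℕ := (tn (tn (tn (tn (tn (tn (tn (tn (tn (tl 38686806819288851270336512) te) te) te) te) (tn (tn (tn (tn (tl 4398314962946) te) te) te) te)) (tn te (tn te (tn (tn (tn (tl 16384) te) te) te)))) (tn te (tn (tn (tn (tn (tn (tl 72057594037960704) te) te) te) te) (tn (tn (tn te (tn (tl 1) te)) te) (tn (tn (tn (tl 16385) te) te) te))))) (tn (tn (tn (tn te (tn (tn (tn (tl 2) te) (tn (tl 1) te)) te)) te) (tn (tn (tn (tn (tn (tl 4398314979330) te) te) te) te) (tn te (tn (tn (tn (tl 32770) te) te) te)))) (tn (tn (tn te (tn (tn (tn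 (tl 1) te) te) te)) te) (tn te (tn (tn (tn te (tn (tl 2) te)) te) te))))) (tn (tn (tn (tn (tn (tn (tn (tn (tl 1180735735905487159298) te) te) te) (tn (tn te (tn (tl 1) te)) te)) te) (tn te (tn te (tn (tn (tn (tl 1) te) te) te)))) (tn (tn (tn (tn (tn (tn (tl 1) te) te) te) (tn (tn (tn (tl 1) te) te) te)) te) (tn (tn (tn (tn (tn (tl 144119586122383362) te) te) te) te) (tn (tn (tn te (tn (tl 1) te)) te) te)))) (tn (tn (tn (tn (tn (tn (tn (tl 14474894605156860387707692300017195753972364955128308856968233004519282212865) te) te) te) (tn (tn te (tn (tl 1) te)) te)) te) (tn (tn (tn (tn (tn (tl 144115188344307714) te) te) te) te) (tn te (tn (tn (tn (tl 32770) te) te) te)))) (tn (tn te (tn te (tn (tn (tn (tl 32770) te) te) te))) (tn te (tn (tn (tn te (tn (tl 1) te)) te) te))))))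

def t124 : Tr ℕ := (tn (tn (tn (tn (tn (tn (tn (tn (tn (tl 19345174441190689962229760) te) te) te) te) (tn (tn (tn (tn (tl 144115188612726786) te) te) te) te)) (tn te (tn te (tn (tn (tn (tl 16386) te) te) te)))) (tn (tn (tn te (tn (tn (tn (tl 2) te) (tn (tl 1) te)) te)) te) (tn (tn (tn (tn (tn (tl 4398583382016) te) te) te) te) (tn (tn (tn te (tn (tl 2) te)) te) (tn (tn (tn (tl 1) te) te) te))))) (tn (tn (tn (tn te (tn (tn (tn (tl 2) te) (tn (tl 2) te)) te)) te) (tn (tn (tn (tn (tn (tl 144123984705765378) te) te) te) te) (tn te (tn (tn (tn (tl 16385) te) te) te)))) (tn (tn (tn te (tn (tn (tn (tl 2) te) (tn (tl 1) te)) te)) te) (tn te (tn (tn (tn te (tn (tl 1) te)) te) te))))) (tn (tn (tn (tn (tn (tn (tn (tn (tl 2361255303427175514113) te) te) te) (tn (tn te (tn (tl 2) te)) te)) te) (tn te (tn te (tn (tn (tn (tl 32769) te) te) te)))) (tn (tn (tn (tn (tn (tn (tl 1) te) te) te) (tn (tn te (tn (tl 1) te)) te)) te) (tn (tn (tn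 (tn (tn (tl 72066390130982912) te) te) te) te) (tn (tn (tn te (tn (tl 2) te)) te) te)))) (tn (tn (tn (tn (tn (tn (tn (tl 14474452893393956901167437420061424298949894939519347189110040193405412212737) te) te) te) (tn (tn (tn (tl 1) te) (tn (tl 1) te)) te)) te) (tn (tn (tn (tn (tn (tl 72057594574831618) te) te) te) te) (tn te (tn (tn (tn (tl 2) te) te) te)))) (tn (tn te (tn te (tn (tn (tn (tl 32769) te) te) te))) (tn te (tn (tn (tn te (tn (tl 1) te)) te) te))))))

def t125 : Tr ℕ := (tn (tn (tn (tn (tn (tn (tn (tn (tn (tl 19345174441190689962196992) te) te) te) (tn (tn te (tn (tl 1) te)) te)) (tn (tn (tn (tn (tl 144119586122383362) te) te) te) te)) (tn te (tn te (tn (tn (tn (tl 16384) te) te) te)))) (tn (tn (tn te (tn (tn te (tn (tl 2) te)) te)) te) (tn (tn (tn (tn (tn (tl 72066390667821057) te) te) te) te) (tn te (tn (tn (tn (tl 32768) te) te) te))))) (tn (tn te (tn (tn (tn (tn (tn (tl 72061992352874497) te) te) te) te) (tn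 te (tn (tn (tn (tl 1) te) te) te)))) (tn (tn (tn te (tn (tn (tn (tl 1) te) (tn (tl 1) te)) te)) te) te))) (tn (tn (tn (tn (tn (tn (tn (tn (tl 2361183250231184064512) te) te) te) te) te) (tn te (tn te (tn (tn (tn (tl 16384) te) te) te)))) (tn (tn (tn (tn (tn (tn (tl 2) te) te) te) (tn (tn (tn (tl 2) te) te) te)) te) (tn (tn (tn (tn (tn (tl 144123984168910850) te) te) te) te) te))) (tn (tn (tn (tn (tn (tn (tn (tl 7237005604292208881129956339919146203245614112933673465322113382362399113218) te) te) te) (tn (tn (tn (tl 2) te) (tn (tl 2) te)) te)) te) (tn (tn (tn (tn (tn (tl 144123984168910848) te) te) te) te) (tn te (tn (tn (tn (tl 16385) te) te) te)))) (tn (tn te (tn te (tn (tn (tn (tl 2) te) te) te))) te))))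

def t126 : Tr ℕ := (tn (tn (tn (tn (tn (tn (tn (tn (tn (tl 2361327365419528355841) te) te) te) (tn (tn te (tn (tl 1) te)) te)) (tn (tn (tn (tn (tl 268468225) te) te) te) te)) (tn te (tn te (tn (tn (tn (tl 16384) te) te) te)))) (tn (tn (tn te (tn (tn te (tn (tl 2) te)) te)) te) (tn (tn (tn (tn (tn (tl 4398314946562) te) te) te) te) (tn (tn (tn te (tn (tl 1) te)) te) (tn (tn (tn (tl 32769) te) te) te))))) (tn (tn (tn (tn te (tn (tn (tn (tl 1) te) (tn (tl 2) te)) te)) te) (tn (tn (tn (tn (tn (tl 144119586659237888) te) te) te) te) te)) (tn (tn (tn te (tn (tn (tn (tl 2) te) (tn (tl 1) te)) te)) te) (tn te (tn (tn (tn te (tn (tl 2) te)) te) te))))) (tn (tn (tn (tn (tn (tn (tn (tn (tl 2361255303426907045889) te) te) te) (tn (tn te (tn (tl 1) te)) te)) te) (tn te (tn te (tn (tn (tn (tl 32770) te) te) te)))) (tn (tn (tn (tn (tn (tn (tl 2) te) te) te) (tn (tn (tn (tl 2) te) te) te)) te) (tn (tn (tn (tn (tn (tl 72066390130950144) te)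 te) te) te) te))) (tn (tn (tn (tn (tn (tn (tn (tl 7237005604292209081997211872247257326027699645993644915003931574902747824128) te) te) te) (tn (tn (tn (tl 2) te) te) te)) te) (tn (tn (tn (tn (tn (tl 144119586122399744) te) te) te) te) (tn te (tn (tn (tn (tl 16384) te) te) te)))) (tn (tn te (tn te (tn (tn (tn (tl 32769) te) te) te))) (tn te (tn (tn (tn te (tn (tl 1) te)) te) te))))))

def t127 : Tr ℕ := (tn (tn (tn (tn (tn (tn (tn (tn (tn (tl 536870912) te) te) te) te) (tn (tn (tn (tn (tl 72061992352907266) te) te) te) te)) (tn te (tn te (tn (tn (tn (tl 16384) te) te) te)))) (tn (tn (tn te (tn (tn (tn (tl 2) te) (tn (tl 1) te)) te)) te) (tn (tn (tn (tn (tn (tl 72066390399385600) te) te) te) te) (tn te (tn (tn (tn (tl 2) te) te) te))))) (tn (tn (tn (tn te (tn (tn (tn (tl 2) te) te) te)) te) (tn (tn (tn (tn (tn (tl 144119586122366978) te) te) te) te) (tn te (tn (tn (tn (tl 16384) te) te) te)))) (tn (tn (tn te (tn (tn (tn (tl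 2) te) (tn (tl 1) te)) te)) te) (tn te (tn (tn (tn te (tn (tl 2) te)) te) te))))) (tn (tn (tn (tn (tn (tn (tn (tn (tl 268435458) te) te) te) te) te) (tn te (tn te (tn (tn (tn (tl 32769) te) te) te)))) (tn (tn (tn te (tn (tn (tn (tl 2) te) (tn (tl 2) te)) te)) te) (tn (tn (tn (tn (tn (tl 144115188075888641) te) te) te) te) (tn (tn (tn te (tn (tl 1) te)) te) te)))) (tn (tn (tn (tn (tn (tn (tn (tl 237156673210943920485436710555269232134109929282931594556577747489401305863028737) te) te) te) (tn (tn (tn (tl 1) te) (tn (tl 1) te)) te)) te) (tn (tn (tn (tn (tn (tl 144123984705765378) te) te) te) te) (tn te (tn (tn (tn (tl 16385) te) te) te)))) (tn (tn te (tn te (tn (tn (tn (tl 16386) te) te) te))) (tn te (tn (tn (tn te (tn (tl 1) te)) te) te))))))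

def t128 : Tr ℕ := (tn (tn (tn (tn (tn (tn (tn (tn (tn (tl 38687987555029154804006912) te) te) te) (tn (tn te (tn (tl 2) te)) te)) (tn (tn (tn (tn (tl 4398314979328) te) te) te) te)) (tn te (tn te (tn (tn (tn (tl 16384) te) te) te)))) (tn (tn (tn te (tn (tn (tn (tl 1) te) (tn (tl 2) te)) te)) te) (tn (tn (tn (tn (tn (tl 8796093022208) te) te) te) te) (tn (tn (tn te (tn (tl 1) te)) te) (tn (tn (tn (tl 2) te) te) te))))) (tn (tn te (tn (tn (tn (tn (tn (tl 1) te) te) te) te) (tn te (tn (tn (tn (tl 32768) te) te) te)))) (tn (tn (tn te (tn (tn (tn (tl 1) te) te) te)) te) te))) (tn (tn (tn (tn (tn (tn (tn (tn (tl 72066390399401985) te) te) te) (tn (tn te (tn (tl 1) te)) te)) te) (tn te (tn te (tn (tn (tn (tl 1) te) te) te)))) (tn (tn (tn (tn (tn (tn (tl 2) te) te) te) (tn (tn (tn (tl 2) te) (tn (tl 1) te)) te)) te) (tn (tn (tn (tn (tn (tl 8796093022209) te) te) te) te) (tn (tn (tn te (tn (tl 2) te)) te) te)))) (tn (tn (tn (tn (tn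 (tn (tn (tl 118571100262462276449696449968818660523297453650341367903493289063685240861507586) te) te) te) (tn (tn (tn (tl 1) te) te) te)) te) (tn (tn (tn (tn (tn (tl 268451842) te) te) te) te) (tn te (tn (tn (tn (tl 16385) te) te) te)))) (tn (tn te (tn te (tn (tn (tn (tl 1) te) te) te))) te))))

def t129 : Tr ℕ := (tn (tn (tn (tn (tn (tn (tn (tn (tn (tl 38686806891355241669754881) te) te) te) (tn (tn te (tn (tl 1) te)) te)) (tn (tn (tn (tn (tl 72066390667821058) te) te) te) te)) (tn te (tn te (tn (tn (tn (tl 2) te) te) te)))) (tn (tn (tn te (tn (tn (tn (tl 2) te) (tn (tl 2) te)) te)) te) (tn (tn (tn (tn (tn (tl 4398314962945) te) te) te) te) te))) (tn (tn (tn (tn te (tn (tn (tn (tl 2) te) (tn (tl 1) te)) te)) te) (tn (tn (tn (tn (tn (tl 72057594306396161) te) te) te) te) (tn te (tn (tn (tn (tl 16384) te) te) te)))) (tn (tn (tn te (tn (tn (tn (tl 2) te) (tn (tl 1) te)) te)) te) (tn te (tn (tn (tn te (tn (tl 2) te)) te) te)))))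 (tn (tn (tn (tn (tn (tn (tn (tn (tl 72066390667821058) te) te) te) te) te) (tn te (tn te (tn (tn (tn (tl 32770) te) te) te)))) (tn (tn (tn (tn (tn (tn (tl 1) te) te) te) te) te) (tn (tn (tn (tn (tn (tl 4398046543874) te) te) te) te) (tn (tn (tn te (tn (tl 1) te)) te) te)))) (tn (tn (tn (tn (tn (tn (tn (tl 237142198758077488120908112205896667880169016228396909876883479628094030240317440) te) te) te) (tn (tn (tn (tl 2) te) (tn (tl 1) te)) te)) te) (tn (tn (tn (tn (tn (tl 72066390130950144) te) te) te) te) (tn te (tn (tn (tn (tl 16386) te) te) te)))) (tn (tn te (tn te (tn (tn (tn (tl 16384) te) te) te))) te))))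

def t130 : Tr ℕ := (tn (tn (tn (tn (tn (tn (tn (tn (tn (tl 2361183241434822639618) te) te) te) te) (tn (tn (tn (tn (tl 536903680) te) te) te) te)) (tn te (tn (tn (tn te (tn (tl 2) te)) te) (tn (tn (tn (tl 32770) te) te) te)))) te) (tn (tn te (tn (tn (tn (tn (tn (tl 8796361457665) te) te) te) te) te)) te)) (tn (tn (tn te (tn te (tn te (tn (tn (tn (tl 16385) te) te) te)))) (tn (tn te (tn (tn (tn te (tn (tl 2) te)) te) te)) te)) (tn (tn (tn (tn (tn (tn (tn (tl 12259964326927111037013152608355542503635755763255771137) te) te) te) te) te) (tn (tn (tn (tn (tn (tl 4398314979330) te) te) te) te) te)) (tn (tn te (tn te (tn (tn (tn (tl 16384) te) te) te))) (tn te (tn (tn (tn (tn (tl 1) te) te) te) te))))))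

def t131 : Tr ℕ := (tn (tn (tn (tn (tn (tn (tn (tn (tn (tl 1180663678311449264128) te) te) te) (tn (tn (tn (tl 2) te) te) te)) (tn (tn (tn (tn (tl 8796093038592) te) te) te) te)) (tn te (tn (tn (tn te (tn (tl 1) te)) te) (tn (tn (tn (tl 32770) te) te) te)))) (tn (tn (tn (tn (tn (tn (tl 1) te) te) te) te) (tn (tn (tn te (tn (tl 2) te)) te) te)) te)) (tn (tn te (tn (tn (tn (tn (tn (tl 16384) te) te) te) te) (tn (tn (tn te (tn (tl 1) te)) te) te))) (tn (tn te (tn (tn (tn te (tn (tl 1) te)) te) te)) (tn te (tn (tn (tn (tn (tl 1) te) te) te) te))))) (tn (tn (tn te (tn te (tn te (tn (tn (tn (tl 16385) te) te) te)))) (tn (tn te (tn (tn (tn te (tn (tl 1) te)) te) te)) te)) (tn (tn (tn (tn (tn (tn (tn (tl 316951335683357080500119306242) te) te) te) te) te) (tn (tn (tn (tn (tn (tl 4398314979330) te) te) te) te) te)) (tn (tn te (tn te (tn (tn (tn (tl 1) te) te) te))) (tn te (tn (tn (tn (tn (tl 2) te) te) te) te))))))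

def t132 : Tr ℕ := (tn (tn (tn (tn (tn (tn (tn (tn (tn (tl 1180735744702117085185) te) te) te) (tn (tn (tn (tl 1) te) te) te)) te) (tn te (tn (tn (tn te (tn (tl 1) te)) te) (tn (tn (tn (tl 16385) te) te) te)))) (tn (tn (tn (tn (tn (tn (tl 2) te) te) te) te) (tn (tn (tn te (tn (tl 1) te)) te) te)) te)) (tn (tn te (tn (tn (tn (tn (tn (tl 144123984705748994) te) te) te) te) (tn (tn (tn te (tn (tl 2) te)) te) te))) (tn (tn te (tn (tn (tn te (tn (tl 2) te)) te) te)) (tn te (tn (tn (tn (tn (tl 2) te) te) te) te))))) (tn (tn te (tn (tn te (tn (tn (tn te (tn (tl 1) te)) te) te)) te)) (tn (tn (tn (tn (tn (tn (tn (tl 5192930683837302926477077549940738) te) te) te) te) te) te) (tn (tn te (tn te (tn (tn (tn (tl 16384) te) te) te))) (tn te (tn (tn (tn (tn (tl 2) te) te) te) te))))))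

def t133 : Tr ℕ := (tn (tn (tn (tn (tn (tn (tn (tn (tn (tl 72061992084471809) te) te) te) (tn (tn (tn (tl 2) te) te) te)) (tn (tn (tn (tn (tl 16386) te) te) te) te)) (tn te (tn (tn (tn te (tn (tl 1) te)) te) (tn (tn (tn (tl 32770) te) te) te)))) (tn (tn (tn (tn (tn (tn (tl 1) te) te) te) te) (tn (tn (tn te (tn (tl 2) te)) te) te)) te)) (tn (tn te (tn (tn (tn (tn (tn (tl 72057594306363394) te) te) te) te) (tn (tn (tn te (tn (tl 1) te)) te) te))) (tn (tn te (tn (tn (tn te (tn (tl 1) te)) te) te)) (tn te (tn (tn (tn (tn (tl 1) te) te) te) te))))) (tn (tn te (tn (tn te (tn (tn (tn te (tn (tl 1) te)) te) te)) te)) (tn (tn (tn (tn (tn (tn (tn (tl 12260338517019587541189845628960866735156923859371835393) te) te) te) te) te) te) (tn (tn te (tn te (tn (tn (tn (tl 32770) te) te) te))) (tn te (tn (tn (tn (tn (tl 2) te) te) te) te))))))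

def t134 : Tr ℕ := (tn (tn (tn (tn (tn (tn (tn (tn (tn (tl 144119586659237888) te) te) te) te) (tn (tn (tn (tn (tl 536870914) te) te) te) te)) (tn te (tn te (tn (tn (tn (tl 1) te) te) te)))) te) (tn (tn te (tn (tn (tn (tn (tn (tl 72061992352874496) te) te) te) te) (tn (tn (tn te (tn (tl 2) te)) te) te))) (tn (tn te (tn (tn (tn te (tn (tl 2) te)) te) te)) (tn te (tn (tn (tn (tn (tl 1) te) te) te) te))))) (tn (tn (tn te (tn te (tn te (tn (tn (tn (tl 32769) te) te) te)))) (tn (tn te (tn (tn (tn te (tn (tl 1) te)) te) te)) te)) (tn (tn (tn (tn (tn (tn (tn (tl 1393796574908163946345982392040522594123776) te) te) te) te) te) (tn (tn (tn (tn (tn (tl 144115188344291330) te) te) te) te) (tn (tn (tn te (tn (tl 1) te)) te) te))) (tn (tn te (tn (tn (tn te (tn (tl 2) te)) te) (tn (tn (tn (tl 16384) te) te) te))) (tn te (tn (tn (tn (tn (tl 2) te) te) te) te))))))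

def t135 : Tr ℕ := (tn (tn (tn (tn (tn (tn (tn (tn (tn (tl 2361327361020944973825) te) te) te) te) (tn (tn (tn (tn (tl 268451842) te) te) te) te)) (tn te (tn (tn (tn te (tn (tl 1) te)) te) (tn (tn (tn (tl 16386) te) te) te)))) (tn (tn (tn (tn (tn (tn (tl 2) te) te) te) te) (tn (tn (tn te (tn (tl 2) te)) te) te)) te)) (tn (tn te (tn (tn (tn (tn (tn (tl 144115188612759554) te) te) te) te) te)) (tn te (tn te (tn (tn (tn (tn (tl 1) te) te) te) te))))) (tn (tn (tn te (tn te (tn (tn (tn te (tn (tl 1) te)) te) (tn (tn (tn (tl 32769) te) te) te)))) (tn (tn te (tn (tn (tn te (tn (tl 2) te)) te) te)) te)) (tn (tn (tn (tn (tn (tn (tn (tl 22835963083295358096932575511191922182123945984) te) te) te) te) te) (tn (tn (tn (tn (tn (tl 72061992084471810) te) te) te) te) te)) (tn (tn te (tn (tn (tn te (tn (tl 1) te)) te) (tn (tn (tn (tl 16384) te) te) te))) (tn te (tn (tn (tn (tn (tl 2) te) te) te) te))))))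

def t136 : Tr ℕ := (tn (tn (tn (tn (tn (tn (tn (tn (tn (tl 2361183241435359494145) te) te) te) (tn (tn (tn (tl 1) te) te) te)) (tn (tn (tn (tn (tl 268468226) te) te) te) te)) (tn te (tn (tn (tn te (tn (tl 1) te)) te) (tn (tn (tn (tl 32770) te) te) te)))) (tn (tn (tn (tn (tn (tn (tl 2) te) te) te) te) te) te)) (tn (tn te (tn (tn (tn (tn (tn (tl 268435456) te) te) te) te) te)) (tn (tn te (tn (tn (tn te (tn (tl 1) te)) te) te)) te))) (tn (tn (tn (tn (tn te (tn (tn (tn (tl 2) te) te) te)) te) (tn te (tn te (tn (tn (tn (tl 2) te) te) te)))) te) (tn (tn (tn (tn (tn (tn (tn (tl 374144419156711147060143317175368453031918731001856) te) te) te) te) te) (tn (tn (tn (tn (tn (tl 16386) te) te) te) te) (tn (tn (tn te (tn (tl 2) te)) te) te))) (tn (tn te (tn te (tn (tn (tn (tl 32769) te) te) te))) (tn te (tn (tn (tn (tn (tl 1) te) te) te) te))))))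

def t137 : Tr ℕ := (tn (tn (tn (tn (tn (tn (tn (tn (tn (tl 2361255307825221992448) te) te) te) te) (tn (tn (tn (tn (tl 4398046543873) te) te) te) te)) (tn te (tn (tn (tn te (tn (tl 2) te)) te) (tn (tn (tn (tl 2) te) te) te)))) (tn (tn (tn (tn (tn (tn (tl 2) te) te) te) te) (tn (tn (tn te (tn (tl 1) te)) te) te)) te)) (tn (tn te (tn (tn (tn (tn (tn (tl 8796629909504) te) te) te) te) te)) (tn te (tn te (tn (tn (tn (tn (tl 2) te) te) te) te))))) (tn (tn (tn (tn (tn te (tn (tn (tn (tl 1) te) te) te)) te) (tn te (tn (tn (tn te (tn (tl 2) te)) te) (tn (tn (tn (tl 16386) te) te) te)))) (tn (tn te (tn (tn (tn te (tn (tl 1) te)) te) te)) te)) (tn (tn (tn (tn (tn (tn (tn (tl 6130730452301868940808485353031917100446008295745929216) te) te) te) te) te) (tn (tn (tn (tn (tn (tl 72061992352890882) te) te) te) te) (tn (tn (tn te (tn (tl 2) te)) te) te))) (tn (tn te (tn (tn (tn te (tn (tl 2) te)) te) (tn (tn (tn (tl 32769) te) te) te))) (tn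 te (tn (tn (tn (tn (tl 2) te) te) te) te))))))

def t138 : Tr ℕ := (tn (tn (tn (tn (tn (tn (tn (tn (tn (tl 2361327356623166914560) te) te) te) (tn (tn (tn (tl 1) te) te) te)) (tn (tn (tn (tn (tl 268451841) te) te) te) te)) (tn te (tn te (tn (tn (tn (tl 32769) te) te) te)))) (tn (tn te (tn (tn (tn te (tn (tl 1) te)) te) te)) te)) (tn (tn te (tn (tn (tn (tn (tn (tl 144119586122366976) te) te) te) te) (tn (tn (tn te (tn (tl 2) te)) te) te))) (tn (tn te (tn (tn (tn te (tn (tl 1) te)) te) te)) (tn te (tn (tn (tn (tn (tl 1) te) te) te) te))))) (tn (tn (tn (tn (tn te (tn (tn (tn (tl 2) te) te) te)) te) (tn te (tn (tn (tn te (tn (tl 2) te)) te) (tn (tn (tn (tl 16385) te) te) te)))) (tn (tn te (tn (tn (tn te (tn (tl 1) te)) te) te)) te)) (tn (tn (tn (tn (tn (tn (tn (tl 374144419156881293435900683629915179775699625967617) te) te) te) te) te) (tn (tn (tn (tn (tn (tl 4398314962945) te) te) te) te) (tn (tn (tn te (tn (tl 2) te)) te) te)))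 (tn (tn te (tn te (tn (tn (tn (tl 16385) te) te) te))) (tn te (tn (tn (tn (tn (tl 2) te) te) te) te))))))

def t139 : Tr ℕ := (tn (tn (tn (tn (tn (tn (tn (tn (tn (tl 72057594306396160) te) te) te) (tn (tn (tn (tl 2) te) te) te)) (tn (tn (tn (tn (tl 4398046511105) te) te) te) te)) (tn te (tn (tn (tn te (tn (tl 2) te)) te) te))) (tn (tn (tn (tn (tn (tn (tl 2) te) te) te) te) (tn (tn (tn te (tn (tl 2) te)) te) te)) te)) (tn (tn te (tn (tn (tn (tn (tn (tl 32768) te) te) te) te) te)) (tn (tn te (tn (tn (tn te (tn (tl 2) te)) te) te)) te))) (tn (tn (tn te (tn te (tn (tn (tn te (tn (tl 2) te)) te) (tn (tn (tn (tl 1) te) te) te)))) (tn (tn te (tn (tn (tn te (tn (tl 1) te)) te) te)) te)) (tn (tn (tn (tn (tn (tn (tn (tl 748334510239673955428844598104546211664847349743617) te) te) te) te) te) (tn (tn (tn (tn (tn (tl 72061992621326338) te) te) te) te) (tn (tn (tn te (tn (tl 2) te)) te) te))) (tn (tn te (tn (tn (tn te (tn (tl 2) te)) te)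 (tn (tn (tn (tl 32768) te) te) te))) te))))

def t140 : Tr ℕ := (tn (tn (tn (tn (tn (tn (tn (tn (tn (tl 1180663678311986118657) te) te) te) (tn (tn (tn (tl 1) te) te) te)) (tn (tn (tn (tn (tl 268468225) te) te) te) te)) (tn te (tn (tn (tn te (tn (tl 2) te)) te) (tn (tn (tn (tl 32769) te) te) te)))) (tn (tn te (tn (tn (tn te (tn (tl 1) te)) te) te)) te)) (tn (tn te (tn (tn (tn (tn (tn (tl 144123984168878082) te) te) te) te) (tn (tn (tn te (tn (tl 1) te)) te) te))) (tn (tn te (tn (tn (tn te (tn (tl 2) te)) te) te)) (tn te (tn (tn (tn (tn (tl 2) te) te) te) te))))) (tn (tn te (tn (tn te (tn (tn (tn te (tn (tl 2) te)) te) te)) te)) (tn (tn (tn (tn (tn (tn (tn (tl 22835963253436542191246450170251875901230825474) te) te) te) te) te) (tn (tn (tn (tn (tn (tl 72057594306379776) te) te) te) te) te)) (tn (tn te (tn (tn (tn te (tn (tl 1) te)) te) te)) te))))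

def t141 : Tr ℕ := (tn (tn (tn (tn (tn (tn (tn (tn (tn (tl 1180663687108079140866) te) te) te) (tn (tn (tn (tl 1) te) te) te)) (tn (tn (tn (tn (tl 4398583382017) te) te) te) te)) (tn te (tn (tn (tn te (tn (tl 1) te)) te) (tn (tn (tn (tl 16386) te) te) te)))) (tn (tn (tn (tn (tn (tn (tl 2) te) te) te) te) (tn (tn (tn te (tn (tl 1) te)) te) te)) te)) (tn (tn te (tn (tn (tn (tn (tn (tl 72061992084455424) te) te) te) te) (tn (tn (tn te (tn (tl 2) te)) te) te))) (tn (tn te (tn (tn (tn te (tn (tl 1) te)) te) te)) (tn te (tn (tn (tn (tn (tl 1) te) te) te) te))))) (tn (tn (tn te (tn te (tn te (tn (tn (tn (tl 32770) te) te) te)))) (tn (tn te (tn (tn (tn te (tn (tl 2) te)) te) te)) te)) (tn (tn (tn (tn (tn (tn (tn (tl 12259964326927111037018344588301424913023694450318147586) te) te) te) te) te) (tn (tn (tn (tn (tn (tl 144115188075888640) te) te) te) te) (tn (tn (tn te (tn (tl 1) te)) te) te))) (tn (tn te (tn (tn (tn te (tn (tl 1) te))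 te) (tn (tn (tn (tl 16385) te) te) te))) (tn te (tn (tn (tn (tn (tl 1) te) te) te) te))))))

def t142 : Tr ℕ := (tn (tn (tn (tn (tn (tn (tn (tn (tn (tl 144119586122383360) te) te) te) (tn (tn (tn (tl 2) te) te) te)) (tn (tn (tn (tn (tl 8796093022210) te) te) te) te)) (tn te (tn (tn (tn te (tn (tl 2) te)) te) (tn (tn (tn (tl 32770) te) te) te)))) (tn (tn te (tn (tn (tn te (tn (tl 1) te)) te) te)) te)) (tn (tn te (tn (tn (tn (tn (tn (tl 536887298) te) te) te) te) te)) (tn (tn te (tn (tn (tn te (tn (tl 1) te)) te) te)) (tn te (tn (tn (tn (tn (tl 1) te) te) te) te))))) (tn (tn (tn (tn (tn te (tn (tn (tn (tl 2) te) te) te)) te) (tn te (tn (tn (tn te (tn (tl 1) te)) te) (tn (tn (tn (tl 32770) te) te) te)))) (tn (tn te (tn (tn (tn te (tn (tl 1) te)) te) te)) te)) (tn (tn (tn (tn (tn (tn (tn (tl 374144419156881288244237650394021218449218137489408) te) te) te) te) te) (tn (tn (tn (tn (tn (tl 4398314946560) te) te) te) te) te)) (tn (tn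 te (tn te (tn (tn (tn (tl 16385) te) te) te))) (tn te (tn (tn (tn (tn (tl 2) te) te) te) te))))))

def t143 : Tr ℕ := (tn (tn (tn (tn (tn (tn (tn (tn (tn (tl 72057594037944322) te) te) te) te) (tn (tn (tn (tn (tl 4398314979328) te) te) te) te)) (tn te (tn te (tn (tn (tn (tl 32770) te) te) te)))) (tn (tn (tn (tn (tn (tn (tl 2) te) te) te) te) te) te)) (tn (tn te (tn (tn (tn (tn (tn (tl 8796629893120) te) te) te) te) (tn (tn (tn te (tn (tl 2) te)) te) te))) (tn (tn te (tn (tn (tn te (tn (tl 1) te)) te) te)) te))) (tn (tn (tn (tn (tn te (tn (tn (tn (tl 1) te) te) te)) te) (tn te (tn (tn (tn te (tn (tl 2) te)) te) (tn (tn (tn (tl 32768) te) te) te)))) (tn (tn te (tn (tn (tn te (tn (tl 2) te)) te) te)) te)) (tn (tn (tn (tn (tn (tn (tn (tl 748288841101015454321208244113537610888584804433922) te) te) te) te) te) (tn (tn (tn (tn (tn (tl 144115188075855872) te) te) te) te) (tn (tn (tn te (tn (tl 2) te)) te) te))) (tn (tn te (tn (tn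 (tn te (tn (tl 1) te)) te) (tn (tn (tn (tl 32769) te) te) te))) (tn te (tn (tn (tn (tn (tl 2) te) te) te) te))))))

def t144 : Tr ℕ := (tn (tn (tn (tn (tn (tn (tn (tn (tn (tl 1180591629513504342016) te) te) te) (tn (tn (tn (tl 2) te) te) te)) (tn (tn (tn (tn (tl 268435458) te) te) te) te)) (tn te (tn te (tn (tn (tn (tl 2) te) te) te)))) te) (tn (tn te (tn (tn (tn (tn (tn (tl 144123984705748994) te) te) te) te) te)) te)) (tn (tn (tn (tn (tn te (tn (tn (tn (tl 1) te) te) te)) te) (tn te (tn te (tn (tn (tn (tl 16385) te) te) te)))) te) (tn (tn (tn (tn (tn (tn (tn (tl 45673320133317192412017142385497761973629124608) te) te) te) te) te) (tn (tn (tn (tn (tn (tl 144119586390818818) te) te) te) te) te)) (tn (tn te (tn (tn (tn te (tn (tl 2) te)) te) (tn (tn (tn (tl 16386) te) te) te))) (tn te (tn (tn (tn (tn (tl 2) te) te) te) te))))))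

def t145 : Tr ℕ := (tn (tn (tn (tn (tn (tn (tn (tn (tn (tl 1180735735906024046593) te) te) te) (tn (tn (tn (tl 1) te) te) te)) (tn (tn (tn (tn (tl 536903682) te) te) te) te)) (tn te (tn te (tn (tn (tn (tl 16385) te) te) te)))) (tn (tn (tn (tn (tn (tn (tl 1) te) te) te) te) (tn (tn (tn te (tn (tl 1) te)) te) te)) te)) (tn (tn te (tn (tn (tn (tn (tn (tl 8796361457665) te) te) te) te) te)) (tn (tn te (tn (tn (tn te (tn (tl 1) te)) te) te)) te))) (tn (tn (tn (tn (tn te (tn (tn (tn (tl 1) te) te) te)) te) (tn te (tn te (tn (tn (tn (tl 32768) te) te) te)))) te) (tn (tn (tn (tn (tn (tn (tn (tl 45674713929886908279124295172711436551601553408) te) te) te) te) te) (tn (tn (tn (tn (tn (tl 8796361457666) te) te) te) te) te)) (tn (tn te (tn te (tn (tn (tn (tl 16385) te) te) te))) te))))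

def t146 : Tr ℕ := (tn (tn (tn (tn (tn (tn (tn (tn (tn (tl 144115188344291329) te) te) te) (tn (tn (tn (tl 2) te) te) te)) (tn (tn (tn (tn (tl 536870912) te) te) te) te)) (tn te (tn (tn (tn te (tn (tl 2) te)) te) (tn (tn (tn (tl 32769) te) te) te)))) (tn (tn (tn (tn (tn (tn (tl 2) te) te) te) te) (tn (tn (tn te (tn (tl 2) te)) te) te)) te)) (tn (tn te (tn (tn (tn (tn (tn (tl 268468225) te) te) te) te) te)) (tn te (tn te (tn (tn (tn (tn (tl 2) te) te) te) te))))) (tn (tn (tn (tn (tn te (tn (tn (tn (tl 2) te) te) te)) te) (tn te (tn te (tn (tn (tn (tl 16386) te) te) te)))) (tn (tn te (tn (tn (tn te (tn (tl 2) te)) te) te)) te)) (tn (tn (tn (tn (tn (tn (tn (tl 45673319963165624674743491055610747639799218178) te) te) te) te) te) (tn (tn (tn (tn (tn (tl 268468225) te) te) te) te) te)) (tn (tn te (tn (tn (tn te (tn (tl 1) te)) te) (tn (tn (tn (tl 32768) te) te) te))) te))))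

def t147 : Tr ℕ := (tn (tn (tn (tn (tn (tn (tn (tn (tn (tl 1180591620717679755264) te) te) te) (tn (tn (tn (tl 2) te) te) te)) te) (tn te (tn te (tn (tn (tn (tl 1) te) te) te)))) (tn (tn te (tn (tn (tn te (tn (tl 2) te)) te) te)) te)) (tn (tn te (tn (tn (tn (tn (tn (tl 4398314979330) te) te) te) te) (tn (tn (tn te (tn (tl 1) te)) te) te))) (tn (tn te (tn (tn (tn te (tn (tl 1) te)) te) te)) (tn te (tn (tn (tn (tn (tl 1) te) te) te) te))))) (tn (tn (tn (tn (tn te (tn (tn (tn (tl 2) te) te) te)) te) (tn te (tn te (tn (tn (tn (tl 16384) te) te) te)))) (tn (tn te (tn (tn (tn te (tn (tl 1) te)) te) te)) te)) (tn (tn (tn (tn (tn (tn (tn (tl 748334510239673960620507631339259581379407519973377) te) te) te) te) te) (tn (tn (tn (tn (tn (tl 72057594574831618) te) te) te) te) (tn (tn (tn te (tn (tl 1) te)) te) te))) (tn (tn te (tn te (tn (tn (tn (tl 16384) te) te) te))) (tn te (tn (tn (tn (tn (tl 2) te) te) te) te))))))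

def t148 : Tr ℕ := (tn (tn (tn (tn (tn te (tn (tn (tn te (tn (tl 2) te)) te) te)) (tn (tn (tn (tn (tn (tl 144123984437329922) te) te) te) (tn (tn (tn (tl 16385) te) te) te)) te)) (tn (tn (tn (tn (tn te (tn (tl 2) te)) te) te) (tn te (tn (tn (tn (tl 1) te) te) te))) (tn (tn (tn (tn (tn (tl 19343993777516776559493120) te) te) te) te) (tn (tn (tn (tn (tl 1) te) te) te) te)))) (tn (tn (tn (tn (tn (tn (tn (tl 2361183241435091042304) te) te) te) te) (tn te (tn (tn (tn (tl 1) te) te) te))) (tn (tn (tn (tn te (tn (tl 1) te)) te) (tn (tn (tn (tl 16385) te) te) te)) te)) (tn (tn (tn (tn (tn (tn (tl 72061992084455424) te) te) te) te) (tn te (tn (tn (tn (tl 16384) te) te) te))) (tn (tn (tn (tn (tn (tl 8796093022208) te) (tn (tl 1) te)) te) te) te)))) (tn (tn (tn (tn (tn (tn (tn (tn (tl 53919893334307409571497493729472694735382890081815619918695954907136) te) te) te) te) (tn te (tn (tn (tn (tl 16384) te) te) te))) (tn (tn (tn (tn (tn (tl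 144119586659237890) te) (tn (tl 1) te)) te) (tn (tn (tn (tl 16384) te) te) te)) te)) (tn (tn (tn (tn (tn te (tn (tl 1) te)) te) te) (tn te (tn (tn (tn (tl 32770) te) te) te))) (tn (tn (tn (tn (tn (tl 72057594574815232) te) (tn (tl 2) te)) te) te) (tn (tn (tn (tn (tl 2) te) te) te) te)))) (tn (tn (tn (tn (tn (tn (tn (tl 4398046511104) te) (tn (tl 1) te)) te) te) (tn (tn (tn te (tn (tl 1) te)) te) (tn (tn (tn (tl 16386) te) te) te))) (tn (tn (tn (tn te (tn (tl 2) te)) te) te) (tn (tn (tn (tn (tl 2) te) te) te) te))) (tn (tn (tn (tn (tn te (tn (tl 2) te)) te) (tn (tn (tn (tl 1) te) te) te)) te) (tn (tn (tn (tn (tn (tl 4398583414785) te) (tn (tl 1) te)) te) te) te)))))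

def t149 : Tr ℕ := (tn (tn (tn (tn (tn te (tn (tn (tn te (tn (tl 2) te)) te) (tn (tn (tn (tl 32770) te) te) te))) (tn (tn (tn (tn (tn (tl 144123984168910848) te) te) te) (tn (tn (tn (tl 1) te) te) te)) te)) (tn (tn (tn (tn (tn te (tn (tl 2) te)) te) te) (tn te (tn (tn (tn (tl 32770) te) te) te))) (tn (tn (tn (tn (tn (tl 38686806891346445576716288) te) te) te) te) (tn (tn (tn (tn (tl 1) te) te) te) te)))) (tn (tn (tn (tn (tn (tn (tn (tl 144115188075855872) te) (tn (tl 1) te)) te) te) (tn te (tn (tn (tn (tl 16385) te) te) te))) (tn (tn (tn (tn te (tn (tl 1) te)) te) (tn (tn (tn (tl 32770) te) te) te)) (tn (tn (tn (tn (tl 2) te) te) te) te))) (tn (tn (tn (tn (tn (tn (tl 144123984705765377) te) te) te) te) te) (tn (tn (tn (tn (tn (tl 536903681) te) (tn (tl 2) te)) te) te) te)))) (tn (tn (tn (tn (tn (tn (tn (tn (tl 3291009114642412084309938365114701009965471731267159726697218048) te) te) te) te) (tn te (tn (tn (tn (tl 32768) te)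 te) te))) (tn (tn (tn (tn (tn (tl 8796629925888) te) (tn (tl 1) te)) te) (tn (tn (tn (tl 2) te) te) te)) te)) (tn (tn (tn (tn (tn te (tn (tl 2) te)) te) te) (tn te (tn (tn (tn (tl 16386) te) te) te))) (tn (tn (tn (tn (tn (tl 2361255299029397422082) te) (tn (tl 2) te)) te) te) (tn (tn (tn (tn (tl 1) te) te) te) te)))) (tn (tn (tn (tn (tn (tn (tn (tl 19342813113834066795298816) te) (tn (tl 2) te)) te) te) (tn te (tn (tn (tn (tl 16386) te) te) te))) (tn (tn (tn (tn te (tn (tl 2) te)) te) te) (tn (tn (tn (tn (tl 1) te) te) te) te))) (tn (tn (tn (tn (tn te (tn (tl 2) te)) te) (tn (tn (tn (tl 16385) te) te) te)) te) (tn (tn (tn (tn (tn (tl 16384) te) (tn (tl 1) te)) te) te) te)))))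

def t150 : Tr ℕ := (tn (tn (tn (tn (tn te (tn (tn (tn te (tn (tl 1) te)) te) (tn (tn (tn (tl 16385) te) te) te))) (tn (tn (tn (tn (tn (tl 144119586122366976) te) te) te) (tn (tn (tn (tl 16384) te) te) te)) te)) (tn (tn (tn (tn (tn te (tn (tl 1) te)) te) te) (tn te (tn (tn (tn (tl 16384) te) te) te))) (tn (tn (tn (tn (tn (tl 19342813257958051232612354) te) (tn (tl 1) te)) te) te) (tn (tn (tn (tn (tl 2) te) te) te) te)))) (tn (tn (tn (tn (tn (tn (tn (tl 12260338494182230831455570848605291022025402039157161984) te) te) te) te) (tn te (tn (tn (tn (tl 16385) te) te) te))) (tn (tn (tn (tn te (tn (tl 2) te)) te) (tn (tn (tn (tl 32770) te) te) te)) te)) (tn (tn (tn (tn (tn (tn (tl 144115188612743169) te) (tn (tl 2) te)) te) te) (tn te (tn (tn (tn (tl 32768) te) te) te))) (tn (tn (tn (tn (tn (tl 4398583414784) te) (tn (tl 1) te)) te) te) te)))) (tn (tn (tn (tn (tn (tn (tn (tn (tl 17087896287367280777731273470079967225355280609088597909766364557720559095822299212707462132006913)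 te) te) te) te) te) (tn (tn (tn (tn (tn (tl 144115188075888641) te) (tn (tl 2) te)) te) (tn (tn (tn (tl 32770) te) te) te)) te)) (tn (tn (tn (tn (tn te (tn (tl 2) te)) te) te) (tn te (tn (tn (tn (tl 16384) te) te) te))) (tn (tn (tn (tn (tn (tl 38687987482971561034547202) te) te) te) te) (tn (tn (tn (tn (tl 1) te) te) te) te)))) (tn (tn (tn (tn (tn (tn (tn (tl 1180591625115994685440) te) (tn (tl 2) te)) te) te) (tn (tn (tn te (tn (tl 2) te)) te) te)) (tn (tn (tn (tn te (tn (tl 2) te)) te) te) (tn (tn (tn (tn (tl 1) te) te) te) te))) (tn (tn (tn (tn (tn te (tn (tl 1) te)) te) (tn (tn (tn (tl 16384) te) te) te)) te) (tn (tn (tn (tn (tn (tl 4398583382017) te) (tn (tl 2) te)) te) te) te)))))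

def t151 : Tr ℕ := (tn (tn (tn (tn (tn te (tn te (tn (tn (tn (tl 1) te) te) te))) (tn (tn (tn (tn (tn (tl 72061992352907266) te) te) te) (tn (tn (tn (tl 16386) te) te) te)) te)) (tn (tn te (tn te (tn (tn (tn (tl 16384) te) te) te))) (tn (tn (tn (tn (tn (tl 4398046527490) te) te) te) te) te))) (tn (tn (tn (tn (tn (tn (tn (tl 12260712661438744337407497502512657969525669628129345536) te) te) te) te) (tn te (tn (tn (tn (tl 32769) te) te) te))) (tn (tn te (tn (tn (tn (tl 32770) te) te) te)) te)) (tn (tn (tn (tn (tn (tn (tl 144119586122399744) te) te) te) te) te) (tn (tn (tn (tn (tn (tl 8796361457664) te) te) te) te) te)))) (tn (tn (tn (tn (tn (tn (tn (tn (tl 17087896287367280777731273470106930463031545891295349234791749297902909347181743423817796110254081) te) te) te) te) (tn te (tn (tn (tn (tl 32768) te) te) te))) (tn (tn (tn (tn (tn (tl 268435457) te) te) te) (tn (tn (tn (tl 16385) te) te) te)) te)) (tn (tn te (tn te (tn (tn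 (tn (tl 16385) te) te) te))) (tn (tn (tn (tn (tn (tl 19342813257958051501080576) te) te) te) te) te))) (tn (tn (tn (tn (tn (tn (tn (tl 19343993705459182789984256) te) te) te) te) (tn te (tn (tn (tn (tl 32769) te) te) te))) te) (tn (tn (tn te (tn (tn (tn (tl 16385) te) te) te)) te) (tn (tn (tn (tn (tn (tl 8796361490433) te) te) te) te) te)))))

def t152 : Tr ℕ := (tn (tn (tn (tn (tn te (tn (tn (tn te (tn (tl 2) te)) te) (tn (tn (tn (tl 1) te) te) te))) (tn (tn (tn (tn (tn (tl 144123984168910848) te) te) te) (tn (tn (tn (tl 1) te) te) te)) te)) (tn (tn (tn (tn (tn te (tn (tl 1) te)) te) te) (tn te (tn (tn (tn (tl 16386) te) te) te))) (tn (tn (tn (tn (tn (tl 19343993849578768643915777) te) te) te) te) (tn (tn (tn (tn (tl 1) te) te) te) te)))) (tn (tn (tn (tn (tn (tn (tn (tl 8796629893120) te) te) te) te) (tn (tn (tn te (tn (tl 1) te)) te) (tn (tn (tn (tl 1) te) te) te))) (tn (tn (tn (tn te (tn (tl 1) te)) te) (tn (tn (tn (tl 32770)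 te) te) te)) (tn (tn (tn (tn (tl 2) te) te) te) te))) (tn (tn (tn (tn (tn (tn (tl 72066390130950146) te) (tn (tl 1) te)) te) te) (tn te (tn (tn (tn (tl 16384) te) te) te))) (tn (tn (tn (tn (tn (tl 4398046543873) te) (tn (tl 2) te)) te) te) te)))) (tn (tn (tn (tn (tn (tn (tn (tn (tl 200879515496700711553612128318862527788744324135826573230080) te) te) te) te) (tn te (tn (tn (tn (tl 16385) te) te) te))) (tn (tn (tn (tn (tn (tl 72066390130982912) te) (tn (tl 2) te)) te) te) te)) (tn (tn (tn (tn (tn te (tn (tl 2) te)) te) te) (tn te (tn (tn (tn (tl 16385) te) te) te))) (tn (tn (tn (tn (tn (tl 19343993777516776559493120) te) (tn (tl 2) te)) te) te) te))) (tn (tn (tn (tn (tn (tn (tn (tl 22835963083295358096932575511191922182123945984) te) te) te) te) (tn (tn (tn te (tn (tl 1) te)) te) (tn (tn (tn (tl 32768) te) te) te))) (tn (tn (tn (tn te (tn (tl 2) te)) te) te) te)) (tn (tn (tn (tn (tn te (tn (tl 2) te)) te) (tn (tn (tn (tl 32768)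 te) te) te)) te) (tn (tn (tn (tn (tn (tl 16385) te) (tn (tl 2) te)) te) te) te)))))

def t153 : Tr ℕ := (tn (tn (tn (tn (tn te (tn (tn (tn te (tn (tl 2) te)) te) (tn (tn (tn (tl 32768) te) te) te))) (tn (tn (tn (tn (tn (tl 4398583382016) te) te) te) (tn (tn (tn (tl 32770) te) te) te)) te)) (tn (tn te (tn te (tn (tn (tn (tl 16386) te) te) te))) (tn (tn (tn (tn (tn (tl 38686806963404039077773312) te) te) te) te) te))) (tn (tn (tn (tn (tn (tn (tn (tl 6130730452301869025879076449460574484625119558997409794) te) (tn (tl 1) te)) te) te) te) (tn (tn (tn (tn te (tn (tl 1) te)) te) (tn (tn (tn (tl 1) te) te) te)) te)) (tn (tn (tn (tn (tn (tn (tl 72057594037944320) te) te) te) te) (tn te (tn (tn (tn (tl 32768) te) te) te))) (tn (tn (tn (tn (tn (tl 268451840) te) (tn (tl 2) te)) te) te) te)))) (tn (tn (tn (tn (tn (tn (tn (tn (tl 3291009114642412084309938365114701326878121788324510100873019392) te) te) te) te) (tn te (tn (tn (tn (tl 16386)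 te) te) te))) (tn (tn (tn (tn (tn (tl 4398314979329) te) (tn (tl 1) te)) te) (tn (tn (tn (tl 16385) te) te) te)) te)) (tn (tn (tn (tn (tn te (tn (tl 1) te)) te) te) (tn te (tn (tn (tn (tl 1) te) te) te))) (tn (tn (tn (tn (tn (tl 19342813113834066795315201) te) te) te) te) (tn (tn (tn (tn (tl 1) te) te) te) te)))) (tn (tn (tn (tn (tn (tn (tn (tl 85070591730253958678957485924737351680) te) (tn (tl 2) te)) te) te) (tn te (tn (tn (tn (tl 2) te) te) te))) (tn (tn (tn (tn te (tn (tl 2) te)) te) te) te)) (tn (tn (tn (tn (tn te (tn (tl 2) te)) te) (tn (tn (tn (tl 1) te) te) te)) te) (tn (tn (tn (tn (tn (tl 8796093054978) te) (tn (tl 1) te)) te) te) te)))))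

def t154 : Tr ℕ := (tn (tn (tn (tn (tn te (tn (tn (tn te (tn (tl 2) te)) te) (tn (tn (tn (tl 2) te) te) te))) (tn (tn (tn (tn (tn (tl 72066390130950145) te) te) te) te) te)) (tn (tn (tn (tn (tn te (tn (tl 2) te)) te) te) (tn te (tn (tn (tn (tl 16385) te) te) te))) (tn (tn (tn (tn (tn (tl 19342813113842863425191937) te) te) te) te) (tn (tn (tn (tn (tl 2) te) te) te) te)))) (tn (tn (tn (tn (tn (tn (tn (tl 2361183241435091042305) te) te) te) te) (tn (tn (tn te (tn (tl 2) te)) te) (tn (tn (tn (tl 1) te) te) te))) (tn (tn te (tn (tn (tn (tl 32769) te) te) te)) te)) (tn (tn (tn (tn (tn (tn (tl 268451840) te) te) te) te) (tn te (tn (tn (tn (tl 32768) te) te) te))) (tn (tn (tn (tn (tn (tl 4398583398402) te) (tn (tl 1) te)) te) te) te)))) (tn (tn (tn (tn (tn (tn (tn (tn (tl 53919893334307409571520329692555990093479822657326811840878078853120) te) te) te) te) (tn te (tn (tn (tn (tl 16386) te) te) te))) (tn (tn (tn (tn (tn (tl 72057594306396162)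 te) (tn (tl 1) te)) te) (tn (tn (tn (tl 16385) te) te) te)) te)) (tn (tn te (tn te (tn (tn (tn (tl 16385) te) te) te))) (tn (tn (tn (tn (tn (tl 4398314946560) te) (tn (tl 2) te)) te) te) te))) (tn (tn (tn (tn (tn (tn (tn (tl 1393796574908163946345982392044921177505792) te) (tn (tl 1) te)) te) te) (tn (tn (tn te (tn (tl 2) te)) te) (tn (tn (tn (tl 16385) te) te) te))) (tn (tn (tn (tn te (tn (tl 1) te)) te) te) (tn (tn (tn (tn (tl 2) te) te) te) te))) (tn (tn (tn (tn (tn te (tn (tl 2) te)) te) (tn (tn (tn (tl 16385) te) te) te)) te) (tn (tn (tn (tn (tn (tl 4398314962945) te) (tn (tl 1) te)) te) te) te)))))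

def t155 : Tr ℕ := (tn (tn (tn (tn (tn te (tn te (tn (tn (tn (tl 16385) te) te) te))) (tn (tn (tn (tn (tn (tl 144123984168878081) te) te) te) (tn (tn (tn (tl 1) te) te) te)) te)) (tn (tn te (tn te (tn (tn (tn (tl 32769) te) te) te))) (tn (tn (tn (tn (tn (tl 19342813185891661101694977) te) te) te) te) te))) (tn (tn (tn (tn (tn (tn (tn (tl 6130356353557425904326173387486125601153586805702950914) te) (tn (tl 2) te)) te) te) (tn (tn (tn te (tn (tl 2) te)) te) (tn (tn (tn (tl 16384) te) te) te))) (tn (tn (tn (tn te (tn (tl 2) te)) te) (tn (tn (tn (tl 2) te) te) te)) (tn (tn (tn (tn (tl 1) te) te) te) te))) (tn (tn (tn (tn (tn (tn (tl 72057594037944321) te) (tn (tl 1) te)) te) te) (tn te (tn (tn (tn (tl 1) te) te) te))) (tn (tn (tn (tn (tn (tl 268435456) te) (tn (tl 2) te)) te) te) te)))) (tn (tn (tn (tn (tn (tn (tn (tn (tl 200879515496700711553612133511476298973629010016697078251520) te) te) te) te) (tn (tn (tn te (tn (tl 2) te))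 te) (tn (tn (tn (tl 16385) te) te) te))) (tn (tn (tn (tn (tn (tl 144119586659237888) te) (tn (tl 2) te)) te) (tn (tn (tn (tl 32770) te) te) te)) te)) (tn (tn (tn (tn (tn te (tn (tl 2) te)) te) te) (tn te (tn (tn (tn (tl 16384) te) te) te))) (tn (tn (tn (tn (tn (tl 2361183250231184097282) te) te) te) te) (tn (tn (tn (tn (tl 1) te) te) te) te)))) (tn (tn (tn (tn (tn (tn (tn (tl 22835963168376334420903603845406469099519737856) te) (tn (tl 1) te)) te) te) (tn (tn (tn te (tn (tl 2) te)) te) (tn (tn (tn (tl 16385) te) te) te))) (tn (tn (tn (tn te (tn (tl 2) te)) te) te) (tn (tn (tn (tn (tl 1) te) te) te) te))) (tn (tn (tn te (tn (tn (tn (tl 32770) te) te) te)) te) (tn (tn (tn (tn (tn (tl 4398583382017) te) te) te) te) te)))))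

def t156 : Tr ℕ := (tn (tn (tn (tn (tn (tn (tn (tn (tn (tl 17088939281617793715169388373430696580867920342705449545544819907078539234915561951524666101202946) te) (tn (tl 2) te)) te) te) (tn te (tn (tn (tn (tl 32768) te) te) (tn (tn (tl 2) te) te)))) (tn (tn (tn (tn (tn (tl 72057594037960706) te) te) te) te) (tn (tn (tn (tn (tl 2) te) te) te) (tn te (tn (tn (tl 1) te) te))))) (tn (tn (tn te (tn (tn (tn (tl 1) te) te) te)) (tn te (tn (tn (tn (tl 16386) te) te) (tn (tn (tl 1) te) te)))) (tn (tn (tn (tn (tn (tl 72057594574831616) te) te) te) (tn (tn (tn (tl 32768) te) te) te)) (tn te (tn te (tn (tn (tl 1) te) te)))))) (tn (tn (tn (tn (tn (tn (tn (tl 7237447316060049082203301136500544554228109247215854157031981167349778628610) te) te) te) (tn (tn (tn (tl 2) te) te) te)) (tn te (tn (tn (tn (tl 1) te) te) (tn (tn (tl 2) te) te)))) (tn (tn (tn (tn (tn (tl 19343993777516776559493121) te) te) te) te) (tn te (tn te (tn (tn (tl 2) te)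 te))))) (tn (tn (tn te (tn (tn (tn (tl 16386) te) te) te)) (tn te (tn te (tn (tn (tl 1) te) te)))) (tn (tn te (tn (tn (tn (tl 2) te) te) te)) te)))) (tn (tn (tn (tn (tn (tn (tn (tn (tl 10385227561712582629715393927708672) te) (tn (tl 1) te)) te) te) (tn te (tn (tn (tn (tl 32768) te) te) (tn (tn (tl 1) te) te)))) (tn (tn (tn (tn (tn (tl 72066390667853824) te) te) te) te) (tn (tn (tn (tn (tl 1) te) te) te) te))) (tn (tn (tn (tn (tn (tn (tl 72057594037944322) te) te) te) (tn (tn (tn (tl 32770) te) te) te)) (tn te (tn (tn (tn (tl 32768) te) te) te))) (tn (tn te (tn (tn (tn (tl 16384) te) te) te)) (tn te (tn te (tn (tn (tl 1) te) te)))))) (tn (tn (tn (tn (tn (tn (tn (tl 268435458) te) te) te) (tn (tn (tn (tl 1) te) te) te)) (tn te (tn (tn (tn (tl 32768) te) te) te))) (tn (tn (tn (tn (tn (tl 19342813257949255408058368) te) te) te) (tn (tn (tn (tl 1) te) te) te)) te)) (tn (tn (tn (tn (tn (tn (tl 72061992352907266) te) te) te) te)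 (tn (tn (tn (tn (tl 1) te) te) te) (tn te (tn (tn (tl 1) te) te)))) (tn (tn (tn (tn (tn (tl 8796093038592) te) te) te) te) te)))))

def t157 : Tr ℕ := (tn (tn (tn (tn (tn (tn (tn (tn (tn (tl 279968093815219778775405179274503156553608265153558165206109939987316476780084638860542705428397588480) te) (tn (tl 1) te)) te) te) (tn te (tn (tn (tn (tl 16384) te) te) (tn (tn (tl 2) te) te)))) (tn (tn (tn (tn (tn (tl 4398046543874) te) te) te) te) (tn te (tn te (tn (tn (tl 1) te) te))))) (tn (tn (tn te (tn (tn (tn (tl 32770) te) te) te)) (tn te (tn (tn (tn (tl 2) te) te) te))) (tn (tn (tn (tn (tn (tl 4398046543874) te) te) te) (tn (tn (tn (tl 16385) te) te) te)) te))) (tn (tn (tn (tn (tn (tn (tn (tl 14474452866434010234010667269063689142990878950168936868722759106301530210304) te) te) te) (tn (tn (tn (tl 16384) te) te) te)) (tn te (tn (tn (tn (tl 32768) te) te) (tn (tn (tl 2) te) te)))) (tn (tn (tn (tn (tn (tl 38687987555024756757495809)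 te) te) te) te) (tn te (tn te (tn (tn (tl 2) te) te))))) (tn (tn te (tn te (tn te (tn (tn (tl 1) te) te)))) (tn (tn (tn (tn (tn (tl 8796629925889) te) te) te) (tn (tn (tn (tl 32768) te) te) te)) te)))) (tn (tn (tn (tn (tn (tn (tn (tn (tl 118578336826327845808423882899005170068062534310242617222993796130718831624585218) te) (tn (tl 1) te)) te) te) (tn te (tn (tn (tn (tl 32770) te) te) te))) (tn (tn (tn (tn (tn (tl 72066390130950144) te) te) te) te) (tn (tn (tn (tn (tl 1) te) te) te) (tn te (tn (tn (tl 2) te) te))))) (tn (tn (tn (tn (tn (tn (tl 72061992621309953) te) te) te) (tn (tn (tn (tl 16385) te) te) te)) (tn te (tn (tn (tn (tl 16384) te) te) (tn (tn (tl 1) te) te)))) (tn (tn (tn (tn (tn (tl 72057594306396161) te) te) te) (tn (tn (tn (tl 32768) te) te) te)) te))) (tn (tn (tn (tn (tn (tn (tn (tl 2361255299028860534785) te) te) te) (tn (tn (tn (tl 32768) te) te) te)) (tn te (tn (tn (tn (tl 16384) te) te) te))) (tn (tn (tn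 (tn (tn (tl 19345174297084297979363330) te) te) te) (tn (tn (tn (tl 2) te) te) te)) (tn te (tn te (tn (tn (tl 2) te) te))))) (tn (tn (tn (tn (tn (tn (tl 8796629893122) te) te) te) te) (tn (tn (tn (tn (tl 1) te) te) te) te)) (tn (tn (tn (tn (tn (tl 536870912) te) te) te) (tn (tn (tn (tl 16384) te) te) te)) (tn te (tn te (tn (tn (tl 2) te) te))))))))

def t158 : Tr ℕ := (tn (tn (tn (tn (tn (tn (tn (tn (tn (tl 139984046907657632418635082209385713461574950543218135576345254026317978071995417513798235848737570816) te) (tn (tl 1) te)) te) te) (tn te (tn (tn (tn (tl 32770) te) te) (tn (tn (tl 1) te) te)))) (tn (tn (tn (tn (tn (tl 72057594037960704) te) te) te) te) (tn (tn (tn (tn (tl 2) te) te) te) (tn te (tn (tn (tl 1) te) te))))) (tn (tn (tn te (tn (tn (tn (tl 1) te) te) te)) (tn te (tn (tn (tn (tl 16384) te) te) (tn (tn (tl 2) te) te)))) (tn (tn (tn (tn (tn (tl 4398046511104) te) te) te) (tn (tn (tn (tl 16384) te) te) te)) (tn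 te (tn te (tn (tn (tl 2) te) te)))))) (tn (tn (tn (tn (tn (tn (tn (tl 118571100262489238041767724301304871128249574193024601534029460211227430641238017) te) te) te) te) (tn te (tn (tn (tn (tl 32768) te) te) (tn (tn (tl 1) te) te)))) (tn (tn (tn (tn (tn (tl 72066390399385602) te) te) te) te) (tn te (tn te (tn (tn (tl 2) te) te))))) (tn (tn (tn te (tn (tn (tn (tl 32768) te) te) te)) (tn te (tn (tn (tn (tl 32770) te) te) (tn (tn (tl 1) te) te)))) (tn (tn (tn (tn (tn (tl 72061992352874497) te) te) te) (tn (tn (tn (tl 16386) te) te) te)) (tn te (tn te (tn (tn (tl 1) te) te))))))) (tn (tn (tn (tn (tn (tn (tn (tn (tl 633844642927372654401269268480) te) (tn (tl 1) te)) te) te) (tn te (tn (tn (tn (tl 32769) te) te) (tn (tn (tl 1) te) te)))) (tn (tn (tn (tn (tn (tl 4398046543872) te) te) te) te) (tn (tn (tn (tn (tl 2) te) te) te) (tn te (tn (tn (tl 2) te) te))))) (tn (tn (tn (tn (tn (tn (tl 8796629893122) te) te) te) (tn (tn (tn (tl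 16385) te) te) te)) (tn te (tn (tn (tn (tl 32769) te) te) (tn (tn (tl 1) te) te)))) (tn (tn (tn (tn (tn (tl 8796093054976) te) te) te) (tn (tn (tn (tl 2) te) te) te)) (tn te (tn te (tn (tn (tl 2) te) te)))))) (tn (tn (tn (tn (tn (tn (tn (tl 1180591620717411303426) te) te) te) (tn (tn (tn (tl 16384) te) te) te)) (tn te (tn (tn (tn (tl 32769) te) te) (tn (tn (tl 2) te) te)))) (tn (tn (tn (tn (tn (tl 19345174441199485786783746) te) te) te) (tn (tn (tn (tl 16384) te) te) te)) (tn te (tn te (tn (tn (tl 2) te) te))))) (tn (tn (tn (tn (tn (tn (tl 8796361457665) te) te) te) te) (tn (tn (tn (tn (tl 2) te) te) te) (tn te (tn (tn (tl 2) te) te)))) (tn (tn (tn (tn (tn (tl 144123984168894465) te) te) te) (tn (tn (tn (tl 16386) te) te) te)) (tn te (tn te (tn (tn (tl 1) te) te))))))))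

def t159 : Tr ℕ := (tn (tn (tn (tn (tn (tn (tn (tn (tn (tl 139984047429107015615683607838796058799775015916335027026605898323166143764040658266294611197315547136) te) te) te) te) (tn te (tn (tn (tn (tl 32770) te) te) (tn (tn (tl 1) te) te)))) (tn (tn (tn (tn (tn (tl 72061992621342720) te) te) te) te) te)) (tn (tn (tn te (tn (tn (tn (tl 16386) te) te) te)) (tn te (tn (tn (tn (tl 2) te) te) (tn (tn (tl 1) te) te)))) (tn (tn (tn (tn (tn (tl 4398583398402) te) te) te) (tn (tn (tn (tl 1) te) te) te)) (tn te (tn te (tn (tn (tl 1) te) te)))))) (tn (tn (tn (tn (tn (tn (tn (tl 118578337268012652056151953529858789502405171169496511421568318907239812024008704) te) te) te) (tn (tn (tn (tl 16386) te) te) te)) (tn te (tn (tn (tn (tl 32768) te) te) (tn (tn (tl 1) te) te)))) (tn (tn (tn (tn (tn (tl 2361183241435091042304) te) te) te) te) te)) (tn (tn (tn te (tn (tn (tn (tl 1) te) te) te)) (tn te (tn (tn (tn (tl 16385) te) te) (tn (tn (tl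 1) te) te)))) (tn (tn (tn (tn (tn (tl 4398046511104) te) te) te) te) (tn te (tn te (tn (tn (tl 1) te) te))))))) (tn (tn (tn (tn (tn (tn (tn (tn (tl 38685626227668133590597632) te) (tn (tl 1) te)) te) te) (tn te (tn (tn (tn (tl 32768) te) te) te))) (tn (tn (tn (tn (tn (tl 144115188075872256) te) te) te) te) (tn (tn (tn (tn (tl 2) te) te) te) te))) (tn (tn (tn (tn (tn (tn (tl 72057594037960704) te) te) te) (tn (tn (tn (tl 32768) te) te) te)) (tn te (tn (tn (tn (tl 32770) te) te) (tn (tn (tl 1) te) te)))) (tn (tn (tn (tn (tn (tl 72066390667853826) te) te) te) te) te))) (tn (tn (tn (tn (tn (tn (tn (tl 316912652418240591808998408193) te) te) te) te) (tn te (tn (tn (tn (tl 32770) te) te) te))) (tn (tn (tn (tn (tn (tl 19343993705463580568059905) te) te) te) (tn (tn (tn (tl 16384) te) te) te)) (tn te (tn te (tn (tn (tl 2) te) te))))) (tn (tn (tn (tn (tn (tn (tl 72061992621342722) te) te) te) te) (tn (tn (tn (tn (tl 2) te) te) te) te))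 (tn (tn (tn (tn (tn (tl 144115188344291328) te) te) te) (tn (tn (tn (tl 32768) te) te) te)) (tn te (tn te (tn (tn (tl 2) te) te))))))))

def t160 : Tr ℕ := (tn (tn (tn (tn (tn (tn (tn (tn (tn (tl 139984046907657632418635082209385713461574950543218135576345254026317978071995417513798227052644548610) te) (tn (tl 1) te)) te) te) (tn te (tn (tn (tn (tl 1) te) te) (tn (tn (tl 1) te) te)))) (tn (tn (tn (tn (tn (tl 8796629909506) te) te) te) te) (tn (tn (tn (tn (tl 2) te) te) te) (tn te (tn (tn (tl 1) te) te))))) (tn (tn (tn te (tn (tn (tn (tl 2) te) te) te)) (tn te (tn (tn (tn (tl 32768) te) te) (tn (tn (tl 2) te) te)))) (tn (tn (tn (tn (tn (tl 72057594037960704) te) te) te) (tn (tn (tn (tl 16385) te) te) te)) (tn te (tn te (tn (tn (tl 2) te) te)))))) (tn (tn (tn (tn (tn (tn (tn (tl 237149435763654820383122097652424060638877592339481624299489389925515199466471426) te) te) te) (tn (tn (tn (tl 32769) te) te) te)) (tn te (tn (tn (tn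 (tl 32770) te) te) (tn (tn (tl 1) te) te)))) (tn (tn (tn (tn (tn (tl 19345174441195087740289024) te) te) te) te) (tn te (tn te (tn (tn (tl 2) te) te))))) (tn (tn (tn te (tn (tn (tn (tl 2) te) te) te)) (tn te (tn te (tn (tn (tl 1) te) te)))) (tn (tn (tn (tn (tn (tl 536870913) te) te) te) (tn (tn (tn (tl 32769) te) te) te)) (tn te (tn te (tn (tn (tl 1) te) te))))))) (tn (tn (tn (tn (tn (tn (tn (tn (tl 14474894605160151497255962478311235270589991077998639672603195966901580759041) te) (tn (tl 1) te)) te) te) (tn te (tn (tn (tn (tl 32769) te) te) (tn (tn (tl 1) te) te)))) (tn (tn (tn (tn (tn (tl 536870913) te) te) te) te) (tn (tn (tn (tn (tl 2) te) te) te) (tn te (tn (tn (tl 2) te) te))))) (tn (tn (tn (tn (tn (tn (tl 72066390130950145) te) te) te) (tn (tn (tn (tl 32769) te) te) te)) (tn te (tn (tn (tn (tl 32769) te) te) (tn (tn (tl 1) te) te)))) (tn (tn (tn (tn (tn (tl 72066390130950144) te) te) te) (tn (tn (tn (tl 16386) te) te)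 te)) (tn te (tn te (tn (tn (tl 2) te) te)))))) (tn (tn (tn (tn (tn (tn (tn (tl 5192296858534827628530496329220098) te) te) te) (tn (tn (tn (tl 16385) te) te) te)) (tn te (tn (tn (tn (tl 16384) te) te) (tn (tn (tl 2) te) te)))) (tn (tn (tn (tn (tn (tl 19345174441190689693761538) te) te) te) (tn (tn (tn (tl 32769) te) te) te)) (tn te (tn te (tn (tn (tl 2) te) te))))) (tn (tn (tn (tn (tn (tn (tl 72057594306379776) te) te) te) te) (tn (tn (tn (tn (tl 2) te) te) te) (tn te (tn (tn (tl 2) te) te)))) (tn (tn (tn (tn (tn (tl 144123984705765378) te) te) te) (tn (tn (tn (tl 16386) te) te) te)) (tn te (tn te (tn (tn (tl 1) te) te))))))))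

def t161 : Tr ℕ := (tn (tn (tn (tn (tn (tn (tn (tn (tn (tl 279968092772225528262586326733431684040730816921308817167661604263689349851447573871738132700051030016) te) (tn (tl 1) te)) te) te) (tn te (tn (tn (tn (tl 1) te) te) (tn (tn (tl 2) te) te)))) (tn (tn (tn (tn (tn (tl 144119586122399744) te) te) te) te) (tn te (tn te (tn (tn (tl 2) te) te))))) (tn (tn te (tn te (tn (tn (tn (tl 16385) te) te) (tn (tn (tl 1) te) te)))) (tn (tn (tn (tn (tn (tl 72057594306396162) te) te) te) (tn (tn (tn (tl 1) te) te) te)) te))) (tn (tn (tn (tn (tn (tn (tn (tl 118578336826354802464081912766405543636335792227202777950525239957521903546040321) te) te) te) (tn (tn (tn (tl 32769) te) te) te)) (tn te (tn (tn (tn (tl 32769) te) te) (tn (tn (tl 2) te) te)))) (tn (tn (tn (tn (tn (tl 19345174441195087740272641) te) te) te) te) te)) (tn (tn te (tn te (tn te (tn (tn (tl 2) te) te)))) (tn (tn (tn (tn (tn (tl 4398583414785) te) te) te) (tn (tn (tn (tl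 2) te) te) te)) (tn te (tn te (tn (tn (tl 2) te) te))))))) (tn (tn (tn (tn (tn (tn (tn (tn (tl 118571099820723550308433210803217477693494658344666917872582457177627066323959808) te) (tn (tl 2) te)) te) te) (tn te (tn (tn (tn (tl 1) te) te) te))) (tn (tn (tn (tn (tn (tl 72061992621342721) te) te) te) te) (tn te (tn te (tn (tn (tl 1) te) te))))) (tn (tn (tn (tn (tn (tn (tl 144123984168910849) te) te) te) (tn (tn (tn (tl 16384) te) te) te)) (tn te (tn (tn (tn (tl 16385) te) te) (tn (tn (tl 1) te) te)))) (tn (tn (tn (tn (tn (tl 72066390130966530) te) te) te) (tn (tn (tn (tl 32768) te) te) te)) (tn te (tn te (tn (tn (tl 2) te) te)))))) (tn (tn (tn (tn (tn (tn (tn (tl 748288839707218869028450580697899889725077467430912) te) te) te) (tn (tn (tn (tl 1) te) te) te)) (tn te (tn (tn (tn (tl 32769) te) te) (tn (tn (tl 1) te) te)))) (tn (tn (tn (tn (tn (tl 19343993777521174337568768) te) te) te) (tn (tn (tn (tl 16386) te) te) te)) (tn te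 (tn te (tn (tn (tl 2) te) te))))) (tn (tn (tn (tn (tn (tn (tl 8796361474048) te) te) te) te) te) (tn (tn (tn (tn (tn (tl 4398583382016) te) te) te) (tn (tn (tn (tl 32768) te) te) te)) te)))))

def t162 : Tr ℕ := (tn (tn (tn (tn (tn (tn (tn (tn (tn (tl 139984047429107015615683607838796058799775015916335027026605898408236735494275274132138263054989164544) te) te) te) te) (tn te (tn (tn (tn (tl 1) te) te) (tn (tn (tl 2) te) te)))) (tn (tn (tn (tn (tn (tl 72066390667821058) te) te) te) te) (tn (tn (tn (tn (tl 2) te) te) te) te))) (tn (tn (tn te (tn (tn (tn (tl 1) te) te) te)) (tn te (tn (tn (tn (tl 32769) te) te) (tn (tn (tl 1) te) te)))) (tn (tn (tn (tn (tn (tl 4398046543872) te) te) te) te) (tn te (tn te (tn (tn (tl 2) te) te)))))) (tn (tn (tn (tn (tn (tn (tn (tl 14474894632116806954412444738360483985511886549436877979779145877071033548801) te) te) te) (tn (tn (tn (tl 2) te) te) te)) (tn te (tn (tn (tn (tl 16386) te) te) (tn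 (tn (tl 1) te) te)))) (tn (tn (tn (tn (tn (tl 1180663678311449231362) te) te) te) te) (tn te (tn te (tn (tn (tl 1) te) te))))) (tn (tn (tn te (tn (tn (tn (tl 32768) te) te) te)) (tn te (tn (tn (tn (tl 16385) te) te) (tn (tn (tl 1) te) te)))) (tn (tn (tn (tn (tn (tl 4398046511104) te) te) te) (tn (tn (tn (tl 2) te) te) te)) (tn te (tn te (tn (tn (tl 1) te) te))))))) (tn (tn (tn (tn (tn (tn (tn (tn (tl 38685626227668133859033088) te) te) te) te) (tn te (tn (tn (tn (tl 2) te) te) te))) (tn (tn (tn (tn (tn (tl 72057594574798849) te) te) te) te) (tn (tn (tn (tn (tl 2) te) te) te) te))) (tn (tn (tn (tn (tn (tn (tl 144119586659237890) te) te) te) (tn (tn (tn (tl 16384) te) te) te)) (tn te (tn (tn (tn (tl 16386) te) te) te))) (tn (tn (tn (tn (tn (tl 144123984705765376) te) te) te) te) (tn te (tn te (tn (tn (tl 2) te) te)))))) (tn (tn (tn (tn (tn (tn (tn (tl 22835963083295358096932577872375163616946552833) te) te) te) (tn (tn (tn (tl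 16384) te) te) te)) (tn te (tn (tn (tn (tl 16384) te) te) te))) (tn (tn (tn (tn (tn (tl 19342813185900457463152641) te) te) te) (tn (tn (tn (tl 32769) te) te) te)) (tn te (tn te (tn (tn (tl 2) te) te))))) (tn (tn (tn (tn (tn (tn (tl 72061992352874496) te) te) te) te) (tn (tn (tn (tn (tl 1) te) te) te) te)) (tn (tn (tn (tn (tn (tl 144115188075855872) te) te) te) te) (tn te (tn te (tn (tn (tl 2) te) te))))))))

def t163 : Tr ℕ := (tn (tn (tn (tn (tn (tn (tn (tn (tn (tl 139984046907657632418635074972821874855453999809197547883434542160253112793230476614275945169116200960) te) (tn (tl 2) te)) te) te) (tn te (tn (tn (tn (tl 16385) te) te) (tn (tn (tl 2) te) te)))) (tn (tn (tn (tn (tn (tl 72057594037960706) te) te) te) te) (tn (tn (tn (tn (tl 2) te) te) te) (tn te (tn (tn (tl 1) te) te))))) (tn (tn (tn te (tn (tn (tn (tl 16386) te) te) te)) (tn te (tn (tn (tn (tl 32769) te) te) (tn (tn (tl 1) te) te)))) (tn (tn (tn (tn (tn (tl 268451841)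 te) te) te) (tn (tn (tn (tl 16384) te) te) te)) (tn te (tn te (tn (tn (tl 1) te) te)))))) (tn (tn (tn (tn (tn (tn (tn (tl 118585573390166451929374616920715296236244618881688076208846721915435111747158018) te) te) te) te) (tn te (tn (tn (tn (tl 1) te) te) (tn (tn (tl 2) te) te)))) (tn (tn (tn (tn (tn (tl 38685626371792118027911170) te) te) te) te) te)) (tn (tn te (tn te (tn (tn (tn (tl 16386) te) te) (tn (tn (tl 1) te) te)))) (tn (tn (tn (tn (tn (tl 4398046543873) te) te) te) (tn (tn (tn (tl 32770) te) te) te)) (tn te (tn te (tn (tn (tl 2) te) te))))))) (tn (tn (tn (tn (tn (tn (tn (tn (tl 10385227561713763221336111339012096) te) te) te) te) (tn te (tn (tn (tn (tl 2) te) te) (tn (tn (tl 1) te) te)))) (tn (tn (tn (tn (tn (tl 72061992084471809) te) te) te) te) te)) (tn (tn (tn (tn (tn (tn (tl 8796629893121) te) te) te) te) (tn te (tn (tn (tn (tl 16385) te) te) (tn (tn (tl 1) te) te)))) (tn (tn (tn (tn (tn (tl 144123984705765376)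 te) te) te) (tn (tn (tn (tl 16386) te) te) te)) (tn te (tn te (tn (tn (tl 1) te) te)))))) (tn (tn (tn (tn (tn (tn (tn (tl 374144419156711147060143317175368453031918731001858) te) te) te) (tn (tn (tn (tl 32768) te) te) te)) (tn te (tn (tn (tn (tl 16385) te) te) te))) (tn (tn (tn (tn (tn (tl 19343993849569972282474497) te) te) te) te) te)) (tn (tn (tn (tn (tn (tn (tl 72057594037927936) te) te) te) te) (tn (tn (tn (tn (tl 2) te) te) te) (tn te (tn (tn (tl 1) te) te)))) (tn (tn (tn (tn (tn (tl 268451840) te) te) te) (tn (tn (tn (tl 32768) te) te) te)) (tn te (tn te (tn (tn (tl 1) te) te))))))))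

def t164 : Tr ℕ := (tn (tn (tn (tn (tn (tn (tn (tn (tn (tl 279968092772225528262586326732548260508341624756517168417290145005775607903048450018904997732995317760) te) te) te) te) (tn te (tn (tn (tn (tl 32770) te) te) (tn (tn (tl 2) te) te)))) (tn (tn (tn (tn (tn (tl 144119586122383361) te) te) te) te) te)) (tn (tn (tn te (tn (tn (tn (tl 32769) te) te) te)) (tn te (tn (tn (tn (tl 16384) te) te) (tn (tn (tl 1) te) te)))) (tn (tn (tn (tn (tn (tl 144123984168910849) te) te) te) (tn (tn (tn (tl 1) te) te) te)) te))) (tn (tn (tn (tn (tn (tn (tn (tl 14474452866432364528586090156549003894315078621550035789275203560127087001602) te) te) te) (tn (tn (tn (tl 32769) te) te) te)) (tn te (tn (tn (tn (tl 1) te) te) (tn (tn (tl 2) te) te)))) (tn (tn (tn (tn (tn (tl 19342813113838465378680832) te) te) te) te) (tn te (tn te (tn (tn (tl 1) te) te))))) (tn (tn te (tn te (tn te (tn (tn (tl 2) te) te)))) (tn (tn (tn (tn (tn (tl 144115188075872257)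 te) te) te) te) te)))) (tn (tn (tn (tn (tn (tn (tn (tn (tl 5192296897222815111506454873374720) te) te) te) te) (tn te (tn (tn (tn (tl 1) te) te) te))) (tn (tn (tn (tn (tn (tl 72057594574831616) te) te) te) te) (tn (tn (tn (tn (tl 2) te) te) te) (tn te (tn (tn (tl 1) te) te))))) (tn (tn (tn (tn (tn (tn (tl 4398583398401) te) te) te) (tn (tn (tn (tl 32769) te) te) te)) (tn te (tn (tn (tn (tl 32769) te) te) te))) (tn (tn (tn (tn (tn (tl 144119586122366976) te) te) te) (tn (tn (tn (tl 32770) te) te) te)) (tn te (tn te (tn (tn (tl 1) te) te)))))) (tn (tn (tn (tn (tn (tn (tn (tl 100433628514475730534794924891609297009555184795979425513472) te) te) te) (tn (tn (tn (tl 32769) te) te) te)) (tn te (tn te (tn (tn (tl 2) te) te)))) (tn (tn (tn (tn (tn (tl 19345174441199486055251969) te) te) te) (tn (tn (tn (tl 16385) te) te) te)) (tn te (tn te (tn (tn (tl 2) te) te))))) (tn (tn (tn (tn (tn (tn (tl 144119586390835202) te) te) te) te) te)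 (tn (tn (tn (tn (tn (tl 4398314946561) te) te) te) (tn (tn (tn (tl 16385) te) te) te)) (tn te (tn te (tn (tn (tl 1) te) te))))))))

def t165 : Tr ℕ := (tn (tn (tn (tn (tn (tn (tn (tn (tn (tl 7237005577335553223087828975127304179194488742612500724197366160221267820544) te) (tn (tl 1) te)) te) te) (tn te (tn (tn (tn (tl 1) te) te) te))) (tn (tn (tn (tn (tn (tl 144115188344307713) te) te) te) te) (tn (tn (tn (tn (tl 2) te) te) te) te))) (tn (tn (tn te (tn (tn (tn (tl 16384) te) te) te)) te) (tn (tn (tn (tn (tn (tl 8796361490433) te) te) te) (tn (tn (tn (tl 16384) te) te) te)) te))) (tn (tn (tn (tn (tn (tn (tn (tl 7237005577333907718542767733412076320963879145282536133062125583864023760897) te) te) te) (tn (tn (tn (tl 32770) te) te) te)) (tn te (tn te (tn (tn (tl 2) te) te)))) (tn (tn (tn (tn (tn (tl 38685626371783321934921728) te) te) te) te) (tn te (tn te (tn (tn (tl 2) te) te))))) (tn (tn (tn te (tn (tn (tn (tl 32770) te) te)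 te)) (tn te (tn (tn (tn (tl 32768) te) te) (tn (tn (tl 1) te) te)))) (tn (tn (tn (tn (tn (tl 72057594037960706) te) te) te) (tn (tn (tn (tl 32768) te) te) te)) (tn te (tn te (tn (tn (tl 1) te) te))))))) (tn (tn (tn (tn (tn (tn (tn (tn (tl 883450495627069297330136164319240980361155918699124424022179544813289472) te) (tn (tl 1) te)) te) te) (tn te (tn (tn (tn (tl 32770) te) te) (tn (tn (tl 2) te) te)))) (tn (tn (tn (tn (tn (tl 144119586390818816) te) te) te) te) (tn te (tn te (tn (tn (tl 1) te) te))))) (tn (tn (tn (tn (tn (tn (tl 144119586122399745) te) te) te) (tn (tn (tn (tl 32770) te) te) te)) (tn te (tn (tn (tn (tl 32769) te) te) te))) (tn (tn (tn (tn (tn (tl 144115188075855874) te) te) te) te) te))) (tn (tn (tn (tn (tn (tn (tn (tl 1645504557321206042154969182557350504982738226816821298171215873) te) te) te) (tn (tn (tn (tl 32770) te) te) te)) (tn te (tn (tn (tn (tl 16384) te) te) te))) (tn (tn (tn (tn (tn (tl 1180735740304070541314)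 te) te) te) (tn (tn (tn (tl 32769) te) te) te)) (tn te (tn te (tn (tn (tl 2) te) te))))) (tn (tn (tn (tn (tn (tn (tl 72061992084439042) te) te) te) te) (tn te (tn te (tn (tn (tl 2) te) te)))) (tn (tn (tn (tn (tn (tl 4398314979330) te) te) te) (tn (tn (tn (tl 1) te) te) te)) (tn te (tn te (tn (tn (tl 2) te) te))))))))

def t166 : Tr ℕ := (tn (tn (tn (tn (tn (tn (tn (tn (tn (tl 139984046386144595732426738905915731901886519906094780012354898756130327751238120771559997810281578496) te) te) te) te) (tn te (tn (tn (tn (tl 1) te) te) (tn (tn (tl 1) te) te)))) (tn (tn (tn (tn (tn (tl 144119586122383360) te) te) te) te) (tn (tn (tn (tn (tl 1) te) te) te) (tn te (tn (tn (tl 1) te) te))))) (tn (tn te (tn te (tn (tn (tn (tl 32768) te) te) te))) (tn (tn (tn (tn (tn (tl 8796361490432) te) te) te) (tn (tn (tn (tl 16385) te) te) te)) (tn te (tn te (tn (tn (tl 2) te) te)))))) (tn (tn (tn (tn (tn (tn (tn (tl 237156673210916958893164556707286275148465538105630832816984410831917571486269440)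 te) te) te) (tn (tn (tn (tl 32769) te) te) te)) (tn te (tn (tn (tn (tl 32768) te) te) te))) (tn (tn (tn (tn (tn (tl 38686806963404039346208769) te) te) te) te) (tn te (tn te (tn (tn (tl 2) te) te))))) (tn (tn (tn te (tn (tn (tn (tl 2) te) te) te)) (tn te (tn (tn (tn (tl 32770) te) te) (tn (tn (tl 2) te) te)))) (tn (tn (tn (tn (tn (tl 144115188612743170) te) te) te) (tn (tn (tn (tl 1) te) te) te)) te)))) (tn (tn (tn (tn (tn (tn (tn (tn (tl 118571099379038745706109269995785831316316606349465292012513231204817870153334784) te) te) te) te) (tn te (tn (tn (tn (tl 1) te) te) (tn (tn (tl 2) te) te)))) (tn (tn (tn (tn (tn (tl 536870912) te) te) te) te) te)) (tn (tn (tn (tn (tn (tn (tl 144119586122366977) te) te) te) (tn (tn (tn (tl 16384) te) te) te)) (tn te (tn (tn (tn (tl 32769) te) te) te))) (tn (tn (tn (tn (tn (tl 72066390130950144) te) te) te) (tn (tn (tn (tl 16384) te) te) te)) (tn te (tn te (tn (tn (tl 1) te) te)))))) (tn (tn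 (tn (tn (tn (tn (tn (tl 26959946667150639794667015087019630673637144422540572481103610249218) te) te) te) (tn (tn (tn (tl 32768) te) te) te)) (tn te (tn (tn (tn (tl 16386) te) te) te))) (tn (tn (tn (tn (tn (tl 19342813257958051501080577) te) te) te) (tn (tn (tn (tl 2) te) te) te)) te)) (tn (tn (tn (tn (tn (tn (tl 72057594306363393) te) te) te) te) (tn (tn (tn (tn (tl 1) te) te) te) (tn te (tn (tn (tl 1) te) te)))) (tn (tn (tn (tn (tn (tl 144115188344324098) te) te) te) (tn (tn (tn (tl 32768) te) te) te)) te)))))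

def t167 : Tr ℕ := (tn (tn (tn (tn (tn (tn (tn (tn (tn (tl 237149436205312666684283439010910751437262579385552501496280556835235723514757121) te) te) te) (tn (tn (tn (tl 16385) te) te) te)) te) (tn (tn te (tn te (tn (tn (tl 1) te) te))) te)) (tn (tn (tn (tn (tn (tn (tl 144119586659237889) te) te) te) te) te) (tn (tn te (tn (tn (tn (tl 16385) te) te) (tn (tn (tl 1) te) te))) te))) (tn (tn (tn (tn (tn (tn (tn (tl 6130356353554638481322733133833850252742685948588867585) te) te) te) te) te) (tn (tn (tn (tn (tn (tl 144119586390802434) te) te) te) (tn te (tn (tn (tl 2) te) te))) te)) (tn (tn (tn te (tn te (tn (tn (tl 2) te) te))) (tn (tn (tn (tn (tl 1) te) te) te) te)) (tn (tn (tn (tn (tn (tl 8796629893121) te) te) te) (tn (tn (tn (tl 16384) te) te) (tn (tn (tl 2) te) te))) (tn (tn (tn (tn (tl 16384) te) te) te) te))))) (tn (tn (tn (tn (tn te (tn (tn (tn (tl 32770) te) te) te)) te) (tn (tn te (tn te (tn (tn (tl 2) te) te))) te))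 (tn te (tn (tn te (tn (tn (tn (tl 1) te) te) (tn (tn (tl 1) te) te))) te))) (tn (tn (tn (tn (tn (tn (tn (tl 10384910649062525500303027935936512) te) te) te) te) te) (tn (tn (tn (tn (tn (tl 72057594574798849) te) te) te) (tn (tn (tn (tl 2) te) te) (tn (tn (tl 1) te) te))) te)) (tn (tn (tn (tn (tn (tn (tl 268451840) te) te) te) (tn te (tn (tn (tl 2) te) te))) te) (tn (tn (tn (tn (tn (tl 4398583414786) te) te) te) (tn (tn (tn (tl 1) te) te) te)) (tn (tn (tn (tn (tl 32769) te) te) te) te))))))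

def t168 : Tr ℕ := (tn (tn (tn (tn (tn (tn (tn (tn (tn (tl 237156673652628726733365636182065065679510612545645770563281943207354153499131905) te) te) te) (tn (tn (tn (tl 16385) te) te) te)) te) te) (tn (tn (tn (tn (tn (tn (tl 144115188075855873) te) te) te) te) te) (tn (tn te (tn (tn (tn (tl 1) te) te) te)) te))) (tn (tn (tn (tn (tn (tn (tn (tl 6130730475137832109164050269588730397545264732507734018) te) te) te) te) te) (tn (tn (tn (tn (tn (tl 72061992084455426) te) te) te) (tn te (tn (tn (tl 2) te) te))) te)) (tn (tn (tn te (tn te (tn (tn (tl 2) te) te))) (tn (tn (tn (tn (tl 1) te) te) te) te)) (tn (tn (tn (tn (tn (tl 8796093054976) te) te) te) (tn (tn (tn (tl 32770) te) te) te)) (tn (tn (tn (tn (tl 16384) te) te) te) te))))) (tn (tn (tn (tn (tn te (tn (tn (tn (tl 16385) te) te) te)) te) te) (tn (tn (tn te (tn te (tn (tn (tl 2) te) te))) (tn (tn (tn (tn (tl 1) te) te) te) te)) (tn (tn te (tn (tn (tn (tl 32770) te) te) te))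 te))) (tn (tn (tn (tn (tn (tn (tn (tl 4398046511104) te) te) te) te) te) (tn (tn (tn (tn (tn (tl 4398314979328) te) te) te) (tn (tn (tn (tl 32770) te) te) (tn (tn (tl 2) te) te))) te)) (tn (tn (tn (tn (tn (tn (tl 144123984705781761) te) te) te) (tn te (tn (tn (tl 1) te) te))) te) (tn (tn (tn (tn (tn (tl 268468226) te) te) te) (tn (tn (tn (tl 16385) te) te) te)) (tn (tn (tn (tn (tl 32768) te) te) te) te))))))

def t169 : Tr ℕ := (tn (tn (tn (tn (tn (tn (tn (tn (tn (tl 237142198758023571518482504200169246520546330717892879721980114859507254057517056) te) te) te) (tn (tn (tn (tl 1) te) te) te)) te) te) (tn (tn (tn (tn (tn (tn (tl 144115188344324098) te) te) te) te) te) (tn (tn te (tn (tn (tn (tl 32769) te) te) (tn (tn (tl 1) te) te))) te))) (tn (tn (tn (tn (tn (tn (tn (tl 12260712615765424374241873461633152654257282074984579073) te) te) te) te) te) (tn (tn (tn (tn (tn (tl 144115188612726786) te) te) te) (tn te (tn (tn (tl 2) te)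 te))) te)) (tn te (tn (tn (tn (tn (tn (tl 8796629925889) te) te) te) (tn (tn (tn (tl 32768) te) te) (tn (tn (tl 2) te) te))) (tn (tn (tn (tn (tl 1) te) te) te) te))))) (tn (tn (tn te (tn (tn te (tn te (tn (tn (tl 2) te) te))) te)) (tn te (tn (tn te (tn (tn (tn (tl 16386) te) te) (tn (tn (tl 1) te) te))) te))) (tn (tn (tn (tn (tn (tn (tn (tl 10384910649062525500303028204371970) te) te) te) te) te) (tn (tn (tn (tn (tn (tl 536903682) te) te) te) (tn (tn (tn (tl 16385) te) te) te)) te)) (tn (tn (tn (tn (tn (tn (tl 8796361490432) te) te) te) te) te) (tn (tn te (tn (tn (tn (tl 32768) te) te) te)) (tn (tn (tn (tn (tl 32768) te) te) te) te))))))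

def t170 : Tr ℕ := (tn (tn (tn (tn (tn (tn (tn (tn (tn (tl 14474894578196913620117295131144245440824543658104437713916678043409634574338) te) te) te) (tn (tn (tn (tl 32769) te) te) te)) te) te) (tn (tn (tn (tn (tn (tn (tl 72057594037944322) te) te) te) te) te) (tn (tn te (tn (tn (tn (tl 32769) te) te) te)) te))) (tn (tn (tn (tn (tn (tn (tn (tl 6129982209138269278244512360593695587630648944725344257) te) te) te) te) te) (tn (tn (tn (tn (tn (tl 268468224) te) te) te) te) te)) (tn te (tn (tn (tn (tn (tn (tl 4398583382017) te) te) te) (tn (tn (tn (tl 1) te) te) te)) (tn (tn (tn (tn (tl 32770) te) te) te) te))))) (tn (tn (tn (tn (tn te (tn (tn (tn (tl 16385) te) te) te)) te) te) (tn te (tn (tn te (tn (tn (tn (tl 32769) te) te) te)) te))) (tn (tn (tn (tn (tn (tn (tn (tl 10384910649062525500307426250883074) te) te) te) te) te) (tn (tn (tn (tn (tn (tl 4398583382018) te) te) te) (tn (tn (tn (tl 32769) te) te) te)) te)) (tn (tn (tn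 (tn (tn (tn (tl 72061992352890881) te) te) te) te) te) (tn (tn (tn (tn (tn (tl 268468226) te) te) te) (tn (tn (tn (tl 16384) te) te) te)) (tn (tn (tn (tn (tl 16384) te) te) te) te))))))

def t171 : Tr ℕ := (tn (tn (tn (tn (tn (tn (tn (tn (tn (tl 53919893334301279589334030174124331939004523463308171855499985158144) te) te) te) (tn (tn (tn (tl 2) te) te) te)) te) (tn (tn te (tn te (tn (tn (tl 2) te) te))) te)) (tn (tn (tn (tn (tn (tn (tl 536903680) te) te) te) te) te) (tn (tn te (tn (tn (tn (tl 32768) te) te) (tn (tn (tl 2) te) te))) te))) (tn (tn (tn (tn (tn (tn (tn (tl 6129982163466343196734772490718916893094753085551542274) te) te) te) te) te) (tn (tn (tn (tn (tn (tl 4398583398401) te) te) te) (tn te (tn (tn (tl 1) te) te))) te)) (tn (tn (tn te (tn te (tn (tn (tl 1) te) te))) te) (tn (tn (tn (tn (tn (tl 8796093038592) te) te) te) (tn te (tn (tn (tl 2) te) te))) (tn (tn (tn (tn (tl 1) te) te) te) te))))) (tn (tn (tn (tn (tn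 te (tn (tn (tn (tl 1) te) te) te)) te) (tn (tn te (tn te (tn (tn (tl 1) te) te))) te)) (tn (tn te (tn (tn (tn (tn (tl 2) te) te) te) te)) (tn (tn te (tn (tn (tn (tl 16384) te) te) (tn (tn (tl 1) te) te))) te))) (tn (tn (tn (tn (tn (tn (tn (tl 5192296858534827628530496329220096) te) te) te) te) te) (tn (tn (tn (tn (tn (tl 72066390130950145) te) te) te) (tn (tn (tn (tl 32769) te) te) te)) te)) (tn (tn (tn (tn (tn (tn (tl 72061992621326337) te) te) te) (tn te (tn (tn (tl 1) te) te))) te) (tn (tn (tn (tn (tn (tl 4398046543872) te) te) te) (tn (tn (tn (tl 32769) te) te) (tn (tn (tl 2) te) te))) (tn (tn (tn (tn (tl 32770) te) te) te) te))))))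

def t172 : Tr ℕ := (tn (tn (tn (tn (tn (tn (tn (tn (tn (tl 374144419156711147060143355860994680700052321599488) te) te) te) (tn (tn (tn (tl 16385) te) te) te)) te) te) (tn (tn (tn (tn (tn (tn (tl 8796093054976) te) te) te) te) te) (tn (tn te (tn (tn (tn (tl 16385) te) te) te)) te))) (tn (tn (tn (tn (tn (tn (tn (tl 748334510239673955428844598103365475937737687171073) te) te) te) te) te) (tn (tn (tn (tn (tn (tl 72057594574798849) te) te) te) (tn te (tn (tn (tl 2) te) te))) te)) (tn (tn (tn te (tn te (tn (tn (tl 2) te) te))) (tn (tn (tn (tn (tl 1) te) te) te) te)) (tn (tn (tn (tn (tn (tl 8796629893121) te) te) te) (tn te (tn (tn (tl 2) te) te))) te)))) (tn (tn (tn (tn (tn te (tn (tn (tn (tl 32768) te) te) te)) te) te) (tn (tn (tn te (tn te (tn (tn (tl 1) te) te))) (tn (tn (tn (tn (tl 2) te) te) te) te)) (tn (tn te (tn (tn (tn (tl 32768) te) te) (tn (tn (tl 2) te) te))) te))) (tn (tn (tn (tn (tn (tn (tn (tl 19342813113838464841809920)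 te) te) te) te) te) (tn (tn (tn (tn (tn (tl 144123984437329920) te) te) te) (tn (tn (tn (tl 16384) te) te) te)) te)) (tn (tn (tn (tn (tn (tn (tl 268451842) te) te) te) (tn te (tn (tn (tl 1) te) te))) te) (tn (tn (tn (tn (tn (tl 536870914) te) te) te) (tn te (tn (tn (tl 1) te) te))) (tn (tn (tn (tn (tl 32768) te) te) te) te))))))

def t173 : Tr ℕ := (tn (tn (tn (tn (tn (tn (tn (tn (tn (tl 441738726141263233035619042200816648587545245188627394217583402285006848) te) te) te) (tn (tn (tn (tl 32769) te) te) te)) te) te) (tn (tn (tn (tn (tn (tn (tl 144123984705765376) te) te) te) te) te) (tn (tn te (tn (tn (tn (tl 32770) te) te) (tn (tn (tl 1) te) te))) te))) (tn (tn (tn (tn (tn (tn (tn (tl 6130356307882712229651040616017014889849749450883366912) te) te) te) te) te) (tn (tn (tn (tn (tn (tl 144123984168878081) te) te) te) (tn te (tn (tn (tl 1) te) te))) te)) (tn (tn (tn te (tn te (tn (tn (tl 2) te) te))) (tn (tn (tn (tn (tl 2) te)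 te) te) te)) (tn (tn (tn (tn (tn (tl 8796629909505) te) te) te) (tn (tn (tn (tl 32768) te) te) te)) (tn (tn (tn (tn (tl 16384) te) te) te) te))))) (tn (tn (tn (tn (tn te (tn (tn (tn (tl 2) te) te) te)) te) (tn (tn te (tn te (tn (tn (tl 2) te) te))) te)) (tn (tn (tn te (tn te (tn (tn (tl 2) te) te))) (tn (tn (tn (tn (tl 2) te) te) te) te)) (tn (tn te (tn (tn (tn (tl 2) te) te) (tn (tn (tl 2) te) te))) te))) (tn (tn (tn (tn (tn (tn (tn (tl 10385227561712582557653402111737858) te) te) te) te) te) (tn (tn (tn (tn (tn (tl 72061992084455425) te) te) te) (tn (tn (tn (tl 2) te) te) te)) te)) (tn (tn (tn (tn (tn (tn (tl 144123984705781762) te) te) te) (tn te (tn (tn (tl 2) te) te))) te) (tn (tn (tn (tn (tn (tl 8796093038593) te) te) te) (tn (tn (tn (tl 16386) te) te) (tn (tn (tl 1) te) te))) (tn (tn (tn (tn (tl 2) te) te) te) te))))))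

def t174 : Tr ℕ := (tn (tn (tn (tn (tn (tn (tn (tn (tn (tl 7237447289098456910501470492099257210255567071075934143004567187243485118465) te) te) te) te) te) (tn (tn te (tn te (tn (tn (tl 2) te) te))) te)) (tn (tn (tn (tn (tn (tn (tl 72061992084471810) te) te) te) te) te) (tn (tn te (tn te (tn (tn (tl 2) te) te))) te))) (tn (tn (tn (tn (tn (tn (tn (tl 1393881655884487917375497270265751707615233) te) te) te) te) te) (tn (tn (tn (tn (tn (tl 144119586390818817) te) te) te) (tn te (tn (tn (tl 1) te) te))) te)) (tn (tn (tn te (tn te (tn (tn (tl 2) te) te))) (tn (tn (tn (tn (tl 2) te) te) te) te)) (tn (tn (tn (tn (tn (tl 8796093054977) te) te) te) (tn (tn (tn (tl 16386) te) te) (tn (tn (tl 1) te) te))) (tn (tn (tn (tn (tl 1) te) te) te) te))))) (tn (tn (tn (tn (tn te (tn (tn (tn (tl 16384) te) te) te)) te) te) (tn (tn (tn te (tn te (tn (tn (tl 2) te) te))) (tn (tn (tn (tn (tl 1) te) te) te) te)) (tn (tn te (tn te (tn (tn (tl 1) te)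 te))) te))) (tn (tn (tn (tn (tn (tn (tn (tl 5192296877880001925610395993636864) te) te) te) te) te) (tn (tn (tn (tn (tn (tl 144115188612743169) te) te) te) (tn (tn (tn (tl 32768) te) te) (tn (tn (tl 2) te) te))) te)) (tn (tn (tn (tn (tn (tn (tl 144123984437329920) te) te) te) (tn te (tn (tn (tl 1) te) te))) te) (tn (tn (tn (tn (tn (tl 4398583382018) te) te) te) (tn (tn (tn (tl 16384) te) te) (tn (tn (tl 2) te) te))) (tn (tn (tn (tn (tl 2) te) te) te) te))))))

def t175 : Tr ℕ := (tn (tn (tn (tn (tn (tn (tn (tn (tn (tl 374144420550677863152401577397190496651275889836034) te) te) te) te) te) (tn (tn te (tn (tn (tn (tl 32769) te) te) te)) te)) (tn (tn te (tn (tn (tn (tn (tl 1) te) te) te) te)) (tn (tn (tn (tn (tn (tl 144123984705748992) te) te) te) te) (tn (tn te (tn (tn (tl 1) te) te)) te)))) (tn (tn (tn (tn te (tn te (tn (tn (tl 1) te) te))) te) (tn (tn (tn (tn (tn (tl 8796093022210) te) te) te) te) te)) (tn (tn (tn (tn (tn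 (tn (tl 144119586122399744) te) te) te) (tn (tn (tn (tl 16384) te) te) te)) te) te))) (tn (tn (tn (tn (tn (tn (tn (tn (tl 237142199641501023801109397769939643190552615823402286567404155723667960802344961) te) te) te) te) te) (tn (tn te (tn (tn (tn (tl 32768) te) te) te)) te)) (tn (tn (tn (tn (tn (tn (tl 268468226) te) te) te) (tn (tn (tn (tl 1) te) te) te)) te) (tn (tn (tn (tn (tn (tl 8796093038592) te) te) te) te) (tn (tn te (tn (tn (tl 2) te) te)) te)))) (tn (tn (tn (tn (tn (tn (tn (tl 1393966721283921293455354965828387725148161) te) te) te) (tn (tn (tn (tl 16386) te) te) (tn (tn (tl 2) te) te))) te) (tn (tn (tn (tn (tn (tl 1) te) te) te) te) (tn (tn te (tn (tn (tl 2) te) te)) te))) (tn (tn (tn te (tn (tn (tn (tl 16384) te) te) te)) te) (tn te (tn (tn te (tn (tn (tl 1) te) te)) te))))))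

def t176 : Tr ℕ := (tn (tn (tn (tn (tn (tn (tn (tn (tn (tl 12260712661438744252331713158526198851446283859203735554) te) te) te) te) te) (tn (tn te (tn (tn (tn (tl 32768) te) te) te)) te)) (tn (tn (tn te (tn te (tn (tn (tl 1) te) te))) (tn (tn (tn (tn (tl 2) te) te) te) te)) (tn (tn (tn (tn (tn (tl 72066390130982912) te) te) te) te) te))) (tn (tn (tn (tn te (tn (tn (tn (tl 16386) te) te) te)) te) (tn (tn (tn (tn (tn (tl 268451842) te) te) te) te) (tn (tn te (tn (tn (tl 2) te) te)) te))) (tn (tn (tn (tn (tn (tn (tl 144119586659237888) te) te) te) te) te) (tn te (tn (tn te (tn (tn (tl 1) te) te)) te))))) (tn (tn (tn (tn (tn (tn (tn (tn (tl 118578336826327845808223009513864731565901103601939628728662107343966190901952513) te) te) te) (tn te (tn (tn (tl 2) te) te))) te) (tn (tn te (tn (tn (tn (tl 16384) te) te) te)) te)) (tn (tn (tn (tn (tn (tn (tl 72061992621309953) te) te) te) (tn (tn (tn (tl 16384) te) te) te)) te) (tn (tn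 (tn (tn (tn (tl 72066390667837442) te) te) te) te) (tn (tn te (tn (tn (tl 1) te) te)) te)))) (tn (tn (tn (tn (tn (tn (tn (tl 1393796574908163985033969947065279351635968) te) te) te) (tn (tn (tn (tl 16385) te) te) te)) (tn (tn (tn (tn (tl 1) te) te) te) te)) (tn (tn (tn (tn (tn (tl 4398583414784) te) te) te) te) (tn (tn te (tn (tn (tl 1) te) te)) te))) (tn (tn (tn te (tn (tn (tn (tl 16385) te) te) te)) te) (tn te (tn (tn te (tn (tn (tl 1) te) te)) te))))))

def t177 : Tr ℕ := (tn (tn (tn (tn (tn (tn (tn (tn (tn (tl 1393796585293391527402558583091115142938625) te) te) te) (tn te (tn (tn (tl 1) te) te))) te) (tn (tn te (tn (tn (tn (tl 16384) te) te) te)) te)) (tn (tn (tn te (tn (tn (tn (tl 32768) te) te) (tn (tn (tl 1) te) te))) te) (tn (tn (tn (tn (tn (tl 72061992621326338) te) te) te) te) (tn (tn te (tn (tn (tl 2) te) te)) te)))) (tn (tn (tn (tn te (tn te (tn (tn (tl 1) te) te))) te) (tn (tn (tn (tn (tn (tl 16385) te) te) te)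 (tn (tn (tn (tl 32770) te) te) te)) te)) (tn (tn (tn (tn (tn (tn (tl 8796093038594) te) te) te) (tn (tn (tn (tl 16384) te) te) te)) te) (tn te (tn (tn te (tn (tn (tl 1) te) te)) te))))) (tn (tn (tn (tn (tn (tn (tn (tn (tl 7237447316058403678079608444934120119840476788003275122296997250839378673665) te) te) te) (tn te (tn (tn (tl 2) te) te))) te) (tn (tn te (tn (tn (tn (tl 32770) te) te) te)) te)) (tn (tn (tn (tn (tn (tn (tl 72066390399385601) te) te) te) (tn (tn (tn (tl 16385) te) te) te)) te) (tn (tn (tn (tn (tn (tl 144123984168894465) te) te) te) te) (tn (tn te (tn (tn (tl 2) te) te)) te)))) (tn (tn (tn (tn (tn (tn (tn (tl 170151568371118295437851293851630714882) te) te) te) (tn te (tn (tn (tl 1) te) te))) te) (tn (tn (tn (tn (tn (tl 8796361474048) te) te) te) te) te)) (tn (tn (tn te (tn (tn (tn (tl 1) te) te) te)) te) te))))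

def t178 : Tr ℕ := (tn (tn (tn (tn (tn (tn (tn (tn (tn (tl 6130356307884105941155356732796750955635337355736416257) te) te) te) (tn te (tn (tn (tl 2) te) te))) te) (tn (tn te (tn (tn (tn (tl 2) te) te) te)) te)) (tn (tn (tn te (tn (tn (tn (tl 32770) te) te) (tn (tn (tl 1) te) te))) (tn (tn (tn (tn (tl 1) te) te) te) te)) (tn (tn (tn (tn (tn (tl 144115188075872257) te) te) te) te) (tn (tn te (tn (tn (tl 1) te) te)) te)))) (tn (tn (tn (tn te (tn (tn (tn (tl 16386) te) te) te)) te) (tn (tn (tn (tn (tn (tl 268468224) te) te) te) (tn (tn (tn (tl 16385) te) te) te)) te)) (tn (tn (tn (tn (tn (tn (tl 72066390399385602) te) te) te) (tn (tn (tn (tl 32770) te) te) te)) te) (tn te (tn (tn te (tn (tn (tl 1) te) te)) te))))) (tn (tn (tn (tn (tn (tn (tn (tn (tl 118585573831932136371700009646782631985801020764723719967412002410479924524630018) te) te) te) (tn te (tn (tn (tl 1) te) te))) te) (tn (tn te (tn (tn (tn (tl 32769) te) te) te)) te))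 (tn (tn (tn (tn (tn (tn (tl 72057594574815232) te) te) te) (tn (tn (tn (tl 32768) te) te) te)) te) (tn (tn (tn (tn (tn (tl 144115188344291328) te) te) te) te) (tn (tn te (tn (tn (tl 2) te) te)) te)))) (tn (tn (tn (tn (tn (tn (tn (tl 85075784660957138795069854663388954625) te) te) te) (tn (tn (tn (tl 16384) te) te) (tn (tn (tl 2) te) te))) te) (tn (tn (tn (tn (tn (tl 32768) te) te) te) te) (tn (tn te (tn (tn (tl 2) te) te)) te))) (tn te (tn te (tn (tn te (tn (tn (tl 2) te) te)) te))))))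

def t179 : Tr ℕ := (tn (tn (tn (tn (tn (tn (tn (tn (tn (tl 6130356307885499822811240903801475215112516827512569857) te) te) te) (tn te (tn (tn (tl 1) te) te))) te) (tn (tn te (tn (tn (tn (tl 32770) te) te) te)) te)) (tn (tn (tn te (tn (tn (tn (tl 16384) te) te) (tn (tn (tl 1) te) te))) te) (tn (tn (tn (tn (tn (tl 8796361457664) te) te) te) te) (tn (tn te (tn (tn (tl 2) te) te)) te)))) (tn (tn (tn (tn te (tn (tn (tn (tl 16384) te) te) (tn (tn (tl 1) te) te))) te) (tn (tn (tn (tn (tn (tl 4398314946562) te) te) te) (tn (tn (tn (tl 16385) te) te) te)) te)) (tn (tn (tn (tn (tn (tn (tl 72057594306396160) te) te) te) (tn (tn (tn (tl 32768) te) te) te)) te) (tn te (tn (tn te (tn (tn (tl 1) te) te)) te))))) (tn (tn (tn (tn (tn (tn (tn (tn (tl 14474894578198559124680745945228279377931026810183739053975585211122312036354) te) te) te) (tn te (tn (tn (tl 2) te) te))) te) (tn (tn te (tn (tn (tn (tl 16384) te) te) te)) te)) (tn (tn (tn (tn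 (tn (tn (tl 72066390399401984) te) te) te) (tn (tn (tn (tl 2) te) te) te)) te) (tn (tn (tn (tn (tn (tl 4398314979329) te) te) te) te) (tn (tn te (tn (tn (tl 2) te) te)) te)))) (tn (tn (tn (tn (tn (tn (tn (tl 316931995231354425876330594304) te) te) te) (tn (tn (tn (tl 1) te) te) (tn (tn (tl 1) te) te))) te) (tn (tn (tn (tn (tn (tl 4398583414786) te) te) te) te) te)) (tn (tn (tn te (tn (tn (tn (tl 32770) te) te) te)) te) te))))

def t180 : Tr ℕ := (tn (tn (tn (tn (tn (tn (tn (tn (tn (tl 6129982186300912398379439030398609035717859890381717505) te) te) te) (tn te (tn (tn (tl 2) te) te))) te) (tn (tn te (tn (tn (tn (tl 16386) te) te) te)) te)) (tn (tn (tn te (tn (tn (tn (tl 32768) te) te) te)) te) (tn (tn (tn (tn (tn (tl 4398583398401) te) te) te) te) (tn (tn te (tn (tn (tl 1) te) te)) te)))) (tn (tn (tn (tn te (tn (tn (tn (tl 32770) te) te) (tn (tn (tl 1) te) te))) te) (tn (tn (tn (tn (tn (tl 4398046511104) te) te) te) te) (tn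 (tn te (tn (tn (tl 2) te) te)) te))) (tn (tn (tn (tn (tn (tn (tl 8796093022210) te) te) te) (tn (tn (tn (tl 16384) te) te) te)) te) (tn te (tn (tn te (tn (tn (tl 2) te) te)) te))))) (tn (tn (tn (tn (tn (tn (tn (tn (tl 118585573831932138017104139469830506294341349557731962163046894142365776442589186) te) te) te) te) te) (tn (tn te (tn (tn (tn (tl 32769) te) te) te)) te)) (tn (tn (tn (tn (tn (tn (tl 72061992352874496) te) te) te) (tn (tn (tn (tl 16386) te) te) te)) te) (tn (tn (tn (tn (tn (tl 144119586659254272) te) te) te) te) (tn (tn te (tn (tn (tl 1) te) te)) te)))) (tn (tn (tn (tn (tn (tn (tn (tl 170151568054224989374355283073317208066) te) te) te) (tn (tn (tn (tl 32769) te) te) (tn (tn (tl 2) te) te))) te) (tn (tn (tn (tn (tn (tl 268451841) te) te) te) te) (tn (tn te (tn (tn (tl 1) te) te)) te))) (tn (tn (tn te (tn (tn (tn (tl 16384) te) te) te)) te) (tn te (tn (tn te (tn (tn (tl 2) te) te)) te))))))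

def t181 : Tr ℕ := (tn (tn (tn (tn (tn (tn (tn (tn (tn (tl 374167256513591022519017967282927386553805940211712) te) te) te) (tn te (tn (tn (tl 2) te) te))) te) (tn (tn te (tn (tn (tn (tl 16386) te) te) te)) te)) (tn (tn (tn te (tn (tn (tn (tl 32769) te) te) (tn (tn (tl 1) te) te))) (tn (tn (tn (tn (tl 1) te) te) te) te)) (tn (tn (tn (tn (tn (tl 144119586122399745) te) te) te) te) (tn (tn te (tn (tn (tl 1) te) te)) te)))) (tn (tn (tn (tn te (tn (tn (tn (tl 16386) te) te) te)) te) (tn (tn (tn (tn (tn (tl 536903682) te) te) te) (tn (tn (tn (tl 32768) te) te) te)) (tn (tn te (tn (tn (tl 1) te) te)) te))) (tn te (tn te (tn (tn te (tn (tn (tl 1) te) te)) te))))) (tn (tn (tn (tn (tn (tn (tn (tn (tl 118578336826327842517414774386949393642230110345705409331752452311806707555663872) te) te) te) te) te) (tn (tn te (tn (tn (tn (tl 16386) te) te) te)) te)) (tn (tn (tn (tn (tn (tn (tl 144119586390818818) te) te) te) (tn (tn (tn (tl 32770)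 te) te) te)) te) (tn (tn (tn (tn (tn (tl 72057594306396162) te) te) te) te) (tn (tn te (tn (tn (tl 1) te) te)) te)))) (tn (tn (tn (tn (tn (tn (tn (tl 85075784660957136433886613228566380545) te) te) te) (tn (tn (tn (tl 16386) te) te) te)) (tn (tn (tn (tn (tl 1) te) te) te) te)) (tn (tn (tn (tn (tn (tl 536887298) te) te) te) te) (tn (tn te (tn (tn (tl 2) te) te)) te))) (tn te (tn te (tn (tn te (tn (tn (tl 2) te) te)) te))))))

def t182 : Tr ℕ := (tn (tn (tn (tn (tn (tn (tn (tn (tn (tl 374144421944304302068768087746154715217831114342402) te) te) te) (tn te (tn (tn (tl 2) te) te))) te) (tn (tn te (tn (tn (tn (tl 32769) te) te) te)) te)) (tn (tn (tn te (tn (tn (tn (tl 1) te) te) (tn (tn (tl 2) te) te))) (tn (tn (tn (tn (tl 2) te) te) te) te)) (tn (tn (tn (tn (tn (tl 144115188612743169) te) te) te) te) (tn (tn te (tn (tn (tl 1) te) te)) te)))) (tn (tn (tn (tn te (tn (tn (tn (tl 16384) te) te) te)) te) (tn (tn (tn (tn (tn (tl 4398046511104)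 te) te) te) (tn (tn (tn (tl 2) te) te) te)) te)) (tn (tn (tn (tn (tn (tn (tl 8796361490433) te) te) te) (tn (tn (tn (tl 32770) te) te) te)) te) (tn te (tn (tn te (tn (tn (tl 1) te) te)) te))))) (tn (tn (tn (tn (tn (tn (tn (tn (tl 7237447316058403678073478088626234620187817115470572598525958511087205761025) te) te) te) (tn te (tn (tn (tl 1) te) te))) te) (tn (tn te (tn (tn (tn (tl 16384) te) te) te)) te)) (tn (tn (tn (tn (tn (tn (tl 72061992621342721) te) te) te) (tn (tn (tn (tl 16384) te) te) te)) te) (tn (tn (tn (tn (tn (tl 72066390667853824) te) te) te) te) te))) (tn (tn (tn (tn (tn (tn (tn (tl 316951338044468259942857457664) te) te) te) (tn (tn (tn (tl 16386) te) te) (tn (tn (tl 1) te) te))) te) (tn (tn (tn (tn (tn (tl 8796361457664) te) te) te) te) (tn (tn te (tn (tn (tl 2) te) te)) te))) (tn (tn (tn te (tn (tn (tn (tl 1) te) te) te)) te) (tn te (tn (tn te (tn (tn (tl 2) te) te)) te))))))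

def t183 : Tr ℕ := (tn (tn (tn (tn (tn (tn (tn (tn (tn (tl 12260338494182230746390171098355245553124713624766545922) te) te) te) (tn te (tn (tn (tl 1) te) te))) te) (tn (tn te (tn (tn (tn (tl 16384) te) te) te)) te)) (tn (tn (tn te (tn (tn (tn (tl 32770) te) te) (tn (tn (tl 1) te) te))) (tn (tn (tn (tn (tl 1) te) te) te) te)) (tn (tn (tn (tn (tn (tl 144115188075872257) te) te) te) te) (tn (tn te (tn (tn (tl 1) te) te)) te)))) (tn (tn (tn (tn te (tn (tn (tn (tl 32768) te) te) te)) te) (tn (tn (tn (tn (tn (tl 4398046543874) te) te) te) (tn (tn (tn (tl 16384) te) te) te)) (tn (tn te (tn (tn (tl 2) te) te)) te))) (tn (tn (tn (tn (tn (tn (tl 8796361474050) te) te) te) (tn (tn (tn (tl 1) te) te) te)) te) te))) (tn (tn (tn (tn (tn (tn (tn (tn (tl 14474452866432364528586090156549003894315078621550035789275203560127087001602) te) te) te) (tn te (tn (tn (tl 1) te) te))) te) (tn (tn te (tn (tn (tn (tl 1) te) te) te)) te)) (tn (tn (tn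 te (tn (tn (tn (tl 32770) te) te) te)) te) (tn (tn (tn (tn (tn (tl 144123984168910849) te) te) te) te) (tn (tn te (tn (tn (tl 2) te) te)) te)))) (tn (tn (tn (tn (tn (tn (tn (tl 170141183460507919719242337268734623746) te) te) te) (tn (tn (tn (tl 32770) te) te) (tn (tn (tl 2) te) te))) (tn (tn (tn (tn (tl 1) te) te) te) te)) (tn (tn (tn (tn (tn (tl 16384) te) te) te) te) (tn (tn te (tn (tn (tl 1) te) te)) te))) (tn (tn (tn te (tn (tn (tn (tl 32770) te) te) te)) te) (tn te (tn (tn te (tn (tn (tl 1) te) te)) te))))))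

def t184 : Tr ℕ := (tn (tn (tn (tn (tn (tn (tn (tn (tn (tl 316912650057201465562251657216) te) te) te) (tn te (tn (tn (tl 1) te) te))) te) te) (tn (tn (tn te (tn te (tn (tn (tl 1) te) te))) (tn (tn (tn (tn (tl 2) te) te) te) te)) (tn (tn (tn (tn (tn (tl 72057594037960706) te) te) te) te) te))) (tn (tn (tn (tn te (tn (tn (tn (tl 32768) te) te) (tn (tn (tl 1) te) te))) te) (tn (tn (tn (tn (tn (tl 268468225) te) te) te) (tn (tn (tn (tl 32770) te) te) te)) te)) (tn (tn (tn (tn (tn (tn (tl 72061992621309953) te) te) te) (tn (tn (tn (tl 16385) te) te) te)) te) (tn te (tn (tn te (tn (tn (tl 2) te) te)) te))))) (tn (tn (tn (tn (tn (tn (tn (tn (tl 7237005577333907718542768107556495477675026205425853308430578615782754746369) te) te) te) te) te) te) (tn (tn (tn (tn (tn (tn (tl 144119586390818816) te) te) te) (tn (tn (tn (tl 16386) te) te) te)) te) (tn (tn (tn (tn (tn (tl 144123984705765377) te) te) te) te) te))) (tn (tn (tn (tn (tn (tn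 (tn (tl 170146376391191754660913506521331040257) te) te) te) (tn (tn (tn (tl 16384) te) te) (tn (tn (tl 2) te) te))) (tn (tn (tn (tn (tl 1) te) te) te) te)) (tn (tn (tn (tn (tn (tl 8796093038593) te) te) te) te) (tn (tn te (tn (tn (tl 1) te) te)) te))) (tn (tn (tn te (tn (tn (tn (tl 32770) te) te) te)) te) (tn te (tn (tn te (tn (tn (tl 1) te) te)) te))))))

def t185 : Tr ℕ := (tn (tn (tn (tn (tn (tn (tn (tn (tn (tl 6130730497975188989039509144238839137070416132147527681) te) te) te) te) te) (tn (tn te (tn (tn (tn (tl 2) te) te) te)) te)) (tn (tn (tn te (tn (tn (tn (tl 2) te) te) (tn (tn (tl 1) te) te))) (tn (tn (tn (tn (tl 2) te) te) te) te)) (tn (tn (tn (tn (tn (tl 144123984705748994) te) te) te) te) te))) (tn (tn (tn (tn te (tn (tn (tn (tl 16386) te) te) (tn (tn (tl 1) te) te))) te) (tn (tn (tn (tn (tn (tl 8796093054976) te) te) te) (tn (tn (tn (tl 16385) te) te) te)) (tn (tn te (tn (tn (tl 1) te) te)) te))) (tn (tn (tn (tn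 (tn (tn (tl 144123984437346306) te) te) te) (tn (tn (tn (tl 16384) te) te) te)) te) te))) (tn (tn (tn (tn (tn (tn (tn (tn (tl 237156673210916960538669114028492317303434720662981337799719095873876717423575040) te) te) te) te) te) (tn (tn te (tn (tn (tn (tl 16384) te) te) te)) te)) (tn (tn (tn (tn (tn (tn (tl 72057594574798850) te) te) te) (tn (tn (tn (tl 32769) te) te) te)) te) (tn (tn (tn (tn (tn (tl 536903682) te) te) te) te) te))) (tn (tn (tn (tn (tn (tn (tn (tl 1393796574908480878341213746466398656282624) te) te) te) (tn (tn (tn (tl 16385) te) te) te)) te) (tn (tn (tn (tn (tn (tl 8796093022209) te) te) te) te) te)) (tn (tn (tn te (tn (tn (tn (tl 1) te) te) te)) te) (tn te (tn (tn te (tn (tn (tl 2) te) te)) te))))))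

def t186 : Tr ℕ := (tn (tn (tn (tn (tn (tn (tn (tn (tn (tl 14474452866430719124474657055165084626575081461833757434584318745034505601025) te) te) te) (tn (tn (tn (tl 32769) te) te) te)) (tn (tn te (tn (tn (tl 2) te) te)) te)) te) (tn (tn (tn (tn (tn (tn (tl 268435458) te) te) te) (tn (tn (tn (tl 32770) te) te) te)) te) (tn (tn (tn (tn (tn (tl 268435456) te) te) te) te) te))) (tn (tn (tn (tn te (tn (tn (tn (tl 1) te) te) te)) (tn (tn (tn (tn (tl 1) te) te) (tn (tn (tl 1) te) te)) te)) (tn (tn (tn (tn (tn (tl 72061992084471810) te) te) te) te) te)) (tn (tn (tn te (tn (tn (tn (tl 32770) te) te) te)) te) (tn te (tn (tn (tn (tn (tl 32768) te) te) te) te))))) (tn (tn (tn (tn (tn (tn (tn (tn (tl 12260338517019587626250052448565762888758226342564102144) te) te) te) (tn (tn (tn (tl 32768) te) te) te)) (tn (tn (tn (tn (tl 2) te) te) te) te)) te) (tn (tn (tn (tn (tn (tn (tl 144115188075872257) te) te) te) (tn (tn (tn (tl 32769) te) te)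 te)) (tn (tn te (tn (tn (tl 1) te) te)) te)) (tn (tn (tn (tn (tn (tl 8796361474049) te) te) te) te) te))) (tn (tn (tn (tn (tn (tn (tn (tl 170141183777401225782450117670627983360) te) te) te) (tn (tn (tn (tl 32768) te) te) te)) te) (tn (tn (tn (tn (tn (tl 536870914) te) te) te) te) te)) (tn (tn te (tn (tn te (tn (tn (tl 1) te) te)) te)) (tn (tn (tn te (tn (tn (tl 1) te) te)) te) (tn (tn (tn (tn (tl 1) te) te) te) te))))))

def t187 : Tr ℕ := (tn (tn (tn (tn (tn (tn (tn (tn (tn (tl 237142198758023569873178808005261726360740965583367908820776735950841512242216961) te) te) te) (tn (tn (tn (tl 16384) te) te) te)) (tn (tn te (tn (tn (tl 2) te) te)) te)) te) (tn (tn (tn (tn (tn (tn (tl 72066390399418370) te) te) te) (tn (tn (tn (tl 16385) te) te) te)) (tn (tn te (tn (tn (tl 2) te) te)) te)) (tn (tn (tn (tn (tn (tl 8796629909504) te) te) te) te) te))) (tn (tn (tn (tn te (tn (tn (tn (tl 1) te) te) te)) (tn (tn (tn (tn (tl 1) te) te)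 (tn (tn (tl 1) te) te)) te)) (tn (tn (tn (tn (tn (tl 536903682) te) te) te) te) te)) (tn (tn (tn te (tn (tn (tn (tl 16385) te) te) te)) (tn (tn te (tn (tn (tl 1) te) te)) te)) (tn te (tn (tn (tn (tn (tl 2) te) te) te) te))))) (tn (tn (tn (tn (tn (tn (tn (tn (tl 6129982209136875481679988790364420441015236935672692736) te) te) te) (tn (tn (tn (tl 32768) te) te) te)) (tn (tn (tn (tn (tl 1) te) te) (tn (tn (tl 2) te) te)) te)) te) (tn (tn (tn (tn (tn (tn (tl 72066390667837440) te) te) te) (tn (tn (tn (tl 32768) te) te) te)) (tn (tn te (tn (tn (tl 1) te) te)) te)) (tn (tn (tn (tn (tn (tl 4398046511106) te) te) te) te) te))) (tn (tn (tn (tn (tn (tn (tn (tl 1393881645499894180964209418942611451822081) te) te) te) (tn (tn (tn (tl 2) te) te) te)) te) (tn (tn (tn (tn (tn (tl 72061992621342721) te) te) te) te) te)) (tn (tn te (tn (tn te (tn (tn (tl 2) te) te)) te)) (tn (tn (tn te (tn (tn (tl 2) te) te)) te) (tn (tn (tn (tn (tl 2) te)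 te) te) te))))))

def t188 : Tr ℕ := (tn (tn (tn (tn (tn (tn (tn (tn (tn (tl 118585574273616942619528520035010457356764007752851775923245882555533759426330626) te) te) te) (tn (tn (tn (tl 32768) te) te) te)) te) te) (tn (tn (tn (tn (tn (tn (tl 536903682) te) te) te) (tn (tn (tn (tl 16386) te) te) te)) te) (tn (tn (tn (tn (tn (tl 8796093054976) te) te) te) te) te))) (tn (tn (tn (tn te (tn (tn (tn (tl 16386) te) te) te)) te) (tn (tn (tn (tn (tn (tl 144115188075888641) te) te) te) te) te)) (tn (tn (tn te (tn (tn (tn (tl 1) te) te) te)) te) (tn te (tn (tn (tn (tn (tl 32770) te) te) te) te))))) (tn (tn (tn (tn (tn (tn (tn (tn (tl 6130730475140619617253659460944533338700987235479584768) te) te) te) (tn (tn (tn (tl 16384) te) te) te)) (tn (tn (tn (tn (tl 1) te) te) te) te)) te) (tn (tn (tn (tn (tn (tn (tl 4398583382017) te) te) te) (tn (tn (tn (tl 16386) te) te) te)) (tn (tn te (tn (tn (tl 1) te) te)) te)) (tn (tn (tn (tn (tn (tl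 4398583414786) te) te) te) te) te))) (tn (tn (tn (tn (tn (tn (tn (tl 268435456) te) te) te) te) te) (tn (tn (tn (tn (tn (tl 72057594574798849) te) te) te) te) te)) (tn (tn te (tn (tn te (tn (tn (tl 2) te) te)) te)) (tn (tn (tn te (tn (tn (tl 2) te) te)) te) (tn (tn (tn (tn (tl 32769) te) te) te) te))))))

def t189 : Tr ℕ := (tn (tn (tn (tn (tn (tn (tn (tn (tn (tl 118585573831878216478466154254549644519839596699689205724493253717232396856754178) te) te) te) (tn (tn (tn (tl 16385) te) te) te)) (tn (tn te (tn (tn (tl 1) te) te)) te)) (tn te (tn (tn te (tn (tn (tl 2) te) te)) te))) (tn (tn (tn (tn (tn (tn (tl 144123984705748993) te) te) te) (tn (tn (tn (tl 32770) te) te) te)) (tn (tn te (tn (tn (tl 1) te) te)) te)) (tn (tn (tn (tn (tn (tl 8796361490432) te) te) te) te) te))) (tn (tn (tn (tn te (tn (tn (tn (tl 16385) te) te) te)) (tn (tn (tn (tn (tl 2) te) te) te) te)) (tn (tn (tn (tn (tn (tl 72066390399385600) te) te) te) te) te))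 (tn te (tn te (tn (tn (tn (tn (tl 1) te) te) te) te))))) (tn (tn (tn (tn (tn (tn (tn (tn (tl 6130730475140619702319058577388622687408598069255634946) te) te) te) (tn (tn (tn (tl 16384) te) te) te)) (tn (tn (tn (tn (tl 1) te) te) (tn (tn (tl 1) te) te)) te)) te) (tn (tn (tn (tn (tn (tn (tl 4398046543873) te) te) te) (tn (tn (tn (tl 32770) te) te) te)) (tn (tn te (tn (tn (tl 2) te) te)) te)) te)) (tn (tn (tn (tn (tn (tn (tn (tl 170141184094313877020099084363900141570) te) te) te) (tn (tn (tn (tl 32770) te) te) te)) (tn (tn te (tn (tn (tl 2) te) te)) te)) (tn (tn (tn (tn (tn (tl 72061992084471809) te) te) te) te) te)) (tn (tn te (tn (tn te (tn (tn (tl 1) te) te)) te)) (tn (tn (tn te (tn (tn (tl 2) te) te)) te) (tn (tn (tn (tn (tl 32770) te) te) te) te))))))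

def t190 : Tr ℕ := (tn (tn (tn (tn (tn (tn (tn (tn (tn (tl 118578337268039612002819104169653479350667851076510784338692488684407585626947585) te) te) te) (tn (tn (tn (tl 32770) te) te) te)) (tn (tn te (tn (tn (tl 2) te) te)) te)) (tn te (tn (tn te (tn (tn (tl 2) te) te)) te))) (tn (tn (tn (tn (tn (tn (tl 144123984168910850) te) te) te) (tn (tn (tn (tl 16384) te) te) te)) (tn (tn te (tn (tn (tl 2) te) te)) te)) (tn (tn (tn (tn (tn (tl 8796361457664) te) te) te) te) te))) (tn (tn (tn (tn te (tn (tn (tn (tl 16384) te) te) te)) (tn (tn (tn (tn (tl 1) te) te) te) te)) (tn (tn (tn (tn (tn (tl 72061992084471810) te) te) te) te) te)) (tn (tn (tn te (tn (tn (tn (tl 32769) te) te) te)) te) (tn te (tn (tn (tn (tn (tl 32769) te) te) te) te))))) (tn (tn (tn (tn (tn (tn (tn (tn (tl 12260338494185018339534794812438069368106433904690364416) te) te) te) te) (tn (tn (tn (tn (tl 1) te) te) te) te)) te) (tn (tn (tn (tn (tn (tn (tl 72061992621342720)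 te) te) te) (tn (tn (tn (tl 32770) te) te) te)) (tn (tn te (tn (tn (tl 2) te) te)) te)) (tn (tn (tn (tn (tn (tl 268468226) te) te) te) te) te))) (tn (tn (tn (tn (tn (tn (tn (tl 2787678220408058146651824333192085920284672) te) te) te) (tn (tn (tn (tl 16385) te) te) te)) (tn (tn te (tn (tn (tl 2) te) te)) te)) (tn (tn (tn (tn (tn (tl 72061992352907265) te) te) te) te) te)) (tn (tn te (tn (tn te (tn (tn (tl 1) te) te)) te)) (tn (tn (tn te (tn (tn (tl 2) te) te)) te) (tn (tn (tn (tn (tl 2) te) te) te) te))))))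

def t191 : Tr ℕ := (tn (tn (tn (tn (tn (tn (tn (tn (tn (tl 237149436647051396116656214186351711286994366062106660938932334122613398847913984) te) te) te) te) (tn (tn te (tn (tn (tl 1) te) te)) te)) (tn te (tn (tn te (tn (tn (tl 2) te) te)) te))) (tn (tn (tn (tn (tn (tn (tl 144123984168878082) te) te) te) (tn (tn (tn (tl 16384) te) te) te)) (tn (tn te (tn (tn (tl 1) te) te)) te)) (tn (tn (tn (tn (tn (tl 8796361490432) te) te) te) te) te))) (tn (tn (tn (tn te (tn (tn (tn (tl 32768) te) te) te)) (tn (tn (tn (tn (tl 2) te) te) te) te)) (tn (tn (tn (tn (tn (tl 72066390667837441) te) te) te) te) te)) (tn (tn (tn te (tn (tn (tn (tl 2) te) te) te)) te) (tn te (tn (tn (tn (tn (tl 16385) te) te) te) te))))) (tn (tn (tn (tn (tn (tn (tn (tn (tl 12260712615766818085740996964661047829134505884818341889) te) te) te) te) (tn (tn (tn (tn (tl 1) te) te) (tn (tn (tl 1) te) te)) te)) te) (tn (tn (tn (tn (tn (tn (tl 144115188612743168) te) te)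 te) (tn (tn (tn (tl 32769) te) te) te)) (tn (tn te (tn (tn (tl 2) te) te)) te)) (tn (tn (tn (tn (tn (tl 536887297) te) te) te) te) te))) (tn (tn (tn (tn (tn (tn (tn (tl 2787593160201555435061734155842786466758657) te) te) te) (tn (tn (tn (tl 32768) te) te) te)) (tn (tn te (tn (tn (tl 2) te) te)) te)) (tn (tn (tn (tn (tn (tl 4398046543873) te) te) te) te) te)) (tn (tn te (tn (tn te (tn (tn (tl 1) te) te)) te)) (tn (tn (tn te (tn (tn (tl 2) te) te)) te) (tn (tn (tn (tn (tl 16384) te) te) te) te))))))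

def t192 : Tr ℕ := (tn (tn (tn (tn (tn (tn (tn (tn (tn (tl 14474452920352257963320998260335928640065974694316673639977659811909041405952) te) te) te) (tn (tn (tn (tl 16385) te) te) te)) te) te) (tn (tn (tn (tn (tn (tn (tl 144123984437346306) te) te) te) te) te) (tn (tn (tn (tn (tn (tl 4398314979328) te) te) te) te) te))) (tn (tn (tn (tn te (tn (tn (tn (tl 16386) te) te) te)) te) (tn (tn (tn (tn (tn (tl 72066390667853825) te) te) te) te) te)) (tn (tn (tn te (tn (tn (tn (tl 32770) te) te) te)) te) (tn te (tn (tn (tn (tn (tl 32770) te) te) te) te))))) (tn (tn (tn (tn (tn (tn (tn (tn (tl 45673320133317192728929791262035553622478061568) te) te) te) te) te) te) (tn (tn (tn (tn (tn (tn (tl 144115188075872257) te) te) te) (tn (tn (tn (tl 1) te) te) te)) te) (tn (tn (tn (tn (tn (tl 268468226) te) te) te) te) te))) (tn (tn (tn (tn (tn (tn (tn (tl 2787593149816961756677705126458723760357377) te) te) te) (tn (tn (tn (tl 1) te) te) te))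 te) (tn (tn (tn (tn (tn (tl 144123984168894464) te) te) te) te) te)) (tn te (tn te (tn (tn (tn (tn (tl 16385) te) te) te) te))))))

def t193 : Tr ℕ := (tn (tn (tn (tn (tn (tn (tn (tn (tn (tl 237156673210916962184374544734838775123208539134152597491018211221541923655270401) te) te) te) te) (tn (tn te (tn (tn (tl 2) te) te)) te)) (tn te (tn (tn te (tn (tn (tl 2) te) te)) te))) (tn (tn (tn (tn (tn (tn (tl 8796629925890) te) te) te) (tn (tn (tn (tl 32768) te) te) te)) (tn (tn te (tn (tn (tl 2) te) te)) te)) (tn (tn (tn (tn (tn (tl 8796093054978) te) te) te) te) te))) (tn (tn (tn (tn te (tn (tn (tn (tl 32768) te) te) te)) (tn (tn (tn (tn (tl 1) te) te) te) te)) (tn (tn (tn (tn (tn (tl 72066390399385602) te) te) te) te) te)) (tn (tn (tn te (tn (tn (tn (tl 32770) te) te) te)) te) (tn te (tn (tn (tn (tn (tl 32769) te) te) te) te))))) (tn (tn (tn (tn (tn (tn (tn (tn (tl 6129982163463555433433388108601236734474956488734408704) te) te)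 te) (tn (tn (tn (tl 32770) te) te) te)) (tn (tn te (tn (tn (tl 1) te) te)) te)) (tn te (tn (tn te (tn (tn (tl 1) te) te)) te))) (tn (tn (tn (tn (tn (tn (tl 72057594037944322) te) te) te) (tn (tn (tn (tl 16385) te) te) te)) (tn (tn te (tn (tn (tl 2) te) te)) te)) (tn (tn (tn (tn (tn (tl 4398583414786) te) te) te) te) te))) (tn (tn (tn (tn (tn (tn (tn (tl 1393796574908163946345982392040522594123776) te) te) te) (tn (tn (tn (tl 2) te) te) te)) te) (tn (tn (tn (tn (tn (tl 72061992352890882) te) te) te) te) te)) (tn (tn te (tn (tn te (tn (tn (tl 1) te) te)) te)) (tn (tn (tn te (tn (tn (tl 1) te) te)) te) (tn (tn (tn (tn (tl 16384) te) te) te) te))))))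

def t194 : Tr ℕ := (tn (tn (tn (tn (tn (tn (tn (tn (tn (tl 118585573831932136371700009646782631985801020764723719967412002410484322571141122) te) te) te) (tn (tn (tn (tl 32768) te) te) te)) (tn (tn te (tn (tn (tl 2) te) te)) te)) (tn te (tn (tn te (tn (tn (tl 2) te) te)) te))) (tn (tn (tn (tn (tn (tn (tl 72066390130966529) te) te) te) (tn (tn (tn (tl 16384) te) te) te)) (tn (tn te (tn (tn (tl 2) te) te)) te)) (tn (tn (tn (tn (tn (tl 8796629925889) te) te) te) te) te))) (tn (tn te (tn (tn (tn (tn (tn (tl 4398314962945) te) te) te) te) te)) (tn (tn (tn te (tn (tn (tn (tl 32770) te) te) te)) (tn (tn te (tn (tn (tl 1) te) te)) te)) (tn te (tn (tn (tn (tn (tl 16386) te) te) te) te))))) (tn (tn (tn (tn (tn (tn (tn (tn (tl 748334513027352186221179510490342444846221633781760) te) te) te) (tn (tn (tn (tl 32768) te) te) te)) te) te) (tn (tn (tn (tn (tn (tn (tl 144123984437346305) te) te) te) te) (tn (tn te (tn (tn (tl 1) te) te)) te))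 (tn (tn (tn (tn (tn (tl 268451840) te) te) te) te) te))) (tn (tn (tn (tn (tn (tn (tn (tl 2787678220408058146651824405249679958212610) te) te) te) (tn (tn (tn (tl 16385) te) te) te)) (tn (tn te (tn (tn (tl 2) te) te)) te)) (tn (tn (tn (tn (tn (tl 16384) te) te) te) te) te)) (tn (tn te (tn (tn te (tn (tn (tl 1) te) te)) te)) (tn te (tn (tn (tn (tn (tl 32768) te) te) te) te))))))

def t195 : Tr ℕ := (tn (tn (tn (tn (tn (tn (tn (tn (tn (tl 883450493981564740008555977747902509665377503958686502170413086453825536) te) te) te) (tn (tn (tn (tl 16384) te) te) te)) (tn (tn te (tn (tn (tl 1) te) te)) te)) (tn te (tn (tn te (tn (tn (tl 2) te) te)) te))) (tn (tn (tn (tn (tn (tn (tl 144119586390818818) te) te) te) (tn (tn (tn (tl 2) te) te) te)) (tn (tn te (tn (tn (tl 1) te) te)) te)) (tn (tn (tn (tn (tn (tl 8796629909504) te) te) te) te) te))) (tn (tn (tn (tn te (tn (tn (tn (tl 16384) te) te) te)) (tn (tn te (tn (tn (tl 1) te) te)) te))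 (tn (tn (tn (tn (tn (tl 144119586390835200) te) te) te) te) te)) (tn (tn (tn te (tn (tn (tn (tl 16385) te) te) te)) (tn (tn te (tn (tn (tl 2) te) te)) te)) (tn te (tn (tn (tn (tn (tl 32769) te) te) te) te))))) (tn (tn (tn (tn (tn (tn (tn (tn (tl 6130356330721462906106599000695367461187950318784086017) te) te) te) (tn (tn (tn (tl 32770) te) te) te)) (tn (tn (tn (tn (tl 1) te) te) (tn (tn (tl 2) te) te)) te)) te) (tn (tn (tn (tn (tn (tn (tl 536903680) te) te) te) (tn (tn (tn (tl 32770) te) te) te)) (tn (tn te (tn (tn (tl 2) te) te)) te)) (tn (tn (tn (tn (tn (tl 8796093038592) te) te) te) te) te))) (tn (tn (tn (tn (tn (tn (tn (tl 2787593160201555435062914747463503878045697) te) te) te) (tn (tn (tn (tl 1) te) te) te)) te) (tn (tn (tn (tn (tn (tl 72057594574798850) te) te) te) te) te)) (tn (tn te (tn (tn te (tn (tn (tl 2) te) te)) te)) (tn te (tn (tn (tn (tn (tl 2) te) te) te) te))))))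

def t196 : Tr ℕ := (tn (tn (tn (tn (tn (tn (tn (tn (tn (tl 237156673210916962184374544734838729451282372543436403625867188837697559407378432) te) te) te) (tn (tn (tn (tl 32770) te) te) te)) te) (tn te (tn (tn te (tn (tn (tl 2) te) te)) te))) (tn (tn (tn (tn (tn (tn (tl 144119586122399745) te) te) te) (tn (tn (tn (tl 32770) te) te) te)) te) (tn (tn (tn (tn (tn (tl 8796361474049) te) te) te) te) te))) (tn (tn (tn (tn te (tn (tn (tn (tl 2) te) te) te)) (tn (tn (tn (tn (tl 1) te) te) (tn (tn (tl 1) te) te)) te)) (tn (tn (tn (tn (tn (tl 8796361474048) te) te) te) te) te)) (tn (tn (tn te (tn (tn (tn (tl 16384) te) te) te)) (tn (tn te (tn (tn (tl 1) te) te)) te)) (tn te (tn (tn (tn (tn (tl 16386) te) te) te) te))))) (tn (tn (tn (tn (tn (tn (tn (tn (tl 12259964372600430915113377532790956108941215861577875457) te) te) te) (tn (tn (tn (tl 16384) te) te) te)) (tn (tn (tn (tn (tl 1) te) te) (tn (tn (tl 2) te) te)) te)) te) (tn (tn (tn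 (tn (tn (tn (tl 8796361474049) te) te) te) (tn (tn (tn (tl 32770) te) te) te)) te) (tn (tn (tn (tn (tn (tl 8796361457664) te) te) te) te) te))) (tn (tn (tn (tn (tn (tn (tn (tl 1393796574908480858996039449399692862947328) te) te) te) (tn (tn (tn (tl 32768) te) te) te)) (tn (tn te (tn (tn (tl 2) te) te)) te)) (tn (tn (tn (tn (tn (tl 16386) te) te) te) te) te)) (tn te (tn (tn (tn te (tn (tn (tl 1) te) te)) te) (tn (tn (tn (tn (tl 32770) te) te) te) te))))))

def t197 : Tr ℕ := (tn (tn (tn (tn (tn (tn (tn (tn (tn (tl 118578337268012652056151941269894462575294304302720294219094849957326834555191296) te) te) te) (tn (tn (tn (tl 16385) te) te) te)) te) te) (tn (tn (tn (tn (tn (tn (tl 72066390130966528) te) te) te) (tn (tn (tn (tl 32768) te) te) te)) te) (tn (tn (tn (tn (tn (tl 8796093022210) te) te) te) te) te))) (tn (tn (tn (tn te (tn (tn (tn (tl 16385) te) te) te)) (tn (tn (tn (tn (tl 2) te) te) te) te)) (tn (tn (tn (tn (tn (tl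 8796093038592) te) te) te) te) te)) (tn (tn (tn te (tn (tn (tn (tl 32768) te) te) te)) te) (tn te (tn (tn (tn (tn (tl 32769) te) te) te) te))))) (tn (tn (tn (tn (tn (tn (tn (tn (tl 6130730475140619702313866280568772305344061793382694914) te) te) te) (tn (tn (tn (tl 32769) te) te) te)) (tn (tn (tn (tn (tl 1) te) te) te) te)) (tn te (tn (tn te (tn (tn (tl 2) te) te)) te))) (tn (tn (tn (tn (tn (tn (tl 16386) te) te) te) (tn (tn (tn (tl 32769) te) te) te)) (tn (tn te (tn (tn (tl 1) te) te)) te)) (tn (tn (tn (tn (tn (tl 268468226) te) te) te) te) te))) (tn (tn (tn (tn (tn (tn (tn (tl 2787678225600355005186651961722582249504770) te) te) te) (tn (tn (tn (tl 16385) te) te) te)) (tn (tn te (tn (tn (tl 2) te) te)) te)) (tn (tn (tn (tn (tn (tl 144123984437346306) te) te) te) te) te)) (tn (tn te (tn (tn te (tn (tn (tl 2) te) te)) te)) (tn te (tn (tn (tn (tn (tl 16384) te) te) te) te))))))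

def t198 : Tr ℕ := (tn (tn (tn (tn (tn (tn (tn (tn (tn (tl 118578337268012648765343693883388896466167887512204861447511146368894069974777857) te) te) te) (tn (tn (tn (tl 32770) te) te) te)) (tn (tn te (tn (tn (tl 2) te) te)) te)) te) (tn (tn (tn (tn (tn (tn (tl 72066390130982912) te) te) te) (tn (tn (tn (tl 16385) te) te) te)) (tn (tn te (tn (tn (tl 1) te) te)) te)) (tn (tn (tn (tn (tn (tl 8796361474050) te) te) te) te) te))) (tn (tn (tn (tn te (tn (tn (tn (tl 32768) te) te) te)) (tn (tn (tn (tn (tl 1) te) te) (tn (tn (tl 1) te) te)) te)) (tn (tn (tn (tn (tn (tl 4398583414784) te) te) te) te) te)) (tn (tn (tn te (tn (tn (tn (tl 16384) te) te) te)) te) (tn te (tn (tn (tn (tn (tl 2) te) te) te) te))))) (tn (tn (tn (tn (tn (tn (tn (tn (tl 12260338494185018254469395379081328781893967167403081728) te) te) te) te) (tn (tn (tn (tn (tl 1) te) te) te) te)) te) (tn (tn (tn (tn (tn (tn (tl 144115188612743169) te) te) te) (tn (tn (tn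 (tl 2) te) te) te)) (tn (tn te (tn (tn (tl 2) te) te)) te)) (tn (tn (tn (tn (tn (tl 4398314979330) te) te) te) te) te))) (tn (tn (tn (tn (tn (tn (tn (tl 2787678230793285669677599999494644408795137) te) te) te) (tn (tn (tn (tl 16384) te) te) te)) (tn (tn te (tn (tn (tl 2) te) te)) te)) (tn (tn (tn (tn (tn (tl 268468226) te) te) te) te) te)) (tn (tn te (tn (tn te (tn (tn (tl 1) te) te)) te)) (tn (tn (tn te (tn (tn (tl 1) te) te)) te) (tn (tn (tn (tn (tl 16385) te) te) te) te))))))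

def t199 : Tr ℕ := (tn (tn (tn (tn (tn (tn (tn (tn (tn (tl 14474011154666170032949582436809219296756890899701261734689406606508661161986) te) te) te) (tn (tn (tn (tl 16385) te) te) te)) te) (tn te (tn (tn te (tn (tn (tl 2) te) te)) te))) (tn (tn (tn (tn (tn (tn (tl 72057594574798849) te) te) te) (tn (tn (tn (tl 16386) te) te) te)) (tn (tn te (tn (tn (tl 2) te) te)) te)) (tn (tn (tn (tn (tn (tl 8796629893121) te) te) te) te) te))) (tn (tn (tn (tn te (tn (tn (tn (tl 32768) te) te) te)) (tn (tn (tn (tn (tl 1) te) te) (tn (tn (tl 2) te) te)) te)) (tn (tn (tn (tn (tn (tl 72057594037927937) te) te) te) te) te)) (tn (tn (tn te (tn (tn (tn (tl 32769) te) te) te)) te) (tn te (tn (tn (tn (tn (tl 16385) te) te) te) te))))) (tn (tn (tn (tn (tn (tn (tn (tn (tl 12259964372601824796748492833274193476216918353295441921) te) te) te) (tn (tn (tn (tl 1) te) te) te)) (tn (tn te (tn (tn (tl 2) te) te)) te)) te) (tn (tn (tn (tn (tn (tn (tl 72066390130966529)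 te) te) te) te) (tn (tn te (tn (tn (tl 1) te) te)) te)) (tn (tn (tn (tn (tn (tl 4398314962945) te) te) te) te) te))) (tn (tn (tn (tn (tn (tn (tn (tl 85070591730253959859621164236723453954) te) te) te) (tn (tn (tn (tl 32769) te) te) te)) te) (tn (tn (tn (tn (tn (tl 4398583414786) te) te) te) te) te)) (tn (tn te (tn (tn te (tn (tn (tl 2) te) te)) te)) (tn te (tn (tn (tn (tn (tl 16384) te) te) te) te))))))

def t200 : Tr ℕ := (tn (tn (tn (tn (tn (tn (tn (tn (tn (tl 22835963083305742690668987979562821640161067009) te) te) te) te) te) (tn (tn (tn (tn (tn (tl 8796361457665) te) te) te) te) (tn (tn (tn (tn (tl 32770) te) te) te) te))) (tn (tn te (tn (tn (tn (tn (tl 16384) te) te) te) te)) (tn (tn (tn te (tn (tn (tl 1) te) te)) te) (tn (tn (tn (tn (tl 1) te) te) te) te)))) (tn (tn (tn (tn (tn (tn (tn (tl 38685626227668133590597632) te) te) te) te) te) (tn (tn (tn te (tn (tn (tl 1) te) te)) te) (tn (tn (tn (tn (tl 1) te) te) te) te)))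 (tn (tn (tn (tn (tn (tn (tl 72061992084471810) te) te) te) te) te) (tn (tn (tn te (tn (tn (tl 1) te) te)) te) te)))) (tn (tn (tn (tn (tn (tn (tn (tn (tl 748288838313422294120286634350736906063837462003712) te) te) te) te) te) (tn (tn (tn (tn (tn (tl 72061992352874496) te) te) te) te) te)) (tn (tn (tn (tn (tn (tn (tl 19345174369133096192720897) te) te) te) te) te) (tn te (tn (tn (tn (tn (tl 16386) te) te) te) te)))) (tn (tn (tn te (tn (tn (tn (tn (tl 2) te) te) te) te)) (tn (tn (tn te (tn (tn (tl 1) te) te)) te) te)) (tn (tn (tn (tn (tn (tn (tl 4398046543872) te) te) te) te) (tn (tn (tn (tn (tl 16386) te) te) te) te)) te))))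

def t201 : Tr ℕ := (tn (tn (tn (tn (tn (tn (tn (tn (tn (tl 19342813113834066795315200) te) te) te) te) te) (tn (tn (tn (tn (tn (tl 144115188075855874) te) te) te) te) te)) (tn (tn te (tn (tn (tn (tn (tl 32768) te) te) te) te)) (tn te (tn (tn (tn (tn (tl 32769) te) te) te) te)))) (tn (tn (tn (tn (tn (tn (tn (tl 2787763301384699010987402491259708743106560) te) te) te) te) te) (tn te (tn (tn (tn (tn (tl 16386) te) te) te) te))) (tn (tn (tn (tn (tn (tn (tl 144119586122399746) te) te) te) te) te) te))) (tn (tn (tn (tn (tn (tn (tn (tn (tl 3291009114642786251565058159562311547093102612981835014112051202) te) te) te) te) te) (tn (tn (tn (tn (tn (tl 144123984168910850) te) te) te) te) (tn (tn (tn (tn (tl 2) te) te) te) te))) (tn (tn (tn (tn (tn (tn (tl 72057594037927936) te) te) te) te) te) (tn te (tn (tn (tn (tn (tl 32769) te) te) te) te)))) (tn (tn (tn te (tn (tn (tn (tn (tl 16384) te) te) te) te)) (tn te (tn (tn (tn (tn (tl 32769)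 te) te) te) te))) (tn (tn (tn (tn (tn (tn (tl 536903681) te) te) te) te) (tn (tn (tn (tn (tl 2) te) te) te) te)) te))))

def t202 : Tr ℕ := (tn (tn (tn (tn (tn (tn (tn (tn (tn (tl 38685626299725727628525568) te) te) te) te) te) (tn (tn (tn (tn (tn (tl 72057594037927937) te) te) te) te) (tn (tn (tn (tn (tl 16384) te) te) te) te))) (tn (tn te (tn (tn (tn (tn (tl 32768) te) te) te) te)) (tn te (tn (tn (tn (tn (tl 16384) te) te) te) te)))) (tn (tn (tn (tn (tn (tn (tn (tl 2787763291000105293918927897868230904020992) te) te) te) te) te) (tn te (tn (tn (tn (tn (tl 16386) te) te) te) te))) (tn (tn (tn (tn (tn (tn (tl 536887297) te) te) te) te) te) te))) (tn (tn (tn (tn (tn (tn (tn (tn (tl 1180591625115457814530) te) te) te) te) te) (tn (tn (tn (tn (tn (tl 144115188075872258) te) te) te) te) (tn (tn (tn (tn (tl 2) te) te) te) te))) (tn (tn (tn (tn (tn (tn (tl 2361327356623435350018) te) te) te) te) te) (tn te (tn (tn (tn (tn (tl 2)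 te) te) te) te)))) (tn (tn (tn te (tn (tn (tn (tn (tl 32769) te) te) te) te)) (tn te (tn (tn (tn (tn (tl 32769) te) te) te) te))) (tn (tn (tn (tn (tn (tn (tl 536870913) te) te) te) te) (tn (tn (tn (tn (tl 32770) te) te) te) te)) te))))

def t203 : Tr ℕ := (tn (tn (tn (tn (tn (tn (tn (tn (tn (tl 45671926166595908807675021533297402164704968704) te) te) te) te) te) (tn (tn (tn (tn (tn (tl 72066390399385601) te) te) te) te) (tn (tn (tn (tn (tl 32768) te) te) te) te))) (tn (tn te (tn (tn (tn (tn (tl 2) te) te) te) te)) (tn (tn (tn te (tn (tn (tl 2) te) te)) te) (tn (tn (tn (tn (tl 2) te) te) te) te)))) (tn (tn (tn (tn (tn (tn (tn (tl 19342813113838464841809920) te) te) te) te) te) (tn (tn (tn te (tn (tn (tl 2) te) te)) te) (tn (tn (tn (tn (tl 16385) te) te) te) te))) (tn (tn (tn (tn (tn (tn (tl 8796361474050) te) te) te) te) te) (tn (tn (tn te (tn (tn (tl 2) te) te)) te) te)))) (tn (tn (tn (tn (tn (tn (tn (tn (tl 374144419156796217651873551791234296683776673054720)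 te) te) te) te) te) (tn (tn (tn (tn (tn (tl 8796629909504) te) te) te) te) (tn (tn (tn (tn (tl 1) te) te) te) te))) (tn (tn (tn (tn (tn (tn (tl 19342813185896059416641538) te) te) te) te) te) (tn te (tn (tn (tn (tn (tl 2) te) te) te) te)))) (tn (tn (tn te (tn (tn (tn (tn (tl 32768) te) te) te) te)) (tn (tn (tn te (tn (tn (tl 2) te) te)) te) (tn (tn (tn (tn (tl 32769) te) te) te) te))) (tn (tn (tn (tn (tn (tn (tl 16386) te) te) te) te) (tn (tn (tn (tn (tl 32769) te) te) te) te)) te))))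

def t204 : Tr ℕ := (tn (tn (tn (tn (tn (tn (tn (tn (tn (tl 26959946667150640542955856188120145202615770068029112333834223910912) te) te) te) te) te) (tn (tn (tn (tn (tn (tl 536903680) te) te) (tn (tn (tl 1) te) te)) te) (tn (tn (tn (tn (tl 32769) te) te) te) te))) (tn (tn (tn (tn (tn (tn (tl 38687987410913966996586496) te) te) (tn (tn (tl 1) te) te)) te) te) te)) (tn (tn (tn (tn (tn (tn (tn (tl 85070592364079259973735864984538218496) te) te) te) te) (tn (tn (tn (tn (tl 32768) te) te) te) te)) te) (tn (tn (tn (tn te (tn (tn (tl 1) te) te)) te) (tn (tn (tn (tn (tl 32770) te) te) te) te)) te))) (tn (tn (tn (tn (tn (tn (tn (tn (tl 10385227561714943668841640674459648) te) te) te) te) (tn (tn (tn (tn (tl 16385) te) te) te) te)) (tn (tn (tn (tn (tn (tl 536887298) te) te) te) te) te)) (tn (tn (tn (tn (tn (tn (tl 72066390130950144) te) te) (tn (tn (tl 2) te) te)) te) (tn (tn (tn (tn (tl 1) te) te) te) te)) te)) (tn te (tn (tn (tn (tn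 (tn (tn (tl 268451842) te) te) te) te) (tn (tn (tn (tn (tl 32769) te) te) te) te)) te))))

def t205 : Tr ℕ := (tn (tn (tn (tn (tn (tn (tn (tn (tn (tl 2361183241434822623233) te) te) te) te) te) (tn (tn (tn (tn (tn (tl 536903680) te) te) te) te) te)) (tn (tn (tn (tn (tn (tn (tl 38685626227672532174012416) te) te) te) te) te) te)) (tn (tn (tn (tn (tn (tn (tn (tl 170141184094333219833284971627223744513) te) te) te) te) te) te) (tn (tn te (tn (tn (tn (tn (tl 2) te) te) te) te)) te))) (tn (tn (tn (tn (tn (tn (tn (tn (tl 16384) te) te) te) te) (tn (tn (tn (tn (tl 16384) te) te) te) te)) (tn (tn (tn (tn (tn (tl 2) te) te) te) te) (tn (tn (tn (tn (tl 16386) te) te) te) te))) (tn (tn (tn (tn (tn (tn (tl 8796629909505) te) te) te) te) (tn (tn (tn (tn (tl 32770) te) te) te) te)) te)) (tn te (tn (tn te (tn (tn (tn (tn (tl 16386) te) te) te) te)) te))))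

def t206 : Tr ℕ := (tn (tn (tn (tn (tn (tn (tn (tn (tn (tl 19343993705454784206602242) te) te) te) te) te) (tn (tn (tn (tn (tn (tl 536887297) te) te) te) te) te)) (tn (tn (tn (tn (tn (tn (tl 2361327356622898462722) te) te) te) te) te) te)) (tn (tn (tn (tn (tn (tn (tn (tl 2787593155009258615212532827038018034483202) te) te) te) te) te) te) (tn (tn te (tn (tn (tn (tn (tl 2) te) te) te) te)) te))) (tn (tn (tn (tn (tn (tn (tn (tn (tl 8796093038592) te) te) te) te) (tn (tn (tn (tn (tl 32769) te) te) te) te)) (tn (tn (tn (tn (tn (tl 32768) te) te) te) te) (tn (tn (tn (tn (tl 16386) te) te) te) te))) (tn (tn (tn (tn (tn (tn (tl 72061992352874496) te) te) te) te) (tn (tn (tn (tn (tl 16386) te) te) te) te)) te)) (tn te (tn (tn (tn (tn (tn (tn (tl 144123984168894466) te) te) te) te) (tn (tn (tn (tn (tl 1) te) te) te) te)) te))))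

def t207 : Tr ℕ := (tn (tn (tn (tn (tn (tn (tn (tn (tn (tl 6130356307882712144580448251918412102927988407465410560) te) te) te) te) te) (tn (tn (tn (tn (tn (tl 268468226) te) te) (tn (tn (tl 1) te) te)) te) (tn (tn (tn (tn (tl 16386) te) te) te) te))) (tn (tn (tn (tn (tn (tn (tl 38686806819293249585299458) te) te) (tn (tn (tl 2) te) te)) te) te) te)) (tn (tn (tn (tn (tn (tn (tn (tl 1393881650692507990834720476602405576802304) te) te) te) te) te) te) (tn (tn (tn (tn te (tn (tn (tl 2) te) te)) te) (tn (tn (tn (tn (tl 16385) te) te) te) te)) te))) (tn (tn (tn (tn (tn (tn (tn (tn (tl 633863986920933998395983413249) te) te) te) te) te) (tn (tn (tn (tn (tn (tl 1) te) te) te) te) (tn (tn (tn (tn (tl 32769) te) te) te) te))) (tn (tn (tn (tn (tn (tn (tl 4398583398400) te) te) (tn (tn (tl 1) te) te)) te) (tn (tn (tn (tn (tl 16384) te) te) te) te)) te)) (tn te (tn (tn (tn (tn (tn (tn (tl 72066390399401985) te) te) te) te) te) te))))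

def t208 : Tr ℕ := (tn (tn (tn (tn (tn (tn (tn (tn (tn (tl 5192613809870510913549004095651842) te) te) te) te) te) te) (tn (tn (tn (tn (tn (tn (tl 4398314962945) te) te) te) te) (tn (tn (tn (tn (tl 32769) te) te) te) te)) te)) (tn (tn (tn (tn (tn te (tn (tn (tl 2) te) te)) te) (tn (tn (tn (tn (tl 16385) te) te) te) te)) te) (tn (tn (tn (tn (tn (tn (tl 268468225) te) te) te) te) te) te))) (tn (tn (tn (tn (tn (tn (tn (tn (tl 2787593155008941702564836952933476190912512) te) te) (tn (tn (tl 2) te) te)) te) te) te) (tn (tn (tn (tn (tn (tn (tl 144119586390835200) te) te) te) te) te) te)) (tn (tn (tn (tn (tn te (tn (tn (tl 1) te) te)) te) (tn (tn (tn (tn (tl 32769) te) te) te) te)) te) te)))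

def t209 : Tr ℕ := (tn (tn (tn (tn (tn (tn (tn (tn (tn (tl 1393796580100460804880810020575416969871360) te) te) te) te) te) te) (tn (tn (tn (tn (tn (tn (tl 268451840) te) te) te) te) (tn (tn (tn (tn (tl 32769) te) te) te) te)) te)) (tn (tn (tn te (tn (tn (tn (tn (tl 16386) te) te) te) te)) te) (tn (tn (tn (tn (tn (tn (tl 32768) te) te) te) te) te) te))) (tn (tn (tn (tn (tn (tn (tn (tn (tl 1393966721284238225448225137012828964667393) te) te) te) te) (tn (tn (tn (tn (tl 2) te) te) te) te)) te) (tn (tn (tn (tn (tn (tn (tl 72057594037927938) te) te) te) te) te) te)) te))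

def t210 : Tr ℕ := (tn (tn (tn (tn (tn (tn (tn (tn (tn (tl 170151568371118295437851293851630714880) te) te) te) te) te) te) (tn (tn (tn (tn (tn (tn (tl 4398046527490) te) te) te) te) (tn (tn (tn (tn (tl 32769) te) te) te) te)) te)) (tn (tn (tn te (tn (tn (tn (tn (tl 2) te) te) te) te)) te) (tn (tn (tn (tn (tn (tn (tl 16385) te) te) te) te) te) te))) (tn (tn (tn (tn (tn (tn (tn (tn (tl 5192613771186065421625572353654785) te) te) te) te) (tn (tn (tn (tn (tl 32770) te) te) te) te)) te) (tn (tn (tn (tn (tn (tn (tl 536870912) te) te) te) te) te) te)) (tn (tn (tn te (tn (tn (tn (tn (tl 32770) te) te) te) te)) te) te)))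

def t211 : Tr ℕ := (tn (tn (tn (tn (tn (tn (tn (tn (tn (tl 316931992870171184440971100160) te) te) te) te) te) te) (tn (tn (tn (tn (tn (tn (tl 8796093022210) te) te) te) te) (tn (tn (tn (tn (tl 32769) te) te) te) te)) te)) (tn (tn (tn (tn (tn te (tn (tn (tl 2) te) te)) te) (tn (tn (tn (tn (tl 16385) te) te) te) te)) te) (tn (tn (tn (tn (tn (tn (tl 268468224) te) te) te) te) te) te))) (tn (tn (tn (tn (tn (tn (tn (tn (tl 1393966721284238186764959948466543805890560) te) te) te) te) (tn (tn (tn (tn (tl 32769) te) te) te) te)) te) (tn (tn (tn (tn (tn (tn (tl 144115188344307712) te) te) te) te) te) te)) (tn (tn (tn (tn (tn te (tn (tn (tl 2) te) te)) te) (tn (tn (tn (tn (tl 16386) te) te) te) te)) te) te)))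

def t212 : Tr ℕ := (tn (tn (tn (tn (tn (tn (tn te (tn (tn (tl 1) te) te)) te) (tn (tn (tn (tn (tl 2) te) te) te) te)) te) te) te) (tn te (tn (tn (tn (tn (tn (tn (tn (tl 2) te) te) te) te) te) te) te)))

def t213 : Tr ℕ := (tn (tn te (tn te (tn te (tn te (tn te (tn (tn (tn (tl 1) te) te) te)))))) (tn (tn te (tn te (tn te (tn te (tn (tn (tn (tl 2) te) te) te))))) (tn (tn (tn (tn (tn (tn (tn (tl 72061992084439042) te) te) te) te) te) te) (tn te (tn (tn (tn (tn (tn (tl 2) te) te) te) te) (tn te (tn (tn (tn (tl 1) te) te) te)))))))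

def t214 : Tr ℕ := (tn (tn (tn (tn (tn te (tn (tn (tn (tn (tl 2) te) te) te) te)) te) te) (tn (tn (tn (tn (tn (tn (tn (tl 1) te) te) te) te) te) te) (tn te (tn (tn (tn (tn (tn (tl 1) te) te) te) te) (tn te (tn (tn (tn (tl 2) te) te) te)))))) (tn (tn te (tn te (tn te (tn te (tn (tn (tn (tl 2) te) te) te))))) (tn (tn (tn (tn (tn (tn (tn (tl 144123984705781761) te) te) te) te) te) te) (tn te (tn (tn (tn (tn (tn (tl 1) te) te) te) te) (tn te (tn (tn (tn (tl 2) te) te) te)))))))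

def t215 : Tr ℕ := (tn (tn (tn (tn (tn te (tn (tn (tn (tn (tl 32770) te) te) te) te)) te) te) (tn te (tn te (tn (tn (tn (tn (tn (tl 1) te) te) te) te) te)))) (tn (tn te (tn te (tn te (tn te (tn (tn (tn (tl 2) te) te) te))))) (tn (tn (tn (tn (tn (tn (tn (tl 144115188075888641) te) te) te) te) te) te) (tn te (tn (tn (tn (tn (tn (tl 2) te) te) te) te) (tn te (tn (tn (tn (tl 1) te) te) te)))))))

def t216 : Tr ℕ := (tn (tn (tn (tn (tn te (tn (tn (tn (tn (tl 16386) te) te) te) te)) te) te) (tn te (tn te (tn (tn (tn (tn (tn (tl 1) te) te) te) te) (tn te (tn (tn (tn (tl 1) te) te) te)))))) (tn (tn te (tn te (tn te (tn te (tn (tn (tn (tl 2) te) te) te))))) (tn (tn (tn (tn (tn (tn (tn (tl 144123984437346304) te) te) te) te) te) te) (tn te (tn (tn (tn (tn (tn (tl 1) te) te) te) te) (tn te (tn (tn (tn (tl 2) te) te) te)))))))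

def t217 : Tr ℕ := (tn (tn te (tn (tn (tn (tn (tn (tn (tn (tl 2) te) te) te) te) te) te) (tn te (tn (tn (tn (tn (tn (tl 1) te) te) te) te) (tn te (tn (tn (tn (tl 1) te) te) te)))))) (tn (tn te (tn te (tn te (tn te (tn (tn (tn (tl 1) te) te) te))))) (tn (tn (tn (tn (tn (tn (tn (tl 72066390130950145) te) te) te) te) te) te) te)))

def t218 : Tr ℕ := (tn (tn (tn (tn (tn te (tn (tn (tn (tn (tl 1) te) te) te) te)) te) te) (tn (tn (tn (tn (tn (tn (tn (tl 1) te) te) te) te) te) te) te)) (tn (tn te (tn te (tn te (tn te (tn (tn (tn (tl 1) te) te) te))))) (tn (tn (tn (tn (tn (tn (tn (tl 8796361474049) te) te) te) te) te) te) (tn te (tn (tn (tn (tn (tn (tl 1) te) te) te) te) (tn te (tn (tn (tn (tl 2) te) te) te)))))))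

def t219 : Tr ℕ := (tn (tn (tn (tn (tn te (tn (tn (tn (tn (tl 32768) te) te) te) te)) te) te) (tn te (tn te (tn (tn (tn (tn (tn (tl 1) te) te) te) te) (tn te (tn (tn (tn (tl 1) te) te) te)))))) (tn (tn te (tn te (tn te (tn te (tn (tn (tn (tl 2) te) te) te))))) (tn (tn (tn (tn (tn (tn (tn (tl 268435457) te) te) te) te) te) te) (tn te (tn (tn (tn (tn (tn (tl 1) te) te) te) te) (tn te (tn (tn (tn (tl 2) te) te) te)))))))

def t220 : Tr ℕ := (tn (tn (tn (tn (tn te (tn (tn (tn (tn (tl 2) te) te) te) te)) te) (tn te (tn (tn (tn (tn (tn (tl 2) te) te) te) te) te))) (tn (tn te (tn te (tn te (tn (tn (tn (tl 1) te) te) te)))) te)) (tn (tn (tn (tn (tn (tn (tn (tn (tl 1) te) te) te) te) te) te) te) (tn (tn (tn (tn (tn (tn (tn (tl 144119586390802432) te) te) te) te) te) (tn te (tn te (tn (tn (tn (tl 2) te) te) te)))) te)))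

def t221 : Tr ℕ := (tn (tn (tn (tn (tn te (tn (tn (tn (tn (tl 32769) te) te) te) te)) te) (tn te (tn (tn (tn (tn (tn (tl 2) te) te) te) te) (tn te (tn (tn (tn (tl 2) te) te) te))))) (tn (tn te (tn te (tn te (tn (tn (tn (tl 2) te) te) te)))) te)) (tn (tn te (tn te (tn (tn (tn (tn (tn (tl 1) te) te) te) te) te))) (tn (tn (tn (tn (tn (tn (tn (tl 144123984437346304) te) te) te) te) te) te) te)))

def t222 : Tr ℕ := (tn (tn (tn (tn (tn te (tn (tn (tn (tn (tl 16384) te) te) te) te)) te) (tn te (tn (tn (tn (tn (tn (tl 2) te) te) te) te) (tn te (tn (tn (tn (tl 2) te) te) te))))) te) (tn (tn (tn (tn (tn (tn (tn (tn (tl 1) te) te) te) te) te) te) (tn te (tn (tn (tn (tn (tn (tl 1) te) te) te) te) te))) (tn (tn (tn (tn (tn (tn (tn (tl 144115188075888641) te) te) te) te) te) (tn te (tn te (tn (tn (tn (tl 1) te) te) te)))) te)))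

def t223 : Tr ℕ := (tn (tn (tn (tn (tn te (tn (tn (tn (tn (tl 2) te) te) te) te)) te) (tn te (tn te (tn te (tn (tn (tn (tl 1) te) te) te))))) (tn (tn te (tn te (tn te (tn (tn (tn (tl 2) te) te) te)))) te)) (tn (tn (tn (tn (tn (tn (tn (tn (tl 2) te) te) te) te) te) te) (tn te (tn (tn (tn (tn (tn (tl 2) te) te) te) te) te))) (tn (tn (tn (tn (tn (tn (tn (tl 72061992084455425) te) te) te) te) te) te) te)))

def t224 : Tr ℕ := (tn (tn (tn (tn (tn te (tn (tn (tn (tn (tl 16386) te) te) te) te)) te) (tn te (tn (tn (tn (tn (tn (tl 1) te) te) te) te) (tn te (tn (tn (tn (tl 2) te) te) te))))) (tn (tn te (tn te (tn te (tn (tn (tn (tl 2) te) te) te)))) te)) (tn (tn (tn (tn (tn (tn (tn (tn (tl 1) te) te) te) te) te) te) (tn te (tn (tn (tn (tn (tn (tl 1) te) te) te) te) te))) (tn (tn (tn (tn (tn (tn (tn (tl 144119586390835201) te) te) te) te) te) (tn te (tn te (tn (tn (tn (tl 2) te) te) te)))) te)))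

def t225 : Tr ℕ := (tn (tn (tn (tn (tn te (tn (tn (tn (tn (tl 1) te) te) te) te)) te) (tn te (tn (tn (tn (tn (tn (tl 2) te) te) te) te) (tn te (tn (tn (tn (tl 1) te) te) te))))) te) (tn (tn te (tn te (tn (tn (tn (tn (tn (tl 2) te) te) te) te) te))) (tn (tn (tn (tn (tn (tn (tn (tl 8796629893120) te) te) te) te) te) (tn te (tn te (tn (tn (tn (tl 2) te) te) te)))) te)))

def t226 : Tr ℕ := (tn (tn (tn (tn (tn te (tn (tn (tn (tn (tl 2) te) te) te) te)) te) te) (tn (tn te (tn te (tn te (tn (tn (tn (tl 2) te) te) te)))) te)) (tn te (tn (tn (tn (tn (tn (tn (tn (tl 72061992084455425) te) te) te) te) te) te) te)))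

def t227 : Tr ℕ := (tn (tn (tn (tn (tn te (tn (tn (tn (tn (tl 32769) te) te) te) te)) (tn te (tn te (tn (tn (tn (tl 1) te) te) te)))) te) (tn (tn te (tn (tn (tn (tn (tn (tl 1) te) te) te) te) te)) te)) (tn (tn (tn te (tn te (tn te (tn (tn (tn (tl 2) te) te) te)))) te) (tn (tn (tn (tn (tn (tn (tn (tl 72057594037927936) te) te) te) te) te) (tn (tn (tn (tn (tn (tl 1) te) te) te) te) te)) te)))

def t228 : Tr ℕ := (tn (tn (tn (tn (tn te (tn (tn (tn (tn (tl 16386) te) te) te) te)) (tn te (tn te (tn (tn (tn (tl 1) te) te) te)))) te) (tn (tn te (tn (tn (tn (tn (tn (tl 2) te) te) te) te) te)) te)) (tn te (tn (tn (tn (tn (tn (tn (tn (tl 72061992352874497) te) te) te) te) te) te) (tn (tn te (tn te (tn (tn (tn (tl 1) te) te) te))) te))))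

def t229 : Tr ℕ := (tn (tn (tn (tn (tn (tn (tn (tn (tn (tl 2) te) te) te) te) (tn (tn (tn (tn (tl 16385) te) te) te) te)) (tn te (tn te (tn (tn (tn (tl 2) te) te) te)))) te) te) (tn te (tn (tn (tn (tn (tn (tn (tn (tl 144123984705781760) te) te) te) te) te) te) (tn (tn te (tn te (tn (tn (tn (tl 1) te) te) te))) te))))

def t230 : Tr ℕ := (tn (tn (tn (tn (tn (tn (tn (tn (tn (tl 1) te) te) te) te) (tn (tn (tn (tn (tl 16384) te) te) te) te)) (tn te (tn te (tn (tn (tn (tl 2) te) te) te)))) te) te) (tn (tn (tn te (tn te (tn te (tn (tn (tn (tl 1) te) te) te)))) te) (tn (tn (tn (tn (tn (tn (tn (tl 4398046543872) te) te) te) te) te) (tn (tn (tn (tn (tn (tl 2) te) te) te) te) te)) te)))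

def t231 : Tr ℕ := (tn (tn (tn (tn (tn te (tn (tn (tn (tn (tl 16385) te) te) te) te)) te) te) (tn (tn te (tn (tn (tn (tn (tn (tl 2) te) te) te) te) te)) te)) (tn (tn (tn te (tn te (tn te (tn (tn (tn (tl 2) te) te) te)))) te) (tn (tn (tn (tn (tn (tn (tn (tl 72061992084439042) te) te) te) te) te) (tn (tn (tn (tn (tn (tl 1) te) te) te) te) te)) (tn (tn te (tn te (tn (tn (tn (tl 1) te) te) te))) te))))

def t232 : Tr ℕ := (tn (tn (tn (tn (tn (tn (tn (tn (tn (tl 2) te) te) te) te) te) te) te) (tn (tn te (tn (tn (tn (tn (tn (tl 2) te) te) te) te) te)) te)) (tn te (tn (tn (tn (tn (tn (tn (tn (tl 144115188344324096) te) te) te) te) te) te) (tn (tn te (tn te (tn (tn (tn (tl 1) te) te) te))) te))))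

def t233 : Tr ℕ := (tn (tn (tn te (tn (tn te (tn te (tn (tn (tn (tl 1) te) te) te))) (tn (tn (tn (tn (tn (tl 32769) te) te) te) te) te))) (tn (tn (tn (tn (tn (tn (tn (tl 536887298) te) te) te) te) te) te) (tn te (tn (tn (tn (tn (tn (tl 16384) te) te) te) te) te)))) (tn (tn (tn (tn (tn (tn (tn (tn (tl 144123984705765377) te) te) te) te) (tn te (tn (tn (tn (tl 1) te) te) te))) (tn (tn (tn (tn (tn (tl 2) te) te) te) te) te)) (tn (tn te (tn te (tn (tn (tn (tl 2) te) te) te))) (tn (tn (tn (tn (tn (tl 32770) te) te) te) te) te))) (tn (tn (tn (tn (tn (tn (tn (tl 19345174369141892017324034) te) te) te) te) (tn te (tn (tn (tn (tl 2) te) te) te))) te) te)))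

def t234 : Tr ℕ := (tn (tn (tn (tn (tn te (tn te (tn (tn (tn (tl 2) te) te) te))) (tn (tn (tn (tn (tn (tl 1) te) te) te) te) te)) (tn (tn te (tn te (tn (tn (tn (tl 1) te) te) te))) (tn (tn (tn (tn (tn (tl 2) te) te) te) te) te))) (tn (tn (tn (tn (tn (tn (tn (tl 72066390130982913) te) te) te) te) (tn te (tn (tn (tn (tl 2) te) te) te))) te) (tn te (tn (tn (tn (tn (tn (tl 32769) te) te) te) te) te)))) (tn (tn (tn (tn (tn (tn (tn (tn (tl 72057594037944321) te) te) te) te) (tn te (tn (tn (tn (tl 2) te) te) te))) (tn (tn (tn (tn (tn (tl 1) te) te) te) te) te)) (tn (tn te (tn te (tn (tn (tn (tl 1) te) te) te))) (tn (tn (tn (tn (tn (tl 16385) te) te) te) te) te))) (tn (tn (tn (tn (tn (tn (tn (tl 38687987410913966728183810) te) te) te) te) (tn te (tn (tn (tn (tl 1) te) te) te))) te) (tn te (tn (tn (tn (tn (tn (tl 16384) te) te) te) te) te)))))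

def t235 : Tr ℕ := (tn (tn (tn te (tn te (tn (tn (tn (tn (tn (tl 16384) te) te) te) te) te))) (tn (tn (tn (tn (tn (tn (tn (tl 268468224) te) te) te) te) te) te) (tn te (tn (tn (tn (tn (tn (tl 2) te) te) te) te) te)))) (tn (tn (tn (tn (tn (tn (tn (tn (tl 8796629893121) te) te) te) te) (tn te (tn (tn (tn (tl 2) te) te) te))) (tn (tn (tn (tn (tn (tl 1) te) te) te) te) te)) (tn te (tn (tn (tn (tn (tn (tl 16385) te) te) te) te) te))) (tn (tn (tn (tn (tn (tn (tn (tl 19345174441199486323687426) te) te) te) te) te) te) (tn te (tn (tn (tn (tn (tn (tl 16384) te) te) te) te) te)))))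

def t236 : Tr ℕ := (tn (tn (tn (tn (tn te (tn te (tn (tn (tn (tl 2) te) te) te))) (tn (tn (tn (tn (tn (tl 1) te) te) te) te) te)) (tn (tn te (tn te (tn (tn (tn (tl 2) te) te) te))) (tn (tn (tn (tn (tn (tl 16384) te) te) te) te) te))) (tn (tn (tn (tn (tn (tn (tn (tl 144119586122366976) te) te) te) te) (tn te (tn (tn (tn (tl 1) te) te) te))) te) (tn te (tn (tn (tn (tn (tn (tl 32768) te) te) te) te) te)))) (tn (tn (tn (tn (tn (tn (tn (tn (tl 4398583398400) te) te) te) te) (tn te (tn (tn (tn (tl 1) te) te) te))) (tn (tn (tn (tn (tn (tl 2) te) te) te) te) te)) (tn (tn te (tn te (tn (tn (tn (tl 2) te) te) te))) (tn (tn (tn (tn (tn (tl 32770) te) te) te) te) te))) (tn (tn (tn (tn (tn (tn (tn (tl 19345174369133095924301826) te) te) te) te) (tn te (tn (tn (tn (tl 2) te) te) te))) te) te)))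

def t237 : Tr ℕ := (tn (tn (tn te (tn (tn te (tn te (tn (tn (tn (tl 1) te) te) te))) (tn (tn (tn (tn (tn (tl 32769) te) te) te) te) te))) (tn (tn (tn (tn (tn (tn (tn (tl 72061992352874497) te) te) te) te) te) te) (tn te (tn (tn (tn (tn (tn (tl 16384) te) te) te) te) te)))) (tn (tn (tn (tn (tn (tn (tn (tn (tl 144115188075872256) te) te) te) te) te) te) (tn (tn te (tn te (tn (tn (tn (tl 1) te) te) te))) te)) (tn (tn (tn (tn (tn (tn (tn (tl 1180591625115994718209) te) te) te) te) (tn te (tn (tn (tn (tl 1) te) te) te))) te) te)))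

def t238 : Tr ℕ := (tn (tn (tn te (tn te (tn (tn (tn (tn (tn (tl 32770) te) te) te) te) te))) (tn (tn (tn (tn (tn (tn (tn (tl 268435457) te) te) te) te) te) te) (tn te (tn (tn (tn (tn (tn (tl 32768) te) te) te) te) te)))) (tn (tn (tn (tn (tn (tn (tn (tn (tl 144119586122399744) te) te) te) te) te) te) (tn te (tn (tn (tn (tn (tn (tl 32770) te) te) te) te) te))) (tn (tn (tn (tn (tn (tn (tn (tl 144115188344324096) te) te) te) te) te) te) (tn te (tn (tn (tn (tn (tn (tl 32768) te) te) te) te) te)))))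

def t239 : Tr ℕ := (tn (tn (tn te (tn (tn te (tn te (tn (tn (tn (tl 1) te) te) te))) (tn (tn (tn (tn (tn (tl 2) te) te) te) te) te))) (tn (tn (tn (tn (tn (tn (tn (tl 72066390130950146) te) te) te) te) (tn te (tn (tn (tn (tl 2) te) te) te))) te) (tn te (tn (tn (tn (tn (tn (tl 32769) te) te) te) te) te)))) (tn (tn (tn (tn (tn (tn (tn (tn (tl 4398583382016) te) te) te) te) (tn te (tn (tn (tn (tl 2) te) te) te))) te) (tn (tn te (tn te (tn (tn (tn (tl 2) te) te) te))) (tn (tn (tn (tn (tn (tl 32768) te) te) te) te) te))) (tn (tn (tn (tn (tn (tn (tn (tl 19342813113834066795298816) te) te) te) te) te) te) (tn te (tn (tn (tn (tn (tn (tl 2) te) te) te) te) te)))))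

def t240 : Tr ℕ := (tn (tn (tn (tn (tn te (tn te (tn (tn (tn (tl 1) te) te) te))) te) (tn (tn te (tn te (tn (tn (tn (tl 1) te) te) te))) (tn (tn (tn (tn (tn (tl 16385) te) te) te) te) te))) (tn (tn (tn (tn (tn (tn (tn (tl 144119586122366978) te) te) te) te) (tn te (tn (tn (tn (tl 1) te) te) te))) te) (tn te (tn (tn (tn (tn (tn (tl 32768) te) te) te) te) te)))) (tn (tn (tn (tn (tn (tn (tn (tn (tl 72057594574831616) te) te) te) te) (tn te (tn (tn (tn (tl 1) te) te) te))) (tn (tn (tn (tn (tn (tl 2) te) te) te) te) te)) (tn te (tn (tn (tn (tn (tn (tl 16384) te) te) te) te) te))) (tn (tn (tn (tn (tn (tn (tn (tl 19342813113838464841842689) te) te) te) te) (tn te (tn (tn (tn (tl 2) te) te) te))) te) (tn te (tn (tn (tn (tn (tn (tl 2) te) te) te) te) te)))))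

def t241 : Tr ℕ := (tn (tn (tn (tn te (tn (tn (tn (tn (tn (tl 2) te) te) te) te) te)) (tn (tn te (tn te (tn (tn (tn (tl 2) te) te) te))) (tn (tn (tn (tn (tn (tl 16384) te) te) te) te) te))) (tn (tn (tn (tn (tn (tn (tn (tl 4398314979330) te) te) te) te) (tn te (tn (tn (tn (tl 1) te) te) te))) te) (tn (tn te (tn te (tn (tn (tn (tl 2) te) te) te))) (tn (tn (tn (tn (tn (tl 32768) te) te) te) te) te)))) (tn (tn (tn (tn (tn (tn (tn (tn (tl 8796093022210) te) te) te) te) te) te) (tn (tn te (tn te (tn (tn (tn (tl 1) te) te) te))) (tn (tn (tn (tn (tn (tl 16386) te) te) te) te) te))) (tn (tn (tn (tn (tn (tn (tn (tl 19343993849578768643932162) te) te) te) te) (tn te (tn (tn (tn (tl 2) te) te) te))) te) (tn te (tn (tn (tn (tn (tn (tl 16385) te) te) te) te) te)))))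

def t242 : Tr ℕ := (tn (tn (tn (tn (tn te (tn te (tn (tn (tn (tl 2) te) te) te))) (tn (tn (tn (tn (tn (tl 2) te) te) te) te) te)) (tn te (tn (tn (tn (tn (tn (tl 16385) te) te) te) te) te))) (tn (tn (tn (tn (tn (tn (tn (tl 72057594306379777) te) te) te) te) te) te) (tn (tn te (tn te (tn (tn (tn (tl 1) te) te) te))) (tn (tn (tn (tn (tn (tl 32768) te) te) te) te) te)))) (tn (tn (tn (tn (tn (tn (tn (tn (tl 144123984705781762) te) te) te) te) (tn te (tn (tn (tn (tl 1) te) te) te))) (tn (tn (tn (tn (tn (tl 1) te) te) te) te) te)) (tn (tn te (tn te (tn (tn (tn (tl 2) te) te) te))) (tn (tn (tn (tn (tn (tl 32768) te) te) te) te) te))) (tn (tn (tn (tn (tn (tn (tn (tl 38685626371792118296379394) te) te) te) te) (tn te (tn (tn (tn (tl 2) te) te) te))) te) (tn te (tn (tn (tn (tn (tn (tl 32770) te) te) te) te) te)))))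

def t243 : Tr ℕ := (tn (tn (tn (tn (tn te (tn te (tn (tn (tn (tl 1) te) te) te))) te) (tn (tn te (tn te (tn (tn (tn (tl 2) te) te) te))) (tn (tn (tn (tn (tn (tl 16384) te) te) te) te) te))) (tn (tn (tn (tn (tn (tn (tn (tl 144123984437346306) te) te) te) te) (tn te (tn (tn (tn (tl 2) te) te) te))) te) (tn (tn te (tn te (tn (tn (tn (tl 1) te) te) te))) te))) (tn (tn (tn (tn (tn (tn (tn (tn (tl 8796629909505) te) te) te) te) te) (tn (tn (tn (tn (tn (tl 2) te) te) te) te) te)) (tn (tn te (tn te (tn (tn (tn (tl 1) te) te) te))) (tn (tn (tn (tn (tn (tl 32770) te) te) te) te) te))) (tn (tn (tn (tn (tn (tn (tn (tl 19343993705454784475070464) te) te) te) te) te) te) (tn te (tn (tn (tn (tn (tn (tl 32769) te) te) te) te) te)))))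

def t244 : Tr ℕ := (tn (tn (tn (tn te (tn (tn (tn (tn (tn (tl 1) te) te) te) te) te)) te) (tn (tn (tn (tn (tn (tn (tn (tl 72066390399401984) te) te) te) te) (tn te (tn (tn (tn (tl 1) te) te) te))) te) (tn te (tn (tn (tn (tn (tn (tl 32768) te) te) te) te) te)))) (tn (tn (tn (tn (tn (tn (tn (tn (tl 4398583414784) te) te) te) te) te) (tn (tn (tn (tn (tn (tl 1) te) te) te) te) te)) (tn (tn te (tn te (tn (tn (tn (tl 2) te) te) te))) (tn (tn (tn (tn (tn (tl 2) te) te) te) te) te))) (tn (tn (tn (tn (tn (tn (tn (tl 1180735740303533686786) te) te) te) te) (tn te (tn (tn (tn (tl 2) te) te) te))) te) (tn te (tn (tn (tn (tn (tn (tl 32769) te) te) te) te) te)))))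

def t245 : Tr ℕ := (tn (tn (tn (tn te (tn (tn (tn (tn (tn (tl 1) te) te) te) te) te)) (tn te (tn (tn (tn (tn (tn (tl 32768) te) te) te) te) te))) (tn (tn (tn (tn (tn (tn (tn (tl 8796093054978) te) te) te) te) te) te) (tn te (tn (tn (tn (tn (tn (tl 1) te) te) te) te) te)))) (tn (tn (tn (tn (tn (tn (tn (tn (tl 8796093054977) te) te) te) te) (tn te (tn (tn (tn (tl 2) te) te) te))) te) (tn (tn te (tn te (tn (tn (tn (tl 2) te) te) te))) (tn (tn (tn (tn (tn (tl 32770) te) te) te) te) te))) (tn (tn (tn (tn (tn (tn (tn (tl 2361183241435359510528) te) te) te) te) te) te) (tn te (tn (tn (tn (tn (tn (tl 16384) te) te) te) te) te)))))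

def t246 : Tr ℕ := (tn (tn (tn (tn (tn te (tn te (tn (tn (tn (tl 2) te) te) te))) (tn (tn (tn (tn (tn (tl 1) te) te) te) te) te)) (tn (tn te (tn te (tn (tn (tn (tl 1) te) te) te))) (tn (tn (tn (tn (tn (tl 2) te) te) te) te) te))) (tn (tn (tn (tn (tn (tn (tn (tl 144119586122366976) te) te) te) te) te) te) (tn (tn te (tn te (tn (tn (tn (tl 2) te) te) te))) te))) (tn (tn (tn (tn (tn (tn (tn (tn (tl 144115188344324097) te) te) te) te) te) (tn (tn (tn (tn (tn (tl 2) te) te) te) te) te)) (tn (tn te (tn te (tn (tn (tn (tl 1) te) te) te))) (tn (tn (tn (tn (tn (tl 32768) te) te) te) te) te))) (tn (tn (tn (tn (tn (tn (tn (tl 38685626299734523990016002) te) te) te) te) (tn te (tn (tn (tn (tl 2) te) te) te))) te) (tn te (tn (tn (tn (tn (tn (tl 16386) te) te) te) te) te)))))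

def t247 : Tr ℕ := (tn (tn (tn (tn (tn te (tn te (tn (tn (tn (tl 2) te) te) te))) (tn (tn (tn (tn (tn (tl 2) te) te) te) te) te)) (tn (tn te (tn te (tn (tn (tn (tl 2) te) te) te))) (tn (tn (tn (tn (tn (tl 32770) te) te) te) te) te))) (tn (tn (tn (tn (tn (tn (tn (tl 144123984705781760) te) te) te) te) te) te) (tn (tn te (tn te (tn (tn (tn (tl 1) te) te) te))) (tn (tn (tn (tn (tn (tl 2) te) te) te) te) te)))) (tn (tn (tn (tn (tn (tn (tn (tn (tl 4398314946560) te) te) te) te) te) (tn (tn (tn (tn (tn (tl 1) te) te) te) te) te)) (tn te (tn (tn (tn (tn (tn (tl 16384) te) te) te) te) te))) (tn (tn (tn (tn (tn (tn (tn (tl 38687987555033553118969857) te) te) te) te) te) te) (tn te (tn (tn (tn (tn (tn (tl 16386) te) te) te) te) te)))))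

def t248 : Tr ℕ := (tn (tn (tn (tn te (tn (tn (tn (tn (tn (tl 2) te) te) te) te) te)) (tn (tn te (tn te (tn (tn (tn (tl 1) te) te) te))) (tn (tn (tn (tn (tn (tl 1) te) te) te) te) te))) (tn (tn (tn (tn (tn (tn (tn (tl 4398046511106) te) te) te) te) (tn te (tn (tn (tn (tl 1) te) te) te))) te) (tn (tn te (tn te (tn (tn (tn (tl 2) te) te) te))) (tn (tn (tn (tn (tn (tl 16385) te) te) te) te) te)))) (tn (tn (tn (tn (tn (tn (tn (tn (tl 8796093038593) te) te) te) te) (tn te (tn (tn (tn (tl 1) te) te) te))) te) (tn (tn te (tn te (tn (tn (tn (tl 1) te) te) te))) (tn (tn (tn (tn (tn (tl 32768) te) te) te) te) te))) (tn (tn (tn (tn (tn (tn (tn (tl 1180735744702117068802) te) te) te) te) (tn te (tn (tn (tn (tl 2) te) te) te))) te) (tn te (tn (tn (tn (tn (tn (tl 16386) te) te) te) te) te)))))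

def t249 : Tr ℕ := (tn (tn (tn (tn (tn te (tn te (tn (tn (tn (tl 1) te) te) te))) (tn (tn (tn (tn (tn (tl 1) te) te) te) te) te)) (tn te (tn (tn (tn (tn (tn (tl 16385) te) te) te) te) te))) (tn (tn (tn (tn (tn (tn (tn (tl 144123984705765376) te) te) te) te) te) te) (tn te (tn (tn (tn (tn (tn (tl 32768) te) te) te) te) te)))) (tn (tn (tn (tn (tn (tn (tn (tn (tl 4398314979328) te) te) te) te) (tn te (tn (tn (tn (tl 1) te) te) te))) (tn (tn (tn (tn (tn (tl 2) te) te) te) te) te)) (tn te (tn (tn (tn (tn (tn (tl 16386) te) te) te) te) te))) (tn (tn (tn (tn (tn (tn (tn (tl 2361327365419528355841) te) te) te) te) (tn te (tn (tn (tn (tl 1) te) te) te))) te) (tn te (tn (tn (tn (tn (tn (tl 1) te) te) te) te) te)))))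

def t250 : Tr ℕ := (tn (tn (tn (tn (tn te (tn te (tn (tn (tn (tl 2) te) te) te))) te) (tn te (tn (tn (tn (tn (tn (tl 2) te) te) te) te) te))) (tn (tn (tn (tn (tn (tn (tn (tl 72066390130982913) te) te) te) te) te) te) (tn te (tn (tn (tn (tn (tn (tl 16385) te) te) te) te) te)))) (tn (tn (tn (tn (tn (tn (tn (tn (tl 72061992621342721) te) te) te) te) (tn te (tn (tn (tn (tl 2) te) te) te))) (tn (tn (tn (tn (tn (tl 1) te) te) te) te) te)) (tn (tn te (tn te (tn (tn (tn (tl 2) te) te) te))) (tn (tn (tn (tn (tn (tl 16386) te) te) te) te) te))) (tn (tn (tn (tn (tn (tn (tn (tl 1180591625115726282752) te) te) te) te) (tn te (tn (tn (tn (tl 2) te) te) te))) te) (tn te (tn (tn (tn (tn (tn (tl 16384) te) te) te) te) te)))))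

def t251 : Tr ℕ := (tn (tn (tn (tn (tn te (tn te (tn (tn (tn (tl 1) te) te) te))) (tn (tn (tn (tn (tn (tl 1) te) te) te) te) te)) (tn te (tn (tn (tn (tn (tn (tl 1) te) te) te) te) te))) (tn (tn (tn (tn (tn (tn (tn (tl 144115188075855872) te) te) te) te) te) te) (tn (tn te (tn te (tn (tn (tn (tl 2) te) te) te))) (tn (tn (tn (tn (tn (tl 32769) te) te) te) te) te)))) (tn (tn (tn (tn (tn (tn (tn (tn (tl 16386) te) te) te) te) (tn te (tn (tn (tn (tl 1) te) te) te))) (tn (tn (tn (tn (tn (tl 2) te) te) te) te) te)) (tn (tn te (tn te (tn (tn (tn (tl 2) te) te) te))) (tn (tn (tn (tn (tn (tl 2) te) te) te) te) te))) (tn (tn (tn (tn (tn (tn (tn (tl 1180735744702117068802) te) te) te) te) (tn te (tn (tn (tn (tl 2) te) te) te))) te) (tn te (tn (tn (tn (tn (tn (tl 32768) te) te) te) te) te)))))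

def t252 : Tr ℕ := (tn (tn (tn te (tn (tn te (tn te (tn (tn (tn (tl 1) te) te) te))) te)) (tn (tn (tn (tn (tn (tn (tn (tl 144123984437329922) te) te) te) te) (tn te (tn (tn (tn (tl 1) te) te) te))) te) (tn (tn te (tn te (tn (tn (tn (tl 1) te) te) te))) te))) (tn (tn (tn (tn (tn (tn (tn (tn (tl 144115188612759552) te) te) te) te) (tn te (tn (tn (tn (tl 1) te) te) te))) (tn (tn (tn (tn (tn (tl 1) te) te) te) te) te)) te) (tn (tn (tn (tn (tn (tn (tn (tl 38685626227672532174012417) te) te) te) te) te) te) (tn te (tn (tn (tn (tn (tn (tl 32770) te) te) te) te) te)))))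

def t253 : Tr ℕ := (tn (tn (tn (tn (tn te (tn te (tn (tn (tn (tl 1) te) te) te))) te) (tn (tn te (tn te (tn (tn (tn (tl 2) te) te) te))) (tn (tn (tn (tn (tn (tl 32768) te) te) te) te) te))) (tn (tn (tn (tn (tn (tn (tn (tl 144115188075888640) te) te) te) te) (tn te (tn (tn (tn (tl 2) te) te) te))) te) te)) (tn (tn (tn (tn (tn (tn (tn (tn (tl 144119586390818817) te) te) te) te) (tn te (tn (tn (tn (tl 1) te) te) te))) (tn (tn (tn (tn (tn (tl 2) te) te) te) te) te)) (tn te (tn (tn (tn (tn (tn (tl 2) te) te) te) te) te))) (tn (tn (tn (tn (tn (tn (tn (tl 38687987555029154804006912) te) te) te) te) (tn te (tn (tn (tn (tl 2) te) te) te))) te) (tn te (tn (tn (tn (tn (tn (tl 16384) te) te) te) te) te)))))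

def t254 : Tr ℕ := (tn (tn (tn (tn (tn te (tn te (tn (tn (tn (tl 2) te) te) te))) (tn (tn (tn (tn (tn (tl 2) te) te) te) te) te)) (tn te (tn (tn (tn (tn (tn (tl 2) te) te) te) te) te))) (tn (tn (tn (tn (tn (tn (tn (tl 72061992621326338) te) te) te) te) te) te) (tn (tn te (tn te (tn (tn (tn (tl 2) te) te) te))) (tn (tn (tn (tn (tn (tl 16386) te) te) te) te) te)))) (tn (tn (tn (tn (tn (tn (tn (tn (tl 72057594306396162) te) te) te) te) (tn te (tn (tn (tn (tl 1) te) te) te))) te) (tn (tn te (tn te (tn (tn (tn (tl 2) te) te) te))) (tn (tn (tn (tn (tn (tl 16386) te) te) te) te) te))) (tn (tn (tn (tn (tn (tn (tn (tl 8796093022208) te) te) te) te) (tn te (tn (tn (tn (tl 2) te) te) te))) te) (tn te (tn (tn (tn (tn (tn (tl 16385) te) te) te) te) te)))))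

def t255 : Tr ℕ := (tn (tn (tn (tn te (tn (tn (tn (tn (tn (tl 1) te) te) te) te) te)) (tn te (tn (tn (tn (tn (tn (tl 32769) te) te) te) te) te))) (tn (tn (tn (tn (tn (tn (tn (tl 4398046543874) te) te) te) te) te) te) (tn te (tn (tn (tn (tn (tn (tl 32768) te) te) te) te) te)))) (tn (tn (tn (tn (tn (tn (tn (tn (tl 4398583398401) te) te) te) te) (tn te (tn (tn (tn (tl 1) te) te) te))) (tn (tn (tn (tn (tn (tl 2) te) te) te) te) te)) (tn te (tn (tn (tn (tn (tn (tl 2) te) te) te) te) te))) (tn (tn (tn (tn (tn (tn (tn (tl 2361327361020945006592) te) te) te) te) (tn te (tn (tn (tn (tl 1) te) te) te))) te) (tn te (tn (tn (tn (tn (tn (tl 2) te) te) te) te) te)))))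

def t256 : Tr ℕ := (tn (tn (tn (tn (tn te (tn te (tn (tn (tn (tl 2) te) te) te))) (tn (tn (tn (tn (tn (tl 1) te) te) te) te) te)) (tn (tn te (tn te (tn (tn (tn (tl 1) te) te) te))) (tn (tn (tn (tn (tn (tl 32770) te) te) te) te) te))) (tn (tn (tn (tn (tn (tn (tn (tl 72057594306363393) te) te) te) te) (tn te (tn (tn (tn (tl 2) te) te) te))) te) (tn (tn te (tn te (tn (tn (tn (tl 2) te) te) te))) (tn (tn (tn (tn (tn (tl 16386) te) te) te) te) te)))) (tn (tn (tn (tn (tn (tn (tn (tn (tl 8796629893121) te) te) te) te) (tn te (tn (tn (tn (tl 2) te) te) te))) (tn (tn (tn (tn (tn (tl 1) te) te) te) te) te)) (tn te (tn (tn (tn (tn (tn (tl 2) te) te) te) te) te))) (tn (tn (tn (tn (tn (tn (tn (tl 144119586659237890) te) te) te) te) te) te) (tn te (tn (tn (tn (tn (tn (tl 32770) te) te) te) te) te)))))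

def t257 : Tr ℕ := (tn (tn (tn (tn te (tn (tn (tn (tn (tn (tl 2) te) te) te) te) te)) (tn (tn te (tn te (tn (tn (tn (tl 1) te) te) te))) (tn (tn (tn (tn (tn (tl 16386) te) te) te) te) te))) (tn (tn (tn (tn (tn (tn (tn (tl 4398314979328) te) te) te) te) te) te) (tn (tn te (tn te (tn (tn (tn (tl 1) te) te) te))) (tn (tn (tn (tn (tn (tl 32768) te) te) te) te) te)))) (tn (tn (tn (tn (tn (tn (tn (tn (tl 144119586122366978) te) te) te) te) (tn te (tn (tn (tn (tl 1) te) te) te))) (tn (tn (tn (tn (tn (tl 1) te) te) te) te) te)) (tn te (tn (tn (tn (tn (tn (tl 2) te) te) te) te) te))) (tn (tn (tn (tn (tn (tn (tn (tl 19342813185891661370114048) te) te) te) te) (tn te (tn (tn (tn (tl 2) te) te) te))) te) (tn te (tn (tn (tn (tn (tn (tl 32770) te) te) te) te) te)))))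

def t258 : Tr ℕ := (tn (tn (tn (tn (tn (tn (tn (tn (tn (tl 8796093038593) te) te) te) te) te) te) te) (tn (tn (tn (tn (tn (tn (tn (tl 72066390130982913) te) te) te) te) te) (tn (tn (tn (tn (tn (tl 1) te) te) te) te) te)) (tn te (tn (tn (tn (tn (tn (tl 1) te) te) te) te) te)))) (tn (tn te (tn te (tn (tn te (tn (tn (tn (tl 2) te) te) te)) te))) (tn (tn (tn (tn (tn (tn (tn (tl 144123984437346305) te) te) te) te) te) (tn (tn (tn (tn (tn (tl 16385) te) te) te) (tn (tn (tn (tl 2) te) te) te)) te)) (tn (tn (tn (tn (tn (tn (tl 1) te) te) te) te) te) (tn (tn te (tn (tn (tn (tl 2) te) te) te)) te)))))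

def t259 : Tr ℕ := (tn (tn (tn (tn (tn (tn (tn (tn (tn (tl 4398046543873) te) te) te) te) te) te) te) (tn (tn (tn (tn (tn (tn (tn (tl 8796093054976) te) te) te) te) te) (tn (tn (tn (tn (tn (tl 2) te) te) te) te) te)) (tn te (tn (tn (tn (tn (tn (tl 32770) te) te) te) (tn (tn (tn (tl 1) te) te) te)) te)))) (tn (tn te (tn te (tn (tn te (tn (tn (tn (tl 2) te) te) te)) te))) (tn (tn (tn (tn (tn (tn (tn (tl 536903682) te) te) te) te) te) (tn (tn (tn (tn (tn (tl 32770) te) te) te) (tn (tn (tn (tl 1) te) te) te)) te)) (tn (tn (tn (tn (tn (tn (tl 2) te) te) te) te) te) (tn (tn (tn (tn (tn (tl 16385) te) te) te) (tn (tn (tn (tl 2) te) te) te)) te)))))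

def t260 : Tr ℕ := (tn (tn (tn (tn (tn (tn (tn (tn (tn (tl 4398583382016) te) te) te) te) te) te) te) (tn (tn (tn (tn (tn (tn (tn (tl 144123984168878080) te) te) te) te) te) (tn (tn (tn (tn (tn (tl 32769) te) te) te) te) te)) (tn te (tn (tn (tn (tn (tn (tl 1) te) te) te) te) te)))) (tn (tn te (tn te (tn (tn te (tn (tn (tn (tl 2) te) te) te)) te))) (tn (tn (tn (tn (tn (tn (tn (tl 144115188612759554) te) te) te) te) te) (tn (tn (tn (tn (tn (tl 2) te) te) te) (tn (tn (tn (tl 2) te) te) te)) te)) (tn te (tn (tn (tn (tn (tn (tl 1) te) te) te) (tn (tn (tn (tl 1) te) te) te)) te)))))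

def t261 : Tr ℕ := (tn (tn (tn (tn (tn (tn (tn (tn (tn (tl 144115188344307714) te) te) te) te) te) te) (tn te (tn (tn te (tn (tn (tn (tl 1) te) te) te)) te))) (tn (tn (tn (tn (tn (tn (tn (tl 144119586122366977) te) te) te) te) te) (tn (tn (tn (tn (tn (tl 1) te) te) te) te) te)) (tn te (tn (tn (tn (tn (tn (tl 32769) te) te) te) (tn (tn (tn (tl 1) te) te) te)) te)))) (tn (tn te (tn te (tn (tn te (tn (tn (tn (tl 1) te) te) te)) te))) (tn (tn (tn (tn (tn (tn (tn (tl 72061992621342721) te) te) te) te) te) (tn (tn (tn (tn (tn (tl 16384) te) te) te) (tn (tn (tn (tl 1) te) te) te)) te)) (tn (tn (tn (tn (tn (tn (tl 2) te) te) te) te) te) (tn (tn (tn (tn (tn (tl 2) te) te) te) (tn (tn (tn (tl 2) te) te) te)) te)))))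

def t262 : Tr ℕ := (tn (tn (tn (tn (tn (tn (tn (tn (tn (tl 144119586390802434) te) te) te) te) te) te) (tn te (tn (tn te (tn (tn (tn (tl 2) te) te) te)) te))) (tn (tn (tn (tn (tn (tn (tn (tl 8796361474049) te) te) te) te) te) (tn (tn (tn (tn (tn (tl 16384) te) te) te) te) te)) (tn te (tn (tn (tn (tn (tn (tl 1) te) te) te) (tn (tn (tn (tl 2) te) te) te)) te)))) (tn (tn te (tn te (tn (tn te (tn (tn (tn (tl 2) te) te) te)) te))) (tn (tn (tn (tn (tn (tn (tn (tl 8796629893121) te) te) te) te) te) (tn (tn (tn (tn (tn (tl 16386) te) te) te) (tn (tn (tn (tl 2) te) te) te)) te)) (tn (tn (tn (tn (tn (tn (tl 2) te) te) te) te) te) (tn (tn (tn (tn (tn (tl 16386) te) te) te) te) te)))))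

def t263 : Tr ℕ := (tn (tn (tn (tn (tn (tn (tn (tn (tn (tl 144115188075888640) te) te) te) te) te) te) te) (tn (tn (tn (tn (tn (tn (tn (tl 8796361457665) te) te) te) te) te) (tn (tn (tn (tn (tn (tl 16386) te) te) te) te) te)) (tn te (tn (tn (tn (tn (tn (tl 32768) te) te) te) (tn (tn (tn (tl 2) te) te) te)) te)))) (tn (tn te (tn te (tn (tn te (tn (tn (tn (tl 2) te) te) te)) te))) (tn (tn (tn (tn (tn (tn (tn (tl 72057594037944321) te) te) te) te) te) (tn (tn (tn (tn (tn (tl 32769) te) te) te) (tn (tn (tn (tl 1) te) te) te)) te)) (tn te (tn (tn (tn (tn (tn (tl 1) te) te) te) (tn (tn (tn (tl 1) te) te) te)) te)))))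

def t264 : Tr ℕ := (tn (tn (tn (tn (tn (tn (tn (tn (tn (tl 72061992352874498) te) te) te) te) te) te) (tn te (tn (tn te (tn (tn (tn (tl 2) te) te) te)) te))) (tn (tn (tn (tn (tn (tn (tn (tl 268435457) te) te) te) te) te) (tn (tn (tn (tn (tn (tl 1) te) te) te) te) te)) (tn te (tn (tn (tn (tn (tn (tl 1) te) te) te) (tn (tn (tn (tl 1) te) te) te)) te)))) (tn te (tn (tn (tn (tn (tn (tn (tn (tl 144115188612759554) te) te) te) te) te) (tn (tn (tn (tn (tn (tl 2) te) te) te) te) te)) (tn (tn (tn (tn (tn (tn (tl 2) te) te) te) te) te) (tn (tn (tn (tn (tn (tl 16384) te) te) te) (tn (tn (tn (tl 2) te) te) te)) te)))))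

def t265 : Tr ℕ := (tn (tn (tn (tn (tn (tn (tn (tn (tn (tl 144119586390835202) te) te) te) te) te) te) (tn te (tn (tn te (tn (tn (tn (tl 1) te) te) te)) te))) (tn (tn (tn (tn (tn (tn (tn (tl 144119586390802434) te) te) te) te) te) (tn (tn (tn (tn (tn (tl 2) te) te) te) te) te)) (tn te (tn (tn te (tn (tn (tn (tl 1) te) te) te)) te)))) (tn (tn te (tn te (tn (tn te (tn (tn (tn (tl 2) te) te) te)) te))) (tn (tn (tn (tn (tn (tn (tn (tl 144123984437313538) te) te) te) te) te) (tn (tn te (tn (tn (tn (tl 1) te) te) te)) te)) (tn (tn (tn (tn (tn (tn (tl 1) te) te) te) te) te) (tn (tn te (tn (tn (tn (tl 1) te) te) te)) te)))))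

def t266 : Tr ℕ := (tn (tn (tn (tn (tn (tn (tn (tn (tn (tl 144119586390802433) te) te) te) te) te) te) te) (tn (tn (tn (tn (tn (tn (tn (tl 144123984168878082) te) te) te) te) te) (tn (tn (tn (tn (tn (tl 32768) te) te) te) te) te)) (tn te (tn (tn (tn (tn (tn (tl 32768) te) te) te) te) te)))) (tn (tn te (tn te (tn (tn te (tn (tn (tn (tl 1) te) te) te)) te))) (tn (tn (tn (tn (tn (tn (tn (tl 144119586122399744) te) te) te) te) te) (tn (tn (tn (tn (tn (tl 16384) te) te) te) te) te)) (tn (tn (tn (tn (tn (tn (tl 2) te) te) te) te) te) (tn (tn (tn (tn (tn (tl 16386) te) te) te) (tn (tn (tn (tl 1) te) te) te)) te)))))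

def t267 : Tr ℕ := (tn (tn (tn (tn (tn (tn (tn (tn (tn (tl 72066390667837441) te) te) te) te) te) te) te) (tn (tn (tn (tn (tn (tn (tn (tl 144119586659270658) te) te) te) te) te) (tn (tn (tn (tn (tn (tl 32769) te) te) te) te) te)) (tn te (tn (tn te (tn (tn (tn (tl 2) te) te) te)) te)))) (tn te (tn (tn (tn (tn (tn (tn (tn (tl 144123984437329920) te) te) te) te) te) (tn (tn te (tn (tn (tn (tl 2) te) te) te)) te)) (tn (tn (tn (tn (tn (tn (tl 1) te) te) te) te) te) (tn (tn (tn (tn (tn (tl 16385) te) te) te) (tn (tn (tn (tl 2) te) te) te)) te)))))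

def t268 : Tr ℕ := (tn (tn (tn (tn (tn (tn (tn (tn (tn (tl 144119586659237889) te) te) te) te) te) te) (tn te (tn (tn te (tn (tn (tn (tl 1) te) te) te)) te))) (tn (tn (tn (tn (tn (tn (tn (tl 72057594037960705) te) te) te) te) te) (tn (tn (tn (tn (tn (tl 16385) te) te) te) te) te)) (tn te (tn (tn te (tn (tn (tn (tl 2) te) te) te)) te)))) (tn (tn te (tn te (tn (tn te (tn (tn (tn (tl 1) te) te) te)) te))) (tn (tn (tn (tn (tn (tn (tn (tl 144123984705765378) te) te) te) te) te) (tn (tn (tn (tn (tn (tl 1) te) te) te) te) te)) (tn te (tn (tn te (tn (tn (tn (tl 2) te) te) te)) te)))))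

def t269 : Tr ℕ := (tn (tn (tn (tn (tn (tn (tn (tn (tn (tl 72061992621326338) te) te) te) te) te) te) (tn te (tn (tn te (tn (tn (tn (tl 1) te) te) te)) te))) (tn (tn (tn (tn (tn (tn (tn (tl 4398046511104) te) te) te) te) te) (tn (tn (tn (tn (tn (tl 16384) te) te) te) te) te)) (tn te (tn (tn (tn (tn (tn (tl 16386) te) te) te) (tn (tn (tn (tl 2) te) te) te)) te)))) (tn (tn te (tn te (tn (tn te (tn (tn (tn (tl 2) te) te) te)) te))) (tn (tn (tn (tn (tn (tn (tn (tl 4398314946562) te) te) te) te) te) te) (tn (tn (tn (tn (tn (tn (tl 2) te) te) te) te) te) (tn (tn (tn (tn (tn (tl 32770) te) te) te) (tn (tn (tn (tl 1) te) te) te)) te)))))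

def t270 : Tr ℕ := (tn (tn (tn (tn (tn (tn (tn (tn (tn (tl 144119586659254274) te) te) te) te) te) te) (tn te (tn (tn te (tn (tn (tn (tl 2) te) te) te)) te))) (tn (tn (tn (tn (tn (tn (tn (tl 8796361457666) te) te) te) te) te) (tn (tn (tn (tn (tn (tl 16385) te) te) te) te) te)) (tn te (tn (tn (tn (tn (tn (tl 32769) te) te) te) (tn (tn (tn (tl 2) te) te) te)) te)))) (tn (tn te (tn te (tn (tn te (tn (tn (tn (tl 2) te) te) te)) te))) (tn (tn (tn (tn (tn (tn (tn (tl 144115188344324098) te) te) te) te) te) (tn (tn (tn (tn (tn (tl 32768) te) te) te) (tn (tn (tn (tl 2) te) te) te)) te)) (tn (tn (tn (tn (tn (tn (tl 2) te) te) te) te) te) (tn (tn (tn (tn (tn (tl 32768) te) te) te) te) te)))))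

def t271 : Tr ℕ := (tn (tn (tn (tn (tn (tn (tn (tn (tn (tl 72061992084471810) te) te) te) te) te) te) (tn te (tn (tn te (tn (tn (tn (tl 2) te) te) te)) te))) (tn (tn (tn (tn (tn (tn (tn (tl 144123984705748993) te) te) te) te) te) (tn (tn (tn (tn (tn (tl 2) te) te) te) te) te)) (tn te (tn (tn (tn (tn (tn (tl 2) te) te) te) te) te)))) (tn (tn te (tn te (tn (tn te (tn (tn (tn (tl 1) te) te) te)) te))) (tn (tn (tn (tn (tn (tn (tn (tl 16384) te) te) te) te) te) (tn (tn (tn (tn (tn (tl 2) te) te) te) te) te)) (tn (tn (tn (tn (tn (tn (tl 1) te) te) te) te) te) (tn (tn (tn (tn (tn (tl 1) te) te) te) (tn (tn (tn (tl 1) te) te) te)) te)))))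

def t272 : Tr ℕ := (tn (tn (tn (tn (tn (tn (tn (tn (tn (tl 72061992084471808) te) te) te) te) te) te) (tn te (tn (tn te (tn (tn (tn (tl 1) te) te) te)) te))) (tn (tn (tn (tn (tn (tn (tn (tl 72066390399385600) te) te) te) te) te) te) (tn te (tn (tn (tn (tn (tn (tl 32770) te) te) te) te) te)))) (tn (tn te (tn te (tn (tn te (tn (tn (tn (tl 2) te) te) te)) te))) (tn (tn (tn (tn (tn (tn (tn (tl 72066390130950145) te) te) te) te) te) (tn (tn (tn (tn (tn (tl 32770) te) te) te) te) te)) (tn (tn (tn (tn (tn (tn (tl 2) te) te) te) te) te) (tn (tn (tn (tn (tn (tl 2) te) te) te) te) te)))))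

def t273 : Tr ℕ := (tn (tn (tn (tn (tn (tn (tn (tn (tn (tl 72057594306379777) te) te) te) te) te) te) te) (tn (tn (tn (tn (tn (tn (tn (tl 144119586122399746) te) te) te) te) te) (tn (tn (tn (tn (tn (tl 32768) te) te) te) te) te)) (tn te (tn (tn (tn (tn (tn (tl 16386) te) te) te) te) te)))) (tn te (tn (tn (tn (tn (tn (tn (tn (tl 144119586659270657) te) te) te) te) te) (tn (tn (tn (tn (tn (tl 16384) te) te) te) (tn (tn (tn (tl 2) te) te) te)) te)) (tn (tn (tn (tn (tn (tn (tl 1) te) te) te) te) te) (tn (tn (tn (tn (tn (tl 32769) te) te) te) te) te)))))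

def t274 : Tr ℕ := (tn (tn (tn (tn (tn (tn (tn (tn (tn (tl 4398583398402) te) te) te) te) te) te) (tn te (tn (tn te (tn (tn (tn (tl 2) te) te) te)) te))) (tn (tn (tn (tn (tn (tn (tn (tl 144119586659270658) te) te) te) te) te) (tn (tn (tn (tn (tn (tl 2) te) te) te) te) te)) (tn te (tn (tn (tn (tn (tn (tl 32769) te) te) te) (tn (tn (tn (tl 1) te) te) te)) te)))) (tn (tn te (tn te (tn (tn te (tn (tn (tn (tl 1) te) te) te)) te))) (tn (tn (tn (tn (tn (tn (tn (tl 4398583414784) te) te) te) te) te) (tn (tn te (tn (tn (tn (tl 1) te) te) te)) te)) (tn te (tn (tn (tn (tn (tn (tl 32768) te) te) te) (tn (tn (tn (tl 2) te) te) te)) te)))))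

def t275 : Tr ℕ := (tn (tn (tn (tn (tn (tn (tn (tn (tn (tl 72066390667853826) te) te) te) te) te) te) (tn te (tn (tn te (tn (tn (tn (tl 2) te) te) te)) te))) (tn (tn (tn (tn (tn (tn (tn (tl 144119586659237888) te) te) te) te) te) (tn (tn (tn (tn (tn (tl 32769) te) te) te) te) te)) (tn te (tn (tn (tn (tn (tn (tl 32768) te) te) te) (tn (tn (tn (tl 2) te) te) te)) te)))) (tn te (tn (tn (tn (tn (tn (tn (tn (tl 72057594306379777) te) te) te) te) te) (tn (tn (tn (tn (tn (tl 1) te) te) te) te) te)) (tn (tn (tn (tn (tn (tn (tl 1) te) te) te) te) te) (tn (tn (tn (tn (tn (tl 1) te) te) te) (tn (tn (tn (tl 1) te) te) te)) te)))))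

def t276 : Tr ℕ := (tn (tn (tn (tn (tn (tn (tn (tn (tn (tl 72061992352907264) te) te) te) te) te) te) te) (tn (tn (tn (tn (tn (tn (tn (tl 72061992084471810) te) te) te) te) te) te) (tn te (tn (tn (tn (tn (tn (tl 16384) te) te) te) (tn (tn (tn (tl 2) te) te) te)) te)))) (tn te (tn (tn (tn (tn (tn (tn (tn (tl 268435458) te) te) te) te) te) (tn (tn (tn (tn (tn (tl 2) te) te) te) (tn (tn (tn (tl 2) te) te) te)) te)) (tn (tn (tn (tn (tn (tn (tl 1) te) te) te) te) te) (tn (tn (tn (tn (tn (tl 32768) te) te) te) (tn (tn (tn (tl 2) te) te) te)) te)))))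

def t277 : Tr ℕ := (tn (tn (tn (tn (tn (tn (tn (tn (tn (tl 72057594037944322) te) te) te) te) te) te) (tn te (tn (tn te (tn (tn (tn (tl 1) te) te) te)) te))) (tn (tn (tn (tn (tn (tn (tn (tl 8796093038593) te) te) te) te) te) (tn (tn (tn (tn (tn (tl 1) te) te) te) te) te)) (tn te (tn (tn (tn (tn (tn (tl 32769) te) te) te) (tn (tn (tn (tl 2) te) te) te)) te)))) (tn te (tn (tn (tn (tn (tn (tn (tn (tl 144119586390818818) te) te) te) te) te) (tn (tn (tn (tn (tn (tl 16384) te) te) te) te) te)) (tn (tn (tn (tn (tn (tn (tl 1) te) te) te) te) te) (tn (tn (tn (tn (tn (tl 2) te) te) te) (tn (tn (tn (tl 2) te) te) te)) te)))))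

def t278 : Tr ℕ := (tn (tn (tn (tn te (tn (tn te (tn (tn (tn (tl 1) te) te) te)) te)) te) (tn (tn te (tn (tn te (tn (tn (tn (tl 2) te) te) te)) te)) (tn (tn (tn (tn (tn (tn (tl 2) te) te) te) te) te) te))) (tn (tn (tn (tn (tn (tn (tn (tn (tl 72061992352890881) te) te) te) te) te) (tn (tn te (tn (tn (tn (tl 1) te) te) te)) te)) (tn te (tn (tn (tn (tn (tn (tl 16386) te) te) te) te) te))) (tn (tn (tn (tn (tn (tn (tn (tl 536887296) te) te) te) te) te) te) te)))

def t279 : Tr ℕ := (tn (tn (tn te (tn te (tn (tn (tn (tn (tn (tl 16385) te) te) te) te) te))) te) (tn (tn (tn (tn (tn (tn (tn (tn (tl 144115188612726785) te) te) te) te) te) (tn (tn te (tn (tn (tn (tl 2) te) te) te)) te)) (tn te (tn (tn (tn (tn (tn (tl 16385) te) te) te) te) te))) (tn (tn (tn (tn (tn (tn (tn (tl 8796629909506) te) te) te) te) te) te) (tn (tn (tn te (tn (tn (tn (tl 2) te) te) te)) te) te))))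

def t280 : Tr ℕ := (tn (tn (tn te (tn te (tn (tn (tn (tn (tn (tl 16385) te) te) te) te) te))) (tn (tn te (tn (tn te (tn (tn (tn (tl 1) te) te) te)) te)) (tn (tn (tn (tn (tn (tn (tl 1) te) te) te) te) te) te))) (tn (tn (tn (tn (tn (tn (tn (tn (tl 144123984437346306) te) te) te) te) te) te) (tn te (tn (tn (tn (tn (tn (tl 16386) te) te) te) te) te))) (tn (tn (tn (tn (tn (tn (tn (tl 32768) te) te) te) te) te) te) (tn (tn (tn te (tn (tn (tn (tl 1) te) te) te)) te) te))))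

def t281 : Tr ℕ := (tn (tn (tn (tn te (tn (tn te (tn (tn (tn (tl 1) te) te) te)) te)) (tn te (tn (tn (tn (tn (tn (tl 16385) te) te) te) te) te))) (tn (tn te (tn (tn te (tn (tn (tn (tl 1) te) te) te)) te)) (tn (tn (tn (tn (tn (tn (tl 1) te) te) te) te) te) te))) (tn (tn (tn (tn (tn (tn (tn (tn (tl 4398314946561) te) te) te) te) te) te) (tn te (tn (tn (tn (tn (tn (tl 16385) te) te) te) te) te))) (tn (tn (tn (tn (tn (tn (tn (tl 8796629909505) te) te) te) te) te) te) te)))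

def t282 : Tr ℕ := (tn (tn (tn te (tn te (tn (tn (tn (tn (tn (tl 16384) te) te) te) te) te))) (tn (tn te (tn (tn te (tn (tn (tn (tl 1) te) te) te)) te)) te)) (tn (tn (tn (tn (tn (tn (tn (tn (tl 144119586390802434) te) te) te) te) te) (tn (tn te (tn (tn (tn (tl 2) te) te) te)) te)) (tn te (tn (tn (tn (tn (tn (tl 1) te) te) te) te) te))) (tn (tn (tn (tn (tn (tn (tn (tl 8796629909506) te) te) te) te) te) te) (tn (tn (tn te (tn (tn (tn (tl 1) te) te) te)) te) te))))

def t283 : Tr ℕ := (tn (tn (tn (tn te (tn (tn te (tn (tn (tn (tl 2) te) te) te)) te)) (tn te (tn (tn (tn (tn (tn (tl 1) te) te) te) te) te))) (tn (tn te (tn (tn te (tn (tn (tn (tl 1) te) te) te)) te)) te)) (tn (tn (tn (tn (tn (tn (tn (tn (tl 144119586659254274) te) te) te) te) te) (tn (tn te (tn (tn (tn (tl 2) te) te) te)) te)) (tn te (tn (tn (tn (tn (tn (tl 16384) te) te) te) te) te))) (tn (tn (tn (tn (tn (tn (tn (tl 268468225) te) te) te) te) te) te) (tn (tn (tn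 te (tn (tn (tn (tl 1) te) te) te)) te) te))))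

def t284 : Tr ℕ := (tn (tn (tn (tn te (tn (tn te (tn (tn (tn (tl 1) te) te) te)) te)) (tn te (tn (tn (tn (tn (tn (tl 2) te) te) te) te) te))) (tn te (tn (tn (tn (tn (tn (tn (tl 1) te) te) te) te) te) te))) (tn (tn (tn (tn (tn (tn (tn (tn (tl 144123984168894465) te) te) te) te) te) te) (tn te (tn (tn (tn (tn (tn (tl 32769) te) te) te) te) te))) (tn (tn (tn (tn (tn (tn (tn (tl 536903680) te) te) te) te) te) te) te)))

def t285 : Tr ℕ := (tn (tn (tn te (tn te (tn (tn (tn (tn (tn (tl 32769) te) te) te) te) te))) (tn (tn te (tn (tn te (tn (tn (tn (tl 2) te) te) te)) te)) (tn (tn (tn (tn (tn (tn (tl 2) te) te) te) te) te) te))) (tn (tn (tn (tn (tn (tn (tn (tn (tl 144115188075855872) te) te) te) te) te) (tn (tn te (tn (tn (tn (tl 2) te) te) te)) te)) (tn te (tn (tn (tn (tn (tn (tl 16386) te) te) te) te) te))) (tn (tn (tn (tn (tn (tn (tn (tl 8796629909506) te) te) te) te) te) te) (tn (tn (tn te (tn (tn (tn (tl 1) te) te) te)) te)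 te))))

def t286 : Tr ℕ := (tn (tn (tn (tn te (tn (tn te (tn (tn (tn (tl 2) te) te) te)) te)) (tn te (tn (tn (tn (tn (tn (tl 16384) te) te) te) te) te))) (tn (tn te (tn (tn te (tn (tn (tn (tl 1) te) te) te)) te)) (tn (tn (tn (tn (tn (tn (tl 2) te) te) te) te) te) te))) (tn (tn (tn (tn (tn (tn (tn (tn (tl 144123984705748992) te) te) te) te) te) (tn (tn te (tn (tn (tn (tl 1) te) te) te)) te)) (tn te (tn (tn (tn (tn (tn (tl 32769) te) te) te) te) te))) (tn (tn (tn (tn (tn (tn (tn (tl 8796093038592) te) te) te) te) te) te) (tn (tn (tn te (tn (tn (tn (tl 1) te) te) te)) te) te))))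

def t287 : Tr ℕ := (tn (tn (tn te (tn te (tn (tn (tn (tn (tn (tl 16384) te) te) te) te) te))) (tn (tn te (tn (tn te (tn (tn (tn (tl 2) te) te) te)) te)) (tn (tn (tn (tn (tn (tn (tl 1) te) te) te) te) te) te))) (tn (tn (tn (tn (tn (tn (tn (tn (tl 72061992084471809) te) te) te) te) te) (tn (tn te (tn (tn (tn (tl 1) te) te) te)) te)) (tn te (tn (tn (tn (tn (tn (tl 1) te) te) te) te) te))) (tn (tn (tn (tn (tn (tn (tn (tl 536870912) te) te) te) te) te) te) (tn (tn (tn te (tn (tn (tn (tl 1) te) te) te)) te) te))))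

def t288 : Tr ℕ := (tn (tn (tn (tn te (tn (tn te (tn (tn (tn (tl 1) te) te) te)) te)) (tn te (tn (tn (tn (tn (tn (tl 16386) te) te) te) te) te))) (tn te (tn (tn (tn (tn (tn (tn (tl 1) te) te) te) te) te) te))) (tn (tn (tn (tn (tn (tn (tn (tn (tl 4398583414786) te) te) te) te) te) (tn (tn te (tn (tn (tn (tl 2) te) te) te)) te)) (tn te (tn (tn (tn (tn (tn (tl 16386) te) te) te) te) te))) (tn (tn (tn (tn (tn (tn (tn (tl 8796093022210) te) te) te) te) te) te) te)))

def t289 : Tr ℕ := (tn (tn (tn te (tn te (tn (tn (tn (tn (tn (tl 32770) te) te) te) te) te))) (tn (tn te (tn (tn te (tn (tn (tn (tl 2) te) te) te)) te)) (tn (tn (tn (tn (tn (tn (tl 2) te) te) te) te) te) te))) (tn (tn (tn (tn (tn (tn (tn (tn (tl 144119586390835200) te) te) te) te) te) te) te) (tn (tn (tn (tn (tn (tn (tn (tl 8796093038593) te) te) te) te) te) te) te)))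

def t290 : Tr ℕ := (tn (tn (tn (tn te (tn (tn te (tn (tn (tn (tl 2) te) te) te)) te)) (tn te (tn (tn (tn (tn (tn (tl 16384) te) te) te) te) te))) (tn (tn te (tn (tn te (tn (tn (tn (tl 1) te) te) te)) te)) (tn (tn (tn (tn (tn (tn (tl 1) te) te) te) te) te) te))) (tn (tn (tn (tn (tn (tn (tn (tn (tl 144115188075855874) te) te) te) te) te) te) (tn te (tn (tn (tn (tn (tn (tl 2) te) te) te) te) te))) (tn (tn (tn (tn (tn (tn (tn (tl 268435457) te) te) te) te) te) te) te)))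

def t291 : Tr ℕ := (tn (tn (tn (tn te (tn (tn te (tn (tn (tn (tl 2) te) te) te)) te)) te) (tn (tn te (tn (tn te (tn (tn (tn (tl 2) te) te) te)) te)) (tn (tn (tn (tn (tn (tn (tl 1) te) te) te) te) te) te))) (tn (tn (tn (tn (tn (tn (tn (tn (tl 8796629925890) te) te) te) te) te) (tn (tn te (tn (tn (tn (tl 2) te) te) te)) te)) (tn te (tn (tn (tn (tn (tn (tl 2) te) te) te) te) te))) (tn (tn (tn (tn (tn (tn (tn (tl 4398046543872) te) te) te) te) te) te) (tn (tn (tn te (tn (tn (tn (tl 2) te) te) te)) te) te))))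

def t292 : Tr ℕ := (tn (tn (tn (tn (tn (tn (tn (tn (tn (tl 144119586122399744) te) te) te) te) te) te) (tn (tn (tn te (tn (tn (tn (tl 2) te) te) te)) te) te)) (tn (tn (tn (tn te (tn (tn (tn (tl 1) te) te) te)) te) te) (tn (tn (tn te (tn (tn (tn (tl 2) te) te) te)) te) te))) (tn (tn (tn (tn (tn (tn (tn (tn (tl 4398314979329) te) te) te) te) te) te) (tn (tn (tn te (tn (tn (tn (tl 2) te) te) te)) te) (tn (tn (tn (tn (tn (tl 32768) te) te) te) te) te))) (tn (tn (tn (tn (tn (tn (tn (tl 536903682) te) te) te) (tn (tn (tn (tl 1) te) te) te)) te) (tn (tn (tn (tn (tn (tl 16386) te) te) te) te) te)) te)))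

def t293 : Tr ℕ := (tn (tn (tn (tn (tn (tn (tn (tn (tn (tl 144119586659237889) te) te) te) te) te) te) te) (tn (tn (tn (tn te (tn (tn (tn (tl 2) te) te) te)) te) (tn (tn (tn (tn (tn (tl 32768) te) te) te) te) te)) te)) (tn (tn (tn (tn (tn (tn (tn (tn (tl 144115188612759552) te) te) te) te) te) te) (tn te (tn (tn (tn (tn (tn (tl 2) te) te) te) te) te))) (tn (tn (tn (tn (tn (tn (tn (tl 8796629925889) te) te) te) (tn (tn (tn (tl 1) te) te) te)) te) (tn (tn (tn (tn (tn (tl 32769) te) te) te) te) te)) te)))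

def t294 : Tr ℕ := (tn (tn (tn (tn (tn (tn (tn (tn (tn (tl 72066390130982913) te) te) te) te) te) te) (tn (tn (tn te (tn (tn (tn (tl 2) te) te) te)) te) (tn (tn (tn (tn (tn (tl 32769) te) te) te) te) te))) (tn (tn te (tn (tn (tn (tn (tn (tl 2) te) te) te) te) te)) te)) (tn (tn (tn (tn (tn (tn (tn (tn (tl 4398583398400) te) te) te) te) te) te) (tn (tn (tn (tn (tn (tn (tl 1) te) te) te) te) te) (tn (tn (tn (tn (tn (tl 32768) te) te) te) te) te))) (tn (tn (tn (tn (tn (tn (tn (tl 144119586659237888) te) te) te) (tn (tn (tn (tl 1) te) te) te)) te) (tn (tn (tn (tn (tn (tl 16384) te) te) te) te) te)) te)))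

def t295 : Tr ℕ := (tn (tn (tn (tn (tn (tn (tn (tn (tn (tl 72066390399385600) te) te) te) te) te) te) (tn te (tn (tn (tn (tn (tn (tl 16386) te) te) te) te) te))) (tn (tn te (tn (tn (tn (tn (tn (tl 32768) te) te) te) te) te)) (tn (tn (tn te (tn (tn (tn (tl 2) te) te) te)) te) te))) (tn (tn (tn (tn (tn (tn (tn (tn (tl 144115188344291330) te) te) te) te) te) te) (tn (tn (tn (tn (tn (tn (tl 2) te) te) te) (tn (tn (tn (tl 2) te) te) te)) te) (tn (tn (tn (tn (tn (tl 32770) te) te) te) te) te))) (tn (tn (tn (tn (tn (tn (tn (tl 72066390399385600) te) te) te) (tn (tn (tn (tl 2) te) te) te)) te) (tn (tn (tn (tn (tn (tl 16384) te) te) te) te) te)) te)))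

def t296 : Tr ℕ := (tn (tn (tn (tn (tn (tn (tn (tn (tn (tl 144123984705748992) te) te) te) te) te) te) (tn te (tn (tn (tn (tn (tn (tl 32768) te) te) te) te) te))) (tn (tn (tn (tn te (tn (tn (tn (tl 2) te) te) te)) te) (tn (tn (tn (tn (tn (tl 32769) te) te) te) te) te)) (tn (tn (tn te (tn (tn (tn (tl 2) te) te) te)) te) te))) (tn (tn (tn (tn (tn (tn (tn (tn (tl 8796361490434) te) te) te) te) te) te) (tn (tn (tn te (tn (tn (tn (tl 2) te) te) te)) te) (tn (tn (tn (tn (tn (tl 32769) te) te) te) te) te))) (tn (tn (tn (tn (tn (tn (tn (tl 144115188612759554) te) te) te) (tn (tn (tn (tl 2) te) te) te)) te) (tn (tn (tn (tn (tn (tl 32769) te) te) te) te) te)) te)))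

def t297 : Tr ℕ := (tn (tn (tn (tn (tn (tn (tn (tn (tn (tl 144115188612759554) te) te) te) te) te) te) (tn (tn (tn te (tn (tn (tn (tl 2) te) te) te)) te) (tn (tn (tn (tn (tn (tl 16384) te) te) te) te) te))) (tn (tn (tn (tn te (tn (tn (tn (tl 2) te) te) te)) te) (tn (tn (tn (tn (tn (tl 16384) te) te) te) te) te)) (tn (tn (tn te (tn (tn (tn (tl 1) te) te) te)) te) te))) (tn (tn (tn (tn (tn (tn (tn (tn (tl 72061992621309953) te) te) te) te) te) te) (tn (tn (tn te (tn (tn (tn (tl 2) te) te) te)) te) (tn (tn (tn (tn (tn (tl 32770) te) te) te) te) te))) (tn (tn (tn (tn (tn (tn (tn (tl 8796629893121) te) te) te) (tn (tn (tn (tl 2) te) te) te)) te) (tn (tn (tn (tn (tn (tl 1) te) te) te) te) te)) te)))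

def t298 : Tr ℕ := (tn (tn (tn (tn (tn (tn (tn (tn (tn (tl 8796361490433) te) te) te) te) te) te) te) (tn (tn te (tn (tn (tn (tn (tn (tl 32770) te) te) te) te) te)) (tn (tn (tn te (tn (tn (tn (tl 1) te) te) te)) te) te))) (tn (tn (tn (tn (tn (tn (tn (tn (tl 8796361474050) te) te) te) te) te) te) (tn (tn (tn (tn (tn (tn (tl 1) te) te) te) te) te) (tn (tn (tn (tn (tn (tl 32769) te) te) te) te) te))) (tn (tn (tn (tn (tn (tn (tn (tl 72057594037944322) te) te) te) te) te) (tn (tn (tn (tn (tn (tl 32769) te) te) te) te) te)) te)))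

def t299 : Tr ℕ := (tn (tn (tn (tn (tn (tn (tn (tn (tn (tl 72057594037960704) te) te) te) te) te) te) te) (tn (tn (tn (tn te (tn (tn (tn (tl 1) te) te) te)) te) (tn (tn (tn (tn (tn (tl 2) te) te) te) te) te)) (tn (tn (tn te (tn (tn (tn (tl 2) te) te) te)) te) te))) (tn (tn (tn (tn (tn (tn (tn (tn (tl 72057594306396161) te) te) te) te) te) te) (tn (tn (tn (tn (tn (tn (tl 1) te) te) te) (tn (tn (tn (tl 1) te) te) te)) te) (tn (tn (tn (tn (tn (tl 32770) te) te) te) te) te))) (tn (tn (tn (tn (tn (tn (tn (tl 144119586659254274) te) te) te) (tn (tn (tn (tl 2) te) te) te)) te) (tn (tn (tn (tn (tn (tl 16385) te) te) te) te) te)) te)))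

def t300 : Tr ℕ := (tn (tn (tn (tn (tn (tn (tn (tn (tn (tl 4398046527490) te) te) te) te) te) te) (tn (tn (tn te (tn (tn (tn (tl 2) te) te) te)) te) (tn (tn (tn (tn (tn (tl 32768) te) te) te) te) te))) (tn (tn (tn (tn te (tn (tn (tn (tl 2) te) te) te)) te) (tn (tn (tn (tn (tn (tl 32770) te) te) te) te) te)) (tn (tn (tn te (tn (tn (tn (tl 2) te) te) te)) te) te))) (tn (tn (tn (tn (tn (tn (tn (tn (tl 72057594306396162) te) te) te) te) te) te) (tn (tn (tn (tn (tn (tn (tl 1) te) te) te) (tn (tn (tn (tl 1) te) te) te)) te) (tn (tn (tn (tn (tn (tl 2) te) te) te) te) te))) (tn (tn (tn (tn (tn (tn (tn (tl 2) te) te) te) te) te) te) te)))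

def t301 : Tr ℕ := (tn (tn (tn (tn (tn (tn (tn (tn (tn (tl 144119586659237889) te) te) te) te) te) te) (tn (tn (tn te (tn (tn (tn (tl 1) te) te) te)) te) (tn (tn (tn (tn (tn (tl 32770) te) te) te) te) te))) (tn (tn (tn (tn te (tn (tn (tn (tl 2) te) te) te)) te) (tn (tn (tn (tn (tn (tl 16386) te) te) te) te) te)) te)) (tn (tn (tn (tn (tn (tn (tn (tn (tl 144115188344307712) te) te) te) te) te) te) (tn (tn (tn te (tn (tn (tn (tl 2) te) te) te)) te) (tn (tn (tn (tn (tn (tl 16386) te) te) te) te) te))) (tn (tn (tn (tn (tn (tn (tn (tl 72066390667821058) te) te) te) te) te) (tn (tn (tn (tn (tn (tl 2) te) te) te) te) te)) te)))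

def t302 : Tr ℕ := (tn (tn (tn (tn (tn (tn (tn (tn (tn (tl 72066390399385600) te) te) te) te) te) te) (tn (tn (tn te (tn (tn (tn (tl 1) te) te) te)) te) (tn (tn (tn (tn (tn (tl 16386) te) te) te) te) te))) (tn (tn te (tn (tn (tn (tn (tn (tl 16386) te) te) te) te) te)) te)) (tn (tn (tn (tn (tn (tn (tn (tn (tl 72057594306396161) te) te) te) te) te) te) (tn (tn (tn (tn (tn (tn (tl 2) te) te) te) te) te) (tn (tn (tn (tn (tn (tl 1) te) te) te) te) te))) (tn (tn (tn (tn (tn (tn (tn (tl 72061992352890882) te) te) te) (tn (tn (tn (tl 1) te) te) te)) te) (tn (tn (tn (tn (tn (tl 16384) te) te) te) te) te)) te)))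

def t303 : Tr ℕ := (tn (tn (tn (tn (tn (tn (tn (tn (tn (tl 144123984168894464) te) te) te) te) te) te) (tn te (tn (tn (tn (tn (tn (tl 16386) te) te) te) te) te))) (tn (tn (tn (tn te (tn (tn (tn (tl 2) te) te) te)) te) (tn (tn (tn (tn (tn (tl 1) te) te) te) te) te)) te)) (tn (tn (tn (tn (tn (tn (tn (tn (tl 72057594306396161) te) te) te) te) te) te) (tn (tn (tn te (tn (tn (tn (tl 2) te) te) te)) te) (tn (tn (tn (tn (tn (tl 32769) te) te) te) te) te))) (tn (tn (tn (tn (tn (tn (tn (tl 4398583382018) te) te) te) (tn (tn (tn (tl 2) te) te) te)) te) (tn (tn (tn (tn (tn (tl 32768) te) te) te) te) te)) te)))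

def t304 : Tr ℕ := (tn (tn (tn (tn (tn (tn (tn (tn (tn (tl 72061992621326338) te) te) te) te) te) te) (tn (tn (tn te (tn (tn (tn (tl 1) te) te) te)) te) (tn (tn (tn (tn (tn (tl 32769) te) te) te) te) te))) (tn (tn (tn (tn te (tn (tn (tn (tl 2) te) te) te)) te) (tn (tn (tn (tn (tn (tl 32768) te) te) te) te) te)) te)) (tn (tn (tn (tn (tn (tn (tn (tn (tl 4398314962945) te) te) te) te) te) te) (tn (tn (tn (tn (tn (tn (tl 1) te) te) te) (tn (tn (tn (tl 2) te) te) te)) te) (tn (tn (tn (tn (tn (tl 2) te) te) te) te) te))) (tn (tn (tn (tn (tn (tn (tn (tl 144115188075872256) te) te) te) (tn (tn (tn (tl 2) te) te) te)) te) (tn (tn (tn (tn (tn (tl 16386) te) te) te) te) te)) te)))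

def t305 : Tr ℕ := (tn (tn (tn (tn (tn (tn (tn (tn (tn (tl 144123984437346305) te) te) te) te) te) te) (tn (tn (tn te (tn (tn (tn (tl 1) te) te) te)) te) (tn (tn (tn (tn (tn (tl 32769) te) te) te) te) te))) (tn (tn (tn (tn te (tn (tn (tn (tl 2) te) te) te)) te) (tn (tn (tn (tn (tn (tl 32768) te) te) te) te) te)) te)) (tn (tn (tn (tn (tn (tn (tn (tn (tl 8796361457666) te) te) te) te) te) te) (tn te (tn (tn (tn (tn (tn (tl 16385) te) te) te) te) te))) (tn (tn (tn (tn (tn (tn (tn (tl 72057594037960706) te) te) te) (tn (tn (tn (tl 2) te) te) te)) te) (tn (tn (tn (tn (tn (tl 16384) te) te) te) te) te)) te)))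

def t306 : Tr ℕ := (tn (tn (tn (tn (tn (tn (tn (tn (tn (tl 144119586122366976) te) te) te) te) te) te) (tn (tn (tn te (tn (tn (tn (tl 2) te) te) te)) te) (tn (tn (tn (tn (tn (tl 32768) te) te) te) te) te))) (tn (tn (tn (tn te (tn (tn (tn (tl 2) te) te) te)) te) (tn (tn (tn (tn (tn (tl 32768) te) te) te) te) te)) te)) (tn (tn (tn (tn (tn (tn (tn (tn (tl 268435456) te) te) te) te) te) te) (tn (tn (tn (tn (tn (tn (tl 1) te) te) te) (tn (tn (tn (tl 1) te) te) te)) te) te)) (tn (tn (tn (tn (tn (tn (tn (tl 4398046527490) te) te) te) te) te) (tn (tn (tn (tn (tn (tl 2) te) te) te) te) te)) te)))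

def t307 : Tr ℕ := (tn (tn (tn (tn (tn (tn (tn (tn (tn (tl 144119586122399745) te) te) te) te) te) te) (tn (tn (tn te (tn (tn (tn (tl 2) te) te) te)) te) (tn (tn (tn (tn (tn (tl 32770) te) te) te) te) te))) (tn (tn te (tn (tn (tn (tn (tn (tl 16384) te) te) te) te) te)) (tn (tn (tn te (tn (tn (tn (tl 2) te) te) te)) te) te))) (tn (tn (tn (tn (tn (tn (tn (tn (tl 144119586122383360) te) te) te) te) te) te) (tn te (tn (tn (tn (tn (tn (tl 32769) te) te) te) te) te))) (tn (tn (tn (tn (tn (tn (tn (tl 144119586659270658) te) te) te) (tn (tn (tn (tl 2) te) te) te)) te) (tn (tn (tn (tn (tn (tl 16385) te) te) te) te) te)) te)))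

def t308 : Tr ℕ := (tn (tn (tn (tn (tn (tn (tn (tn (tn (tl 144123984168894464) te) te) te) te) te) te) (tn (tn (tn te (tn (tn (tn (tl 1) te) te) te)) te) te)) (tn te (tn (tn (tn te (tn (tn (tn (tl 2) te) te) te)) te) te))) (tn (tn (tn (tn (tn (tn (tn (tn (tl 536887296) te) te) te) te) te) te) (tn (tn (tn (tn (tn (tn (tl 1) te) te) te) te) te) te)) (tn (tn (tn (tn (tn (tn (tn (tl 8796361490433) te) te) te) te) te) (tn (tn (tn (tn (tn (tl 16385) te) te) te) te) te)) te)))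

def t309 : Tr ℕ := (tn (tn (tn (tn (tn (tn (tn (tn (tn (tl 72066390667853824) te) te) te) te) te) te) (tn (tn (tn te (tn (tn (tn (tl 1) te) te) te)) te) (tn (tn (tn (tn (tn (tl 2) te) te) te) te) te))) (tn (tn (tn (tn te (tn (tn (tn (tl 1) te) te) te)) te) (tn (tn (tn (tn (tn (tl 2) te) te) te) te) te)) (tn (tn (tn te (tn (tn (tn (tl 1) te) te) te)) te) te))) (tn (tn (tn (tn (tn (tn (tn (tn (tl 8796093022209) te) te) te) te) te) te) (tn (tn (tn (tn (tn (tn (tl 2) te) te) te) (tn (tn (tn (tl 2) te) te) te)) te) te)) (tn (tn (tn (tn (tn (tn (tn (tl 72061992621342720) te) te) te) te) te) (tn (tn (tn (tn (tn (tl 32769) te) te) te) te) te)) te)))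

def t310 : Tr ℕ := (tn (tn (tn (tn (tn (tn (tn (tn (tn (tl 144115188612726785) te) te) te) te) te) te) (tn te (tn (tn (tn (tn (tn (tl 1) te) te) te) te) te))) (tn (tn te (tn (tn (tn (tn (tn (tl 16384) te) te) te) te) te)) te)) (tn (tn (tn (tn (tn (tn (tn (tn (tl 4398046543874) te) te) te) te) te) te) (tn (tn (tn (tn (tn (tn (tl 2) te) te) te) te) te) (tn (tn (tn (tn (tn (tl 32768) te) te) te) te) te))) (tn (tn (tn (tn (tn (tn (tn (tl 4398583382016) te) te) te) te) te) (tn (tn (tn (tn (tn (tl 32768) te) te) te) te) te)) te)))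

def t311 : Tr ℕ := (tn (tn (tn (tn (tn (tn (tn (tn (tn (tl 144123984437313538) te) te) te) te) te) te) (tn te (tn (tn (tn (tn (tn (tl 32769) te) te) te) te) te))) (tn (tn te (tn (tn (tn (tn (tn (tl 32768) te) te) te) te) te)) te)) (tn (tn (tn (tn (tn (tn (tn (tn (tl 144115188344291329) te) te) te) te) te) te) (tn (tn (tn (tn (tn (tn (tl 1) te) te) te) te) te) (tn (tn (tn (tn (tn (tl 16385) te) te) te) te) te))) (tn (tn (tn (tn (tn (tn (tn (tl 8796093022210) te) te) te) (tn (tn (tn (tl 2) te) te) te)) te) (tn (tn (tn (tn (tn (tl 32768) te) te) te) te) te)) te)))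

def t312 : Tr ℕ := (tn (tn (tn (tn (tn (tn (tn (tn (tn (tl 8796361490433) te) te) te) te) te) te) te) (tn (tn te (tn (tn (tn (tn (tn (tl 2) te) te) te) te) te)) (tn te (tn te (tn (tn (tn (tn (tl 2) te) te) te) te))))) (tn (tn (tn (tn (tn te (tn (tn (tn (tl 1) te) te) te)) te) te) te) (tn (tn (tn (tn (tn (tn (tn (tl 268468226) te) te) te) te) te) te) (tn te (tn te (tn (tn (tn (tn (tl 2) te) te) te) te))))))

def t313 : Tr ℕ := (tn (tn (tn (tn (tn (tn (tn (tn (tn (tl 72066390130982912) te) te) te) (tn (tn (tn (tl 2) te) te) te)) te) te) (tn (tn (tn (tn (tn (tn (tl 2) te) te) te) te) te) te)) (tn (tn te (tn (tn (tn (tn (tn (tl 1) te) te) te) te) te)) (tn te (tn te (tn (tn (tn (tn (tl 2) te) te) te) te))))) (tn te (tn (tn (tn (tn (tn (tn (tn (tl 4398046543874) te) te) te) te) te) (tn (tn (tn (tn (tn (tl 16386) te) te) te) te) te)) te)))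

def t314 : Tr ℕ := (tn (tn (tn (tn (tn (tn (tn (tn (tn (tl 72061992084439040) te) te) te) (tn (tn (tn (tl 2) te) te) te)) te) te) (tn (tn (tn (tn (tn (tn (tl 2) te) te) te) te) te) te)) (tn (tn te (tn (tn (tn (tn (tn (tl 16385) te) te) te) te) te)) (tn te (tn te (tn (tn (tn (tn (tl 1) te) te) te) te))))) (tn te (tn (tn (tn (tn (tn (tn (tn (tl 4398583382017) te) te) te) te) te) (tn (tn (tn (tn (tn (tl 32770) te) te) te) te) te)) (tn te (tn te (tn (tn (tn (tn (tl 1) te) te) te) te))))))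

def t315 : Tr ℕ := (tn (tn (tn (tn (tn (tn (tn (tn (tn (tl 72057594306379776) te) te) te) te) te) te) te) (tn (tn te (tn (tn (tn (tn (tn (tl 1) te) te) te) te) te)) (tn te (tn te (tn (tn (tn (tn (tl 1) te) te) te) te))))) (tn te (tn (tn (tn (tn (tn (tn (tn (tl 32768) te) te) te) te) te) (tn (tn (tn (tn (tn (tl 16385) te) te) te) te) te)) te)))

def t316 : Tr ℕ := (tn (tn (tn (tn (tn (tn (tn (tn (tn (tl 4398314979329) te) te) te) te) te) te) te) (tn (tn te (tn (tn (tn (tn (tn (tl 1) te) te) te) te) te)) te)) (tn (tn (tn (tn (tn te (tn (tn (tn (tl 2) te) te) te)) te) te) te) (tn (tn (tn (tn (tn (tn (tn (tl 4398046527490) te) te) te) te) te) (tn (tn (tn (tn (tn (tl 16386) te) te) te) te) te)) (tn te (tn te (tn (tn (tn (tn (tl 2) te) te) te) te))))))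

def t317 : Tr ℕ := (tn (tn (tn (tn (tn (tn (tn (tn (tn (tl 16386) te) te) te) te) te) te) (tn (tn (tn (tn (tn (tn (tl 2) te) te) te) te) te) te)) (tn (tn te (tn (tn (tn (tn (tn (tl 16385) te) te) te) te) te)) (tn te (tn te (tn (tn (tn (tn (tl 2) te) te) te) te))))) (tn (tn (tn (tn (tn te (tn (tn (tn (tl 1) te) te) te)) te) te) te) (tn (tn (tn (tn (tn (tn (tn (tl 4398046527490) te) te) te) te) te) (tn (tn (tn (tn (tn (tl 1) te) te) te) te) te)) (tn te (tn te (tn (tn (tn (tn (tl 2) te) te) te) te))))))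

def t318 : Tr ℕ := (tn (tn (tn (tn (tn (tn (tn (tn (tn (tl 144119586390802432) te) te) te) (tn (tn (tn (tl 1) te) te) te)) te) te) te) (tn (tn te (tn (tn (tn (tn (tn (tl 32768) te) te) te) te) te)) (tn te (tn te (tn (tn (tn (tn (tl 1) te) te) te) te))))) (tn (tn (tn (tn (tn te (tn (tn (tn (tl 1) te) te) te)) te) te) te) (tn (tn (tn (tn (tn (tn (tn (tl 8796361474050) te) te) te) te) te) (tn (tn (tn (tn (tn (tl 16385) te) te) te) te) te)) (tn te (tn te (tn (tn (tn (tn (tl 1) te) te) te) te))))))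

def t319 : Tr ℕ := (tn (tn (tn (tn (tn (tn (tn (tn (tn (tl 144119586390835201) te) te) te) (tn (tn (tn (tl 1) te) te) te)) te) te) te) (tn (tn te (tn (tn (tn (tn (tn (tl 32768) te) te) te) te) te)) te)) te)

def t320 : Tr ℕ := (tn (tn (tn (tn (tn (tn (tn (tn (tn (tl 72061992621309952) te) te) te) (tn (tn (tn (tl 1) te) te) te)) te) te) (tn (tn (tn (tn (tn (tn (tl 2) te) te) te) te) te) te)) (tn (tn te (tn (tn (tn (tn (tn (tl 2) te) te) te) te) te)) te)) (tn (tn (tn (tn (tn te (tn (tn (tn (tl 2) te) te) te)) te) te) te) (tn (tn (tn (tn (tn (tn (tn (tl 4398314962945) te) te) te) te) te) (tn (tn (tn (tn (tn (tl 1) te) te) te) te) te)) (tn te (tn te (tn (tn (tn (tn (tl 1) te) te) te) te))))))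

def t321 : Tr ℕ := (tn (tn (tn (tn (tn (tn (tn (tn (tn (tl 4398046543873) te) te) te) te) te) te) (tn (tn (tn (tn (tn (tn (tl 2) te) te) te) te) te) te)) (tn (tn te (tn (tn (tn (tn (tn (tl 32768) te) te) te) te) te)) (tn te (tn te (tn (tn (tn (tn (tl 1) te) te) te) te))))) (tn (tn (tn (tn (tn te (tn (tn (tn (tl 1) te) te) te)) te) te) te) (tn (tn (tn (tn (tn (tn (tn (tl 8796093054977) te) te) te) te) te) (tn (tn (tn (tn (tn (tl 32769) te) te) te) te) te)) (tn te (tn te (tn (tn (tn (tn (tl 2) te) te) te) te))))))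

def t322 : Tr ℕ := (tn (tn (tn (tn (tn (tn (tn (tn (tn (tl 268435457) te) te) te) (tn (tn (tn (tl 1) te) te) te)) te) te) (tn (tn (tn (tn (tn (tn (tl 1) te) te) te) te) te) te)) (tn (tn te (tn (tn (tn (tn (tn (tl 2) te) te) te) te) te)) te)) (tn (tn (tn (tn (tn te (tn (tn (tn (tl 2) te) te) te)) te) te) te) (tn (tn (tn (tn (tn (tn (tn (tl 536870914) te) te) te) te) te) (tn (tn (tn (tn (tn (tl 16386) te) te) te) te) te)) (tn te (tn te (tn (tn (tn (tn (tl 1) te) te) te) te))))))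

def t323 : Tr ℕ := (tn (tn (tn (tn (tn (tn (tn (tn (tn (tl 144119586122383360) te) te) te) (tn (tn (tn (tl 1) te) te) te)) te) te) (tn (tn (tn (tn (tn (tn (tl 2) te) te) te) te) te) te)) (tn (tn te (tn (tn (tn (tn (tn (tl 32769) te) te) te) te) te)) (tn te (tn te (tn (tn (tn (tn (tl 1) te) te) te) te))))) (tn (tn (tn (tn (tn te (tn (tn (tn (tl 1) te) te) te)) te) te) te) (tn (tn (tn (tn (tn (tn (tn (tl 268451842) te) te) te) te) te) (tn (tn (tn (tn (tn (tl 2) te) te) te) te) te)) (tn te (tn te (tn (tn (tn (tn (tl 1) te) te) te) te))))))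

def t324 : Tr ℕ := (tn (tn (tn (tn (tn (tn (tn (tn (tn (tl 144119586122399745) te) te) te) (tn (tn (tn (tl 1) te) te) te)) te) te) te) (tn (tn te (tn (tn (tn (tn (tn (tl 16386) te) te) te) te) te)) te)) (tn te (tn (tn (tn (tn (tn (tn (tn (tl 268468226) te) te) te) te) te) (tn (tn (tn (tn (tn (tl 16385) te) te) te) te) te)) te)))

def t325 : Tr ℕ := (tn (tn (tn (tn (tn (tn (tn (tn (tn (tl 268451840) te) te) te) te) te) te) (tn (tn (tn (tn (tn (tn (tl 1) te) te) te) te) te) te)) (tn (tn te (tn (tn (tn (tn (tn (tl 2) te) te) te) te) te)) te)) (tn te (tn (tn (tn (tn (tn (tn (tn (tl 8796629909505) te) te) te) te) te) (tn (tn (tn (tn (tn (tl 1) te) te) te) te) te)) (tn te (tn te (tn (tn (tn (tn (tl 2) te) te) te) te))))))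

def t326 : Tr ℕ := (tn (tn (tn (tn te (tn (tn (tn (tn (tn (tl 16384) te) te) te) te) te)) (tn te (tn te (tn (tn (tn (tn (tl 2) te) te) te) te)))) (tn (tn (tn (tn (tn (tn (tn (tl 4398583414784) te) te) te) te) te) te) (tn (tn (tn (tn (tn (tn (tl 2) te) te) te) te) te) te))) (tn (tn (tn (tn (tn (tn (tn (tn (tl 2361255299029128986624) te) te) te) te) te) (tn (tn (tn (tn (tn (tl 1) te) te) te) te) te)) (tn te (tn te (tn (tn (tn (tn (tl 1) te) te) te) te)))) (tn (tn te (tn te (tn (tn (tn (tn (tl 1) te) te) te) te))) te)))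

def t327 : Tr ℕ := (tn (tn (tn (tn te (tn (tn (tn (tn (tn (tl 16384) te) te) te) te) te)) (tn te (tn te (tn (tn (tn (tn (tl 2) te) te) te) te)))) (tn (tn (tn (tn (tn (tn (tn (tl 268435458) te) te) te) te) te) (tn te (tn (tn (tn (tn (tl 1) te) te) te) te))) (tn (tn (tn (tn (tn (tn (tl 32768) te) te) te) te) te) te))) (tn (tn (tn (tn (tn (tn (tn (tn (tl 8796093054976) te) te) te) te) te) (tn (tn (tn (tn (tn (tl 2) te) te) te) te) te)) (tn te (tn te (tn (tn (tn (tn (tl 2) te) te) te) te)))) (tn (tn te (tn te (tn (tn (tn (tn (tl 2) te) te) te) te))) te)))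

def t328 : Tr ℕ := (tn (tn (tn (tn te (tn (tn (tn (tn (tn (tl 16385) te) te) te) te) te)) (tn te (tn te (tn (tn (tn (tn (tl 1) te) te) te) te)))) (tn (tn (tn (tn (tn (tn (tn (tl 8796629925888) te) te) te) te) te) te) (tn (tn (tn (tn (tn (tn (tl 2) te) te) te) te) te) te))) (tn (tn (tn (tn (tn (tn (tn (tn (tl 268435457) te) te) te) te) te) (tn (tn (tn (tn (tn (tl 16384) te) te) te) te) te)) (tn te (tn te (tn (tn (tn (tn (tl 2) te) te) te) te)))) (tn (tn te (tn te (tn (tn (tn (tn (tl 2) te) te) te) te))) te)))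

def t329 : Tr ℕ := (tn (tn (tn (tn te (tn (tn (tn (tn (tn (tl 32769) te) te) te) te) te)) te) (tn (tn (tn (tn (tn (tn (tn (tl 32770) te) te) te) te) te) te) (tn (tn (tn (tn (tn (tn (tl 32770) te) te) te) te) te) te))) (tn (tn (tn (tn (tn (tn (tn (tn (tl 38685626227672531905544194) te) te) te) te) te) (tn (tn (tn (tn (tn (tl 32768) te) te) te) te) te)) te) te))

def t330 : Tr ℕ := (tn (tn (tn te (tn te (tn te (tn (tn (tn (tn (tl 2) te) te) te) te)))) (tn (tn (tn (tn (tn (tn (tn (tl 8796629893122) te) te) te) te) te) (tn te (tn (tn (tn (tn (tl 1) te) te) te) te))) (tn (tn (tn (tn (tn (tn (tl 1) te) te) te) te) te) te))) (tn (tn (tn (tn (tn (tn (tn (tn (tl 38687987410913966728167426) te) te) te) te) te) (tn (tn (tn (tn (tn (tl 32770) te) te) te) te) te)) (tn te (tn te (tn (tn (tn (tn (tl 2) te) te) te) te)))) (tn (tn te (tn te (tn (tn (tn (tn (tl 2) te) te) te) te))) te)))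

def t331 : Tr ℕ := (tn (tn (tn (tn te (tn (tn (tn (tn (tn (tl 32769) te) te) te) te) te)) (tn te (tn te (tn (tn (tn (tn (tl 1) te) te) te) te)))) (tn (tn (tn (tn (tn (tn (tn (tl 8796629925889) te) te) te) te) te) te) (tn (tn (tn (tn (tn (tn (tl 32769) te) te) te) te) te) te))) (tn (tn (tn (tn (tn (tn (tn (tn (tl 38687987555029154535587840) te) te) te) te) te) (tn (tn (tn (tn (tn (tl 16384) te) te) te) te) te)) (tn te (tn te (tn (tn (tn (tn (tl 2) te) te) te) te)))) (tn (tn te (tn te (tn (tn (tn (tn (tl 2) te) te) te) te))) te)))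

def t332 : Tr ℕ := (tn (tn te (tn (tn (tn (tn (tn (tn (tn (tl 8796361474048) te) te) te) te) te) te) te)) (tn (tn (tn (tn (tn (tn (tn (tn (tl 38686806891355241132851201) te) te) te) te) te) te) te) te))

def t333 : Tr ℕ := (tn (tn (tn (tn te (tn (tn (tn (tn (tn (tl 16384) te) te) te) te) te)) (tn te (tn te (tn (tn (tn (tn (tl 1) te) te) te) te)))) (tn (tn (tn (tn (tn (tn (tn (tl 8796361474050) te) te) te) te) te) (tn te (tn (tn (tn (tn (tl 1) te) te) te) te))) (tn (tn (tn (tn (tn (tn (tl 16385) te) te) te) te) te) te))) (tn (tn (tn (tn (tn (tn (tn (tn (tl 72061992352907264) te) te) te) te) te) (tn (tn (tn (tn (tn (tl 1) te) te) te) te) te)) (tn te (tn te (tn (tn (tn (tn (tl 2) te) te) te) te)))) (tn (tn te (tn te (tn (tn (tn (tn (tl 1) te) te) te) te))) te)))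

def t334 : Tr ℕ := (tn (tn (tn (tn te (tn (tn (tn (tn (tn (tl 16384) te) te) te) te) te)) (tn te (tn te (tn (tn (tn (tn (tl 2) te) te) te) te)))) (tn (tn (tn (tn (tn (tn (tn (tl 8796629893121) te) te) te) te) te) (tn te (tn (tn (tn (tn (tl 1) te) te) te) te))) (tn (tn (tn (tn (tn (tn (tl 32768) te) te) te) te) te) te))) (tn (tn (tn (tn (tn (tn (tn (tn (tl 38685626371792117759492096) te) te) te) te) te) (tn (tn (tn (tn (tn (tl 2) te) te) te) te) te)) (tn te (tn te (tn (tn (tn (tn (tl 2) te) te) te) te)))) (tn (tn te (tn te (tn (tn (tn (tn (tl 2) te) te) te) te))) te)))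

def t335 : Tr ℕ := (tn (tn (tn (tn te (tn (tn (tn (tn (tn (tl 16386) te) te) te) te) te)) te) (tn (tn (tn (tn (tn (tn (tn (tl 16385) te) te) te) te) te) (tn te (tn (tn (tn (tn (tl 1) te) te) te) te))) te)) (tn (tn (tn (tn (tn (tn (tn (tn (tl 1180591629514041212929) te) te) te) te) te) (tn (tn (tn (tn (tn (tl 32770) te) te) te) te) te)) (tn te (tn te (tn (tn (tn (tn (tl 1) te) te) te) te)))) (tn (tn te (tn te (tn (tn (tn (tn (tl 2) te) te) te) te))) te)))

def t336 : Tr ℕ := (tn (tn (tn (tn te (tn (tn (tn (tn (tn (tl 32769) te) te) te) te) te)) (tn te (tn te (tn (tn (tn (tn (tl 2) te) te) te) te)))) (tn (tn (tn (tn (tn (tn (tn (tl 4398314962946) te) te) te) te) te) te) (tn (tn (tn (tn (tn (tn (tl 16385) te) te) te) te) te) te))) (tn (tn (tn (tn (tn (tn (tn (tn (tl 1180735740303802105856) te) te) te) te) te) (tn (tn (tn (tn (tn (tl 32770) te) te) te) te) te)) te) (tn (tn te (tn te (tn (tn (tn (tn (tl 1) te) te) te) te))) te)))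

def t337 : Tr ℕ := (tn (tn (tn (tn te (tn (tn (tn (tn (tn (tl 32770) te) te) te) te) te)) (tn te (tn te (tn (tn (tn (tn (tl 2) te) te) te) te)))) (tn (tn (tn (tn (tn (tn (tn (tl 536870912) te) te) te) te) te) (tn te (tn (tn (tn (tn (tl 2) te) te) te) te))) (tn (tn (tn (tn (tn (tn (tl 32769) te) te) te) te) te) te))) (tn (tn (tn (tn (tn (tn (tn (tn (tl 1180591625115994701825) te) te) te) te) te) (tn (tn (tn (tn (tn (tl 32768) te) te) te) te) te)) te) (tn (tn te (tn te (tn (tn (tn (tn (tl 1) te) te) te) te))) te)))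

def t338 : Tr ℕ := (tn (tn (tn (tn (tn (tn (tn (tn (tn (tl 19343993777521174874456065) te) te) te) te) te) (tn (tn (tn (tn (tn (tl 32768) te) te) te) te) (tn (tn (tn (tn (tl 1) te) te) te) te))) te) (tn (tn (tn (tn (tn (tn (tn (tl 72066390130982912) te) te) te) te) te) te) te)) (tn (tn (tn (tn (tn (tn (tn (tn (tl 72057594574815233) te) te) te) te) te) (tn (tn (tn (tn (tn (tl 16384) te) te) te) te) (tn (tn (tn (tn (tl 1) te) te) te) te))) (tn (tn (tn (tn (tn (tn (tl 32768) te) te) te) te) te) te)) (tn te (tn (tn (tn (tn (tn (tn (tl 16386) te) te) te) te) (tn (tn (tn (tn (tl 1) te) te) te) te)) te))))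

def t339 : Tr ℕ := (tn (tn (tn (tn (tn (tn (tn (tn (tn (tl 19342813257953653454569474) te) te) te) te) te) (tn (tn (tn (tn (tn (tl 16386) te) te) te) te) te)) te) (tn (tn (tn (tn (tn (tn (tn (tl 72066390399385600) te) te) te) te) te) te) te)) (tn (tn (tn (tn (tn (tn (tn (tn (tl 8796093054977) te) te) te) te) te) (tn (tn (tn (tn (tn (tl 16384) te) te) te) te) (tn (tn (tn (tn (tl 1) te) te) te) te))) (tn (tn (tn (tn (tn (tn (tl 16384) te) te) te) te) te) te)) (tn te (tn (tn (tn (tn (tn (tn (tl 2) te) te) te) te) (tn (tn (tn (tn (tl 1) te) te) te) te)) te))))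

def t340 : Tr ℕ := (tn (tn (tn (tn (tn (tn (tn (tn (tn (tl 2361327365419528355841) te) te) te) te) te) (tn (tn (tn (tn (tn (tl 2) te) te) te) te) (tn (tn (tn (tn (tl 1) te) te) te) te))) te) (tn (tn (tn (tn (tn (tn (tn (tl 8796361474048) te) te) te) te) te) te) te)) (tn (tn (tn (tn (tn (tn (tn (tn (tl 4398046527489) te) te) te) te) te) (tn (tn (tn (tn (tn (tl 16384) te) te) te) te) (tn (tn (tn (tn (tl 1) te) te) te) te))) (tn (tn (tn (tn (tn (tn (tl 32770) te) te) te) te) te) te)) (tn te (tn (tn te (tn (tn (tn (tn (tl 1) te) te) te) te)) te))))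

def t341 : Tr ℕ := (tn (tn (tn (tn (tn (tn (tn (tn (tn (tl 38686806963408437124300801) te) te) te) te) te) (tn (tn (tn (tn (tn (tl 32770) te) te) te) te) te)) te) (tn (tn (tn (tn (tn (tn (tn (tl 72057594306396160) te) te) te) te) te) te) te)) (tn (tn (tn (tn (tn (tn (tn (tn (tl 8796629893122) te) te) te) te) te) (tn (tn (tn (tn (tn (tl 16384) te) te) te) te) (tn (tn (tn (tn (tl 2) te) te) te) te))) (tn (tn (tn (tn (tn (tn (tl 32769) te) te) te) te) te) te)) (tn te (tn (tn (tn (tn (tn (tn (tl 32770) te) te) te) te) (tn (tn (tn (tn (tl 2) te) te) te) te)) te))))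

def t342 : Tr ℕ := (tn (tn (tn (tn (tn (tn (tn (tn (tn (tl 1180663678311986135041) te) te) te) te) te) te) te) (tn (tn (tn (tn (tn (tn (tn (tl 144115188344291330) te) te) te) te) te) te) te)) (tn (tn (tn (tn (tn (tn (tn (tn (tl 72057594037960706) te) te) te) te) te) (tn (tn (tn (tn (tn (tl 32769) te) te) te) te) te)) (tn (tn (tn (tn (tn (tn (tl 16385) te) te) te) te) te) te)) (tn te (tn (tn (tn (tn (tn (tn (tl 16386) te) te) te) te) te) te))))

def t343 : Tr ℕ := (tn (tn (tn (tn (tn (tn (tn (tn (tn (tl 38685626227668134127501312) te) te) te) te) te) (tn (tn (tn (tn (tn (tl 32768) te) te) te) te) (tn (tn (tn (tn (tl 1) te) te) te) te))) te) (tn (tn (tn (tn (tn (tn (tn (tl 144119586122366978) te) te) te) te) te) te) te)) (tn (tn (tn (tn (tn (tn (tn (tn (tl 268468225) te) te) te) te) te) (tn (tn (tn (tn (tn (tl 16384) te) te) te) te) (tn (tn (tn (tn (tl 1) te) te) te) te))) (tn (tn (tn (tn (tn (tn (tl 32768) te) te) te) te) te)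 te)) (tn te (tn (tn (tn (tn (tn (tn (tl 16386) te) te) te) te) (tn (tn (tn (tn (tl 1) te) te) te) te)) te))))

def t344 : Tr ℕ := (tn (tn (tn (tn (tn (tn (tn (tn (tn (tl 19343993777521174606020608) te) te) te) te) te) (tn (tn (tn (tn (tn (tl 1) te) te) te) te) te)) te) (tn (tn (tn (tn (tn (tn (tn (tl 72057594037960705) te) te) te) te) te) te) te)) (tn (tn (tn (tn (tn (tn (tn (tn (tl 536903682) te) te) te) te) te) (tn (tn (tn (tn (tn (tl 2) te) te) te) te) (tn (tn (tn (tn (tl 1) te) te) te) te))) (tn (tn (tn (tn (tn (tn (tl 32769) te) te) te) te) te) te)) (tn te (tn (tn (tn (tn (tn (tn (tl 32770) te) te) te) te) (tn (tn (tn (tn (tl 1) te) te) te) te)) te))))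

def t345 : Tr ℕ := (tn (tn (tn (tn (tn (tn (tn (tn (tn (tl 2361327356623166914562) te) te) te) te) te) te) te) (tn (tn (tn (tn (tn (tn (tn (tl 72057594306363392) te) te) te) te) te) te) te)) (tn (tn (tn (tn (tn (tn (tn (tn (tl 144115188612726784) te) te) te) te) te) (tn (tn (tn (tn (tn (tl 16386) te) te) te) te) te)) te) (tn te (tn (tn (tn (tn (tn (tn (tl 1) te) te) te) te) te) te))))

def t346 : Tr ℕ := (tn (tn (tn (tn (tn (tn (tn (tn (tn (tl 2361255307825221992449) te) te) te) te) te) (tn (tn (tn (tn (tn (tl 2) te) te) te) te) (tn (tn (tn (tn (tl 1) te) te) te) te))) te) (tn (tn (tn (tn (tn (tn (tn (tl 72057594306363394) te) te) te) te) te) te) te)) (tn (tn (tn (tn (tn (tn (tn (tn (tl 72066390399401985) te) te) te) te) te) (tn (tn (tn (tn (tn (tl 16384) te) te) te) te) (tn (tn (tn (tn (tl 1) te) te) te) te))) (tn (tn (tn (tn (tn (tn (tl 16385) te) te) te) te) te) te)) (tn te (tn (tn (tn (tn (tn (tn (tl 32768) te) te) te)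 te) (tn (tn (tn (tn (tl 1) te) te) te) te)) te))))

def t347 : Tr ℕ := (tn (tn (tn (tn (tn (tn (tn (tn (tn (tl 38686806891355241132851200) te) te) te) te) te) (tn te (tn (tn (tn (tn (tl 2) te) te) te) te))) te) (tn (tn (tn (tn (tn (tn (tn (tl 72066390130950146) te) te) te) te) te) te) te)) (tn (tn (tn (tn (tn (tn (tn (tn (tl 72061992084455426) te) te) te) te) te) (tn (tn (tn (tn (tn (tl 32769) te) te) te) te) (tn (tn (tn (tn (tl 1) te) te) te) te))) (tn (tn (tn (tn (tn (tn (tl 16385) te) te) te) te) te) te)) te))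

def t348 : Tr ℕ := (tn (tn (tn (tn (tn (tn (tn (tn (tn (tl 19343993777521174874456066) te) te) te) te) te) (tn (tn (tn (tn (tn (tl 32769) te) te) te) te) te)) te) (tn (tn (tn (tn (tn (tn (tn (tl 144123984437313537) te) te) te) te) te) te) te)) (tn (tn (tn (tn (tn (tn (tn (tn (tl 144115188612726784) te) te) te) te) te) (tn (tn (tn (tn (tn (tl 1) te) te) te) te) (tn (tn (tn (tn (tl 1) te) te) te) te))) (tn (tn (tn (tn (tn (tn (tl 16384) te) te) te) te) te) te)) (tn te (tn (tn (tn (tn (tn (tn (tl 16384) te) te) te) te) (tn (tn (tn (tn (tl 1) te) te) te) te)) te))))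

def t349 : Tr ℕ := (tn (tn (tn (tn (tn (tn (tn (tn (tn (tl 38687987482967162719567873) te) te) te) te) te) (tn (tn (tn (tn (tn (tl 16386) te) te) te) te) te)) te) (tn (tn (tn (tn (tn (tn (tn (tl 8796361457664) te) te) te) te) te) te) te)) (tn (tn (tn (tn (tn (tn (tn (tn (tl 72057594306379776) te) te) te) te) te) (tn (tn (tn (tn (tn (tl 32770) te) te) te) te) (tn (tn (tn (tn (tl 1) te) te) te) te))) (tn (tn (tn (tn (tn (tn (tl 32768) te) te) te) te) te) te)) (tn te (tn (tn (tn (tn (tn (tn (tl 32770) te) te) te) te) (tn (tn (tn (tn (tl 2) te) te) te) te)) te))))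

def t350 : Tr ℕ := (tn (tn (tn (tn (tn (tn (tn (tn (tn (tl 144119586390818818) te) te) te) te) te) (tn (tn (tn (tn (tn (tl 2) te) te) te) te) (tn (tn (tn (tn (tl 1) te) te) te) te))) te) (tn (tn (tn (tn (tn (tn (tn (tl 8796093022208) te) te) te) te) te) te) te)) (tn (tn (tn (tn (tn (tn (tn (tn (tl 268435457) te) te) te) te) te) (tn (tn (tn (tn (tn (tl 32768) te) te) te) te) (tn (tn (tn (tn (tl 2) te) te) te) te))) (tn (tn (tn (tn (tn (tn (tl 16384) te) te) te) te) te) te)) (tn te (tn (tn (tn (tn (tn (tn (tl 32768) te) te) te) te) (tn (tn (tn (tn (tl 2) te) te) te) te)) te))))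

def t351 : Tr ℕ := (tn (tn (tn (tn (tn (tn (tn (tn (tn (tl 38686806891355241132851202) te) te) te) te) te) (tn (tn (tn (tn (tn (tl 16386) te) te) te) te) (tn (tn (tn (tn (tl 2) te) te) te) te))) te) (tn (tn (tn (tn (tn (tn (tn (tl 268435456) te) te) te) te) te) te) te)) (tn (tn (tn (tn (tn (tn (tn (tn (tl 144123984705765378) te) te) te) te) te) (tn te (tn (tn (tn (tn (tl 1) te) te) te) te))) (tn (tn (tn (tn (tn (tn (tl 32769) te) te) te) te) te) te)) (tn te (tn (tn (tn (tn (tn (tn (tl 2) te) te) te) te) (tn (tn (tn (tn (tl 2) te) te) te) te)) te))))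

def t352 : Tr ℕ := (tn (tn (tn (tn (tn (tn (tn (tn (tn (tl 38687987410913966728167426) te) te) te) te) te) (tn (tn (tn (tn (tn (tl 32770) te) te) te) te) te)) te) (tn (tn (tn (tn (tn (tn (tn (tl 4398046543874) te) te) te) te) te) te) te)) (tn (tn (tn (tn (tn (tn (tn (tn (tl 4398583382017) te) te) te) te) te) (tn (tn (tn (tn (tn (tl 32770) te) te) te) te) (tn (tn (tn (tn (tl 2) te) te) te) te))) (tn (tn (tn (tn (tn (tn (tl 16385) te) te) te) te) te) te)) (tn te (tn (tn (tn (tn (tn (tn (tl 16385) te) te) te) te) (tn (tn (tn (tn (tl 2) te) te) te) te)) te))))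

def t353 : Tr ℕ := (tn (tn (tn (tn (tn (tn (tn (tn (tn (tl 8796093054977) te) te) te) te) te) (tn (tn (tn (tn (tn (tl 1) te) te) te) te) (tn (tn (tn (tn (tl 2) te) te) te) te))) te) (tn (tn (tn (tn (tn (tn (tn (tl 72057594037927937) te) te) te) te) te) te) te)) (tn (tn (tn (tn (tn (tn (tn (tn (tl 32770) te) te) te) te) te) (tn (tn (tn (tn (tn (tl 16384) te) te) te) te) (tn (tn (tn (tn (tl 2) te) te) te) te))) (tn (tn (tn (tn (tn (tn (tl 32769) te) te) te) te) te) te)) (tn te (tn (tn (tn (tn (tn (tn (tl 16384) te) te) te) te) te) te))))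

def t354 : Tr ℕ := (tn (tn (tn (tn (tn (tn (tn (tn (tn (tl 19345174369141891748872192) te) te) te) te) te) (tn (tn (tn (tn (tn (tl 1) te) te) te) te) (tn (tn (tn (tn (tl 2) te) te) te) te))) te) (tn (tn (tn (tn (tn (tn (tn (tl 144119586390818816) te) te) te) te) te) te) te)) (tn (tn (tn (tn (tn (tn (tn (tn (tl 72066390130950144) te) te) te) te) te) (tn (tn (tn (tn (tn (tl 16384) te) te) te) te) te)) (tn (tn (tn (tn (tn (tn (tl 1) te) te) te) te) te) te)) (tn te (tn (tn (tn (tn (tn (tn (tl 1) te) te) te) te) (tn (tn (tn (tn (tl 1) te) te) te) te)) te))))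

def t355 : Tr ℕ := (tn (tn (tn (tn (tn (tn (tn (tn (tn (tl 144115188612759554) te) te) te) te) te) te) (tn (tn (tn (tn (tn (tn (tl 16386) te) te) te) te) te) te)) (tn (tn (tn (tn (tn (tn (tn (tl 16384) te) te) te) te) te) te) te)) (tn te (tn te (tn (tn (tn (tn (tn (tn (tl 16384) te) te) te) te) te) te))))

def t356 : Tr ℕ := (tn (tn (tn (tn (tn (tn (tn (tn (tn (tl 72061992084471810) te) te) te) te) te) te) (tn (tn (tn (tn (tn (tn (tl 32768) te) te) te) te) te) te)) (tn (tn (tn (tn (tn (tn (tn (tl 8796093054976) te) te) te) te) te) te) (tn (tn te (tn (tn (tn (tn (tl 2) te) te) te) te)) te))) (tn (tn te (tn (tn te (tn (tn (tn (tn (tl 2) te) te) te) te)) te)) (tn te (tn (tn (tn (tn (tn (tn (tl 32769) te) te) te) te) te) te))))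

def t357 : Tr ℕ := (tn (tn (tn (tn (tn (tn (tn (tn (tn (tl 4398583398401) te) te) te) te) te) te) (tn (tn (tn (tn (tn (tn (tl 16386) te) te) te) te) te) te)) (tn (tn (tn (tn (tn (tn (tn (tl 268468224) te) te) te) te) te) te) te)) (tn te (tn te (tn (tn (tn (tn (tn (tn (tl 16384) te) te) te) te) te) te))))

def t358 : Tr ℕ := (tn (tn (tn (tn (tn (tn (tn (tn (tn (tl 72057594306396160) te) te) te) te) te) te) te) (tn (tn (tn (tn (tn (tn (tn (tl 8796093022209) te) te) te) te) te) te) te)) te)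

def t359 : Tr ℕ := (tn (tn (tn (tn (tn (tn (tn (tn (tn (tl 72057594306379776) te) te) te) te) te) te) te) (tn (tn (tn (tn (tn (tn (tn (tl 4398314962946) te) te) te) te) te) te) te)) (tn te (tn te (tn (tn (tn (tn (tn (tn (tl 16386) te) te) te) te) te) te))))

def t360 : Tr ℕ := (tn (tn (tn (tn (tn (tn (tn (tn (tn (tl 72061992084471810) te) te) te) te) te) te) te) (tn (tn (tn (tn (tn (tn (tn (tl 8796093054976) te) te) te) te) te) te) (tn (tn te (tn (tn (tn (tn (tl 2) te) te) te) te)) te))) (tn te (tn te (tn (tn (tn (tn (tn (tn (tl 32769) te) te) te) te) te) te))))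

def t361 : Tr ℕ := (tn (tn (tn (tn (tn (tn (tn (tn (tn (tl 144123984168910849) te) te) te) te) te) te) (tn (tn (tn (tn (tn (tn (tl 16384) te) te) te) te) te) te)) (tn (tn (tn (tn (tn (tn (tn (tl 32770) te) te) te) te) te) te) (tn (tn te (tn (tn (tn (tn (tl 2) te) te) te) te)) te))) (tn (tn te (tn (tn te (tn (tn (tn (tn (tl 1) te) te) te) te)) te)) (tn te (tn (tn (tn (tn (tn (tn (tl 16386) te) te) te) te) te) te))))

def t362 : Tr ℕ := (tn (tn (tn (tn (tn (tn (tn (tn (tn (tl 144123984168910849) te) te) te) te) te) te) (tn (tn (tn (tn (tn (tn (tl 32768) te) te) te) te) te) te)) (tn (tn (tn (tn (tn (tn (tn (tl 4398583382018) te) te) te) te) te) te) (tn (tn te (tn (tn (tn (tn (tl 2) te) te) te) te)) te))) (tn (tn te (tn (tn te (tn (tn (tn (tn (tl 2) te) te) te) te)) te)) (tn te (tn (tn (tn (tn (tn (tn (tl 32768) te) te) te) te) te) te))))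

def t363 : Tr ℕ := (tn (tn (tn (tn (tn (tn (tn (tn (tn (tl 8796093022208) te) te) te) te) te) te) te) (tn (tn (tn (tn (tn (tn (tn (tl 4398046527488) te) te) te) te) te) te) (tn (tn te (tn (tn (tn (tn (tl 2) te) te) te) te)) te))) (tn (tn te (tn (tn te (tn (tn (tn (tn (tl 1) te) te) te) te)) te)) (tn te (tn (tn (tn (tn (tn (tn (tl 16386) te) te) te) te) te) te))))

def t364 : Tr ℕ := (tn (tn (tn (tn (tn (tn (tn (tn (tn (tl 8796629893122) te) te) te) te) te) te) (tn (tn te (tn (tn (tn (tn (tl 2) te) te) te) te)) te)) te) (tn (tn (tn (tn (tn (tn (tn (tn (tl 144123984437313537) te) te) te) te) te) te) (tn (tn (tn (tn (tn (tn (tl 32769) te) te) te) te) te) te)) te))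

def t365 : Tr ℕ := (tn (tn (tn (tn (tn (tn (tn (tn (tn (tl 8796629925888) te) te) te) te) te) te) te) (tn te (tn (tn (tn (tn (tn (tn (tl 16386) te) te) te) te) te) te))) (tn (tn (tn (tn (tn (tn (tn (tn (tl 72057594037927938) te) te) te) te) te) te) te) te))

def t366 : Tr ℕ := (tn (tn (tn (tn (tn (tn (tn (tn (tn (tl 268435456) te) te) te) te) te) te) te) (tn te (tn (tn (tn (tn (tn (tn (tl 32768) te) te) te) te) te) te))) (tn (tn (tn (tn (tn (tn (tn (tn (tl 144119586390818817) te) te) te) te) te) te) (tn (tn (tn (tn (tn (tn (tl 2) te) te) te) te) te) te)) te))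

def t367 : Tr ℕ := (tn (tn (tn (tn (tn (tn (tn (tn (tn (tl 4398046511105) te) te) te) te) te) te) (tn (tn te (tn (tn (tn (tn (tl 1) te) te) te) te)) te)) (tn te (tn (tn (tn (tn (tn (tn (tl 32769) te) te) te) te) te) te))) (tn (tn (tn (tn (tn (tn (tn (tn (tl 72061992352890880) te) te) te) te) te) te) (tn (tn (tn (tn (tn (tn (tl 16384) te) te) te) te) te) te)) te))

def t368 : Tr ℕ := (tn (tn (tn (tn (tn (tn (tn (tn (tn (tl 4398583382017) te) te) te) te) te) te) (tn (tn te (tn (tn (tn (tn (tl 2) te) te) te) te)) te)) (tn te (tn (tn (tn (tn (tn (tn (tl 2) te) te) te) te) te) te))) (tn (tn (tn (tn (tn (tn (tn (tn (tl 4398583382017) te) te) te) te) te) te) te) te))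

def t369 : Tr ℕ := (tn (tn (tn (tn (tn (tn (tn (tn (tn (tl 4398314946562) te) te) te) te) te) te) (tn (tn te (tn (tn (tn (tn (tl 2) te) te) te) te)) te)) (tn te (tn (tn (tn (tn (tn (tn (tl 32768) te) te) te) te) te) te))) (tn (tn (tn (tn (tn (tn (tn (tn (tl 72066390399418370) te) te) te) te) te) te) (tn (tn (tn (tn (tn (tn (tl 2) te) te) te) te) te) te)) (tn (tn (tn te (tn (tn (tn (tn (tl 1) te) te) te) te)) te) te)))

def t370 : Tr ℕ := (tn (tn (tn (tn (tn (tn (tn (tn (tn (tl 536887298) te) te) te) te) te) te) (tn (tn te (tn (tn (tn (tn (tl 2) te) te) te) te)) te)) (tn te (tn (tn (tn (tn (tn (tn (tl 1) te) te) te) te) te) te))) (tn (tn (tn (tn (tn (tn (tn (tn (tl 144115188075855873) te) te) te) te) te) te) (tn (tn (tn (tn (tn (tn (tl 16386) te) te) te) te) te) te)) te))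

def t371 : Tr ℕ := (tn (tn (tn (tn (tn (tn (tn (tn (tn (tl 4398314962945) te) te) te) te) te) te) te) (tn te (tn (tn (tn (tn (tn (tn (tl 32769) te) te) te) te) te) te))) (tn (tn (tn (tn (tn (tn (tn (tn (tl 268435456) te) te) te) te) te) te) (tn (tn (tn (tn (tn (tn (tl 2) te) te) te) te) te) te)) (tn (tn (tn te (tn (tn (tn (tn (tl 1) te) te) te) te)) te) te)))

def t372 : Tr ℕ := (tn (tn (tn (tn (tn (tn (tn (tn (tn (tl 8796629893122) te) te) te) te) te) te) (tn (tn te (tn (tn (tn (tn (tl 1) te) te) te) te)) te)) (tn te (tn (tn (tn (tn (tn (tn (tl 16384) te) te) te) te) te) te))) (tn (tn (tn (tn (tn (tn (tn (tn (tl 4398046543874) te) te) te) te) te) te) (tn (tn (tn (tn (tn (tn (tl 32770) te) te) te) te) te) te)) (tn (tn (tn te (tn (tn (tn (tn (tl 2) te) te) te) te)) te) te)))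

def t373 : Tr ℕ := (tn (tn (tn (tn (tn (tn (tn (tn (tn (tl 32770) te) te) te) te) te) te) (tn (tn te (tn (tn (tn (tn (tl 1) te) te) te) te)) te)) (tn te (tn (tn (tn (tn (tn (tn (tl 1) te) te) te) te) te) te))) (tn (tn (tn (tn (tn (tn (tn (tn (tl 72057594037927937) te) te) te) te) te) te) (tn (tn (tn (tn (tn (tn (tl 32769) te) te) te) te) te) te)) te))

def t374 : Tr ℕ := (tn (tn (tn (tn (tn (tn (tn (tn (tn (tl 8796629925888) te) te) te) te) te) te) te) (tn te (tn (tn (tn (tn (tn (tn (tl 1) te) te) te) te) te) te))) (tn (tn (tn (tn (tn (tn (tn (tn (tl 144115188344291328) te) te) te) te) te) te) (tn (tn (tn (tn (tn (tn (tl 2) te) te) te) te) te) te)) (tn (tn (tn te (tn (tn (tn (tn (tl 1) te) te) te) te)) te) te)))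

def t375 : Tr ℕ := (tn (tn (tn (tn (tn (tn (tn (tn (tn (tl 4398046527488) te) te) te) te) te) te) (tn (tn (tn (tn (tn (tn (tl 32768) te) te) te) te) te) te)) te) (tn (tn te (tn (tn (tn (tn (tn (tn (tl 32769) te) te) te) te) te) te)) te))

def t376 : Tr ℕ := (tn (tn (tn (tn (tn (tn (tn (tn (tn (tl 536887298) te) te) te) te) te) te) (tn (tn (tn (tn (tn (tn (tl 32768) te) te) te) te) te) te)) (tn (tn (tn te (tn (tn (tn (tn (tl 1) te) te) te) te)) te) te)) (tn (tn (tn (tn (tn (tn (tn (tn (tl 1) te) te) te) te) (tn (tn (tn (tn (tl 2) te) te) te) te)) te) (tn (tn (tn (tn (tn (tn (tl 16384) te) te) te) te) te) te)) te))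

def t377 : Tr ℕ := (tn (tn (tn (tn (tn (tn (tn (tn (tn (tl 144115188344307714) te) te) te) te) te) te) te) te) (tn (tn (tn (tn (tn (tn (tn (tn (tl 8796093022209) te) te) te) te) te) te) (tn (tn (tn (tn (tn (tn (tl 16386) te) te) te) te) te) te)) te))

def t378 : Tr ℕ := (tn (tn (tn (tn (tn (tn (tn (tn (tn (tl 72066390399418370) te) te) te) te) te) te) (tn (tn (tn (tn (tn (tn (tl 32769) te) te) te) te) te) te)) (tn (tn (tn te (tn (tn (tn (tn (tl 1) te) te) te) te)) te) te)) (tn (tn (tn (tn (tn (tn (tn (tn (tl 8796093038594) te) te) te) te) (tn (tn (tn (tn (tl 2) te) te) te) te)) te) (tn (tn (tn (tn (tn (tn (tl 2) te) te) te) te) te) te)) te))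

def t379 : Tr ℕ := (tn (tn (tn (tn (tn (tn (tn (tn (tn (tl 144123984705765378) te) te) te) te) te) te) te) (tn (tn (tn te (tn (tn (tn (tn (tl 2) te) te) te) te)) te) te)) (tn (tn (tn (tn (tn (tn (tn (tn (tl 536887298) te) te) te) te) te) te) (tn (tn (tn (tn (tn (tn (tl 2) te) te) te) te) te) te)) te))

def t380 : Tr ℕ := (tn (tn (tn (tn (tn (tn (tn (tn (tn (tl 144119586659254272) te) te) te) te) te) te) (tn (tn (tn (tn (tn (tn (tl 16386) te) te) te) te) te) te)) (tn (tn (tn te (tn (tn (tn (tn (tl 1) te) te) te) te)) te) te)) (tn (tn (tn (tn (tn (tn (tn (tn (tl 4398314962944) te) te) te) te) te) te) (tn (tn (tn (tn (tn (tn (tl 32770) te) te) te) te) te) te)) te))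

def t381 : Tr ℕ := (tn (tn (tn (tn (tn (tn (tn (tn (tn (tl 144115188075872257) te) te) te) te) te) te) te) (tn (tn (tn te (tn (tn (tn (tn (tl 1) te) te) te) te)) te) te)) (tn (tn (tn (tn (tn (tn (tn (tn (tl 4398314962944) te) te) te) te) (tn (tn (tn (tn (tl 2) te) te) te) te)) te) (tn (tn (tn (tn (tn (tn (tl 16384) te) te) te) te) te) te)) te))

def t382 : Tr ℕ := (tn (tn (tn (tn (tn (tn (tn (tn (tn (tl 144115188075888640) te) te) te) te) te) te) (tn (tn (tn (tn (tn (tn (tl 32770) te) te) te) te) te) te)) te) (tn (tn (tn (tn (tn (tn (tn (tn (tl 8796361490433) te) te) te) te) (tn (tn (tn (tn (tl 2) te) te) te) te)) te) (tn (tn (tn (tn (tn (tn (tl 16384) te) te) te) te) te) te)) te))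

def t383 : Tr ℕ := (tn (tn (tn (tn (tn (tn (tn (tn (tn (tl 268451840) te) te) te) te) te) te) (tn (tn (tn (tn (tn (tn (tl 1) te) te) te) te) te) te)) te) (tn (tn (tn (tn (tn (tn (tn (tn (tl 268468224) te) te) te) te) te) te) (tn (tn (tn (tn (tn (tn (tl 1) te) te) te) te) te) te)) te))

def t384 : Tr ℕ := (tn (tn (tn (tn (tn (tn (tn (tn (tn (tl 8796629893122) te) te) te) te) te) te) (tn (tn (tn (tn (tn (tn (tl 1) te) te) te) te) te) te)) (tn (tn (tn te (tn (tn (tn (tn (tl 2) te) te) te) te)) te) te)) (tn (tn (tn (tn (tn (tn (tn (tn (tl 4398314946560) te) te) te) te) (tn (tn (tn (tn (tl 1) te) te) te) te)) te) (tn (tn (tn (tn (tn (tn (tl 32768) te) te) te) te) te) te)) te))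

def t385 : Tr ℕ := (tn (tn (tn (tn (tn (tn (tn (tn (tn (tl 72057594306363394) te) te) te) te) te) te) (tn (tn (tn (tn (tn (tn (tl 16385) te) te) te) te) te) te)) (tn (tn (tn te (tn (tn (tn (tn (tl 2) te) te) te) te)) te) te)) (tn (tn (tn (tn (tn (tn (tn (tn (tl 4398046511104) te) te) te) te) (tn (tn (tn (tn (tl 2) te) te) te) te)) te) (tn (tn (tn (tn (tn (tn (tl 32769) te) te) te) te) te) te)) te))

def t386 : Tr ℕ := (tn (tn (tn (tn (tn te (tn (tn (tn (tn (tl 2) te) te) te) te)) te) te) te) (tn te (tn (tn (tn (tn (tn (tn (tn (tl 1) te) te) te) te) te) te) te)))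

def t387 : Tr ℕ := (tn (tn te (tn te (tn te (tn (tn (tn (tn (tn (tl 1) te) te) te) te) te)))) (tn te (tn (tn (tn (tn (tn (tn (tn (tl 32769) te) te) te) te) te) te) (tn te (tn (tn (tn (tn (tn (tl 1) te) te) te) te) te)))))

def t388 : Tr ℕ := (tn (tn te (tn (tn (tn (tn (tn (tn (tn (tl 1) te) te) te) te) te) te) (tn te (tn (tn (tn (tn (tn (tl 1) te) te) te) te) te)))) (tn te (tn (tn (tn (tn (tn (tn (tn (tl 2) te) te) te) te) te) te) te)))

def t389 : Tr ℕ := (tn (tn te (tn (tn (tn (tn (tn (tn (tn (tl 2) te) te) te) te) te) te) te)) (tn te (tn (tn (tn (tn (tn (tn (tn (tl 2) te) te) te) te) te) te) te)))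

def t390 : Tr ℕ := (tn (tn te (tn te (tn te (tn (tn (tn (tn (tn (tl 1) te) te) te) te) te)))) (tn te (tn (tn (tn (tn (tn (tn (tn (tl 32769) te) te) te) te) te) te) (tn te (tn (tn (tn (tn (tn (tl 1) te) te) te) te) te)))))

def t391 : Tr ℕ := (tn (tn te (tn (tn (tn (tn (tn (tn (tn (tl 2) te) te) te) te) te) te) te)) (tn te (tn te (tn te (tn (tn (tn (tn (tn (tl 1) te) te) te) te) te)))))

def t392 : Tr ℕ := (tn (tn (tn te (tn te (tn (tn (tn (tn (tn (tl 2) te) te) te) te) te))) te) (tn (tn (tn (tn (tn (tn (tn (tn (tl 2) te) te) te) te) te) te) te) (tn (tn (tn (tn (tn (tn (tn (tl 32769) te) te) te) te) te) te) te)))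

def t393 : Tr ℕ := (tn (tn (tn te (tn te (tn (tn (tn (tn (tn (tl 2) te) te) te) te) te))) te) (tn (tn (tn (tn (tn (tn (tn (tn (tl 2) te) te) te) te) te) te) te) (tn (tn (tn (tn (tn (tn (tn (tl 16385) te) te) te) te) te) te) te)))

def t394 : Tr ℕ := (tn (tn (tn te (tn te (tn (tn (tn (tn (tn (tl 1) te) te) te) te) te))) te) (tn (tn (tn (tn (tn (tn (tn (tn (tl 1) te) te) te) te) te) te) te) (tn (tn (tn (tn (tn (tn (tn (tl 2) te) te) te) te) te) te) te)))

def t395 : Tr ℕ := (tn (tn (tn te (tn te (tn (tn (tn (tn (tn (tl 1) te) te) te) te) te))) te) (tn (tn (tn (tn (tn (tn (tn (tn (tl 1) te) te) te) te) te) te) (tn te (tn (tn (tn (tn (tn (tl 1) te) te) te) te) te))) te))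

def t396 : Tr ℕ := (tn te (tn (tn (tn (tn (tn (tn (tn (tn (tl 1) te) te) te) te) te) te) (tn te (tn (tn (tn (tn (tn (tl 2) te) te) te) te) te))) te))

def t397 : Tr ℕ := (tn (tn (tn (tn (tn (tn (tn (tn (tn (tl 2) te) te) te) te) te) te) te) (tn (tn te (tn (tn (tn (tn (tn (tl 2) te) te) te) te) te)) te)) (tn te (tn (tn te (tn (tn (tn (tn (tn (tl 2) te) te) te) te) te)) te)))

def t398 : Tr ℕ := (tn (tn (tn (tn (tn (tn (tn (tn (tn (tl 2) te) te) te) te) te) te) te) (tn (tn te (tn (tn (tn (tn (tn (tl 1) te) te) te) te) te)) te)) (tn te (tn (tn (tn (tn (tn (tn (tn (tl 16384) te) te) te) te) te) (tn (tn (tn (tn (tn (tl 2) te) te) te) te) te)) te)))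

def t399 : Tr ℕ := (tn (tn (tn (tn (tn (tn (tn (tn (tn (tl 1) te) te) te) te) te) te) te) te) (tn te (tn (tn (tn (tn (tn (tn (tn (tl 1) te) te) te) te) te) te) te)))

def t400 : Tr ℕ := (tn te (tn te (tn (tn (tn (tn (tn (tn (tn (tl 32768) te) te) te) te) te) (tn (tn (tn (tn (tn (tl 1) te) te) te) te) te)) te)))

def t401 : Tr ℕ := (tn (tn (tn (tn (tn (tn (tn (tn (tn (tl 2) te) te) te) te) te) te) te) (tn (tn te (tn (tn (tn (tn (tn (tl 2) te) te) te) te) te)) te)) (tn te (tn (tn (tn (tn (tn (tn (tn (tl 32769) te) te) te) te) te) (tn (tn (tn (tn (tn (tl 1) te) te) te) te) te)) te)))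

def t402 : Tr ℕ := (tn (tn (tn (tn te (tn (tn (tn (tn (tn (tl 1) te) te) te) te) te)) te) (tn (tn (tn (tn (tn (tn (tn (tl 32769) te) te) te) te) te) te) te)) (tn (tn (tn (tn (tn (tn (tn (tn (tl 1) te) te) te) te) te) (tn (tn (tn (tn (tn (tl 1) te) te) te) te) te)) te) te))

def t403 : Tr ℕ := (tn (tn te (tn (tn (tn (tn (tn (tn (tn (tl 32768) te) te) te) te) te) te) te)) (tn (tn (tn (tn (tn (tn (tn (tn (tl 16384) te) te) te) te) te) (tn (tn (tn (tn (tn (tl 1) te) te) te) te) te)) te) te))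

def t404 : Tr ℕ := (tn (tn te (tn (tn (tn (tn (tn (tn (tn (tl 32769) te) te) te) te) te) te) te)) (tn (tn (tn (tn (tn (tn (tn (tn (tl 32769) te) te) te) te) te) (tn (tn (tn (tn (tn (tl 2) te) te) te) te) te)) te) te))

def t405 : Tr ℕ := (tn (tn te (tn (tn (tn (tn (tn (tn (tn (tl 1) te) te) te) te) te) te) te)) (tn (tn (tn (tn (tn (tn (tn (tn (tl 1) te) te) te) te) te) te) te) te))

def t406 : Tr ℕ := (tn (tn te (tn (tn (tn (tn (tn (tn (tn (tl 16385) te) te) te) te) te) te) te)) (tn (tn (tn (tn (tn (tn (tn (tn (tl 32770) te) te) te) te) te) (tn (tn (tn (tn (tn (tl 1) te) te) te) te) te)) te) te))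

def t407 : Tr ℕ := (tn (tn (tn (tn te (tn (tn (tn (tn (tn (tl 2) te) te) te) te) te)) te) (tn (tn (tn (tn (tn (tn (tn (tl 16386) te) te) te) te) te) te) te)) (tn (tn (tn (tn (tn (tn (tn (tn (tl 32769) te) te) te) te) te) (tn (tn (tn (tn (tn (tl 2) te) te) te) te) te)) te) te))

def t408 : Tr ℕ := (tn (tn te (tn (tn (tn (tn (tn (tn (tn (tl 16385) te) te) te) te) te) te) te)) (tn (tn (tn te (tn (tn (tn (tn (tn (tl 1) te) te) te) te) te)) te) te))

def t409 : Tr ℕ := (tn (tn (tn (tn (tn (tn (tn (tn (tn (tl 32770) te) te) te) te) te) te) te) (tn (tn (tn (tn (tn (tn (tn (tl 16385) te) te) te) te) te) te) te)) te)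

def t410 : Tr ℕ := (tn (tn te (tn (tn (tn (tn (tn (tn (tn (tl 16386) te) te) te) te) te) te) te)) (tn te (tn te (tn (tn (tn (tn (tn (tn (tl 1) te) te) te) te) te) te))))

def t411 : Tr ℕ := (tn (tn te (tn (tn (tn (tn (tn (tn (tn (tl 16384) te) te) te) te) te) te) te)) (tn te (tn te (tn (tn (tn (tn (tn (tn (tl 2) te) te) te) te) te) te))))

def t412 : Tr ℕ := (tn (tn (tn (tn (tn (tn (tn (tn (tn (tl 2) te) te) te) te) te) te) te) (tn (tn (tn (tn (tn (tn (tn (tl 16386) te) te) te) te) te) te) te)) (tn te (tn te (tn (tn (tn (tn (tn (tn (tl 2) te) te) te) te) te) te))))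

def t413 : Tr ℕ := (tn (tn (tn (tn (tn (tn (tn (tn (tn (tl 16384) te) te) te) te) te) te) te) (tn (tn (tn (tn (tn (tn (tn (tl 32768) te) te) te) te) te) te) te)) (tn te (tn te (tn (tn (tn (tn (tn (tn (tl 2) te) te) te) te) te) te))))

def t414 : Tr ℕ := (tn te (tn (tn (tn (tn (tn (tn (tn (tn (tl 1) te) te) te) te) te) te) te) te))

def t415 : Tr ℕ := (tn te (tn (tn (tn (tn (tn (tn (tn (tn (tl 16384) te) te) te) te) te) te) te) te))

def t416 : Tr ℕ := (tn (tn te (tn te (tn (tn (tn (tn (tn (tn (tl 2) te) te) te) te) te) te))) (tn (tn (tn (tn (tn (tn (tn (tn (tl 2) te) te) te) te) te) te) te) te))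

def t417 : Tr ℕ := (tn (tn te (tn te (tn (tn (tn (tn (tn (tn (tl 2) te) te) te) te) te) te))) (tn (tn (tn (tn (tn (tn (tn (tn (tl 16384) te) te) te) te) te) te) te) te))

def t418 : Tr ℕ := (tn (tn (tn (tn (tn (tn (tn (tn (tn (tl 1) te) te) te) te) te) te) te) te) (tn (tn (tn (tn (tn (tn (tn (tn (tl 32768) te) te) te) te) te) te) te) te))

def t419 : Tr ℕ := (tn (tn (tn (tn (tn (tn (tn (tn (tn (tl 32768) te) te) te) te) te) te) te) te) (tn (tn (tn (tn (tn (tn (tn (tn (tl 32769) te) te) te) te) te) te) (tn (tn (tn (tn (tn (tn (tl 2) te) te) te) te) te) te)) te))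

def t420 : Tr ℕ := (tn (tn (tn (tn (tn (tn (tn (tn (tn (tl 32770) te) te) te) te) te) te) te) te) (tn (tn (tn (tn (tn (tn (tn (tn (tl 16384) te) te) te) te) te) te) te) te))

def t421 : Tr ℕ := (tn te (tn (tn (tn (tn (tn (tn (tn (tn (tl 32769) te) te) te) te) te) te) (tn (tn (tn (tn (tn (tn (tl 2) te) te) te) te) te) te)) te))

def t422 : Tr ℕ := (tn (tn (tn (tn (tn (tn (tn (tn (tn (tl 16386) te) te) te) te) te) te) te) te) (tn (tn (tn (tn (tn (tn (tn (tn (tl 2) te) te) te) te) te) te) te) te))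

def t423 : Tr ℕ := (tn (tn (tn (tn (tn (tn (tn (tn (tn (tl 1) te) te) te) te) te) te) (tn (tn (tn (tn (tn (tn (tl 2) te) te) te) te) te) te)) te) te)

def t424 : Tr ℕ := (tn (tn (tn (tn (tn (tn (tn (tn (tn (tl 32768) te) te) te) te) te) te) (tn (tn (tn (tn (tn (tn (tl 2) te) te) te) te) te) te)) te) te)

def t425 : Tr ℕ := (tn (tn (tn (tn (tn (tn (tn (tn (tn (tl 32770) te) te) te) te) te) te) (tn (tn (tn (tn (tn (tn (tl 1) te) te) te) te) te) te)) te) te)

def t426 : Tr ℕ := (tn (tn (tn (tn (tn (tn (tn (tn (tn (tl 16384) te) te) te) te) te) te) (tn (tn (tn (tn (tn (tn (tl 2) te) te) te) te) te) te)) te) te)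

def t427 : Tr ℕ := (tn te (tn te (tn (tn (tn (tn (tn (tn (tn (tl 2) te) te) te) te) te) te) te)))

def t428 : Tr ℕ := (tn (tn te (tn (tn (tn (tn (tn (tn (tn (tl 1) te) te) te) te) te) te) te)) te)

def t429 : Tr ℕ := (tn (tn te (tn (tn (tn (tn (tn (tn (tn (tl 2) te) te) te) te) te) te) te)) te)

def t430 : Tr ℕ := (tn te (tn (tn (tn (tn (tn (tn (tn (tn (tl 1) te) te) te) te) te) te) te) te))

def t432 : Tr ℕ := (tn (tn (tn (tn (tn (tn (tn (tn (tn (tl 1) te) te) te) te) te) te) te) te) te)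

def t433 : Tr ℕ := (tn (tn (tn (tn (tn (tn (tn (tn (tn (tl 2) te) te) te) te) te) te) te) te) te)

def tab : Tr (Tr SV) := (tn (tn (tn (tn (tn (tn (tn (tn (tn (tl r0) (tl r256)) (tn (tl r128) (tl r384))) (tn (tn (tl r64) (tl r320)) (tn (tl r192) te))) (tn (tn (tn (tl r32) (tl r288)) (tn (tl r160) (tl r416))) (tn (tn (tl r96) (tl r352)) (tn (tl r224) te)))) (tn (tn (tn (tn (tl r16) (tl r272)) (tn (tl r144) (tl r400))) (tn (tn (tl r80) (tl r336)) (tn (tl r208) te))) (tn (tn (tn (tl r48) (tl r304)) (tn (tl r176) (tl r432))) (tn (tn (tl r112) (tl r368)) (tn (tl r240) te))))) (tn (tn (tn (tn (tn (tl r8) (tl r264)) (tn (tl r136) (tl r392))) (tn (tn (tl r72) (tl r328)) (tn (tl r200) te))) (tn (tn (tn (tl r40) (tl r296)) (tn (tl r168) (tl r424))) (tn (tn (tl r104) (tl r360)) (tn (tl r232) te)))) (tn (tn (tn (tn (tl r24) (tl r280)) (tn (tl r152) (tl r408))) (tn (tn (tl r88) (tl r344)) (tn (tl r216) te))) (tn (tn (tn (tl r56) (tl r312))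 (tn (tl r184) te)) (tn (tn (tl r120) (tl r376)) (tn (tl r248) te)))))) (tn (tn (tn (tn (tn (tn (tl r4) (tl r260)) (tn (tl r132) (tl r388))) (tn (tn (tl r68) (tl r324)) (tn (tl r196) te))) (tn (tn (tn (tl r36) (tl r292)) (tn (tl r164) (tl r420))) (tn (tn (tl r100) (tl r356)) (tn (tl r228) te)))) (tn (tn (tn (tn (tl r20) (tl r276)) (tn (tl r148) (tl r404))) (tn (tn (tl r84) (tl r340)) (tn (tl r212) te))) (tn (tn (tn (tl r52) (tl r308)) (tn (tl r180) te)) (tn (tn (tl r116) (tl r372)) (tn (tl r244) te))))) (tn (tn (tn (tn (tn (tl r12) (tl r268)) (tn (tl r140) (tl r396))) (tn (tn (tl r76) (tl r332)) (tn (tl r204) te))) (tn (tn (tn (tl r44) (tl r300)) (tn (tl r172) (tl r428))) (tn (tn (tl r108) (tl r364)) (tn (tl r236) te)))) (tn (tn (tn (tn (tl r28) (tl r284)) (tn (tl r156) (tl r412))) (tn (tn (tl r92) (tl r348)) (tn (tl r220) te))) (tn (tn (tn (tl r60) (tl r316)) (tn (tl r188) te)) (tn (tn (tl r124) (tl r380)) (tn (tl r252) te)))))))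 (tn (tn (tn (tn (tn (tn (tn (tl r2) (tl r258)) (tn (tl r130) (tl r386))) (tn (tn (tl r66) (tl r322)) (tn (tl r194) te))) (tn (tn (tn (tl r34) (tl r290)) (tn (tl r162) (tl r418))) (tn (tn (tl r98) (tl r354)) (tn (tl r226) te)))) (tn (tn (tn (tn (tl r18) (tl r274)) (tn (tl r146) (tl r402))) (tn (tn (tl r82) (tl r338)) (tn (tl r210) te))) (tn (tn (tn (tl r50) (tl r306)) (tn (tl r178) te)) (tn (tn (tl r114) (tl r370)) (tn (tl r242) te))))) (tn (tn (tn (tn (tn (tl r10) (tl r266)) (tn (tl r138) (tl r394))) (tn (tn (tl r74) (tl r330)) (tn (tl r202) te))) (tn (tn (tn (tl r42) (tl r298)) (tn (tl r170) (tl r426))) (tn (tn (tl r106) (tl r362)) (tn (tl r234) te)))) (tn (tn (tn (tn (tl r26) (tl r282)) (tn (tl r154) (tl r410))) (tn (tn (tl r90) (tl r346)) (tn (tl r218) te))) (tn (tn (tn (tl r58) (tl r314)) (tn (tl r186) te)) (tn (tn (tl r122) (tl r378)) (tn (tl r250) te)))))) (tn (tn (tn (tn (tn (tn (tl r6) (tl r262)) (tn (tl r134) (tl r390)))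 (tn (tn (tl r70) (tl r326)) (tn (tl r198) te))) (tn (tn (tn (tl r38) (tl r294)) (tn (tl r166) (tl r422))) (tn (tn (tl r102) (tl r358)) (tn (tl r230) te)))) (tn (tn (tn (tn (tl r22) (tl r278)) (tn (tl r150) (tl r406))) (tn (tn (tl r86) (tl r342)) (tn (tl r214) te))) (tn (tn (tn (tl r54) (tl r310)) (tn (tl r182) te)) (tn (tn (tl r118) (tl r374)) (tn (tl r246) te))))) (tn (tn (tn (tn (tn (tl r14) (tl r270)) (tn (tl r142) (tl r398))) (tn (tn (tl r78) (tl r334)) (tn (tl r206) te))) (tn (tn (tn (tl r46) (tl r302)) (tn (tl r174) (tl r430))) (tn (tn (tl r110) (tl r366)) (tn (tl r238) te)))) (tn (tn (tn (tn (tl r30) (tl r286)) (tn (tl r158) (tl r414))) (tn (tn (tl r94) (tl r350)) (tn (tl r222) te))) (tn (tn (tn (tl r62) (tl r318)) (tn (tl r190) te)) (tn (tn (tl r126) (tl r382)) (tn (tl r254) te)))))))) (tn (tn (tn (tn (tn (tn (tn (tn (tl r1) (tl r257)) (tn (tl r129) (tl r385))) (tn (tn (tl r65) (tl r321)) (tn (tl r193) te))) (tn (tn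 (tn (tl r33) (tl r289)) (tn (tl r161) (tl r417))) (tn (tn (tl r97) (tl r353)) (tn (tl r225) te)))) (tn (tn (tn (tn (tl r17) (tl r273)) (tn (tl r145) (tl r401))) (tn (tn (tl r81) (tl r337)) (tn (tl r209) te))) (tn (tn (tn (tl r49) (tl r305)) (tn (tl r177) (tl r433))) (tn (tn (tl r113) (tl r369)) (tn (tl r241) te))))) (tn (tn (tn (tn (tn (tl r9) (tl r265)) (tn (tl r137) (tl r393))) (tn (tn (tl r73) (tl r329)) (tn (tl r201) te))) (tn (tn (tn (tl r41) (tl r297)) (tn (tl r169) (tl r425))) (tn (tn (tl r105) (tl r361)) (tn (tl r233) te)))) (tn (tn (tn (tn (tl r25) (tl r281)) (tn (tl r153) (tl r409))) (tn (tn (tl r89) (tl r345)) (tn (tl r217) te))) (tn (tn (tn (tl r57) (tl r313)) (tn (tl r185) te)) (tn (tn (tl r121) (tl r377)) (tn (tl r249) te)))))) (tn (tn (tn (tn (tn (tn (tl r5) (tl r261)) (tn (tl r133) (tl r389))) (tn (tn (tl r69) (tl r325)) (tn (tl r197) te))) (tn (tn (tn (tl r37) (tl r293)) (tn (tl r165) (tl r421))) (tn (tn (tl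 r101) (tl r357)) (tn (tl r229) te)))) (tn (tn (tn (tn (tl r21) (tl r277)) (tn (tl r149) (tl r405))) (tn (tn (tl r85) (tl r341)) (tn (tl r213) te))) (tn (tn (tn (tl r53) (tl r309)) (tn (tl r181) te)) (tn (tn (tl r117) (tl r373)) (tn (tl r245) te))))) (tn (tn (tn (tn (tn (tl r13) (tl r269)) (tn (tl r141) (tl r397))) (tn (tn (tl r77) (tl r333)) (tn (tl r205) te))) (tn (tn (tn (tl r45) (tl r301)) (tn (tl r173) (tl r429))) (tn (tn (tl r109) (tl r365)) (tn (tl r237) te)))) (tn (tn (tn (tn (tl r29) (tl r285)) (tn (tl r157) (tl r413))) (tn (tn (tl r93) (tl r349)) (tn (tl r221) te))) (tn (tn (tn (tl r61) (tl r317)) (tn (tl r189) te)) (tn (tn (tl r125) (tl r381)) (tn (tl r253) te))))))) (tn (tn (tn (tn (tn (tn (tn (tl r3) (tl r259)) (tn (tl r131) (tl r387))) (tn (tn (tl r67) (tl r323)) (tn (tl r195) te))) (tn (tn (tn (tl r35) (tl r291)) (tn (tl r163) (tl r419))) (tn (tn (tl r99) (tl r355)) (tn (tl r227) te)))) (tn (tn (tn (tn (tl r19)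 (tl r275)) (tn (tl r147) (tl r403))) (tn (tn (tl r83) (tl r339)) (tn (tl r211) te))) (tn (tn (tn (tl r51) (tl r307)) (tn (tl r179) te)) (tn (tn (tl r115) (tl r371)) (tn (tl r243) te))))) (tn (tn (tn (tn (tn (tl r11) (tl r267)) (tn (tl r139) (tl r395))) (tn (tn (tl r75) (tl r331)) (tn (tl r203) te))) (tn (tn (tn (tl r43) (tl r299)) (tn (tl r171) (tl r427))) (tn (tn (tl r107) (tl r363)) (tn (tl r235) te)))) (tn (tn (tn (tn (tl r27) (tl r283)) (tn (tl r155) (tl r411))) (tn (tn (tl r91) (tl r347)) (tn (tl r219) te))) (tn (tn (tn (tl r59) (tl r315)) (tn (tl r187) te)) (tn (tn (tl r123) (tl r379)) (tn (tl r251) te)))))) (tn (tn (tn (tn (tn (tn (tl r7) (tl r263)) (tn (tl r135) (tl r391))) (tn (tn (tl r71) (tl r327)) (tn (tl r199) te))) (tn (tn (tn (tl r39) (tl r295)) (tn (tl r167) (tl r423))) (tn (tn (tl r103) (tl r359)) (tn (tl r231) te)))) (tn (tn (tn (tn (tl r23) (tl r279)) (tn (tl r151) (tl r407))) (tn (tn (tl r87) (tl r343))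 (tn (tl r215) te))) (tn (tn (tn (tl r55) (tl r311)) (tn (tl r183) te)) (tn (tn (tl r119) (tl r375)) (tn (tl r247) te))))) (tn (tn (tn (tn (tn (tl r15) (tl r271)) (tn (tl r143) (tl r399))) (tn (tn (tl r79) (tl r335)) (tn (tl r207) te))) (tn (tn (tn (tl r47) (tl r303)) (tn (tl r175) te)) (tn (tn (tl r111) (tl r367)) (tn (tl r239) te)))) (tn (tn (tn (tn (tl r31) (tl r287)) (tn (tl r159) (tl r415))) (tn (tn (tl r95) (tl r351)) (tn (tl r223) te))) (tn (tn (tn (tl r63) (tl r319)) (tn (tl r191) te)) (tn (tn (tl r127) (tl r383)) (tn (tl r255) te)))))))))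

def ttab : Tr (Tr ℕ) := (tn (tn (tn (tn (tn (tn (tn (tn (tn (tl t0) (tl t256)) (tn (tl t128) (tl t384))) (tn (tn (tl t64) (tl t320)) (tn (tl t192) te))) (tn (tn (tn (tl t32) (tl t288)) (tn (tl t160) (tl t416))) (tn (tn (tl t96) (tl t352)) (tn (tl t224) te)))) (tn (tn (tn (tn (tl t16) (tl t272)) (tn (tl t144) (tl t400))) (tn (tn (tl t80) (tl t336)) (tn (tl t208) te))) (tn (tn (tn (tl t48) (tl t304)) (tn (tl t176) (tl t432))) (tn (tn (tl t112) (tl t368)) (tn (tl t240) te))))) (tn (tn (tn (tn (tn (tl t8) (tl t264)) (tn (tl t136) (tl t392))) (tn (tn (tl t72) (tl t328)) (tn (tl t200) te))) (tn (tn (tn (tl t40) (tl t296)) (tn (tl t168) (tl t424))) (tn (tn (tl t104) (tl t360)) (tn (tl t232) te)))) (tn (tn (tn (tn (tl t24) (tl t280)) (tn (tl t152) (tl t408))) (tn (tn (tl t88) (tl t344)) (tn (tl t216) te))) (tn (tn (tn (tl t56) (tl t312)) (tn (tl t184) te)) (tn (tn (tl t120) (tl t376)) (tn (tl t248) te)))))) (tn (tn (tn (tn (tn (tn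 (tl t4) (tl t260)) (tn (tl t132) (tl t388))) (tn (tn (tl t68) (tl t324)) (tn (tl t196) te))) (tn (tn (tn (tl t36) (tl t292)) (tn (tl t164) (tl t420))) (tn (tn (tl t100) (tl t356)) (tn (tl t228) te)))) (tn (tn (tn (tn (tl t20) (tl t276)) (tn (tl t148) (tl t404))) (tn (tn (tl t84) (tl t340)) (tn (tl t212) te))) (tn (tn (tn (tl t52) (tl t308)) (tn (tl t180) te)) (tn (tn (tl t116) (tl t372)) (tn (tl t244) te))))) (tn (tn (tn (tn (tn (tl t12) (tl t268)) (tn (tl t140) (tl t396))) (tn (tn (tl t76) (tl t332)) (tn (tl t204) te))) (tn (tn (tn (tl t44) (tl t300)) (tn (tl t172) (tl t428))) (tn (tn (tl t108) (tl t364)) (tn (tl t236) te)))) (tn (tn (tn (tn (tl t28) (tl t284)) (tn (tl t156) (tl t412))) (tn (tn (tl t92) (tl t348)) (tn (tl t220) te))) (tn (tn (tn (tl t60) (tl t316)) (tn (tl t188) te)) (tn (tn (tl t124) (tl t380)) (tn (tl t252) te))))))) (tn (tn (tn (tn (tn (tn (tn (tl t2) (tl t258)) (tn (tl t130) (tl t386))) (tn (tn (tl t66)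 (tl t322)) (tn (tl t194) te))) (tn (tn (tn (tl t34) (tl t290)) (tn (tl t162) (tl t418))) (tn (tn (tl t98) (tl t354)) (tn (tl t226) te)))) (tn (tn (tn (tn (tl t18) (tl t274)) (tn (tl t146) (tl t402))) (tn (tn (tl t82) (tl t338)) (tn (tl t210) te))) (tn (tn (tn (tl t50) (tl t306)) (tn (tl t178) te)) (tn (tn (tl t114) (tl t370)) (tn (tl t242) te))))) (tn (tn (tn (tn (tn (tl t10) (tl t266)) (tn (tl t138) (tl t394))) (tn (tn (tl t74) (tl t330)) (tn (tl t202) te))) (tn (tn (tn (tl t42) (tl t298)) (tn (tl t170) (tl t426))) (tn (tn (tl t106) (tl t362)) (tn (tl t234) te)))) (tn (tn (tn (tn (tl t26) (tl t282)) (tn (tl t154) (tl t410))) (tn (tn (tl t90) (tl t346)) (tn (tl t218) te))) (tn (tn (tn (tl t58) (tl t314)) (tn (tl t186) te)) (tn (tn (tl t122) (tl t378)) (tn (tl t250) te)))))) (tn (tn (tn (tn (tn (tn (tl t6) (tl t262)) (tn (tl t134) (tl t390))) (tn (tn (tl t70) (tl t326)) (tn (tl t198) te))) (tn (tn (tn (tl t38) (tl t294)) (tn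 (tl t166) (tl t422))) (tn (tn (tl t102) (tl t358)) (tn (tl t230) te)))) (tn (tn (tn (tn (tl t22) (tl t278)) (tn (tl t150) (tl t406))) (tn (tn (tl t86) (tl t342)) (tn (tl t214) te))) (tn (tn (tn (tl t54) (tl t310)) (tn (tl t182) te)) (tn (tn (tl t118) (tl t374)) (tn (tl t246) te))))) (tn (tn (tn (tn (tn (tl t14) (tl t270)) (tn (tl t142) (tl t398))) (tn (tn (tl t78) (tl t334)) (tn (tl t206) te))) (tn (tn (tn (tl t46) (tl t302)) (tn (tl t174) (tl t430))) (tn (tn (tl t110) (tl t366)) (tn (tl t238) te)))) (tn (tn (tn (tn (tl t30) (tl t286)) (tn (tl t158) (tl t414))) (tn (tn (tl t94) (tl t350)) (tn (tl t222) te))) (tn (tn (tn (tl t62) (tl t318)) (tn (tl t190) te)) (tn (tn (tl t126) (tl t382)) (tn (tl t254) te)))))))) (tn (tn (tn (tn (tn (tn (tn (tn (tl t1) (tl t257)) (tn (tl t129) (tl t385))) (tn (tn (tl t65) (tl t321)) (tn (tl t193) te))) (tn (tn (tn (tl t33) (tl t289)) (tn (tl t161) (tl t417))) (tn (tn (tl t97) (tl t353)) (tn (tl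 t225) te)))) (tn (tn (tn (tn (tl t17) (tl t273)) (tn (tl t145) (tl t401))) (tn (tn (tl t81) (tl t337)) (tn (tl t209) te))) (tn (tn (tn (tl t49) (tl t305)) (tn (tl t177) (tl t433))) (tn (tn (tl t113) (tl t369)) (tn (tl t241) te))))) (tn (tn (tn (tn (tn (tl t9) (tl t265)) (tn (tl t137) (tl t393))) (tn (tn (tl t73) (tl t329)) (tn (tl t201) te))) (tn (tn (tn (tl t41) (tl t297)) (tn (tl t169) (tl t425))) (tn (tn (tl t105) (tl t361)) (tn (tl t233) te)))) (tn (tn (tn (tn (tl t25) (tl t281)) (tn (tl t153) (tl t409))) (tn (tn (tl t89) (tl t345)) (tn (tl t217) te))) (tn (tn (tn (tl t57) (tl t313)) (tn (tl t185) te)) (tn (tn (tl t121) (tl t377)) (tn (tl t249) te)))))) (tn (tn (tn (tn (tn (tn (tl t5) (tl t261)) (tn (tl t133) (tl t389))) (tn (tn (tl t69) (tl t325)) (tn (tl t197) te))) (tn (tn (tn (tl t37) (tl t293)) (tn (tl t165) (tl t421))) (tn (tn (tl t101) (tl t357)) (tn (tl t229) te)))) (tn (tn (tn (tn (tl t21) (tl t277)) (tn (tl t149)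 (tl t405))) (tn (tn (tl t85) (tl t341)) (tn (tl t213) te))) (tn (tn (tn (tl t53) (tl t309)) (tn (tl t181) te)) (tn (tn (tl t117) (tl t373)) (tn (tl t245) te))))) (tn (tn (tn (tn (tn (tl t13) (tl t269)) (tn (tl t141) (tl t397))) (tn (tn (tl t77) (tl t333)) (tn (tl t205) te))) (tn (tn (tn (tl t45) (tl t301)) (tn (tl t173) (tl t429))) (tn (tn (tl t109) (tl t365)) (tn (tl t237) te)))) (tn (tn (tn (tn (tl t29) (tl t285)) (tn (tl t157) (tl t413))) (tn (tn (tl t93) (tl t349)) (tn (tl t221) te))) (tn (tn (tn (tl t61) (tl t317)) (tn (tl t189) te)) (tn (tn (tl t125) (tl t381)) (tn (tl t253) te))))))) (tn (tn (tn (tn (tn (tn (tn (tl t3) (tl t259)) (tn (tl t131) (tl t387))) (tn (tn (tl t67) (tl t323)) (tn (tl t195) te))) (tn (tn (tn (tl t35) (tl t291)) (tn (tl t163) (tl t419))) (tn (tn (tl t99) (tl t355)) (tn (tl t227) te)))) (tn (tn (tn (tn (tl t19) (tl t275)) (tn (tl t147) (tl t403))) (tn (tn (tl t83) (tl t339)) (tn (tl t211) te))) (tn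 (tn (tn (tl t51) (tl t307)) (tn (tl t179) te)) (tn (tn (tl t115) (tl t371)) (tn (tl t243) te))))) (tn (tn (tn (tn (tn (tl t11) (tl t267)) (tn (tl t139) (tl t395))) (tn (tn (tl t75) (tl t331)) (tn (tl t203) te))) (tn (tn (tn (tl t43) (tl t299)) (tn (tl t171) (tl t427))) (tn (tn (tl t107) (tl t363)) (tn (tl t235) te)))) (tn (tn (tn (tn (tl t27) (tl t283)) (tn (tl t155) (tl t411))) (tn (tn (tl t91) (tl t347)) (tn (tl t219) te))) (tn (tn (tn (tl t59) (tl t315)) (tn (tl t187) te)) (tn (tn (tl t123) (tl t379)) (tn (tl t251) te)))))) (tn (tn (tn (tn (tn (tn (tl t7) (tl t263)) (tn (tl t135) (tl t391))) (tn (tn (tl t71) (tl t327)) (tn (tl t199) te))) (tn (tn (tn (tl t39) (tl t295)) (tn (tl t167) (tl t423))) (tn (tn (tl t103) (tl t359)) (tn (tl t231) te)))) (tn (tn (tn (tn (tl t23) (tl t279)) (tn (tl t151) (tl t407))) (tn (tn (tl t87) (tl t343)) (tn (tl t215) te))) (tn (tn (tn (tl t55) (tl t311)) (tn (tl t183) te)) (tn (tn (tl t119)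 (tl t375)) (tn (tl t247) te))))) (tn (tn (tn (tn (tn (tl t15) (tl t271)) (tn (tl t143) (tl t399))) (tn (tn (tl t79) (tl t335)) (tn (tl t207) te))) (tn (tn (tn (tl t47) (tl t303)) (tn (tl t175) te)) (tn (tn (tl t111) (tl t367)) (tn (tl t239) te)))) (tn (tn (tn (tn (tl t31) (tl t287)) (tn (tl t159) (tl t415))) (tn (tn (tl t95) (tl t351)) (tn (tl t223) te))) (tn (tn (tn (tl t63) (tl t319)) (tn (tl t191) te)) (tn (tn (tl t127) (tl t383)) (tn (tl t255) te)))))))))

def dgt : Tr ℕ := (tn (tn (tn (tn (tn (tn (tn (tn (tn (tl 1) (tl 401)) (tn (tl 253) (tl 644))) (tn (tn (tl 588) (tl 455)) (tn (tl 448) te))) (tn (tn (tn (tl 198) (tl 443)) (tn (tl 400) (tl 639))) (tn (tn (tl 211) (tl 596)) (tn (tl 254) te)))) (tn (tn (tn (tn (tl 392) (tl 407)) (tn (tl 259) (tl 456))) (tn (tn (tl 205) (tl 590)) (tn (tl 637) te))) (tn (tn (tn (tl 252) (tl 449)) (tn (tl 442) (tl 652))) (tn (tn (tl 253) (tl 638)) (tn (tl 401) te))))) (tn (tn (tn (tn (tn (tl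 56) (tl 407)) (tn (tl 259) (tl 450))) (tn (tn (tl 58) (tl 590)) (tn (tl 589) te))) (tn (tn (tn (tl 210) (tl 449)) (tn (tl 406) (tl 651))) (tn (tn (tl 247) (tl 602)) (tn (tl 260) te)))) (tn (tn (tn (tn (tl 57) (tl 443)) (tn (tl 394) (tl 597))) (tn (tn (tl 205) (tl 596)) (tn (tl 212) te))) (tn (tn (tn (tl 393) (tl 455)) (tn (tl 442) te)) (tn (tn (tl 253) (tl 644)) (tn (tl 401) te)))))) (tn (tn (tn (tn (tn (tn (tl 2) (tl 407)) (tn (tl 259) (tl 408))) (tn (tn (tl 58) (tl 455)) (tn (tl 448) te))) (tn (tn (tn (tl 204) (tl 449)) (tn (tl 400) (tl 645))) (tn (tn (tl 211) (tl 602)) (tn (tl 260) te)))) (tn (tn (tn (tn (tl 15) (tl 407)) (tn (tl 394) (tl 597))) (tn (tn (tl 205) (tl 596)) (tn (tl 65) te))) (tn (tn (tn (tl 252) (tl 449)) (tn (tl 442) te)) (tn (tn (tl 253) (tl 638)) (tn (tl 401) te))))) (tn (tn (tn (tn (tn (tl 203) (tl 407)) (tn (tl 259) (tl 450))) (tn (tn (tl 64) (tl 590)) (tn (tl 595) te))) (tn (tn (tn (tl 246) (tl 449))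 (tn (tl 406) (tl 604))) (tn (tn (tl 247) (tl 638)) (tn (tl 401) te)))) (tn (tn (tn (tn (tl 63) (tl 443)) (tn (tl 400) (tl 603))) (tn (tn (tl 211) (tl 596)) (tn (tl 254) te))) (tn (tn (tn (tl 399) (tl 455)) (tn (tl 448) te)) (tn (tn (tl 253) (tl 644)) (tn (tl 401) te))))))) (tn (tn (tn (tn (tn (tn (tn (tl 49) (tl 407)) (tn (tl 259) (tl 261))) (tn (tn (tl 16) (tl 455)) (tn (tl 448) te))) (tn (tn (tn (tl 204) (tl 443)) (tn (tl 400) (tl 645))) (tn (tn (tl 211) (tl 596)) (tn (tl 254) te)))) (tn (tn (tn (tn (tl 9) (tl 407)) (tn (tl 259) (tl 597))) (tn (tn (tl 205) (tl 596)) (tn (tl 637) te))) (tn (tn (tn (tl 252) (tl 449)) (tn (tl 442) (tl 653))) (tn (tn (tl 253) (tl 638)) (tn (tl 401) te))))) (tn (tn (tn (tn (tn (tl 197) (tl 407)) (tn (tl 259) (tl 450))) (tn (tn (tl 64) (tl 590)) (tn (tl 589) te))) (tn (tn (tn (tl 210) (tl 449)) (tn (tl 406) (tl 651))) (tn (tn (tl 247) (tl 602)) (tn (tl 401) te)))) (tn (tn (tn (tn (tl 63) (tl 443))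 (tn (tl 394) (tl 603))) (tn (tn (tl 211) (tl 596)) (tn (tl 212) te))) (tn (tn (tn (tl 399) (tl 455)) (tn (tl 448) te)) (tn (tn (tl 253) (tl 644)) (tn (tl 401) te)))))) (tn (tn (tn (tn (tn (tn (tl 14) (tl 407)) (tn (tl 259) (tl 408))) (tn (tn (tl 58) (tl 590)) (tn (tl 448) te))) (tn (tn (tn (tl 204) (tl 449)) (tn (tl 400) (tl 645))) (tn (tn (tl 247) (tl 602)) (tn (tl 260) te)))) (tn (tn (tn (tn (tl 51) (tl 443)) (tn (tl 394) (tl 597))) (tn (tn (tl 205) (tl 596)) (tn (tl 212) te))) (tn (tn (tn (tl 252) (tl 449)) (tn (tl 442) te)) (tn (tn (tl 253) (tl 638)) (tn (tl 401) te))))) (tn (tn (tn (tn (tn (tl 245) (tl 407)) (tn (tl 259) (tl 456))) (tn (tn (tl 64) (tl 590)) (tn (tl 595) te))) (tn (tn (tn (tl 246) (tl 449)) (tn (tl 406) (tl 646))) (tn (tn (tl 247) (tl 638)) (tn (tl 401) te)))) (tn (tn (tn (tn (tl 198) (tl 443)) (tn (tl 400) (tl 639))) (tn (tn (tl 211) (tl 596)) (tn (tl 254) te))) (tn (tn (tn (tl 441) (tl 455)) (tn (tl 448)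 te)) (tn (tn (tl 253) (tl 644)) (tn (tl 401) te)))))))) (tn (tn (tn (tn (tn (tn (tn (tn (tl 7) (tl 401)) (tn (tl 253) (tl 644))) (tn (tn (tl 16) (tl 455)) (tn (tl 448) te))) (tn (tn (tn (tl 198) (tl 443)) (tn (tl 400) (tl 639))) (tn (tn (tl 211) (tl 596)) (tn (tl 254) te)))) (tn (tn (tn (tn (tl 9) (tl 407)) (tn (tl 259) (tl 456))) (tn (tn (tl 205) (tl 590)) (tn (tl 637) te))) (tn (tn (tn (tl 252) (tl 449)) (tn (tl 442) (tl 652))) (tn (tn (tl 253) (tl 638)) (tn (tl 401) te))))) (tn (tn (tn (tn (tn (tl 56) (tl 407)) (tn (tl 259) (tl 450))) (tn (tn (tl 64) (tl 590)) (tn (tl 589) te))) (tn (tn (tn (tl 210) (tl 449)) (tn (tl 406) (tl 651))) (tn (tn (tl 247) (tl 602)) (tn (tl 401) te)))) (tn (tn (tn (tn (tl 57) (tl 443)) (tn (tl 394) (tl 603))) (tn (tn (tl 205) (tl 596)) (tn (tl 212) te))) (tn (tn (tn (tl 393) (tl 455)) (tn (tl 442) te)) (tn (tn (tl 253) (tl 644)) (tn (tl 401) te)))))) (tn (tn (tn (tn (tn (tn (tl 8) (tl 407)) (tn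 (tl 259) (tl 408))) (tn (tn (tl 58) (tl 455)) (tn (tl 448) te))) (tn (tn (tn (tl 204) (tl 449)) (tn (tl 400) (tl 645))) (tn (tn (tl 247) (tl 602)) (tn (tl 260) te)))) (tn (tn (tn (tn (tl 51) (tl 407)) (tn (tl 394) (tl 597))) (tn (tn (tl 205) (tl 596)) (tn (tl 212) te))) (tn (tn (tn (tl 252) (tl 449)) (tn (tl 442) te)) (tn (tn (tl 253) (tl 638)) (tn (tl 401) te))))) (tn (tn (tn (tn (tn (tl 203) (tl 407)) (tn (tl 259) (tl 456))) (tn (tn (tl 64) (tl 590)) (tn (tl 595) te))) (tn (tn (tn (tl 246) (tl 449)) (tn (tl 406) (tl 604))) (tn (tn (tl 247) (tl 638)) (tn (tl 401) te)))) (tn (tn (tn (tn (tl 63) (tl 443)) (tn (tl 400) (tl 603))) (tn (tn (tl 211) (tl 596)) (tn (tl 254) te))) (tn (tn (tn (tl 441) (tl 455)) (tn (tl 448) te)) (tn (tn (tl 253) (tl 644)) (tn (tl 401) te))))))) (tn (tn (tn (tn (tn (tn (tn (tl 196) (tl 407)) (tn (tl 259) (tl 408))) (tn (tn (tl 16) (tl 455)) (tn (tl 448) te))) (tn (tn (tn (tl 204) (tl 443)) (tn (tl 400)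 (tl 645))) (tn (tn (tl 211) (tl 602)) (tn (tl 260) te)))) (tn (tn (tn (tn (tl 15) (tl 407)) (tn (tl 259) (tl 597))) (tn (tn (tl 205) (tl 596)) (tn (tl 637) te))) (tn (tn (tn (tl 252) (tl 449)) (tn (tl 442) te)) (tn (tn (tl 253) (tl 638)) (tn (tl 401) te))))) (tn (tn (tn (tn (tn (tl 197) (tl 407)) (tn (tl 259) (tl 450))) (tn (tn (tl 64) (tl 590)) (tn (tl 589) te))) (tn (tn (tn (tl 246) (tl 449)) (tn (tl 406) (tl 457))) (tn (tn (tl 247) (tl 602)) (tn (tl 401) te)))) (tn (tn (tn (tn (tl 63) (tl 443)) (tn (tl 394) (tl 603))) (tn (tn (tl 211) (tl 596)) (tn (tl 212) te))) (tn (tn (tn (tl 399) (tl 455)) (tn (tl 448) te)) (tn (tn (tl 253) (tl 644)) (tn (tl 401) te)))))) (tn (tn (tn (tn (tn (tn (tl 50) (tl 407)) (tn (tl 259) (tl 408))) (tn (tn (tl 58) (tl 590)) (tn (tl 448) te))) (tn (tn (tn (tl 210) (tl 449)) (tn (tl 406) (tl 651))) (tn (tn (tl 247) (tl 602)) (tn (tl 260) te)))) (tn (tn (tn (tn (tl 57) (tl 443)) (tn (tl 394) (tl 597)))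 (tn (tn (tl 205) (tl 596)) (tn (tl 212) te))) (tn (tn (tn (tl 393) (tl 449)) (tn (tl 442) te)) (tn (tn (tl 253) (tl 644)) (tn (tl 401) te))))) (tn (tn (tn (tn (tn (tl 245) (tl 407)) (tn (tl 259) (tl 456))) (tn (tn (tl 205) (tl 590)) (tn (tl 595) te))) (tn (tn (tn (tl 246) (tl 449)) (tn (tl 442) (tl 646))) (tn (tn (tl 247) (tl 638)) (tn (tl 401) te)))) (tn (tn (tn (tn (tl 198) (tl 443)) (tn (tl 400) (tl 639))) (tn (tn (tl 211) (tl 596)) (tn (tl 254) te))) (tn (tn (tn (tl 441) (tl 455)) (tn (tl 448) te)) (tn (tn (tl 253) (tl 644)) (tn (tl 401) te)))))))))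

def offt : Tr ℕ := (tn (tn (tn (tn (tn (tn (tn te (tn (tn (tn (tl 73) te) te) (tn te (tn (tl 186) te)))) te) (tn (tn (tn (tn (tn (tl 65) te) te) (tn te (tn (tl 156) te))) te) te)) (tn (tn (tn (tn (tn (tn (tl 5) te) te) (tn te (tn (tl 16) te))) (tn te (tn te (tn (tl 397) te)))) te) (tn (tn (tn te (tn te (tn (tl 387) te))) te) (tn (tn (tn (tn (tl 8) te) te) te) te)))) (tn (tn (tn (tn (tn (tn te (tn (tl 227) te)) (tn (tn te (tl 375)) te)) (tn te (tn (tn (tl 3) te) te))) te) (tn (tn te (tn (tn (tn te (tl 338)) te) (tn (tn (tl 213) te) te))) te)) (tn (tn (tn (tn te (tn (tn te (tl 432)) te)) (tn (tn (tn te (tl 64)) te) (tn (tn (tl 34) te) te))) te) (tn (tn te (tn (tn (tn te (tl 428)) te) te)) (tn te (tn te (tn (tn (tl 48) te) te))))))) (tn (tn (tn (tn (tn (tn (tn (tn (tl 4) te) te) te) (tn te (tn te (tn (tl 392) te)))) te) (tn (tn te (tn te (tn (tn (tl 39) te) te))) (tn (tn (tn (tn (tl 7) te) te) te) te))) (tn (tn (tn (tn te (tn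 te (tn (tl 148) te))) te) te) (tn (tn te (tn (tn (tn te (tl 355)) te) te)) (tn (tn (tn (tn (tl 68) te) te) (tn te (tn (tl 175) te))) te)))) (tn (tn (tn (tn (tn te (tn (tn te (tl 430)) te)) (tn te (tn (tn (tl 30) te) te))) te) (tn (tn (tn te (tn te (tn (tl 167) te))) te) (tn te (tn te (tn (tn (tl 43) te) te))))) (tn (tn (tn (tn (tn (tn (tl 6) te) te) te) (tn (tn (tn te (tl 326)) te) te)) te) (tn te (tn te (tn (tn (tn te (tl 364)) te) (tn (tn (tl 220) te) te)))))))) (tn (tn (tn (tn (tn (tn (tn (tn (tn (tl 0) te) te) te) (tn (tn (tn (tl 212) te) te) (tn te (tn (tl 292) te)))) te) (tn (tn (tn te (tn te (tn (tl 233) te))) te) (tn (tn (tn (tn (tl 2) te) te) te) te))) (tn (tn (tn (tn (tn (tn (tl 17) te) te) (tn te (tn (tl 55) te))) (tn te (tn te (tn (tl 427) te)))) te) (tn te (tn (tn (tn (tn (tl 23) te) te) (tn te (tn (tl 61) te))) te)))) (tn (tn (tn (tn (tn (tn te (tn (tl 386) te)) (tn (tn te (tl 418)) te)) (tn te (tn (tn (tl 10)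 te) te))) te) (tn (tn te (tn (tn (tn te (tl 402)) te) te)) (tn te (tn te (tn (tn (tl 14) te) te))))) (tn (tn (tn (tn te (tn (tn te (tl 434)) te)) (tn (tn (tn te (tl 200)) te) (tn (tn (tl 79) te) te))) te) (tn te (tn te (tn (tn (tn te (tl 208)) te) (tn (tn (tl 112) te) te))))))) (tn (tn (tn (tn (tn (tn (tn te (tn (tl 130) te)) te) te) te) (tn (tn te (tn (tn (tn te (tl 204)) te) (tn (tn (tl 90) te) te))) (tn (tn (tn (tn (tl 21) te) te) te) te))) (tn (tn (tn (tn te (tn (tn te (tl 423)) te)) (tn te (tn (tn (tl 12) te) te))) te) (tn (tn te (tn (tn (tn te (tl 409)) te) te)) (tn (tn te (tn te (tn (tl 278) te))) te)))) (tn (tn (tn (tn (tn (tn (tn (tl 1) te) te) te) (tn te (tn te (tn (tl 312) te)))) te) (tn (tn (tn te (tn te (tn (tl 258) te))) te) (tn te (tn te (tn (tn (tl 101) te) te))))) (tn (tn (tn (tn (tn (tn (tl 19) te) te) (tn te (tn (tl 58) te))) te) te) (tn te (tn (tn (tn (tn (tl 26) te) te) te) (tn (tn (tn te (tl 414)) te)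 te))))))))

def cs0 : List (ℕ × List ℕ) := [(1, [0]), (7, [1]), (49, [2])]

def cs1 : List (ℕ × List ℕ) := [(196, [3]), (2, [4]), (8, [5])]

def cs2 : List (ℕ × List ℕ) := [(14, [6]), (50, [7]), (56, [8, 9]), (197, [10, 11]), (203, [12, 13])]

def cs3 : List (ℕ × List ℕ) := [(245, [14, 15]), (392, [16]), (9, [17, 18]), (15, [19, 20]), (51, [21, 22]), (57, [23, 24, 25]), (63, [26, 27, 28, 29]), (198, [30, 31, 32, 33]), (204, [34, 35, 36, 37, 38]), (210, [39, 40, 41, 42])]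

def cs4 : List (ℕ × List ℕ) := [(246, [43, 44, 45, 46, 47]), (252, [48, 49, 50, 51, 52, 53, 54]), (393, [55, 56, 57]), (399, [58, 59, 60]), (441, [61, 62, 63]), (588, [64]), (16, [65, 66, 67]), (58, [68, 69, 70, 71, 72]), (64, [73, 74, 75, 76, 77, 78]), (205, [79, 80, 81, 82, 83, 84, 85, 86, 87, 88, 89]), (211, [90, 91, 92, 93, 94, 95, 96, 97, 98, 99, 100])]

def cs5 : List (ℕ × List ℕ) := [(247, [101, 102, 103, 104, 105, 106, 107, 108, 109, 110, 111]), (253, [112, 113, 114, 115, 116, 117, 118, 119, 120, 121, 122, 123, 124, 125, 126, 127, 128, 129]), (259, [130, 131, 132, 133, 134, 135, 136, 137, 138, 139, 140, 141, 142, 143, 144, 145, 146, 147]), (394, [148, 149, 150, 151, 152, 153, 154, 155]), (400, [156, 157, 158, 159, 160, 161, 162, 163, 164, 165, 166]), (406, [167, 168, 169, 170, 171, 172, 173, 174]), (442, [175, 176, 177, 178, 179, 180, 181, 182, 183, 184, 185]), (448, [186, 187, 188, 189, 190, 191, 192, 193, 194, 195,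 196, 197, 198, 199]), (589, [200, 201, 202, 203]), (595, [204, 205, 206, 207]), (637, [208, 209, 210, 211]), (65, [212]), (212, [213, 214, 215, 216, 217, 218, 219]), (254, [220, 221, 222, 223, 224, 225, 226]), (260, [227, 228, 229, 230, 231, 232]), (401, [233, 234, 235, 236, 237, 238, 239, 240, 241, 242, 243, 244, 245, 246, 247, 248, 249, 250, 251, 252, 253, 254, 255, 256, 257]), (407, [258, 259, 260, 261, 262, 263, 264, 265, 266, 267, 268, 269, 270, 271, 272, 273, 274, 275, 276, 277]), (443, [278, 279, 280, 281, 282, 283, 284, 285, 286, 287, 288, 289, 290, 291]), (449, [292, 293, 294, 295, 296, 297, 298, 299, 300, 301, 302, 303, 304, 305, 306, 307, 308, 309, 310, 311]), (455, [312, 313, 314, 315, 316, 317, 318, 319, 320, 321, 322, 323, 324, 325]), (590, [326, 327, 328, 329, 330, 331, 332, 333, 334, 335, 336, 337]), (596, [338, 339, 340, 341, 342, 343, 344, 345, 346, 347, 348, 349, 350, 351, 352, 353, 354]), (602, [355, 356,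 357, 358, 359, 360, 361, 362, 363]), (638, [364, 365, 366, 367, 368, 369, 370, 371, 372, 373, 374]), (644, [375, 376, 377, 378, 379, 380, 381, 382, 383, 384, 385]), (261, [386]), (408, [387, 388, 389, 390, 391]), (450, [392, 393, 394, 395, 396]), (456, [397, 398, 399, 400, 401]), (597, [402, 403, 404, 405, 406, 407, 408]), (603, [409, 410, 411, 412, 413]), (639, [414, 415, 416, 417]), (645, [418, 419, 420, 421, 422]), (651, [423, 424, 425, 426]), (457, [427]), (604, [428, 429]), (646, [430, 431]), (652, [432, 433]), (653, [434])]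

def md : Md3 where
  n := 435
  S i j := Tr.get [] (Tr.get te tab i) j
  T i j := Tr.get 0 (Tr.get te ttab i) j
  comps := cs0 ++ cs1 ++ cs2 ++ cs3 ++ cs4 ++ cs5
  dg i := Tr.get 0 dgt i
  off i := Tr.get 0 offt i
  mask := 65922134178946013040977875015869698039558778865300090732102488799875138777177690920021204046985687817029911607465266030141518791367346895935231207836613858339798743513202022383814453919556615390086
  B := 16384
  C := 32

end Pool.Agent.J6H41.Sep.D3
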