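import Pool.Agent.J6H41.Sep.Trie

/-!
Structure constants of a superalgebra of dimension 76.
-/

namespace Pool.Agent.J6H41.Sep.D76

open Tr

def r0 : Tr SV := (tn (tn (tn (tn (tn (tn (tn (tl [(2, .ofNat 1)]) te) (tn (tl [(44, .ofNat 1), (51, .negSucc 0), (52, .ofNat 1)]) te)) (tn (tn (tl [(36, .ofNat 1)]) te) (tn (tl [(63, .negSucc 14), (64, .negSucc 9), (65, .ofNat 4), (66, .ofNat 2), (67, .negSucc 7)]) te))) (tn (tn (tn (tl [(20, .ofNat 1)]) te) te) (tn (tn (tl [(37, .negSucc 0), (38, .negSucc 0), (39, .ofNat 1), (40, .ofNat 1), (42, .ofNat 1)]) te) (tn (tl [(69, .ofNat 1)]) te)))) (tn (tn (tn (tn (tl [(10, .ofNat 1)]) (tl [(73, .ofNat 1)])) te) (tn (tn (tl [(37, .negSucc 2), (38, .negSucc 1), (39, .ofNat 1), (40, .ofNat 1), (42, .ofNat 1)]) te) (tn (tl [(63, .ofNat 8), (64, .ofNat 6), (65, .ofNat 1), (66, .negSucc 0), (67, .ofNat 5)]) te))) (tn (tn (tn (tl [(29, .ofNat 1)])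 te) (tn (tl [(63, .negSucc 13), (64, .negSucc 8), (65, .ofNat 1), (66, .ofNat 1), (67, .negSucc 7)]) te)) (tn (tn (tl [(44, .negSucc 0), (47, .negSucc 0), (50, .negSucc 0), (52, .negSucc 0), (53, .ofNat 1)]) te) (tn (tl [(68, .ofNat 9), (69, .negSucc 5)]) te))))) (tn (tn (tn (tn (tn (tl [(6, .ofNat 1)]) te) (tn (tl [(60, .ofNat 1)]) te)) (tn (tn (tl [(37, .ofNat 1), (38, .negSucc 7), (39, .ofNat 6), (40, .ofNat 1), (42, .negSucc 0)]) te) (tn (tl [(63, .ofNat 14), (64, .ofNat 11), (65, .negSucc 1), (66, .negSucc 2), (67, .ofNat 8)]) te))) (tn (tn (tn (tl [(22, .ofNat 1)]) (tl [(75, .ofNat 1)])) (tn (tl [(62, .ofNat 2)]) te)) (tn (tn (tl [(43, .negSucc 0), (45, .negSucc 0), (48, .negSucc 0), (49, .ofNat 1)]) te) (tn (tl [(68, .ofNat 2), (69, .negSucc 0)]) te)))) (tn (tn (tn (tn (tl [(16, .ofNat 1)]) (tl [(73, .negSucc 0), (74, .negSucc 0)])) (tn (tl [(62, .ofNat 1)]) te)) (tn (tn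 (tl [(37, .negSucc 1), (38, .ofNat 2), (39, .ofNat 2)]) te) (tn (tl [(63, .negSucc 1), (64, .ofNat 1), (65, .ofNat 3), (66, .negSucc 0)]) te))) (tn (tn (tn (tl [(31, .ofNat 1)]) te) (tn (tl [(63, .ofNat 3), (64, .ofNat 2), (65, .ofNat 1), (66, .ofNat 1), (67, .ofNat 3)]) te)) (tn (tn (tl [(43, .negSucc 0), (44, .negSucc 0), (48, .ofNat 1), (49, .negSucc 0), (50, .ofNat 1)]) te) te))))) (tn (tn (tn (tn (tn (tn (tl [(4, .ofNat 1)]) (tl [(72, .ofNat 1)])) (tn (tl [(56, .negSucc 0), (57, .ofNat 1), (59, .ofNat 1)]) te)) (tn (tn (tl [(36, .ofNat 1)]) te) (tn (tl [(63, .negSucc 8), (64, .negSucc 4), (65, .ofNat 3), (66, .ofNat 1), (67, .negSucc 3)]) te))) (tn (tn (tn (tl [(21, .ofNat 1)]) te) (tn (tl [(62, .negSucc 1)]) te)) (tn (tn (tl [(43, .negSucc 0), (49, .negSucc 0), (51, .ofNat 1)]) te) (tn (tl [(69, .ofNat 2)]) te)))) (tn (tn (tn (tn (tl [(14, .ofNat 1)]) te) (tn (tl [(62,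 .ofNat 1)]) te)) (tn (tn (tl [(38, .negSucc 13), (39, .ofNat 7), (40, .ofNat 2)]) te) (tn (tl [(63, .ofNat 3), (64, .ofNat 2), (65, .ofNat 1), (66, .ofNat 1), (67, .ofNat 3)]) te))) (tn (tn (tn (tl [(30, .ofNat 1)]) te) (tn (tl [(63, .ofNat 5), (64, .ofNat 4), (67, .ofNat 4)]) te)) (tn (tn (tl [(53, .ofNat 1), (54, .ofNat 1)]) te) (tn (tl [(69, .negSucc 1), (71, .ofNat 1)]) te))))) (tn (tn (tn (tn (tn (tl [(9, .ofNat 1)]) te) (tn (tl [(56, .ofNat 2), (57, .ofNat 1)]) te)) (tn (tn (tl [(37, .ofNat 1), (38, .negSucc 3), (39, .ofNat 3), (40, .ofNat 1), (41, .negSucc 0), (42, .negSucc 0)]) te) (tn (tl [(63, .negSucc 17), (64, .negSucc 10), (65, .ofNat 4), (66, .ofNat 1), (67, .negSucc 9)]) te))) (tn (tn (tn (tl [(23, .ofNat 1)]) te) (tn (tl [(63, .negSucc 7), (64, .negSucc 3), (65, .ofNat 2), (66, .negSucc 1), (67, .negSucc 5)]) te)) (tn (tn (tl [(45, .negSucc 0), (46, .ofNat 1),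 (47, .ofNat 1), (49, .negSucc 0)]) te) (tn (tl [(68, .negSucc 0), (69, .negSucc 0)]) te)))) (tn (tn (tn (tn (tl [(17, .ofNat 1)]) (tl [(73, .negSucc 1), (74, .ofNat 2)])) (tn (tl [(62, .ofNat 2)]) te)) (tn (tn (tl [(38, .ofNat 1), (39, .negSucc 0), (40, .negSucc 1), (42, .ofNat 1)]) te) (tn (tl [(65, .negSucc 1), (66, .ofNat 1)]) te))) (tn (tn (tn (tl [(35, .ofNat 1)]) te) (tn (tl [(63, .negSucc 11), (64, .negSucc 7), (65, .ofNat 2), (66, .ofNat 2), (67, .negSucc 5)]) te)) (tn (tn (tl [(43, .negSucc 0), (47, .ofNat 1)]) te) te))))))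

def r1 : Tr SV := (tn (tn (tn (tn (tn (tn (tn (tl [(3, .ofNat 1)]) (tl [(73, .negSucc 1), (74, .ofNat 2)])) (tn (tl [(56, .negSucc 0), (57, .ofNat 1), (58, .ofNat 1)]) te)) (tn te (tn (tl [(68, .negSucc 2), (69, .ofNat 1)]) te))) (tn (tn (tn (tl [(25, .ofNat 1)]) te) te) (tn (tn (tl [(44, .ofNat 1), (46, .ofNat 1)]) te) te))) (tn (tn (tn (tn (tl [(13, .ofNat 1)]) te) te) (tn (tn (tl [(43, .ofNat 22), (44, .ofNat 7), (45, .ofNat 35), (46, .negSucc 2), (47, .negSucc 16), (48, .negSucc 18), (49, .ofNat 14), (50, .negSucc 25), (51, .negSucc 3), (53, .ofNat 12), (54, .negSucc 9)]) te) (tn (tl [(68, .ofNat 1), (71, .ofNat 1)]) te))) (tn (tn (tn (tl [(33, .negSucc 1), (35, .negSucc 0)]) te) (tn (tl [(69, .negSucc 0)]) te)) (tn (tn (tl [(56, .negSucc 5), (57, .ofNat 6), (58, .ofNat 1), (59, .ofNat 2), (61, .ofNat 1)]) te) te)))) (tn (tn (tn (tn (tn (tl [(8, .ofNat 1)]) (tl [(73, .negSucc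 0), (74, .ofNat 2)])) te) (tn (tn (tl [(43, .ofNat 4), (44, .ofNat 1), (45, .ofNat 4), (46, .ofNat 3), (48, .negSucc 3), (49, .ofNat 1), (51, .ofNat 3), (53, .ofNat 4), (54, .negSucc 3)]) te) (tn (tl [(68, .ofNat 1), (69, .ofNat 4)]) te))) (tn (tn (tn (tl [(27, .ofNat 1)]) te) (tn (tl [(63, .ofNat 6), (64, .ofNat 3), (65, .negSucc 2), (67, .ofNat 3)]) te)) (tn (tn (tl [(56, .ofNat 1), (58, .ofNat 2), (59, .ofNat 1)]) te) te))) (tn (tn (tn (tn (tl [(18, .ofNat 1)]) te) te) (tn (tn (tl [(44, .negSucc 0), (45, .ofNat 1), (46, .ofNat 1), (48, .negSucc 0), (50, .negSucc 0)]) te) (tn (tl [(69, .ofNat 2)]) te))) (tn (tn (tn (tl [(34, .ofNat 1)]) te) (tn (tl [(68, .negSucc 4), (69, .ofNat 3)]) te)) (tn (tn (tl [(56, .negSucc 2), (57, .ofNat 1), (58, .ofNat 3)]) te) te))))) (tn (tn (tn (tn (tn (tn (tl [(5, .ofNat 1)]) (tl [(73, .negSucc 0)])) te) (tn (tn (tl [(37, .ofNat 1), (38, .negSucc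 0), (39, .ofNat 3)]) te) (tn (tl [(68, .negSucc 3), (69, .ofNat 5)]) te))) (tn (tn (tn (tl [(26, .ofNat 1)]) te) (tn (tl [(63, .ofNat 12), (64, .ofNat 6), (65, .negSucc 5), (66, .negSucc 5)]) te)) (tn (tn (tl [(56, .negSucc 5), (57, .ofNat 3)]) te) te))) (tn (tn (tn (tn (tl [(15, .ofNat 1)]) te) te) (tn (tn (tl [(43, .ofNat 2), (44, .ofNat 1), (45, .ofNat 4), (46, .negSucc 0), (47, .negSucc 0), (49, .ofNat 1), (50, .negSucc 0), (51, .negSucc 0), (53, .ofNat 2)]) te) (tn (tl [(68, .ofNat 3), (69, .negSucc 2)]) te))) (tn (tn (tn (tl [(33, .ofNat 1)]) te) (tn (tl [(68, .ofNat 1)]) te)) (tn (tn (tl [(56, .ofNat 3), (57, .ofNat 1), (59, .ofNat 1)]) te) te)))) (tn (tn (tn (tn (tn (tl [(12, .ofNat 1)]) (tl [(73, .ofNat 2), (74, .negSucc 1)])) te) (tn (tn (tl [(43, .ofNat 8), (44, .ofNat 3), (45, .negSucc 7), (46, .ofNat 13), (47, .ofNat 5), (48, .negSucc 14), (49, .ofNat 4), (50, .ofNat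 3), (51, .ofNat 9), (52, .ofNat 6), (53, .ofNat 9), (54, .negSucc 9), (55, .ofNat 3)]) te) (tn (tl [(68, .negSucc 0), (69, .ofNat 1)]) te))) (tn (tn (tn (tl [(28, .ofNat 1)]) te) (tn (tl [(69, .ofNat 2)]) te)) (tn (tn (tl [(56, .negSucc 4), (57, .ofNat 3), (58, .negSucc 0), (59, .negSucc 0)]) te) te))) (tn (tn (tn (tn (tl [(19, .ofNat 1)]) te) te) (tn (tn (tl [(50, .negSucc 0), (51, .negSucc 0), (53, .negSucc 0), (54, .ofNat 1)]) te) (tn (tl [(68, .ofNat 1), (69, .negSucc 1), (71, .negSucc 1)]) te))) (tn (tn te (tn (tl [(68, .ofNat 4), (69, .negSucc 4)]) te)) (tn (tn (tl [(56, .negSucc 0), (57, .ofNat 1), (58, .negSucc 0), (59, .negSucc 0)]) te) te))))))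

def r2 : Tr SV := (tn (tn (tn (tn (tn (tn (tn (tl [(7, .ofNat 1)]) te) (tn (tl [(63, .ofNat 12), (64, .ofNat 10), (65, .negSucc 2), (66, .negSucc 2), (67, .ofNat 7)]) te)) (tn te (tn (tl [(72, .negSucc 5)]) te))) (tn (tn (tn (tl [(37, .negSucc 0), (38, .negSucc 4), (39, .ofNat 4), (40, .ofNat 3)]) te) te) (tn (tn (tl [(62, .negSucc 0)]) te) (tn (tl [(73, .negSucc 1), (74, .ofNat 1)]) te)))) (tn (tn (tn (tn (tl [(18, .negSucc 0), (19, .ofNat 1), (23, .ofNat 1)]) (tl [(75, .ofNat 1)])) te) (tn (tn (tl [(62, .ofNat 2)]) te) (tn (tl [(72, .negSucc 0)]) te))) (tn (tn (tn (tl [(44, .negSucc 0), (45, .negSucc 0), (46, .ofNat 1), (47, .ofNat 2), (48, .ofNat 1), (49, .negSucc 0), (50, .ofNat 2), (54, .ofNat 1), (55, .ofNat 1)]) te) te) (tn (tn (tl [(63, .ofNat 1), (64, .ofNat 2), (65, .ofNat 2), (66, .ofNat 2), (67, .ofNat 4)]) te) (tn (tl [(73, .ofNat 3), (74, .negSucc 2)]) te)))))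 (tn (tn (tn (tn (tn (tl [(16, .ofNat 1)]) te) (tn (tl [(68, .ofNat 2), (70, .ofNat 1), (71, .ofNat 2)]) te)) (tn (tn (tl [(62, .negSucc 2)]) te) (tn (tl [(72, .ofNat 3)]) te))) (tn (tn (tn (tl [(38, .ofNat 1), (39, .negSucc 0), (40, .negSucc 1), (42, .ofNat 1)]) te) te) (tn (tn (tl [(63, .negSucc 25), (64, .negSucc 14), (65, .ofNat 5), (66, .ofNat 2), (67, .negSucc 13)]) te) (tn (tl [(73, .negSucc 1), (74, .ofNat 1)]) te)))) (tn (tn (tn (tn (tl [(36, .ofNat 1)]) (tl [(75, .negSucc 3)])) te) (tn (tn (tl [(62, .ofNat 1)]) te) (tn (tl [(72, .negSucc 0)]) te))) (tn (tn (tn (tl [(43, .ofNat 4), (44, .ofNat 3), (45, .negSucc 10), (46, .ofNat 9), (47, .ofNat 4), (48, .negSucc 11), (49, .ofNat 5), (50, .ofNat 1), (51, .ofNat 5), (52, .ofNat 6), (53, .ofNat 6), (54, .negSucc 5), (55, .ofNat 3)]) te) (tn (tl [(72, .negSucc 4)]) te)) (tn (tn (tl [(63, .ofNat 12), (64, .ofNat 7), (65, .negSucc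 2), (66, .negSucc 2), (67, .ofNat 4)]) te) te))))) (tn (tn (tn (tn (tn (tn (tl [(11, .ofNat 1)]) te) (tn (tl [(70, .ofNat 1)]) te)) (tn te (tn (tl [(72, .negSucc 3)]) te))) (tn (tn (tn (tl [(37, .negSucc 0), (38, .negSucc 10), (39, .ofNat 7), (40, .ofNat 4), (42, .negSucc 0)]) te) te) (tn (tn (tl [(63, .negSucc 6), (64, .negSucc 1), (65, .ofNat 2), (66, .ofNat 2)]) te) (tn (tl [(73, .negSucc 1), (74, .ofNat 2)]) te)))) (tn (tn (tn (tn (tl [(27, .negSucc 0), (28, .ofNat 1), (30, .negSucc 0), (31, .ofNat 1), (32, .ofNat 1)]) (tl [(75, .ofNat 1)])) te) (tn (tn (tl [(62, .ofNat 6)]) te) (tn (tl [(72, .ofNat 3)]) te))) (tn (tn (tn (tl [(43, .negSucc 22), (44, .negSucc 5), (45, .negSucc 35), (46, .ofNat 4), (47, .ofNat 17), (48, .ofNat 21), (49, .negSucc 14), (50, .ofNat 27), (51, .ofNat 3), (52, .ofNat 2), (53, .negSucc 11), (54, .ofNat 10)]) te) (tn (tl [(72, .negSucc 0)]) te)) (tn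 (tn (tl [(63, .ofNat 8), (64, .ofNat 9), (65, .ofNat 2), (66, .negSucc 0), (67, .ofNat 7)]) te) (tn (tl [(73, .ofNat 8), (74, .negSucc 0)]) te))))) (tn (tn (tn (tn (tn (tl [(20, .negSucc 0), (21, .ofNat 1), (22, .ofNat 1), (23, .negSucc 0), (24, .ofNat 1)]) te) (tn (tl [(68, .negSucc 1), (69, .ofNat 4), (71, .ofNat 2)]) te)) (tn (tn (tl [(62, .negSucc 2)]) te) (tn (tl [(72, .negSucc 3)]) te))) (tn (tn (tn (tl [(37, .ofNat 2), (38, .negSucc 1), (39, .ofNat 2)]) te) (tn (tl [(72, .negSucc 1)]) te)) (tn (tn (tl [(63, .ofNat 7), (64, .ofNat 5), (65, .negSucc 0), (66, .ofNat 2), (67, .ofNat 7)]) te) (tn (tl [(73, .negSucc 0), (74, .negSucc 1)]) te)))) (tn (tn (tn (tn (tl [(36, .ofNat 1)]) (tl [(75, .ofNat 1)])) te) (tn (tn (tl [(62, .ofNat 4)]) te) (tn (tl [(72, .negSucc 0)]) te))) (tn (tn (tn (tl [(56, .ofNat 4), (57, .ofNat 3), (59, .ofNat 2), (61, .ofNat 2)]) te) (tn (tl [(72,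 .negSucc 0)]) te)) (tn (tn (tl [(63, .negSucc 9), (64, .negSucc 7), (65, .ofNat 1), (66, .ofNat 4), (67, .negSucc 3)]) te) te))))))

def r3 : Tr SV := (tn (tn (tn (tn (tn (tn (tn (tl [(8, .ofNat 1), (10, .negSucc 0), (11, .ofNat 1)]) te) (tn (tl [(68, .ofNat 3), (69, .negSucc 0), (71, .negSucc 0)]) te)) (tn te (tn (tl [(73, .ofNat 5), (74, .negSucc 0)]) te))) (tn (tn (tn (tl [(43, .ofNat 22), (44, .ofNat 7), (45, .ofNat 35), (46, .negSucc 2), (47, .negSucc 16), (48, .negSucc 18), (49, .ofNat 14), (50, .negSucc 25), (51, .negSucc 3), (53, .ofNat 12), (54, .negSucc 9)]) te) te) (tn (tn (tl [(63, .ofNat 12), (64, .ofNat 8), (65, .negSucc 3), (66, .negSucc 1), (67, .ofNat 6)]) te) te))) (tn (tn (tn (tn (tl [(28, .ofNat 1)]) te) te) (tn te (tn (tl [(73, .negSucc 2), (74, .ofNat 1)]) te))) (tn (tn (tn (tl [(56, .ofNat 4), (61, .ofNat 1)]) te) (tn (tl [(73, .ofNat 1), (74, .negSucc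 0)]) te)) (tn (tn (tl [(68, .negSucc 2), (69, .negSucc 0), (71, .negSucc 0)]) te) te)))) (tn (tn (tn (tn (tn (tl [(18, .ofNat 1)]) (tl [(75, .negSucc 0)])) te) (tn (tn (tl [(63, .negSucc 5), (65, .ofNat 3)]) te) (tn (tl [(73, .negSucc 1)]) te))) (tn (tn (tn (tl [(43, .negSucc 0), (44, .negSucc 0), (45, .negSucc 0), (48, .ofNat 2), (49, .negSucc 0), (51, .negSucc 0), (52, .ofNat 1), (53, .negSucc 0), (54, .ofNat 1)]) te) (tn (tl [(72, .negSucc 2)]) te)) (tn (tn (tl [(68, .negSucc 1), (69, .ofNat 1), (70, .negSucc 0)]) te) te))) (tn (tn (tn (tn (tl [(37, .ofNat 2), (38, .negSucc 2), (39, .ofNat 3), (40, .ofNat 2), (42, .negSucc 0)]) te) te) (tn (tn (tl [(63, .ofNat 6), (64, .ofNat 5), (65, .ofNat 2), (66, .ofNat 1), (67, .ofNat 6)]) te) (tn (tl [(73, .negSucc 1)]) te))) (tn (tn (tn (tl [(56, .negSucc 1), (57, .ofNat 4), (58, .ofNat 1), (59, .ofNat 2), (61, .ofNat 1)]) te) (tn (tl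 [(73, .ofNat 5), (74, .negSucc 0)]) te)) (tn (tn (tl [(68, .ofNat 1), (69, .ofNat 1), (71, .negSucc 0)]) te) te))))) (tn (tn (tn (tn (tn (tn (tl [(13, .ofNat 1)]) (tl [(75, .ofNat 1)])) te) (tn te (tn (tl [(73, .ofNat 5), (74, .negSucc 0)]) te))) (tn (tn (tn (tl [(43, .ofNat 2), (45, .ofNat 5), (46, .negSucc 0), (47, .negSucc 0), (48, .negSucc 0), (49, .ofNat 1), (50, .negSucc 0), (52, .negSucc 1), (53, .ofNat 2)]) te) te) (tn (tn (tl [(68, .ofNat 3), (69, .negSucc 5)]) te) te))) (tn (tn (tn (tn (tl [(34, .ofNat 1)]) te) te) (tn (tn (tl [(63, .negSucc 23), (64, .negSucc 12), (65, .ofNat 5), (66, .ofNat 1), (67, .negSucc 11)]) te) (tn (tl [(73, .negSucc 2), (74, .ofNat 1)]) te))) (tn (tn (tn (tl [(56, .negSucc 0), (57, .ofNat 1), (58, .ofNat 1)]) te) (tn (tl [(73, .ofNat 2)]) te)) (tn (tn (tl [(68, .ofNat 4), (69, .negSucc 0), (70, .negSucc 0), (71, .negSucc 1)]) te) te)))) (tn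 (tn (tn (tn (tn (tl [(26, .ofNat 1), (30, .negSucc 0), (32, .ofNat 1)]) te) te) (tn (tn (tl [(63, .negSucc 17), (64, .negSucc 5), (65, .ofNat 9), (66, .ofNat 6)]) te) (tn (tl [(73, .ofNat 3), (74, .negSucc 0)]) te))) (tn (tn (tn (tl [(50, .negSucc 0), (51, .negSucc 0), (53, .negSucc 0), (54, .ofNat 1)]) te) (tn (tl [(73, .negSucc 1)]) te)) (tn (tn (tl [(68, .ofNat 1), (69, .negSucc 4), (70, .ofNat 1)]) te) te))) (tn (tn (tn (tn (tl [(37, .ofNat 3), (38, .negSucc 3), (39, .ofNat 6), (40, .ofNat 2), (42, .negSucc 0)]) te) te) (tn te (tn (tl [(73, .ofNat 6)]) te))) (tn (tn te (tn (tl [(73, .ofNat 1), (74, .ofNat 1)]) te)) (tn (tn (tl [(68, .ofNat 1), (69, .negSucc 3), (70, .ofNat 1), (71, .ofNat 1)]) te) te))))))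

def r4 : Tr SV := (tn (tn (tn (tn (tn (tn (tn (tl [(9, .ofNat 1), (10, .ofNat 1), (11, .negSucc 0)]) (tl [(75, .ofNat 2)])) (tn (tl [(68, .ofNat 1), (69, .negSucc 0), (71, .ofNat 2)]) te)) (tn te (tn (tl [(73, .negSucc 9), (74, .ofNat 1)]) te))) (tn (tn (tn (tl [(43, .negSucc 0), (49, .negSucc 0), (51, .ofNat 1)]) te) te) (tn (tn (tl [(63, .negSucc 16), (64, .negSucc 11), (65, .ofNat 3), (66, .ofNat 4), (67, .negSucc 7)]) te) te))) (tn (tn (tn (tn (tl [(27, .ofNat 1), (28, .negSucc 0), (30, .ofNat 1)]) te) te) (tn (tn (tl [(63, .ofNat 25), (64, .ofNat 14), (65, .negSucc 4), (66, .negSucc 1), (67, .ofNat 12)]) te) (tn (tl [(74, .ofNat 1)]) te))) (tn (tn (tn (tl [(56, .negSucc 0), (57, .negSucc 1), (59, .negSucc 0), (61, .negSucc 0)]) te) (tn (tl [(73, .negSucc 0), (74, .ofNat 1)]) te)) (tn (tn (tl [(69, .ofNat 1), (71, .ofNat 1)]) te) te)))) (tn (tn (tn (tn (tn (tl [(20, .ofNat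 1)]) (tl [(75, .ofNat 3)])) te) (tn (tn (tl [(65, .ofNat 3)]) te) (tn (tl [(73, .ofNat 2)]) te))) (tn (tn (tn (tl [(43, .ofNat 1), (45, .ofNat 1), (46, .ofNat 2), (47, .ofNat 1), (48, .negSucc 2), (50, .negSucc 0), (51, .ofNat 1), (52, .negSucc 0), (53, .ofNat 1), (54, .negSucc 0)]) te) te) (tn (tn (tl [(68, .ofNat 3), (69, .negSucc 0), (70, .ofNat 1)]) te) te))) (tn (tn (tn (tn (tl [(37, .negSucc 0), (38, .negSucc 4), (39, .ofNat 3), (40, .negSucc 0)]) te) te) (tn (tn (tl [(63, .ofNat 17), (64, .ofNat 9), (65, .negSucc 3), (67, .ofNat 9)]) te) (tn (tl [(73, .negSucc 1)]) te))) (tn (tn (tn (tl [(56, .ofNat 1), (57, .negSucc 2), (58, .negSucc 1), (59, .negSucc 2), (60, .ofNat 1), (61, .negSucc 0)]) te) (tn (tl [(73, .negSucc 9), (74, .ofNat 1)]) te)) (tn (tn (tl [(68, .ofNat 7), (69, .negSucc 5), (71, .ofNat 1)]) te) te))))) (tn (tn (tn (tn (tn (tn (tl [(14, .ofNat 1)]) (tl [(75,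 .negSucc 0)])) te) (tn (tn (tl [(62, .ofNat 6)]) te) (tn (tl [(73, .negSucc 10), (74, .ofNat 1)]) te))) (tn (tn (tn (tl [(43, .negSucc 0), (44, .ofNat 1), (45, .negSucc 1), (49, .ofNat 1), (51, .negSucc 0), (52, .ofNat 2)]) te) (tn (tl [(72, .negSucc 5)]) te)) te)) (tn (tn (tn (tn (tl [(35, .ofNat 1)]) te) te) (tn (tn (tl [(63, .ofNat 24), (64, .ofNat 17), (66, .negSucc 1), (67, .ofNat 15)]) te) (tn (tl [(73, .ofNat 6), (74, .negSucc 0)]) te))) (tn (tn (tn (tl [(56, .negSucc 2), (57, .ofNat 1), (58, .ofNat 2), (59, .ofNat 1)]) te) (tn (tl [(73, .negSucc 0)]) te)) (tn (tn (tl [(68, .negSucc 1), (69, .ofNat 4), (70, .ofNat 1), (71, .ofNat 2)]) te) te)))) (tn (tn (tn (tn (tn (tl [(29, .ofNat 1), (30, .ofNat 1), (32, .negSucc 0)]) (tl [(75, .negSucc 1)])) te) (tn (tn (tl [(63, .negSucc 2), (65, .ofNat 3), (67, .negSucc 2)]) te) (tn (tl [(73, .negSucc 6), (74, .ofNat 1)]) te))) (tn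 (tn (tn (tl [(44, .negSucc 0), (47, .negSucc 0), (50, .negSucc 0), (52, .negSucc 0), (53, .ofNat 1)]) te) (tn (tl [(73, .negSucc 1)]) te)) (tn (tn (tl [(69, .ofNat 1), (70, .negSucc 0)]) te) te))) (tn (tn (tn (tn (tl [(37, .negSucc 0), (38, .negSucc 0), (40, .negSucc 0), (41, .negSucc 0)]) te) te) (tn (tn (tl [(63, .ofNat 5), (64, .ofNat 2), (65, .negSucc 2), (67, .ofNat 2)]) te) (tn (tl [(74, .negSucc 1)]) te))) (tn (tn te (tn (tl [(73, .ofNat 3), (74, .negSucc 0)]) te)) (tn (tn (tl [(68, .ofNat 2), (70, .negSucc 0), (71, .negSucc 0)]) te) te))))))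

def r5 : Tr SV := (tn (tn (tn (tn (tn (tn (tn (tl [(12, .ofNat 1)]) te) te) te) (tn (tn (tn (tl [(56, .negSucc 5), (57, .ofNat 3)]) te) te) (tn (tn (tl [(68, .negSucc 4), (69, .ofNat 2)]) te) te))) (tn (tn (tn (tn (tl [(33, .ofNat 1)]) te) te) (tn (tn (tl [(68, .negSucc 2)]) te) te)) te)) (tn (tn (tn (tn (tn (tl [(25, .ofNat 1)]) te) te) (tn (tn (tl [(68, .ofNat 6)]) te) te)) (tn (tn (tn (tl [(56, .negSucc 4), (57, .ofNat 3), (58, .negSucc 0), (59, .negSucc 0)]) te) (tn (tl [(73, .ofNat 3)]) te)) te)) (tn (tn (tn (tn (tl [(43, .ofNat 4), (44, .ofNat 1), (45, .ofNat 4), (46, .ofNat 3), (48, .negSucc 3), (49, .ofNat 1), (51, .ofNat 3), (53, .ofNat 4), (54, .negSucc 3)]) te) te) (tn (tn (tl [(68, .negSucc 1), (69, .negSucc 0)]) te) te)) te))) (tn (tn (tn (tn (tn (tn (tl [(15, .ofNat 1)]) te) te) te) (tn (tn (tn (tl [(56, .ofNat 1), (58, .ofNat 2), (59, .ofNat 1)]) te) te) te))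 (tn (tn te (tn (tn (tl [(68, .ofNat 7), (69, .negSucc 0)]) te) te)) te)) (tn (tn (tn (tn (tn (tl [(33, .negSucc 1), (35, .negSucc 0)]) te) te) (tn (tn (tl [(68, .ofNat 6)]) te) te)) (tn (tn (tn (tl [(56, .negSucc 5), (57, .ofNat 6), (58, .ofNat 1), (59, .ofNat 2), (61, .ofNat 1)]) te) te) te)) (tn (tn (tn (tn (tl [(43, .ofNat 8), (44, .ofNat 3), (45, .negSucc 7), (46, .ofNat 13), (47, .ofNat 5), (48, .negSucc 14), (49, .ofNat 4), (50, .ofNat 3), (51, .ofNat 9), (52, .ofNat 6), (53, .ofNat 9), (54, .negSucc 9), (55, .ofNat 3)]) te) te) (tn (tn (tl [(68, .negSucc 2)]) te) te)) te))))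

def r6 : Tr SV := (tn (tn (tn (tn (tn (tn (tn (tl [(17, .ofNat 1)]) te) (tn (tl [(72, .negSucc 2)]) te)) te) (tn (tn (tn (tl [(62, .ofNat 2)]) te) te) (tn te (tn (tl [(75, .ofNat 1)]) te)))) (tn (tn (tn (tn (tl [(38, .ofNat 5), (39, .negSucc 3), (40, .negSucc 1), (41, .negSucc 0), (42, .ofNat 1)]) te) te) te) (tn (tn (tn (tl [(63, .ofNat 8), (64, .ofNat 9), (65, .ofNat 2), (66, .negSucc 0), (67, .ofNat 7)]) te) te) (tn (tn (tl [(72, .ofNat 2)]) te) (tn (tl [(75, .negSucc 2)]) te))))) (tn (tn (tn (tn (tn (tl [(36, .ofNat 1)]) te) (tn (tl [(73, .negSucc 2), (74, .ofNat 3)]) te)) te) (tn (tn (tn (tl [(62, .ofNat 1)]) te) te) (tn (tn (tl [(72, .ofNat 5)]) te) (tn (tl [(75, .ofNat 1)]) te)))) (tn te (tn (tn (tn (tl [(63, .negSucc 12), (64, .negSucc 7), (65, .ofNat 1), (66, .ofNat 4), (67, .negSucc 6)]) te) te) (tn (tn (tl [(72, .negSucc 2)]) te) te))))) (tn (tn (tn (tn (tn (tn (tl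 [(23, .ofNat 1)]) te) (tn (tl [(73, .negSucc 0), (74, .negSucc 0)]) te)) te) (tn te (tn (tn (tl [(72, .ofNat 2)]) te) (tn (tl [(75, .ofNat 2)]) te)))) (tn (tn (tn (tn (tl [(44, .ofNat 1), (45, .ofNat 1), (46, .negSucc 0), (47, .negSucc 0), (48, .negSucc 0), (49, .ofNat 2), (50, .negSucc 1), (51, .negSucc 0), (53, .ofNat 1)]) te) te) te) (tn (tn (tn (tl [(64, .ofNat 1), (65, .ofNat 3), (66, .ofNat 3), (67, .ofNat 4)]) te) te) (tn (tn (tl [(72, .ofNat 2)]) te) (tn (tl [(75, .negSucc 0)]) te))))) (tn (tn (tn (tn (tn (tl [(38, .negSucc 11), (39, .ofNat 10), (40, .ofNat 4), (42, .negSucc 0)]) te) (tn (tl [(73, .negSucc 5), (74, .ofNat 4)]) te)) te) (tn (tn (tn (tl [(62, .ofNat 4)]) te) te) (tn (tn (tl [(72, .negSucc 0)]) te) (tn (tl [(75, .negSucc 1)]) te)))) (tn te (tn (tn (tn (tl [(68, .negSucc 1), (69, .ofNat 4), (71, .ofNat 2)]) te) te) (tn (tn (tl [(72, .ofNat 1)]) te) te))))))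

def r7 : Tr SV := (tn (tn (tn (tn (tn (tn (tn (tl [(16, .ofNat 1)]) te) (tn (tl [(72, .ofNat 3)]) te)) te) (tn (tn (tn (tl [(62, .ofNat 2)]) te) te) (tn te (tn (tl [(75, .ofNat 1)]) te)))) (tn (tn (tn (tn (tl [(38, .ofNat 1), (39, .negSucc 0), (40, .negSucc 1), (42, .ofNat 1)]) te) te) te) (tn (tn (tn (tl [(63, .ofNat 8), (64, .ofNat 9), (65, .ofNat 2), (66, .negSucc 0), (67, .ofNat 7)]) te) te) (tn (tn (tl [(72, .ofNat 2)]) te) (tn (tl [(75, .ofNat 3)]) te))))) (tn (tn (tn (tn (tn (tl [(36, .ofNat 1)]) te) (tn (tl [(73, .ofNat 3), (74, .negSucc 2)]) te)) te) (tn (tn (tn (tl [(62, .ofNat 1)]) te) te) (tn (tn (tl [(72, .ofNat 5)]) te) (tn (tl [(75, .ofNat 1)]) te)))) (tn te (tn (tn (tn (tl [(63, .negSucc 9), (64, .negSucc 7), (65, .ofNat 1), (66, .ofNat 4), (67, .negSucc 3)]) te) te) (tn (tn (tl [(72, .ofNat 3)]) te) te))))) (tn (tn (tn (tn (tn (tn (tl [(18, .negSucc 0), (19,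 .ofNat 1), (23, .ofNat 1)]) te) (tn (tl [(73, .negSucc 0), (74, .negSucc 0)]) te)) te) (tn (tn (tn (tl [(62, .ofNat 6)]) te) te) (tn (tn (tl [(72, .ofNat 2)]) te) (tn (tl [(75, .ofNat 2)]) te)))) (tn (tn (tn (tn (tl [(43, .ofNat 4), (44, .ofNat 3), (45, .negSucc 10), (46, .ofNat 9), (47, .ofNat 4), (48, .negSucc 11), (49, .ofNat 5), (50, .ofNat 1), (51, .ofNat 5), (52, .ofNat 6), (53, .ofNat 6), (54, .negSucc 5), (55, .ofNat 3)]) te) te) te) (tn (tn (tn (tl [(63, .ofNat 12), (64, .ofNat 7), (65, .negSucc 2), (66, .negSucc 2), (67, .ofNat 4)]) te) te) (tn (tn (tl [(72, .ofNat 2)]) te) (tn (tl [(75, .negSucc 0)]) te))))) (tn (tn (tn (tn (tn (tl [(37, .negSucc 0), (38, .negSucc 10), (39, .ofNat 7), (40, .ofNat 4), (42, .negSucc 0)]) te) (tn (tl [(73, .negSucc 5), (74, .ofNat 4)]) te)) te) (tn (tn (tn (tl [(62, .ofNat 4)]) te) te) (tn (tn (tl [(72, .negSucc 0)]) te) (tn (tl [(75,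 .negSucc 1)]) te)))) (tn te (tn (tn (tn (tl [(68, .negSucc 1), (69, .ofNat 4), (71, .ofNat 2)]) te) te) (tn (tn (tl [(72, .ofNat 1)]) te) te))))))

def r8 : Tr SV := (tn (tn (tn (tn (tn (tn (tn (tl [(19, .ofNat 1)]) te) te) te) te) (tn (tn (tn (tn (tl [(43, .ofNat 4), (44, .ofNat 2), (45, .negSucc 11), (46, .ofNat 10), (47, .ofNat 5), (48, .negSucc 10), (49, .ofNat 3), (50, .ofNat 2), (51, .ofNat 5), (52, .ofNat 6), (53, .ofNat 4), (54, .negSucc 4), (55, .ofNat 3)]) te) te) te) (tn (tn (tn (tl [(68, .ofNat 6), (69, .negSucc 1), (71, .negSucc 1)]) te) te) te))) (tn (tn te (tn (tn (tn (tl [(63, .ofNat 6), (64, .ofNat 3), (65, .negSucc 2), (67, .ofNat 3)]) te) te) (tn (tn (tl [(73, .negSucc 4), (74, .ofNat 2)]) te) te))) (tn te (tn (tn (tn (tl [(68, .negSucc 0), (69, .negSucc 1)]) te) te) te)))) (tn (tn (tn (tn (tn (tn (tl [(28, .ofNat 1)]) te) te) te) (tn (tn (tn (tl [(63, .negSucc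 5), (64, .negSucc 2), (65, .ofNat 3), (67, .negSucc 2)]) te) te) te)) (tn (tn (tn (tn (tl [(57, .ofNat 4), (58, .negSucc 0), (59, .ofNat 2), (61, .ofNat 1)]) te) te) te) (tn (tn (tn (tl [(68, .negSucc 0), (71, .ofNat 2)]) te) te) (tn (tn (tl [(73, .negSucc 4), (74, .ofNat 2)]) te) te)))) (tn (tn (tn (tn (tn (tl [(43, .negSucc 19), (44, .negSucc 5), (45, .negSucc 29), (46, .ofNat 4), (47, .ofNat 16), (48, .ofNat 18), (49, .negSucc 12), (50, .ofNat 25), (51, .ofNat 4), (53, .negSucc 8), (54, .ofNat 9)]) te) te) te) (tn te (tn (tn (tl [(73, .ofNat 3)]) te) te))) (tn te (tn te (tn (tn (tl [(73, .ofNat 3)]) te) te))))))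

def r9 : Tr SV := (tn (tn (tn (tn (tn (tn (tn (tl [(24, .ofNat 1)]) te) (tn (tl [(73, .ofNat 7), (74, .negSucc 0)]) te)) (tn te (tn (tl [(75, .negSucc 4)]) te))) (tn (tn (tn (tl [(63, .ofNat 19), (64, .ofNat 14), (65, .negSucc 1), (66, .negSucc 1), (67, .ofNat 12)]) te) te) (tn (tn (tl [(72, .negSucc 7)]) te) te))) (tn (tn (tn (tn (tl [(43, .negSucc 20), (44, .negSucc 5), (45, .negSucc 33), (46, .ofNat 5), (47, .ofNat 16), (48, .ofNat 17), (49, .negSucc 12), (50, .ofNat 24), (51, .ofNat 4), (53, .negSucc 9), (54, .ofNat 9)]) te) te) (tn te (tn (tl [(75, .negSucc 0)]) te))) (tn (tn (tn (tl [(68, .negSucc 0), (69, .ofNat 2), (70, .negSucc 0), (71, .ofNat 1)]) te) (tn (tl [(75, .negSucc 1)]) te)) (tn (tn (tl [(73, .ofNat 8), (74, .negSucc 1)]) te) te)))) (tn (tn (tn (tn (tn (tl [(37, .ofNat 1), (38, .negSucc 7), (39, .ofNat 6), (40, .ofNat 1), (42, .negSucc 0)]) te) te) (tn (tn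 (tl [(72, .negSucc 5)]) te) (tn (tl [(75, .ofNat 4)]) te))) (tn (tn (tn (tl [(63, .ofNat 23), (64, .ofNat 15), (65, .negSucc 1), (66, .negSucc 0), (67, .ofNat 14)]) te) te) (tn (tn (tl [(73, .negSucc 6), (74, .ofNat 2)]) te) te))) (tn (tn (tn (tn (tl [(62, .negSucc 2)]) te) te) (tn (tn (tl [(72, .ofNat 1)]) te) (tn (tl [(75, .negSucc 1)]) te))) (tn (tn (tn (tl [(68, .negSucc 3), (69, .ofNat 4), (71, .ofNat 2)]) te) (tn (tl [(75, .negSucc 2)]) te)) (tn (tn (tl [(73, .negSucc 0), (74, .negSucc 0)]) te) te))))) (tn (tn (tn (tn (tn (tn (tl [(32, .ofNat 1)]) te) te) (tn te (tn (tl [(75, .negSucc 1)]) te))) (tn (tn (tn (tl [(63, .negSucc 10), (64, .negSucc 2), (65, .ofNat 5), (66, .negSucc 0), (67, .negSucc 4)]) te) te) (tn (tn (tl [(73, .ofNat 12)]) te) te))) (tn (tn (tn (tn (tl [(56, .ofNat 3), (57, .negSucc 0), (58, .negSucc 1), (59, .negSucc 0), (60, .ofNat 1), (61, .ofNat 1)])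 te) te) (tn (tn (tl [(72, .ofNat 1)]) te) (tn (tl [(75, .ofNat 1)]) te))) (tn (tn (tn (tl [(68, .ofNat 4), (69, .negSucc 1), (70, .ofNat 1), (71, .ofNat 1)]) te) (tn (tl [(75, .ofNat 1)]) te)) (tn (tn (tl [(73, .ofNat 2), (74, .negSucc 0)]) te) te)))) (tn (tn (tn (tn (tn (tl [(44, .ofNat 2), (45, .negSucc 2), (46, .ofNat 1), (47, .ofNat 2), (49, .ofNat 1), (50, .ofNat 1), (51, .negSucc 1), (52, .ofNat 3), (53, .negSucc 0), (55, .ofNat 1)]) te) te) (tn te (tn (tl [(75, .negSucc 3)]) te))) (tn (tn (tn (tl [(63, .negSucc 0), (64, .ofNat 2), (67, .ofNat 2)]) te) (tn (tl [(75, .negSucc 1)]) te)) (tn (tn (tl [(73, .ofNat 11)]) te) te))) (tn (tn (tn (tn (tl [(62, .ofNat 3)]) te) te) (tn te (tn (tl [(75, .ofNat 4)]) te))) (tn te (tn (tn (tl [(73, .ofNat 3), (74, .ofNat 2)]) te) te))))))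

def r10 : Tr SV := (tn (tn (tn (tn (tn (tn (tn (tl [(18, .negSucc 0), (19, .ofNat 1), (21, .ofNat 1)]) te) (tn (tl [(73, .ofNat 1)]) te)) te) (tn (tn (tn (tl [(63, .negSucc 6), (64, .negSucc 4), (65, .ofNat 2), (66, .ofNat 2), (67, .negSucc 2)]) te) te) (tn (tn (tl [(72, .ofNat 2)]) te) te))) (tn (tn (tn (tn (tl [(43, .ofNat 3), (44, .ofNat 2), (45, .negSucc 12), (46, .ofNat 9), (47, .ofNat 5), (48, .negSucc 8), (49, .ofNat 2), (50, .ofNat 4), (51, .ofNat 5), (52, .ofNat 6), (53, .ofNat 4), (54, .negSucc 4), (55, .ofNat 3)]) te) te) (tn (tn (tl [(72, .negSucc 1)]) te) (tn (tl [(75, .ofNat 2)]) te))) (tn (tn (tn (tl [(68, .ofNat 5), (69, .negSucc 4), (71, .negSucc 1)]) te) te) (tn (tn (tl [(73, .negSucc 4), (74, .ofNat 2)]) te) te)))) (tn (tn (tn (tn (tn (tl [(37, .negSucc 2), (38, .negSucc 1), (39, .ofNat 1), (40, .ofNat 1), (42, .ofNat 1)]) te) te) (tn (tn (tl [(72, .ofNat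 3)]) te) te)) (tn (tn (tn (tl [(63, .ofNat 1), (64, .negSucc 1), (65, .negSucc 2), (66, .ofNat 2)]) te) te) (tn (tn (tl [(73, .negSucc 5), (74, .ofNat 2)]) te) te))) (tn (tn (tn (tn (tl [(62, .ofNat 3)]) te) te) (tn (tn (tl [(72, .negSucc 1)]) te) te)) (tn (tn (tn (tl [(68, .ofNat 4), (69, .negSucc 0)]) te) te) (tn (tn (tl [(73, .ofNat 3)]) te) te))))) (tn (tn (tn (tn (tn (tn (tl [(27, .negSucc 0), (28, .ofNat 1), (31, .ofNat 1)]) te) te) te) (tn (tn (tn (tl [(63, .ofNat 3), (64, .ofNat 2), (66, .ofNat 1), (67, .ofNat 3)]) te) te) (tn (tn (tl [(73, .negSucc 2)]) te) te))) (tn (tn (tn (tn (tl [(56, .ofNat 3), (57, .ofNat 4), (59, .ofNat 3), (61, .ofNat 1)]) te) te) (tn (tn (tl [(72, .ofNat 5)]) te) te)) (tn (tn (tn (tl [(68, .negSucc 3), (69, .ofNat 1), (71, .ofNat 2)]) te) te) (tn (tn (tl [(73, .negSucc 1), (74, .ofNat 2)]) te) te)))) (tn (tn (tn (tn (tn (tl [(43, .negSucc 21),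 (44, .negSucc 6), (45, .negSucc 33), (46, .ofNat 5), (47, .ofNat 17), (48, .ofNat 18), (49, .negSucc 13), (50, .ofNat 26), (51, .ofNat 5), (53, .negSucc 9), (54, .ofNat 10)]) te) te) (tn (tn (tl [(72, .ofNat 3)]) te) te)) (tn (tn (tn (tl [(63, .ofNat 1), (64, .negSucc 0), (65, .ofNat 2), (66, .ofNat 2), (67, .ofNat 1)]) te) te) te)) (tn (tn (tn (tn (tl [(62, .ofNat 3)]) te) te) (tn te (tn (tl [(75, .negSucc 3)]) te))) (tn te (tn (tn (tl [(73, .negSucc 1)]) te) te))))))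

def r11 : Tr SV := (tn (tn (tn (tn (tn (tn (tn (tl [(20, .negSucc 0), (21, .ofNat 1), (22, .ofNat 1), (23, .negSucc 0), (24, .ofNat 1)]) te) (tn (tl [(73, .negSucc 1), (74, .ofNat 2)]) te)) (tn te (tn (tl [(75, .negSucc 1)]) te))) (tn (tn (tn (tl [(63, .negSucc 6), (64, .negSucc 1), (65, .ofNat 2), (66, .ofNat 2)]) te) te) (tn (tn (tl [(72, .negSucc 4)]) te) te))) (tn (tn (tn (tn (tl [(43, .negSucc 22), (44, .negSucc 5), (45, .negSucc 35), (46, .ofNat 4), (47, .ofNat 17), (48, .ofNat 21), (49, .negSucc 14), (50, .ofNat 27), (51, .ofNat 3), (52, .ofNat 2), (53, .negSucc 11), (54, .ofNat 10)]) te) te) (tn (tn (tl [(72, .negSucc 4)]) te) (tn (tl [(75, .ofNat 2)]) te))) (tn (tn (tn (tl [(68, .ofNat 2), (69, .negSucc 3), (70, .negSucc 1), (71, .negSucc 1)]) te) (tn (tl [(75, .negSucc 0)]) te)) (tn (tn (tl [(73, .ofNat 4), (74, .ofNat 2)]) te) te)))) (tn (tn (tn (tn (tn (tl [(37,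 .negSucc 0), (38, .negSucc 4), (39, .ofNat 4), (40, .ofNat 3)]) te) te) (tn (tn (tl [(72, .negSucc 2)]) te) (tn (tl [(75, .ofNat 5)]) te))) (tn (tn (tn (tl [(63, .ofNat 7), (64, .ofNat 5), (65, .negSucc 0), (66, .ofNat 2), (67, .ofNat 7)]) te) te) (tn (tn (tl [(73, .negSucc 6), (74, .ofNat 1)]) te) te))) (tn (tn (tn (tn (tl [(62, .negSucc 2)]) te) te) (tn (tn (tl [(72, .negSucc 2)]) te) (tn (tl [(75, .ofNat 2)]) te))) (tn (tn (tn (tl [(68, .ofNat 2), (70, .ofNat 1), (71, .ofNat 2)]) te) (tn (tl [(75, .negSucc 1)]) te)) (tn (tn (tl [(73, .negSucc 1), (74, .ofNat 2)]) te) te))))) (tn (tn (tn (tn (tn (tn (tl [(27, .negSucc 0), (28, .ofNat 1), (30, .negSucc 0), (31, .ofNat 1), (32, .ofNat 1)]) te) te) (tn te (tn (tl [(75, .ofNat 1)]) te))) (tn (tn (tn (tl [(63, .negSucc 25), (64, .negSucc 14), (65, .ofNat 5), (66, .ofNat 2), (67, .negSucc 13)]) te) te) (tn (tn (tl [(73, .ofNat 6)])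 te) te))) (tn (tn (tn (tn (tl [(56, .ofNat 4), (57, .ofNat 3), (59, .ofNat 2), (61, .ofNat 2)]) te) te) (tn (tn (tl [(72, .ofNat 1)]) te) te)) (tn (tn (tn (tl [(70, .ofNat 1)]) te) (tn (tl [(75, .ofNat 1)]) te)) (tn (tn (tl [(73, .negSucc 8), (74, .ofNat 3)]) te) te)))) (tn (tn (tn (tn (tn (tl [(44, .negSucc 0), (45, .negSucc 0), (46, .ofNat 1), (47, .ofNat 2), (48, .ofNat 1), (49, .negSucc 0), (50, .ofNat 2), (54, .ofNat 1), (55, .ofNat 1)]) te) te) (tn (tn (tl [(72, .negSucc 2)]) te) te)) (tn (tn (tn (tl [(63, .ofNat 1), (64, .ofNat 2), (65, .ofNat 2), (66, .ofNat 2), (67, .ofNat 4)]) te) (tn (tl [(75, .ofNat 2)]) te)) (tn (tn (tl [(73, .ofNat 7), (74, .ofNat 2)]) te) te))) (tn (tn (tn (tn (tl [(62, .negSucc 2)]) te) te) (tn (tn (tl [(72, .negSucc 2)]) te) (tn (tl [(75, .negSucc 2)]) te))) (tn (tn te (tn (tl [(75, .negSucc 0)]) te)) (tn (tn (tl [(73, .ofNat 3), (74, .ofNat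 2)]) te) te))))))

def r12 : Tr SV := (tn (tn (tn (tn (tn (tn (tn (tl [(25, .ofNat 1), (27, .negSucc 0), (28, .ofNat 1), (30, .negSucc 0), (32, .ofNat 1)]) te) te) te) (tn (tn (tn (tl [(68, .negSucc 2)]) te) te) (tn (tn (tl [(73, .ofNat 8), (74, .negSucc 1)]) te) te))) (tn (tn (tn (tn (tl [(56, .negSucc 3), (57, .ofNat 6), (58, .negSucc 0), (59, .ofNat 2), (61, .ofNat 1)]) te) te) te) te)) (tn (tn (tn (tn (tn (tl [(43, .ofNat 4), (44, .ofNat 1), (45, .ofNat 4), (46, .ofNat 3), (48, .negSucc 3), (49, .ofNat 1), (51, .ofNat 3), (53, .ofNat 4), (54, .negSucc 3)]) te) te) (tn (tn (tl [(73, .ofNat 6)]) te) te)) (tn (tn (tn (tl [(68, .negSucc 4), (69, .ofNat 2), (70, .ofNat 1), (71, .ofNat 1)]) te) (tn (tl [(75, .negSucc 2)]) te)) te)) (tn (tn (tn (tn (tl [(63, .negSucc 5), (65, .ofNat 3)]) te) te) (tn (tn (tl [(73, .negSucc 0), (74, .ofNat 1)]) te) te)) te))) (tn (tn (tn (tn (tn (tn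 (tl [(33, .ofNat 1)]) te) te) te) (tn (tn (tn (tl [(68, .ofNat 8), (69, .negSucc 0), (70, .negSucc 0), (71, .negSucc 1)]) te) te) te)) (tn (tn te (tn (tn (tl [(73, .negSucc 0), (74, .ofNat 1)]) te) te)) te)) (tn (tn (tn (tn (tn (tl [(56, .ofNat 4), (57, .negSucc 0), (61, .ofNat 1)]) te) te) (tn (tn (tl [(73, .ofNat 6)]) te) te)) (tn (tn (tn (tl [(68, .negSucc 2)]) te) te) te)) (tn (tn (tn (tn (tl [(63, .negSucc 5), (65, .ofNat 3)]) te) te) te) te))))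

def r13 : Tr SV := (tn (tn (tn (tn (tn (tn (tn (tl [(26, .ofNat 1)]) te) te) te) (tn (tn (tn (tl [(68, .ofNat 3), (69, .negSucc 5)]) te) te) te)) (tn (tn (tn (tn (tl [(56, .negSucc 2), (57, .ofNat 1), (58, .ofNat 3)]) te) te) te) te)) (tn (tn (tn (tn (tn (tl [(43, .ofNat 22), (44, .ofNat 7), (45, .ofNat 35), (46, .negSucc 2), (47, .negSucc 16), (48, .negSucc 18), (49, .ofNat 14), (50, .negSucc 25), (51, .negSucc 3), (53, .ofNat 12), (54, .negSucc 9)]) te) te) (tn (tn (tl [(73, .negSucc 2)]) te) te)) (tn (tn (tn (tl [(68, .ofNat 2), (69, .negSucc 6)]) te) te) te)) (tn (tn (tn (tn (tl [(63, .negSucc 5), (64, .negSucc 2), (65, .ofNat 3), (67, .negSucc 2)]) te) te) (tn (tn (tl [(73, .ofNat 3)]) te) te)) te))) (tn (tn (tn (tn (tn (tn (tl [(34, .ofNat 1)]) te) te) te) (tn (tn (tn (tl [(68, .negSucc 1), (69, .ofNat 2)]) te) te) te)) (tn (tn te (tn (tn (tl [(73, .negSucc 5)]) te) te))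 te)) (tn (tn (tn (tn (tn (tl [(56, .ofNat 3), (57, .ofNat 1), (59, .ofNat 1)]) te) te) (tn (tn (tl [(73, .negSucc 8), (74, .ofNat 6)]) te) te)) (tn (tn (tn (tl [(68, .negSucc 2), (69, .negSucc 0), (71, .negSucc 0)]) te) te) te)) (tn (tn (tn (tn (tl [(63, .negSucc 17), (64, .negSucc 8), (65, .ofNat 9), (66, .ofNat 6), (67, .negSucc 2)]) te) te) te) te))))

def r14 : Tr SV := (tn (tn (tn (tn (tn (tn (tn (tl [(27, .ofNat 1), (28, .negSucc 0), (29, .ofNat 1), (30, .ofNat 1), (32, .negSucc 0)]) te) te) te) (tn te (tn (tn (tl [(73, .negSucc 9), (74, .ofNat 2)]) te) te))) (tn (tn (tn (tn (tl [(56, .negSucc 1), (57, .negSucc 1), (59, .negSucc 1), (61, .negSucc 0)]) te) te) te) te)) (tn (tn (tn (tn (tn (tl [(43, .negSucc 0), (49, .negSucc 0), (51, .ofNat 1)]) te) te) (tn (tn (tl [(73, .negSucc 2)]) te) te)) (tn (tn (tn (tl [(68, .ofNat 2), (70, .negSucc 0), (71, .negSucc 0)]) te) (tn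 (tl [(75, .ofNat 3)]) te)) te)) (tn (tn (tn (tn (tl [(63, .ofNat 6), (64, .ofNat 3), (67, .ofNat 3)]) te) te) (tn (tn (tl [(73, .negSucc 0), (74, .negSucc 0)]) te) te)) te))) (tn (tn (tn (tn (tn (tn (tl [(35, .ofNat 1)]) te) te) te) (tn (tn (tn (tl [(68, .ofNat 2), (69, .negSucc 1), (70, .ofNat 1), (71, .ofNat 2)]) te) te) te)) (tn (tn te (tn (tn (tl [(73, .ofNat 8), (74, .negSucc 0)]) te) te)) te)) (tn (tn (tn (tn (tn (tl [(56, .negSucc 2), (57, .negSucc 1), (58, .ofNat 2), (59, .negSucc 0), (61, .negSucc 0)]) te) te) (tn (tn (tl [(73, .negSucc 2)]) te) te)) (tn (tn (tn (tl [(69, .ofNat 1), (71, .ofNat 1)]) te) te) te)) (tn (tn (tn (tn (tl [(63, .ofNat 3), (64, .ofNat 3)]) te) te) te) te))))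

def r15 : Tr SV := (tn (tn (tn (tn (tn (tn (tn (tl [(33, .negSucc 1), (35, .negSucc 0)]) te) te) te) te) te) (tn (tn (tn (tn (tn (tl [(56, .negSucc 5), (57, .ofNat 3)]) te) te) te) te) (tn (tn (tn (tn (tl [(68, .ofNat 6)]) te) te) te) te))) (tn te (tn te (tn (tn (tn (tn (tl [(68, .ofNat 6)]) te) te) te) te))))

def r16 : Tr SV := (tn (tn (tn (tn (tn (tn (tn (tl [(36, .ofNat 1)]) te) te) te) te) (tn (tn (tn (tn (tl [(62, .ofNat 4)]) te) te) te) (tn (tn (tn (tl [(72, .negSucc 3)]) te) te) te))) (tn te (tn te (tn (tn (tn (tl [(72, .ofNat 4)]) te) te) te)))) (tn (tn (tn (tn (tn (tn (tl [(37, .ofNat 2), (38, .negSucc 1), (39, .ofNat 2)]) te) (tn (tl [(75, .negSucc 3)]) te)) te) te) (tn (tn (tn (tn (tl [(63, .negSucc 15), (64, .negSucc 7), (65, .ofNat 4), (66, .ofNat 4), (67, .negSucc 3)]) te) te) te) te)) (tn (tn (tn (tn te (tn (tl [(75, .ofNat 4)]) te)) te) te) (tn te (tn (tn (tn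 (tl [(74, .ofNat 4)]) te) te) te)))))

def r17 : Tr SV := (tn (tn (tn (tn (tn (tn (tn (tl [(36, .ofNat 1)]) te) te) te) te) (tn (tn (tn (tn (tl [(62, .ofNat 4)]) te) te) te) (tn (tn (tn (tl [(72, .negSucc 3)]) te) te) te))) (tn (tn (tn (tn te (tn (tl [(75, .negSucc 5)]) te)) te) te) (tn te (tn (tn (tn (tl [(72, .ofNat 4)]) te) te) te)))) (tn (tn (tn (tn (tn (tn (tl [(37, .ofNat 2), (38, .ofNat 2), (39, .negSucc 0), (41, .negSucc 0)]) te) (tn (tl [(75, .negSucc 3)]) te)) te) te) (tn (tn (tn (tn (tl [(63, .negSucc 18), (64, .negSucc 7), (65, .ofNat 4), (66, .ofNat 4), (67, .negSucc 6)]) te) te) te) (tn (tn (tn (tl [(72, .negSucc 5)]) te) te) te))) (tn (tn (tn (tn (tn (tl [(62, .negSucc 5)]) te) (tn (tl [(75, .ofNat 4)]) te)) te) te) (tn te (tn (tn (tn (tl [(74, .ofNat 4)]) te) te) te)))))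

def r18 : Tr SV := (tn (tn (tn (tn (tn (tn (tn (tl [(37, .ofNat 3), (38, .negSucc 3), (39, .ofNat 6), (40, .ofNat 2), (42, .negSucc 0)]) te) te) te) te) (tn (tn (tn (tn (tl [(63, .negSucc 11), (64, .negSucc 5), (65, .ofNat 6), (66, .ofNat 6)]) te) te) te) (tn (tn (tn (tl [(73, .ofNat 4), (74, .ofNat 2)]) te) te) te))) (tn (tn te (tn (tn (tn (tl [(72, .negSucc 2)]) te) te) (tn (tn (tl [(75, .ofNat 3)]) te) te))) (tn te (tn (tn (tn (tl [(73, .negSucc 5), (74, .ofNat 6)]) te) te) te)))) (tn (tn (tn (tn (tn (tn (tl [(50, .negSucc 0), (51, .negSucc 0), (53, .negSucc 0), (54, .ofNat 1)]) te) te) te) (tn (tn (tn (tl [(72, .ofNat 3)]) te) te) te)) (tn (tn (tn (tn (tl [(68, .negSucc 0), (69, .negSucc 1)]) te) te) te) (tn te (tn (tn (tl [(75, .ofNat 3)]) te) te)))) (tn (tn (tn (tn (tn (tl [(63, .negSucc 5), (65, .ofNat 3)]) te) te) te) (tn te (tn (tn (tl [(75, .negSucc 2)]) te) te)))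 (tn te (tn te (tn (tn (tl [(75, .negSucc 2)]) te) te))))))

def r19 : Tr SV := (tn (tn (tn (tn (tn (tn (tn (tl [(37, .ofNat 2), (38, .negSucc 2), (39, .ofNat 3), (40, .ofNat 2), (42, .negSucc 0)]) te) te) te) te) (tn te (tn (tn (tn (tl [(73, .ofNat 4), (74, .ofNat 2)]) te) te) te))) (tn (tn te (tn (tn (tn (tl [(72, .negSucc 2)]) te) te) (tn (tn (tl [(75, .ofNat 3)]) te) te))) te)) (tn (tn (tn (tn (tn (tn (tl [(43, .ofNat 4), (44, .ofNat 2), (45, .negSucc 11), (46, .ofNat 10), (47, .ofNat 5), (48, .negSucc 10), (49, .ofNat 3), (50, .ofNat 2), (51, .ofNat 5), (52, .ofNat 6), (53, .ofNat 4), (54, .negSucc 4), (55, .ofNat 3)]) te) te) te) (tn (tn (tn (tl [(72, .ofNat 3)]) te) te) te)) (tn (tn (tn (tn (tl [(68, .negSucc 0), (69, .negSucc 1)]) te) te) te) (tn te (tn (tn (tl [(75, .ofNat 3)]) te) te)))) (tn (tn (tn (tn (tn (tl [(63, .negSucc 5), (65, .ofNat 3)]) te) te) te) (tn te (tn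 (tn (tl [(75, .negSucc 2)]) te) te))) (tn te (tn te (tn (tn (tl [(75, .negSucc 2)]) te) te))))))

def r20 : Tr SV := (tn (tn (tn (tn (tn (tn (tn (tl [(37, .negSucc 0), (38, .negSucc 0), (40, .negSucc 0), (41, .negSucc 0)]) te) te) te) te) (tn (tn (tn (tn (tl [(63, .ofNat 2), (64, .ofNat 2), (65, .negSucc 2), (67, .negSucc 0)]) te) te) te) (tn (tn (tn (tl [(73, .ofNat 1), (74, .negSucc 3)]) te) te) te))) (tn (tn te (tn te (tn (tn (tl [(75, .negSucc 0)]) te) te))) (tn te (tn (tn (tn (tl [(73, .ofNat 2)]) te) te) te)))) (tn (tn (tn (tn (tn (tn (tl [(44, .negSucc 0), (47, .negSucc 0), (50, .negSucc 0), (52, .negSucc 0), (53, .ofNat 1)]) te) te) te) te) (tn (tn (tn (tn (tl [(68, .negSucc 3), (69, .ofNat 5), (71, .ofNat 1)]) te) te) te) (tn (tn (tn (tl [(73, .negSucc 4), (74, .ofNat 4)]) te) te) (tn (tn (tl [(75, .negSucc 0)]) te) te)))) (tn (tn (tn (tn (tn (tl [(63, .negSucc 5), (64,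 .negSucc 1), (65, .ofNat 7), (66, .ofNat 4), (67, .ofNat 2)]) te) te) te) (tn te (tn (tn (tl [(75, .ofNat 3)]) te) te))) (tn te (tn te (tn (tn (tl [(75, .ofNat 3)]) te) te))))))

def r21 : Tr SV := (tn (tn (tn (tn (tn (tn (tn (tl [(38, .negSucc 3), (39, .ofNat 1), (40, .negSucc 0), (42, .ofNat 2)]) te) (tn (tl [(75, .negSucc 0)]) te)) te) (tn (tn (tn (tl [(72, .ofNat 1)]) te) te) te)) (tn (tn (tn (tn (tl [(63, .negSucc 10), (64, .negSucc 8), (65, .ofNat 3), (66, .ofNat 7), (67, .negSucc 1)]) te) te) te) (tn (tn (tn (tl [(73, .ofNat 7), (74, .ofNat 3)]) te) te) (tn (tn (tl [(75, .ofNat 1)]) te) te)))) (tn (tn (tn (tn (tn (tl [(62, .ofNat 3)]) te) te) te) (tn (tn (tn (tl [(72, .negSucc 1)]) te) te) (tn (tn (tl [(75, .ofNat 8)]) te) te))) (tn te (tn (tn (tn (tl [(73, .negSucc 10), (74, .ofNat 7)]) te) te) (tn (tn (tl [(75, .ofNat 1)]) te) te))))) (tn (tn (tn (tn (tn (tn (tl [(45,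 .ofNat 1), (48, .negSucc 0), (52, .negSucc 0)]) te) te) te) (tn (tn (tn (tl [(72, .ofNat 5)]) te) te) (tn (tn (tl [(75, .ofNat 3)]) te) te))) (tn (tn (tn (tn (tl [(68, .ofNat 7), (69, .negSucc 3), (70, .negSucc 0), (71, .negSucc 0)]) te) te) te) (tn (tn (tn (tl [(73, .ofNat 3), (74, .negSucc 0)]) te) te) (tn (tn (tl [(75, .negSucc 3)]) te) te)))) (tn (tn (tn (tn (tn (tl [(63, .ofNat 9), (64, .ofNat 7), (65, .negSucc 2), (67, .ofNat 7)]) te) te) te) (tn (tn (tn (tl [(72, .ofNat 3)]) te) te) (tn (tn (tl [(75, .negSucc 1)]) te) te))) (tn te (tn te (tn (tn (tl [(75, .ofNat 2)]) te) te))))))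

def r22 : Tr SV := (tn (tn (tn (tn (tn (tn (tn (tl [(37, .negSucc 1), (38, .negSucc 8), (39, .ofNat 7), (40, .ofNat 4), (41, .negSucc 0), (42, .negSucc 0)]) te) (tn (tl [(75, .ofNat 3)]) te)) te) (tn (tn (tn (tl [(72, .negSucc 0)]) te) te) te)) (tn (tn (tn (tn (tl [(63, .ofNat 3), (64, .ofNat 5), (65, .negSucc 1), (66, .negSucc 0), (67, .ofNat 1)]) te) te) te) (tn (tn (tn (tl [(74, .negSucc 4)]) te) te) (tn (tn (tl [(75, .negSucc 0)]) te) te)))) (tn (tn (tn (tn (tn (tl [(62, .negSucc 0)]) te) te) te) (tn (tn (tn (tl [(72, .negSucc 2)]) te) te) (tn (tn (tl [(75, .negSucc 5)]) te) te))) (tn te (tn (tn (tn (tl [(73, .ofNat 7), (74, .negSucc 0)]) te) te) (tn (tn (tl [(75, .negSucc 0)]) te) te))))) (tn (tn (tn (tn (tn (tn (tl [(43, .negSucc 1), (44, .negSucc 0), (45, .negSucc 0), (46, .negSucc 1), (47, .negSucc 0), (48, .ofNat 3), (51, .negSucc 0), (54, .ofNat 1)]) te) te) te) (tn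 te (tn (tn (tl [(75, .negSucc 2)]) te) te))) (tn (tn (tn (tn (tl [(68, .negSucc 5), (69, .ofNat 9), (70, .ofNat 1), (71, .ofNat 2)]) te) te) te) (tn (tn (tn (tl [(73, .negSucc 7), (74, .ofNat 5)]) te) te) (tn (tn (tl [(75, .ofNat 6)]) te) te)))) (tn (tn (tn (tn (tn (tl [(63, .negSucc 10), (64, .negSucc 4), (65, .ofNat 9), (66, .ofNat 6), (67, .ofNat 1)]) te) te) te) (tn (tn (tn (tl [(72, .negSucc 0)]) te) te) (tn (tn (tl [(75, .ofNat 2)]) te) te))) (tn te (tn te (tn (tn (tl [(75, .negSucc 1)]) te) te))))))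

def r23 : Tr SV := (tn (tn (tn (tn (tn (tn (tn (tl [(37, .negSucc 1), (38, .negSucc 8), (39, .ofNat 7), (40, .ofNat 2)]) te) (tn (tl [(75, .ofNat 2)]) te)) te) (tn (tn (tn (tl [(72, .ofNat 2)]) te) te) te)) (tn (tn (tn (tn (tl [(63, .ofNat 6), (64, .ofNat 4), (66, .ofNat 3), (67, .ofNat 7)]) te) te) te) (tn (tn (tn (tl [(73, .negSucc 0), (74, .negSucc 1)]) te) te) (tn (tn (tl [(75, .ofNat 2)]) te) te)))) (tn (tn (tn (tn (tn (tl [(62, .ofNat 2)]) te) te) te) (tn (tn (tn (tl [(72, .ofNat 2)]) te) te) (tn (tn (tl [(75, .negSucc 1)]) te) te))) (tn te (tn (tn (tn (tl [(74, .ofNat 3)]) te) te) (tn (tn (tl [(75, .ofNat 2)]) te) te))))) (tn (tn (tn (tn (tn (tn (tl [(44, .ofNat 1), (45, .ofNat 1), (46, .negSucc 0), (47, .negSucc 0), (48, .negSucc 0), (49, .ofNat 2), (50, .negSucc 1), (51, .negSucc 0), (53, .ofNat 1)]) te) te) te) (tn (tn (tn (tl [(72, .ofNat 2)]) te) te) te)) (tn (tn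 (tn (tn (tl [(68, .negSucc 1), (69, .ofNat 4), (71, .ofNat 2)]) te) te) te) (tn (tn (tn (tl [(73, .negSucc 0), (74, .negSucc 0)]) te) te) te))) (tn (tn (tn (tn (tn (tl [(63, .ofNat 8), (64, .ofNat 6), (65, .ofNat 2), (66, .negSucc 0), (67, .ofNat 4)]) te) te) te) (tn (tn (tn (tl [(72, .ofNat 2)]) te) te) (tn (tn (tl [(75, .ofNat 5)]) te) te))) (tn te (tn te (tn (tn (tl [(75, .ofNat 5)]) te) te))))))

def r24 : Tr SV := (tn (tn (tn (tn (tn (tn (tn (tl [(38, .negSucc 4), (39, .ofNat 6), (40, .ofNat 3), (42, .negSucc 1)]) te) (tn (tl [(75, .ofNat 1)]) te)) te) (tn (tn (tn (tl [(72, .negSucc 2)]) te) te) te)) (tn (tn (tn (tn (tl [(63, .ofNat 17), (64, .ofNat 12), (65, .negSucc 1), (66, .negSucc 0), (67, .ofNat 11)]) te) te) te) (tn (tn (tn (tl [(73, .negSucc 6), (74, .negSucc 0)]) te) te) (tn (tn (tl [(75, .negSucc 2)]) te) te)))) (tn (tn (tn (tn (tn (tl [(62, .negSucc 2)]) te) te)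 te) (tn (tn (tn (tl [(72, .ofNat 1)]) te) te) (tn (tn (tl [(75, .negSucc 1)]) te) te))) (tn te (tn (tn (tn (tl [(73, .ofNat 6), (74, .negSucc 0)]) te) te) (tn (tn (tl [(75, .ofNat 3)]) te) te))))) (tn (tn (tn (tn (tn (tn (tl [(43, .negSucc 20), (44, .negSucc 4), (45, .negSucc 34), (46, .ofNat 5), (47, .ofNat 16), (48, .ofNat 18), (49, .negSucc 12), (50, .ofNat 24), (51, .ofNat 3), (52, .ofNat 2), (53, .negSucc 9), (54, .ofNat 9)]) te) te) te) (tn (tn (tn (tl [(72, .ofNat 1)]) te) te) (tn (tn (tl [(75, .negSucc 2)]) te) te))) (tn (tn (tn (tn (tl [(68, .negSucc 4), (69, .ofNat 4), (70, .ofNat 1), (71, .ofNat 4)]) te) te) te) (tn (tn (tn (tl [(73, .negSucc 2), (74, .ofNat 1)]) te) te) (tn (tn (tl [(75, .ofNat 2)]) te) te)))) (tn (tn (tn (tn (tn (tl [(63, .negSucc 21), (64, .negSucc 9), (65, .ofNat 8), (66, .negSucc 0), (67, .negSucc 12)]) te) te) te) (tn (tn (tn (tl [(72, .negSucc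 2)]) te) te) te)) (tn te (tn te (tn (tn (tl [(75, .ofNat 2)]) te) te))))))

def r25 : Tr SV := (tn (tn (tn (tn (tn (tn (tn (tl [(43, .ofNat 8), (44, .ofNat 3), (45, .negSucc 7), (46, .ofNat 13), (47, .ofNat 5), (48, .negSucc 14), (49, .ofNat 4), (50, .ofNat 3), (51, .ofNat 9), (52, .ofNat 6), (53, .ofNat 9), (54, .negSucc 9), (55, .ofNat 3)]) te) te) te) te) (tn (tn (tn (tn (tl [(68, .negSucc 2)]) te) te) te) te)) (tn (tn te (tn (tn (tn (tl [(73, .ofNat 3)]) te) te) te)) te)) (tn (tn (tn (tn (tn (tn (tl [(56, .negSucc 5), (57, .ofNat 6), (58, .ofNat 1), (59, .ofNat 2), (61, .ofNat 1)]) te) te) te) (tn (tn (tn (tl [(73, .negSucc 2)]) te) te) te)) te) (tn (tn (tn (tn (tn (tl [(68, .ofNat 6)]) te) te) te) te) te)))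

def r26 : Tr SV := (tn (tn (tn (tn (tn (tn (tn (tl [(44, .ofNat 2), (45, .negSucc 0), (46, .ofNat 1), (48, .ofNat 1), (51, .negSucc 0), (52, .ofNat 2)]) te) te) te) te) (tn (tn (tn (tn (tl [(68, .negSucc 4), (69, .negSucc 1), (71, .ofNat 2)]) te) te) te) te)) (tn (tn (tn (tn (tn (tl [(63, .negSucc 5), (64, .negSucc 2), (65, .ofNat 3), (67, .negSucc 2)]) te) te) (tn (tn (tl [(75, .negSucc 2)]) te) te)) (tn (tn (tn (tl [(73, .ofNat 3), (74, .negSucc 0)]) te) te) te)) (tn (tn (tn (tn (tl [(72, .negSucc 2)]) te) te) (tn (tn (tl [(75, .ofNat 3)]) te) te)) te))) (tn (tn (tn (tn (tn (tn (tl [(56, .negSucc 0), (57, .ofNat 1), (58, .ofNat 1)]) te) te) te) (tn (tn (tn (tl [(73, .negSucc 7), (74, .ofNat 2)]) te) te) te)) (tn (tn te (tn (tn (tl [(75, .negSucc 5)]) te) te)) te)) (tn (tn (tn (tn (tn (tl [(70, .ofNat 1), (71, .ofNat 1)]) te) te) (tn (tn (tl [(75, .negSucc 2)]) te) te)) te)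 (tn (tn (tn (tn (tl [(72, .negSucc 2)]) te) te) te) te))))

def r27 : Tr SV := (tn (tn (tn (tn (tn (tn (tn (tl [(43, .ofNat 7), (44, .ofNat 3), (45, .negSucc 5), (46, .ofNat 10), (47, .ofNat 4), (48, .negSucc 13), (49, .ofNat 5), (50, .ofNat 1), (51, .ofNat 6), (52, .ofNat 5), (53, .ofNat 8), (54, .negSucc 6), (55, .ofNat 3)]) te) te) te) (tn te (tn (tn (tl [(75, .negSucc 1)]) te) te))) (tn (tn (tn (tn (tl [(68, .ofNat 3), (69, .negSucc 0), (71, .negSucc 0)]) te) te) te) te)) (tn (tn (tn (tn (tn (tl [(63, .ofNat 6), (64, .ofNat 3), (65, .negSucc 2), (67, .ofNat 3)]) te) te) (tn (tn (tl [(75, .ofNat 3)]) te) te)) (tn (tn (tn (tl [(73, .ofNat 5)]) te) te) te)) (tn (tn (tn (tn (tl [(72, .ofNat 3)]) te) te) (tn (tn (tl [(75, .negSucc 1)]) te) te)) te))) (tn (tn (tn (tn (tn (tn (tl [(56, .negSucc 1), (57, .ofNat 4), (58, .ofNat 1), (59, .ofNat 2), (61, .ofNat 1)]) te) te) te) (tn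 (tn (tn (tl [(73, .negSucc 0), (74, .ofNat 1)]) te) te) te)) (tn (tn te (tn (tn (tl [(75, .ofNat 7)]) te) te)) te)) (tn (tn (tn (tn (tn (tl [(68, .ofNat 3), (69, .negSucc 1), (70, .negSucc 0)]) te) te) (tn (tn (tl [(75, .ofNat 3)]) te) te)) te) (tn (tn (tn (tn (tl [(72, .ofNat 3)]) te) te) te) te))))

def r28 : Tr SV := (tn (tn (tn (tn (tn (tn (tn (tl [(43, .negSucc 19), (44, .negSucc 5), (45, .negSucc 29), (46, .ofNat 4), (47, .ofNat 16), (48, .ofNat 18), (49, .negSucc 12), (50, .ofNat 25), (51, .ofNat 4), (53, .negSucc 8), (54, .ofNat 9)]) te) te) te) te) (tn (tn (tn (tn (tl [(68, .negSucc 0), (71, .ofNat 2)]) te) te) te) te)) (tn (tn te (tn (tn (tn (tl [(73, .ofNat 3)]) te) te) te)) te)) (tn (tn (tn (tn (tn (tn (tl [(57, .ofNat 4), (58, .negSucc 0), (59, .ofNat 2), (61, .ofNat 1)]) te) te) te) (tn (tn (tn (tl [(73, .negSucc 4), (74, .ofNat 2)]) te) te) te)) te) (tn (tn (tn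 (tn (tn (tl [(68, .ofNat 6), (69, .negSucc 1), (71, .negSucc 1)]) te) te) te) te) te)))

def r29 : Tr SV := (tn (tn (tn (tn (tn (tn (tn (tl [(55, .ofNat 1)]) te) te) te) (tn (tn (tn (tl [(73, .ofNat 6)]) te) te) (tn (tn (tl [(75, .negSucc 1)]) te) te))) (tn (tn (tn (tn (tl [(69, .ofNat 2)]) te) te) te) te)) (tn (tn (tn (tn (tn (tl [(64, .ofNat 3), (65, .ofNat 3), (67, .ofNat 3)]) te) te) (tn (tn (tl [(75, .ofNat 3)]) te) te)) (tn (tn (tn (tl [(73, .ofNat 1), (74, .ofNat 2)]) te) te) te)) (tn (tn (tn (tn (tl [(72, .negSucc 2)]) te) te) (tn (tn (tl [(75, .negSucc 1)]) te) te)) te))) (tn (tn (tn (tn (tn (tn (tl [(61, .ofNat 1)]) te) te) te) (tn (tn (tn (tl [(73, .ofNat 4), (74, .negSucc 2)]) te) te) te)) (tn (tn te (tn (tn (tl [(75, .ofNat 7)]) te) te)) te)) (tn (tn (tn (tn (tn (tl [(68, .negSucc 0), (70, .negSucc 0), (71, .ofNat 1)]) te) te) (tn (tn (tl [(75, .ofNat 3)]) te) te))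 (tn (tn (tn (tl [(73, .ofNat 6)]) te) te) te)) (tn (tn (tn (tn (tl [(72, .negSucc 2)]) te) te) te) te))))

def r30 : Tr SV := (tn (tn (tn (tn (tn (tn (tn (tl [(43, .negSucc 22), (44, .negSucc 4), (45, .negSucc 36), (46, .ofNat 4), (47, .ofNat 17), (48, .ofNat 19), (49, .negSucc 12), (50, .ofNat 26), (51, .ofNat 3), (52, .ofNat 2), (53, .negSucc 11), (54, .ofNat 10)]) te) te) te) (tn (tn (tn (tl [(73, .ofNat 3)]) te) te) te)) (tn (tn (tn (tn (tl [(68, .negSucc 0), (69, .ofNat 1), (71, .ofNat 2)]) te) te) te) te)) (tn (tn (tn (tn (tn (tl [(63, .ofNat 19), (64, .ofNat 11), (65, .negSucc 1), (66, .negSucc 1), (67, .ofNat 9)]) te) te) (tn (tn (tl [(75, .negSucc 2)]) te) te)) (tn (tn (tn (tl [(73, .ofNat 2), (74, .negSucc 0)]) te) te) te)) (tn (tn te (tn (tn (tl [(75, .ofNat 3)]) te) te)) te))) (tn (tn (tn (tn (tn (tn (tl [(56, .ofNat 2), (58, .negSucc 1), (60, .ofNat 1)]) te) te)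 te) (tn (tn (tn (tl [(73, .negSucc 3), (74, .ofNat 2)]) te) te) te)) (tn (tn te (tn (tn (tl [(75, .negSucc 5)]) te) te)) te)) (tn (tn (tn (tn (tn (tl [(68, .ofNat 1), (69, .ofNat 2), (70, .ofNat 1), (71, .ofNat 1)]) te) te) (tn (tn (tl [(75, .ofNat 3)]) te) te)) (tn (tn (tn (tl [(73, .negSucc 0), (74, .negSucc 1)]) te) te) te)) (tn (tn (tn (tn (tl [(72, .ofNat 6)]) te) te) te) te))))

def r31 : Tr SV := (tn (tn (tn (tn (tn (tn (tn (tl [(43, .ofNat 4), (44, .ofNat 2), (45, .negSucc 11), (46, .ofNat 10), (47, .ofNat 5), (48, .negSucc 10), (49, .ofNat 3), (50, .ofNat 3), (51, .ofNat 6), (52, .ofNat 6), (53, .ofNat 6), (54, .negSucc 4), (55, .ofNat 3)]) te) te) te) (tn (tn (tn (tl [(73, .negSucc 2)]) te) te) te)) (tn (tn (tn (tn (tl [(68, .negSucc 1), (69, .ofNat 1)]) te) te) te) te)) (tn (tn (tn (tn (tn (tl [(63, .negSucc 0), (64, .negSucc 1), (65, .negSucc 0), (66, .ofNat 2)])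 te) te) te) (tn (tn (tn (tl [(73, .ofNat 2)]) te) te) te)) (tn (tn (tn (tn (tl [(72, .ofNat 3)]) te) te) te) te))) (tn (tn (tn (tn (tn (tn (tl [(56, .ofNat 1), (57, .ofNat 4), (58, .ofNat 2), (59, .ofNat 3), (61, .ofNat 1)]) te) te) te) te) te) (tn (tn (tn (tn (tn (tl [(68, .ofNat 1), (69, .negSucc 2)]) te) te) te) (tn (tn (tn (tl [(73, .negSucc 4), (74, .ofNat 2)]) te) te) te)) (tn (tn (tn (tn (tl [(72, .ofNat 3)]) te) te) te) te))))

def r32 : Tr SV := (tn (tn (tn (tn (tn (tn (tn (tl [(44, .ofNat 1), (45, .negSucc 1), (46, .ofNat 1), (47, .ofNat 2), (48, .negSucc 0), (49, .ofNat 1), (50, .ofNat 1), (51, .negSucc 0), (52, .ofNat 1), (53, .negSucc 0), (55, .ofNat 1)]) te) te) te) (tn (tn (tn (tl [(73, .ofNat 12)]) te) te) (tn (tn (tl [(75, .negSucc 4)]) te) te))) (tn (tn (tn (tn (tl [(68, .ofNat 5), (69, .negSucc 0), (70, .ofNat 1), (71, .negSucc 0)]) te) te) (tn (tn (tl [(75,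 .negSucc 2)]) te) te)) te)) (tn (tn (tn (tn (tn (tl [(63, .ofNat 19), (64, .ofNat 14), (65, .negSucc 1), (66, .negSucc 1), (67, .ofNat 12)]) te) te) (tn (tn (tl [(75, .ofNat 6)]) te) te)) (tn (tn (tn (tl [(73, .ofNat 9), (74, .ofNat 1)]) te) te) te)) (tn (tn (tn (tn (tl [(72, .negSucc 2)]) te) te) (tn (tn (tl [(75, .negSucc 1)]) te) te)) te))) (tn (tn (tn (tn (tn (tn (tl [(56, .ofNat 3), (57, .negSucc 0), (58, .negSucc 1), (59, .negSucc 0), (60, .ofNat 1), (61, .ofNat 1)]) te) te) te) (tn (tn (tn (tl [(73, .negSucc 6), (74, .ofNat 2)]) te) te) te)) (tn (tn te (tn (tn (tl [(75, .ofNat 7)]) te) te)) te)) (tn (tn (tn (tn (tn (tl [(68, .negSucc 0), (69, .ofNat 1), (70, .negSucc 1), (71, .ofNat 1)]) te) te) (tn (tn (tl [(75, .ofNat 12)]) te) te)) (tn (tn (tn (tl [(73, .ofNat 8), (74, .negSucc 1)]) te) te) te)) (tn (tn (tn (tn (tl [(72, .ofNat 3)]) te) te) (tn (tn (tl [(75, .negSucc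 2)]) te) te)) te))))

def r33 : Tr SV := (tn (tn (tn (tn (tn (tn (tn (tl [(56, .ofNat 3), (59, .ofNat 1)]) te) te) te) te) te) (tn (tn (tn (tn (tn (tl [(68, .negSucc 2)]) te) te) te) te) (tn (tn (tn (tn (tl [(73, .negSucc 2)]) te) te) te) te))) (tn te (tn te (tn (tn (tn (tn (tl [(73, .negSucc 2)]) te) te) te) te))))

def r34 : Tr SV := (tn (tn (tn (tn (tn (tn (tn (tl [(56, .ofNat 1), (57, .ofNat 1), (58, .ofNat 2), (59, .ofNat 1)]) te) te) te) te) te) (tn (tn (tn (tn (tn (tl [(68, .ofNat 3), (69, .negSucc 5)]) te) te) te) te) (tn (tn (tn (tn (tl [(73, .negSucc 2)]) te) te) te) te))) (tn te (tn te (tn (tn (tn (tn (tl [(73, .negSucc 8), (74, .ofNat 6)]) te) te) te) te))))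

def r35 : Tr SV := (tn (tn (tn (tn (tn (tn (tn (tl [(56, .negSucc 1), (57, .negSucc 4), (59, .negSucc 3), (61, .negSucc 1)]) te) te) te) te) te) te) te)

def r36 : Tr SV := (tn te (tn (tn (tn (tn (tn (tn (tl [(62, .ofNat 4)]) te) te) te) te) (tn (tn (tn (tn (tl [(72, .ofNat 4)]) te) te) te) te)) (tn te (tn te (tn (tn (tn (tl [(75, .ofNat 4)]) te) te) te)))))

def r37 : Tr SV := (tn (tn (tn (tn (tn (tn (tn (tl [(62, .negSucc 0)]) te) te) te) te) (tn (tn (tn (tn (tl [(72, .negSucc 0)]) te) te) te) (tn (tn (tn (tl [(75, .ofNat 2)]) te) te) te))) (tn te (tn te (tn (tn (tn (tl [(75, .negSucc 0)]) te) te) te)))) (tn (tn (tn (tn (tn (tn (tl [(63, .negSucc 5), (64, .negSucc 2), (65, .ofNat 1), (66, .ofNat 1), (67, .negSucc 1)]) te) te) te) te) (tn (tn (tn (tn (tl [(73, .ofNat 1), (74, .ofNat 1)]) te) te) te) (tn (tn (tn (tl [(75, .negSucc 1)]) te) te) te))) (tn (tn (tn (tn (tn (tl [(72,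 .negSucc 1)]) te) te) te) te) te)))

def r38 : Tr SV := (tn (tn (tn (tn (tn (tn (tn (tl [(62, .negSucc 0)]) te) te) te) te) (tn (tn (tn (tn (tl [(72, .negSucc 0)]) te) te) te) (tn (tn (tn (tl [(75, .negSucc 0)]) te) te) te))) (tn te (tn te (tn (tn (tn (tl [(75, .negSucc 0)]) te) te) te)))) (tn (tn (tn (tn (tn (tn (tl [(65, .ofNat 1), (66, .ofNat 1), (67, .ofNat 1)]) te) te) te) te) (tn (tn (tn (tn (tl [(73, .negSucc 1), (74, .ofNat 1)]) te) te) te) (tn (tn (tn (tl [(75, .ofNat 1)]) te) te) te))) (tn (tn (tn (tn (tn (tl [(72, .ofNat 1)]) te) te) te) te) te)))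

def r39 : Tr SV := (tn (tn (tn te (tn te (tn (tn (tn (tl [(75, .negSucc 0)]) te) te) te))) te) (tn (tn (tn (tn (tn (tn (tl [(63, .negSucc 1), (64, .negSucc 0), (65, .ofNat 2), (66, .ofNat 2), (67, .ofNat 1)]) te) te) te) te) (tn (tn (tn (tn (tl [(73, .negSucc 2), (74, .ofNat 2)]) te) te) te) (tn (tn (tn (tl [(75, .ofNat 1)]) te) te) te))) (tn (tn (tn (tn (tn (tl [(72, .ofNat 1)]) te) te) te) te) te)))

def r40 : Tr SV := (tn (tn (tn (tn (tn (tn (tn (tl [(62, .negSucc 2)]) te) te) te) te) (tn (tn (tn (tn (tl [(72, .negSucc 2)]) te) te) te) (tn (tn (tn (tl [(75, .ofNat 1)]) te) te) te))) (tn te (tn te (tn (tn (tn (tl [(75, .negSucc 2)]) te) te) te)))) (tn (tn (tn (tn (tn (tn (tl [(63, .ofNat 1), (64, .ofNat 1), (67, .ofNat 1)]) te) te) te) te) (tn (tn (tn (tn (tl [(73, .ofNat 1)]) te) te) te) te)) te))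

def r41 : Tr SV := (tn (tn (tn (tn (tn (tn (tn (tl [(62, .ofNat 2)]) te) te) te) te) (tn (tn (tn (tn (tl [(72, .ofNat 2)]) te) te) te) (tn (tn (tn (tl [(75, .negSucc 0)]) te) te) te))) (tn te (tn te (tn (tn (tn (tl [(75, .ofNat 2)]) te) te) te)))) (tn (tn (tn (tn (tn (tn (tl [(63, .ofNat 9), (64, .ofNat 3), (65, .negSucc 1), (66, .negSucc 1), (67, .ofNat 4)]) te) te) te) te) (tn (tn (tn (tn (tl [(73, .ofNat 1), (74, .negSucc 1)]) te) te) te) (tn (tn (tn (tl [(75, .ofNat 1)]) te) te) te))) (tn (tn (tn (tn (tn (tl [(72, .ofNat 1)]) te) te) te) te) te)))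

def r42 : Tr SV := (tn (tn (tn (tn (tn (tn (tn (tl [(62, .ofNat 1)]) te) te) te) te) (tn (tn (tn (tn (tl [(72, .negSucc 1)]) te) te) te) te)) (tn te (tn te (tn (tn (tn (tl [(75, .negSucc 1)]) te) te) te)))) (tn (tn (tn (tn (tn (tn (tl [(63, .negSucc 15), (64, .negSucc 9), (65, .ofNat 5), (66, .ofNat 5), (67, .negSucc 4)]) te) te) te) te) (tn (tn (tn (tn (tl [(73, .negSucc 7), (74, .ofNat 5)]) te) te) te) (tn (tn (tn (tl [(75, .negSucc 0)]) te) te) te))) (tn (tn (tn (tn (tn (tl [(72, .ofNat 2)]) te) te) te) te) te)))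

def r43 : Tr SV := (tn (tn (tn (tn (tn (tn (tn (tl [(63, .negSucc 6), (64, .negSucc 5), (65, .negSucc 1), (66, .negSucc 1), (67, .negSucc 6)]) te) te) te) te) (tn (tn (tn (tn (tl [(74, .negSucc 1)]) te) te) te) te)) (tn (tn te (tn (tn (tn (tl [(75, .negSucc 3)]) te) te) te)) te)) (tn (tn (tn (tn (tn (tn (tl [(69, .negSucc 0), (71, .negSucc 0)]) te) te) te) (tn (tn (tn (tl [(75, .ofNat 2)]) te) te) te)) te) (tn (tn (tn (tn (tn (tl [(73, .ofNat 2)]) te) te) te) te) te)))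

def r44 : Tr SV := (tn (tn (tn (tn (tn (tn (tn (tl [(63, .ofNat 6), (64, .ofNat 4), (65, .negSucc 2), (66, .negSucc 3), (67, .negSucc 0)]) te) te) te) te) (tn (tn (tn (tn (tl [(73, .ofNat 4), (74, .negSucc 2)]) te) te) te) te)) (tn (tn te (tn (tn (tn (tl [(75, .ofNat 1)]) te) te) te)) te)) (tn (tn (tn (tn (tn (tn (tl [(69, .negSucc 0), (71, .ofNat 1)]) te) te) te) (tn (tn (tn (tl [(75, .ofNat 1)]) te) te) te)) te) (tn (tn (tn (tn (tn (tl [(73, .negSucc 2), (74, .ofNat 1)]) te) te) te) te) te)))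

def r45 : Tr SV := (tn (tn (tn (tn (tn (tn (tn (tl [(63, .negSucc 1), (65, .ofNat 2), (66, .ofNat 1), (67, .ofNat 1)]) te) te) te) te) (tn (tn (tn (tn (tl [(73, .negSucc 0), (74, .ofNat 1)]) te) te) te) te)) te) (tn (tn (tn (tn (tn (tn (tl [(69, .negSucc 0)]) te) te) te) te) te) (tn (tn (tn (tn (tn (tl [(74, .ofNat 1)]) te) te) te) te) te)))

def r46 : Tr SV := (tn (tn (tn (tn (tn (tn (tn (tl [(63, .negSucc 11), (64, .negSucc 4), (65, .ofNat 8), (66, .ofNat 2), (67, .negSucc 1)]) te) te) te) te) (tn (tn (tn (tn (tl [(73, .negSucc 3), (74, .ofNat 3)]) te) te) te) te)) (tn (tn te (tn (tn (tn (tl [(75, .ofNat 1)]) te) te) te)) te)) (tn (tn (tn (tn (tn (tn (tl [(68, .negSucc 4), (69, .negSucc 0), (71, .ofNat 1)]) te) te) te) (tn (tn (tn (tl [(75, .negSucc 0)]) te) te) te)) te) (tn (tn (tn (tn (tn (tl [(73, .negSucc 3), (74, .ofNat 1)]) te) te) te) te) te)))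

def r47 : Tr SV := (tn (tn (tn (tn (tn (tn (tn (tl [(63, .negSucc 2), (64, .ofNat 1), (65, .ofNat 1), (66, .negSucc 1), (67, .negSucc 2)]) te) te) te) (tn (tn (tn (tl [(75, .negSucc 2)]) te) te) te)) (tn (tn (tn (tn (tl [(73, .ofNat 5), (74, .negSucc 2)]) te) te) te) te)) (tn (tn (tn (tn (tn (tl [(72, .negSucc 0)]) te) te) te) (tn (tn (tn (tl [(75, .negSucc 1)]) te) te) te)) te)) (tn (tn (tn (tn (tn (tn (tl [(68, .negSucc 1), (69, .ofNat 4), (70, .ofNat 1), (71, .ofNat 1)]) te) te) te) (tn (tn (tn (tl [(75, .ofNat 2)]) te) te) te)) te) (tn (tn (tn (tn (tn (tl [(73, .negSucc 1), (74, .negSucc 0)]) te) te) te) (tn (tn (tn (tl [(75, .negSucc 0)]) te) te) te)) te)))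

def r48 : Tr SV := (tn (tn (tn (tn (tn (tn (tn (tl [(63, .negSucc 18), (64, .negSucc 8), (65, .ofNat 7), (66, .negSucc 0), (67, .negSucc 9)]) te) te) te) (tn (tn (tn (tl [(75, .negSucc 2)]) te) te) te)) (tn (tn (tn (tn (tl [(73, .negSucc 1)]) te) te) te) te)) (tn (tn (tn (tn (tn (tl [(72, .negSucc 0)]) te) te) te) (tn (tn (tn (tl [(75, .negSucc 1)]) te) te) te)) te)) (tn (tn (tn (tn (tn (tn (tl [(68, .negSucc 7), (69, .ofNat 4), (70, .ofNat 1), (71, .ofNat 2)]) te) te) te) te) te) (tn (tn (tn (tn (tn (tl [(73, .negSucc 3), (74, .negSucc 1)]) te) te) te) (tn (tn (tn (tl [(75, .negSucc 0)]) te) te) te)) te)))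

def r49 : Tr SV := (tn (tn (tn (tn (tn (tn (tn (tl [(63, .negSucc 3), (64, .negSucc 1), (65, .ofNat 4), (66, .negSucc 0), (67, .negSucc 0)]) te) te) te) te) (tn (tn (tn (tn (tl [(73, .negSucc 3)]) te) te) te) te)) (tn (tn (tn (tn (tn (tl [(72, .ofNat 2)]) te) te) te) (tn (tn (tn (tl [(75, .ofNat 1)]) te) te) te)) te)) (tn (tn (tn (tn (tn (tn (tl [(68, .negSucc 5), (69, .ofNat 1), (71, .ofNat 1)]) te) te) te) (tn (tn (tn (tl [(75, .negSucc 1)]) te) te) te)) te) (tn (tn (tn (tn (tn (tl [(73, .ofNat 1), (74, .negSucc 0)]) te) te) te) (tn (tn (tn (tl [(75, .ofNat 2)]) te) te) te)) te)))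

def r50 : Tr SV := (tn (tn (tn (tn (tn (tn (tn (tl [(63, .ofNat 11), (64, .ofNat 4), (65, .negSucc 4), (66, .ofNat 1), (67, .ofNat 7)]) te) te) te) (tn (tn (tn (tl [(75, .ofNat 3)]) te) te) te)) (tn (tn (tn (tn (tl [(73, .negSucc 0), (74, .ofNat 1)]) te) te) te) te)) (tn (tn (tn (tn (tn (tl [(72, .ofNat 1)]) te) te) te) te) te)) (tn (tn (tn (tn (tn (tn (tl [(68, .ofNat 6), (69, .negSucc 4), (70, .negSucc 0), (71, .negSucc 1)]) te) te) te) (tn (tn (tn (tl [(75, .ofNat 1)]) te) te) te)) te) (tn (tn (tn (tn (tn (tl [(73, .ofNat 6), (74, .ofNat 2)]) te) te) te) (tn (tn (tn (tl [(75, .ofNat 1)]) te) te) te)) te)))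

def r51 : Tr SV := (tn (tn (tn (tn (tn (tn (tn (tl [(63, .negSucc 7), (64, .negSucc 4), (65, .ofNat 2), (66, .negSucc 2), (67, .negSucc 7)]) te) te) te) te) (tn (tn (tn (tn (tl [(73, .negSucc 3), (74, .negSucc 1)]) te) te) te) te)) (tn (tn (tn (tn (tn (tl [(72, .ofNat 2)]) te) te) te) te) te)) (tn (tn (tn (tn (tn (tn (tl [(68, .negSucc 5), (69, .ofNat 1), (71, .ofNat 1)]) te) te) te) (tn (tn (tn (tl [(75, .negSucc 2)]) te) te) te)) te) (tn (tn (tn (tn (tn (tl [(74, .negSucc 0)]) te) te) te) (tn (tn (tn (tl [(75, .ofNat 2)]) te) te) te)) te)))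

def r52 : Tr SV := (tn (tn (tn (tn (tn (tn (tn (tl [(63, .negSucc 15), (64, .negSucc 10), (65, .ofNat 3), (66, .ofNat 3), (67, .negSucc 7)]) te) te) te) te) (tn (tn (tn (tn (tl [(73, .negSucc 5), (74, .ofNat 2)]) te) te) te) te)) (tn (tn te (tn (tn (tn (tl [(75, .negSucc 2)]) te) te) te)) te)) (tn (tn (tn (tn (tn (tn (tl [(68, .ofNat 1), (69, .negSucc 0), (71, .negSucc 0)]) te) te) te) (tn (tn (tn (tl [(75, .negSucc 1)]) te) te) te)) te) (tn (tn (tn (tn (tn (tl [(74, .ofNat 1)]) te) te) te) te) te)))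

def r53 : Tr SV := (tn (tn (tn (tn (tn (tn (tn (tl [(63, .negSucc 1), (64, .negSucc 0), (66, .ofNat 2)]) te) te) te) te) (tn (tn (tn (tn (tl [(74, .ofNat 1)]) te) te) te) te)) (tn (tn te (tn (tn (tn (tl [(75, .negSucc 0)]) te) te) te)) te)) (tn (tn (tn (tn (tn (tn (tl [(68, .ofNat 1), (69, .ofNat 2)]) te) te) te) (tn (tn (tn (tl [(75, .ofNat 1)]) te) te) te)) te) (tn (tn (tn (tn (tn (tl [(73, .ofNat 2), (74, .negSucc 0)]) te) te) te) te) te)))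

def r54 : Tr SV := (tn (tn (tn (tn (tn (tn (tn (tl [(63, .negSucc 4), (64, .negSucc 4), (67, .negSucc 3)]) te) te) te) (tn (tn (tn (tl [(75, .ofNat 3)]) te) te) te)) (tn (tn (tn (tn (tl [(73, .negSucc 4)]) te) te) te) te)) (tn (tn (tn (tn (tn (tl [(72, .ofNat 3)]) te) te) te) (tn (tn (tn (tl [(75, .negSucc 0)]) te) te) te)) te)) (tn (tn (tn (tn (tn (tn (tl [(69, .negSucc 3), (70, .negSucc 0), (71, .negSucc 0)]) te) te) te) (tn (tn (tn (tl [(75, .negSucc 0)]) te) te) te)) te) (tn (tn (tn (tn (tn (tl [(73, .ofNat 3), (74, .ofNat 2)]) te) te) te) (tn (tn (tn (tl [(75, .ofNat 3)]) te) te) te)) te)))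

def r55 : Tr SV := (tn (tn (tn (tn (tn (tn (tn (tl [(63, .ofNat 7), (64, .ofNat 9), (65, .ofNat 1), (66, .negSucc 0), (67, .ofNat 7)]) te) te) te) (tn (tn (tn (tl [(75, .negSucc 2)]) te) te) te)) (tn (tn (tn (tn (tl [(73, .ofNat 6), (74, .ofNat 1)]) te) te) te) te)) (tn (tn (tn (tn (tn (tl [(72, .negSucc 2)]) te) te) te) (tn (tn (tn (tl [(75, .ofNat 2)]) te) te) te)) te)) (tn (tn (tn (tn (tn (tn (tl [(68, .negSucc 0), (69, .ofNat 2), (70, .ofNat 1), (71, .ofNat 2)]) te) te) te) (tn (tn (tn (tl [(75, .ofNat 4)]) te) te) te)) te) (tn (tn (tn (tn (tn (tl [(73, .negSucc 2), (74, .negSucc 0)]) te) te) te) (tn (tn (tn (tl [(75, .negSucc 2)]) te) te) te)) te)))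

def r56 : Tr SV := (tn (tn (tn (tn (tn (tn (tn (tl [(69, .negSucc 0)]) te) te) te) te) te) te) te)

def r57 : Tr SV := (tn (tn (tn (tn (tn (tn (tn (tl [(68, .ofNat 2), (69, .negSucc 1)]) te) te) te) te) te) te) te)

def r58 : Tr SV := (tn (tn (tn (tn (tn (tn (tn (tl [(68, .negSucc 1), (71, .ofNat 1)]) te) te) te) te) te) te) te)

def r59 : Tr SV := (tn (tn (tn (tn (tn (tn (tn (tl [(68, .negSucc 1), (69, .ofNat 3), (70, .ofNat 1)]) te) te) te) te) te) (tn (tn (tn (tn (tn (tl [(73, .negSucc 2)]) te) te) te) te) (tn (tn (tn (tn (tl [(75, .negSucc 2)]) te) te) te) te))) (tn te (tn te (tn (tn (tn (tn (tl [(75, .negSucc 2)]) te) te) te) te))))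

def r60 : Tr SV := (tn (tn (tn (tn (tn (tn (tn (tl [(68, .negSucc 3), (69, .ofNat 6), (70, .ofNat 1), (71, .ofNat 2)]) te) te) te) te) te) (tn (tn (tn (tn (tn (tl [(73, .ofNat 3)]) te) te) te) te) (tn (tn (tn (tn (tl [(75, .negSucc 2)]) te) te) te) te))) (tn te (tn te (tn (tn (tn (tn (tl [(75, .ofNat 3)]) te) te) te) te))))

def r61 : Tr SV := (tn (tn (tn (tn (tn (tn (tn (tl [(70, .negSucc 1), (71, .negSucc 0)]) te) te) te) te) te) (tn (tn (tn (tn (tn (tl [(73, .ofNat 6)]) te) te) te) te) (tn (tn (tn (tn (tl [(75, .ofNat 6)]) te) te) te) te))) (tn te (tn te (tn (tn (tn (tn (tl [(75, .ofNat 6)]) te) te) te) te))))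

def r62 : Tr SV := (tn te (tn (tn (tn (tn (tn (tn (tl [(72, .ofNat 1)]) te) te) te) te) (tn (tn (tn (tn (tl [(75, .ofNat 1)]) te) te) te) te)) te))

def r63 : Tr SV := (tn (tn (tn (tn (tn (tn (tn (tl [(72, .ofNat 1)]) te) te) te) te) (tn (tn (tn (tn (tl [(75, .ofNat 1)]) te) te) te) te)) te) (tn (tn (tn (tn (tn (tn (tl [(73, .negSucc 1)]) te) te) te) te) te) (tn (tn (tn (tn (tn (tl [(75, .negSucc 1)]) te) te) te) te) te)))

def r64 : Tr SV := (tn te (tn (tn (tn (tn (tn (tn (tl [(73, .ofNat 1)]) te) te) te) te) te) (tn (tn (tn (tn (tn (tl [(75, .ofNat 1)]) te) te) te) te) te)))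

def r65 : Tr SV := (tn (tn (tn te (tn (tn (tn (tn (tl [(75, .ofNat 1)]) te) te) te) te)) te) (tn (tn (tn (tn (tn (tn (tl [(73, .negSucc 0)]) te) te) te) te) te) (tn (tn (tn (tn (tn (tl [(75, .negSucc 1)]) te) te) te) te) te)))

def r66 : Tr SV := (tn (tn (tn (tn (tn (tn (tn (tl [(72, .ofNat 2)]) te) te) te) te) (tn (tn (tn (tn (tl [(75, .ofNat 1)]) te) te) te) te)) te) (tn (tn (tn (tn (tn (tn (tl [(73, .negSucc 2), (74, .ofNat 1)]) te) te) te) te) te) (tn (tn (tn (tn (tn (tl [(75, .negSucc 0)]) te) te) te) te) te)))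

def r67 : Tr SV := (tn (tn (tn (tn (tn (tn (tn (tl [(72, .negSucc 0)]) te) te) te) te) (tn (tn (tn (tn (tl [(75, .negSucc 0)]) te) te) te) te)) te) (tn (tn (tn (tn (tn (tn (tl [(73, .ofNat 2)]) te) te) te) te) te) (tn (tn (tn (tn (tn (tl [(75, .ofNat 2)]) te) te) te) te) te)))

def r68 : Tr SV := (tn (tn (tn (tn (tn (tn (tn (tl [(73, .ofNat 1)]) te) te) te) te) te) te) te)

def r69 : Tr SV := (tn (tn (tn (tn (tn (tn (tn (tl [(73, .ofNat 2), (74, .negSucc 0)]) te) te) te) te) te) te) te)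

def r70 : Tr SV := (tn (tn (tn (tn (tn (tn (tn (tl [(73, .negSucc 6), (74, .ofNat 1)]) te) te) te) te) te) (tn (tn (tn (tn (tn (tl [(75, .negSucc 2)]) te) te) te) te) te)) te)

def r71 : Tr SV := (tn (tn (tn (tn (tn (tn (tn (tl [(73, .negSucc 1), (74, .ofNat 1)]) te) te) te) te) te) te) te)

def r72 : Tr SV := (tn te (tn (tn (tn (tn (tn (tn (tl [(75, .ofNat 1)]) te) te) te) te) te) te))

def r73 : Tr SV := (tn (tn (tn (tn (tn (tn (tn (tl [(75, .ofNat 1)]) te) te) te) te) te) te) te)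

def r74 : Tr SV := (tn (tn (tn (tn (tn (tn (tn (tl [(75, .ofNat 1)]) te) te) te) te) te) te) te)

def tab : Tr (Tr SV) := (tn (tn (tn (tn (tn (tn (tn (tl r0) (tl r64)) (tn (tl r32) te)) (tn (tn (tl r16) te) (tn (tl r48) te))) (tn (tn (tn (tl r8) (tl r72)) (tn (tl r40) te)) (tn (tn (tl r24) te) (tn (tl r56) te)))) (tn (tn (tn (tn (tl r4) (tl r68)) (tn (tl r36) te)) (tn (tn (tl r20) te) (tn (tl r52) te))) (tn (tn (tn (tl r12) te) (tn (tl r44) te)) (tn (tn (tl r28) te) (tn (tl r60) te))))) (tn (tn (tn (tn (tn (tl r2) (tl r66)) (tn (tl r34) te)) (tn (tn (tl r18) te) (tn (tl r50) te))) (tn (tn (tn (tl r10) (tl r74)) (tn (tl r42) te)) (tn (tn (tl r26) te) (tn (tl r58) te)))) (tn (tn (tn (tn (tl r6) (tl r70)) (tn (tl r38) te)) (tn (tn (tl r22) te) (tn (tl r54) te))) (tn (tn (tn (tl r14) te) (tn (tl r46) te)) (tn (tn (tl r30) te) (tn (tl r62) te)))))) (tn (tn (tn (tn (tn (tn (tl r1)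 (tl r65)) (tn (tl r33) te)) (tn (tn (tl r17) te) (tn (tl r49) te))) (tn (tn (tn (tl r9) (tl r73)) (tn (tl r41) te)) (tn (tn (tl r25) te) (tn (tl r57) te)))) (tn (tn (tn (tn (tl r5) (tl r69)) (tn (tl r37) te)) (tn (tn (tl r21) te) (tn (tl r53) te))) (tn (tn (tn (tl r13) te) (tn (tl r45) te)) (tn (tn (tl r29) te) (tn (tl r61) te))))) (tn (tn (tn (tn (tn (tl r3) (tl r67)) (tn (tl r35) te)) (tn (tn (tl r19) te) (tn (tl r51) te))) (tn (tn (tn (tl r11) te) (tn (tl r43) te)) (tn (tn (tl r27) te) (tn (tl r59) te)))) (tn (tn (tn (tn (tl r7) (tl r71)) (tn (tl r39) te)) (tn (tn (tl r23) te) (tn (tl r55) te))) (tn (tn (tn (tl r15) te) (tn (tl r47) te)) (tn (tn (tl r31) te) (tn (tl r63) te)))))))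

def bas : List (ℕ × ℕ × ℕ) := [(0, 0, 1), (1, 1, 0), (2, 0, 2), (3, 1, 1), (4, 1, 1), (5, 2, 0), (6, 0, 3), (7, 0, 3), (8, 1, 2), (9, 1, 2), (10, 1, 2), (11, 1, 2), (12, 2, 1), (13, 2, 1), (14, 2, 1), (15, 3, 0), (16, 0, 4), (17, 0, 4), (18, 1, 3), (19, 1, 3), (20, 1, 3), (21, 1, 3), (22, 1, 3), (23, 1, 3), (24, 1, 3), (25, 2, 2), (26, 2, 2), (27, 2, 2), (28, 2, 2), (29, 2, 2), (30, 2, 2), (31, 2, 2), (32, 2, 2), (33, 3, 1), (34, 3, 1), (35, 3, 1), (36, 0, 5), (37, 1, 4), (38, 1, 4), (39, 1, 4), (40, 1, 4), (41, 1, 4), (42, 1, 4), (43, 2, 3), (44, 2, 3), (45, 2, 3), (46, 2, 3), (47, 2, 3), (48, 2, 3), (49, 2, 3), (50, 2, 3), (51, 2, 3), (52, 2, 3), (53, 2, 3), (54, 2, 3), (55, 2, 3), (56, 3, 2), (57, 3, 2), (58, 3, 2), (59, 3, 2), (60, 3, 2), (61, 3, 2), (62, 1, 5), (63, 2, 4), (64, 2, 4), (65, 2, 4), (66, 2, 4), (67, 2, 4), (68, 3, 3), (69, 3, 3), (70, 3, 3), (71, 3, 3), (72,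 2, 5), (73, 3, 4), (74, 3, 4), (75, 3, 5)]

def mdl : Model where
  n := 76
  S i j := Tr.get [] (Tr.get te tab i) j
  basis := bas
  X := 3
  U := 5
  B := 131072
  C := 176

end Pool.Agent.J6H41.Sep.D76
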