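import Pool.Agent.J6H41.Sep.Calc

/-!
Consequences of the cocycle identity.
-/

namespace Pool.Agent.J6H41.Sep

variable {A : Type*} [NonUnitalNonAssocRing A]

/-- nuclear elements (left nucleus, which is the nucleus of an alternative ring) -/
def Nuc (n : A) : Prop := ∀ p q : A, asr n p q = 0

variable [IsAlt A]

theorem Nuc.mid {n : A} (h : Nuc n) (p q : A) : asr p n q = 0 := by
  rw [s12 n p q, h p q, neg_zero]
theorem Nuc.right {n : A} (h : Nuc n) (p q : A) : asr p q n = 0 := by
  rw [cyc n p q]; exact h p q

theorem Nuc.add {m n : A} (hm : Nuc m) (hn : Nuc n) : Nuc (m + n) := fun p q => by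
  rw [asr_add_left, hm, hn, add_zero]
theorem Nuc.sub {m n : A} (hm : Nuc m) (hn : Nuc n) : Nuc (m - n) := fun p q => by
  rw [asr_sub_left, hm, hn, sub_zero]
theorem Nuc.neg {m : A} (hm : Nuc m) : Nuc (-m) := fun p q => by
  rw [asr_neg_left, hm, neg_zero]
omit [IsAlt A] in
theorem Nuc.zero : Nuc (0 : A) := fun p q => asr_zero_left p q

/-- `(na,b,c) = n(a,b,c)` -/
theorem Nuc.mul_left {n : A} (h : Nuc n) (a b c : A) : asr (n * a) b c = n * asr a b c := by
  have t := teich n a b c
  rw [h, h, h] at t
  simp only [zero_mul] at t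
  linear_combination (norm := abel) t

/-- `(an,b,c) = n(a,b,c)` -/
theorem Nuc.mul_right {n : A} (h : Nuc n) (a b c : A) : asr (a * n) b c = n * asr a b c := by
  have t := teich a n b c
  have h1 : asr a (n * b) c = n * asr a b c := by
    rw [s12 (n * b) a c, h.mul_left, s12 a b c]; simp
  rw [h1, h.mid, h.mid, h] at t
  simp only [zero_mul, mul_zero] at t
  linear_combination (norm := abel) t

/-- nuclear elements commute with associators -/
theorem Nuc.comm {n : A} (h : Nuc n) (a b c : A) : asr a b c * n = n * asr a b c := by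
  have t := teich a b c n
  have h1 : asr a b (c * n) = n * asr a b c := by
    rw [← cyc' a b (c * n), h.mul_right, cyc' a b c]
  rw [h1, h.right, h.right, h.right] at t
  simp only [mul_zero] at t
  linear_combination (norm := abel) - t

theorem Nuc.X_nuc {n : A} (h : Nuc n) (a : A) : Nuc (n * a - a * n) := fun p q => by
  rw [asr_sub_left, h.mul_left, h.mul_right, sub_self]

theorem lam_Nuc (x a b : A) : Nuc (lam x a b) := fun p q => lam_nuc x a b p q

/-- pentagon: `λ((a,b,c),d) + λ(a,(b,c,d)) = 0` -/
theorem lam_penta (x a b c d : A) : lam x (asr a b c) d + lam x a (asr b c d) = 0 := by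
  have c1 := lam_cocycle x (a * b) c d
  have c2 := lam_cocycle x a (b * c) d
  have c3 := lam_cocycle x a b (c * d)
  have c4 := congrArg (fun t => a * t) (lam_cocycle x b c d)
  have c5 := congrArg (fun t => t * d) (lam_cocycle x a b c)
  have n1 := (lam_Nuc x c d).right a b
  have n2 := (lam_Nuc x a b) c d
  have n3 := (lam_Nuc x b c).mid a d
  have l1 : lam x (asr a b c) d = lam x ((a * b) * c) d - lam x (a * (b * c)) d := by
    simp only [asr, lam, pi', X_sub, st_sub_left, sub_mul, X_add]; abel
  have l2 : lam x a (asr b c d) = lam x a ((b * c) * d) - lam x a (b * (c * d)) := by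
    simp only [asr, lam, pi', X_sub, st_sub_right, mul_sub, X_add]; abel
  simp only [asr] at n1 n2 n3
  simp only [mul_sub, mul_add, sub_mul, add_mul, mul_zero, zero_mul] at c4 c5
  rw [l1, l2]
  linear_combination (norm := abel) -c1 + c2 - c3 + c4 + c5 + n1 + n2 - n3

omit [IsAlt A] in
theorem lam_neg_left (x a b : A) : lam x (-a) b = - lam x a b := by
  simp only [lam, pi', X_neg, st_neg_left, neg_mul, X_add]; abel
omit [IsAlt A] in
theorem lam_neg_right (x a b : A) : lam x a (-b) = - lam x a b := by
  simp only [lam, pi', X_neg, st_neg_right, mul_neg, X_add]; abel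

/-- `λ(w,d) = λ(d,w)` for an associator `w` -/
theorem lam_symm (x a b c d : A) : lam x (asr a b c) d = lam x d (asr a b c) := by
  have ph : ∀ a b c d : A, lam x (asr a b c) d = - lam x a (asr b c d) := fun a b c d => by
    linear_combination (norm := abel) lam_penta x a b c d
  -- `λ(d,(a,b,c)) = - λ((d,a,b),c) = -λ((a,b,d),c) = λ(a,(b,d,c)) = -λ(a,(b,c,d)) = λ((a,b,c),d)`
  have e1 : lam x (asr d a b) c = - lam x d (asr a b c) := ph d a b c
  have e2 : asr d a b = asr a b d := cyc' a b d
  have e3 : lam x (asr a b d) c = - lam x a (asr b d c) := ph a b d c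
  have e4 : asr b d c = - asr b c d := s23 b c d
  have e5 := ph a b c d
  rw [e2, e3, e4, lam_neg_right] at e1
  rw [e5]
  linear_combination (norm := abel) - e1

/-- `G(b,c,a,q,r) = λ(b,c)(a,q,r)` -/
def G (x b c a q r : A) : A := lam x b c * asr a q r

theorem G_cyc (x a b c q r : A) : G x b c a q r = G x a b c q r := by
  have h := lam_cocycle x a b c
  have h1 : Nuc (a * lam x b c - lam x a b * c) := by
    have e : a * lam x b c - lam x a b * c = lam x (a * b) c - lam x a (b * c) := by
      linear_combination (norm := abel) h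
    rw [e]; exact (lam_Nuc _ _ _).sub (lam_Nuc _ _ _)
  have h2 := h1 q r
  rw [asr_sub_left, (lam_Nuc x b c).mul_right, (lam_Nuc x a b).mul_left] at h2
  rw [G, G]
  linear_combination (norm := abel) h2

theorem G34 (x b c a q r : A) : G x b c q a r = - G x b c a q r := by
  rw [G, G, s12 a q r, mul_neg]
theorem G45 (x b c a q r : A) : G x b c a r q = - G x b c a q r := by
  rw [G, G, s23 a q r, mul_neg]

/-- swapping the first two arguments -/
theorem G12 (x b c a q r : A) : G x c b a q r = - G x b c a q r := by
  -- G(c,b,a,q,r) = G(a,c,b,q,r) = -G(a,c,q,b,r) 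
  -- cyc: G b c a = G a b c
  -- c b a -> (cycle) a c b -> (34) a c q b -> (cycle inverse on a c q): c q a
  have e1 : G x c b a q r = G x a c b q r := G_cyc x a c b q r
  have e2 : G x a c b q r = - G x a c q b r := G34 x a c q b r
  have e3 : G x a c q b r = G x q a c b r := (G_cyc x q a c b r)
  have e4 : G x q a c b r = G x c q a b r := (G_cyc x c q a b r)
  have e5 : G x c q a b r = - G x c q b a r := G34 x c q b a r
  have e6 : G x c q b a r = G x b c q a r := (G_cyc x b c q a r)
  have e7 : G x b c q a r = - G x b c a q r := G34 x b c a q r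
  rw [e1, e2, e3, e4, e5, e6, e7]; simp

/-- swapping the second and third arguments -/
theorem G23 (x b c a q r : A) : G x b a c q r = - G x b c a q r := by
  have e1 : G x b a c q r = G x c b a q r := G_cyc x c b a q r
  rw [e1, G12]

theorem lam_add_left (x a a' b : A) : lam x (a + a') b = lam x a b + lam x a' b := by
  simp only [lam, pi', X_add, st_add_left, add_mul]; abel

/-- `2 λ(w,z)(y,q,r) = 0` for an associator `w` -/
theorem two_G_asr (x a b c z y q r : A) :
    G x (asr a b c) z y q r + G x (asr a b c) z y q r = 0 := by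
  have h1 : G x (asr a b c) z y q r = G x z (asr a b c) y q r := by
    rw [G, G, lam_symm]
  have h2 := G12 x (asr a b c) z y q r
  linear_combination (norm := abel) h1 + h2

/-- `2 λ(z,y)(w,q,r) = 0` for an associator `w` -/
theorem two_G_asr3 (x a b c z y q r : A) :
    G x z y (asr a b c) q r + G x z y (asr a b c) q r = 0 := by
  have h1 : G x z y (asr a b c) q r = G x (asr a b c) z y q r := G_cyc x (asr a b c) z y q r
  rw [h1]; exact two_G_asr x a b c z y q r

/-- `2 λ(z,y)(a,b,c)` is nuclear -/
theorem two_G_nuc (x z y a b c : A) : Nuc (G x z y a b c + G x z y a b c) := fun p q => by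
  have h := two_G_asr3 x a b c z y p q
  have e : asr (G x z y a b c) p q = G x z y (asr a b c) p q := by
    rw [G, (lam_Nuc x z y).mul_left, G]
  rw [asr_add_left, e]; exact h

/-- `K(y,z;p,q,r;s,t,u) = (λ(y,z)(p,q,r))(s,t,u)` -/
def KK (x y z p q r s t u : A) : A := G x y z p q r * asr s t u

/-- twice `KK` -/
def K2 (x y z p q r s t u : A) : A := KK x y z p q r s t u + KK x y z p q r s t u

theorem K2_comm (x y z p q r s t u : A) : K2 x y z s t u p q r = K2 x y z p q r s t u := by
  have h1 := (two_G_nuc x y z p q r).comm s t u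
  have h2 := (lam_Nuc x y z).comm s t u
  have h3 := (lam_Nuc x y z).mid (asr s t u) (asr p q r)
  unfold asr at h3
  rw [sub_eq_zero] at h3
  simp only [K2, KK, G, mul_add, add_mul] at h1 ⊢
  unfold asr at h1 h2 ⊢
  rw [← h3, h2] at h1
  exact h1

theorem K2_12 (x y z p q r s t u : A) : K2 x z y p q r s t u = - K2 x y z p q r s t u := by
  simp only [K2, KK, G12 x y z p q r, neg_mul]; abel
theorem K2_23 (x y z p q r s t u : A) : K2 x y p z q r s t u = - K2 x y z p q r s t u := by
  simp only [K2, KK, G23 x y z p q r, neg_mul]; abel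
theorem K2_34 (x y z p q r s t u : A) : K2 x y z q p r s t u = - K2 x y z p q r s t u := by
  simp only [K2, KK, G34 x y z p q r, neg_mul]; abel
theorem K2_45 (x y z p q r s t u : A) : K2 x y z p r q s t u = - K2 x y z p q r s t u := by
  simp only [K2, KK, G45 x y z p q r, neg_mul]; abel
theorem K2_67 (x y z p q r s t u : A) : K2 x y z p q r t s u = - K2 x y z p q r s t u := by
  rw [K2_comm x y z t s u p q r, K2_34 x y z s t u p q r, K2_comm x y z p q r s t u]
theorem K2_78 (x y z p q r s t u : A) : K2 x y z p q r s u t = - K2 x y z p q r s t u := by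
  rw [K2_comm x y z s u t p q r, K2_45 x y z s t u p q r, K2_comm x y z p q r s t u]
theorem K2_26 (x y z p q r s t u : A) : K2 x y s p q r z t u = - K2 x y z p q r s t u := by
  rw [K2_comm x y s z t u p q r, K2_23 x y z s t u p q r, K2_comm x y z p q r s t u]
theorem K2_36 (x y z p q r s t u : A) : K2 x y z s q r p t u = - K2 x y z p q r s t u := by
  -- `(z p)(z s)(z p)`
  rw [K2_23 x y s z q r p t u, K2_26 x y p z q r s t u, K2_23 x y z p q r s t u]; simp
theorem K2_47 (x y z p q r s t u : A) : K2 x y z p t r s q u = - K2 x y z p q r s t u := by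
  rw [K2_34 x y z t p r s q u, K2_67 x y z t p r q s u, K2_36 x y z q p r t s u,
    K2_34 x y z p q r t s u, K2_67 x y z p q r s t u]; simp
theorem K2_58 (x y z p q r s t u : A) : K2 x y z p q u s t r = - K2 x y z p q r s t u := by
  rw [K2_45 x y z p u q s t r, K2_78 x y z p u q s r t, K2_47 x y z p r q s u t,
    K2_45 x y z p q r s u t, K2_78 x y z p q r s t u]; simp

theorem K2_swap (x y z p q r s t u : A) : K2 x y z s t u p q r = - K2 x y z p q r s t u := by
  rw [K2_36 x y z p t u s q r, K2_47 x y z p q u s t r, K2_58 x y z p q r s t u]; simp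

theorem two_K2 (x y z p q r s t u : A) :
    K2 x y z p q r s t u + K2 x y z p q r s t u = 0 := by
  have h1 := K2_comm x y z p q r s t u
  have h2 := K2_swap x y z p q r s t u
  linear_combination (norm := abel) h1.symm + h2

end Pool.Agent.J6H41.Sep
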