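import Pool.Agent.J6H41.Sep.Super
import Pool.Agent.J6H41.Sep.Main

/-!
The Grassmann envelope of an algebra given by structure constants.
-/

namespace Pool.Agent.J6H41.Sep

open Finset

variable {n : ℕ} (c : Fin n → Fin n → Fin n → ℤ) (p : Fin n → Bool)

/-- structure constants of the associator -/
def ac (i j k l : Fin n) : ℤ := ∑ m, (c i j m * c m k l - c j k m * c i m l)

/-- sign rule -/
def sn (a b : Bool) : ℤ := if a && b then -1 else 1

/-- the conditions on the structure constants, over a ring where `m = 0` -/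
structure Good (m : ℤ) : Prop where
  par : ∀ i j k, c i j k ≠ 0 → p k = xor (p i) (p j)
  left : ∀ i j k l, m ∣ ac c i j k l + sn (p i) (p j) * ac c j i k l
  left' : ∀ i k l, p i = false → m ∣ ac c i i k l
  right : ∀ i j k l, m ∣ ac c i j k l + sn (p j) (p k) * ac c i k j l
  right' : ∀ i j l, p j = false → m ∣ ac c i j j l

variable (G : Type*) [SRing G]

/-- homogeneous functions -/
def envSub : AddSubgroup (Fin n → G) where
  carrier := {f | ∀ i, SRing.hom (p i) (f i)}
  zero_mem' i := SRing.hom_zero _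
  add_mem' h h' i := SRing.hom_add (h i) (h' i)
  neg_mem' h i := SRing.hom_neg (h i)

variable {G}

theorem hom_sum {ι : Type*} (s : Finset ι) (f : ι → G) (q : Bool) (h : ∀ i ∈ s, SRing.hom q (f i)) :
    SRing.hom q (∑ i ∈ s, f i) := by
  classical
  induction s using Finset.induction_on with
  | empty => simpa using SRing.hom_zero q
  | insert a s ha ih =>
    rw [Finset.sum_insert ha]
    exact SRing.hom_add (h a (Finset.mem_insert_self _ _))
      (ih (fun i hi => h i (Finset.mem_insert_of_mem hi)))

theorem hom_zsmul {q : Bool} {a : G} (z : ℤ) (h : SRing.hom q a) : SRing.hom q (z • a) := by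
  have key : ∀ k : ℕ, SRing.hom q (k • a) := fun k => by
    induction k with
    | zero => simpa using SRing.hom_zero q
    | succ k ih => rw [succ_nsmul]; exact SRing.hom_add ih h
  cases z with
  | ofNat k => simpa using key k
  | negSucc k => rw [negSucc_zsmul]; exact SRing.hom_neg (key _)

/-- the product -/
def emul (f g : Fin n → G) : Fin n → G := fun k => ∑ i, ∑ j, c i j k • (f i * g j)

theorem emul_add (f g h : Fin n → G) : emul c f (g + h) = emul c f g + emul c f h := by
  funext k; simp [emul, mul_add, Finset.sum_add_distrib]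
theorem add_emul (f g h : Fin n → G) : emul c (f + g) h = emul c f h + emul c g h := by
  funext k; simp [emul, add_mul, Finset.sum_add_distrib]
theorem emul_zero (f : Fin n → G) : emul c f 0 = 0 := by
  funext k; simp [emul]
theorem zero_emul (f : Fin n → G) : emul c 0 f = 0 := by
  funext k; simp [emul]

theorem emul_emul_left (f g h : Fin n → G) (l : Fin n) : emul c (emul c f g) h l =
    ∑ i, ∑ j, ∑ k, (∑ m, c i j m * c m k l) • (f i * g j * h k) := by
  simp only [emul, Finset.sum_mul, Finset.smul_sum, smul_mul_assoc, smul_smul, Finset.sum_smul]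
  -- lhs: ∑ m, ∑ k, ∑ i, ∑ j ; rhs : ∑ i, ∑ j, ∑ k, ∑ m
  have h1 : ∀ m : Fin n, (∑ k, ∑ i, ∑ j, (c m k l * c i j m) • (f i * g j * h k)) =
      ∑ i, ∑ j, ∑ k, (c m k l * c i j m) • (f i * g j * h k) := by
    intro m
    rw [Finset.sum_comm]
    refine Finset.sum_congr rfl fun i _ => ?_
    rw [Finset.sum_comm]
  rw [Finset.sum_congr rfl fun m _ => h1 m, Finset.sum_comm]
  refine Finset.sum_congr rfl fun i _ => ?_
  rw [Finset.sum_comm]
  refine Finset.sum_congr rfl fun j _ => ?_
  rw [Finset.sum_comm]
  refine Finset.sum_congr rfl fun k _ => Finset.sum_congr rfl fun m _ => ?_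
  rw [mul_comm]

theorem emul_emul_right (f g h : Fin n → G) (l : Fin n) : emul c f (emul c g h) l =
    ∑ i, ∑ j, ∑ k, (∑ m, c j k m * c i m l) • (f i * g j * h k) := by
  simp only [emul, Finset.mul_sum, Finset.smul_sum, mul_smul_comm, smul_smul, Finset.sum_smul,
    ← mul_assoc]
  refine Finset.sum_congr rfl fun i _ => ?_
  -- lhs: ∑ m, ∑ j, ∑ k ; rhs : ∑ j, ∑ k, ∑ m
  rw [Finset.sum_comm]
  refine Finset.sum_congr rfl fun j _ => ?_
  rw [Finset.sum_comm]
  refine Finset.sum_congr rfl fun k _ => Finset.sum_congr rfl fun m _ => ?_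
  rw [mul_comm]

theorem emul_assoc (f g h : Fin n → G) (l : Fin n) :
    emul c (emul c f g) h l - emul c f (emul c g h) l =
      ∑ i, ∑ j, ∑ k, ac c i j k l • (f i * g j * h k) := by
  rw [emul_emul_left, emul_emul_right, ← Finset.sum_sub_distrib]
  refine Finset.sum_congr rfl fun i _ => ?_
  rw [← Finset.sum_sub_distrib]
  refine Finset.sum_congr rfl fun j _ => ?_
  rw [← Finset.sum_sub_distrib]
  refine Finset.sum_congr rfl fun k _ => ?_
  rw [← sub_smul, ac, Finset.sum_sub_distrib]

/-- an antisymmetric double sum vanishes -/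
theorem sum_anti {M : Type*} [AddCommGroup M] (T : Fin n → Fin n → M)
    (h : ∀ i j, T i j + T j i = 0) (h' : ∀ i, T i i = 0) : ∑ i, ∑ j, T i j = 0 := by
  rw [← Fintype.sum_prod_type']
  refine Finset.sum_involution (fun q _ => (q.2, q.1)) ?_ ?_ ?_ ?_
  · rintro ⟨i, j⟩ _; exact h i j
  · rintro ⟨i, j⟩ _ hne heq
    simp only [Prod.mk.injEq] at heq
    obtain ⟨rfl, _⟩ := heq
    exact hne (h' _)
  · intro a _; exact Finset.mem_univ _
  · rintro ⟨i, j⟩ _; rfl

theorem swap_hom {a b : Bool} {x y : G} (hx : SRing.hom a x) (hy : SRing.hom b y) :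
    y * x = sn a b • (x * y) := by
  cases a
  · simpa [sn] using SRing.comm_even hx hy
  · cases b
    · simpa [sn] using (SRing.comm_even hy hx).symm
    · simpa [sn] using SRing.comm_odd hx hy

variable {c p}

theorem dvd_smul {m z : ℤ} (hm : (m : G) = 0) (h : m ∣ z) (g : G) : z • g = 0 := by
  obtain ⟨t, rfl⟩ := h
  rw [zsmul_eq_mul, Int.cast_mul, hm]; simp

theorem left_alt {m : ℤ} (H : Good c p m) (hm : (m : G) = 0) (f h : Fin n → G)
    (hf : ∀ i, SRing.hom (p i) (f i)) (l : Fin n) :
    emul c (emul c f f) h l - emul c f (emul c f h) l = 0 := by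
  rw [emul_assoc]
  refine sum_anti _ ?_ ?_
  · intro i j
    rw [← Finset.sum_add_distrib]
    refine Finset.sum_eq_zero fun k _ => ?_
    rw [swap_hom (hf i) (hf j), smul_mul_assoc, smul_smul, ← add_smul]
    refine dvd_smul hm ?_ _
    rw [mul_comm (ac c j i k l)]
    exact H.left i j k l
  · intro i
    refine Finset.sum_eq_zero fun k _ => ?_
    cases hp : p i
    · exact dvd_smul hm (H.left' i k l hp) _
    · have := hf i
      rw [hp] at this
      rw [SRing.sq_odd this]; simp

theorem right_alt {m : ℤ} (H : Good c p m) (hm : (m : G) = 0) (f h : Fin n → G)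
    (hf : ∀ i, SRing.hom (p i) (f i)) (l : Fin n) :
    emul c (emul c h f) f l - emul c h (emul c f f) l = 0 := by
  rw [emul_assoc]
  refine Finset.sum_eq_zero fun i _ => ?_
  refine sum_anti _ ?_ ?_
  · intro j k
    rw [mul_assoc (h i) (f k) (f j), swap_hom (hf j) (hf k), mul_smul_comm, smul_smul,
      ← mul_assoc, ← add_smul]
    refine dvd_smul hm ?_ _
    rw [mul_comm (ac c i k j l)]
    exact H.right i j k l
  · intro j
    cases hp : p j
    · exact dvd_smul hm (H.right' i j l hp) _
    · have := hf j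
      rw [hp] at this
      rw [mul_assoc, SRing.sq_odd this]; simp

variable (G)

/-- the envelope -/
def Env {m : ℤ} (_ : Good c p m) : Type _ := envSub p G

variable {m : ℤ} (H : Good c p m)

instance : AddCommGroup (Env G H) := inferInstanceAs (AddCommGroup (envSub p G))

theorem emul_mem (H : Good c p m) {f g : Fin n → G} (hf : f ∈ envSub p G) (hg : g ∈ envSub p G) :
    emul c f g ∈ envSub p G := by
  intro k
  refine hom_sum _ _ _ fun i _ => hom_sum _ _ _ fun j _ => ?_
  by_cases h : c i j k = 0
  · rw [h]; simpa using SRing.hom_zero _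
  · rw [H.par i j k h]
    exact hom_zsmul _ (SRing.hom_mul (hf i) (hg j))

instance : NonUnitalNonAssocRing (Env G H) where
  mul f g := ⟨emul c f.1 g.1, emul_mem G H f.2 g.2⟩
  left_distrib f g h := Subtype.ext (emul_add c f.1 g.1 h.1)
  right_distrib f g h := Subtype.ext (add_emul c f.1 g.1 h.1)
  zero_mul f := Subtype.ext (zero_emul c f.1)
  mul_zero f := Subtype.ext (emul_zero c f.1)

theorem Env.mul_val (f g : Env G H) : (f * g).1 = emul c f.1 g.1 := rfl

theorem env_alt (hm : (m : G) = 0) : IsAlt (Env G H) where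
  left f g := Subtype.ext (funext fun l => left_alt H hm f.1 g.1 f.2 l)
  right f g := Subtype.ext (funext fun l => right_alt H hm f.1 g.1 f.2 l)

end Pool.Agent.J6H41.Sep
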