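import Pool.Agent.J6H41.Sep.Free

/-!
Nuclear elements annihilating all associators form an ideal.
-/

namespace Pool.Agent.J6H41.Sep

variable {Φ A : Type*} [CommRing Φ] [NonUnitalNonAssocRing A] [IsAlt A] [Module Φ A]
  [IsScalarTower Φ A A] [SMulCommClass Φ A A]

theorem Nuc.inNucleus {n : A} (h : Nuc n) : InNucleus A n := fun a b =>
  ⟨h a b, h.mid a b, h.right a b⟩

omit [IsAlt A] in
theorem asr_smul_left (t : Φ) (a b c : A) : asr (t • a) b c = t • asr a b c := by
  simp only [asr, smul_mul_assoc, smul_sub]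

variable (Φ A) in
/-- nuclear elements which annihilate all associators -/
def kill : Submodule Φ A where
  carrier := {n | Nuc n ∧ ∀ a b c : A, n * asr a b c = 0}
  zero_mem' := ⟨Nuc.zero, fun a b c => zero_mul _⟩
  add_mem' := by
    rintro m n ⟨h1, h2⟩ ⟨h3, h4⟩
    exact ⟨h1.add h3, fun a b c => by rw [add_mul, h2, h4, add_zero]⟩
  smul_mem' := by
    rintro t n ⟨h1, h2⟩
    exact ⟨fun p q => by rw [asr_smul_left, h1, smul_zero],
      fun a b c => by rw [smul_mul_assoc, h2, smul_zero]⟩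

theorem kill_mul_asr {n : A} (h : n ∈ kill Φ A) (a b c d : A) : n * (a * asr b c d) = 0 := by
  obtain ⟨h1, h2⟩ := h
  have t := teich a b c d
  have e1 := congrArg (fun s => n * s) t
  simp only [mul_sub, mul_add, mul_zero, h2] at e1
  have e2 : n * (asr a b c * d) = 0 := by
    have h3 := h1 (asr a b c) d
    unfold asr at h3
    rw [sub_eq_zero] at h3
    rw [asr, ← h3]
    have := h2 a b c
    unfold asr at this
    rw [this, zero_mul]
  rw [e2] at e1
  simpa using e1

theorem kill_isIdeal : IsIdeal Φ A (kill Φ A) := by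
  intro n hn a
  have hn' := hn
  obtain ⟨h1, h2⟩ := hn
  have hann : ∀ b c d : A, (a * n) * asr b c d = 0 := fun b c d => by
    have h3 := h1.mid a (asr b c d)
    unfold asr at h3
    rw [sub_eq_zero] at h3
    have := h2 b c d
    unfold asr at this ⊢
    rw [h3, this, mul_zero]
  have hnan : ∀ b c d : A, (n * a) * asr b c d = 0 := fun b c d => by
    have h3 := h1 a (asr b c d)
    have h4 := kill_mul_asr hn' a b c d
    unfold asr at h3 h4 ⊢
    rw [sub_eq_zero] at h3
    rw [h3, h4]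
  refine ⟨⟨fun p q => ?_, hann⟩, ⟨fun p q => ?_, hnan⟩⟩
  · rw [h1.mul_right, h2]
  · rw [h1.mul_left, h2]

theorem kill_le : kill Φ A ≤ nuclearIdeal Φ A :=
  le_sSup ⟨kill_isIdeal, fun _ hn => hn.1.inNucleus⟩

omit [IsAlt A] [IsScalarTower Φ A A] [SMulCommClass Φ A A] in
theorem mul_asr_mem (n a b c : A) : n * asr a b c ∈ assocIdeal Φ A := by
  rw [assocIdeal, Submodule.mem_sInf]
  rintro I ⟨h1, h2⟩
  exact (h1 _ (h2 a b c) n).1

/-- `4 λ(y,z)(a,b,c)` -/
def G4 (x y z a b c : A) : A :=
  (G x y z a b c + G x y z a b c) + (G x y z a b c + G x y z a b c)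

theorem G4_kill (x y z a b c : A) : G4 x y z a b c ∈ kill Φ A := by
  refine ⟨(two_G_nuc x y z a b c).add (two_G_nuc x y z a b c), fun s t u => ?_⟩
  have h := two_K2 x y z a b c s t u
  simp only [K2, KK] at h
  rw [G4]
  simp only [add_mul]
  exact h

theorem G4_mem (x y z a b c : A) : G4 x y z a b c ∈ assocIdeal Φ A ⊓ nuclearIdeal Φ A := by
  refine ⟨?_, kill_le (G4_kill x y z a b c)⟩
  have h : G x y z a b c ∈ assocIdeal Φ A := mul_asr_mem _ _ _ _
  exact Submodule.add_mem _ (Submodule.add_mem _ h h) (Submodule.add_mem _ h h)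

end Pool.Agent.J6H41.Sep
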