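import Pool.Agent.J6H41.Sep.Table
import Pool.Agent.J6H41.Sep.Ideal

/-!
Evaluation in the envelope of a table.
-/

namespace Pool.Agent.J6H41.Sep

open Finset

/-- an `SRing` with a central even copy of `Φ` -/
class SAlg (Φ : Type*) (G : Type*) [CommRing Φ] [SRing G] where
  ι : Φ →+* G
  even : ∀ t, SRing.hom false (ι t)

section

variable {n : ℕ} {c : Fin n → Fin n → Fin n → ℤ} {p : Fin n → Bool} {m : ℤ}
variable (Φ G : Type*) [CommRing Φ] [SRing G] [SAlg Φ G] (H : Good c p m)

instance : SMul Φ (Env G H) where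
  smul t f := ⟨fun i => SAlg.ι t * f.1 i, fun i => by
    have := SRing.hom_mul (SAlg.even (Φ := Φ) (G := G) t) (f.2 i)
    simpa using this⟩

variable {Φ G}

theorem Env.smul_val (t : Φ) (f : Env G H) (i : Fin n) : (t • f).1 i = SAlg.ι t * f.1 i := rfl
theorem Env.add_val (f g : Env G H) : (f + g).1 = f.1 + g.1 := rfl
theorem Env.sub_val (f g : Env G H) : (f - g).1 = f.1 - g.1 := rfl
theorem Env.zero_val : (0 : Env G H).1 = 0 := rfl

instance : Module Φ (Env G H) where
  one_smul f := Subtype.ext (funext fun i => by rw [Env.smul_val, map_one, one_mul])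
  mul_smul s t f := Subtype.ext (funext fun i => by
    rw [Env.smul_val, map_mul, mul_assoc]; rfl)
  smul_zero t := Subtype.ext (funext fun i => by
    rw [Env.smul_val, Env.zero_val, Pi.zero_apply, mul_zero])
  smul_add t f g := Subtype.ext (funext fun i => by
    rw [Env.smul_val, Env.add_val, Pi.add_apply, mul_add]; rfl)
  add_smul s t f := Subtype.ext (funext fun i => by
    rw [Env.smul_val, map_add, add_mul]; rfl)
  zero_smul f := Subtype.ext (funext fun i => by
    rw [Env.smul_val, map_zero, zero_mul, Env.zero_val]; rfl)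

instance : IsScalarTower Φ (Env G H) (Env G H) where
  smul_assoc t f g := Subtype.ext (funext fun k => by
    change emul c (fun i => SAlg.ι t * f.1 i) g.1 k = SAlg.ι t * emul c f.1 g.1 k
    simp only [emul, Finset.mul_sum, mul_smul_comm, mul_assoc])

instance : SMulCommClass Φ (Env G H) (Env G H) where
  smul_comm t f g := Subtype.ext (funext fun k => by
    change SAlg.ι t * emul c f.1 g.1 k = emul c f.1 (fun i => SAlg.ι t * g.1 i) k
    simp only [emul, Finset.mul_sum, mul_smul_comm]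
    refine Finset.sum_congr rfl fun i _ => Finset.sum_congr rfl fun j _ => ?_
    have h := SRing.comm_even (SAlg.even (Φ := Φ) (G := G) t) (f.2 i)
    rw [← mul_assoc, ← mul_assoc, h])

end

section SDalg

variable {Φ G : Type*} [CommRing Φ] [SRing G] [SAlg Φ G]

instance : SAlg Φ (SD G) where
  ι := SD.inc.comp SAlg.ι
  even t := SD.hom_inc (SAlg.even t)

instance : SAlg Φ (Base Φ) where
  ι := RingHom.id _
  even t h := by cases h

end SDalg

/-- `v ⊗ γ` -/
def tens {G : Type*} [SRing G] (n : ℕ) (L : SV) (γ : G) : Fin n → G := fun i => coef L i • γ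

namespace Model

variable (M : Model)

def vneg (L : SV) : SV := L.map fun t => (t.1, -t.2)

def vm1 (s : ℕ × ℤ) (K : SV) : SV := K.flatMap fun t => (M.S s.1 t.1).map fun r =>
  (r.1, s.2 * t.2 * r.2)

def vmul (L K : SV) : SV := L.flatMap fun s => M.vm1 s K

variable {M}

theorem ev_vneg (f : ℕ → ℤ) (L : SV) : ev f (vneg L) = - ev f L := by
  induction L with
  | nil => rfl
  | cons t L ih => rw [vneg, List.map_cons, ev_cons, ← vneg, ih, ev_cons]; ring

theorem coef_append (L K : SV) (k : ℕ) : coef (L ++ K) k = coef L k + coef K k :=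
  ev_append _ _ _

theorem coef_vneg (L : SV) (k : ℕ) : coef (vneg L) k = - coef L k := ev_vneg _ _

theorem ev_map (f : ℕ → ℤ) (a : ℤ) (L : SV) :
    ev f (L.map fun r => (r.1, a * r.2)) = a * ev f L := by
  induction L with
  | nil => simp [ev]
  | cons t L ih => rw [List.map_cons, ev_cons, ih, ev_cons]; ring

theorem ev_vm1 (f : ℕ → ℤ) (s : ℕ × ℤ) (K : SV) :
    ev f (M.vm1 s K) = s.2 * ev (fun j => ev f (M.S s.1 j)) K := by
  induction K with
  | nil => simp [vm1, ev]
  | cons t K ih =>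
    rw [vm1, List.flatMap_cons, ← vm1, ev_append, ih, ev_map, ev_cons]; ring

theorem ev_vmul (f : ℕ → ℤ) (L K : SV) :
    ev f (M.vmul L K) = ev (fun i => ev (fun j => ev f (M.S i j)) K) L := by
  induction L with
  | nil => simp [vmul, ev]
  | cons t L ih =>
    rw [vmul, List.flatMap_cons, ← vmul, ev_append, ih, ev_vm1, ev_cons]

theorem coef_vmul {L K : SV} (hL : bd M.n L) (hK : bd M.n K) (k : Fin M.n) :
    coef (M.vmul L K) k = ∑ i : Fin M.n, ∑ j : Fin M.n, coef L i * coef K j * M.c i j k := by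
  rw [coef, ev_vmul, ev_eq_sum hL]
  refine Finset.sum_congr rfl fun i _ => ?_
  rw [ev_eq_sum hK, Finset.mul_sum]
  refine Finset.sum_congr rfl fun j _ => ?_
  simp only [c, coef]; ring

theorem tens_mul {G : Type*} [SRing G] {L K : SV} (hL : bd M.n L) (hK : bd M.n K) (γ δ : G) :
    emul M.c (tens M.n L γ) (tens M.n K δ) = tens M.n (M.vmul L K) (γ * δ) := by
  funext k
  rw [tens, coef_vmul hL hK]
  simp only [emul, tens, Finset.sum_smul]
  refine Finset.sum_congr rfl fun i _ => Finset.sum_congr rfl fun j _ => ?_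
  rw [smul_mul_smul_comm, smul_smul]
  congr 1; ring

/-- `f` is `L ⊗ γ` -/
structure Rep {G : Type*} [SRing G] (H : Good M.c M.p 0) (f : Env G H) (L : SV) (γ : G) :
    Prop where
  eq : f.1 = tens M.n L γ
  bd : bd M.n L

section Rep

variable {G : Type*} [SRing G] {H : Good M.c M.p 0} {f g h : Env G H} {L K J : SV} {γ δ ε : G}

theorem bd_append {n : ℕ} {L K : SV} (h1 : Sep.bd n L) (h2 : Sep.bd n K) : Sep.bd n (L ++ K) := by
  intro t ht
  rcases List.mem_append.1 ht with h | h
  · exact h1 t h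
  · exact h2 t h

theorem bd_vneg {n : ℕ} {L : SV} (h1 : Sep.bd n L) : Sep.bd n (vneg L) := by
  intro t ht
  obtain ⟨s, hs, rfl⟩ := List.mem_map.1 ht
  exact h1 s hs

theorem bd_vmul (hM : M.Ok) {L K : SV} (h1 : Sep.bd M.n L) (h2 : Sep.bd M.n K) :
    Sep.bd M.n (M.vmul L K) := by
  intro t ht
  obtain ⟨s, hs, ht⟩ := List.mem_flatMap.1 ht
  obtain ⟨r, hr, ht⟩ := List.mem_flatMap.1 ht
  obtain ⟨q, hq, rfl⟩ := List.mem_map.1 ht
  exact hM.bdS ⟨s.1, h1 s hs⟩ ⟨r.1, h2 r hr⟩ q hq

theorem Rep.mul (hM : M.Ok) (h1 : Rep H f L γ) (h2 : Rep H g K δ) :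
    Rep H (f * g) (M.vmul L K) (γ * δ) where
  eq := by rw [Env.mul_val, h1.eq, h2.eq, tens_mul h1.bd h2.bd]
  bd := bd_vmul hM h1.bd h2.bd

theorem Rep.add (h1 : Rep H f L γ) (h2 : Rep H g K γ) : Rep H (f + g) (L ++ K) γ where
  eq := by
    rw [Env.add_val, h1.eq, h2.eq]
    funext i
    rw [Pi.add_apply, tens, tens, tens, coef_append, add_smul]
  bd := bd_append h1.bd h2.bd

theorem Rep.sub (h1 : Rep H f L γ) (h2 : Rep H g K γ) : Rep H (f - g) (L ++ vneg K) γ where
  eq := by
    rw [Env.sub_val, h1.eq, h2.eq]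
    funext i
    rw [Pi.sub_apply, tens, tens, tens, coef_append, coef_vneg, add_smul, neg_smul,
      sub_eq_add_neg]
  bd := bd_append h1.bd (bd_vneg h2.bd)

theorem Rep.X (hM : M.Ok) (h1 : Rep H f L 1) (h2 : Rep H g K δ) :
    Rep H (Sep.X f g) (M.vmul L K ++ vneg (M.vmul K L)) δ := by
  have e1 := h1.mul hM h2
  have e2 := h2.mul hM h1
  rw [one_mul] at e1
  rw [mul_one] at e2
  exact e1.sub e2

theorem Rep.asr (hM : M.Ok) (h1 : Rep H f L γ) (h2 : Rep H g K δ) (h3 : Rep H h J ε) :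
    Rep H (Sep.asr f g h) (M.vmul (M.vmul L K) J ++ vneg (M.vmul L (M.vmul K J))) (γ * δ * ε) := by
  have e1 := (h1.mul hM h2).mul hM h3
  have e2 := h1.mul hM (h2.mul hM h3)
  rw [← mul_assoc] at e2
  exact e1.sub e2

end Rep

/-- brackets of sparse vectors -/
def vX (L K : SV) : SV := M.vmul L K ++ vneg (M.vmul K L)
def vA (L K J : SV) : SV := M.vmul (M.vmul L K) J ++ vneg (M.vmul L (M.vmul K J))
def vlam (L K J : SV) : SV := M.vX L (M.vmul (M.vX L K) (M.vX L J) ++ M.vX L (M.vA L K J))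
def vG (L K J a b c : SV) : SV := M.vmul (M.vlam L K J) (M.vA a b c)

theorem Rep.G {G : Type*} [SRing G] {H : Good M.c M.p 0} (hM : M.Ok)
    {x y z a b c : Env G H} {L K J a' b' c' : SV} {γ δ ε ζ η : G}
    (hx : Rep H x L 1) (hy : Rep H y K γ) (hz : Rep H z J δ) (ha : Rep H a a' ε)
    (hb : Rep H b b' ζ) (hc : Rep H c c' η) :
    Rep H (Sep.G x y z a b c) (M.vG L K J a' b' c') (γ * δ * (ε * ζ * η)) := by
  have e1 := (hx.X hM hy).mul hM (hx.X hM hz)
  have e2 := hx.X hM (hx.asr hM hy hz)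
  rw [one_mul] at e2
  have e3 := hx.X hM (e1.add e2)
  exact e3.mul hM (ha.asr hM hb hc)

end Model

end Pool.Agent.J6H41.Sep
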