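import Pool.Agent.J6H41.Sep.Char2
import Pool.Agent.J6H41.Sep.Ideal

/-!
`c v` lies in the associator ideal and in the nuclear ideal when `2c = 0`.
-/

namespace Pool.Agent.J6H41.Sep

section

variable {Φ : Type*} (A : Type*) [CommRing Φ] [NonUnitalNonAssocRing A] [Module Φ A]
  [IsScalarTower Φ A A] [SMulCommClass Φ A A]

/-- the congruence `c a = c b` -/
def conC (c : Φ) : RingCon A where
  r a b := c • a = c • b
  iseqv := ⟨fun _ => rfl, fun h => h.symm, fun h1 h2 => h1.trans h2⟩
  mul' := by
    intro a a' b b' h1 h2
    change c • a = c • a' at h1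
    change c • b = c • b' at h2
    rw [← smul_mul_assoc, h1, smul_mul_assoc, ← mul_smul_comm, h2, mul_smul_comm]
  add' := by
    intro a a' b b' h1 h2
    change c • a = c • a' at h1
    change c • b = c • b' at h2
    rw [smul_add, h1, h2, smul_add]

variable {A}

theorem conC_eq (c : Φ) {a b : A} (h : (a : (conC A c).Quotient) = b) : c • a = c • b :=
  (RingCon.eq _).1 h

theorem conC_asr (c : Φ) (a b d : A) :
    ((asr a b d : A) : (conC A c).Quotient) = asr (a : (conC A c).Quotient) b d := by
  simp only [asr, RingCon.coe_sub, RingCon.coe_mul]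

theorem conC_v2 (c : Φ) (x a b d e : A) :
    ((v2 x a b d e : A) : (conC A c).Quotient) =
      v2 (x : (conC A c).Quotient) a b d e := by
  simp only [v2, R2, st, X, conC_asr, RingCon.coe_add, RingCon.coe_mul, RingCon.coe_sub]

instance [IsAlt A] (c : Φ) : IsAlt (conC A c).Quotient where
  left a b := by
    induction a using Quotient.inductionOn' with | _ a
    induction b using Quotient.inductionOn' with | _ b
    have h := conC_asr c a a b
    rw [IsAlt.left, RingCon.coe_zero] at h
    exact h.symm
  right a b := by
    induction a using Quotient.inductionOn' with | _ a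
    induction b using Quotient.inductionOn' with | _ b
    have h := conC_asr c b a a
    rw [IsAlt.right, RingCon.coe_zero] at h
    exact h.symm

theorem conC_two (c : Φ) (hc : c + c = 0) : C2 (conC A c).Quotient where
  two a := by
    induction a using Quotient.inductionOn' with | _ a
    have h : ((a + a : A) : (conC A c).Quotient) = (0 : A) := by
      rw [RingCon.eq]
      change c • (a + a) = c • (0 : A)
      rw [smul_add, ← add_smul, hc, zero_smul, smul_zero]
    rw [RingCon.coe_add, RingCon.coe_zero] at h
    exact h

variable [IsAlt A]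

theorem cv_kill (c : Φ) (hc : c + c = 0) (x a b d e : A) : c • v2 x a b d e ∈ kill Φ A := by
  have := conC_two (A := A) c hc
  refine ⟨fun p q => ?_, fun p q r => ?_⟩
  · rw [asr_smul_left]
    have h := vnuc (x : (conC A c).Quotient) a b d e p q
    rw [← conC_v2, ← conC_asr, ← RingCon.coe_zero] at h
    rw [conC_eq c h, smul_zero]
  · rw [smul_mul_assoc]
    have h := v_asr (x : (conC A c).Quotient) a b d e p q r
    rw [← conC_v2, ← conC_asr, ← RingCon.coe_mul, ← RingCon.coe_zero] at h
    rw [conC_eq c h, smul_zero]

theorem cv_mem (c : Φ) (hc : c + c = 0) (x a b d e : A) :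
    c • v2 x a b d e ∈ assocIdeal Φ A ⊓ nuclearIdeal Φ A := by
  refine ⟨Submodule.smul_mem _ _ ?_, kill_le (cv_kill c hc x a b d e)⟩
  rw [assocIdeal, Submodule.mem_sInf]
  rintro I ⟨-, h2⟩
  exact h2 x (R2 x a b d) e

end

end Pool.Agent.J6H41.Sep
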