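import Pool.Agent.J6H41.Sep.Five
import Pool.Agent.J6H41.Sep.ModC
import Pool.Agent.J6H41.Sep.Data29

/-!
The element of degree seven is not annihilated by scalars.
-/

set_option linter.unusedSimpArgs false

namespace Pool.Agent.J6H41.Sep

open SD

namespace Model

variable {M : Model}

def vR2 (L b c d : SV) : SV := M.vmul (M.vX L b) (M.vA L c d) ++ M.vA L (M.vA L c d) b
def vv2 (L b c d e : SV) : SV := M.vA L (M.vR2 L b c d) e

theorem Rep.v2 {G : Type*} [SRing G] {H : Good M.c M.p 0} (hM : M.Ok)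
    {x b c d e : Env G H} {L b' c' d' e' : SV} {β γ δ ε : G}
    (hγ : SRing.hom true γ) (hδ : SRing.hom true δ) (hβ : SRing.hom true β)
    (hx : Rep H x L 1) (hb : Rep H b b' β) (hc : Rep H c c' γ) (hd : Rep H d d' δ)
    (he : Rep H e e' ε) :
    Rep H (Sep.v2 x b c d e) (M.vv2 L b' c' d' e') (β * (γ * δ) * ε) := by
  have e1 := hx.asr hM hc hd
  rw [one_mul] at e1
  have e2 := (hx.X hM hb).mul hM e1
  have e3 := hx.asr hM e1 hb
  rw [one_mul] at e3
  have hev : SRing.hom false (γ * δ) := SRing.hom_mul hγ hδ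
  rw [← SRing.comm_even hev hβ] at e3
  have e4 := hx.asr hM (e2.add e3) he
  rw [one_mul] at e4
  exact e4

end Model

/-- the Grassmann algebra on four generators over `Φ` -/
abbrev G4g (Φ : Type*) [CommRing Φ] := SD (SD (SD (SD (Base Φ))))

section

variable (Φ : Type*) [CommRing Φ]

def y1 : G4g Φ := inc (inc (inc xi))
def y2 : G4g Φ := inc (inc xi)
def y3 : G4g Φ := inc xi
def y4 : G4g Φ := xi

theorem y1_hom : SRing.hom true (y1 Φ) := hom_inc (hom_inc (hom_inc hom_xi))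
theorem y2_hom : SRing.hom true (y2 Φ) := hom_inc (hom_inc hom_xi)
theorem y3_hom : SRing.hom true (y3 Φ) := hom_inc hom_xi
theorem y4_hom : SRing.hom true (y4 Φ) := hom_xi

theorem top_ne4 {c : Φ} (h : SAlg.ι (Φ := Φ) (G := G4g Φ) c * (y1 Φ * (y2 Φ * y3 Φ) * y4 Φ) = 0) :
    c = 0 := by
  have hι : SAlg.ι (Φ := Φ) (G := G4g Φ) c = inc (inc (inc (inc (G := Base Φ) c))) := rfl
  rw [hι] at h
  have h1 := congrArg (fun t => t.im.im.im.im) h
  simp only [y1, y2, y3, y4, mul_im, mul_re, inc_re, inc_im, xi_re, xi_im, mul_one, mul_zero,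
    zero_mul, add_zero, map_zero, zero_add, map_one, one_re, one_im, zero_im, one_mul] at h1
  exact h1

end

section Hom

variable {Φ A B : Type*} [CommRing Φ] [NonUnitalNonAssocRing A] [NonUnitalNonAssocRing B]
  [Module Φ A] [Module Φ B] (φ : A →ₙₐ[Φ] B)

theorem map_v2 (x a b c d : A) : φ (v2 x a b c d) = v2 (φ x) (φ a) (φ b) (φ c) (φ d) := by
  simp only [v2, R2, st, map_X, map_add, map_mul, map_asr]

end Hom

section Final

variable {M : Model} (hM : M.Ok) (Φ : Type*) [CommRing Φ]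

include hM in
/-- nonvanishing criterion -/
theorem not_sep_two (x u : ℕ) (hx : x < M.n) (hu : u < M.n) (px : M.p ⟨x, hx⟩ = false)
    (pu : M.p ⟨u, hu⟩ = true) (t : ℕ) (ht : t < M.n)
    (hz : coef (M.vv2 [(x, 1)] [(u, 1)] [(u, 1)] [(u, 1)] [(u, 1)]) t = 1)
    (c : Φ) (h2 : c + c = 0) (hne : c ≠ 0) : ¬ Separated Φ (FreeAlt Φ ℕ) := by
  intro hsep
  have H := hM.good
  have : IsAlt (Env (G4g Φ) H) := env_alt (G4g Φ) H (by simp)
  have fx : ∀ (i : ℕ) (hi : i < M.n) (γ : G4g Φ) (b : Bool), M.p ⟨i, hi⟩ = b → SRing.hom b γ →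
      ∀ j : Fin M.n, (j : ℕ) = i → SRing.hom (M.p j) γ := by
    intro i hi γ b hb hγ j hj
    have : j = ⟨i, hi⟩ := Fin.ext hj
    rw [this, hb]; exact hγ
  let e0 : Env (G4g Φ) H := elt H x 1 (fx x hx 1 false px SRing.hom_one)
  let e1 : Env (G4g Φ) H := elt H u (y1 Φ) (fx u hu _ true pu (y1_hom Φ))
  let e2 : Env (G4g Φ) H := elt H u (y2 Φ) (fx u hu _ true pu (y2_hom Φ))
  let e3 : Env (G4g Φ) H := elt H u (y3 Φ) (fx u hu _ true pu (y3_hom Φ))
  let e4 : Env (G4g Φ) H := elt H u (y4 Φ) (fx u hu _ true pu (y4_hom Φ))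
  let f : ℕ → Env (G4g Φ) H := fun k =>
    if k = 0 then e0 else if k = 1 then e1 else if k = 2 then e2 else if k = 3 then e3 else e4
  let φ : FreeAlt Φ ℕ →ₙₐ[Φ] Env (G4g Φ) H := FreeAlt.lift f
  have hmem : c • v2 (FreeAlt.of 0) (FreeAlt.of 1) (FreeAlt.of 2) (FreeAlt.of 3)
      (FreeAlt.of 4) ∈ assocIdeal Φ (FreeAlt Φ ℕ) ⊓ nuclearIdeal Φ (FreeAlt Φ ℕ) :=
    cv_mem c h2 _ _ _ _ _
  rw [hsep, Submodule.mem_bot] at hmem
  have h1 := congrArg φ hmem
  rw [map_smul, map_v2, map_zero] at h1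
  have hof : ∀ k, φ (FreeAlt.of k) = f k := fun k => FreeAlt.lift_of f k
  rw [hof, hof, hof, hof, hof] at h1
  have h3 : c • Sep.v2 e0 e1 e2 e3 e4 = 0 := h1
  have rep := Model.Rep.v2 hM (y2_hom Φ) (y3_hom Φ) (y1_hom Φ)
    (elt_rep H x hx 1 (fx x hx 1 false px SRing.hom_one))
    (elt_rep H u hu (y1 Φ) (fx u hu _ true pu (y1_hom Φ)))
    (elt_rep H u hu (y2 Φ) (fx u hu _ true pu (y2_hom Φ)))
    (elt_rep H u hu (y3 Φ) (fx u hu _ true pu (y3_hom Φ)))
    (elt_rep H u hu (y4 Φ) (fx u hu _ true pu (y4_hom Φ)))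
  have h4 : (c • Sep.v2 e0 e1 e2 e3 e4).1 ⟨t, ht⟩ = 0 := by rw [h3]; rfl
  rw [Env.smul_val] at h4
  have h5 : (Sep.v2 e0 e1 e2 e3 e4).1 ⟨t, ht⟩ = y1 Φ * (y2 Φ * y3 Φ) * y4 Φ := by
    have := congrFun rep.eq ⟨t, ht⟩
    rw [tens, hz, one_smul] at this
    exact this
  rw [h5] at h4
  exact hne (top_ne4 Φ h4)

end Final

namespace D29

theorem ok : mdl.Ok where
  hb := by decide +kernel
  hA := by decide +kernel
  hB := by decide +kernel
  hC := by decide +kernel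
  hBC := by decide +kernel

end D29

theorem not_separated_of_two (Φ : Type*) [CommRing Φ] (c : Φ) (h2 : c + c = 0) (hne : c ≠ 0) :
    ¬ Separated Φ (FreeAlt Φ ℕ) :=
  not_sep_two D29.ok Φ 1 0 (by decide +kernel) (by decide +kernel) (by decide +kernel)
    (by decide +kernel) 28 (by decide +kernel) (by decide +kernel) c h2 hne

end Pool.Agent.J6H41.Sep
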