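import Pool.Agent.J6H41.Sep.Env

/-!
Structure constants from a sparse table; a check that runs in the kernel.
-/

namespace Pool.Agent.J6H41.Sep

open Finset

/-- sparse vectors -/
abbrev SV := List (ℕ × ℤ)

/-- pairing with a functional -/
def ev (f : ℕ → ℤ) : SV → ℤ
  | [] => 0
  | t :: L => t.2 * f t.1 + ev f L

def dl (k m : ℕ) : ℤ := if m = k then 1 else 0

/-- coefficient -/
def coef (L : SV) (k : ℕ) : ℤ := ev (dl k) L

theorem ev_nil (f : ℕ → ℤ) : ev f [] = 0 := rfl
theorem ev_cons (f : ℕ → ℤ) (t : ℕ × ℤ) (L : SV) : ev f (t :: L) = t.2 * f t.1 + ev f L := rfl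
theorem ev_append (f : ℕ → ℤ) (L M : SV) : ev f (L ++ M) = ev f L + ev f M := by
  induction L with
  | nil => simp [ev]
  | cons t L ih => simp only [List.cons_append, ev_cons, ih]; ring

/-- entries below `n` -/
def bd (n : ℕ) (L : SV) : Prop := ∀ t ∈ L, t.1 < n

theorem ev_eq_sum {n : ℕ} {L : SV} (h : bd n L) (f : ℕ → ℤ) :
    ev f L = ∑ m : Fin n, coef L m * f m := by
  induction L with
  | nil => simp [ev, coef]
  | cons t L ih =>
    have ht : t.1 < n := h t (List.mem_cons_self ..)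
    have ih' := ih (fun s hs => h s (List.mem_cons_of_mem _ hs))
    rw [ev_cons, ih']
    simp only [coef, ev_cons, add_mul, Finset.sum_add_distrib]
    congr 1
    rw [Finset.sum_eq_single (⟨t.1, ht⟩ : Fin n)]
    · simp [dl]
    · intro b _ hb
      have : t.1 ≠ b.1 := fun e => hb (Fin.ext e.symm)
      simp [dl, this]
    · intro h; exact absurd (Finset.mem_univ _) h

/-- absolute value norm -/
def nm1 : SV → ℤ
  | [] => 0
  | t :: L => (t.2.natAbs : ℤ) + nm1 L

theorem ev_le {L : SV} {f : ℕ → ℤ} {C : ℤ} (hf : ∀ t ∈ L, |f t.1| ≤ C) :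
    |ev f L| ≤ nm1 L * C := by
  induction L with
  | nil => simp [ev, nm1]
  | cons t L ih =>
    rw [ev_cons]
    have h1 : |t.2 * f t.1| ≤ |t.2| * C := by
      rw [abs_mul]
      exact mul_le_mul_of_nonneg_left (hf _ (List.mem_cons_self ..)) (abs_nonneg _)
    have h2 : nm1 (t :: L) = |t.2| + nm1 L := by rw [nm1, Int.natCast_natAbs]
    rw [h2, add_mul]
    exact (abs_add_le _ _).trans
      (add_le_add h1 (ih fun s hs => hf s (List.mem_cons_of_mem _ hs)))

theorem abs_dl (k m : ℕ) : |dl k m| ≤ 1 := by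
  unfold dl; split <;> simp

theorem coef_le (L : SV) (k : ℕ) : |coef L k| ≤ nm1 L := by
  have := ev_le (L := L) (f := dl k) (C := 1) (fun t _ => abs_dl k t.1)
  rw [mul_one] at this; exact this

/-- uniqueness of digits -/
theorem digits_unique (B : ℤ) (hB : 0 < B) : ∀ (n : ℕ) (a : ℕ → ℤ), (∀ l, |a l| < B) →
    (∑ l ∈ Finset.range n, a l * B ^ l = 0) → ∀ l < n, a l = 0 := by
  intro n
  induction n with
  | zero => intro a _ _ l hl; exact absurd hl (Nat.not_lt_zero _)
  | succ n ih =>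
    intro a ha hs l hl
    rw [Finset.sum_range_succ'] at hs
    have e : ∑ l ∈ Finset.range n, a (l + 1) * B ^ (l + 1) =
        B * ∑ l ∈ Finset.range n, a (l + 1) * B ^ l := by
      rw [Finset.mul_sum]; refine Finset.sum_congr rfl fun l _ => ?_; ring
    rw [e] at hs
    have h0 : a 0 = 0 := by
      have hd : B ∣ a 0 := ⟨-(∑ l ∈ Finset.range n, a (l + 1) * B ^ l), by
        simp only [pow_zero, mul_one] at hs; linarith⟩
      exact Int.eq_zero_of_abs_lt_dvd hd (ha 0)
    rw [h0] at hs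
    simp only [zero_mul, add_zero] at hs
    have hs' : ∑ l ∈ Finset.range n, a (l + 1) * B ^ l = 0 := by
      rcases mul_eq_zero.1 hs with h | h
      · exact absurd h hB.ne'
      · exact h
    rcases l with _ | l
    · exact h0
    · exact ih (fun l => a (l + 1)) (fun l => ha _) hs' l (by omega)

/-- a table of structure constants with a bigrading -/
structure Model where
  n : ℕ
  S : ℕ → ℕ → SV
  basis : List (ℕ × ℕ × ℕ)
  X : ℕ
  U : ℕ
  B : ℕ
  C : ℤ

namespace Model

variable (M : Model)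

/-- degree of a basis vector -/
def dg (i : ℕ) : ℕ × ℕ := (M.basis.getD i (0, 0, 0)).2

/-- packed product -/
def T (i j : ℕ) : ℤ := ev (fun m => Int.ofNat (Nat.pow M.B m)) (M.S i j)

/-- packed associator -/
def A (i j k : ℕ) : ℤ := ev (fun m => M.T m k) (M.S i j) - ev (fun m => M.T i m) (M.S j k)

def isz : ℤ → Bool
  | Int.ofNat n => Nat.beq n 0
  | Int.negSucc _ => false

theorem isz_iff {z : ℤ} (h : isz z = true) : z = 0 := by
  cases z with
  | ofNat n => simpa [isz] using h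
  | negSucc n => simp [isz] at h

def win (a b : ℕ) : Bool := Nat.ble a M.X && Nat.ble b M.U

def chkA1 (s t : ℕ × ℕ × ℕ) : Bool :=
  cond (M.win (s.2.1 + t.2.1) (s.2.2 + t.2.2))
    ((M.S s.1 t.1).all (fun r => Nat.blt r.1 M.n && (Nat.beq (M.dg r.1).1 (s.2.1 + t.2.1) &&
      Nat.beq (M.dg r.1).2 (s.2.2 + t.2.2))) && decide (nm1 (M.S s.1 t.1) ≤ M.C))
    (M.S s.1 t.1).isEmpty

def chkA : Bool := M.basis.all fun s => M.basis.all fun t => M.chkA1 s t

def odd (s : ℕ × ℕ × ℕ) : Bool := Nat.beq (s.2.2 % 2) 1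

def sgz (a b : Bool) (z : ℤ) : ℤ := cond (a && b) (-z) z

def chkB1 (s t r : ℕ × ℕ × ℕ) : Bool :=
  cond (M.win (s.2.1 + t.2.1 + r.2.1) (s.2.2 + t.2.2 + r.2.2))
    (cond (Nat.ble s.1 t.1) (isz (M.A s.1 t.1 r.1 + sgz (odd s) (odd t) (M.A t.1 s.1 r.1))) true &&
     cond (Nat.ble t.1 r.1) (isz (M.A s.1 t.1 r.1 + sgz (odd t) (odd r) (M.A s.1 r.1 t.1))) true)
    true

def chkB : Bool := M.basis.all fun s => M.basis.all fun t =>
  cond (M.win (s.2.1 + t.2.1) (s.2.2 + t.2.2)) (M.basis.all fun r => M.chkB1 s t r) true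

def c (i j k : Fin M.n) : ℤ := coef (M.S i j) k

def p (i : Fin M.n) : Bool := Nat.beq ((M.dg i).2 % 2) 1

/-- all checks -/
structure Ok : Prop where
  hb : M.basis.map (·.1) = List.range M.n
  hA : M.chkA = true
  hB : M.chkB = true
  hC : 0 ≤ M.C
  hBC : 4 * (M.C * M.C) < M.B

variable {M}

theorem Ok.mem (h : M.Ok) (i : Fin M.n) : ((i : ℕ), M.dg i) ∈ M.basis := by
  have hl : M.basis.length = M.n := by
    have := congrArg List.length h.hb
    simpa using this
  have hi : (i : ℕ) < M.basis.length := by rw [hl]; exact i.2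
  have e1 : M.basis[(i : ℕ)].1 = i := by
    have h2 : (M.basis.map (·.1))[(i : ℕ)]'(by simpa using hi) = (i : ℕ) := by
      simp only [h.hb, List.getElem_range]
    simpa using h2
  have e2 : M.dg i = M.basis[(i : ℕ)].2 := by
    rw [dg, List.getD_eq_getElem _ _ hi]
  rw [e2]
  have : ((i : ℕ), M.basis[(i : ℕ)].2) = M.basis[(i : ℕ)] := Prod.ext e1.symm rfl
  rw [this]
  exact List.getElem_mem _

theorem Ok.chk1 (h : M.Ok) (i j : Fin M.n) : M.chkA1 (i, M.dg i) (j, M.dg j) = true := by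
  have hA := h.hA
  rw [chkA, List.all_eq_true] at hA
  have := hA _ (h.mem i)
  rw [List.all_eq_true] at this
  exact this _ (h.mem j)

theorem Ok.deg (h : M.Ok) (i j : Fin M.n) : (∀ t ∈ M.S i j, t.1 < M.n ∧
    (M.dg t.1).1 = (M.dg i).1 + (M.dg j).1 ∧ (M.dg t.1).2 = (M.dg i).2 + (M.dg j).2 ∧
    (M.dg i).1 + (M.dg j).1 ≤ M.X ∧ (M.dg i).2 + (M.dg j).2 ≤ M.U) ∧
    nm1 (M.S i j) ≤ M.C := by
  have h1 := h.chk1 i j
  rw [chkA1] at h1
  cases hw : M.win ((M.dg i).1 + (M.dg j).1) ((M.dg i).2 + (M.dg j).2)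
  · simp only [hw, cond_false, List.isEmpty_iff] at h1
    rw [h1]
    exact ⟨fun t ht => absurd ht List.not_mem_nil, h.hC⟩
  · simp only [hw, cond_true, Bool.and_eq_true, List.all_eq_true, decide_eq_true_eq,
      Nat.beq_eq] at h1
    simp only [win, Bool.and_eq_true, Nat.ble_eq] at hw
    refine ⟨fun t ht => ?_, h1.2⟩
    obtain ⟨h2, h3, h4⟩ := h1.1 t ht
    refine ⟨?_, h3, h4, hw.1, hw.2⟩
    simpa [Nat.blt] using h2

theorem ev_ne_zero {f : ℕ → ℤ} {L : SV} (h : ev f L ≠ 0) : ∃ t ∈ L, f t.1 ≠ 0 := by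
  by_contra hc
  push Not at hc
  apply h
  induction L with
  | nil => rfl
  | cons t L ih =>
    rw [ev_cons, hc t (List.mem_cons_self ..), mul_zero, zero_add]
    by_cases h0 : ev f L = 0
    · exact h0
    · exact ih h0 (fun s hs => hc s (List.mem_cons_of_mem _ hs))

theorem Ok.c_ne (h : M.Ok) {i j k : Fin M.n} (hc : M.c i j k ≠ 0) :
    (M.dg k).1 = (M.dg i).1 + (M.dg j).1 ∧ (M.dg k).2 = (M.dg i).2 + (M.dg j).2 ∧
    (M.dg i).1 + (M.dg j).1 ≤ M.X ∧ (M.dg i).2 + (M.dg j).2 ≤ M.U := by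
  obtain ⟨t, ht, h1⟩ := ev_ne_zero hc
  have h2 : t.1 = k := by
    by_contra hne
    exact h1 (by simp [dl, hne])
  have h3 := (h.deg i j).1 t ht
  rw [h2] at h3
  exact h3.2

theorem Ok.bdS (h : M.Ok) (i j : Fin M.n) : bd M.n (M.S i j) := fun t ht =>
  ((h.deg i j).1 t ht).1

theorem Ok.T_eq (h : M.Ok) (i j : Fin M.n) : M.T i j = ∑ l : Fin M.n, M.c i j l * (M.B : ℤ) ^ (l : ℕ) := by
  rw [T, ev_eq_sum (h.bdS i j)]
  refine Finset.sum_congr rfl fun l _ => ?_
  exact congrArg _ (Nat.cast_pow (α := ℤ) M.B l)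

theorem Ok.A_eq (h : M.Ok) (i j k : Fin M.n) :
    M.A i j k = ∑ l : Fin M.n, ac M.c i j k l * (M.B : ℤ) ^ (l : ℕ) := by
  have h1 : ev (fun m => M.T m k) (M.S i j) =
      ∑ l : Fin M.n, (∑ m, M.c i j m * M.c m k l) * (M.B : ℤ) ^ (l : ℕ) := by
    rw [ev_eq_sum (h.bdS i j)]
    simp only [h.T_eq, Finset.mul_sum, Finset.sum_mul]
    rw [Finset.sum_comm]
    refine Finset.sum_congr rfl fun l _ => Finset.sum_congr rfl fun m _ => ?_
    rw [← mul_assoc]; rfl
  have h2 : ev (fun m => M.T i m) (M.S j k) =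
      ∑ l : Fin M.n, (∑ m, M.c j k m * M.c i m l) * (M.B : ℤ) ^ (l : ℕ) := by
    rw [ev_eq_sum (h.bdS j k)]
    simp only [h.T_eq, Finset.mul_sum, Finset.sum_mul]
    rw [Finset.sum_comm]
    refine Finset.sum_congr rfl fun l _ => Finset.sum_congr rfl fun m _ => ?_
    rw [← mul_assoc]; rfl
  rw [A, h1, h2, ← Finset.sum_sub_distrib]
  refine Finset.sum_congr rfl fun l _ => ?_
  rw [← sub_mul, ac, Finset.sum_sub_distrib]

theorem Ok.ac_le (h : M.Ok) (i j k l : Fin M.n) : |ac M.c i j k l| ≤ 2 * (M.C * M.C) := by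
  have e : ac M.c i j k l = ev (fun m => coef (M.S m k) l) (M.S i j) -
      ev (fun m => coef (M.S i m) l) (M.S j k) := by
    rw [ev_eq_sum (h.bdS i j), ev_eq_sum (h.bdS j k), ac, Finset.sum_sub_distrib]; rfl
  have h1 : |ev (fun m => coef (M.S m k) l) (M.S i j)| ≤ M.C * M.C := by
    refine (ev_le (C := M.C) ?_).trans
      (mul_le_mul_of_nonneg_right (h.deg i j).2 h.hC)
    intro t ht
    exact (coef_le _ _).trans (h.deg ⟨t.1, h.bdS i j t ht⟩ k).2
  have h2 : |ev (fun m => coef (M.S i m) l) (M.S j k)| ≤ M.C * M.C := by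
    refine (ev_le (C := M.C) ?_).trans
      (mul_le_mul_of_nonneg_right (h.deg j k).2 h.hC)
    intro t ht
    exact (coef_le _ _).trans (h.deg i ⟨t.1, h.bdS j k t ht⟩).2
  rw [e]
  have h3 := abs_sub (ev (fun m => coef (M.S m k) l) (M.S i j))
    (ev (fun m => coef (M.S i m) l) (M.S j k))
  linarith

theorem digits_fin {n : ℕ} {B : ℤ} (hB : 0 < B) {a : Fin n → ℤ} (ha : ∀ l, |a l| < B)
    (hs : ∑ l : Fin n, a l * B ^ (l : ℕ) = 0) (l : Fin n) : a l = 0 := by
  have h := digits_unique B hB n (fun l => if h : l < n then a ⟨l, h⟩ else 0) ?_ ?_ l l.2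
  · simpa using h
  · intro l
    by_cases h : l < n
    · simp only [h, dif_pos]; exact ha _
    · simp only [h, dif_neg, not_false_iff, abs_zero]; exact hB
  · rw [Finset.sum_range]
    rw [← hs]
    refine Finset.sum_congr rfl fun l _ => ?_
    simp

theorem Ok.ac_ne (h : M.Ok) {i j k l : Fin M.n} (ha : ac M.c i j k l ≠ 0) :
    M.win ((M.dg i).1 + (M.dg j).1 + (M.dg k).1) ((M.dg i).2 + (M.dg j).2 + (M.dg k).2) = true := by
  by_contra hw
  apply ha
  rw [ac]
  refine Finset.sum_eq_zero fun m _ => ?_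
  have h1 : M.c i j m * M.c m k l = 0 := by
    by_contra hne
    have e1 := h.c_ne (left_ne_zero_of_mul hne)
    have e2 := h.c_ne (right_ne_zero_of_mul hne)
    apply hw
    simp only [win, Bool.and_eq_true, Nat.ble_eq]
    omega
  have h2 : M.c j k m * M.c i m l = 0 := by
    by_contra hne
    have e1 := h.c_ne (left_ne_zero_of_mul hne)
    have e2 := h.c_ne (right_ne_zero_of_mul hne)
    apply hw
    simp only [win, Bool.and_eq_true, Nat.ble_eq]
    omega
  rw [h1, h2, sub_zero]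

theorem sgz_eq (a b : Bool) (z : ℤ) : sgz a b z = sn a b * z := by
  cases a <;> cases b <;> simp [sgz, sn]

theorem sn_comm (a b : Bool) : sn a b = sn b a := by
  cases a <;> cases b <;> rfl
theorem sn_sq (a b : Bool) : sn a b * sn a b = 1 := by
  cases a <;> cases b <;> rfl
theorem abs_sn (a b : Bool) : |sn a b| = 1 := by
  cases a <;> cases b <;> rfl

theorem Ok.chk2 (h : M.Ok) (i j k : Fin M.n) (hw : M.win ((M.dg i).1 + (M.dg j).1 + (M.dg k).1)
    ((M.dg i).2 + (M.dg j).2 + (M.dg k).2) = true) :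
    ((i : ℕ) ≤ j → M.A i j k + sgz (M.p i) (M.p j) (M.A j i k) = 0) ∧
    ((j : ℕ) ≤ k → M.A i j k + sgz (M.p j) (M.p k) (M.A i k j) = 0) := by
  have hB := h.hB
  rw [chkB, List.all_eq_true] at hB
  have h1 := hB _ (h.mem i)
  rw [List.all_eq_true] at h1
  have h2 := h1 _ (h.mem j)
  have hw2 : M.win ((M.dg i).1 + (M.dg j).1) ((M.dg i).2 + (M.dg j).2) = true := by
    simp only [win, Bool.and_eq_true, Nat.ble_eq] at hw ⊢
    omega
  simp only [hw2, cond_true, List.all_eq_true] at h2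
  have h3 := h2 _ (h.mem k)
  simp only [chkB1, hw, cond_true, Bool.and_eq_true] at h3
  refine ⟨fun hij => ?_, fun hjk => ?_⟩
  · have e : Nat.ble (i : ℕ) (j : ℕ) = true := by rw [Nat.ble_eq]; exact hij
    have := h3.1
    rw [e, cond_true] at this
    exact isz_iff this
  · have e : Nat.ble (j : ℕ) (k : ℕ) = true := by rw [Nat.ble_eq]; exact hjk
    have := h3.2
    rw [e, cond_true] at this
    exact isz_iff this

theorem Ok.lt_B (h : M.Ok) (i j k l i' j' k' : Fin M.n) (a b : Bool) :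
    |ac M.c i j k l + sn a b * ac M.c i' j' k' l| < M.B := by
  have h1 := h.ac_le i j k l
  have h2 := h.ac_le i' j' k' l
  have h3 := abs_add_le (ac M.c i j k l) (sn a b * ac M.c i' j' k' l)
  rw [abs_mul, abs_sn, one_mul] at h3
  have := h.hBC
  linarith

theorem Ok.B_pos (h : M.Ok) : (0 : ℤ) < M.B := by
  have := h.hBC
  have h2 := mul_self_nonneg M.C
  linarith

theorem Ok.left_le (h : M.Ok) (i j k l : Fin M.n) (hij : (i : ℕ) ≤ j) :
    ac M.c i j k l + sn (M.p i) (M.p j) * ac M.c j i k l = 0 := by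
  by_cases hw : M.win ((M.dg i).1 + (M.dg j).1 + (M.dg k).1)
    ((M.dg i).2 + (M.dg j).2 + (M.dg k).2) = true
  · have h1 := (h.chk2 i j k hw).1 hij
    rw [sgz_eq, h.A_eq, h.A_eq, Finset.mul_sum, ← Finset.sum_add_distrib] at h1
    refine digits_fin h.B_pos (fun l => h.lt_B i j k l j i k _ _) ?_ l
    rw [← h1]
    refine Finset.sum_congr rfl fun l _ => ?_
    ring
  · have e1 : ac M.c i j k l = 0 := by
      by_contra hne; exact hw (h.ac_ne hne)
    have e2 : ac M.c j i k l = 0 := by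
      by_contra hne
      have := h.ac_ne hne
      apply hw
      simp only [win, Bool.and_eq_true, Nat.ble_eq] at this ⊢
      omega
    rw [e1, e2]; simp

theorem Ok.right_le (h : M.Ok) (i j k l : Fin M.n) (hjk : (j : ℕ) ≤ k) :
    ac M.c i j k l + sn (M.p j) (M.p k) * ac M.c i k j l = 0 := by
  by_cases hw : M.win ((M.dg i).1 + (M.dg j).1 + (M.dg k).1)
    ((M.dg i).2 + (M.dg j).2 + (M.dg k).2) = true
  · have h1 := (h.chk2 i j k hw).2 hjk
    rw [sgz_eq, h.A_eq, h.A_eq, Finset.mul_sum, ← Finset.sum_add_distrib] at h1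
    refine digits_fin h.B_pos (fun l => h.lt_B i j k l i k j _ _) ?_ l
    rw [← h1]
    refine Finset.sum_congr rfl fun l _ => ?_
    ring
  · have e1 : ac M.c i j k l = 0 := by
      by_contra hne; exact hw (h.ac_ne hne)
    have e2 : ac M.c i k j l = 0 := by
      by_contra hne
      have := h.ac_ne hne
      apply hw
      simp only [win, Bool.and_eq_true, Nat.ble_eq] at this ⊢
      omega
    rw [e1, e2]; simp

theorem sn_flip {a b : Bool} {z w : ℤ} (h : z + sn a b * w = 0) : w + sn b a * z = 0 := by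
  have h1 : sn b a * (z + sn a b * w) = 0 := by rw [h, mul_zero]
  rw [mul_add, ← mul_assoc, sn_comm b a, sn_sq, one_mul] at h1
  rw [sn_comm b a]; linarith

theorem Ok.good (h : M.Ok) : Good M.c M.p 0 where
  par i j k hc := by
    have h1 := (h.c_ne hc).2.1
    simp only [p]
    rw [h1]
    have key : ∀ a b : ℕ, Nat.beq ((a + b) % 2) 1 = xor (Nat.beq (a % 2) 1) (Nat.beq (b % 2) 1) := by
      intro a b
      rcases Nat.mod_two_eq_zero_or_one a with ha | ha <;>
      rcases Nat.mod_two_eq_zero_or_one b with hb | hb <;>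
      rw [Nat.add_mod, ha, hb] <;> rfl
    exact key _ _
  left i j k l := by
    rw [zero_dvd_iff]
    rcases le_total (i : ℕ) j with hij | hij
    · exact h.left_le i j k l hij
    · exact sn_flip (h.left_le j i k l hij)
  left' i k l hp := by
    rw [zero_dvd_iff]
    have := h.left_le i i k l le_rfl
    rw [hp] at this
    simp only [sn, Bool.and_self, Bool.false_eq_true, if_false, one_mul] at this
    linarith
  right i j k l := by
    rw [zero_dvd_iff]
    rcases le_total (j : ℕ) k with hjk | hjk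
    · exact h.right_le i j k l hjk
    · exact sn_flip (h.right_le i k j l hjk)
  right' i j l hp := by
    rw [zero_dvd_iff]
    have := h.right_le i j j l le_rfl
    rw [hp] at this
    simp only [sn, Bool.and_self, Bool.false_eq_true, if_false, one_mul] at this
    linarith

end Model

end Pool.Agent.J6H41.Sep
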