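import Pool.Agent.J6H41.Sep.Table

/-!
Tries.
-/

namespace Pool.Agent.J6H41.Sep

/-- binary tries -/
inductive Tr (α : Type) : Type
  | te : Tr α
  | tl : α → Tr α
  | tn : Tr α → Tr α → Tr α

def Tr.get {α : Type} (d : α) : Tr α → ℕ → α
  | .te, _ => d
  | .tl a, _ => a
  | .tn l r, k => cond (Nat.beq (k % 2) 0) (Tr.get d l (k / 2)) (Tr.get d r (k / 2))

end Pool.Agent.J6H41.Sep
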