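import Pool.Agent.J6H41.Sep.Env
import Pool.Agent.J6H41.Sep.Table
import Pool.Agent.J6H41.Sep.Trie

/-!
Structure constants modulo three from a sparse table; a check that runs in the kernel.
-/

namespace Pool.Agent.J6H41.Sep

open Finset

/-- pairing with a functional, natural numbers -/
def evN (f : ℕ → ℕ) : SV → ℕ
  | [] => 0
  | t :: L => t.2.toNat * f t.1 + evN f L

def dlN (k m : ℕ) : ℕ := if m = k then 1 else 0

def coefN (L : SV) (k : ℕ) : ℕ := evN (dlN k) L

def nn (L : SV) : Prop := ∀ t ∈ L, 0 ≤ t.2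

theorem coef_eq_coefN {L : SV} (h : nn L) (k : ℕ) : coef L k = (coefN L k : ℤ) := by
  induction L with
  | nil => rfl
  | cons t L ih =>
    have h1 := ih (fun s hs => h s (List.mem_cons_of_mem _ hs))
    have h2 := h t (List.mem_cons_self ..)
    simp only [coef, coefN, ev_cons, evN] at h1 ⊢
    rw [h1]
    push_cast
    rw [Int.toNat_of_nonneg h2]
    simp [dl, dlN]

theorem evN_eq_sum {n : ℕ} {L : SV} (h : bd n L) (f : ℕ → ℕ) :
    evN f L = ∑ m : Fin n, coefN L m * f m := by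
  induction L with
  | nil => simp [evN, coefN]
  | cons t L ih =>
    have ht : t.1 < n := h t (List.mem_cons_self ..)
    have ih' := ih (fun s hs => h s (List.mem_cons_of_mem _ hs))
    rw [evN, ih']
    simp only [coefN, evN, add_mul, Finset.sum_add_distrib]
    congr 1
    rw [Finset.sum_eq_single (⟨t.1, ht⟩ : Fin n)]
    · simp [dlN]
    · intro b _ hb
      have : t.1 ≠ b.1 := fun e => hb (Fin.ext e.symm)
      simp [dlN, this]
    · intro h; exact absurd (Finset.mem_univ _) h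

def nmN : SV → ℕ
  | [] => 0
  | t :: L => t.2.toNat + nmN L

theorem evN_le {L : SV} {f : ℕ → ℕ} {C : ℕ} (hf : ∀ t ∈ L, f t.1 ≤ C) :
    evN f L ≤ nmN L * C := by
  induction L with
  | nil => simp [evN, nmN]
  | cons t L ih =>
    rw [evN, nmN, add_mul]
    exact add_le_add (Nat.mul_le_mul_left _ (hf _ (List.mem_cons_self ..)))
      (ih fun s hs => hf s (List.mem_cons_of_mem _ hs))

theorem coefN_le (L : SV) (k : ℕ) : coefN L k ≤ nmN L := by
  have := evN_le (L := L) (f := dlN k) (C := 1) (fun t _ => by unfold dlN; split <;> simp)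
  rw [mul_one] at this; exact this

theorem evN_ne_zero {f : ℕ → ℕ} {L : SV} (h : evN f L ≠ 0) : ∃ t ∈ L, f t.1 ≠ 0 := by
  by_contra hc
  push Not at hc
  apply h
  induction L with
  | nil => rfl
  | cons t L ih =>
    rw [evN, hc t (List.mem_cons_self ..), mul_zero, zero_add]
    by_cases h0 : evN f L = 0
    · exact h0
    · exact ih h0 (fun s hs => hc s (List.mem_cons_of_mem _ hs))

/-- digit check -/
def dig3 (B : ℕ) : ℕ → ℕ → Bool
  | 0, Z => Nat.beq Z 0
  | f + 1, Z => cond (Nat.beq Z 0) true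
      (cond (Nat.beq (Nat.mod (Nat.mod Z B) 3) 0) (dig3 B f (Nat.div Z B)) false)

theorem dig3_spec (B : ℕ) : ∀ (f Z : ℕ), dig3 B f Z = true → ∀ q, (Z / B ^ q) % B % 3 = 0 := by
  intro f
  induction f with
  | zero =>
    intro Z h q
    have : Z = 0 := by simpa [dig3] using h
    rw [this]; simp
  | succ f ih =>
    intro Z h q
    by_cases hZ : Z = 0
    · rw [hZ]; simp
    · have hb : Nat.beq Z 0 = false := by
        cases Z with
        | zero => exact absurd rfl hZ
        | succ z => rfl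
      rw [dig3, hb, cond_false] at h
      by_cases h0 : Nat.beq (Nat.mod (Nat.mod Z B) 3) 0 = true
      · rw [h0, cond_true] at h
        cases q with
        | zero =>
          rw [pow_zero, Nat.div_one]
          exact Nat.eq_of_beq_eq_true h0
        | succ q =>
          have := ih _ h q
          rw [pow_succ', ← Nat.div_div_eq_div_mul]
          exact this
      · simp only [Bool.not_eq_true] at h0
        rw [h0, cond_false] at h
        exact absurd h (by simp)

theorem digit_sum {B : ℕ} (hB : 0 < B) : ∀ (n : ℕ) (a : ℕ → ℕ), (∀ l, a l < B) →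
    ∀ l < n, (∑ q ∈ Finset.range n, a q * B ^ q) / B ^ l % B = a l := by
  intro n
  induction n with
  | zero => intro a _ l hl; exact absurd hl (Nat.not_lt_zero _)
  | succ n ih =>
    intro a ha l hl
    rw [Finset.sum_range_succ']
    have e : ∑ q ∈ Finset.range n, a (q + 1) * B ^ (q + 1) =
        B * ∑ q ∈ Finset.range n, a (q + 1) * B ^ q := by
      rw [Finset.mul_sum]; refine Finset.sum_congr rfl fun l _ => ?_; ring
    rw [e, pow_zero, mul_one]
    rcases l with _ | l
    · rw [pow_zero, Nat.div_one, Nat.mul_add_mod, Nat.mod_eq_of_lt (ha 0)]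
    · rw [pow_succ', ← Nat.div_div_eq_div_mul, Nat.mul_add_div hB,
        Nat.div_eq_of_lt (ha 0), add_zero]
      exact ih (fun l => a (l + 1)) (fun l => ha _) l (by omega)

/-- a table with packed products -/
structure Md3 where
  n : ℕ
  S : ℕ → ℕ → SV
  T : ℕ → ℕ → ℕ
  comps : List (ℕ × List ℕ)
  dg : ℕ → ℕ
  off : ℕ → ℕ
  mask : ℕ
  B : ℕ
  C : ℕ

namespace Md3

variable (M : Md3)

def ok (d : ℕ) : Bool := Nat.beq (Nat.mod (Nat.shiftRight M.mask d) 2) 1

/-- product, windowed -/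
def Sd (a b i j : ℕ) : SV := cond (M.ok (Nat.add a b)) (M.S i j) []

def Sx (i j : ℕ) : SV := M.Sd (M.dg i) (M.dg j) i j

def mdl : Model where
  n := M.n
  S := M.Sx
  basis := []
  X := 0
  U := 0
  B := 0
  C := 0

def nng : ℤ → Bool
  | Int.ofNat _ => true
  | Int.negSucc _ => false

/-- all pairs -/
def chkA : Bool := M.comps.all fun a => M.comps.all fun b =>
  cond (M.ok (Nat.add a.1 b.1))
    (a.2.all fun i => b.2.all fun j =>
      (M.S i j).all (fun r => (Nat.blt r.1 M.n && Nat.beq (M.dg r.1) (Nat.add a.1 b.1)) && nng r.2)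
      && (Nat.ble (nmN (M.S i j)) M.C
      && Nat.beq (M.T i j)
        (evN (fun m => Nat.pow M.B (Nat.sub m (M.off (Nat.add a.1 b.1)))) (M.S i j))))
    true

/-- packed associator modulo three -/
def N (a b c i j k : ℕ) : ℕ :=
  Nat.add (evN (fun m => M.T m k) (M.Sd a b i j))
    (Nat.mul 2 (evN (fun m => M.T i m) (M.Sd b c j k)))

def odd (a : ℕ) : Bool := Nat.beq (Nat.mod a 2) 1

def wt (a b : ℕ) : ℕ := cond (odd a && odd b) 2 1

def chkT (a b c i j k : ℕ) : Bool :=
  cond (Nat.ble i j)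
    (dig3 M.B M.n (Nat.add (M.N a b c i j k) (Nat.mul (wt a b) (M.N b a c j i k)))) true &&
  cond (Nat.ble j k)
    (dig3 M.B M.n (Nat.add (M.N a b c i j k) (Nat.mul (wt b c) (M.N a c b i k j)))) true

def chkB (l : List (ℕ × List ℕ)) : Bool := l.all fun a => M.comps.all fun b =>
  M.comps.all fun c => cond (M.ok (Nat.add (Nat.add a.1 b.1) c.1))
    (a.2.all fun i => b.2.all fun j => c.2.all fun k => M.chkT a.1 b.1 c.1 i j k) true

/-- basis -/
def chkC : Bool := M.comps.all fun a => a.2.all fun i =>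
  Nat.beq (M.dg i) a.1 && Nat.ble (M.off a.1) i

/-- all checks -/
structure Ok : Prop where
  hb : M.comps.flatMap (·.2) = List.range M.n
  hA : M.chkA = true
  hB : M.chkB M.comps = true
  hC : M.chkC = true
  hBC : 9 * (M.C * M.C) < M.B

variable {M}

theorem Ok.mem (h : M.Ok) (i : Fin M.n) : ∃ a ∈ M.comps, (i : ℕ) ∈ a.2 ∧ M.dg i = a.1 ∧
    M.off a.1 ≤ i := by
  have hi : (i : ℕ) ∈ M.comps.flatMap (·.2) := by rw [h.hb]; simp
  obtain ⟨a, ha, hia⟩ := List.mem_flatMap.1 hi
  have hC := h.hC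
  simp only [chkC, List.all_eq_true, Bool.and_eq_true, Nat.beq_eq, Nat.ble_eq] at hC
  exact ⟨a, ha, hia, (hC a ha i hia).1, (hC a ha i hia).2⟩

theorem nng_iff {z : ℤ} (h : nng z = true) : 0 ≤ z := by
  cases z with
  | ofNat n => exact Int.natCast_nonneg n
  | negSucc n => simp [nng] at h

theorem Ok.pair (h : M.Ok) (i j : Fin M.n) (hok : M.ok (M.dg i + M.dg j) = true) :
    (∀ t ∈ M.S i j, t.1 < M.n ∧ M.dg t.1 = M.dg i + M.dg j ∧ 0 ≤ t.2) ∧
    nmN (M.S i j) ≤ M.C ∧
    M.T i j = evN (fun m => M.B ^ (m - M.off (M.dg i + M.dg j))) (M.S i j) := by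
  obtain ⟨a, ha, hia, e1, -⟩ := h.mem i
  obtain ⟨b, hb, hjb, e2, -⟩ := h.mem j
  have hA := h.hA
  rw [chkA, List.all_eq_true] at hA
  have h1 := hA a ha
  rw [List.all_eq_true] at h1
  have h2 := h1 b hb
  have hok' : M.ok (Nat.add a.1 b.1) = true := by rw [← e1, ← e2]; exact hok
  rw [hok', cond_true, List.all_eq_true] at h2
  have h3 := h2 i hia
  rw [List.all_eq_true] at h3
  have h4 := h3 j hjb
  simp only [Bool.and_eq_true, List.all_eq_true, Nat.ble_eq, Nat.beq_eq] at h4
  obtain ⟨h5, h6, h7⟩ := h4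
  refine ⟨fun t ht => ?_, h6, ?_⟩
  · obtain ⟨⟨h8, h9⟩, h10⟩ := h5 t ht
    refine ⟨by simpa [Nat.blt] using h8, ?_, nng_iff h10⟩
    rw [e1, e2]; exact h9
  · rw [e1, e2]; exact h7

theorem Sx_of_ok {i j : ℕ} (hok : M.ok (M.dg i + M.dg j) = true) : M.Sx i j = M.S i j := by
  have : M.ok (Nat.add (M.dg i) (M.dg j)) = true := hok
  rw [Sx, Sd, this, cond_true]
theorem Sx_of_not {i j : ℕ} (hok : M.ok (M.dg i + M.dg j) = false) : M.Sx i j = [] := by
  have : M.ok (Nat.add (M.dg i) (M.dg j)) = false := hok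
  rw [Sx, Sd, this, cond_false]

theorem Ok.entry (h : M.Ok) (i j : Fin M.n) : ∀ t ∈ M.Sx i j, t.1 < M.n ∧
    M.dg t.1 = M.dg i + M.dg j ∧ 0 ≤ t.2 ∧ M.ok (M.dg i + M.dg j) = true := by
  intro t ht
  cases hok : M.ok (M.dg i + M.dg j)
  · rw [Sx_of_not hok] at ht; exact absurd ht List.not_mem_nil
  · rw [Sx_of_ok hok] at ht
    obtain ⟨h1, h2, h3⟩ := (h.pair i j hok).1 t ht
    exact ⟨h1, h2, h3, rfl⟩

theorem Ok.bdS (h : M.Ok) (i j : Fin M.n) : bd M.n (M.Sx i j) := fun t ht => (h.entry i j t ht).1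
theorem Ok.nnS (h : M.Ok) (i j : Fin M.n) : nn (M.Sx i j) := fun t ht => (h.entry i j t ht).2.2.1
theorem Ok.nmS (h : M.Ok) (i j : Fin M.n) : nmN (M.Sx i j) ≤ M.C := by
  cases hok : M.ok (M.dg i + M.dg j)
  · rw [Sx_of_not hok]; exact Nat.zero_le _
  · rw [Sx_of_ok hok]; exact (h.pair i j hok).2.1

/-- natural structure constants -/
def cN (i j k : Fin M.n) : ℕ := coefN (M.Sx i j) k

/-- structure constants -/
def cc (i j k : Fin M.n) : ℤ := coef (M.Sx i j) k

theorem Ok.c_eq (h : M.Ok) (i j k : Fin M.n) : cc i j k = (cN i j k : ℤ) :=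
  coef_eq_coefN (h.nnS i j) k

theorem Ok.c_ne (h : M.Ok) {i j k : Fin M.n} (hc : cN i j k ≠ 0) :
    M.dg k = M.dg i + M.dg j ∧ M.ok (M.dg i + M.dg j) = true := by
  obtain ⟨t, ht, h1⟩ := evN_ne_zero hc
  have h2 : t.1 = k := by
    by_contra hne
    exact h1 (by simp [dlN, hne])
  obtain ⟨-, h4, -, h5⟩ := h.entry i j t ht
  rw [h2] at h4
  exact ⟨h4, h5⟩

theorem Ok.T_eq (h : M.Ok) (i j : Fin M.n) (hok : M.ok (M.dg i + M.dg j) = true) :
    M.T i j = ∑ l : Fin M.n, cN i j l * M.B ^ ((l : ℕ) - M.off (M.dg i + M.dg j)) := by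
  rw [(h.pair i j hok).2.2]
  have hb := h.bdS i j
  have e := Sx_of_ok hok
  rw [← e, evN_eq_sum hb]
  rfl

/-- digits of the packed associator -/
def nN (i j k l : Fin M.n) : ℕ :=
  (∑ m, cN i j m * cN m k l) + 2 * ∑ m, cN j k m * cN i m l

theorem Ok.N_eq (h : M.Ok) (i j k : Fin M.n) (hok : M.ok (M.dg i + M.dg j + M.dg k) = true) :
    M.N (M.dg i) (M.dg j) (M.dg k) i j k =
      ∑ l : Fin M.n, nN i j k l * M.B ^ ((l : ℕ) - M.off (M.dg i + M.dg j + M.dg k)) := by
  have h1 : evN (fun m => M.T m k) (M.Sx i j) =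
      ∑ l : Fin M.n, (∑ m, cN i j m * cN m k l) *
        M.B ^ ((l : ℕ) - M.off (M.dg i + M.dg j + M.dg k)) := by
    rw [evN_eq_sum (h.bdS i j)]
    simp only [Finset.sum_mul]
    rw [Finset.sum_comm]
    refine Finset.sum_congr rfl fun m _ => ?_
    by_cases hc : cN i j m = 0
    · have : coefN (M.Sx i j) m = 0 := hc
      simp [this, hc]
    · obtain ⟨e1, -⟩ := h.c_ne hc
      have hok' : M.ok (M.dg m + M.dg k) = true := by rw [e1]; exact hok
      rw [h.T_eq m k hok', e1, Finset.mul_sum]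
      refine Finset.sum_congr rfl fun l _ => ?_
      rw [mul_assoc]; rfl
  have h2 : evN (fun m => M.T i m) (M.Sx j k) =
      ∑ l : Fin M.n, (∑ m, cN j k m * cN i m l) *
        M.B ^ ((l : ℕ) - M.off (M.dg i + M.dg j + M.dg k)) := by
    rw [evN_eq_sum (h.bdS j k)]
    simp only [Finset.sum_mul]
    rw [Finset.sum_comm]
    refine Finset.sum_congr rfl fun m _ => ?_
    by_cases hc : cN j k m = 0
    · have : coefN (M.Sx j k) m = 0 := hc
      simp [this, hc]
    · obtain ⟨e1, -⟩ := h.c_ne hc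
      have e2 : M.dg i + M.dg m = M.dg i + M.dg j + M.dg k := by rw [e1, add_assoc]
      have hok' : M.ok (M.dg i + M.dg m) = true := by rw [e2]; exact hok
      rw [h.T_eq i m hok', e2, Finset.mul_sum]
      refine Finset.sum_congr rfl fun l _ => ?_
      rw [mul_assoc]; rfl
  change evN (fun m => M.T m k) (M.Sx i j) + 2 * evN (fun m => M.T i m) (M.Sx j k) = _
  rw [h1, h2, Finset.mul_sum, ← Finset.sum_add_distrib]
  refine Finset.sum_congr rfl fun l _ => ?_
  rw [nN]; ring

theorem Ok.sum_le (h : M.Ok) (i j : Fin M.n) (g : Fin M.n → ℕ) (hg : ∀ m, g m ≤ M.C) :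
    ∑ m, cN i j m * g m ≤ M.C * M.C := by
  have h1 : ∑ m, cN i j m ≤ nmN (M.Sx i j) := by
    have := evN_le (L := M.Sx i j) (f := fun _ => 1) (C := 1) (fun _ _ => le_rfl)
    rw [evN_eq_sum (h.bdS i j)] at this
    simpa [cN] using this
  calc ∑ m, cN i j m * g m ≤ ∑ m, cN i j m * M.C :=
        Finset.sum_le_sum fun m _ => Nat.mul_le_mul_left _ (hg m)
    _ = (∑ m, cN i j m) * M.C := by rw [Finset.sum_mul]
    _ ≤ M.C * M.C := Nat.mul_le_mul_right _ (h1.trans (h.nmS i j))

theorem Ok.nN_le (h : M.Ok) (i j k l : Fin M.n) : nN i j k l ≤ 3 * (M.C * M.C) := by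
  have h1 := h.sum_le i j (fun m => cN m k l) (fun m => (coefN_le _ _).trans (h.nmS m k))
  have h2 := h.sum_le j k (fun m => cN i m l) (fun m => (coefN_le _ _).trans (h.nmS i m))
  rw [nN]; omega

theorem Ok.nN_ne (h : M.Ok) {i j k l : Fin M.n} (hn : nN i j k l ≠ 0) :
    M.dg l = M.dg i + M.dg j + M.dg k ∧ M.ok (M.dg i + M.dg j + M.dg k) = true := by
  have key : (∃ m, cN i j m * cN m k l ≠ 0) ∨ (∃ m, cN j k m * cN i m l ≠ 0) := by
    by_contra hc
    push Not at hc
    apply hn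
    rw [nN, Finset.sum_eq_zero fun m _ => hc.1 m, Finset.sum_eq_zero fun m _ => hc.2 m]
    rfl
  rcases key with ⟨m, hm⟩ | ⟨m, hm⟩
  · obtain ⟨e1, -⟩ := h.c_ne (left_ne_zero_of_mul hm)
    obtain ⟨e3, e4⟩ := h.c_ne (right_ne_zero_of_mul hm)
    rw [e1] at e3 e4
    exact ⟨e3, e4⟩
  · obtain ⟨e1, -⟩ := h.c_ne (left_ne_zero_of_mul hm)
    obtain ⟨e3, e4⟩ := h.c_ne (right_ne_zero_of_mul hm)
    rw [e1, ← add_assoc] at e3 e4
    exact ⟨e3, e4⟩

theorem Ok.digits (h : M.Ok) (a : Fin M.n → ℕ) (s Z f : ℕ)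
    (hZ : Z = ∑ l : Fin M.n, a l * M.B ^ ((l : ℕ) - M.off s)) (hd : dig3 M.B f Z = true)
    (ha : ∀ l, a l ≤ 9 * (M.C * M.C)) (hs : ∀ l, a l ≠ 0 → M.dg l = s) (l : Fin M.n) :
    a l % 3 = 0 := by
  have hB : 0 < M.B := lt_of_le_of_lt (Nat.zero_le _) h.hBC
  have hoff : ∀ l : Fin M.n, M.dg l = s → M.off s ≤ l := fun l hl => by
    obtain ⟨b, -, -, e1, e2⟩ := h.mem l
    rw [← e1, hl] at e2; exact e2
  by_cases h0 : a l = 0
  · rw [h0]
  · have hl := hoff l (hs l h0)
    have e1 : M.B ^ M.off s * Z = ∑ l : Fin M.n, a l * M.B ^ (l : ℕ) := by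
      rw [hZ, Finset.mul_sum]
      refine Finset.sum_congr rfl fun q _ => ?_
      by_cases hq : a q = 0
      · simp [hq]
      · have := hoff q (hs q hq)
        rw [mul_left_comm, ← pow_add, Nat.add_sub_cancel' this]
    have e2 : ∑ l : Fin M.n, a l * M.B ^ (l : ℕ) =
        ∑ q ∈ Finset.range M.n, (if hq : q < M.n then a ⟨q, hq⟩ else 0) * M.B ^ q := by
      rw [Finset.sum_range]
      refine Finset.sum_congr rfl fun q _ => ?_
      simp
    have e3 := digit_sum hB M.n (fun q => if hq : q < M.n then a ⟨q, hq⟩ else 0) (fun q => by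
      by_cases hq : q < M.n
      · simp only [hq, dif_pos]; exact lt_of_le_of_lt (ha _) h.hBC
      · simp only [hq, dif_neg, not_false_iff]; exact hB) l l.2
    rw [← e2, ← e1] at e3
    simp only [l.2, dif_pos] at e3
    have e4 : M.B ^ (l : ℕ) = M.B ^ M.off s * M.B ^ ((l : ℕ) - M.off s) := by
      rw [← pow_add, Nat.add_sub_cancel' hl]
    rw [e4, Nat.mul_div_mul_left _ _ (pow_pos hB _)] at e3
    rw [← e3]
    exact dig3_spec _ _ _ hd _

theorem Ok.ac_mod (h : M.Ok) (i j k l : Fin M.n) :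
    ∃ z : ℤ, (nN i j k l : ℤ) = ac cc i j k l + 3 * z := by
  refine ⟨∑ m, (cN j k m : ℤ) * cN i m l, ?_⟩
  have e : ac cc i j k l = (∑ m, (cN i j m : ℤ) * cN m k l) -
      ∑ m, (cN j k m : ℤ) * cN i m l := by
    rw [← Finset.sum_sub_distrib]
    refine Finset.sum_congr rfl fun m _ => ?_
    rw [h.c_eq, h.c_eq, h.c_eq, h.c_eq]
  rw [e, nN]
  push_cast
  ring

def p (i : Fin M.n) : Bool := odd (M.dg i)

theorem wt_sn (a b : ℕ) : ∃ z : ℤ, (wt a b : ℤ) = sn (odd a) (odd b) + 3 * z := by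
  unfold wt sn
  cases odd a <;> cases odd b
  · exact ⟨0, by simp⟩
  · exact ⟨0, by simp⟩
  · exact ⟨0, by simp⟩
  · exact ⟨1, by simp⟩

theorem wt_le (a b : ℕ) : wt a b ≤ 2 := by
  unfold wt
  cases odd a <;> cases odd b <;> simp

theorem Ok.chk (h : M.Ok) (i j k : Fin M.n) (hok : M.ok (M.dg i + M.dg j + M.dg k) = true) :
    M.chkT (M.dg i) (M.dg j) (M.dg k) i j k = true := by
  obtain ⟨a, ha, hia, e1, -⟩ := h.mem i
  obtain ⟨b, hb, hjb, e2, -⟩ := h.mem j
  obtain ⟨c, hc, hkc, e3, -⟩ := h.mem k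
  have hB := h.hB
  rw [chkB, List.all_eq_true] at hB
  have h1 := hB a ha
  rw [List.all_eq_true] at h1
  have h2 := h1 b hb
  rw [List.all_eq_true] at h2
  have h3 := h2 c hc
  have hok' : M.ok (Nat.add (Nat.add a.1 b.1) c.1) = true := by rw [← e1, ← e2, ← e3]; exact hok
  rw [hok', cond_true, List.all_eq_true] at h3
  have h4 := h3 i hia
  rw [List.all_eq_true] at h4
  have h5 := h4 j hjb
  rw [List.all_eq_true] at h5
  have h6 := h5 k hkc
  rw [e1, e2, e3]; exact h6

theorem Ok.left_le (h : M.Ok) (i j k l : Fin M.n) (hij : (i : ℕ) ≤ j) :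
    (3 : ℤ) ∣ ac cc i j k l + sn (p i) (p j) * ac cc j i k l := by
  obtain ⟨z1, hz1⟩ := h.ac_mod i j k l
  obtain ⟨z2, hz2⟩ := h.ac_mod j i k l
  obtain ⟨z3, hz3⟩ := wt_sn (M.dg i) (M.dg j)
  have key : (nN i j k l + wt (M.dg i) (M.dg j) * nN j i k l) % 3 = 0 := by
    by_cases hok : M.ok (M.dg i + M.dg j + M.dg k) = true
    · have h1 := h.chk i j k hok
      rw [chkT, Bool.and_eq_true] at h1
      have h2 := h1.1
      have e : Nat.ble (i : ℕ) (j : ℕ) = true := by rw [Nat.ble_eq]; exact hij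
      rw [e, cond_true] at h2
      refine h.digits (fun l => nN i j k l + wt (M.dg i) (M.dg j) * nN j i k l)
        (M.dg i + M.dg j + M.dg k) _ _ ?_ h2 ?_ ?_ l
      · have hok' : M.ok (M.dg j + M.dg i + M.dg k) = true := by
          rw [add_comm (M.dg j)]; exact hok
        have e1 := h.N_eq i j k hok
        have e2 := h.N_eq j i k hok'
        rw [add_comm (M.dg j)] at e2
        change M.N _ _ _ _ _ _ + wt _ _ * M.N _ _ _ _ _ _ = _
        rw [e1, e2, Finset.mul_sum, ← Finset.sum_add_distrib]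
        refine Finset.sum_congr rfl fun q _ => ?_
        ring
      · intro q
        have h3 := h.nN_le i j k q
        have h4 := h.nN_le j i k q
        have h5 := Nat.mul_le_mul (wt_le (M.dg i) (M.dg j)) h4
        omega
      · intro q hq
        by_cases hq1 : nN i j k q = 0
        · have hq2 : nN j i k q ≠ 0 := fun h0 => hq (by rw [hq1, h0]; simp)
          rw [(h.nN_ne hq2).1, add_comm (M.dg j)]
        · exact (h.nN_ne hq1).1
    · have h1 : nN i j k l = 0 := by
        by_contra hne; exact hok (h.nN_ne hne).2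
      have h2 : nN j i k l = 0 := by
        by_contra hne
        have := (h.nN_ne hne).2
        rw [add_comm (M.dg j)] at this
        exact hok this
      rw [h1, h2]; simp
  have key' : ((nN i j k l : ℤ) + wt (M.dg i) (M.dg j) * nN j i k l) % 3 = 0 := by
    exact_mod_cast key
  obtain ⟨z, hz⟩ := Int.dvd_of_emod_eq_zero key'
  refine ⟨z - z1 - z3 * nN j i k l - sn (p i) (p j) * z2, ?_⟩
  have e5 : sn (p i) (p j) = (wt (M.dg i) (M.dg j) : ℤ) - 3 * z3 := by
    rw [hz3]; unfold p; ring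
  have e6 : ac cc i j k l = nN i j k l - 3 * z1 := by rw [hz1]; ring
  have e7 : ac cc j i k l = nN j i k l - 3 * z2 := by rw [hz2]; ring
  rw [e6, e7, e5]
  linear_combination hz

theorem Ok.right_le (h : M.Ok) (i j k l : Fin M.n) (hjk : (j : ℕ) ≤ k) :
    (3 : ℤ) ∣ ac cc i j k l + sn (p j) (p k) * ac cc i k j l := by
  obtain ⟨z1, hz1⟩ := h.ac_mod i j k l
  obtain ⟨z2, hz2⟩ := h.ac_mod i k j l
  obtain ⟨z3, hz3⟩ := wt_sn (M.dg j) (M.dg k)
  have key : (nN i j k l + wt (M.dg j) (M.dg k) * nN i k j l) % 3 = 0 := by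
    by_cases hok : M.ok (M.dg i + M.dg j + M.dg k) = true
    · have h1 := h.chk i j k hok
      rw [chkT, Bool.and_eq_true] at h1
      have h2 := h1.2
      have e : Nat.ble (j : ℕ) (k : ℕ) = true := by rw [Nat.ble_eq]; exact hjk
      rw [e, cond_true] at h2
      refine h.digits (fun l => nN i j k l + wt (M.dg j) (M.dg k) * nN i k j l)
        (M.dg i + M.dg j + M.dg k) _ _ ?_ h2 ?_ ?_ l
      · have hok' : M.ok (M.dg i + M.dg k + M.dg j) = true := by
          rw [add_right_comm]; exact hok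
        have e1 := h.N_eq i j k hok
        have e2 := h.N_eq i k j hok'
        rw [add_right_comm (M.dg i) (M.dg k)] at e2
        change M.N _ _ _ _ _ _ + wt _ _ * M.N _ _ _ _ _ _ = _
        rw [e1, e2, Finset.mul_sum, ← Finset.sum_add_distrib]
        refine Finset.sum_congr rfl fun q _ => ?_
        ring
      · intro q
        have h3 := h.nN_le i j k q
        have h4 := h.nN_le i k j q
        have h5 := Nat.mul_le_mul (wt_le (M.dg j) (M.dg k)) h4
        omega
      · intro q hq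
        by_cases hq1 : nN i j k q = 0
        · have hq2 : nN i k j q ≠ 0 := fun h0 => hq (by rw [hq1, h0]; simp)
          rw [(h.nN_ne hq2).1, add_right_comm]
        · exact (h.nN_ne hq1).1
    · have h1 : nN i j k l = 0 := by
        by_contra hne; exact hok (h.nN_ne hne).2
      have h2 : nN i k j l = 0 := by
        by_contra hne
        have := (h.nN_ne hne).2
        rw [add_right_comm] at this
        exact hok this
      rw [h1, h2]; simp
  have key' : ((nN i j k l : ℤ) + wt (M.dg j) (M.dg k) * nN i k j l) % 3 = 0 := by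
    exact_mod_cast key
  obtain ⟨z, hz⟩ := Int.dvd_of_emod_eq_zero key'
  refine ⟨z - z1 - z3 * nN i k j l - sn (p j) (p k) * z2, ?_⟩
  have e5 : sn (p j) (p k) = (wt (M.dg j) (M.dg k) : ℤ) - 3 * z3 := by
    rw [hz3]; unfold p; ring
  have e6 : ac cc i j k l = nN i j k l - 3 * z1 := by rw [hz1]; ring
  have e7 : ac cc i k j l = nN i k j l - 3 * z2 := by rw [hz2]; ring
  rw [e6, e7, e5]
  linear_combination hz

theorem sn_flip3 {a b : Bool} {z w : ℤ} (h : (3 : ℤ) ∣ z + sn a b * w) :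
    (3 : ℤ) ∣ w + sn b a * z := by
  have h1 : (3 : ℤ) ∣ sn b a * (z + sn a b * w) := Dvd.dvd.mul_left h _
  rw [mul_add, ← mul_assoc, Model.sn_comm b a, Model.sn_sq, one_mul] at h1
  rw [Model.sn_comm b a]
  rwa [add_comm] at h1

theorem Ok.good (h : M.Ok) : Good (cc (M := M)) p 3 where
  par i j k hc := by
    have hc' : cN i j k ≠ 0 := fun h0 => hc (by rw [h.c_eq, h0]; rfl)
    have h1 := (h.c_ne hc').1
    simp only [p]
    rw [h1]
    have key : ∀ a b : ℕ, odd (a + b) = xor (odd a) (odd b) := by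
      intro a b
      change Nat.beq ((a + b) % 2) 1 = xor (Nat.beq (a % 2) 1) (Nat.beq (b % 2) 1)
      rcases Nat.mod_two_eq_zero_or_one a with ha | ha <;>
      rcases Nat.mod_two_eq_zero_or_one b with hb | hb <;>
      rw [Nat.add_mod, ha, hb] <;> rfl
    exact key _ _
  left i j k l := by
    rcases le_total (i : ℕ) j with hij | hij
    · exact h.left_le i j k l hij
    · exact sn_flip3 (h.left_le j i k l hij)
  left' i k l hp := by
    have := h.left_le i i k l le_rfl
    rw [hp] at this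
    simp only [sn, Bool.and_self, Bool.false_eq_true, if_false, one_mul] at this
    omega
  right i j k l := by
    rcases le_total (j : ℕ) k with hjk | hjk
    · exact h.right_le i j k l hjk
    · exact sn_flip3 (h.right_le i k j l hjk)
  right' i j l hp := by
    have := h.right_le i j j l le_rfl
    rw [hp] at this
    simp only [sn, Bool.and_self, Bool.false_eq_true, if_false, one_mul] at this
    omega

end Md3

end Pool.Agent.J6H41.Sep
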