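import Pool.Agent.J6H41.Sep.Five
import Pool.Agent.J6H41.Sep.Table3

/-!
Evaluation in the envelope of a table modulo three.
-/

set_option linter.unusedSimpArgs false

namespace Pool.Agent.J6H41.Sep

open Finset

namespace Md3

variable {M : Md3}

theorem coef_vmul3 {L K : SV} (hL : bd M.n L) (hK : bd M.n K) (k : Fin M.n) :
    coef (M.mdl.vmul L K) k = ∑ i : Fin M.n, ∑ j : Fin M.n, coef L i * coef K j * cc i j k := by
  rw [coef, Model.ev_vmul, ev_eq_sum hL]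
  refine Finset.sum_congr rfl fun i _ => ?_
  rw [ev_eq_sum hK, Finset.mul_sum]
  refine Finset.sum_congr rfl fun j _ => ?_
  have : ev (dl (k : ℕ)) (M.mdl.S i j) = cc i j k := rfl
  rw [this]; ring

theorem tens_mul3 {G : Type*} [SRing G] {L K : SV} (hL : bd M.n L) (hK : bd M.n K) (γ δ : G) :
    emul (cc (M := M)) (tens M.n L γ) (tens M.n K δ) = tens M.n (M.mdl.vmul L K) (γ * δ) := by
  funext k
  rw [tens, coef_vmul3 hL hK]
  simp only [emul, tens, Finset.sum_smul]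
  refine Finset.sum_congr rfl fun i _ => Finset.sum_congr rfl fun j _ => ?_
  rw [smul_mul_smul_comm, smul_smul]
  congr 1; ring

theorem bd_vmul3 (hM : M.Ok) {L K : SV} (h1 : bd M.n L) (h2 : bd M.n K) :
    bd M.n (M.mdl.vmul L K) := by
  intro t ht
  obtain ⟨s, hs, ht⟩ := List.mem_flatMap.1 ht
  obtain ⟨r, hr, ht⟩ := List.mem_flatMap.1 ht
  obtain ⟨q, hq, rfl⟩ := List.mem_map.1 ht
  exact hM.bdS ⟨s.1, h1 s hs⟩ ⟨r.1, h2 r hr⟩ q hq

/-- `f` is `L ⊗ γ` -/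
structure Rep {G : Type*} [SRing G] (H : Good (cc (M := M)) p 3) (f : Env G H) (L : SV) (γ : G) :
    Prop where
  eq : f.1 = tens M.n L γ
  bd : bd M.n L

section Rep

variable {G : Type*} [SRing G] {H : Good (cc (M := M)) p 3} {f g h : Env G H} {L K J : SV}
  {γ δ ε : G}

theorem Rep.mul (hM : M.Ok) (h1 : Rep H f L γ) (h2 : Rep H g K δ) :
    Rep H (f * g) (M.mdl.vmul L K) (γ * δ) where
  eq := by rw [Env.mul_val, h1.eq, h2.eq, tens_mul3 h1.bd h2.bd]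
  bd := bd_vmul3 hM h1.bd h2.bd

theorem Rep.add (h1 : Rep H f L γ) (h2 : Rep H g K γ) : Rep H (f + g) (L ++ K) γ where
  eq := by
    rw [Env.add_val, h1.eq, h2.eq]
    funext i
    rw [Pi.add_apply, tens, tens, tens, Model.coef_append, add_smul]
  bd := Model.bd_append h1.bd h2.bd

theorem Rep.sub (h1 : Rep H f L γ) (h2 : Rep H g K γ) : Rep H (f - g) (L ++ Model.vneg K) γ where
  eq := by
    rw [Env.sub_val, h1.eq, h2.eq]
    funext i
    rw [Pi.sub_apply, tens, tens, tens, Model.coef_append, Model.coef_vneg, add_smul, neg_smul,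
      sub_eq_add_neg]
  bd := Model.bd_append h1.bd (Model.bd_vneg h2.bd)

theorem Rep.X (hM : M.Ok) (h1 : Rep H f L 1) (h2 : Rep H g K δ) :
    Rep H (Sep.X f g) (M.mdl.vmul L K ++ Model.vneg (M.mdl.vmul K L)) δ := by
  have e1 := h1.mul hM h2
  have e2 := h2.mul hM h1
  rw [one_mul] at e1
  rw [mul_one] at e2
  exact e1.sub e2

theorem Rep.asr (hM : M.Ok) (h1 : Rep H f L γ) (h2 : Rep H g K δ) (h3 : Rep H h J ε) :
    Rep H (Sep.asr f g h) (M.mdl.vmul (M.mdl.vmul L K) J ++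
      Model.vneg (M.mdl.vmul L (M.mdl.vmul K J))) (γ * δ * ε) := by
  have e1 := (h1.mul hM h2).mul hM h3
  have e2 := h1.mul hM (h2.mul hM h3)
  rw [← mul_assoc] at e2
  exact e1.sub e2

end Rep

theorem Rep.G {G : Type*} [SRing G] {H : Good (cc (M := M)) p 3} (hM : M.Ok)
    {x y z a b c : Env G H} {L K J a' b' c' : SV} {γ δ ε ζ η : G}
    (hx : Rep H x L 1) (hy : Rep H y K γ) (hz : Rep H z J δ) (ha : Rep H a a' ε)
    (hb : Rep H b b' ζ) (hc : Rep H c c' η) :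
    Rep H (Sep.G x y z a b c) (M.mdl.vG L K J a' b' c') (γ * δ * (ε * ζ * η)) := by
  have e1 := (hx.X hM hy).mul hM (hx.X hM hz)
  have e2 := hx.X hM (hx.asr hM hy hz)
  rw [one_mul] at e2
  have e3 := hx.X hM (e1.add e2)
  exact e3.mul hM (ha.asr hM hb hc)

/-- basis vector times a scalar -/
def elt3 {G : Type*} [SRing G] (H : Good (cc (M := M)) p 3) (i : ℕ) (γ : G)
    (hi : ∀ j : Fin M.n, (j : ℕ) = i → SRing.hom (p j) γ) : Env G H :=
  ⟨tens M.n [(i, 1)] γ, fun j => by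
    by_cases h : (j : ℕ) = i
    · exact hom_zsmul _ (hi j h)
    · have : coef [(i, 1)] (j : ℕ) = 0 := by
        simp [coef, ev, dl, Ne.symm h]
      rw [tens, this, zero_smul]; exact SRing.hom_zero _⟩

theorem elt3_rep {G : Type*} [SRing G] (H : Good (cc (M := M)) p 3) (i : ℕ) (hi' : i < M.n) (γ : G)
    (hi : ∀ j : Fin M.n, (j : ℕ) = i → SRing.hom (p j) γ) :
    Rep H (elt3 H i γ hi) [(i, 1)] γ where
  eq := rfl
  bd := by
    intro t ht
    rw [List.mem_singleton] at ht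
    rw [ht]; exact hi'

/-- nonvanishing criterion -/
theorem not_sep3 (hM : M.Ok) (Φ : Type*) [CommRing Φ] (x u v w r s : ℕ) (hx : x < M.n)
    (hu : u < M.n) (hv : v < M.n) (hw : w < M.n)
    (hr : r < M.n) (hs : s < M.n) (px : p (M := M) ⟨x, hx⟩ = false)
    (pu : p (M := M) ⟨u, hu⟩ = true)
    (pv : p (M := M) ⟨v, hv⟩ = true) (pw : p (M := M) ⟨w, hw⟩ = true)
    (pr : p (M := M) ⟨r, hr⟩ = true)
    (ps : p (M := M) ⟨s, hs⟩ = true) (t : ℕ) (ht : t < M.n) (z : ℤ)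
    (hz : coef (M.mdl.vG [(x, 1)] [(u, 1)] [(v, 1)] [(w, 1)] [(r, 1)] [(s, 1)]) t = z)
    (h3 : (3 : Φ) = 0)
    (hne : ((4 * z : ℤ) : Φ) ≠ 0) : ¬ Separated Φ (FreeAlt Φ ℕ) := by
  intro hsep
  have H := hM.good
  have hm : ((3 : ℤ) : G5 Φ) = 0 := by
    have := map_intCast (SAlg.ι (Φ := Φ) (G := G5 Φ)) 3
    rw [← this]
    have e : ((3 : ℤ) : Φ) = 0 := by exact_mod_cast h3
    rw [e, map_zero]
  have : IsAlt (Env (G5 Φ) H) := env_alt (G5 Φ) H hm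
  have fx : ∀ (i : ℕ) (hi : i < M.n) (γ : G5 Φ) (b : Bool), p (M := M) ⟨i, hi⟩ = b →
      SRing.hom b γ → ∀ j : Fin M.n, (j : ℕ) = i → SRing.hom (p (M := M) j) γ := by
    intro i hi γ b hb hγ j hj
    have : j = ⟨i, hi⟩ := Fin.ext hj
    rw [this, hb]; exact hγ
  let e0 : Env (G5 Φ) H := elt3 H x 1 (fx x hx 1 false px SRing.hom_one)
  let e1 : Env (G5 Φ) H := elt3 H u (x1 Φ) (fx u hu _ true pu (x1_hom Φ))
  let e2 : Env (G5 Φ) H := elt3 H v (x2 Φ) (fx v hv _ true pv (x2_hom Φ))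
  let e3 : Env (G5 Φ) H := elt3 H w (x3 Φ) (fx w hw _ true pw (x3_hom Φ))
  let e4 : Env (G5 Φ) H := elt3 H r (x4 Φ) (fx r hr _ true pr (x4_hom Φ))
  let e5 : Env (G5 Φ) H := elt3 H s (x5 Φ) (fx s hs _ true ps (x5_hom Φ))
  let f : ℕ → Env (G5 Φ) H := fun k =>
    if k = 0 then e0 else if k = 1 then e1 else if k = 2 then e2 else if k = 3 then e3
      else if k = 4 then e4 else e5
  let φ : FreeAlt Φ ℕ →ₙₐ[Φ] Env (G5 Φ) H := FreeAlt.lift f
  have hmem : G4 (FreeAlt.of 0) (FreeAlt.of 1) (FreeAlt.of 2) (FreeAlt.of 3) (FreeAlt.of 4)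
      (FreeAlt.of 5) ∈ assocIdeal Φ (FreeAlt Φ ℕ) ⊓ nuclearIdeal Φ (FreeAlt Φ ℕ) :=
    G4_mem _ _ _ _ _ _
  rw [hsep, Submodule.mem_bot] at hmem
  have h1 := congrArg φ hmem
  rw [map_G4, map_zero] at h1
  have hof : ∀ k, φ (FreeAlt.of k) = f k := fun k => FreeAlt.lift_of f k
  rw [hof, hof, hof, hof, hof, hof] at h1
  have h2 : G4 e0 e1 e2 e3 e4 e5 = 0 := h1
  have rep := Rep.G hM (elt3_rep H x hx 1 (fx x hx 1 false px SRing.hom_one))
    (elt3_rep H u hu (x1 Φ) (fx u hu _ true pu (x1_hom Φ)))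
    (elt3_rep H v hv (x2 Φ) (fx v hv _ true pv (x2_hom Φ)))
    (elt3_rep H w hw (x3 Φ) (fx w hw _ true pw (x3_hom Φ)))
    (elt3_rep H r hr (x4 Φ) (fx r hr _ true pr (x4_hom Φ)))
    (elt3_rep H s hs (x5 Φ) (fx s hs _ true ps (x5_hom Φ)))
  have h3 : (G4 e0 e1 e2 e3 e4 e5).1 ⟨t, ht⟩ = 0 := by rw [h2]; rfl
  have h4 : (Sep.G e0 e1 e2 e3 e4 e5).1 ⟨t, ht⟩ =
      z • (x1 Φ * x2 Φ * (x3 Φ * x4 Φ * x5 Φ)) := by
    have := congrFun rep.eq ⟨t, ht⟩
    rw [tens, hz] at this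
    exact this
  have h5 : (G4 e0 e1 e2 e3 e4 e5).1 ⟨t, ht⟩ =
      (4 * z) • (x1 Φ * x2 Φ * (x3 Φ * x4 Φ * x5 Φ)) := by
    rw [G4, Env.add_val, Env.add_val, Pi.add_apply, Pi.add_apply, h4, ← add_smul, ← add_smul]
    congr 1; ring
  rw [h3] at h5
  exact hne (top_ne Φ h5.symm)

end Md3

end Pool.Agent.J6H41.Sep
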