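import Pool.Agent.J6H41.Sep.Final76
import Pool.Agent.J6H41.Sep.Eval2

/-!
The free alternative algebra over `Φ` is not separated if `3 ≠ 0` in `Φ`.
-/

namespace Pool.Agent.J6H41.Sep

theorem not_separated_of_three (Φ : Type*) [CommRing Φ] (h : (3 : Φ) ≠ 0) :
    ¬ Separated Φ (FreeAlt Φ ℕ) := by
  by_cases h24 : (24 : Φ) = 0
  · by_cases h12 : (12 : Φ) = 0
    · by_cases h6 : (6 : Φ) = 0
      · exact not_separated_of_two Φ 3 (by rw [← h6]; norm_num) h
      · exact not_separated_of_two Φ 6 (by rw [← h12]; norm_num) h6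
    · exact not_separated_of_two Φ 12 (by rw [← h24]; norm_num) h12
  · exact not_separated_of_24 Φ h24

end Pool.Agent.J6H41.Sep
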