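import Pool.Agent.J6H41.Sep.Final2
import Pool.Agent.J6H41.Sep.Eval3
import Pool.Agent.J6H41.Sep.Chk3a
import Pool.Agent.J6H41.Sep.Chk3p0
import Pool.Agent.J6H41.Sep.Chk3p1
import Pool.Agent.J6H41.Sep.Chk3p2
import Pool.Agent.J6H41.Sep.Chk3p3
import Pool.Agent.J6H41.Sep.Chk3p4
import Pool.Agent.J6H41.Sep.Chk3p5

/-!
The free alternative algebra over a nontrivial ring is not separated.
-/

set_option maxRecDepth 100000

namespace Pool.Agent.J6H41.Sep

namespace D3

theorem chkB_append (l m : List (ℕ × List ℕ)) (h1 : md.chkB l = true) (h2 : md.chkB m = true) :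
    md.chkB (l ++ m) = true := by
  rw [Md3.chkB, List.all_append, Bool.and_eq_true]
  exact ⟨h1, h2⟩

theorem hB : md.chkB md.comps = true := by
  have h := chkB_append _ _ (chkB_append _ _ (chkB_append _ _ (chkB_append _ _
    (chkB_append _ _ hB0 hB1) hB2) hB3) hB4) hB5
  exact h

theorem ok : md.Ok where
  hb := hb
  hA := hA
  hB := hB
  hC := hC
  hBC := by decide +kernel

end D3

theorem not_separated_char3 (Φ : Type*) [CommRing Φ] [Nontrivial Φ] (h3 : (3 : Φ) = 0) :
    ¬ Separated Φ (FreeAlt Φ ℕ) := by
  refine Md3.not_sep3 D3.ok Φ 3 0 0 1 1 2 (by decide +kernel) (by decide +kernel)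
    (by decide +kernel) (by decide +kernel) (by decide +kernel) (by decide +kernel)
    (by decide +kernel) (by decide +kernel) (by decide +kernel) (by decide +kernel)
    (by decide +kernel) (by decide +kernel) 434 (by decide +kernel) 118 (by decide +kernel) h3 ?_
  intro h
  have e : ((4 * 118 : ℤ) : Φ) = 3 * 157 + 1 := by norm_num
  rw [e, h3, zero_mul, zero_add] at h
  exact one_ne_zero h

/-- The free alternative algebra on countably many generators is never separated. -/
theorem not_separated (Φ : Type*) [CommRing Φ] [Nontrivial Φ] :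
    ¬ Separated Φ (FreeAlt Φ ℕ) := by
  by_cases h : (3 : Φ) = 0
  · exact not_separated_char3 Φ h
  · exact not_separated_of_three Φ h

end Pool.Agent.J6H41.Sep
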