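import Pool.Agent.J6H41.Sep.Five
import Pool.Agent.J6H41.Sep.Data76

/-!
The free alternative algebra over `Φ` is not separated if `24 ≠ 0` in `Φ`.
-/

namespace Pool.Agent.J6H41.Sep

namespace D76

theorem ok : mdl.Ok where
  hb := by decide +kernel
  hA := by decide +kernel
  hB := by decide +kernel
  hC := by decide +kernel
  hBC := by decide +kernel

end D76

theorem not_separated_of_24 (Φ : Type*) [CommRing Φ] (h : (24 : Φ) ≠ 0) :
    ¬ Separated Φ (FreeAlt Φ ℕ) := by
  refine not_sep D76.ok Φ 1 0 0 0 0 0 (by decide +kernel) (by decide +kernel) (by decide +kernel)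
    (by decide +kernel) (by decide +kernel) (by decide +kernel) (by decide +kernel)
    (by decide +kernel) (by decide +kernel) (by decide +kernel) (by decide +kernel)
    (by decide +kernel) 75 (by decide +kernel) (-6) (by decide +kernel) ?_
  intro h'
  apply h
  have h2 : ((4 * -6 : ℤ) : Φ) = -24 := by norm_num
  rw [h2] at h'
  exact neg_eq_zero.1 h'

end Pool.Agent.J6H41.Sep
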