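import Pool.Agent.J6H41.Sep.Eval

/-!
Five odd variables, and nonvanishing in the free alternative algebra.
-/

set_option linter.unusedSimpArgs false

namespace Pool.Agent.J6H41.Sep

namespace SD

variable {G : Type*} [SRing G]

@[simp] theorem inc_re (a : G) : (inc a : SD G).re = a := rfl
@[simp] theorem inc_im (a : G) : (inc a : SD G).im = 0 := rfl
@[simp] theorem xi_re : (xi : SD G).re = 0 := rfl
@[simp] theorem xi_im : (xi : SD G).im = 1 := rfl

/-- the second coordinate -/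
def imH : SD G →+ G where
  toFun := SD.im
  map_zero' := rfl
  map_add' _ _ := rfl

theorem im_zsmul (z : ℤ) (a : SD G) : (z • a).im = z • a.im := map_zsmul (imH (G := G)) z a

theorem im_nat (m : ℕ) : ((m : SD G)).re = (m : G) := by
  induction m with
  | zero => simp
  | succ m ih => simp [ih]

theorem zsmul_im_eq_zero {z : ℤ} {a : SD G} (h : z • a = 0) : z • a.im = 0 := by
  rw [← im_zsmul, h]; rfl

end SD

open SD

/-- the Grassmann algebra on five generators over `Φ` -/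
abbrev G5 (Φ : Type*) [CommRing Φ] := SD (SD (SD (SD (SD (Base Φ)))))

section

variable (Φ : Type*) [CommRing Φ]

/-- the generators -/
def x1 : G5 Φ := inc (inc (inc (inc xi)))
def x2 : G5 Φ := inc (inc (inc xi))
def x3 : G5 Φ := inc (inc xi)
def x4 : G5 Φ := inc xi
def x5 : G5 Φ := xi

theorem x1_hom : SRing.hom true (x1 Φ) := hom_inc (hom_inc (hom_inc (hom_inc hom_xi)))
theorem x2_hom : SRing.hom true (x2 Φ) := hom_inc (hom_inc (hom_inc hom_xi))
theorem x3_hom : SRing.hom true (x3 Φ) := hom_inc (hom_inc hom_xi)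
theorem x4_hom : SRing.hom true (x4 Φ) := hom_inc hom_xi
theorem x5_hom : SRing.hom true (x5 Φ) := hom_xi

theorem top_ne {z : ℤ} (h : z • (x1 Φ * x2 Φ * (x3 Φ * x4 Φ * x5 Φ)) = 0) : (z : Φ) = 0 := by
  have h1 := zsmul_im_eq_zero h
  simp only [x1, x2, x3, x4, x5, mul_im, mul_re, inc_re, inc_im, xi_re, xi_im, mul_one, mul_zero,
    zero_mul, add_zero, map_zero, zero_add] at h1
  have h2 := zsmul_im_eq_zero h1
  simp only [mul_im, mul_re, inc_re, inc_im, xi_re, xi_im, mul_one, mul_zero,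
    zero_mul, add_zero, map_zero, zero_add] at h2
  have h3 := zsmul_im_eq_zero h2
  simp only [mul_im, mul_re, inc_re, inc_im, xi_re, xi_im, mul_one, mul_zero,
    zero_mul, add_zero, map_zero, zero_add] at h3
  have h4 := zsmul_im_eq_zero h3
  simp only [mul_im, mul_re, inc_re, inc_im, xi_re, xi_im, mul_one, mul_zero,
    zero_mul, add_zero, map_zero, zero_add] at h4
  have h5 := zsmul_im_eq_zero h4
  simp only [mul_im, mul_re, inc_re, inc_im, xi_re, xi_im, mul_one, mul_zero,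
    zero_mul, add_zero, map_zero, zero_add] at h5
  rw [zsmul_eq_mul, mul_one] at h5
  exact h5

end

section Hom

variable {Φ A B : Type*} [CommRing Φ] [NonUnitalNonAssocRing A] [NonUnitalNonAssocRing B]
  [Module Φ A] [Module Φ B] (φ : A →ₙₐ[Φ] B)

theorem map_asr (a b c : A) : φ (asr a b c) = asr (φ a) (φ b) (φ c) := by
  simp only [asr, map_sub, map_mul]
theorem map_X (a b : A) : φ (X a b) = X (φ a) (φ b) := by
  simp only [X, map_sub, map_mul]
theorem map_lam (x a b : A) : φ (lam x a b) = lam (φ x) (φ a) (φ b) := by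
  simp only [lam, pi', st, map_X, map_add, map_mul, map_asr]
theorem map_G (x y z a b c : A) : φ (G x y z a b c) = G (φ x) (φ y) (φ z) (φ a) (φ b) (φ c) := by
  simp only [G, map_mul, map_lam, map_asr]
theorem map_G4 (x y z a b c : A) :
    φ (G4 x y z a b c) = G4 (φ x) (φ y) (φ z) (φ a) (φ b) (φ c) := by
  simp only [G4, map_add, map_G]

end Hom

section Final

variable {M : Model} (hM : M.Ok) (Φ : Type*) [CommRing Φ]

/-- basis vector times an element of `G5` -/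
def elt {G : Type*} [SRing G] (H : Good M.c M.p 0) (i : ℕ) (γ : G) (hi : ∀ j : Fin M.n, (j : ℕ) = i →
    SRing.hom (M.p j) γ) : Env G H :=
  ⟨tens M.n [(i, 1)] γ, fun j => by
    by_cases h : (j : ℕ) = i
    · exact hom_zsmul _ (hi j h)
    · have : coef [(i, 1)] (j : ℕ) = 0 := by
        simp [coef, ev, dl, Ne.symm h]
      rw [tens, this, zero_smul]; exact SRing.hom_zero _⟩

theorem elt_rep {G : Type*} [SRing G] (H : Good M.c M.p 0) (i : ℕ) (hi' : i < M.n) (γ : G)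
    (hi : ∀ j : Fin M.n, (j : ℕ) = i → SRing.hom (M.p j) γ) :
    Model.Rep H (elt H i γ hi) [(i, 1)] γ where
  eq := rfl
  bd := by
    intro t ht
    rw [List.mem_singleton] at ht
    rw [ht]; exact hi'

include hM in
/-- nonvanishing criterion -/
theorem not_sep (x u v w r s : ℕ) (hx : x < M.n) (hu : u < M.n) (hv : v < M.n) (hw : w < M.n)
    (hr : r < M.n) (hs : s < M.n) (px : M.p ⟨x, hx⟩ = false) (pu : M.p ⟨u, hu⟩ = true)
    (pv : M.p ⟨v, hv⟩ = true) (pw : M.p ⟨w, hw⟩ = true) (pr : M.p ⟨r, hr⟩ = true)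
    (ps : M.p ⟨s, hs⟩ = true) (t : ℕ) (ht : t < M.n) (z : ℤ)
    (hz : coef (M.vG [(x, 1)] [(u, 1)] [(v, 1)] [(w, 1)] [(r, 1)] [(s, 1)]) t = z)
    (hne : ((4 * z : ℤ) : Φ) ≠ 0) : ¬ Separated Φ (FreeAlt Φ ℕ) := by
  intro hsep
  have H := hM.good
  have : IsAlt (Env (G5 Φ) H) := env_alt (G5 Φ) H (by simp)
  have fx : ∀ (i : ℕ) (hi : i < M.n) (γ : G5 Φ) (b : Bool), M.p ⟨i, hi⟩ = b → SRing.hom b γ →
      ∀ j : Fin M.n, (j : ℕ) = i → SRing.hom (M.p j) γ := by
    intro i hi γ b hb hγ j hj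
    have : j = ⟨i, hi⟩ := Fin.ext hj
    rw [this, hb]; exact hγ
  let e0 : Env (G5 Φ) H := elt H x 1 (fx x hx 1 false px SRing.hom_one)
  let e1 : Env (G5 Φ) H := elt H u (x1 Φ) (fx u hu _ true pu (x1_hom Φ))
  let e2 : Env (G5 Φ) H := elt H v (x2 Φ) (fx v hv _ true pv (x2_hom Φ))
  let e3 : Env (G5 Φ) H := elt H w (x3 Φ) (fx w hw _ true pw (x3_hom Φ))
  let e4 : Env (G5 Φ) H := elt H r (x4 Φ) (fx r hr _ true pr (x4_hom Φ))
  let e5 : Env (G5 Φ) H := elt H s (x5 Φ) (fx s hs _ true ps (x5_hom Φ))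
  let f : ℕ → Env (G5 Φ) H := fun k =>
    if k = 0 then e0 else if k = 1 then e1 else if k = 2 then e2 else if k = 3 then e3
      else if k = 4 then e4 else e5
  let φ : FreeAlt Φ ℕ →ₙₐ[Φ] Env (G5 Φ) H := FreeAlt.lift f
  have hmem : G4 (FreeAlt.of 0) (FreeAlt.of 1) (FreeAlt.of 2) (FreeAlt.of 3) (FreeAlt.of 4)
      (FreeAlt.of 5) ∈ assocIdeal Φ (FreeAlt Φ ℕ) ⊓ nuclearIdeal Φ (FreeAlt Φ ℕ) :=
    G4_mem _ _ _ _ _ _
  rw [hsep, Submodule.mem_bot] at hmem
  have h1 := congrArg φ hmem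
  rw [map_G4, map_zero] at h1
  have hof : ∀ k, φ (FreeAlt.of k) = f k := fun k => FreeAlt.lift_of f k
  rw [hof, hof, hof, hof, hof, hof] at h1
  have h2 : G4 e0 e1 e2 e3 e4 e5 = 0 := h1
  have rep := Model.Rep.G hM (elt_rep H x hx 1 (fx x hx 1 false px SRing.hom_one))
    (elt_rep H u hu (x1 Φ) (fx u hu _ true pu (x1_hom Φ)))
    (elt_rep H v hv (x2 Φ) (fx v hv _ true pv (x2_hom Φ)))
    (elt_rep H w hw (x3 Φ) (fx w hw _ true pw (x3_hom Φ)))
    (elt_rep H r hr (x4 Φ) (fx r hr _ true pr (x4_hom Φ)))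
    (elt_rep H s hs (x5 Φ) (fx s hs _ true ps (x5_hom Φ)))
  have h3 : (G4 e0 e1 e2 e3 e4 e5).1 ⟨t, ht⟩ = 0 := by rw [h2]; rfl
  have h4 : (Sep.G e0 e1 e2 e3 e4 e5).1 ⟨t, ht⟩ =
      z • (x1 Φ * x2 Φ * (x3 Φ * x4 Φ * x5 Φ)) := by
    have := congrFun rep.eq ⟨t, ht⟩
    rw [tens, hz] at this
    exact this
  have h5 : (G4 e0 e1 e2 e3 e4 e5).1 ⟨t, ht⟩ =
      (4 * z) • (x1 Φ * x2 Φ * (x3 Φ * x4 Φ * x5 Φ)) := by
    rw [G4, Env.add_val, Env.add_val, Pi.add_apply, Pi.add_apply, h4, ← add_smul, ← add_smul]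
    congr 1; ring
  rw [h3] at h5
  exact hne (top_ne Φ h5.symm)

end Final

end Pool.Agent.J6H41.Sep
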