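import Pool.Agent.J6H41.Sep.Main

/-!
The free alternative algebra, the nucleus, the associator ideal, and separated algebras.
-/

namespace Pool.Agent.J6H41.Sep

open FreeNonUnitalNonAssocAlgebra

section Defs

variable (Φ A : Type*) [CommRing Φ] [NonUnitalNonAssocRing A] [Module Φ A]

/-- `n` lies in the nucleus `N(A)`: all associators with an entry `n` vanish. -/
def InNucleus (n : A) : Prop :=
  ∀ a b : A, asr n a b = 0 ∧ asr a n b = 0 ∧ asr a b n = 0

/-- a `Φ`-submodule `I` is a two-sided ideal of `A` -/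
def IsIdeal (I : Submodule Φ A) : Prop :=
  ∀ x ∈ I, ∀ a : A, a * x ∈ I ∧ x * a ∈ I

/-- the associator ideal `D(A)`: the smallest ideal containing all associators -/
def assocIdeal : Submodule Φ A :=
  sInf {I : Submodule Φ A | IsIdeal Φ A I ∧ ∀ a b c : A, asr a b c ∈ I}

/-- `U(A)`: the sum of all ideals of `A` contained in the nucleus -/
def nuclearIdeal : Submodule Φ A :=
  sSup {I : Submodule Φ A | IsIdeal Φ A I ∧ ∀ n ∈ I, InNucleus A n}

/-- `A` is separated: `D(A) ∩ U(A) = 0` -/
def Separated : Prop := assocIdeal Φ A ⊓ nuclearIdeal Φ A = ⊥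

end Defs

section Free

variable (Φ X : Type*) [CommRing Φ]

/-- The congruence generated by the alternative laws on the free nonassociative `Φ`-algebra. -/
inductive AltRel : FreeNonUnitalNonAssocAlgebra Φ X → FreeNonUnitalNonAssocAlgebra Φ X → Prop
  | left (a b : FreeNonUnitalNonAssocAlgebra Φ X) : AltRel ((a * a) * b) (a * (a * b))
  | right (a b : FreeNonUnitalNonAssocAlgebra Φ X) : AltRel ((b * a) * a) (b * (a * a))
  | smul (t : Φ) {a b : FreeNonUnitalNonAssocAlgebra Φ X} : AltRel a b → AltRel (t • a) (t • b)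
  | add_right {a b : FreeNonUnitalNonAssocAlgebra Φ X} (c : FreeNonUnitalNonAssocAlgebra Φ X) :
      AltRel a b → AltRel (a + c) (b + c)
  | mul_left (a : FreeNonUnitalNonAssocAlgebra Φ X) {b c : FreeNonUnitalNonAssocAlgebra Φ X} :
      AltRel b c → AltRel (a * b) (a * c)
  | mul_right {a b : FreeNonUnitalNonAssocAlgebra Φ X} (c : FreeNonUnitalNonAssocAlgebra Φ X) :
      AltRel a b → AltRel (a * c) (b * c)

/-- The free alternative `Φ`-algebra on `X` (without unit): the quotient of the free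
nonassociative algebra by the congruence generated by the alternative laws. -/
def FreeAlt := Quot (AltRel Φ X)

variable {Φ X}

theorem AltRel.addLeft (a : FreeNonUnitalNonAssocAlgebra Φ X)
    {b c : FreeNonUnitalNonAssocAlgebra Φ X} (h : AltRel Φ X b c) :
    AltRel Φ X (a + b) (a + c) := by
  rw [add_comm _ b, add_comm _ c]; exact h.add_right _

theorem AltRel.neg {a b : FreeNonUnitalNonAssocAlgebra Φ X} (h : AltRel Φ X a b) :
    AltRel Φ X (-a) (-b) := by
  simpa only [neg_one_smul] using h.smul (-1)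

theorem AltRel.subLeft (a : FreeNonUnitalNonAssocAlgebra Φ X)
    {b c : FreeNonUnitalNonAssocAlgebra Φ X} (h : AltRel Φ X b c) :
    AltRel Φ X (a - b) (a - c) := by
  simpa only [sub_eq_add_neg] using h.neg.addLeft a

theorem AltRel.subRight {a b : FreeNonUnitalNonAssocAlgebra Φ X}
    (c : FreeNonUnitalNonAssocAlgebra Φ X) (h : AltRel Φ X a b) :
    AltRel Φ X (a - c) (b - c) := by
  simpa only [sub_eq_add_neg] using h.add_right (-c)

theorem AltRel.smulOfTower {S : Type*} [Monoid S] [DistribMulAction S Φ] [IsScalarTower S Φ Φ]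
    (t : S) (a b : FreeNonUnitalNonAssocAlgebra Φ X) (h : AltRel Φ X a b) :
    AltRel Φ X (t • a) (t • b) := by
  rw [← smul_one_smul Φ t a, ← smul_one_smul Φ t b]
  exact h.smul _

namespace FreeAlt

noncomputable section

instance {S : Type*} [Monoid S] [DistribMulAction S Φ] [IsScalarTower S Φ Φ] :
    SMul S (FreeAlt Φ X) where smul t := Quot.map (t • ·) (AltRel.smulOfTower t)

instance : Zero (FreeAlt Φ X) where zero := Quot.mk _ 0

instance : Add (FreeAlt Φ X) where
  add := Quot.map₂ (· + ·) (fun _ _ _ => AltRel.addLeft _) fun _ _ _ => AltRel.add_right _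

instance : Neg (FreeAlt Φ X) where neg := Quot.map Neg.neg fun _ _ => AltRel.neg

instance : Sub (FreeAlt Φ X) where
  sub := Quot.map₂ Sub.sub (fun _ _ _ => AltRel.subLeft _) fun _ _ _ => AltRel.subRight _

instance : AddGroup (FreeAlt Φ X) :=
  Function.Surjective.addGroup (Quot.mk _) Quot.mk_surjective rfl (fun _ _ => rfl)
    (fun _ => rfl) (fun _ _ => rfl) (fun _ _ => rfl) fun _ _ => rfl

instance : AddCommSemigroup (FreeAlt Φ X) :=
  Function.Surjective.addCommSemigroup (Quot.mk _) Quot.mk_surjective fun _ _ => rfl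

instance : AddCommGroup (FreeAlt Φ X) :=
  { (inferInstance : AddGroup (FreeAlt Φ X)),
    (inferInstance : AddCommSemigroup (FreeAlt Φ X)) with }

instance {S : Type*} [Semiring S] [Module S Φ] [IsScalarTower S Φ Φ] :
    Module S (FreeAlt Φ X) :=
  Function.Surjective.module S ⟨⟨Quot.mk (AltRel Φ X), rfl⟩, fun _ _ => rfl⟩
    Quot.mk_surjective (fun _ _ => rfl)

instance : Mul (FreeAlt Φ X) where
  mul := Quot.map₂ (· * ·) (fun _ _ _ => AltRel.mul_left _) fun _ _ _ => AltRel.mul_right _

instance : NonUnitalNonAssocRing (FreeAlt Φ X) where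
  left_distrib := by rintro ⟨a⟩ ⟨b⟩ ⟨c⟩; exact congrArg (Quot.mk _) (mul_add a b c)
  right_distrib := by rintro ⟨a⟩ ⟨b⟩ ⟨c⟩; exact congrArg (Quot.mk _) (add_mul a b c)
  zero_mul := by rintro ⟨a⟩; exact congrArg (Quot.mk _) (zero_mul a)
  mul_zero := by rintro ⟨a⟩; exact congrArg (Quot.mk _) (mul_zero a)

instance : IsScalarTower Φ (FreeAlt Φ X) (FreeAlt Φ X) where
  smul_assoc := by
    rintro t ⟨a⟩ ⟨b⟩; exact congrArg (Quot.mk _) (smul_mul_assoc t a b)

instance : SMulCommClass Φ (FreeAlt Φ X) (FreeAlt Φ X) where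
  smul_comm := by
    rintro t ⟨a⟩ ⟨b⟩; exact congrArg (Quot.mk _) (mul_smul_comm t a b).symm

/-- the generators -/
def of (x : X) : FreeAlt Φ X := Quot.mk _ (FreeNonUnitalNonAssocAlgebra.of Φ x)

instance : IsAlt (FreeAlt Φ X) where
  left := by
    rintro ⟨a⟩ ⟨b⟩
    have h : (Quot.mk (AltRel Φ X) ((a * a) * b) : FreeAlt Φ X) = Quot.mk _ (a * (a * b)) :=
      Quot.sound (AltRel.left a b)
    exact sub_eq_zero.2 h
  right := by
    rintro ⟨a⟩ ⟨b⟩
    have h : (Quot.mk (AltRel Φ X) ((b * a) * a) : FreeAlt Φ X) = Quot.mk _ (b * (a * a)) :=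
      Quot.sound (AltRel.right a b)
    exact sub_eq_zero.2 h

section Lift

variable {B : Type*} [NonUnitalNonAssocRing B] [Module Φ B] [IsScalarTower Φ B B]
  [SMulCommClass Φ B B] [IsAlt B]

theorem lift_spec (f : X → B) (a b : FreeNonUnitalNonAssocAlgebra Φ X) (h : AltRel Φ X a b) :
    FreeNonUnitalNonAssocAlgebra.lift Φ f a = FreeNonUnitalNonAssocAlgebra.lift Φ f b := by
  induction h with
  | left a b =>
    simp only [map_mul]
    exact sub_eq_zero.1 (IsAlt.left _ _)
  | right a b =>
    simp only [map_mul]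
    exact sub_eq_zero.1 (IsAlt.right _ _)
  | smul t _ ih => simp only [map_smul, ih]
  | add_right c _ ih => simp only [map_add, ih]
  | mul_left a _ ih => simp only [map_mul, ih]
  | mul_right c _ ih => simp only [map_mul, ih]

/-- the universal property: a map from `X` to an alternative algebra extends to a homomorphism -/
def lift (f : X → B) : FreeAlt Φ X →ₙₐ[Φ] B where
  toFun c := Quot.liftOn c (FreeNonUnitalNonAssocAlgebra.lift Φ f) (lift_spec f)
  map_smul' := by rintro t ⟨a⟩; exact map_smul _ _ _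
  map_zero' := map_zero (FreeNonUnitalNonAssocAlgebra.lift Φ f)
  map_add' := by rintro ⟨a⟩ ⟨b⟩; exact map_add _ _ _
  map_mul' := by rintro ⟨a⟩ ⟨b⟩; exact map_mul _ _ _

theorem lift_of (f : X → B) (x : X) : lift (Φ := Φ) f (of x) = f x :=
  FreeNonUnitalNonAssocAlgebra.lift_of_apply Φ f x

end Lift

end

end FreeAlt

end Free

end Pool.Agent.J6H41.Sep
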