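import Mathlib

/-!
Supercommutative rings: iterated extension by odd variables of square zero.
-/

namespace Pool.Agent.J6H41.Sep

/-- a ring with a parity automorphism and homogeneous elements which supercommute -/
class SRing (G : Type*) extends Ring G where
  sg : G →+* G
  hom : Bool → G → Prop
  hom_zero : ∀ p, hom p 0
  hom_add : ∀ {p a b}, hom p a → hom p b → hom p (a + b)
  hom_neg : ∀ {p a}, hom p a → hom p (-a)
  hom_mul : ∀ {p q a b}, hom p a → hom q b → hom (xor p q) (a * b)
  hom_one : hom false 1
  sg_even : ∀ {a}, hom false a → sg a = a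
  sg_odd : ∀ {a}, hom true a → sg a = -a
  comm_even : ∀ {q a b}, hom false a → hom q b → b * a = a * b
  comm_odd : ∀ {a b}, hom true a → hom true b → b * a = -(a * b)
  sq_odd : ∀ {a}, hom true a → a * a = 0

/-- the parity automorphism -/
abbrev sgm (G : Type*) [SRing G] : G →+* G := SRing.sg

/-- `G[ξ]` -/
@[ext] structure SD (G : Type*) where
  re : G
  im : G

namespace SD

variable {G : Type*} [SRing G]

instance : Zero (SD G) := ⟨⟨0, 0⟩⟩
instance : One (SD G) := ⟨⟨1, 0⟩⟩
instance : Add (SD G) := ⟨fun a b => ⟨a.re + b.re, a.im + b.im⟩⟩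
instance : Neg (SD G) := ⟨fun a => ⟨-a.re, -a.im⟩⟩
instance : Sub (SD G) := ⟨fun a b => ⟨a.re - b.re, a.im - b.im⟩⟩
instance : Mul (SD G) := ⟨fun a b => ⟨a.re * b.re, a.re * b.im + a.im * sgm G b.re⟩⟩

@[simp] theorem zero_re : (0 : SD G).re = 0 := rfl
@[simp] theorem zero_im : (0 : SD G).im = 0 := rfl
@[simp] theorem one_re : (1 : SD G).re = 1 := rfl
@[simp] theorem one_im : (1 : SD G).im = 0 := rfl
@[simp] theorem add_re (a b : SD G) : (a + b).re = a.re + b.re := rfl
@[simp] theorem add_im (a b : SD G) : (a + b).im = a.im + b.im := rfl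
@[simp] theorem neg_re (a : SD G) : (-a).re = -a.re := rfl
@[simp] theorem neg_im (a : SD G) : (-a).im = -a.im := rfl
@[simp] theorem sub_re (a b : SD G) : (a - b).re = a.re - b.re := rfl
@[simp] theorem sub_im (a b : SD G) : (a - b).im = a.im - b.im := rfl
@[simp] theorem mul_re (a b : SD G) : (a * b).re = a.re * b.re := rfl
@[simp] theorem mul_im (a b : SD G) : (a * b).im = a.re * b.im + a.im * sgm G b.re := rfl

instance : Ring (SD G) where
  add_assoc a b c := by ext <;> simp [add_assoc]
  zero_add a := by ext <;> simp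
  add_zero a := by ext <;> simp
  add_comm a b := by ext <;> simp [add_comm]
  neg_add_cancel a := by ext <;> simp
  sub_eq_add_neg a b := by ext <;> simp [sub_eq_add_neg]
  mul_assoc a b c := by ext <;> simp [mul_assoc, mul_add, add_mul, add_assoc]
  one_mul a := by ext <;> simp
  mul_one a := by ext <;> simp
  zero_mul a := by ext <;> simp
  mul_zero a := by ext <;> simp
  left_distrib a b c := by ext <;> simp [mul_add]; abel
  right_distrib a b c := by ext <;> simp [add_mul]; abel
  nsmul := nsmulRec
  zsmul := zsmulRec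

/-- the inclusion -/
def inc : G →+* SD G where
  toFun a := ⟨a, 0⟩
  map_one' := rfl
  map_zero' := rfl
  map_add' a b := by ext <;> simp
  map_mul' a b := by ext <;> simp

/-- the new odd variable -/
def xi : SD G := ⟨0, 1⟩

instance : SRing (SD G) where
  sg :=
    { toFun := fun a => ⟨sgm G a.re, - sgm G a.im⟩
      map_one' := by ext <;> simp
      map_zero' := by ext <;> simp
      map_add' := fun a b => by ext <;> simp; abel
      map_mul' := fun a b => by ext <;> simp; abel }
  hom p a := SRing.hom p a.re ∧ SRing.hom (!p) a.im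
  hom_zero p := ⟨SRing.hom_zero _, SRing.hom_zero _⟩
  hom_add h h' := ⟨SRing.hom_add h.1 h'.1, SRing.hom_add h.2 h'.2⟩
  hom_neg h := ⟨SRing.hom_neg h.1, SRing.hom_neg h.2⟩
  hom_mul := by
    rintro p q a b ⟨h1, h2⟩ ⟨h3, h4⟩
    refine ⟨SRing.hom_mul h1 h3, SRing.hom_add ?_ ?_⟩
    · have := SRing.hom_mul h1 h4
      cases p <;> cases q <;> simpa using this
    · cases q
      · rw [SRing.sg_even h3]
        have := SRing.hom_mul h2 h3
        cases p <;> simpa using this
      · rw [SRing.sg_odd h3]
        have := SRing.hom_mul h2 (SRing.hom_neg h3)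
        cases p <;> simpa using this
  hom_one := ⟨SRing.hom_one, SRing.hom_zero _⟩
  sg_even := by
    rintro a ⟨h1, h2⟩
    ext
    · exact SRing.sg_even h1
    · change - sgm G a.im = a.im
      rw [SRing.sg_odd h2, neg_neg]
  sg_odd := by
    rintro a ⟨h1, h2⟩
    ext
    · exact SRing.sg_odd h1
    · change - sgm G a.im = - a.im
      rw [SRing.sg_even h2]
  comm_even := by
    rintro q a b ⟨h1, h2⟩ ⟨h3, h4⟩
    ext
    · simpa using SRing.comm_even h1 h3
    · simp only [mul_im, Bool.not_false] at *
      rw [SRing.sg_even h1]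
      cases q
      · rw [SRing.sg_even h3]
        have e1 := SRing.comm_even h3 h2
        have e2 := SRing.comm_even h1 h4
        rw [e2, e1]; abel
      · rw [SRing.sg_odd h3]
        have e1 := SRing.comm_odd h2 h3
        have e2 := SRing.comm_even h1 h4
        rw [e2, e1]; simp; abel
  comm_odd := by
    rintro a b ⟨h1, h2⟩ ⟨h3, h4⟩
    ext
    · simpa using SRing.comm_odd h1 h3
    · simp only [mul_im, Bool.not_true, neg_im] at *
      rw [SRing.sg_odd h1, SRing.sg_odd h3]
      have e1 := SRing.comm_even h2 h3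
      have e2 := SRing.comm_even h4 h1
      simp only [mul_neg]
      rw [e1, e2]; abel
  sq_odd := by
    rintro a ⟨h1, h2⟩
    ext
    · simpa using SRing.sq_odd h1
    · simp only [mul_im, Bool.not_true, zero_im] at *
      rw [SRing.sg_odd h1]
      have e1 := SRing.comm_even h2 h1
      rw [e1]; simp

theorem hom_inc {p : Bool} {a : G} (h : SRing.hom p a) : SRing.hom p (inc a : SD G) :=
  ⟨h, SRing.hom_zero _⟩
theorem hom_xi : SRing.hom true (xi : SD G) := ⟨SRing.hom_zero _, SRing.hom_one⟩

end SD

/-- a commutative ring, with everything even -/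
def Base (R : Type*) := R

instance {R : Type*} [CommRing R] : CommRing (Base R) := inferInstanceAs (CommRing R)

instance {R : Type*} [CommRing R] : SRing (Base R) where
  sg := RingHom.id _
  hom p a := p = true → a = 0
  hom_zero p _ := rfl
  hom_add h h' hp := by rw [h hp, h' hp, add_zero]
  hom_neg h hp := by rw [h hp, neg_zero]
  hom_mul := by
    intro p q a b h h' hp
    cases p <;> cases q <;> simp_all
  hom_one := by simp
  sg_even _ := rfl
  sg_odd h := by rw [h rfl]; simp
  comm_even _ _ := mul_comm _ _
  comm_odd h _ := by rw [h rfl]; simp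
  sq_odd h := by rw [h rfl]; simp

end Pool.Agent.J6H41.Sep
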